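import Pool.Agent.H94.PG.M01
import Pool.Agent.H94.PG.M03

/-! The parts of this file: H78.PG.TGrow, H78.PG.TSup. -/

section

/-!
# LQ / PG, TGrow: growth lemmas

`grow`: `isLittleO_log_rpow_atTop` (`log x = o(x^(θ/(2k+2)))`), `(1 + log m)^k = o(m^θ)`.
`div_le`: `Pool.Agent.H92.EH.div_bound` with `θ/2` (`C m^(θ/2) ≤ m^θ`, `C` constant: `grow C 0`).
`two_pow_le`: `2^ω(m) ≤ d(m)` (`Nat.card_divisors`, every factor `e + 1 ≥ 2`).
`tot_le`: `m/φ(m) = ∏ (1 - 1/p)⁻¹ ≤ 2^ω(m)` (`Nat.totient_eq_mul_prod_factors`).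
`prod_le`: `(1 - p^(-1/2))⁻¹ ≤ 4 = 2^2` for `p ≥ 2` (`2^(-1/2) ≤ 0.7072 ≤ 3/4`), so the product is `≤ (2^ω)^2`.
`KK_le`: `KK m = √m d(m) (1 + log m)`, from `div_le` and `grow` with `θ/2`.
-/

set_option autoImplicit false

namespace Pool.Agent.H78.PG

open Finset
open Pool.Agent.H34PG (lam lam_val lam_mul)
open Pool.Agent.H11.LQ

theorem grow (A : ℝ) (k : ℕ) (θ : ℝ) (hθ : 0 < θ) :
    ∃ m0 : ℕ, ∀ m : ℕ, m0 ≤ m → A * (1 + Real.log m) ^ k ≤ (m : ℝ) ^ θ := by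
  have h1 : (fun x : ℝ => Real.log x) =o[Filter.atTop] (fun x : ℝ => x ^ (θ / (k + 1))) :=
    isLittleO_log_rpow_atTop (by positivity)
  have hA : 0 < 1 / (2 * (|A| + 1)) := by positivity
  have h2 := h1.bound hA
  rw [Filter.eventually_atTop] at h2
  obtain ⟨x0, hx0⟩ := h2
  have h3 : Filter.Tendsto (fun x : ℝ => x ^ (θ / (k + 1))) Filter.atTop Filter.atTop :=
    tendsto_rpow_atTop (by positivity)
  have h4 := h3.eventually (Filter.eventually_ge_atTop (2 * (|A| + 1)))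
  rw [Filter.eventually_atTop] at h4
  obtain ⟨x1, hx1⟩ := h4
  refine ⟨max 1 (max ⌈x0⌉₊ ⌈x1⌉₊), fun m hm => ?_⟩
  simp only [max_le_iff] at hm
  obtain ⟨hm1, hm2, hm3⟩ := hm
  have hmR : (1 : ℝ) ≤ m := by exact_mod_cast hm1
  have hm0 : (0 : ℝ) < m := by linarith
  have e0 : x0 ≤ m := (Nat.le_ceil x0).trans (by exact_mod_cast hm2)
  have e1 : x1 ≤ m := (Nat.le_ceil x1).trans (by exact_mod_cast hm3)
  have h5 := hx0 m e0
  have h6 := hx1 m e1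
  have hlog : 0 ≤ Real.log m := Real.log_nonneg hmR
  set y : ℝ := (m : ℝ) ^ (θ / (k + 1)) with hy
  have hy0 : 0 < y := Real.rpow_pos_of_pos hm0 _
  rw [Real.norm_of_nonneg hlog, Real.norm_of_nonneg hy0.le] at h5
  have hA1 : (1 : ℝ) ≤ |A| + 1 := by linarith [abs_nonneg A]
  have h7 : 1 + Real.log m ≤ y := by
    have h8 : (1 : ℝ) ≤ y / 2 := by linarith
    have h9 : 1 / (2 * (|A| + 1)) * y ≤ y / 2 := by
      have : 1 / (2 * (|A| + 1)) ≤ 1 / 2 := by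
        apply one_div_le_one_div_of_le (by norm_num)
        linarith
      nlinarith
    linarith
  have h8 : (1 + Real.log m) ^ k ≤ y ^ k := pow_le_pow_left₀ (by linarith) h7 k
  have h9 : A ≤ y := by
    have := le_abs_self A
    linarith
  have h10 : y * y ^ k = (m : ℝ) ^ θ := by
    rw [← pow_succ', hy, ← Real.rpow_natCast, ← Real.rpow_mul hm0.le]
    congr 1
    push_cast
    field_simp
  calc A * (1 + Real.log m) ^ k ≤ y * (1 + Real.log m) ^ k :=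
        mul_le_mul_of_nonneg_right h9 (by positivity)
    _ ≤ y * y ^ k := mul_le_mul_of_nonneg_left h8 hy0.le
    _ = (m : ℝ) ^ θ := h10

/-- the divisor bound for all numbers up to `m` -/
theorem div_le' (θ : ℝ) (hθ : 0 < θ) :
    ∃ m0 : ℕ, ∀ m : ℕ, m0 ≤ m → ∀ y : ℕ, 1 ≤ y → y ≤ m →
      (y.divisors.card : ℝ) ≤ (m : ℝ) ^ θ := by
  obtain ⟨C, hC1, hC⟩ := Pool.Agent.H92.EH.div_bound (θ / 2) (by positivity)
  obtain ⟨m0, hm0⟩ := grow C 0 (θ / 2) (by positivity)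
  refine ⟨max m0 1, fun m hm y hy1 hym => ?_⟩
  have hm1 : (1 : ℝ) ≤ m := by exact_mod_cast (le_max_right _ _).trans hm
  have h1 := hm0 m ((le_max_left _ _).trans hm)
  rw [pow_zero, mul_one] at h1
  have h2 := hC y hy1
  have h3 : (y : ℝ) ^ (θ / 2) ≤ (m : ℝ) ^ (θ / 2) :=
    Real.rpow_le_rpow (Nat.cast_nonneg _) (by exact_mod_cast hym) (by positivity)
  have h4 : (m : ℝ) ^ (θ / 2) * (m : ℝ) ^ (θ / 2) = (m : ℝ) ^ θ := by
    rw [← Real.rpow_add (by linarith)]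
    congr 1
    ring
  calc (y.divisors.card : ℝ) ≤ C * (y : ℝ) ^ (θ / 2) := h2
    _ ≤ (m : ℝ) ^ (θ / 2) * (m : ℝ) ^ (θ / 2) :=
      mul_le_mul h1 h3 (Real.rpow_nonneg (Nat.cast_nonneg _) _)
        (Real.rpow_nonneg (by linarith) _)
    _ = (m : ℝ) ^ θ := h4

theorem div_le (θ : ℝ) (hθ : 0 < θ) :
    ∃ m0 : ℕ, ∀ m : ℕ, m0 ≤ m → (m.divisors.card : ℝ) ≤ (m : ℝ) ^ θ := by
  obtain ⟨m0, hm0⟩ := div_le' θ hθ
  refine ⟨max m0 1, fun m hm => ?_⟩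
  exact hm0 m ((le_max_left _ _).trans hm) m ((le_max_right _ _).trans hm) le_rfl

theorem tgrow_two_pow (m : ℕ) (hm : 1 ≤ m) : 2 ^ m.primeFactors.card ≤ m.divisors.card := by
  rw [Nat.card_divisors (by omega)]
  rw [← Finset.prod_const]
  refine Finset.prod_le_prod' (fun p hp => ?_)
  have : 0 < m.factorization p :=
    (Nat.prime_of_mem_primeFactors hp).factorization_pos_of_dvd (by omega)
      (Nat.dvd_of_mem_primeFactors hp)
  omega

theorem two_pow_le (θ : ℝ) (hθ : 0 < θ) :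
    ∃ m0 : ℕ, ∀ m : ℕ, m0 ≤ m → (2 : ℝ) ^ (m.primeFactors.card) ≤ (m : ℝ) ^ θ := by
  obtain ⟨m0, hm0⟩ := div_le θ hθ
  refine ⟨max m0 1, fun m hm => ?_⟩
  refine le_trans ?_ (hm0 m ((le_max_left _ _).trans hm))
  exact_mod_cast tgrow_two_pow m ((le_max_right _ _).trans hm)

theorem tot_le (θ : ℝ) (hθ : 0 < θ) :
    ∃ m0 : ℕ, ∀ m : ℕ, m0 ≤ m → (m : ℝ) ≤ (m : ℝ) ^ θ * m.totient := by
  obtain ⟨m0, hm0⟩ := two_pow_le θ hθ
  refine ⟨max m0 1, fun m hm => ?_⟩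
  have h1 := hm0 m ((le_max_left _ _).trans hm)
  have h2 : ((m.totient : ℚ) : ℝ) = ((m * ∏ p ∈ m.primeFactors, (1 - (p : ℚ)⁻¹) : ℚ) : ℝ) := by
    rw [Nat.totient_eq_mul_prod_factors]
  push_cast at h2
  have h3 : (1 / 2 : ℝ) ^ m.primeFactors.card ≤ ∏ p ∈ m.primeFactors, (1 - (p : ℝ)⁻¹) := by
    rw [← Finset.prod_const]
    refine Finset.prod_le_prod (fun _ _ => by norm_num) (fun p hp => ?_)
    have hp2 : (2 : ℝ) ≤ p := by exact_mod_cast (Nat.prime_of_mem_primeFactors hp).two_le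
    have : (p : ℝ)⁻¹ ≤ 2⁻¹ := inv_anti₀ (by norm_num) hp2
    norm_num at this ⊢
    linarith
  have h4 : 1 ≤ (2 : ℝ) ^ m.primeFactors.card * ∏ p ∈ m.primeFactors, (1 - (p : ℝ)⁻¹) := by
    have h5 : (2 : ℝ) ^ m.primeFactors.card * (1 / 2 : ℝ) ^ m.primeFactors.card = 1 := by
      rw [← mul_pow]
      norm_num
    calc (1 : ℝ) = (2 : ℝ) ^ m.primeFactors.card * (1 / 2 : ℝ) ^ m.primeFactors.card := h5.symm
      _ ≤ _ := mul_le_mul_of_nonneg_left h3 (by positivity)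
  have hm0' : (0 : ℝ) ≤ m := Nat.cast_nonneg _
  have h6 : 0 ≤ ∏ p ∈ m.primeFactors, (1 - (p : ℝ)⁻¹) :=
    le_trans (by positivity) h3
  calc (m : ℝ) = m * 1 := by ring
    _ ≤ m * ((2 : ℝ) ^ m.primeFactors.card * ∏ p ∈ m.primeFactors, (1 - (p : ℝ)⁻¹)) :=
      mul_le_mul_of_nonneg_left h4 hm0'
    _ = (2 : ℝ) ^ m.primeFactors.card * (m * ∏ p ∈ m.primeFactors, (1 - (p : ℝ)⁻¹)) := by ring
    _ ≤ (m : ℝ) ^ θ * (m * ∏ p ∈ m.primeFactors, (1 - (p : ℝ)⁻¹)) :=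
      mul_le_mul_of_nonneg_right h1 (mul_nonneg hm0' h6)
    _ = (m : ℝ) ^ θ * m.totient := by rw [h2]

theorem prod_le (θ : ℝ) (hθ : 0 < θ) :
    ∃ m0 : ℕ, ∀ m : ℕ, m0 ≤ m →
      ∏ p ∈ m.primeFactors, (1 - (p : ℝ) ^ (-(1 / 2 : ℝ)))⁻¹ ≤ (m : ℝ) ^ θ := by
  obtain ⟨m0, hm0⟩ := two_pow_le (θ / 2) (by positivity)
  refine ⟨max m0 1, fun m hm => ?_⟩
  have hm1 : (1 : ℝ) ≤ m := by exact_mod_cast (le_max_right _ _).trans hm
  have h1 := hm0 m ((le_max_left _ _).trans hm)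
  have h2 : ∏ p ∈ m.primeFactors, (1 - (p : ℝ) ^ (-(1 / 2 : ℝ)))⁻¹
      ≤ (4 : ℝ) ^ m.primeFactors.card := by
    rw [← Finset.prod_const]
    have hfac : ∀ p ∈ m.primeFactors, (1 / 4 : ℝ) ≤ 1 - (p : ℝ) ^ (-(1 / 2 : ℝ)) := by
      intro p hp
      have hp2 : (2 : ℝ) ≤ p := by exact_mod_cast (Nat.prime_of_mem_primeFactors hp).two_le
      have h3 : (p : ℝ) ^ (-(1 / 2 : ℝ)) ≤ (2 : ℝ) ^ (-(1 / 2 : ℝ)) :=
        Real.rpow_le_rpow_of_nonpos (by norm_num) hp2 (by norm_num)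
      have h4 : (2 : ℝ) ^ (-(1 / 2 : ℝ)) ≤ 3 / 4 := by
        rw [Real.rpow_neg (by norm_num), ← Real.sqrt_eq_rpow]
        rw [inv_le_comm₀ (by positivity) (by norm_num)]
        apply Real.le_sqrt_of_sq_le
        norm_num
      linarith
    refine Finset.prod_le_prod (fun p hp => ?_) (fun p hp => ?_)
    · have := hfac p hp
      exact inv_nonneg.2 (by linarith)
    · have h5 := hfac p hp
      rw [inv_le_comm₀ (by linarith) (by norm_num)]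
      linarith
  refine h2.trans ?_
  have h3 : (4 : ℝ) ^ m.primeFactors.card
      = (2 : ℝ) ^ m.primeFactors.card * (2 : ℝ) ^ m.primeFactors.card := by
    rw [← mul_pow]
    norm_num
  have h4 : (m : ℝ) ^ (θ / 2) * (m : ℝ) ^ (θ / 2) = (m : ℝ) ^ θ := by
    rw [← Real.rpow_add (by linarith)]
    congr 1
    ring
  rw [h3, ← h4]
  exact mul_le_mul h1 h1 (by positivity) (Real.rpow_nonneg (by linarith) _)

theorem KK_le (θ : ℝ) (hθ : 0 < θ) :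
    ∃ m0 : ℕ, ∀ m : ℕ, m0 ≤ m → KK m ≤ (m : ℝ) ^ (1 / 2 + θ) := by
  obtain ⟨m1, H1⟩ := div_le (θ / 2) (by positivity)
  obtain ⟨m2, H2⟩ := grow 1 1 (θ / 2) (by positivity)
  refine ⟨max m1 (max m2 1), fun m hm => ?_⟩
  simp only [max_le_iff] at hm
  obtain ⟨hm1, hm2, hm3⟩ := hm
  have hmR : (1 : ℝ) ≤ m := by exact_mod_cast hm3
  have h1 := H1 m hm1
  have h2 := H2 m hm2
  rw [pow_one, one_mul] at h2
  have hlog : 0 ≤ Real.log m := Real.log_nonneg hmR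
  have h4 : (m : ℝ) ^ (1 / 2 : ℝ) * (m : ℝ) ^ (θ / 2) * (m : ℝ) ^ (θ / 2)
      = (m : ℝ) ^ (1 / 2 + θ) := by
    rw [← Real.rpow_add (by linarith), ← Real.rpow_add (by linarith)]
    congr 1
    ring
  unfold KK
  rw [← h4, Real.sqrt_eq_rpow]
  have h5 : 0 ≤ (m : ℝ) ^ (1 / 2 : ℝ) := Real.rpow_nonneg (by linarith) _
  have h6 : 0 ≤ (m : ℝ) ^ (θ / 2) := Real.rpow_nonneg (by linarith) _
  refine mul_le_mul (mul_le_mul_of_nonneg_left h1 h5) h2 (by linarith) (mul_nonneg h5 h6)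

end Pool.Agent.H78.PG

end

section

/-!
# LQ / PG, TSup: the supply of auxiliary products

`BB_up`: `1/rr ≤ δ/200`, `m ≥ 1`.  `BB_low`: `⌊x⌋ ≥ x/2` for `x ≥ 1`, and `m^(1/rr) → ∞`.
`PB_card`: `#PB ≥ π(B) - ω(m)`, `π(B) ≥ B/(2 log B)` (Mathlib `Chebyshev.psi_ge`,
`Chebyshev.psi_le_primeCounting_mul_log`), `ω(m) ≤ log₂ m ≤ B/(4 log B)` for large `m`; so
`#PB ≥ B/(4 log m)`.
`SS_card`: `#(powersetCard j PB) = (#PB choose j) ≥ (#PB/j)^j` (Mathlib `Nat.pow_le_choose`-type bound, or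
`Nat.choose` lower bound `((n+1-j)/j)^j`; crude is fine), the map `A ↦ ∏ A` is injective (the prime factors
of the product are `A`: `Nat.primeFactors_prod`), and `(1/(8 rr log m))^rr ≥ m^(-δ/50)` for large `m` (`grow`).
`j = 0`: `SS = {1}`.
-/

set_option autoImplicit false

namespace Pool.Agent.H78.PG

open Finset
open Pool.Agent.H34PG (lam lam_val lam_mul)
open Pool.Agent.H11.LQ

theorem rr_pos {δ : ℝ} (h0 : 0 < δ) (h1 : δ ≤ 1 / 100) : 1 ≤ rr δ := by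
  unfold rr
  exact Nat.one_le_ceil_iff.mpr (by positivity)

theorem BB_up {δ : ℝ} (h0 : 0 < δ) {m : ℕ} (hm : 1 ≤ m) :
    ((BB δ m : ℕ) : ℝ) ≤ (m : ℝ) ^ (δ / 200) := by
  unfold BB
  have hm' : (1 : ℝ) ≤ m := by exact_mod_cast hm
  refine (Nat.floor_le (by positivity)).trans (Real.rpow_le_rpow_of_exponent_le hm' ?_)
  have h2 : 200 / δ ≤ (rr δ : ℝ) := Nat.le_ceil _
  have h3 : 0 < 200 / δ := by positivity
  calc 1 / (rr δ : ℝ) ≤ 1 / (200 / δ) := one_div_le_one_div_of_le h3 h2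
    _ = δ / 200 := by rw [one_div_div]

private theorem tsup_root (r : ℕ) (hr : 1 ≤ r) (K : ℝ) :
    ∃ m0 : ℕ, ∀ m : ℕ, m0 ≤ m → K ≤ (m : ℝ) ^ (1 / (r : ℝ)) := by
  have hr' : (0 : ℝ) < 1 / (r : ℝ) := by
    have : (1 : ℝ) ≤ r := by exact_mod_cast hr
    positivity
  have h := ((tendsto_rpow_atTop hr').comp tendsto_natCast_atTop_atTop).eventually
    (Filter.eventually_ge_atTop K)
  obtain ⟨m0, hm0⟩ := Filter.eventually_atTop.mp h
  exact ⟨m0, fun m hm => hm0 m hm⟩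

private theorem tsup_pow {δ : ℝ} (h0 : 0 < δ) (h1 : δ ≤ 1 / 100) (m : ℕ) :
    ((m : ℝ) ^ (1 / (rr δ : ℝ))) ^ rr δ = m := by
  have hr : (1 : ℝ) ≤ rr δ := by exact_mod_cast rr_pos h0 h1
  rw [← Real.rpow_natCast, ← Real.rpow_mul (by positivity), one_div_mul_cancel (by positivity),
    Real.rpow_one]

theorem BB_low (δ : ℝ) (h0 : 0 < δ) (h1 : δ ≤ 1 / 100) : ∃ m0 : ℕ, ∀ m : ℕ, m0 ≤ m →
    2 ≤ BB δ m ∧ (m : ℝ) ^ (1 / (rr δ : ℝ)) ≤ 2 * BB δ m ∧ BB δ m ^ rr δ ≤ m ∧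
      (m : ℝ) ≤ 2 ^ rr δ * (BB δ m : ℝ) ^ rr δ ∧ m < BB δ m ^ (rr δ + 1) := by
  have hr := rr_pos h0 h1
  obtain ⟨m0, hm0⟩ := tsup_root (rr δ) hr ((2 : ℝ) ^ rr δ + 2)
  refine ⟨m0, fun m hm => ?_⟩
  have hx := hm0 m hm
  have hxr := tsup_pow h0 h1 m
  have hx0 : (0 : ℝ) ≤ (m : ℝ) ^ (1 / (rr δ : ℝ)) := by positivity
  have hfl : ((BB δ m : ℕ) : ℝ) ≤ (m : ℝ) ^ (1 / (rr δ : ℝ)) := Nat.floor_le hx0
  have hlt : (m : ℝ) ^ (1 / (rr δ : ℝ)) < (BB δ m : ℝ) + 1 := Nat.lt_floor_add_one _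
  have h2r : (1 : ℝ) ≤ 2 ^ rr δ := one_le_pow₀ (by norm_num)
  have hBbig : (2 : ℝ) ^ rr δ < BB δ m := by linarith only [h0, h1, hx, hlt]
  have hB2 : (2 : ℝ) ≤ BB δ m := by linarith only [hx, hlt, h2r]
  have hle : (m : ℝ) ^ (1 / (rr δ : ℝ)) ≤ 2 * BB δ m := by linarith only [h0, h1, hx, hlt, h2r]
  have hm1 : (m : ℝ) ≤ 2 ^ rr δ * (BB δ m : ℝ) ^ rr δ := by
    rw [← mul_pow]
    calc (m : ℝ) = ((m : ℝ) ^ (1 / (rr δ : ℝ))) ^ rr δ := hxr.symm
      _ ≤ (2 * (BB δ m : ℝ)) ^ rr δ := pow_le_pow_left₀ hx0 hle _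
  refine ⟨by exact_mod_cast hB2, hle, ?_, hm1, ?_⟩
  · have h3 : ((BB δ m : ℕ) : ℝ) ^ rr δ ≤ (m : ℝ) := by
      calc ((BB δ m : ℕ) : ℝ) ^ rr δ ≤ ((m : ℝ) ^ (1 / (rr δ : ℝ))) ^ rr δ :=
            pow_le_pow_left₀ (by positivity) hfl _
        _ = m := hxr
    exact_mod_cast h3
  · have h4 : (m : ℝ) < (BB δ m : ℝ) ^ (rr δ + 1) := by
      calc (m : ℝ) ≤ 2 ^ rr δ * (BB δ m : ℝ) ^ rr δ := hm1
        _ < (BB δ m : ℝ) * (BB δ m : ℝ) ^ rr δ :=
            mul_lt_mul_of_pos_right hBbig (pow_pos (by linarith only [h0, h1, hx, hlt, h2r]) _)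
        _ = (BB δ m : ℝ) ^ (rr δ + 1) := by rw [pow_succ]; ring
    exact_mod_cast h4

private theorem tsup_pi (B : ℕ) (hB : 16 ≤ B) :
    (B : ℝ) / 2 ≤ (Nat.primeCounting B : ℝ) * Real.log B := by
  have h1 := Chebyshev.psi_ge B
  have h2 := Chebyshev.psi_le_primeCounting_mul_log B
  have hB' : (16 : ℝ) ≤ B := by exact_mod_cast hB
  have h3 : Real.log ((B : ℝ) + 1) ≤ ((B : ℝ) + 1) / 16 - 1 + 4 * Real.log 2 := by
    have h4 : (B : ℝ) + 1 = ((B : ℝ) + 1) / 16 * 2 ^ 4 := by ring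
    have h5 : Real.log ((B : ℝ) + 1) = Real.log (((B : ℝ) + 1) / 16) + 4 * Real.log 2 := by
      conv_lhs => rw [h4]
      rw [Real.log_mul (by positivity) (by positivity), Real.log_pow]
      norm_num
    rw [h5]
    have := Real.log_le_sub_one_of_pos (show (0 : ℝ) < ((B : ℝ) + 1) / 16 by positivity)
    linarith only [this]
  have h6 := Real.log_two_gt_d9
  have h7 := Real.log_two_lt_d9
  nlinarith only [h1, h2, hB', h3, h6, h7]

private theorem tsup_omega (m : ℕ) (hm : (2 : ℝ) ^ (m.primeFactors.card) ≤ (m : ℝ) ^ (1 : ℝ)) :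
    (m.primeFactors.card : ℝ) ≤ 2 * Real.log m := by
  rw [Real.rpow_one] at hm
  have h1 := Real.log_le_log (by positivity) hm
  rw [Real.log_pow] at h1
  have h6 := Real.log_two_gt_d9
  have h7 : (0 : ℝ) ≤ (m.primeFactors.card : ℝ) := by positivity
  nlinarith only [h1, h6]

theorem PB_card (δ : ℝ) (h0 : 0 < δ) (h1 : δ ≤ 1 / 100) : ∃ m0 : ℕ, ∀ m : ℕ, m0 ≤ m →
    (BB δ m : ℝ) / (4 * Real.log m) ≤ ((PB δ m).card : ℝ) := by
  have hr := rr_pos h0 h1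
  have hr' : (1 : ℝ) ≤ rr δ := by exact_mod_cast hr
  obtain ⟨m1, hm1⟩ := BB_low δ h0 h1
  obtain ⟨m2, hm2⟩ := tsup_root (rr δ) hr 32
  obtain ⟨m3, hm3⟩ := grow 16 2 (1 / (rr δ : ℝ)) (by positivity)
  obtain ⟨m4, hm4⟩ := two_pow_le 1 one_pos
  refine ⟨m1 + m2 + m3 + m4 + 3, fun m hm => ?_⟩
  obtain ⟨hB2, hxB, hBm, -, -⟩ := hm1 m (by omega)
  have hx32 := hm2 m (by omega)
  have hgr := hm3 m (by omega)
  have hom := tsup_omega m (hm4 m (by omega))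
  have hm3' : (3 : ℝ) ≤ m := by
    have : 3 ≤ m := by omega
    exact_mod_cast this
  have hL : 1 ≤ Real.log m := by
    rw [Real.le_log_iff_exp_le (by linarith only [h0, h1, hm3'])]
    have := Real.exp_one_lt_d9
    linarith only [h0, h1, hm3', this]
  have hB16 : 16 ≤ BB δ m := by
    have : (16 : ℝ) ≤ BB δ m := by linarith only [hxB, hx32]
    exact_mod_cast this
  have hpi := tsup_pi _ hB16
  have hBmle : BB δ m ≤ m := le_trans (Nat.le_self_pow (by omega) _) hBm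
  have hBpos : (0 : ℝ) < BB δ m := by
    have : (16 : ℝ) ≤ BB δ m := by exact_mod_cast hB16
    linarith only [h0, h1, hxB, hx32]
  have hlogB : Real.log (BB δ m) ≤ Real.log m :=
    Real.log_le_log hBpos (by exact_mod_cast hBmle)
  have hcard : Nat.primeCounting (BB δ m) ≤ (PB δ m).card + m.primeFactors.card := by
    have hsub : (Finset.range (BB δ m + 1)).filter Nat.Prime ⊆ PB δ m ∪ m.primeFactors := by
      intro p hp
      rw [mem_filter, mem_range, Nat.lt_succ_iff] at hp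
      rw [mem_union, mem_PB, Nat.mem_primeFactors]
      by_cases hpm : p ∣ m
      · exact Or.inr ⟨hp.2, hpm, by omega⟩
      · exact Or.inl ⟨hp.1, hp.2, hpm⟩
    calc Nat.primeCounting (BB δ m) = ((Finset.range (BB δ m + 1)).filter Nat.Prime).card := by
          rw [Nat.primeCounting, Nat.primeCounting', Nat.count_eq_card_filter_range]
      _ ≤ (PB δ m ∪ m.primeFactors).card := card_le_card hsub
      _ ≤ (PB δ m).card + m.primeFactors.card := card_union_le _ _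
  have hcard' : (Nat.primeCounting (BB δ m) : ℝ) ≤
      ((PB δ m).card : ℝ) + (m.primeFactors.card : ℝ) := by exact_mod_cast hcard
  have hpiL : (BB δ m : ℝ) / 2 ≤ (Nat.primeCounting (BB δ m) : ℝ) * Real.log m :=
    hpi.trans (mul_le_mul_of_nonneg_left hlogB (by positivity))
  have hB8 : 8 * Real.log m ^ 2 ≤ BB δ m := by
    have h9 : 16 * Real.log m ^ 2 ≤ 16 * (1 + Real.log m) ^ 2 := by nlinarith only [h0, h1, hL]
    linarith only [h0, h1, hxB, hgr, hL]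
  rw [div_le_iff₀ (by positivity)]
  have h10 : (BB δ m : ℝ) / 2 ≤ (((PB δ m).card : ℝ) + 2 * Real.log m) * Real.log m :=
    hpiL.trans (mul_le_mul_of_nonneg_right (by linarith only [hom, hcard']) (by linarith only [h0, h1, hL]))
  nlinarith only [h0, h1, hxB, hgr, hL, h10]

private theorem tsup_inj (δ : ℝ) (m j : ℕ) : (SS δ m j).card = (PB δ m).card.choose j := by
  unfold SS
  rw [card_image_of_injOn, card_powersetCard]
  intro A hA B hB hAB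
  rw [mem_coe, mem_powersetCard] at hA hB
  have hA' : ∀ p ∈ A, p.Prime := fun p hp => (mem_PB.mp (hA.1 hp)).2.1
  have hB' : ∀ p ∈ B, p.Prime := fun p hp => (mem_PB.mp (hB.1 hp)).2.1
  have h1 := Nat.primeFactors_prod hA'
  have h2 := Nat.primeFactors_prod hB'
  have hAB' : ∏ p ∈ A, p = ∏ p ∈ B, p := hAB
  rw [← h1, ← h2, hAB']

theorem SS_card (δ : ℝ) (h0 : 0 < δ) (h1 : δ ≤ 1 / 100) : ∃ m0 : ℕ, ∀ m : ℕ, m0 ≤ m →
    ∀ j : ℕ, j ≤ rr δ →
      (BB δ m : ℝ) ^ j * (m : ℝ) ^ (-(δ / 50)) ≤ ((SS δ m j).card : ℝ) := by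
  have hr := rr_pos h0 h1
  have hr' : (1 : ℝ) ≤ rr δ := by exact_mod_cast hr
  obtain ⟨m1, hm1⟩ := BB_low δ h0 h1
  obtain ⟨m2, hm2⟩ := PB_card δ h0 h1
  obtain ⟨m3, hm3⟩ := grow (16 * rr δ) 1 (1 / (rr δ : ℝ)) (by positivity)
  obtain ⟨m4, hm4⟩ := grow ((8 : ℝ) ^ rr δ * (rr δ).factorial) (rr δ) (δ / 50) (by positivity)
  refine ⟨m1 + m2 + m3 + m4 + 3, fun m hm j hj => ?_⟩
  obtain ⟨hB2, hxB, hBm, -, -⟩ := hm1 m (by omega)
  have hPB := hm2 m (by omega)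
  have hg1 := hm3 m (by omega)
  have hg2 := hm4 m (by omega)
  have hm3' : (3 : ℝ) ≤ m := by
    have : 3 ≤ m := by omega
    exact_mod_cast this
  have hL : 1 ≤ Real.log m := by
    rw [Real.le_log_iff_exp_le (by linarith only [h0, h1, hm3'])]
    have := Real.exp_one_lt_d9
    linarith only [h0, h1, hm3', this]
  have hn2 : 2 * (rr δ : ℝ) ≤ ((PB δ m).card : ℝ) := by
    refine le_trans ?_ hPB
    rw [le_div_iff₀ (by positivity)]
    rw [pow_one] at hg1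
    nlinarith only [h0, h1, hr', hxB, hg1]
  have hn2' : 2 * rr δ ≤ (PB δ m).card := by exact_mod_cast hn2
  rw [tsup_inj]
  -- binomial lower bound
  have hch := Nat.pow_le_choose (α := ℝ) j (PB δ m).card
  have hchoose : (((PB δ m).card : ℝ) / 2) ^ j ≤
      (j.factorial : ℝ) * ((PB δ m).card.choose j : ℝ) := by
    have h5 : ((PB δ m).card : ℝ) / 2 ≤ (((PB δ m).card + 1 - j : ℕ) : ℝ) := by
      rw [Nat.cast_sub (by omega)]
      have : (j : ℝ) ≤ rr δ := by exact_mod_cast hj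
      push_cast
      linarith only [h0, h1, hn2, this]
    have h6 := pow_le_pow_left₀ (by positivity) h5 j
    refine h6.trans ?_
    rw [div_le_iff₀ (by positivity)] at hch
    linarith only [hch]
  have hmpos : (0 : ℝ) < (m : ℝ) ^ (δ / 50) := Real.rpow_pos_of_pos (by linarith only [h0, h1, hm3']) _
  have hfac : (8 * Real.log m) ^ j * (j.factorial : ℝ) ≤ (m : ℝ) ^ (δ / 50) := by
    refine le_trans ?_ hg2
    have h8 : (8 * Real.log m) ^ j ≤ (8 * (1 + Real.log m)) ^ rr δ := by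
      calc (8 * Real.log m) ^ j ≤ (8 * (1 + Real.log m)) ^ j :=
            pow_le_pow_left₀ (by linarith only [h0, h1, hL]) (by linarith only [h0, h1]) _
        _ ≤ (8 * (1 + Real.log m)) ^ rr δ := pow_le_pow_right₀ (by linarith only [h0, h1, hL]) hj
    have h9 : (j.factorial : ℝ) ≤ ((rr δ).factorial : ℝ) := by
      exact_mod_cast Nat.factorial_le hj
    calc (8 * Real.log m) ^ j * (j.factorial : ℝ)
        ≤ (8 * (1 + Real.log m)) ^ rr δ * ((rr δ).factorial : ℝ) :=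
          mul_le_mul h8 h9 (by positivity) (by positivity)
      _ = (8 : ℝ) ^ rr δ * (rr δ).factorial * (1 + Real.log m) ^ rr δ := by
          rw [mul_pow]; ring
  have hBn : (BB δ m : ℝ) ≤ 8 * Real.log m * (((PB δ m).card : ℝ) / 2) := by
    rw [div_le_iff₀ (by positivity)] at hPB
    linarith only [hPB]
  rw [Real.rpow_neg (by positivity), ← div_eq_mul_inv, div_le_iff₀ hmpos]
  calc (BB δ m : ℝ) ^ j ≤ (8 * Real.log m * (((PB δ m).card : ℝ) / 2)) ^ j :=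
        pow_le_pow_left₀ (by positivity) hBn _
    _ = (8 * Real.log m) ^ j * (((PB δ m).card : ℝ) / 2) ^ j := by rw [mul_pow]
    _ ≤ (8 * Real.log m) ^ j * ((j.factorial : ℝ) * ((PB δ m).card.choose j : ℝ)) :=
        mul_le_mul_of_nonneg_left hchoose (by positivity)
    _ = ((PB δ m).card.choose j : ℝ) * ((8 * Real.log m) ^ j * (j.factorial : ℝ)) := by ring
    _ ≤ ((PB δ m).card.choose j : ℝ) * (m : ℝ) ^ (δ / 50) :=
        mul_le_mul_of_nonneg_left hfac (by positivity)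

end Pool.Agent.H78.PG

end
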