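import Pool.Agent.H94.PG.M02
import Pool.Agent.H94.PG.M07

/-! The parts of this file: H78.PG.TW, H78.PD.Defs, H78.PD.TDef. -/

section

/-!
# LQ / PG, TW: total weight 1, weight outside `XX`

`weight_one`: `parseval`; `‖FC m η u‖ = 1` for units `u` (`m ≥ 2`, so `m ∤ u.val`; `F_val`).
`weight`: for a prime `q ≤ BB` (`≤ m^(δ/200) ≤ m^δ`) not dividing `m`: by `twist`,
`∑ ‖cc‖² ‖χ q + 1‖² = (1/φ) ∑_u ‖FC (q u) + FC u‖² ≤ 4 #Ex(q)/φ ≤ 4 m^(1-δ)/φ(m) ≤ m^(-δ + δ/50)` (`tot_le`; `u.val ∉ Ex`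
gives `F (q u) = lam q F u = - F u`).  A `χ ∉ XX` has a `q` with `‖χ q + 1‖² > m^(-δ/2)`, so the weight outside is
`≤ ∑_{q ≤ BB} m^(δ/2) m^(-δ+δ/50) ≤ m^(δ/200 + δ/2 - δ + δ/50) ≤ m^(-δ/4)`.
-/

set_option autoImplicit false

namespace Pool.Agent.H78.PG

open Finset
open Pool.Agent.H34PG (lam lam_val lam_mul lam_prime)
open Pool.Agent.H11.LQ

private theorem tw_val {m : ℕ} [NeZero m] (hm : 2 ≤ m) (u : (ZMod m)ˣ) : ¬ m ∣ (u : ZMod m).val := by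
  intro h
  have h1 : (u : ZMod m).val < m := ZMod.val_lt _
  have h2 : (u : ZMod m).val = 0 := Nat.eq_zero_of_dvd_of_lt h h1
  have h3 : (u : ZMod m) = 0 := (ZMod.val_eq_zero _).mp h2
  have : Fact (1 < m) := ⟨by omega⟩
  exact u.ne_zero h3

private theorem tw_norm {m : ℕ} [NeZero m] (hm : 2 ≤ m) {η : ℤ} (hη : η = 1 ∨ η = -1)
    (u : (ZMod m)ˣ) : ‖FC m η (u : ZMod m)‖ = 1 := by
  unfold FC
  rcases F_val (m := m) hη (tw_val hm u) with h | h <;> rw [h] <;> simp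

theorem weight_one (m : ℕ) [NeZero m] (hm : 2 ≤ m) (η : ℤ) (hη : η = 1 ∨ η = -1) :
    ∑ χ : DirichletCharacter ℂ m, ‖cc m (FC m η) χ‖ ^ 2 = 1 := by
  rw [parseval]
  have h1 : ∀ u : (ZMod m)ˣ, ‖FC m η (u : ZMod m)‖ ^ 2 = 1 := fun u => by
    rw [tw_norm hm hη u, one_pow]
  rw [Finset.sum_congr rfl fun u _ => h1 u, sum_const, card_univ, ZMod.card_units_eq_totient,
    nsmul_eq_mul, mul_one]
  have h2 : 0 < m.totient := Nat.totient_pos.mpr (by omega)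
  have h3 : (m.totient : ℝ) ≠ 0 := by positivity
  field_simp

private theorem tw_bound {m : ℕ} [NeZero m] (hm : 2 ≤ m) {η : ℤ} (hη : η = 1 ∨ η = -1) {q : ℕ}
    (hq : q.Prime) :
    ∑ u : (ZMod m)ˣ, ‖FC m η ((q : ZMod m) * u) + FC m η (u : ZMod m)‖ ^ 2
      ≤ 4 * ((Ex m η q).card : ℝ) := by
  classical
  have h1 : ∀ u : (ZMod m)ˣ, ‖FC m η ((q : ZMod m) * u) + FC m η (u : ZMod m)‖ ^ 2
      ≤ if (u : ZMod m).val ∈ Ex m η q then (4 : ℝ) else 0 := by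
    intro u
    have e1 : FC m η ((q : ZMod m) * u) = ((F m η (q * (u : ZMod m).val) : ℤ) : ℂ) := by
      rw [← FC_natCast]
      congr 1
      rw [Nat.cast_mul, ZMod.natCast_zmod_val]
    have e2 : FC m η (u : ZMod m) = ((F m η (u : ZMod m).val : ℤ) : ℂ) := rfl
    rw [e1, e2]
    split_ifs with h
    · have h3 : ‖((F m η (q * (u : ZMod m).val) : ℤ) : ℂ)‖ ≤ 1 := by
        by_cases h4 : m ∣ q * (u : ZMod m).val
        · rw [F_dvd h4]; simp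
        · rcases F_val (m := m) hη h4 with h5 | h5 <;> rw [h5] <;> simp
      have h4 : ‖((F m η (u : ZMod m).val : ℤ) : ℂ)‖ = 1 := tw_norm hm hη u
      have h5 := norm_add_le ((F m η (q * (u : ZMod m).val) : ℤ) : ℂ)
        ((F m η (u : ZMod m).val : ℤ) : ℂ)
      have h6 : ‖((F m η (q * (u : ZMod m).val) : ℤ) : ℂ) + ((F m η (u : ZMod m).val : ℤ) : ℂ)‖ ≤ 2 := by
        linarith
      nlinarith [norm_nonneg (((F m η (q * (u : ZMod m).val) : ℤ) : ℂ) +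
        ((F m η (u : ZMod m).val : ℤ) : ℂ))]
    · have h3 : F m η (q * (u : ZMod m).val) = lam q * F m η (u : ZMod m).val := by
        by_contra hc
        exact h (mem_Ex.mpr ⟨ZMod.val_lt _, hc⟩)
      rw [h3, lam_prime hq]
      simp
  refine (sum_le_sum fun u _ => h1 u).trans ?_
  rw [← sum_filter, sum_const, nsmul_eq_mul, mul_comm]
  refine mul_le_mul_of_nonneg_left ?_ (by norm_num)
  rw [Nat.cast_le]
  refine card_le_card_of_injOn (fun u : (ZMod m)ˣ => (u : ZMod m).val) ?_ ?_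
  · intro u hu
    rw [mem_coe, mem_filter] at hu
    exact hu.2
  · intro u _ v _ huv
    exact Units.ext (ZMod.val_injective m huv)

open Classical in
theorem weight (δ : ℝ) (h0 : 0 < δ) (h1 : δ ≤ 1 / 100) : ∃ m0 : ℕ, ∀ (m : ℕ) [NeZero m],
    m0 ≤ m → ∀ η : ℤ, Hyp δ m η →
      ∑ χ ∈ univ.filter (fun χ => χ ∉ XX δ m), ‖cc m (FC m η) χ‖ ^ 2 ≤ (m : ℝ) ^ (-(δ / 4)) := by
  obtain ⟨m1, hm1⟩ := tot_le (δ / 50) (by positivity)
  obtain ⟨m2, hm2⟩ := grow 8 0 (9 * δ / 40) (by positivity)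
  refine ⟨m1 + m2 + 2, fun m _ hm η hH => ?_⟩
  obtain ⟨hη, hEx⟩ := hH
  have hmm : 2 ≤ m := by omega
  have hm0 : (0 : ℝ) < m := by
    have : 0 < m := by omega
    exact_mod_cast this
  have hm1' : (1 : ℝ) ≤ m := by
    have : 1 ≤ m := by omega
    exact_mod_cast this
  have hBB : ((BB δ m : ℕ) : ℝ) ≤ (m : ℝ) ^ (δ / 200) := BB_up h0 (by omega)
  have hφ : 0 < (m.totient : ℝ) := by
    have h2 : 0 < m.totient := Nat.totient_pos.mpr (by omega)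
    exact_mod_cast h2
  have hT : (1 / (m.totient : ℝ)) ≤ (m : ℝ) ^ (δ / 50) / m := by
    have h2 := hm1 m (by omega)
    rw [div_le_div_iff₀ hφ hm0, one_mul]
    exact h2
  -- the bound for one prime
  have hq : ∀ q ∈ PB δ m, ∑ χ : DirichletCharacter ℂ m,
      ‖cc m (FC m η) χ‖ ^ 2 * ‖χ (q : ZMod m) + 1‖ ^ 2 ≤ 4 * (m : ℝ) ^ (-δ + δ / 50) := by
    intro q hq
    rw [mem_PB] at hq
    obtain ⟨hq1, hq2, hq3⟩ := hq
    have hu : IsUnit (q : ZMod m) := by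
      rw [ZMod.isUnit_iff_coprime]
      exact (Nat.Prime.coprime_iff_not_dvd hq2).mpr hq3
    rw [twist m (FC m η) (q : ZMod m) hu]
    have h3 := tw_bound hmm hη (q := q) hq2
    have h4 : (q : ℝ) ≤ (m : ℝ) ^ δ := by
      have h5 : (q : ℝ) ≤ ((BB δ m : ℕ) : ℝ) := by exact_mod_cast hq1
      exact (h5.trans hBB).trans (Real.rpow_le_rpow_of_exponent_le hm1' (by linarith))
    have h5 := hEx q hq2 h4
    have h6 : 0 ≤ ∑ u : (ZMod m)ˣ, ‖FC m η ((q : ZMod m) * u) + FC m η (u : ZMod m)‖ ^ 2 :=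
      sum_nonneg fun _ _ => by positivity
    calc (1 / (m.totient : ℝ)) * ∑ u : (ZMod m)ˣ,
          ‖FC m η ((q : ZMod m) * u) + FC m η (u : ZMod m)‖ ^ 2
        ≤ ((m : ℝ) ^ (δ / 50) / m) * (4 * (m : ℝ) ^ (1 - δ)) := by
          refine mul_le_mul hT (h3.trans (by linarith)) h6 (by positivity)
      _ = 4 * (m : ℝ) ^ (-δ + δ / 50) := by
          have e1 : (m : ℝ) ^ (-δ + δ / 50) = (m : ℝ) ^ (δ / 50) / m * (m : ℝ) ^ (1 - δ) := by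
            rw [div_mul_eq_mul_div, ← Real.rpow_add hm0, ← Real.rpow_sub_one hm0.ne']
            congr 1
            ring
          rw [e1]; ring
  -- comparison
  have hc : ∀ χ ∈ univ.filter (fun χ : DirichletCharacter ℂ m => χ ∉ XX δ m),
      ‖cc m (FC m η) χ‖ ^ 2 ≤ ∑ q ∈ PB δ m, (m : ℝ) ^ (δ / 2) *
        (‖cc m (FC m η) χ‖ ^ 2 * ‖χ (q : ZMod m) + 1‖ ^ 2) := by
    intro χ hχ
    rw [mem_filter] at hχ
    have h3 := hχ.2
    rw [mem_XX] at h3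
    push Not at h3
    obtain ⟨q, hq1, hq2, hq3, hq4⟩ := h3
    have h5 : q ∈ PB δ m := mem_PB.mpr ⟨hq2, hq1, hq3⟩
    have h6 : ‖cc m (FC m η) χ‖ ^ 2 ≤ (m : ℝ) ^ (δ / 2) *
        (‖cc m (FC m η) χ‖ ^ 2 * ‖χ (q : ZMod m) + 1‖ ^ 2) := by
      have h7 : (m : ℝ) ^ (-(δ / 2)) ≤ ‖χ (q : ZMod m) + 1‖ ^ 2 := by
        have e1 : (m : ℝ) ^ (-(δ / 2)) = ((m : ℝ) ^ (-(δ / 4))) ^ 2 := by
          rw [← Real.rpow_natCast, ← Real.rpow_mul hm0.le]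
          congr 1
          push_cast
          ring
        rw [e1]
        exact pow_le_pow_left₀ (by positivity) hq4.le 2
      have h8 : (m : ℝ) ^ (δ / 2) * (m : ℝ) ^ (-(δ / 2)) = 1 := by
        rw [← Real.rpow_add hm0, add_neg_cancel, Real.rpow_zero]
      calc ‖cc m (FC m η) χ‖ ^ 2
          = ‖cc m (FC m η) χ‖ ^ 2 * ((m : ℝ) ^ (δ / 2) * (m : ℝ) ^ (-(δ / 2))) := by
            rw [h8, mul_one]
        _ = (m : ℝ) ^ (δ / 2) * (‖cc m (FC m η) χ‖ ^ 2 * (m : ℝ) ^ (-(δ / 2))) := by ring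
        _ ≤ _ := by
            refine mul_le_mul_of_nonneg_left ?_ (by positivity)
            exact mul_le_mul_of_nonneg_left h7 (by positivity)
    refine h6.trans ?_
    exact single_le_sum (f := fun q : ℕ => (m : ℝ) ^ (δ / 2) *
        (‖cc m (FC m η) χ‖ ^ 2 * ‖χ (q : ZMod m) + 1‖ ^ 2)) (fun _ _ => by positivity) h5
  have hsum : ∑ χ ∈ univ.filter (fun χ : DirichletCharacter ℂ m => χ ∉ XX δ m),
      ‖cc m (FC m η) χ‖ ^ 2 ≤ ∑ q ∈ PB δ m, (m : ℝ) ^ (δ / 2) *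
        (4 * (m : ℝ) ^ (-δ + δ / 50)) := by
    refine (sum_le_sum hc).trans ?_
    rw [sum_comm]
    refine sum_le_sum fun q hq' => ?_
    rw [← mul_sum]
    refine mul_le_mul_of_nonneg_left ?_ (by positivity)
    refine le_trans ?_ (hq q hq')
    exact sum_le_sum_of_subset_of_nonneg (filter_subset _ _) fun _ _ _ => by positivity
  refine hsum.trans ?_
  rw [sum_const, nsmul_eq_mul]
  have hcard : ((PB δ m).card : ℝ) ≤ 2 * (m : ℝ) ^ (δ / 200) := by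
    have h3 : (PB δ m).card ≤ BB δ m + 1 := by
      unfold PB
      exact (card_filter_le _ _).trans (by rw [card_range])
    have h4 : ((PB δ m).card : ℝ) ≤ ((BB δ m : ℕ) : ℝ) + 1 := by exact_mod_cast h3
    have h5 : (1 : ℝ) ≤ (m : ℝ) ^ (δ / 200) := Real.one_le_rpow hm1' (by positivity)
    linarith
  have h8 : (8 : ℝ) ≤ (m : ℝ) ^ (9 * δ / 40) := by
    have := hm2 m (by omega)
    simpa using this
  calc ((PB δ m).card : ℝ) * ((m : ℝ) ^ (δ / 2) * (4 * (m : ℝ) ^ (-δ + δ / 50)))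
      ≤ (2 * (m : ℝ) ^ (δ / 200)) * ((m : ℝ) ^ (δ / 2) * (4 * (m : ℝ) ^ (-δ + δ / 50))) :=
        mul_le_mul_of_nonneg_right hcard (by positivity)
    _ = 8 * ((m : ℝ) ^ (δ / 200) * ((m : ℝ) ^ (δ / 2) * (m : ℝ) ^ (-δ + δ / 50))) := by ring
    _ ≤ (m : ℝ) ^ (9 * δ / 40) *
        ((m : ℝ) ^ (δ / 200) * ((m : ℝ) ^ (δ / 2) * (m : ℝ) ^ (-δ + δ / 50))) :=
        mul_le_mul_of_nonneg_right h8 (by positivity)
    _ = (m : ℝ) ^ (-(δ / 4)) := by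
        rw [← Real.rpow_add hm0, ← Real.rpow_add hm0, ← Real.rpow_add hm0]
        congr 1
        ring

end Pool.Agent.H78.PG

end

section

/-!
# PD (LQ stage 3, MP_967f73_nt): definitions (helper78)

`m` is the modulus, `L = log m`, `φ = φ(m)`; all characters are Dirichlet characters mod `m` with complex values.

* `ww m η χ = ‖cc m (FC m η) χ‖²` (total `1`), `wout m η X` the weight outside `X`;
* `LSP m X B γ P1 P2`: `∑_{χ ∈ X} |∑_{y ∈ cop m Y} f(y) χ(y)|² ≤ B φ m P^(-2+γ)` for `P1 ≤ P ≤ P2`, `2PY ≤ m`, `|f| ≤ 1`;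
* blocks: `Hn x = ⌈log x⌉`, `aj x j = e^x (1 + 1/Hn x)^j`, `Jn x = ⌈2 Hn x x²⌉`, `TB m x j` = primes `p ∤ m` in `(aj x j, aj x (j+1)]`,
  `WB m x = ∑_{j < Jn x} ∑_{p ∈ TB m x j} 1/p`, `YB m x j = ⌊m/(2 aj x (j+1))⌋`;
* `UU m x α` = the characters with `|∑_{p ∈ TB m x j} χ(p)| ≥ (aj x j)^(1-α)` for some `j < Jn x`;
* `gB m x n = (1/WB) #{(j, p) : p ∈ TB m x j, p ∣ n, n ≤ p YB m x j}`;
* `GU m η U n = ∑_{χ ∈ U} cc χ · χ(n)`, `dn m η U n = (2n/φ) ∑_{y ∈ cop m (m/(2n))} ‖λ(n)λ(y) - GU(n y)‖²`;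
* `vv m χ n = λ(n) χ(n)`, `Nrm m η U d = ∑_{χ ∈ U} ww χ ‖d χ‖²`;
* `PI m X Y` = primes `p ∤ m` with `X < p ≤ Y`; `rou z n`: all prime factors of `n` are `> z`;
* `zN κ m = ⌊m^κ⌋`, `BR κ m` = the `zN κ m`-rough `b ≤ m^(399/800)` prime to `m`; `M1 m = ⌊m^(201/400)⌋`;
* `AP m` = `PI m (m^(1/200)) (m^(23/100))`; `RR κ m` = the `zN κ m`-rough `n` prime to `m` in `(M1/16, M1]` with a prime factor in `AP m`.
-/

set_option autoImplicit false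

namespace Pool.Agent.H78.PD

open Finset
open Pool.Agent.H34PG (lam lam_val lam_mul lam_prime)
open Pool.Agent.H11.LQ Pool.Agent.H78.PG

/-- the weights -/
noncomputable def ww (m : ℕ) [NeZero m] (η : ℤ) (χ : DirichletCharacter ℂ m) : ℝ :=
  ‖cc m (FC m η) χ‖ ^ 2

open Classical in
/-- the weight outside `X` -/
noncomputable def wout (m : ℕ) [NeZero m] (η : ℤ) (X : Finset (DirichletCharacter ℂ m)) : ℝ :=
  ∑ χ ∈ univ.filter (fun χ => χ ∉ X), ww m η χ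

/-- the large sieve property -/
def LSP (m : ℕ) [NeZero m] (X : Finset (DirichletCharacter ℂ m)) (B γ P1 P2 : ℝ) : Prop :=
  ∀ P : ℝ, P1 ≤ P → P ≤ P2 → ∀ Y : ℕ, 2 * P * Y ≤ m → ∀ f : ℕ → ℂ, (∀ y, ‖f y‖ ≤ 1) →
    ∑ χ ∈ X, ‖∑ y ∈ cop m Y, f y * χ (y : ZMod m)‖ ^ 2
      ≤ B * m.totient * m * P ^ (-2 + γ)

/-- the refinement of the blocks -/
noncomputable def Hn (x : ℝ) : ℕ := ⌈Real.log x⌉₊

/-- the ends of the blocks -/
noncomputable def aj (x : ℝ) (j : ℕ) : ℝ := Real.exp x * (1 + 1 / (Hn x : ℝ)) ^ j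

/-- the number of blocks -/
noncomputable def Jn (x : ℝ) : ℕ := ⌈2 * (Hn x : ℝ) * x ^ 2⌉₊

/-- the primes of a block not dividing `m` -/
noncomputable def TB (m : ℕ) (x : ℝ) (j : ℕ) : Finset ℕ :=
  (Icc 1 ⌊aj x (j + 1)⌋₊).filter (fun p : ℕ => p.Prime ∧ ¬ p ∣ m ∧ aj x j < (p : ℝ))

/-- the mass of all blocks -/
noncomputable def WB (m : ℕ) (x : ℝ) : ℝ := ∑ j ∈ range (Jn x), ∑ p ∈ TB m x j, 1 / (p : ℝ)

/-- the complementary lengths -/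
noncomputable def YB (m : ℕ) (x : ℝ) (j : ℕ) : ℕ := ⌊(m : ℝ) / (2 * aj x (j + 1))⌋₊

open Classical in
/-- the characters which are large on some block -/
noncomputable def UU (m : ℕ) [NeZero m] (x α : ℝ) : Finset (DirichletCharacter ℂ m) :=
  univ.filter (fun χ => ∃ j < Jn x, aj x j ^ (1 - α) ≤ ‖∑ p ∈ TB m x j, χ (p : ZMod m)‖)

/-- the normalised number of block primes -/
noncomputable def gB (m : ℕ) (x : ℝ) (n : ℕ) : ℝ :=
  (1 / WB m x) * ∑ j ∈ range (Jn x), ∑ p ∈ TB m x j,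
    if p ∣ n ∧ n ≤ p * YB m x j then (1 : ℝ) else 0

/-- the part of the expansion of `F` with characters in `U` -/
noncomputable def GU (m : ℕ) [NeZero m] (η : ℤ) (U : Finset (DirichletCharacter ℂ m)) (n : ℕ) : ℂ :=
  ∑ χ ∈ U, cc m (FC m η) χ * χ (n : ZMod m)

/-- the defect at `n` -/
noncomputable def dn (m : ℕ) [NeZero m] (η : ℤ) (U : Finset (DirichletCharacter ℂ m)) (n : ℕ) : ℝ :=
  2 * n / m.totient * ∑ y ∈ cop m (m / (2 * n)),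
    ‖((lam n : ℤ) : ℂ) * ((lam y : ℤ) : ℂ) - GU m η U (n * y)‖ ^ 2

/-- the vector `λ(n) χ(n)` -/
noncomputable def vv (m : ℕ) (χ : DirichletCharacter ℂ m) (n : ℕ) : ℂ :=
  ((lam n : ℤ) : ℂ) * χ (n : ZMod m)

/-- the weighted square norm -/
noncomputable def Nrm (m : ℕ) [NeZero m] (η : ℤ) (U : Finset (DirichletCharacter ℂ m))
    (d : DirichletCharacter ℂ m → ℂ) : ℝ :=
  ∑ χ ∈ U, ww m η χ * ‖d χ‖ ^ 2

/-- primes `p ∤ m` in `(X, Y]` -/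
noncomputable def PI (m : ℕ) (X Y : ℝ) : Finset ℕ :=
  (Icc 1 ⌊Y⌋₊).filter (fun p : ℕ => p.Prime ∧ ¬ p ∣ m ∧ X < (p : ℝ))

/-- all prime factors are larger than `z` -/
def rou (z n : ℕ) : Prop := ∀ p : ℕ, p.Prime → p ∣ n → z < p

/-- the sifting limit -/
noncomputable def zN (κ : ℝ) (m : ℕ) : ℕ := ⌊(m : ℝ) ^ κ⌋₊

open Classical in
/-- the rough numbers `b ≤ m^(399/800)` prime to `m` -/
noncomputable def BR (κ : ℝ) (m : ℕ) : Finset ℕ :=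
  (Icc 1 ⌊(m : ℝ) ^ (399 / 800 : ℝ)⌋₊).filter (fun b => b.Coprime m ∧ rou (zN κ m) b)

/-- the length `m^(201/400)` -/
noncomputable def M1 (m : ℕ) : ℕ := ⌊(m : ℝ) ^ (201 / 400 : ℝ)⌋₊

/-- the middle primes -/
noncomputable def AP (m : ℕ) : Finset ℕ := PI m ((m : ℝ) ^ (1 / 200 : ℝ)) ((m : ℝ) ^ (23 / 100 : ℝ))

open Classical in
/-- the rough numbers in `(M1/16, M1]` prime to `m` with a middle prime factor -/
noncomputable def RR (κ : ℝ) (m : ℕ) : Finset ℕ :=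
  (Icc 1 (M1 m)).filter (fun n => M1 m < 16 * n ∧ n.Coprime m ∧ rou (zN κ m) n ∧ ∃ p ∈ AP m, p ∣ n)

open Classical in
theorem mem_UU {m : ℕ} [NeZero m] {x α : ℝ} {χ : DirichletCharacter ℂ m} :
    χ ∈ UU m x α ↔ ∃ j < Jn x, aj x j ^ (1 - α) ≤ ‖∑ p ∈ TB m x j, χ (p : ZMod m)‖ := by
  unfold UU
  simp

theorem mem_PI {m : ℕ} {X Y : ℝ} (hY : 0 ≤ Y) {p : ℕ} :
    p ∈ PI m X Y ↔ p.Prime ∧ ¬ p ∣ m ∧ X < (p : ℝ) ∧ (p : ℝ) ≤ Y := by
  unfold PI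
  rw [mem_filter, mem_Icc]
  constructor
  · rintro ⟨⟨_, h2⟩, h3, h4, h5⟩
    exact ⟨h3, h4, h5, (Nat.le_floor_iff hY).mp h2⟩
  · rintro ⟨h3, h4, h5, h2⟩
    exact ⟨⟨h3.one_lt.le, (Nat.le_floor_iff hY).mpr h2⟩, h3, h4, h5⟩

theorem aj_pos (x : ℝ) (j : ℕ) : 0 < aj x j := by
  unfold aj
  positivity

theorem mem_TB {m : ℕ} {x : ℝ} {j p : ℕ} :
    p ∈ TB m x j ↔ p.Prime ∧ ¬ p ∣ m ∧ aj x j < (p : ℝ) ∧ (p : ℝ) ≤ aj x (j + 1) := by
  unfold TB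
  rw [mem_filter, mem_Icc]
  constructor
  · rintro ⟨⟨_, h2⟩, h3, h4, h5⟩
    exact ⟨h3, h4, h5, (Nat.le_floor_iff (aj_pos _ _).le).mp h2⟩
  · rintro ⟨h3, h4, h5, h2⟩
    exact ⟨⟨h3.one_lt.le, (Nat.le_floor_iff (aj_pos _ _).le).mpr h2⟩, h3, h4, h5⟩

open Classical in
theorem mem_BR {κ : ℝ} {m b : ℕ} :
    b ∈ BR κ m ↔ 1 ≤ b ∧ (b : ℝ) ≤ (m : ℝ) ^ (399 / 800 : ℝ) ∧ b.Coprime m ∧ rou (zN κ m) b := by
  unfold BR
  rw [mem_filter, mem_Icc, Nat.le_floor_iff (by positivity), and_assoc]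

open Classical in
theorem mem_RR {κ : ℝ} {m n : ℕ} :
    n ∈ RR κ m ↔ 1 ≤ n ∧ n ≤ M1 m ∧ M1 m < 16 * n ∧ n.Coprime m ∧ rou (zN κ m) n ∧
      ∃ p ∈ AP m, p ∣ n := by
  unfold RR
  rw [mem_filter, mem_Icc, and_assoc]

theorem ww_nonneg (m : ℕ) [NeZero m] (η : ℤ) (χ : DirichletCharacter ℂ m) : 0 ≤ ww m η χ := by
  unfold ww
  positivity

theorem wout_nonneg (m : ℕ) [NeZero m] (η : ℤ) (X : Finset (DirichletCharacter ℂ m)) :
    0 ≤ wout m η X := by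
  unfold wout
  exact sum_nonneg fun _ _ => ww_nonneg _ _ _

theorem ww_sum (m : ℕ) [NeZero m] (hm : 2 ≤ m) (η : ℤ) (hη : η = 1 ∨ η = -1) :
    ∑ χ : DirichletCharacter ℂ m, ww m η χ = 1 :=
  weight_one m hm η hη

end Pool.Agent.H78.PD

end

section

/-!
# PD, TDef: index sets of the comparison arguments

* `PB κ m` = pairs `(p, b)`, `p ∈ AP m`, `b ∈ BR κ m`, `M1/16 < p b ≤ M1`; `Tt m A p p0` = primes `t ∤ m` in `(M1/(p p0), A M1/(p p0)]`;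
* `QQ δ m` = primes in `(m^δ, m^(49/100)]`, `SS δ m` = primes in `(m^(δ/4), m^(δ/2)]`, `HH m A q` = primes in `(√q, A√q]`, `PP m A s h` = primes in `(s h, A s h]`, all not dividing `m`;
* `P3 m` = primes in `(m^(32/100), m^(33/100)]`, `XX3 m A a p1 p2` = primes in `(X, A X]`, `X = m/(2 A a p1 p2)`, not dividing `m`.
-/

set_option autoImplicit false

namespace Pool.Agent.H78.PD

open Finset
open Pool.Agent.H34PG (lam lam_val lam_mul lam_prime)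
open Pool.Agent.H11.LQ Pool.Agent.H78.PG

/-- the factorisations of the rough numbers of `RR` -/
noncomputable def PB (κ : ℝ) (m : ℕ) : Finset (ℕ × ℕ) :=
  (AP m ×ˢ BR κ m).filter (fun x => x.1 * x.2 ≤ M1 m ∧ M1 m < 16 * (x.1 * x.2))

/-- the auxiliary primes -/
noncomputable def Tt (m : ℕ) (A : ℝ) (p p0 : ℕ) : Finset ℕ :=
  PI m ((M1 m : ℝ) / (p * p0)) (A * ((M1 m : ℝ) / (p * p0)))

/-- the large primes -/
noncomputable def QQ (δ : ℝ) (m : ℕ) : Finset ℕ := PI m ((m : ℝ) ^ δ) ((m : ℝ) ^ (49 / 100 : ℝ))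

/-- the small primes -/
noncomputable def SS (δ : ℝ) (m : ℕ) : Finset ℕ := PI m ((m : ℝ) ^ (δ / 4)) ((m : ℝ) ^ (δ / 2))

/-- primes near `√q` -/
noncomputable def HH (m : ℕ) (A : ℝ) (q : ℕ) : Finset ℕ := PI m (Real.sqrt q) (A * Real.sqrt q)

/-- primes near `s h` -/
noncomputable def PP (m : ℕ) (A : ℝ) (s h : ℕ) : Finset ℕ := PI m ((s : ℝ) * h) (A * ((s : ℝ) * h))

/-- the primes `p1, p2` of the last step -/
noncomputable def P3 (m : ℕ) : Finset ℕ := PI m ((m : ℝ) ^ (32 / 100 : ℝ)) ((m : ℝ) ^ (33 / 100 : ℝ))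

/-- the primes `p3` of the last step -/
noncomputable def XX3 (m : ℕ) (A : ℝ) (a p1 p2 : ℕ) : Finset ℕ :=
  PI m ((m : ℝ) / (2 * A * a * p1 * p2)) (A * ((m : ℝ) / (2 * A * a * p1 * p2)))

open Classical in
/-- the primes of `(m^α, m^β]` where `χ` is not `-1` -/
noncomputable def Bad (m : ℕ) (χ : DirichletCharacter ℂ m) (α β : ℝ) : Finset ℕ :=
  (PI m ((m : ℝ) ^ α) ((m : ℝ) ^ β)).filter (fun p : ℕ => χ (p : ZMod m) ≠ -1)

open Classical in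
theorem mem_Bad {m : ℕ} {χ : DirichletCharacter ℂ m} {α β : ℝ} {p : ℕ} :
    p ∈ Bad m χ α β ↔ p.Prime ∧ ¬ p ∣ m ∧ (m : ℝ) ^ α < (p : ℝ) ∧ (p : ℝ) ≤ (m : ℝ) ^ β ∧
      χ (p : ZMod m) ≠ -1 := by
  unfold Bad
  rw [mem_filter, mem_PI (by positivity), and_assoc, and_assoc, and_assoc]

end Pool.Agent.H78.PD

end
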