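import Pool.Agent.H94.PG.M07

/-! The parts of this file: H78.PH.Defs, H78.PH.HNum, H78.PH.HCnt, H78.PH.HXc. -/

section

/-!
# LQ / PG stage 2, analytic part: definitions (helper78)

`ρ` is the size of the exceptional sets relative to `m`; all losses are powers of `log m`.

* `Rho C m ρ` : `m^(-1/100) ≤ ρ` and `ρ (log m)^C ≤ 1`;
* `bb m = ⌊(log m)^800⌋`;
* `Xr ρ m` : the characters with `‖χ q + 1‖ ≤ ρ^(1/4)` at all primes `q ≤ bb m` not dividing `m`;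
* `Gr ρ m η` : the part of the Fourier expansion of `F m η` with characters in `Xr`;
* `pq m P` : the primes `≤ P` not dividing `m`;
* `Ww ρ m η p = ∑_{χ ∈ Xr} ‖cc χ‖² ‖χ p + 1‖²`, `aa` its average over `pq m P`;
* `Hyp2 ρ m η` : the hypothesis on the exceptional sets;
* `D0 ρ m η M = ∑_{x ∈ cop m M} ‖λ(x) - Gr(x)‖²`.
-/

set_option autoImplicit false

namespace Pool.Agent.H78.PH

open Finset
open Pool.Agent.H34PG (lam lam_val lam_mul)
open Pool.Agent.H11.LQ Pool.Agent.H78.PG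

/-- the admissible range for `ρ` -/
def Rho (C m : ℕ) (ρ : ℝ) : Prop :=
  0 < ρ ∧ (m : ℝ) ^ (-(1 / 100 : ℝ)) ≤ ρ ∧ ρ * Real.log m ^ C ≤ 1

/-- the bound for the auxiliary primes -/
noncomputable def bb (m : ℕ) : ℕ := ⌊Real.log m ^ 800⌋₊

open Classical in
/-- the characters close to `-1` at all small primes -/
noncomputable def Xr (ρ : ℝ) (m : ℕ) [NeZero m] : Finset (DirichletCharacter ℂ m) :=
  univ.filter (fun χ => ∀ q : ℕ, q.Prime → q ≤ bb m → ¬ q ∣ m →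
    ‖χ (q : ZMod m) + 1‖ ≤ ρ ^ (1 / 4 : ℝ))

/-- the main part of the expansion of `F` -/
noncomputable def Gr (ρ : ℝ) (m : ℕ) [NeZero m] (η : ℤ) (n : ℕ) : ℂ :=
  ∑ χ ∈ Xr ρ m, cc m (FC m η) χ * χ (n : ZMod m)

/-- the primes `≤ P` not dividing `m` -/
noncomputable def pq (m P : ℕ) : Finset ℕ :=
  (Finset.range (P + 1)).filter (fun p => p.Prime ∧ ¬ p ∣ m)

/-- the mean square distance to `-1` at `p` -/
noncomputable def Ww (ρ : ℝ) (m : ℕ) [NeZero m] (η : ℤ) (p : ℕ) : ℝ :=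
  ∑ χ ∈ Xr ρ m, ‖cc m (FC m η) χ‖ ^ 2 * ‖χ (p : ZMod m) + 1‖ ^ 2

/-- its average over the primes `≤ P` not dividing `m` -/
noncomputable def aa (ρ : ℝ) (m : ℕ) [NeZero m] (η : ℤ) (P : ℕ) : ℝ :=
  (∑ p ∈ pq m P, Ww ρ m η p) / (pq m P).card

/-- the distance of `λ` and `Gr` on `[1, M]` -/
noncomputable def D0 (ρ : ℝ) (m : ℕ) [NeZero m] (η : ℤ) (M : ℕ) : ℝ :=
  ∑ x ∈ cop m M, ‖((lam x : ℤ) : ℂ) - Gr ρ m η x‖ ^ 2

/-- the hypothesis on the exceptional sets -/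
def Hyp2 (ρ : ℝ) (m : ℕ) (η : ℤ) : Prop :=
  (η = 1 ∨ η = -1) ∧ ∀ q : ℕ, q.Prime → q ≤ bb m → ((Ex m η q).card : ℝ) ≤ ρ * m

/-- products of `j` different elements of `T` -/
def SP (T : Finset ℕ) (j : ℕ) : Finset ℕ :=
  (powersetCard j T).image (fun A => ∏ p ∈ A, p)

open Classical in
theorem mem_Xr {ρ : ℝ} {m : ℕ} [NeZero m] {χ : DirichletCharacter ℂ m} :
    χ ∈ Xr ρ m ↔ ∀ q : ℕ, q.Prime → q ≤ bb m → ¬ q ∣ m →
      ‖χ (q : ZMod m) + 1‖ ≤ ρ ^ (1 / 4 : ℝ) := by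
  unfold Xr
  simp

theorem mem_pq {m P p : ℕ} : p ∈ pq m P ↔ p ≤ P ∧ p.Prime ∧ ¬ p ∣ m := by
  unfold pq
  rw [mem_filter, mem_range, Nat.lt_succ_iff]

theorem Rho_mono {C C' m : ℕ} {ρ : ℝ} (hC : C ≤ C') (hm : 3 ≤ m) (h : Rho C' m ρ) :
    Rho C m ρ := by
  obtain ⟨h0, h1, h2⟩ := h
  refine ⟨h0, h1, le_trans ?_ h2⟩
  have h3 : (1 : ℝ) ≤ Real.log m := by
    rw [Real.le_log_iff_exp_le (by positivity)]
    have h4 : (3 : ℝ) ≤ m := by exact_mod_cast hm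
    linarith [Real.exp_one_lt_d9]
  exact mul_le_mul_of_nonneg_left (pow_le_pow_right₀ h3 hC) h0.le

end Pool.Agent.H78.PH

end

section

/-!
# LQ / PG stage 2, HNum: numerics

`small`: `Rho C m ρ` gives `ρ^c ≤ (log m)^(-c C)`; take `C` with `c C ≥ k + 1`; `A (1 + log m)^k ≤ (log m)^(k+1)` for large `m`.
`rho_pow`: `ρ^c ≥ m^(-c/100)`, compared with a power saving `A (1 + log m)^k m^(-θ)`, `θ > c/100` (`grow`).
`tot_log`: `m/φ(m) = ∏_{p | m} (1 - 1/p)⁻¹`; the `i`-th prime factor (in increasing order) is `≥ i + 1`, so the product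
is `≤ ∏_{i=1}^{ω} (i+1)/i = ω + 1`, and `2^ω ≤ m`, so `ω ≤ log m/log 2 ≤ 2 log m`.
`omega_le`: `2^ω(y) ≤ y` (`Nat.primeFactors`, product of the prime factors divides `y`).
-/

set_option autoImplicit false

namespace Pool.Agent.H78.PH

open Finset
open Pool.Agent.H34PG (lam lam_val lam_mul)
open Pool.Agent.H11.LQ Pool.Agent.H78.PG

theorem small (A : ℝ) (k : ℕ) (c : ℝ) (hc : 0 < c) : ∃ C : ℕ, ∃ m0 : ℕ, ∀ m : ℕ, m0 ≤ m →
    ∀ ρ : ℝ, Rho C m ρ → A * (1 + Real.log m) ^ k * ρ ^ c ≤ 1 := by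
  refine ⟨⌈((k : ℝ) + 1) / c⌉₊, ⌈Real.exp (max 1 (|A| * 2 ^ k))⌉₊, fun m hm ρ hρ => ?_⟩
  obtain ⟨h0, _, h2⟩ := hρ
  have hm1 : Real.exp (max 1 (|A| * 2 ^ k)) ≤ (m : ℝ) :=
    (Nat.le_ceil _).trans (by exact_mod_cast hm)
  have hm0 : (0 : ℝ) < m := (Real.exp_pos _).trans_le hm1
  have hL : max 1 (|A| * 2 ^ k) ≤ Real.log m := (Real.le_log_iff_exp_le hm0).mpr hm1
  obtain ⟨L, hLe⟩ : ∃ L, L = Real.log m := ⟨_, rfl⟩
  rw [← hLe] at hL h2 ⊢
  have hL1 : 1 ≤ L := (le_max_left _ _).trans hL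
  have hLA : |A| * 2 ^ k ≤ L := (le_max_right _ _).trans hL
  have hL0 : 0 < L := by linarith
  obtain ⟨C, hC⟩ : ∃ C, C = ⌈((k : ℝ) + 1) / c⌉₊ := ⟨_, rfl⟩
  rw [← hC] at h2
  have hCc : ((k + 1 : ℕ) : ℝ) ≤ C * c := by
    have h3 : ((k : ℝ) + 1) / c ≤ C := hC ▸ Nat.le_ceil _
    rw [div_le_iff₀ hc] at h3
    push_cast
    exact h3
  have h4 : ρ ^ c * L ^ (k + 1) ≤ 1 := by
    have h5 : (ρ * L ^ C) ^ c ≤ 1 := Real.rpow_le_one (by positivity) h2 hc.le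
    rw [Real.mul_rpow h0.le (by positivity), ← Real.rpow_natCast, ← Real.rpow_mul hL0.le] at h5
    have h6 : L ^ (k + 1) ≤ L ^ ((C : ℝ) * c) := by
      rw [← Real.rpow_natCast]
      exact Real.rpow_le_rpow_of_exponent_le hL1 hCc
    exact (mul_le_mul_of_nonneg_left h6 (Real.rpow_nonneg h0.le c)).trans h5
  have h7 : 0 ≤ ρ ^ c := Real.rpow_nonneg h0.le c
  have h8 : (1 + L) ^ k ≤ (2 * L) ^ k := pow_le_pow_left₀ (by linarith) (by linarith) k
  calc A * (1 + L) ^ k * ρ ^ c ≤ |A| * (2 * L) ^ k * ρ ^ c := by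
        refine mul_le_mul_of_nonneg_right ?_ h7
        exact mul_le_mul (le_abs_self A) h8 (by positivity) (abs_nonneg A)
    _ = (|A| * 2 ^ k) * (L ^ k * ρ ^ c) := by rw [mul_pow]; ring
    _ ≤ L * (L ^ k * ρ ^ c) := mul_le_mul_of_nonneg_right hLA (by positivity)
    _ = ρ ^ c * L ^ (k + 1) := by ring
    _ ≤ 1 := h4

/-- power savings beat powers of `ρ` -/
theorem rho_pow (A : ℝ) (k : ℕ) (c θ : ℝ) (hc : 0 < c) (hθ : c / 100 < θ) : ∃ m0 : ℕ,
    ∀ m : ℕ, m0 ≤ m → ∀ ρ : ℝ, Rho 0 m ρ →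
      A * (1 + Real.log m) ^ k * (m : ℝ) ^ (-θ) ≤ ρ ^ c := by
  obtain ⟨m0, h⟩ := grow A k (θ - c / 100) (by linarith)
  refine ⟨max m0 1, fun m hm ρ hρ => ?_⟩
  have hm0 : (0 : ℝ) < m := by
    have : 1 ≤ m := (le_max_right _ _).trans hm
    exact_mod_cast this
  have h1 := h m ((le_max_left _ _).trans hm)
  obtain ⟨h0, h2, _⟩ := hρ
  calc A * (1 + Real.log m) ^ k * (m : ℝ) ^ (-θ)
      ≤ (m : ℝ) ^ (θ - c / 100) * (m : ℝ) ^ (-θ) :=
        mul_le_mul_of_nonneg_right h1 (Real.rpow_nonneg hm0.le _)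
    _ = ((m : ℝ) ^ (-(1 / 100 : ℝ))) ^ c := by
        rw [← Real.rpow_add hm0, ← Real.rpow_mul hm0.le]
        congr 1
        ring
    _ ≤ ρ ^ c := Real.rpow_le_rpow (Real.rpow_nonneg hm0.le _) h2 hc.le

theorem omega_le (m y : ℕ) (h1 : 1 ≤ y) (h2 : y ≤ m) :
    (y.primeFactors.card : ℝ) ≤ 2 * Real.log m := by
  have h3 : 2 ^ y.primeFactors.card ≤ m := by
    calc 2 ^ y.primeFactors.card = ∏ _p ∈ y.primeFactors, 2 := by rw [prod_const]
      _ ≤ ∏ p ∈ y.primeFactors, p :=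
          prod_le_prod' fun p hp => (Nat.prime_of_mem_primeFactors hp).two_le
      _ ≤ y := Nat.le_of_dvd h1 (Nat.prod_primeFactors_dvd y)
      _ ≤ m := h2
  have h4 : Real.log ((2 : ℝ) ^ y.primeFactors.card) ≤ Real.log m :=
    Real.log_le_log (by positivity) (by exact_mod_cast h3)
  rw [Real.log_pow] at h4
  have h5 : (1 : ℝ) / 2 ≤ Real.log 2 := by
    have := Real.log_two_gt_d9
    linarith
  have h6 := mul_le_mul_of_nonneg_left h5 (Nat.cast_nonneg (α := ℝ) y.primeFactors.card)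
  linarith

private theorem hnum_prod (S : Finset ℕ) : (∀ p ∈ S, 2 ≤ p) →
    ∏ p ∈ S, p ≤ (S.card + 1) * ∏ p ∈ S, (p - 1) := by
  induction S using Finset.induction_on_max with
  | empty => intro _; simp
  | insert M S hM ih =>
    intro h
    have hS : ∀ p ∈ S, 2 ≤ p := fun p hp => h p (mem_insert_of_mem hp)
    have hM2 : 2 ≤ M := h M (mem_insert_self _ _)
    have hnot : M ∉ S := fun h1 => (hM M h1).false
    have hcard : S.card + 2 ≤ M := by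
      have h1 : S ⊆ Ico 2 M := fun p hp => mem_Ico.mpr ⟨hS p hp, hM p hp⟩
      have h2 := card_le_card h1
      rw [Nat.card_Ico] at h2
      omega
    rw [prod_insert hnot, prod_insert hnot, card_insert_of_notMem hnot]
    obtain ⟨N, rfl⟩ : ∃ N, M = N + 1 := ⟨M - 1, by omega⟩
    have h3 := ih hS
    have h4 : (N + 1) * (S.card + 1) ≤ (S.card + 1 + 1) * N := by nlinarith
    calc (N + 1) * ∏ p ∈ S, p ≤ (N + 1) * ((S.card + 1) * ∏ p ∈ S, (p - 1)) :=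
          Nat.mul_le_mul_left _ h3
      _ = ((N + 1) * (S.card + 1)) * ∏ p ∈ S, (p - 1) := by ring
      _ ≤ ((S.card + 1 + 1) * N) * ∏ p ∈ S, (p - 1) := Nat.mul_le_mul_right _ h4
      _ = (S.card + 1 + 1) * ((N + 1 - 1) * ∏ p ∈ S, (p - 1)) := by
          rw [Nat.add_sub_cancel]; ring

theorem tot_log (m : ℕ) (hm : 1 ≤ m) : (m : ℝ) ≤ (2 + 2 * Real.log m) * m.totient := by
  have h1 := hnum_prod m.primeFactors fun p hp => (Nat.prime_of_mem_primeFactors hp).two_le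
  have h2 := Nat.totient_mul_prod_primeFactors m
  have h3 : 0 < ∏ p ∈ m.primeFactors, (p - 1) :=
    prod_pos fun p hp => Nat.sub_pos_of_lt (Nat.prime_of_mem_primeFactors hp).one_lt
  have h4 : m ≤ (m.primeFactors.card + 1) * m.totient := by
    refine Nat.le_of_mul_le_mul_right ?_ h3
    rw [← h2]
    calc m.totient * ∏ p ∈ m.primeFactors, p
        ≤ m.totient * ((m.primeFactors.card + 1) * ∏ p ∈ m.primeFactors, (p - 1)) :=
          Nat.mul_le_mul_left _ h1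
      _ = (m.primeFactors.card + 1) * m.totient * ∏ p ∈ m.primeFactors, (p - 1) := by ring
  have h5 := omega_le m m hm le_rfl
  have h6 : (m : ℝ) ≤ ((m.primeFactors.card : ℝ) + 1) * m.totient := by exact_mod_cast h4
  refine h6.trans (mul_le_mul_of_nonneg_right ?_ (Nat.cast_nonneg _))
  linarith

end Pool.Agent.H78.PH

end

section

/-!
# LQ / PG stage 2, HCnt: counting primes and products

`pq_card`: `#pq m P ≥ π(P) - ω(m)`, `π(P) ≥ P/(2 log P)` (Mathlib `Chebyshev.psi_ge`, `Chebyshev.psi_le_primeCounting_mul_log`),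
`ω(m) ≤ 2 log m ≤ P/(4 log m)` as `P ≥ (log m)^3`.
`SP_card`: for a set of primes the products are different (`Nat.primeFactors_prod`) and `(n choose j) ≥ (n/j)^j`.
`pairs_dvd`, `triples_dvd`: the components are prime factors of `y`.
-/

set_option autoImplicit false

namespace Pool.Agent.H78.PH

open Finset
open Pool.Agent.H34PG (lam lam_val lam_mul)
open Pool.Agent.H11.LQ Pool.Agent.H78.PG

private theorem hcnt_pi (B : ℕ) (hB : 16 ≤ B) :
    (B : ℝ) / 2 ≤ (Nat.primeCounting B : ℝ) * Real.log B := by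
  have h1 := Chebyshev.psi_ge B
  have h2 := Chebyshev.psi_le_primeCounting_mul_log B
  have hB' : (16 : ℝ) ≤ B := by exact_mod_cast hB
  have h3 : Real.log ((B : ℝ) + 1) ≤ ((B : ℝ) + 1) / 16 - 1 + 4 * Real.log 2 := by
    have h4 : (B : ℝ) + 1 = ((B : ℝ) + 1) / 16 * 2 ^ 4 := by ring
    have h5 : Real.log ((B : ℝ) + 1) = Real.log (((B : ℝ) + 1) / 16) + 4 * Real.log 2 := by
      conv_lhs => rw [h4]
      rw [Real.log_mul (by positivity) (by positivity), Real.log_pow]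
      norm_num
    rw [h5]
    have := Real.log_le_sub_one_of_pos (show (0 : ℝ) < ((B : ℝ) + 1) / 16 by positivity)
    linarith
  have h6 := Real.log_two_gt_d9
  have h7 := Real.log_two_lt_d9
  nlinarith

theorem pq_card : ∃ m0 : ℕ, ∀ m : ℕ, m0 ≤ m → ∀ P : ℕ, Real.log m ^ 3 ≤ P → P ≤ m →
    (P : ℝ) / (4 * Real.log m) ≤ ((pq m P).card : ℝ) := by
  refine ⟨3 ^ 8, fun m hm P hP hPm => ?_⟩
  have hm' : (3 : ℝ) ^ 8 ≤ m := by exact_mod_cast hm
  have hL : 8 ≤ Real.log m := by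
    rw [Real.le_log_iff_exp_le (by linarith [show (0 : ℝ) < 3 ^ 8 by norm_num])]
    have h1 : Real.exp 8 = Real.exp 1 ^ 8 := by
      rw [← Real.exp_nat_mul]
      norm_num
    rw [h1]
    refine le_trans ?_ hm'
    exact pow_le_pow_left₀ (Real.exp_pos _).le (by linarith [Real.exp_one_lt_d9]) 8
  have hm1 : 1 ≤ m := le_trans (by norm_num) hm
  have hP3 : 8 * Real.log m ^ 2 ≤ P := by
    have h2 : Real.log m ^ 3 = Real.log m * Real.log m ^ 2 := by ring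
    nlinarith [sq_nonneg (Real.log m)]
  have hP16 : 16 ≤ P := by
    have h3 : (16 : ℝ) ≤ P := by nlinarith
    exact_mod_cast h3
  have hPpos : (0 : ℝ) < P := by
    have : (16 : ℝ) ≤ P := by exact_mod_cast hP16
    linarith
  have hpi := hcnt_pi P hP16
  have hom := omega_le m m hm1 le_rfl
  have hlogP : Real.log P ≤ Real.log m := Real.log_le_log hPpos (by exact_mod_cast hPm)
  have hcard : Nat.primeCounting P ≤ (pq m P).card + m.primeFactors.card := by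
    have hsub : (Finset.range (P + 1)).filter Nat.Prime ⊆ pq m P ∪ m.primeFactors := by
      intro p hp
      rw [mem_filter, mem_range, Nat.lt_succ_iff] at hp
      rw [mem_union, mem_pq, Nat.mem_primeFactors]
      by_cases hpm : p ∣ m
      · exact Or.inr ⟨hp.2, hpm, by omega⟩
      · exact Or.inl ⟨hp.1, hp.2, hpm⟩
    calc Nat.primeCounting P = ((Finset.range (P + 1)).filter Nat.Prime).card := by
          rw [Nat.primeCounting, Nat.primeCounting', Nat.count_eq_card_filter_range]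
      _ ≤ (pq m P ∪ m.primeFactors).card := card_le_card hsub
      _ ≤ (pq m P).card + m.primeFactors.card := card_union_le _ _
  have hcard' : (Nat.primeCounting P : ℝ) ≤
      ((pq m P).card : ℝ) + (m.primeFactors.card : ℝ) := by exact_mod_cast hcard
  have hpiL : (P : ℝ) / 2 ≤ (Nat.primeCounting P : ℝ) * Real.log m :=
    hpi.trans (mul_le_mul_of_nonneg_left hlogP (by positivity))
  rw [div_le_iff₀ (by positivity)]
  have h10 : (P : ℝ) / 2 ≤ (((pq m P).card : ℝ) + 2 * Real.log m) * Real.log m :=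
    hpiL.trans (mul_le_mul_of_nonneg_right (by linarith) (by linarith))
  nlinarith

private theorem hcnt_choose : ∀ j n : ℕ, 1 ≤ j → j ≤ n → ((n : ℝ) / j) ^ j ≤ (n.choose j : ℝ) := by
  intro j
  induction j with
  | zero => intro n h; omega
  | succ j ih =>
    intro n _ hn
    rcases Nat.eq_zero_or_pos j with rfl | hj
    · simp
    obtain ⟨k, rfl⟩ : ∃ k, n = k + 1 := ⟨n - 1, by omega⟩
    have hjk : j ≤ k := by omega
    have h1 := ih k hj hjk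
    have hj' : (0 : ℝ) < j := by exact_mod_cast hj
    have hjk' : (j : ℝ) ≤ k := by exact_mod_cast hjk
    have h2 : ((k + 1 : ℕ) : ℝ) / (j + 1 : ℕ) ≤ (k : ℝ) / j := by
      rw [div_le_div_iff₀ (by positivity) hj']
      push_cast
      nlinarith
    have h3 : (((k + 1 : ℕ) : ℝ) / (j + 1 : ℕ)) ^ j ≤ (k.choose j : ℝ) :=
      (pow_le_pow_left₀ (by positivity) h2 j).trans h1
    have h4 : ((k + 1 : ℕ) : ℝ) * (k.choose j : ℝ) = ((k + 1).choose (j + 1) : ℝ) * (j + 1 : ℕ) := by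
      exact_mod_cast Nat.add_one_mul_choose_eq k j
    have h5 : ((k + 1).choose (j + 1) : ℝ) = (((k + 1 : ℕ) : ℝ) / (j + 1 : ℕ)) * (k.choose j : ℝ) := by
      have h6 : ((j + 1 : ℕ) : ℝ) ≠ 0 := by positivity
      rw [div_mul_eq_mul_div, eq_div_iff h6, h4]
    rw [h5, pow_succ, mul_comm]
    exact mul_le_mul_of_nonneg_left h3 (by positivity)

theorem SP_card {T : Finset ℕ} (hT : ∀ p ∈ T, p.Prime) {j : ℕ} (hj : 1 ≤ j) (hjT : j ≤ T.card) :
    ((T.card : ℝ) / j) ^ j ≤ ((SP T j).card : ℝ) := by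
  have h0 : (SP T j).card = T.card.choose j := by
    unfold SP
    rw [card_image_of_injOn, card_powersetCard]
    intro A hA B hB hAB
    rw [mem_coe, mem_powersetCard] at hA hB
    have hA' : ∀ p ∈ A, p.Prime := fun p hp => hT p (hA.1 hp)
    have hB' : ∀ p ∈ B, p.Prime := fun p hp => hT p (hB.1 hp)
    have h1 := Nat.primeFactors_prod hA'
    have h2 := Nat.primeFactors_prod hB'
    have hAB' : ∏ p ∈ A, p = ∏ p ∈ B, p := hAB
    rw [← h1, ← h2, hAB']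
  rw [h0]
  exact hcnt_choose j T.card hj hjT

theorem pairs_dvd {T : Finset ℕ} (hT : ∀ p ∈ T, p.Prime) {m y : ℕ} (h1 : 1 ≤ y) (h2 : y ≤ m) :
    (((T ×ˢ T).filter (fun q => q.1 * q.2 ∣ y)).card : ℝ) ≤ (2 * Real.log m) ^ 2 := by
  have hom := omega_le m y h1 h2
  have hsub : (T ×ˢ T).filter (fun q => q.1 * q.2 ∣ y) ⊆ y.primeFactors ×ˢ y.primeFactors := by
    intro q hq
    rw [mem_filter, mem_product] at hq
    rw [mem_product, Nat.mem_primeFactors, Nat.mem_primeFactors]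
    exact ⟨⟨hT _ hq.1.1, (Dvd.intro _ rfl).trans hq.2, by omega⟩,
      ⟨hT _ hq.1.2, (Dvd.intro_left _ rfl).trans hq.2, by omega⟩⟩
  have h3 : (((T ×ˢ T).filter (fun q => q.1 * q.2 ∣ y)).card : ℝ) ≤
      (y.primeFactors.card : ℝ) ^ 2 := by
    have h4 := card_le_card hsub
    rw [card_product] at h4
    rw [sq]
    exact_mod_cast h4
  exact h3.trans (pow_le_pow_left₀ (by positivity) hom 2)

theorem triples_dvd {T : Finset ℕ} (hT : ∀ p ∈ T, p.Prime) {m y : ℕ} (h1 : 1 ≤ y) (h2 : y ≤ m) :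
    (((T ×ˢ (T ×ˢ T)).filter (fun q => q.1 * (q.2.1 * q.2.2) ∣ y)).card : ℝ)
      ≤ (2 * Real.log m) ^ 3 := by
  have hom := omega_le m y h1 h2
  have hsub : (T ×ˢ (T ×ˢ T)).filter (fun q => q.1 * (q.2.1 * q.2.2) ∣ y) ⊆
      y.primeFactors ×ˢ (y.primeFactors ×ˢ y.primeFactors) := by
    intro q hq
    rw [mem_filter, mem_product, mem_product] at hq
    rw [mem_product, mem_product, Nat.mem_primeFactors, Nat.mem_primeFactors, Nat.mem_primeFactors]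
    have h5 : q.2.1 * q.2.2 ∣ y := (Dvd.intro_left _ rfl).trans hq.2
    exact ⟨⟨hT _ hq.1.1, (Dvd.intro _ rfl).trans hq.2, by omega⟩,
      ⟨hT _ hq.1.2.1, (Dvd.intro _ rfl).trans h5, by omega⟩,
      ⟨hT _ hq.1.2.2, (Dvd.intro_left _ rfl).trans h5, by omega⟩⟩
  have h3 : (((T ×ˢ (T ×ˢ T)).filter (fun q => q.1 * (q.2.1 * q.2.2) ∣ y)).card : ℝ) ≤
      (y.primeFactors.card : ℝ) ^ 3 := by
    have h4 := card_le_card hsub
    rw [card_product, card_product] at h4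
    have h6 : (y.primeFactors.card : ℝ) ^ 3 =
        (y.primeFactors.card : ℝ) * ((y.primeFactors.card : ℝ) * (y.primeFactors.card : ℝ)) := by ring
    rw [h6]
    exact_mod_cast h4
  exact h3.trans (pow_le_pow_left₀ (by positivity) hom 3)

end Pool.Agent.H78.PH

end

section

/-!
# LQ / PG stage 2, HXc: the number of characters in `Xr`

`B = bb m`, `r = ⌊log m / log B⌋` (so `B^r ≤ m < B^(r+1)`; `r ≥ 1`, `r ≤ log m`), `T = pq m B`, `S = SP T r`: elements in `[1, m]`, prime to `m`.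
`ortho_sum`: `∑_χ ‖∑_S χ s‖² = φ(m) #S ≤ m #S`.  For `χ ∈ Xr`: `‖χ s - (-1)^r‖ ≤ r ρ^(1/4) ≤ 1/2` (`small`; all factors have
norm `≤ 1`), so `‖∑_S χ s‖ ≥ #S/2` and `#Xr #S ≤ 4 m`.
`#T ≥ B/(4 log m)` (`pq_card`), `#S ≥ (#T/r)^r` (`SP_card`), `#T/r ≥ B/(4 (log m)²) ≥ B/(log m)³`, so
`#S ≥ B^r (log m)^(-3r) ≥ (m/B) (log m)^(-3r)`, and `(log m)^(3r) ≤ exp(3 log log m * log m/log B) ≤ m^(3/799)` for large `m`
(`log B ≥ 799 log log m`), `4 B ≤ m^(1/1000)`.  So `#Xr ≤ 4 B m^(3/799) ≤ m^(1/200)`.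
-/

set_option autoImplicit false

namespace Pool.Agent.H78.PH

open Finset
open Pool.Agent.H34PG (lam lam_val lam_mul)
open Pool.Agent.H11.LQ Pool.Agent.H78.PG

/-- numerics for `bb` -/
theorem hxc_bb : ∃ m0 : ℕ, ∀ m : ℕ, m0 ≤ m → 16 ≤ Real.log m ∧
    799 * Real.log (Real.log m) ≤ Real.log (bb m) ∧ Real.log m ^ 3 ≤ (bb m : ℝ) ∧
    4 * (bb m : ℝ) ≤ (m : ℝ) ^ (1 / 1000 : ℝ) := by
  obtain ⟨n1, h1⟩ := grow 4 800 (1 / 1000) (by norm_num)
  refine ⟨n1 + ⌈Real.exp 16⌉₊, fun m hm => ?_⟩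
  have h1 := h1 m (by omega)
  have hm1 : Real.exp 16 ≤ (m : ℝ) :=
    (Nat.le_ceil _).trans (by exact_mod_cast (show ⌈Real.exp 16⌉₊ ≤ m by omega))
  have hm0 : (0 : ℝ) < m := (Real.exp_pos _).trans_le hm1
  have hL : 16 ≤ Real.log m := (Real.le_log_iff_exp_le hm0).mpr hm1
  have hL0 : 0 ≤ Real.log m := le_trans (by norm_num) hL
  have hL1 : 1 ≤ Real.log m := le_trans (by norm_num) hL
  have hpos : 0 < Real.log m := lt_of_lt_of_le (by norm_num) hL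
  have ha1 : (1 : ℝ) ≤ Real.log m ^ 799 := one_le_pow₀ hL1
  have ha2 : Real.log m ^ 800 = Real.log m ^ 799 * Real.log m := pow_succ _ _
  have hfl : Real.log m ^ 800 < (bb m : ℝ) + 1 := by
    unfold bb
    exact Nat.lt_floor_add_one _
  have hfu : (bb m : ℝ) ≤ Real.log m ^ 800 := by
    unfold bb
    exact Nat.floor_le (pow_nonneg hL0 _)
  have hb : Real.log m ^ 799 ≤ (bb m : ℝ) := by
    rw [ha2] at hfl
    clear h1 ha2 hfu
    generalize Real.log m ^ 799 = a at *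
    nlinarith only [hL, ha1, hfl]
  refine ⟨hL, ?_, ?_, ?_⟩
  · have h2 := Real.log_le_log (pow_pos hpos 799) hb
    rw [Real.log_pow] at h2
    exact_mod_cast h2
  · exact (pow_le_pow_right₀ hL1 (by norm_num)).trans hb
  · have h3 : Real.log m ^ 800 ≤ (1 + Real.log m) ^ 800 :=
      pow_le_pow_left₀ hL0 (le_add_of_nonneg_left zero_le_one) 800
    exact (mul_le_mul_of_nonneg_left (hfu.trans h3) (by norm_num)).trans h1

/-- the supply: a set of many products of `r` primes `≤ bb m` -/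
theorem supply : ∃ m0 : ℕ, ∀ m : ℕ, m0 ≤ m → ∃ r : ℕ, 1 ≤ r ∧ (r : ℝ) ≤ Real.log m ∧
    bb m ^ r ≤ m ∧ (m : ℝ) ^ (1 - 1 / 200 : ℝ) * 4 ≤ ((SP (pq m (bb m)) r).card : ℝ) := by
  obtain ⟨n1, H1⟩ := pq_card
  obtain ⟨n2, H2⟩ := hxc_bb
  refine ⟨n1 + n2 + 3, fun m hm => ?_⟩
  have H1 := H1 m (by omega)
  obtain ⟨hL, hlB, hB3, hB4⟩ := H2 m (by omega)
  have hm1 : (1 : ℝ) ≤ (m : ℝ) := by exact_mod_cast (show 1 ≤ m by omega)
  have hm0 : (0 : ℝ) < (m : ℝ) := by linarith only [hm1]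
  have hmm : (m : ℝ) ^ (1 / 1000 : ℝ) ≤ m := by
    calc (m : ℝ) ^ (1 / 1000 : ℝ) ≤ (m : ℝ) ^ (1 : ℝ) :=
          Real.rpow_le_rpow_of_exponent_le hm1 (by norm_num)
      _ = m := Real.rpow_one _
  have hBm : bb m ≤ m := by
    have h : (bb m : ℝ) ≤ m := by
      have h0 : (0 : ℝ) ≤ bb m := Nat.cast_nonneg _
      linarith only [hB4, hm1, hmm]
    exact_mod_cast h
  have H1 := H1 (bb m) hB3 hBm
  obtain ⟨B, hBdef⟩ : ∃ B, B = bb m := ⟨_, rfl⟩
  obtain ⟨T, hT⟩ : ∃ T, T = pq m B := ⟨_, rfl⟩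
  rw [← hBdef] at hlB hB3 hB4 hBm H1
  rw [← hBdef, ← hT]
  rw [← hT] at H1
  have hTp : ∀ p ∈ T, p.Prime := fun p hp => by
    rw [hT, mem_pq] at hp
    exact hp.2.1
  obtain ⟨L, hLdef⟩ : ∃ L, L = Real.log m := ⟨_, rfl⟩
  rw [← hLdef] at hL hlB hB3 H1 ⊢
  have hB1 : (1 : ℝ) < B := by nlinarith [sq_nonneg L, mul_pos (show (0:ℝ) < L by linarith) (show (0:ℝ) < L by linarith)]
  have hB1' : 1 < B := by exact_mod_cast hB1
  have hlogL : 1 ≤ Real.log L := by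
    rw [Real.le_log_iff_exp_le (by linarith only [hL])]
    linarith only [hL, Real.exp_one_lt_d9]
  have hr1 : 1 ≤ Nat.log B m := Nat.log_pos hB1' hBm
  have hrle : B ^ Nat.log B m ≤ m := Nat.pow_log_le_self B (by omega)
  have hrlt : m < B ^ (Nat.log B m + 1) := Nat.lt_pow_succ_log_self hB1' m
  obtain ⟨r, hr⟩ : ∃ r, r = Nat.log B m := ⟨_, rfl⟩
  rw [← hr] at hr1 hrle hrlt
  have hrlog : (r : ℝ) * Real.log B ≤ L := by
    have h1 : ((B : ℝ)) ^ r ≤ m := by exact_mod_cast hrle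
    have h2 := Real.log_le_log (pow_pos (by linarith only [hB1]) r) h1
    rw [Real.log_pow] at h2
    rw [hLdef]
    exact h2
  have hr0 : (1 : ℝ) ≤ r := by exact_mod_cast hr1
  have hr799 : (r : ℝ) * (799 * Real.log L) ≤ L :=
    (mul_le_mul_of_nonneg_left hlB (by linarith only [hr0])).trans hrlog
  have hrL : (r : ℝ) ≤ L := by
    have h1 : (r : ℝ) * 1 ≤ (r : ℝ) * (799 * Real.log L) :=
      mul_le_mul_of_nonneg_left (by linarith only [hlogL]) (by linarith only [hr0])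
    linarith only [hr799, h1]
  have hTr : (B : ℝ) / (4 * L ^ 2) ≤ (T.card : ℝ) / r := by
    rw [div_le_div_iff₀ (by positivity) (by linarith only [hr0])]
    have h1 : (B : ℝ) / (4 * L) * (4 * L) = B := by field_simp
    have h2 : (B : ℝ) ≤ T.card * (4 * L) := by
      rw [← h1]
      exact mul_le_mul_of_nonneg_right H1 (by linarith only [hL])
    calc (B : ℝ) * r ≤ (T.card * (4 * L)) * L :=
          mul_le_mul h2 hrL (by linarith only [hr0]) (by positivity)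
      _ = T.card * (4 * L ^ 2) := by ring
  have hrT : r ≤ T.card := by
    have h1 : (r : ℝ) ≤ T.card := by
      refine hrL.trans (le_trans ?_ H1)
      rw [le_div_iff₀ (by linarith only [hL])]
      nlinarith only [hB3, hB1, hL]
    exact_mod_cast h1
  have hS := SP_card hTp hr1 hrT
  refine ⟨r, hr1, hrL, hrle, le_trans ?_ hS⟩
  have h5 : ((B : ℝ) / L ^ 3) ^ r ≤ ((T.card : ℝ) / r) ^ r := by
    refine pow_le_pow_left₀ (by positivity) (le_trans ?_ hTr) r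
    refine div_le_div_of_nonneg_left (by linarith only [hB1]) (by positivity) ?_
    nlinarith only [hL, sq_nonneg L]
  refine le_trans ?_ h5
  rw [div_pow, le_div_iff₀ (by positivity)]
  have h6 : (L ^ 3) ^ r ≤ (m : ℝ) ^ (3 / 799 : ℝ) := by
    have hL0 : 0 < L := by linarith only [hL]
    have h7 : (L ^ 3) ^ r = Real.exp (3 * r * Real.log L) := by
      rw [← pow_mul, ← Real.rpow_natCast, Real.rpow_def_of_pos hL0]
      congr 1
      push_cast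
      ring
    rw [h7, Real.rpow_def_of_pos hm0, ← hLdef]
    refine Real.exp_le_exp.mpr ?_
    nlinarith only [hr799]
  have h8 : (m : ℝ) ≤ (B : ℝ) * B ^ r := by
    have : m ≤ B * B ^ r := by
      rw [pow_succ, mul_comm] at hrlt
      exact hrlt.le
    exact_mod_cast this
  have h9 : (m : ℝ) ^ (1 - 1 / 200 : ℝ) * 4 * (m : ℝ) ^ (3 / 799 : ℝ) * B ≤ (B : ℝ) ^ r * B := by
    have h10 : (m : ℝ) ^ (1 - 1 / 200 : ℝ) * (m : ℝ) ^ (3 / 799 : ℝ) * (m : ℝ) ^ (1 / 1000 : ℝ)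
        ≤ m := by
      rw [← Real.rpow_add hm0, ← Real.rpow_add hm0]
      calc (m : ℝ) ^ (1 - 1 / 200 + 3 / 799 + 1 / 1000 : ℝ) ≤ (m : ℝ) ^ (1 : ℝ) :=
            Real.rpow_le_rpow_of_exponent_le hm1 (by norm_num)
        _ = m := Real.rpow_one _
    calc (m : ℝ) ^ (1 - 1 / 200 : ℝ) * 4 * (m : ℝ) ^ (3 / 799 : ℝ) * B
        = (m : ℝ) ^ (1 - 1 / 200 : ℝ) * (m : ℝ) ^ (3 / 799 : ℝ) * (4 * B) := by ring
      _ ≤ (m : ℝ) ^ (1 - 1 / 200 : ℝ) * (m : ℝ) ^ (3 / 799 : ℝ) * (m : ℝ) ^ (1 / 1000 : ℝ) :=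
          mul_le_mul_of_nonneg_left hB4 (by positivity)
      _ ≤ m := h10
      _ ≤ (B : ℝ) * B ^ r := h8
      _ = (B : ℝ) ^ r * B := mul_comm _ _
  have h11 : (m : ℝ) ^ (1 - 1 / 200 : ℝ) * 4 * (m : ℝ) ^ (3 / 799 : ℝ) ≤ (B : ℝ) ^ r :=
    le_of_mul_le_mul_right h9 (by linarith only [hB1])
  exact (mul_le_mul_of_nonneg_left h6 (by positivity)).trans h11

/-- products of elements close to `-1` -/
theorem hxc_prod (A : Finset ℕ) (f : ℕ → ℂ) (t : ℝ) (h : ∀ p ∈ A, ‖f p + 1‖ ≤ t)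
    (h1 : ∀ p ∈ A, ‖f p‖ ≤ 1) :
    ‖∏ p ∈ A, f p - (-1) ^ A.card‖ ≤ A.card * t := by
  induction A using Finset.induction_on with
  | empty => simp
  | insert a A ha ih =>
    rw [prod_insert ha, card_insert_of_notMem ha]
    have e1 : f a * ∏ p ∈ A, f p - (-1) ^ (A.card + 1)
        = f a * (∏ p ∈ A, f p - (-1) ^ A.card) + (-1) ^ A.card * (f a + 1) := by
      rw [pow_succ]
      ring
    rw [e1]
    have e2 := ih (fun p hp => h p (mem_insert_of_mem hp)) (fun p hp => h1 p (mem_insert_of_mem hp))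
    calc ‖f a * (∏ p ∈ A, f p - (-1) ^ A.card) + (-1) ^ A.card * (f a + 1)‖
        ≤ ‖f a * (∏ p ∈ A, f p - (-1) ^ A.card)‖ + ‖(-1) ^ A.card * (f a + 1)‖ := norm_add_le _ _
      _ ≤ A.card * t + t := by
          rw [norm_mul, norm_mul, norm_pow, norm_neg, norm_one, one_pow, one_mul]
          refine add_le_add ?_ (h a (mem_insert_self _ _))
          calc ‖f a‖ * ‖∏ p ∈ A, f p - (-1) ^ A.card‖
              ≤ 1 * ‖∏ p ∈ A, f p - (-1) ^ A.card‖ :=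
                mul_le_mul_of_nonneg_right (h1 a (mem_insert_self _ _)) (norm_nonneg _)
            _ ≤ A.card * t := by rw [one_mul]; exact e2
      _ = ((A.card + 1 : ℕ) : ℝ) * t := by push_cast; ring

/-- a lower bound for the character sums over `SP` -/
theorem hxc_low (m : ℕ) [NeZero m] (ρ : ℝ) (r : ℕ) (hr : (r : ℝ) * ρ ^ (1 / 4 : ℝ) ≤ 1 / 2)
    (χ : DirichletCharacter ℂ m) (hχ : χ ∈ Xr ρ m) :
    ((SP (pq m (bb m)) r).card : ℝ) / 2 ≤ ‖∑ s ∈ SP (pq m (bb m)) r, χ (s : ZMod m)‖ := by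
  obtain ⟨S, hS⟩ : ∃ S, S = SP (pq m (bb m)) r := ⟨_, rfl⟩
  rw [← hS]
  have h0 : ∀ s ∈ S, ‖χ (s : ZMod m) - (-1) ^ r‖ ≤ 1 / 2 := by
    intro s hs
    rw [hS, SP, mem_image] at hs
    obtain ⟨A, hA, rfl⟩ := hs
    rw [mem_powersetCard] at hA
    have e1 : χ ((∏ p ∈ A, p : ℕ) : ZMod m) = ∏ p ∈ A, χ (p : ZMod m) := by
      rw [Nat.cast_prod, map_prod]
    rw [e1]
    have e2 := hxc_prod A (fun p => χ (p : ZMod m)) (ρ ^ (1 / 4 : ℝ)) (fun p hp => by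
      have hp' := hA.1 hp
      rw [mem_pq] at hp'
      exact mem_Xr.mp hχ p hp'.2.1 hp'.1 hp'.2.2) (fun p _ => DirichletCharacter.norm_le_one χ _)
    rw [hA.2] at e2
    exact e2.trans hr
  have h1 : ‖∑ s ∈ S, (χ (s : ZMod m) - (-1) ^ r)‖ ≤ (S.card : ℝ) * (1 / 2) := by
    calc ‖∑ s ∈ S, (χ (s : ZMod m) - (-1) ^ r)‖
        ≤ ∑ s ∈ S, ‖χ (s : ZMod m) - (-1) ^ r‖ := norm_sum_le _ _
      _ ≤ ∑ _s ∈ S, (1 / 2 : ℝ) := Finset.sum_le_sum h0
      _ = (S.card : ℝ) * (1 / 2) := by rw [sum_const, nsmul_eq_mul]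
  have h2 : ‖∑ _s ∈ S, ((-1 : ℂ) ^ r)‖ = (S.card : ℝ) := by
    rw [sum_const, nsmul_eq_mul, norm_mul, norm_pow, norm_neg, norm_one, one_pow, mul_one,
      Complex.norm_natCast]
  have h3 : ∑ _s ∈ S, ((-1 : ℂ) ^ r)
      = ∑ s ∈ S, χ (s : ZMod m) - ∑ s ∈ S, (χ (s : ZMod m) - (-1) ^ r) := by
    rw [← sum_sub_distrib]
    exact sum_congr rfl fun s _ => by ring
  have h4 := norm_sub_le (∑ s ∈ S, χ (s : ZMod m)) (∑ s ∈ S, (χ (s : ZMod m) - (-1) ^ r))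
  rw [← h3, h2] at h4
  linarith only [h1, h4]

theorem Xr_card : ∃ C : ℕ, ∃ m0 : ℕ, ∀ (m : ℕ) [NeZero m], m0 ≤ m → ∀ ρ : ℝ, Rho C m ρ →
    ((Xr ρ m).card : ℝ) ≤ (m : ℝ) ^ (1 / 200 : ℝ) := by
  obtain ⟨n1, H1⟩ := supply
  obtain ⟨C2, n2, H2⟩ := small 2 1 (1 / 4) (by norm_num)
  refine ⟨C2, n1 + n2 + 3, fun m _ hm ρ hρ => ?_⟩
  obtain ⟨r, hr1, hrL, hrm, hS⟩ := H1 m (by omega)
  have h2 := H2 m (by omega) ρ hρ
  have hρ0 := hρ.1
  rw [pow_one] at h2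
  have hr : (r : ℝ) * ρ ^ (1 / 4 : ℝ) ≤ 1 / 2 := by
    have h3 : 0 ≤ ρ ^ (1 / 4 : ℝ) := Real.rpow_nonneg hρ0.le _
    have h4 : (r : ℝ) * ρ ^ (1 / 4 : ℝ) ≤ (1 + Real.log m) * ρ ^ (1 / 4 : ℝ) :=
      mul_le_mul_of_nonneg_right (by linarith only [hrL]) h3
    linarith only [h2, h4]
  obtain ⟨T, hT⟩ : ∃ T : ℝ, T = ((SP (pq m (bb m)) r).card : ℝ) := ⟨_, rfl⟩
  rw [← hT] at hS
  have hm1 : (1 : ℝ) ≤ (m : ℝ) := by exact_mod_cast (show 1 ≤ m by omega)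
  have hmpos : (0 : ℝ) < m := by linarith only [hm1]
  have hTpos : 0 < T := lt_of_lt_of_le (by positivity) hS
  have e1 := ortho_sum m (SP (pq m (bb m)) r) fun s hs => by
    rw [SP, mem_image] at hs
    obtain ⟨A, hA, rfl⟩ := hs
    rw [mem_powersetCard] at hA
    have hp : ∀ p ∈ A, p ≤ bb m ∧ p.Prime ∧ ¬ p ∣ m := fun p hp => by
      have := hA.1 hp
      rwa [mem_pq] at this
    refine ⟨?_, ?_, ?_⟩
    · exact Nat.Coprime.prod_left fun p hp' =>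
        (Nat.Prime.coprime_iff_not_dvd (hp p hp').2.1).mpr (hp p hp').2.2
    · exact Nat.pos_of_ne_zero (prod_ne_zero_iff.mpr fun p hp' => (hp p hp').2.1.ne_zero)
    · refine le_trans ?_ hrm
      rw [← hA.2]
      exact prod_le_pow_card _ _ _ fun p hp' => (hp p hp').1
  rw [← hT] at e1
  have e2 : ((Xr ρ m).card : ℝ) * (T / 2) ^ 2 ≤ (m.totient : ℝ) * T := by
    rw [← e1]
    calc ((Xr ρ m).card : ℝ) * (T / 2) ^ 2 = ∑ _χ ∈ Xr ρ m, (T / 2) ^ 2 := by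
          rw [sum_const, nsmul_eq_mul]
      _ ≤ ∑ χ ∈ Xr ρ m, ‖∑ s ∈ SP (pq m (bb m)) r, χ (s : ZMod m)‖ ^ 2 := by
          refine Finset.sum_le_sum fun χ hχ => pow_le_pow_left₀ (by positivity) ?_ 2
          rw [hT]
          exact hxc_low m ρ r hr χ hχ
      _ ≤ ∑ χ : DirichletCharacter ℂ m, ‖∑ s ∈ SP (pq m (bb m)) r, χ (s : ZMod m)‖ ^ 2 :=
          Finset.sum_le_univ_sum_of_nonneg fun χ => by positivity
  have e3 : (m.totient : ℝ) * T ≤ m * T :=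
    mul_le_mul_of_nonneg_right (by exact_mod_cast Nat.totient_le m) hTpos.le
  have e4 : ((Xr ρ m).card : ℝ) * T ≤ 4 * m := by
    have : ((Xr ρ m).card : ℝ) * T * T ≤ 4 * m * T := by nlinarith [e2, e3]
    exact le_of_mul_le_mul_right this hTpos
  have e5 : ((Xr ρ m).card : ℝ) * ((m : ℝ) ^ (1 - 1 / 200 : ℝ) * 4) ≤ 4 * m :=
    (mul_le_mul_of_nonneg_left hS (Nat.cast_nonneg _)).trans e4
  have e6 : (m : ℝ) = (m : ℝ) ^ (1 / 200 : ℝ) * (m : ℝ) ^ (1 - 1 / 200 : ℝ) := by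
    rw [← Real.rpow_add hmpos]
    norm_num
  have e7 : 0 < (m : ℝ) ^ (1 - 1 / 200 : ℝ) := Real.rpow_pos_of_pos hmpos _
  have e8 : ((Xr ρ m).card : ℝ) * (m : ℝ) ^ (1 - 1 / 200 : ℝ)
      ≤ (m : ℝ) ^ (1 / 200 : ℝ) * (m : ℝ) ^ (1 - 1 / 200 : ℝ) := by
    rw [← e6]
    linarith
  exact le_of_mul_le_mul_right e8 e7

end Pool.Agent.H78.PH

end
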