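import Pool.Agent.H94.PG.M12
import Pool.Agent.H94.PG.M13
import Pool.Agent.H94.PG.M16

/-! The parts of this file: H11.LQ.Even2, H78.PH.HT7a, H78.PD.Par2. -/

section

/-!
# LQ stage 2, module Even2: moduli divisible by a power of two larger than `ρ ^ (-1/8)`

Model: `even_case` in Pool/Agent/H11/LQ/Even.lean; use `even_q` of that file.
`j = Nat.log 2 ⌊ρ ^ (-1/16)⌋`: `2 ^ j ≤ ρ ^ (-1/16) < 2 ^ (j + 1)`; `2 ^ j ∣ m`, `m1 = m / 2 ^ j ≥ ρ ^ (1/16) m ≥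
m ^ (1/2)`.  For a prime `q ≤ (log m) ^ 800`: `2 q ≤ 2 ^ j` as `2 ^ j ≥ ρ ^ (-1/16) / 2 ≥ (log m) ^ (C0/16) / 2`
with `C0 = 16 * 801` (or larger) and `log m ≥ 4`.  `even_q`:
`card (Ex m1 q) ≤ 2 * 10 ^ j (e_2 + 1) ≤ 2 ρ ^ (-1/4) (ρ m + 1) ≤ 4 ρ ^ (3/4) m ≤ √ρ m1`
(`10 ^ j ≤ 16 ^ j = (2 ^ j) ^ 4 ≤ ρ ^ (-1/4)`, `1 ≤ ρ m` from `m ^ (-c0) ≤ ρ`, `c0 = 1/2`, `4 ≤ ρ ^ (-3/16)`).
-/

set_option autoImplicit false

namespace Pool.Agent.H11.LQ

open Finset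
open Pool.Agent.H34PG (lam lam_val lam_mul lam_prime)

theorem even_case2 : ∃ c0 : ℝ, 0 < c0 ∧ ∃ C0 : ℕ, ∃ m0 : ℕ, ∀ m ≥ m0, ∀ ρ : ℝ,
    (m : ℝ) ^ (-c0) ≤ ρ → ρ * Real.log m ^ C0 ≤ 1 → ∀ η : ℤ, (η = 1 ∨ η = -1) →
    (∃ i, ρ ^ (-(1 / 8) : ℝ) < ((Nat.gcd (2 ^ i) m : ℕ) : ℝ)) →
    ((Ex m η 2).card : ℝ) ≤ ρ * m →
    ∃ m1 : ℕ, m1 ∣ m ∧ (m : ℝ) ^ (1 / 2 : ℝ) ≤ m1 ∧ ∀ q : ℕ, q.Prime →
      (q : ℝ) ≤ Real.log m1 ^ 800 → ((Ex m1 η q).card : ℝ) ≤ Real.sqrt ρ * m1 := by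
  refine ⟨1 / 2, by norm_num, 16 * 801, 100, ?_⟩
  rintro m hm ρ hρ hρ1 η hη ⟨i, hi⟩ he
  have hm0 : 0 < m := by omega
  have hmr : (100 : ℝ) ≤ m := by exact_mod_cast hm
  have hmp : (0 : ℝ) < m := by linarith only [hmr]
  have hρ0 : 0 < ρ := lt_of_lt_of_le (Real.rpow_pos_of_pos hmp _) hρ
  -- `4 ≤ log m`
  have hL : (4 : ℝ) ≤ Real.log m := by
    rw [Real.le_log_iff_exp_le hmp]
    have h1 : Real.exp 4 = Real.exp 1 ^ 4 := by
      rw [← Real.exp_nat_mul]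
      norm_num
    have h2 : Real.exp 1 < 3 := Real.exp_one_lt_d9.trans (by norm_num)
    have h3 : Real.exp 1 ^ 4 ≤ 3 ^ 4 := pow_le_pow_left₀ (Real.exp_pos 1).le h2.le 4
    rw [h1]
    linarith only [hmr, h3]
  -- the number `R = ρ ^ (-1/16)`
  obtain ⟨R, hR⟩ : ∃ R, R = ρ ^ (-(1 / 16) : ℝ) := ⟨_, rfl⟩
  have hR0 : 0 < R := by rw [hR]; exact Real.rpow_pos_of_pos hρ0 _
  have hR16 : R ^ 16 * ρ = 1 := by
    rw [hR, ← Real.rpow_natCast, ← Real.rpow_mul hρ0.le]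
    norm_num
    rw [Real.rpow_neg_one]
    exact inv_mul_cancel₀ hρ0.ne'
  have hR2 : ρ ^ (-(1 / 8) : ℝ) = R ^ 2 := by
    rw [hR, ← Real.rpow_natCast, ← Real.rpow_mul hρ0.le]
    norm_num
  have hRL : Real.log m ^ 801 ≤ R := by
    have h1 : (Real.log m ^ 801) ^ 16 ≤ R ^ 16 := by
      have h2 : (Real.log m ^ 801) ^ 16 * ρ ≤ R ^ 16 * ρ := by
        rw [hR16, ← pow_mul, mul_comm 801 16, mul_comm]
        exact hρ1
      exact le_of_mul_le_mul_right h2 hρ0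
    exact le_of_pow_le_pow_left₀ (by norm_num) hR0.le h1
  have hR4 : (4 : ℝ) ≤ R := by
    refine hL.trans (le_trans ?_ hRL)
    exact le_self_pow₀ (by linarith only [hL]) (by norm_num)
  have hR1 : (1 : ℝ) ≤ R := by linarith only [hR4]
  have hRm : R ^ 16 ≤ (m : ℝ) ^ (1 / 2 : ℝ) := by
    have h1 : (m : ℝ) ^ (-(1 / 2) : ℝ) * (m : ℝ) ^ (1 / 2 : ℝ) = 1 := by
      rw [← Real.rpow_add hmp]
      norm_num
    have h2 : R ^ 16 * ρ ≤ (m : ℝ) ^ (1 / 2 : ℝ) * ρ := by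
      have h3 : (m : ℝ) ^ (1 / 2 : ℝ) * (m : ℝ) ^ (-(1 / 2) : ℝ) ≤ (m : ℝ) ^ (1 / 2 : ℝ) * ρ :=
        mul_le_mul_of_nonneg_left hρ (by positivity)
      rw [hR16]
      linarith only [h1, h3]
    exact le_of_mul_le_mul_right h2 hρ0
  have hsq : (m : ℝ) ^ (1 / 2 : ℝ) * (m : ℝ) ^ (1 / 2 : ℝ) = m := by
    rw [← Real.rpow_add hmp]
    norm_num
  have hsm : (m : ℝ) ^ (1 / 2 : ℝ) ≤ m := by
    calc (m : ℝ) ^ (1 / 2 : ℝ) ≤ (m : ℝ) ^ (1 : ℝ) :=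
          Real.rpow_le_rpow_of_exponent_le (by linarith only [hmr]) (by norm_num)
      _ = m := Real.rpow_one _
  have hRR : R ≤ (m : ℝ) ^ (1 / 2 : ℝ) := (le_self_pow₀ hR1 (by norm_num)).trans hRm
  have hfl : ⌊R⌋₊ ≠ 0 := by
    have : 1 ≤ ⌊R⌋₊ := by
      refine Nat.le_floor ?_
      rw [Nat.cast_one]
      exact hR1
    omega
  obtain ⟨j, hj⟩ : ∃ j, j = Nat.log 2 ⌊R⌋₊ := ⟨_, rfl⟩
  have hj1 : ((2 : ℝ)) ^ j ≤ R := by
    have h1 : 2 ^ j ≤ ⌊R⌋₊ := by rw [hj]; exact Nat.pow_log_le_self 2 hfl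
    calc ((2 : ℝ)) ^ j ≤ (⌊R⌋₊ : ℝ) := by exact_mod_cast h1
      _ ≤ R := Nat.floor_le hR0.le
  have hj2 : R < 2 * (2 : ℝ) ^ j := by
    have h1 : ⌊R⌋₊ < 2 ^ (j + 1) := by rw [hj]; exact Nat.lt_pow_succ_log_self (by norm_num) _
    have h2 : R < ((2 ^ (j + 1) : ℕ) : ℝ) := (Nat.floor_lt' (by positivity)).mp h1
    push_cast at h2
    rw [pow_succ] at h2
    linarith only [h2]
  have hdvd : 2 ^ j ∣ m := by
    obtain ⟨a, ha, hga⟩ := (Nat.dvd_prime_pow Nat.prime_two).mp (Nat.gcd_dvd_left (2 ^ i) m)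
    rw [hga, hR2] at hi
    have h1 : ((2 : ℝ)) ^ j < (2 : ℝ) ^ a := by
      calc ((2 : ℝ)) ^ j ≤ R := hj1
        _ ≤ R ^ 2 := le_self_pow₀ hR1 (by norm_num)
        _ < (2 : ℝ) ^ a := by exact_mod_cast hi
    have h2 : j < a := (pow_lt_pow_iff_right₀ (by norm_num : (1 : ℝ) < 2)).mp h1
    have h3 : 2 ^ a ∣ m := by rw [← hga]; exact Nat.gcd_dvd_right _ _
    exact (pow_dvd_pow 2 h2.le).trans h3
  have hm' : ((m / 2 ^ j : ℕ) : ℝ) * 2 ^ j = (m : ℝ) := by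
    have h1 : m / 2 ^ j * 2 ^ j = m := Nat.div_mul_cancel hdvd
    exact_mod_cast h1
  obtain ⟨m1, hm1⟩ : ∃ m1, m1 = m / 2 ^ j := ⟨_, rfl⟩
  rw [← hm1] at hm'
  have hlow : (m : ℝ) ≤ (m1 : ℝ) * R := by
    rw [← hm']
    exact mul_le_mul_of_nonneg_left hj1 (by positivity)
  have hup : (m1 : ℝ) ≤ m := by
    rw [hm1]
    exact_mod_cast Nat.div_le_self m (2 ^ j)
  have hm1r : (m : ℝ) ^ (1 / 2 : ℝ) ≤ (m1 : ℝ) := by
    by_contra hcon
    rw [not_le] at hcon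
    have h1 : (m1 : ℝ) * R < (m : ℝ) ^ (1 / 2 : ℝ) * (m : ℝ) ^ (1 / 2 : ℝ) :=
      mul_lt_mul hcon hRR hR0 (by positivity)
    rw [hsq] at h1
    linarith only [hlow, h1]
  have hm11 : (1 : ℝ) ≤ m1 := le_trans (Real.one_le_rpow (by linarith only [hmr]) (by norm_num)) hm1r
  refine ⟨m1, by rw [hm1]; exact Nat.div_dvd_of_dvd hdvd, hm1r, fun q hq hqm => ?_⟩
  have hq2 : 2 * q ≤ 2 ^ j := by
    have h0 : Real.log m1 ≤ Real.log m := Real.log_le_log (by linarith only [hR4, hRR, hm1r]) hup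
    have h1 : (q : ℝ) ≤ Real.log m ^ 800 :=
      hqm.trans (pow_le_pow_left₀ (Real.log_nonneg hm11) h0 800)
    have h2 : Real.log m ^ 801 = Real.log m ^ 800 * Real.log m := pow_succ _ _
    have h3 : Real.log m ^ 800 * 4 ≤ Real.log m ^ 800 * Real.log m :=
      mul_le_mul_of_nonneg_left hL (by positivity)
    have h5 : (2 : ℝ) * q ≤ (2 : ℝ) ^ j := by linarith only [hRL, hj2, h1, h3]
    exact_mod_cast h5
  have h1 := even_q hη hm0 hdvd hq.pos hq2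
  rw [← hm1] at h1
  have h2 : ((Ex m1 η q).card : ℝ) ≤ 2 * ((10 : ℝ) ^ j * ((Ex m η 2).card + 1)) := by
    exact_mod_cast h1
  have h3 : (10 : ℝ) ^ j ≤ R ^ 4 := by
    calc (10 : ℝ) ^ j ≤ (16 : ℝ) ^ j := pow_le_pow_left₀ (by norm_num) (by norm_num) j
      _ = ((2 : ℝ) ^ j) ^ 4 := by
          rw [← pow_mul, mul_comm, pow_mul]
          norm_num
      _ ≤ R ^ 4 := pow_le_pow_left₀ (by positivity) hj1 4
  have h4 : (1 : ℝ) ≤ ρ * m := by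
    have h5 : R ^ 16 * ρ ≤ m * ρ := mul_le_mul_of_nonneg_right (hRm.trans hsm) hρ0.le
    rw [hR16] at h5
    linarith only [h5]
  have h5 : ((Ex m η 2).card : ℝ) + 1 ≤ 2 * (ρ * m) := by linarith only [he, h4]
  have h6 : ((Ex m1 η q).card : ℝ) ≤ 2 * (R ^ 4 * (2 * (ρ * m))) := by
    refine h2.trans ?_
    exact mul_le_mul_of_nonneg_left (mul_le_mul h3 h5 (by positivity) (by positivity)) (by norm_num)
  have hs : Real.sqrt ρ * R ^ 8 = 1 := by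
    have h7 : ρ = ((R ^ 8)⁻¹) ^ 2 := by
      rw [inv_pow, ← pow_mul]
      norm_num
      exact eq_inv_of_mul_eq_one_left (by rw [mul_comm]; exact hR16)
    rw [h7, Real.sqrt_sq (by positivity)]
    exact inv_mul_cancel₀ (by positivity)
  -- multiply by `R ^ 12`
  have h8 : ((Ex m1 η q).card : ℝ) * R ^ 12 ≤ (Real.sqrt ρ * m1) * R ^ 12 := by
    calc ((Ex m1 η q).card : ℝ) * R ^ 12 ≤ 2 * (R ^ 4 * (2 * (ρ * m))) * R ^ 12 :=
          mul_le_mul_of_nonneg_right h6 (by positivity)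
      _ = 4 * m * (R ^ 16 * ρ) := by ring
      _ = 4 * m := by rw [hR16, mul_one]
      _ ≤ R ^ 3 * (m1 * R) := by
          have h9 : R ≤ R ^ 3 := le_self_pow₀ hR1 (by norm_num)
          exact mul_le_mul (by linarith only [hR4, h9]) hlow hmp.le (by positivity)
      _ = (Real.sqrt ρ * R ^ 8) * (m1 * R ^ 4) := by rw [hs]; ring
      _ = (Real.sqrt ρ * m1) * R ^ 12 := by ring
  exact le_of_mul_le_mul_right h8 (by positivity)

end Pool.Agent.H11.LQ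

end

section

/-!
# LQ / PG stage 2, HT7a: one real character

`Y = {χ ∈ Xr : VV χ ≤ ρ^(1/10)}`; by `t5'` the weight of `Xr \ Y` is `≤ ρ^(1/5 - 1/10) = ρ^(1/10)`; `weight2`, `weight_one`: the weight of `Y` is
`≥ 1 - ρ^(1/3) - ρ^(1/10) > 0`, so `Y` is not empty; by `t6'` (`ρ^(1/10) (1 + log m) ≤ 2^(-14)`: `small`) `Y = {χ}`.  `χ⁻¹ ∈ Y` too
(`χ⁻¹ x = conj (χ x)`, `‖1 + conj z‖ = ‖1 + z‖`), so `χ² = 1`.  `χ ≠ 1`: there is a prime `q ≤ bb m` not dividing `m` (`pq_card`) and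
`2 > ρ^(1/4)`.  The weight of all other characters is `≤ ρ^(1/3) + ρ^(1/10) ≤ ρ^(1/11)` (`small`).
`minus_half`: at least half of the primes `p ∈ pq m Q`, `Q ≤ yy m`, have `χ p = -1`: `χ p ∈ {1, -1}` (`χ² = 1`, `p ∤ m`), and if `χ p = 1` then
`Ww p ≥ 4 ‖cc χ‖² ≥ 2` (`χ ∈ Xr`); `∑ Ww = #pq aa ≤ #pq ρ^(1/4)` (`aa_le`).
-/

set_option autoImplicit false

namespace Pool.Agent.H78.PH

open Finset
open Pool.Agent.H34PG (lam lam_val lam_mul lam_prime)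
open Pool.Agent.H11.LQ Pool.Agent.H78.PG

theorem ht7a_VV_inv (m : ℕ) [NeZero m] (χ : DirichletCharacter ℂ m) : VV m χ⁻¹ = VV m χ := by
  unfold VV
  refine Finset.sum_congr rfl fun p _ => ?_
  have h : χ⁻¹ (p : ZMod m) = star (χ (p : ZMod m)) := by
    rw [← MulChar.star_apply']
  have h2 : (1 : ℂ) + χ⁻¹ (p : ZMod m) = star (1 + χ (p : ZMod m)) := by
    rw [h, star_add, star_one]
  rw [h2, norm_star]

/-- weight of the bad characters -/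
theorem ht7a_bad {ρ : ℝ} (hρ : 0 < ρ) (m : ℕ) [NeZero m] (η : ℤ)
    (h5 : ∑ χ ∈ Xr ρ m, ‖cc m (FC m η) χ‖ ^ 2 * VV m χ ≤ ρ ^ (1 / 5 : ℝ))
    (Z : Finset (DirichletCharacter ℂ m)) (hZ : Z ⊆ Xr ρ m)
    (hZ2 : ∀ χ ∈ Z, ¬ VV m χ ≤ ρ ^ (1 / 10 : ℝ)) :
    ∑ χ ∈ Z, ‖cc m (FC m η) χ‖ ^ 2 ≤ ρ ^ (1 / 10 : ℝ) := by
  have hV : ∀ χ : DirichletCharacter ℂ m, 0 ≤ VV m χ := fun χ => by
    unfold VV
    exact Finset.sum_nonneg fun p _ => by positivity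
  have h1 : (∑ χ ∈ Z, ‖cc m (FC m η) χ‖ ^ 2) * ρ ^ (1 / 10 : ℝ) ≤ ρ ^ (1 / 5 : ℝ) := by
    rw [Finset.sum_mul]
    calc ∑ χ ∈ Z, ‖cc m (FC m η) χ‖ ^ 2 * ρ ^ (1 / 10 : ℝ)
        ≤ ∑ χ ∈ Z, ‖cc m (FC m η) χ‖ ^ 2 * VV m χ := by
          refine Finset.sum_le_sum fun χ hχ => ?_
          exact mul_le_mul_of_nonneg_left (le_of_lt (not_le.mp (hZ2 χ hχ))) (by positivity)
      _ ≤ ∑ χ ∈ Xr ρ m, ‖cc m (FC m η) χ‖ ^ 2 * VV m χ := by
          refine Finset.sum_le_sum_of_subset_of_nonneg hZ fun χ _ _ => ?_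
          exact mul_nonneg (by positivity) (hV χ)
      _ ≤ _ := h5
  have h2 : ρ ^ (1 / 5 : ℝ) = ρ ^ (1 / 10 : ℝ) * ρ ^ (1 / 10 : ℝ) := by
    rw [← Real.rpow_add hρ]
    congr 1
    norm_num
  rw [h2] at h1
  exact le_of_mul_le_mul_right h1 (Real.rpow_pos_of_pos hρ _)

/-- a character with a nonzero coefficient has the parity of `F` -/
theorem ht7a_par (m : ℕ) [NeZero m] (hm : 3 ≤ m) {η : ℤ} (hη : η = 1 ∨ η = -1)
    (χ : DirichletCharacter ℂ m) (hc : cc m (FC m η) χ ≠ 0) : χ (-1) = (η : ℂ) := by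
  have hF : ∀ u : (ZMod m)ˣ, FC m η ((-u : (ZMod m)ˣ) : ZMod m) = (η : ℂ) * FC m η (u : ZMod m) := by
    intro u
    have hdvd : m ∣ (u : ZMod m).val + ((-u : (ZMod m)ˣ) : ZMod m).val := by
      rw [← ZMod.natCast_eq_zero_iff, Nat.cast_add, ZMod.natCast_zmod_val, ZMod.natCast_zmod_val,
        Units.val_neg, add_neg_cancel]
    have hne : 2 * ((u : ZMod m).val % m) ≠ m := by
      intro h
      rw [Nat.mod_eq_of_lt (ZMod.val_lt _)] at h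
      have h1 := ZMod.val_coe_unit_coprime u
      have h2 : Nat.gcd (u : ZMod m).val m = (u : ZMod m).val :=
        Nat.gcd_eq_left ⟨2, by rw [mul_comm]; exact h.symm⟩
      rw [Nat.Coprime, h2] at h1
      omega
    have h := F_neg hη hdvd hne
    unfold FC
    rw [h]
    push_cast
    ring
  have h1 : ∑ u : (ZMod m)ˣ, FC m η (u : ZMod m) * (starRingEnd ℂ) (χ (u : ZMod m))
      = (η : ℂ) * (starRingEnd ℂ) (χ (-1)) *
        ∑ u : (ZMod m)ˣ, FC m η (u : ZMod m) * (starRingEnd ℂ) (χ (u : ZMod m)) := by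
    rw [Finset.mul_sum]
    rw [← Equiv.sum_comp (Equiv.neg (ZMod m)ˣ)
      (fun u : (ZMod m)ˣ => FC m η (u : ZMod m) * (starRingEnd ℂ) (χ (u : ZMod m)))]
    refine Finset.sum_congr rfl fun u _ => ?_
    have h2 : χ ((-u : (ZMod m)ˣ) : ZMod m) = χ (-1) * χ (u : ZMod m) := by
      rw [← map_mul, Units.val_neg, neg_one_mul]
    rw [Equiv.neg_apply, hF u, h2, map_mul]
    ring
  have h3 : cc m (FC m η) χ = (η : ℂ) * (starRingEnd ℂ) (χ (-1)) * cc m (FC m η) χ := by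
    unfold cc
    conv_lhs => rw [h1]
    ring
  have h4 : (η : ℂ) * (starRingEnd ℂ) (χ (-1)) = 1 := by
    have h5 : (1 : ℂ) * cc m (FC m η) χ
        = (η : ℂ) * (starRingEnd ℂ) (χ (-1)) * cc m (FC m η) χ := by rw [one_mul]; exact h3
    exact (mul_right_cancel₀ hc h5).symm
  have h6 : (starRingEnd ℂ) (χ (-1)) = (η : ℂ) := by
    rcases hη with h | h
    · rw [h] at h4 ⊢
      simpa using h4
    · rw [h] at h4 ⊢
      push_cast at h4 ⊢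
      linear_combination -h4
  have h7 := congrArg (starRingEnd ℂ) h6
  rw [Complex.conj_conj] at h7
  rw [h7]
  exact map_intCast (starRingEnd ℂ) η

/-- half of the primes -/
theorem ht7a_half {ρ : ℝ} (m : ℕ) [NeZero m] (η : ℤ) {χ : DirichletCharacter ℂ m}
    (hX : χ ∈ Xr ρ m) (hc : 1 / 2 ≤ ‖cc m (FC m η) χ‖ ^ 2) (hsq : χ ^ 2 = 1) (Q : ℕ)
    (ha : aa ρ m η Q ≤ 1) : ((pq m Q).card : ℝ) / 2
        ≤ (((pq m Q).filter (fun p : ℕ => χ (p : ZMod m) = -1)).card : ℝ) := by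
  classical
  have hval : ∀ p ∈ pq m Q, χ (p : ZMod m) = 1 ∨ χ (p : ZMod m) = -1 := by
    intro p hp
    rw [mem_pq] at hp
    have hu : IsUnit (p : ZMod m) := by
      rw [ZMod.isUnit_iff_coprime]
      exact (Nat.Prime.coprime_iff_not_dvd hp.2.1).mpr hp.2.2
    have h : χ (p : ZMod m) ^ 2 = 1 := by
      rw [← MulChar.pow_apply' χ two_ne_zero, hsq, MulChar.one_apply hu]
    have h' : (χ (p : ZMod m) - 1) * (χ (p : ZMod m) + 1) = 0 := by linear_combination h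
    rcases mul_eq_zero.mp h' with h2 | h2
    · exact Or.inl (sub_eq_zero.mp h2)
    · exact Or.inr (eq_neg_of_add_eq_zero_left h2)
  have hsplit := Finset.card_filter_add_card_filter_not (s := pq m Q)
    (fun p : ℕ => χ (p : ZMod m) = -1)
  have hW0 : ∀ p : ℕ, 0 ≤ Ww ρ m η p := fun p => by
    unfold Ww
    exact Finset.sum_nonneg fun χ _ => by positivity
  have hW2 : ∀ p ∈ (pq m Q).filter (fun p : ℕ => ¬ χ (p : ZMod m) = -1), 2 ≤ Ww ρ m η p := by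
    intro p hp
    rw [Finset.mem_filter] at hp
    have h1 : χ (p : ZMod m) = 1 := (hval p hp.1).resolve_right hp.2
    have h2 : ‖cc m (FC m η) χ‖ ^ 2 * ‖χ (p : ZMod m) + 1‖ ^ 2 ≤ Ww ρ m η p := by
      unfold Ww
      exact Finset.single_le_sum
        (f := fun χ : DirichletCharacter ℂ m =>
          ‖cc m (FC m η) χ‖ ^ 2 * ‖χ (p : ZMod m) + 1‖ ^ 2)
        (fun χ _ => by positivity) hX
    have h3 : ‖χ (p : ZMod m) + 1‖ ^ 2 = 4 := by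
      rw [h1]
      norm_num
    rw [h3] at h2
    linarith
  have hsum : (((pq m Q).filter (fun p : ℕ => ¬ χ (p : ZMod m) = -1)).card : ℝ) * 2
      ≤ ∑ p ∈ pq m Q, Ww ρ m η p := by
    calc (((pq m Q).filter (fun p : ℕ => ¬ χ (p : ZMod m) = -1)).card : ℝ) * 2
        = ∑ p ∈ (pq m Q).filter (fun p : ℕ => ¬ χ (p : ZMod m) = -1), (2 : ℝ) := by
          rw [Finset.sum_const, nsmul_eq_mul]
      _ ≤ ∑ p ∈ (pq m Q).filter (fun p : ℕ => ¬ χ (p : ZMod m) = -1), Ww ρ m η p :=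
          Finset.sum_le_sum hW2
      _ ≤ ∑ p ∈ pq m Q, Ww ρ m η p :=
          Finset.sum_le_sum_of_subset_of_nonneg (Finset.filter_subset _ _) fun p _ _ => hW0 p
  have hle : ∑ p ∈ pq m Q, Ww ρ m η p ≤ ((pq m Q).card : ℝ) := by
    rcases Nat.eq_zero_or_pos (pq m Q).card with h0 | h0
    · have h1 : pq m Q = ∅ := Finset.card_eq_zero.mp h0
      rw [h1]
      simp
    · have h1 : (0 : ℝ) < ((pq m Q).card : ℝ) := by exact_mod_cast h0
      unfold aa at ha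
      rw [div_le_one h1] at ha
      exact ha
  have hs2 : (((pq m Q).filter (fun p : ℕ => χ (p : ZMod m) = -1)).card : ℝ)
      + (((pq m Q).filter (fun p : ℕ => ¬ χ (p : ZMod m) = -1)).card : ℝ) = ((pq m Q).card : ℝ) := by
    exact_mod_cast hsplit
  linarith

/-- a small prime not dividing the modulus -/
theorem ht7a_prime : ∃ m0 : ℕ, ∀ m : ℕ, m0 ≤ m → ∃ q ∈ pq m (bb m), True := by
  obtain ⟨n1, H1⟩ := pq_card
  obtain ⟨n2, H2⟩ := grow 1 800 1 one_pos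
  refine ⟨n1 + n2 + 8, fun m hm => ?_⟩
  have hm8 : (8 : ℝ) ≤ (m : ℝ) := by
    have : 8 ≤ m := by omega
    exact_mod_cast this
  have hL : (2 : ℝ) ≤ Real.log m := by
    rw [Real.le_log_iff_exp_le (by linarith only [hm8])]
    have h1 : Real.exp 2 = Real.exp 1 * Real.exp 1 := by
      rw [← Real.exp_add]
      norm_num
    have h2 := Real.exp_one_lt_d9
    have h3 := Real.exp_pos 1
    rw [h1]
    nlinarith only [hm8, h2, h3]
  have hL1 : (1 : ℝ) ≤ Real.log m := by linarith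
  have hL0 : (0 : ℝ) ≤ Real.log m := by linarith
  have hP0 : Real.log m ^ 3 + 1 ≤ Real.log m ^ 4 := by
    have e2 : (1 : ℝ) ≤ Real.log m ^ 3 := one_le_pow₀ hL1
    have e3 : Real.log m ^ 4 = Real.log m ^ 3 * Real.log m := by ring
    nlinarith only [hL, e2]
  have hP1 : Real.log m ^ 3 + 1 ≤ Real.log m ^ 800 :=
    hP0.trans (pow_le_pow_right₀ hL1 (by norm_num))
  have hP2 : Real.log m ^ 3 ≤ (bb m : ℝ) := by
    have h := (Nat.lt_floor_add_one (Real.log m ^ 800)).le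
    exact le_of_add_le_add_right (hP1.trans h)
  have hP3 : bb m ≤ m := by
    have h1 : (bb m : ℝ) ≤ Real.log m ^ 800 := by
      unfold bb
      exact Nat.floor_le (pow_nonneg hL0 _)
    have h2 : Real.log m ^ 800 ≤ (1 + Real.log m) ^ 800 :=
      pow_le_pow_left₀ hL0 (le_add_of_nonneg_left zero_le_one) 800
    have H2 := H2 m (by omega)
    rw [Real.rpow_one, one_mul] at H2
    exact_mod_cast (h1.trans h2).trans H2
  have H1 := H1 m (by omega)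
  have h4 := H1 (bb m) hP2 hP3
  have h5 : (0 : ℝ) < ((pq m (bb m)).card : ℝ) := by
    refine lt_of_lt_of_le ?_ h4
    have h6 : (0 : ℝ) < (bb m : ℝ) := lt_of_lt_of_le (by positivity) hP2
    positivity
  have h6 : 0 < (pq m (bb m)).card := by exact_mod_cast h5
  obtain ⟨q, hq⟩ := Finset.card_pos.mp h6
  exact ⟨q, hq, trivial⟩

end Pool.Agent.H78.PH

end

section

/-!
# PD, Par2: characters of positive weight have the right parity
-/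

set_option autoImplicit false

namespace Pool.Agent.H78.PD

open Finset
open Pool.Agent.H11.LQ Pool.Agent.H78.PG

theorem ww_par (m : ℕ) [NeZero m] (hm : 3 ≤ m) {η : ℤ} (hη : η = 1 ∨ η = -1)
    (χ : DirichletCharacter ℂ m) (h : ww m η χ ≠ 0) : χ (-1) = (η : ℂ) := by
  refine Pool.Agent.H78.PH.ht7a_par m hm hη χ fun h1 => h ?_
  unfold ww
  rw [h1, norm_zero]
  norm_num

end Pool.Agent.H78.PD

end
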