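import Pool.Agent.H94.PG.H36.IS.MtA_1
import Pool.Agent.H94.PG.M17

/-! The parts of this file: H11.LQ.Induct2, H11.LQ.Combi2, H78.PE.Harm. -/

section

/-!
# LQ stage 2, module Induct2: the recursion with polylogarithmic loss

Model: Pool/Agent/H11/LQ/Induct.lean (helper20), the same sequence `K_i` and the same use of
`round_step`, `base_step`, with another choice of `b`.
Notation: `L = log m`, `u = log (1/ρ)`, so `C0 log L ≤ u ≤ c0 L`.  `K0 ≥ 256` the constant of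
`round_step` (enlarged), `T0 = 2 ^ ρ0 ≥ 2 K0` fixed, `v = ⌊ρ ^ (-1/8)⌋`, so `v e_2 ≤ ρ ^ (7/8) m`.

Base: `b = ⌈u T0⌉`: `(1 - 1/T0) ^ b ≤ exp (-u) = ρ`, `T0 ^ b ≤ m` since `ρ0 (u T0 + 1) ≤ L` (`c0` small, `m`
large); `base_step`: `e_k ≤ 2 ρ m + b² (1 + K0) ρ0 ρ ^ (7/8) m ≤ C1 u² ρ ^ (7/8) m` for `k ≤ K0` prime.

Rounds: `K_0 = K0`, `K_(i+1) = ⌊K_i ^ (5/4)⌋ ≥ K_i ^ (9/8)`; `I` = the first `i` with `K_i ≥ L ^ 400`
(so `K_i ≤ L ^ 500` for `i ≤ I`).  CLAIM for `i ≤ I`, with a constant `C ≥ max C1 2201`: for all primes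
`q ≤ K_i`: `e_q ≤ ρ ^ (7/8) m (C u²) ^ (i + 1) K_i ^ 64`.
Step: `K = K_i < L ^ 400`, `K ^ 6 ≤ 2 ^ ρ' ≤ 2 K ^ 6 ≤ K ^ 7`, `b = ⌈4 u / log K⌉`:
`(K ^ (-1/4)) ^ b ≤ exp (-u) = ρ`, `(2 ^ ρ') ^ b ≤ K ^ (7 b) ≤ exp (28 u + 7 log K) ≤ m`;
`8 ρ' b² ≤ 2200 u²` (`ρ' ≤ 11 log K`, `b ≤ (4 u + log K) / log K`, `1 ≤ log K ≤ u`), so `round_step` gives
`e_k ≤ 2 ρ m + 2200 u² K ^ 8 E_i ≤ C u² K ^ 8 E_i` and `K ^ 72 ≤ K_(i+1) ^ 64`.
End: `(9/8) ^ (I - 1) ≤ log K_(I-1) ≤ 400 log L ≤ u`, so `I ≤ 1 + 9 log u`, and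
`(C u²) ^ (I + 1) ≤ exp ((2 + 9 log u) (log C + 2 log u)) ≤ exp (u / 64)` for `u ≥ u0`;
`K_I ^ 64 ≤ L ^ 32000 ≤ exp (u / 8)` if `C0 ≥ 256000`.  So `e_q ≤ ρ ^ (7/8 - 1/8 - 1/64) m ≤ √ρ m`.
-/

set_option autoImplicit false

namespace Pool.Agent.H11.LQ

open Finset
open Pool.Agent.H34PG (lam lam_val lam_mul lam_prime)

/-! ### The sequence -/

/-- `K_0 = K0`, `K_(n+1) = ⌊K_n ^ (5/4)⌋`. -/
private noncomputable def ind2U (K0 : ℕ) : ℕ → ℕ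
  | 0 => K0
  | n + 1 => ⌊((ind2U K0 n : ℕ) : ℝ) ^ (5 / 4 : ℝ)⌋₊

private theorem ind2_pow4 (K : ℕ) : ⌊(K : ℝ) ^ (5 / 4 : ℝ)⌋₊ ^ 4 ≤ K ^ 5 := by
  have h0 : (0 : ℝ) ≤ (K : ℝ) := Nat.cast_nonneg K
  have h1 : (0 : ℝ) ≤ (K : ℝ) ^ (5 / 4 : ℝ) := Real.rpow_nonneg h0 _
  have h2 : ((⌊(K : ℝ) ^ (5 / 4 : ℝ)⌋₊ : ℕ) : ℝ) ≤ (K : ℝ) ^ (5 / 4 : ℝ) := Nat.floor_le h1
  have h3 : ((K : ℝ) ^ (5 / 4 : ℝ)) ^ 4 = (K : ℝ) ^ 5 := by
    rw [← Real.rpow_natCast ((K : ℝ) ^ (5 / 4 : ℝ)) 4, ← Real.rpow_mul h0,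
      ← Real.rpow_natCast (K : ℝ) 5]
    norm_num
  have h4 : (((⌊(K : ℝ) ^ (5 / 4 : ℝ)⌋₊ : ℕ) : ℝ)) ^ 4 ≤ (K : ℝ) ^ 5 := by
    rw [← h3]
    exact pow_le_pow_left₀ (Nat.cast_nonneg _) h2 4
  exact_mod_cast h4

private theorem ind2_grow {K : ℕ} (hK : 256 ≤ K) :
    (K : ℝ) ^ (9 / 8 : ℝ) ≤ ((⌊(K : ℝ) ^ (5 / 4 : ℝ)⌋₊ : ℕ) : ℝ) := by
  have hK' : (256 : ℝ) ≤ (K : ℝ) := by exact_mod_cast hK
  have h0 : (0 : ℝ) < (K : ℝ) := by linarith only [hK']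
  have h1 : (2 : ℝ) ≤ (K : ℝ) ^ (1 / 8 : ℝ) := by
    have h2 : (256 : ℝ) ^ (1 / 8 : ℝ) ≤ (K : ℝ) ^ (1 / 8 : ℝ) :=
      Real.rpow_le_rpow (by norm_num) hK' (by norm_num)
    have h3 : (256 : ℝ) ^ (1 / 8 : ℝ) = 2 := by
      have h4 : (256 : ℝ) = (2 : ℝ) ^ (8 : ℝ) := by norm_num
      rw [h4, ← Real.rpow_mul (by norm_num)]
      norm_num
    rwa [h3] at h2
  have h5 : (K : ℝ) ^ (5 / 4 : ℝ) = (K : ℝ) ^ (9 / 8 : ℝ) * (K : ℝ) ^ (1 / 8 : ℝ) := by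
    rw [← Real.rpow_add h0]
    norm_num
  have h6 : (1 : ℝ) ≤ (K : ℝ) ^ (9 / 8 : ℝ) := Real.one_le_rpow (by linarith only [hK']) (by norm_num)
  have h7 : (K : ℝ) ^ (5 / 4 : ℝ) < ((⌊(K : ℝ) ^ (5 / 4 : ℝ)⌋₊ : ℕ) : ℝ) + 1 :=
    Nat.lt_floor_add_one _
  have h8 : (K : ℝ) ^ (9 / 8 : ℝ) * 2 ≤ (K : ℝ) ^ (9 / 8 : ℝ) * (K : ℝ) ^ (1 / 8 : ℝ) :=
    mul_le_mul_of_nonneg_left h1 (by linarith only [h6])
  rw [h5] at h7
  rw [h5]
  linarith only [h6, h7, h8]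

private theorem ind2_ge {K0 : ℕ} (hK0 : 256 ≤ K0) (i : ℕ) : K0 ≤ ind2U K0 i := by
  induction i with
  | zero => exact le_rfl
  | succ i ih =>
    have h1 : 256 ≤ ind2U K0 i := hK0.trans ih
    have h2 := ind2_grow h1
    have h3 : ((ind2U K0 i : ℕ) : ℝ) ≤ ((ind2U K0 i : ℕ) : ℝ) ^ (9 / 8 : ℝ) := by
      have h4 : (1 : ℝ) ≤ ((ind2U K0 i : ℕ) : ℝ) := by
        have : (256 : ℝ) ≤ ((ind2U K0 i : ℕ) : ℝ) := by exact_mod_cast h1
        linarith only [this]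
      calc ((ind2U K0 i : ℕ) : ℝ) = ((ind2U K0 i : ℕ) : ℝ) ^ (1 : ℝ) := (Real.rpow_one _).symm
        _ ≤ _ := Real.rpow_le_rpow_of_exponent_le h4 (by norm_num)
    have h5 : ((ind2U K0 i : ℕ) : ℝ) ≤ ((ind2U K0 (i + 1) : ℕ) : ℝ) := h3.trans h2
    exact ih.trans (by exact_mod_cast h5)

private theorem ind2_log {K0 : ℕ} (hK0 : 256 ≤ K0) (i : ℕ) :
    (9 / 8 : ℝ) ^ i ≤ Real.log (ind2U K0 i : ℕ) := by
  induction i with
  | zero =>
    have h1 : (256 : ℝ) ≤ (K0 : ℝ) := by exact_mod_cast hK0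
    have h2 : Real.exp 1 ≤ (K0 : ℝ) := by
      have := Real.exp_one_lt_d9
      linarith only [h1, this]
    have h3 : ((ind2U K0 0 : ℕ) : ℝ) = (K0 : ℝ) := rfl
    rw [pow_zero, h3]
    exact (Real.le_log_iff_exp_le (by linarith only [h1])).mpr h2
  | succ i ih =>
    have h1 : 256 ≤ ind2U K0 i := hK0.trans (ind2_ge hK0 i)
    have h2 := ind2_grow h1
    have h0 : (0 : ℝ) < ((ind2U K0 i : ℕ) : ℝ) := by
      have : (256 : ℝ) ≤ ((ind2U K0 i : ℕ) : ℝ) := by exact_mod_cast h1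
      linarith only [this]
    have h3 : Real.log (((ind2U K0 i : ℕ) : ℝ) ^ (9 / 8 : ℝ)) ≤
        Real.log ((ind2U K0 (i + 1) : ℕ) : ℝ) := Real.log_le_log (Real.rpow_pos_of_pos h0 _) h2
    rw [Real.log_rpow h0] at h3
    rw [pow_succ]
    linarith only [ih, h3]

/-! ### One round -/

private theorem ind2_round {K m k v : ℕ} {η : ℤ} {B L u : ℝ} (hK : 256 ≤ K)
    (hround : ∀ (ρ b e : ℕ), K ^ 6 ≤ 2 ^ ρ → (2 ^ ρ) ^ b ≤ m → 1 ≤ b →
      v * (Ex m η 2).card ≤ e → (∀ q, q.Prime → q ≤ K → (Ex m η q).card ≤ e) →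
      ((Ex m η k).card : ℝ) ≤
        2 * m * ((K : ℝ) ^ (-(1 / 4) : ℝ)) ^ b + 8 * ρ * b ^ 2 * K ^ 8 * e)
    (hm0 : 0 < m) (hL : L = Real.log m) (hu : Real.log K ≤ u) (huL : 35 * u ≤ L)
    (hB : 0 ≤ B) (hv : ((v * (Ex m η 2).card : ℕ) : ℝ) ≤ B)
    (hq : ∀ q : ℕ, q.Prime → q ≤ K → ((Ex m η q).card : ℝ) ≤ B) :
    ((Ex m η k).card : ℝ) ≤ 2 * (m * Real.exp (-u)) + 2200 * u ^ 2 * (K : ℝ) ^ 8 * B := by
  have hmR : (0 : ℝ) < m := by exact_mod_cast hm0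
  have hKR : (256 : ℝ) ≤ (K : ℝ) := by exact_mod_cast hK
  have hKpos : (0 : ℝ) < K := by linarith only [hKR]
  have hlogK1 : 1 ≤ Real.log K := by
    have h2 : Real.exp 1 ≤ (K : ℝ) := by
      have := Real.exp_one_lt_d9
      linarith only [hKR, this]
    exact (Real.le_log_iff_exp_le hKpos).mpr h2
  have hu1 : 1 ≤ u := hlogK1.trans hu
  have hlog2 : (69 / 100 : ℝ) ≤ Real.log 2 := by
    have := Real.log_two_gt_d9
    linarith only [this]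
  have hK1 : 1 < K ^ 6 := Nat.one_lt_pow (by norm_num) (by omega)
  obtain ⟨ρ, hρ⟩ : ∃ ρ, ρ = Nat.clog 2 (K ^ 6) := ⟨_, rfl⟩
  have h1 : K ^ 6 ≤ 2 ^ ρ := by rw [hρ]; exact Nat.le_pow_clog (by norm_num) _
  have hρ1 : 1 ≤ ρ := by
    rcases Nat.eq_zero_or_pos ρ with h | h
    · rw [h, pow_zero] at h1
      omega
    · exact h
  have h2 : 2 ^ ρ ≤ K ^ 7 := by
    have h3 := Nat.pow_pred_clog_lt_self (b := 2) (by norm_num) hK1
    rw [← hρ] at h3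
    have h4 : 2 ^ ρ = 2 * 2 ^ ρ.pred := by
      rw [← pow_succ', Nat.pred_eq_sub_one, Nat.sub_add_cancel hρ1]
    rw [h4, pow_succ K 6, mul_comm (K ^ 6) K]
    exact Nat.mul_le_mul (by omega) h3.le
  obtain ⟨b, hb⟩ : ∃ b, b = ⌈4 * u / Real.log K⌉₊ := ⟨_, rfl⟩
  have hbge : 4 * u / Real.log K ≤ b := by rw [hb]; exact Nat.le_ceil _
  have hblt : (b : ℝ) < 4 * u / Real.log K + 1 := by
    rw [hb]
    exact Nat.ceil_lt_add_one (by positivity)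
  have hb1 : 1 ≤ b := by
    rw [hb]
    exact Nat.ceil_pos.2 (by positivity)
  have hb0 : (0 : ℝ) ≤ b := Nat.cast_nonneg b
  have hblog : 4 * u ≤ b * Real.log K := by
    rw [div_le_iff₀ (by linarith only [hlogK1])] at hbge
    exact hbge
  have hblog' : b * Real.log K ≤ 5 * u := by
    have h3 : (b : ℝ) * Real.log K ≤ (4 * u / Real.log K + 1) * Real.log K :=
      mul_le_mul_of_nonneg_right hblt.le (by linarith only [hlogK1])
    have h4 : (4 * u / Real.log K + 1) * Real.log K = 4 * u + Real.log K := by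
      rw [add_mul, div_mul_cancel₀ _ (by linarith only [hlogK1] : Real.log (K : ℝ) ≠ 0), one_mul]
    linarith only [hu, h3, h4]
  have hbm : (2 ^ ρ) ^ b ≤ m := by
    have h3 : (((2 ^ ρ) ^ b : ℕ) : ℝ) ≤ m := by
      have h4 : (((2 ^ ρ) ^ b : ℕ) : ℝ) ≤ ((K : ℝ) ^ 7) ^ b := by
        have h5 : (2 ^ ρ) ^ b ≤ (K ^ 7) ^ b := Nat.pow_le_pow_left h2 b
        exact_mod_cast h5
      refine h4.trans ?_
      rw [← Real.log_le_log_iff (by positivity) hmR, Real.log_pow, Real.log_pow, ← hL]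
      push_cast
      linarith only [huL, hblog']
    exact_mod_cast h3
  have hmain := hround ρ b ⌊B⌋₊ h1 hbm hb1 (Nat.le_floor hv)
    (fun q hq1 hq2 => Nat.le_floor (hq q hq1 hq2))
  -- first term
  have hf : ((K : ℝ) ^ (-(1 / 4) : ℝ)) ^ b ≤ Real.exp (-u) := by
    have e1 : ((K : ℝ) ^ (-(1 / 4) : ℝ)) ^ b = Real.exp (-(1 / 4) * (b * Real.log K)) := by
      rw [← Real.rpow_natCast ((K : ℝ) ^ (-(1 / 4) : ℝ)) b, ← Real.rpow_mul (by linarith only [hKR]),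
        Real.rpow_def_of_pos (by linarith only [hKR])]
      congr 1
      ring
    rw [e1]
    apply Real.exp_le_exp.mpr
    linarith only [hblog]
  -- second term
  have hρlog : (ρ : ℝ) ≤ 11 * Real.log K := by
    have h8 : (2 : ℝ) ^ ρ ≤ (K : ℝ) ^ 7 := by exact_mod_cast h2
    have h9 := Real.log_le_log (by positivity) h8
    rw [Real.log_pow, Real.log_pow] at h9
    push_cast at h9
    have h10 : (0 : ℝ) ≤ (ρ : ℝ) := Nat.cast_nonneg ρ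
    have h11 : (ρ : ℝ) * (69 / 100) ≤ ρ * Real.log 2 := mul_le_mul_of_nonneg_left hlog2 h10
    linarith only [hlogK1, h9, h11]
  have hs : 8 * (ρ : ℝ) * b ^ 2 ≤ 2200 * u ^ 2 := by
    have h8 : (b : ℝ) ≤ 5 * u := by
      have h9 : (b : ℝ) * 1 ≤ b * Real.log K := mul_le_mul_of_nonneg_left hlogK1 hb0
      linarith only [hblog', h9]
    have h9 : (ρ : ℝ) * b ≤ 11 * (5 * u) := by
      calc (ρ : ℝ) * b ≤ (11 * Real.log K) * b := mul_le_mul_of_nonneg_right hρlog hb0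
        _ = 11 * (b * Real.log K) := by ring
        _ ≤ 11 * (5 * u) := by linarith only [hblog']
    have h10 : (ρ : ℝ) * b * b ≤ (11 * (5 * u)) * (5 * u) :=
      mul_le_mul h9 h8 hb0 (by linarith only [hu, hlogK1])
    nlinarith only [h10]
  have he : ((⌊B⌋₊ : ℕ) : ℝ) ≤ B := Nat.floor_le hB
  refine hmain.trans (add_le_add ?_ ?_)
  · calc 2 * (m : ℝ) * ((K : ℝ) ^ (-(1 / 4) : ℝ)) ^ b
        ≤ 2 * (m : ℝ) * Real.exp (-u) := mul_le_mul_of_nonneg_left hf (by linarith only [hmR])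
      _ = 2 * (m * Real.exp (-u)) := by ring
  · calc 8 * (ρ : ℝ) * (b : ℝ) ^ 2 * (K : ℝ) ^ 8 * ((⌊B⌋₊ : ℕ) : ℝ)
        ≤ 8 * (ρ : ℝ) * (b : ℝ) ^ 2 * (K : ℝ) ^ 8 * B :=
          mul_le_mul_of_nonneg_left he (by positivity)
      _ ≤ 2200 * u ^ 2 * (K : ℝ) ^ 8 * B := by
          refine mul_le_mul_of_nonneg_right ?_ hB
          exact mul_le_mul_of_nonneg_right hs (by positivity)

/-! ### All rounds -/

private theorem ind2_claim {K0 m v : ℕ} {η : ℤ} {L u C : ℝ} (hK0 : 256 ≤ K0)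
    (hround : ∀ K ≥ K0, ∀ (k ρ b e : ℕ), 0 < k → k ^ 4 ≤ K ^ 5 → K ^ 6 ≤ 2 ^ ρ →
      (2 ^ ρ) ^ b ≤ m → 1 ≤ b →
      v * (Ex m η 2).card ≤ e → (∀ q, q.Prime → q ≤ K → (Ex m η q).card ≤ e) →
      ((Ex m η k).card : ℝ) ≤
        2 * m * ((K : ℝ) ^ (-(1 / 4) : ℝ)) ^ b + 8 * ρ * b ^ 2 * K ^ 8 * e)
    (hm0 : 0 < m) (hL : L = Real.log m) (hu1 : 1 ≤ u) (huL : 35 * u ≤ L) (hC : 2202 ≤ C)
    (hv : ((v * (Ex m η 2).card : ℕ) : ℝ) ≤ m * Real.exp (-(7 / 8 * u)))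
    (hbase : ∀ q : ℕ, q.Prime → q ≤ K0 → ((Ex m η q).card : ℝ) ≤ m * Real.exp (-(7 / 8 * u)) * (C * u ^ 2))
    (i : ℕ) :
    (∀ j < i, Real.log ((ind2U K0 j : ℕ) : ℝ) ≤ u) → ∀ q : ℕ, q.Prime → q ≤ ind2U K0 i →
      ((Ex m η q).card : ℝ) ≤
        m * Real.exp (-(7 / 8 * u)) * (C * u ^ 2) ^ (i + 1) * ((ind2U K0 i : ℕ) : ℝ) ^ 64 := by
  have hmR : (0 : ℝ) < m := by exact_mod_cast hm0
  obtain ⟨B0, hB0⟩ : ∃ B0, B0 = m * Real.exp (-(7 / 8 * u)) := ⟨_, rfl⟩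
  have hB0pos : 0 < B0 := by rw [hB0]; positivity
  rw [← hB0] at hv hbase ⊢
  have hCu : 1 ≤ C * u ^ 2 := by nlinarith only [hu1, hC]
  have hCu2 : 2202 * u ^ 2 ≤ C * u ^ 2 := mul_le_mul_of_nonneg_right hC (by positivity)
  induction i with
  | zero =>
    intro _ q hq hqK
    have h1 := hbase q hq hqK
    have h2 : (1 : ℝ) ≤ ((ind2U K0 0 : ℕ) : ℝ) ^ 64 := by
      apply one_le_pow₀
      have : (256 : ℝ) ≤ ((ind2U K0 0 : ℕ) : ℝ) := by exact_mod_cast hK0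
      linarith only [this]
    rw [zero_add, pow_one]
    calc ((Ex m η q).card : ℝ) ≤ B0 * (C * u ^ 2) * 1 := by rw [mul_one]; exact h1
      _ ≤ _ := mul_le_mul_of_nonneg_left h2 (by positivity)
  | succ i ih =>
    intro hj q hq hqK
    have hi := ih fun j hj' => hj j (Nat.lt_succ_of_lt hj')
    have hKm := hj i (Nat.lt_succ_self i)
    have hKge : K0 ≤ ind2U K0 i := ind2_ge hK0 i
    have hK256 : 256 ≤ ind2U K0 i := hK0.trans hKge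
    obtain ⟨K, hKdef⟩ : ∃ K, K = ind2U K0 i := ⟨_, rfl⟩
    rw [← hKdef] at hi hKm hKge hK256
    have hKR : (256 : ℝ) ≤ (K : ℝ) := by exact_mod_cast hK256
    have hLi : (1 : ℝ) ≤ (C * u ^ 2) ^ (i + 1) := one_le_pow₀ hCu
    have hK64 : (1 : ℝ) ≤ (K : ℝ) ^ 64 := one_le_pow₀ (by linarith only [hKR])
    have hone : (1 : ℝ) ≤ (C * u ^ 2) ^ (i + 1) * (K : ℝ) ^ 64 := by nlinarith only [hLi, hK64]
    have hB : B0 ≤ B0 * (C * u ^ 2) ^ (i + 1) * (K : ℝ) ^ 64 := by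
      rw [mul_assoc]
      exact le_mul_of_one_le_right hB0pos.le hone
    have hsucc : ind2U K0 (i + 1) = ⌊(K : ℝ) ^ (5 / 4 : ℝ)⌋₊ := by rw [hKdef]; rfl
    have hq4 : q ^ 4 ≤ K ^ 5 := by
      refine (Nat.pow_le_pow_left hqK 4).trans ?_
      rw [hsucc]
      exact ind2_pow4 K
    have h1 := ind2_round (v := v) (k := q) (u := u) hK256
      (fun ρ b e => hround K hKge q ρ b e hq.pos hq4) hm0 hL hKm huL (hB0pos.le.trans hB) (hv.trans hB)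
      (fun q' hq1 hq2 => hi q' hq1 hq2)
    refine h1.trans ?_
    have hgrow := ind2_grow hK256
    rw [← hsucc] at hgrow
    have hK72 : (K : ℝ) ^ 72 ≤ ((ind2U K0 (i + 1) : ℕ) : ℝ) ^ 64 := by
      have e1 : ((K : ℝ) ^ (9 / 8 : ℝ)) ^ 64 = (K : ℝ) ^ 72 := by
        rw [← Real.rpow_natCast ((K : ℝ) ^ (9 / 8 : ℝ)) 64, ← Real.rpow_mul (by linarith only [hKR]),
          ← Real.rpow_natCast (K : ℝ) 72]
        norm_num
      rw [← e1]
      exact pow_le_pow_left₀ (Real.rpow_nonneg (by linarith only [hKR]) _) hgrow 64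
    have hexple : m * Real.exp (-u) ≤ B0 := by
      rw [hB0]
      refine mul_le_mul_of_nonneg_left (Real.exp_le_exp.mpr ?_) hmR.le
      linarith only [hu1]
    have hK72' : (1 : ℝ) ≤ (K : ℝ) ^ 72 := one_le_pow₀ (by linarith only [hKR])
    have t1 : 2 * (m * Real.exp (-u)) ≤ B0 * (C * u ^ 2) ^ (i + 1) * (K : ℝ) ^ 72 * 2 := by
      have e1 : B0 * 1 ≤ B0 * ((C * u ^ 2) ^ (i + 1) * (K : ℝ) ^ 72) :=
        mul_le_mul_of_nonneg_left (by nlinarith only [hLi, hK72']) hB0pos.le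
      nlinarith only [hexple, e1]
    have t2 : 2200 * u ^ 2 * (K : ℝ) ^ 8 * (B0 * (C * u ^ 2) ^ (i + 1) * (K : ℝ) ^ 64) =
        B0 * (C * u ^ 2) ^ (i + 1) * (K : ℝ) ^ 72 * (2200 * u ^ 2) := by ring
    have hpoly : 2 + 2200 * u ^ 2 ≤ C * u ^ 2 := by nlinarith only [hu1, hCu2]
    rw [t2]
    calc 2 * (m * Real.exp (-u)) +
          B0 * (C * u ^ 2) ^ (i + 1) * (K : ℝ) ^ 72 * (2200 * u ^ 2)
        ≤ B0 * (C * u ^ 2) ^ (i + 1) * (K : ℝ) ^ 72 * 2 +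
          B0 * (C * u ^ 2) ^ (i + 1) * (K : ℝ) ^ 72 * (2200 * u ^ 2) :=
          add_le_add_left t1 _
      _ = B0 * (C * u ^ 2) ^ (i + 1) * (K : ℝ) ^ 72 * (2 + 2200 * u ^ 2) := by ring
      _ ≤ B0 * (C * u ^ 2) ^ (i + 1) * (K : ℝ) ^ 72 * (C * u ^ 2) :=
          mul_le_mul_of_nonneg_left hpoly (by positivity)
      _ = B0 * (C * u ^ 2) ^ (i + 1 + 1) * (K : ℝ) ^ 72 := by ring
      _ ≤ B0 * (C * u ^ 2) ^ (i + 1 + 1) * ((ind2U K0 (i + 1) : ℕ) : ℝ) ^ 64 :=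
          mul_le_mul_of_nonneg_left hK72 (by positivity)

/-! ### The base -/

private theorem ind2_base {K0 ρ0 m k v : ℕ} {η : ℤ} {L u : ℝ} (hη : η = 1 ∨ η = -1)
    (hk : 0 < k) (hkK : k ≤ K0) (hρ : 2 * K0 ≤ 2 ^ ρ0)
    (hv : ∀ i, Nat.gcd (2 ^ i) m ≤ v)
    (hm0 : 0 < m) (hL : L = Real.log m) (hu1 : 1 ≤ u)
    (hv2 : ((v * (Ex m η 2).card : ℕ) : ℝ) ≤ m * Real.exp (-(7 / 8 * u)))
    (huL : 2 * u * 2 ^ ρ0 * ρ0 ≤ L) :
    ((Ex m η k).card : ℝ) ≤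
      m * Real.exp (-(7 / 8 * u)) * ((2 + 4 * (2 ^ ρ0) ^ 2 * (1 + K0) * ρ0) * u ^ 2) := by
  have hmR : (0 : ℝ) < m := by exact_mod_cast hm0
  have hTpos : (0 : ℝ) < 2 ^ ρ0 := by positivity
  have hTone : (1 : ℝ) ≤ 2 ^ ρ0 := one_le_pow₀ (by norm_num)
  obtain ⟨b, hb⟩ : ∃ b, b = ⌈u * 2 ^ ρ0⌉₊ := ⟨_, rfl⟩
  have hbge : u * 2 ^ ρ0 ≤ b := by rw [hb]; exact Nat.le_ceil _
  have huT : 1 ≤ u * 2 ^ ρ0 := by nlinarith only [hTone, hu1, hTpos]
  have hble : (b : ℝ) ≤ 2 * (u * 2 ^ ρ0) := by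
    have h1 : (b : ℝ) < u * 2 ^ ρ0 + 1 := by
      rw [hb]
      exact Nat.ceil_lt_add_one (by positivity)
    linarith only [huT, h1]
  have hb0 : (0 : ℝ) ≤ b := Nat.cast_nonneg b
  have hbm : (2 ^ ρ0) ^ b ≤ m := by
    have h3 : (((2 ^ ρ0) ^ b : ℕ) : ℝ) ≤ m := by
      push_cast
      rw [← Real.log_le_log_iff (by positivity) hmR, Real.log_pow, Real.log_pow, ← hL]
      have h4 : Real.log 2 ≤ 1 := by
        have := Real.log_two_lt_d9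
        linarith only [this]
      have h5 : (0 : ℝ) ≤ ρ0 := Nat.cast_nonneg ρ0
      calc (b : ℝ) * (ρ0 * Real.log 2) ≤ b * (ρ0 * 1) :=
            mul_le_mul_of_nonneg_left (mul_le_mul_of_nonneg_left h4 h5) hb0
        _ ≤ (2 * (u * 2 ^ ρ0)) * (ρ0 * 1) := mul_le_mul_of_nonneg_right hble (by linarith only)
        _ = 2 * u * 2 ^ ρ0 * ρ0 := by ring
        _ ≤ L := huL
    exact_mod_cast h3
  have hmain := base_step hη hk hkK hρ hbm hv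
  -- first term
  have hf : (1 - 1 / (2 : ℝ) ^ ρ0) ^ b ≤ Real.exp (-u) := by
    have h1 : (1 - 1 / (2 : ℝ) ^ ρ0) ≤ Real.exp (-(1 / (2 : ℝ) ^ ρ0)) := by
      have := Real.add_one_le_exp (-(1 / (2 : ℝ) ^ ρ0))
      linarith only [this]
    have h0 : 0 ≤ 1 - 1 / (2 : ℝ) ^ ρ0 := by
      rw [sub_nonneg, div_le_one hTpos]
      exact hTone
    have h2 : (1 - 1 / (2 : ℝ) ^ ρ0) ^ b ≤ Real.exp (-(1 / (2 : ℝ) ^ ρ0)) ^ b :=
      pow_le_pow_left₀ h0 h1 b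
    have h3 : Real.exp (-(1 / (2 : ℝ) ^ ρ0)) ^ b = Real.exp (-(b / (2 : ℝ) ^ ρ0)) := by
      rw [← Real.exp_nat_mul]
      congr 1
      ring
    rw [h3] at h2
    refine h2.trans (Real.exp_le_exp.mpr ?_)
    have h4 : u ≤ b / (2 : ℝ) ^ ρ0 := by
      rw [le_div_iff₀ hTpos]
      exact hbge
    linarith only [h4]
  have hexple : Real.exp (-u) ≤ Real.exp (-(7 / 8 * u)) := Real.exp_le_exp.mpr (by linarith only [hu1])
  have t1 : 2 * (m : ℝ) * (1 - 1 / (2 : ℝ) ^ ρ0) ^ b ≤ m * Real.exp (-(7 / 8 * u)) * (2 * u ^ 2) := by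
    have h1 : (1 : ℝ) ≤ u ^ 2 := one_le_pow₀ hu1
    calc 2 * (m : ℝ) * (1 - 1 / (2 : ℝ) ^ ρ0) ^ b ≤ 2 * m * Real.exp (-(7 / 8 * u)) :=
          mul_le_mul_of_nonneg_left (hf.trans hexple) (by positivity)
      _ = m * Real.exp (-(7 / 8 * u)) * 2 * 1 := by ring
      _ ≤ m * Real.exp (-(7 / 8 * u)) * 2 * u ^ 2 := mul_le_mul_of_nonneg_left h1 (by positivity)
      _ = m * Real.exp (-(7 / 8 * u)) * (2 * u ^ 2) := by ring
  have t2 : (b : ℝ) * (1 + K0) * (ρ0 * b * (v * ((Ex m η 2).card : ℝ))) ≤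
      m * Real.exp (-(7 / 8 * u)) * (4 * (2 ^ ρ0) ^ 2 * (1 + K0) * ρ0 * u ^ 2) := by
    have hv3 : (v : ℝ) * ((Ex m η 2).card : ℝ) ≤ m * Real.exp (-(7 / 8 * u)) := by
      push_cast at hv2
      exact hv2
    have h1 : (b : ℝ) * b ≤ (2 * (u * 2 ^ ρ0)) * (2 * (u * 2 ^ ρ0)) :=
      mul_le_mul hble hble hb0 (by positivity)
    calc (b : ℝ) * (1 + K0) * (ρ0 * b * (v * ((Ex m η 2).card : ℝ)))
        = ((1 + (K0 : ℝ)) * ρ0) * (b * b) * (v * ((Ex m η 2).card : ℝ)) := by ring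
      _ ≤ ((1 + (K0 : ℝ)) * ρ0) * ((2 * (u * 2 ^ ρ0)) * (2 * (u * 2 ^ ρ0))) * (m * Real.exp (-(7 / 8 * u))) := by
          refine mul_le_mul (mul_le_mul_of_nonneg_left h1 (by positivity)) hv3 (by positivity) (by positivity)
      _ = m * Real.exp (-(7 / 8 * u)) * (4 * (2 ^ ρ0) ^ 2 * (1 + K0) * ρ0 * u ^ 2) := by ring
  calc ((Ex m η k).card : ℝ) ≤ _ := hmain
    _ ≤ m * Real.exp (-(7 / 8 * u)) * (2 * u ^ 2) +
        m * Real.exp (-(7 / 8 * u)) * (4 * (2 ^ ρ0) ^ 2 * (1 + K0) * ρ0 * u ^ 2) := add_le_add t1 t2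
    _ = _ := by ring

theorem induct2 : ∃ c0 : ℝ, 0 < c0 ∧ ∃ C0 : ℕ, ∃ m0 : ℕ, ∀ m ≥ m0, ∀ ρ : ℝ,
    (m : ℝ) ^ (-c0) ≤ ρ → ρ * Real.log m ^ C0 ≤ 1 → ∀ η : ℤ, (η = 1 ∨ η = -1) →
    (∀ i, ((Nat.gcd (2 ^ i) m : ℕ) : ℝ) ≤ ρ ^ (-(1 / 8) : ℝ)) →
    ((Ex m η 2).card : ℝ) ≤ ρ * m →
    ∀ q : ℕ, q.Prime → (q : ℝ) ≤ Real.log m ^ 800 → ((Ex m η q).card : ℝ) ≤ Real.sqrt ρ * m := by
  obtain ⟨K1, hK1, hround⟩ := round_step
  obtain ⟨K0, hK0def⟩ : ∃ K0, K0 = max K1 256 := ⟨_, rfl⟩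
  have hK01 : K1 ≤ K0 := by rw [hK0def]; exact le_max_left _ _
  have hK0 : 256 ≤ K0 := by rw [hK0def]; exact le_max_right _ _
  obtain ⟨ρ0, hρ0⟩ : ∃ ρ0, ρ0 = K0 + 1 := ⟨_, rfl⟩
  have hρ1 : 1 ≤ ρ0 := by omega
  have hρ : 2 * K0 ≤ 2 ^ ρ0 := by
    rw [hρ0, pow_succ, mul_comm]
    exact Nat.mul_le_mul_right _ Nat.lt_two_pow_self.le
  have hρR : (1 : ℝ) ≤ ρ0 := by exact_mod_cast hρ1
  have hρpos : (0 : ℝ) < ρ0 := by linarith only [hρR]
  -- the constants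
  obtain ⟨C, hCdef⟩ : ∃ C : ℝ, C = 2202 + 4 * (2 ^ ρ0) ^ 2 * (1 + K0) * ρ0 := ⟨_, rfl⟩
  have hC : 2202 ≤ C := by
    rw [hCdef]
    have : (0 : ℝ) ≤ 4 * (2 ^ ρ0) ^ 2 * (1 + K0) * ρ0 := by positivity
    linarith only [this]
  have hC1 : 2 + 4 * (2 ^ ρ0) ^ 2 * (1 + (K0 : ℝ)) * ρ0 ≤ C := by
    rw [hCdef]
    linarith only
  obtain ⟨c0, hc0def⟩ : ∃ c0 : ℝ, c0 = min ((1 : ℝ) / (2 * 2 ^ ρ0 * (ρ0 : ℝ))) (1 / 35) := ⟨_, rfl⟩
  have hc0 : 0 < c0 := by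
    rw [hc0def]
    exact lt_min (by positivity) (by norm_num)
  have hc35 : c0 ≤ 1 / 35 := by rw [hc0def]; exact min_le_right _ _
  have hcT : c0 * (2 * 2 ^ ρ0 * ρ0) ≤ 1 := by
    have : c0 ≤ 1 / (2 * 2 ^ ρ0 * ρ0) := by rw [hc0def]; exact min_le_left _ _
    rwa [le_div_iff₀ (by positivity)] at this
  obtain ⟨C0, hC0⟩ : ∃ C0 : ℕ, C0 = 512000 + ⌈C⌉₊ + 33792 ^ 2 := ⟨_, rfl⟩
  have hC0a : (512000 : ℝ) ≤ C0 := by
    have : 512000 ≤ C0 := by omega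
    exact_mod_cast this
  have hC0b : C ≤ C0 := by
    have h1 : ⌈C⌉₊ ≤ C0 := by omega
    have h2 : ((⌈C⌉₊ : ℕ) : ℝ) ≤ C0 := by exact_mod_cast h1
    exact (Nat.le_ceil C).trans h2
  have hC0c : (33792 : ℝ) ^ 2 ≤ C0 := by
    have : 33792 ^ 2 ≤ C0 := by omega
    exact_mod_cast this
  refine ⟨c0, hc0, C0, ⌈Real.exp (K0 + 3)⌉₊, fun m hm ρ hρa hρb η hη hgcd he2 q hq hqL => ?_⟩
  have hmexp : Real.exp (K0 + 3) ≤ m := Nat.ceil_le.mp hm
  have hmR : (0 : ℝ) < m := lt_of_lt_of_le (Real.exp_pos _) hmexp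
  have hm0 : 0 < m := by exact_mod_cast hmR
  obtain ⟨L, hL⟩ : ∃ L, L = Real.log m := ⟨_, rfl⟩
  have hLK : (K0 : ℝ) + 3 ≤ L := by rw [hL]; exact (Real.le_log_iff_exp_le hmR).mpr hmexp
  have hK0R : (256 : ℝ) ≤ K0 := by exact_mod_cast hK0
  have hLpos : 0 < L := by linarith only [hc0, hc35, hLK, hK0R]
  have hlogL1 : 1 ≤ Real.log L := by
    have h2 : Real.exp 1 ≤ L := by
      have := Real.exp_one_lt_d9
      linarith only [hc0, hc35, hLK, hK0R, this]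
    exact (Real.le_log_iff_exp_le hLpos).mpr h2
  rw [← hL] at hρb hqL
  have hρpos' : 0 < ρ := lt_of_lt_of_le (Real.rpow_pos_of_pos hmR _) hρa
  obtain ⟨u, hu⟩ : ∃ u, u = -Real.log ρ := ⟨_, rfl⟩
  have hρexp : ρ = Real.exp (-u) := by rw [hu, neg_neg, Real.exp_log hρpos']
  have huL : u ≤ c0 * L := by
    have h1 := Real.log_le_log (Real.rpow_pos_of_pos hmR _) hρa
    rw [Real.log_rpow hmR, ← hL] at h1
    linarith only [hu, h1]
  have huC : C0 * Real.log L ≤ u := by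
    have h1 := Real.log_nonpos (by positivity) hρb
    rw [Real.log_mul hρpos'.ne' (by positivity), Real.log_pow] at h1
    linarith only [hu, h1]
  have huC0 : (C0 : ℝ) ≤ u := by
    have h1 : (C0 : ℝ) * 1 ≤ C0 * Real.log L := mul_le_mul_of_nonneg_left hlogL1 (Nat.cast_nonneg _)
    linarith only [huC, h1]
  have hu1 : 1 ≤ u := by linarith only [hc0, hc35, hC0c, huC0]
  have hu512 : 512000 * Real.log L ≤ u := by
    have h1 : 512000 * Real.log L ≤ C0 * Real.log L := mul_le_mul_of_nonneg_right hC0a (by linarith only [hc0, hc35, hlogL1])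
    linarith only [huC, h1]
  have hu35 : 35 * u ≤ L := by
    have h1 : c0 * L ≤ 1 / 35 * L := mul_le_mul_of_nonneg_right hc35 hLpos.le
    linarith only [huL, h1]
  have huT : 2 * u * 2 ^ ρ0 * ρ0 ≤ L := by
    have h1 : u * (2 * 2 ^ ρ0 * ρ0) ≤ (c0 * L) * (2 * 2 ^ ρ0 * ρ0) :=
      mul_le_mul_of_nonneg_right huL (by positivity)
    have h2 : (c0 * L) * (2 * 2 ^ ρ0 * ρ0) = (c0 * (2 * 2 ^ ρ0 * ρ0)) * L := by ring
    have h3 : (c0 * (2 * 2 ^ ρ0 * ρ0)) * L ≤ 1 * L := mul_le_mul_of_nonneg_right hcT hLpos.le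
    have h4 : 2 * u * 2 ^ ρ0 * ρ0 = u * (2 * 2 ^ ρ0 * ρ0) := by ring
    rw [h4]
    linarith only [h1, h3]
  obtain ⟨v, hvdef⟩ : ∃ v : ℕ, v = ⌊ρ ^ (-(1 / 8) : ℝ)⌋₊ := ⟨_, rfl⟩
  have hv : ∀ i, Nat.gcd (2 ^ i) m ≤ v := fun i => by
    rw [hvdef]
    exact Nat.le_floor (hgcd i)
  have hv2 : ((v * (Ex m η 2).card : ℕ) : ℝ) ≤ m * Real.exp (-(7 / 8 * u)) := by
    have h1 : (v : ℝ) ≤ ρ ^ (-(1 / 8) : ℝ) := by
      rw [hvdef]
      exact Nat.floor_le (Real.rpow_nonneg hρpos'.le _)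
    have h2 : ρ ^ (-(1 / 8) : ℝ) = Real.exp (u / 8) := by
      rw [Real.rpow_def_of_pos hρpos', hu]
      congr 1
      ring
    push_cast
    calc (v : ℝ) * ((Ex m η 2).card : ℝ) ≤ Real.exp (u / 8) * (Real.exp (-u) * m) := by
          rw [← h2, ← hρexp]
          exact mul_le_mul h1 he2 (Nat.cast_nonneg _) (Real.rpow_nonneg hρpos'.le _)
      _ = m * (Real.exp (u / 8) * Real.exp (-u)) := by ring
      _ = m * Real.exp (-(7 / 8 * u)) := by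
          rw [← Real.exp_add]
          congr 2
          ring
  have hbase : ∀ q : ℕ, q.Prime → q ≤ K0 →
      ((Ex m η q).card : ℝ) ≤ m * Real.exp (-(7 / 8 * u)) * (C * u ^ 2) := by
    intro q hq hqK
    refine (ind2_base hη hq.pos hqK hρ hv hm0 hL hu1 hv2 huT).trans ?_
    refine mul_le_mul_of_nonneg_left (mul_le_mul_of_nonneg_right hC1 (by positivity)) (by positivity)
  have hclaim := ind2_claim (K0 := K0) (m := m) (v := v) (η := η) (L := L) (u := u) (C := C) hK0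
    (fun K hK k ρ b e hk h4 h6 hb hb1 he hq =>
      hround K (hK01.trans hK) m k v ρ b e η hη hk h4 h6 hb hb1 hv he hq)
    hm0 hL hu1 hu35 hC hv2 hbase
  -- the last index
  have hupos : ∀ j, (0 : ℝ) < ((ind2U K0 j : ℕ) : ℝ) := fun j => by
    have : (256 : ℝ) ≤ ((ind2U K0 j : ℕ) : ℝ) := by exact_mod_cast hK0.trans (ind2_ge hK0 j)
    linarith only [hc0, hc35, this]
  have hex : ∃ j, L ^ 800 ≤ ((ind2U K0 j : ℕ) : ℝ) := by
    obtain ⟨j, hj⟩ := pow_unbounded_of_one_lt (Real.log (L ^ 800)) (by norm_num : (1 : ℝ) < 9 / 8)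
    refine ⟨j, ?_⟩
    have h1 := ind2_log hK0 j
    rw [← Real.log_le_log_iff (by positivity) (hupos j)]
    exact hj.le.trans h1
  classical
  obtain ⟨j, hj, hjmin⟩ : ∃ j, L ^ 800 ≤ ((ind2U K0 j : ℕ) : ℝ) ∧
      ∀ i < j, ((ind2U K0 i : ℕ) : ℝ) < L ^ 800 :=
    ⟨Nat.find hex, Nat.find_spec hex, fun i hi => not_le.mp (Nat.find_min hex hi)⟩
  have hj0 : j ≠ 0 := by
    rintro rfl
    have h1 : ((ind2U K0 0 : ℕ) : ℝ) = (K0 : ℝ) := rfl
    rw [h1] at hj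
    have h2 : L ≤ L ^ 800 := le_self_pow₀ (by linarith only [hc0, hc35, hC0c, huC0, hu35]) (by norm_num)
    linarith only [hc0, hc35, hLK, hj, h2]
  obtain ⟨i, rfl⟩ : ∃ i, j = i + 1 := Nat.exists_eq_succ_of_ne_zero hj0
  have hi := hjmin i (Nat.lt_succ_self i)
  have hlogK : ∀ j' < i + 1, Real.log ((ind2U K0 j' : ℕ) : ℝ) ≤ 800 * Real.log L := by
    intro j' hj'
    have h1 := Real.log_le_log (hupos j') (hjmin j' hj').le
    rw [Real.log_pow] at h1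
    push_cast at h1
    exact h1
  have hq' := hclaim (i + 1) (fun j' hj' => (hlogK j' hj').trans (by linarith only [hc0, hc35, hC0c, huC0, hu512])) q hq
    (by exact_mod_cast hqL.trans hj)
  -- the number of steps
  have hlogu1 : 1 ≤ Real.log u := by
    have h2 : Real.exp 1 ≤ u := by
      have := Real.exp_one_lt_d9
      linarith only [hc0, hc35, hC0c, huC0, this]
    exact (Real.le_log_iff_exp_le (by linarith only [hc0, hc35, hC0c, huC0])).mpr h2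
  have hiu : (i : ℝ) ≤ 9 * Real.log u := by
    have h2 := ind2_log hK0 i
    have h3 := hlogK i (Nat.lt_succ_self i)
    have h4 : (9 / 8 : ℝ) ^ i ≤ u := by linarith only [hc0, hc35, hC0c, huC0, hu512, h2, h3]
    have h5 := Real.log_le_log (by positivity) h4
    rw [Real.log_pow] at h5
    have h6 : (1 / 9 : ℝ) ≤ Real.log (9 / 8) := by
      have h7 := Real.one_sub_inv_le_log_of_pos (by norm_num : (0 : ℝ) < 9 / 8)
      norm_num at h7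
      linarith only [h7]
    have h7 : (0 : ℝ) ≤ i := Nat.cast_nonneg i
    nlinarith only [h5, h6]
  have hlogu4 : Real.log u ≤ 4 * u ^ (1 / 4 : ℝ) := by
    have h2 := Real.log_le_rpow_div (by linarith only [hc0, hc35, hC0c, huC0] : (0 : ℝ) ≤ u) (by norm_num : (0 : ℝ) < 1 / 4)
    linarith only [h2]
  have hloglog : 33 * (Real.log u * Real.log u) ≤ u / 64 := by
    have h2 : Real.log u * Real.log u ≤ (4 * u ^ (1 / 4 : ℝ)) * (4 * u ^ (1 / 4 : ℝ)) :=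
      mul_le_mul hlogu4 hlogu4 (by linarith only [hc0, hc35, hlogu1]) (by positivity)
    have h3 : u ^ (1 / 4 : ℝ) * u ^ (1 / 4 : ℝ) = Real.sqrt u := by
      rw [← Real.rpow_add (by linarith only [hc0, hc35, hC0c, huC0]), Real.sqrt_eq_rpow]
      norm_num
    have h4 : (33792 : ℝ) ≤ Real.sqrt u := Real.le_sqrt_of_sq_le (hC0c.trans huC0)
    have h5 : Real.sqrt u * Real.sqrt u = u := Real.mul_self_sqrt (by linarith only [hc0, hc35, hC0c, huC0])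
    have h6 : 0 ≤ Real.sqrt u := Real.sqrt_nonneg _
    nlinarith only [h2, h5, h3, h4]
  have hCpow : (C * u ^ 2) ^ (i + 1 + 1) ≤ Real.exp (u / 64) := by
    have hCpos : 0 < C := by linarith only [hC, hc0, hc35]
    have h2 : (C * u ^ 2) ^ (i + 1 + 1) = Real.exp (((i + 1 + 1 : ℕ) : ℝ) * (Real.log C + 2 * Real.log u)) := by
      have h3 : C * u ^ 2 = Real.exp (Real.log C + 2 * Real.log u) := by
        rw [Real.exp_add, Real.exp_log hCpos, two_mul, Real.exp_add, Real.exp_log (by linarith only [hc0, hc35, hC0c, huC0])]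
        ring
      rw [h3, ← Real.exp_nat_mul]
    rw [h2]
    apply Real.exp_le_exp.mpr
    have h4 : Real.log C ≤ Real.log u := Real.log_le_log hCpos (hC0b.trans huC0)
    have h5 : ((i + 1 + 1 : ℕ) : ℝ) ≤ 11 * Real.log u := by
      push_cast
      linarith only [hlogu1, hiu]
    have h6 : 0 ≤ Real.log C + 2 * Real.log u := by
      have : 0 ≤ Real.log C := Real.log_nonneg (by linarith only [hC, hc0, hc35])
      linarith only [hc0, hc35, hlogu1, this]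
    calc ((i + 1 + 1 : ℕ) : ℝ) * (Real.log C + 2 * Real.log u)
        ≤ (11 * Real.log u) * (3 * Real.log u) :=
          mul_le_mul h5 (by linarith only [h4]) h6 (by linarith only [hc0, hc35, hlogu1])
      _ = 33 * (Real.log u * Real.log u) := by ring
      _ ≤ u / 64 := hloglog
  have hU : ((ind2U K0 (i + 1) : ℕ) : ℝ) ^ 64 ≤ Real.exp (u / 8) := by
    have h1 : ((ind2U K0 (i + 1) : ℕ) : ℝ) ≤ ((ind2U K0 i : ℕ) : ℝ) ^ (5 / 4 : ℝ) :=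
      Nat.floor_le (Real.rpow_nonneg (hupos i).le _)
    have h2 := Real.log_le_log (hupos (i + 1)) h1
    rw [Real.log_rpow (hupos i)] at h2
    have h3 := hlogK i (Nat.lt_succ_self i)
    rw [← Real.exp_log (hupos (i + 1)), ← Real.exp_nat_mul]
    apply Real.exp_le_exp.mpr
    push_cast
    linarith only [hu512, h2, h3]
  have hsqrt : Real.sqrt ρ = Real.exp (-(u / 2)) := by
    rw [hρexp, Real.sqrt_eq_rpow, ← Real.exp_mul]
    congr 1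
    ring
  rw [hsqrt]
  calc ((Ex m η q).card : ℝ)
      ≤ m * Real.exp (-(7 / 8 * u)) * (C * u ^ 2) ^ (i + 1 + 1) * ((ind2U K0 (i + 1) : ℕ) : ℝ) ^ 64 := hq'
    _ ≤ m * Real.exp (-(7 / 8 * u)) * Real.exp (u / 64) * Real.exp (u / 8) := by
        have e1 : 0 ≤ (m : ℝ) * Real.exp (-(7 / 8 * u)) := mul_nonneg hmR.le (Real.exp_pos _).le
        have e2 : 0 ≤ ((ind2U K0 (i + 1) : ℕ) : ℝ) ^ 64 := pow_nonneg (Nat.cast_nonneg _) _
        have e3 : 0 ≤ (m : ℝ) * Real.exp (-(7 / 8 * u)) * Real.exp (u / 64) := mul_nonneg e1 (Real.exp_pos _).le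
        exact mul_le_mul (mul_le_mul_of_nonneg_left hCpow e1) hU e2 e3
    _ = m * Real.exp (-(7 / 8 * u) + u / 64 + u / 8) := by
        rw [Real.exp_add, Real.exp_add]
        ring
    _ ≤ m * Real.exp (-(u / 2)) := by
        refine mul_le_mul_of_nonneg_left (Real.exp_le_exp.mpr ?_) hmR.le
        linarith only [hc0, hc35, hC0c, huC0]
    _ = Real.exp (-(u / 2)) * m := by ring

end Pool.Agent.H11.LQ

end

section

/-!
# LQ stage 2, module Combi2: the combinatorial part with polylogarithmic loss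
-/

set_option autoImplicit false

namespace Pool.Agent.H11.LQ

open Finset
open Pool.Agent.H34PG (lam lam_val lam_mul lam_prime)

theorem combi2 : ∃ c0 : ℝ, 0 < c0 ∧ ∃ C0 : ℕ, ∃ m0 : ℕ, ∀ m ≥ m0, ∀ ρ : ℝ,
    (m : ℝ) ^ (-c0) ≤ ρ → ρ * Real.log m ^ C0 ≤ 1 → ∀ η : ℤ, (η = 1 ∨ η = -1) →
    ((Ex m η 2).card : ℝ) ≤ ρ * m →
    ∃ m1 : ℕ, m1 ∣ m ∧ (m : ℝ) ^ (1 / 2 : ℝ) ≤ m1 ∧ ∀ q : ℕ, q.Prime →
      (q : ℝ) ≤ Real.log m1 ^ 800 → ((Ex m1 η q).card : ℝ) ≤ Real.sqrt ρ * m1 := by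
  obtain ⟨a, ha, A, m1, h1⟩ := induct2
  obtain ⟨b, hb, B, m2, h2⟩ := even_case2
  refine ⟨min a b, lt_min ha hb, A + B, m1 + m2 + 3, fun m hm ρ hρ1 hρ2 η hη he => ?_⟩
  have hm1 : (1 : ℝ) ≤ m := by exact_mod_cast (by omega : 1 ≤ m)
  have hm0 : (0 : ℝ) < m := by linarith
  have hρ0 : 0 < ρ := lt_of_lt_of_le (by positivity) hρ1
  have hlog : 1 ≤ Real.log m := by
    rw [Real.le_log_iff_exp_le hm0]
    have h3 : (3 : ℝ) ≤ m := by exact_mod_cast (by omega : 3 ≤ m)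
    have := Real.exp_one_lt_d9
    linarith
  have hA : ρ * Real.log m ^ A ≤ 1 := by
    refine le_trans (mul_le_mul_of_nonneg_left ?_ hρ0.le) hρ2
    exact pow_le_pow_right₀ hlog (by omega)
  have hB : ρ * Real.log m ^ B ≤ 1 := by
    refine le_trans (mul_le_mul_of_nonneg_left ?_ hρ0.le) hρ2
    exact pow_le_pow_right₀ hlog (by omega)
  have ha' : (m : ℝ) ^ (-a) ≤ ρ := le_trans (Real.rpow_le_rpow_of_exponent_le hm1
    (by have := min_le_left a b; linarith)) hρ1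
  have hb' : (m : ℝ) ^ (-b) ≤ ρ := le_trans (Real.rpow_le_rpow_of_exponent_le hm1
    (by have := min_le_right a b; linarith)) hρ1
  by_cases hg : ∀ i, ((Nat.gcd (2 ^ i) m : ℕ) : ℝ) ≤ ρ ^ (-(1 / 8) : ℝ)
  · refine ⟨m, dvd_refl m, ?_, fun q hq hqm => h1 m (by omega) ρ ha' hA η hη hg he q hq hqm⟩
    calc (m : ℝ) ^ (1 / 2 : ℝ) ≤ (m : ℝ) ^ (1 : ℝ) :=
          Real.rpow_le_rpow_of_exponent_le hm1 (by norm_num)
      _ = m := Real.rpow_one _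
  · push Not at hg
    exact h2 m (by omega) ρ hb' hB η hη hg he

end Pool.Agent.H11.LQ

end

section

/-!
# PE, Harm: upper bound for the harmonic sum over the integers prime to `m`

`x = ⌊m^(1/100)⌋`.  `∑_{n ≤ x, (n,m)=1} 1/n ≤ ∏_{p ≤ x, p ∤ m} (1-1/p)⁻¹ = ∏_{p ≤ x} (1-1/p)⁻¹ · ∏_{p ≤ x, p ∣ m} (1-1/p)`.
The first product is `≤ A (1 + log x)` (`totW_mertens` in `PD/TotW.lean`, make it public).  The second is `(φ(m)/m) ∏_{p ∣ m, p > x} (1-1/p)⁻¹`, and there are at most `100` primes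
`p > m^(1/100)`-ish dividing `m` (their product is `≤ m`; `p ≥ x + 1 > m^(1/100)`), each factor is `≤ 2`: so the second product is `≤ 2^100 φ(m)/m`.
(For the first inequality: in the Pool e.g. `Pool.Agent.H36.IS` or Mathlib `Nat.smoothNumbers` / `EulerProduct.summable_and_hasSum_smoothNumbers_prod_primesBelow_tsum`; or by induction on the primes as in
`t6_step` of `PD/T6.lean`: adding a prime `q` to the set of allowed primes multiplies the sum over `n ≤ x` composed of allowed primes by at most `(1-1/q)⁻¹`.)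
-/

set_option autoImplicit false

namespace Pool.Agent.H78.PE

open Finset
open Pool.Agent.H34PG (lam lam_val lam_mul)
open Pool.Agent.H11.LQ Pool.Agent.H78.PG

private theorem Harm_mertens : ∃ A : ℝ, 0 < A ∧ ∀ N : ℕ, 1 ≤ N →
    ∏ p ∈ (N + 1).primesBelow, (1 - 1 / (p : ℝ))⁻¹ ≤ A * (1 + Real.log N) := by
  obtain ⟨c, hc⟩ := Pool.Agent.H36.IS.mertA
  have h1 := hc.eventually (gt_mem_nhds (show c < c + 1 by linarith))
  rw [Filter.eventually_atTop] at h1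
  obtain ⟨n0, hn0⟩ := h1
  have hprod : ∀ n : ℕ, ∏ p ∈ (n + 1).primesBelow, (1 - 1 / (p : ℝ))⁻¹
      = Real.exp (Pool.Agent.H36.IS.fS n) := by
    intro n
    unfold Pool.Agent.H36.IS.fS
    rw [Real.exp_sum]
    have : (n + 1).primesBelow = (range (n + 1)).filter Nat.Prime := rfl
    rw [this]
    refine Finset.prod_congr rfl (fun p hp => ?_)
    rw [mem_filter] at hp
    have hp2 : (2 : ℝ) ≤ p := by exact_mod_cast hp.2.two_le
    have h2 : 1 / (p : ℝ) ≤ 1 / 2 := one_div_le_one_div_of_le (by norm_num) hp2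
    have h3 : 0 < 1 - 1 / (p : ℝ) := by linarith
    rw [Real.exp_neg, Real.exp_log h3]
  have hmono : ∀ a b : ℕ, a ≤ b → ∏ p ∈ (a + 1).primesBelow, (1 - 1 / (p : ℝ))⁻¹
      ≤ ∏ p ∈ (b + 1).primesBelow, (1 - 1 / (p : ℝ))⁻¹ := by
    intro a b hab
    rw [hprod, hprod]
    apply Real.exp_le_exp.2
    unfold Pool.Agent.H36.IS.fS
    apply Finset.sum_le_sum_of_subset_of_nonneg
    · intro p hp
      rw [mem_filter, mem_range] at hp ⊢
      exact ⟨by omega, hp.2⟩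
    · intro p hp _
      rw [mem_filter] at hp
      have hp2 : (2 : ℝ) ≤ p := by exact_mod_cast hp.2.two_le
      have h2 : 1 / (p : ℝ) ≤ 1 / 2 := one_div_le_one_div_of_le (by norm_num) hp2
      have h4 : 0 < 1 / (p : ℝ) := by positivity
      have := Real.log_nonpos (show (0 : ℝ) ≤ 1 - 1 / p by linarith) (by linarith)
      linarith
  set n1 := max n0 3 with hn1
  set B := ∏ p ∈ (n1 + 1).primesBelow, (1 - 1 / (p : ℝ))⁻¹ with hB
  have hB0 : 0 < B := by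
    rw [hB, hprod]
    exact Real.exp_pos _
  refine ⟨B + Real.exp (c + 1), by positivity, fun N hN => ?_⟩
  have hlog : 0 ≤ Real.log N := Real.log_nonneg (by exact_mod_cast hN)
  rcases Nat.lt_or_ge N n1 with h | h
  · have h2 := hmono N n1 h.le
    have h3 : (0 : ℝ) < Real.exp (c + 1) := Real.exp_pos _
    calc ∏ p ∈ (N + 1).primesBelow, (1 - 1 / (p : ℝ))⁻¹ ≤ B := h2
      _ = B * 1 := by ring
      _ ≤ (B + Real.exp (c + 1)) * (1 + Real.log N) :=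
        mul_le_mul (by linarith) (by linarith) (by norm_num) (by positivity)
  · have h2 := hn0 N ((le_max_left _ _).trans h)
    have hN3 : (3 : ℝ) ≤ N := by exact_mod_cast (le_max_right _ _).trans h
    have hlogpos : 0 < Real.log N := Real.log_pos (by linarith)
    rw [hprod]
    have h3 : Pool.Agent.H36.IS.fS N ≤ (c + 1) + Real.log (Real.log N) := by linarith
    calc Real.exp (Pool.Agent.H36.IS.fS N) ≤ Real.exp ((c + 1) + Real.log (Real.log N)) :=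
          Real.exp_le_exp.2 h3
      _ = Real.exp (c + 1) * Real.log N := by rw [Real.exp_add, Real.exp_log hlogpos]
      _ ≤ (B + Real.exp (c + 1)) * (1 + Real.log N) :=
        mul_le_mul (by linarith) (by linarith) hlogpos.le (by positivity)

/-- `n ↦ 1/n` as a monoid homomorphism -/
private noncomputable def Harm_f : ℕ →* ℝ where
  toFun n := (n : ℝ)⁻¹
  map_one' := by simp
  map_mul' a b := by
    push_cast
    rw [mul_inv]

private theorem Harm_euler (P : Finset ℕ) (hP : ∀ p ∈ P, p.Prime) (T : Finset ℕ)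
    (hT : ∀ a ∈ T, a ≠ 0 ∧ ∀ p ∈ a.primeFactorsList, p ∈ P) :
    ∑ a ∈ T, 1 / (a : ℝ) ≤ ∏ p ∈ P, (1 - 1 / (p : ℝ))⁻¹ := by
  have hf : ∀ {p : ℕ}, p.Prime → ‖Harm_f p‖ < 1 := by
    intro p hp
    have h2 : (2 : ℝ) ≤ p := by exact_mod_cast hp.two_le
    change ‖(p : ℝ)⁻¹‖ < 1
    rw [Real.norm_eq_abs, abs_of_nonneg (by positivity)]
    exact inv_lt_one_of_one_lt₀ (by linarith)
  obtain ⟨-, h1⟩ := EulerProduct.summable_and_hasSum_factoredNumbers_prod_filter_prime_geometric hf P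
  have h2 : HasSum (Set.indicator (Nat.factoredNumbers P) (fun n : ℕ => Harm_f n)) (∏ p ∈ P with p.Prime, (1 - Harm_f p)⁻¹) :=
    (hasSum_subtype_iff_indicator (f := fun n : ℕ => Harm_f n)).1 h1
  have h3 := sum_le_hasSum T (fun n _ => Set.indicator_nonneg (fun n _ => by
    change (0 : ℝ) ≤ (n : ℝ)⁻¹
    positivity) n) h2
  have h4 : ∑ a ∈ T, Set.indicator (Nat.factoredNumbers P) (fun n : ℕ => Harm_f n) a = ∑ a ∈ T, 1 / (a : ℝ) := by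
    refine sum_congr rfl fun a ha => ?_
    rw [Set.indicator_of_mem (show a ∈ Nat.factoredNumbers P from hT a ha)]
    change (a : ℝ)⁻¹ = 1 / (a : ℝ)
    rw [one_div]
  have h5 : ∏ p ∈ P with p.Prime, (1 - Harm_f p)⁻¹ = ∏ p ∈ P, (1 - 1 / (p : ℝ))⁻¹ := by
    rw [filter_true_of_mem hP]
    refine prod_congr rfl fun p _ => ?_
    change (1 - (p : ℝ)⁻¹)⁻¹ = _
    rw [one_div]
  rw [h4, h5] at h3
  exact h3

/-- at most `100` primes larger than `x ≥ m^(1/100) - 1` divide `m` -/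
private theorem Harm_big (m x : ℕ) (hm : 2 ≤ m) (hx : (m : ℝ) ^ (1 / 100 : ℝ) < (x : ℝ) + 1) :
    (m.primeFactors.filter (fun p => x < p)).card ≤ 100 := by
  by_contra hcon
  push Not at hcon
  set T := m.primeFactors.filter (fun p => x < p) with hT
  have hm1 : (1 : ℝ) < m := by exact_mod_cast hm
  have hm0 : (0 : ℝ) < m := by linarith
  obtain ⟨y, hy⟩ : ∃ y : ℝ, y = (m : ℝ) ^ (1 / 100 : ℝ) := ⟨_, rfl⟩
  rw [← hy] at hx
  have hy1 : 1 < y := by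
    rw [hy]
    exact Real.one_lt_rpow hm1 (by norm_num)
  have hyc : y ^ 100 = m := by
    rw [hy, ← Real.rpow_natCast, ← Real.rpow_mul hm0.le]
    norm_num
  have h1 : y ^ T.card ≤ ∏ p ∈ T, (p : ℝ) := by
    rw [← prod_const]
    refine prod_le_prod (fun _ _ => by linarith) fun p hp => ?_
    rw [hT, mem_filter] at hp
    have h2 : (x : ℝ) + 1 ≤ p := by exact_mod_cast hp.2
    linarith
  have h2 : (∏ p ∈ T, (p : ℝ)) ≤ m := by
    have h3 : ∏ p ∈ T, p ∣ m := (prod_dvd_prod_of_subset _ _ _ (filter_subset _ _)).trans (Nat.prod_primeFactors_dvd m)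
    have h4 := Nat.le_of_dvd (by omega) h3
    have h5 : ((∏ p ∈ T, p : ℕ) : ℝ) ≤ m := by exact_mod_cast h4
    rwa [Nat.cast_prod] at h5
  have h3 : y ^ 100 < y ^ T.card := pow_lt_pow_right₀ hy1 hcon
  rw [hyc] at h3
  linarith

theorem cop_harm_up : ∃ C : ℝ, 0 < C ∧ ∃ m0 : ℕ, ∀ m : ℕ, m0 ≤ m →
    ∑ a ∈ cop m ⌊(m : ℝ) ^ (1 / 100 : ℝ)⌋₊, 1 / (a : ℝ) ≤ C * (m.totient / m * Real.log m) := by
  obtain ⟨A, hA, hmert⟩ := Harm_mertens
  obtain ⟨W, hW⟩ : ∃ W : ℝ, W = (2 : ℝ) ^ 100 := ⟨_, rfl⟩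
  have hWpos : 0 < W := by
    rw [hW]
    positivity
  refine ⟨2 * A * W, by positivity, 3, fun m hm => ?_⟩
  have hm1 : (1 : ℝ) < m := by
    have : 1 < m := by omega
    exact_mod_cast this
  have hm0 : (0 : ℝ) < m := by linarith
  set x := ⌊(m : ℝ) ^ (1 / 100 : ℝ)⌋₊ with hx
  have hy1 : 1 ≤ (m : ℝ) ^ (1 / 100 : ℝ) := Real.one_le_rpow hm1.le (by norm_num)
  have hx1 : 1 ≤ x := Nat.le_floor (by rw [Nat.cast_one]; exact hy1)
  have hxlt : (m : ℝ) ^ (1 / 100 : ℝ) < (x : ℝ) + 1 := Nat.lt_floor_add_one _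
  have hxle : (x : ℝ) ≤ (m : ℝ) ^ (1 / 100 : ℝ) := Nat.floor_le (by positivity)
  have hlogx : Real.log x ≤ Real.log m := by
    have h0 : (0 : ℝ) < x := by exact_mod_cast hx1
    refine Real.log_le_log h0 (hxle.trans ?_)
    calc (m : ℝ) ^ (1 / 100 : ℝ) ≤ (m : ℝ) ^ (1 : ℝ) := Real.rpow_le_rpow_of_exponent_le hm1.le (by norm_num)
      _ = m := Real.rpow_one _
  have hlogm : 1 ≤ Real.log m := by
    rw [Real.le_log_iff_exp_le hm0]
    have h3 : (3 : ℝ) ≤ m := by exact_mod_cast hm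
    have := Real.exp_one_lt_d9
    linarith
  -- the primes
  have hpos : ∀ p : ℕ, p.Prime → 0 < 1 - 1 / (p : ℝ) ∧ 1 - 1 / (p : ℝ) ≤ 1 ∧ (1 - 1 / (p : ℝ))⁻¹ ≤ 2 := by
    intro p hp
    have hp2 : (2 : ℝ) ≤ p := by exact_mod_cast hp.two_le
    have h2 : 1 / (p : ℝ) ≤ 1 / 2 := one_div_le_one_div_of_le (by norm_num) hp2
    have h3 : 0 < 1 / (p : ℝ) := by positivity
    refine ⟨by linarith, by linarith, ?_⟩
    rw [inv_le_comm₀ (by linarith) (by norm_num)]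
    linarith
  set PB := (x + 1).primesBelow with hPB
  have hPBp : ∀ p ∈ PB, p.Prime ∧ p ≤ x := by
    intro p hp
    rw [hPB, Nat.mem_primesBelow] at hp
    exact ⟨hp.2, by omega⟩
  have e1 : ∑ a ∈ cop m x, 1 / (a : ℝ) ≤ ∏ p ∈ PB.filter (fun p => ¬ p ∣ m), (1 - 1 / (p : ℝ))⁻¹ := by
    refine Harm_euler _ (fun p hp => (hPBp p (mem_filter.1 hp).1).1) _ fun a ha => ?_
    unfold cop at ha
    rw [mem_filter, mem_Icc] at ha
    obtain ⟨⟨ha1, hax⟩, hac⟩ := ha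
    refine ⟨by omega, fun p hp => ?_⟩
    rw [Nat.mem_primeFactorsList (by omega)] at hp
    rw [mem_filter, hPB, Nat.mem_primesBelow]
    have h1 := Nat.le_of_dvd (by omega) hp.2
    refine ⟨⟨by omega, hp.1⟩, fun h => ?_⟩
    have h2 := Nat.dvd_gcd hp.2 h
    rw [hac] at h2
    exact hp.1.one_lt.ne' (Nat.dvd_one.1 h2)
  have e2 : (∏ p ∈ PB.filter (fun p => p ∣ m), (1 - 1 / (p : ℝ))⁻¹) * ∏ p ∈ PB.filter (fun p => ¬ p ∣ m), (1 - 1 / (p : ℝ))⁻¹ =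
      ∏ p ∈ PB, (1 - 1 / (p : ℝ))⁻¹ := prod_filter_mul_prod_filter_not _ _ _
  have e3 := hmert x hx1
  rw [← hPB, ← e2] at e3
  -- the product over the small primes dividing m
  have e4 : PB.filter (fun p => p ∣ m) = m.primeFactors.filter (fun p => ¬ x < p) := by
    ext p
    rw [mem_filter, mem_filter, hPB, Nat.mem_primesBelow, Nat.mem_primeFactors]
    constructor
    · rintro ⟨⟨h1, h2⟩, h3⟩
      exact ⟨⟨h2, h3, by omega⟩, by omega⟩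
    · rintro ⟨⟨h1, h2, h3⟩, h4⟩
      exact ⟨⟨by omega, h1⟩, h2⟩
  have e5 : (m.totient : ℝ) / m = ∏ p ∈ m.primeFactors, (1 - 1 / (p : ℝ)) := by
    have h1 := Nat.totient_eq_mul_prod_factors m
    have h2 : (m.totient : ℝ) = m * ∏ p ∈ m.primeFactors, (1 - (p : ℝ)⁻¹) := by
      have h3 := congrArg (fun t : ℚ => (t : ℝ)) h1
      push_cast at h3
      exact h3
    rw [h2, mul_div_assoc, mul_comm, div_mul_cancel₀ _ hm0.ne']
    simp only [one_div]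
  have e6 : (∏ p ∈ m.primeFactors.filter (fun p => x < p), (1 - 1 / (p : ℝ))) * ∏ p ∈ m.primeFactors.filter (fun p => ¬ x < p), (1 - 1 / (p : ℝ)) =
      ∏ p ∈ m.primeFactors, (1 - 1 / (p : ℝ)) := prod_filter_mul_prod_filter_not _ _ _
  have e7 : (∏ p ∈ m.primeFactors.filter (fun p => x < p), (1 - 1 / (p : ℝ))⁻¹) ≤ W := by
    have h1 : (∏ p ∈ m.primeFactors.filter (fun p => x < p), (1 - 1 / (p : ℝ))⁻¹) ≤ ∏ p ∈ m.primeFactors.filter (fun p => x < p), (2 : ℝ) := by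
      refine prod_le_prod (fun p hp => ?_) fun p hp => ?_
      · exact (inv_pos.2 (hpos p (Nat.prime_of_mem_primeFactors (mem_filter.1 hp).1)).1).le
      · exact (hpos p (Nat.prime_of_mem_primeFactors (mem_filter.1 hp).1)).2.2
    rw [prod_const] at h1
    refine h1.trans ?_
    rw [hW]
    exact pow_le_pow_right₀ (by norm_num) (Harm_big m x (by omega) hxlt)
  obtain ⟨U, hU⟩ : ∃ U : ℝ, U = ∏ p ∈ m.primeFactors.filter (fun p => x < p), (1 - 1 / (p : ℝ)) := ⟨_, rfl⟩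
  obtain ⟨V, hV⟩ : ∃ V : ℝ, V = ∏ p ∈ m.primeFactors.filter (fun p => ¬ x < p), (1 - 1 / (p : ℝ)) := ⟨_, rfl⟩
  obtain ⟨R, hR⟩ : ∃ R : ℝ, R = ∏ p ∈ PB.filter (fun p => ¬ p ∣ m), (1 - 1 / (p : ℝ))⁻¹ := ⟨_, rfl⟩
  have hUpos : 0 < U := by
    rw [hU]
    exact prod_pos fun p hp => (hpos p (Nat.prime_of_mem_primeFactors (mem_filter.1 hp).1)).1
  have hVpos : 0 < V := by
    rw [hV]
    exact prod_pos fun p hp => (hpos p (Nat.prime_of_mem_primeFactors (mem_filter.1 hp).1)).1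
  rw [prod_inv_distrib, ← hU] at e7
  rw [← hU, ← hV, ← e5] at e6
  rw [e4, prod_inv_distrib, ← hV, ← hR] at e3
  rw [← hR] at e1
  -- R ≤ V A (1 + log x), V = (φ/m) / U ≤ W φ/m
  have f1 : R ≤ V * (A * (1 + Real.log x)) := by
    calc R = V * (V⁻¹ * R) := by
          field_simp
      _ ≤ V * (A * (1 + Real.log x)) := mul_le_mul_of_nonneg_left e3 hVpos.le
  have f2 : V ≤ W * (m.totient / m) := by
    calc V = U⁻¹ * (U * V) := by
          field_simp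
      _ = U⁻¹ * (m.totient / m) := by rw [e6]
      _ ≤ W * (m.totient / m) := mul_le_mul_of_nonneg_right e7 (by positivity)
  have f3 : A * (1 + Real.log x) ≤ A * (2 * Real.log m) := mul_le_mul_of_nonneg_left (by linarith) hA.le
  have f4 : 0 ≤ A * (1 + Real.log x) := by
    have : 0 ≤ Real.log x := Real.log_nonneg (by exact_mod_cast hx1)
    positivity
  calc ∑ a ∈ cop m x, 1 / (a : ℝ) ≤ R := e1
    _ ≤ V * (A * (1 + Real.log x)) := f1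
    _ ≤ (W * (m.totient / m)) * (A * (2 * Real.log m)) := mul_le_mul f2 f3 f4 (by positivity)
    _ = 2 * A * W * (m.totient / m * Real.log m) := by ring

end Pool.Agent.H78.PE

end
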