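import Mathlib

/-! The parts of this file: H36.IS.MtB, H36.IS.MtC, H78.PD.Lift3, H78.PD.Main1, H78.PD.Wlo, H78.PG.TPret, H84.PD.HT, H78.PD.T7. -/

section

/-!
# IS MtB: an Abelian theorem with kernel exp(-v)

Let a : ℕ → ℝ, a n ≥ 0, a 0 = a 1 = 0, S n = ∑_{k ≤ n} a k, S n - loglog n → c.  Then for σ → 0+:
 ∑_n a n n^{-σ} is summable and  ∑_n a n n^{-σ} + log σ → c - γ.
Proof: n^{-σ} = ∫_n^∞ σ t^{-σ-1} dt, so ∑ a n n^{-σ} = ∫_1^∞ S(⌊t⌋) σ t^{-σ-1} dt = ∫_0^∞ S(⌊e^{v/σ}⌋) e^{-v} dv (t = e^{v/σ}).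
 S(⌊e^{v/σ}⌋) + log σ = log v + c + o(1) for fixed v > 0 (log⌊e^{v/σ}⌋ = v/σ + o(1), log(v/σ) = log v - log σ).
 Domination on v ∈ (0,∞): for ⌊t⌋ ≥ 2, 0 ≤ S ≤ K + |loglog|..., more precisely |S(⌊t⌋) - log(max(log t, 1))| ≤ K for all t ≥ 1 (S = 0 for t < 2),
 and |log(max(v/σ,1)) + log σ| = |log max(v, σ)| ≤ |log v| + log(1+v) for 0 < σ < 1; (K + |log v| + log(1+v)) e^{-v} is integrable.
 Dominated convergence: limit = ∫_0^∞ (log v + c) e^{-v} dv = c - γ, since ∫_0^∞ log v e^{-v} dv = Γ'(1) = -γ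
 (Mathlib: `Real.eulerMascheroniConstant_eq_neg_deriv`, `Complex.hasDerivAt_GammaIntegral`).
-/

set_option autoImplicit false

namespace Pool.Agent.H36.IS

open Finset Filter

theorem int_log_exp : ∫ v in Set.Ioi (0 : ℝ), Real.log v * Real.exp (-v) = -Real.eulerMascheroniConstant := by
  have h1 : HasDerivAt Complex.GammaIntegral
      (∫ t : ℝ in Set.Ioi 0, (t : ℂ) ^ ((1 : ℂ) - 1) * (Real.log t * Real.exp (-t))) 1 :=
    Complex.hasDerivAt_GammaIntegral (by simp)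
  have h2 : HasDerivAt Complex.GammaIntegral (-(Real.eulerMascheroniConstant : ℂ)) 1 := by
    refine Complex.hasDerivAt_Gamma_one.congr_of_eventuallyEq ?_
    have hop : {s : ℂ | 0 < s.re} ∈ nhds (1 : ℂ) :=
      (isOpen_lt continuous_const Complex.continuous_re).mem_nhds (by simp)
    filter_upwards [hop] with s hs
    exact (Complex.Gamma_eq_integral hs).symm
  have h3 := h1.unique h2
  have h4 : (∫ t : ℝ in Set.Ioi 0, (t : ℂ) ^ ((1 : ℂ) - 1) * (Real.log t * Real.exp (-t)))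
      = ((∫ v in Set.Ioi (0 : ℝ), Real.log v * Real.exp (-v) : ℝ) : ℂ) := by
    rw [← integral_complex_ofReal]
    refine MeasureTheory.integral_congr_ae (Filter.Eventually.of_forall fun t => ?_)
    simp
  rw [h4] at h3
  exact_mod_cast h3

/-- the counting function in the logarithmic variable -/
private noncomputable def MtB_A (a : ℕ → ℝ) (x : ℝ) : ℝ :=
  ∑ k ∈ range (⌊Real.exp x⌋₊ + 1), a k

private theorem MtB_A_meas (a : ℕ → ℝ) : Measurable (MtB_A a) :=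
  (measurable_from_nat (f := fun n => ∑ k ∈ range (n + 1), a k)).comp
    (Nat.measurable_floor.comp Real.measurable_exp)

private theorem MtB_A_nonneg {a : ℕ → ℝ} (ha : ∀ n, 0 ≤ a n) (x : ℝ) : 0 ≤ MtB_A a x :=
  Finset.sum_nonneg fun k _ => ha k

/-- comparison of the logarithm of the floor -/
private theorem MtB_floor {x : ℝ} (hx : 1 ≤ x) :
    3 / 10 * x ≤ Real.log ⌊Real.exp x⌋₊ ∧ Real.log ⌊Real.exp x⌋₊ ≤ x := by
  have he : 2 ≤ Real.exp x := by
    have := Real.add_one_le_exp x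
    linarith
  have h1 : Real.exp x - 1 < ⌊Real.exp x⌋₊ := by
    have := Nat.lt_floor_add_one (Real.exp x)
    linarith
  have h2 : (⌊Real.exp x⌋₊ : ℝ) ≤ Real.exp x := Nat.floor_le (Real.exp_pos x).le
  have h3 : Real.exp x / 2 ≤ ⌊Real.exp x⌋₊ := by linarith
  have h0 : (0 : ℝ) < ⌊Real.exp x⌋₊ := by linarith
  constructor
  · have h4 : Real.log (Real.exp x / 2) ≤ Real.log ⌊Real.exp x⌋₊ :=
      Real.log_le_log (by positivity) h3
    rw [Real.log_div (Real.exp_pos x).ne' (by norm_num), Real.log_exp] at h4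
    have h5 := Real.log_two_lt_d9
    linarith
  · have := Real.log_le_log h0 h2
    rwa [Real.log_exp] at this

private theorem MtB_bdd {a : ℕ → ℝ} (ha : ∀ n, 0 ≤ a n) {c : ℝ}
    (hS : Tendsto (fun n : ℕ => ∑ k ∈ range (n + 1), a k - Real.log (Real.log n)) atTop (nhds c)) :
    ∃ K, 0 ≤ K ∧ ∀ x, 0 < x → |MtB_A a x - Real.log (max x 1)| ≤ K := by
  obtain ⟨K0, hK0⟩ : ∃ K0, ∀ n : ℕ,
      |∑ k ∈ range (n + 1), a k - Real.log (Real.log n)| ≤ K0 := by
    obtain ⟨C, hC⟩ := (Metric.isBounded_range_of_tendsto _ hS).exists_norm_le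
    exact ⟨C, fun n => hC _ ⟨n, rfl⟩⟩
  have hK00 : 0 ≤ K0 := (abs_nonneg _).trans (hK0 0)
  have hS2 : 0 ≤ ∑ k ∈ range 3, a k := Finset.sum_nonneg fun k _ => ha k
  refine ⟨K0 + 2 + ∑ k ∈ range 3, a k, by positivity, fun x hx => ?_⟩
  rcases le_total 1 x with h | h
  · rw [max_eq_left h]
    obtain ⟨h1, h2⟩ := MtB_floor h
    have h3 : Real.log (Real.log ⌊Real.exp x⌋₊) ≤ Real.log x :=
      Real.log_le_log (by linarith) h2
    have h4 : Real.log (3 / 10 * x) ≤ Real.log (Real.log ⌊Real.exp x⌋₊) :=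
      Real.log_le_log (by linarith) h1
    rw [Real.log_mul (by norm_num) (by linarith)] at h4
    have h5 : -2 ≤ Real.log (3 / 10) := by
      have h6 : Real.log (10 / 3 : ℝ) ≤ 10 / 3 - 1 := Real.log_le_sub_one_of_pos (by norm_num)
      have h7 : Real.log (3 / 10 : ℝ) = -Real.log (10 / 3) := by
        rw [← Real.log_inv]; norm_num
      have h8 : Real.log (10 / 3 : ℝ) ≤ 2 := by
        have h9 : (10 / 3 : ℝ) ≤ 2 * 2 := by norm_num
        have h10 := Real.log_le_log (by norm_num : (0 : ℝ) < 10 / 3) h9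
        rw [Real.log_mul (by norm_num) (by norm_num)] at h10
        have := Real.log_two_lt_d9
        linarith
      linarith
    have h6 := abs_le.1 (hK0 ⌊Real.exp x⌋₊)
    have h7 : MtB_A a x = ∑ k ∈ range (⌊Real.exp x⌋₊ + 1), a k := rfl
    rw [abs_le]
    constructor
    · rw [h7]; linarith [h6.1]
    · rw [h7]; linarith [h6.2]
  · rw [max_eq_right h, Real.log_one, sub_zero, abs_of_nonneg (MtB_A_nonneg ha x)]
    have h1 : ⌊Real.exp x⌋₊ ≤ 2 := by
      have h2 : Real.exp x ≤ Real.exp 1 := Real.exp_le_exp.2 h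
      have h3 := Real.exp_one_lt_d9
      have h4 : ⌊Real.exp x⌋₊ < 3 := (Nat.floor_lt (Real.exp_pos x).le).2 (by
        push_cast; linarith)
      omega
    have h2 : MtB_A a x ≤ ∑ k ∈ range 3, a k := by
      unfold MtB_A
      refine Finset.sum_le_sum_of_subset_of_nonneg (fun k hk => ?_) fun k _ _ => ha k
      rw [Finset.mem_range] at hk ⊢
      omega
    linarith

/-- the limit for a fixed variable -/
private theorem MtB_lim {a : ℕ → ℝ} {c : ℝ}
    (hS : Tendsto (fun n : ℕ => ∑ k ∈ range (n + 1), a k - Real.log (Real.log n)) atTop (nhds c)) :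
    Tendsto (fun x : ℝ => MtB_A a x - Real.log x) atTop (nhds c) := by
  have hfl : Tendsto (fun x : ℝ => ⌊Real.exp x⌋₊) atTop atTop :=
    tendsto_nat_floor_atTop.comp Real.tendsto_exp_atTop
  have h1 := hS.comp hfl
  -- `log n - x → 0`
  have h2 : Tendsto (fun x : ℝ => (⌊Real.exp x⌋₊ : ℝ) / Real.exp x) atTop (nhds 1) :=
    tendsto_nat_floor_div_atTop.comp Real.tendsto_exp_atTop
  have h3 : Tendsto (fun x : ℝ => Real.log ((⌊Real.exp x⌋₊ : ℝ) / Real.exp x)) atTop (nhds 0) := by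
    have := (Real.continuousAt_log (one_ne_zero)).tendsto.comp h2
    rwa [Real.log_one] at this
  have h4 : Tendsto (fun x : ℝ => 1 + Real.log ((⌊Real.exp x⌋₊ : ℝ) / Real.exp x) / x) atTop
      (nhds 1) := by
    have h5 : Tendsto (fun x : ℝ => Real.log ((⌊Real.exp x⌋₊ : ℝ) / Real.exp x) * x⁻¹) atTop
        (nhds (0 * 0)) := h3.mul tendsto_inv_atTop_zero
    have h6 := h5.const_add 1
    simpa [div_eq_mul_inv] using h6
  have h5 : Tendsto (fun x : ℝ => Real.log (1 + Real.log ((⌊Real.exp x⌋₊ : ℝ) / Real.exp x) / x))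
      atTop (nhds 0) := by
    have := (Real.continuousAt_log (one_ne_zero)).tendsto.comp h4
    rwa [Real.log_one] at this
  have h6 := h1.add h5
  rw [add_zero] at h6
  refine h6.congr' ?_
  filter_upwards [eventually_ge_atTop 1] with x hx
  obtain ⟨g1, g2⟩ := MtB_floor hx
  have hx0 : 0 < x := by linarith
  have hn0 : (0 : ℝ) < ⌊Real.exp x⌋₊ := by
    rcases Nat.eq_zero_or_pos ⌊Real.exp x⌋₊ with h0 | h0
    · rw [h0] at g1
      simp at g1
      linarith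
    · exact_mod_cast h0
  have h7 : Real.log ((⌊Real.exp x⌋₊ : ℝ) / Real.exp x) = Real.log ⌊Real.exp x⌋₊ - x := by
    rw [Real.log_div hn0.ne' (Real.exp_pos x).ne', Real.log_exp]
  have h8 : 1 + Real.log ((⌊Real.exp x⌋₊ : ℝ) / Real.exp x) / x = Real.log ⌊Real.exp x⌋₊ / x := by
    rw [h7]; field_simp; ring
  have h9 : Real.log (Real.log ⌊Real.exp x⌋₊ / x)
      = Real.log (Real.log ⌊Real.exp x⌋₊) - Real.log x :=
    Real.log_div (by linarith) hx0.ne'
  rw [h8, h9]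
  simp only [Function.comp]
  unfold MtB_A
  ring

/-- integrability of the bound -/
private theorem MtB_int_abs_log :
    MeasureTheory.IntegrableOn (fun v : ℝ => |Real.log v| * Real.exp (-v)) (Set.Ioi 0) := by
  have h1 := Real.GammaIntegral_convergent (s := 1 / 2) (by norm_num)
  have h2 := Real.GammaIntegral_convergent (s := 2) (by norm_num)
  have h3 : MeasureTheory.IntegrableOn (fun v : ℝ => 2 * (Real.exp (-v) * v ^ ((1 / 2 : ℝ) - 1))
      + Real.exp (-v) * v ^ ((2 : ℝ) - 1)) (Set.Ioi 0) := (h1.const_mul 2).add h2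
  refine MeasureTheory.Integrable.mono' h3 ?_ ?_
  · exact ((Real.measurable_log.abs).mul (Real.measurable_exp.comp measurable_neg)).aestronglyMeasurable
  · filter_upwards [MeasureTheory.ae_restrict_mem measurableSet_Ioi] with v hv
    have hv0 : (0 : ℝ) < v := hv
    rw [Real.norm_eq_abs, abs_mul, abs_abs, abs_of_pos (Real.exp_pos _)]
    have hexp := Real.exp_pos (-v)
    have e1 : v ^ ((2 : ℝ) - 1) = v := by
      rw [show (2 : ℝ) - 1 = 1 by norm_num, Real.rpow_one]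
    rw [e1]
    have hp : 0 < v ^ ((1 / 2 : ℝ) - 1) := Real.rpow_pos_of_pos hv0 _
    have key : |Real.log v| ≤ 2 * v ^ ((1 / 2 : ℝ) - 1) + v := by
      rw [abs_le]
      constructor
      · have h4 : Real.log (v ^ ((1 / 2 : ℝ) - 1)) ≤ v ^ ((1 / 2 : ℝ) - 1) - 1 :=
          Real.log_le_sub_one_of_pos hp
        rw [Real.log_rpow hv0] at h4
        linarith
      · have h5 := Real.log_le_sub_one_of_pos hv0
        linarith
    have := mul_le_mul_of_nonneg_right key hexp.le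
    linarith

private theorem MtB_int_log :
    MeasureTheory.IntegrableOn (fun v : ℝ => Real.log v * Real.exp (-v)) (Set.Ioi 0) := by
  refine MeasureTheory.Integrable.mono' MtB_int_abs_log ?_ ?_
  · exact (Real.measurable_log.mul (Real.measurable_exp.comp measurable_neg)).aestronglyMeasurable
  · refine Filter.Eventually.of_forall fun v => ?_
    rw [Real.norm_eq_abs, abs_mul, abs_of_pos (Real.exp_pos _)]

private theorem MtB_int_exp :
    MeasureTheory.IntegrableOn (fun v : ℝ => Real.exp (-v)) (Set.Ioi 0) := by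
  have := Real.GammaIntegral_convergent (s := 1) (by norm_num)
  simpa using this

private theorem MtB_abs_log_max {v σ : ℝ} (hv : 0 < v) (hσ : 0 < σ) (hσ1 : σ < 1) :
    |Real.log (max (v / σ) 1) + Real.log σ| ≤ |Real.log v| := by
  rcases le_total 1 (v / σ) with h | h
  · rw [max_eq_left h, Real.log_div hv.ne' hσ.ne']
    rw [sub_add_cancel]
  · rw [max_eq_right h, Real.log_one, zero_add]
    have h1 : v ≤ σ := by rwa [div_le_one hσ] at h
    have h2 : Real.log v ≤ Real.log σ := Real.log_le_log hv h1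
    have h3 : Real.log σ < 0 := Real.log_neg hσ hσ1
    rw [abs_of_neg h3, abs_of_neg (by linarith)]
    linarith

/-- integrability of the integrand -/
private theorem MtB_intA {a : ℕ → ℝ} {K : ℝ} (hK : ∀ x, 0 < x →
    |MtB_A a x - Real.log (max x 1)| ≤ K) {σ : ℝ} (hσ : 0 < σ) :
    MeasureTheory.IntegrableOn (fun v : ℝ => MtB_A a (v / σ) * Real.exp (-v)) (Set.Ioi 0) := by
  have h1 : MeasureTheory.IntegrableOn (fun v : ℝ => (K + |Real.log σ|) * Real.exp (-v)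
      + |Real.log v| * Real.exp (-v)) (Set.Ioi 0) :=
    (MtB_int_exp.const_mul _).add MtB_int_abs_log
  refine MeasureTheory.Integrable.mono' h1 ?_ ?_
  · exact (((MtB_A_meas a).comp (measurable_id.div_const σ)).mul
      (Real.measurable_exp.comp measurable_neg)).aestronglyMeasurable
  · filter_upwards [MeasureTheory.ae_restrict_mem measurableSet_Ioi] with v hv
    have hv0 : (0 : ℝ) < v := hv
    rw [Real.norm_eq_abs, abs_mul, abs_of_pos (Real.exp_pos _), ← add_mul]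
    refine mul_le_mul_of_nonneg_right ?_ (Real.exp_pos _).le
    have h2 := hK (v / σ) (by positivity)
    have h3 : |Real.log (max (v / σ) 1)| ≤ |Real.log σ| + |Real.log v| := by
      rcases le_total 1 (v / σ) with h | h
      · rw [max_eq_left h, Real.log_div hv0.ne' hσ.ne']
        have := abs_sub (Real.log v) (Real.log σ)
        linarith
      · rw [max_eq_right h, Real.log_one, abs_zero]
        positivity
    have h4 : |MtB_A a (v / σ)| ≤ |MtB_A a (v / σ) - Real.log (max (v / σ) 1)|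
        + |Real.log (max (v / σ) 1)| := by
      have := abs_add_le (MtB_A a (v / σ) - Real.log (max (v / σ) 1)) (Real.log (max (v / σ) 1))
      rwa [sub_add_cancel] at this
    linarith

/-- the summands as functions of `v` -/
private noncomputable def MtB_F (a : ℕ → ℝ) (σ : ℝ) (n : ℕ) (v : ℝ) : ℝ :=
  a n * (Set.Ici (σ * Real.log n)).indicator (fun v => Real.exp (-v)) v

private theorem MtB_F_int {a : ℕ → ℝ} (σ : ℝ) (n : ℕ) :
    MeasureTheory.IntegrableOn (MtB_F a σ n) (Set.Ioi 0) :=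
  (MtB_int_exp.indicator measurableSet_Ici).const_mul _

private theorem MtB_F_integral {a : ℕ → ℝ} (h0 : a 0 = 0) (h1 : a 1 = 0) {σ : ℝ} (hσ : 0 < σ)
    (n : ℕ) : ∫ v in Set.Ioi (0 : ℝ), MtB_F a σ n v = a n * (n : ℝ) ^ (-σ) := by
  unfold MtB_F
  rw [MeasureTheory.integral_const_mul]
  rcases Nat.lt_or_ge n 2 with h | h
  · interval_cases n
    · rw [h0]; simp
    · rw [h1]; simp
  · congr 1
    have hn : (1 : ℝ) < n := by exact_mod_cast (by omega : 1 < n)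
    have hl : 0 < Real.log n := Real.log_pos hn
    have hs : 0 < σ * Real.log n := mul_pos hσ hl
    rw [MeasureTheory.setIntegral_indicator measurableSet_Ici]
    have hset : Set.Ioi (0 : ℝ) ∩ Set.Ici (σ * Real.log n) = Set.Ici (σ * Real.log n) :=
      Set.inter_eq_right.2 fun v hv => lt_of_lt_of_le hs hv
    rw [hset, MeasureTheory.integral_Ici_eq_integral_Ioi, integral_exp_neg_Ioi,
      Real.rpow_def_of_pos (by linarith)]
    congr 1
    ring

private theorem MtB_F_sum {a : ℕ → ℝ} (h0 : a 0 = 0) {σ : ℝ} (hσ : 0 < σ) (v : ℝ) :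
    HasSum (fun n => MtB_F a σ n v) (MtB_A a (v / σ) * Real.exp (-v)) := by
  have hE : 0 < Real.exp (v / σ) := Real.exp_pos _
  have h1 : ∀ n ∉ range (⌊Real.exp (v / σ)⌋₊ + 1), MtB_F a σ n v = 0 := by
    intro n hn
    rw [Finset.mem_range, not_lt] at hn
    have h2 : Real.exp (v / σ) < n := (Nat.floor_lt hE.le).1 (by omega)
    have h3 : v / σ < Real.log n := by
      rw [Real.lt_log_iff_exp_lt (hE.trans h2)]; exact h2
    have h4 : v < σ * Real.log n := by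
      rw [div_lt_iff₀ hσ] at h3; linarith
    unfold MtB_F
    rw [Set.indicator_of_notMem (by rw [Set.mem_Ici, not_le]; exact h4), mul_zero]
  have h2 : HasSum (fun n => MtB_F a σ n v)
      (∑ n ∈ range (⌊Real.exp (v / σ)⌋₊ + 1), MtB_F a σ n v) := hasSum_sum_of_ne_finset_zero h1
  convert h2 using 1
  unfold MtB_A
  rw [Finset.sum_mul]
  refine Finset.sum_congr rfl fun n hn => ?_
  unfold MtB_F
  rcases Nat.eq_zero_or_pos n with h3 | h3
  · rw [h3, h0]; simp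
  · have h4 : n ≤ ⌊Real.exp (v / σ)⌋₊ := by
      rw [Finset.mem_range] at hn; omega
    have h5 : (n : ℝ) ≤ Real.exp (v / σ) := (Nat.le_floor_iff hE.le).1 h4
    have h6 : Real.log n ≤ v / σ := by
      rw [Real.log_le_iff_le_exp (by exact_mod_cast h3)]; exact h5
    have h7 : σ * Real.log n ≤ v := by
      rw [le_div_iff₀ hσ] at h6; linarith
    rw [Set.indicator_of_mem (show v ∈ Set.Ici (σ * Real.log n) from h7)]

private theorem MtB_F_nonneg {a : ℕ → ℝ} (ha : ∀ n, 0 ≤ a n) (σ : ℝ) (n : ℕ) (v : ℝ) :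
    0 ≤ MtB_F a σ n v :=
  mul_nonneg (ha n) (Set.indicator_nonneg (fun _ _ => (Real.exp_pos _).le) _)

private theorem MtB_hasSum {a : ℕ → ℝ} (ha : ∀ n, 0 ≤ a n) (h0 : a 0 = 0) (h1 : a 1 = 0) {K : ℝ}
    (hK : ∀ x, 0 < x → |MtB_A a x - Real.log (max x 1)| ≤ K) {σ : ℝ} (hσ : 0 < σ) :
    HasSum (fun n : ℕ => a n * (n : ℝ) ^ (-σ))
      (∫ v in Set.Ioi (0 : ℝ), MtB_A a (v / σ) * Real.exp (-v)) := by
  have hint := MtB_intA hK hσ
  have hsum : Summable fun n : ℕ => a n * (n : ℝ) ^ (-σ) := by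
    refine summable_of_sum_range_le (c := ∫ v in Set.Ioi (0 : ℝ), MtB_A a (v / σ) * Real.exp (-v))
      (fun n => mul_nonneg (ha n) (Real.rpow_nonneg (Nat.cast_nonneg _) _)) fun N => ?_
    have e1 : ∑ i ∈ range N, a i * (i : ℝ) ^ (-σ)
        = ∫ v in Set.Ioi (0 : ℝ), ∑ i ∈ range N, MtB_F a σ i v := by
      rw [MeasureTheory.integral_finsetSum _ fun i _ => MtB_F_int σ i]
      exact Finset.sum_congr rfl fun i _ => (MtB_F_integral h0 h1 hσ i).symm
    rw [e1]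
    refine MeasureTheory.setIntegral_mono_on
      (MeasureTheory.integrable_finsetSum _ fun i _ => MtB_F_int σ i) hint measurableSet_Ioi
      fun v hv => ?_
    exact sum_le_hasSum _ (fun i _ => MtB_F_nonneg ha σ i v) (MtB_F_sum h0 hσ v)
  have h2 := MeasureTheory.hasSum_integral_of_summable_integral_norm
    (μ := MeasureTheory.volume.restrict (Set.Ioi (0 : ℝ))) (F := MtB_F a σ)
    (fun i => MtB_F_int σ i) (by
      refine hsum.congr fun n => ?_
      rw [← MtB_F_integral h0 h1 hσ n]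
      refine MeasureTheory.integral_congr_ae (Filter.Eventually.of_forall fun v => ?_)
      exact (Real.norm_of_nonneg (MtB_F_nonneg ha σ n v)).symm)
  have h3 : ∫ v in Set.Ioi (0 : ℝ), ∑' n, MtB_F a σ n v
      = ∫ v in Set.Ioi (0 : ℝ), MtB_A a (v / σ) * Real.exp (-v) :=
    MeasureTheory.setIntegral_congr_fun measurableSet_Ioi fun v _ =>
      (MtB_F_sum h0 hσ v).tsum_eq
  rw [h3] at h2
  refine h2.congr_fun ?_
  intro n
  exact (MtB_F_integral h0 h1 hσ n).symm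

theorem abel_exp (a : ℕ → ℝ) (ha : ∀ n, 0 ≤ a n) (h0 : a 0 = 0) (h1 : a 1 = 0) (c : ℝ)
    (hS : Tendsto (fun n : ℕ => ∑ k ∈ range (n + 1), a k - Real.log (Real.log n)) atTop (nhds c)) :
    (∀ σ : ℝ, 0 < σ → Summable (fun n : ℕ => a n * (n : ℝ) ^ (-σ))) ∧
    Tendsto (fun σ : ℝ => ∑' n : ℕ, a n * (n : ℝ) ^ (-σ) + Real.log σ) (nhdsWithin 0 (Set.Ioi 0))
      (nhds (c - Real.eulerMascheroniConstant)) := by
  obtain ⟨K, hK0, hK⟩ := MtB_bdd ha hS
  refine ⟨fun σ hσ => (MtB_hasSum ha h0 h1 hK hσ).summable, ?_⟩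
  have hlim : ∫ v in Set.Ioi (0 : ℝ), (Real.log v + c) * Real.exp (-v)
      = c - Real.eulerMascheroniConstant := by
    have e1 : ∀ v : ℝ, (Real.log v + c) * Real.exp (-v)
        = Real.log v * Real.exp (-v) + c * Real.exp (-v) := fun v => by ring
    simp_rw [e1]
    rw [MeasureTheory.integral_add MtB_int_log (MtB_int_exp.const_mul c),
      MeasureTheory.integral_const_mul, int_log_exp, integral_exp_neg_Ioi_zero]
    ring
  rw [← hlim]
  have hkey : Tendsto (fun σ : ℝ => ∫ v in Set.Ioi (0 : ℝ),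
      (MtB_A a (v / σ) + Real.log σ) * Real.exp (-v)) (nhdsWithin 0 (Set.Ioi 0))
      (nhds (∫ v in Set.Ioi (0 : ℝ), (Real.log v + c) * Real.exp (-v))) := by
    refine MeasureTheory.tendsto_integral_filter_of_dominated_convergence
      (fun v : ℝ => K * Real.exp (-v) + |Real.log v| * Real.exp (-v)) ?_ ?_
      ((MtB_int_exp.const_mul K).add MtB_int_abs_log) ?_
    · refine Filter.Eventually.of_forall fun σ => ?_
      exact ((((MtB_A_meas a).comp (measurable_id.div_const σ)).add_const _).mul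
        (Real.measurable_exp.comp measurable_neg)).aestronglyMeasurable
    · have h2 : Set.Ioo (0 : ℝ) 1 ∈ nhdsWithin (0 : ℝ) (Set.Ioi 0) :=
        Ioo_mem_nhdsGT one_pos
      filter_upwards [h2] with σ hσ
      filter_upwards [MeasureTheory.ae_restrict_mem measurableSet_Ioi] with v hv
      have hv0 : (0 : ℝ) < v := hv
      rw [Real.norm_eq_abs, abs_mul, abs_of_pos (Real.exp_pos _), ← add_mul]
      refine mul_le_mul_of_nonneg_right ?_ (Real.exp_pos _).le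
      have h3 := hK (v / σ) (div_pos hv0 hσ.1)
      have h4 := MtB_abs_log_max hv0 hσ.1 hσ.2
      have h5 := abs_add_le (MtB_A a (v / σ) - Real.log (max (v / σ) 1))
        (Real.log (max (v / σ) 1) + Real.log σ)
      have h6 : MtB_A a (v / σ) - Real.log (max (v / σ) 1)
        + (Real.log (max (v / σ) 1) + Real.log σ) = MtB_A a (v / σ) + Real.log σ := by ring
      rw [h6] at h5
      linarith
    · filter_upwards [MeasureTheory.ae_restrict_mem measurableSet_Ioi] with v hv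
      have hv0 : (0 : ℝ) < v := hv
      refine Tendsto.mul_const _ ?_
      have h2 : Tendsto (fun σ : ℝ => v / σ) (nhdsWithin 0 (Set.Ioi 0)) atTop := by
        have := (tendsto_inv_nhdsGT_zero (𝕜 := ℝ)).const_mul_atTop hv0
        simpa [div_eq_mul_inv] using this
      have h3 := ((MtB_lim hS).comp h2).const_add (Real.log v)
      refine h3.congr' ?_
      filter_upwards [self_mem_nhdsWithin] with σ hσ
      have hσ0 : (0 : ℝ) < σ := hσ
      simp only [Function.comp]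
      rw [Real.log_div hv0.ne' hσ0.ne']
      ring
  refine hkey.congr' ?_
  filter_upwards [self_mem_nhdsWithin] with σ hσ
  have hσ0 : (0 : ℝ) < σ := hσ
  rw [(MtB_hasSum ha h0 h1 hK hσ0).tsum_eq]
  have e1 : ∀ v : ℝ, (MtB_A a (v / σ) + Real.log σ) * Real.exp (-v)
      = MtB_A a (v / σ) * Real.exp (-v) + Real.log σ * Real.exp (-v) := fun v => by ring
  simp_rw [e1]
  rw [MeasureTheory.integral_add (MtB_intA hK hσ0) (MtB_int_exp.const_mul _),
    MeasureTheory.integral_const_mul, integral_exp_neg_Ioi_zero, mul_one]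

end Pool.Agent.H36.IS

end

section

/-!
# IS MtC: the Euler product near 1

For σ > 0: ∑_p -log(1 - p^{-1-σ}) = log ζ(1+σ) (real zeta; Euler product of Mathlib: `riemannZeta_eulerProduct_exp_log`,
`riemannZeta_eulerProduct_tprod`, or for real s > 1 through the complex statement), and log ζ(1+σ) + log σ → 0 as σ → 0+ (σ ζ(1+σ) → 1:
`riemannZeta_residue_one`, `tendsto_riemannZeta_sub_one_div`).
Then ∑_p (-log(1-1/p)) p^{-σ} - ∑_p -log(1 - p^{-1-σ}) = ∑_p ∑_{k≥2} (p^{-k-σ} - p^{-k(1+σ)})/k → 0 by dominated convergence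
(0 ≤ terms ≤ ∑_{k≥2} p^{-k} ≤ 2/p²; each term tends to 0; `tendsto_tsum_of_dominated_convergence`).
-/

set_option autoImplicit false

namespace Pool.Agent.H36.IS

open Finset Filter

private theorem MtC_log_bd {x : ℝ} (h0 : 0 ≤ x) (h1 : x ≤ 1 / 2) :
    |x + Real.log (1 - x)| ≤ 2 * x ^ 2 := by
  have h := Real.abs_log_sub_add_sum_range_le (x := x) (by rw [abs_of_nonneg h0]; linarith) 1
  simp only [Finset.sum_range_one, Nat.cast_zero, zero_add, pow_one, div_one, abs_of_nonneg h0]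
    at h
  refine le_trans h ?_
  rw [div_le_iff₀ (by linarith)]
  have h2 : 0 ≤ x ^ 2 * (1 - 2 * x) := mul_nonneg (sq_nonneg x) (by linarith)
  have h3 : x ^ (1 + 1) = x ^ 2 := by norm_num
  rw [h3]
  nlinarith

private theorem MtC_log_nonneg {x : ℝ} (h0 : 0 ≤ x) (h1 : x ≤ 1 / 2) :
    0 ≤ -Real.log (1 - x) := by
  have := Real.log_nonpos (x := 1 - x) (by linarith) (by linarith)
  linarith

private theorem MtC_log_le {x : ℝ} (h0 : 0 ≤ x) (h1 : x ≤ 1 / 2) :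
    -Real.log (1 - x) ≤ 2 * x := by
  have := (abs_le.mp (MtC_log_bd h0 h1)).1
  nlinarith

private theorem MtC_inv_le (p : Nat.Primes) : 1 / ((p : ℕ) : ℝ) ≤ 1 / 2 := by
  have : (2 : ℝ) ≤ ((p : ℕ) : ℝ) := by exact_mod_cast p.2.two_le
  exact one_div_le_one_div_of_le (by norm_num) this

private theorem MtC_y (p : Nat.Primes) (σ : ℝ) :
    ((p : ℕ) : ℝ) ^ (-(1 + σ)) = 1 / ((p : ℕ) : ℝ) * ((p : ℕ) : ℝ) ^ (-σ) := by
  have hp : (0 : ℝ) < ((p : ℕ) : ℝ) := by exact_mod_cast p.2.pos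
  rw [neg_add, Real.rpow_add hp, Real.rpow_neg_one, one_div]

private theorem MtC_pow_le (p : Nat.Primes) {σ : ℝ} (hσ : 0 ≤ σ) :
    ((p : ℕ) : ℝ) ^ (-σ) ≤ 1 := by
  have h1 : (1 : ℝ) ≤ ((p : ℕ) : ℝ) := by exact_mod_cast p.2.one_le
  exact Real.rpow_le_one_of_one_le_of_nonpos h1 (by linarith)

private theorem MtC_pow_pos (p : Nat.Primes) (σ : ℝ) : 0 < ((p : ℕ) : ℝ) ^ (-σ) := by
  have hp : (0 : ℝ) < ((p : ℕ) : ℝ) := by exact_mod_cast p.2.pos
  exact Real.rpow_pos_of_pos hp _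

private theorem MtC_y_bd (p : Nat.Primes) {σ : ℝ} (hσ : 0 ≤ σ) :
    0 ≤ ((p : ℕ) : ℝ) ^ (-(1 + σ)) ∧ ((p : ℕ) : ℝ) ^ (-(1 + σ)) ≤ 1 / ((p : ℕ) : ℝ) := by
  have hp : (0 : ℝ) < ((p : ℕ) : ℝ) := by exact_mod_cast p.2.pos
  rw [MtC_y]
  constructor
  · exact mul_nonneg (by positivity) (MtC_pow_pos p σ).le
  · calc 1 / ((p : ℕ) : ℝ) * ((p : ℕ) : ℝ) ^ (-σ) ≤ 1 / ((p : ℕ) : ℝ) * 1 :=
        mul_le_mul_of_nonneg_left (MtC_pow_le p hσ) (by positivity)
      _ = 1 / ((p : ℕ) : ℝ) := mul_one _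

/-- the logarithm of the Euler product -/
private noncomputable def MtC_L (σ : ℝ) : ℝ :=
  ∑' p : Nat.Primes, -Real.log (1 - ((p : ℕ) : ℝ) ^ (-(1 + σ)))

private theorem MtC_zeta {σ : ℝ} (hσ : 0 < σ) :
    riemannZeta ((1 + σ : ℝ) : ℂ) = ((Real.exp (MtC_L σ) : ℝ) : ℂ) := by
  have h := riemannZeta_eulerProduct_exp_log (s := ((1 + σ : ℝ) : ℂ))
    (by rw [Complex.ofReal_re]; linarith)
  rw [← h, Complex.ofReal_exp]
  congr 1
  rw [MtC_L, Complex.ofReal_tsum]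
  refine tsum_congr (fun p => ?_)
  have hp : (0 : ℝ) ≤ ((p : ℕ) : ℝ) := Nat.cast_nonneg _
  have hy := MtC_y_bd p hσ.le
  have hx := MtC_inv_le p
  have e1 : (((p : ℕ) : ℂ)) ^ (-((1 + σ : ℝ) : ℂ)) = ((((p : ℕ) : ℝ) ^ (-(1 + σ)) : ℝ) : ℂ) := by
    rw [Complex.ofReal_cpow hp]
    push_cast
    rfl
  rw [e1, Complex.ofReal_neg, Complex.ofReal_log (by linarith [hy.2])]
  push_cast
  rfl

private theorem MtC_lim_L : Tendsto (fun σ : ℝ => MtC_L σ + Real.log σ)
    (nhdsWithin 0 (Set.Ioi 0)) (nhds 0) := by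
  have h1 : Tendsto (fun σ : ℝ => ((1 + σ : ℝ) : ℂ)) (nhdsWithin 0 (Set.Ioi 0))
      (nhdsWithin 1 {(1 : ℂ)}ᶜ) := by
    rw [tendsto_nhdsWithin_iff]
    constructor
    · have hc : Continuous (fun σ : ℝ => ((1 + σ : ℝ) : ℂ)) := by fun_prop
      have := (hc.tendsto 0).mono_left (nhdsWithin_le_nhds (s := Set.Ioi (0 : ℝ)))
      simpa using this
    · filter_upwards [self_mem_nhdsWithin] with σ hσ
      simp only [Set.mem_compl_iff, Set.mem_singleton_iff]
      intro h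
      have h2 : (1 + σ : ℝ) = 1 := by exact_mod_cast h
      have : (0 : ℝ) < σ := hσ
      linarith
  have h2 := riemannZeta_residue_one.comp h1
  have h3 : Tendsto (fun σ : ℝ => σ * Real.exp (MtC_L σ)) (nhdsWithin 0 (Set.Ioi 0)) (nhds 1) := by
    have h4 := (Complex.continuous_re.tendsto 1).comp h2
    rw [Complex.one_re] at h4
    refine h4.congr' ?_
    filter_upwards [self_mem_nhdsWithin] with σ hσ
    have hσ' : (0 : ℝ) < σ := hσ
    simp only [Function.comp]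
    rw [MtC_zeta hσ']
    have : (((1 + σ : ℝ) : ℂ) - 1) * ((Real.exp (MtC_L σ) : ℝ) : ℂ) =
        ((σ * Real.exp (MtC_L σ) : ℝ) : ℂ) := by
      push_cast; ring
    rw [this, Complex.ofReal_re]
  have h5 := (Real.continuousAt_log (x := 1) one_ne_zero).tendsto.comp h3
  rw [Real.log_one] at h5
  refine h5.congr' ?_
  filter_upwards [self_mem_nhdsWithin] with σ hσ
  have hσ' : (0 : ℝ) < σ := hσ
  simp only [Function.comp]
  rw [Real.log_mul hσ'.ne' (Real.exp_pos _).ne', Real.log_exp]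
  ring

private theorem MtC_sumL {σ : ℝ} (hσ : 0 < σ) :
    Summable (fun p : Nat.Primes => -Real.log (1 - ((p : ℕ) : ℝ) ^ (-(1 + σ)))) := by
  have hs : Summable (fun p : Nat.Primes => 2 * ((p : ℕ) : ℝ) ^ (-(1 + σ))) :=
    (Nat.Primes.summable_rpow.mpr (by linarith)).mul_left 2
  refine Summable.of_nonneg_of_le (fun p => ?_) (fun p => ?_) hs
  · have hy := MtC_y_bd p hσ.le
    exact MtC_log_nonneg hy.1 (le_trans hy.2 (MtC_inv_le p))
  · have hy := MtC_y_bd p hσ.le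
    exact MtC_log_le hy.1 (le_trans hy.2 (MtC_inv_le p))

private theorem MtC_sumF {σ : ℝ} (hσ : 0 < σ) :
    Summable (fun p : Nat.Primes => -Real.log (1 - 1 / ((p : ℕ) : ℝ)) * ((p : ℕ) : ℝ) ^ (-σ)) := by
  have hs : Summable (fun p : Nat.Primes => 2 * ((p : ℕ) : ℝ) ^ (-(1 + σ))) :=
    (Nat.Primes.summable_rpow.mpr (by linarith)).mul_left 2
  refine Summable.of_nonneg_of_le (fun p => ?_) (fun p => ?_) hs
  · exact mul_nonneg (MtC_log_nonneg (by positivity) (MtC_inv_le p)) (MtC_pow_pos p σ).le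
  · rw [MtC_y, ← mul_assoc]
    exact mul_le_mul_of_nonneg_right (MtC_log_le (by positivity) (MtC_inv_le p))
      (MtC_pow_pos p σ).le

private theorem MtC_diff : Tendsto (fun σ : ℝ => ∑' p : Nat.Primes,
    (-Real.log (1 - 1 / ((p : ℕ) : ℝ)) * ((p : ℕ) : ℝ) ^ (-σ) -
      -Real.log (1 - ((p : ℕ) : ℝ) ^ (-(1 + σ))))) (nhdsWithin 0 (Set.Ioi 0)) (nhds 0) := by
  have hs : Summable (fun p : Nat.Primes => 4 * ((p : ℕ) : ℝ) ^ (-2 : ℝ)) :=
    (Nat.Primes.summable_rpow.mpr (by norm_num)).mul_left 4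
  have h := tendsto_tsum_of_dominated_convergence (𝓕 := nhdsWithin (0 : ℝ) (Set.Ioi 0))
    (f := fun (σ : ℝ) (p : Nat.Primes) =>
      (-Real.log (1 - 1 / ((p : ℕ) : ℝ)) * ((p : ℕ) : ℝ) ^ (-σ) -
      -Real.log (1 - ((p : ℕ) : ℝ) ^ (-(1 + σ))))) (g := fun _ => (0 : ℝ)) hs ?_ ?_
  · simpa using h
  · intro p
    have hp : (0 : ℝ) < ((p : ℕ) : ℝ) := by exact_mod_cast p.2.pos
    have hx := MtC_inv_le p
    have hc : ContinuousAt (fun σ : ℝ => (-Real.log (1 - 1 / ((p : ℕ) : ℝ)) *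
        ((p : ℕ) : ℝ) ^ (-σ) - -Real.log (1 - ((p : ℕ) : ℝ) ^ (-(1 + σ))))) 0 := by
      have c1 : ContinuousAt (fun σ : ℝ => ((p : ℕ) : ℝ) ^ (-σ)) 0 :=
        ((Real.continuous_const_rpow hp.ne').comp continuous_neg).continuousAt
      have c2 : ContinuousAt (fun σ : ℝ => ((p : ℕ) : ℝ) ^ (-(1 + σ))) 0 :=
        ((Real.continuous_const_rpow hp.ne').comp (by fun_prop)).continuousAt
      have c3 : ContinuousAt (fun σ : ℝ => Real.log (1 - ((p : ℕ) : ℝ) ^ (-(1 + σ)))) 0 := by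
        refine ContinuousAt.log (continuousAt_const.sub c2) ?_
        have hy : ((p : ℕ) : ℝ) ^ (-(1 + (0 : ℝ))) ≤ 1 / 2 :=
          le_trans (MtC_y_bd p (σ := 0) le_rfl).2 hx
        have : (0 : ℝ) < 1 - ((p : ℕ) : ℝ) ^ (-(1 + (0 : ℝ))) :=
          sub_pos.mpr (lt_of_le_of_lt hy (by norm_num))
        exact this.ne'
      exact (continuousAt_const.mul c1).sub c3.neg
    have h2 := hc.tendsto.mono_left (nhdsWithin_le_nhds (s := Set.Ioi (0 : ℝ)))
    have e : (-Real.log (1 - 1 / ((p : ℕ) : ℝ)) * ((p : ℕ) : ℝ) ^ (-(0 : ℝ)) -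
        -Real.log (1 - ((p : ℕ) : ℝ) ^ (-(1 + (0 : ℝ))))) = 0 := by
      rw [MtC_y, neg_zero, Real.rpow_zero, mul_one, mul_one, sub_self]
    rw [e] at h2
    exact h2
  · filter_upwards [self_mem_nhdsWithin] with σ hσ p
    have hσ' : (0 : ℝ) < σ := hσ
    have hp : (0 : ℝ) < ((p : ℕ) : ℝ) := by exact_mod_cast p.2.pos
    have hx := MtC_inv_le p
    have hy := MtC_y_bd p hσ'.le
    have hw := MtC_pow_pos p σ
    have hw1 := MtC_pow_le p hσ'.le
    have b1 := MtC_log_bd (x := 1 / ((p : ℕ) : ℝ)) (by positivity) hx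
    have b2 := MtC_log_bd hy.1 (le_trans hy.2 hx)
    have e : (-Real.log (1 - 1 / ((p : ℕ) : ℝ)) * ((p : ℕ) : ℝ) ^ (-σ) -
        -Real.log (1 - ((p : ℕ) : ℝ) ^ (-(1 + σ)))) =
        (((p : ℕ) : ℝ) ^ (-(1 + σ)) + Real.log (1 - ((p : ℕ) : ℝ) ^ (-(1 + σ)))) -
        (1 / ((p : ℕ) : ℝ) + Real.log (1 - 1 / ((p : ℕ) : ℝ))) * ((p : ℕ) : ℝ) ^ (-σ) := by
      rw [MtC_y]; ring
    rw [Real.norm_eq_abs, e]
    have b3 : |(1 / ((p : ℕ) : ℝ) + Real.log (1 - 1 / ((p : ℕ) : ℝ))) * ((p : ℕ) : ℝ) ^ (-σ)| ≤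
        2 * (1 / ((p : ℕ) : ℝ)) ^ 2 := by
      rw [abs_mul, abs_of_pos hw]
      calc _ ≤ |1 / ((p : ℕ) : ℝ) + Real.log (1 - 1 / ((p : ℕ) : ℝ))| * 1 :=
            mul_le_mul_of_nonneg_left hw1 (abs_nonneg _)
        _ ≤ _ := by rw [mul_one]; exact b1
    have b4 : 2 * (((p : ℕ) : ℝ) ^ (-(1 + σ))) ^ 2 ≤ 2 * (1 / ((p : ℕ) : ℝ)) ^ 2 := by
      have := pow_le_pow_left₀ hy.1 hy.2 2
      linarith
    have e2 : ((p : ℕ) : ℝ) ^ (-2 : ℝ) = (1 / ((p : ℕ) : ℝ)) ^ 2 := by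
      rw [Real.rpow_neg hp.le, one_div, inv_pow]
      norm_num
    rw [e2]
    calc _ ≤ |((p : ℕ) : ℝ) ^ (-(1 + σ)) + Real.log (1 - ((p : ℕ) : ℝ) ^ (-(1 + σ)))| +
        |(1 / ((p : ℕ) : ℝ) + Real.log (1 - 1 / ((p : ℕ) : ℝ))) * ((p : ℕ) : ℝ) ^ (-σ)| :=
          abs_sub _ _
      _ ≤ 4 * (1 / ((p : ℕ) : ℝ)) ^ 2 := by linarith

theorem euler_near_one : Tendsto (fun σ : ℝ =>
    ∑' n : ℕ, (if n.Prime then -Real.log (1 - 1 / (n : ℝ)) else 0) * (n : ℝ) ^ (-σ) + Real.log σ)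
      (nhdsWithin 0 (Set.Ioi 0)) (nhds 0) := by
  have h := MtC_diff.add MtC_lim_L
  rw [add_zero] at h
  refine h.congr' ?_
  filter_upwards [self_mem_nhdsWithin] with σ hσ
  have hσ' : (0 : ℝ) < σ := hσ
  have e1 : ∑' n : ℕ, (if n.Prime then -Real.log (1 - 1 / (n : ℝ)) else 0) * (n : ℝ) ^ (-σ) =
      ∑' p : Nat.Primes, -Real.log (1 - 1 / ((p : ℕ) : ℝ)) * ((p : ℕ) : ℝ) ^ (-σ) := by
    have := tsum_subtype {n : ℕ | n.Prime}
      (fun n : ℕ => -Real.log (1 - 1 / (n : ℝ)) * (n : ℝ) ^ (-σ))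
    refine Eq.trans ?_ this.symm
    refine tsum_congr (fun n => ?_)
    by_cases hn : n.Prime
    · rw [if_pos hn, Set.indicator_of_mem (by exact hn)]
    · rw [if_neg hn, Set.indicator_of_notMem (by exact hn), zero_mul]
  rw [e1, (MtC_sumF hσ').tsum_sub (MtC_sumL hσ'), MtC_L]
  ring

end Pool.Agent.H36.IS

end

section

/-!
# PD, Lift3: lifting a real character

`χ' = changeLevel χ`; `L(1, χ') = L(1, χ) ∏_{p ∣ N} (1 - χ(p)/p)` (see `lift_par` in `PH/Analytic2.lean`); `|1 - χ(p)/p| ≤ 1 + 1/p ≤ (1 - 1/p)⁻¹` for `p ∤ m`, `= 1` for `p ∣ m`;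
`φ(N)/N = ∏_{p ∣ N} (1 - 1/p)`.
-/

set_option autoImplicit false

namespace Pool.Agent.H78.PD

open Finset

theorem lift3_tot (N : ℕ) [NeZero N] :
    (N.totient : ℝ) / N = ∏ p ∈ N.primeFactors, (1 - (p : ℝ)⁻¹) := by
  have hN0 : (N : ℝ) ≠ 0 := by exact_mod_cast NeZero.ne N
  have h1 : ((N.totient : ℚ) : ℝ) = ((N * ∏ p ∈ N.primeFactors, (1 - (p : ℚ)⁻¹) : ℚ) : ℝ) := by
    rw [Nat.totient_eq_mul_prod_factors]
  push_cast at h1
  rw [h1]
  field_simp

theorem lift3 (m N : ℕ) [NeZero m] [NeZero N] (h : m ∣ N) (χ : DirichletCharacter ℂ m)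
    (h2 : χ ^ 2 = 1) (h1 : χ ≠ 1) : ∃ χ' : DirichletCharacter ℂ N, χ' ^ 2 = 1 ∧ χ' ≠ 1 ∧
      χ' (-1) = χ (-1) ∧
      (N.totient : ℝ) / N * ‖DirichletCharacter.LFunction χ' 1‖
        ≤ (m.totient : ℝ) / m * ‖DirichletCharacter.LFunction χ 1‖ := by
  refine ⟨DirichletCharacter.changeLevel h χ, ?_, ?_, ?_, ?_⟩
  · rw [← map_pow, h2, map_one]
  · intro hh
    apply h1
    apply DirichletCharacter.changeLevel_injective h
    rw [hh, map_one]
  · have h4 := DirichletCharacter.changeLevel_eq_cast_of_dvd χ h (-1)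
    rw [Units.val_neg, Units.val_one] at h4
    rw [h4]
    congr 1
    rw [ZMod.cast_neg h, ZMod.cast_one h]
  · have h3 := DirichletCharacter.LFunction_changeLevel h χ (s := 1) (Or.inl h1)
    rw [h3, norm_mul, mul_comm ‖DirichletCharacter.LFunction χ 1‖, ← mul_assoc]
    refine mul_le_mul_of_nonneg_right ?_ (norm_nonneg _)
    rw [lift3_tot, lift3_tot, norm_prod, ← Finset.prod_mul_distrib]
    have hsub : m.primeFactors ⊆ N.primeFactors := Nat.primeFactors_mono h (NeZero.ne N)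
    rw [← Finset.prod_sdiff hsub]
    have hP : ∀ p ∈ N.primeFactors, (0 : ℝ) < 1 - (p : ℝ)⁻¹ := by
      intro p hp
      have hp2 : (2 : ℝ) ≤ p := by exact_mod_cast (Nat.prime_of_mem_primeFactors hp).two_le
      have : (p : ℝ)⁻¹ ≤ 2⁻¹ := inv_anti₀ (by norm_num) hp2
      norm_num at this ⊢
      linarith
    have ha : ∏ p ∈ N.primeFactors \ m.primeFactors,
        ((1 - (p : ℝ)⁻¹) * ‖(1 : ℂ) - χ p * (p : ℂ) ^ (-(1 : ℂ))‖) ≤ 1 := by
      refine Finset.prod_le_one (fun p hp => ?_) fun p hp => ?_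
      · have := hP p (Finset.mem_sdiff.1 hp).1
        positivity
      · have h6 := hP p (Finset.mem_sdiff.1 hp).1
        have h3 : ‖χ p * (p : ℂ) ^ (-(1 : ℂ))‖ ≤ (p : ℝ)⁻¹ := by
          rw [Complex.cpow_neg, Complex.cpow_one, norm_mul, norm_inv, Complex.norm_natCast]
          have h3 := DirichletCharacter.norm_le_one χ (p : ZMod m)
          have h4 : (0 : ℝ) ≤ (p : ℝ)⁻¹ := by positivity
          exact mul_le_of_le_one_left h4 h3
        have h5 : ‖(1 : ℂ) - χ p * (p : ℂ) ^ (-(1 : ℂ))‖ ≤ 1 + (p : ℝ)⁻¹ := by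
          refine (norm_sub_le _ _).trans ?_
          rw [norm_one]
          linarith
        calc (1 - (p : ℝ)⁻¹) * ‖(1 : ℂ) - χ p * (p : ℂ) ^ (-(1 : ℂ))‖
            ≤ (1 - (p : ℝ)⁻¹) * (1 + (p : ℝ)⁻¹) := mul_le_mul_of_nonneg_left h5 h6.le
          _ ≤ 1 := by nlinarith [sq_nonneg ((p : ℝ)⁻¹)]
    have hb : ∏ p ∈ m.primeFactors,
        ((1 - (p : ℝ)⁻¹) * ‖(1 : ℂ) - χ p * (p : ℂ) ^ (-(1 : ℂ))‖) =
        ∏ p ∈ m.primeFactors, (1 - (p : ℝ)⁻¹) := by
      refine Finset.prod_congr rfl fun p hp => ?_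
      have hpm : ¬ IsUnit (p : ZMod m) := by
        intro hu
        have hc := (ZMod.isUnit_iff_coprime p m).1 hu
        have hpp := Nat.prime_of_mem_primeFactors hp
        have hpd := Nat.dvd_of_mem_primeFactors hp
        exact hpp.one_lt.ne' (Nat.eq_one_of_dvd_coprimes hc dvd_rfl hpd)
      have h0 : χ (p : ZMod m) = 0 := MulChar.map_nonunit χ hpm
      rw [h0, zero_mul, sub_zero, norm_one, mul_one]
    rw [hb]
    refine mul_le_of_le_one_left ?_ ha
    exact Finset.prod_nonneg fun p hp => (hP p (hsub hp)).le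

end Pool.Agent.H78.PD

end

section

/-!
# PD, Main1: the main theorem of Part I

`b = σ/16`, `θ = b/12`.  Replace `Q` by `Q' = min Q ⌈(C log log m)^(1/θ)⌉` (the hypotheses get weaker, except `m/φ(m) ≤ Q'^θ`, which for `Q' < Q` follows from `m/φ(m) ≤ C log log m`: `tot_logw`, and `omega_le`
in `PH/HNum.lean`).  `x = Q'^(b/3) ≤ (log m)^(1/4)`.  `base b` with `κ = ε1 = ε/16`; `step` at `x` with `α = b`, `γ = b`, `P1 = Q' ≤ exp x`, `P2 = exp(Q'^(3b/4)) ≥ exp(3x²)`, `B = Q' (m/φ)`: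
`Q' (m/φ)² x^7 exp(-b x) ≤ 1` as `m/φ ≤ x^(1/4)` and `x = Q'^(b/3)`; `iter` at `x`, `α = b` (`b + 2/√x ≤ σ/8`).  Total `4 ε1 + (C + C')/log x ≤ ε`.
-/

set_option autoImplicit false

namespace Pool.Agent.H78.PD

open Finset

theorem Main1_x (b : ℝ) (hb : 0 < b) : ∃ X1 : ℝ, ∀ x : ℝ, X1 ≤ x →
    3 / b * Real.log x ≤ x ∧ (3 / b + 7) * Real.log x + 2 * x ^ (3 / 4 : ℝ) ≤ b * x := by
  have e1 : ∀ᶠ x : ℝ in Filter.atTop, 1 ≤ x := Filter.eventually_ge_atTop 1
  have e2 : ∀ᶠ x : ℝ in Filter.atTop, ‖Real.log x‖ ≤ (b / 3) * ‖x‖ :=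
    Real.isLittleO_log_id_atTop.bound (by positivity)
  have e3 : ∀ᶠ x : ℝ in Filter.atTop, ‖Real.log x‖ ≤ (b / (2 * (3 / b + 7))) * ‖x‖ :=
    Real.isLittleO_log_id_atTop.bound (by positivity)
  have e4 : ∀ᶠ x : ℝ in Filter.atTop, 4 / b ≤ x ^ (1 / 4 : ℝ) :=
    (tendsto_rpow_atTop (by norm_num : (0 : ℝ) < 1 / 4)).eventually_ge_atTop (4 / b)
  obtain ⟨X1, h⟩ := Filter.eventually_atTop.1 (e1.and (e2.and (e3.and e4)))
  refine ⟨X1, fun x hx => ?_⟩
  obtain ⟨h1, h2, h3, h4⟩ := h x hx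
  have hx0 : 0 < x := by linarith only [h1]
  have hl0 : 0 ≤ Real.log x := Real.log_nonneg h1
  rw [Real.norm_of_nonneg hl0, Real.norm_of_nonneg hx0.le] at h2 h3
  constructor
  · calc 3 / b * Real.log x ≤ 3 / b * (b / 3 * x) := by gcongr
      _ = x := by field_simp
  · have h5 : (3 / b + 7) * Real.log x ≤ b / 2 * x := by
      calc (3 / b + 7) * Real.log x ≤ (3 / b + 7) * (b / (2 * (3 / b + 7)) * x) := by gcongr
        _ = b / 2 * x := by field_simp
    have h6 : x ^ (3 / 4 : ℝ) * x ^ (1 / 4 : ℝ) = x := by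
      rw [← Real.rpow_add hx0]
      norm_num
    have h7 : 0 < x ^ (3 / 4 : ℝ) := Real.rpow_pos_of_pos hx0 _
    have h8 : 2 * x ^ (3 / 4 : ℝ) ≤ b / 2 * x := by
      calc 2 * x ^ (3 / 4 : ℝ) = b / 2 * (x ^ (3 / 4 : ℝ) * (4 / b)) := by field_simp; norm_num
        _ ≤ b / 2 * (x ^ (3 / 4 : ℝ) * x ^ (1 / 4 : ℝ)) := by gcongr
        _ = b / 2 * x := by rw [h6]
    linarith only [h5, h8]

theorem Main1_y (b D : ℝ) (hb : 0 < b) (hb1 : b ≤ 1) (hD : 0 < D) : ∃ Y0 : ℝ, ∀ y : ℝ, Y0 ≤ y →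
    ((D * y) ^ (12 / b) + 1) ^ (b / 3) ≤ Real.exp (y / 4) := by
  have e1 := (Real.tendsto_exp_div_pow_atTop 4).eventually_ge_atTop (2 * (4 * D) ^ 4)
  have e2 : Filter.Tendsto (fun y : ℝ => y / 4) Filter.atTop Filter.atTop :=
    Filter.tendsto_id.atTop_div_const (by norm_num)
  obtain ⟨Y1, h1⟩ := Filter.eventually_atTop.1 (e2.eventually e1)
  refine ⟨max Y1 (max 1 (1 / D)), fun y hy => ?_⟩
  have hy1 : Y1 ≤ y := (le_max_left _ _).trans hy
  have hy2 : 1 ≤ y := ((le_max_left _ _).trans (le_max_right _ _)).trans hy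
  have hy3 : 1 / D ≤ y := ((le_max_right _ _).trans (le_max_right _ _)).trans hy
  have hDy : 1 ≤ D * y := by
    rw [div_le_iff₀ hD] at hy3
    linarith only [hy3]
  have h2 : 1 ≤ (D * y) ^ (12 / b) := Real.one_le_rpow hDy (by positivity)
  have h3 : ((D * y) ^ (12 / b) + 1) ^ (b / 3) ≤ (2 * (D * y) ^ (12 / b)) ^ (b / 3) := by
    refine Real.rpow_le_rpow (by linarith only [h2]) ?_ (by positivity)
    linarith only [h2]
  have h4 : (2 * (D * y) ^ (12 / b)) ^ (b / 3) = 2 ^ (b / 3) * (D * y) ^ 4 := by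
    rw [Real.mul_rpow (by norm_num) (by positivity), ← Real.rpow_mul (by linarith only [hDy]),
      ← Real.rpow_natCast (D * y) 4]
    congr 2
    field_simp
    norm_num
  have h5 : (2 : ℝ) ^ (b / 3) ≤ 2 := by
    calc (2 : ℝ) ^ (b / 3) ≤ 2 ^ (1 : ℝ) :=
          Real.rpow_le_rpow_of_exponent_le (by norm_num) (by linarith only [hb1])
      _ = 2 := by rw [Real.rpow_one]
  have h6 := h1 y hy1
  rw [le_div_iff₀ (by positivity)] at h6
  calc ((D * y) ^ (12 / b) + 1) ^ (b / 3) ≤ 2 ^ (b / 3) * (D * y) ^ 4 := by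
        rw [← h4]
        exact h3
    _ ≤ 2 * (D * y) ^ 4 := by gcongr
    _ = 2 * (4 * D) ^ 4 * (y / 4) ^ 4 := by ring
    _ ≤ Real.exp (y / 4) := h6

theorem Main1_m (b D R : ℝ) (hb : 0 < b) (hb1 : b ≤ 1) (hD : 0 < D) : ∃ m0 : ℕ, ∀ m : ℕ, m0 ≤ m →
    3 ≤ m ∧ 1 ≤ Real.log m ∧ 0 < Real.log (Real.log m) ∧ R ≤ Real.log (Real.log m) ∧
      ((D * Real.log (Real.log m)) ^ (12 / b) + 1) ^ (b / 3) ≤ Real.log m ^ (1 / 4 : ℝ) ∧
      300 * Real.log m ^ (1 / 2 : ℝ) ≤ Real.log m ∧ 2 * Real.log m + 2 ≤ Real.log m ^ 2 := by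
  have t1 : Filter.Tendsto (fun m : ℕ => Real.log (Real.log m)) Filter.atTop Filter.atTop :=
    Real.tendsto_log_atTop.comp (Real.tendsto_log_atTop.comp tendsto_natCast_atTop_atTop)
  have t2 : Filter.Tendsto (fun m : ℕ => Real.log m) Filter.atTop Filter.atTop :=
    Real.tendsto_log_atTop.comp tendsto_natCast_atTop_atTop
  obtain ⟨Y0, hY0⟩ := Main1_y b D hb hb1 hD
  obtain ⟨m0, h⟩ := Filter.eventually_atTop.1 ((Filter.eventually_ge_atTop 3).and
    ((t2.eventually_ge_atTop 1).and ((t1.eventually_ge_atTop R).and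
      ((t1.eventually_ge_atTop 3072).and (t1.eventually_ge_atTop Y0)))))
  refine ⟨m0, fun m hm => ?_⟩
  obtain ⟨h1, h2, h3, h4, h5⟩ := h m hm
  have hL : 0 < Real.log m := by linarith only [h2]
  obtain ⟨y, hy⟩ : ∃ y, y = Real.log (Real.log m) := ⟨_, rfl⟩
  have hy2 : Real.log m = Real.exp y := by rw [hy, Real.exp_log hL]
  rw [← hy] at h3 h4 h5 ⊢
  have k1 := hY0 y h5
  have k4 : Real.log m ^ (1 / 4 : ℝ) = Real.exp (y / 4) := by
    rw [hy2, ← Real.exp_mul]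
    congr 1
    ring
  have k5 : Real.log m ^ (1 / 2 : ℝ) = Real.exp (y / 2) := by
    rw [hy2, ← Real.exp_mul]
    congr 1
    ring
  have k2 : 300 * Real.exp (y / 2) ≤ Real.exp y := by
    have h1 : Real.exp y = Real.exp (y / 2) * Real.exp (y / 2) := by
      rw [← Real.exp_add]
      congr 1
      ring
    have h2 : 300 ≤ Real.exp (y / 2) := by
      have := Real.add_one_le_exp (y / 2)
      linarith only [h4, this]
    rw [h1]
    have h3 : 0 < Real.exp (y / 2) := Real.exp_pos _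
    nlinarith only [h2]
  have k3 : 2 * Real.exp y + 2 ≤ Real.exp y ^ 2 := by
    have h1 : 3 ≤ Real.exp y := by
      have := Real.add_one_le_exp y
      linarith only [h4, this]
    nlinarith only [hy2, h1, h2]
  rw [k4, k5, hy2]
  exact ⟨h1, by rw [← hy2]; exact h2, by linarith only [h4], h3, k1, k2, k3⟩

end Pool.Agent.H78.PD

end

section

/-!
# PD, Wlo: the sum of the reciprocals of the primes of the blocks

`W_low2` is `W_low` of `BNum` with the condition `m / φ(m) ≤ x ^ (1/4)`.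
-/

set_option autoImplicit false

namespace Pool.Agent.H78.PD

open Finset

/-- the sum of `1/p` over the prime factors of `m` is at most `log (m / φ(m))` -/
theorem inv_sum_le (m : ℕ) (hm : 1 ≤ m) :
    ∑ p ∈ m.primeFactors, (1 : ℝ) / p ≤ Real.log ((m : ℝ) / m.totient) := by
  have hm0 : (m : ℝ) ≠ 0 := by exact_mod_cast (by omega : m ≠ 0)
  have h1 : (m : ℝ) / m.totient = ∏ p ∈ m.primeFactors, (1 - (p : ℝ)⁻¹)⁻¹ := by
    have h2 : ((m.totient : ℚ) : ℝ) = ((m * ∏ p ∈ m.primeFactors, (1 - (p : ℚ)⁻¹) : ℚ) : ℝ) := by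
      rw [Nat.totient_eq_mul_prod_factors]
    push_cast at h2
    rw [h2, prod_inv_distrib]
    have h3 : ∏ p ∈ m.primeFactors, (1 - (p : ℝ)⁻¹) ≠ 0 := by
      refine prod_ne_zero_iff.2 fun p hp => ?_
      have hp2 : (2 : ℝ) ≤ p := by exact_mod_cast (Nat.prime_of_mem_primeFactors hp).two_le
      have : (p : ℝ)⁻¹ ≤ 2⁻¹ := inv_anti₀ (by norm_num) hp2
      norm_num at this ⊢
      intro h
      linarith
    field_simp
  rw [h1, Real.log_prod]
  · refine sum_le_sum fun p hp => ?_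
    have hp2 : (2 : ℝ) ≤ p := by exact_mod_cast (Nat.prime_of_mem_primeFactors hp).two_le
    have h4 : (p : ℝ)⁻¹ ≤ 2⁻¹ := inv_anti₀ (by norm_num) hp2
    have h5 : (0 : ℝ) < 1 - (p : ℝ)⁻¹ := by
      norm_num at h4 ⊢
      linarith
    rw [Real.log_inv]
    have h6 := Real.log_le_sub_one_of_pos h5
    rw [one_div]
    linarith
  · intro p hp
    have hp2 : (2 : ℝ) ≤ p := by exact_mod_cast (Nat.prime_of_mem_primeFactors hp).two_le
    have h4 : (p : ℝ)⁻¹ ≤ 2⁻¹ := inv_anti₀ (by norm_num) hp2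
    have h5 : (0 : ℝ) < 1 - (p : ℝ)⁻¹ := by
      norm_num at h4 ⊢
      linarith
    exact (inv_pos.2 h5).ne'

end Pool.Agent.H78.PD

end

section

/-!
# LQ / PG, TPret: `∑_{n ≤ M} ‖1 - g(n)‖ ≤ 2 M ∑_{p ≤ M} ‖1 - g(p)‖/p` for completely multiplicative `g`

`‖1 - g(n)‖ ≤ ∑_p v_p(n) ‖1 - g(p)‖` (all `‖g‖ ≤ 1`; e.g. strong induction: `n = p n'`,
`1 - g(p) g(n') = (1 - g(p)) + g(p) (1 - g(n'))`), and for a prime `p`:
`∑_{n ≤ M} v_p(n) = ∑_{k ≥ 1} ⌊M/p^k⌋ ≤ M/(p-1) ≤ 2M/p` (Mathlib: `v_p(M!)`,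
`Nat.Prime.sub_one_mul_padicValNat_factorial` / `sub_one_mul_padicValNat_factorial`: `(p-1) v_p(M!) = M - digit sum ≤ M`).
`psum`: partial summation, `a n = A n - A (n-1)`, `∑_{n ≤ N} 1/n ≤ 1 + log N`.
-/

set_option autoImplicit false

namespace Pool.Agent.H78.PG

open Finset

/-- the completely additive function with the values `‖1 - g p‖` at primes -/
noncomputable def tpret_S (g : ℕ → ℂ) (n : ℕ) : ℝ :=
  n.factorization.sum (fun p k => (k : ℝ) * ‖1 - g p‖)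

theorem tpret_S_mul (g : ℕ → ℂ) {a b : ℕ} (ha : a ≠ 0) (hb : b ≠ 0) :
    tpret_S g (a * b) = tpret_S g a + tpret_S g b := by
  unfold tpret_S
  rw [Nat.factorization_mul ha hb]
  exact Finsupp.sum_add_index' (fun p => by simp) (fun p k l => by push_cast; ring)

theorem tpret_S_prime (g : ℕ → ℂ) {p : ℕ} (hp : p.Prime) : tpret_S g p = ‖1 - g p‖ := by
  unfold tpret_S
  rw [hp.factorization, Finsupp.sum_single_index (by simp)]
  simp

theorem tpret_le (g : ℕ → ℂ) (hg1 : g 1 = 1)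
    (hmul : ∀ a b : ℕ, 1 ≤ a → 1 ≤ b → g (a * b) = g a * g b) (hb : ∀ n, ‖g n‖ ≤ 1) (n : ℕ)
    (hn : 1 ≤ n) : ‖1 - g n‖ ≤ tpret_S g n := by
  induction n using Nat.recOnMul with
  | zero => omega
  | one => simp [tpret_S, hg1]
  | prime p hp => exact (tpret_S_prime g hp).ge
  | mul a b iha ihb =>
    rcases Nat.eq_zero_or_pos a with h | h
    · subst h; omega
    rcases Nat.eq_zero_or_pos b with h' | h'
    · subst h'; omega
    rw [hmul a b h h', tpret_S_mul g (by omega) (by omega)]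
    have e : 1 - g a * g b = (1 - g a) + g a * (1 - g b) := by ring
    rw [e]
    calc ‖(1 - g a) + g a * (1 - g b)‖ ≤ ‖1 - g a‖ + ‖g a * (1 - g b)‖ := norm_add_le _ _
      _ = ‖1 - g a‖ + ‖g a‖ * ‖1 - g b‖ := by rw [norm_mul]
      _ ≤ ‖1 - g a‖ + 1 * ‖1 - g b‖ := by
          have := mul_le_mul_of_nonneg_right (hb a) (norm_nonneg (1 - g b))
          linarith
      _ ≤ tpret_S g a + tpret_S g b := by rw [one_mul]; exact add_le_add (iha h) (ihb h')

theorem tpret_sum (g : ℕ → ℂ) (M : ℕ) :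
    ∑ n ∈ Icc 1 M, tpret_S g n = tpret_S g M.factorial := by
  induction M with
  | zero => simp [tpret_S]
  | succ M ih =>
    rw [sum_Icc_succ_top (by omega), ih, Nat.factorial_succ,
      tpret_S_mul g (by omega) (Nat.factorial_ne_zero M), add_comm]

theorem tpret_fac (g : ℕ → ℂ) (M : ℕ) :
    tpret_S g M.factorial ≤ 2 * M * ∑ p ∈ (Icc 1 M).filter Nat.Prime, ‖1 - g p‖ / p := by
  unfold tpret_S
  rw [Finsupp.sum, mul_sum]
  have hsub : (M.factorial).factorization.support ⊆ (Icc 1 M).filter Nat.Prime := by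
    intro p hp
    rw [Nat.support_factorization, Nat.mem_primeFactors] at hp
    rw [mem_filter, mem_Icc]
    exact ⟨⟨hp.1.one_lt.le, (hp.1.dvd_factorial).mp hp.2.1⟩, hp.1⟩
  refine (sum_le_sum ?_).trans (sum_le_sum_of_subset_of_nonneg hsub ?_)
  · intro p hp
    have hp' := (mem_filter.mp (hsub hp)).2
    have : Fact p.Prime := ⟨hp'⟩
    have h1 := sub_one_mul_padicValNat_factorial (p := p) M
    have h2 : (p - 1) * padicValNat p M.factorial ≤ M := by rw [h1]; exact Nat.sub_le _ _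
    have h3 : (M.factorial).factorization p = padicValNat p M.factorial :=
      Nat.factorization_def _ hp'
    rw [h3]
    have h4 : p * padicValNat p M.factorial ≤ 2 * M := by
      have h5 : p ≤ 2 * (p - 1) := by have := hp'.two_le; omega
      calc p * padicValNat p M.factorial ≤ 2 * (p - 1) * padicValNat p M.factorial :=
            Nat.mul_le_mul_right _ h5
        _ = 2 * ((p - 1) * padicValNat p M.factorial) := by ring
        _ ≤ 2 * M := Nat.mul_le_mul_left _ h2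
    have h6 : (p : ℝ) * (padicValNat p M.factorial : ℝ) ≤ 2 * M := by exact_mod_cast h4
    have h7 : (0 : ℝ) < p := by exact_mod_cast hp'.pos
    have h8 : (padicValNat p M.factorial : ℝ) ≤ 2 * M / p := by
      rw [le_div_iff₀ h7]; linarith
    calc (padicValNat p M.factorial : ℝ) * ‖1 - g p‖ ≤ 2 * M / p * ‖1 - g p‖ :=
          mul_le_mul_of_nonneg_right h8 (norm_nonneg _)
      _ = 2 * M * (‖1 - g p‖ / p) := by ring
  · intro p _ _
    positivity

theorem pret (g : ℕ → ℂ) (hg1 : g 1 = 1)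
    (hmul : ∀ a b : ℕ, 1 ≤ a → 1 ≤ b → g (a * b) = g a * g b) (hb : ∀ n, ‖g n‖ ≤ 1) (M : ℕ) :
    ∑ n ∈ Icc 1 M, ‖1 - g n‖ ≤ 2 * M * ∑ p ∈ (Icc 1 M).filter Nat.Prime, ‖1 - g p‖ / p := by
  calc ∑ n ∈ Icc 1 M, ‖1 - g n‖ ≤ ∑ n ∈ Icc 1 M, tpret_S g n :=
        sum_le_sum fun n hn => tpret_le g hg1 hmul hb n (mem_Icc.mp hn).1
    _ = tpret_S g M.factorial := tpret_sum g M
    _ ≤ _ := tpret_fac g M

theorem psum (a : ℕ → ℝ) (θ : ℝ) (hθ : 0 ≤ θ) (N : ℕ)
    (h : ∀ M : ℕ, 1 ≤ M → M ≤ N → ∑ n ∈ Icc 1 M, a n ≤ θ * M) :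
    ∑ n ∈ Icc 1 N, a n / n ≤ θ * (1 + Real.log N) := by
  rcases Nat.eq_zero_or_pos N with hN | hN
  · subst hN
    simpa using hθ
  have key : ∀ K : ℕ, K < N → ∑ n ∈ Icc 1 (K + 1), a n / n
      - (∑ n ∈ Icc 1 (K + 1), a n) / ((K + 1 : ℕ) : ℝ) ≤ θ * ((harmonic (K + 1) : ℝ) - 1) := by
    intro K
    induction K with
    | zero => intro _; simp
    | succ K ih =>
      intro hK
      have h1 := ih (by omega)
      have h2 := h (K + 1) (by omega) (by omega)
      have e1 : ∑ n ∈ Icc 1 (K + 1 + 1), a n / n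
          = ∑ n ∈ Icc 1 (K + 1), a n / n + a (K + 1 + 1) / ((K + 1 + 1 : ℕ) : ℝ) :=
        sum_Icc_succ_top (by omega) _
      have e2 : ∑ n ∈ Icc 1 (K + 1 + 1), a n = ∑ n ∈ Icc 1 (K + 1), a n + a (K + 1 + 1) :=
        sum_Icc_succ_top (by omega) _
      have e3 : ((harmonic (K + 1 + 1) : ℚ) : ℝ)
          = (harmonic (K + 1) : ℝ) + 1 / ((K + 1 + 1 : ℕ) : ℝ) := by
        rw [harmonic_succ]; push_cast; ring
      rw [e1, e2, e3]
      set A : ℝ := ∑ n ∈ Icc 1 (K + 1), a n with hA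
      have hk : (0 : ℝ) < ((K + 1 : ℕ) : ℝ) := by positivity
      have hk2 : (0 : ℝ) < ((K + 1 + 1 : ℕ) : ℝ) := by positivity
      have e4 : A / ((K + 1 : ℕ) : ℝ) - A / ((K + 1 + 1 : ℕ) : ℝ)
          ≤ θ * (1 / ((K + 1 + 1 : ℕ) : ℝ)) := by
        have e5 : A / ((K + 1 : ℕ) : ℝ) - A / ((K + 1 + 1 : ℕ) : ℝ)
            = A / (((K + 1 : ℕ) : ℝ) * ((K + 1 + 1 : ℕ) : ℝ)) := by
          field_simp
          push_cast
          ring
        rw [e5, div_le_iff₀ (mul_pos hk hk2)]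
        calc A ≤ θ * ((K + 1 : ℕ) : ℝ) := h2
          _ = θ * (1 / ((K + 1 + 1 : ℕ) : ℝ)) * (((K + 1 : ℕ) : ℝ) * ((K + 1 + 1 : ℕ) : ℝ)) := by
              field_simp
      have e6 : (A + a (K + 1 + 1)) / ((K + 1 + 1 : ℕ) : ℝ)
          = A / ((K + 1 + 1 : ℕ) : ℝ) + a (K + 1 + 1) / ((K + 1 + 1 : ℕ) : ℝ) := add_div _ _ _
      rw [e6]
      have e7 : θ * ((harmonic (K + 1) : ℝ) + 1 / ((K + 1 + 1 : ℕ) : ℝ) - 1)
          = θ * ((harmonic (K + 1) : ℝ) - 1) + θ * (1 / ((K + 1 + 1 : ℕ) : ℝ)) := by ring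
      rw [e7]
      linarith
  obtain ⟨K, rfl⟩ : ∃ K, N = K + 1 := ⟨N - 1, by omega⟩
  have h1 := key K (by omega)
  have h2 := h (K + 1) (by omega) le_rfl
  have hk : (0 : ℝ) < ((K + 1 : ℕ) : ℝ) := by positivity
  have h3 : (∑ n ∈ Icc 1 (K + 1), a n) / ((K + 1 : ℕ) : ℝ) ≤ θ := by
    rw [div_le_iff₀ hk]; exact h2
  have h4 : (harmonic (K + 1) : ℝ) ≤ 1 + Real.log ((K + 1 : ℕ) : ℝ) :=
    harmonic_le_one_add_log (K + 1)
  have h5 := mul_le_mul_of_nonneg_left h4 hθ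
  have e8 : θ * ((harmonic (K + 1) : ℝ) - 1) = θ * (harmonic (K + 1) : ℝ) - θ := by ring
  linarith

end Pool.Agent.H78.PG

end

section

set_option autoImplicit false

/-!
# Upper bounds for sums of nonnegative multiplicative functions

For `h` multiplicative with `0 ≤ h (p ^ k) ≤ k + 1` the sum of `h` up to `x` is at most a constant
times `x / log x * exp (∑ h p / p)`.
-/

namespace Pool.Agent.H84.PD

open Finset

/-- Nonnegative multiplicative functions with `h (p ^ k) ≤ k + 1`. -/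
structure HT (h : ℕ → ℝ) : Prop where
  nn : ∀ n, 0 ≤ h n
  one : h 1 = 1
  mul : ∀ a b : ℕ, a.Coprime b → h (a * b) = h a * h b
  pow : ∀ p k : ℕ, p.Prime → h (p ^ k) ≤ k + 1

private theorem HT_geo {t : ℝ} (h0 : 0 ≤ t) (h1 : t ≤ 1 / 2) :
    HasSum (fun k : ℕ => ((k : ℝ) + 1) * t ^ k) (1 / (1 - t) ^ 2) := by
  have hn : ‖t‖ < 1 := by
    rw [Real.norm_of_nonneg h0]
    linarith
  have e1 := hasSum_coe_mul_geometric_of_norm_lt_one hn
  have e2 := hasSum_geometric_of_norm_lt_one hn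
  have e3 := e1.add e2
  have h2 : (1 - t) ≠ 0 := by
    have : 0 < 1 - t := by linarith
    exact this.ne'
  have e4 : t / (1 - t) ^ 2 + (1 - t)⁻¹ = 1 / (1 - t) ^ 2 := by
    field_simp
    ring
  rw [e4] at e3
  have e5 : (fun k : ℕ => ((k : ℝ) + 1) * t ^ k) = fun k : ℕ => (k : ℝ) * t ^ k + t ^ k := by
    funext k
    ring
  rw [e5]
  exact e3

/-- The local factor. -/
private theorem HT_fac {h : ℕ → ℝ} (H : HT h) {p : ℕ} (hp : p.Prime) :
    Summable (fun k : ℕ => ‖h (p ^ k) / ((p ^ k : ℕ) : ℝ)‖) ∧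
      ∑' k : ℕ, h (p ^ k) / ((p ^ k : ℕ) : ℝ) ≤ Real.exp (h p / p + 12 * ((p : ℝ) ^ 2)⁻¹) := by
  have hp2 : (2 : ℝ) ≤ p := by exact_mod_cast hp.two_le
  have hp0 : (0 : ℝ) < p := by linarith
  set t : ℝ := (p : ℝ)⁻¹ with ht
  have ht0 : 0 < t := inv_pos.2 hp0
  have ht1 : t ≤ 1 / 2 := by
    rw [ht, inv_le_comm₀ hp0 (by norm_num)]
    linarith
  have e : ∀ k : ℕ, h (p ^ k) / ((p ^ k : ℕ) : ℝ) = h (p ^ k) * t ^ k := by
    intro k
    rw [ht, div_eq_mul_inv, inv_pow]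
    push_cast
    rfl
  have hs := HT_geo ht0.le ht1
  have hle : ∀ k : ℕ, h (p ^ k) * t ^ k ≤ ((k : ℝ) + 1) * t ^ k := fun k =>
    mul_le_mul_of_nonneg_right (H.pow p k hp) (by positivity)
  have hnn : ∀ k : ℕ, 0 ≤ h (p ^ k) * t ^ k := fun k =>
    mul_nonneg (H.nn _) (by positivity)
  have hsum : Summable (fun k : ℕ => h (p ^ k) * t ^ k) := hs.summable.of_nonneg_of_le hnn hle
  constructor
  · have : (fun k : ℕ => ‖h (p ^ k) / ((p ^ k : ℕ) : ℝ)‖) = fun k : ℕ => h (p ^ k) * t ^ k := by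
      funext k
      rw [e k, Real.norm_of_nonneg (hnn k)]
    rw [this]
    exact hsum
  · rw [tsum_congr e]
    have h1 := hsum.sum_add_tsum_nat_add 2
    have h2 := hs.summable.sum_add_tsum_nat_add 2
    rw [hs.tsum_eq] at h2
    have h3 : ∑' k : ℕ, h (p ^ (k + 2)) * t ^ (k + 2) ≤
        ∑' k : ℕ, (((k + 2 : ℕ) : ℝ) + 1) * t ^ (k + 2) :=
      ((summable_nat_add_iff 2).2 hsum).tsum_le_tsum (fun k => hle (k + 2))
        ((summable_nat_add_iff 2).2 hs.summable)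
    simp only [sum_range_succ, sum_range_zero, pow_zero, pow_one, Nat.cast_zero, Nat.cast_one,
      zero_add, mul_one, H.one] at h1 h2
    have h4 : 1 / (1 - t) ^ 2 - 1 - 2 * t ≤ 12 * t ^ 2 := by
      have h5 : 0 < (1 - t) ^ 2 := by
        have : 0 < 1 - t := by linarith
        positivity
      rw [sub_sub, sub_le_iff_le_add, div_le_iff₀ h5]
      nlinarith [mul_nonneg ht0.le ht0.le, mul_nonneg (mul_nonneg ht0.le ht0.le) ht0.le,
        mul_nonneg (mul_nonneg ht0.le ht0.le) (by linarith : (0 : ℝ) ≤ 1 / 2 - t),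
        mul_nonneg (mul_nonneg (mul_nonneg ht0.le ht0.le) ht0.le) ht0.le,
        mul_nonneg (mul_nonneg (mul_nonneg ht0.le ht0.le) (by linarith : (0 : ℝ) ≤ 1 / 2 - t))
          (by linarith : (0 : ℝ) ≤ 1 / 2 - t)]
    have h6 : h p / p = h p * t := by rw [ht, div_eq_mul_inv]
    have h7 : 12 * ((p : ℝ) ^ 2)⁻¹ = 12 * t ^ 2 := by rw [ht, inv_pow]
    rw [h6, h7]
    have h8 := Real.add_one_le_exp (h p * t + 12 * t ^ 2)
    linarith

/-- Logarithmic sums. -/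
theorem HT_log {h : ℕ → ℝ} (H : HT h) (x : ℕ) :
    ∑ n ∈ Icc 1 x, h n / n ≤
      Real.exp 12 * Real.exp (∑ p ∈ (Icc 1 x).filter Nat.Prime, h p / p) := by
  have hf1 : (fun n : ℕ => h n / (n : ℝ)) 1 = 1 := by simp [H.one]
  have hmul : ∀ {m n : ℕ}, Nat.Coprime m n → (fun n : ℕ => h n / (n : ℝ)) (m * n) =
      (fun n : ℕ => h n / (n : ℝ)) m * (fun n : ℕ => h n / (n : ℝ)) n := by
    intro m n hmn
    simp only
    rw [H.mul m n hmn]
    push_cast
    rw [div_mul_div_comm]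
  obtain ⟨-, hsum⟩ := EulerProduct.summable_and_hasSum_smoothNumbers_prod_primesBelow_tsum
    (f := fun n : ℕ => h n / (n : ℝ)) hf1 hmul (fun {p} hp => (HT_fac H hp).1) (x + 1)
  have h1 : ∑ m ∈ (Icc 1 x).subtype (fun d => d ∈ Nat.smoothNumbers (x + 1)),
      (fun n : ℕ => h n / (n : ℝ)) (m : ℕ) ≤
      ∏ p ∈ (x + 1).primesBelow, ∑' k : ℕ, h (p ^ k) / ((p ^ k : ℕ) : ℝ) :=
    sum_le_hasSum _ (fun i _ => div_nonneg (H.nn _) (Nat.cast_nonneg _)) hsum
  have hsm : ∀ n ∈ Icc 1 x, n ∈ Nat.smoothNumbers (x + 1) := by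
    intro n hn
    rw [mem_Icc] at hn
    rw [Nat.mem_smoothNumbers']
    intro p hp hpn
    exact Nat.lt_succ_of_le ((Nat.le_of_dvd (by omega) hpn).trans hn.2)
  rw [Finset.sum_subtype_of_mem (fun m => h m / (m : ℝ)) hsm] at h1
  refine h1.trans ?_
  have h2 : ∏ p ∈ (x + 1).primesBelow, ∑' k : ℕ, h (p ^ k) / ((p ^ k : ℕ) : ℝ) ≤
      ∏ p ∈ (x + 1).primesBelow, Real.exp (h p / p + 12 * ((p : ℝ) ^ 2)⁻¹) := by
    refine prod_le_prod (fun p hp => tsum_nonneg fun k => div_nonneg (H.nn _) (Nat.cast_nonneg _))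
      (fun p hp => (HT_fac H (Nat.prime_of_mem_primesBelow hp)).2)
  refine h2.trans ?_
  rw [← Real.exp_sum, ← Real.exp_add, Real.exp_le_exp, sum_add_distrib, ← mul_sum, add_comm]
  have h3 : (x + 1).primesBelow = (Icc 1 x).filter Nat.Prime := by
    ext p
    rw [Nat.mem_primesBelow, mem_filter, mem_Icc]
    constructor
    · rintro ⟨h, hp⟩
      exact ⟨⟨hp.one_lt.le, Nat.lt_succ_iff.1 h⟩, hp⟩
    · rintro ⟨h, hp⟩
      exact ⟨Nat.lt_succ_iff.2 h.2, hp⟩
  rw [h3]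
  have h4 : ∑ p ∈ (Icc 1 x).filter Nat.Prime, ((p : ℝ) ^ 2)⁻¹ ≤ 1 := by
    rcases Nat.eq_zero_or_pos x with rfl | hx
    · simp
    have h5 : (Icc 1 x).filter Nat.Prime ⊆ Ioc 1 x := by
      intro p hp
      rw [mem_filter, mem_Icc] at hp
      exact mem_Ioc.2 ⟨hp.2.one_lt, hp.1.2⟩
    have h6 := sum_Ioc_inv_sq_le_sub (α := ℝ) one_ne_zero (show 1 ≤ x from hx)
    have h7 : ∑ p ∈ (Icc 1 x).filter Nat.Prime, ((p : ℝ) ^ 2)⁻¹ ≤
        ∑ p ∈ Ioc 1 x, ((p : ℝ) ^ 2)⁻¹ :=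
      sum_le_sum_of_subset_of_nonneg h5 (fun p _ _ => by positivity)
    have h8 : (0 : ℝ) ≤ (x : ℝ)⁻¹ := by positivity
    have h9 : ((1 : ℕ) : ℝ)⁻¹ = 1 := by norm_num
    rw [h9] at h6
    linarith
  linarith

private theorem HT_series (n : ℕ) (hn : 2 ≤ n) :
    ∑ k ∈ Icc 2 n, ((k : ℝ) + 1) * k * (1 / 2) ^ k = 7 - ((n : ℝ) ^ 2 + 5 * n + 8) * (1 / 2) ^ n := by
  induction n, hn using Nat.le_induction with
  | base => norm_num
  | succ n hn ih =>
    rw [← Finset.insert_Icc_right_eq_Icc_add_one (by omega), sum_insert (by simp), ih]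
    push_cast
    rw [pow_succ]
    ring

private theorem HT_series_le (x : ℕ) {t : ℝ} (h0 : 0 ≤ t) (h1 : t ≤ 1 / 2) :
    ∑ k ∈ Icc 2 x, ((k : ℝ) + 1) * k * t ^ k ≤ 28 * t ^ 2 := by
  rcases lt_or_ge x 2 with hx | hx
  · rw [Icc_eq_empty (by omega), sum_empty]
    positivity
  have h2 : ∀ k ∈ Icc 2 x, ((k : ℝ) + 1) * k * t ^ k ≤
      4 * t ^ 2 * (((k : ℝ) + 1) * k * (1 / 2) ^ k) := by
    intro k hk
    obtain ⟨j, rfl⟩ := Nat.exists_eq_add_of_le (mem_Icc.1 hk).1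
    have h3 : t ^ j ≤ (1 / 2) ^ j := pow_le_pow_left₀ h0 h1 j
    have h4 : ((2 + j : ℕ) : ℝ) + 1 ≥ 0 := by positivity
    calc (((2 + j : ℕ) : ℝ) + 1) * ((2 + j : ℕ) : ℝ) * t ^ (2 + j)
        = (((2 + j : ℕ) : ℝ) + 1) * ((2 + j : ℕ) : ℝ) * t ^ 2 * t ^ j := by
          rw [pow_add]
          ring
      _ ≤ (((2 + j : ℕ) : ℝ) + 1) * ((2 + j : ℕ) : ℝ) * t ^ 2 * (1 / 2) ^ j := by
          gcongr
      _ = 4 * t ^ 2 * ((((2 + j : ℕ) : ℝ) + 1) * ((2 + j : ℕ) : ℝ) * (1 / 2) ^ (2 + j)) := by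
          rw [pow_add]
          ring
  refine (sum_le_sum h2).trans ?_
  rw [← mul_sum, HT_series x hx]
  have h3 : 0 ≤ ((x : ℝ) ^ 2 + 5 * x + 8) * (1 / 2) ^ x := by positivity
  nlinarith [sq_nonneg t, mul_nonneg (sq_nonneg t) h3]

/-- The sum over prime powers. -/
private theorem HT_pp : ∃ K : ℝ, 0 < K ∧ ∀ (x : ℕ) (y : ℝ), 0 ≤ y →
    ∑ p ∈ (Icc 1 x).filter Nat.Prime, ∑ k ∈ Icc 1 x,
      (if (p : ℝ) ^ k ≤ y then ((k : ℝ) + 1) * k * Real.log p else 0) ≤ K * y := by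
  have hS : Summable (fun n : ℕ => 56 * (n : ℝ) ^ (-(3 / 2) : ℝ)) :=
    (Real.summable_nat_rpow.2 (by norm_num)).mul_left 56
  refine ⟨2 * Real.log 4 + (∑' n : ℕ, 56 * (n : ℝ) ^ (-(3 / 2) : ℝ)) + 1, ?_, fun x y hy => ?_⟩
  · have h1 : 0 ≤ Real.log 4 := Real.log_nonneg (by norm_num)
    have h2 : 0 ≤ ∑' n : ℕ, 56 * (n : ℝ) ^ (-(3 / 2) : ℝ) := tsum_nonneg fun n => by positivity
    linarith
  have h1 : ∀ p ∈ (Icc 1 x).filter Nat.Prime, ∑ k ∈ Icc 1 x,
      (if (p : ℝ) ^ k ≤ y then ((k : ℝ) + 1) * k * Real.log p else 0) ≤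
      2 * (if (p : ℝ) ≤ y then Real.log p else 0) + y * (56 * (p : ℝ) ^ (-(3 / 2) : ℝ)) := by
    intro p hp
    rw [mem_filter, mem_Icc] at hp
    have hp2 : (2 : ℝ) ≤ p := by exact_mod_cast hp.2.two_le
    have hp0 : (0 : ℝ) < p := by linarith
    have hl0 : 0 ≤ Real.log p := Real.log_nonneg (by linarith)
    have ht1 : (p : ℝ)⁻¹ ≤ 1 / 2 := by
      rw [inv_le_comm₀ hp0 (by norm_num)]
      linarith
    have e1 : Icc 1 x = insert 1 (Icc 2 x) := by
      ext k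
      simp only [mem_insert, mem_Icc]
      omega
    rw [e1, sum_insert (by simp)]
    have h2 : ∑ k ∈ Icc 2 x, (if (p : ℝ) ^ k ≤ y then ((k : ℝ) + 1) * k * Real.log p else 0) ≤
        ∑ k ∈ Icc 2 x, y * Real.log p * (((k : ℝ) + 1) * k * ((p : ℝ)⁻¹) ^ k) := by
      refine sum_le_sum fun k hk => ?_
      have h3 : 0 ≤ ((k : ℝ) + 1) * k * Real.log p := by positivity
      split_ifs with h
      · have h4 : 1 ≤ y * ((p : ℝ)⁻¹) ^ k := by
          rw [inv_pow, ← div_eq_mul_inv, one_le_div (by positivity)]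
          exact h
        calc ((k : ℝ) + 1) * k * Real.log p ≤
            ((k : ℝ) + 1) * k * Real.log p * (y * ((p : ℝ)⁻¹) ^ k) := le_mul_of_one_le_right h3 h4
          _ = y * Real.log p * (((k : ℝ) + 1) * k * ((p : ℝ)⁻¹) ^ k) := by ring
      · positivity
    rw [← mul_sum] at h2
    have h5 : y * Real.log p * ∑ k ∈ Icc 2 x, ((k : ℝ) + 1) * k * ((p : ℝ)⁻¹) ^ k ≤
        y * Real.log p * (28 * ((p : ℝ)⁻¹) ^ 2) :=
      mul_le_mul_of_nonneg_left (HT_series_le x (by positivity) ht1) (by positivity)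
    have h6 : Real.log p ≤ (p : ℝ) ^ (1 / 2 : ℝ) / (1 / 2) :=
      Real.log_le_rpow_div hp0.le (by norm_num)
    have h7 : y * Real.log p * (28 * ((p : ℝ)⁻¹) ^ 2) ≤ y * (56 * (p : ℝ) ^ (-(3 / 2) : ℝ)) := by
      have e2 : (p : ℝ) ^ (-(3 / 2) : ℝ) = (p : ℝ) ^ (1 / 2 : ℝ) * ((p : ℝ)⁻¹) ^ 2 := by
        have e3 : ((p : ℝ)⁻¹) ^ 2 = (p : ℝ) ^ (-2 : ℝ) := by
          rw [Real.rpow_neg hp0.le, inv_pow]
          norm_num
        rw [e3, ← Real.rpow_add hp0]
        norm_num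
      rw [e2]
      calc y * Real.log p * (28 * ((p : ℝ)⁻¹) ^ 2) ≤
          y * ((p : ℝ) ^ (1 / 2 : ℝ) / (1 / 2)) * (28 * ((p : ℝ)⁻¹) ^ 2) := by gcongr
        _ = y * (56 * ((p : ℝ) ^ (1 / 2 : ℝ) * ((p : ℝ)⁻¹) ^ 2)) := by ring
    have h8 : (if (p : ℝ) ^ 1 ≤ y then (((1 : ℕ) : ℝ) + 1) * ((1 : ℕ) : ℝ) * Real.log p else 0) =
        2 * (if (p : ℝ) ≤ y then Real.log p else 0) := by
      rw [pow_one]
      split_ifs
      · push_cast
        ring
      · ring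
    rw [h8]
    linarith
  refine (sum_le_sum h1).trans ?_
  rw [sum_add_distrib, ← mul_sum, ← mul_sum]
  have h2 : ∑ p ∈ (Icc 1 x).filter Nat.Prime, (if (p : ℝ) ≤ y then Real.log p else 0) ≤
      Real.log 4 * y := by
    refine le_trans ?_ (Chebyshev.theta_le_log4_mul_x hy)
    rw [← sum_filter, Chebyshev.theta]
    refine sum_le_sum_of_subset_of_nonneg ?_ ?_
    · intro p hp
      simp only [mem_filter, mem_Icc, mem_Ioc] at hp ⊢
      exact ⟨⟨by omega, Nat.le_floor hp.2⟩, hp.1.2⟩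
    · intro p hp _
      rw [mem_filter] at hp
      exact Real.log_nonneg (by exact_mod_cast hp.2.one_lt.le)
  have h3 : ∑ p ∈ (Icc 1 x).filter Nat.Prime, 56 * (p : ℝ) ^ (-(3 / 2) : ℝ) ≤
      ∑' n : ℕ, 56 * (n : ℝ) ^ (-(3 / 2) : ℝ) :=
    hS.sum_le_tsum _ (fun n _ => by positivity)
  nlinarith [mul_le_mul_of_nonneg_left h3 hy]

/-- For one prime: splitting off the exact power. -/
private theorem HT_split {h : ℕ → ℝ} (H : HT h) (x : ℕ) {p : ℕ} (hp : p.Prime) :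
    ∑ n ∈ (Icc 1 x).filter (fun n => p ∣ n), h n * ((n.factorization p : ℝ) * Real.log p) ≤
      ∑ t ∈ Icc 1 x ×ˢ Icc 1 x, (if p ^ t.1 * t.2 ≤ x then
        ((t.1 : ℝ) + 1) * t.1 * Real.log p * h t.2 else 0) := by
  have hl0 : 0 ≤ Real.log p := Real.log_nonneg (by exact_mod_cast hp.one_lt.le)
  set i : ℕ → ℕ × ℕ := fun n => (n.factorization p, n / p ^ n.factorization p) with hi
  have hin : ∀ n ∈ (Icc 1 x).filter (fun n => p ∣ n), p ^ n.factorization p *
      (n / p ^ n.factorization p) = n := fun n _ => Nat.ordProj_mul_ordCompl_eq_self n p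
  have hinj : Set.InjOn i ((Icc 1 x).filter (fun n => p ∣ n) : Finset ℕ) := by
    intro a ha b hb hab
    have h1 := hin a ha
    have h2 := hin b hb
    simp only [hi, Prod.mk.injEq] at hab
    rw [← h1, ← h2, hab.2, hab.1]
  have hle : ∀ n ∈ (Icc 1 x).filter (fun n => p ∣ n),
      h n * ((n.factorization p : ℝ) * Real.log p) ≤
      (fun t : ℕ × ℕ => (if p ^ t.1 * t.2 ≤ x then
        ((t.1 : ℝ) + 1) * t.1 * Real.log p * h t.2 else 0)) (i n) := by
    intro n hn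
    have h1 := hin n hn
    rw [mem_filter, mem_Icc] at hn
    have h2 : (p ^ n.factorization p).Coprime (n / p ^ n.factorization p) :=
      (Nat.coprime_ordCompl hp (by omega)).pow_left _
    have h3 : h n = h (p ^ n.factorization p) * h (n / p ^ n.factorization p) := by
      rw [← H.mul _ _ h2, h1]
    simp only [hi]
    rw [h1, if_pos hn.1.2, h3]
    have h4 := H.pow p (n.factorization p) hp
    have h5 := H.nn (n / p ^ n.factorization p)
    calc h (p ^ n.factorization p) * h (n / p ^ n.factorization p) *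
        ((n.factorization p : ℝ) * Real.log p) ≤
        ((n.factorization p : ℝ) + 1) * h (n / p ^ n.factorization p) *
          ((n.factorization p : ℝ) * Real.log p) := by gcongr
      _ = ((n.factorization p : ℝ) + 1) * (n.factorization p : ℝ) * Real.log p *
          h (n / p ^ n.factorization p) := by ring
  refine (sum_le_sum hle).trans ?_
  rw [← sum_image (f := fun t : ℕ × ℕ => (if p ^ t.1 * t.2 ≤ x then
        ((t.1 : ℝ) + 1) * t.1 * Real.log p * h t.2 else 0)) hinj]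
  refine sum_le_sum_of_subset_of_nonneg ?_ ?_
  · intro t ht
    obtain ⟨n, hn, rfl⟩ := mem_image.1 ht
    have h1 := hin n hn
    rw [mem_filter, mem_Icc] at hn
    rw [mem_product, mem_Icc, mem_Icc]
    simp only [hi]
    have h2 : 1 ≤ n.factorization p := hp.factorization_pos_of_dvd (by omega) hn.2
    have h3 : n.factorization p < n := Nat.factorization_lt p (by omega)
    have h4 : 0 < n / p ^ n.factorization p := Nat.ordCompl_pos p (by omega)
    have h5 : n / p ^ n.factorization p ≤ n := Nat.div_le_self _ _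
    omega
  · intro t _ _
    split_ifs
    · exact mul_nonneg (by positivity) (H.nn _)
    · exact le_rfl

/-- The sum with weight `log n`. -/
private theorem HT_wt : ∃ K : ℝ, 0 < K ∧ ∀ h : ℕ → ℝ, HT h → ∀ x : ℕ,
    ∑ n ∈ Icc 1 x, h n * Real.log n ≤ K * x * ∑ n ∈ Icc 1 x, h n / n := by
  obtain ⟨K, hK, hpp⟩ := HT_pp
  refine ⟨K, hK, fun h H x => ?_⟩
  have h1 : ∀ n ∈ Icc 1 x, h n * Real.log n =
      ∑ p ∈ n.primeFactors, h n * ((n.factorization p : ℝ) * Real.log p) := by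
    intro n _
    rw [Real.log_nat_eq_sum_factorization, Finsupp.sum, Nat.support_factorization, mul_sum]
  rw [sum_congr rfl h1]
  have h2 : ∑ n ∈ Icc 1 x, ∑ p ∈ n.primeFactors, h n * ((n.factorization p : ℝ) * Real.log p) =
      ∑ p ∈ (Icc 1 x).filter Nat.Prime, ∑ n ∈ (Icc 1 x).filter (fun n => p ∣ n),
        h n * ((n.factorization p : ℝ) * Real.log p) := by
    refine sum_comm' fun n p => ?_
    simp only [mem_filter, mem_Icc, Nat.mem_primeFactors]
    constructor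
    · rintro ⟨hn, hp, hd, _⟩
      exact ⟨⟨hn, hd⟩, ⟨hp.one_lt.le, (Nat.le_of_dvd (by omega) hd).trans hn.2⟩, hp⟩
    · rintro ⟨⟨hn, hd⟩, _, hp⟩
      exact ⟨hn, hp, hd, by omega⟩
  rw [h2]
  have h3 : ∀ p ∈ (Icc 1 x).filter Nat.Prime, ∑ n ∈ (Icc 1 x).filter (fun n => p ∣ n),
        h n * ((n.factorization p : ℝ) * Real.log p) ≤
      ∑ a ∈ Icc 1 x, ∑ k ∈ Icc 1 x, (if (p : ℝ) ^ k ≤ (x : ℝ) / a then
        ((k : ℝ) + 1) * k * Real.log p else 0) * h a := by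
    intro p hp
    rw [mem_filter] at hp
    refine (HT_split H x hp.2).trans (le_of_eq ?_)
    rw [sum_product_right]
    refine sum_congr rfl fun a ha => sum_congr rfl fun k _ => ?_
    have ha0 : (0 : ℝ) < a := by exact_mod_cast (mem_Icc.1 ha).1
    have h4 : (p ^ k * a ≤ x) ↔ (p : ℝ) ^ k ≤ (x : ℝ) / a := by
      rw [le_div_iff₀ ha0]
      exact_mod_cast Iff.rfl
    simp only [h4]
    split_ifs
    · rfl
    · rw [zero_mul]
  refine (sum_le_sum h3).trans ?_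
  rw [sum_comm, mul_sum]
  refine sum_le_sum fun a ha => ?_
  have ha0 : (0 : ℝ) < a := by exact_mod_cast (mem_Icc.1 ha).1
  have h4 : ∑ p ∈ (Icc 1 x).filter Nat.Prime, ∑ k ∈ Icc 1 x,
      (if (p : ℝ) ^ k ≤ (x : ℝ) / a then ((k : ℝ) + 1) * k * Real.log p else 0) * h a =
      (∑ p ∈ (Icc 1 x).filter Nat.Prime, ∑ k ∈ Icc 1 x,
      (if (p : ℝ) ^ k ≤ (x : ℝ) / a then ((k : ℝ) + 1) * k * Real.log p else 0)) * h a := by
    rw [sum_mul]
    exact sum_congr rfl fun p _ => (sum_mul _ _ _).symm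
  rw [h4]
  calc _ ≤ K * ((x : ℝ) / a) * h a :=
        mul_le_mul_of_nonneg_right (hpp x _ (by positivity)) (H.nn a)
    _ = K * x * (h a / a) := by ring

/-- The upper bound of Hall and Tenenbaum. -/
theorem HT_sum : ∃ C : ℝ, 0 < C ∧ ∀ h : ℕ → ℝ, HT h → ∀ x : ℕ, 2 ≤ x →
    ∑ n ∈ Icc 1 x, h n ≤
      C * (x / Real.log x) * Real.exp (∑ p ∈ (Icc 1 x).filter Nat.Prime, h p / p) := by
  obtain ⟨K, hK, hwt⟩ := HT_wt
  refine ⟨(K + 1) * Real.exp 12, by positivity, fun h H x hx => ?_⟩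
  have hx2 : (2 : ℝ) ≤ x := by exact_mod_cast hx
  have hx0 : (0 : ℝ) < x := by linarith
  have hlx : 0 < Real.log x := Real.log_pos (by linarith)
  have h1 := hwt h H x
  have h2 : ∑ n ∈ Icc 1 x, h n * Real.log (x / n) ≤ x * ∑ n ∈ Icc 1 x, h n / n := by
    rw [mul_sum]
    refine sum_le_sum fun n hn => ?_
    have hn0 : (0 : ℝ) < n := by exact_mod_cast (mem_Icc.1 hn).1
    have h3 : Real.log (x / n) ≤ x / n := by
      have := Real.log_le_sub_one_of_pos (div_pos hx0 hn0)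
      linarith
    calc h n * Real.log (x / n) ≤ h n * (x / n) := mul_le_mul_of_nonneg_left h3 (H.nn n)
      _ = x * (h n / n) := by ring
  have h3 : (∑ n ∈ Icc 1 x, h n) * Real.log x =
      ∑ n ∈ Icc 1 x, h n * Real.log n + ∑ n ∈ Icc 1 x, h n * Real.log (x / n) := by
    rw [← sum_add_distrib, sum_mul]
    refine sum_congr rfl fun n hn => ?_
    have hn0 : (0 : ℝ) < n := by exact_mod_cast (mem_Icc.1 hn).1
    rw [Real.log_div hx0.ne' hn0.ne']
    ring
  have h4 := HT_log H x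
  have h5 : (∑ n ∈ Icc 1 x, h n) * Real.log x ≤ (K + 1) * x * (Real.exp 12 *
      Real.exp (∑ p ∈ (Icc 1 x).filter Nat.Prime, h p / p)) := by
    calc (∑ n ∈ Icc 1 x, h n) * Real.log x ≤ (K + 1) * x * ∑ n ∈ Icc 1 x, h n / n := by
          rw [h3]
          linarith
      _ ≤ _ := mul_le_mul_of_nonneg_left h4 (by positivity)
  rw [← le_div_iff₀ hlx] at h5
  refine h5.trans (le_of_eq ?_)
  ring

/-- The convolution of `1` and a completely multiplicative function with values `0`, `1`, `-1`. -/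
theorem HT_conv {f : ℕ → ℝ} (h1 : f 1 = 1) (hm : ∀ a b : ℕ, f (a * b) = f a * f b)
    (hv : ∀ n, f n = 0 ∨ f n = 1 ∨ f n = -1) : HT (fun n => ∑ d ∈ n.divisors, f d) := by
  have hpow : ∀ p k : ℕ, f (p ^ k) = f p ^ k := by
    intro p k
    induction k with
    | zero => simp [h1]
    | succ k ih => rw [pow_succ, hm, ih, pow_succ]
  have hpp : ∀ p k : ℕ, p.Prime →
      ∑ d ∈ (p ^ k).divisors, f d = ∑ j ∈ range (k + 1), f p ^ j := by
    intro p k hp
    rw [Nat.sum_divisors_prime_pow hp]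
    exact sum_congr rfl fun j _ => hpow p j
  have hpn : ∀ p k : ℕ, p.Prime → 0 ≤ ∑ d ∈ (p ^ k).divisors, f d := by
    intro p k hp
    rw [hpp p k hp]
    rcases hv p with h | h | h
    · rw [h, sum_range_succ']
      simp
    · rw [h]
      simp
      positivity
    · rw [h, neg_one_geom_sum]
      split_ifs <;> norm_num
  let F : ArithmeticFunction ℝ := ⟨fun n => if n = 0 then 0 else f n, if_pos rfl⟩
  have hF : ∀ n, n ≠ 0 → F n = f n := fun n hn => if_neg hn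
  have hFm : F.IsMultiplicative := by
    refine ArithmeticFunction.IsMultiplicative.iff_ne_zero.2 ⟨?_, ?_⟩
    · rw [hF 1 one_ne_zero, h1]
    · intro m n hm0 hn0 _
      rw [hF _ hm0, hF _ hn0, hF _ (mul_ne_zero hm0 hn0), hm]
  have hG : ∀ n : ℕ, ∑ d ∈ n.divisors, f d = ((ArithmeticFunction.zeta : ArithmeticFunction ℝ) * F) n := by
    intro n
    rw [ArithmeticFunction.coe_zeta_mul_apply]
    exact sum_congr rfl fun d hd => (hF d (Nat.pos_of_mem_divisors hd).ne').symm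
  have hGm : ((ArithmeticFunction.zeta : ArithmeticFunction ℝ) * F).IsMultiplicative :=
    ArithmeticFunction.isMultiplicative_zeta.natCast.mul hFm
  refine ⟨?_, by simp [h1], ?_, ?_⟩
  · intro n
    rcases eq_or_ne n 0 with rfl | hn
    · simp
    · rw [hG, hGm.multiplicative_factorization _ hn, Finsupp.prod]
      refine prod_nonneg fun p hp => ?_
      rw [← hG]
      rw [Nat.support_factorization] at hp
      exact hpn p _ (Nat.prime_of_mem_primeFactors hp)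
  · intro a b hab
    rw [hG, hG, hG]
    exact hGm.map_mul_of_coprime hab
  · intro p k hp
    rw [hpp p k hp]
    have : ∀ j ∈ range (k + 1), f p ^ j ≤ 1 := by
      intro j _
      rcases hv p with h | h | h
      · rw [h]
        exact pow_le_one₀ le_rfl zero_le_one
      · rw [h, one_pow]
      · rw [h]
        rcases neg_one_pow_eq_or ℝ j with h | h <;> rw [h]
        norm_num
    have h2 := sum_le_card_nsmul _ _ _ this
    rw [card_range, nsmul_eq_mul, mul_one] at h2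
    push_cast at h2
    exact h2

/-- The upper bound for the convolution of `1` and a completely multiplicative function with values
`0`, `1`, `-1`. -/
theorem HT_conv_sum : ∃ C : ℝ, 0 < C ∧ ∀ f : ℕ → ℝ, f 1 = 1 → (∀ a b : ℕ, f (a * b) = f a * f b) →
    (∀ n, f n = 0 ∨ f n = 1 ∨ f n = -1) → ∀ x : ℕ, 2 ≤ x →
    ∑ n ∈ Icc 1 x, ∑ d ∈ n.divisors, f d ≤
      C * (x / Real.log x) * Real.exp (∑ p ∈ (Icc 1 x).filter Nat.Prime, (1 + f p) / p) := by
  obtain ⟨C, hC, h⟩ := HT_sum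
  refine ⟨C, hC, fun f h1 hm hv x hx => ?_⟩
  refine (h _ (HT_conv h1 hm hv) x hx).trans (le_of_eq ?_)
  congr 2
  refine sum_congr rfl fun p hp => ?_
  rw [mem_filter] at hp
  rw [hp.2.sum_divisors, h1, add_comm]

end Pool.Agent.H84.PD

end

section

/-!
# PD, T7: upper bound for `∑ (1 * f)(n)`

`HT_conv_sum` of helper84.
-/

set_option autoImplicit false

namespace Pool.Agent.H78.PD

open Finset

theorem t7 : ∃ C : ℝ, 0 < C ∧ ∀ f : ℕ → ℝ, f 1 = 1 → (∀ a b : ℕ, 1 ≤ a → 1 ≤ b → f (a * b) = f a * f b) →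
    (∀ n, f n = 0 ∨ f n = 1 ∨ f n = -1) → ∀ x : ℕ, 2 ≤ x →
    ∑ n ∈ Icc 1 x, ∑ d ∈ n.divisors, f d ≤ C * (x / Real.log x) *
      Real.exp (∑ p ∈ (Icc 1 x).filter Nat.Prime, (1 + f p) / p) := by
  obtain ⟨C, hC, H⟩ := Pool.Agent.H84.PD.HT_conv_sum
  refine ⟨C, hC, fun f h1 hmul hv x hx => ?_⟩
  obtain ⟨g, hg⟩ : ∃ g : ℕ → ℝ, ∀ n, g n = if n = 0 then 0 else f n := ⟨_, fun _ => rfl⟩
  have hgf : ∀ n : ℕ, 1 ≤ n → g n = f n := fun n hn => by
    rw [hg, if_neg (by omega)]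
  have h := H g (by rw [hgf 1 le_rfl, h1]) (fun a b => by
    rcases Nat.eq_zero_or_pos a with ha | ha
    · rw [ha, zero_mul, hg 0, if_pos rfl, zero_mul]
    rcases Nat.eq_zero_or_pos b with hb | hb
    · rw [hb, mul_zero, hg 0, if_pos rfl, mul_zero]
    rw [hgf _ (Nat.mul_pos ha hb), hgf _ ha, hgf _ hb, hmul a b ha hb]) (fun n => by
    rcases Nat.eq_zero_or_pos n with hn | hn
    · left
      rw [hn, hg 0, if_pos rfl]
    · rw [hgf n hn]
      exact hv n) x hx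
  have e1 : ∑ n ∈ Icc 1 x, ∑ d ∈ n.divisors, g d = ∑ n ∈ Icc 1 x, ∑ d ∈ n.divisors, f d :=
    sum_congr rfl fun n _ => sum_congr rfl fun d hd => hgf d (Nat.pos_of_mem_divisors hd)
  have e2 : ∑ p ∈ (Icc 1 x).filter Nat.Prime, (1 + g p) / p
      = ∑ p ∈ (Icc 1 x).filter Nat.Prime, (1 + f p) / p :=
    sum_congr rfl fun p hp => by rw [hgf p (mem_filter.mp hp).2.one_lt.le]
  rwa [e1, e2] at h

end Pool.Agent.H78.PD

end
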