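import Mathlib

/-! The parts of this file: H11.LQ.Fejer, H11.LQ.Hit, H3.LC.Mertens, H36.IS.SD, H87T.SelW, H91.GoldWeight, H36.IS.MtA. -/

section

/-!
# LQ module Fejer: few residues mod `T` avoid `0` under all products of three primes

Let `P` be the number of primes `≤ K`, `H = 8 k ^ 2`, `e(x) = exp (2 π i x)`.  For `d < T` put
`S(d) = ∑_{(p, q, r)} |∑_{j < H} e(j p q r d / T)|²` over triples of primes `≤ K`.
For `d` in the set, `|∑_{j < H} e(j θ)| ≤ 2 k` for `θ = p q r d / T` (`‖θ‖ ≥ 1 / 4k`), so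
`S(d) ≤ H P ^ 3 / 2`.
Mean value over `d mod T`: `(1/T) ∑_d S(d) = H P ^ 3`.
Second moment: `(1/T) ∑_d S(d)² = #{((p,q,r), (p',q',r'), j1, j1', j2, j2') :
(j1 - j1') p q r + (j2 - j2') p' q' r' ≡ 0 mod T}`; as `2 H K ^ 3 < T` the congruence is an equation.
Solutions with `j1 = j1'` have `j2 = j2'`: they give `H² P ^ 6`.  For the others `p', q', r'` are
prime factors of `(j1 - j1') p q r`, and `j2'` is determined by `j2`: at most `P³ H³ L³`, with
`L = log₂ (K ^ 6)`.  Chebyshev, and `Chebyshev.pi_ge`.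
-/

set_option autoImplicit false

namespace Pool.Agent.H11.LQ

open Finset

/-- the primes `≤ K` -/
def prs (K : ℕ) : Finset ℕ := (range (K + 1)).filter Nat.Prime

theorem mem_prs {K p : ℕ} : p ∈ prs K ↔ p.Prime ∧ p ≤ K := by
  unfold prs
  rw [mem_filter, mem_range, Nat.lt_succ_iff, and_comm]

/-! ## roots of unity -/

private noncomputable def fejz (T : ℕ) : ℂ := Complex.exp (2 * Real.pi * Complex.I / T)

private lemma fejer_prim {T : ℕ} (hT : T ≠ 0) : IsPrimitiveRoot (fejz T) T :=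
  Complex.isPrimitiveRoot_exp T hT

private lemma fejer_norm {T : ℕ} (hT : T ≠ 0) : ‖fejz T‖ = 1 :=
  (fejer_prim hT).norm'_eq_one hT

private lemma fejer_ne {T : ℕ} (hT : T ≠ 0) : fejz T ≠ 0 := by
  intro h
  have := fejer_norm hT
  rw [h] at this
  simp at this

private lemma fejer_sum {T : ℕ} (hT : T ≠ 0) (n : ℤ) :
    ∑ d ∈ range T, (fejz T ^ n) ^ d = if (T : ℤ) ∣ n then (T : ℂ) else 0 := by
  split_ifs with h
  · have h1 : fejz T ^ n = 1 := ((fejer_prim hT).zpow_eq_one_iff_dvd n).2 h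
    simp [h1]
  · have h1 : fejz T ^ n ≠ 1 := fun h2 => h (((fejer_prim hT).zpow_eq_one_iff_dvd n).1 h2)
    have h3 : (fejz T ^ n) ^ T = 1 := by
      rw [← zpow_natCast, ← zpow_mul, mul_comm, zpow_mul, zpow_natCast,
        (fejer_prim hT).pow_eq_one, one_zpow]
    rw [geom_sum_eq h1, h3]
    simp

private lemma fejer_moments {ι : Type*} {T : ℕ} (hT : T ≠ 0) (X : Finset ι)
    (n : ι → ℤ) (w : ℕ → ℝ) (hw : ∀ d, (w d : ℂ) = ∑ x ∈ X, (fejz T ^ n x) ^ d) :
    ∑ d ∈ range T, w d = T * ((X.filter fun x => (T : ℤ) ∣ n x).card : ℝ) ∧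
    ∑ d ∈ range T, (w d) ^ 2 =
      T * (((X ×ˢ X).filter fun x => (T : ℤ) ∣ n x.1 + n x.2).card : ℝ) := by
  constructor
  · have h : ((∑ d ∈ range T, w d : ℝ) : ℂ) =
        ((T * ((X.filter fun x => (T : ℤ) ∣ n x).card : ℝ) : ℝ) : ℂ) := by
      push_cast
      rw [Finset.sum_congr rfl (fun d _ => hw d), Finset.sum_comm,
        Finset.sum_congr rfl (fun x _ => fejer_sum hT (n x)), ← Finset.sum_filter,
        Finset.sum_const, nsmul_eq_mul, mul_comm]
    exact_mod_cast h
  · have h : ((∑ d ∈ range T, (w d) ^ 2 : ℝ) : ℂ) =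
        ((T * (((X ×ˢ X).filter fun x => (T : ℤ) ∣ n x.1 + n x.2).card : ℝ) : ℝ) : ℂ) := by
      push_cast
      have h1 : ∀ d ∈ range T, ((w d : ℂ)) ^ 2 =
          ∑ x ∈ X ×ˢ X, (fejz T ^ (n x.1 + n x.2)) ^ d := by
        intro d _
        rw [hw d, sq, Finset.sum_mul_sum, ← Finset.sum_product']
        refine Finset.sum_congr rfl fun x _ => ?_
        rw [← mul_pow, ← zpow_add₀ (fejer_ne hT)]
      rw [Finset.sum_congr rfl h1, Finset.sum_comm,
        Finset.sum_congr rfl (fun x _ => fejer_sum hT (n x.1 + n x.2)), ← Finset.sum_filter,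
        Finset.sum_const, nsmul_eq_mul, mul_comm]
    exact_mod_cast h

private lemma fejer_normsq {z : ℂ} (hz : ‖z‖ = 1) (H : ℕ) :
    ((‖∑ j ∈ range H, z ^ j‖ ^ 2 : ℝ) : ℂ) =
      ∑ y ∈ range H ×ˢ range H, z ^ ((y.1 : ℤ) - (y.2 : ℤ)) := by
  have hz0 : z ≠ 0 := by
    intro h
    rw [h] at hz
    simp at hz
  push_cast
  rw [← Complex.mul_conj', map_sum, Finset.sum_mul_sum, ← Finset.sum_product']
  refine Finset.sum_congr rfl fun y _ => ?_
  rw [map_pow, ← Complex.inv_eq_conj hz, zpow_sub₀ hz0, zpow_natCast, zpow_natCast, inv_pow,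
    div_eq_mul_inv]

/-- far from the integers the geometric sum is small -/
private lemma fejer_geom {T k c H : ℕ} (hT : T ≠ 0) (hk : 0 < k)
    (h1 : T ≤ 4 * k * (c % T)) (h2 : T ≤ 4 * k * (T - c % T)) :
    ‖∑ j ∈ range H, (fejz T ^ c) ^ j‖ ≤ 2 * k := by
  have hT' : (0 : ℝ) < T := by exact_mod_cast Nat.pos_of_ne_zero hT
  have hk' : (0 : ℝ) < k := by exact_mod_cast hk
  set m : ℕ := c % T with hm
  have hmT : m < T := Nat.mod_lt _ (Nat.pos_of_ne_zero hT)
  have hz : fejz T ^ c = fejz T ^ m := pow_eq_pow_mod c (fejer_prim hT).pow_eq_one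
  have hze : fejz T ^ m = Complex.exp (Complex.I * ((2 * Real.pi * (m / T) : ℝ) : ℂ)) := by
    unfold fejz
    rw [← Complex.exp_nat_mul]
    congr 1
    push_cast
    ring
  have h1r : (T : ℝ) ≤ 4 * k * m := by exact_mod_cast h1
  have h2r : (T : ℝ) ≤ 4 * k * (T - m) := by
    have : ((T - m : ℕ) : ℝ) = (T : ℝ) - m := by
      push_cast [Nat.cast_sub hmT.le]
      ring
    rw [← this]
    exact_mod_cast h2
  have hθ1 : 1 / (4 * (k : ℝ)) ≤ (m : ℝ) / T := by
    rw [div_le_div_iff₀ (by positivity) hT']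
    linarith only [h1r]
  have hθ2 : 1 / (4 * (k : ℝ)) ≤ 1 - (m : ℝ) / T := by
    rw [le_sub_iff_add_le, ← le_sub_iff_add_le', div_le_iff₀ hT']
    have : (1 - 1 / (4 * (k : ℝ))) * T = T - T / (4 * k) := by ring
    rw [this]
    have h3 : (T : ℝ) / (4 * k) ≤ T - m := by
      rw [div_le_iff₀ (by positivity)]
      linarith only [h2r]
    linarith only [h3]
  set θ : ℝ := (m : ℝ) / T with hθ
  have hθ0 : 0 ≤ θ := by positivity
  have hsin : 1 / (2 * (k : ℝ)) ≤ Real.sin (Real.pi * θ) := by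
    have e1 : 1 / (2 * (k : ℝ)) = 2 * (1 / (4 * (k : ℝ))) := by
      field_simp
      norm_num
    rcases le_total θ (1 / 2) with h | h
    · have h3 := Real.mul_le_sin (x := Real.pi * θ) (by positivity)
        (by nlinarith only [h, Real.pi_pos])
      have e2 : 2 / Real.pi * (Real.pi * θ) = 2 * θ := by
        field_simp
      rw [e2] at h3
      rw [e1]
      linarith only [hθ1, h3]
    · have h3 := Real.mul_le_sin (x := Real.pi * (1 - θ))
        (mul_nonneg Real.pi_pos.le (by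
          have : (0 : ℝ) < 1 / (4 * (k : ℝ)) := by positivity
          linarith only [hθ2, this]))
        (by nlinarith only [h, Real.pi_pos])
      have e2 : 2 / Real.pi * (Real.pi * (1 - θ)) = 2 * (1 - θ) := by
        field_simp
      have e3 : Real.sin (Real.pi * (1 - θ)) = Real.sin (Real.pi * θ) := by
        rw [show Real.pi * (1 - θ) = Real.pi - Real.pi * θ by ring, Real.sin_pi_sub]
      rw [e2, e3] at h3
      rw [e1]
      linarith only [hθ2, h3]
  have hn : 1 / (k : ℝ) ≤ ‖fejz T ^ c - 1‖ := by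
    rw [hz, hze, Complex.norm_exp_I_mul_ofReal_sub_one,
      show 2 * Real.pi * θ / 2 = Real.pi * θ by ring, Real.norm_eq_abs]
    refine le_trans ?_ (le_abs_self _)
    have e1 : 1 / (k : ℝ) = 2 * (1 / (2 * (k : ℝ))) := by
      field_simp
    rw [e1]
    linarith only [hsin]
  have hne : fejz T ^ c ≠ 1 := by
    intro h
    rw [h, sub_self, norm_zero] at hn
    have : (0 : ℝ) < 1 / k := by positivity
    linarith only [hn, this]
  rw [geom_sum_eq hne, norm_div]
  have hnum : ‖(fejz T ^ c) ^ H - 1‖ ≤ 2 := by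
    refine le_trans (norm_sub_le _ _) ?_
    rw [norm_pow, norm_pow, fejer_norm hT]
    norm_num
  have hpos : 0 < ‖fejz T ^ c - 1‖ := lt_of_lt_of_le (by positivity) hn
  rw [div_le_iff₀ hpos]
  calc ‖(fejz T ^ c) ^ H - 1‖ ≤ 2 := hnum
    _ = 2 * k * (1 / k) := by field_simp
    _ ≤ 2 * k * ‖fejz T ^ c - 1‖ := by gcongr

/-! ## counting -/

private def fejTr (K : ℕ) : Finset (ℕ × ℕ × ℕ) := prs K ×ˢ prs K ×ˢ prs K

private def fejX (K H : ℕ) : Finset ((ℕ × ℕ × ℕ) × (ℕ × ℕ)) := fejTr K ×ˢ (range H ×ˢ range H)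

private def fejc (t : ℕ × ℕ × ℕ) : ℕ := t.1 * t.2.1 * t.2.2

private def fejn (x : (ℕ × ℕ × ℕ) × (ℕ × ℕ)) : ℤ := ((x.2.1 : ℤ) - (x.2.2 : ℤ)) * (fejc x.1 : ℤ)

private lemma fejc_pos {K : ℕ} {t : ℕ × ℕ × ℕ} (ht : t ∈ fejTr K) : 0 < fejc t := by
  unfold fejTr at ht
  rw [mem_product, mem_product, mem_prs, mem_prs, mem_prs] at ht
  obtain ⟨⟨h1, -⟩, ⟨h2, -⟩, ⟨h3, -⟩⟩ := ht
  unfold fejc
  exact Nat.mul_pos (Nat.mul_pos h1.pos h2.pos) h3.pos

private lemma fejc_le {K : ℕ} {t : ℕ × ℕ × ℕ} (ht : t ∈ fejTr K) : fejc t ≤ K ^ 3 := by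
  unfold fejTr at ht
  rw [mem_product, mem_product, mem_prs, mem_prs, mem_prs] at ht
  obtain ⟨⟨-, h1⟩, ⟨-, h2⟩, ⟨-, h3⟩⟩ := ht
  unfold fejc
  calc t.1 * t.2.1 * t.2.2 ≤ K * K * K := Nat.mul_le_mul (Nat.mul_le_mul h1 h2) h3
    _ = K ^ 3 := by ring

private lemma fejn_abs {K H : ℕ} {x : (ℕ × ℕ × ℕ) × (ℕ × ℕ)} (hx : x ∈ fejX K H) :
    |fejn x| ≤ (H * K ^ 3 : ℕ) := by
  unfold fejX at hx
  rw [mem_product, mem_product, mem_range, mem_range] at hx
  obtain ⟨ht, h1, h2⟩ := hx
  unfold fejn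
  rw [abs_mul]
  push_cast
  have e1 : |(x.2.1 : ℤ) - (x.2.2 : ℤ)| ≤ H := by
    rw [abs_le]
    constructor <;> omega
  have e2 : |(fejc x.1 : ℤ)| ≤ (K : ℤ) ^ 3 := by
    rw [abs_of_nonneg (by positivity)]
    exact_mod_cast fejc_le ht
  exact mul_le_mul e1 e2 (abs_nonneg _) (by positivity)

private lemma fejn_zero {K H : ℕ} {x : (ℕ × ℕ × ℕ) × (ℕ × ℕ)} (hx : x ∈ fejX K H) :
    fejn x = 0 ↔ x.2.1 = x.2.2 := by
  unfold fejX at hx
  rw [mem_product] at hx
  have hc := fejc_pos hx.1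
  unfold fejn
  constructor
  · intro h
    rcases mul_eq_zero.1 h with h | h
    · omega
    · exfalso
      have : (fejc x.1 : ℤ) ≠ 0 := by exact_mod_cast hc.ne'
      exact this h
  · intro h
    rw [h]
    simp

private lemma fej_card_diag (K H : ℕ) :
    ((fejX K H).filter fun x => x.2.1 = x.2.2).card = (prs K).card ^ 3 * H := by
  have h : (fejX K H).filter (fun x => x.2.1 = x.2.2) =
      (fejTr K ×ˢ range H).image (fun y => (y.1, (y.2, y.2))) := by
    ext x
    unfold fejX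
    rw [mem_filter, mem_product, mem_product, mem_range, mem_range, mem_image]
    constructor
    · rintro ⟨⟨h1, h2, -⟩, h4⟩
      refine ⟨(x.1, x.2.1), ?_, ?_⟩
      · rw [mem_product, mem_range]
        exact ⟨h1, h2⟩
      · exact Prod.ext rfl (Prod.ext rfl h4)
    · rintro ⟨y, hy, rfl⟩
      rw [mem_product, mem_range] at hy
      exact ⟨⟨hy.1, hy.2, hy.2⟩, rfl⟩
  rw [h, Finset.card_image_of_injective]
  · unfold fejTr
    rw [card_product, card_product, card_product, card_range]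
    ring
  · intro a b hab
    simp only [Prod.mk.injEq] at hab
    ext <;> simp [hab.1, hab.2.1]

private lemma fej_omega {m : ℕ} (hm : m ≠ 0) : 2 ^ m.primeFactors.card ≤ m := by
  calc 2 ^ m.primeFactors.card ≤ ∏ p ∈ m.primeFactors, p :=
        Finset.pow_card_le_prod _ _ _ (fun p hp => (Nat.prime_of_mem_primeFactors hp).two_le)
    _ ≤ m := Nat.le_of_dvd (Nat.pos_of_ne_zero hm) (Nat.prod_primeFactors_dvd m)

/-- for `n ≠ 0` few `y` have `fejn y = - n` -/
private lemma fej_count_off {K H L : ℕ} {a : ℤ} (ha : a ≠ 0)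
    (hL : a.natAbs.primeFactors.card ≤ L) :
    ((fejX K H).filter fun y => fejn y = -a).card ≤ L ^ 3 * H := by
  set Q := a.natAbs.primeFactors with hQ
  have h1 : ((fejX K H).filter fun y => fejn y = -a).card ≤
      ((Q ×ˢ Q ×ˢ Q) ×ˢ range H).card := by
    refine Finset.card_le_card_of_injOn (fun y => (y.1, y.2.1)) ?_ ?_
    · intro y hy
      simp only [coe_filter, Set.mem_ofPred_eq] at hy
      obtain ⟨hyX, hya⟩ := hy
      have hyX' := hyX
      unfold fejX fejTr at hyX'
      simp only [mem_product, mem_range, mem_prs] at hyX'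
      obtain ⟨⟨⟨p1, -⟩, ⟨p2, -⟩, ⟨p3, -⟩⟩, hj, -⟩ := hyX'
      have hdvd : fejc y.1 ∣ a.natAbs := by
        rw [← Int.natCast_dvd_natCast, Int.dvd_natAbs]
        have : a = -(((y.2.1 : ℤ) - (y.2.2 : ℤ)) * (fejc y.1 : ℤ)) := by
          unfold fejn at hya
          rw [hya]
          ring
        rw [this]
        exact (Dvd.intro_left _ rfl).neg_right
      have hne : a.natAbs ≠ 0 := Int.natAbs_ne_zero.2 ha
      have d1 : y.1.1 ∣ fejc y.1 := by
        unfold fejc
        exact Dvd.dvd.mul_right (Dvd.intro _ rfl) _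
      have d2 : y.1.2.1 ∣ fejc y.1 := by
        unfold fejc
        exact Dvd.dvd.mul_right (Dvd.intro_left _ rfl) _
      have d3 : y.1.2.2 ∣ fejc y.1 := by
        unfold fejc
        exact Dvd.intro_left _ rfl
      simp only [coe_product, Set.mem_prod, mem_coe, hQ, Nat.mem_primeFactors, mem_range]
      exact ⟨⟨⟨p1, d1.trans hdvd, hne⟩, ⟨p2, d2.trans hdvd, hne⟩, ⟨p3, d3.trans hdvd, hne⟩⟩, hj⟩
    · intro y hy y' hy' hyy
      simp only [coe_filter, Set.mem_ofPred_eq] at hy hy'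
      simp only [Prod.mk.injEq] at hyy
      obtain ⟨hyX, hya⟩ := hy
      obtain ⟨hyX', hya'⟩ := hy'
      have hc : (fejc y.1 : ℤ) ≠ 0 := by
        unfold fejX at hyX
        rw [mem_product] at hyX
        exact_mod_cast (fejc_pos hyX.1).ne'
      have h := hya.trans hya'.symm
      unfold fejn at h
      rw [← hyy.1, ← hyy.2] at h
      have h3 := mul_right_cancel₀ hc h
      have h4 : y.2.2 = y'.2.2 := by omega
      exact Prod.ext hyy.1 (Prod.ext hyy.2 h4)
  refine h1.trans ?_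
  rw [card_product, card_product, card_product, card_range]
  calc Q.card * (Q.card * Q.card) * H ≤ L * (L * L) * H := by gcongr
    _ = L ^ 3 * H := by ring

private lemma fej_second {K H T L : ℕ} (hHT : 2 * (H * K ^ 3) < T)
    (hL : ∀ m : ℕ, m ≠ 0 → m ≤ H * K ^ 3 → m.primeFactors.card ≤ L) :
    ((fejX K H ×ˢ fejX K H).filter fun x => (T : ℤ) ∣ fejn x.1 + fejn x.2).card ≤
      ((prs K).card ^ 3 * H) ^ 2 + (prs K).card ^ 3 * H ^ 2 * (L ^ 3 * H) := by
  set X := fejX K H with hX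
  have hzero : ∀ x ∈ X, ∀ y ∈ X, (T : ℤ) ∣ fejn x + fejn y → fejn y = -fejn x := by
    intro x hx y hy h
    have e1 := fejn_abs hx
    have e2 := fejn_abs hy
    have e3 : fejn x + fejn y = 0 := by
      refine Int.eq_zero_of_abs_lt_dvd h ?_
      have hT' : ((2 * (H * K ^ 3) : ℕ) : ℤ) < T := by exact_mod_cast hHT
      have := abs_add_le (fejn x) (fejn y)
      push_cast at *
      linarith only [hHT, this, e1, e2]
    linarith only [e3]
  have h1 : ((X ×ˢ X).filter fun x => (T : ℤ) ∣ fejn x.1 + fejn x.2).card =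
      ∑ x ∈ X, (X.filter fun y => (T : ℤ) ∣ fejn x + fejn y).card := by
    rw [Finset.card_filter, Finset.sum_product]
    refine Finset.sum_congr rfl fun x _ => ?_
    rw [Finset.card_filter]
  rw [h1, ← Finset.sum_filter_add_sum_filter_not X (fun x => x.2.1 = x.2.2)]
  have hd : (X.filter fun x => x.2.1 = x.2.2).card = (prs K).card ^ 3 * H := fej_card_diag K H
  refine add_le_add ?_ ?_
  · calc ∑ x ∈ X.filter (fun x => x.2.1 = x.2.2), (X.filter fun y => (T : ℤ) ∣ fejn x + fejn y).card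
        ≤ ∑ x ∈ X.filter (fun x => x.2.1 = x.2.2), (prs K).card ^ 3 * H := by
          refine Finset.sum_le_sum fun x hx => ?_
          rw [mem_filter] at hx
          rw [← hd]
          refine Finset.card_le_card fun y hy => ?_
          rw [mem_filter] at hy ⊢
          refine ⟨hy.1, ?_⟩
          have h2 := hzero x hx.1 y hy.1 hy.2
          rw [(fejn_zero hx.1).2 hx.2, neg_zero] at h2
          exact (fejn_zero hy.1).1 h2
      _ = ((prs K).card ^ 3 * H) ^ 2 := by
          rw [Finset.sum_const, hd, smul_eq_mul]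
          ring
  · calc ∑ x ∈ X.filter (fun x => ¬ x.2.1 = x.2.2), (X.filter fun y => (T : ℤ) ∣ fejn x + fejn y).card
        ≤ ∑ x ∈ X.filter (fun x => ¬ x.2.1 = x.2.2), L ^ 3 * H := by
          refine Finset.sum_le_sum fun x hx => ?_
          rw [mem_filter] at hx
          have hx0 : fejn x ≠ 0 := fun h => hx.2 ((fejn_zero hx.1).1 h)
          have hxL : (fejn x).natAbs.primeFactors.card ≤ L := by
            refine hL _ (Int.natAbs_ne_zero.2 hx0) ?_
            have := fejn_abs hx.1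
            rw [Int.abs_eq_natAbs] at this
            exact_mod_cast this
          refine le_trans (Finset.card_le_card fun y hy => ?_) (fej_count_off (K := K) hx0 hxL)
          rw [mem_filter] at hy ⊢
          exact ⟨hy.1, hzero x hx.1 y hy.1 hy.2⟩
      _ ≤ (prs K).card ^ 3 * H ^ 2 * (L ^ 3 * H) := by
          rw [Finset.sum_const, smul_eq_mul]
          refine Nat.mul_le_mul_right _ ?_
          refine (Finset.card_filter_le _ _).trans ?_
          rw [hX]
          unfold fejX fejTr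
          rw [card_product, card_product, card_product, card_product, card_range]
          apply le_of_eq
          ring

/-- the basic inequality -/
private lemma fej_main {K k T L : ℕ} (hk : 0 < k) (hHT : 2 * (8 * k ^ 2 * K ^ 3) < T)
    (hL : ∀ m : ℕ, m ≠ 0 → m ≤ 8 * k ^ 2 * K ^ 3 → m.primeFactors.card ≤ L)
    (hP : 0 < (prs K).card) :
    (((range T).filter fun d => ∀ p ∈ prs K, ∀ q ∈ prs K, ∀ r ∈ prs K,
      T ≤ 4 * k * ((p * q * r * d) % T) ∧ T ≤ 4 * k * (T - (p * q * r * d) % T)).card : ℝ) *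
      ((prs K).card : ℝ) ^ 3 ≤ T * (32 * (k : ℝ) ^ 2 * (L : ℝ) ^ 3) := by
  have hT : T ≠ 0 := by omega
  set H : ℕ := 8 * k ^ 2 with hH
  set P : ℕ := (prs K).card with hPdef
  set B := (range T).filter fun d => ∀ p ∈ prs K, ∀ q ∈ prs K, ∀ r ∈ prs K,
      T ≤ 4 * k * ((p * q * r * d) % T) ∧ T ≤ 4 * k * (T - (p * q * r * d) % T) with hB
  let w : ℕ → ℝ := fun d => ∑ t ∈ fejTr K, ‖∑ j ∈ range H, (fejz T ^ (fejc t * d)) ^ j‖ ^ 2
  have hw : ∀ d, (w d : ℂ) = ∑ x ∈ fejX K H, (fejz T ^ fejn x) ^ d := by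
    intro d
    unfold fejX
    rw [Finset.sum_product]
    show ((∑ t ∈ fejTr K, ‖∑ j ∈ range H, (fejz T ^ (fejc t * d)) ^ j‖ ^ 2 : ℝ) : ℂ) = _
    rw [Complex.ofReal_sum]
    refine Finset.sum_congr rfl fun t _ => ?_
    have hn : ‖fejz T ^ (fejc t * d)‖ = 1 := by
      rw [norm_pow, fejer_norm hT, one_pow]
    rw [fejer_normsq hn]
    refine Finset.sum_congr rfl fun y _ => ?_
    unfold fejn
    rw [← zpow_natCast, ← zpow_natCast, ← zpow_mul, ← zpow_mul]
    congr 1
    push_cast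
    ring
  obtain ⟨hm1, hm2⟩ := fejer_moments hT (fejX K H) fejn w hw
  have hX1 : ((P ^ 3 * H : ℕ) : ℝ) ≤
      (((fejX K H).filter fun x => (T : ℤ) ∣ fejn x).card : ℝ) := by
    rw [hPdef, ← fej_card_diag K H]
    norm_cast
    refine Finset.card_le_card fun x hx => ?_
    rw [mem_filter] at hx ⊢
    refine ⟨hx.1, ?_⟩
    rw [(fejn_zero hx.1).2 hx.2]
    exact dvd_zero _
  have hX2 : (((fejX K H ×ˢ fejX K H).filter fun x => (T : ℤ) ∣ fejn x.1 + fejn x.2).card : ℝ) ≤
      ((P ^ 3 * H) ^ 2 + P ^ 3 * H ^ 2 * (L ^ 3 * H) : ℕ) := by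
    exact_mod_cast fej_second (K := K) (H := H) (T := T) (L := L) hHT hL
  have hT' : (0 : ℝ) < T := by exact_mod_cast Nat.pos_of_ne_zero hT
  have hP' : (0 : ℝ) < P := by exact_mod_cast hP
  have hH' : (0 : ℝ) < H := by
    have : 0 < H := by positivity
    exact_mod_cast this
  push_cast at hX1 hX2
  -- variance
  have hvar : ∑ d ∈ range T, (w d - H * (P : ℝ) ^ 3) ^ 2 ≤
      T * ((P : ℝ) ^ 3 * H ^ 2 * (L ^ 3 * H)) := by
    have e : ∑ d ∈ range T, (w d - H * (P : ℝ) ^ 3) ^ 2 =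
        ∑ d ∈ range T, (w d) ^ 2 - 2 * (H * (P : ℝ) ^ 3) * ∑ d ∈ range T, w d +
          T * (H * (P : ℝ) ^ 3) ^ 2 := by
      rw [Finset.mul_sum, ← Finset.sum_sub_distrib]
      have : (T : ℝ) * (H * (P : ℝ) ^ 3) ^ 2 = ∑ _d ∈ range T, (H * (P : ℝ) ^ 3) ^ 2 := by
        rw [Finset.sum_const, card_range, nsmul_eq_mul]
      rw [this, ← Finset.sum_add_distrib]
      refine Finset.sum_congr rfl fun d _ => ?_
      ring
    rw [e, hm1, hm2]
    have a1 := mul_le_mul_of_nonneg_left hX2 hT'.le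
    have a2 := mul_le_mul_of_nonneg_left hX1
      (show (0 : ℝ) ≤ 2 * (H * (P : ℝ) ^ 3) * T by positivity)
    nlinarith only [a1, a2]
  -- lower bound on B
  have hlow : ∀ d ∈ B, (H * (P : ℝ) ^ 3) ^ 2 / 4 ≤ (w d - H * (P : ℝ) ^ 3) ^ 2 := by
    intro d hd
    rw [hB, mem_filter] at hd
    have hwd : w d ≤ H * (P : ℝ) ^ 3 / 2 := by
      have h1 : w d ≤ ∑ t ∈ fejTr K, (2 * (k : ℝ)) ^ 2 := by
        refine Finset.sum_le_sum fun t ht => ?_
        unfold fejTr at ht
        rw [mem_product, mem_product] at ht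
        have h2 := hd.2 t.1 ht.1 t.2.1 ht.2.1 t.2.2 ht.2.2
        have h3 := fejer_geom (H := H) hT hk (c := fejc t * d) (by
          unfold fejc
          exact h2.1) (by
          unfold fejc
          exact h2.2)
        exact pow_le_pow_left₀ (norm_nonneg _) h3 2
      refine h1.trans (le_of_eq ?_)
      unfold fejTr
      rw [Finset.sum_const, card_product, card_product, nsmul_eq_mul, ← hPdef, hH]
      push_cast
      ring
    have h0 : 0 ≤ H * (P : ℝ) ^ 3 / 2 := by positivity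
    nlinarith only [hwd, h0]
  have hsum : (B.card : ℝ) * ((H * (P : ℝ) ^ 3) ^ 2 / 4) ≤
      T * ((P : ℝ) ^ 3 * H ^ 2 * (L ^ 3 * H)) := by
    refine le_trans ?_ hvar
    rw [← nsmul_eq_mul, ← Finset.sum_const]
    refine le_trans (Finset.sum_le_sum hlow) ?_
    refine Finset.sum_le_sum_of_subset_of_nonneg (Finset.filter_subset _ _) ?_
    intro d _ _
    positivity
  have hfac : (0 : ℝ) < H ^ 2 * (P : ℝ) ^ 3 / 4 := by positivity
  have e1 : (B.card : ℝ) * ((H * (P : ℝ) ^ 3) ^ 2 / 4) =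
      ((B.card : ℝ) * (P : ℝ) ^ 3) * (H ^ 2 * (P : ℝ) ^ 3 / 4) := by ring
  have e2 : T * ((P : ℝ) ^ 3 * H ^ 2 * ((L : ℝ) ^ 3 * H)) =
      (T * (4 * (L : ℝ) ^ 3 * H)) * (H ^ 2 * (P : ℝ) ^ 3 / 4) := by ring
  rw [e1, e2] at hsum
  have h4 := le_of_mul_le_mul_right hsum hfac
  refine h4.trans (le_of_eq ?_)
  rw [hH]
  push_cast
  ring

/-! ## numerics -/

private lemma fej_pi : ∀ x : ℕ, 100 ≤ x → x / (2 * Real.log x) ≤ ((prs x).card : ℝ) := by
  intro x hx
  have hx1 : (100 : ℝ) ≤ x := by exact_mod_cast hx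
  have hlog : 0 < Real.log x := Real.log_pos (by linarith only [hx1])
  have hcard : (prs x).card = Nat.primeCounting x := by
    unfold prs Nat.primeCounting Nat.primeCounting'
    rw [Nat.count_eq_card_filter_range]
  rw [hcard]
  refine le_trans ?_ (Chebyshev.pi_ge x)
  have h1 : Real.log ((x : ℝ) + 1) ≤ ((x : ℝ) + 1) / 16 - 1 + 4 * Real.log 2 := by
    have h2 : Real.log (((x : ℝ) + 1) / 16) ≤ ((x : ℝ) + 1) / 16 - 1 :=
      Real.log_le_sub_one_of_pos (by positivity)
    rw [Real.log_div (by positivity) (by norm_num)] at h2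
    have h3 : Real.log (16 : ℝ) = 4 * Real.log 2 := by
      rw [show (16 : ℝ) = 2 ^ 4 by norm_num, Real.log_pow]
      norm_num
    linarith only [h2, h3]
  have h2 := Real.log_two_gt_d9
  have h3 := Real.log_two_lt_d9
  have h4 : (x : ℝ) / 2 ≤ x * Real.log 2 - Real.log ((x : ℝ) + 1) := by nlinarith only [hx1, h1, h2, h3]
  have h5 : (x : ℝ) / (2 * Real.log x) = ((x : ℝ) / 2) / Real.log x := by
    field_simp
  rw [h5]
  exact div_le_div_of_nonneg_right h4 hlog.le

private lemma fej_log : ∃ K0 : ℕ, ∀ K : ℕ, K0 ≤ K →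
    200000 * (Real.log K) ^ 6 ≤ (K : ℝ) ^ (1 / 4 : ℝ) := by
  have h := (isLittleO_log_rpow_rpow_atTop (6 : ℝ) (show (0 : ℝ) < 1 / 4 by norm_num)).bound
    (show (0 : ℝ) < 1 / 200000 by norm_num)
  have h2 := tendsto_natCast_atTop_atTop (R := ℝ) |>.eventually h
  rw [Filter.eventually_atTop] at h2
  obtain ⟨a, ha⟩ := h2
  refine ⟨max a 1, fun K hK => ?_⟩
  have h3 := ha K (le_trans (le_max_left _ _) hK)
  have hK1 : (1 : ℝ) ≤ K := by exact_mod_cast le_trans (le_max_right _ _) hK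
  have hl : 0 ≤ Real.log K := Real.log_nonneg hK1
  rw [Real.norm_of_nonneg (Real.rpow_nonneg hl _), Real.norm_of_nonneg (by positivity)] at h3
  have e : Real.log K ^ (6 : ℝ) = Real.log K ^ 6 := by
    rw [← Real.rpow_natCast]
    norm_num
  rw [e] at h3
  linarith only [h3]

theorem fejer : ∃ K0 : ℕ, ∀ K ≥ K0, ∀ k T : ℕ, 0 < k → k ^ 4 ≤ K ^ 5 → K ^ 6 ≤ T →
    (((range T).filter fun d => ∀ p ∈ prs K, ∀ q ∈ prs K, ∀ r ∈ prs K,
      T ≤ 4 * k * ((p * q * r * d) % T) ∧ T ≤ 4 * k * (T - (p * q * r * d) % T)).card : ℝ) ≤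
    T * (K : ℝ) ^ (-(1 / 4) : ℝ) := by
  obtain ⟨K1, hK1⟩ := fej_log
  refine ⟨max K1 1000, fun K hK k T hk hkK hKT => ?_⟩
  have hKa : K1 ≤ K := le_trans (le_max_left _ _) hK
  have hKb : 1000 ≤ K := le_trans (le_max_right _ _) hK
  have hKr : (1000 : ℝ) ≤ K := by exact_mod_cast hKb
  have hlog : 0 < Real.log K := Real.log_pos (by linarith only [hKr])
  -- 16 k ^ 2 < K ^ 3
  have h16 : 16 * k ^ 2 < K ^ 3 := by
    refine lt_of_pow_lt_pow_left₀ 2 (by positivity) ?_
    calc (16 * k ^ 2) ^ 2 = 256 * k ^ 4 := by ring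
      _ ≤ 256 * K ^ 5 := by gcongr
      _ < K * K ^ 5 := by
          apply Nat.mul_lt_mul_of_pos_right (by omega)
          positivity
      _ = (K ^ 3) ^ 2 := by ring
  have hHT : 2 * (8 * k ^ 2 * K ^ 3) < T := by
    calc 2 * (8 * k ^ 2 * K ^ 3) = (16 * k ^ 2) * K ^ 3 := by ring
      _ < K ^ 3 * K ^ 3 := by
          apply Nat.mul_lt_mul_of_pos_right h16
          positivity
      _ = K ^ 6 := by ring
      _ ≤ T := hKT
  have hHK : 8 * k ^ 2 * K ^ 3 ≤ K ^ 6 := by
    have : 2 * (8 * k ^ 2 * K ^ 3) ≤ K ^ 6 := by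
      calc 2 * (8 * k ^ 2 * K ^ 3) = (16 * k ^ 2) * K ^ 3 := by ring
        _ ≤ K ^ 3 * K ^ 3 := Nat.mul_le_mul_right _ h16.le
        _ = K ^ 6 := by ring
    omega
  set L : ℕ := Nat.log 2 (K ^ 6) with hLdef
  have hL : ∀ m : ℕ, m ≠ 0 → m ≤ 8 * k ^ 2 * K ^ 3 → m.primeFactors.card ≤ L := by
    intro m hm hmK
    exact Nat.le_log_of_pow_le (by norm_num) ((fej_omega hm).trans (hmK.trans hHK))
  have hLr : (L : ℝ) ≤ 9 * Real.log K := by
    have h1 : 2 ^ L ≤ K ^ 6 := Nat.pow_log_le_self 2 (by positivity)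
    have h2 : ((2 : ℝ)) ^ L ≤ (K : ℝ) ^ 6 := by exact_mod_cast h1
    have h3 := Real.log_le_log (by positivity) h2
    rw [Real.log_pow, Real.log_pow] at h3
    have h4 := Real.log_two_gt_d9
    have h5 : (L : ℝ) * 0.69 ≤ (L : ℝ) * Real.log 2 :=
      mul_le_mul_of_nonneg_left (by linarith only [h4]) (Nat.cast_nonneg _)
    push_cast at h3
    nlinarith only [hlog, h3, h5]
  have hPi := fej_pi K (by omega)
  have hP0 : (0 : ℝ) < (prs K).card := lt_of_lt_of_le (by positivity) hPi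
  have hP : 0 < (prs K).card := by exact_mod_cast hP0
  have hmain := fej_main hk hHT hL hP
  have hPi3 : (K : ℝ) ^ 3 / (8 * (Real.log K) ^ 3) ≤ ((prs K).card : ℝ) ^ 3 := by
    have := pow_le_pow_left₀ (by positivity) hPi 3
    refine le_trans (le_of_eq ?_) this
    field_simp
    norm_num
  have hk2 : (k : ℝ) ^ 2 ≤ (K : ℝ) ^ (5 / 2 : ℝ) := by
    have h1 : ((k : ℝ) ^ 2) ^ 2 ≤ ((K : ℝ) ^ (5 / 2 : ℝ)) ^ 2 := by
      rw [← Real.rpow_natCast ((K : ℝ) ^ (5 / 2 : ℝ)) 2, ← Real.rpow_mul (by positivity)]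
      have e : (5 / 2 : ℝ) * ((2 : ℕ) : ℝ) = ((5 : ℕ) : ℝ) := by norm_num
      rw [e, Real.rpow_natCast]
      have : ((k : ℝ)) ^ 4 ≤ (K : ℝ) ^ 5 := by exact_mod_cast hkK
      calc ((k : ℝ) ^ 2) ^ 2 = (k : ℝ) ^ 4 := by ring
        _ ≤ _ := this
    exact le_of_sq_le_sq h1 (by positivity)
  have hL3 : (L : ℝ) ^ 3 ≤ 729 * (Real.log K) ^ 3 := by
    calc (L : ℝ) ^ 3 ≤ (9 * Real.log K) ^ 3 := pow_le_pow_left₀ (Nat.cast_nonneg _) hLr 3
      _ = 729 * (Real.log K) ^ 3 := by ring
  have hlg := hK1 K hKa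
  set b : ℝ := (((range T).filter fun d => ∀ p ∈ prs K, ∀ q ∈ prs K, ∀ r ∈ prs K,
      T ≤ 4 * k * ((p * q * r * d) % T) ∧ T ≤ 4 * k * (T - (p * q * r * d) % T)).card : ℝ) with hb
  have hb0 : 0 ≤ b := Nat.cast_nonneg _
  have hT' : (0 : ℝ) ≤ T := Nat.cast_nonneg _
  have hKp : (0 : ℝ) < K := by linarith only [hKr]
  -- b * K^3/(8 log^3) <= T * 32 * K^(5/2) * 729 log^3
  have h5 : b * ((K : ℝ) ^ 3 / (8 * (Real.log K) ^ 3)) ≤
      T * (32 * (K : ℝ) ^ (5 / 2 : ℝ) * (729 * (Real.log K) ^ 3)) := by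
    calc b * ((K : ℝ) ^ 3 / (8 * (Real.log K) ^ 3)) ≤ b * ((prs K).card : ℝ) ^ 3 :=
          mul_le_mul_of_nonneg_left hPi3 hb0
      _ ≤ T * (32 * (k : ℝ) ^ 2 * (L : ℝ) ^ 3) := hmain
      _ ≤ T * (32 * (K : ℝ) ^ (5 / 2 : ℝ) * (729 * (Real.log K) ^ 3)) := by gcongr
  have h6 : b ≤ T * (186624 * (Real.log K) ^ 6 * (K : ℝ) ^ (-(1 / 2) : ℝ)) := by
    have hpos : 0 < (K : ℝ) ^ 3 / (8 * (Real.log K) ^ 3) := by positivity
    refine le_of_mul_le_mul_right (h5.trans (le_of_eq ?_)) hpos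
    have e : (K : ℝ) ^ (5 / 2 : ℝ) = (K : ℝ) ^ (-(1 / 2) : ℝ) * (K : ℝ) ^ 3 := by
      rw [← Real.rpow_natCast (K : ℝ) 3, ← Real.rpow_add hKp]
      norm_num
    rw [e]
    field_simp
    ring
  refine h6.trans ?_
  refine mul_le_mul_of_nonneg_left ?_ hT'
  have e2 : (K : ℝ) ^ (-(1 / 4) : ℝ) = (K : ℝ) ^ (1 / 4 : ℝ) * (K : ℝ) ^ (-(1 / 2) : ℝ) := by
    rw [← Real.rpow_add hKp]
    norm_num
  rw [e2]
  refine mul_le_mul_of_nonneg_right ?_ (by positivity)
  have : 0 ≤ (Real.log K) ^ 6 := by positivity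
  linarith only [hlg, this]

end Pool.Agent.H11.LQ

end

section

/-!
# LQ module Hit: residues whose base `T` digits are all in a given set

`hit`: the digits of `a / m`: `d_j = (T * ((T ^ j * a) % m)) / m < T`.  By
`(T ^ (j + 1) * a) / m = T * ((T ^ j * a) / m) + d_j` the digits `d_0, …, d_(b-1)` determine
`(T ^ b * a) / m`, and at most `m / T ^ b + 1 ≤ 2 m / T ^ b` residues `a < m` have a given value of
`(T ^ b * a) / m`.  There are at most `G.card ^ b` strings of digits.

`digit`: put `e = T s - m d`, `0 ≤ e < m`, and `l s = q m + t`, `t = (l s) % m`.  Then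
`m (l d) = T q m + (T t - l e)`, and `T / 4k ≤ (T t - l e) / m ≤ T - T / 2k` because
`T t / m ≥ T / 2k`, `T t / m ≤ T - T / 2k`, `0 ≤ l e / m < l ≤ T / 4k`.  So `(l d) % T = l d - T q`.
-/

set_option autoImplicit false

namespace Pool.Agent.H11.LQ

open Finset

private theorem hit_fib {m t v : ℕ} (ht : t ≤ m) (A : Finset ℕ)
    (hA : ∀ a ∈ A, (t * a) / m = v) (hm : 0 < m) : A.card * t ≤ 2 * m := by
  rcases A.eq_empty_or_nonempty with rfl | hne
  · simp
  have h1 : A ⊆ Icc (A.min' hne) (A.max' hne) := fun a ha =>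
    mem_Icc.2 ⟨A.min'_le a ha, A.le_max' a ha⟩
  have h2 : A.card ≤ A.max' hne + 1 - A.min' hne := by
    simpa using card_le_card h1
  have h3 := hA _ (A.min'_mem hne)
  have h4 := hA _ (A.max'_mem hne)
  have h5 : A.min' hne ≤ A.max' hne := A.min'_le_max' hne
  generalize A.min' hne = x at *
  generalize A.max' hne = y at *
  have h6 : m * v ≤ t * x := by rw [← h3]; exact Nat.mul_div_le _ _
  have h7 : t * y < m * v + m := by
    rw [← h4]
    have := Nat.lt_mul_div_succ (t * y) hm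
    rwa [Nat.mul_succ] at this
  obtain ⟨d, rfl⟩ := Nat.exists_eq_add_of_le h5
  have h8 : A.card ≤ d + 1 := by omega
  have h9 : t * (x + d) = t * x + t * d := by ring
  calc A.card * t ≤ (d + 1) * t := Nat.mul_le_mul_right _ h8
    _ = t * d + t := by ring
    _ ≤ 2 * m := by omega

private theorem hit_img {m T : ℕ} (hm : 0 < m) (G S : Finset ℕ) (hS : S ⊆ range m) (b : ℕ)
    (h : ∀ a ∈ S, ∀ j < b, (T * ((T ^ j * a) % m)) / m ∈ G) :
    (S.image (fun a => (T ^ b * a) / m)).card ≤ G.card ^ b := by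
  induction b with
  | zero =>
    have : S.image (fun a => (T ^ 0 * a) / m) ⊆ {0} := by
      intro v hv
      rw [mem_image] at hv
      obtain ⟨a, ha, rfl⟩ := hv
      rw [mem_singleton, pow_zero, one_mul]
      exact Nat.div_eq_of_lt (mem_range.1 (hS ha))
    simpa using card_le_card this
  | succ b ih =>
    have ih' := ih fun a ha j hj => h a ha j (by omega)
    have hsub : S.image (fun a => (T ^ (b + 1) * a) / m) ⊆
        ((S.image (fun a => (T ^ b * a) / m)) ×ˢ G).image (fun x => T * x.1 + x.2) := by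
      intro v hv
      rw [mem_image] at hv
      obtain ⟨a, ha, rfl⟩ := hv
      rw [mem_image]
      refine ⟨((T ^ b * a) / m, (T * ((T ^ b * a) % m)) / m), ?_, ?_⟩
      · rw [mem_product]
        exact ⟨mem_image.2 ⟨a, ha, rfl⟩, h a ha b (by omega)⟩
      · have e1 : T ^ (b + 1) * a = T * ((T ^ b * a) % m) + m * (T * ((T ^ b * a) / m)) := by
          calc T ^ (b + 1) * a = T * (T ^ b * a) := by ring
            _ = T * ((T ^ b * a) % m + m * ((T ^ b * a) / m)) := by rw [Nat.mod_add_div]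
            _ = _ := by ring
        simp only
        rw [e1, Nat.add_mul_div_left _ _ hm, add_comm]
    calc (S.image (fun a => (T ^ (b + 1) * a) / m)).card
        ≤ (((S.image (fun a => (T ^ b * a) / m)) ×ˢ G).image (fun x => T * x.1 + x.2)).card :=
          card_le_card hsub
      _ ≤ ((S.image (fun a => (T ^ b * a) / m)) ×ˢ G).card := card_image_le
      _ = (S.image (fun a => (T ^ b * a) / m)).card * G.card := card_product _ _
      _ ≤ G.card ^ b * G.card := Nat.mul_le_mul_right _ ih'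
      _ = G.card ^ (b + 1) := (pow_succ _ _).symm

theorem hit {m T b : ℕ} (hT : 2 ≤ T) (hm : T ^ b ≤ m) (G S : Finset ℕ) (hS : S ⊆ range m)
    (h : ∀ a ∈ S, ∀ j < b, (T * ((T ^ j * a) % m)) / m ∈ G) :
    S.card * T ^ b ≤ 2 * m * G.card ^ b := by
  have hT0 : 0 < T := by omega
  have hm0 : 0 < m := lt_of_lt_of_le (pow_pos hT0 b) hm
  have h1 := card_eq_sum_card_image (fun a => (T ^ b * a) / m) S
  calc S.card * T ^ b
      = ∑ v ∈ S.image (fun a => (T ^ b * a) / m),
          (S.filter (fun a => (T ^ b * a) / m = v)).card * T ^ b := by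
        rw [← sum_mul, ← h1]
    _ ≤ ∑ _v ∈ S.image (fun a => (T ^ b * a) / m), 2 * m := by
        apply sum_le_sum
        intro v _
        exact hit_fib hm _ (fun a ha => (mem_filter.1 ha).2) hm0
    _ = (S.image (fun a => (T ^ b * a) / m)).card * (2 * m) := by
        rw [sum_const, smul_eq_mul]
    _ ≤ G.card ^ b * (2 * m) := Nat.mul_le_mul_right _ (hit_img hm0 G S hS b h)
    _ = 2 * m * G.card ^ b := mul_comm _ _

theorem digit {m T k l s : ℕ} (hm : 0 < m) (hk : 0 < k) (hl : 0 < l) (hT : 4 * k * l ≤ T)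
    (hs : s < m) (h1 : m ≤ 2 * k * ((l * s) % m)) (h2 : m ≤ 2 * k * (m - (l * s) % m)) :
    T * s / m < T ∧ T ≤ 4 * k * ((l * (T * s / m)) % T) ∧
      T ≤ 4 * k * (T - (l * (T * s / m)) % T) := by
  have hkl : 0 < k * l := Nat.mul_pos hk hl
  have hT0 : 0 < T := by
    have : 4 * k * l = 4 * (k * l) := by ring
    omega
  have hD : T * s / m < T := by
    rw [Nat.div_lt_iff_lt_mul hm]
    exact Nat.mul_lt_mul_of_pos_left hs hT0
  refine ⟨hD, ?_⟩
  have hr : (l * s) % m < m := Nat.mod_lt _ hm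
  have he : (T * s) % m < m := Nat.mod_lt _ hm
  have e1 := Nat.mod_add_div (l * s) m
  have e2 := Nat.mod_add_div (T * s) m
  generalize (l * s) % m = r at *
  generalize (l * s) / m = q at *
  generalize (T * s) % m = e at *
  generalize (T * s) / m = D at *
  -- the identity
  have E : m * (l * D) + l * e = m * (T * q) + T * r := by
    calc m * (l * D) + l * e = l * (e + m * D) := by ring
      _ = T * (l * s) := by rw [e2]; ring
      _ = T * (r + m * q) := by rw [e1]
      _ = _ := by ring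
  have hle : 4 * k * (l * e) ≤ T * m := by
    calc 4 * k * (l * e) = (4 * k * l) * e := by ring
      _ ≤ T * m := Nat.mul_le_mul hT he.le
  have hTr : 2 * (T * m) ≤ 4 * k * (T * r) := by
    calc 2 * (T * m) = 2 * T * m := by ring
      _ ≤ 2 * T * (2 * k * r) := Nat.mul_le_mul_left _ h1
      _ = _ := by ring
  have hle2 : l * e ≤ T * r := by
    have : 4 * k * (l * e) ≤ 4 * k * (T * r) := by omega
    exact Nat.le_of_mul_le_mul_left this (by omega)
  have hq : T * q ≤ l * D := by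
    have : m * (T * q) ≤ m * (l * D) := by omega
    exact Nat.le_of_mul_le_mul_left this hm
  obtain ⟨w, hw⟩ := Nat.exists_eq_add_of_le hq
  have Ew : m * w + l * e = T * r := by
    rw [hw, Nat.mul_add] at E
    omega
  have hw1 : T ≤ 4 * k * w := by
    have h3 : m * T ≤ m * (4 * k * w) := by
      have h4 : 4 * k * (m * w) + 4 * k * (l * e) = 4 * k * (T * r) := by
        rw [← Ew]; ring
      have h5 : m * (4 * k * w) = 4 * k * (m * w) := by ring
      have h6 : m * T = T * m := mul_comm _ _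
      omega
    exact Nat.le_of_mul_le_mul_left h3 hm
  have hrm : T * r ≤ T * m := Nat.mul_le_mul_left _ hr.le
  have hwT : w ≤ T := by
    have h3 : m * w ≤ m * T := by
      rw [mul_comm m T]; omega
    exact Nat.le_of_mul_le_mul_left h3 hm
  obtain ⟨u, hu⟩ := Nat.exists_eq_add_of_le hwT
  obtain ⟨z, hz⟩ := Nat.exists_eq_add_of_le hr.le
  have hz' : m - r = z := by omega
  rw [hz'] at h2
  have hw2 : T ≤ 2 * k * u := by
    have h3 : m * T ≤ m * (2 * k * u) := by
      have h4 : m * u = T * z + l * e := by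
        have h5 : m * T = m * w + m * u := by rw [← Nat.mul_add, ← hu]
        have h6 : T * m = T * r + T * z := by rw [← Nat.mul_add, ← hz]
        rw [mul_comm T m] at h6
        omega
      calc m * T = T * m := mul_comm _ _
        _ ≤ T * (2 * k * z) := Nat.mul_le_mul_left _ h2
        _ = 2 * k * (T * z) := by ring
        _ ≤ 2 * k * (m * u) := Nat.mul_le_mul_left _ (by omega)
        _ = m * (2 * k * u) := by ring
    exact Nat.le_of_mul_le_mul_left h3 hm
  have hu0 : 0 < u := by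
    rcases Nat.eq_zero_or_pos u with h0 | h0
    · rw [h0, mul_zero] at hw2; omega
    · exact h0
  have hmod : (l * D) % T = w := by
    rw [hw, Nat.mul_add_mod]
    exact Nat.mod_eq_of_lt (by omega)
  rw [hmod]
  refine ⟨hw1, ?_⟩
  have hTw : T - w = u := by omega
  rw [hTw]
  calc T ≤ 2 * k * u := hw2
    _ ≤ 4 * k * u := Nat.mul_le_mul_right _ (by omega)

end Pool.Agent.H11.LQ

end

section

/-!
# LC Mertens: Chebyshev and Mertens estimates

* `cheb_theta`: `Chebyshev.theta_le_log4_mul_x` (`θ x ≤ log 4 * x`, `log 4 < 2`).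
* `cheb_pi`: in Mathlib (file NumberTheory/Chebyshev.lean, look for `primeCounting`), or: the primes in `(√n, n]` number at
  most `θ(n) / log √n`, plus `√n`.
* `mertens`: `∑_{d ≤ n} Λ(d)/d = log n + O(1)` follows from `log n! = ∑_{d ≤ n} Λ(d) ⌊n/d⌋`, `log n! = n log n + O(n)`, `ψ(n) = O(n)`;
  the non-prime prime powers contribute a convergent sum
  (`ArithmeticFunction.vonMangoldt.summable_residueClass_non_primes_div` with modulus 1, or `∑ log p / (p (p-1))`).
  The file Pool/Agent/H91/GoldMertens.lean (in the graded repository) contains `Mt_ge`, `Mt_le` for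
  `Mt n = ∑_{d ≤ n} Λ d / d`; you may import it.
-/

set_option autoImplicit false

open Finset

namespace Pool.Agent.H3.LC

open scoped ArithmeticFunction.vonMangoldt in
theorem mertens_log_fact_eq (n : ℕ) :
    ∑ k ∈ Ioc 0 n, Real.log k = ∑ d ∈ Ioc 0 n, Λ d * ((n / d : ℕ) : ℝ) := by
  rw [← ArithmeticFunction.sum_Ioc_mul_zeta_eq_sum, ArithmeticFunction.vonMangoldt_mul_zeta]
  rfl

theorem mertens_log_fact_ge (n : ℕ) (hn : 1 ≤ n) :
    n * Real.log n - n ≤ ∑ k ∈ Ioc 0 n, Real.log k := by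
  induction n, hn using Nat.le_induction with
  | base => simp
  | succ n hn ih =>
    rw [sum_Ioc_succ_top (by omega)]
    have hn0 : (0 : ℝ) < n := by exact_mod_cast hn
    have h1 : Real.log ((n + 1 : ℕ) : ℝ) - Real.log n ≤ 1 / n := by
      rw [← Real.log_div (by positivity) hn0.ne']
      have := Real.log_le_sub_one_of_pos (x := ((n + 1 : ℕ) : ℝ) / n) (by positivity)
      have e : ((n + 1 : ℕ) : ℝ) / n - 1 = 1 / n := by push_cast; field_simp; ring
      linarith
    have h2 : (n : ℝ) * (Real.log ((n + 1 : ℕ) : ℝ) - Real.log n) ≤ 1 := by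
      calc (n : ℝ) * (Real.log ((n + 1 : ℕ) : ℝ) - Real.log n) ≤ n * (1 / n) :=
            mul_le_mul_of_nonneg_left h1 hn0.le
        _ = 1 := by field_simp
    push_cast at *
    nlinarith

open scoped ArithmeticFunction.vonMangoldt in
/-- the sum of `Λ d / d`, `d ≤ n` -/
noncomputable def mertensM (n : ℕ) : ℝ := ∑ d ∈ Ioc 0 n, Λ d / d

open scoped ArithmeticFunction.vonMangoldt in
theorem mertensM_ge (n : ℕ) (hn : 1 ≤ n) : Real.log n - 1 ≤ mertensM n := by
  have hn0 : (0 : ℝ) < n := by exact_mod_cast hn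
  have h1 := mertens_log_fact_ge n hn
  rw [mertens_log_fact_eq] at h1
  have h2 : ∑ d ∈ Ioc 0 n, Λ d * ((n / d : ℕ) : ℝ) ≤ n * mertensM n := by
    unfold mertensM
    rw [mul_sum]
    apply sum_le_sum
    intro d _
    have := @Nat.cast_div_le ℝ _ _ _ n d
    calc Λ d * ((n / d : ℕ) : ℝ) ≤ Λ d * ((n : ℝ) / d) :=
          mul_le_mul_of_nonneg_left this ArithmeticFunction.vonMangoldt_nonneg
      _ = n * (Λ d / d) := by ring
  have h3 : (n : ℝ) * (Real.log n - 1) ≤ n * mertensM n := by linarith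
  exact le_of_mul_le_mul_left h3 hn0

open scoped ArithmeticFunction.vonMangoldt in
theorem mertensM_le (n : ℕ) (hn : 1 ≤ n) : mertensM n ≤ Real.log n + (Real.log 4 + 4) := by
  have hn0 : (0 : ℝ) < n := by exact_mod_cast hn
  have hn1 : (1 : ℝ) ≤ n := by exact_mod_cast hn
  have h1 : ∑ k ∈ Ioc 0 n, Real.log k ≤ n * Real.log n := by
    calc ∑ k ∈ Ioc 0 n, Real.log k ≤ ∑ _k ∈ Ioc 0 n, Real.log n := by
          refine sum_le_sum fun k hk => ?_
          rw [mem_Ioc] at hk
          exact Real.log_le_log (by exact_mod_cast hk.1) (by exact_mod_cast hk.2)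
      _ = n * Real.log n := by rw [sum_const, Nat.card_Ioc, nsmul_eq_mul]; simp
  rw [mertens_log_fact_eq] at h1
  have h2 : n * mertensM n ≤ ∑ d ∈ Ioc 0 n, Λ d * ((n / d : ℕ) : ℝ) + ∑ d ∈ Ioc 0 n, Λ d := by
    unfold mertensM
    rw [mul_sum, ← sum_add_distrib]
    refine sum_le_sum fun d hd => ?_
    rw [mem_Ioc] at hd
    have hd0 : (0 : ℝ) < d := by exact_mod_cast hd.1
    have h3 : (n : ℝ) / d ≤ ((n / d : ℕ) : ℝ) + 1 := by
      rw [div_le_iff₀ hd0]
      have h4 : n < (n / d + 1) * d := by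
        have := Nat.div_add_mod n d
        have := Nat.mod_lt n hd.1
        nlinarith
      exact_mod_cast h4.le
    calc n * (Λ d / d) = Λ d * (n / d) := by ring
      _ ≤ Λ d * (((n / d : ℕ) : ℝ) + 1) :=
          mul_le_mul_of_nonneg_left h3 ArithmeticFunction.vonMangoldt_nonneg
      _ = _ := by ring
  have h3 : ∑ d ∈ Ioc 0 n, Λ d ≤ (Real.log 4 + 4) * n := by
    have := Chebyshev.psi_le_const_mul_self (x := (n : ℝ)) hn0.le
    rw [Chebyshev.psi, Nat.floor_natCast] at this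
    exact this
  have h4 : n * mertensM n ≤ n * (Real.log n + (Real.log 4 + 4)) := by linarith
  exact le_of_mul_le_mul_left h4 hn0

open scoped ArithmeticFunction.vonMangoldt in
theorem mertens : ∃ C : ℝ, 0 < C ∧ ∀ n : ℕ, 1 ≤ n →
    |∑ p ∈ (Icc 1 n).filter Nat.Prime, Real.log p / p - Real.log n| ≤ C := by
  have hs := ArithmeticFunction.vonMangoldt.summable_residueClass_non_primes_div (q := 1) 0
  have hr : ∀ n : ℕ, ArithmeticFunction.vonMangoldt.residueClass (0 : ZMod 1) n = Λ n := by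
    intro n
    unfold ArithmeticFunction.vonMangoldt.residueClass
    rw [Set.indicator_of_mem]
    exact Subsingleton.elim _ _
  simp only [hr] at hs
  have hnn : ∀ n : ℕ, 0 ≤ (if n.Prime then 0 else Λ n) / (n : ℝ) := by
    intro n
    split_ifs
    · simp
    · exact div_nonneg ArithmeticFunction.vonMangoldt_nonneg (Nat.cast_nonneg n)
  set D : ℝ := ∑' n : ℕ, (if n.Prime then 0 else Λ n) / (n : ℝ) with hD
  have hD0 : 0 ≤ D := tsum_nonneg hnn
  have hlog4 : 0 ≤ Real.log 4 := Real.log_nonneg (by norm_num)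
  refine ⟨D + Real.log 4 + 4, by linarith, fun n hn => ?_⟩
  have h1 := mertensM_ge n hn
  have h2 := mertensM_le n hn
  have e : Ioc 0 n = Icc 1 n := by
    ext k; simp only [mem_Ioc, mem_Icc]; omega
  have h3 : mertensM n = ∑ p ∈ (Icc 1 n).filter Nat.Prime, Real.log p / p +
      ∑ d ∈ Icc 1 n, (if d.Prime then 0 else Λ d) / (d : ℝ) := by
    unfold mertensM
    rw [e, sum_filter, ← sum_add_distrib]
    refine sum_congr rfl fun d _ => ?_
    split_ifs with h
    · rw [ArithmeticFunction.vonMangoldt_apply_prime h]; simp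
    · simp
  have h4 : ∑ d ∈ Icc 1 n, (if d.Prime then 0 else Λ d) / (d : ℝ) ≤ D :=
    hs.sum_le_tsum _ fun d _ => hnn d
  have h5 : 0 ≤ ∑ d ∈ Icc 1 n, (if d.Prime then 0 else Λ d) / (d : ℝ) :=
    sum_nonneg fun d _ => hnn d
  rw [abs_le]
  constructor <;> linarith

end Pool.Agent.H3.LC

end

section

/-!
# Project IS: definitions for the sieve part

Arrays are functions `Finset α → ℝ` indexed by finite sets of atoms.  Abstractly an atom `e` is an event with
density `g e`; concretely the atoms are pairs `(i, p)` (`i : ι` a component, `p` a prime), the event being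
`p ∣ n + h i`, with density `1 / p`.
-/

set_option autoImplicit false

namespace Pool.Agent.H36.IS

open Finset

section Bern

variable {α : Type*} [DecidableEq α]

/-- the density `g / (1 - g)` -/
noncomputable def fo (g : α → ℝ) (e : α) : ℝ := g e / (1 - g e)

/-- Selberg coefficients of `y` -/
noncomputable def lam (P : Finset α) (g : α → ℝ) (y : Finset α → ℝ) : Finset α → ℝ := fun D =>
  (∏ e ∈ D, (-(1 / g e))) * ∑ R ∈ P.powerset, if D ⊆ R then y R * ∏ e ∈ R, fo g e else 0

/-- Selberg extension of `v` by the shape `Z` on the atoms of `S` -/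
noncomputable def ext (S : Finset α) (Z : Finset α → ℝ) (T : ℝ) (v : Finset α → ℝ) : Finset α → ℝ :=
  fun R => v (R \ S) * Z (R ∩ S) / T

end Bern

section Primes

end Primes

section Atoms

variable {ι : Type} [Fintype ι] [DecidableEq ι]

end Atoms

section Profile

variable {ι : Type} [Fintype ι] [DecidableEq ι]

end Profile

end Pool.Agent.H36.IS

end

section

/-!
Selberg's weights, indexed by finite sets.

PROOF PLAN.  `h p = g p/(1 - g p)`, `G = ∑_{B ∈ F} h(B)`, `F = {B ⊆ P : ∏_B p <= R}` (closed under subsets, `∅ ∈ F`,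
`G >= 1`), `h(B) = ∏_{p ∈ B} h p`.  `ρ A = (-1)^|A|/(g(A) G) ∑_{B ∈ F, A ⊆ B} h(B)`.
(1) `ρ ∅ = 1`; `ρ A = 0` if `∏_A p > R`.
(2) `|ρ A| <= 1`: `B = A ∪ B'` with `B'` disjoint from `A`, `h(A)/g(A) = ∏_A 1/(1 - g p) = ∏_A (1 + h p)
= ∑_{C ⊆ A} h(C)`, and `C ∪ B' ∈ F`, the map `(C, B') ↦ C ∪ B'` is injective: so
`(h(A)/g(A)) ∑_{B'} h(B') <= G`.
(3) `g(A ∪ B) = g(A) g(B)/g(A ∩ B)` and `1/g(D) = ∏_D (1 + 1/h p) = ∑_{E ⊆ D} 1/h(E)`; so the quadratic
form is `∑_E (1/h(E)) (∑_{A ⊇ E} g(A) ρ A)^2`, and `∑_{A ⊇ E} g(A) ρ A = (1/G) ∑_{B ∈ F, B ⊇ E} h(B)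
∑_{E ⊆ A ⊆ B} (-1)^|A| = (-1)^|E| h(E)/G` for `E ∈ F` and `0` otherwise.  So it is
`∑_{E ∈ F} h(E)/G^2 = 1/G`.  (Compare `Pool.Agent.H91.PT.Sel` for the case `g p = 1/p`.)
-/

namespace Pool.Agent.H87T

open Finset

private theorem SelW_interval {E B : Finset ℕ} :
    ∑ A ∈ B.powerset, (if E ⊆ A then (-1 : ℝ) ^ A.card else 0) =
      if B = E then (-1 : ℝ) ^ E.card else 0 := by
  classical
  rw [← sum_filter]
  by_cases hEB : E ⊆ B
  · have h1 : B.powerset.filter (fun A => E ⊆ A) = (B \ E).powerset.image (fun C => E ∪ C) := by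
      ext A
      rw [mem_filter, mem_powerset, mem_image]
      constructor
      · rintro ⟨h1, h2⟩
        refine ⟨A \ E, ?_, ?_⟩
        · rw [mem_powerset]
          exact sdiff_subset_sdiff h1 le_rfl
        · exact union_sdiff_of_subset h2
      · rintro ⟨C, hC, rfl⟩
        rw [mem_powerset] at hC
        exact ⟨union_subset hEB (hC.trans sdiff_subset), subset_union_left⟩
    rw [h1, sum_image]
    · have h2 : ∀ C ∈ (B \ E).powerset, (-1 : ℝ) ^ (E ∪ C).card = (-1) ^ E.card * (-1) ^ C.card := by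
        intro C hC
        rw [mem_powerset] at hC
        rw [card_union_of_disjoint, pow_add]
        exact (disjoint_sdiff).mono_right hC
      rw [sum_congr rfl h2, ← mul_sum]
      have h3 : ∑ C ∈ (B \ E).powerset, (-1 : ℝ) ^ C.card = if B \ E = ∅ then 1 else 0 := by
        have h4 := sum_powerset_neg_one_pow_card (x := B \ E)
        have h5 := congrArg (fun z : ℤ => (z : ℝ)) h4
        push_cast at h5
        exact h5
      rw [h3]
      by_cases hBE : B = E
      · rw [if_pos hBE, if_pos (by rw [hBE, Finset.sdiff_self]), mul_one]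
      · rw [if_neg hBE, if_neg, mul_zero]
        intro h4
        exact hBE (le_antisymm (sdiff_eq_empty_iff_subset.mp h4) hEB)
    · intro C hC D hD hCD
      rw [mem_coe, mem_powerset] at hC hD
      have hC' : Disjoint E C := disjoint_sdiff.mono_right hC
      have hD' : Disjoint E D := disjoint_sdiff.mono_right hD
      have h2 := congrArg (fun z => z \ E) hCD
      simp only [union_sdiff_left] at h2
      rwa [sdiff_eq_self_of_disjoint hC'.symm, sdiff_eq_self_of_disjoint hD'.symm] at h2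
  · rw [if_neg (fun h => hEB (by rw [h]))]
    refine sum_eq_zero fun A hA => ?_
    rw [mem_filter, mem_powerset] at hA
    exact absurd (hA.2.trans hA.1) hEB

theorem sel_weights (P : Finset ℕ) (hP : ∀ p ∈ P, 1 ≤ p) (g : ℕ → ℝ)
    (hg : ∀ p ∈ P, 0 < g p ∧ g p < 1) (R : ℕ) (hR : 1 ≤ R) :
    ∃ ρ : Finset ℕ → ℝ, ρ ∅ = 1 ∧ (∀ A ⊆ P, |ρ A| ≤ 1) ∧
      (∀ A ⊆ P, R < ∏ p ∈ A, p → ρ A = 0) ∧
      (∑ A ∈ P.powerset, ∑ B ∈ P.powerset, ρ A * ρ B * ∏ p ∈ A ∪ B, g p) *
        (∑ A ∈ P.powerset.filter (fun A => ∏ p ∈ A, p ≤ R), ∏ p ∈ A, (g p / (1 - g p))) = 1 := by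
  classical
  set h : ℕ → ℝ := fun p => g p / (1 - g p) with hh
  have hpos : ∀ p ∈ P, 0 < h p := fun p hp => div_pos (hg p hp).1 (by linarith [(hg p hp).2])
  set H : Finset ℕ → ℝ := fun B => ∏ p ∈ B, h p with hH
  have Hpos : ∀ B ⊆ P, 0 < H B := fun B hB => prod_pos fun p hp => hpos p (hB hp)
  set q : Finset ℕ → ℝ := fun B => ∏ p ∈ B, g p with hq
  have qpos : ∀ B ⊆ P, 0 < q B := fun B hB => prod_pos fun p hp => (hg p (hB hp)).1
  set F : Finset (Finset ℕ) := P.powerset.filter (fun A => ∏ p ∈ A, p ≤ R) with hF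
  have hFP : ∀ B ∈ F, B ⊆ P := fun B hB => mem_powerset.mp (mem_filter.mp hB).1
  have hmono : ∀ A B : Finset ℕ, A ⊆ B → B ⊆ P → ∏ p ∈ A, p ≤ ∏ p ∈ B, p := by
    intro A B hAB hBP
    refine prod_le_prod_of_subset_of_one_le' hAB fun p hp _ => hP p (hBP hp)
  have hdown : ∀ A B : Finset ℕ, A ⊆ B → B ∈ F → A ∈ F := by
    intro A B hAB hB
    have hBP := hFP B hB
    rw [hF, mem_filter, mem_powerset] at hB ⊢
    exact ⟨hAB.trans hBP, (hmono A B hAB hBP).trans hB.2⟩
  have hemp : ∅ ∈ F := by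
    rw [hF, mem_filter, mem_powerset]
    exact ⟨empty_subset _, by simpa using hR⟩
  set G : ℝ := ∑ B ∈ F, H B with hG
  have hG1 : 1 ≤ G := by
    calc (1 : ℝ) = H ∅ := by rw [hH]; simp
      _ ≤ G := single_le_sum (f := H) (fun B hB => (Hpos B (hFP B hB)).le) hemp
  have hG0 : 0 < G := by linarith
  set T : Finset ℕ → ℝ := fun A => ∑ B ∈ F, if A ⊆ B then H B else 0 with hT
  have hT0 : ∀ A, 0 ≤ T A := by
    intro A
    refine sum_nonneg fun B hB => ?_
    split_ifs
    · exact (Hpos B (hFP B hB)).le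
    · exact le_rfl
  -- expansions
  have e1 : ∀ D ⊆ P, (q D)⁻¹ = ∑ E ∈ D.powerset, (H E)⁻¹ := by
    intro D hD
    have h1 : (q D)⁻¹ = ∏ p ∈ D, (1 + (h p)⁻¹) := by
      rw [hq]
      simp only
      rw [← prod_inv_distrib]
      refine prod_congr rfl fun p hp => ?_
      obtain ⟨h2, h3⟩ := hg p (hD hp)
      rw [hh]
      simp only
      have h4 : 1 - g p ≠ 0 := by linarith
      field_simp
      ring
    rw [h1, prod_one_add]
    refine sum_congr rfl fun E _ => ?_
    rw [prod_inv_distrib]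
  have e2 : ∀ A ⊆ P, H A / q A = ∑ C ∈ A.powerset, H C := by
    intro A hA
    have h1 : H A / q A = ∏ p ∈ A, (1 + h p) := by
      rw [hH, hq]
      simp only
      rw [← prod_div_distrib]
      refine prod_congr rfl fun p hp => ?_
      obtain ⟨h2, h3⟩ := hg p (hA hp)
      rw [hh]
      simp only
      have h4 : 1 - g p ≠ 0 := by linarith
      field_simp
      ring
    rw [h1, prod_one_add]
  set ρ : Finset ℕ → ℝ := fun A => (-1) ^ A.card / (q A * G) * T A with hρ
  refine ⟨ρ, ?_, ?_, ?_, ?_⟩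
  · -- `ρ ∅ = 1`
    have h1 : T ∅ = G := by
      rw [hT, hG]
      exact sum_congr rfl fun B _ => if_pos (empty_subset B)
    have h2 : q ∅ = 1 := by rw [hq]; simp
    show (-1 : ℝ) ^ (∅ : Finset ℕ).card / (q ∅ * G) * T ∅ = 1
    rw [h1, h2, card_empty, pow_zero, one_mul]
    field_simp
  · -- `|ρ A| ≤ 1`
    intro A hA
    have hqA := qpos A hA
    have key : T A / q A ≤ G := by
      -- pairs `(B, C)` with `A ⊆ B ∈ F`, `C ⊆ A`
      have h1 : T A / q A = ∑ x ∈ (F.filter (fun B => A ⊆ B)) ×ˢ A.powerset, H (x.2 ∪ (x.1 \ A)) := by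
        rw [sum_product, hT]
        simp only
        rw [← sum_filter, sum_div]
        refine sum_congr rfl fun B hB => ?_
        rw [mem_filter] at hB
        have h2 : H B = H A * H (B \ A) := by
          rw [hH]
          simp only
          rw [mul_comm]
          exact (prod_sdiff hB.2).symm
        rw [h2, mul_div_right_comm, e2 A hA, sum_mul]
        refine sum_congr rfl fun C hC => ?_
        rw [mem_powerset] at hC
        rw [hH]
        simp only
        rw [prod_union]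
        exact disjoint_sdiff.mono_left hC
      rw [h1, hG]
      have hinj : Set.InjOn (fun x : Finset ℕ × Finset ℕ => x.2 ∪ (x.1 \ A))
          ((F.filter (fun B => A ⊆ B)) ×ˢ A.powerset : Finset _) := by
        rintro ⟨B, C⟩ hx ⟨B', C'⟩ hx' heq
        rw [mem_coe, mem_product, mem_filter, mem_powerset] at hx hx'
        simp only at hx hx' heq
        have h9 : ∀ a, (a ∈ C ∨ a ∈ B ∧ a ∉ A) ↔ (a ∈ C' ∨ a ∈ B' ∧ a ∉ A) := by
          intro a
          have := Finset.ext_iff.mp heq a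
          rwa [mem_union, mem_union, mem_sdiff, mem_sdiff] at this
        have t1 : C = C' := by
          ext a
          constructor
          · intro ha
            rcases (h9 a).mp (Or.inl ha) with h | h
            · exact h
            · exact absurd (hx.2 ha) h.2
          · intro ha
            rcases (h9 a).mpr (Or.inl ha) with h | h
            · exact h
            · exact absurd (hx'.2 ha) h.2
        have t3 : B = B' := by
          ext a
          by_cases haA : a ∈ A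
          · exact ⟨fun _ => hx'.1.2 haA, fun _ => hx.1.2 haA⟩
          · constructor
            · intro ha
              rcases (h9 a).mp (Or.inr ⟨ha, haA⟩) with h | h
              · exact absurd (hx'.2 h) haA
              · exact h.1
            · intro ha
              rcases (h9 a).mpr (Or.inr ⟨ha, haA⟩) with h | h
              · exact absurd (hx.2 h) haA
              · exact h.1
        rw [t1, t3]
      rw [← sum_image (f := H) hinj]
      refine sum_le_sum_of_subset_of_nonneg ?_ fun B hB _ => (Hpos B (hFP B hB)).le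
      intro D hD
      rw [mem_image] at hD
      obtain ⟨⟨B, C⟩, hx, rfl⟩ := hD
      rw [mem_product, mem_filter, mem_powerset] at hx
      exact hdown _ B (union_subset (hx.2.trans hx.1.2) sdiff_subset) hx.1.1
    have h5 : |ρ A| = T A / q A / G := by
      rw [hρ]
      simp only
      rw [abs_mul, abs_div, abs_pow, abs_neg, abs_one, one_pow, abs_of_pos (mul_pos hqA hG0),
        abs_of_nonneg (hT0 A)]
      field_simp
    rw [h5, div_le_one hG0]
    exact key
  · -- support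
    intro A hA hR'
    have h1 : T A = 0 := by
      rw [hT]
      refine sum_eq_zero fun B hB => ?_
      rw [if_neg]
      intro hAB
      have h2 := hmono A B hAB (hFP B hB)
      have h3 := (mem_filter.mp hB).2
      omega
    rw [hρ]
    simp only
    rw [h1, mul_zero]
  · -- the quadratic form
    set u : Finset ℕ → Finset ℕ → ℝ := fun A E => if E ⊆ A then ρ A * q A else 0 with hu
    have h1 : ∀ A ∈ P.powerset, ∀ B ∈ P.powerset, ρ A * ρ B * ∏ p ∈ A ∪ B, g p =
        ∑ E ∈ P.powerset, u A E * u B E * (H E)⁻¹ := by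
      intro A hA B hB
      rw [mem_powerset] at hA hB
      have hAB : A ∩ B ⊆ P := inter_subset_left.trans hA
      have h2 : (∏ p ∈ A ∪ B, g p) = q A * q B * (q (A ∩ B))⁻¹ := by
        have h3 : (∏ p ∈ A ∪ B, g p) * q (A ∩ B) = q A * q B := prod_union_inter
        have h4 := (qpos _ hAB).ne'
        rw [← h3, mul_assoc, mul_inv_cancel₀ h4, mul_one]
      rw [h2, e1 _ hAB]
      have h5 : ∑ E ∈ (A ∩ B).powerset, (H E)⁻¹ =
          ∑ E ∈ P.powerset, if E ⊆ A ∧ E ⊆ B then (H E)⁻¹ else 0 := by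
        rw [← sum_filter]
        refine sum_congr ?_ fun _ _ => rfl
        ext E
        rw [mem_powerset, mem_filter, mem_powerset, subset_inter_iff]
        exact ⟨fun h => ⟨h.1.trans hA, h⟩, fun h => h.2⟩
      rw [h5, mul_sum, mul_sum]
      refine sum_congr rfl fun E _ => ?_
      rw [hu]
      simp only
      by_cases hEA : E ⊆ A
      · by_cases hEB : E ⊆ B
        · rw [if_pos ⟨hEA, hEB⟩, if_pos hEA, if_pos hEB]
          ring
        · rw [if_neg (fun h => hEB h.2), if_neg hEB]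
          ring
      · rw [if_neg (fun h => hEA h.1), if_neg hEA]
        ring
    have h2 : ∑ A ∈ P.powerset, ∑ B ∈ P.powerset, ρ A * ρ B * ∏ p ∈ A ∪ B, g p =
        ∑ E ∈ P.powerset, (∑ A ∈ P.powerset, u A E) ^ 2 * (H E)⁻¹ := by
      rw [sum_congr rfl fun A hA => sum_congr rfl fun B hB => h1 A hA B hB]
      rw [sum_congr rfl fun A _ => sum_comm (s := P.powerset) (t := P.powerset)
        (f := fun B E => u A E * u B E * (H E)⁻¹)]
      rw [sum_comm]
      refine sum_congr rfl fun E _ => ?_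
      rw [sq, sum_mul_sum, sum_mul]
      refine sum_congr rfl fun A _ => ?_
      rw [sum_mul]
    have h3 : ∀ E ∈ P.powerset, ∑ A ∈ P.powerset, u A E =
        if E ∈ F then (-1) ^ E.card * H E / G else 0 := by
      intro E hE
      have h4 : ∀ A ∈ P.powerset, u A E =
          ∑ B ∈ F, H B / G * (if A ⊆ B then (if E ⊆ A then (-1 : ℝ) ^ A.card else 0) else 0) := by
        intro A hA
        rw [mem_powerset] at hA
        have hqA := (qpos A hA).ne'
        rw [hu]
        simp only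
        by_cases hEA : E ⊆ A
        · rw [if_pos hEA, hρ]
          simp only
          have h5 : (-1 : ℝ) ^ A.card / (q A * G) * T A * q A = (-1) ^ A.card / G * T A := by
            field_simp
          rw [h5, hT]
          simp only
          rw [mul_sum]
          refine sum_congr rfl fun B _ => ?_
          rw [if_pos hEA]
          by_cases hAB : A ⊆ B
          · rw [if_pos hAB, if_pos hAB]
            ring
          · rw [if_neg hAB, if_neg hAB, mul_zero, mul_zero]
        · rw [if_neg hEA]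
          refine (sum_eq_zero fun B _ => ?_).symm
          rw [if_neg hEA, ite_self, mul_zero]
      rw [sum_congr rfl h4, sum_comm]
      have h6 : ∀ B ∈ F, ∑ A ∈ P.powerset,
          H B / G * (if A ⊆ B then (if E ⊆ A then (-1 : ℝ) ^ A.card else 0) else 0) =
          if B = E then (-1) ^ E.card * H E / G else 0 := by
        intro B hB
        rw [← mul_sum, ← sum_filter]
        have h7 : P.powerset.filter (fun A => A ⊆ B) = B.powerset := by
          ext A
          rw [mem_filter, mem_powerset, mem_powerset]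
          exact ⟨fun h => h.2, fun h => ⟨h.trans (hFP B hB), h⟩⟩
        rw [h7, SelW_interval]
        by_cases hBE : B = E
        · rw [if_pos hBE, if_pos hBE, hBE]
          ring
        · rw [if_neg hBE, if_neg hBE, mul_zero]
      rw [sum_congr rfl h6, sum_ite_eq']
    have h4 : ∑ E ∈ P.powerset, (∑ A ∈ P.powerset, u A E) ^ 2 * (H E)⁻¹ = 1 / G := by
      have h5 : ∀ E ∈ P.powerset, (∑ A ∈ P.powerset, u A E) ^ 2 * (H E)⁻¹ =
          if E ∈ F then H E / G ^ 2 else 0 := by
        intro E hE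
        rw [h3 E hE]
        have hE' := (Hpos E (mem_powerset.mp hE)).ne'
        by_cases hEF : E ∈ F
        · rw [if_pos hEF, if_pos hEF, div_pow, mul_pow, ← pow_mul, mul_comm E.card 2, pow_mul]
          norm_num
          field_simp
        · rw [if_neg hEF, if_neg hEF]
          ring
      rw [sum_congr rfl h5, ← sum_filter]
      have h6 : P.powerset.filter (fun E => E ∈ F) = F := by
        ext E
        rw [mem_filter, mem_powerset]
        exact ⟨fun h => h.2, fun h => ⟨hFP E h, h⟩⟩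
      rw [h6, ← sum_div, ← hG]
      field_simp
    rw [h2, h4]
    show 1 / G * G = 1
    field_simp

end Pool.Agent.H87T

end

section

/-!
The logarithmic weights of Richert combined with the sieve of `GoldChain`.
-/

namespace Pool.Agent.H91.Gold

open Finset

/-- The primes in the interval `(x, y]`. -/
def Pr (x y : ℕ) : Finset ℕ := (Ioc x y).filter Nat.Prime

theorem mem_Pr {x y p : ℕ} : p ∈ Pr x y ↔ (x < p ∧ p ≤ y) ∧ p.Prime := by
  unfold Pr; simp

theorem prime_of_Pr {x y p : ℕ} (h : p ∈ Pr x y) : p.Prime := (mem_Pr.1 h).2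

end Pool.Agent.H91.Gold

end

section

/-!
# IS MtA: Mertens' theorem with a limit

`fS n = ∑_{p ≤ n} -log(1 - 1/p)`.
`mertA`: fS n - loglog n converges.  Proof: for 65536 ≤ w ≤ z, `Pool.Agent.H91.Gold.mertens_wz` and
`Pool.Agent.H91.PK.mertens_lower` give |∑_{w<p≤z} 1/p - log(log z/log w)| ≤ 0.25/log w, and
∑_{p>w} (-log(1-1/p) - 1/p) ≤ ∑_{p > w} 1/p² ≤ 2/w;  so the sequence fS n - loglog n is Cauchy.
`mertA_bd`: |fS n - loglog n| ≤ C for n ≥ 2 (a convergent sequence; finitely many small n).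
-/

set_option autoImplicit false

namespace Pool.Agent.H36.IS

open Finset Filter

noncomputable def fS (n : ℕ) : ℝ := ∑ p ∈ (range (n + 1)).filter Nat.Prime, -Real.log (1 - 1 / (p : ℝ))

theorem MtA_split {w z : ℕ} (hwz : w ≤ z) :
    fS z = fS w + ∑ p ∈ H91.Gold.Pr w z, -Real.log (1 - 1 / (p : ℝ)) := by
  unfold fS
  have h1 : (range (z + 1)).filter Nat.Prime =
      (range (w + 1)).filter Nat.Prime ∪ H91.Gold.Pr w z := by
    ext p
    rw [mem_union, mem_filter, mem_filter, H91.Gold.mem_Pr, mem_range, mem_range]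
    constructor
    · rintro ⟨h, hp⟩
      by_cases hpw : p ≤ w
      · exact Or.inl ⟨by omega, hp⟩
      · exact Or.inr ⟨⟨by omega, by omega⟩, hp⟩
    · rintro (⟨h, hp⟩ | ⟨⟨_, h⟩, hp⟩)
      · exact ⟨by omega, hp⟩
      · exact ⟨by omega, hp⟩
  rw [h1, sum_union]
  rw [Finset.disjoint_left]
  intro p hp1 hp2
  rw [mem_filter, mem_range] at hp1
  rw [H91.Gold.mem_Pr] at hp2
  omega

theorem MtA_sq {w z : ℕ} (hw : 1 ≤ w) (hwz : w ≤ z) :
    ∑ p ∈ Ioc w z, 1 / (p : ℝ) ^ 2 ≤ 1 / (w : ℝ) - 1 / (z : ℝ) := by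
  induction z, hwz using Nat.le_induction with
  | base => simp
  | succ z hz ih =>
    rw [← Finset.insert_Ioc_right_eq_Ioc_add_one hz, sum_insert (by simp)]
    have hz0 : (0 : ℝ) < z := by exact_mod_cast (by omega : 0 < z)
    have h : 1 / ((z + 1 : ℕ) : ℝ) ^ 2 ≤ 1 / (z : ℝ) - 1 / ((z + 1 : ℕ) : ℝ) := by
      push_cast
      rw [div_sub_div _ _ hz0.ne' (by positivity), div_le_div_iff₀ (by positivity) (by positivity)]
      nlinarith
    linarith

theorem MtA_log {t : ℝ} (h0 : 0 ≤ t) (h1 : t ≤ 1 / 2) :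
    t ≤ -Real.log (1 - t) ∧ -Real.log (1 - t) ≤ t + 2 * t ^ 2 := by
  constructor
  · have := Real.log_le_sub_one_of_pos (by linarith : 0 < 1 - t)
    linarith
  · have h := Real.abs_log_sub_add_sum_range_le (x := t) (by rw [abs_of_nonneg h0]; linarith) 1
    rw [sum_range_one, abs_of_nonneg h0] at h
    have h2 : t ^ (1 + 1) / (1 - t) ≤ 2 * t ^ 2 := by
      rw [div_le_iff₀ (by linarith)]
      have h3 := mul_nonneg (sq_nonneg t) (by linarith : 0 ≤ 1 - 2 * t)
      have h4 : t ^ (1 + 1) = t ^ 2 := by norm_num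
      rw [h4]
      linarith
    have h3 := (abs_le.mp h).1
    norm_num at h3 h2
    linarith

end Pool.Agent.H36.IS

end
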