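import Pool.Agent.H94.PG.M13

/-! The parts of this file: H78.PD.BNum, H78.PD.Par, H78.PD.Del. -/

section

/-!
# PD, BNum: numbers and mass of the blocks

* `bnum`: `(1 + 1/H)^H ≥ 2`, so `aj x J ≥ e^x 2^(2x²) ≥ e^(x²)`; `(1 + 1/H)^J ≤ e^(J/H) ≤ e^(2x²+1)`, so `aj x J ≤ e^(3x²)`; `J ≤ 2(log x + 1)x² + 1 ≤ x³`; `H ≥ 2`.
* `W_low`: the blocks `(aj x j, aj x (j+1)]`, `j < J`, cover `(e^x, aj x J] ⊇ (e^x, e^(x²)]`, so `WB ≥ ∑_{e^x < p ≤ e^(x²)} 1/p - ∑_{p ∣ m, p > e^x} 1/p ≥ (log x - 1) - ω(m) e^(-x) ≥ log x - 2`;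
  Mertens: `∑_{p ≤ y} 1/p = log log y + c + o(1)` (`Pool.Agent.H36.IS.mertA`, used in `PG/TMert.lean`).
* `TB_card`: the blocks are disjoint sets of numbers in `[1, aj x J]`.
-/

set_option autoImplicit false

namespace Pool.Agent.H78.PD

open Finset
open Pool.Agent.H34PG (lam lam_val lam_mul lam_prime)
open Pool.Agent.H11.LQ Pool.Agent.H78.PG

theorem bnum : ∃ x0 : ℝ, 3 ≤ x0 ∧ ∀ x : ℝ, x0 ≤ x → 2 ≤ Hn x ∧ (Jn x : ℝ) ≤ x ^ 3 ∧
    Real.exp (x ^ 2) ≤ aj x (Jn x) ∧ aj x (Jn x) ≤ Real.exp (3 * x ^ 2) := by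
  refine ⟨10, by norm_num, fun x hx => ?_⟩
  have hx0 : 0 < x := by linarith only [hx]
  have hlog8 : Real.log 8 ≤ 2.08 := by
    have h : Real.log 8 = 3 * Real.log 2 := by
      rw [show (8 : ℝ) = 2 ^ 3 by norm_num, Real.log_pow]
      norm_num
    have := Real.log_two_lt_d9
    linarith only [h, this]
  have hlogx : Real.log x ≤ x / 8 + 1.08 := by
    have h := Real.log_le_sub_one_of_pos (x := x / 8) (by positivity)
    rw [Real.log_div hx0.ne' (by norm_num)] at h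
    linarith only [hlog8, h]
  have hlog1 : 1 < Real.log x := by
    rw [Real.lt_log_iff_exp_lt hx0]
    have := Real.exp_one_lt_d9
    linarith only [hx, this]
  have hH2 : 2 ≤ Hn x := by
    unfold Hn
    have : 1 < ⌈Real.log x⌉₊ := by
      rw [Nat.lt_ceil]
      simpa using hlog1
    omega
  have hHle : (Hn x : ℝ) ≤ Real.log x + 1 := by
    unfold Hn
    exact (Nat.ceil_lt_add_one (by linarith only [hlog1])).le
  have hH2' : (2 : ℝ) ≤ (Hn x : ℝ) := by exact_mod_cast hH2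
  have hJle : (Jn x : ℝ) ≤ 2 * (Hn x : ℝ) * x ^ 2 + 1 := by
    unfold Jn
    exact (Nat.ceil_lt_add_one (by positivity)).le
  have hJge : 2 * (Hn x : ℝ) * x ^ 2 ≤ (Jn x : ℝ) := by
    unfold Jn
    exact Nat.le_ceil _
  obtain ⟨H, hH⟩ : ∃ H : ℝ, H = (Hn x : ℝ) := ⟨_, rfl⟩
  rw [← hH] at hHle hH2' hJle hJge
  have hlogH : 0 ≤ Real.log (1 + 1 / H) := Real.log_nonneg (by
    have : 0 ≤ 1 / H := by positivity
    linarith only [this])
  have haj : aj x (Jn x) = Real.exp (x + (Jn x : ℝ) * Real.log (1 + 1 / H)) := by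
    unfold aj
    rw [← hH, Real.exp_add, mul_comm (Jn x : ℝ), Real.exp_mul, Real.exp_log (by positivity), Real.rpow_natCast]
  generalize Jn x = J at *
  refine ⟨hH2, ?_, ?_, ?_⟩
  · have h1 : H ≤ x / 8 + 2.08 := by linarith only [hlogx, hHle]
    have h2 : 2 * H * x ^ 2 ≤ 2 * (x / 8 + 2.08) * x ^ 2 := by
      have := sq_nonneg x
      nlinarith only [hlogx, hHle]
    have h3 : (100 : ℝ) ≤ x ^ 2 := by nlinarith only [hx]
    nlinarith only [hJle, h2, h3, hx]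
  · rw [haj]
    apply Real.exp_le_exp.2
    have h1 : 1 / (H + 1) ≤ Real.log (1 + 1 / H) := by
      have h := Real.one_sub_inv_le_log_of_pos (x := 1 + 1 / H) (by positivity)
      have e : 1 - (1 + 1 / H)⁻¹ = 1 / (H + 1) := by field_simp; ring
      linarith only [h, e]
    have h2 : 1 / 2 ≤ H * (1 / (H + 1)) := by
      rw [mul_one_div, le_div_iff₀ (by positivity)]
      linarith only [hH2']
    have h3 : x ^ 2 ≤ (J : ℝ) * Real.log (1 + 1 / H) := by
      calc x ^ 2 = 2 * x ^ 2 * (1 / 2) := by ring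
        _ ≤ 2 * x ^ 2 * (H * (1 / (H + 1))) := mul_le_mul_of_nonneg_left h2 (by positivity)
        _ = (2 * H * x ^ 2) * (1 / (H + 1)) := by ring
        _ ≤ (J : ℝ) * Real.log (1 + 1 / H) := mul_le_mul hJge h1 (by positivity) (Nat.cast_nonneg _)
    linarith only [hx, h3]
  · rw [haj]
    apply Real.exp_le_exp.2
    have h1 : Real.log (1 + 1 / H) ≤ 1 / H := by
      have h := Real.log_le_sub_one_of_pos (x := 1 + 1 / H) (by positivity)
      linarith only [h]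
    have h2 : (J : ℝ) * Real.log (1 + 1 / H) ≤ 2 * x ^ 2 + 1 := by
      calc (J : ℝ) * Real.log (1 + 1 / H) ≤ (2 * H * x ^ 2 + 1) * (1 / H) :=
            mul_le_mul hJle h1 hlogH (by positivity)
        _ = 2 * x ^ 2 + 1 / H := by field_simp
        _ ≤ 2 * x ^ 2 + 1 := by
            have : 1 / H ≤ 1 := by
              rw [div_le_one (by positivity)]
              linarith only [hH2']
            linarith only [this]
    nlinarith only [hx, h2]

theorem aj_mono (x : ℝ) {i j : ℕ} (h : i ≤ j) : aj x i ≤ aj x j := by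
  unfold aj
  refine mul_le_mul_of_nonneg_left (pow_le_pow_right₀ ?_ h) (Real.exp_pos x).le
  have : 0 ≤ 1 / (Hn x : ℝ) := by positivity
  linarith only [this]

/-- splitting a set of primes at `Y` -/
theorem bnum_split {m : ℕ} {X Y Z : ℝ} (hY : 0 ≤ Y) (hXY : X ≤ Y) (hYZ : Y ≤ Z) (f : ℕ → ℝ) :
    ∑ p ∈ PI m X Z, f p = ∑ p ∈ PI m X Y, f p + ∑ p ∈ PI m Y Z, f p := by
  have hd : Disjoint (PI m X Y) (PI m Y Z) := by
    rw [Finset.disjoint_left]
    intro p h1 h2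
    rw [mem_PI hY] at h1
    rw [mem_PI (hY.trans hYZ)] at h2
    linarith [h1.2.2.2, h2.2.2.1]
  rw [← sum_union hd]
  congr 1
  ext p
  rw [mem_union, mem_PI hY, mem_PI (hY.trans hYZ), mem_PI (hY.trans hYZ)]
  constructor
  · rintro ⟨h1, h2, h3, h4⟩
    rcases le_or_gt (p : ℝ) Y with h | h
    · exact Or.inl ⟨h1, h2, h3, h⟩
    · exact Or.inr ⟨h1, h2, h, h4⟩
  · rintro (⟨h1, h2, h3, h4⟩ | ⟨h1, h2, h3, h4⟩)
    · exact ⟨h1, h2, h3, h4.trans hYZ⟩
    · exact ⟨h1, h2, lt_of_le_of_lt hXY h3, h4⟩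

/-- the blocks together -/
theorem bnum_sum (m : ℕ) (x : ℝ) (f : ℕ → ℝ) (J : ℕ) :
    ∑ j ∈ range J, ∑ p ∈ TB m x j, f p = ∑ p ∈ PI m (aj x 0) (aj x J), f p := by
  induction J with
  | zero =>
    rw [range_zero, sum_empty]
    symm
    apply sum_eq_zero
    intro p hp
    rw [mem_PI (aj_pos x 0).le] at hp
    exact absurd hp.2.2.2 (not_le.2 hp.2.2.1)
  | succ J ih =>
    rw [sum_range_succ, ih, bnum_split (m := m) (aj_pos x J).le (aj_mono x (Nat.zero_le J)) (aj_mono x (Nat.le_succ J)) f]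
    rfl

theorem TB_card (m : ℕ) (x : ℝ) : ((∑ j ∈ range (Jn x), (TB m x j).card : ℕ) : ℝ) ≤ aj x (Jn x) := by
  have h := bnum_sum m x (fun _ => 1) (Jn x)
  simp only [sum_const, nsmul_eq_mul, mul_one] at h
  rw [Nat.cast_sum, h]
  have h1 : (PI m (aj x 0) (aj x (Jn x))).card ≤ ⌊aj x (Jn x)⌋₊ := by
    unfold PI
    refine (card_filter_le _ _).trans ?_
    rw [Nat.card_Icc]
    omega
  calc (((PI m (aj x 0) (aj x (Jn x))).card : ℕ) : ℝ) ≤ ((⌊aj x (Jn x)⌋₊ : ℕ) : ℝ) := by exact_mod_cast h1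
    _ ≤ aj x (Jn x) := Nat.floor_le (aj_pos x _).le

/-- the telescoping sum -/
theorem bnum_tel (w z : ℕ) (hwz : w ≤ z) :
    ∑ n ∈ Ioc w z, (1 / ((n : ℝ) - 1) - 1 / (n : ℝ)) = 1 / (w : ℝ) - 1 / (z : ℝ) := by
  induction z, hwz using Nat.le_induction with
  | base => simp
  | succ z hz ih =>
    rw [sum_Ioc_succ_top (by omega), ih]
    push_cast
    ring

end Pool.Agent.H78.PD

end

section

/-!
# PD, Par: coefficients as sums over `[1, m/2]`; distance of `λ` and `GU` on `[1, m/2]`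

* `ww_le_half`: the units mod `m` (`m ≥ 3`) are the classes of `n` and `-n`, `n ∈ cop m (m/2)`; `F(n) = λ(n)`, `F(-n) = η λ(n)` (`F_small`, `F_neg`), so
  `cc m (FC m η) χ = (1/φ) ∑_{n ∈ cop m (m/2)} λ(n) (1 + η χ(-1)) conj χ(n)` and `|1 + η χ(-1)| ≤ 2`; `|∑ λ conj χ| = |∑ λ χ|`.
* `ww_inv`: `FC` is real, so `cc χ⁻¹ = conj (cc χ)` (`χ⁻¹ = conj χ`: `MulChar.star_apply'`).
* `half_phi`: the proof of `half_le` (`PH/HW.lean`) gives `φ` in place of `m`.
* `wout_eq`: total weight `1`.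
-/

set_option autoImplicit false

namespace Pool.Agent.H78.PD

open Finset
open Pool.Agent.H34PG (lam lam_val lam_mul lam_prime)
open Pool.Agent.H11.LQ Pool.Agent.H78.PG

private theorem par_norm_eta {η : ℤ} (hη : η = 1 ∨ η = -1) : ‖((η : ℤ) : ℂ)‖ = 1 := by
  rcases hη with h | h <;> rw [h] <;> simp

private theorem par_neg_val {m : ℕ} [NeZero m] (hm : 3 ≤ m) (u : (ZMod m)ˣ) :
    ((-u : (ZMod m)ˣ) : ZMod m).val = m - (u : ZMod m).val ∧ 0 < (u : ZMod m).val ∧ (u : ZMod m).val < m ∧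
      2 * (u : ZMod m).val ≠ m := by
  have hf : Fact (1 < m) := ⟨by omega⟩
  have h0 : (u : ZMod m) ≠ 0 := u.ne_zero
  have h1 : 0 < (u : ZMod m).val := Nat.pos_of_ne_zero fun h => h0 ((ZMod.val_eq_zero _).mp h)
  have h2 : (u : ZMod m).val < m := ZMod.val_lt _
  refine ⟨?_, h1, h2, ?_⟩
  · rw [Units.val_neg, ZMod.neg_val, if_neg h0]
  · intro h3
    have h4 : Nat.Coprime (u : ZMod m).val m := ZMod.val_coe_unit_coprime u
    have h5 : (u : ZMod m).val ∣ m := ⟨2, by omega⟩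
    have h6 : (u : ZMod m).val = 1 := Nat.Coprime.eq_one_of_dvd h4 h5
    omega

private theorem par_split (m : ℕ) [NeZero m] (hm : 3 ≤ m) (g : (ZMod m)ˣ → ℂ) :
    ∑ u : (ZMod m)ˣ, g u = ∑ u ∈ univ.filter (fun u : (ZMod m)ˣ => 2 * (u : ZMod m).val < m), (g u + g (-u)) := by
  classical
  rw [← Finset.sum_filter_add_sum_filter_not univ (fun u : (ZMod m)ˣ => 2 * (u : ZMod m).val < m) g, Finset.sum_add_distrib]
  congr 1
  refine Finset.sum_bij (fun u _ => -u) ?_ ?_ ?_ ?_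
  · intro u hu
    rw [mem_filter] at hu ⊢
    obtain ⟨h1, h2, h3, h4⟩ := par_neg_val hm u
    refine ⟨mem_univ _, ?_⟩
    rw [h1]
    have := hu.2
    omega
  · intro u _ v _ h
    exact neg_injective h
  · intro u hu
    rw [mem_filter] at hu
    obtain ⟨h1, h2, h3, h4⟩ := par_neg_val hm u
    refine ⟨-u, ?_, neg_neg u⟩
    rw [mem_filter]
    refine ⟨mem_univ _, ?_⟩
    rw [h1]
    have := hu.2
    omega
  · intro u _
    rw [neg_neg]

private theorem par_half (m : ℕ) [NeZero m] (hm : 3 ≤ m) (g : ZMod m → ℂ) :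
    ∑ u ∈ univ.filter (fun u : (ZMod m)ˣ => 2 * (u : ZMod m).val < m), g (u : ZMod m) = ∑ n ∈ cop m (m / 2), g (n : ZMod m) := by
  classical
  refine Finset.sum_bij (fun u _ => (u : ZMod m).val) ?_ ?_ ?_ ?_
  · intro u hu
    rw [mem_filter] at hu
    obtain ⟨h1, h2, h3, h4⟩ := par_neg_val hm u
    rw [mem_cop]
    exact ⟨h2, by have := hu.2; omega, ZMod.val_coe_unit_coprime u⟩
  · intro u _ v _ h
    exact Units.ext (ZMod.val_injective m h)
  · intro n hn
    obtain ⟨h1, h2, h3⟩ := mem_cop.mp hn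
    have h4 : 2 * n < m := by
      rcases (show 2 * n ≤ m by omega).lt_or_eq with h5 | h5
      · exact h5
      · exfalso
        have h6 : n = 1 := Nat.Coprime.eq_one_of_dvd h3 ⟨2, by omega⟩
        omega
    refine ⟨ZMod.unitOfCoprime n h3, ?_, ?_⟩
    · rw [mem_filter]
      refine ⟨mem_univ _, ?_⟩
      rw [ZMod.coe_unitOfCoprime, ZMod.val_natCast, Nat.mod_eq_of_lt (by omega)]
      exact h4
    · rw [ZMod.coe_unitOfCoprime, ZMod.val_natCast, Nat.mod_eq_of_lt (by omega)]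
  · intro u _
    rw [ZMod.natCast_zmod_val]

private theorem par_cc (m : ℕ) [NeZero m] (hm : 3 ≤ m) (η : ℤ) (hη : η = 1 ∨ η = -1) (χ : DirichletCharacter ℂ m) :
    cc m (FC m η) χ = (1 / (m.totient : ℂ)) * ((1 + (η : ℂ) * (starRingEnd ℂ) (χ (-1))) *
      (starRingEnd ℂ) (∑ n ∈ cop m (m / 2), ((lam n : ℤ) : ℂ) * χ (n : ZMod m))) := by
  have h1 : ∀ u : (ZMod m)ˣ, FC m η ((-u : (ZMod m)ˣ) : ZMod m) * (starRingEnd ℂ) (χ ((-u : (ZMod m)ˣ) : ZMod m)) =
      (η : ℂ) * (starRingEnd ℂ) (χ (-1)) * (FC m η (u : ZMod m) * (starRingEnd ℂ) (χ (u : ZMod m))) := by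
    intro u
    obtain ⟨h1, h2, h3, h4⟩ := par_neg_val hm u
    have h5 : F m η ((-u : (ZMod m)ˣ) : ZMod m).val = η * F m η (u : ZMod m).val := by
      refine F_neg hη ⟨1, ?_⟩ ?_
      · rw [h1]
        omega
      · rw [Nat.mod_eq_of_lt h3]
        exact h4
    have h6 : ((-u : (ZMod m)ˣ) : ZMod m) = (-1) * (u : ZMod m) := by
      rw [Units.val_neg]
      ring
    have h7 : FC m η ((-u : (ZMod m)ˣ) : ZMod m) = (η : ℂ) * FC m η (u : ZMod m) := by
      unfold FC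
      rw [h5]
      push_cast
      ring
    have h8 : χ ((-u : (ZMod m)ˣ) : ZMod m) = χ (-1) * χ (u : ZMod m) := by
      rw [h6, map_mul]
    rw [h7, h8, map_mul]
    ring
  unfold cc
  congr 1
  rw [par_split m hm (fun u => FC m η (u : ZMod m) * (starRingEnd ℂ) (χ (u : ZMod m)))]
  have h2 : ∀ u ∈ univ.filter (fun u : (ZMod m)ˣ => 2 * (u : ZMod m).val < m),
      (FC m η (u : ZMod m) * (starRingEnd ℂ) (χ (u : ZMod m)) +
        FC m η ((-u : (ZMod m)ˣ) : ZMod m) * (starRingEnd ℂ) (χ ((-u : (ZMod m)ˣ) : ZMod m))) =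
      (1 + (η : ℂ) * (starRingEnd ℂ) (χ (-1))) * (FC m η (u : ZMod m) * (starRingEnd ℂ) (χ (u : ZMod m))) := by
    intro u _
    rw [h1 u]
    ring
  rw [sum_congr rfl h2, ← mul_sum]
  congr 1
  rw [par_half m hm (fun x => FC m η x * (starRingEnd ℂ) (χ x)), map_sum]
  refine sum_congr rfl fun n hn => ?_
  obtain ⟨h3, h4, h5⟩ := mem_cop.mp hn
  rw [FC_natCast, F_small (by omega) (by omega), map_mul, map_intCast]

theorem ww_le_half (m : ℕ) [NeZero m] (hm : 3 ≤ m) (η : ℤ) (hη : η = 1 ∨ η = -1)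
    (χ : DirichletCharacter ℂ m) :
    ww m η χ ≤ 4 / (m.totient : ℝ) ^ 2 *
      ‖∑ n ∈ cop m (m / 2), ((lam n : ℤ) : ℂ) * χ (n : ZMod m)‖ ^ 2 := by
  unfold ww
  rw [par_cc m hm η hη χ, norm_mul, norm_mul, RCLike.norm_conj, norm_div, norm_one, Complex.norm_natCast]
  have h1 : ‖(1 : ℂ) + (η : ℂ) * (starRingEnd ℂ) (χ (-1))‖ ≤ 2 := by
    refine (norm_add_le _ _).trans ?_
    rw [norm_one, norm_mul, RCLike.norm_conj, par_norm_eta hη, one_mul]
    have h2 := DirichletCharacter.norm_le_one χ (-1)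
    linarith
  have h0 : 0 ≤ ‖(1 : ℂ) + (η : ℂ) * (starRingEnd ℂ) (χ (-1))‖ := norm_nonneg _
  obtain ⟨S, hS⟩ : ∃ S, S = ‖∑ n ∈ cop m (m / 2), ((lam n : ℤ) : ℂ) * χ (n : ZMod m)‖ := ⟨_, rfl⟩
  obtain ⟨T, hT⟩ : ∃ T, T = ‖(1 : ℂ) + (η : ℂ) * (starRingEnd ℂ) (χ (-1))‖ := ⟨_, rfl⟩
  rw [← hS, ← hT]
  rw [← hT] at h1 h0
  have e1 : (1 / (m.totient : ℝ) * (T * S)) ^ 2 = T ^ 2 * ((1 / (m.totient : ℝ)) ^ 2 * S ^ 2) := by ring
  have e2 : 4 / (m.totient : ℝ) ^ 2 * S ^ 2 = 4 * ((1 / (m.totient : ℝ)) ^ 2 * S ^ 2) := by ring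
  rw [e1, e2]
  refine mul_le_mul_of_nonneg_right ?_ (by positivity)
  nlinarith

theorem ww_inv (m : ℕ) [NeZero m] (η : ℤ) (χ : DirichletCharacter ℂ m) :
    ww m η χ⁻¹ = ww m η χ := by
  have h1 : cc m (FC m η) χ⁻¹ = (starRingEnd ℂ) (cc m (FC m η) χ) := by
    unfold cc
    rw [map_mul, map_sum, map_div₀, map_one, map_natCast]
    congr 1
    refine sum_congr rfl fun u _ => ?_
    have h2 : (starRingEnd ℂ) (χ (u : ZMod m)) = χ⁻¹ (u : ZMod m) := MulChar.star_apply' χ (u : ZMod m)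
    rw [map_mul, ← h2]
    congr 1
    unfold FC
    rw [map_intCast]
  unfold ww
  rw [h1, RCLike.norm_conj]

private theorem par_units (m : ℕ) [NeZero m] (g : ZMod m → ℝ) (hg : ∀ z, 0 ≤ g z) :
    ∑ y ∈ cop m (m / 2), g (y : ZMod m) ≤ ∑ u : (ZMod m)ˣ, g (u : ZMod m) := by
  classical
  let f : ℕ → (ZMod m)ˣ := fun y => if h : y.Coprime m then ZMod.unitOfCoprime y h else 1
  have hf : ∀ y ∈ cop m (m / 2), ((f y : (ZMod m)ˣ) : ZMod m) = (y : ZMod m) := by
    intro y hy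
    have h := (mem_cop.mp hy).2.2
    simp only [f, dif_pos h, ZMod.coe_unitOfCoprime]
  have e1 : ∑ y ∈ cop m (m / 2), g (y : ZMod m) = ∑ u ∈ (cop m (m / 2)).image f, g (u : ZMod m) := by
    rw [sum_image]
    · exact sum_congr rfl fun y hy => by rw [hf y hy]
    · intro a ha b hb hab
      have ha1 := mem_cop.mp (mem_coe.mp ha)
      have hb1 := mem_cop.mp (mem_coe.mp hb)
      have h3 : ((a : ℕ) : ZMod m) = ((b : ℕ) : ZMod m) := by
        rw [← hf a (mem_coe.mp ha), ← hf b (mem_coe.mp hb), hab]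
      rw [ZMod.natCast_eq_natCast_iff'] at h3
      have hm0 : 0 < m := Nat.pos_of_ne_zero (NeZero.ne m)
      rwa [Nat.mod_eq_of_lt (by omega), Nat.mod_eq_of_lt (by omega)] at h3
  rw [e1]
  exact sum_le_sum_of_subset_of_nonneg (subset_univ _) fun u _ _ => hg _

theorem half_phi (m : ℕ) [NeZero m] (hm : 2 ≤ m) (η : ℤ) (U : Finset (DirichletCharacter ℂ m)) :
    ∑ y ∈ cop m (m / 2), ‖((lam y : ℤ) : ℂ) - GU m η U y‖ ^ 2
      ≤ (m.totient : ℝ) * wout m η U := by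
  classical
  have g1 := par_units m
    (fun z => ‖FC m η z - ∑ χ ∈ U, cc m (FC m η) χ * χ z‖ ^ 2) (fun z => by positivity)
  have g2 := part_sum m (FC m η) U
  have g4 : ∑ y ∈ cop m (m / 2), ‖((lam y : ℤ) : ℂ) - GU m η U y‖ ^ 2
      = ∑ y ∈ cop m (m / 2), ‖FC m η (y : ZMod m) - ∑ χ ∈ U, cc m (FC m η) χ * χ (y : ZMod m)‖ ^ 2 := by
    refine sum_congr rfl fun y hy => ?_
    obtain ⟨hy1, hy2, _⟩ := mem_cop.mp hy
    rw [FC_natCast, F_small (by omega) (by omega)]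
    rfl
  rw [g4]
  refine g1.trans (le_of_eq ?_)
  unfold wout ww
  convert g2 using 2

theorem wout_eq (m : ℕ) [NeZero m] (hm : 2 ≤ m) (η : ℤ) (hη : η = 1 ∨ η = -1)
    (X : Finset (DirichletCharacter ℂ m)) : wout m η X = 1 - ∑ χ ∈ X, ww m η χ := by
  classical
  have h1 := Finset.sum_filter_add_sum_filter_not univ (fun χ : DirichletCharacter ℂ m => χ ∈ X) (fun χ => ww m η χ)
  have h2 : univ.filter (fun χ : DirichletCharacter ℂ m => χ ∈ X) = X := by
    ext χ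
    simp
  rw [h2, ww_sum m hm η hη] at h1
  have h3 : wout m η X = ∑ χ ∈ univ.filter (fun χ => χ ∉ X), ww m η χ := by
    unfold wout
    congr 1
  rw [h3]
  linarith

end Pool.Agent.H78.PD

end

section

/-!
# PD, Del: the total defect

`dn n / n = (2/φ) ∑_{y ∈ cop m (m/(2n))} ‖λ(ny) - GU(ny)‖²` (`lam_mul`), `x = n y ∈ cop m (m/2)`; so `∑_{n ∈ BR} dn n/n ≤ (2/φ) ∑_{x ∈ cop m (m/2)} ‖λ(x) - GU x‖² #{n ∈ BR : n ∣ x}` and `half_phi`.
A number `x ≤ m` has at most `2^(1/κ)` `zN κ m`-rough divisors: the primes `> zN` are `> m^κ`, so the rough part of `x` has at most `1/κ` prime factors (with multiplicity), and `d(r) ≤ 2^Ω(r)`.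
`τ = 2 · 2^(1/κ)`.
-/

set_option autoImplicit false

namespace Pool.Agent.H78.PD

open Finset
open Pool.Agent.H34PG (lam lam_val lam_mul lam_prime)
open Pool.Agent.H11.LQ Pool.Agent.H78.PG

theorem del_prod (L : List ℕ) (y : ℝ) (hy : 0 ≤ y) (h : ∀ p ∈ L, y ≤ (p : ℝ)) : y ^ L.length ≤ (L.prod : ℝ) := by
  induction L with
  | nil => simp
  | cons a L ih =>
    rw [List.length_cons, List.prod_cons, pow_succ', Nat.cast_mul]
    have h1 := h a List.mem_cons_self
    have h2 := ih fun p hp => h p (List.mem_cons_of_mem _ hp)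
    exact mul_le_mul h1 h2 (by positivity) (by positivity)

open Classical in
theorem rough_div (κ : ℝ) (hκ : 0 < κ) : ∃ τ : ℝ, 0 < τ ∧ ∀ m x : ℕ, 1 ≤ x → x ≤ m →
    ((x.divisors.filter (fun d => rou (zN κ m) d)).card : ℝ) ≤ τ := by
  refine ⟨(2 : ℝ) ^ (1 / κ), by positivity, fun m x hx hxm => ?_⟩
  obtain ⟨z, hz⟩ : ∃ z, z = zN κ m := ⟨_, rfl⟩
  rw [← hz]
  obtain ⟨L, hL⟩ : ∃ L : List ℕ, L = x.primeFactorsList.filter (fun p => z < p) := ⟨_, rfl⟩
  have hx0 : x ≠ 0 := by omega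
  -- the number of rough divisors
  have h1 : (x.divisors.filter (fun d => rou z d)).card ≤ 2 ^ L.length := by
    have h2 : (x.divisors.filter (fun d => rou z d)).card ≤ L.sublists.toFinset.card := by
      refine card_le_card_of_injOn (fun d => d.primeFactorsList) ?_ ?_
      · intro d hd
        obtain ⟨hd1, hd2⟩ := mem_filter.1 (mem_coe.1 hd)
        have hdx := Nat.dvd_of_mem_divisors hd1
        rw [mem_coe, List.mem_toFinset, List.mem_sublists, hL]
        have h3 : d.primeFactorsList.filter (fun p => z < p) = d.primeFactorsList := by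
          rw [List.filter_eq_self]
          intro p hp
          have hp1 := Nat.prime_of_mem_primeFactorsList hp
          have hp2 := Nat.dvd_of_mem_primeFactorsList hp
          exact decide_eq_true (hd2 p hp1 hp2)
        show d.primeFactorsList.Sublist _
        rw [← h3]
        exact (Nat.primeFactorsList_sublist_of_dvd hdx hx0).filter _
      · intro d hd e he hde
        have hd1 := (mem_filter.1 (mem_coe.1 hd)).1
        have he1 := (mem_filter.1 (mem_coe.1 he)).1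
        have hd0 : d ≠ 0 := fun h => by
          rw [h] at hd1
          exact hx0 (Nat.eq_zero_of_zero_dvd (Nat.dvd_of_mem_divisors hd1))
        have he0 : e ≠ 0 := fun h => by
          rw [h] at he1
          exact hx0 (Nat.eq_zero_of_zero_dvd (Nat.dvd_of_mem_divisors he1))
        have h4 : d.primeFactorsList = e.primeFactorsList := hde
        rw [← Nat.prod_primeFactorsList hd0, h4, Nat.prod_primeFactorsList he0]
    refine h2.trans ((List.toFinset_card_le _).trans ?_)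
    rw [List.length_sublists]
  -- the length
  have h5 : (L.length : ℝ) ≤ 1 / κ := by
    rcases Nat.lt_or_ge m 2 with hm | hm
    · have hx1 : x = 1 := by omega
      have : L = [] := by
        rw [hL, hx1, Nat.primeFactorsList_one, List.filter_nil]
      rw [this]
      simp only [List.length_nil, Nat.cast_zero]
      positivity
    · have hm1 : (1 : ℝ) < m := by exact_mod_cast hm
      have hm0 : (0 : ℝ) < m := by linarith
      have h6 : ∀ p ∈ L, (m : ℝ) ^ κ ≤ (p : ℝ) := by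
        intro p hp
        rw [hL, List.mem_filter] at hp
        have h7 : z < p := by simpa using hp.2
        rw [hz] at h7
        unfold zN at h7
        exact (Nat.lt_of_floor_lt h7).le
      have h8 : ((m : ℝ) ^ κ) ^ L.length ≤ (L.prod : ℝ) := del_prod L _ (by positivity) h6
      have h9 : L.prod ∣ x := by
        have h10 : L.Sublist x.primeFactorsList := by
          rw [hL]
          exact List.filter_sublist
        have h11 := h10.prod_dvd_prod
        rwa [Nat.prod_primeFactorsList hx0] at h11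
      have h12 : (L.prod : ℝ) ≤ m := by
        exact_mod_cast (Nat.le_of_dvd (by omega) h9).trans hxm
      have h13 : (m : ℝ) ^ (κ * L.length) ≤ (m : ℝ) ^ (1 : ℝ) := by
        rw [Real.rpow_mul hm0.le, Real.rpow_natCast, Real.rpow_one]
        exact h8.trans h12
      have h14 : κ * L.length ≤ 1 := (Real.rpow_le_rpow_left_iff hm1).1 h13
      rw [le_div_iff₀ hκ]
      linarith
  calc ((x.divisors.filter (fun d => rou z d)).card : ℝ) ≤ (2 : ℝ) ^ L.length := by exact_mod_cast h1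
    _ = (2 : ℝ) ^ (L.length : ℝ) := (Real.rpow_natCast _ _).symm
    _ ≤ (2 : ℝ) ^ (1 / κ) := Real.rpow_le_rpow_of_exponent_le (by norm_num) h5

theorem dn_nonneg (m : ℕ) [NeZero m] (η : ℤ) (U : Finset (DirichletCharacter ℂ m)) (n : ℕ) :
    0 ≤ dn m η U n := by
  unfold dn
  exact mul_nonneg (by positivity) (sum_nonneg fun _ _ => by positivity)

theorem delta (κ : ℝ) (hκ : 0 < κ) : ∃ τ : ℝ, 0 < τ ∧ ∀ (m : ℕ) [NeZero m], 3 ≤ m →
    ∀ η : ℤ, (η = 1 ∨ η = -1) → ∀ U : Finset (DirichletCharacter ℂ m),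
    ∑ n ∈ BR κ m, dn m η U n / n ≤ τ * wout m η U := by
  classical
  obtain ⟨τ, hτ, hdiv⟩ := rough_div κ hκ
  refine ⟨2 * τ, by positivity, fun m _ hm η _ U => ?_⟩
  have hφ : (0 : ℝ) < m.totient := by exact_mod_cast Nat.totient_pos.2 (by omega)
  obtain ⟨f, hf⟩ : ∃ f : ℕ → ℝ, f = fun x => ‖((lam x : ℤ) : ℂ) - GU m η U x‖ ^ 2 := ⟨_, rfl⟩
  have hf0 : ∀ x, 0 ≤ f x := fun x => by
    rw [hf]
    positivity
  have h1 : ∀ n ∈ BR κ m, dn m η U n / n ≤ 2 / m.totient * ∑ x ∈ (cop m (m / 2)).filter (fun x => n ∣ x), f x := by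
    intro n hn
    obtain ⟨hn1, _, hnc, _⟩ := mem_BR.1 hn
    have hn0 : (0 : ℝ) < n := by exact_mod_cast hn1
    have e : dn m η U n / n = 2 / m.totient * ∑ y ∈ cop m (m / (2 * n)), f (n * y) := by
      unfold dn
      rw [hf]
      have e2 : ∑ y ∈ cop m (m / (2 * n)), ‖((lam n : ℤ) : ℂ) * ((lam y : ℤ) : ℂ) - GU m η U (n * y)‖ ^ 2 =
          ∑ y ∈ cop m (m / (2 * n)), ‖((lam (n * y) : ℤ) : ℂ) - GU m η U (n * y)‖ ^ 2 := by
        refine sum_congr rfl fun y hy => ?_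
        rw [lam_mul n y hn1 (mem_cop.1 hy).1, Int.cast_mul]
      rw [e2]
      field_simp
    rw [e]
    refine mul_le_mul_of_nonneg_left ?_ (by positivity)
    have hinj : Set.InjOn (fun y => n * y) (cop m (m / (2 * n)) : Set ℕ) := fun a _ b _ hab =>
      Nat.eq_of_mul_eq_mul_left hn1 hab
    rw [← sum_image (g := fun y => n * y) (f := f) hinj]
    refine sum_le_sum_of_subset_of_nonneg ?_ fun x _ _ => hf0 x
    intro x hx
    obtain ⟨y, hy, rfl⟩ := mem_image.1 hx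
    obtain ⟨hy1, hy2, hy3⟩ := mem_cop.1 hy
    rw [mem_filter, mem_cop]
    refine ⟨⟨Nat.mul_pos hn1 hy1, ?_, Nat.Coprime.mul_left hnc hy3⟩, Dvd.intro y rfl⟩
    rw [Nat.le_div_iff_mul_le (by omega)] at hy2
    rw [Nat.le_div_iff_mul_le (by norm_num)]
    linarith
  have h2 : ∑ n ∈ BR κ m, dn m η U n / n ≤
      2 / m.totient * ∑ n ∈ BR κ m, ∑ x ∈ (cop m (m / 2)).filter (fun x => n ∣ x), f x := by
    rw [mul_sum]
    exact sum_le_sum h1
  have h3 : ∑ n ∈ BR κ m, ∑ x ∈ (cop m (m / 2)).filter (fun x => n ∣ x), f x ≤ τ * ∑ x ∈ cop m (m / 2), f x := by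
    have e1 : ∑ n ∈ BR κ m, ∑ x ∈ (cop m (m / 2)).filter (fun x => n ∣ x), f x =
        ∑ x ∈ cop m (m / 2), ∑ n ∈ (BR κ m).filter (fun n => n ∣ x), f x := by
      simp only [sum_filter]
      rw [sum_comm]
    rw [e1, mul_sum]
    refine sum_le_sum fun x hx => ?_
    rw [sum_const, nsmul_eq_mul]
    refine mul_le_mul_of_nonneg_right ?_ (hf0 x)
    obtain ⟨hx1, hx2, _⟩ := mem_cop.1 hx
    refine le_trans ?_ (hdiv m x hx1 (hx2.trans (Nat.div_le_self m 2)))
    have hsub : (BR κ m).filter (fun n => n ∣ x) ⊆ x.divisors.filter (fun d => rou (zN κ m) d) := by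
      intro n hn
      obtain ⟨hn1, hn2⟩ := mem_filter.1 hn
      exact mem_filter.2 ⟨Nat.mem_divisors.2 ⟨hn2, by omega⟩, (mem_BR.1 hn1).2.2.2⟩
    exact_mod_cast card_le_card hsub
  have h4 : ∑ x ∈ cop m (m / 2), f x ≤ (m.totient : ℝ) * wout m η U := by
    rw [hf]
    exact half_phi m (by omega) η U
  calc ∑ n ∈ BR κ m, dn m η U n / n ≤ 2 / m.totient * (τ * (m.totient * wout m η U)) :=
        h2.trans (mul_le_mul_of_nonneg_left (h3.trans (mul_le_mul_of_nonneg_left h4 hτ.le)) (by positivity))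
    _ = 2 * τ * wout m η U := by field_simp

end Pool.Agent.H78.PD

end
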