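import Mathlib

/-! The parts of this file: H34PG.Final, H11.LQ.Defs, H78.PG.TDefs, H78.PG.TFour. -/

section

/-!
The parity Goldbach theorem for all even numbers (project PG, helper34).
-/

namespace Pool.Agent.H34PG

open ArithmeticFunction

/-- The Liouville function. -/
def lam (n : ℕ) : ℤ := (-1) ^ (cardFactors n)

lemma lam_val (n : ℕ) : lam n = 1 ∨ lam n = -1 := by
  unfold lam
  exact neg_one_pow_eq_or ℤ _

lemma lam_mul (m n : ℕ) (hm : 0 < m) (hn : 0 < n) : lam (m * n) = lam m * lam n := by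
  unfold lam
  rw [cardFactors_mul (by omega) (by omega), pow_add]

end Pool.Agent.H34PG

end

section

/-!
# LQ (MP_967f73_nt, helper78 and helper11): quantitative parity Goldbach: definitions

`lam` is the Liouville function.  `F m η` is the function of period `m` which is `lam` on `(0, m/2]`,
`η * lam` of the absolute value on `(-m/2, 0)` and `0` at `0`.  `Ex m η b` is the set of residues at
which multiplication by `b` does not multiply `F` by `lam b`.
-/

set_option autoImplicit false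

namespace Pool.Agent.H11.LQ

open Finset
open Pool.Agent.H34PG (lam lam_val lam_mul)

/-- the extension of `lam` from `(0, m/2]` to all residues mod `m`, with `F (-x) = η F x`, `F 0 = 0` -/
def F (m : ℕ) (η : ℤ) (n : ℕ) : ℤ :=
  if n % m = 0 then 0 else if 2 * (n % m) ≤ m then lam (n % m) else η * lam (m - n % m)

/-- the residues at which multiplication by `b` is not respected -/
def Ex (m : ℕ) (η : ℤ) (b : ℕ) : Finset ℕ :=
  (range m).filter fun x => F m η (b * x) ≠ lam b * F m η x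

variable {m : ℕ} {η : ℤ}

theorem F_mod (m : ℕ) (η : ℤ) (n : ℕ) : F m η (n % m) = F m η n := by
  unfold F
  rw [Nat.mod_mod]

theorem F_congr {a b : ℕ} (h : a % m = b % m) : F m η a = F m η b := by
  rw [← F_mod, h, F_mod]

theorem F_mod_mul (m : ℕ) (η : ℤ) (b n : ℕ) : F m η (b * (n % m)) = F m η (b * n) :=
  F_congr (by rw [Nat.mul_mod, Nat.mod_mod, ← Nat.mul_mod])

theorem F_zero (m : ℕ) (η : ℤ) : F m η 0 = 0 := by
  unfold F
  rw [Nat.zero_mod, if_pos rfl]

theorem F_dvd {n : ℕ} (h : m ∣ n) : F m η n = 0 := by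
  unfold F
  rw [Nat.mod_eq_zero_of_dvd h, if_pos rfl]

theorem F_small {n : ℕ} (h0 : 0 < n) (h : 2 * n ≤ m) : F m η n = lam n := by
  unfold F
  rw [Nat.mod_eq_of_lt (by omega), if_neg (by omega), if_pos h]

theorem F_big {n : ℕ} (h0 : m < 2 * n) (h : n < m) : F m η n = η * lam (m - n) := by
  unfold F
  rw [Nat.mod_eq_of_lt h, if_neg (by omega), if_neg (by omega)]

theorem F_val (hη : η = 1 ∨ η = -1) {n : ℕ} (h : ¬ m ∣ n) : F m η n = 1 ∨ F m η n = -1 := by
  unfold F
  rw [if_neg fun h1 => h (Nat.dvd_of_mod_eq_zero h1)]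
  split_ifs
  · exact lam_val _
  · rcases hη with h3 | h3 <;> rcases lam_val (m - n % m) with h4 | h4 <;> rw [h3, h4] <;> norm_num

/-- `F (-x) = η F x` (away from `m / 2`). -/
theorem F_neg (hη : η = 1 ∨ η = -1) {a b : ℕ} (h : m ∣ a + b) (h2 : 2 * (a % m) ≠ m) :
    F m η b = η * F m η a := by
  rcases Nat.eq_zero_or_pos m with h0 | h0
  · subst h0
    rw [zero_dvd_iff] at h
    obtain rfl : a = 0 := by omega
    obtain rfl : b = 0 := by omega
    rw [F_zero, mul_zero]
  by_cases ha : m ∣ a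
  · rw [F_dvd ha, F_dvd ((Nat.dvd_add_right ha).mp h), mul_zero]
  · have h1 : (a % m + b % m) % m = 0 := by rw [← Nat.add_mod]; exact Nat.mod_eq_zero_of_dvd h
    have h3 : a % m < m := Nat.mod_lt _ h0
    have h4 : b % m < m := Nat.mod_lt _ h0
    have h5 : a % m ≠ 0 := fun h6 => ha (Nat.dvd_of_mod_eq_zero h6)
    have h6 : a % m + b % m = m := by
      obtain ⟨k, hk⟩ := Nat.dvd_of_mod_eq_zero h1
      have : k = 1 := by
        by_contra hk1
        rcases Nat.lt_or_ge k 1 with h7 | h7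
        · have : k = 0 := by omega
          subst this
          omega
        · have : m * 2 ≤ m * k := Nat.mul_le_mul_left _ (by omega)
          omega
      rw [this] at hk
      omega
    rw [← F_mod m η a, ← F_mod m η b]
    rcases Nat.lt_or_ge m (2 * (a % m)) with h7 | h7
    · rw [F_big h7 h3, F_small (by omega) (by omega)]
      have h8 : m - a % m = b % m := by omega
      rw [h8]
      rcases hη with h9 | h9 <;> rw [h9] <;> ring
    · rw [F_big (n := b % m) (by omega) h4, F_small (n := a % m) (by omega) h7]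
      have h8 : m - b % m = a % m := by omega
      rw [h8]

theorem lam_sq (n : ℕ) : lam n * lam n = 1 := by
  rcases lam_val n with h | h <;> rw [h] <;> norm_num

theorem mem_Ex {b x : ℕ} : x ∈ Ex m η b ↔ x < m ∧ F m η (b * x) ≠ lam b * F m η x := by
  unfold Ex
  rw [mem_filter, mem_range]

/-- the invariance of the exceptional sets -/
theorem Ex_inv {k l a : ℕ} (ha : a ∈ Ex m η k) :
    a ∈ Ex m η l ∨ (k * a) % m ∈ Ex m η l ∨ (l * a) % m ∈ Ex m η k := by
  rw [mem_Ex] at ha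
  obtain ⟨h1, h2⟩ := ha
  have hm : 0 < m := by omega
  by_contra hcon
  rw [not_or, not_or] at hcon
  obtain ⟨c1, c2, c3⟩ := hcon
  rw [mem_Ex, not_and, not_not] at c1 c2 c3
  have d1 := c1 h1
  have d2 := c2 (Nat.mod_lt _ hm)
  have d3 := c3 (Nat.mod_lt _ hm)
  rw [F_mod_mul, F_mod] at d2 d3
  have e1 : l * (k * a) = k * (l * a) := by ring
  rw [e1, d3, d1] at d2
  have e2 := lam_sq l
  apply h2
  have : lam l * (lam k * (lam l * F m η a)) = lam l * (lam l * F m η (k * a)) := by rw [d2]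
  have h3 : lam l * (lam k * (lam l * F m η a)) = (lam l * lam l) * (lam k * F m η a) := by ring
  have h4 : lam l * (lam l * F m η (k * a)) = (lam l * lam l) * F m η (k * a) := by ring
  rw [h3, h4, e2, one_mul, one_mul] at this
  exact this.symm

/-- no exceptions near `0` -/
theorem not_mem_Ex_of_near (hη : η = 1 ∨ η = -1) {k a : ℕ} (hk : 0 < k)
    (h : 2 * k * a < m ∨ 2 * k * (m - a) < m) : a ∉ Ex m η k := by
  rw [mem_Ex, not_and, not_not]
  intro ha
  rcases Nat.eq_zero_or_pos a with h0 | h0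
  · subst h0
    rw [mul_zero, F_zero, mul_zero]
  rcases h with h | h
  · have h1 : 2 * (k * a) < m := by rw [← mul_assoc]; exact h
    have h2 : 1 * a ≤ k * a := Nat.mul_le_mul_right _ hk
    rw [F_small (Nat.mul_pos hk h0) h1.le, F_small h0 (by omega), lam_mul k a hk h0]
  · have h1 : 2 * (k * (m - a)) < m := by rw [← mul_assoc]; exact h
    have h2 : 1 * (m - a) ≤ k * (m - a) := Nat.mul_le_mul_right _ hk
    have h3 : 0 < m - a := by omega
    have e1 : F m η a = η * F m η (m - a) :=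
      F_neg hη ⟨1, by omega⟩ (by rw [Nat.mod_eq_of_lt (by omega)]; omega)
    have e2 : F m η (k * a) = η * F m η (k * (m - a)) := by
      refine F_neg hη ⟨k, ?_⟩ (by rw [Nat.mod_eq_of_lt (by omega)]; omega)
      rw [← mul_add, Nat.sub_add_cancel ha.le, mul_comm]
    rw [e1, e2, F_small (Nat.mul_pos hk h3) h1.le, F_small h3 (by omega), lam_mul k _ hk h3]
    ring

end Pool.Agent.H11.LQ

end

section

/-!
# LQ / PG, analytic part: definitions (helper78)

`m` is the modulus; all characters are Dirichlet characters mod `m` with complex values.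

* `FC m η` : the function `F m η` on `ZMod m`, complex valued;
* `cc m f χ` : the Fourier coefficient of `f` on the unit group;
* `rr δ = ⌈200/δ⌉`, `BB δ m = ⌊m^(1/rr)⌋`;
* `XX δ m` : the characters with `χ q` close to `-1` at all primes `q ≤ BB` not dividing `m`;
* `GG δ m η` : the part of the Fourier expansion with characters in `XX`;
* `PB`, `SS δ m j` : primes `≤ BB` not dividing `m`, and products of `j` different ones;
* `yy m = ⌊m^(49/100)⌋`, `VV m χ = ∑ ‖1 + χ p‖² / p` over primes `p ≤ yy` not dividing `m`;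
* `KK m = √m d(m) (1 + log m)` : the Polya-Vinogradov bound;
* `Hyp δ m η` : the hypothesis to be refuted for large `m`.
-/

set_option autoImplicit false

namespace Pool.Agent.H78.PG

open Finset
open Pool.Agent.H34PG (lam lam_val lam_mul)
open Pool.Agent.H11.LQ

/-- the function `F m η` on `ZMod m`, with complex values -/
noncomputable def FC (m : ℕ) (η : ℤ) (x : ZMod m) : ℂ := ((F m η x.val : ℤ) : ℂ)

/-- Fourier coefficients on the unit group -/
noncomputable def cc (m : ℕ) [NeZero m] (f : ZMod m → ℂ) (χ : DirichletCharacter ℂ m) : ℂ :=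
  (1 / (m.totient : ℂ)) * ∑ u : (ZMod m)ˣ, f (u : ZMod m) * (starRingEnd ℂ) (χ (u : ZMod m))

/-- the number of prime factors of the longest auxiliary products -/
noncomputable def rr (δ : ℝ) : ℕ := ⌈200 / δ⌉₊

/-- the bound for the auxiliary primes -/
noncomputable def BB (δ : ℝ) (m : ℕ) : ℕ := ⌊(m : ℝ) ^ (1 / (rr δ : ℝ))⌋₊

open Classical in
/-- the characters close to `-1` at all small primes -/
noncomputable def XX (δ : ℝ) (m : ℕ) [NeZero m] : Finset (DirichletCharacter ℂ m) :=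
  univ.filter (fun χ => ∀ q : ℕ, q.Prime → q ≤ BB δ m → ¬ q ∣ m →
    ‖χ (q : ZMod m) + 1‖ ≤ (m : ℝ) ^ (-(δ / 4)))

/-- the main part of the expansion of `F` -/
noncomputable def GG (δ : ℝ) (m : ℕ) [NeZero m] (η : ℤ) (n : ℕ) : ℂ :=
  ∑ χ ∈ XX δ m, cc m (FC m η) χ * χ (n : ZMod m)

/-- the auxiliary primes -/
noncomputable def PB (δ : ℝ) (m : ℕ) : Finset ℕ :=
  (Finset.range (BB δ m + 1)).filter (fun p => p.Prime ∧ ¬ p ∣ m)

/-- the auxiliary products -/
noncomputable def SS (δ : ℝ) (m j : ℕ) : Finset ℕ :=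
  (powersetCard j (PB δ m)).image (fun A => ∏ p ∈ A, p)

/-- the length `m^(49/100)` -/
noncomputable def yy (m : ℕ) : ℕ := ⌊(m : ℝ) ^ (49 / 100 : ℝ)⌋₊

/-- the primes up to `yy m` not dividing `m` -/
noncomputable def PY (m : ℕ) : Finset ℕ :=
  (Finset.range (yy m + 1)).filter (fun p => p.Prime ∧ ¬ p ∣ m)

/-- the distance of `χ` to `-1` -/
noncomputable def VV (m : ℕ) (χ : DirichletCharacter ℂ m) : ℝ :=
  ∑ p ∈ PY m, ‖1 + χ (p : ZMod m)‖ ^ 2 / p

/-- the Polya-Vinogradov bound -/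
noncomputable def KK (m : ℕ) : ℝ := Real.sqrt m * m.divisors.card * (1 + Real.log m)

/-- the numbers up to `M` prime to `m` -/
def cop (m M : ℕ) : Finset ℕ := (Icc 1 M).filter (fun x => x.Coprime m)

/-- the hypothesis to be refuted -/
def Hyp (δ : ℝ) (m : ℕ) (η : ℤ) : Prop :=
  (η = 1 ∨ η = -1) ∧ ∀ q : ℕ, q.Prime → (q : ℝ) ≤ (m : ℝ) ^ δ →
    ((Ex m η q).card : ℝ) ≤ (m : ℝ) ^ (1 - δ)

/-- `D(M, χ) = ∑_{d ≤ M} χ(d) ⌊M/d⌋` -/
noncomputable def DD (m M : ℕ) (χ : DirichletCharacter ℂ m) : ℂ :=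
  ∑ d ∈ Icc 1 M, χ (d : ZMod m) * ((M / d : ℕ) : ℂ)

theorem mem_cop {m M x : ℕ} : x ∈ cop m M ↔ 1 ≤ x ∧ x ≤ M ∧ x.Coprime m := by
  unfold cop
  rw [mem_filter, mem_Icc, and_assoc]

open Classical in
theorem mem_XX {δ : ℝ} {m : ℕ} [NeZero m] {χ : DirichletCharacter ℂ m} :
    χ ∈ XX δ m ↔ ∀ q : ℕ, q.Prime → q ≤ BB δ m → ¬ q ∣ m →
      ‖χ (q : ZMod m) + 1‖ ≤ (m : ℝ) ^ (-(δ / 4)) := by
  unfold XX
  simp

theorem mem_PB {δ : ℝ} {m p : ℕ} :
    p ∈ PB δ m ↔ p ≤ BB δ m ∧ p.Prime ∧ ¬ p ∣ m := by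
  unfold PB
  rw [mem_filter, mem_range, Nat.lt_succ_iff]

theorem mem_PY {m p : ℕ} : p ∈ PY m ↔ p ≤ yy m ∧ p.Prime ∧ ¬ p ∣ m := by
  unfold PY
  rw [mem_filter, mem_range, Nat.lt_succ_iff]

theorem FC_natCast {m : ℕ} (η : ℤ) (n : ℕ) : FC m η (n : ZMod m) = ((F m η n : ℤ) : ℂ) := by
  unfold FC
  rw [ZMod.val_natCast, F_mod]

end Pool.Agent.H78.PG

end

section

/-!
# LQ / PG, TFour: Fourier analysis on the unit group

Orthogonality of the Dirichlet characters over the characters: Mathlib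
`DirichletCharacter.sum_char_inv_mul_char_eq`; over the group: `MulChar.sum_eq_zero_of_ne_one` (a sum
over `ZMod m` of a nontrivial character; it vanishes at non-units) or by hand.
`parseval`: expand `‖cc‖²`, orthogonality over the characters.
`part_sum`: `f u = ∑_χ cc f χ * χ u` for all units (inversion), hence
`f - ∑_{χ ∈ X} = ∑_{χ ∉ X} cc f χ * χ`, whose mean square is `∑_{χ ∉ X} ‖cc‖²` (orthogonality over `u`).
`twist`: `cc (x ↦ f (a x) + f x) χ = (χ a + 1) cc f χ` (substitute `u ↦ a⁻¹ u`; `conj (χ a⁻¹) = χ a`), then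
`parseval`.
`ortho_sum`: expand the square, `∑_χ χ(s) conj(χ(s')) = φ(m)` if `s = s'` in `ZMod m`, `0` otherwise;
different elements of `S` (in `[1,m]`, prime to `m`) are different mod `m`.
-/

set_option autoImplicit false

namespace Pool.Agent.H78.PG

open Finset
open Pool.Agent.H34PG (lam lam_val lam_mul)
open Pool.Agent.H11.LQ

theorem tfour_conj (m : ℕ) [NeZero m] (χ : DirichletCharacter ℂ m) (u : (ZMod m)ˣ) :
    (starRingEnd ℂ) (χ (u : ZMod m)) = χ ((u : ZMod m)⁻¹) := by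
  have h1 : ‖χ (u : ZMod m)‖ = 1 := DirichletCharacter.unit_norm_eq_one χ u
  have h2 : χ (u : ZMod m) * χ ((u : ZMod m)⁻¹) = 1 := by
    rw [← map_mul, ZMod.mul_inv_of_unit _ u.isUnit, map_one]
  have h3 : χ (u : ZMod m) ≠ 0 := by
    intro h
    rw [h, zero_mul] at h2
    exact zero_ne_one h2
  have h4 : χ (u : ZMod m) * (starRingEnd ℂ) (χ (u : ZMod m)) = 1 := by
    rw [Complex.mul_conj, Complex.normSq_eq_norm_sq, h1]
    norm_num
  exact mul_left_cancel₀ h3 (h4.trans h2.symm)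

theorem tfour_ortho (m : ℕ) [NeZero m] (u v : (ZMod m)ˣ) :
    ∑ χ : DirichletCharacter ℂ m, (starRingEnd ℂ) (χ (u : ZMod m)) * χ (v : ZMod m)
      = if u = v then (m.totient : ℂ) else 0 := by
  have h := DirichletCharacter.sum_char_inv_mul_char_eq ℂ (n := m) u.isUnit (v : ZMod m)
  have h' : ∑ χ : DirichletCharacter ℂ m, (starRingEnd ℂ) (χ (u : ZMod m)) * χ (v : ZMod m)
      = ∑ χ : DirichletCharacter ℂ m, χ ((u : ZMod m)⁻¹) * χ (v : ZMod m) :=
    Finset.sum_congr rfl (fun χ _ => by rw [tfour_conj m χ u])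
  rw [h', h]
  by_cases huv : u = v
  · rw [if_pos huv, if_pos (by rw [huv])]
  · rw [if_neg huv, if_neg (fun h' => huv (Units.ext h'))]

theorem tfour_tot (m : ℕ) [NeZero m] : (m.totient : ℂ) ≠ 0 := by
  exact_mod_cast (Nat.totient_pos.2 (Nat.pos_of_ne_zero (NeZero.ne m))).ne'

/-- a bilinear form of Parseval -/
theorem tfour_bil (m : ℕ) [NeZero m] (f g : ZMod m → ℂ) :
    ∑ χ : DirichletCharacter ℂ m, cc m f χ * (starRingEnd ℂ) (cc m g χ)
      = (1 / (m.totient : ℂ)) * ∑ u : (ZMod m)ˣ, f (u : ZMod m) * (starRingEnd ℂ) (g (u : ZMod m)) := by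
  have hφ := tfour_tot m
  have h1 : ∀ χ : DirichletCharacter ℂ m, cc m f χ * (starRingEnd ℂ) (cc m g χ)
      = (1 / (m.totient : ℂ)) * (1 / (m.totient : ℂ)) * ∑ u : (ZMod m)ˣ, ∑ v : (ZMod m)ˣ,
        f (u : ZMod m) * (starRingEnd ℂ) (g (v : ZMod m)) *
          ((starRingEnd ℂ) (χ (u : ZMod m)) * χ (v : ZMod m)) := by
    intro χ
    unfold cc
    rw [map_mul, map_sum, map_div₀, map_one, Complex.conj_natCast]
    rw [mul_mul_mul_comm, Finset.sum_mul_sum]
    congr 1
    refine Finset.sum_congr rfl (fun u _ => Finset.sum_congr rfl (fun v _ => ?_))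
    rw [map_mul, Complex.conj_conj]
    ring
  rw [Finset.sum_congr rfl (fun χ _ => h1 χ), ← Finset.mul_sum, Finset.sum_comm]
  have h2 : ∀ u : (ZMod m)ˣ, ∑ χ : DirichletCharacter ℂ m, ∑ v : (ZMod m)ˣ,
      f (u : ZMod m) * (starRingEnd ℂ) (g (v : ZMod m)) *
          ((starRingEnd ℂ) (χ (u : ZMod m)) * χ (v : ZMod m))
      = (m.totient : ℂ) * (f (u : ZMod m) * (starRingEnd ℂ) (g (u : ZMod m))) := by
    intro u
    rw [Finset.sum_comm]
    have h3 : ∀ v : (ZMod m)ˣ, ∑ χ : DirichletCharacter ℂ m,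
        f (u : ZMod m) * (starRingEnd ℂ) (g (v : ZMod m)) *
          ((starRingEnd ℂ) (χ (u : ZMod m)) * χ (v : ZMod m))
        = if u = v then f (u : ZMod m) * (starRingEnd ℂ) (g (v : ZMod m)) * (m.totient : ℂ)
          else 0 := by
      intro v
      rw [← Finset.mul_sum, tfour_ortho]
      split_ifs <;> simp
    rw [Finset.sum_congr rfl (fun v _ => h3 v), Finset.sum_ite_eq, if_pos (Finset.mem_univ _)]
    ring
  rw [Finset.sum_congr rfl (fun u _ => h2 u), ← Finset.mul_sum]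
  field_simp

theorem parseval (m : ℕ) [NeZero m] (f : ZMod m → ℂ) :
    ∑ χ : DirichletCharacter ℂ m, ‖cc m f χ‖ ^ 2
      = (1 / (m.totient : ℝ)) * ∑ u : (ZMod m)ˣ, ‖f (u : ZMod m)‖ ^ 2 := by
  have h := tfour_bil m f f
  have h1 : ∀ z : ℂ, z * (starRingEnd ℂ) z = ((‖z‖ ^ 2 : ℝ) : ℂ) := by
    intro z
    rw [Complex.mul_conj, Complex.normSq_eq_norm_sq]
  simp only [h1] at h
  have h2 : (((∑ χ : DirichletCharacter ℂ m, ‖cc m f χ‖ ^ 2 : ℝ)) : ℂ)
      = (((1 / (m.totient : ℝ)) * ∑ u : (ZMod m)ˣ, ‖f (u : ZMod m)‖ ^ 2 : ℝ) : ℂ) := by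
    push_cast
    push_cast at h
    exact h
  exact_mod_cast h2

/-- Fourier inversion at units -/
theorem tfour_inv (m : ℕ) [NeZero m] (f : ZMod m → ℂ) (u : (ZMod m)ˣ) :
    f (u : ZMod m) = ∑ χ : DirichletCharacter ℂ m, cc m f χ * χ (u : ZMod m) := by
  have hφ := tfour_tot m
  have h1 : ∀ χ : DirichletCharacter ℂ m, cc m f χ * χ (u : ZMod m)
      = ∑ v : (ZMod m)ˣ, (1 / (m.totient : ℂ)) * f (v : ZMod m) *
          ((starRingEnd ℂ) (χ (v : ZMod m)) * χ (u : ZMod m)) := by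
    intro χ
    unfold cc
    rw [Finset.mul_sum, Finset.sum_mul]
    refine Finset.sum_congr rfl (fun v _ => ?_)
    ring
  rw [Finset.sum_congr rfl (fun χ _ => h1 χ), Finset.sum_comm]
  have h3 : ∀ v : (ZMod m)ˣ, ∑ χ : DirichletCharacter ℂ m,
      (1 / (m.totient : ℂ)) * f (v : ZMod m) *
          ((starRingEnd ℂ) (χ (v : ZMod m)) * χ (u : ZMod m))
      = if v = u then f (v : ZMod m) else 0 := by
    intro v
    rw [← Finset.mul_sum, tfour_ortho]
    split_ifs
    · field_simp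
    · simp
  rw [Finset.sum_congr rfl (fun v _ => h3 v), Finset.sum_ite_eq', if_pos (Finset.mem_univ _)]

/-- the coefficients of a finite character sum -/
theorem tfour_coef (m : ℕ) [NeZero m] (d : DirichletCharacter ℂ m → ℂ)
    (χ : DirichletCharacter ℂ m) :
    cc m (fun x => ∑ ψ : DirichletCharacter ℂ m, d ψ * ψ x) χ = d χ := by
  classical
  have hφ := tfour_tot m
  unfold cc
  have h1 : ∑ u : (ZMod m)ˣ, (∑ ψ : DirichletCharacter ℂ m, d ψ * ψ (u : ZMod m)) *
      (starRingEnd ℂ) (χ (u : ZMod m))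
      = ∑ ψ : DirichletCharacter ℂ m, d ψ * ∑ u : (ZMod m)ˣ, (ψ * χ⁻¹) (u : ZMod m) := by
    simp only [Finset.sum_mul]
    rw [Finset.sum_comm]
    refine Finset.sum_congr rfl (fun ψ _ => ?_)
    rw [Finset.mul_sum]
    refine Finset.sum_congr rfl (fun u _ => ?_)
    have h2 : (starRingEnd ℂ) (χ (u : ZMod m)) = χ⁻¹ (u : ZMod m) := MulChar.star_apply' χ _
    rw [MulChar.mul_apply, h2, mul_assoc]
  rw [h1]
  have h2 : ∀ ψ : DirichletCharacter ℂ m, ∑ u : (ZMod m)ˣ, (ψ * χ⁻¹) (u : ZMod m)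
      = if ψ = χ then (m.totient : ℂ) else 0 := by
    intro ψ
    split_ifs with h
    · subst h
      rw [mul_inv_cancel]
      simp [MulChar.one_apply_coe, ZMod.card_units_eq_totient]
    · have h3 : ψ * χ⁻¹ ≠ 1 := fun h' => h (mul_inv_eq_one.1 h')
      have h4 := MulChar.sum_eq_zero_of_ne_one h3
      rw [← h4]
      rw [← Finset.sum_subset (Finset.subset_univ (univ.image (fun u : (ZMod m)ˣ => (u : ZMod m))))]
      · rw [Finset.sum_image]
        intro a _ b _ hab
        exact Units.ext hab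
      · intro x _ hx
        apply MulChar.map_nonunit
        intro hu
        apply hx
        rw [Finset.mem_image]
        exact ⟨hu.unit, Finset.mem_univ _, hu.unit_spec⟩
  simp only [h2, mul_ite, mul_zero, Finset.sum_ite_eq', Finset.mem_univ, if_true]
  field_simp

open Classical in
theorem part_sum (m : ℕ) [NeZero m] (f : ZMod m → ℂ) (X : Finset (DirichletCharacter ℂ m)) :
    ∑ u : (ZMod m)ˣ, ‖f (u : ZMod m) - ∑ χ ∈ X, cc m f χ * χ (u : ZMod m)‖ ^ 2
      = (m.totient : ℝ) * ∑ χ ∈ univ.filter (fun χ => χ ∉ X), ‖cc m f χ‖ ^ 2 := by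
  have hφ : (m.totient : ℝ) ≠ 0 := by
    exact_mod_cast (Nat.totient_pos.2 (Nat.pos_of_ne_zero (NeZero.ne m))).ne'
  set d : DirichletCharacter ℂ m → ℂ := fun χ => if χ ∈ X then 0 else cc m f χ with hd
  set g : ZMod m → ℂ := fun x => ∑ ψ : DirichletCharacter ℂ m, d ψ * ψ x with hg
  have h1 : ∀ u : (ZMod m)ˣ, f (u : ZMod m) - ∑ χ ∈ X, cc m f χ * χ (u : ZMod m)
      = g (u : ZMod m) := by
    intro u
    rw [tfour_inv m f u, hg]
    have h2 : ∑ χ : DirichletCharacter ℂ m, cc m f χ * χ (u : ZMod m)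
        = ∑ χ : DirichletCharacter ℂ m, ((if χ ∈ X then cc m f χ * χ (u : ZMod m) else 0)
          + d χ * χ (u : ZMod m)) := by
      refine Finset.sum_congr rfl (fun χ _ => ?_)
      simp only [hd]
      split_ifs <;> simp
    rw [h2, Finset.sum_add_distrib, Finset.sum_ite_mem, Finset.univ_inter]
    ring
  have h3 := parseval m g
  have h4 : ∀ χ : DirichletCharacter ℂ m, cc m g χ = d χ := tfour_coef m d
  simp only [h4] at h3
  rw [Finset.sum_congr rfl (fun u _ => by rw [h1 u])]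
  have h5 : ∑ χ : DirichletCharacter ℂ m, ‖d χ‖ ^ 2
      = ∑ χ ∈ univ.filter (fun χ => χ ∉ X), ‖cc m f χ‖ ^ 2 := by
    rw [Finset.sum_filter]
    refine Finset.sum_congr rfl (fun χ _ => ?_)
    simp only [hd]
    split_ifs <;> simp_all
  rw [← h5, h3]
  field_simp

theorem twist (m : ℕ) [NeZero m] (f : ZMod m → ℂ) (a : ZMod m) (ha : IsUnit a) :
    ∑ χ : DirichletCharacter ℂ m, ‖cc m f χ‖ ^ 2 * ‖χ a + 1‖ ^ 2
      = (1 / (m.totient : ℝ)) * ∑ u : (ZMod m)ˣ, ‖f (a * u) + f (u : ZMod m)‖ ^ 2 := by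
  obtain ⟨a', rfl⟩ := ha
  have h1 : ∀ χ : DirichletCharacter ℂ m,
      cc m (fun x => f ((a' : ZMod m) * x) + f x) χ = cc m f χ * (χ (a' : ZMod m) + 1) := by
    intro χ
    unfold cc
    have h2 : ∑ u : (ZMod m)ˣ, f ((a' : ZMod m) * u) * (starRingEnd ℂ) (χ (u : ZMod m))
        = χ (a' : ZMod m) * ∑ u : (ZMod m)ˣ, f (u : ZMod m) * (starRingEnd ℂ) (χ (u : ZMod m)) := by
      rw [Finset.mul_sum]
      rw [← Equiv.sum_comp (Equiv.mulLeft a')
        (fun u : (ZMod m)ˣ => χ (a' : ZMod m) * (f (u : ZMod m) * (starRingEnd ℂ) (χ (u : ZMod m))))]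
      refine Finset.sum_congr rfl (fun u _ => ?_)
      simp only [Equiv.coe_mulLeft, Units.val_mul, map_mul]
      have h3 : χ (a' : ZMod m) * (starRingEnd ℂ) (χ (a' : ZMod m)) = 1 := by
        have h1 : ‖χ (a' : ZMod m)‖ = 1 := DirichletCharacter.unit_norm_eq_one χ a'
        rw [Complex.mul_conj, Complex.normSq_eq_norm_sq, h1]
        norm_num
      calc f ((a' : ZMod m) * u) * (starRingEnd ℂ) (χ (u : ZMod m))
          = (χ (a' : ZMod m) * (starRingEnd ℂ) (χ (a' : ZMod m))) *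
            (f ((a' : ZMod m) * u) * (starRingEnd ℂ) (χ (u : ZMod m))) := by rw [h3, one_mul]
        _ = _ := by ring
    simp only [add_mul, Finset.sum_add_distrib, h2]
    ring
  have h3 := parseval m (fun x => f ((a' : ZMod m) * x) + f x)
  rw [← h3]
  refine Finset.sum_congr rfl (fun χ _ => ?_)
  rw [h1, norm_mul]
  ring

theorem ortho_sum (m : ℕ) [NeZero m] (S : Finset ℕ)
    (hS : ∀ s ∈ S, s.Coprime m ∧ 1 ≤ s ∧ s ≤ m) :
    ∑ χ : DirichletCharacter ℂ m, ‖∑ s ∈ S, χ (s : ZMod m)‖ ^ 2 = (m.totient : ℝ) * S.card := by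
  have hinj : ∀ s ∈ S, ∀ t ∈ S, (s : ZMod m) = (t : ZMod m) → s = t := by
    intro s hs t ht h
    rw [ZMod.natCast_eq_natCast_iff] at h
    obtain ⟨hs1, hs2, hs3⟩ := hS s hs
    obtain ⟨ht1, ht2, ht3⟩ := hS t ht
    rcases Nat.lt_or_ge 1 m with hm | hm
    · have hs4 : s < m := by
        refine lt_of_le_of_ne hs3 (fun h' => ?_)
        rw [h'] at hs1
        have : m = 1 := by simpa using hs1
        omega
      have ht4 : t < m := by
        refine lt_of_le_of_ne ht3 (fun h' => ?_)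
        rw [h'] at ht1
        have : m = 1 := by simpa using ht1
        omega
      have := h
      unfold Nat.ModEq at this
      rwa [Nat.mod_eq_of_lt hs4, Nat.mod_eq_of_lt ht4] at this
    · omega
  have h1 : ∀ χ : DirichletCharacter ℂ m, ((‖∑ s ∈ S, χ (s : ZMod m)‖ ^ 2 : ℝ) : ℂ)
      = ∑ s ∈ S, ∑ t ∈ S, (starRingEnd ℂ) (χ (s : ZMod m)) * χ (t : ZMod m) := by
    intro χ
    have : ((‖∑ s ∈ S, χ (s : ZMod m)‖ ^ 2 : ℝ) : ℂ)
        = (starRingEnd ℂ) (∑ s ∈ S, χ (s : ZMod m)) * ∑ t ∈ S, χ (t : ZMod m) := by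
      rw [mul_comm, Complex.mul_conj, Complex.normSq_eq_norm_sq]
    rw [this, map_sum, Finset.sum_mul_sum]
  have h2 : ((∑ χ : DirichletCharacter ℂ m, ‖∑ s ∈ S, χ (s : ZMod m)‖ ^ 2 : ℝ) : ℂ)
      = ((m.totient : ℝ) * S.card : ℝ) := by
    rw [Complex.ofReal_sum, Finset.sum_congr rfl (fun χ _ => h1 χ), Finset.sum_comm]
    have h3 : ∀ s ∈ S, ∑ χ : DirichletCharacter ℂ m, ∑ t ∈ S,
        (starRingEnd ℂ) (χ (s : ZMod m)) * χ (t : ZMod m) = (m.totient : ℂ) := by
      intro s hs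
      rw [Finset.sum_comm]
      have h4 : ∀ t ∈ S, ∑ χ : DirichletCharacter ℂ m,
          (starRingEnd ℂ) (χ (s : ZMod m)) * χ (t : ZMod m)
          = if s = t then (m.totient : ℂ) else 0 := by
        intro t ht
        have hsu : IsUnit (s : ZMod m) := (ZMod.isUnit_iff_coprime _ _).2 (hS s hs).1
        have htu : IsUnit (t : ZMod m) := (ZMod.isUnit_iff_coprime _ _).2 (hS t ht).1
        have h5 := tfour_ortho m hsu.unit htu.unit
        simp only [IsUnit.unit_spec] at h5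
        rw [h5]
        by_cases hst : s = t
        · subst hst
          simp
        · rw [if_neg hst, if_neg]
          intro h6
          apply hst
          apply hinj s hs t ht
          have := congrArg (fun u : (ZMod m)ˣ => (u : ZMod m)) h6
          simpa using this
      rw [Finset.sum_congr rfl h4, Finset.sum_ite_eq, if_pos hs]
    rw [Finset.sum_congr rfl h3, Finset.sum_const, nsmul_eq_mul]
    push_cast
    ring
  exact_mod_cast h2

end Pool.Agent.H78.PG

end
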