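import Pool.Agent.H94.PG.H78.PD.SivA
import Pool.Agent.H94.PG.H91.GoldMertens_1

/-! The parts of this file: Lead.ZN.Mertens, H78.PD.SivC. -/

section

namespace Pool.Agent.Lead.ZN

open Finset

/-- The primes `p` with `u < log p ≤ v`. -/
noncomputable def PL (u v : ℝ) : Finset ℕ :=
  (range (⌊Real.exp v⌋₊ + 1)).filter fun p => p.Prime ∧ u < Real.log p ∧ Real.log p ≤ v

private lemma log_le_iff {p : ℕ} (hp : 0 < p) (v : ℝ) : Real.log p ≤ v ↔ p ≤ ⌊Real.exp v⌋₊ := by
  have hp' : (0 : ℝ) < p := by exact_mod_cast hp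
  rw [Real.log_le_iff_le_exp hp', Nat.le_floor_iff (Real.exp_pos v).le]

theorem mem_PL {u v : ℝ} {p : ℕ} :
    p ∈ PL u v ↔ p.Prime ∧ u < Real.log p ∧ Real.log p ≤ v := by
  unfold PL
  rw [mem_filter, mem_range]
  constructor
  · exact fun h => h.2
  · intro h
    refine ⟨?_, h⟩
    have := (log_le_iff h.1.pos v).1 h.2.2
    omega

/-- sum of `log p / p` over the primes up to `n` -/
private noncomputable def Ap (n : ℕ) : ℝ := ∑ p ∈ Nat.primesLE n, Real.log p / p

private lemma PL_eq {u v : ℝ} : PL u v = Nat.primesLE ⌊Real.exp v⌋₊ \ Nat.primesLE ⌊Real.exp u⌋₊ := by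
  ext p
  rw [mem_PL, mem_sdiff, Nat.mem_primesLE, Nat.mem_primesLE]
  constructor
  · rintro ⟨h1, h2, h3⟩
    refine ⟨⟨(log_le_iff h1.pos v).1 h3, h1⟩, ?_⟩
    rintro ⟨h4, -⟩
    exact absurd ((log_le_iff h1.pos u).2 h4) (not_le.2 h2)
  · rintro ⟨⟨h1, h2⟩, h3⟩
    refine ⟨h2, ?_, (log_le_iff h2.pos v).2 h1⟩
    by_contra hcon
    exact h3 ⟨(log_le_iff h2.pos u).1 (not_lt.1 hcon), h2⟩

private lemma primesLE_mono {a b : ℕ} (h : a ≤ b) : Nat.primesLE a ⊆ Nat.primesLE b := by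
  intro p hp
  rw [Nat.mem_primesLE] at hp ⊢
  exact ⟨hp.1.trans h, hp.2⟩

private lemma floor_exp_mono {u v : ℝ} (h : u ≤ v) : ⌊Real.exp u⌋₊ ≤ ⌊Real.exp v⌋₊ :=
  Nat.floor_le_floor (Real.exp_le_exp.2 h)

private lemma sum_PL {u v : ℝ} (h : u ≤ v) :
    ∑ p ∈ PL u v, Real.log p / p = Ap ⌊Real.exp v⌋₊ - Ap ⌊Real.exp u⌋₊ := by
  rw [PL_eq, Ap, Ap, ← Finset.sum_sdiff (primesLE_mono (floor_exp_mono h))]
  ring

private lemma exists_T : ∃ T : ℝ, 0 ≤ T ∧ ∀ n : ℕ,
    Ap n ≤ Pool.Agent.H91.Gold.Mt n ∧ Pool.Agent.H91.Gold.Mt n ≤ Ap n + T := by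
  have hsum := ArithmeticFunction.vonMangoldt.summable_residueClass_non_primes_div (q := 1) (0 : ZMod 1)
  have hres : ∀ n : ℕ, ArithmeticFunction.vonMangoldt.residueClass (0 : ZMod 1) n = ArithmeticFunction.vonMangoldt n := by
    intro n
    unfold ArithmeticFunction.vonMangoldt.residueClass
    rw [Set.indicator_of_mem]
    exact Subsingleton.elim _ _
  simp only [hres] at hsum
  set F : ℕ → ℝ := fun n => (if n.Prime then 0 else ArithmeticFunction.vonMangoldt n) / n with hF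
  have hF0 : ∀ n, 0 ≤ F n := by
    intro n
    simp only [hF]
    split_ifs
    · simp
    · exact div_nonneg ArithmeticFunction.vonMangoldt_nonneg (Nat.cast_nonneg _)
  refine ⟨∑' n, F n, tsum_nonneg hF0, fun n => ?_⟩
  have hMt : Pool.Agent.H91.Gold.Mt n = Ap n + ∑ k ∈ Ioc 0 n, F k := by
    unfold Pool.Agent.H91.Gold.Mt Ap
    have h1 : Nat.primesLE n = (Ioc 0 n).filter Nat.Prime := by
      ext p
      rw [Nat.mem_primesLE, mem_filter, mem_Ioc]
      constructor
      · rintro ⟨h1, h2⟩; exact ⟨⟨h2.pos, h1⟩, h2⟩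
      · rintro ⟨⟨-, h1⟩, h2⟩; exact ⟨h1, h2⟩
    rw [h1, Finset.sum_filter, ← Finset.sum_add_distrib]
    apply Finset.sum_congr rfl
    intro k _
    simp only [hF]
    split_ifs with hk
    · rw [ArithmeticFunction.vonMangoldt_apply_prime hk]; simp
    · simp
  have h2 : 0 ≤ ∑ k ∈ Ioc 0 n, F k := Finset.sum_nonneg (fun k _ => hF0 k)
  have h3 : ∑ k ∈ Ioc 0 n, F k ≤ ∑' n, F n := hsum.sum_le_tsum _ (fun k _ => hF0 k)
  constructor <;> linarith

private lemma Mt_mono {a b : ℕ} (h : a ≤ b) :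
    Pool.Agent.H91.Gold.Mt a ≤ Pool.Agent.H91.Gold.Mt b := by
  unfold Pool.Agent.H91.Gold.Mt
  apply Finset.sum_le_sum_of_subset_of_nonneg
  · intro k hk
    rw [mem_Ioc] at hk ⊢
    omega
  · intro k _ _
    exact div_nonneg ArithmeticFunction.vonMangoldt_nonneg (Nat.cast_nonneg _)

private lemma Ap_bounds : ∃ K : ℝ, 1 ≤ K ∧ ∀ n : ℕ, 1 ≤ n →
    Ap n ≤ Real.log n + K ∧ Real.log n ≤ Ap n + K := by
  obtain ⟨T, hT0, hT⟩ := exists_T
  refine ⟨max (Real.log 1024 + 1) (1 + T), le_max_of_le_right (by linarith), fun n hn => ?_⟩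
  have hn0 : 0 ≤ Real.log n := Real.log_nonneg (by exact_mod_cast hn)
  have h1 := hT n
  have h2 := Pool.Agent.H91.Gold.Mt_ge n hn
  have h1024 : 0 ≤ Real.log 1024 := Real.log_nonneg (by norm_num)
  constructor
  · have h3 : Pool.Agent.H91.Gold.Mt n ≤ Real.log n + (Real.log 1024 + 1) := by
      rcases Nat.lt_or_ge n 1024 with h | h
      · have h4 := Mt_mono h.le
        have h5 := Pool.Agent.H91.Gold.Mt_le 1024 le_rfl
        push_cast at h5
        linarith only [hn0, h4, h5]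
      · have h5 := Pool.Agent.H91.Gold.Mt_le n h
        linarith only [h1024, h5]
    have := le_max_left (Real.log 1024 + 1) (1 + T)
    linarith
  · have := le_max_right (Real.log 1024 + 1) (1 + T)
    linarith

private lemma floor_exp_pos {v : ℝ} (hv : 0 ≤ v) : 1 ≤ ⌊Real.exp v⌋₊ := by
  rw [Nat.one_le_floor_iff]
  exact Real.one_le_exp hv

private lemma log_floor_le (v : ℝ) (hv : 0 ≤ v) : Real.log (⌊Real.exp v⌋₊ : ℝ) ≤ v := by
  have h1 := floor_exp_pos hv
  have h2 : (0 : ℝ) < (⌊Real.exp v⌋₊ : ℝ) := by exact_mod_cast h1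
  rw [Real.log_le_iff_le_exp h2]
  exact Nat.floor_le (Real.exp_pos v).le

private lemma le_log_floor (v : ℝ) (hv : 0 ≤ v) :
    v - Real.log 2 ≤ Real.log (⌊Real.exp v⌋₊ : ℝ) := by
  have h1 := floor_exp_pos hv
  have h2 : (1 : ℝ) ≤ (⌊Real.exp v⌋₊ : ℝ) := by exact_mod_cast h1
  have h3 : Real.exp v ≤ 2 * (⌊Real.exp v⌋₊ : ℝ) := by
    have := Nat.lt_floor_add_one (Real.exp v)
    linarith only [h2, this]
  have h4 : v ≤ Real.log (2 * (⌊Real.exp v⌋₊ : ℝ)) := by
    rw [Real.le_log_iff_exp_le (by positivity)]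
    exact h3
  rw [Real.log_mul (by norm_num) (by positivity)] at h4
  linarith only [h4]

private lemma log_step {k : ℕ} (hk : 2 ≤ k) : (1 : ℝ) / k ≤ Real.log k - Real.log (k - 1 : ℕ) := by
  have hk0 : (0 : ℝ) < k := by exact_mod_cast (by omega : 0 < k)
  have hk1 : (0 : ℝ) < ((k - 1 : ℕ) : ℝ) := by exact_mod_cast (by omega : 0 < k - 1)
  have hc : ((k - 1 : ℕ) : ℝ) = k - 1 := by push_cast [Nat.cast_sub (by omega : 1 ≤ k)]; ring
  have h := Real.log_le_sub_one_of_pos (show (0 : ℝ) < ((k - 1 : ℕ) : ℝ) / k by positivity)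
  rw [Real.log_div hk1.ne' hk0.ne'] at h
  have h2 : ((k - 1 : ℕ) : ℝ) / k - 1 = - (1 / k) := by rw [hc]; field_simp; ring
  rw [h2] at h
  linarith only [h]

private lemma loglog_step {k : ℕ} (hk : 3 ≤ k) :
    (1 : ℝ) / k * (1 / Real.log k) ≤ Real.log (Real.log k) - Real.log (Real.log (k - 1 : ℕ)) := by
  have hk0 : (0 : ℝ) < k := by exact_mod_cast (by omega : 0 < k)
  have hk1 : (1 : ℝ) < ((k - 1 : ℕ) : ℝ) := by exact_mod_cast (by omega : 1 < k - 1)
  have hk2 : (1 : ℝ) < k := by exact_mod_cast (by omega : 1 < k)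
  have hl1 : 0 < Real.log (k - 1 : ℕ) := Real.log_pos hk1
  have hl2 : 0 < Real.log k := Real.log_pos hk2
  have h := Real.log_le_sub_one_of_pos (show (0 : ℝ) < Real.log (k - 1 : ℕ) / Real.log k by positivity)
  rw [Real.log_div hl1.ne' hl2.ne'] at h
  have h3 := log_step (show 2 ≤ k by omega)
  have h4 : (1 : ℝ) / k * (1 / Real.log k) ≤ (Real.log k - Real.log (k - 1 : ℕ)) * (1 / Real.log k) :=
    mul_le_mul_of_nonneg_right h3 (by positivity)
  have h5 : (Real.log k - Real.log (k - 1 : ℕ)) * (1 / Real.log k) = 1 - Real.log (k - 1 : ℕ) / Real.log k := by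
    field_simp
  rw [h5] at h4
  linarith only [h, h4]

private lemma sum_loglog {w z : ℕ} (hw : 2 ≤ w) (h : w ≤ z) :
    ∑ k ∈ Ioc w z, (1 : ℝ) / k * (1 / Real.log k) ≤ Real.log (Real.log z) - Real.log (Real.log w) := by
  induction z, h using Nat.le_induction with
  | base => simp
  | succ z hz ih =>
    rw [Finset.sum_Ioc_succ_top (by omega)]
    have := loglog_step (k := z + 1) (by omega)
    simp only [Nat.add_sub_cancel] at this
    linarith only [ih, this]

private lemma sum_inv_ge {w m : ℕ} (hw : 1 ≤ w) (h : w ≤ m) :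
    Real.log m - Real.log w - 1 ≤ ∑ k ∈ Ioc w m, (1 : ℝ) / k := by
  have key : Real.log (m + 1) - Real.log (w + 1) ≤ ∑ k ∈ Ioc w m, (1 : ℝ) / k := by
    induction m, h using Nat.le_induction with
    | base => simp
    | succ m hm ih =>
      rw [Finset.sum_Ioc_succ_top (by omega)]
      have hm0 : (0 : ℝ) < (m : ℝ) + 1 := by positivity
      have h1 := Real.log_le_sub_one_of_pos (show (0 : ℝ) < ((m : ℝ) + 2) / (m + 1) by positivity)
      rw [Real.log_div (by positivity) (by positivity)] at h1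
      have h2 : ((m : ℝ) + 2) / (m + 1) - 1 = 1 / (m + 1) := by field_simp; ring
      rw [h2] at h1
      push_cast
      rw [show (m : ℝ) + 1 + 1 = m + 2 by ring]
      linarith only [ih, h1]
  have hw0 : (0 : ℝ) < w := by exact_mod_cast hw
  have hm0 : (0 : ℝ) < m := by exact_mod_cast (by omega : 0 < m)
  have h1 : Real.log m ≤ Real.log (m + 1) := Real.log_le_log hm0 (by linarith)
  have h2 := Real.log_le_sub_one_of_pos (show (0 : ℝ) < ((w : ℝ) + 1) / w by positivity)
  rw [Real.log_div (by positivity) (by positivity)] at h2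
  have h3 : ((w : ℝ) + 1) / w - 1 = 1 / w := by field_simp; ring
  have h4 : (1 : ℝ) / w ≤ 1 := by
    rw [div_le_one hw0]; exact_mod_cast hw
  rw [h3] at h2
  linarith only [key, h1, h2, h4]

/-- Mertens' estimates (one constant for all of them). -/
theorem mertens : ∃ C : ℝ, 1 ≤ C ∧
    (∀ u v : ℝ, 0 ≤ u → u ≤ v → ∑ p ∈ PL u v, Real.log p / p ≤ (v - u) + C) ∧
    (∀ u v : ℝ, 0 ≤ u → u ≤ v → (v - u) - C ≤ ∑ p ∈ PL u v, Real.log p / p) ∧
    (∀ u v : ℝ, 1 ≤ u → u ≤ v → ∑ p ∈ PL u v, (1 : ℝ) / p ≤ Real.log (v / u) + C) ∧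
    (∀ v : ℝ, 0 ≤ v → ∑ p ∈ PL 0 v, Real.log p ≤ C * Real.exp v) := by
  obtain ⟨K, hK1, hK⟩ := Ap_bounds
  have hlog2 : Real.log 2 ≤ 1 := by have := Real.log_two_lt_d9; linarith only [this]
  have hlog2' : 0 < Real.log 2 := Real.log_pos (by norm_num)
  have hlog2'' : Real.log 2 < 0.7 := by have := Real.log_two_lt_d9; linarith only [hlog2', this]
  have hlog2l : 0.69 < Real.log 2 := by have := Real.log_two_gt_d9; linarith only [hlog2'', this]
  refine ⟨4 * K + 10, by linarith only [hK1, hlog2'', hlog2l], ?_, ?_, ?_, ?_⟩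
  · intro u v hu huv
    rw [sum_PL huv]
    have h1 := (hK _ (floor_exp_pos (hu.trans huv))).1
    have h2 := (hK _ (floor_exp_pos hu)).2
    have h3 := log_floor_le v (hu.trans huv)
    have h4 := le_log_floor u hu
    linarith only [hK1, hlog2'', hlog2l, h1, h2, h3, h4]
  · intro u v hu huv
    rw [sum_PL huv]
    have h1 := (hK _ (floor_exp_pos (hu.trans huv))).2
    have h2 := (hK _ (floor_exp_pos hu)).1
    have h3 := le_log_floor v (hu.trans huv)
    have h4 := log_floor_le u hu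
    linarith only [hK1, hlog2'', hlog2l, h1, h2, h3, h4]
  · intro u v hu huv
    set w := ⌊Real.exp u⌋₊ with hw
    set z := ⌊Real.exp v⌋₊ with hz
    have hwz : w ≤ z := floor_exp_mono huv
    have hw2 : 2 ≤ w := by
      rw [hw, Nat.le_floor_iff (Real.exp_pos u).le]
      have h1 : Real.exp 1 ≤ Real.exp u := Real.exp_le_exp.2 hu
      have h2 := Real.exp_one_gt_d9
      push_cast
      linarith only [hlog2'', hlog2l, h1, h2]
    have hw0 : (0 : ℝ) < w := by exact_mod_cast (by omega : 0 < w)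
    have hab := Pool.Agent.H91.Gold.abel_le hwz (c := 2 * K + 1) (by linarith only [hK1, hlog2'', hlog2l])
      (a := fun k => if k.Prime then Real.log k / k else 0)
      (b := fun k => (1 : ℝ) / k) (f := fun k => 1 / Real.log k)
      (fun k hk _ => by
        have : (1 : ℝ) ≤ k := by exact_mod_cast (by omega : 1 ≤ k)
        exact div_nonneg one_pos.le (Real.log_nonneg this))
      (by
        have : (1 : ℝ) ≤ ((w + 1 : ℕ) : ℝ) := by exact_mod_cast (by omega : 1 ≤ w + 1)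
        exact div_nonneg one_pos.le (Real.log_nonneg this))
      (fun k hk _ => by
        have h1 : (1 : ℝ) < k := by exact_mod_cast (by omega : 1 < k)
        apply one_div_le_one_div_of_le (Real.log_pos h1)
        apply Real.log_le_log (by linarith only [hlog2'', hlog2l, h1])
        push_cast; linarith only [hlog2'', hlog2l])
      (fun m hwm hmz => by
        have e1 : ∑ k ∈ Ioc w m, (if k.Prime then Real.log k / k else 0) = Ap m - Ap w := by
          rw [← Finset.sum_filter, Ap, Ap, ← Finset.sum_sdiff (primesLE_mono hwm), add_sub_cancel_right]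
          apply Finset.sum_congr _ (fun _ _ => rfl)
          ext p
          rw [mem_filter, mem_Ioc, mem_sdiff, Nat.mem_primesLE, Nat.mem_primesLE]
          constructor
          · rintro ⟨⟨h1, h2⟩, h3⟩
            exact ⟨⟨h2, h3⟩, fun h => by omega⟩
          · rintro ⟨⟨h1, h2⟩, h3⟩
            refine ⟨⟨?_, h1⟩, h2⟩
            by_contra hcon
            exact h3 ⟨by omega, h2⟩
        rw [e1]
        have h1 := (hK m (by omega)).1
        have h2 := (hK w (by omega)).2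
        have h3 := sum_inv_ge (show 1 ≤ w by omega) hwm
        linarith only [h1, h2, h3])
    have e2 : ∑ p ∈ PL u v, (1 : ℝ) / p = ∑ k ∈ Ioc w z, (if k.Prime then Real.log k / k else 0) * (1 / Real.log k) := by
      have e3 : PL u v = (Ioc w z).filter Nat.Prime := by
        rw [PL_eq]
        ext p
        rw [mem_filter, mem_Ioc, mem_sdiff, Nat.mem_primesLE, Nat.mem_primesLE]
        constructor
        · rintro ⟨⟨h1, h2⟩, h3⟩
          refine ⟨⟨?_, h1⟩, h2⟩
          by_contra hcon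
          exact h3 ⟨by omega, h2⟩
        · rintro ⟨⟨h1, h2⟩, h3⟩
          exact ⟨⟨h2, h3⟩, fun h => by omega⟩
      rw [e3, Finset.sum_filter]
      apply Finset.sum_congr rfl
      intro k hk
      split_ifs with hkp
      · have : 0 < Real.log k := Real.log_pos (by exact_mod_cast hkp.one_lt)
        field_simp
      · simp
    rw [e2]
    refine hab.trans ?_
    have h5 := sum_loglog hw2 hwz
    -- bounds on the loglog terms
    have hz2 : 2 ≤ z := hw2.trans hwz
    have hz0 : (0 : ℝ) < z := by exact_mod_cast (by omega : 0 < z)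
    have hu0 : 0 < u := by linarith only [hlog2'', hlog2l, hu]
    have hv0 : 0 < v := by linarith only [hlog2'', hlog2l, hu, huv]
    have h6 : Real.log (Real.log z) ≤ Real.log v := by
      apply Real.log_le_log (Real.log_pos (by exact_mod_cast (by omega : 1 < z)))
      exact log_floor_le v hv0.le
    have h7 : Real.log u - 2 ≤ Real.log (Real.log w) := by
      have h8 := le_log_floor u hu0.le
      -- log w >= u - log 2 >= 0.3 u
      have h9 : 0.3 * u ≤ Real.log w := by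
        have : Real.log w ≥ u - Real.log 2 := h8
        nlinarith only [hlog2'', hu, h8]
      have h10 : Real.log (0.3 * u) ≤ Real.log (Real.log w) := Real.log_le_log (by positivity) h9
      rw [Real.log_mul (by norm_num) hu0.ne'] at h10
      have h11 : -2 ≤ Real.log 0.3 := by
        rw [Real.le_log_iff_exp_le (by norm_num)]
        have h12 : Real.exp (-2) ≤ 0.25 := by
          rw [show (-2 : ℝ) = -(1 + 1) by norm_num, Real.exp_neg, Real.exp_add]
          have := Real.exp_one_gt_d9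
          rw [inv_le_comm₀ (by positivity) (by norm_num)]
          nlinarith only [hlog2'', hlog2l, this]
        linarith only [hlog2'', hlog2l, h12]
      linarith only [h10, h11]
    have h8 : (2 * K + 1) * (1 / Real.log ((w + 1 : ℕ) : ℝ)) ≤ 2 * K + 1 := by
      have h9 : 1 ≤ Real.log ((w + 1 : ℕ) : ℝ) := by
        rw [Real.le_log_iff_exp_le (by positivity)]
        have : Real.exp 1 < 3 := by have := Real.exp_one_lt_d9; linarith only [hlog2'', hlog2l, this]
        have h3 : (3 : ℝ) ≤ ((w + 1 : ℕ) : ℝ) := by exact_mod_cast (by omega : 3 ≤ w + 1)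
        linarith only [this, h3]
      have h10 : 1 / Real.log ((w + 1 : ℕ) : ℝ) ≤ 1 := by
        rw [div_le_one (by linarith only [hlog2'', hlog2l, h9])]; exact h9
      nlinarith only [h10, hK1]
    rw [Real.log_div hv0.ne' hu0.ne']
    linarith only [hK1, hlog2'', hlog2l, h5, h6, h7, h8]
  · intro v hv
    have h1 := Chebyshev.theta_le_log4_mul_x (Real.exp_pos v).le
    have h2 : ∑ p ∈ PL 0 v, Real.log p ≤ Chebyshev.theta (Real.exp v) := by
      rw [Chebyshev.theta_eq_sum_primesLE]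
      apply Finset.sum_le_sum_of_subset_of_nonneg
      · rw [PL_eq]; exact Finset.sdiff_subset
      · intro p hp _
        exact Real.log_natCast_nonneg p
    have h3 : Real.log 4 ≤ 2 := by
      rw [show (4 : ℝ) = 2 * 2 by norm_num, Real.log_mul (by norm_num) (by norm_num)]
      linarith only [hlog2'', hlog2l]
    have h4 : Real.log 4 * Real.exp v ≤ (4 * K + 10) * Real.exp v :=
      mul_le_mul_of_nonneg_right (by linarith only [hK1, hlog2'', hlog2l, h3]) (Real.exp_pos v).le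
    linarith

end Pool.Agent.Lead.ZN

end

section

/-!
# PD, SivC: Selberg's sum, Mertens' product, the large `N` (copy of `H76/TP/Gup.lean`, `Vsum.lean`, `SvEv.lean` without their imports)
-/

set_option autoImplicit false

namespace Pool.Agent.H78.PD.SL

open Finset

/-- logarithms are smaller than powers -/
theorem log_pow_le (s C : ℝ) (hs : 0 < s) (hC : 0 < C) (c : ℕ) :
    ∃ x0 : ℕ, ∀ x : ℕ, x0 ≤ x → C * Real.log x ^ c ≤ (x : ℝ) ^ s := by
  have h1 := (isLittleO_log_rpow_rpow_atTop (c : ℝ) hs).bound (c := 1 / C) (by positivity)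
  have h2 := h1.and (Filter.eventually_ge_atTop (1 : ℝ))
  have h3 := tendsto_natCast_atTop_atTop (R := ℝ) |>.eventually h2
  obtain ⟨x0, hx0⟩ := Filter.eventually_atTop.1 h3
  refine ⟨x0, fun x hx => ?_⟩
  obtain ⟨h4, h5⟩ := hx0 x hx
  have hl : 0 ≤ Real.log x := Real.log_nonneg h5
  have hp : (0 : ℝ) ≤ (x : ℝ) ^ s := Real.rpow_nonneg (by positivity) _
  rw [Real.rpow_natCast, Real.norm_eq_abs, Real.norm_eq_abs, abs_of_nonneg (by positivity),
    abs_of_nonneg hp] at h4
  rw [div_mul_eq_mul_div, one_mul, le_div_iff₀ hC] at h4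
  linarith only [h4]

/-- logarithms are large -/
theorem log_ge (C : ℝ) : ∃ x0 : ℕ, ∀ x : ℕ, x0 ≤ x → C ≤ Real.log x := by
  have h := (Real.tendsto_log_atTop.comp (tendsto_natCast_atTop_atTop (R := ℝ))).eventually
    (Filter.eventually_ge_atTop C)
  exact Filter.eventually_atTop.1 h

/-- Selberg's denominator -/
noncomputable def GD (w y D : ℕ) : ℝ :=
  ∑ A ∈ (PY w y).powerset.filter (fun A => ∏ p ∈ A, p ≤ D), ∏ p ∈ A, (1 / ((p : ℝ) - 1))

private theorem Gup_factor {l : ℕ} (hl : l.Prime) {h t : ℝ} (h0 : 0 ≤ h) (hk : h * l ≤ 1 + h)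
    (ht0 : 0 ≤ t) (ht1 : t ≤ 1) :
    1 + h * Real.exp t ≤ (1 + h) * Real.exp (1 / l * (2 * t)) := by
  have hl0 : (0 : ℝ) < l := by exact_mod_cast hl.pos
  have h1 : Real.exp t - 1 ≤ 2 * t := by
    have := Real.abs_exp_sub_one_le (x := t) (by rw [abs_of_nonneg ht0]; exact ht1)
    rw [abs_of_nonneg ht0] at this
    exact (le_abs_self _).trans this
  have h2 : h ≤ 1 / l * (1 + h) := by
    rw [div_mul_eq_mul_div, one_mul, le_div_iff₀ hl0]
    exact hk
  have h4 : 1 + 1 / l * (2 * t) ≤ Real.exp (1 / l * (2 * t)) := by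
    have := Real.add_one_le_exp ((1 : ℝ) / l * (2 * t))
    linarith only [this]
  calc 1 + h * Real.exp t = (1 + h) + h * (Real.exp t - 1) := by ring
    _ ≤ (1 + h) + h * (2 * t) := by
        have := mul_le_mul_of_nonneg_left h1 h0
        linarith only [this]
    _ ≤ (1 + h) + 1 / l * (1 + h) * (2 * t) := by
        have := mul_le_mul_of_nonneg_right h2 (by linarith only [ht0] : (0 : ℝ) ≤ 2 * t)
        linarith only [this]
    _ = (1 + h) * (1 + 1 / l * (2 * t)) := by ring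
    _ ≤ (1 + h) * Real.exp (1 / l * (2 * t)) :=
        mul_le_mul_of_nonneg_left h4 (by linarith)

private theorem Gup_mem {w y l : ℕ} (hl : l ∈ PY w y) : l.Prime ∧ l ≤ y := by
  unfold PY at hl
  rw [mem_filter, mem_Ioc] at hl
  exact ⟨hl.2, hl.1.2⟩

theorem gup : ∃ C : ℝ, 0 < C ∧ ∀ w y D : ℕ, 2 ≤ w → w ≤ y → 1 ≤ D →
    1 - C * Real.exp (-(Real.log D / Real.log y)) ≤ VV (PY w y) * GD w y D := by
  obtain ⟨C, hC1, hC, -⟩ := Pool.Agent.Lead.ZN.mertens
  have hlog2 : 0 < Real.log 2 := Real.log_pos (by norm_num)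
  refine ⟨Real.exp (2 * (1 + C / Real.log 2)), Real.exp_pos _, ?_⟩
  intro w y D hw hwy hD
  have hy2 : 2 ≤ y := hw.trans hwy
  have hD0 : (0 : ℝ) < D := by exact_mod_cast hD
  set L : ℝ := Real.log y with hL
  have hL2 : Real.log 2 ≤ L := Real.log_le_log (by norm_num) (by exact_mod_cast hy2)
  have hL0 : 0 < L := hlog2.trans_le hL2
  set P : Finset ℕ := PY w y with hP
  have hPp : ∀ l ∈ P, l.Prime ∧ l ≤ y := fun l hl => Gup_mem hl
  set h : ℕ → ℝ := fun p => 1 / ((p : ℝ) - 1) with hh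
  have hone : ∀ l ∈ P, (1 : ℝ) < l := fun l hl => by exact_mod_cast (hPp l hl).1.one_lt
  have hh0 : ∀ l ∈ P, 0 ≤ h l := fun l hl => by
    have := hone l hl
    rw [hh]
    exact div_nonneg zero_le_one (by linarith only [this])
  have hhk : ∀ l ∈ P, h l * l ≤ 1 + h l := fun l hl => by
    have h1 := hone l hl
    have h2 : (l : ℝ) - 1 ≠ 0 := by linarith only [h1]
    rw [hh]
    apply le_of_eq
    field_simp
    ring
  have hV : VV P * ∏ l ∈ P, (1 + h l) = 1 := by
    unfold VV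
    rw [← Finset.prod_mul_distrib]
    refine Finset.prod_eq_one fun l hl => ?_
    have h1 := hone l hl
    have h2 : (l : ℝ) - 1 ≠ 0 := by linarith only [h1]
    have h3 : (l : ℝ) ≠ 0 := by linarith only [h1]
    rw [hh]
    field_simp
    ring
  have hV0 : 0 ≤ VV P := by
    unfold VV
    refine Finset.prod_nonneg fun l hl => ?_
    have h1 := hone l hl
    have h2 : 1 / (l : ℝ) ≤ 1 := by
      rw [div_le_one (by linarith only [h1])]
      exact h1.le
    linarith only [h2]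
  have ht : ∀ l ∈ P, 0 ≤ Real.log l / L ∧ Real.log l / L ≤ 1 := by
    intro l hl
    have h3 := hone l hl
    refine ⟨div_nonneg (Real.log_nonneg h3.le) hL0.le, ?_⟩
    rw [div_le_one hL0]
    exact Real.log_le_log (by linarith only [h3]) (by exact_mod_cast (hPp l hl).2)
  have hsum : ∑ l ∈ P, Real.log l / l ≤ L + C := by
    have h1 := hC 0 L le_rfl hL0.le
    rw [sub_zero] at h1
    refine le_trans (Finset.sum_le_sum_of_subset_of_nonneg ?_ ?_) h1
    · intro l hl
      obtain ⟨h1, h2⟩ := hPp l hl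
      rw [Pool.Agent.Lead.ZN.mem_PL]
      refine ⟨h1, Real.log_pos (by exact_mod_cast h1.one_lt), ?_⟩
      exact Real.log_le_log (by exact_mod_cast h1.pos) (by exact_mod_cast h2)
    · intro l hl _
      have h2 := (Pool.Agent.Lead.ZN.mem_PL.1 hl).1
      exact div_nonneg (Real.log_nonneg (by exact_mod_cast h2.one_lt.le)) (Nat.cast_nonneg _)
  have hprodpos : 0 ≤ ∏ l ∈ P, (1 + h l) :=
    Finset.prod_nonneg fun l hl => by
      have := hh0 l hl
      linarith only [this]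
  have htw : ∏ l ∈ P, (1 + h l * Real.exp (Real.log l / L)) ≤
      (∏ l ∈ P, (1 + h l)) * Real.exp (2 * (1 + C / Real.log 2)) := by
    have h1 : ∏ l ∈ P, (1 + h l * Real.exp (Real.log l / L)) ≤
        ∏ l ∈ P, ((1 + h l) * Real.exp (1 / l * (2 * (Real.log l / L)))) := by
      refine Finset.prod_le_prod ?_ ?_
      · intro l hl
        have := hh0 l hl
        positivity
      · intro l hl
        exact Gup_factor (hPp l hl).1 (hh0 l hl) (hhk l hl) (ht l hl).1 (ht l hl).2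
    refine h1.trans ?_
    rw [Finset.prod_mul_distrib, ← Real.exp_sum]
    refine mul_le_mul_of_nonneg_left ?_ hprodpos
    rw [Real.exp_le_exp]
    have h4 : ∑ l ∈ P, ((1 : ℝ) / l * (2 * (Real.log l / L))) =
        2 / L * ∑ l ∈ P, Real.log l / l := by
      rw [Finset.mul_sum]
      refine Finset.sum_congr rfl fun l _ => ?_
      ring
    rw [h4]
    have h5 : 2 / L * ∑ l ∈ P, Real.log l / l ≤ 2 / L * (L + C) :=
      mul_le_mul_of_nonneg_left hsum (by positivity)
    refine h5.trans ?_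
    have h6 : 2 / L * (L + C) = 2 * (1 + C / L) := by
      field_simp
    rw [h6]
    refine mul_le_mul_of_nonneg_left ?_ (by norm_num)
    have : C / L ≤ C / Real.log 2 := div_le_div_of_nonneg_left (by linarith only [hC1]) hlog2 hL2
    linarith only [this]
  have hexp : ∏ l ∈ P, (1 + h l) = ∑ T ∈ P.powerset, ∏ l ∈ T, h l := Finset.prod_one_add P
  have hexp2 : ∏ l ∈ P, (1 + h l * Real.exp (Real.log l / L)) =
      ∑ T ∈ P.powerset, ∏ l ∈ T, (h l * Real.exp (Real.log l / L)) := Finset.prod_one_add P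
  have hTs : ∀ T ∈ P.powerset, ∀ l ∈ T, l ∈ P := fun T hT l hl => Finset.mem_powerset.1 hT hl
  -- the bad subsets
  have hbad : ∑ T ∈ P.powerset.filter (fun T => ¬ ∏ l ∈ T, l ≤ D), ∏ l ∈ T, h l ≤
      Real.exp (-(Real.log D / L)) * ∏ l ∈ P, (1 + h l * Real.exp (Real.log l / L)) := by
    rw [hexp2, Finset.mul_sum]
    refine le_trans (Finset.sum_le_sum fun T hT => ?_)
      (Finset.sum_le_sum_of_subset_of_nonneg (Finset.filter_subset _ _) ?_)
    · obtain ⟨hT1, hT2⟩ := Finset.mem_filter.1 hT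
      have hTs' := hTs T hT1
      rw [Finset.prod_mul_distrib, ← Real.exp_sum, mul_left_comm]
      refine le_mul_of_one_le_right
        (Finset.prod_nonneg fun l hl => hh0 l (hTs' l hl)) ?_
      rw [← Real.exp_add]
      refine Real.one_le_exp ?_
      have h1 : ∑ l ∈ T, Real.log (l : ℝ) = Real.log ((∏ l ∈ T, l : ℕ) : ℝ) := by
        push_cast
        rw [Real.log_prod]
        intro l hl
        exact_mod_cast (hPp l (hTs' l hl)).1.ne_zero
      have h2 : Real.log D ≤ ∑ l ∈ T, Real.log (l : ℝ) := by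
        rw [h1]
        refine Real.log_le_log hD0 ?_
        exact_mod_cast (not_le.1 hT2).le
      rw [← Finset.sum_div]
      have h3 : Real.log D / L ≤ (∑ l ∈ T, Real.log (l : ℝ)) / L :=
        div_le_div_of_nonneg_right h2 hL0.le
      linarith only [h3]
    · intro T hT _
      refine mul_nonneg (Real.exp_pos _).le (Finset.prod_nonneg fun l hl => ?_)
      have := hh0 l (hTs T hT l hl)
      positivity
  have hsplit := Finset.sum_filter_add_sum_filter_not P.powerset (fun T => ∏ l ∈ T, l ≤ D)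
    (fun T => ∏ l ∈ T, h l)
  have hG : GD w y D = ∑ T ∈ P.powerset.filter (fun T => ∏ l ∈ T, l ≤ D), ∏ l ∈ T, h l := rfl
  rw [← hexp, ← hG] at hsplit
  have hb2 : ∑ T ∈ P.powerset.filter (fun T => ¬ ∏ l ∈ T, l ≤ D), ∏ l ∈ T, h l ≤
      Real.exp (-(Real.log D / L)) *
        ((∏ l ∈ P, (1 + h l)) * Real.exp (2 * (1 + C / Real.log 2))) :=
    hbad.trans (mul_le_mul_of_nonneg_left htw (Real.exp_pos _).le)
  have hfin : VV P * (∑ T ∈ P.powerset.filter (fun T => ¬ ∏ l ∈ T, l ≤ D), ∏ l ∈ T, h l) ≤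
      Real.exp (2 * (1 + C / Real.log 2)) * Real.exp (-(Real.log D / L)) := by
    refine (mul_le_mul_of_nonneg_left hb2 hV0).trans (le_of_eq ?_)
    calc VV P * (Real.exp (-(Real.log D / L)) *
        ((∏ l ∈ P, (1 + h l)) * Real.exp (2 * (1 + C / Real.log 2))))
        = (VV P * ∏ l ∈ P, (1 + h l)) *
          (Real.exp (2 * (1 + C / Real.log 2)) * Real.exp (-(Real.log D / L))) := by ring
      _ = _ := by rw [hV, one_mul]
  have hmain : VV P * GD w y D = 1 -
      VV P * (∑ T ∈ P.powerset.filter (fun T => ¬ ∏ l ∈ T, l ≤ D), ∏ l ∈ T, h l) := by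
    have h1 : GD w y D = (∏ l ∈ P, (1 + h l)) -
        ∑ T ∈ P.powerset.filter (fun T => ¬ ∏ l ∈ T, l ≤ D), ∏ l ∈ T, h l := by linarith only [hsplit]
    rw [h1, mul_sub, hV]
  rw [hmain]
  linarith only [hfin]

theorem vv_two (n : ℕ) (hn : 2 ≤ n) : 0 < Real.log n ∧ Real.exp (Real.log (Real.log n)) = Real.log n := by
  have hn1 : (1 : ℝ) < n := by exact_mod_cast hn
  have hlog : 0 < Real.log n := Real.log_pos hn1
  exact ⟨hlog, Real.exp_log hlog⟩

theorem vbuch (w y : ℕ) (hwy : w ≤ y) :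
    VV (PW w) - ∑ p ∈ PY w y, VV (PW (p - 1)) / p = VV (PW y) := by
  induction y, hwy using Nat.le_induction with
  | base =>
    unfold PY
    simp
  | succ y hy ih =>
    have e1 : PW (y + 1) = if (y + 1).Prime then insert (y + 1) (PW y) else PW y := by
      ext p
      split_ifs with h
      · simp only [PW, mem_filter, mem_Icc, mem_insert]
        constructor
        · rintro ⟨⟨h1, h2⟩, h3⟩
          by_cases h4 : p = y + 1
          · exact Or.inl h4
          · exact Or.inr ⟨⟨h1, by omega⟩, h3⟩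
        · rintro (h1 | ⟨⟨h1, h2⟩, h3⟩)
          · subst h1
            exact ⟨⟨by omega, le_rfl⟩, h⟩
          · exact ⟨⟨h1, by omega⟩, h3⟩
      · simp only [PW, mem_filter, mem_Icc]
        constructor
        · rintro ⟨⟨h1, h2⟩, h3⟩
          have h4 : p ≠ y + 1 := fun h5 => h (h5 ▸ h3)
          exact ⟨⟨h1, by omega⟩, h3⟩
        · rintro ⟨⟨h1, h2⟩, h3⟩
          exact ⟨⟨h1, by omega⟩, h3⟩
    have e2 : PY w (y + 1) = if (y + 1).Prime then insert (y + 1) (PY w y) else PY w y := by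
      ext p
      split_ifs with h
      · simp only [PY, mem_filter, mem_Ioc, mem_insert]
        constructor
        · rintro ⟨⟨h1, h2⟩, h3⟩
          by_cases h4 : p = y + 1
          · exact Or.inl h4
          · exact Or.inr ⟨⟨h1, by omega⟩, h3⟩
        · rintro (h1 | ⟨⟨h1, h2⟩, h3⟩)
          · subst h1
            exact ⟨⟨by omega, le_rfl⟩, h⟩
          · exact ⟨⟨h1, by omega⟩, h3⟩
      · simp only [PY, mem_filter, mem_Ioc]
        constructor
        · rintro ⟨⟨h1, h2⟩, h3⟩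
          have h4 : p ≠ y + 1 := fun h5 => h (h5 ▸ h3)
          exact ⟨⟨h1, by omega⟩, h3⟩
        · rintro ⟨⟨h1, h2⟩, h3⟩
          exact ⟨⟨h1, by omega⟩, h3⟩
    by_cases h : (y + 1).Prime
    · rw [if_pos h] at e1 e2
      have n1 : y + 1 ∉ PW y := by
        simp only [PW, mem_filter, mem_Icc]
        omega
      have n2 : y + 1 ∉ PY w y := by
        simp only [PY, mem_filter, mem_Ioc]
        omega
      rw [e1, e2, sum_insert n2]
      unfold VV at ih ⊢
      rw [prod_insert n1, Nat.add_sub_cancel]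
      rw [← ih]
      ring
    · rw [if_neg h] at e1 e2
      rw [e1, e2]
      exact ih

/-- `a log L + b ≤ √L` -/
theorem sv_core (a b : ℝ) : ∃ N0 : ℕ, ∀ N : ℕ, N0 ≤ N →
    a * Real.log (Real.log N) + b ≤ Real.sqrt (Real.log N) := by
  have h1 := (isLittleO_log_rpow_atTop (show (0 : ℝ) < 1 / 2 by norm_num)).bound
    (c := 1 / (2 * (|a| + 1))) (by positivity)
  have h2 : ∀ᶠ t : ℝ in Filter.atTop, 2 * |b| ≤ t ^ (1 / 2 : ℝ) :=
    (tendsto_rpow_atTop (by norm_num : (0 : ℝ) < 1 / 2)).eventually_ge_atTop _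
  have h3 := (h1.and h2).and (Filter.eventually_ge_atTop (1 : ℝ))
  have h4 := (Real.tendsto_log_atTop.comp tendsto_natCast_atTop_atTop).eventually h3
  obtain ⟨N0, h5⟩ := Filter.eventually_atTop.1 h4
  refine ⟨N0, fun N hN => ?_⟩
  obtain ⟨⟨k1, k2⟩, k3⟩ := h5 N hN
  simp only [Function.comp_apply] at k1 k2 k3
  set t := Real.log (N : ℝ) with ht
  rw [Real.norm_eq_abs, Real.norm_eq_abs, abs_of_nonneg (by positivity : (0 : ℝ) ≤ t ^ (1 / 2 : ℝ))] at k1
  rw [Real.sqrt_eq_rpow]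
  set s := t ^ (1 / 2 : ℝ) with hs
  have hs0 : 0 ≤ s := by positivity
  have e1 : a * Real.log t ≤ s / 2 := by
    calc a * Real.log t ≤ |a * Real.log t| := le_abs_self _
      _ = |a| * |Real.log t| := abs_mul _ _
      _ ≤ |a| * (1 / (2 * (|a| + 1)) * s) := mul_le_mul_of_nonneg_left k1 (abs_nonneg _)
      _ = (|a| / (|a| + 1)) * (s / 2) := by field_simp
      _ ≤ 1 * (s / 2) := by
          refine mul_le_mul_of_nonneg_right ?_ (by positivity)
          rw [div_le_one (by positivity)]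
          linarith only [abs_nonneg a]
      _ = s / 2 := one_mul _
  have e2 : b ≤ s / 2 := (le_abs_self b).trans (by linarith only [k2])
  linarith only [e1, e2]

/-- `exp(K √L log L) ≤ N^σ` -/
theorem sv_pow (K σ : ℝ) (hσ : 0 < σ) : ∃ N0 : ℕ, ∀ N : ℕ, N0 ≤ N →
    Real.exp (K * Real.sqrt (Real.log N) * Real.log (Real.log N)) ≤ (N : ℝ) ^ σ := by
  obtain ⟨N1, h1⟩ := sv_core (K / σ) 0
  obtain ⟨N2, h2⟩ := log_ge 1
  refine ⟨max (max N1 N2) 1, fun N hN => ?_⟩
  have g1 := h1 N (((le_max_left _ _).trans (le_max_left _ _)).trans hN)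
  have g2 := h2 N (((le_max_right _ _).trans (le_max_left _ _)).trans hN)
  have g3 : 1 ≤ N := (le_max_right _ _).trans hN
  have hN0 : (0 : ℝ) < N := by exact_mod_cast g3
  rw [Real.rpow_def_of_pos hN0]
  apply Real.exp_le_exp.2
  set L := Real.log (N : ℝ) with hL
  rw [add_zero] at g1
  have hs : 0 ≤ Real.sqrt L := Real.sqrt_nonneg _
  have e1 : K * Real.sqrt L * Real.log L = σ * Real.sqrt L * (K / σ * Real.log L) := by
    field_simp
  rw [e1]
  calc σ * Real.sqrt L * (K / σ * Real.log L) ≤ σ * Real.sqrt L * Real.sqrt L :=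
        mul_le_mul_of_nonneg_left g1 (by positivity)
    _ = L * σ := by rw [mul_assoc, Real.mul_self_sqrt (by linarith only [g2])]; ring

/-- `K L^M ≤ 2^⌊√L⌋` -/
theorem sv_two (K : ℝ) (M : ℕ) : ∃ N0 : ℕ, ∀ N : ℕ, N0 ≤ N →
    K * Real.log N ^ M ≤ 2 ^ ⌊Real.sqrt (Real.log N)⌋₊ := by
  obtain ⟨N1, h1⟩ := sv_core (2 * M) (2 * Real.log (|K| + 1) + 1)
  obtain ⟨N2, h2⟩ := log_ge 1
  refine ⟨max N1 N2, fun N hN => ?_⟩
  have g1 := h1 N ((le_max_left _ _).trans hN)
  have g2 := h2 N ((le_max_right _ _).trans hN)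
  set L := Real.log (N : ℝ) with hL
  have hL0 : 0 < L := by linarith
  have hf : Real.sqrt L - 1 ≤ (⌊Real.sqrt L⌋₊ : ℝ) := by
    have := Nat.lt_floor_add_one (Real.sqrt L)
    linarith only [this]
  have hl2 : (1 : ℝ) / 2 ≤ Real.log 2 := by
    have := Real.log_two_gt_d9
    linarith only [this]
  have hf0 : (0 : ℝ) ≤ (⌊Real.sqrt L⌋₊ : ℝ) := Nat.cast_nonneg _
  calc K * L ^ M ≤ (|K| + 1) * L ^ M := by
        refine mul_le_mul_of_nonneg_right ?_ (by positivity)
        linarith only [le_abs_self K]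
    _ = Real.exp (Real.log (|K| + 1) + M * Real.log L) := by
        rw [Real.exp_add, Real.exp_log (by positivity), mul_comm (M : ℝ), ← Real.rpow_def_of_pos hL0,
          Real.rpow_natCast]
    _ ≤ Real.exp ((⌊Real.sqrt L⌋₊ : ℝ) * Real.log 2) := by
        apply Real.exp_le_exp.2
        nlinarith only [g1, hf, hl2]
    _ = 2 ^ ⌊Real.sqrt L⌋₊ := by
        rw [mul_comm, ← Real.rpow_def_of_pos (by norm_num), Real.rpow_natCast]

/-- all the facts -/
theorem sv_ev (e4 e1 ε : ℝ) (he4 : 0 < e4) (he1 : 0 < e1) (he : e1 ≤ e4 / 80) (hε : 0 < ε) (A B : ℕ)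
    (hB : 1 ≤ B) :
    ∃ N0 : ℕ, ∀ N : ℕ, N0 ≤ N → ∀ w r D Q : ℕ, w = ⌊Real.log N ^ B⌋₊ → r = ⌊Real.sqrt (Real.log N)⌋₊ →
      D = ⌊(N : ℝ) ^ (e4 / 40)⌋₊ → Q = w ^ (2 * r) * D ^ 2 →
      8 ≤ Real.log N ∧ 2 ≤ w ∧ w ≤ yN e1 N ∧ Real.log N ^ B / 2 ≤ w ∧ 6 * (1 + Real.log w) ≤ r + 1 ∧
      yN e1 N ≤ D ∧ 1 ≤ D ∧ (yN e1 N : ℝ) ≤ (N : ℝ) ^ e1 ∧ e1 / 2 * Real.log N ≤ Real.log (yN e1 N) ∧
      (Q : ℝ) ≤ (N : ℝ) ^ (e4 / 12) ∧ 6 * (1 + Real.log Q) ^ 3 ≤ Real.log N ^ 4 ∧
      100 * (1 + 2 * Real.log Q) ^ 15 ≤ Real.log N ^ 16 ∧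
      8 * Real.log N ^ A ≤ 2 ^ r ∧ 16 * (2 + Real.log (yN e1 N)) * Real.log N ≤ ε * 2 ^ r ∧
      80 * yN e1 N * (Q : ℝ) ^ 2 * Real.log N ≤ ε * (N : ℝ) ^ e4 ∧
      8 * ((w : ℝ) + 1) ^ (2 * r + 1) * Real.log N ≤ ε * (N : ℝ) ^ e4 ∧
      8 * (Q : ℝ) ^ 4 * Real.log N ^ (A + 4) ≤ (N : ℝ) ^ e4 ∧
      e4 / (50 * e1) ≤ Real.log D / Real.log (yN e1 N) ∧ w ≤ Q ∧ (Q : ℝ) ^ 4 ≤ (N : ℝ) ^ e4 := by
  obtain ⟨M1, hM1⟩ := log_ge (max (max 8 (100 * (1 + e4) ^ 15)) (max (200 / e4) (6 * (1 + e4) ^ 3)))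
  obtain ⟨M2, hM2⟩ := log_pow_le e1 1 he1 (by norm_num) B
  obtain ⟨M3, hM3⟩ := sv_core (6 * B) 6
  obtain ⟨M4, hM4⟩ := log_pow_le (e1 / 2) 2 (by positivity) (by norm_num) 0
  obtain ⟨M5, hM5⟩ := sv_pow (2 * B) (e4 / 60) (by positivity)
  obtain ⟨M6, hM6⟩ := sv_two 8 A
  obtain ⟨M7, hM7⟩ := sv_two (16 * (2 + e1) / ε) 2
  obtain ⟨M8, hM8⟩ := log_pow_le (e4 / 4) (80 / ε) (by positivity) (by positivity) 1
  obtain ⟨M9, hM9⟩ := sv_pow (3 * (B + 1)) (e4 / 4) (by positivity)
  obtain ⟨M10, hM10⟩ := log_pow_le (e4 / 4) 8 (by positivity) (by norm_num) (A + 4)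
  obtain ⟨M11, hM11⟩ := log_pow_le (e4 / 40) 2 (by positivity) (by norm_num) 0
  refine ⟨M1 + M2 + M3 + M4 + M5 + M6 + M7 + M8 + M9 + M10 + M11, fun N hN w r D Q hw hr hD hQ => ?_⟩
  have g1 := hM1 N (by omega)
  have g2 := hM2 N (by omega)
  have g3 := hM3 N (by omega)
  have g4 := hM4 N (by omega)
  have g5 := hM5 N (by omega)
  have g6 := hM6 N (by omega)
  have g7 := hM7 N (by omega)
  have g8 := hM8 N (by omega)
  have g9 := hM9 N (by omega)
  have g10 := hM10 N (by omega)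
  have g11 := hM11 N (by omega)
  rw [pow_zero, mul_one] at g4 g11
  rw [pow_one] at g8
  rw [one_mul] at g2
  set L := Real.log (N : ℝ) with hL
  simp only [max_le_iff] at g1
  obtain ⟨⟨a1, a2⟩, a3, a4⟩ := g1
  have hL0 : 0 < L := by linarith only [a1]
  have hL1 : 1 ≤ L := by linarith only [a1]
  have hN0 : N ≠ 0 := by
    rintro rfl
    rw [hL] at a1
    norm_num at a1
  have hN1 : (1 : ℝ) ≤ N := by exact_mod_cast Nat.one_le_iff_ne_zero.2 hN0
  have hNpos : (0 : ℝ) < N := by linarith only [hN1]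
  have hLB : 8 ≤ L ^ B := by
    calc (8 : ℝ) ≤ L ^ 1 := by linarith only [a1]
      _ ≤ L ^ B := pow_le_pow_right₀ hL1 hB
  have w1 : (w : ℝ) ≤ L ^ B := by rw [hw]; exact Nat.floor_le (by positivity)
  have w2 : L ^ B < w + 1 := by rw [hw]; exact Nat.lt_floor_add_one _
  have w3 : L ^ B / 2 ≤ w := by linarith only [hLB, w2]
  have w4 : (2 : ℝ) ≤ w := by linarith only [hLB, w2]
  have w5 : 2 ≤ w := by exact_mod_cast w4
  have s0 : 0 ≤ Real.sqrt L := Real.sqrt_nonneg _
  have s1 : 1 ≤ Real.sqrt L := by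
    rw [Real.one_le_sqrt]
    exact hL1
  have r1 : (r : ℝ) ≤ Real.sqrt L := by rw [hr]; exact Nat.floor_le s0
  have r2 : Real.sqrt L < r + 1 := by rw [hr]; exact Nat.lt_floor_add_one _
  have r3 : 1 ≤ r := by rw [hr]; exact Nat.floor_pos.2 s1
  have hll : 0 ≤ Real.log L := Real.log_nonneg hL1
  have y1 : (yN e1 N : ℝ) ≤ (N : ℝ) ^ e1 := Nat.floor_le (by positivity)
  have y2 : (N : ℝ) ^ e1 < yN e1 N + 1 := Nat.lt_floor_add_one _
  have y3 : (N : ℝ) ^ (e1 / 2) ≤ yN e1 N := by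
    have t1 : (N : ℝ) ^ e1 = (N : ℝ) ^ (e1 / 2) * (N : ℝ) ^ (e1 / 2) := by
      rw [← Real.rpow_add hNpos]; congr 1; ring
    have t2 := mul_le_mul_of_nonneg_right g4 (show (0 : ℝ) ≤ (N : ℝ) ^ (e1 / 2) by positivity)
    linarith only [g2, hLB, y2, t1, t2]
  have y4 : (2 : ℝ) ≤ yN e1 N := g4.trans y3
  have y5 : e1 / 2 * L ≤ Real.log (yN e1 N) := by
    have := Real.log_le_log (by positivity) y3
    rw [Real.log_rpow hNpos] at this
    exact this
  have y6 : Real.log (yN e1 N) ≤ e1 * L := by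
    have := Real.log_le_log (by linarith only [g2, hLB, y2]) y1
    rw [Real.log_rpow hNpos] at this
    exact this
  have y7 : 0 < Real.log (yN e1 N) := lt_of_lt_of_le (by positivity) y5
  have d1 : (D : ℝ) ≤ (N : ℝ) ^ (e4 / 40) := by rw [hD]; exact Nat.floor_le (by positivity)
  have d2 : (N : ℝ) ^ (e4 / 40) < D + 1 := by rw [hD]; exact Nat.lt_floor_add_one _
  have d3 : (N : ℝ) ^ (e4 / 40) / 2 ≤ D := by linarith only [g11, d2]
  have d4 : 1 ≤ D := by
    rw [hD]; exact Nat.floor_pos.2 (Real.one_le_rpow hN1 (by positivity))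
  have yD : yN e1 N ≤ D := by
    rw [hD]
    unfold yN
    exact Nat.floor_le_floor (Real.rpow_le_rpow_of_exponent_le hN1 (by linarith only [he1, he]))
  have wy : w ≤ yN e1 N := by
    rw [hw]
    unfold yN
    exact Nat.floor_le_floor g2
  -- `w^(2r)`
  have p1 : (w : ℝ) ^ (2 * r) ≤ (N : ℝ) ^ (e4 / 60) := by
    refine le_trans ?_ g5
    calc (w : ℝ) ^ (2 * r) ≤ (L ^ B) ^ (2 * r) := pow_le_pow_left₀ (Nat.cast_nonneg _) w1 _
      _ = Real.exp (((B * (2 * r) : ℕ) : ℝ) * Real.log L) := by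
          rw [← pow_mul, mul_comm _ (Real.log L), ← Real.rpow_def_of_pos hL0, Real.rpow_natCast]
      _ ≤ Real.exp (2 * B * Real.sqrt L * Real.log L) := by
          apply Real.exp_le_exp.2
          refine mul_le_mul_of_nonneg_right ?_ hll
          push_cast
          have : (B : ℝ) * (2 * r) = 2 * B * r := by ring
          rw [this]
          exact mul_le_mul_of_nonneg_left r1 (by positivity)
  have p2 : ((w : ℝ) + 1) ^ (2 * r + 1) ≤ (N : ℝ) ^ (e4 / 4) := by
    refine le_trans ?_ g9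
    have t1 : (w : ℝ) + 1 ≤ L ^ (B + 1) := by
      rw [pow_succ]
      have t2 : L ^ B * 2 ≤ L ^ B * L := mul_le_mul_of_nonneg_left (by linarith only [a1]) (by positivity)
      linarith only [hLB, w1, t2]
    calc ((w : ℝ) + 1) ^ (2 * r + 1) ≤ (L ^ (B + 1)) ^ (2 * r + 1) := pow_le_pow_left₀ (by positivity) t1 _
      _ = Real.exp ((((B + 1) * (2 * r + 1) : ℕ) : ℝ) * Real.log L) := by
          rw [← pow_mul, mul_comm _ (Real.log L), ← Real.rpow_def_of_pos hL0, Real.rpow_natCast]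
      _ ≤ Real.exp (3 * (B + 1) * Real.sqrt L * Real.log L) := by
          apply Real.exp_le_exp.2
          refine mul_le_mul_of_nonneg_right ?_ hll
          push_cast
          have t2 : (2 : ℝ) * r + 1 ≤ 3 * Real.sqrt L := by
            have : (1 : ℝ) ≤ r := by exact_mod_cast r3
            linarith only [s1, r1]
          have t3 : ((B : ℝ) + 1) * (2 * r + 1) ≤ (B + 1) * (3 * Real.sqrt L) :=
            mul_le_mul_of_nonneg_left t2 (by positivity)
          linarith only [t3]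
  have q1 : (Q : ℝ) ≤ (N : ℝ) ^ (e4 / 12) := by
    rw [hQ]
    push_cast
    calc (w : ℝ) ^ (2 * r) * (D : ℝ) ^ 2 ≤ (N : ℝ) ^ (e4 / 60) * ((N : ℝ) ^ (e4 / 40)) ^ 2 :=
          mul_le_mul p1 (pow_le_pow_left₀ (Nat.cast_nonneg _) d1 2) (by positivity) (by positivity)
      _ = (N : ℝ) ^ (e4 / 60 + e4 / 40 * 2) := by
          rw [Real.rpow_add hNpos, Real.rpow_mul hNpos.le (e4 / 40) 2]
          norm_num
      _ ≤ (N : ℝ) ^ (e4 / 12) := Real.rpow_le_rpow_of_exponent_le hN1 (by linarith only [he1, he])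
  have q0 : 1 ≤ Q := by
    rw [hQ]
    exact Nat.mul_pos (by positivity) (by positivity)
  have q0r : (1 : ℝ) ≤ Q := by exact_mod_cast q0
  have q2 : Real.log Q ≤ e4 / 12 * L := by
    have := Real.log_le_log (by linarith only [q0r]) q1
    rw [Real.log_rpow hNpos] at this
    exact this
  have q3 : 0 ≤ Real.log Q := Real.log_nonneg q0r
  have q4 : (Q : ℝ) ^ 4 ≤ (N : ℝ) ^ (e4 / 3) := by
    calc (Q : ℝ) ^ 4 ≤ ((N : ℝ) ^ (e4 / 12)) ^ 4 := pow_le_pow_left₀ (Nat.cast_nonneg _) q1 4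
      _ = (N : ℝ) ^ (e4 / 3) := by
          rw [← Real.rpow_natCast, ← Real.rpow_mul hNpos.le]
          congr 1
          push_cast
          ring
  have q5 : (Q : ℝ) ^ 2 ≤ (N : ℝ) ^ (e4 / 6) := by
    calc (Q : ℝ) ^ 2 ≤ ((N : ℝ) ^ (e4 / 12)) ^ 2 := pow_le_pow_left₀ (Nat.cast_nonneg _) q1 2
      _ = (N : ℝ) ^ (e4 / 6) := by
          rw [← Real.rpow_natCast, ← Real.rpow_mul hNpos.le]
          congr 1
          push_cast
          ring
  refine ⟨a1, w5, wy, w3, ?_, yD, d4, y1, y5, q1, ?_, ?_, ?_, ?_, ?_, ?_, ?_, ?_, ?_, ?_⟩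
  · -- 6 (1 + log w) ≤ r + 1
    have t1 : Real.log w ≤ B * Real.log L := by
      have := Real.log_le_log (by linarith only [hLB, w2]) w1
      rw [Real.log_pow] at this
      exact this
    linarith only [g3, r2, t1]
  · have t1 : 1 + Real.log Q ≤ (1 + e4) * L := by
      have t2 : 0 ≤ e4 * L := by positivity
      linarith only [a1, q2, q3]
    calc 6 * (1 + Real.log Q) ^ 3 ≤ 6 * ((1 + e4) * L) ^ 3 :=
          mul_le_mul_of_nonneg_left (pow_le_pow_left₀ (by linarith only [q3]) t1 3) (by norm_num)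
      _ = (6 * (1 + e4) ^ 3) * L ^ 3 := by ring
      _ ≤ L * L ^ 3 := mul_le_mul_of_nonneg_right a4 (by positivity)
      _ = L ^ 4 := by ring
  · have t1 : 1 + 2 * Real.log Q ≤ (1 + e4) * L := by
      have t2 : 0 ≤ e4 * L := by positivity
      linarith only [a1, q2, q3]
    calc 100 * (1 + 2 * Real.log Q) ^ 15 ≤ 100 * ((1 + e4) * L) ^ 15 :=
          mul_le_mul_of_nonneg_left (pow_le_pow_left₀ (by linarith only [q3]) t1 15) (by norm_num)
      _ = (100 * (1 + e4) ^ 15) * L ^ 15 := by ring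
      _ ≤ L * L ^ 15 := mul_le_mul_of_nonneg_right a2 (by positivity)
      _ = L ^ 16 := by ring
  · rw [hr]; exact g6
  · rw [hr]
    rw [div_mul_eq_mul_div, div_le_iff₀ hε] at g7
    have t1 : 16 * (2 + Real.log (yN e1 N)) * L ≤ 16 * (2 + e1) * L ^ 2 := by
      have t2 : 2 + Real.log (yN e1 N) ≤ (2 + e1) * L := by linarith only [a1, y6]
      calc 16 * (2 + Real.log (yN e1 N)) * L ≤ 16 * ((2 + e1) * L) * L :=
            mul_le_mul_of_nonneg_right (by linarith only [a1, y6]) hL0.le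
        _ = 16 * (2 + e1) * L ^ 2 := by ring
    linarith only [g7, t1]
  · -- 80 y Q² L
    rw [div_mul_eq_mul_div, div_le_iff₀ hε] at g8
    calc 80 * yN e1 N * (Q : ℝ) ^ 2 * L = (yN e1 N : ℝ) * (Q : ℝ) ^ 2 * (80 * L) := by ring
      _ ≤ (N : ℝ) ^ e1 * (N : ℝ) ^ (e4 / 6) * ((N : ℝ) ^ (e4 / 4) * ε) :=
          mul_le_mul (mul_le_mul y1 q5 (by positivity) (by positivity)) g8 (by positivity) (by positivity)
      _ = ε * (N : ℝ) ^ (e1 + e4 / 6 + e4 / 4) := by
          rw [Real.rpow_add hNpos, Real.rpow_add hNpos]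
          ring
      _ ≤ ε * (N : ℝ) ^ e4 :=
          mul_le_mul_of_nonneg_left (Real.rpow_le_rpow_of_exponent_le hN1 (by linarith only [he1, he])) hε.le
  · rw [div_mul_eq_mul_div, div_le_iff₀ hε] at g8
    calc 8 * ((w : ℝ) + 1) ^ (2 * r + 1) * L = ((w : ℝ) + 1) ^ (2 * r + 1) * (8 * L) := by ring
      _ ≤ (N : ℝ) ^ (e4 / 4) * ((N : ℝ) ^ (e4 / 4) * ε) :=
          mul_le_mul p2 (by linarith only [g8, a1]) (by positivity) (by positivity)
      _ = ε * (N : ℝ) ^ (e4 / 4 + e4 / 4) := by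
          rw [Real.rpow_add hNpos]
          ring
      _ ≤ ε * (N : ℝ) ^ e4 :=
          mul_le_mul_of_nonneg_left (Real.rpow_le_rpow_of_exponent_le hN1 (by linarith only [he1, he])) hε.le
  · calc 8 * (Q : ℝ) ^ 4 * L ^ (A + 4) = (Q : ℝ) ^ 4 * (8 * L ^ (A + 4)) := by ring
      _ ≤ (N : ℝ) ^ (e4 / 3) * (N : ℝ) ^ (e4 / 4) := mul_le_mul q4 g10 (by positivity) (by positivity)
      _ = (N : ℝ) ^ (e4 / 3 + e4 / 4) := by rw [Real.rpow_add hNpos]
      _ ≤ (N : ℝ) ^ e4 := Real.rpow_le_rpow_of_exponent_le hN1 (by linarith only [he1, he])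
  · rw [div_le_div_iff₀ (by positivity) y7]
    have t1 : e4 / 40 * L - 1 ≤ Real.log D := by
      have := Real.log_le_log (by positivity) d3
      rw [Real.log_div (by positivity) (by norm_num), Real.log_rpow hNpos] at this
      have h2 := Real.log_two_lt_d9
      linarith only [this, h2]
    have t2 : 200 ≤ e4 * L := by
      rw [div_le_iff₀ he4] at a3
      linarith only [a3]
    calc e4 * Real.log (yN e1 N) ≤ e4 * (e1 * L) := mul_le_mul_of_nonneg_left y6 he4.le
      _ = (e4 / 50 * L) * (50 * e1) := by ring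
      _ ≤ (e4 / 40 * L - 1) * (50 * e1) := by
          refine mul_le_mul_of_nonneg_right ?_ (by positivity)
          linarith only [t2]
      _ ≤ Real.log D * (50 * e1) := mul_le_mul_of_nonneg_right t1 (by positivity)
  · rw [hQ]
    calc w ≤ w ^ (2 * r) := Nat.le_self_pow (by omega) w
      _ ≤ w ^ (2 * r) * D ^ 2 := Nat.le_mul_of_pos_right _ (by positivity)
  · exact q4.trans (Real.rpow_le_rpow_of_exponent_le hN1 (by linarith only [he1, he]))

end Pool.Agent.H78.PD.SL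

end
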