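import Pool.Agent.H94.PG.H36.IS.MtA_1
import Pool.Agent.H94.PG.H78.PD.Siv
import Pool.Agent.H94.PG.M13

/-! The parts of this file: H78.PD.SivC_1, H78.PD.Siv_1. -/

section

/-!
# PD, SivC: Selberg's sum, Mertens' product, the large `N` (copy of `H76/TP/Gup.lean`, `Vsum.lean`, `SvEv.lean` without their imports)
-/

set_option autoImplicit false

namespace Pool.Agent.H78.PD.SL

open Finset

private theorem vv_exp (n : ℕ) : VV (PW n) = Real.exp (-(Pool.Agent.H36.IS.fS n)) := by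
  have e : VV (PW n) = ∏ p ∈ (range (n + 1)).filter Nat.Prime, (1 - 1 / (p : ℝ)) := by
    unfold VV PW
    refine prod_congr ?_ fun _ _ => rfl
    ext p
    simp only [mem_filter, mem_Icc, mem_range]
    constructor
    · rintro ⟨⟨h1, h2⟩, h3⟩
      exact ⟨by omega, h3⟩
    · rintro ⟨h1, h3⟩
      exact ⟨⟨h3.one_lt.le, by omega⟩, h3⟩
  rw [e]
  unfold Pool.Agent.H36.IS.fS
  rw [← sum_neg_distrib, Real.exp_sum]
  refine prod_congr rfl fun p hp => ?_
  rw [mem_filter] at hp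
  have h2 : (2 : ℝ) ≤ p := by exact_mod_cast hp.2.two_le
  have h3 : 1 / (p : ℝ) ≤ 1 / 2 := one_div_le_one_div_of_le (by norm_num) h2
  rw [neg_neg, Real.exp_log (by linarith only [h3])]

theorem vv_le : ∃ C : ℝ, 0 < C ∧ ∀ n : ℕ, 2 ≤ n → VV (PW n) ≤ C / Real.log n := by
  obtain ⟨c, hc⟩ := Pool.Agent.H36.IS.mertA
  obtain ⟨K, hK⟩ := hc.bddBelow_range
  refine ⟨Real.exp (-K), Real.exp_pos _, fun n hn => ?_⟩
  have h1 : K ≤ Pool.Agent.H36.IS.fS n - Real.log (Real.log n) := hK (Set.mem_range_self n)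
  obtain ⟨h2, h3⟩ := vv_two n hn
  rw [vv_exp, le_div_iff₀ h2]
  have h4 : Real.exp (-(Pool.Agent.H36.IS.fS n)) * Real.log n =
      Real.exp (-(Pool.Agent.H36.IS.fS n) + Real.log (Real.log n)) := by rw [Real.exp_add, h3]
  rw [h4]
  apply Real.exp_le_exp.2
  linarith

theorem vv_ge : ∃ c : ℝ, 0 < c ∧ ∀ n : ℕ, 2 ≤ n → c / Real.log n ≤ VV (PW n) := by
  obtain ⟨c, hc⟩ := Pool.Agent.H36.IS.mertA
  obtain ⟨K, hK⟩ := hc.bddAbove_range
  refine ⟨Real.exp (-K), Real.exp_pos _, fun n hn => ?_⟩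
  have h1 : Pool.Agent.H36.IS.fS n - Real.log (Real.log n) ≤ K := hK (Set.mem_range_self n)
  obtain ⟨h2, h3⟩ := vv_two n hn
  rw [vv_exp, div_le_iff₀ h2]
  have h4 : Real.exp (-(Pool.Agent.H36.IS.fS n)) * Real.log n =
      Real.exp (-(Pool.Agent.H36.IS.fS n) + Real.log (Real.log n)) := by rw [Real.exp_add, h3]
  rw [h4]
  apply Real.exp_le_exp.2
  linarith only [h1]

theorem vsum : ∃ C : ℝ, 0 < C ∧ ∀ w y D : ℕ, 2 ≤ w → w ≤ y → y ≤ D →
    ∑ p ∈ PY w y, VV (PW (p - 1)) / p * Real.exp (-(Real.log D / Real.log p)) ≤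
      C / Real.log y * Real.exp (-(Real.log D / Real.log y)) := by
  obtain ⟨C, hC0, hC⟩ := vv_le
  obtain ⟨C1, hC1, hM⟩ := Pool.Agent.H3.LC.mertens
  refine ⟨4 * C * (1 + 2 * C1), by positivity, fun w y D hw hwy hyD => ?_⟩
  have hy2 : 2 ≤ y := hw.trans hwy
  have hy1 : (1 : ℝ) < y := by exact_mod_cast hy2
  have hly : 0 < Real.log y := Real.log_pos hy1
  have hly2 : 1 / 2 ≤ Real.log y := by
    have h1 := Real.log_two_gt_d9
    have h2 : Real.log 2 ≤ Real.log y := Real.log_le_log (by norm_num) (by exact_mod_cast hy2)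
    linarith only [hly, h1, h2]
  have hlD : Real.log y ≤ Real.log D := Real.log_le_log (by linarith only [hy1]) (by exact_mod_cast hyD)
  have hterm : ∀ p ∈ PY w y, VV (PW (p - 1)) / p * Real.exp (-(Real.log D / Real.log p)) ≤
      4 * C / Real.log y ^ 2 * Real.exp (-(Real.log D / Real.log y)) * (Real.log p / p) := by
    intro p hp
    simp only [PY, mem_filter, mem_Ioc] at hp
    obtain ⟨⟨hp1, hp2⟩, hp3⟩ := hp
    have hp0 : 3 ≤ p := by omega
    have hp0' : (3 : ℝ) ≤ p := by exact_mod_cast hp0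
    have hlp : 0 < Real.log p := Real.log_pos (by linarith only [hp0'])
    have hlp2 : Real.log p ≤ Real.log y := Real.log_le_log (by linarith only [hp0']) (by exact_mod_cast hp2)
    have h1 := hC (p - 1) (by omega)
    have h2 : ((p - 1 : ℕ) : ℝ) = p - 1 := by
      rw [Nat.cast_sub (by omega)]
      norm_num
    rw [h2] at h1
    have h3 : Real.log p ≤ 2 * Real.log ((p : ℝ) - 1) := by
      have h4 : Real.log p ≤ Real.log (((p : ℝ) - 1) ^ 2) := Real.log_le_log (by linarith only [hp0']) (by nlinarith only [hp0'])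
      rw [Real.log_pow] at h4
      exact_mod_cast h4
    have h5 : VV (PW (p - 1)) ≤ 2 * C / Real.log p := by
      refine h1.trans ?_
      have h6 : 0 < Real.log ((p : ℝ) - 1) := by linarith only [hlp, h3]
      rw [div_le_div_iff₀ h6 hlp]
      nlinarith only [hC0, h3]
    obtain ⟨u, hu⟩ : ∃ u, u = Real.log y / Real.log p := ⟨_, rfl⟩
    have hu1 : 1 ≤ u := by
      rw [hu, le_div_iff₀ hlp]
      linarith only [hlp2]
    have h7 : Real.log D / Real.log y + (u - 1) ≤ Real.log D / Real.log p := by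
      have e1 : Real.log D / Real.log p = Real.log D / Real.log y * u := by
        rw [hu]
        field_simp
      have e2 : 1 ≤ Real.log D / Real.log y := by
        rw [le_div_iff₀ hly]
        linarith only [hlD]
      rw [e1]
      nlinarith only [hu1, e2]
    have h8 : Real.exp (-(Real.log D / Real.log p)) ≤
        Real.exp (-(Real.log D / Real.log y)) * Real.exp (-(u - 1)) := by
      rw [← Real.exp_add]
      exact Real.exp_le_exp.2 (by linarith only [h7])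
    have h9 : u ^ 2 * Real.exp (-(u - 1)) ≤ 2 := by
      have h10 := Real.quadratic_le_exp_of_nonneg (show 0 ≤ u - 1 by linarith only [hu1])
      rw [Real.exp_neg, ← div_eq_mul_inv, div_le_iff₀ (Real.exp_pos _)]
      nlinarith only [h10]
    have h11 : (1 / Real.log p) * Real.exp (-(u - 1)) ≤ 2 / Real.log y ^ 2 * Real.log p := by
      have e3 : (1 / Real.log p) * Real.exp (-(u - 1)) =
          (u ^ 2 * Real.exp (-(u - 1))) * (Real.log p / Real.log y ^ 2) := by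
        rw [hu]
        field_simp
      rw [e3]
      have h12 : 0 ≤ Real.log p / Real.log y ^ 2 := by positivity
      calc (u ^ 2 * Real.exp (-(u - 1))) * (Real.log p / Real.log y ^ 2) ≤ 2 * (Real.log p / Real.log y ^ 2) :=
            mul_le_mul_of_nonneg_right h9 h12
        _ = 2 / Real.log y ^ 2 * Real.log p := by ring
    have hE0 : 0 < Real.exp (-(Real.log D / Real.log y)) := Real.exp_pos _
    have hE1 : 0 < Real.exp (-(Real.log D / Real.log p)) := Real.exp_pos _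
    calc VV (PW (p - 1)) / p * Real.exp (-(Real.log D / Real.log p))
        ≤ (2 * C / Real.log p) / p * Real.exp (-(Real.log D / Real.log p)) := by
          apply mul_le_mul_of_nonneg_right _ hE1.le
          exact div_le_div_of_nonneg_right h5 (by linarith only [hp0'])
      _ ≤ (2 * C / Real.log p) / p * (Real.exp (-(Real.log D / Real.log y)) * Real.exp (-(u - 1))) :=
          mul_le_mul_of_nonneg_left h8 (by positivity)
      _ = (2 * C / p * Real.exp (-(Real.log D / Real.log y))) * ((1 / Real.log p) * Real.exp (-(u - 1))) := by ring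
      _ ≤ (2 * C / p * Real.exp (-(Real.log D / Real.log y))) * (2 / Real.log y ^ 2 * Real.log p) :=
          mul_le_mul_of_nonneg_left h11 (by positivity)
      _ = _ := by ring
  refine (sum_le_sum hterm).trans ?_
  rw [← mul_sum]
  have h1 : ∑ p ∈ PY w y, Real.log p / p ≤ ∑ p ∈ (Icc 1 y).filter Nat.Prime, Real.log p / p := by
    refine sum_le_sum_of_subset_of_nonneg ?_ ?_
    · intro p hp
      simp only [PY, mem_filter, mem_Ioc] at hp
      simp only [mem_filter, mem_Icc]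
      exact ⟨⟨by omega, hp.1.2⟩, hp.2⟩
    · intro p hp _
      exact div_nonneg (Real.log_natCast_nonneg _) (Nat.cast_nonneg _)
  have h2 := (abs_le.1 (hM y (by omega))).2
  have h3 : ∑ p ∈ PY w y, Real.log p / p ≤ (1 + 2 * C1) * Real.log y := by nlinarith only [h1, h2, hC1, hly2]
  calc 4 * C / Real.log y ^ 2 * Real.exp (-(Real.log D / Real.log y)) * ∑ p ∈ PY w y, Real.log p / p
      ≤ 4 * C / Real.log y ^ 2 * Real.exp (-(Real.log D / Real.log y)) * ((1 + 2 * C1) * Real.log y) :=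
        mul_le_mul_of_nonneg_left h3 (by positivity)
    _ = 4 * C * (1 + 2 * C1) / Real.log y * Real.exp (-(Real.log D / Real.log y)) := by
        field_simp

end Pool.Agent.H78.PD.SL

end

section

/-!
# PD, Siv: the sieve (black box)

From `sv_pairX` (`H43/PX/SvX.lean`) with `N = m`, a small absolute `ε`, `e1 = e10`, `A = 2`, or directly from `sieve_bb` (`H76/TP/SvBB.lean`) and its tools: `S ≥ 0`, `S ≥ rg y ≥ 0`, `Adm Q g S`, `Q ≤ m^(1/1000)`,
`|g| ≤ 3^ω ≤ d(.)²`, so `∑ |g| ≤ m^(1/1000) m^(1/2000)` (`div_le'`).  `V = ∑_{d ≤ Q} g(d)/d`: `∑_{n ≤ x} S(n) = V x + O(m^(1/500))`; comparing with the means of `S` in `sv_pairX` (`Bs` with `α = 0`, `lam_mean`) or with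
`SvI`: `|V - kS| ≤ 1/(log m)^2 + ...`, and `kS M1 ≤ #rough + ε M1/log m`.  `V ≥ c/log m` as `S ≥ 1` on the primes of `(z, M1]`; with `ε` small against `c`: `(49/50) V M1 ≤ #rough`.  `V ≤ C/log m`: `#rough` in
`(1, M1]` is `≤ C M1/log m` (upper bound sieve, or: `#rough ≤` ... from `vv_le`), or any other way.

In the proof (light imports: `SivA`, `SivB`, `SivC` are copies of the modules of `H76/TP` used): `S = SS w y r ρ` with Selberg's weights (as in `H76/TP/SvBB.lean`), `kS = VV (PW w)/GD w y D`, `|V - kS| ≤ 2^(-r)` (`gs_sing` with `q = 1`), `VV (PW y) ≤ kS ≤ 2 VV (PW y)`, Mertens.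
-/

set_option autoImplicit false

namespace Pool.Agent.H78.PD

section Siv

open Finset
open Pool.Agent.H78.PD.SL

end Siv

open Finset
open Pool.Agent.H34PG (lam lam_val lam_mul lam_prime)
open Pool.Agent.H11.LQ Pool.Agent.H78.PG

open Classical in
theorem siv : ∃ κ c C : ℝ, 0 < κ ∧ κ ≤ 1 / 1000 ∧ 0 < c ∧ 0 < C ∧ ∃ m0 : ℕ, ∀ m : ℕ, m0 ≤ m →
    ∃ (S g : ℕ → ℝ) (Q : ℕ) (V : ℝ), (Q : ℝ) ≤ (m : ℝ) ^ (1 / 1000 : ℝ) ∧
      (∀ n : ℕ, 1 ≤ n → S n = ∑ d ∈ (Icc 1 Q).filter (fun d => d ∣ n), g d) ∧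
      ∑ d ∈ Icc 1 Q, |g d| ≤ (m : ℝ) ^ (1 / 500 : ℝ) ∧ V = ∑ d ∈ Icc 1 Q, g d / d ∧
      c / Real.log m ≤ V ∧ V ≤ C / Real.log m ∧
      (∀ n : ℕ, 1 ≤ n → 0 ≤ S n ∧ (rou (zN κ m) n → 1 ≤ S n)) ∧
      49 / 50 * V * M1 m ≤ (((Icc 1 (M1 m)).filter (fun n => rou (zN κ m) n)).card : ℝ) := by
  obtain ⟨C, hC, hg⟩ := SL.gup
  obtain ⟨C1, hC1, hv⟩ := SL.vv_le
  obtain ⟨C2, hC2, hs⟩ := SL.vsum
  obtain ⟨c0, hc0, hlow⟩ := SL.vv_ge
  obtain ⟨a1, ha1, hs1⟩ := Siv_small (1 / 1000) (4 * C * (C1 + C2)) (c0 / 200 / 2) (by norm_num) (by positivity) (by positivity)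
  obtain ⟨a2, ha2, hs2⟩ := Siv_small (1 / 1000) C (1 / 2) (by norm_num) hC (by norm_num)
  obtain ⟨κ, hκ⟩ : ∃ κ : ℝ, κ = min (min a1 a2) (1 / 1000 / 80) := ⟨_, rfl⟩
  have hκ0 : 0 < κ := by rw [hκ]; positivity
  have k1 : κ ≤ a1 := by rw [hκ]; exact (min_le_left _ _).trans (min_le_left _ _)
  have k2 : κ ≤ a2 := by rw [hκ]; exact (min_le_left _ _).trans (min_le_right _ _)
  have k3 : κ ≤ 1 / 1000 / 80 := by rw [hκ]; exact min_le_right _ _
  have k4 : κ ≤ 1 / 1000 := by linarith only [hκ0, k3]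
  refine ⟨κ, c0 / 2, 4 * C1 / κ + 1, hκ0, k4, by positivity, by positivity, ?_⟩
  obtain ⟨N0, hN0⟩ := SL.sv_ev (1 / 1000) κ (c0 / 200) (by norm_num) hκ0 k3 (by positivity) 2 1 le_rfl
  obtain ⟨N1, h1⟩ := Filter.eventually_atTop.1 ((Real.tendsto_log_atTop.comp
    (tendsto_natCast_atTop_atTop (R := ℝ))).eventually_ge_atTop (20 / c0))
  refine ⟨max N0 (max N1 4), fun m hm => ?_⟩
  simp only [max_le_iff] at hm
  obtain ⟨hm0, hm1, hm2⟩ := hm
  have p1 : 20 / c0 ≤ Real.log m := h1 m hm1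
  obtain ⟨w, hw⟩ : ∃ w, w = ⌊Real.log m ^ 1⌋₊ := ⟨_, rfl⟩
  obtain ⟨r, hr⟩ : ∃ r, r = ⌊Real.sqrt (Real.log m)⌋₊ := ⟨_, rfl⟩
  obtain ⟨D, hD⟩ : ∃ D, D = ⌊(m : ℝ) ^ ((1 / 1000 : ℝ) / 40)⌋₊ := ⟨_, rfl⟩
  obtain ⟨b1, b2, b3, b4, b5, b6, b7, b8, b9, b10, b11, b12, b13, b14, b15, b16, b17, b18, b19, b20⟩ :=
    hN0 m hm0 w r D (w ^ (2 * r) * D ^ 2) hw hr hD rfl
  obtain ⟨y, hy⟩ : ∃ y, y = SL.yN κ m := ⟨_, rfl⟩
  have hyz : zN κ m = y := by rw [hy]; rfl
  rw [← hy] at b3 b6 b8 b9 b14 b15 b18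
  obtain ⟨L, hL⟩ : ∃ L, L = Real.log (m : ℝ) := ⟨_, rfl⟩
  rw [← hL] at p1 b1 b4 b9 b11 b12 b13 b14 b15 b16 b17
  rw [hyz, ← hL]
  have hL0 : 0 < L := by linarith only [hκ0, k3, b1]
  have hmr : (4 : ℝ) ≤ m := by exact_mod_cast hm2
  have hm00 : (0 : ℝ) < m := by linarith only [hκ0, k3, hmr]
  obtain ⟨ρ, hρ, hSF⟩ := Siv_sel w y D (by omega) b7
  have hGD1 := Siv_GD w y D b7
  have hGD : 0 < SL.GD w y D := lt_of_lt_of_le one_pos hGD1
  have hAdm := Siv_adm w y r D ρ (by omega) b3 hρ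
  have hsing := SL.gs_sing w y r D 1 ρ b2 b3 hρ b5 (by rw [hSF]; positivity)
    (by rw [hSF, div_le_one hGD]; exact hGD1) le_rfl (by omega)
  have hlowy := hlow y (by omega)
  have hvy := hv y (by omega)
  have hlogy : 0 < Real.log y := lt_of_lt_of_le (by positivity) b9
  have hlogy2 : Real.log y ≤ L := by
    have hy0 : (0 : ℝ) < y := by exact_mod_cast (by omega : 0 < y)
    have h2 : Real.log y ≤ κ * L := by
      have := Real.log_le_log hy0 b8
      rwa [Real.log_rpow hm00, ← hL] at this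
    have h3 : κ * L ≤ 1 * L := mul_le_mul_of_nonneg_right (by linarith only [hκ0, k3]) hL0.le
    linarith only [h2, h3]
  have hexp : Real.exp (-(Real.log D / Real.log y)) ≤ Real.exp (-((1 / 1000 : ℝ) / (50 * κ))) := by
    apply Real.exp_le_exp.2
    linarith only [b18]
  have hE : C * Real.exp (-(Real.log D / Real.log y)) ≤ 1 / 2 := by
    have t1 := hs2 κ hκ0 k2
    have t2 : C * Real.exp (-((1 / 1000 : ℝ) / (50 * κ))) ≤ C / κ * Real.exp (-((1 / 1000 : ℝ) / (50 * κ))) := by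
      refine mul_le_mul_of_nonneg_right ?_ (Real.exp_pos _).le
      rw [le_div_iff₀ hκ0]
      have : C * κ ≤ C * 1 := mul_le_mul_of_nonneg_left (by linarith only [hκ0, k3]) hC.le
      linarith only [this]
    exact (mul_le_mul_of_nonneg_left hexp hC.le).trans (t2.trans t1)
  obtain ⟨kS, hkS⟩ : ∃ kS, kS = SL.VV (SL.PW w) * (1 / SL.GD w y D) := ⟨_, rfl⟩
  have hk1 : c0 / L ≤ kS := by
    have h2 := Siv_low w y D (by omega) b3 b7
    rw [← hkS] at h2
    have h3 : c0 / L ≤ c0 / Real.log y := div_le_div_of_nonneg_left hc0.le hlogy hlogy2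
    linarith only [hlowy, h2, h3]
  have hk2 : kS ≤ 4 * C1 / κ / L := by
    have h2 := Siv_inv C hC hg w y D b2 b3 b7 _ le_rfl hE
    rw [← hkS] at h2
    have h3 : 0 ≤ SL.VV (SL.PW y) := Siv_VV_nonneg _ (Siv_PW y)
    have h4 : kS ≤ SL.VV (SL.PW y) * 2 :=
      h2.trans (mul_le_mul_of_nonneg_left (by linarith only [hE]) h3)
    have h5 : C1 / Real.log y ≤ C1 / (κ / 2 * L) := div_le_div_of_nonneg_left hC1.le (by positivity) b9
    have h6 : C1 / (κ / 2 * L) * 2 = 4 * C1 / κ / L := by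
      field_simp
      ring
    linarith only [hvy, h4, h5, h6]
  obtain ⟨Q, hQ⟩ : ∃ Q, Q = w ^ (2 * r) * D ^ 2 := ⟨_, rfl⟩
  have hQ' : (w : ℝ) ^ (2 * r) * (D : ℝ) ^ 2 = Q := by rw [hQ]; push_cast; ring
  rw [← hQ] at b10 b11 b12 b15 b17 b19 b20 hAdm hsing
  obtain ⟨V, hV⟩ : ∃ V, V = ∑ d ∈ Icc 1 Q, SL.gS w y r ρ d / d := ⟨_, rfl⟩
  have hVk : |V - kS| ≤ 1 / (8 * L ^ 2) := by
    have h2 : (Icc 1 Q).filter (fun n => 1 ∣ n) = Icc 1 Q := filter_true_of_mem fun n _ => one_dvd n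
    have h3 : |V - kS| ≤ 1 / 2 ^ r := by
      rw [h2, ← hV, hSF] at hsing
      simp only [ArithmeticFunction.moebius_apply_one, Int.cast_one, Nat.totient_one, Nat.cast_one, mul_one, div_one] at hsing
      rw [← hkS] at hsing
      exact hsing
    exact h3.trans (one_div_le_one_div_of_le (by positivity) b13)
  have hVk1 := (abs_le.1 hVk).1
  have hVk2 := (abs_le.1 hVk).2
  have hL20 : 20 / c0 ≤ L := p1
  have hcL : 20 ≤ c0 * L := by
    rw [div_le_iff₀ hc0] at hL20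
    linarith only [hL20]
  -- `1/(8 L²) ≤ c0/(160 L)`
  have hsm : 1 / (8 * L ^ 2) ≤ c0 / 160 / L := by
    rw [div_div, div_le_div_iff₀ (by positivity) (by positivity)]
    have : c0 * (8 * L ^ 2) = 8 * L * (c0 * L) := by ring
    rw [this]
    have h2 : 8 * L * 20 ≤ 8 * L * (c0 * L) := mul_le_mul_of_nonneg_left hcL (by positivity)
    linarith only [h2]
  have hsm2 : 1 / (8 * L ^ 2) ≤ 1 / L := by
    apply one_div_le_one_div_of_le hL0
    have h2 : L * 8 ≤ L * L := mul_le_mul_of_nonneg_left b1 hL0.le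
    have h3 : L * L = L ^ 2 := by ring
    have h4 : 0 < L ^ 2 := by positivity
    linarith only [hκ0, k3, b1, h2]
  have e1 : c0 / 160 / L = 1 / 160 * (c0 / L) := by ring
  have e0 : 0 < c0 / L := by positivity
  refine ⟨SL.SS w y r ρ, SL.gS w y r ρ, Q, V, ?_, hAdm.2.2, ?_, hV, ?_, ?_, ?_, ?_⟩
  · refine b10.trans (Real.rpow_le_rpow_of_exponent_le (by linarith only [hκ0, k3, hmr]) (by norm_num))
  · refine (Siv_abs Q _ hAdm.2.1).trans ?_
    have hQ0 : (0 : ℝ) ≤ Q := Nat.cast_nonneg Q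
    calc (Q : ℝ) ^ 3 ≤ ((m : ℝ) ^ ((1 / 1000 : ℝ) / 12)) ^ 3 := pow_le_pow_left₀ hQ0 b10 3
      _ = (m : ℝ) ^ ((1 / 1000 : ℝ) / 12 * 3) := by
          rw [Real.rpow_mul hm00.le]
          norm_num
      _ ≤ _ := Real.rpow_le_rpow_of_exponent_le (by linarith only [hκ0, k3, hmr]) (by norm_num)
  · have h2 : c0 / 2 / L = 1 / 2 * (c0 / L) := by ring
    rw [h2]
    linarith only [hk1, hVk1, hsm, e1, e0]
  · have h2 : (4 * C1 / κ + 1) / L = 4 * C1 / κ / L + 1 / L := by ring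
    rw [h2]
    linarith only [hk2, hVk2, hsm2]
  · intro n hn
    refine ⟨SL.ss_nonneg w y r ρ n, fun h => ?_⟩
    have h2 := SL.ss_ge w y r D ρ b3 hρ n hn
    have h3 : SL.rg y n = 1 := by
      unfold SL.rg
      exact if_pos h
    rw [h3] at h2
    exact h2
  · have hMr : (m : ℝ) ^ (1 / 1000 : ℝ) ≤ M1 m := by
      unfold M1
      have h2 : (m : ℝ) ^ (1 / 1000 : ℝ) + 1 ≤ (m : ℝ) ^ (201 / 400 : ℝ) := by
        have h4 : (m : ℝ) ^ (201 / 400 : ℝ) = (m : ℝ) ^ (1 / 1000 : ℝ) * (m : ℝ) ^ (1003 / 2000 : ℝ) := by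
          rw [← Real.rpow_add hm00]
          norm_num
        have h5 : (2 : ℝ) ≤ (m : ℝ) ^ (1003 / 2000 : ℝ) := by
          calc (2 : ℝ) = Real.sqrt (2 ^ 2) := (Real.sqrt_sq (by norm_num)).symm
            _ ≤ Real.sqrt m := Real.sqrt_le_sqrt (by linarith only [hmr])
            _ = (m : ℝ) ^ (1 / 2 : ℝ) := Real.sqrt_eq_rpow _
            _ ≤ _ := Real.rpow_le_rpow_of_exponent_le (by linarith only [hκ0, k3, hmr]) (by norm_num)
        have h6 : (1 : ℝ) ≤ (m : ℝ) ^ (1 / 1000 : ℝ) := Real.one_le_rpow (by linarith only [hκ0, k3, hmr]) (by norm_num)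
        have h7 := mul_le_mul_of_nonneg_left h5 (show 0 ≤ (m : ℝ) ^ (1 / 1000 : ℝ) by linarith only [hκ0, k3, h6])
        rw [h4]
        linarith only [h6, h7]
      have h3 := Nat.lt_floor_add_one ((m : ℝ) ^ (201 / 400 : ℝ))
      linarith only [h2, h3]
    obtain ⟨M, hM⟩ : ∃ M, M = M1 m := ⟨_, rfl⟩
    rw [← hM] at hMr ⊢
    have key := Siv_mean C C1 C2 hC hC1 hC2 hg hv hs w y r D 0 M b2 b3 b6 b5 hE
    rw [← hkS, hQ', zero_add] at key
    have hcard : ∑ n ∈ Ioc 0 M, SL.rg y n =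
        (((Icc 1 M).filter (fun n => rou y n)).card : ℝ) := by
      rw [card_filter]
      push_cast
      refine sum_congr (by ext n; simp [mem_Ioc, mem_Icc, Nat.succ_le_iff]) fun n _ => ?_
      rfl
    rw [hcard] at key
    obtain ⟨R, hR⟩ : ∃ R : ℝ, R = (((Icc 1 M).filter (fun n => rou y n)).card : ℝ) := ⟨_, rfl⟩
    rw [← hR] at key ⊢
    have hM0 : (0 : ℝ) ≤ M := Nat.cast_nonneg M
    have h2r : (0 : ℝ) < 2 ^ r := by positivity
    obtain ⟨ε, hε⟩ : ∃ ε : ℝ, ε = c0 / 200 := ⟨_, rfl⟩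
    have hε0 : 0 < ε := by rw [hε]; positivity
    rw [← hε] at hs1 b14 b15 b16
    have m1 : (M : ℝ) * (2 * C * (C1 + C2) / Real.log y * Real.exp (-(Real.log D / Real.log y))) ≤
        ε / 2 * M / L := by
      have t1 := hs1 κ hκ0 k1
      have t2 : 2 * C * (C1 + C2) / Real.log y ≤ 4 * C * (C1 + C2) / κ / L := by
        rw [div_div, div_le_div_iff₀ hlogy (by positivity)]
        have t3 := mul_le_mul_of_nonneg_left b9 (show 0 ≤ 4 * C * (C1 + C2) by positivity)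
        linarith only [t3]
      have t4 : 2 * C * (C1 + C2) / Real.log y * Real.exp (-(Real.log D / Real.log y)) ≤
          4 * C * (C1 + C2) / κ / L * Real.exp (-((1 / 1000 : ℝ) / (50 * κ))) :=
        mul_le_mul t2 hexp (Real.exp_pos _).le (by positivity)
      have t5 : 4 * C * (C1 + C2) / κ / L * Real.exp (-((1 / 1000 : ℝ) / (50 * κ))) =
          (4 * C * (C1 + C2) / κ * Real.exp (-((1 / 1000 : ℝ) / (50 * κ)))) / L := by ring
      rw [t5] at t4
      have t6 := t4.trans (div_le_div_of_nonneg_right t1 hL0.le)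
      calc _ ≤ (M : ℝ) * (ε / 2 / L) := mul_le_mul_of_nonneg_left t6 hM0
        _ = ε / 2 * M / L := by ring
    have m2 : 2 * M * (2 + Real.log y) / 2 ^ r ≤ ε / 8 * M / L := by
      rw [div_le_div_iff₀ h2r hL0]
      have t1 := mul_le_mul_of_nonneg_left b14 hM0
      linarith only [t1]
    have m3 : 10 * y * (Q : ℝ) ^ 2 ≤ ε / 8 * M / L := by
      rw [le_div_iff₀ hL0]
      have t1 := mul_le_mul_of_nonneg_left hMr hε0.le
      linarith only [b15, t1]
    have m4 : ((w : ℝ) + 1) ^ (2 * r + 1) ≤ ε / 8 * M / L := by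
      rw [le_div_iff₀ hL0]
      have t1 := mul_le_mul_of_nonneg_left hMr hε0.le
      linarith only [b16, t1]
    have m5 : ε * M / L = ε / 2 * M / L + ε / 8 * M / L + ε / 8 * M / L + ε / 8 * M / L + ε / 8 * M / L := by ring
    have m6 : 0 ≤ ε / 8 * M / L := by positivity
    have m7 : kS * M ≤ R + ε * M / L := by
      rw [m5]
      linarith only [key, m1, m2, m3, m4, m6]
    have m8 : 49 / 50 * V ≤ kS - ε / L := by
      have h2 : ε / L = 1 / 200 * (c0 / L) := by rw [hε]; ring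
      rw [h2]
      linarith only [hk1, hVk2, hsm, e1, e0]
    have m9 := mul_le_mul_of_nonneg_right m8 hM0
    have m10 : (kS - ε / L) * M = kS * M - ε * M / L := by ring
    linarith only [key, m1, m2, m3, m4, m5, m6, m9, m10]

end Pool.Agent.H78.PD

end
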