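import Pool.Agent.H94.PG.M01

/-! The parts of this file: H34PG.Core, H34PG.Base, H34PG.Final_1. -/

section

/-!
Rigidity of sign functions modulo a prime (project PG, helper34).
-/

namespace Pool.Agent.H34PG

/-- `S q F c`: multiplication by `c` is respected by `F` modulo `q`. -/
def S (q : ℕ) (F : ZMod q → ℤ) (c : ℕ) : Prop :=
  ∀ x : ZMod q, x ≠ 0 → F ((c : ZMod q) * x) = F (c : ZMod q) * F x

section core

variable {q : ℕ} [hq : Fact q.Prime] {F : ZMod q → ℤ} {f : ℕ → ℤ} {σ : ℤ}

lemma cast_ne_zero {n : ℕ} (h0 : 0 < n) (h1 : n < q) : (n : ZMod q) ≠ 0 := by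
  intro h
  rw [ZMod.natCast_eq_zero_iff] at h
  exact absurd (Nat.le_of_dvd h0 h) (by omega)

lemma S_one (hF1 : F 1 = 1) : S q F 1 := by
  intro x _
  simp [hF1]

lemma S_mul {c d : ℕ} (hc : S q F c) (hd : S q F d) (hd0 : (d : ZMod q) ≠ 0) :
    S q F (c * d) := by
  intro x hx
  have h1 : F ((c : ZMod q) * ((d : ZMod q) * x)) = F c * F ((d : ZMod q) * x) :=
    hc _ (mul_ne_zero hd0 hx)
  have h2 := hd x hx
  have h3 := hc d hd0
  push_cast
  rw [mul_assoc, h1, h2, h3]
  ring

/-- Failure of multiplicativity at `x` for the multiplier `b`. -/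
def Fail (q : ℕ) (F : ZMod q → ℤ) (b : ℕ) (x : ZMod q) : Prop :=
  F ((b : ZMod q) * x) ≠ F (b : ZMod q) * F x

lemma fail_mul (hv : ∀ x : ZMod q, x ≠ 0 → F x = 1 ∨ F x = -1) {b c : ℕ}
    (hb : (b : ZMod q) ≠ 0) (hc : S q F c) (hc0 : (c : ZMod q) ≠ 0) {x : ZMod q} (hx : x ≠ 0) :
    Fail q F b ((c : ZMod q) * x) ↔ Fail q F b x := by
  unfold Fail
  have h1 : F ((b : ZMod q) * ((c : ZMod q) * x)) = F c * F ((b : ZMod q) * x) := by
    rw [← hc _ (mul_ne_zero hb hx)]
    congr 1
    ring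
  have h2 := hc x hx
  rw [h1, h2]
  rcases hv c hc0 with h | h <;> rw [h] <;> constructor <;> intro h3 h4 <;> apply h3 <;> linarith

lemma fail_neg (hσ : σ = 1 ∨ σ = -1) (hneg : ∀ x : ZMod q, x ≠ 0 → F (-x) = σ * F x) {b : ℕ}
    (hb : (b : ZMod q) ≠ 0) {x : ZMod q} (hx : x ≠ 0) :
    Fail q F b (-x) ↔ Fail q F b x := by
  unfold Fail
  have h1 : F ((b : ZMod q) * (-x)) = σ * F ((b : ZMod q) * x) := by
    rw [mul_neg]
    exact hneg _ (mul_ne_zero hb hx)
  rw [h1, hneg x hx]
  rcases hσ with h | h <;> rw [h] <;> constructor <;> intro h3 h4 <;> apply h3 <;> linarith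

/-- The descent step: a small multiple of a failing element is failing. -/
lemma fail_desc (hv : ∀ x : ZMod q, x ≠ 0 → F x = 1 ∨ F x = -1)
    (hσ : σ = 1 ∨ σ = -1) (hneg : ∀ x : ZMod q, x ≠ 0 → F (-x) = σ * F x) {b c y u : ℕ}
    (hb : (b : ZMod q) ≠ 0) (hc : S q F c) (hc0 : (c : ZMod q) ≠ 0) (hy0 : (y : ZMod q) ≠ 0)
    (hy : Fail q F b (y : ZMod q)) (h : c * y + u = q ∨ c * y = q + u) :
    Fail q F b (u : ZMod q) := by
  rcases h with h | h
  · have h1 : (u : ZMod q) = -((c : ZMod q) * y) := by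
      have h2 : ((c * y + u : ℕ) : ZMod q) = ((q : ℕ) : ZMod q) := by rw [h]
      push_cast at h2
      rw [ZMod.natCast_self] at h2
      linear_combination h2
    rw [h1, fail_neg hσ hneg hb (mul_ne_zero hc0 hy0), fail_mul hv hb hc hc0 hy0]
    exact hy
  · have h1 : (u : ZMod q) = (c : ZMod q) * y := by
      have h2 : ((c * y : ℕ) : ZMod q) = ((q + u : ℕ) : ZMod q) := by rw [h]
      push_cast at h2
      rw [ZMod.natCast_self] at h2
      linear_combination -h2
    rw [h1, fail_mul hv hb hc hc0 hy0]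
    exact hy

/-- Extremal element: if multiplication by `b` fails, there is a least failing natural number. -/
lemma exists_min (hσ : σ = 1 ∨ σ = -1) (hneg : ∀ x : ZMod q, x ≠ 0 → F (-x) = σ * F x) {b : ℕ}
    (hb : (b : ZMod q) ≠ 0) (hq2 : q ≠ 2) (h : ¬ S q F b) :
    ∃ y : ℕ, 0 < y ∧ 2 * y < q ∧ Fail q F b (y : ZMod q) ∧
      ∀ u : ℕ, 0 < u → u < y → ¬ Fail q F b (u : ZMod q) := by
  classical
  have hex : ∃ y : ℕ, 0 < y ∧ y < q ∧ Fail q F b (y : ZMod q) := by
    unfold S at h
    push Not at h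
    obtain ⟨x, hx, hx2⟩ := h
    refine ⟨x.val, ?_, ZMod.val_lt x, ?_⟩
    · rcases Nat.eq_zero_or_pos x.val with h0 | h0
      · exact absurd ((ZMod.val_eq_zero x).mp h0) hx
      · exact h0
    · unfold Fail
      rw [ZMod.natCast_zmod_val]
      exact hx2
  set y := Nat.find hex with hydef
  have hy := Nat.find_spec hex
  have hmin : ∀ u : ℕ, 0 < u → u < y → ¬ Fail q F b (u : ZMod q) := by
    intro u hu0 huy hfu
    have := Nat.find_min hex huy
    exact this ⟨hu0, lt_trans huy hy.2.1, hfu⟩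
  refine ⟨y, hy.1, ?_, hy.2.2, hmin⟩
  by_contra hlt
  have hodd : q % 2 = 1 := by
    rcases hq.out.eq_two_or_odd with h2 | h2
    · exact absurd h2 hq2
    · exact h2
  have h1 : 0 < q - y := by
    have := hy.2.1
    omega
  have h2 : q - y < y := by omega
  apply hmin (q - y) h1 h2
  have h3 : ((q - y : ℕ) : ZMod q) = -(y : ZMod q) := by
    rw [Nat.cast_sub (le_of_lt hy.2.1), ZMod.natCast_self]
    ring
  rw [h3, fail_neg hσ hneg hb (cast_ne_zero hy.1 hy.2.1)]
  exact hy.2.2

/-- Induction step for `b ≥ 5`. -/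
lemma S_step (hv : ∀ x : ZMod q, x ≠ 0 → F x = 1 ∨ F x = -1)
    (hσ : σ = 1 ∨ σ = -1) (hneg : ∀ x : ZMod q, x ≠ 0 → F (-x) = σ * F x)
    (hf : ∀ n : ℕ, 0 < n → 2 * n < q → F (n : ZMod q) = f n)
    (hmul : ∀ m n : ℕ, 0 < m → 0 < n → f (m * n) = f m * f n)
    {b : ℕ} (hb5 : 5 ≤ b) (hbq : 2 * b < q) (ih : ∀ c : ℕ, 0 < c → c < b → S q F c) :
    S q F b := by
  have hb0 : (b : ZMod q) ≠ 0 := cast_ne_zero (by omega) (by omega)
  have hodd : q % 2 = 1 := by
    rcases hq.out.eq_two_or_odd with h2 | h2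
    · omega
    · exact h2
  -- multiples of three
  by_cases h3b : b % 3 = 0
  · obtain ⟨c, hc⟩ : ∃ c, b = 3 * c := ⟨b / 3, by omega⟩
    rw [hc]
    exact S_mul (ih 3 (by omega) (by omega)) (ih c (by omega) (by omega))
      (cast_ne_zero (by omega) (by omega))
  by_contra hS
  obtain ⟨y, hy0, hyq, hyF, hmin⟩ := exists_min hσ hneg hb0 (by omega) hS
  have hyc : (y : ZMod q) ≠ 0 := cast_ne_zero hy0 (by omega)
  have hdesc : ∀ c u : ℕ, S q F c → 0 < c → c < q → 0 < u → u < y →
      (c * y + u = q ∨ c * y = q + u) → False := by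
    intro c u hc hc0 hcq hu0 huy h
    exact hmin u hu0 huy (fail_desc hv hσ hneg hb0 hc (cast_ne_zero hc0 hcq) hyc hyF h)
  -- b y > q / 2
  have hby : q < 2 * (b * y) := by
    by_contra hcon
    have hne : 2 * (b * y) ≠ q := by omega
    apply hyF
    have h1 := hf (b * y) (Nat.mul_pos (by omega) hy0) (by omega)
    have h2 := hf b (by omega) hbq
    have h3 := hf y hy0 hyq
    push_cast at h1
    rw [h1, h2, h3, hmul b y (by omega) hy0]
  have hy1 : 1 < y := by
    rcases Nat.lt_or_ge 1 y with h | h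
    · exact h
    · have : y = 1 := by omega
      subst this
      omega
  -- the quotient
  obtain ⟨n, r, hn, hr0, hry⟩ : ∃ n r : ℕ, n * y + r = q ∧ 0 < r ∧ r < y := by
    refine ⟨q / y, q % y, ?_, ?_, Nat.mod_lt _ hy0⟩
    · have := Nat.div_add_mod q y
      rw [mul_comm] at this
      exact this
    · rcases Nat.eq_zero_or_pos (q % y) with h0 | h0
      · have hd : y ∣ q := Nat.dvd_of_mod_eq_zero h0
        rcases (Nat.dvd_prime hq.out).mp hd with h | h <;> omega
      · exact h0
  have hn2 : 2 ≤ n := by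
    by_contra hcon
    have : n = 0 ∨ n = 1 := by omega
    rcases this with h | h <;> subst h <;> omega
  have hn2b : n < 2 * b := by
    by_contra hcon
    have : 2 * b * y ≤ n * y := Nat.mul_le_mul_right y (by omega)
    nlinarith
  have hS2 : S q F 2 := ih 2 (by omega) (by omega)
  -- the even neighbour
  rcases Nat.even_or_odd' n with ⟨e, he | he⟩
  · -- n even
    have hSn : S q F n := by
      rw [he]
      exact S_mul hS2 (ih e (by omega) (by omega)) (cast_ne_zero (by omega) (by omega))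
    exact hdesc n r hSn (by omega) (by omega) hr0 hry (Or.inl hn)
  · -- n odd
    have hn1 : (n + 1) * y = q + (y - r) := by
      have : (n + 1) * y = n * y + y := by ring
      omega
    by_cases heb : e + 1 < b
    · have hSn : S q F (n + 1) := by
        have : n + 1 = 2 * (e + 1) := by omega
        rw [this]
        exact S_mul hS2 (ih (e + 1) (by omega) heb) (cast_ne_zero (by omega) (by omega))
      exact hdesc (n + 1) (y - r) hSn (by omega) (by omega) (by omega) (by omega) (Or.inr hn1)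
    · have hn' : n = 2 * b - 1 := by omega
      have hS3 : S q F 3 := ih 3 (by omega) (by omega)
      have hcase : (2 * b - 1) % 3 = 0 ∨ (2 * b + 1) % 3 = 0 := by
        have h7 : b % 3 = 1 ∨ b % 3 = 2 := by omega
        rcases h7 with h7 | h7
        · right
          omega
        · left
          omega
      rcases hcase with h3 | h3
      · obtain ⟨c, hc⟩ : ∃ c, 2 * b - 1 = 3 * c := ⟨(2 * b - 1) / 3, by omega⟩
        have hSn : S q F n := by
          rw [hn', hc]
          exact S_mul hS3 (ih c (by omega) (by omega)) (cast_ne_zero (by omega) (by omega))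
        exact hdesc n r hSn (by omega) (by omega) hr0 hry (Or.inl hn)
      · obtain ⟨c, hc⟩ : ∃ c, 2 * b + 1 = 3 * c := ⟨(2 * b + 1) / 3, by omega⟩
        have hSn : S q F (2 * b + 1) := by
          rw [hc]
          exact S_mul hS3 (ih c (by omega) (by omega)) (cast_ne_zero (by omega) (by omega))
        have h2c : ((2 : ℕ) : ZMod q) ≠ 0 := cast_ne_zero (by omega) (by omega)
        -- y is odd
        have hyodd : y % 2 = 1 := by
          by_contra hcon
          obtain ⟨z, hz⟩ : ∃ z, y = 2 * z := ⟨y / 2, by omega⟩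
          have hzc : (z : ZMod q) ≠ 0 := cast_ne_zero (by omega) (by omega)
          apply hmin z (by omega) (by omega)
          have h1 := (fail_mul hv hb0 hS2 h2c hzc).mp
          apply h1
          have h2 : ((2 : ℕ) : ZMod q) * (z : ZMod q) = (y : ZMod q) := by
            rw [hz]
            push_cast
            ring
          rw [h2]
          exact hyF
        -- (2b+1) y = q + w, w = 2u
        have hw : (2 * b + 1) * y = q + (2 * y - r) := by
          have h4 : n + 2 = 2 * b + 1 := by omega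
          have h5 : (n + 2) * y = n * y + 2 * y := by ring
          rw [h4] at h5
          omega
        have hwe : (2 * y - r) % 2 = 0 := by
          have h6 : ((2 * b + 1) * y) % 2 = 1 := by
            rw [Nat.mul_mod, hyodd]
            omega
          omega
        have hbq1 : 2 * b + 1 < q := by
          have h8 : (2 * b + 1) * 2 ≤ (2 * b + 1) * y := Nat.mul_le_mul_left _ hy1
          omega
        obtain ⟨u, hu⟩ : ∃ u, 2 * y - r = 2 * u := ⟨(2 * y - r) / 2, by omega⟩
        have hfw : Fail q F b ((2 * y - r : ℕ) : ZMod q) :=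
          fail_desc hv hσ hneg hb0 hSn (cast_ne_zero (by omega) (by omega)) hyc hyF (Or.inr hw)
        apply hmin u (by omega) (by omega)
        have huc : (u : ZMod q) ≠ 0 := cast_ne_zero (by omega) (by omega)
        apply (fail_mul hv hb0 hS2 h2c huc).mp
        have h2 : ((2 : ℕ) : ZMod q) * (u : ZMod q) = ((2 * y - r : ℕ) : ZMod q) := by
          rw [hu]
          push_cast
          ring
        rw [h2]
        exact hfw

/-- All multipliers below `q/2`. -/
lemma S_all (hv : ∀ x : ZMod q, x ≠ 0 → F x = 1 ∨ F x = -1)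
    (hσ : σ = 1 ∨ σ = -1) (hneg : ∀ x : ZMod q, x ≠ 0 → F (-x) = σ * F x)
    (hf : ∀ n : ℕ, 0 < n → 2 * n < q → F (n : ZMod q) = f n)
    (hmul : ∀ m n : ℕ, 0 < m → 0 < n → f (m * n) = f m * f n)
    (hF1 : F 1 = 1) (h2 : S q F 2) (h3 : S q F 3) :
    ∀ b : ℕ, 0 < b → 2 * b < q → S q F b := by
  intro b
  induction b using Nat.strong_induction_on with
  | _ b ih =>
    intro hb0 hbq
    rcases Nat.lt_or_ge b 5 with hb5 | hb5
    · have : b = 1 ∨ b = 2 ∨ b = 3 ∨ b = 4 := by omega
      rcases this with h | h | h | h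
      · subst h
        exact S_one hF1
      · subst h
        exact h2
      · subst h
        exact h3
      · subst h
        exact S_mul (c := 2) (d := 2) h2 h2 (cast_ne_zero (by omega) (by omega))
    · exact S_step hv hσ hneg hf hmul hb5 hbq (fun c hc0 hcb => ih c hcb hc0 (by omega))

/-- `F` is multiplicative. -/
lemma F_mul (hv : ∀ x : ZMod q, x ≠ 0 → F x = 1 ∨ F x = -1)
    (hσ : σ = 1 ∨ σ = -1) (hneg : ∀ x : ZMod q, x ≠ 0 → F (-x) = σ * F x)
    (hf : ∀ n : ℕ, 0 < n → 2 * n < q → F (n : ZMod q) = f n)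
    (hmul : ∀ m n : ℕ, 0 < m → 0 < n → f (m * n) = f m * f n)
    (hF1 : F 1 = 1) (h2 : S q F 2) (h3 : S q F 3) (hq7 : 7 ≤ q) :
    ∀ x y : ZMod q, x ≠ 0 → y ≠ 0 → F (x * y) = F x * F y := by
  have hS := S_all hv hσ hneg hf hmul hF1 h2 h3
  have hodd : q % 2 = 1 := by
    rcases hq.out.eq_two_or_odd with h2 | h2
    · omega
    · exact h2
  intro x y hx hy
  have hx0 : 0 < x.val := by
    rcases Nat.eq_zero_or_pos x.val with h0 | h0
    · exact absurd ((ZMod.val_eq_zero x).mp h0) hx
    · exact h0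
  have hxq := ZMod.val_lt x
  rcases Nat.lt_or_ge (2 * x.val) q with h | h
  · have h1 := hS x.val hx0 h y hy
    rw [ZMod.natCast_zmod_val] at h1
    exact h1
  · have h1 := hS (q - x.val) (by omega) (by omega) y hy
    have h3 : ((q - x.val : ℕ) : ZMod q) = -x := by
      rw [Nat.cast_sub (le_of_lt hxq), ZMod.natCast_self, ZMod.natCast_zmod_val]
      ring
    rw [h3] at h1
    rw [neg_mul, hneg _ (mul_ne_zero hx hy), hneg x hx] at h1
    rcases hσ with h4 | h4 <;> rw [h4] at h1 <;> linarith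

/-- Squares have value one. -/
lemma F_sq (hv : ∀ x : ZMod q, x ≠ 0 → F x = 1 ∨ F x = -1)
    (hM : ∀ x y : ZMod q, x ≠ 0 → y ≠ 0 → F (x * y) = F x * F y)
    {x : ZMod q} (hx : x ≠ 0) (hs : IsSquare x) : F x = 1 := by
  obtain ⟨s, hs⟩ := hs
  have hs0 : s ≠ 0 := by
    intro h
    rw [h, mul_zero] at hs
    exact hx hs
  rw [hs, hM s s hs0 hs0]
  rcases hv s hs0 with h | h <;> rw [h] <;> norm_num

end core

end Pool.Agent.H34PG

end

section

/-!
The antisymmetric (or symmetric) extension of a sign function and its base cases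
(project PG, helper34).
-/

namespace Pool.Agent.H34PG

/-- The extension of `f` from `(0,q/2)` to all residues with `F(-x) = σ F(x)`. -/
def FF (q : ℕ) (f : ℕ → ℤ) (σ : ℤ) (x : ZMod q) : ℤ :=
  if 2 * x.val < q then f x.val else σ * f (q - x.val)

section base

variable {q : ℕ} [hq : Fact q.Prime] {f : ℕ → ℤ} {σ : ℤ}

lemma odd_of_five (h5 : 5 ≤ q) : q % 2 = 1 := by
  rcases hq.out.eq_two_or_odd with h2 | h2
  · omega
  · exact h2

lemma FF_small {n : ℕ} (h : 2 * n < q) : FF q f σ (n : ZMod q) = f n := by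
  unfold FF
  rw [ZMod.val_cast_of_lt (by omega), if_pos h]

lemma FF_big {n : ℕ} (h1 : n < q) (h2 : q < 2 * n) : FF q f σ (n : ZMod q) = σ * f (q - n) := by
  unfold FF
  rw [ZMod.val_cast_of_lt h1, if_neg (by omega)]

lemma val_pos {x : ZMod q} (hx : x ≠ 0) : 0 < x.val := by
  rcases Nat.eq_zero_or_pos x.val with h0 | h0
  · exact absurd ((ZMod.val_eq_zero x).mp h0) hx
  · exact h0

lemma FF_neg (h5 : 5 ≤ q) (hσ : σ = 1 ∨ σ = -1) {x : ZMod q} (hx : x ≠ 0) :
    FF q f σ (-x) = σ * FF q f σ x := by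
  have hodd := odd_of_five (q := q) h5
  have h1 := ZMod.val_lt x
  have h0 := val_pos hx
  have h2 : (-x).val = q - x.val := by
    rw [ZMod.neg_val, if_neg hx]
  unfold FF
  rw [h2]
  rcases Nat.lt_or_ge (2 * x.val) q with h | h
  · rw [if_neg (by omega), if_pos h]
    congr 2
    omega
  · rw [if_pos (by omega), if_neg (by omega)]
    rcases hσ with h3 | h3 <;> rw [h3] <;> ring

lemma FF_val (hσ : σ = 1 ∨ σ = -1) (hf : ∀ n : ℕ, 0 < n → f n = 1 ∨ f n = -1)
    {x : ZMod q} (hx : x ≠ 0) : FF q f σ x = 1 ∨ FF q f σ x = -1 := by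
  have h1 := ZMod.val_lt x
  have h0 := val_pos hx
  unfold FF
  split_ifs with h
  · exact hf _ h0
  · rcases hσ with h3 | h3 <;> rcases hf (q - x.val) (by omega) with h4 | h4 <;>
      rw [h3, h4] <;> norm_num

/-- It suffices to check a multiplier on small elements. -/
lemma S_of_small (h5 : 5 ≤ q) (hσ : σ = 1 ∨ σ = -1) {c : ℕ} (hc : (c : ZMod q) ≠ 0)
    (h : ∀ n : ℕ, 0 < n → 2 * n < q → FF q f σ ((c * n : ℕ) : ZMod q) =
      FF q f σ (c : ZMod q) * FF q f σ (n : ZMod q)) : S q (FF q f σ) c := by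
  have hodd := odd_of_five (q := q) h5
  intro x hx
  have h1 := ZMod.val_lt x
  have h0 := val_pos hx
  rcases Nat.lt_or_ge (2 * x.val) q with h2 | h2
  · have h3 := h x.val h0 h2
    push_cast at h3
    rw [ZMod.natCast_zmod_val] at h3
    exact h3
  · have h3 := h (q - x.val) (by omega) (by omega)
    have h4 : ((q - x.val : ℕ) : ZMod q) = -x := by
      rw [Nat.cast_sub (le_of_lt h1), ZMod.natCast_self, ZMod.natCast_zmod_val]
      ring
    rw [Nat.cast_mul, h4, mul_neg, FF_neg h5 hσ (mul_ne_zero hc hx), FF_neg h5 hσ hx] at h3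
    rcases hσ with h5 | h5 <;> rw [h5] at h3 ⊢ <;> linarith

/-! ### The antisymmetric case -/

section anti

variable (h5 : 5 ≤ q) (hf : ∀ n : ℕ, 0 < n → f n = 1 ∨ f n = -1)
  (hmul : ∀ m n : ℕ, 0 < m → 0 < n → f (m * n) = f m * f n)
  (hf2 : f 2 = -1) (hf3 : f 3 = -1) (hf5 : f 5 = -1)
  (hB : ∀ u v : ℕ, 0 < u → 0 < v → u + v = 2 * q → f u = 1 → f v = -1)

include hmul hf2 in
lemma f_two {n : ℕ} (hn : 0 < n) : f (2 * n) = -f n := by
  rw [hmul 2 n (by norm_num) hn, hf2]
  ring

include hmul hf3 in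
lemma f_three {n : ℕ} (hn : 0 < n) : f (3 * n) = -f n := by
  rw [hmul 3 n (by norm_num) hn, hf3]
  ring

include hmul hf2 in
lemma f_four {n : ℕ} (hn : 0 < n) : f (4 * n) = f n := by
  have h : 4 * n = 2 * (2 * n) := by ring
  rw [h, f_two hmul hf2 (by omega), f_two hmul hf2 hn]
  ring

include hmul hf5 in
lemma f_five {n : ℕ} (hn : 0 < n) : f (5 * n) = -f n := by
  rw [hmul 5 n (by norm_num) hn, hf5]
  ring

include hmul hf2 hB in
omit hq in
lemma ruleA {u v : ℕ} (hu : 0 < u) (hv : 0 < v) (h : u + v = q) (h1 : f u = -1) : f v = 1 := by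
  have h2 := hB (2 * u) (2 * v) (by omega) (by omega) (by omega)
    (by rw [f_two hmul hf2 hu, h1]; norm_num)
  rw [f_two hmul hf2 hv] at h2
  linarith

include hmul hf2 hf3 hf5 hB in
omit hq in
/-- The chain for multiplication by two. -/
lemma chain2 {z c : ℕ} (h1 : q < 4 * z) (hc : 2 * z + c = q) (hc0 : 0 < c) (h3 : q ≠ 3 * z)
    (hz : f z = -1) : f c = -1 := by
  have A := fun {u v : ℕ} => ruleA (q := q) (u := u) (v := v) hmul hf2 hB
  have hz0 : 0 < z := by omega
  rcases Nat.lt_or_ge q (3 * z) with h | h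
  · -- z > q/3
    obtain ⟨a, ha⟩ : ∃ a, 3 * z + a = 2 * q := ⟨2 * q - 3 * z, by omega⟩
    obtain ⟨b, hb⟩ : ∃ b, q + b = 3 * z := ⟨3 * z - q, by omega⟩
    have e1 : f (3 * z) = 1 := by rw [f_three hmul hf3 hz0, hz]; norm_num
    have e2 : f a = -1 := hB _ _ (by omega) (by omega) ha e1
    have e3 : f b = 1 := A (by omega) (by omega) (by omega) e2
    have e4 : f (2 * b) = -1 := by rw [f_two hmul hf2 (by omega), e3]
    have e5 : f (3 * c) = 1 := A (u := 2 * b) (by omega) (by omega) (by omega) e4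
    rw [f_three hmul hf3 hc0] at e5
    linarith
  · obtain ⟨a, ha⟩ : ∃ a, 5 * z + a = 2 * q := ⟨2 * q - 5 * z, by omega⟩
    obtain ⟨g, hg⟩ : ∃ g, q + g = 4 * z := ⟨4 * z - q, by omega⟩
    have e1 : f (5 * z) = 1 := by rw [f_five hmul hf5 hz0, hz]; norm_num
    have e2 : f a = -1 := hB _ _ (by omega) (by omega) ha e1
    have hfin : f g = -1 → f c = -1 := by
      intro e
      have e5 : f (2 * c) = 1 := A (u := g) (by omega) (by omega) (by omega) e
      rw [f_two hmul hf2 hc0] at e5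
      linarith
    rcases Nat.lt_or_ge (4 * q) (15 * z) with h' | h'
    · -- 4q/15 < z < q/3
      obtain ⟨d, hd⟩ : ∃ d, 4 * q + d = 15 * z := ⟨15 * z - 4 * q, by omega⟩
      obtain ⟨e, he⟩ : ∃ e, 3 * z + e = q := ⟨q - 3 * z, by omega⟩
      have e3 : f (3 * a) = 1 := by rw [f_three hmul hf3 (by omega), e2]; norm_num
      have e4 : f d = -1 := hB (3 * a) d (by omega) (by omega) (by omega) e3
      have e5 : f (5 * e) = 1 := A (u := d) (by omega) (by omega) (by omega) e4
      have e6 : f e = -1 := by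
        rw [f_five hmul hf5 (by omega)] at e5
        linarith
      have e7 : f (4 * e) = -1 := by rw [f_four hmul hf2 (by omega), e6]
      have e8 : f (3 * g) = 1 := A (u := 4 * e) (by omega) (by omega) (by omega) e7
      apply hfin
      rw [f_three hmul hf3 (by omega)] at e8
      linarith
    · -- q/4 < z < 3q/10
      obtain ⟨b, hb⟩ : ∃ b, q + b = 5 * z := ⟨5 * z - q, by omega⟩
      obtain ⟨k, hk⟩ : ∃ k, 10 * z + k = 3 * q := ⟨3 * q - 10 * z, by omega⟩
      have e3 : f b = 1 := A (u := a) (by omega) (by omega) (by omega) e2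
      have e4 : f (2 * b) = -1 := by rw [f_two hmul hf2 (by omega), e3]
      have e5 : f k = 1 := A (u := 2 * b) (by omega) (by omega) (by omega) e4
      have e6 : f (2 * k) = -1 := by rw [f_two hmul hf2 (by omega), e5]
      have e7 : f (5 * g) = 1 := A (u := 2 * k) (by omega) (by omega) (by omega) e6
      apply hfin
      rw [f_five hmul hf5 (by omega)] at e7
      linarith

include hmul hf2 hf3 hB in
omit hq in
/-- The chain for multiplication by three. -/
lemma chain3 {z c : ℕ} (h1 : q < 6 * z) (h2 : 4 * z < q) (hc : 3 * z + c = q)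
    (hz : f z = -1) : f c = -1 := by
  have A := fun {u v : ℕ} => ruleA (q := q) (u := u) (v := v) hmul hf2 hB
  obtain ⟨a, ha⟩ : ∃ a, 4 * z + a = q := ⟨q - 4 * z, by omega⟩
  obtain ⟨b, hb⟩ : ∃ b, q + b = 6 * z := ⟨6 * z - q, by omega⟩
  have e1 : f (4 * z) = -1 := by rw [f_four hmul hf2 (by omega), hz]
  have e2 : f a = 1 := A (u := 4 * z) (by omega) (by omega) ha e1
  have e3 : f (3 * a) = -1 := by rw [f_three hmul hf3 (by omega), e2]
  have e4 : f (2 * b) = 1 := A (u := 3 * a) (by omega) (by omega) (by omega) e3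
  have e5 : f b = -1 := by
    rw [f_two hmul hf2 (by omega)] at e4
    linarith
  have e6 : f (2 * c) = 1 := A (u := b) (by omega) (by omega) (by omega) e5
  rw [f_two hmul hf2 (by omega)] at e6
  linarith

include h5 hf hmul hf2 hf3 hf5 hB in
lemma S_two_anti : S q (FF q f (-1)) 2 := by
  have hodd := odd_of_five (q := q) h5
  have h2c : ((2 : ℕ) : ZMod q) ≠ 0 := cast_ne_zero (by norm_num) (by omega)
  apply S_of_small h5 (Or.inr rfl) h2c
  intro n hn hn2
  rw [FF_small (σ := -1) (n := 2) (by omega), FF_small (σ := -1) (n := n) hn2, hf2]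
  rcases Nat.lt_or_ge (4 * n) q with h | h
  · rw [FF_small (by omega), f_two hmul hf2 hn]
    ring
  · rw [FF_big (by omega) (by omega)]
    rcases hf n hn with h3 | h3
    · have h4 : f (q - 2 * n) = 1 :=
        ruleA (q := q) hmul hf2 hB (u := 2 * n) (by omega) (by omega) (by omega)
          (by rw [f_two hmul hf2 hn, h3])
      rw [h4, h3]
    · have hq3 : q ≠ 3 * n := by
        intro h6
        have h7 : 3 ∣ q := ⟨n, h6⟩
        rcases (Nat.dvd_prime hq.out).mp h7 with h8 | h8 <;> omega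
      have h4 : f (q - 2 * n) = -1 :=
        chain2 (q := q) hmul hf2 hf3 hf5 hB (z := n) (by omega) (by omega) (by omega) hq3 h3
      rw [h4, h3]

include h5 hf hmul hf2 hf3 hf5 hB in
lemma S_three_anti (h7 : 7 ≤ q) : S q (FF q f (-1)) 3 := by
  have hodd := odd_of_five (q := q) h5
  have hS2 := S_two_anti h5 hf hmul hf2 hf3 hf5 hB
  have hS4 : S q (FF q f (-1)) 4 :=
    S_mul (c := 2) (d := 2) hS2 hS2 (cast_ne_zero (by norm_num) (by omega))
  have h3c : ((3 : ℕ) : ZMod q) ≠ 0 := cast_ne_zero (by norm_num) (by omega)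
  have hneg : ∀ x : ZMod q, x ≠ 0 → FF q f (-1) (-x) = -1 * FF q f (-1) x :=
    fun x hx => FF_neg h5 (Or.inr rfl) hx
  have hv : ∀ x : ZMod q, x ≠ 0 → FF q f (-1) x = 1 ∨ FF q f (-1) x = -1 :=
    fun x hx => FF_val (Or.inr rfl) hf hx
  by_contra hS
  obtain ⟨y, hy0, hyq, hyF, hmin⟩ := exists_min (σ := -1) (Or.inr rfl) hneg h3c (by omega) hS
  have hyc : (y : ZMod q) ≠ 0 := cast_ne_zero hy0 (by omega)
  have hdesc : ∀ c u : ℕ, S q (FF q f (-1)) c → 0 < c → c < q → 0 < u → u < y →
      (c * y + u = q ∨ c * y = q + u) → False := by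
    intro c u hc hc0 hcq hu0 huy h
    exact hmin u hu0 huy
      (fail_desc hv (Or.inr rfl) hneg h3c hc (cast_ne_zero hc0 hcq) hyc hyF h)
  have hnd : ∀ c : ℕ, 1 < c → c < q → q ≠ c * y := by
    intro c hc hcq h
    have h8 : c ∣ q := ⟨y, h⟩
    rcases (Nat.dvd_prime hq.out).mp h8 with h9 | h9 <;> omega
  have hn3 := hnd 3 (by omega) (by omega)
  have hn4 := hnd 4 (by omega) (by omega)
  have hn5 := hnd 5 (by omega) (by omega)
  rcases Nat.lt_or_ge q (3 * y) with h | h
  · exact hdesc 2 (q - 2 * y) hS2 (by omega) (by omega) (by omega) (by omega) (Or.inl (by omega))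
  rcases Nat.lt_or_ge q (4 * y) with h' | h'
  · exact hdesc 4 (4 * y - q) hS4 (by omega) (by omega) (by omega) (by omega) (Or.inr (by omega))
  rcases Nat.lt_or_ge q (5 * y) with h'' | h''
  · exact hdesc 4 (q - 4 * y) hS4 (by omega) (by omega) (by omega) (by omega) (Or.inl (by omega))
  apply hyF
  have e1 : FF q f (-1) ((3 : ℕ) : ZMod q) = -1 := by rw [FF_small (by omega), hf3]
  have e2 : FF q f (-1) ((y : ℕ) : ZMod q) = f y := FF_small hyq
  have e3 : ((3 : ℕ) : ZMod q) * (y : ZMod q) = ((3 * y : ℕ) : ZMod q) := by push_cast; ring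
  rw [e1, e2, e3]
  rcases Nat.lt_or_ge (6 * y) q with h6 | h6
  · rw [FF_small (by omega), f_three hmul hf3 hy0]
    ring
  · rw [FF_big (by omega) (by omega)]
    rcases hf y hy0 with h8 | h8
    · have h4 : f (q - 3 * y) = 1 :=
        ruleA (q := q) hmul hf2 hB (u := 3 * y) (by omega) (by omega) (by omega)
          (by rw [f_three hmul hf3 hy0, h8])
      rw [h4, h8]
    · have h4 : f (q - 3 * y) = -1 :=
        chain3 (q := q) hmul hf2 hf3 hB (z := y) (by omega) (by omega) (by omega) h8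
      rw [h4, h8]

include h5 hf hmul hf2 hf3 hf5 hB in
/-- Rigidity, antisymmetric case. -/
lemma mul_anti (h7 : 7 ≤ q) : ∀ x y : ZMod q, x ≠ 0 → y ≠ 0 →
    FF q f (-1) (x * y) = FF q f (-1) x * FF q f (-1) y := by
  have hf1 : f 1 = 1 := by
    have h := hmul 1 1 (by norm_num) (by norm_num)
    rcases hf 1 (by norm_num) with h1 | h1
    · exact h1
    · rw [mul_one, h1] at h
      norm_num at h
  apply F_mul (f := f) (σ := -1) (fun x hx => FF_val (Or.inr rfl) hf hx) (Or.inr rfl)
    (fun x hx => FF_neg h5 (Or.inr rfl) hx) (fun n _ hn2 => FF_small hn2) hmul _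
    (S_two_anti h5 hf hmul hf2 hf3 hf5 hB) (S_three_anti h5 hf hmul hf2 hf3 hf5 hB h7) h7
  have h := FF_small (q := q) (f := f) (σ := -1) (n := 1) (by omega)
  rw [Nat.cast_one] at h
  rw [h, hf1]

end anti

/-! ### The symmetric case -/

section symm

variable (h5 : 5 ≤ q) (hf : ∀ n : ℕ, 0 < n → f n = 1 ∨ f n = -1)
  (hmul : ∀ m n : ℕ, 0 < m → 0 < n → f (m * n) = f m * f n)
  (hC : ∀ u v : ℕ, 0 < u → 0 < v → u + v = q → f u = f v)

include hC in
lemma FF_symm {n : ℕ} (h0 : 0 < n) (h1 : n < q) : FF q f 1 (n : ZMod q) = f n := by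
  unfold FF
  rw [ZMod.val_cast_of_lt h1]
  split_ifs with h
  · rfl
  · rw [one_mul]
    exact hC _ _ (by omega) h0 (by omega)

include h5 hf hmul hC in
lemma mul_symm (h7 : 7 ≤ q) : ∀ x y : ZMod q, x ≠ 0 → y ≠ 0 →
    FF q f 1 (x * y) = FF q f 1 x * FF q f 1 y := by
  have hodd := odd_of_five (q := q) h5
  have hf1 : f 1 = 1 := by
    have h := hmul 1 1 (by norm_num) (by norm_num)
    rcases hf 1 (by norm_num) with h1 | h1
    · exact h1
    · rw [mul_one, h1] at h
      norm_num at h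
  have h2c : ((2 : ℕ) : ZMod q) ≠ 0 := cast_ne_zero (by norm_num) (by omega)
  have h3c : ((3 : ℕ) : ZMod q) ≠ 0 := cast_ne_zero (by norm_num) (by omega)
  have hneg : ∀ x : ZMod q, x ≠ 0 → FF q f 1 (-x) = 1 * FF q f 1 x :=
    fun x hx => FF_neg h5 (Or.inl rfl) hx
  have hv : ∀ x : ZMod q, x ≠ 0 → FF q f 1 x = 1 ∨ FF q f 1 x = -1 :=
    fun x hx => FF_val (Or.inl rfl) hf hx
  have hS2 : S q (FF q f 1) 2 := by
    apply S_of_small h5 (Or.inl rfl) h2c
    intro n hn hn2
    rw [FF_symm hC (by omega) (by omega), FF_symm hC (by norm_num) (by omega),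
      FF_symm hC hn (by omega), hmul 2 n (by norm_num) hn]
  have hS3 : S q (FF q f 1) 3 := by
    by_contra hS
    obtain ⟨y, hy0, hyq, hyF, hmin⟩ := exists_min (σ := 1) (Or.inl rfl) hneg h3c (by omega) hS
    have hyc : (y : ZMod q) ≠ 0 := cast_ne_zero hy0 (by omega)
    have hn3 : q ≠ 3 * y := by
      intro h
      have h8 : 3 ∣ q := ⟨y, h⟩
      rcases (Nat.dvd_prime hq.out).mp h8 with h9 | h9 <;> omega
    rcases Nat.lt_or_ge q (3 * y) with h | h
    · exact hmin (q - 2 * y) (by omega) (by omega)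
        (fail_desc hv (Or.inl rfl) hneg h3c hS2 h2c hyc hyF (Or.inl (by omega)))
    · apply hyF
      have e3 : ((3 : ℕ) : ZMod q) * (y : ZMod q) = ((3 * y : ℕ) : ZMod q) := by push_cast; ring
      rw [e3, FF_symm hC (by omega) (by omega), FF_symm hC (by norm_num) (by omega),
        FF_symm hC hy0 (by omega), hmul 3 y (by norm_num) hy0]
  apply F_mul (f := f) (σ := 1) hv (Or.inl rfl) hneg (fun n _ hn2 => FF_small hn2) hmul _
    hS2 hS3 h7
  have h := FF_small (q := q) (f := f) (σ := 1) (n := 1) (by omega)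
  rw [Nat.cast_one] at h
  rw [h, hf1]

end symm

end base

end Pool.Agent.H34PG

end

section

/-!
The parity Goldbach theorem for all even numbers (project PG, helper34).
-/

namespace Pool.Agent.H34PG

open ArithmeticFunction

lemma lam_prime {p : ℕ} (hp : p.Prime) : lam p = -1 := by
  unfold lam
  rw [cardFactors_apply_prime hp, pow_one]

lemma lam_one : lam 1 = 1 := by
  unfold lam
  simp

/-- The rigidity contradiction, antisymmetric case. -/
lemma contra_anti {q : ℕ} [hq : Fact q.Prime] (h7 : 7 ≤ q) {f : ℕ → ℤ}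
    (hf : ∀ n : ℕ, 0 < n → f n = 1 ∨ f n = -1)
    (hmul : ∀ m n : ℕ, 0 < m → 0 < n → f (m * n) = f m * f n)
    (hp : ∀ p : ℕ, p.Prime → f p = -1)
    (hB : ∀ u v : ℕ, 0 < u → 0 < v → u + v = 2 * q → f u = 1 → f v = -1) : False := by
  have h5 : 5 ≤ q := by omega
  have hodd := odd_of_five (q := q) h5
  have hM := mul_anti (q := q) (f := f) h5 hf hmul (hp 2 Nat.prime_two) (hp 3 Nat.prime_three)
    (hp 5 (by norm_num)) hB h7
  have hv : ∀ x : ZMod q, x ≠ 0 → FF q f (-1) x = 1 ∨ FF q f (-1) x = -1 :=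
    fun x hx => FF_val (Or.inr rfl) hf hx
  have hf1 : f 1 = 1 := by
    have h := hmul 1 1 (by norm_num) (by norm_num)
    rcases hf 1 (by norm_num) with h1 | h1
    · exact h1
    · rw [mul_one, h1] at h
      norm_num at h
  have hF1 : FF q f (-1) 1 = 1 := by
    have h := FF_small (q := q) (f := f) (σ := -1) (n := 1) (by omega)
    rw [Nat.cast_one] at h
    rw [h, hf1]
  -- minus one is not a square
  have hq4 : q % 4 = 3 := by
    by_contra hcon
    have h1 : IsSquare (-1 : ZMod q) := ZMod.exists_sq_eq_neg_one_iff.mpr hcon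
    have h2 := F_sq hv hM (neg_ne_zero.mpr one_ne_zero) h1
    rw [FF_neg h5 (Or.inr rfl) one_ne_zero, hF1] at h2
    norm_num at h2
  -- two is not a square
  have hq8 : q % 8 = 3 := by
    by_contra hcon
    have h1 : IsSquare (2 : ZMod q) :=
      (ZMod.exists_sq_eq_two_iff (by omega)).mpr (by omega)
    have h2c : (2 : ZMod q) ≠ 0 := by
      have := cast_ne_zero (q := q) (n := 2) (by norm_num) (by omega)
      exact_mod_cast this
    have h2 := F_sq hv hM h2c h1
    have h3 := FF_small (q := q) (f := f) (σ := -1) (n := 2) (by omega)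
    rw [hp 2 Nat.prime_two] at h3
    rw [Nat.cast_ofNat] at h3
    rw [h3] at h2
    norm_num at h2
  obtain ⟨m, hm⟩ : ∃ m, q + 1 = 4 * m := ⟨(q + 1) / 4, by omega⟩
  have hm3 : 3 ≤ m := by omega
  have hmodd : m % 2 = 1 := by omega
  have hpp : (m.minFac).Prime := Nat.minFac_prime (by omega)
  set p := m.minFac with hpdef
  have hpm : p ∣ m := Nat.minFac_dvd m
  have hple : p ≤ m := Nat.le_of_dvd (by omega) hpm
  have hpodd : p % 2 = 1 := by
    rcases hpp.eq_two_or_odd with h2 | h2
    · exfalso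
      rw [h2] at hpm
      omega
    · exact h2
  have hpq1 : p ∣ q + 1 := by
    rw [hm]
    exact Dvd.dvd.mul_left hpm 4
  have : Fact p.Prime := ⟨hpp⟩
  have hp0 : (p : ZMod q) ≠ 0 := cast_ne_zero (by omega) (by omega)
  have hqp : (q : ZMod p) = -1 := by
    have h1 : ((q + 1 : ℕ) : ZMod p) = 0 := by
      rw [ZMod.natCast_eq_zero_iff]
      exact hpq1
    push_cast at h1
    linear_combination h1
  have hnsq : ¬ IsSquare (p : ZMod q) := by
    intro h
    have h2 := F_sq hv hM hp0 h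
    rw [FF_small (by omega), hp p hpp] at h2
    norm_num at h2
  rcases (show p % 4 = 1 ∨ p % 4 = 3 by omega) with h | h
  · apply hnsq
    have h1 : IsSquare (q : ZMod p) := by
      rw [hqp]
      exact ZMod.exists_sq_eq_neg_one_iff.mpr (by omega)
    exact (ZMod.exists_sq_eq_prime_iff_of_mod_four_eq_one h (by omega)).mp h1
  · have h1 : ¬ IsSquare (q : ZMod p) := by
      rw [hqp, ZMod.exists_sq_eq_neg_one_iff]
      omega
    have h2 := ZMod.exists_sq_eq_prime_iff_of_mod_four_eq_three (p := p) (q := q) h hq4 (by omega)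
    exact h1 (h2.mpr hnsq)

/-- The rigidity contradiction, symmetric case. -/
lemma contra_symm {q : ℕ} [hq : Fact q.Prime] (h7 : 7 ≤ q) {f : ℕ → ℤ}
    (hf : ∀ n : ℕ, 0 < n → f n = 1 ∨ f n = -1)
    (hmul : ∀ m n : ℕ, 0 < m → 0 < n → f (m * n) = f m * f n)
    (hp : ∀ p : ℕ, p.Prime → f p = -1)
    (hC : ∀ u v : ℕ, 0 < u → 0 < v → u + v = q → f u = f v) : False := by
  have h5 : 5 ≤ q := by omega
  have hodd := odd_of_five (q := q) h5
  have hM := mul_symm (q := q) (f := f) h5 hf hmul hC h7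
  have hv : ∀ x : ZMod q, x ≠ 0 → FF q f 1 x = 1 ∨ FF q f 1 x = -1 :=
    fun x hx => FF_val (Or.inl rfl) hf hx
  have h2c : (2 : ZMod q) ≠ 0 := by
    have := cast_ne_zero (q := q) (n := 2) (by norm_num) (by omega)
    exact_mod_cast this
  have hF2 : FF q f 1 2 = -1 := by
    have h3 := FF_small (q := q) (f := f) (σ := 1) (n := 2) (by omega)
    rw [hp 2 Nat.prime_two] at h3
    rw [Nat.cast_ofNat] at h3
    exact h3
  have hq8 : q % 8 = 3 ∨ q % 8 = 5 := by
    by_contra hcon
    have h1 : IsSquare (2 : ZMod q) :=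
      (ZMod.exists_sq_eq_two_iff (by omega)).mpr (by omega)
    have h2 := F_sq hv hM h2c h1
    rw [hF2] at h2
    norm_num at h2
  have hq85 : q % 8 = 5 := by
    rcases hq8 with h | h
    · exfalso
      have h1 : IsSquare (-2 : ZMod q) :=
        (ZMod.exists_sq_eq_neg_two_iff (by omega)).mpr (by omega)
      have h2 := F_sq hv hM (neg_ne_zero.mpr h2c) h1
      rw [FF_neg h5 (Or.inl rfl) h2c, hF2] at h2
      norm_num at h2
    · exact h
  obtain ⟨m, hm⟩ : ∃ m, q = 4 * m + 1 := ⟨(q - 1) / 4, by omega⟩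
  have hm3 : 3 ≤ m := by omega
  have hmodd : m % 2 = 1 := by omega
  have hpp : (m.minFac).Prime := Nat.minFac_prime (by omega)
  set p := m.minFac with hpdef
  have hpm : p ∣ m := Nat.minFac_dvd m
  have hple : p ≤ m := Nat.le_of_dvd (by omega) hpm
  have hpodd : p % 2 = 1 := by
    rcases hpp.eq_two_or_odd with h2 | h2
    · exfalso
      rw [h2] at hpm
      omega
    · exact h2
  have : Fact p.Prime := ⟨hpp⟩
  have hp0 : (p : ZMod q) ≠ 0 := cast_ne_zero (by omega) (by omega)
  have hqp : (q : ZMod p) = 1 := by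
    have h1 : ((4 * m : ℕ) : ZMod p) = 0 := by
      rw [ZMod.natCast_eq_zero_iff]
      exact Dvd.dvd.mul_left hpm 4
    rw [hm]
    push_cast at h1 ⊢
    rw [h1, zero_add]
  have hnsq : ¬ IsSquare (p : ZMod q) := by
    intro h
    have h2 := F_sq hv hM hp0 h
    rw [FF_small (by omega), hp p hpp] at h2
    norm_num at h2
  apply hnsq
  have h1 : IsSquare (q : ZMod p) := by
    rw [hqp]
    exact IsSquare.one
  exact (ZMod.exists_sq_eq_prime_iff_of_mod_four_eq_one (p := q) (q := p) (by omega)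
    (by omega)).mpr h1

lemma lam_two : lam 2 = -1 := lam_prime Nat.prime_two
lemma lam_three : lam 3 = -1 := lam_prime Nat.prime_three
lemma lam_five : lam 5 = -1 := lam_prime (by norm_num)
lemma lam_four : lam 4 = 1 := by
  rw [show 4 = 2 * 2 by norm_num, lam_mul 2 2 (by norm_num) (by norm_num), lam_two]; norm_num
lemma lam_six : lam 6 = 1 := by
  rw [show 6 = 2 * 3 by norm_num, lam_mul 2 3 (by norm_num) (by norm_num), lam_two, lam_three]
  norm_num

/-- For every prime `q ≥ 5`, `2q` is the sum of two positive integers with `λ = 1`. -/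
theorem twice_prime {q : ℕ} (hq : q.Prime) (h5 : 5 ≤ q) :
    ∃ u v : ℕ, 0 < u ∧ 0 < v ∧ u + v = 2 * q ∧ lam u = 1 ∧ lam v = 1 := by
  rcases Nat.lt_or_ge q 7 with h7 | h7
  · have : q = 5 := by
      have : q = 5 ∨ q = 6 := by omega
      rcases this with h | h
      · exact h
      · rw [h] at hq
        norm_num at hq
    subst this
    exact ⟨4, 6, by norm_num, by norm_num, by norm_num, lam_four, lam_six⟩
  · by_contra hcon
    push Not at hcon
    have : Fact q.Prime := ⟨hq⟩
    apply contra_anti (q := q) (f := lam) h7 (fun n _ => lam_val n) lam_mul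
      (fun p hp => lam_prime hp)
    intro u v hu hv huv hu1
    rcases lam_val v with h | h
    · exact absurd h (hcon u v hu hv huv hu1)
    · exact h

/-- `n` is bad if `2n` has no representation with both signs equal to `-λ(n)`. -/
def Bad (n : ℕ) : Prop :=
  ∀ a b : ℕ, 0 < a → 0 < b → a + b = 2 * n → ¬ (lam a = -lam n ∧ lam b = -lam n)

lemma Bad.dvd {n d : ℕ} (hn : Bad n) (hn0 : 0 < n) (hd : d ∣ n) : Bad d := by
  obtain ⟨k, hk⟩ := hd
  have hd0 : 0 < d := Nat.pos_of_ne_zero (by rintro rfl; omega)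
  have hk0 : 0 < k := Nat.pos_of_ne_zero (by rintro rfl; omega)
  intro a b ha hb hab ⟨h1, h2⟩
  apply hn (k * a) (k * b) (Nat.mul_pos hk0 ha) (Nat.mul_pos hk0 hb)
  · rw [hk, ← mul_add, hab]
    ring
  · rw [hk, lam_mul k a hk0 ha, lam_mul k b hk0 hb, lam_mul d k hd0 hk0, h1, h2]
    constructor <;> ring

/-- Every `n ≥ 4` is good. -/
theorem not_bad {n : ℕ} (h4 : 4 ≤ n) : ¬ Bad n := by
  intro hn
  have hn0 : 0 < n := by omega
  have hpr : ∀ p : ℕ, p.Prime → p ∣ n → p = 2 ∨ p = 3 := by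
    intro p hp hpn
    by_contra hcon
    have h5 : 5 ≤ p := by
      have h2 := hp.two_le
      have : p ≠ 4 := by
        rintro rfl
        norm_num at hp
      omega
    obtain ⟨u, v, hu, hv, huv, h1, h2⟩ := twice_prime hp h5
    apply hn.dvd hn0 hpn u v hu hv huv
    rw [lam_prime hp, h1, h2]
    norm_num
  have h44 : ¬ 4 ∣ n := by
    intro h
    apply hn.dvd hn0 h 3 5 (by norm_num) (by norm_num) (by norm_num)
    rw [lam_four, lam_three, lam_five]
    norm_num
  have h66 : ¬ 6 ∣ n := by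
    intro h
    apply hn.dvd hn0 h 5 7 (by norm_num) (by norm_num) (by norm_num)
    rw [lam_six, lam_five, lam_prime (show Nat.Prime 7 by norm_num)]
    norm_num
  have h99 : ¬ 9 ∣ n := by
    intro h
    apply hn.dvd hn0 h 5 13 (by norm_num) (by norm_num) (by norm_num)
    rw [lam_five, lam_prime (show Nat.Prime 13 by norm_num), show 9 = 3 * 3 by norm_num,
      lam_mul 3 3 (by norm_num) (by norm_num), lam_three]
    norm_num
  have hp1 : (n.minFac).Prime := Nat.minFac_prime (by omega)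
  obtain ⟨m, hm⟩ := Nat.minFac_dvd n
  have hm2 : m ≠ 1 := by
    rintro rfl
    rcases hpr _ hp1 (Nat.minFac_dvd n) with h | h <;> rw [h] at hm <;> omega
  have hp2 : (m.minFac).Prime := Nat.minFac_prime hm2
  have hd : n.minFac * m.minFac ∣ n := by
    conv_rhs => rw [hm]
    exact Nat.mul_dvd_mul_left _ (Nat.minFac_dvd m)
  have hr := hpr _ hp2 (dvd_trans (Dvd.intro_left _ rfl) hd)
  have hr1 := hpr _ hp1 (Nat.minFac_dvd n)
  rcases hr1 with h | h <;> rcases hr with h' | h' <;> rw [h, h'] at hd <;> norm_num at hd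
  · exact h44 hd
  · exact h66 hd
  · exact h66 hd
  · exact h99 hd

/-- Part (2): for every `n ≥ 4` a symmetric pair with signs opposite to that of `n`. -/
theorem main_two {n : ℕ} (h4 : 4 ≤ n) :
    ∃ x : ℕ, 0 < x ∧ x < n ∧ lam (n - x) = -lam n ∧ lam (n + x) = -lam n := by
  have h := not_bad h4
  unfold Bad at h
  push Not at h
  obtain ⟨a, b, ha, hb, hab, h1, h2⟩ := h
  have hne : a ≠ n := by
    rintro rfl
    rcases lam_val a with h | h <;> rw [h] at h1 <;> norm_num at h1
  rcases Nat.lt_or_ge a n with h3 | h3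
  · refine ⟨n - a, by omega, by omega, ?_, ?_⟩
    · rw [show n - (n - a) = a by omega]
      exact h1
    · rw [show n + (n - a) = b by omega]
      exact h2
  · refine ⟨a - n, by omega, by omega, ?_, ?_⟩
    · rw [show n - (a - n) = b by omega]
      exact h2
    · rw [show n + (a - n) = a by omega]
      exact h1

/-- The symmetric bad property. -/
def SBad (N : ℕ) : Prop := ∀ a b : ℕ, 0 < a → 0 < b → a + b = N → lam a = lam b

lemma SBad.dvd {n d : ℕ} (hn : SBad n) (hn0 : 0 < n) (hd : d ∣ n) : SBad d := by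
  obtain ⟨k, hk⟩ := hd
  have hk0 : 0 < k := Nat.pos_of_ne_zero (by rintro rfl; omega)
  intro a b ha hb hab
  have h := hn (k * a) (k * b) (Nat.mul_pos hk0 ha) (Nat.mul_pos hk0 hb)
    (by rw [← mul_add, hab, hk]; ring)
  rw [lam_mul k a hk0 ha, lam_mul k b hk0 hb] at h
  rcases lam_val k with h1 | h1 <;> rw [h1] at h <;> linarith

theorem not_sbad {N : ℕ} (h3 : 3 ≤ N) (h5 : N ≠ 5) (h10 : N ≠ 10) : ¬ SBad N := by
  intro hn
  have hn0 : 0 < N := by omega
  have h33 : ¬ 3 ∣ N := by
    intro h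
    have := hn.dvd hn0 h 1 2 (by norm_num) (by norm_num) (by norm_num)
    rw [lam_one, lam_two] at this
    norm_num at this
  have h44 : ¬ 4 ∣ N := by
    intro h
    have := hn.dvd hn0 h 1 3 (by norm_num) (by norm_num) (by norm_num)
    rw [lam_one, lam_three] at this
    norm_num at this
  have h2525 : ¬ 25 ∣ N := by
    intro h
    have := hn.dvd hn0 h 3 22 (by norm_num) (by norm_num) (by norm_num)
    rw [lam_three, show 22 = 2 * 11 by norm_num, lam_mul 2 11 (by norm_num) (by norm_num),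
      lam_two, lam_prime (show Nat.Prime 11 by norm_num)] at this
    norm_num at this
  have hpr : ∀ p : ℕ, p.Prime → p ∣ N → p = 2 ∨ p = 5 := by
    intro p hp hpn
    by_contra hcon
    have h7 : 7 ≤ p := by
      have h2 := hp.two_le
      have h4 : p ≠ 4 := by
        rintro rfl
        norm_num at hp
      have h6 : p ≠ 6 := by
        rintro rfl
        norm_num at hp
      have h3 : p ≠ 3 := by
        rintro rfl
        exact h33 hpn
      omega
    have : Fact p.Prime := ⟨hp⟩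
    exact contra_symm (q := p) (f := lam) h7 (fun n _ => lam_val n) lam_mul
      (fun p hp => lam_prime hp) (hn.dvd hn0 hpn)
  have hp1 : (N.minFac).Prime := Nat.minFac_prime (by omega)
  obtain ⟨m, hm⟩ := Nat.minFac_dvd N
  have hr1 := hpr _ hp1 (Nat.minFac_dvd N)
  have hmd : m ∣ N := Dvd.intro_left _ hm.symm
  have hm1 : m ≠ 1 := by
    rintro rfl
    rcases hr1 with h | h <;> rw [h] at hm <;> omega
  have hp2 : (m.minFac).Prime := Nat.minFac_prime hm1
  have hd : N.minFac * m.minFac ∣ N := by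
    conv_rhs => rw [hm]
    exact Nat.mul_dvd_mul_left _ (Nat.minFac_dvd m)
  have hr := hpr _ hp2 (dvd_trans (Dvd.intro_left _ rfl) hd)
  have h1010 : ¬ 10 ∣ N := by
    rintro ⟨k, hk⟩
    have hk1 : k ≠ 1 := by
      rintro rfl
      omega
    have hp3 : (k.minFac).Prime := Nat.minFac_prime hk1
    have hkd : k.minFac ∣ k := Nat.minFac_dvd k
    have h := hpr _ hp3 (dvd_trans hkd (Dvd.intro_left _ hk.symm))
    have hd3 : 10 * k.minFac ∣ N := by
      rw [hk]
      exact Nat.mul_dvd_mul_left _ hkd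
    rcases h with h | h <;> rw [h] at hd3 <;> norm_num at hd3
    · exact h44 (dvd_trans (by norm_num) hd3)
    · exact h2525 (dvd_trans (by norm_num) hd3)
  rcases hr1 with h | h <;> rcases hr with h' | h' <;> rw [h, h'] at hd <;> norm_num at hd
  · exact h44 hd
  · exact h1010 hd
  · exact h1010 hd
  · exact h2525 hd

lemma odd_of_lam {n : ℕ} (h : lam n = -1) : Odd (cardFactors n) := by
  unfold lam at h
  exact (neg_one_pow_eq_neg_one_iff_odd (by norm_num)).mp h

lemma even_of_lam {n : ℕ} (h : lam n = 1) : Even (cardFactors n) := by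
  unfold lam at h
  exact (neg_one_pow_eq_one_iff_even (by norm_num)).mp h

lemma odd_iff_of_lam {m n : ℕ} (h : lam m = -lam n) :
    Odd (cardFactors m) ↔ Even (cardFactors n) := by
  rcases lam_val n with h1 | h1
  · rw [h1] at h
    exact ⟨fun _ => even_of_lam h1, fun _ => odd_of_lam h⟩
  · rw [h1] at h
    have h2 : lam m = 1 := by rw [h]; norm_num
    have h3 := odd_of_lam h1
    have h4 := even_of_lam h2
    constructor
    · intro h5
      exact absurd h4 (Nat.not_even_iff_odd.mpr h5)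
    · intro h5
      exact absurd h5 (Nat.not_even_iff_odd.mpr h3)

/-- Part (1): parity Goldbach. -/
theorem main_one {n : ℕ} (h2 : 2 ≤ n) :
    ∃ x : ℕ, x < n ∧ Odd (cardFactors (n - x)) ∧ Odd (cardFactors (n + x)) := by
  rcases lam_val n with h | h
  · have h4 : 4 ≤ n := by
      by_contra hcon
      have : n = 2 ∨ n = 3 := by omega
      rcases this with h1 | h1 <;> subst h1
      · rw [lam_two] at h
        norm_num at h
      · rw [lam_three] at h
        norm_num at h
    obtain ⟨x, _, hx, h1, h2⟩ := main_two h4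
    rw [h] at h1 h2
    exact ⟨x, hx, odd_of_lam h1, odd_of_lam h2⟩
  · refine ⟨0, by omega, ?_, ?_⟩
    · rw [Nat.sub_zero]
      exact odd_of_lam h
    · rw [Nat.add_zero]
      exact odd_of_lam h

/-- Part (3): the mixed pattern. -/
theorem main_three {N : ℕ} (h3 : 3 ≤ N) (h5 : N ≠ 5) (h10 : N ≠ 10) :
    ∃ a b : ℕ, 0 < a ∧ 0 < b ∧ a + b = N ∧ Odd (cardFactors a) ∧ Even (cardFactors b) := by
  have h := not_sbad h3 h5 h10
  unfold SBad at h
  push Not at h
  obtain ⟨a, b, ha, hb, hab, hne⟩ := h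
  rcases lam_val a with h1 | h1 <;> rcases lam_val b with h2 | h2
  · exact absurd (h1.trans h2.symm) hne
  · exact ⟨b, a, hb, ha, by omega, odd_of_lam h2, even_of_lam h1⟩
  · exact ⟨a, b, ha, hb, hab, odd_of_lam h1, even_of_lam h2⟩
  · exact absurd (h1.trans h2.symm) hne

end Pool.Agent.H34PG

end
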