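import Pool.Agent.H94.PG.H91.GoldMertens_1
import Pool.Agent.H94.PG.M02
import Pool.Agent.H94.PG.M07
import Pool.Agent.H94.PG.M10

/-! The parts of this file: H78.PD.Ort, H91.GoldPrimeData, H78.PG.TSup2, H78.PG.TXc. -/

section

/-!
# PD, Ort: orthogonality with coefficients

Orthogonality of the characters mod `m`: the `s ∈ S` are in different residue classes prime to `m`.  (`ortho_sum` in `PG/TFour.lean` is the case `a = 1`; the same proof, or `parseval` there
for the function `u ↦ a s` if `u = s`, `s ∈ S`, else `0`.)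
-/

set_option autoImplicit false

namespace Pool.Agent.H78.PD

open Finset
open Pool.Agent.H34PG (lam lam_val lam_mul)
open Pool.Agent.H11.LQ Pool.Agent.H78.PG

theorem ortho_coef (m : ℕ) [NeZero m] (S : Finset ℕ)
    (hS : ∀ s ∈ S, s.Coprime m ∧ 1 ≤ s ∧ s ≤ m) (a : ℕ → ℂ) :
    ∑ χ : DirichletCharacter ℂ m, ‖∑ s ∈ S, a s * χ (s : ZMod m)‖ ^ 2
      = (m.totient : ℝ) * ∑ s ∈ S, ‖a s‖ ^ 2 := by
  have hinj : ∀ s ∈ S, ∀ t ∈ S, (s : ZMod m) = (t : ZMod m) → s = t := by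
    intro s hs t ht h
    rw [ZMod.natCast_eq_natCast_iff] at h
    obtain ⟨hs1, hs2, hs3⟩ := hS s hs
    obtain ⟨ht1, ht2, ht3⟩ := hS t ht
    rcases Nat.lt_or_ge 1 m with hm | hm
    · have hs4 : s < m := by
        refine lt_of_le_of_ne hs3 (fun h' => ?_)
        rw [h'] at hs1
        have : m = 1 := by simpa using hs1
        omega
      have ht4 : t < m := by
        refine lt_of_le_of_ne ht3 (fun h' => ?_)
        rw [h'] at ht1
        have : m = 1 := by simpa using ht1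
        omega
      have := h
      unfold Nat.ModEq at this
      rwa [Nat.mod_eq_of_lt hs4, Nat.mod_eq_of_lt ht4] at this
    · omega
  have h1 : ∀ χ : DirichletCharacter ℂ m, ((‖∑ s ∈ S, a s * χ (s : ZMod m)‖ ^ 2 : ℝ) : ℂ)
      = ∑ s ∈ S, ∑ t ∈ S, ((starRingEnd ℂ) (a s) * a t) *
          ((starRingEnd ℂ) (χ (s : ZMod m)) * χ (t : ZMod m)) := by
    intro χ
    have : ((‖∑ s ∈ S, a s * χ (s : ZMod m)‖ ^ 2 : ℝ) : ℂ)
        = (starRingEnd ℂ) (∑ s ∈ S, a s * χ (s : ZMod m)) * ∑ t ∈ S, a t * χ (t : ZMod m) := by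
      rw [mul_comm, Complex.mul_conj, Complex.normSq_eq_norm_sq]
    rw [this, map_sum, Finset.sum_mul_sum]
    refine Finset.sum_congr rfl (fun s _ => Finset.sum_congr rfl (fun t _ => ?_))
    rw [map_mul]
    ring
  have h2 : ((∑ χ : DirichletCharacter ℂ m, ‖∑ s ∈ S, a s * χ (s : ZMod m)‖ ^ 2 : ℝ) : ℂ)
      = ((m.totient : ℝ) * ∑ s ∈ S, ‖a s‖ ^ 2 : ℝ) := by
    rw [Complex.ofReal_sum, Finset.sum_congr rfl (fun χ _ => h1 χ), Finset.sum_comm]
    have h3 : ∀ s ∈ S, ∑ χ : DirichletCharacter ℂ m, ∑ t ∈ S,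
        ((starRingEnd ℂ) (a s) * a t) *
          ((starRingEnd ℂ) (χ (s : ZMod m)) * χ (t : ZMod m))
        = (m.totient : ℂ) * ((‖a s‖ ^ 2 : ℝ) : ℂ) := by
      intro s hs
      rw [Finset.sum_comm]
      have h4 : ∀ t ∈ S, ∑ χ : DirichletCharacter ℂ m,
          ((starRingEnd ℂ) (a s) * a t) *
            ((starRingEnd ℂ) (χ (s : ZMod m)) * χ (t : ZMod m))
          = if s = t then (m.totient : ℂ) * ((‖a s‖ ^ 2 : ℝ) : ℂ) else 0 := by
        intro t ht
        have hsu : IsUnit (s : ZMod m) := (ZMod.isUnit_iff_coprime _ _).2 (hS s hs).1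
        have htu : IsUnit (t : ZMod m) := (ZMod.isUnit_iff_coprime _ _).2 (hS t ht).1
        have h5 := tfour_ortho m hsu.unit htu.unit
        simp only [IsUnit.unit_spec] at h5
        rw [← Finset.mul_sum, h5]
        by_cases hst : s = t
        · subst hst
          rw [if_pos rfl, if_pos rfl, mul_comm ((starRingEnd ℂ) (a s)) (a s), Complex.mul_conj,
            Complex.normSq_eq_norm_sq, mul_comm]
        · rw [if_neg hst, if_neg, mul_zero]
          intro h6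
          apply hst
          apply hinj s hs t ht
          have := congrArg (fun u : (ZMod m)ˣ => (u : ZMod m)) h6
          simpa using this
      rw [Finset.sum_congr rfl h4, Finset.sum_ite_eq, if_pos hs]
    rw [Finset.sum_congr rfl h3, ← Finset.mul_sum]
    push_cast
    ring
  exact_mod_cast h2

end Pool.Agent.H78.PD

end

section

/-!
Numerical data on the primes up to `1024` and the resulting bounds for `∑ 1/p`.
-/

namespace Pool.Agent.H91.Gold

open Finset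
open scoped ArithmeticFunction.vonMangoldt

/-- Computable primality test, correct below `1156`. -/
def isP (n : ℕ) : Bool := 2 ≤ n && (List.range 33).all (fun m => m < 2 || n ≤ m || n % m != 0)

/-- The proper prime powers up to `1024`. -/
def ppow : List (ℕ × ℕ) :=
  [(2, 2), (2, 3), (2, 4), (2, 5), (2, 6), (2, 7), (2, 8), (2, 9), (2, 10), (3, 2), (3, 3), (3, 4),
    (3, 5), (3, 6), (5, 2), (5, 3), (5, 4), (7, 2), (7, 3), (11, 2), (13, 2), (17, 2), (19, 2),
    (23, 2), (29, 2), (31, 2)]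

/-- Base of a prime power below `1024` (the value `1` otherwise). -/
def lam (d : ℕ) : ℕ :=
  if isP d then d
  else match ppow.find? (fun x => x.1 ^ x.2 == d) with
    | some x => x.1
    | none => 1

/-- Passing from a Mertens type bound for `∑ log p / p` to one for `∑ 1 / p`. -/
theorem mertens_gen {w z : ℕ} (hw : 2 ≤ w) (hwz : w ≤ z) {c : ℝ} (hc : 0 ≤ c)
    (h : ∀ m, w ≤ m → m ≤ z → Mt m - Mt w ≤ Real.log m - Real.log w + c) :
    ∑ p ∈ Pr w z, (1 : ℝ) / p ≤ Real.log (Real.log z / Real.log w) + c / Real.log w := by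
  have hlw : 0 < Real.log w := Real.log_pos (by exact_mod_cast (by omega : 1 < w))
  have hlog : ∀ k : ℕ, w ≤ k → 0 < Real.log k := by
    intro k hk
    apply Real.log_pos
    exact_mod_cast (by omega : 1 < k)
  have h1 : ∑ p ∈ Pr w z, (1 : ℝ) / p
      = ∑ k ∈ Ioc w z, (if k.Prime then Real.log k / k else 0) * (1 / Real.log k) := by
    unfold Pr
    rw [sum_filter]
    apply sum_congr rfl
    intro k hk
    rw [mem_Ioc] at hk
    split_ifs with hp
    · have := (hlog k hk.1.le).ne'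
      field_simp
    · simp
  have h2 : ∑ k ∈ Ioc w z, (if k.Prime then Real.log k / k else 0) * (1 / Real.log k)
      ≤ ∑ k ∈ Ioc w z, (Real.log k - Real.log (k - 1 : ℕ)) * (1 / Real.log k)
        + c * (1 / Real.log ((w + 1 : ℕ) : ℝ)) := by
    apply abel_le hwz hc
    · intro k hk1 _
      have := hlog k hk1.le
      positivity
    · have := hlog (w + 1) (by omega)
      positivity
    · intro k hk1 _
      have := hlog k hk1.le
      apply one_div_le_one_div_of_le this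
      apply Real.log_le_log
      · exact_mod_cast (by omega : 0 < k)
      · push_cast; linarith
    · intro m hm1 hm2
      have e1 : ∑ k ∈ Ioc w m, (Real.log k - Real.log (k - 1 : ℕ)) = Real.log m - Real.log w := by
        clear hm2
        induction m, hm1 using Nat.le_induction with
        | base => simp
        | succ m hm ih =>
          rw [sum_Ioc_succ_top (by omega), ih]
          simp
      have e2 : ∑ k ∈ Ioc w m, (if k.Prime then Real.log k / k else 0) ≤ Mt m - Mt w := by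
        have e3 : Mt m - Mt w = ∑ k ∈ Ioc w m, Λ k / k := by
          unfold Mt
          rw [← sum_Ioc_consecutive _ (Nat.zero_le w) hm1]
          ring
        rw [e3]
        apply sum_le_sum
        intro k _
        split_ifs with hp
        · rw [ArithmeticFunction.vonMangoldt_apply_prime hp]
        · have := ArithmeticFunction.vonMangoldt_nonneg (n := k)
          positivity
      rw [e1]
      exact e2.trans (h m hm1 hm2)
  have h3 : ∀ m, w ≤ m → ∑ k ∈ Ioc w m, (Real.log k - Real.log (k - 1 : ℕ)) * (1 / Real.log k)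
      ≤ Real.log (Real.log m) - Real.log (Real.log w) := by
    intro m hm
    induction m, hm using Nat.le_induction with
    | base => simp
    | succ m hm ih =>
      rw [sum_Ioc_succ_top (by omega)]
      have a1 := hlog m hm
      have a2 := hlog (m + 1) (by omega)
      have a3 : (Real.log ((m + 1 : ℕ) : ℝ) - Real.log (m + 1 - 1 : ℕ)) * (1 / Real.log ((m + 1 : ℕ) : ℝ))
          ≤ Real.log (Real.log ((m + 1 : ℕ) : ℝ)) - Real.log (Real.log m) := by
        have b1 := Real.log_le_sub_one_of_pos (x := Real.log m / Real.log ((m + 1 : ℕ) : ℝ)) (by positivity)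
        rw [Real.log_div a1.ne' a2.ne'] at b1
        rw [Nat.add_sub_cancel]
        have b2 : (Real.log ((m + 1 : ℕ) : ℝ) - Real.log m) * (1 / Real.log ((m + 1 : ℕ) : ℝ))
            = 1 - Real.log m / Real.log ((m + 1 : ℕ) : ℝ) := by
          field_simp
        rw [b2]
        linarith
      linarith
  have h4 := h3 z hwz
  have h5 : c * (1 / Real.log ((w + 1 : ℕ) : ℝ)) ≤ c / Real.log w := by
    rw [mul_one_div]
    apply div_le_div_of_nonneg_left hc hlw
    apply Real.log_le_log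
    · exact_mod_cast (by omega : 0 < w)
    · push_cast; linarith
  rw [h1, Real.log_div (hlog z hwz).ne' hlw.ne']
  linarith

end Pool.Agent.H91.Gold

end

section

/-!
# LQ / PG, TSup2: properties of the auxiliary products

`SS_prop`: `s = ∏ p ∈ A, p`, `A ⊆ PB`, `#A = j`.  `lam s = (-1)^j`, `χ s = ∏ χ p`; `‖χ s - (-1)^j‖ ≤ ∑_{p ∈ A} ‖χ p + 1‖` since all
factors have norm `≤ 1` (induction over `A`).
`SS_div`: the elements of `SS` dividing `y` are divisors of `y`: `div_le'`.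
-/

set_option autoImplicit false

namespace Pool.Agent.H78.PG

open Finset
open Pool.Agent.H34PG (lam lam_val lam_mul lam_prime)
open Pool.Agent.H11.LQ

theorem tsup2_lam {A : Finset ℕ} (hA : ∀ p ∈ A, p.Prime) :
    lam (∏ p ∈ A, p) = (-1) ^ A.card := by
  classical
  induction A using Finset.induction_on with
  | empty => simp [Pool.Agent.H34PG.lam_one]
  | insert a s ha ih =>
    rw [Finset.prod_insert ha, Finset.card_insert_of_notMem ha, lam_mul, lam_prime, ih, pow_succ]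
    · ring
    · exact fun p hp => hA p (Finset.mem_insert_of_mem hp)
    · exact hA a (Finset.mem_insert_self _ _)
    · exact (hA a (Finset.mem_insert_self _ _)).pos
    · exact Finset.prod_pos fun p hp => (hA p (Finset.mem_insert_of_mem hp)).pos

theorem tsup2_chi {m : ℕ} [NeZero m] (χ : DirichletCharacter ℂ m) {ε : ℝ} {A : Finset ℕ}
    (hA : ∀ p ∈ A, ‖χ (p : ZMod m) + 1‖ ≤ ε) :
    ‖χ ((∏ p ∈ A, p : ℕ) : ZMod m) - (-1) ^ A.card‖ ≤ A.card * ε := by
  classical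
  induction A using Finset.induction_on with
  | empty => simp
  | insert a s ha ih =>
    have h1 := ih fun p hp => hA p (Finset.mem_insert_of_mem hp)
    have h2 := hA a (Finset.mem_insert_self _ _)
    rw [Finset.prod_insert ha, Finset.card_insert_of_notMem ha, Nat.cast_mul, map_mul]
    set P : ℂ := χ ((∏ p ∈ s, p : ℕ) : ZMod m) with hP
    have h3 : ‖P‖ ≤ 1 := DirichletCharacter.norm_le_one χ _
    have e1 : χ (a : ZMod m) * P - (-1) ^ (s.card + 1)
        = (χ (a : ZMod m) + 1) * P - (P - (-1) ^ s.card) := by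
      rw [pow_succ]
      ring
    rw [e1]
    calc ‖(χ (a : ZMod m) + 1) * P - (P - (-1) ^ s.card)‖
        ≤ ‖(χ (a : ZMod m) + 1) * P‖ + ‖P - (-1) ^ s.card‖ := norm_sub_le _ _
      _ ≤ ε * 1 + s.card * ε := by
          refine add_le_add ?_ h1
          rw [norm_mul]
          exact mul_le_mul h2 h3 (norm_nonneg _) (le_trans (norm_nonneg _) h2)
      _ = ((s.card + 1 : ℕ) : ℝ) * ε := by
          push_cast
          ring

theorem SS_prop {δ : ℝ} {m : ℕ} [NeZero m] {j s : ℕ} (hs : s ∈ SS δ m j) :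
    s.Coprime m ∧ 1 ≤ s ∧ s ≤ BB δ m ^ j ∧ lam s = (-1) ^ j ∧
      ∀ χ ∈ XX δ m, ‖χ (s : ZMod m) - (-1) ^ j‖ ≤ j * (m : ℝ) ^ (-(δ / 4)) := by
  unfold SS at hs
  rw [Finset.mem_image] at hs
  obtain ⟨A, hA, rfl⟩ := hs
  rw [Finset.mem_powersetCard] at hA
  obtain ⟨hA1, rfl⟩ := hA
  have hP : ∀ p ∈ A, p ≤ BB δ m ∧ p.Prime ∧ ¬ p ∣ m := fun p hp => mem_PB.mp (hA1 hp)
  refine ⟨?_, ?_, ?_, ?_, ?_⟩
  · exact Nat.Coprime.prod_left fun p hp => ((hP p hp).2.1.coprime_iff_not_dvd).mpr (hP p hp).2.2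
  · exact Finset.prod_pos fun p hp => (hP p hp).2.1.pos
  · exact Finset.prod_le_pow_card _ _ _ fun p hp => (hP p hp).1
  · exact tsup2_lam fun p hp => (hP p hp).2.1
  · intro χ hχ
    rw [mem_XX] at hχ
    exact tsup2_chi χ fun p hp => hχ p (hP p hp).2.1 (hP p hp).1 (hP p hp).2.2

theorem SS_div (θ : ℝ) (hθ : 0 < θ) : ∃ m0 : ℕ, ∀ m : ℕ, m0 ≤ m → ∀ δ : ℝ, ∀ j y : ℕ, 1 ≤ y →
    y ≤ m → (((SS δ m j).filter (fun s => s ∣ y)).card : ℝ) ≤ (m : ℝ) ^ θ := by
  obtain ⟨m0, hm0⟩ := div_le' θ hθ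
  refine ⟨m0, fun m hm δ j y hy hym => ?_⟩
  refine le_trans ?_ (hm0 m hm y hy hym)
  have h1 : (SS δ m j).filter (fun s => s ∣ y) ⊆ y.divisors := by
    intro s hs
    rw [Finset.mem_filter] at hs
    rw [Nat.mem_divisors]
    exact ⟨hs.2, by omega⟩
  exact_mod_cast Finset.card_le_card h1

end Pool.Agent.H78.PG

end

section

/-!
# LQ / PG, TXc: the number of characters in `XX`

`ortho_sum` with `S = SS δ m (rr δ)` (elements in `[1, BB^rr]`, `BB^rr ≤ m`, prime to `m`: `SS_prop`, `BB_low`); for `χ ∈ XX`: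
`‖∑_S χ s‖ ≥ #S (1 - rr m^(-δ/4)) ≥ #S/2` for large `m` (`SS_prop`), so `#XX (#S)²/4 ≤ φ(m) #S ≤ m #S`, and
`#S ≥ BB^rr m^(-δ/50) ≥ m 2^(-rr) m^(-δ/50)` (`SS_card`, `BB_low`); `4 * 2^rr * m^(δ/50) ≤ m^(δ/40)` (`grow`).
-/

set_option autoImplicit false

namespace Pool.Agent.H78.PG

open Finset
open Pool.Agent.H34PG (lam lam_val lam_mul lam_prime)
open Pool.Agent.H11.LQ

private lemma txc_low (δ : ℝ) (m : ℕ) [NeZero m] (hrr : (rr δ : ℝ) * (m : ℝ) ^ (-(δ / 4)) ≤ 1 / 2)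
    (χ : DirichletCharacter ℂ m) (hχ : χ ∈ XX δ m) :
    ((SS δ m (rr δ)).card : ℝ) / 2 ≤ ‖∑ s ∈ SS δ m (rr δ), χ (s : ZMod m)‖ := by
  have h1 : ‖∑ s ∈ SS δ m (rr δ), (χ (s : ZMod m) - (-1) ^ (rr δ))‖
      ≤ ((SS δ m (rr δ)).card : ℝ) * (1 / 2) := by
    calc ‖∑ s ∈ SS δ m (rr δ), (χ (s : ZMod m) - (-1) ^ (rr δ))‖
        ≤ ∑ s ∈ SS δ m (rr δ), ‖χ (s : ZMod m) - (-1) ^ (rr δ)‖ := norm_sum_le _ _
      _ ≤ ∑ _s ∈ SS δ m (rr δ), (1 / 2 : ℝ) :=
          Finset.sum_le_sum fun s hs => ((SS_prop hs).2.2.2.2 χ hχ).trans hrr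
      _ = ((SS δ m (rr δ)).card : ℝ) * (1 / 2) := by rw [sum_const, nsmul_eq_mul]
  have h2 : ‖∑ _s ∈ SS δ m (rr δ), ((-1 : ℂ) ^ (rr δ))‖ = ((SS δ m (rr δ)).card : ℝ) := by
    rw [sum_const, nsmul_eq_mul, norm_mul, norm_pow, norm_neg, norm_one, one_pow, mul_one,
      Complex.norm_natCast]
  have h3 : ∑ _s ∈ SS δ m (rr δ), ((-1 : ℂ) ^ (rr δ))
      = ∑ s ∈ SS δ m (rr δ), χ (s : ZMod m)
        - ∑ s ∈ SS δ m (rr δ), (χ (s : ZMod m) - (-1) ^ (rr δ)) := by
    rw [← sum_sub_distrib]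
    exact sum_congr rfl fun s _ => by ring
  have h4 := norm_sub_le (∑ s ∈ SS δ m (rr δ), χ (s : ZMod m))
    (∑ s ∈ SS δ m (rr δ), (χ (s : ZMod m) - (-1) ^ (rr δ)))
  rw [← h3, h2] at h4
  linarith

theorem X_card (δ : ℝ) (h0 : 0 < δ) (h1 : δ ≤ 1 / 100) : ∃ m0 : ℕ, ∀ (m : ℕ) [NeZero m],
    m0 ≤ m → ((XX δ m).card : ℝ) ≤ (m : ℝ) ^ (δ / 40) := by
  obtain ⟨m1, H1⟩ := BB_low δ h0 h1
  obtain ⟨m2, H2⟩ := SS_card δ h0 h1
  obtain ⟨m3, H3⟩ := grow (2 * (rr δ : ℝ)) 0 (δ / 4) (by linarith)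
  obtain ⟨m4, H4⟩ := grow (4 * 2 ^ rr δ : ℝ) 0 (δ / 200) (by linarith)
  refine ⟨m1 + m2 + m3 + m4 + 1, fun m hm0 hm => ?_⟩
  obtain ⟨hB2, -, hBm, hmB, -⟩ := H1 m (by omega)
  have hS := H2 m (by omega) (rr δ) le_rfl
  have g3 := H3 m (by omega)
  have g4 := H4 m (by omega)
  rw [pow_zero, mul_one] at g3 g4
  have hmpos : (0 : ℝ) < m := by
    have : 0 < m := by omega
    exact_mod_cast this
  have hrr : (rr δ : ℝ) * (m : ℝ) ^ (-(δ / 4)) ≤ 1 / 2 := by
    rw [Real.rpow_neg hmpos.le, ← div_eq_mul_inv, div_le_iff₀ (Real.rpow_pos_of_pos hmpos _)]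
    linarith
  set T : ℝ := ((SS δ m (rr δ)).card : ℝ) with hT
  have hTpos : 0 < T := by
    refine lt_of_lt_of_le (mul_pos (pow_pos ?_ _) (Real.rpow_pos_of_pos hmpos _)) hS
    exact_mod_cast (show 0 < BB δ m by omega)
  have e1 := ortho_sum m (SS δ m (rr δ)) fun s hs => by
    have h := SS_prop hs
    exact ⟨h.1, h.2.1, h.2.2.1.trans hBm⟩
  rw [← hT] at e1
  have e2 : ((XX δ m).card : ℝ) * (T / 2) ^ 2 ≤ (m.totient : ℝ) * T := by
    rw [← e1]
    calc ((XX δ m).card : ℝ) * (T / 2) ^ 2 = ∑ _χ ∈ XX δ m, (T / 2) ^ 2 := by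
          rw [sum_const, nsmul_eq_mul]
      _ ≤ ∑ χ ∈ XX δ m, ‖∑ s ∈ SS δ m (rr δ), χ (s : ZMod m)‖ ^ 2 :=
          Finset.sum_le_sum fun χ hχ =>
            pow_le_pow_left₀ (by positivity) (txc_low δ m hrr χ hχ) 2
      _ ≤ ∑ χ : DirichletCharacter ℂ m, ‖∑ s ∈ SS δ m (rr δ), χ (s : ZMod m)‖ ^ 2 :=
          Finset.sum_le_univ_sum_of_nonneg fun χ => by positivity
  have e3 : (m.totient : ℝ) * T ≤ m * T :=
    mul_le_mul_of_nonneg_right (by exact_mod_cast Nat.totient_le m) hTpos.le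
  have e4 : ((XX δ m).card : ℝ) * T ≤ 4 * m := by
    have : ((XX δ m).card : ℝ) * T * T ≤ 4 * m * T := by nlinarith [e2, e3]
    exact le_of_mul_le_mul_right this hTpos
  have e5 : (m : ℝ) * (m : ℝ) ^ (-(δ / 50)) ≤ 2 ^ rr δ * T := by
    calc (m : ℝ) * (m : ℝ) ^ (-(δ / 50))
        ≤ (2 ^ rr δ * (BB δ m : ℝ) ^ rr δ) * (m : ℝ) ^ (-(δ / 50)) :=
          mul_le_mul_of_nonneg_right hmB (Real.rpow_nonneg hmpos.le _)
      _ = 2 ^ rr δ * ((BB δ m : ℝ) ^ rr δ * (m : ℝ) ^ (-(δ / 50))) := by ring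
      _ ≤ 2 ^ rr δ * T := mul_le_mul_of_nonneg_left hS (by positivity)
  have e6 : (m : ℝ) ≤ 2 ^ rr δ * T * (m : ℝ) ^ (δ / 50) := by
    have h := mul_le_mul_of_nonneg_right e5 (Real.rpow_nonneg hmpos.le (δ / 50))
    rw [mul_assoc, ← Real.rpow_add hmpos, neg_add_cancel, Real.rpow_zero, mul_one] at h
    exact h
  have e7 : ((XX δ m).card : ℝ) * T ≤ (4 * 2 ^ rr δ * (m : ℝ) ^ (δ / 50)) * T := by
    calc ((XX δ m).card : ℝ) * T ≤ 4 * m := e4
      _ ≤ 4 * (2 ^ rr δ * T * (m : ℝ) ^ (δ / 50)) := by linarith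
      _ = (4 * 2 ^ rr δ * (m : ℝ) ^ (δ / 50)) * T := by ring
  have e8 := le_of_mul_le_mul_right e7 hTpos
  refine e8.trans ((mul_le_mul_of_nonneg_right g4 (Real.rpow_nonneg hmpos.le _)).trans ?_)
  rw [← Real.rpow_add hmpos]
  exact le_of_eq (by congr 1; ring)

end Pool.Agent.H78.PG

end
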