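import Pool.Agent.H94.PG.M04
import Pool.Agent.H94.PG.M11
import Pool.Agent.H94.PG.M13

/-! The parts of this file: H78.PD.Comp, H78.PD.Iter, H78.PD.Step, H78.PD.T3a, H78.PG.TT5a. -/

section

/-!
# PD, Comp: vectors at comparable numbers are close

`N = max n n'`, `Y = m/(2N)`; `d χ = cc χ (vv n - vv n')`.  `quasi` (`PG/TQO.lean`) on `cop m Y`: `(#cop m Y - #U KK m) ∑_U |d χ|² ≤ ∑_{y ∈ cop m Y} |∑_U d χ χ(y)|²`, and
`∑_U d χ χ(y) = λ(n) GU(n y) - λ(n') GU(n' y)`, `|λ(n) GU(ny) - λ(y)| = |GU(ny) - λ(n)λ(y)|`, so the right side is `≤ 2 ∑_{y ≤ Y} |..n..|² + 2 ∑ |..n'..|² ≤ (φ/n) dn n + (φ/n') dn n'`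
(`cop m Y ⊆ cop m (m/(2n))`).  `Y ≥ m^(401/800)/2 - 1`; `#cop m Y ≥ φ Y/m - 2^ω` (`cop_card_ge`), `#U KK ≤ m^(1/2000 + 1/2 + 1/10000)` (`KK_le`), `φ ≥ m^(1 - 1/10000)` (`tot_le`), `2^ω ≤ m^(1/10000)` (`two_pow_le`): so
`#cop m Y - #U KK ≥ (φ/m)(Y/2)·... ≥ φ/(4N)` (`Y ≥ (9/10) m/(2N)`), and `∑_U |d χ|² = Nrm ≤ (4N/φ)(φ/n dn n + φ/n' dn n') ≤ 4R(dn n + dn n')` (`N ≤ R n`, `N ≤ R n'`).
-/

set_option autoImplicit false

namespace Pool.Agent.H78.PD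

open Finset
open Pool.Agent.H34PG (lam lam_val lam_mul lam_prime)
open Pool.Agent.H11.LQ Pool.Agent.H78.PG

theorem Comp_lam_sq {n : ℕ} (hn : 1 ≤ n) : ((lam n : ℤ) : ℂ) * ((lam n : ℤ) : ℂ) = 1 := by
  rcases lam_val n with h | h <;> rw [h] <;> norm_num

theorem Comp_lam_norm {n : ℕ} (hn : 1 ≤ n) : ‖((lam n : ℤ) : ℂ)‖ = 1 := by
  rcases lam_val n with h | h <;> rw [h] <;> simp

/-- the expansion at `x` -/
theorem Comp_exp (m : ℕ) [NeZero m] (η : ℤ) (U : Finset (DirichletCharacter ℂ m)) (n x : ℕ) :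
    ∑ χ ∈ U, cc m (FC m η) χ * vv m χ n * χ (x : ZMod m) = ((lam n : ℤ) : ℂ) * GU m η U (n * x) := by
  unfold GU vv
  rw [mul_sum]
  refine sum_congr rfl fun χ _ => ?_
  rw [Nat.cast_mul, map_mul]
  ring

theorem Comp_norm (m : ℕ) [NeZero m] (η : ℤ) (U : Finset (DirichletCharacter ℂ m)) {n : ℕ} (hn : 1 ≤ n) (x : ℕ) :
    ‖((lam n : ℤ) : ℂ) * GU m η U (n * x) - ((lam x : ℤ) : ℂ)‖
      = ‖((lam n : ℤ) : ℂ) * ((lam x : ℤ) : ℂ) - GU m η U (n * x)‖ := by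
  have h : ((lam n : ℤ) : ℂ) * GU m η U (n * x) - ((lam x : ℤ) : ℂ)
      = -(((lam n : ℤ) : ℂ) * (((lam n : ℤ) : ℂ) * ((lam x : ℤ) : ℂ) - GU m η U (n * x))) := by
    have h2 := Comp_lam_sq hn
    linear_combination ((lam x : ℤ) : ℂ) * h2
  rw [h, norm_neg, norm_mul, Comp_lam_norm hn, one_mul]

theorem Comp_tri (a b c : ℂ) : ‖a - b‖ ^ 2 ≤ 2 * ‖a - c‖ ^ 2 + 2 * ‖b - c‖ ^ 2 := by
  have h : ‖a - b‖ ≤ ‖a - c‖ + ‖b - c‖ := by
    have : a - b = (a - c) - (b - c) := by ring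
    rw [this]; exact norm_sub_le _ _
  have h0 := norm_nonneg (a - b)
  nlinarith only [h, h0, sq_nonneg (‖a - c‖ - ‖b - c‖), norm_nonneg (a - c), norm_nonneg (b - c)]

theorem Comp_dn_nonneg (m : ℕ) [NeZero m] (η : ℤ) (U : Finset (DirichletCharacter ℂ m)) (n : ℕ) : 0 ≤ dn m η U n := by
  unfold dn
  positivity

/-- the sum over a shorter range -/
theorem Comp_sum (m : ℕ) [NeZero m] (η : ℤ) (U : Finset (DirichletCharacter ℂ m)) {n Y : ℕ} (hn : 1 ≤ n) (hY : Y ≤ m / (2 * n)) :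
    ∑ x ∈ cop m Y, ‖((lam n : ℤ) : ℂ) * GU m η U (n * x) - ((lam x : ℤ) : ℂ)‖ ^ 2
      ≤ (m.totient : ℝ) / (2 * n) * dn m η U n := by
  have hn0 : (0 : ℝ) < n := by exact_mod_cast hn
  have hφ : (0 : ℝ) < m.totient := by
    exact_mod_cast Nat.totient_pos.2 (Nat.pos_of_ne_zero (NeZero.ne m))
  have h1 : (m.totient : ℝ) / (2 * n) * dn m η U n = ∑ y ∈ cop m (m / (2 * n)),
      ‖((lam n : ℤ) : ℂ) * ((lam y : ℤ) : ℂ) - GU m η U (n * y)‖ ^ 2 := by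
    unfold dn
    rw [← mul_assoc]
    have : (m.totient : ℝ) / (2 * n) * (2 * n / m.totient) = 1 := by field_simp
    rw [this, one_mul]
  rw [h1]
  have hsub : cop m Y ⊆ cop m (m / (2 * n)) := by
    intro x hx
    rw [mem_cop] at hx ⊢
    exact ⟨hx.1, hx.2.1.trans hY, hx.2.2⟩
  refine le_trans (le_of_eq ?_) (sum_le_sum_of_subset_of_nonneg hsub fun _ _ _ => by positivity)
  refine sum_congr rfl fun x _ => ?_
  rw [Comp_norm m η U hn]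

/-- the upper bound of the quasi-orthogonal sum -/
theorem Comp_upper (m : ℕ) [NeZero m] (η : ℤ) (U : Finset (DirichletCharacter ℂ m)) {n n' Y : ℕ} (hn : 1 ≤ n) (hn' : 1 ≤ n')
    (hY : Y ≤ m / (2 * n)) (hY' : Y ≤ m / (2 * n')) :
    ∑ x ∈ cop m Y, ‖∑ χ ∈ U, (cc m (FC m η) χ * (vv m χ n - vv m χ n')) * χ (x : ZMod m)‖ ^ 2
      ≤ (m.totient : ℝ) / n * dn m η U n + (m.totient : ℝ) / n' * dn m η U n' := by
  have h1 := Comp_sum m η U hn hY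
  have h2 := Comp_sum m η U hn' hY'
  have h3 : ∀ x ∈ cop m Y, ‖∑ χ ∈ U, (cc m (FC m η) χ * (vv m χ n - vv m χ n')) * χ (x : ZMod m)‖ ^ 2
      ≤ 2 * ‖((lam n : ℤ) : ℂ) * GU m η U (n * x) - ((lam x : ℤ) : ℂ)‖ ^ 2
        + 2 * ‖((lam n' : ℤ) : ℂ) * GU m η U (n' * x) - ((lam x : ℤ) : ℂ)‖ ^ 2 := by
    intro x _
    have h4 : ∑ χ ∈ U, (cc m (FC m η) χ * (vv m χ n - vv m χ n')) * χ (x : ZMod m)
        = ((lam n : ℤ) : ℂ) * GU m η U (n * x) - ((lam n' : ℤ) : ℂ) * GU m η U (n' * x) := by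
      rw [← Comp_exp, ← Comp_exp, ← sum_sub_distrib]
      exact sum_congr rfl fun χ _ => by ring
    rw [h4]
    exact Comp_tri _ _ _
  refine (sum_le_sum h3).trans ?_
  rw [sum_add_distrib, ← mul_sum, ← mul_sum]
  have e1 : (m.totient : ℝ) / n * dn m η U n = 2 * ((m.totient : ℝ) / (2 * n) * dn m η U n) := by
    have hn0 : (0 : ℝ) < n := by exact_mod_cast hn
    field_simp
  have e2 : (m.totient : ℝ) / n' * dn m η U n' = 2 * ((m.totient : ℝ) / (2 * n') * dn m η U n') := by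
    have hn0 : (0 : ℝ) < n' := by exact_mod_cast hn'
    field_simp
  rw [e1, e2]
  linarith

theorem Comp_nrm (m : ℕ) [NeZero m] (η : ℤ) (U : Finset (DirichletCharacter ℂ m)) (d : DirichletCharacter ℂ m → ℂ) :
    ∑ χ ∈ U, ‖cc m (FC m η) χ * d χ‖ ^ 2 = Nrm m η U d := by
  unfold Nrm ww
  exact sum_congr rfl fun χ _ => by rw [norm_mul, mul_pow]

/-- the lower bound of the number of summands -/
theorem Comp_lower : ∃ m0 : ℕ, ∀ m : ℕ, m0 ≤ m → ∀ c : ℝ, 0 ≤ c → c ≤ (m : ℝ) ^ (1 / 2000 : ℝ) → ∀ N : ℕ, 1 ≤ N →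
    (N : ℝ) ≤ (m : ℝ) ^ (399 / 800 : ℝ) →
    (m.totient : ℝ) / (4 * N) ≤ ((cop m (m / (2 * N))).card : ℝ) - c * KK m := by
  obtain ⟨m1, H1⟩ := two_pow_le (1 / 10000) (by norm_num)
  obtain ⟨m2, H2⟩ := KK_le (1 / 10000) (by norm_num)
  obtain ⟨m3, H3⟩ := tot_le (1 / 10000) (by norm_num)
  obtain ⟨m4, H4⟩ := grow 12 0 (1 / 2000) (by norm_num)
  refine ⟨m1 + m2 + m3 + m4 + 1, fun m hm c hc0 hc N hN hNm => ?_⟩
  have h1 := H1 m (by omega)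
  have h2 := H2 m (by omega)
  have h3 := H3 m (by omega)
  have h4 := H4 m (by omega)
  rw [pow_zero, mul_one] at h4
  have hmN : 1 ≤ m := by omega
  have hm1 : (1 : ℝ) ≤ m := by exact_mod_cast hmN
  have hm0 : (0 : ℝ) < m := by linarith only [hm1]
  have hN0 : (0 : ℝ) < N := by exact_mod_cast hN
  have hcop := cop_card_ge m (m / (2 * N)) hmN
  -- the length
  have hY : (m : ℝ) / (2 * N) - 1 ≤ ((m / (2 * N) : ℕ) : ℝ) := by
    have := Nat.lt_floor_add_one ((m : ℝ) / ((2 * N : ℕ) : ℝ))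
    rw [Nat.floor_div_natCast, Nat.floor_natCast] at this
    push_cast at this ⊢
    linarith only [this]
  have hφm : (m.totient : ℝ) ≤ m := by exact_mod_cast Nat.totient_le m
  have hφ0 : (0 : ℝ) ≤ m.totient := Nat.cast_nonneg _
  have hYφ : (m.totient : ℝ) / (2 * N) - 1 ≤ ((m / (2 * N) : ℕ) : ℝ) * m.totient / m := by
    have e1 : ((m : ℝ) / (2 * N) - 1) * m.totient / m ≤ ((m / (2 * N) : ℕ) : ℝ) * m.totient / m := by
      gcongr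
    have e2 : ((m : ℝ) / (2 * N) - 1) * m.totient / m = (m.totient : ℝ) / (2 * N) - m.totient / m := by
      field_simp
    have e3 : (m.totient : ℝ) / m ≤ 1 := by
      rw [div_le_one hm0]; exact hφm
    linarith only [e1, e2, e3]
  -- the size of the other terms
  obtain ⟨A, hA⟩ : ∃ A : ℝ, A = (m : ℝ) ^ (5006 / 10000 : ℝ) := ⟨_, rfl⟩
  have hA1 : 1 ≤ A := by
    rw [hA]; exact Real.one_le_rpow hm1 (by norm_num)
  have hP : (2 : ℝ) ^ (m.primeFactors.card) ≤ A := by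
    refine h1.trans ?_
    rw [hA]
    exact Real.rpow_le_rpow_of_exponent_le hm1 (by norm_num)
  have hK : c * KK m ≤ A := by
    have e1 : c * KK m ≤ (m : ℝ) ^ (1 / 2000 : ℝ) * (m : ℝ) ^ (1 / 2 + 1 / 10000 : ℝ) := by
      refine (mul_le_mul_of_nonneg_left h2 hc0).trans ?_
      exact mul_le_mul_of_nonneg_right hc (by positivity)
    rw [← Real.rpow_add hm0] at e1
    refine e1.trans (le_of_eq ?_)
    rw [hA]; norm_num
  have hbig : 3 * A ≤ (m.totient : ℝ) / (4 * N) := by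
    rw [le_div_iff₀ (by positivity)]
    have e1 : 3 * A * (4 * N) ≤ A * (m : ℝ) ^ (1 / 2000 : ℝ) * (m : ℝ) ^ (399 / 800 : ℝ) := by
      have : 3 * A * (4 * N) = A * 12 * N := by ring
      rw [this]
      gcongr
    refine e1.trans ?_
    rw [hA, ← Real.rpow_add hm0, ← Real.rpow_add hm0]
    have e2 : (m : ℝ) ^ (1 / 10000 : ℝ) * (m : ℝ) ^ (5006 / 10000 + 1 / 2000 + 399 / 800 : ℝ) ≤ m := by
      rw [← Real.rpow_add hm0]
      calc (m : ℝ) ^ (1 / 10000 + (5006 / 10000 + 1 / 2000 + 399 / 800) : ℝ) ≤ (m : ℝ) ^ (1 : ℝ) :=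
            Real.rpow_le_rpow_of_exponent_le hm1 (by norm_num)
        _ = m := Real.rpow_one _
    have hpos : (0 : ℝ) < (m : ℝ) ^ (1 / 10000 : ℝ) := by positivity
    exact le_of_mul_le_mul_left (e2.trans h3) hpos
  have e5 : (m.totient : ℝ) / (2 * N) = (m.totient : ℝ) / (4 * N) + (m.totient : ℝ) / (4 * N) := by
    field_simp
    ring
  linarith only [hcop, hYφ, hA1, hP, hK, hbig, e5]

theorem comp : ∃ m0 : ℕ, ∀ (m : ℕ) [NeZero m], m0 ≤ m → ∀ η : ℤ, (η = 1 ∨ η = -1) →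
    ∀ U : Finset (DirichletCharacter ℂ m), (U.card : ℝ) ≤ (m : ℝ) ^ (1 / 2000 : ℝ) →
    ∀ R : ℝ, 1 ≤ R → ∀ n n' : ℕ, 1 ≤ n → 1 ≤ n' → n.Coprime m → n'.Coprime m →
    (n : ℝ) ≤ (m : ℝ) ^ (399 / 800 : ℝ) → (n' : ℝ) ≤ (m : ℝ) ^ (399 / 800 : ℝ) →
    (n : ℝ) ≤ R * n' → (n' : ℝ) ≤ R * n →
    Nrm m η U (fun χ => vv m χ n - vv m χ n') ≤ 4 * R * (dn m η U n + dn m η U n') := by
  obtain ⟨m1, H⟩ := Comp_lower
  refine ⟨m1 + 1, fun m _ hm η _ U hU R hR n n' hn hn' _ _ hnm hnm' hRn hRn' => ?_⟩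
  have hφ : (0 : ℝ) < m.totient := by
    exact_mod_cast Nat.totient_pos.2 (Nat.pos_of_ne_zero (NeZero.ne m))
  have hn0 : (0 : ℝ) < n := by exact_mod_cast hn
  have hn0' : (0 : ℝ) < n' := by exact_mod_cast hn'
  obtain ⟨N, hN1, hnN, hnN', hNm, hNR, hNR'⟩ : ∃ N : ℕ, 1 ≤ N ∧ n ≤ N ∧ n' ≤ N ∧ (N : ℝ) ≤ (m : ℝ) ^ (399 / 800 : ℝ) ∧
      (N : ℝ) ≤ R * n ∧ (N : ℝ) ≤ R * n' := by
    rcases le_total n n' with h | h
    · refine ⟨n', hn', h, le_rfl, hnm', hRn', ?_⟩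
      nlinarith only [hR]
    · refine ⟨n, hn, le_rfl, h, hnm, ?_, hRn⟩
      nlinarith only [hR]
  have hN0 : (0 : ℝ) < N := by exact_mod_cast hN1
  have hlow := H m (by omega) (U.card : ℝ) (Nat.cast_nonneg _) hU N hN1 hNm
  have hY : m / (2 * N) ≤ m / (2 * n) := Nat.div_le_div_left (by omega) (by omega)
  have hY' : m / (2 * N) ≤ m / (2 * n') := Nat.div_le_div_left (by omega) (by omega)
  have hup := Comp_upper m η U hn hn' hY hY'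
  have hq := quasi m U (fun χ => cc m (FC m η) χ * (vv m χ n - vv m χ n')) (m / (2 * N))
  simp only [Comp_nrm m η U (fun χ => vv m χ n - vv m χ n')] at hq
  have hN := hq.trans hup
  obtain ⟨T, hT⟩ : ∃ T : ℝ, T = Nrm m η U (fun χ => vv m χ n - vv m χ n') := ⟨_, rfl⟩
  rw [← hT] at hN ⊢
  have hT0 : 0 ≤ T := by
    rw [hT, ← Comp_nrm]
    exact sum_nonneg fun _ _ => by positivity
  have h1 : (m.totient : ℝ) / (4 * N) * T ≤ (m.totient : ℝ) / n * dn m η U n + (m.totient : ℝ) / n' * dn m η U n' :=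
    (mul_le_mul_of_nonneg_right hlow hT0).trans hN
  have d1 := Comp_dn_nonneg m η U n
  have d2 := Comp_dn_nonneg m η U n'
  obtain ⟨a, ha⟩ : ∃ a : ℝ, a = dn m η U n := ⟨_, rfl⟩
  obtain ⟨b, hb⟩ : ∃ b : ℝ, b = dn m η U n' := ⟨_, rfl⟩
  rw [← ha] at h1 d1
  rw [← hb] at h1 d2
  rw [← ha, ← hb]
  have h2 : T ≤ 4 * ((N : ℝ) / n * a + N / n' * b) := by
    have e1 : T = (4 * N / m.totient) * ((m.totient : ℝ) / (4 * N) * T) := by
      field_simp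
    have e2 : 4 * ((N : ℝ) / n * a + N / n' * b) = (4 * N / m.totient) * ((m.totient : ℝ) / n * a + (m.totient : ℝ) / n' * b) := by
      field_simp
    rw [e1, e2]
    exact mul_le_mul_of_nonneg_left h1 (by positivity)
  have e3 : (N : ℝ) / n ≤ R := by rw [div_le_iff₀ hn0]; exact hNR
  have e4 : (N : ℝ) / n' ≤ R := by rw [div_le_iff₀ hn0']; exact hNR'
  have e5 : (N : ℝ) / n * a ≤ R * a := mul_le_mul_of_nonneg_right e3 d1
  have e6 : (N : ℝ) / n' * b ≤ R * b := mul_le_mul_of_nonneg_right e4 d2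
  calc T ≤ 4 * ((N : ℝ) / n * a + N / n' * b) := h2
    _ ≤ 4 * (R * a + R * b) := by linarith only [e5, e6]
    _ = 4 * R * (a + b) := by ring

end Pool.Agent.H78.PD

end

section

/-!
# PD, Iter: iteration of the step

`x ↦ x' = exp(√x/8)`, `α' = α + 1/√x`, `b = 1/√x`.  Induction (e.g. on `n` with `4 (log log m)² ≤ x + n`; `x' ≥ x + 1`, indeed `x' ≥ 4x`).
* If `√x ≥ 2 log log m`: `U = UU m x α`; `lsp_U` with `b = 1/√x`, `P2 = m/2` (`4(2 + log m) ≤ (log m)² ≤ exp(√x)`), `P = m/2`, `Y = 1`, `f = 1`: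
  `#U ≤ exp(4x²) φ m (m/2)^(-2+2α+b) ≤ 4 exp(4x²) m^(2α+b) ≤ m^σ`, as `4x² ≤ 4 (log m)^(1/2)` and `2α + b ≤ σ/4`.
* If `√x < 2 log log m`: `x' ≤ (log m)^(1/4)`; `lsp_U` with `b = 1/√x`, `P2 = exp(3x'^2)` (`4(2 + 3x'^2) = 8 + 12 exp(√x/4) ≤ exp(√x)`); `step` at `x'` with `X = UU m x α`, `B = exp(4x²)`, `γ = 2α + b`,
  `P1 = exp(3x²) ≤ exp(x')`, `2α' - γ = 1/√x`: `exp(4x²) (m/φ) x'^7 exp(-x'/√x) ≤ 1` (`m/φ ≤ x^(1/4) ≤ exp x`), `3x'^2 ≤ 3 (log m)^(1/2) ≤ log m/100`.  `α' + 2/√x' ≤ α + 2/√x` (`x' ≥ 4x`);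
  errors `C/log x' + C'/log x' ≤ C'/log x` with `log x' = √x/8 ≥ 2 log x`, `C' = 2C`.
-/

set_option autoImplicit false

namespace Pool.Agent.H78.PD

open Finset
open Pool.Agent.H34PG (lam lam_val lam_mul lam_prime)
open Pool.Agent.H11.LQ Pool.Agent.H78.PG

/-- the numerical facts for large `x` -/
theorem iter_large (A : ℝ) : ∃ x0 : ℝ, 64 ≤ x0 ∧ ∀ x : ℝ, x0 ≤ x →
    A ≤ Real.exp (Real.sqrt x / 8) ∧
    8 + 12 * Real.exp (Real.sqrt x / 4) ≤ Real.exp (Real.sqrt x) ∧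
    3 * x ^ 2 ≤ Real.exp (Real.sqrt x / 8) ∧
    (4 * x ^ 2 + x + 7 * (Real.sqrt x / 8)) * Real.sqrt x ≤ Real.exp (Real.sqrt x / 8) ∧
    4 * x ≤ Real.exp (Real.sqrt x / 8) ∧
    2 * Real.log x ≤ Real.sqrt x / 8 := by
  have h1 := Real.tendsto_exp_div_pow_atTop 6
  have h2 := (h1.eventually_ge_atTop ((8 : ℝ) ^ 6)).and (Real.tendsto_exp_atTop.eventually_ge_atTop A)
  obtain ⟨z0, hz0⟩ := Filter.eventually_atTop.1 h2
  refine ⟨max 64 ((8 * z0) ^ 2), le_max_left _ _, fun x hx => ?_⟩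
  have hx64 : 64 ≤ x := (le_max_left _ _).trans hx
  have hxz : (8 * z0) ^ 2 ≤ x := (le_max_right _ _).trans hx
  have hx0 : 0 ≤ x := by linarith only [hx64]
  obtain ⟨y, hy⟩ : ∃ y, y = Real.sqrt x := ⟨_, rfl⟩
  rw [← hy]
  have hyx : y ^ 2 = x := by rw [hy]; exact Real.sq_sqrt hx0
  have hy0 : 0 ≤ y := by rw [hy]; exact Real.sqrt_nonneg _
  have hy8 : 8 ≤ y := by
    rw [hy]
    refine Real.le_sqrt_of_sq_le ?_
    norm_num
    exact hx64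
  have hyz : z0 ≤ y / 8 := by
    rcases le_or_gt z0 0 with h | h
    · linarith only [hy8, h]
    · have : 8 * z0 ≤ y := by
        rw [hy]
        exact Real.le_sqrt_of_sq_le hxz
      linarith
  obtain ⟨h3, h4⟩ := hz0 (y / 8) hyz
  have hpow : y ^ 6 ≤ Real.exp (y / 8) := by
    have hz : 0 < (y / 8) ^ 6 := by positivity
    rw [le_div_iff₀ hz] at h3
    calc y ^ 6 = 8 ^ 6 * (y / 8) ^ 6 := by ring
      _ ≤ Real.exp (y / 8) := h3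
  have hy4 : (0 : ℝ) ≤ y ^ 4 := by positivity
  have hy5 : (0 : ℝ) ≤ y ^ 5 := by positivity
  have e46 : 64 * y ^ 4 ≤ y ^ 6 := by
    have : (64 : ℝ) ≤ y ^ 2 := by rw [hyx]; exact hx64
    calc 64 * y ^ 4 ≤ y ^ 2 * y ^ 4 := mul_le_mul_of_nonneg_right this hy4
      _ = y ^ 6 := by ring
  have e56 : 8 * y ^ 5 ≤ y ^ 6 := by
    calc 8 * y ^ 5 ≤ y * y ^ 5 := mul_le_mul_of_nonneg_right hy8 hy5
      _ = y ^ 6 := by ring
  have e34 : 8 * y ^ 3 ≤ y ^ 4 := by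
    have : (0 : ℝ) ≤ y ^ 3 := by positivity
    calc 8 * y ^ 3 ≤ y * y ^ 3 := mul_le_mul_of_nonneg_right hy8 this
      _ = y ^ 4 := by ring
  have e23 : 8 * y ^ 2 ≤ y ^ 3 := by
    have : (0 : ℝ) ≤ y ^ 2 := by positivity
    calc 8 * y ^ 2 ≤ y * y ^ 2 := mul_le_mul_of_nonneg_right hy8 this
      _ = y ^ 3 := by ring
  have hy2 : (0 : ℝ) ≤ y ^ 2 := by positivity
  have hy3 : (0 : ℝ) ≤ y ^ 3 := by positivity
  have c3 : 3 * x ^ 2 ≤ Real.exp (y / 8) := by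
    rw [← hyx]
    have : 3 * (y ^ 2) ^ 2 = 3 * y ^ 4 := by ring
    rw [this]
    linarith only [hx64, hyx, hpow, e46, e34, e23]
  refine ⟨h4, ?_, c3, ?_, ?_, ?_⟩
  · obtain ⟨t, ht⟩ : ∃ t, t = Real.exp (y / 4) := ⟨_, rfl⟩
    have ht4 : Real.exp y = t ^ 4 := by
      rw [ht, ← Real.exp_nat_mul]
      congr 1
      push_cast
      ring
    have ht3 : 3 ≤ t := by
      rw [ht]
      have := Real.add_one_le_exp (y / 4)
      linarith only [hy8, this]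
    rw [ht4, ← ht]
    have h27 : 27 ≤ t ^ 3 := by
      have := pow_le_pow_left₀ (by norm_num : (0 : ℝ) ≤ 3) ht3 3
      norm_num at this
      exact this
    have h27t : 27 * t ≤ t ^ 4 := by
      calc 27 * t ≤ t ^ 3 * t := mul_le_mul_of_nonneg_right h27 (by linarith only [ht3])
        _ = t ^ 4 := by ring
    linarith only [ht3, h27t]
  · rw [← hyx]
    have : (4 * (y ^ 2) ^ 2 + y ^ 2 + 7 * (y / 8)) * y = 4 * y ^ 5 + y ^ 3 + 7 / 8 * y ^ 2 := by ring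
    rw [this]
    linarith only [hx64, hyx, hpow, e46, e56, e34, e23]
  · rw [← hyx]
    linarith only [hx64, hyx, hpow, e46, e34, e23]
  · have hlog : Real.log (3 * x ^ 2) ≤ y / 8 := by
      have := Real.log_le_log (by positivity) c3
      rwa [Real.log_exp] at this
    rw [Real.log_mul (by norm_num) (by positivity), Real.log_pow] at hlog
    have h30 : 0 ≤ Real.log 3 := Real.log_nonneg (by norm_num)
    push_cast at hlog
    linarith only [hlog, h30]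

/-- the first case: the characters in `UU` are few -/
theorem iter_card (σ : ℝ) (hσ : 0 < σ) : ∃ ℓ0 : ℝ, 1 ≤ ℓ0 ∧ ∀ (m : ℕ) [NeZero m], ℓ0 ≤ Real.log m →
    ∀ (U : Finset (DirichletCharacter ℂ m)) (x γ : ℝ), 0 ≤ x → x ≤ Real.log m ^ (1 / 4 : ℝ) → 0 ≤ γ → γ ≤ σ / 4 → γ ≤ 2 →
    LSP m U (Real.exp (4 * x ^ 2)) γ (Real.exp (3 * x ^ 2)) ((m : ℝ) / 2) → (U.card : ℝ) ≤ (m : ℝ) ^ σ := by
  refine ⟨max 90000 ((8 / σ) ^ 2), (by norm_num : (1 : ℝ) ≤ 90000).trans (le_max_left _ _), ?_⟩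
  intro m _ hm U x γ hx0 hx hγ0 hγ hγ2 hL
  obtain ⟨ℓ, hℓ⟩ : ∃ ℓ, ℓ = Real.log m := ⟨_, rfl⟩
  rw [← hℓ] at hm hx
  have hℓ9 : 90000 ≤ ℓ := (le_max_left _ _).trans hm
  have hℓσ : (8 / σ) ^ 2 ≤ ℓ := (le_max_right _ _).trans hm
  have hℓ0 : 0 ≤ ℓ := by linarith only [hℓ9]
  have hm0 : (0 : ℝ) < m := Nat.cast_pos.2 (Nat.pos_of_ne_zero (NeZero.ne m))
  have hme : (m : ℝ) = Real.exp ℓ := by rw [hℓ, Real.exp_log hm0]
  obtain ⟨s, hs⟩ : ∃ s, s = Real.sqrt ℓ := ⟨_, rfl⟩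
  have hs0 : 0 ≤ s := by rw [hs]; exact Real.sqrt_nonneg _
  have hsq : s ^ 2 = ℓ := by rw [hs]; exact Real.sq_sqrt hℓ0
  have hs300 : 300 ≤ s := by
    rw [hs]
    refine Real.le_sqrt_of_sq_le ?_
    norm_num
    linarith only [hℓ9]
  have hs300' : 300 * s ≤ ℓ := by
    calc 300 * s ≤ s * s := mul_le_mul_of_nonneg_right hs300 hs0
      _ = ℓ := by rw [← hsq]; ring
  have hsσ : 8 / σ ≤ s := by
    rw [hs]
    exact Real.le_sqrt_of_sq_le hℓσ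
  have hxs : x ^ 2 ≤ s := by
    have h1 : x ^ 2 ≤ (ℓ ^ (1 / 4 : ℝ)) ^ 2 := pow_le_pow_left₀ hx0 hx 2
    have h2 : (ℓ ^ (1 / 4 : ℝ)) ^ 2 = s := by
      rw [hs, Real.sqrt_eq_rpow, ← Real.rpow_natCast, ← Real.rpow_mul hℓ0]
      norm_num
    rw [h2] at h1
    exact h1
  have hlog2 : Real.log 2 ≤ 1 := by
    have := Real.log_two_lt_d9
    linarith only [this]
  have hlog20 : 0 < Real.log 2 := Real.log_pos (by norm_num)
  have hhalf : (m : ℝ) / 2 = Real.exp (ℓ - Real.log 2) := by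
    rw [Real.exp_sub, Real.exp_log (by norm_num), hme]
  have hP : Real.exp (3 * x ^ 2) ≤ (m : ℝ) / 2 := by
    rw [hhalf]
    refine Real.exp_le_exp.2 ?_
    linarith only [hℓ9, hs300', hxs, hlog2]
  have hmain := hL ((m : ℝ) / 2) hP le_rfl 1 (by push_cast; linarith only) (fun _ => 1) (fun _ => by simp)
  have hsum : ∑ χ ∈ U, ‖∑ y ∈ cop m 1, (1 : ℂ) * χ (y : ZMod m)‖ ^ 2 = (U.card : ℝ) := by
    have hcop : cop m 1 = {1} := by
      unfold cop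
      rw [Finset.Icc_self, Finset.filter_singleton, if_pos (Nat.coprime_one_left m)]
    rw [Finset.card_eq_sum_ones, Nat.cast_sum]
    refine Finset.sum_congr rfl fun χ _ => ?_
    rw [hcop, Finset.sum_singleton]
    simp
  rw [hsum] at hmain
  refine hmain.trans ?_
  have hφ : ((m.totient : ℕ) : ℝ) ≤ m := Nat.cast_le.2 (Nat.totient_le m)
  have hpw : ((m : ℝ) / 2) ^ (-2 + γ) = Real.exp ((ℓ - Real.log 2) * (-2 + γ)) := by
    rw [hhalf, ← Real.exp_mul]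
  rw [hpw]
  have hσm : (m : ℝ) ^ σ = Real.exp (ℓ * σ) := by rw [hme, ← Real.exp_mul]
  rw [hσm]
  have e1 : Real.exp (4 * x ^ 2) * (m.totient : ℝ) * m * Real.exp ((ℓ - Real.log 2) * (-2 + γ)) ≤
      Real.exp (4 * x ^ 2) * m * m * Real.exp ((ℓ - Real.log 2) * (-2 + γ)) := by
    gcongr
  refine e1.trans ?_
  rw [hme, ← Real.exp_add, ← Real.exp_add, ← Real.exp_add]
  refine Real.exp_le_exp.2 ?_
  have h8 : 8 ≤ σ * s := by
    rw [div_le_iff₀ hσ] at hsσ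
    linarith only [hsσ]
  have h9 : 6 * s ≤ 3 * σ / 4 * ℓ := by
    have h12 := mul_le_mul_of_nonneg_right h8 hs0
    have h13 : σ * s * s = σ * ℓ := by rw [← hsq]; ring
    rw [h13] at h12
    linarith only [h12]
  have hexp : 4 * x ^ 2 + ℓ + ℓ + (ℓ - Real.log 2) * (-2 + γ) =
      4 * x ^ 2 + γ * ℓ + 2 * Real.log 2 - γ * Real.log 2 := by ring
  rw [hexp]
  have h10 := mul_nonneg hγ0 hlog20.le
  have h11 := mul_le_mul_of_nonneg_right hγ hℓ0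
  linarith only [hs300, hxs, hlog2, h9, h10, h11]

end Pool.Agent.H78.PD

end

section

/-!
# PD, Step: one step of the energy argument

`wout (UU) ≤ wout X + ∑_{X - UU} ww`.  `energy` + `tk` with `bnum`, `W_low2` (`W ≥ (log x)/2 ≥ 1`), `H ≥ log x`, `(J/W)² ≤ x^6`:
`∑_{X - UU} ww ≤ 8 B (m/φ) x^6 exp(-(2α-γ)x) + 8 (1/log x + 1/log x) + (64/φ) 2^ω exp(6x²)`; the first term is `≤ 8/x ≤ 8/log x` by hypothesis; `2^ω ≤ m^(1/100)` (`two_pow_le`), `m ≤ m^(1/100) φ` (`tot_le`),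
`exp(6x²) ≤ m^(1/50)`, so the last term is `≤ 64 m^(-9/10) ≤ 1/log m ≤ 1/log x` (`x ≤ log m`).
-/

set_option autoImplicit false

namespace Pool.Agent.H78.PD

open Finset
open Pool.Agent.H34PG (lam lam_val lam_mul lam_prime)
open Pool.Agent.H11.LQ Pool.Agent.H78.PG

theorem step_split (m : ℕ) [NeZero m] (η : ℤ) (x α : ℝ)
    (X : Finset (DirichletCharacter ℂ m)) (S : ℝ)
    (h : ∑ χ ∈ X.filter (fun χ => χ ∉ UU m x α), ww m η χ ≤ S) :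
    wout m η (UU m x α) ≤ wout m η X + S := by
  classical
  have h1 : wout m η (UU m x α) ≤ wout m η X
      + ∑ χ ∈ X.filter (fun χ => χ ∉ UU m x α), ww m η χ := by
    unfold wout
    have hsub : univ.filter (fun χ => χ ∉ UU m x α) ⊆
        univ.filter (fun χ => χ ∉ X) ∪ X.filter (fun χ => χ ∉ UU m x α) := by
      intro χ hχ
      rw [mem_filter] at hχ
      rw [mem_union, mem_filter, mem_filter]
      by_cases hX : χ ∈ X
      · exact Or.inr ⟨hX, hχ.2⟩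
      · exact Or.inl ⟨mem_univ _, hX⟩
    have hdisj : Disjoint (univ.filter (fun χ => χ ∉ X)) (X.filter (fun χ => χ ∉ UU m x α)) := by
      rw [Finset.disjoint_left]
      intro χ h1 h2
      rw [mem_filter] at h1 h2
      exact h1.2 h2.1
    calc ∑ χ ∈ univ.filter (fun χ => χ ∉ UU m x α), ww m η χ
        ≤ ∑ χ ∈ univ.filter (fun χ => χ ∉ X) ∪ X.filter (fun χ => χ ∉ UU m x α), ww m η χ :=
          sum_le_sum_of_subset_of_nonneg hsub (fun _ _ _ => ww_nonneg _ _ _)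
      _ = _ := sum_union hdisj
  linarith

/-- the arithmetic of the last term -/
theorem step_tail (M φ p a e Lm lx : ℝ) (hφ : 0 < φ) (_hp : 0 ≤ p)
    (ha : 1 ≤ a) (hL : 0 < lx) (hLx : lx ≤ Lm) (hpa : p ≤ a) (hM : M ≤ a * φ)
    (he : e ≤ a ^ 2) (he0 : 0 ≤ e) (hg : 64 * (1 + Lm) * a ^ 4 ≤ M) :
    8 / φ * (8 * p * e) ≤ 1 / lx := by
  have hLm : 0 < Lm := by linarith
  have h1 : p * e ≤ a * a ^ 2 := mul_le_mul hpa he he0 (by linarith)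
  have h2 : 8 / φ * (8 * p * e) = 64 * (p * e) / φ := by ring
  rw [h2, div_le_div_iff₀ hφ hL]
  have h3 : 64 * (p * e) * lx ≤ 64 * a ^ 3 * Lm := by
    have e1 : 64 * (p * e) ≤ 64 * a ^ 3 := by nlinarith only [h1]
    exact mul_le_mul e1 hLx hL.le (by positivity)
  have h4 : 64 * a ^ 3 * Lm * a ≤ a * φ := by
    calc 64 * a ^ 3 * Lm * a = 64 * Lm * a ^ 4 := by ring
      _ ≤ 64 * (1 + Lm) * a ^ 4 := by
          apply mul_le_mul_of_nonneg_right _ (by positivity)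
          linarith
      _ ≤ M := hg
      _ ≤ _ := hM
  have h5 : 64 * a ^ 3 * Lm ≤ φ := by
    have ha0 : 0 < a := by linarith
    have : (64 * a ^ 3 * Lm) * a ≤ φ * a := by linarith
    exact le_of_mul_le_mul_right this ha0
  linarith

end Pool.Agent.H78.PD

end

section

/-!
# PD, T3a: one tuple

`x = (p, b)`, `x0 = (p0, b0)` in `PB`, `t ∈ Tt`: `vv (p b) = vv p · vv b` (`lam_mul`, `map_mul`), `|vv p χ| = 1` (`p` prime to `m`): so, with `‖a - c‖² ≤ 2‖a - b‖² + 2‖b - c‖²` and `vv p · vv (p0 t) = vv p0 · vv (p t)`,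
`Nrm(vv(pb) - vv(p0b0)) ≤ 2 Nrm(vv b - vv(p0 t)) + 2 Nrm(vv(p t) - vv b0)`; `b ∈ (M1/(16p), M1/p]`, `p0 t ∈ (M1/p, A M1/p]`, both `≤ m^(399/800)` (`A m^(199/400) ≤ m^(399/800)`), and the same for `b0`, `p t`: `comp`
with `R = 16 A`.
-/

set_option autoImplicit false

namespace Pool.Agent.H78.PD

open Finset
open Pool.Agent.H34PG (lam lam_val lam_mul lam_prime)
open Pool.Agent.H11.LQ Pool.Agent.H78.PG

theorem vv_mul (m : ℕ) (χ : DirichletCharacter ℂ m) (a b : ℕ) (ha : 1 ≤ a) (hb : 1 ≤ b) :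
    vv m χ (a * b) = vv m χ a * vv m χ b := by
  unfold vv
  rw [lam_mul a b ha hb]
  push_cast
  rw [map_mul]
  ring

theorem vv_norm (m : ℕ) (χ : DirichletCharacter ℂ m) (a : ℕ) (ha : a.Coprime m) :
    ‖vv m χ a‖ = 1 := by
  unfold vv
  have h1 : ‖((lam a : ℤ) : ℂ)‖ = 1 := by
    rcases lam_val a with h | h <;> rw [h] <;> norm_num
  have h2 : IsUnit ((a : ℕ) : ZMod m) := (ZMod.isUnit_iff_coprime a m).mpr ha
  have h3 : ‖χ ((a : ℕ) : ZMod m)‖ = 1 := by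
    obtain ⟨u, hu⟩ := h2
    rw [← hu]
    exact DirichletCharacter.unit_norm_eq_one χ u
  rw [norm_mul, h1, h3, mul_one]

/-- the pointwise identity and inequality -/
private theorem t3a_pt (m : ℕ) (χ : DirichletCharacter ℂ m) (p b p0 b0 t : ℕ) (hp : 1 ≤ p)
    (hb : 1 ≤ b) (hp0 : 1 ≤ p0) (hb0 : 1 ≤ b0) (ht : 1 ≤ t) (cp : p.Coprime m)
    (cp0 : p0.Coprime m) :
    ‖vv m χ (p * b) - vv m χ (p0 * b0)‖ ^ 2
      ≤ 2 * ‖vv m χ b - vv m χ (p0 * t)‖ ^ 2 + 2 * ‖vv m χ (p * t) - vv m χ b0‖ ^ 2 := by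
  have e : vv m χ (p * b) - vv m χ (p0 * b0)
      = vv m χ p * (vv m χ b - vv m χ (p0 * t)) + vv m χ p0 * (vv m χ (p * t) - vv m χ b0) := by
    rw [vv_mul m χ p b hp hb, vv_mul m χ p0 b0 hp0 hb0, vv_mul m χ p0 t hp0 ht,
      vv_mul m χ p t hp ht]
    ring
  have h1 : ‖vv m χ (p * b) - vv m χ (p0 * b0)‖
      ≤ ‖vv m χ b - vv m χ (p0 * t)‖ + ‖vv m χ (p * t) - vv m χ b0‖ := by
    rw [e]
    refine (norm_add_le _ _).trans ?_
    rw [norm_mul, norm_mul, vv_norm m χ p cp, vv_norm m χ p0 cp0, one_mul, one_mul]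
  have h2 := norm_nonneg (vv m χ (p * b) - vv m χ (p0 * b0))
  nlinarith [sq_nonneg (‖vv m χ b - vv m χ (p0 * t)‖ - ‖vv m χ (p * t) - vv m χ b0‖),
    mul_self_le_mul_self h2 h1]

/-- the comparison of `b` and `p0 t` -/
private theorem t3a_cmp (m : ℕ) (A : ℝ) (hA : 2 ≤ A) (hm : 1 ≤ m)
    (hAm : A ≤ (m : ℝ) ^ (1 / 800 : ℝ)) (p b p0 t : ℕ) (hp : 1 ≤ p) (hp0 : 1 ≤ p0)
    (hpm : (m : ℝ) ^ (1 / 200 : ℝ) < p) (h1 : p * b ≤ M1 m) (h2 : M1 m < 16 * (p * b))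
    (ht1 : (M1 m : ℝ) / (p * p0) < t) (ht2 : (t : ℝ) ≤ A * ((M1 m : ℝ) / (p * p0))) :
    (b : ℝ) ≤ 16 * A * ((p0 * t : ℕ) : ℝ) ∧ ((p0 * t : ℕ) : ℝ) ≤ 16 * A * b ∧
      ((p0 * t : ℕ) : ℝ) ≤ (m : ℝ) ^ (399 / 800 : ℝ) := by
  have hpR : (0 : ℝ) < p := by exact_mod_cast hp
  have hp0R : (0 : ℝ) < p0 := by exact_mod_cast hp0
  have hmR : (0 : ℝ) < m := by exact_mod_cast hm
  have h1R : (p : ℝ) * b ≤ M1 m := by exact_mod_cast h1
  have h2R : (M1 m : ℝ) ≤ 16 * ((p : ℝ) * b) := by exact_mod_cast h2.le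
  have e1 : (M1 m : ℝ) / (p * p0) * p0 = M1 m / p := by
    field_simp
  have k1 : (M1 m : ℝ) / p < p0 * t := by
    rw [← e1]
    nlinarith
  have k2 : (p0 : ℝ) * t ≤ A * (M1 m / p) := by
    rw [← e1]
    nlinarith
  have k3 : (b : ℝ) ≤ M1 m / p := by
    rw [le_div_iff₀ hpR]
    linarith
  have k4 : (M1 m : ℝ) / p ≤ 16 * b := by
    rw [div_le_iff₀ hpR]
    linarith
  have hM : (M1 m : ℝ) ≤ (m : ℝ) ^ (201 / 400 : ℝ) := by
    unfold M1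
    exact Nat.floor_le (by positivity)
  have k5 : (M1 m : ℝ) / p ≤ (m : ℝ) ^ (199 / 400 : ℝ) := by
    rw [div_le_iff₀ hpR]
    have e2 : (m : ℝ) ^ (201 / 400 : ℝ) = (m : ℝ) ^ (199 / 400 : ℝ) * (m : ℝ) ^ (1 / 200 : ℝ) := by
      rw [← Real.rpow_add hmR]
      norm_num
    rw [e2] at hM
    refine hM.trans ?_
    exact mul_le_mul_of_nonneg_left hpm.le (by positivity)
  have hb0 : (0 : ℝ) ≤ b := by positivity
  refine ⟨?_, ?_, ?_⟩
  · push_cast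
    have : (b : ℝ) ≤ p0 * t := (k3.trans k1.le)
    nlinarith
  · push_cast
    have : A * ((M1 m : ℝ) / p) ≤ A * (16 * b) := mul_le_mul_of_nonneg_left k4 (by linarith)
    linarith
  · push_cast
    have e3 : (m : ℝ) ^ (399 / 800 : ℝ) = (m : ℝ) ^ (1 / 800 : ℝ) * (m : ℝ) ^ (199 / 400 : ℝ) := by
      rw [← Real.rpow_add hmR]
      norm_num
    rw [e3]
    refine k2.trans ?_
    have h0 : (0 : ℝ) ≤ (M1 m : ℝ) / p := by positivity
    exact mul_le_mul hAm k5 h0 (by positivity)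

theorem t3_tuple (κ A : ℝ) (hκ : 0 < κ) (hκ1 : κ ≤ 1 / 1000) (hA : 2 ≤ A) : ∃ m0 : ℕ,
    ∀ (m : ℕ) [NeZero m], m0 ≤ m → ∀ η : ℤ, (η = 1 ∨ η = -1) →
    ∀ U : Finset (DirichletCharacter ℂ m), (U.card : ℝ) ≤ (m : ℝ) ^ (1 / 2000 : ℝ) →
    ∀ x ∈ PB κ m, ∀ x0 ∈ PB κ m, ∀ t ∈ Tt m A x.1 x0.1,
      Nrm m η U (fun χ => vv m χ (x.1 * x.2) - vv m χ (x0.1 * x0.2))
        ≤ 128 * A * (dn m η U x.2 + dn m η U (x0.1 * t) + dn m η U (x.1 * t) + dn m η U x0.2) := by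
  obtain ⟨m0, hm0⟩ := comp
  obtain ⟨m1, hm1⟩ := grow A 0 (1 / 800) (by norm_num)
  refine ⟨max m0 (max m1 1), ?_⟩
  intro m _ hm η hη U hU x hx x0 hx0 t ht
  simp only [max_le_iff] at hm
  obtain ⟨h0, h1, h2⟩ := hm
  have hAm : A ≤ (m : ℝ) ^ (1 / 800 : ℝ) := by
    have := hm1 m h1
    rw [pow_zero, mul_one] at this
    exact this
  obtain ⟨p, b⟩ := x
  obtain ⟨p0, b0⟩ := x0
  unfold PB at hx hx0
  rw [mem_filter, mem_product] at hx hx0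
  obtain ⟨⟨hp, hb⟩, hu, hl⟩ := hx
  obtain ⟨⟨hp0, hb0⟩, hu0, hl0⟩ := hx0
  dsimp only at hp hb hu hl hp0 hb0 hu0 hl0 ht ⊢
  unfold AP at hp hp0
  rw [mem_PI (by positivity)] at hp hp0
  rw [mem_BR] at hb hb0
  obtain ⟨pp, pm, pl, pu⟩ := hp
  obtain ⟨pp0, pm0, pl0, pu0⟩ := hp0
  obtain ⟨b1, b2, b3, b4⟩ := hb
  obtain ⟨c1, c2, c3, c4⟩ := hb0
  unfold Tt at ht
  rw [mem_PI (by positivity)] at ht
  obtain ⟨tp, tm, t1, t2⟩ := ht
  have cp : p.Coprime m := (Nat.Prime.coprime_iff_not_dvd pp).mpr pm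
  have cp0 : p0.Coprime m := (Nat.Prime.coprime_iff_not_dvd pp0).mpr pm0
  have ct : t.Coprime m := (Nat.Prime.coprime_iff_not_dvd tp).mpr tm
  have q1 : 1 ≤ p := pp.one_lt.le
  have q2 : 1 ≤ p0 := pp0.one_lt.le
  have q3 : 1 ≤ t := tp.one_lt.le
  obtain ⟨u1, u2, u3⟩ := t3a_cmp m A hA h2 hAm p b p0 t q1 q2 pl hu hl t1 t2
  have sw : (p : ℝ) * p0 = p0 * p := mul_comm _ _
  rw [sw] at t1 t2
  obtain ⟨w1, w2, w3⟩ := t3a_cmp m A hA h2 hAm p0 b0 p t q2 q1 pl0 hu0 hl0 t1 t2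
  have R1 : (1 : ℝ) ≤ 16 * A := by linarith
  have F1 := hm0 m h0 η hη U hU (16 * A) R1 b (p0 * t) b1 (Nat.mul_pos q2 q3) b3
    (Nat.Coprime.mul_left cp0 ct) b2 u3 u1 u2
  have F2 := hm0 m h0 η hη U hU (16 * A) R1 (p * t) b0 (Nat.mul_pos q1 q3) c1
    (Nat.Coprime.mul_left cp ct) c3 w3 c2 w2 w1
  have F3 : Nrm m η U (fun χ => vv m χ (p * b) - vv m χ (p0 * b0))
      ≤ 2 * Nrm m η U (fun χ => vv m χ b - vv m χ (p0 * t))
        + 2 * Nrm m η U (fun χ => vv m χ (p * t) - vv m χ b0) := by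
    unfold Nrm
    rw [mul_sum, mul_sum, ← sum_add_distrib]
    refine sum_le_sum fun χ _ => ?_
    have h3 := mul_le_mul_of_nonneg_left (t3a_pt m χ p b p0 b0 t q1 b1 q2 c1 q3 cp cp0)
      (ww_nonneg m η χ)
    refine h3.trans (le_of_eq ?_)
    ring
  linarith

end Pool.Agent.H78.PD

end

section

/-!
# LQ / PG, TT5a: the bracket in the lower bound of TT5

`θ = δ/1000`: `#cop m M ≥ M φ(m)/m - 2^ω(m) ≥ M m^(-θ/2) - m^(θ/2)` (`cop_card_ge`, `tot_le`, `two_pow_le`), `M = m/(2p) ≥ m/(4p)` as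
`2p ≤ m`, `p ≤ yy m ≤ m^(49/100)` so `m/p ≥ m^(51/100)`; `#XX * KK m ≤ m^(δ/40) m^(1/2 + δ/1000)` (`X_card`, `KK_le`), and
`δ/40 + δ/1000 + δ/1000 < 1/100`.  So the bracket is `≥ m^(1-θ/2)/(4p) - m^(θ/2) - m^(1/2 + ...) ≥ m^(1-θ)/(16 p)` for large `m`.
-/

set_option autoImplicit false

namespace Pool.Agent.H78.PG

open Finset
open Pool.Agent.H34PG (lam lam_val lam_mul lam_prime)
open Pool.Agent.H11.LQ

/-- the bracket of the lower bound -/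
theorem bracket (δ : ℝ) (h0 : 0 < δ) (h1 : δ ≤ 1 / 100) : ∃ m0 : ℕ, ∀ (m : ℕ) [NeZero m],
    m0 ≤ m → ∀ p ∈ PY m, (m : ℝ) ^ (1 - δ / 1000) / (16 * p)
      ≤ ((cop m (m / (2 * p))).card : ℝ) - (XX δ m).card * KK m := by
  obtain ⟨m1, H1⟩ := X_card δ h0 h1
  obtain ⟨m2, H2⟩ := tot_le (δ / 2000) (by positivity)
  obtain ⟨m3, H3⟩ := two_pow_le (δ / 2000) (by positivity)
  obtain ⟨m4, H4⟩ := KK_le (δ / 1000) (by positivity)
  obtain ⟨m5, H5⟩ := grow 16 0 (1 / 200) (by norm_num)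
  refine ⟨m1 + m2 + m3 + m4 + m5 + 1, fun m _ hm p hp => ?_⟩
  have hm1 : 1 ≤ m := by omega
  have hX1 : (1 : ℝ) ≤ m := by exact_mod_cast hm1
  have hX0 : (0 : ℝ) < m := by linarith
  obtain ⟨hpy, hpp, hpm⟩ := mem_PY.mp hp
  have hp2 : (2 : ℝ) ≤ p := by exact_mod_cast hpp.two_le
  have hp0 : (0 : ℝ) < p := by linarith
  have e1 := H1 m (by omega)
  have e2 := H2 m (by omega)
  have e3 := H3 m (by omega)
  have e4 := H4 m (by omega)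
  have e5 := H5 m (by omega)
  rw [pow_zero, mul_one] at e5
  -- p ≤ m^(49/100)
  have e6 : (p : ℝ) ≤ (m : ℝ) ^ (49 / 100 : ℝ) := by
    have h2 : (p : ℝ) ≤ (yy m : ℝ) := by exact_mod_cast hpy
    exact h2.trans (Nat.floor_le (by positivity))
  -- m / p ≥ m^(51/100)
  have e7 : (m : ℝ) ^ (51 / 100 : ℝ) ≤ m / p := by
    rw [le_div_iff₀ hp0]
    calc (m : ℝ) ^ (51 / 100 : ℝ) * p ≤ (m : ℝ) ^ (51 / 100 : ℝ) * (m : ℝ) ^ (49 / 100 : ℝ) := by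
          gcongr
      _ = m := by
          rw [← Real.rpow_add hX0]
          norm_num
  have e8 : (16 : ℝ) ≤ (m : ℝ) ^ (51 / 100 : ℝ) :=
    e5.trans (Real.rpow_le_rpow_of_exponent_le hX1 (by norm_num))
  have e9 : (m : ℝ) / (4 * p) ≤ ((m / (2 * p) : ℕ) : ℝ) := by
    have h2 : (m : ℝ) / ((2 * p : ℕ) : ℝ) - 1 ≤ ((m / (2 * p) : ℕ) : ℝ) := by
      have h3 := Nat.lt_floor_add_one ((m : ℝ) / ((2 * p : ℕ) : ℝ))
      rw [Nat.floor_div_eq_div] at h3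
      linarith
    refine le_trans ?_ h2
    push_cast
    have h3 : (m : ℝ) / (2 * p) = (m / p) / 2 := by
      field_simp
    have h4 : (m : ℝ) / (4 * p) = (m / p) / 4 := by
      field_simp
    rw [h3, h4]
    linarith
  have e10 := cop_card_ge m (m / (2 * p)) hm1
  -- totient
  have e11 : (m : ℝ) ^ (-(δ / 2000)) ≤ (m.totient : ℝ) / m := by
    rw [Real.rpow_neg hX0.le, le_div_iff₀ hX0, inv_mul_le_iff₀ (by positivity)]
    exact e2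
  have e12 : (m : ℝ) ^ (1 - δ / 2000) / (4 * p) ≤ ((m / (2 * p) : ℕ) : ℝ) * m.totient / m := by
    calc (m : ℝ) ^ (1 - δ / 2000) / (4 * p) = (m : ℝ) / (4 * p) * (m : ℝ) ^ (-(δ / 2000)) := by
          rw [sub_eq_add_neg, Real.rpow_add hX0, Real.rpow_one]
          ring
      _ ≤ ((m / (2 * p) : ℕ) : ℝ) * ((m.totient : ℝ) / m) := by
          gcongr
      _ = ((m / (2 * p) : ℕ) : ℝ) * m.totient / m := by ring
  have hKK : 0 ≤ KK m := by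
    unfold KK
    have : 0 ≤ Real.log m := Real.log_nonneg hX1
    positivity
  have e13 : ((XX δ m).card : ℝ) * KK m ≤ (m : ℝ) ^ (δ / 40 + (1 / 2 + δ / 1000)) := by
    rw [Real.rpow_add hX0]
    gcongr
  have e14 : (m : ℝ) ^ (δ / 2000) ≤ (m : ℝ) ^ (δ / 40 + (1 / 2 + δ / 1000)) :=
    Real.rpow_le_rpow_of_exponent_le hX1 (by linarith)
  have e15 : (m : ℝ) ^ (1 - δ / 1000) / (16 * p) ≤ (m : ℝ) ^ (1 - δ / 2000) / (16 * p) := by
    have h2 : (m : ℝ) ^ (1 - δ / 1000) ≤ (m : ℝ) ^ (1 - δ / 2000) :=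
      Real.rpow_le_rpow_of_exponent_le hX1 (by linarith)
    gcongr
  have e16 : (m : ℝ) ^ (δ / 40 + (1 / 2 + δ / 1000)) ≤ (m : ℝ) ^ (1 - δ / 2000) / (16 * p) := by
    have h2 : (m : ℝ) ^ (1 - δ / 2000) / (16 * p) = (m / p) * (m : ℝ) ^ (-(δ / 2000)) / 16 := by
      rw [sub_eq_add_neg, Real.rpow_add hX0, Real.rpow_one]
      field_simp
    rw [h2, le_div_iff₀ (by norm_num)]
    calc (m : ℝ) ^ (δ / 40 + (1 / 2 + δ / 1000)) * 16
        ≤ (m : ℝ) ^ (δ / 40 + (1 / 2 + δ / 1000)) * (m : ℝ) ^ (1 / 200 : ℝ) := by gcongr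
      _ = (m : ℝ) ^ (δ / 40 + (1 / 2 + δ / 1000) + 1 / 200) := (Real.rpow_add hX0 _ _).symm
      _ ≤ (m : ℝ) ^ (51 / 100 + -(δ / 2000)) :=
          Real.rpow_le_rpow_of_exponent_le hX1 (by linarith)
      _ = (m : ℝ) ^ (51 / 100 : ℝ) * (m : ℝ) ^ (-(δ / 2000)) := Real.rpow_add hX0 _ _
      _ ≤ (m / p) * (m : ℝ) ^ (-(δ / 2000)) := by gcongr
  have e17 : (m : ℝ) ^ (1 - δ / 2000) / (4 * p) = 4 * ((m : ℝ) ^ (1 - δ / 2000) / (16 * p)) := by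
    field_simp
    ring
  have e18 : 0 ≤ (m : ℝ) ^ (1 - δ / 2000) / (16 * p) := by positivity
  linarith

end Pool.Agent.H78.PG

end
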