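import Pool.Agent.H94.PG.M11
import Pool.Agent.H94.PG.M13

/-! The parts of this file: H78.PD.T3, H78.PD.T3b, H78.PD.T6. -/

section

/-!
# PD, T3: the vectors of the rough numbers are nearly constant

`A`, `c` from `pri_low`; `D = ∑_{BR} dn n/n ≤ τ wout` (`delta`); `∑_{t ∈ Tt} 1/t ≥ c/log m` (`M1/(p p0) ≥ m^(1/25)/2 ≥ m^(1/200)`).
`(c/L) ∑_{x, x0} Nrm/(p b p0 b0) ≤ ∑_{x, x0, t} Nrm/(p b p0 b0 t) ≤ 128 A ∑ (dn b + dn(p0 t) + dn(p t) + dn b0)/(p b p0 b0 t) ≤ 128 A · 4 · (C/L³) D` (`t3_tuple`, `t3_sum_b`, `t3_sum_t`, and for the last two terms the symmetry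
`x ↔ x0`: `Tt m A p p0 = Tt m A p0 p`, swap the sums).  `∑_{x0} 1/(p0 b0) ≥ ∑_{n ∈ RR} 1/n ≥ c1/L` (every `n ∈ RR` is `p b`, `(p, b) ∈ PB`: `b = n/p ≤ m^(199/400)`); so there is `x0` with
`∑_x Nrm(vv(pb) - vv(p0b0))/(p b) ≤ C' D/L`, and `∑_{n ∈ RR} (1/n) Nrm(vv n - vv n0) ≤` this sum; `n ≤ M1`.
-/

set_option autoImplicit false

namespace Pool.Agent.H78.PD

open Finset
open Pool.Agent.H34PG (lam lam_val lam_mul lam_prime)
open Pool.Agent.H11.LQ Pool.Agent.H78.PG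

theorem T3_mem_PB {κ : ℝ} {m : ℕ} {x : ℕ × ℕ} :
    x ∈ PB κ m ↔ (x.1 ∈ AP m ∧ x.2 ∈ BR κ m) ∧ x.1 * x.2 ≤ M1 m ∧ M1 m < 16 * (x.1 * x.2) := by
  unfold PB
  rw [mem_filter, mem_product]

theorem T3_dn_nonneg (m : ℕ) [NeZero m] (η : ℤ) (U : Finset (DirichletCharacter ℂ m))
    (n : ℕ) : 0 ≤ dn m η U n := by
  unfold dn
  positivity

theorem T3_Nrm_nonneg (m : ℕ) [NeZero m] (η : ℤ) (U : Finset (DirichletCharacter ℂ m))
    (d : DirichletCharacter ℂ m → ℂ) : 0 ≤ Nrm m η U d := by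
  unfold Nrm
  exact sum_nonneg fun χ _ => mul_nonneg (ww_nonneg m η χ) (by positivity)

theorem T3_Tt_symm (m : ℕ) (A : ℝ) (p q : ℕ) : Tt m A p q = Tt m A q p := by
  unfold Tt
  rw [mul_comm (p : ℝ) (q : ℝ)]

theorem T3_AP {m p : ℕ} (hp : p ∈ AP m) :
    p.Prime ∧ ¬ p ∣ m ∧ (m : ℝ) ^ (1 / 200 : ℝ) < (p : ℝ) ∧ (p : ℝ) ≤ (m : ℝ) ^ (23 / 100 : ℝ) := by
  unfold AP at hp
  rwa [mem_PI (by positivity)] at hp

theorem T3_M1_ge (m : ℕ) (hm : 1 ≤ m) : (m : ℝ) ^ (201 / 400 : ℝ) / 2 ≤ (M1 m : ℝ) := by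
  have hm' : (1 : ℝ) ≤ m := by exact_mod_cast hm
  have h1 : (1 : ℝ) ≤ (m : ℝ) ^ (201 / 400 : ℝ) := Real.one_le_rpow hm' (by norm_num)
  unfold M1
  have h2 : (m : ℝ) ^ (201 / 400 : ℝ) < (⌊(m : ℝ) ^ (201 / 400 : ℝ)⌋₊ : ℝ) + 1 :=
    Nat.lt_floor_add_one _
  have h3 : 1 ≤ ⌊(m : ℝ) ^ (201 / 400 : ℝ)⌋₊ := by
    rw [Nat.le_floor_iff (by positivity)]
    exact_mod_cast h1
  have h4 : (1 : ℝ) ≤ (⌊(m : ℝ) ^ (201 / 400 : ℝ)⌋₊ : ℝ) := by exact_mod_cast h3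
  linarith

private theorem T3_M1_le (m : ℕ) : (M1 m : ℝ) ≤ (m : ℝ) ^ (201 / 400 : ℝ) := by
  unfold M1
  exact Nat.floor_le (by positivity)

/-- the range of the auxiliary primes -/
theorem T3_X (m : ℕ) (hm : 2 ^ 27 ≤ m) {p q : ℕ} (hp : p ∈ AP m) (hq : q ∈ AP m) :
    (m : ℝ) ^ (1 / 200 : ℝ) ≤ (M1 m : ℝ) / (p * q) ∧ (M1 m : ℝ) / (p * q) ≤ m := by
  have hm1 : 1 ≤ m := le_trans (by norm_num) hm
  have hm' : (1 : ℝ) ≤ m := by exact_mod_cast hm1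
  have hm0 : (0 : ℝ) < m := by linarith
  obtain ⟨p1, p2, p3, p4⟩ := T3_AP hp
  obtain ⟨q1, q2, q3, q4⟩ := T3_AP hq
  have hp0 : (1 : ℝ) ≤ (p : ℝ) := by exact_mod_cast p1.one_lt.le
  have hq0 : (1 : ℝ) ≤ (q : ℝ) := by exact_mod_cast q1.one_lt.le
  have hpq : (0 : ℝ) < (p : ℝ) * q := by positivity
  have hM := T3_M1_ge m hm1
  have hM2 := T3_M1_le m
  constructor
  · rw [le_div_iff₀ hpq]
    have h1 : (p : ℝ) * q ≤ (m : ℝ) ^ (46 / 100 : ℝ) := by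
      calc (p : ℝ) * q ≤ (m : ℝ) ^ (23 / 100 : ℝ) * (m : ℝ) ^ (23 / 100 : ℝ) :=
            mul_le_mul p4 q4 (by positivity) (by positivity)
        _ = (m : ℝ) ^ (46 / 100 : ℝ) := by rw [← Real.rpow_add hm0]; norm_num
    have h2 : (2 : ℝ) ≤ (m : ℝ) ^ (15 / 400 : ℝ) := by
      have h3 : ((2 : ℝ) ^ (27 : ℕ)) ≤ (m : ℝ) := by exact_mod_cast hm
      have h4 : ((2 : ℝ) ^ (27 : ℕ)) ^ (15 / 400 : ℝ) ≤ (m : ℝ) ^ (15 / 400 : ℝ) :=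
        Real.rpow_le_rpow (by positivity) h3 (by norm_num)
      refine le_trans ?_ h4
      rw [← Real.rpow_natCast (2 : ℝ) 27, ← Real.rpow_mul (by norm_num)]
      calc (2 : ℝ) = (2 : ℝ) ^ (1 : ℝ) := (Real.rpow_one 2).symm
        _ ≤ (2 : ℝ) ^ (((27 : ℕ) : ℝ) * (15 / 400)) :=
            Real.rpow_le_rpow_of_exponent_le (by norm_num) (by norm_num)
    calc (m : ℝ) ^ (1 / 200 : ℝ) * ((p : ℝ) * q)
        ≤ (m : ℝ) ^ (1 / 200 : ℝ) * (m : ℝ) ^ (46 / 100 : ℝ) :=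
          mul_le_mul_of_nonneg_left h1 (by positivity)
      _ = (m : ℝ) ^ (1 / 200 : ℝ) * (m : ℝ) ^ (46 / 100 : ℝ) * 2 / 2 := by ring
      _ ≤ (m : ℝ) ^ (1 / 200 : ℝ) * (m : ℝ) ^ (46 / 100 : ℝ) * (m : ℝ) ^ (15 / 400 : ℝ) / 2 := by
          gcongr
      _ = (m : ℝ) ^ (201 / 400 : ℝ) / 2 := by
          rw [← Real.rpow_add hm0, ← Real.rpow_add hm0]
          norm_num
      _ ≤ (M1 m : ℝ) := hM
  · rw [div_le_iff₀ hpq]
    calc (M1 m : ℝ) ≤ (m : ℝ) ^ (201 / 400 : ℝ) := hM2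
      _ ≤ (m : ℝ) ^ (1 : ℝ) := Real.rpow_le_rpow_of_exponent_le hm' (by norm_num)
      _ = (m : ℝ) * 1 := by rw [Real.rpow_one, mul_one]
      _ ≤ (m : ℝ) * ((p : ℝ) * q) := by
          apply mul_le_mul_of_nonneg_left _ hm0.le
          nlinarith

/-- the factorisation of the elements of `RR` -/
private theorem T3_RR (κ : ℝ) (m : ℕ) (hm : 1 ≤ m) {n : ℕ} (hn : n ∈ RR κ m) :
    ∃ x ∈ PB κ m, x.1 * x.2 = n := by
  rw [mem_RR] at hn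
  obtain ⟨h1, h2, h3, h4, h5, p, hp, hpn⟩ := hn
  have hm' : (1 : ℝ) ≤ m := by exact_mod_cast hm
  have hm0 : (0 : ℝ) < m := by linarith
  obtain ⟨p1, p2, p3, p4⟩ := T3_AP hp
  obtain ⟨b, rfl⟩ := hpn
  have hb1 : 1 ≤ b := by
    rcases Nat.eq_zero_or_pos b with h | h
    · subst h
      simp at h1
    · exact h
  refine ⟨(p, b), ?_, rfl⟩
  rw [T3_mem_PB]
  refine ⟨⟨hp, ?_⟩, h2, h3⟩
  rw [mem_BR]
  refine ⟨hb1, ?_, Nat.Coprime.coprime_mul_left h4, fun q hq hqb => h5 q hq (hqb.mul_left p)⟩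
  have h6 : ((p : ℝ) * b) ≤ (m : ℝ) ^ (201 / 400 : ℝ) := by
    refine le_trans ?_ (T3_M1_le m)
    exact_mod_cast h2
  have h7 : (m : ℝ) ^ (1 / 200 : ℝ) * b ≤ (m : ℝ) ^ (1 / 200 : ℝ) * (m : ℝ) ^ (399 / 800 : ℝ) := by
    calc (m : ℝ) ^ (1 / 200 : ℝ) * b ≤ (p : ℝ) * b :=
          mul_le_mul_of_nonneg_right p3.le (by positivity)
      _ ≤ (m : ℝ) ^ (201 / 400 : ℝ) := h6
      _ ≤ (m : ℝ) ^ (1 / 200 + 399 / 800 : ℝ) :=
          Real.rpow_le_rpow_of_exponent_le hm' (by norm_num)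
      _ = (m : ℝ) ^ (1 / 200 : ℝ) * (m : ℝ) ^ (399 / 800 : ℝ) := Real.rpow_add hm0 _ _
  exact le_of_mul_le_mul_left h7 (by positivity)

/-- sums over `RR` are at most sums over `PB` -/
theorem T3_sum_le (κ : ℝ) (m : ℕ) (hm : 1 ≤ m) (f : ℕ → ℝ) (hf : ∀ n, 0 ≤ f n) :
    ∑ n ∈ RR κ m, f n ≤ ∑ x ∈ PB κ m, f (x.1 * x.2) := by
  classical
  choose! g hg hg2 using fun (n : ℕ) (hn : n ∈ RR κ m) => T3_RR κ m hm hn
  have h1 : ∑ n ∈ RR κ m, f n = ∑ x ∈ (RR κ m).image g, f (x.1 * x.2) := by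
    rw [sum_image]
    · exact sum_congr rfl fun n hn => by rw [hg2 n hn]
    · intro a ha b hb hab
      rw [← hg2 a ha, ← hg2 b hb, hab]
  rw [h1]
  refine sum_le_sum_of_subset_of_nonneg ?_ fun x _ _ => hf _
  intro x hx
  rw [mem_image] at hx
  obtain ⟨n, hn, rfl⟩ := hx
  exact hg n hn

/-- weighted pigeonhole -/
theorem T3_pigeon {ι : Type*} (s : Finset ι) (w S : ι → ℝ) (hw : ∀ i ∈ s, 0 < w i)
    {a B : ℝ} (ha : 0 < a) (hwa : a ≤ ∑ i ∈ s, w i) (hB : 0 ≤ B)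
    (h : ∑ i ∈ s, w i * S i ≤ B) : ∃ i ∈ s, S i ≤ B / a := by
  by_contra hcon
  push Not at hcon
  have hne : s.Nonempty := by
    rw [nonempty_iff_ne_empty]
    rintro rfl
    rw [sum_empty] at hwa
    linarith
  have h1 : ∑ i ∈ s, w i * (B / a) < ∑ i ∈ s, w i * S i :=
    sum_lt_sum_of_nonempty hne fun i hi => mul_lt_mul_of_pos_left (hcon i hi) (hw i hi)
  rw [← sum_mul] at h1
  have h2 : a * (B / a) ≤ (∑ i ∈ s, w i) * (B / a) :=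
    mul_le_mul_of_nonneg_right hwa (by positivity)
  rw [mul_div_cancel₀ _ ha.ne'] at h2
  linarith

end Pool.Agent.H78.PD

end

section

/-!
# PD, T3b: the two sums

`RC κ C m` : the upper bound for the number of rough numbers.
* `rough_block`: `∑ {1/b : b rough, X/16 < b ≤ X} ≤ (16/X) #{..} ≤ 16 C/log m` for `m^(1/4) ≤ X ≤ m` (`X` real; `⌊X⌋`).
* `t3_sum_b`: `∑_{x, x0, t} d(b)/(p b p0 b0 t) = ∑_b d(b)/b ∑_p 1/p ∑_{p0} 1/p0 ∑_{b0} 1/b0 ∑_t 1/t`: given `b`, `p ∈ (M1/(16b), M1/b]`: `∑_p 1/p ≤ C/log m` (`pri_up` with `X = M1/(16 b) ≥ m^(1/400)`, `R = 16`);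
  `∑_{p0 ∈ AP} 1/p0 ≤ 4`; given `p0`, `b0 ∈ (M1/(16p0), M1/p0]`, rough: `≤ 16 C/log m` (`M1/p0 ≥ m^(1/4)`); given `p, p0`: `∑_t 1/t ≤ C/log m` (`pri_up` with `X = M1/(p p0) ≥ m^(1/400)`, `R = A`).
* `t3_sum_t`: `∑_{x, x0, t} d(p0 t)/(p b p0 b0 t)`: given `p0, t`: `p ∈ (M1/(p0 t), A M1/(p0 t)]`: `≤ C/log m` (`p0 t ≤ A M1/p ≤ A m^(199/400) ≤ m^(399/800)`), then `∑_b 1/b ≤ 16 C/log m`, `∑_{b0} 1/b0 ≤ 16 C/log m`; `(p0, t) ↦ n = p0 t ∈ BR`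
  takes each value at most twice.  Same for `t3_sum_b0`, `t3_sum_pt` by the symmetry `x ↔ x0`.
-/

set_option autoImplicit false

namespace Pool.Agent.H78.PD

open Finset
open Pool.Agent.H34PG (lam lam_val lam_mul lam_prime)
open Pool.Agent.H11.LQ Pool.Agent.H78.PG

open Classical in
/-- the upper bound for the number of rough numbers -/
def RC (κ C : ℝ) (m : ℕ) : Prop :=
  ∀ X : ℕ, (m : ℝ) ^ (1 / 4 : ℝ) ≤ X → X ≤ m →
    (((Icc 1 X).filter (fun n => rou (zN κ m) n)).card : ℝ) ≤ C * X / Real.log m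

/-- powers of `m` are large -/
theorem t3b_pow (c K : ℝ) (hc : 0 < c) : ∃ m0 : ℕ, ∀ m : ℕ, m0 ≤ m → K ≤ (m : ℝ) ^ c := by
  have h1 : Filter.Tendsto (fun m : ℕ => (m : ℝ) ^ c) Filter.atTop Filter.atTop :=
    (tendsto_rpow_atTop hc).comp tendsto_natCast_atTop_atTop
  obtain ⟨m0, h⟩ := (h1.eventually_ge_atTop K).exists_forall_of_atTop
  exact ⟨m0, h⟩

private theorem t3b_M : ∃ m0 : ℕ, ∀ m : ℕ, m0 ≤ m → (m : ℝ) ^ (201 / 400 : ℝ) / 2 ≤ (M1 m : ℝ) := by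
  obtain ⟨m0, h⟩ := t3b_pow (201 / 400) 2 (by norm_num)
  refine ⟨m0, fun m hm => ?_⟩
  have h1 := h m hm
  have h2 := Nat.lt_floor_add_one ((m : ℝ) ^ (201 / 400 : ℝ))
  unfold M1
  linarith only [h1, h2]

private theorem t3b_M_le (m : ℕ) : (M1 m : ℝ) ≤ (m : ℝ) ^ (201 / 400 : ℝ) := Nat.floor_le (by positivity)

theorem t3b_mem_AP {m p : ℕ} :
    p ∈ AP m ↔ p.Prime ∧ ¬ p ∣ m ∧ (m : ℝ) ^ (1 / 200 : ℝ) < (p : ℝ) ∧ (p : ℝ) ≤ (m : ℝ) ^ (23 / 100 : ℝ) := by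
  unfold AP
  exact mem_PI (by positivity)

/-- the block of rough numbers -/
theorem t3b_b (κ C1 : ℝ) (hC1 : 0 < C1) : ∃ m0 : ℕ, ∀ m : ℕ, m0 ≤ m → RC κ C1 m → ∀ p ∈ AP m,
    ∑ b ∈ (BR κ m).filter (fun b => p * b ≤ M1 m ∧ M1 m < 16 * (p * b)), 1 / (b : ℝ) ≤ 16 * C1 / Real.log m := by
  obtain ⟨m1, h1⟩ := t3b_M
  obtain ⟨m2, h2⟩ := t3b_pow (9 / 400) 4 (by norm_num)
  refine ⟨max (max m1 m2) 3, fun m hm hRC p hp => ?_⟩
  have hm1 : m1 ≤ m := le_trans (le_trans (le_max_left _ _) (le_max_left _ _)) hm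
  have hm2 : m2 ≤ m := le_trans (le_trans (le_max_right _ _) (le_max_left _ _)) hm
  have hm3 : 3 ≤ m := le_trans (le_max_right _ _) hm
  have hmR : (3 : ℝ) ≤ m := by exact_mod_cast hm3
  have hm0 : (0 : ℝ) < m := by linarith only [hmR]
  have hL : 0 < Real.log m := Real.log_pos (by linarith only [hmR])
  obtain ⟨hp1, hp2, hp3, hp4⟩ := t3b_mem_AP.mp hp
  have hpp : (0 : ℝ) < p := by exact_mod_cast hp1.pos
  have hM := h1 m hm1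
  have hMle := t3b_M_le m
  have ha1 : (1 : ℝ) ≤ (m : ℝ) ^ (1 / 4 : ℝ) := Real.one_le_rpow (by linarith only [hmR]) (by norm_num)
  have hq0 : (0 : ℝ) < (m : ℝ) ^ (23 / 100 : ℝ) := by positivity
  have hpow : (m : ℝ) ^ (201 / 400 : ℝ) = (m : ℝ) ^ (23 / 100 : ℝ) * (m : ℝ) ^ (1 / 4 : ℝ) * (m : ℝ) ^ (9 / 400 : ℝ) := by
    rw [← Real.rpow_add hm0, ← Real.rpow_add hm0]
    norm_num
  have hM2 : 2 * ((m : ℝ) ^ (23 / 100 : ℝ) * (m : ℝ) ^ (1 / 4 : ℝ)) ≤ (M1 m : ℝ) := by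
    refine le_trans ?_ hM
    rw [hpow]
    have := mul_le_mul_of_nonneg_left (h2 m hm2) (show (0 : ℝ) ≤ (m : ℝ) ^ (23 / 100 : ℝ) * (m : ℝ) ^ (1 / 4 : ℝ) by positivity)
    linarith only [this]
  have hM0 : (0 : ℝ) < M1 m := lt_of_lt_of_le (by positivity) hM2
  have hX0 : M1 m < p * (M1 m / p + 1) := Nat.lt_mul_div_succ _ hp1.pos
  have hX0' : (M1 m : ℝ) < p * (((M1 m / p : ℕ) : ℝ) + 1) := by exact_mod_cast hX0
  have hX1 : (m : ℝ) ^ (1 / 4 : ℝ) ≤ ((M1 m / p : ℕ) : ℝ) := by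
    by_contra hcon
    push Not at hcon
    have e1 : (p : ℝ) * (((M1 m / p : ℕ) : ℝ) + 1) ≤ (m : ℝ) ^ (23 / 100 : ℝ) * (2 * (m : ℝ) ^ (1 / 4 : ℝ)) :=
      mul_le_mul hp4 (by linarith only [ha1, hcon]) (by positivity) hq0.le
    linarith only [hM2, hX0', e1]
  have hX2 : M1 m / p ≤ m := by
    have e1 : (M1 m : ℝ) ≤ m := by
      refine hMle.trans ?_
      have := Real.rpow_le_rpow_of_exponent_le (show (1 : ℝ) ≤ m by linarith only [hmR]) (show (201 / 400 : ℝ) ≤ 1 by norm_num)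
      rwa [Real.rpow_one] at this
    exact (Nat.div_le_self _ _).trans (by exact_mod_cast e1)
  have hX3 : ((M1 m / p : ℕ) : ℝ) * p ≤ M1 m := by exact_mod_cast Nat.div_mul_le_self (M1 m) p
  have hcard : (((BR κ m).filter (fun b => p * b ≤ M1 m ∧ M1 m < 16 * (p * b))).card : ℝ) ≤
      C1 * ((M1 m / p : ℕ) : ℝ) / Real.log m := by
    refine (Nat.cast_le.mpr (card_le_card ?_)).trans (hRC (M1 m / p) hX1 hX2)
    intro b hb
    obtain ⟨hb1, hb2, hb3⟩ := mem_filter.mp hb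
    obtain ⟨hb4, hb5, hb6, hb7⟩ := mem_BR.mp hb1
    classical
    refine mem_filter.mpr ⟨mem_Icc.mpr ⟨hb4, ?_⟩, hb7⟩
    rw [Nat.le_div_iff_mul_le hp1.pos, mul_comm]
    exact hb2
  have hterm : ∀ b ∈ (BR κ m).filter (fun b => p * b ≤ M1 m ∧ M1 m < 16 * (p * b)), 1 / (b : ℝ) ≤ 16 * p / M1 m := by
    intro b hb
    obtain ⟨hb1, hb2, hb3⟩ := mem_filter.mp hb
    have hb4 := (mem_BR.mp hb1).1
    have hb0 : (0 : ℝ) < b := by exact_mod_cast hb4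
    have e1 : (M1 m : ℝ) < 16 * (p * b) := by exact_mod_cast hb3
    rw [div_le_div_iff₀ hb0 hM0]
    linarith only [e1]
  calc ∑ b ∈ (BR κ m).filter (fun b => p * b ≤ M1 m ∧ M1 m < 16 * (p * b)), 1 / (b : ℝ)
      ≤ (((BR κ m).filter (fun b => p * b ≤ M1 m ∧ M1 m < 16 * (p * b))).card : ℝ) * (16 * p / M1 m) := by
        have := sum_le_card_nsmul _ _ _ hterm
        rwa [nsmul_eq_mul] at this
    _ ≤ (C1 * ((M1 m / p : ℕ) : ℝ) / Real.log m) * (16 * p / M1 m) := mul_le_mul_of_nonneg_right hcard (by positivity)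
    _ = (16 * C1 / Real.log m) * ((((M1 m / p : ℕ) : ℝ) * p) / M1 m) := by ring
    _ ≤ (16 * C1 / Real.log m) * 1 := by
        refine mul_le_mul_of_nonneg_left ?_ (by positivity)
        rw [div_le_one hM0]
        exact hX3
    _ = 16 * C1 / Real.log m := mul_one _

/-- the lower bound for `M1 / (p p0)` -/
theorem t3b_X : ∃ m0 : ℕ, ∀ m : ℕ, m0 ≤ m → ∀ p ∈ AP m, ∀ p0 ∈ AP m,
    (m : ℝ) ^ (1 / 400 : ℝ) ≤ (M1 m : ℝ) / (p * p0) := by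
  obtain ⟨m1, h1⟩ := t3b_M
  obtain ⟨m2, h2⟩ := t3b_pow (16 / 400) 2 (by norm_num)
  refine ⟨max (max m1 m2) 3, fun m hm p hp p0 hp0 => ?_⟩
  have hm1 : m1 ≤ m := le_trans (le_trans (le_max_left _ _) (le_max_left _ _)) hm
  have hm2 : m2 ≤ m := le_trans (le_trans (le_max_right _ _) (le_max_left _ _)) hm
  have hm3 : 3 ≤ m := le_trans (le_max_right _ _) hm
  have hmR : (3 : ℝ) ≤ m := by exact_mod_cast hm3
  have hm0 : (0 : ℝ) < m := by linarith only [hmR]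
  obtain ⟨hp4, hp5, hp6, hp7⟩ := t3b_mem_AP.mp hp
  obtain ⟨hq4, hq5, hq6, hq7⟩ := t3b_mem_AP.mp hp0
  have hpp : (0 : ℝ) < p := by exact_mod_cast hp4.pos
  have hqq : (0 : ℝ) < p0 := by exact_mod_cast hq4.pos
  have hpow : (m : ℝ) ^ (201 / 400 : ℝ) =
      (m : ℝ) ^ (1 / 400 : ℝ) * ((m : ℝ) ^ (23 / 100 : ℝ) * (m : ℝ) ^ (23 / 100 : ℝ)) * (m : ℝ) ^ (16 / 400 : ℝ) := by
    rw [← Real.rpow_add hm0, ← Real.rpow_add hm0, ← Real.rpow_add hm0]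
    norm_num
  rw [le_div_iff₀ (by positivity)]
  have e1 : (p : ℝ) * p0 ≤ (m : ℝ) ^ (23 / 100 : ℝ) * (m : ℝ) ^ (23 / 100 : ℝ) := mul_le_mul hp7 hq7 hqq.le (by positivity)
  have e2 : (m : ℝ) ^ (1 / 400 : ℝ) * (p * p0) ≤
      (m : ℝ) ^ (1 / 400 : ℝ) * ((m : ℝ) ^ (23 / 100 : ℝ) * (m : ℝ) ^ (23 / 100 : ℝ)) :=
    mul_le_mul_of_nonneg_left e1 (by positivity)
  have e3 := h1 m hm1
  rw [hpow] at e3
  have e4 := mul_le_mul_of_nonneg_left (h2 m hm2)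
    (show (0 : ℝ) ≤ (m : ℝ) ^ (1 / 400 : ℝ) * ((m : ℝ) ^ (23 / 100 : ℝ) * (m : ℝ) ^ (23 / 100 : ℝ)) by positivity)
  linarith only [e2, e3, e4]

/-- the products `p0 t` -/
theorem t3b_mem (κ A : ℝ) (hκ1 : κ ≤ 1 / 1000) (hA : 2 ≤ A) : ∃ m0 : ℕ, ∀ m : ℕ, m0 ≤ m →
    ∀ p ∈ AP m, ∀ p0 ∈ AP m, ∀ t ∈ Tt m A p p0,
      t.Prime ∧ t ∈ Icc 1 ⌊(m : ℝ) ^ (399 / 800 : ℝ)⌋₊ ∧ p0 * t ∈ BR κ m := by
  obtain ⟨m1, h1⟩ := t3b_X
  obtain ⟨m2, h2⟩ := t3b_pow (1 / 800) A (by norm_num)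
  have hA0 : 0 < A := by linarith only [hA]
  refine ⟨max (max m1 m2) 3, fun m hm p hp p0 hp0 t ht => ?_⟩
  have hm1 : m1 ≤ m := le_trans (le_trans (le_max_left _ _) (le_max_left _ _)) hm
  have hm2 : m2 ≤ m := le_trans (le_trans (le_max_right _ _) (le_max_left _ _)) hm
  have hm3 : 3 ≤ m := le_trans (le_max_right _ _) hm
  have hmR : (3 : ℝ) ≤ m := by exact_mod_cast hm3
  have hm0 : (0 : ℝ) < m := by linarith only [hmR]
  obtain ⟨hp4, hp5, hp6, hp7⟩ := t3b_mem_AP.mp hp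
  obtain ⟨hq4, hq5, hq6, hq7⟩ := t3b_mem_AP.mp hp0
  have hpp : (0 : ℝ) < p := by exact_mod_cast hp4.pos
  have hqq : (0 : ℝ) < p0 := by exact_mod_cast hq4.pos
  have hX := h1 m hm1 p hp p0 hp0
  unfold Tt at ht
  obtain ⟨t1, t2, t3, t4⟩ := (mem_PI (by positivity)).mp ht
  have ht0 : (0 : ℝ) < t := by exact_mod_cast t1.pos
  have hle : ((p0 * t : ℕ) : ℝ) ≤ (m : ℝ) ^ (399 / 800 : ℝ) := by
    push_cast
    have e1 : A * ((M1 m : ℝ) / (p * p0)) = (A * M1 m) / (p * p0) := by ring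
    rw [e1, le_div_iff₀ (by positivity)] at t4
    have e2 := t3b_M_le m
    have e3 : (m : ℝ) ^ (201 / 400 : ℝ) = (m : ℝ) ^ (1 / 200 : ℝ) * (m : ℝ) ^ (199 / 400 : ℝ) := by
      rw [← Real.rpow_add hm0]
      norm_num
    have e4 : (m : ℝ) ^ (399 / 800 : ℝ) = (m : ℝ) ^ (1 / 800 : ℝ) * (m : ℝ) ^ (199 / 400 : ℝ) := by
      rw [← Real.rpow_add hm0]
      norm_num
    have e5 : (m : ℝ) ^ (1 / 200 : ℝ) * ((p0 : ℝ) * t) ≤ (m : ℝ) ^ (1 / 200 : ℝ) * (A * (m : ℝ) ^ (199 / 400 : ℝ)) := by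
      have e6 : (m : ℝ) ^ (1 / 200 : ℝ) * ((p0 : ℝ) * t) ≤ p * (p0 * t) := mul_le_mul_of_nonneg_right hp6.le (by positivity)
      have e7 : A * (M1 m : ℝ) ≤ A * (m : ℝ) ^ (201 / 400 : ℝ) := mul_le_mul_of_nonneg_left e2 hA0.le
      rw [e3] at e7
      linarith only [t4, e6, e7]
    have e8 : (p0 : ℝ) * t ≤ A * (m : ℝ) ^ (199 / 400 : ℝ) := le_of_mul_le_mul_left e5 (by positivity)
    rw [e4]
    exact e8.trans (mul_le_mul_of_nonneg_right (h2 m hm2) (by positivity))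
  have hpos : 1 ≤ p0 * t := Nat.mul_pos hq4.pos t1.pos
  have hκ4 : (m : ℝ) ^ κ ≤ (m : ℝ) ^ (1 / 400 : ℝ) := Real.rpow_le_rpow_of_exponent_le (by linarith only [hmR]) (by linarith only [hκ1])
  have hκ2 : (m : ℝ) ^ κ ≤ (m : ℝ) ^ (1 / 200 : ℝ) := Real.rpow_le_rpow_of_exponent_le (by linarith only [hmR]) (by linarith only [hκ1])
  refine ⟨t1, ?_, ?_⟩
  · rw [mem_Icc, Nat.le_floor_iff (by positivity)]
    refine ⟨t1.one_lt.le, le_trans ?_ hle⟩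
    have : t ≤ p0 * t := Nat.le_mul_of_pos_left t hq4.pos
    exact_mod_cast this
  · rw [mem_BR]
    refine ⟨hpos, hle, ?_, ?_⟩
    · exact Nat.Coprime.mul_left ((Nat.Prime.coprime_iff_not_dvd hq4).mpr hq5) ((Nat.Prime.coprime_iff_not_dvd t1).mpr t2)
    · intro q hq hqd
      rcases (Nat.Prime.dvd_mul hq).mp hqd with h | h
      · rw [(Nat.prime_dvd_prime_iff_eq hq hq4).mp h, zN, Nat.floor_lt (by positivity)]
        linarith only [hq6, hκ2]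
      · rw [(Nat.prime_dvd_prime_iff_eq hq t1).mp h, zN, Nat.floor_lt (by positivity)]
        linarith only [hX, t3, hκ4]

/-- every number is a product of two primes in at most two ways -/
theorem t3b_two (S T B : Finset ℕ) (hS : ∀ p ∈ S, p.Prime) (g : ℕ → ℝ) (hg : ∀ n, 0 ≤ g n) :
    ∑ y ∈ (S ×ˢ T).filter (fun y => y.2.Prime ∧ y.1 * y.2 ∈ B), g (y.1 * y.2) ≤ 2 * ∑ n ∈ B, g n := by
  classical
  rw [← sum_fiberwise_of_maps_to (t := B) (g := fun y : ℕ × ℕ => y.1 * y.2) fun y hy => (mem_filter.mp hy).2.2, mul_sum]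
  refine sum_le_sum fun n _ => ?_
  have h1 : ∀ y ∈ ((S ×ˢ T).filter (fun y => y.2.Prime ∧ y.1 * y.2 ∈ B)).filter (fun y => y.1 * y.2 = n), g (y.1 * y.2) = g n :=
    fun y hy => by rw [(mem_filter.mp hy).2]
  rw [sum_congr rfl h1, sum_const, nsmul_eq_mul]
  refine mul_le_mul_of_nonneg_right ?_ (hg n)
  rcases (((S ×ˢ T).filter (fun y => y.2.Prime ∧ y.1 * y.2 ∈ B)).filter (fun y => y.1 * y.2 = n)).eq_empty_or_nonempty with he | ⟨y0, hy0⟩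
  · rw [he, card_empty]
    norm_num
  obtain ⟨a1, a2⟩ := mem_filter.mp hy0
  obtain ⟨a3, a4, a5⟩ := mem_filter.mp a1
  obtain ⟨a6, a7⟩ := mem_product.mp a3
  have hsub : ((S ×ˢ T).filter (fun y => y.2.Prime ∧ y.1 * y.2 ∈ B)).filter (fun y => y.1 * y.2 = n) ⊆ {y0, (y0.2, y0.1)} := by
    intro y hy
    obtain ⟨b1, b2⟩ := mem_filter.mp hy
    obtain ⟨b3, b4, b5⟩ := mem_filter.mp b1
    obtain ⟨b6, b7⟩ := mem_product.mp b3
    have hy1 := hS _ b6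
    have hy01 := hS _ a6
    have hprod : y.1 * y.2 = y0.1 * y0.2 := by rw [b2, a2]
    rw [mem_insert, mem_singleton]
    rcases (Nat.Prime.dvd_mul hy1).mp (show y.1 ∣ y0.1 * y0.2 from hprod ▸ Dvd.intro _ rfl) with h | h
    · left
      have e1 := (Nat.prime_dvd_prime_iff_eq hy1 hy01).mp h
      refine Prod.ext e1 ?_
      rw [e1] at hprod
      exact Nat.eq_of_mul_eq_mul_left hy01.pos hprod
    · right
      have e1 := (Nat.prime_dvd_prime_iff_eq hy1 a4).mp h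
      refine Prod.ext e1 ?_
      rw [e1, mul_comm y0.1] at hprod
      exact Nat.eq_of_mul_eq_mul_left a4.pos hprod
  have hc := (card_le_card hsub).trans card_le_two
  exact_mod_cast hc

/-- sums over `PB` -/
theorem t3b_PB (κ : ℝ) (m : ℕ) (f : ℕ → ℕ → ℝ) : ∑ x ∈ PB κ m, f x.1 x.2 =
    ∑ p ∈ AP m, ∑ b ∈ (BR κ m).filter (fun b => p * b ≤ M1 m ∧ M1 m < 16 * (p * b)), f p b := by
  unfold PB
  rw [sum_filter, sum_product]
  refine sum_congr rfl fun p _ => ?_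
  rw [sum_filter]

theorem t3b_PB' (κ : ℝ) (m : ℕ) (f : ℕ → ℕ → ℝ) : ∑ x ∈ PB κ m, f x.1 x.2 =
    ∑ b ∈ BR κ m, ∑ p ∈ (AP m).filter (fun p => p * b ≤ M1 m ∧ M1 m < 16 * (p * b)), f p b := by
  unfold PB
  rw [sum_filter, sum_product_right]
  refine sum_congr rfl fun b _ => ?_
  rw [sum_filter]

end Pool.Agent.H78.PD

end

section

/-!
# PD, T6: the logarithmic sum of `λχ`

`f(n) = λ(n) χ(n)` (`±1` for `n` prime to `m`), `k = cc χ`, `f(p) = 1` for a prime with `χ(p) = -1`.  `B = Bad m χ (3/10) (37/100)`.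
* For `a ∈ cop m ⌊m^(1/100)⌋` and a triple of `t6_triples`: `x = a p1 p2 p3 ≤ m/2` (`p3 ≤ A X`), prime to `m`, `f(x) = f(a)`; each `x` comes from at most `27` triples (`p1, p2, p3` are prime factors `> m^(3/10)` of `x ≤ m`, at most `3` of
  them, and `a` is determined): `∑_a |f(a) - k|² c m/(a L) ≤ 27 ∑_{x ∈ cop m (m/2)} |f(x) - k|²`, `|f(x) - k| = |λ(x) - k χ(x)|`, and `half_phi` with `U = {χ}`: `≤ 27 φ wout {χ} ≤ 27 φ δ0`.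
* `S = ∑_{a ∈ cop m x} 1/a ≥ (φ/m) log x` (`x = ⌊m^(1/100)⌋`): `(∑_{a ∈ cop m x} 1/a) ∏_{p ∣ m} (1 - 1/p)⁻¹ ≥ ∑_{n ≤ x} 1/n`; so `S ≥ (φ/m)(log m)/200`.
* `|k|² = 1 - wout {χ} ≥ 1 - δ0`; `|∑ f(a)/a| ≥ |k| S - (∑ |f(a) - k|²/a)^(1/2) S^(1/2) ≥ S/2`.
-/

set_option autoImplicit false

namespace Pool.Agent.H78.PD

open Finset
open Pool.Agent.H34PG (lam lam_val lam_mul lam_prime)
open Pool.Agent.H11.LQ Pool.Agent.H78.PG

/-- numbers up to `x` prime to all elements of `P` -/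
private def t6S (P : Finset ℕ) (x : ℕ) : Finset ℕ :=
  (Icc 1 x).filter (fun a => ∀ p ∈ P, ¬ p ∣ a)

private theorem t6_mem {P : Finset ℕ} {x a : ℕ} :
    a ∈ t6S P x ↔ 1 ≤ a ∧ a ≤ x ∧ ∀ p ∈ P, ¬ p ∣ a := by
  unfold t6S
  rw [mem_filter, mem_Icc, and_assoc]

private theorem t6_step (P : Finset ℕ) (q x : ℕ) (hq : q.Prime) :
    (1 - 1 / (q : ℝ)) * ∑ a ∈ t6S P x, 1 / (a : ℝ) ≤ ∑ a ∈ t6S (insert q P) x, 1 / (a : ℝ) := by
  classical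
  have hq0 : (0 : ℝ) < q := by exact_mod_cast hq.pos
  have h1 : ∑ a ∈ t6S P x, 1 / (a : ℝ) =
      ∑ a ∈ (t6S P x).filter (fun a => q ∣ a), 1 / (a : ℝ) +
        ∑ a ∈ (t6S P x).filter (fun a => ¬ q ∣ a), 1 / (a : ℝ) :=
    (sum_filter_add_sum_filter_not _ _ _).symm
  have h2 : (t6S P x).filter (fun a => ¬ q ∣ a) = t6S (insert q P) x := by
    ext a
    rw [mem_filter, t6_mem, t6_mem]
    constructor
    · rintro ⟨⟨h1, h2, h3⟩, h4⟩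
      refine ⟨h1, h2, fun p hp => ?_⟩
      rcases mem_insert.mp hp with rfl | hp
      · exact h4
      · exact h3 p hp
    · rintro ⟨h1, h2, h3⟩
      exact ⟨⟨h1, h2, fun p hp => h3 p (mem_insert_of_mem hp)⟩, h3 q (mem_insert_self _ _)⟩
  have h3 : ∑ a ∈ (t6S P x).filter (fun a => q ∣ a), 1 / (a : ℝ) ≤
      1 / (q : ℝ) * ∑ a ∈ t6S P x, 1 / (a : ℝ) := by
    have e1 : ∑ a ∈ (t6S P x).filter (fun a => q ∣ a), 1 / (a : ℝ) =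
        ∑ a ∈ (t6S P x).filter (fun a => q ∣ a), 1 / (q : ℝ) * (1 / ((a / q : ℕ) : ℝ)) := by
      refine sum_congr rfl fun a ha => ?_
      rw [mem_filter] at ha
      obtain ⟨b, rfl⟩ := ha.2
      rw [Nat.mul_div_cancel_left b hq.pos]
      push_cast
      rw [one_div_mul_one_div]
    have e2 : ∑ a ∈ (t6S P x).filter (fun a => q ∣ a), 1 / ((a / q : ℕ) : ℝ) =
        ∑ b ∈ ((t6S P x).filter (fun a => q ∣ a)).image (fun a => a / q), 1 / (b : ℝ) := by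
      rw [sum_image]
      intro a ha b hb hab
      have ha1 := (mem_filter.mp (mem_coe.mp ha)).2
      have hb1 := (mem_filter.mp (mem_coe.mp hb)).2
      obtain ⟨c, rfl⟩ := ha1
      obtain ⟨d, rfl⟩ := hb1
      simp only at hab
      rw [Nat.mul_div_cancel_left c hq.pos, Nat.mul_div_cancel_left d hq.pos] at hab
      rw [hab]
    rw [e1, ← mul_sum, e2]
    refine mul_le_mul_of_nonneg_left ?_ (by positivity)
    refine sum_le_sum_of_subset_of_nonneg ?_ fun _ _ _ => by positivity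
    intro b hb
    rw [mem_image] at hb
    obtain ⟨a, ha, rfl⟩ := hb
    rw [mem_filter, t6_mem] at ha
    obtain ⟨⟨a1, a2, a3⟩, b, rfl⟩ := ha
    rw [Nat.mul_div_cancel_left b hq.pos, t6_mem]
    have hb0 : 1 ≤ b := by
      rcases Nat.eq_zero_or_pos b with h | h
      · subst h
        omega
      · exact h
    refine ⟨hb0, ?_, fun p hp hpb => a3 p hp (Dvd.dvd.mul_left hpb q)⟩
    exact (Nat.le_mul_of_pos_left b hq.pos).trans a2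
  rw [h2] at h1
  have h4 : (1 - 1 / (q : ℝ)) * ∑ a ∈ t6S P x, 1 / (a : ℝ) =
      ∑ a ∈ t6S P x, 1 / (a : ℝ) - 1 / (q : ℝ) * ∑ a ∈ t6S P x, 1 / (a : ℝ) := by ring
  rw [h4]
  linarith

private theorem t6_prod (x : ℕ) (P : Finset ℕ) (hP : ∀ p ∈ P, p.Prime) :
    (∏ p ∈ P, (1 - 1 / (p : ℝ))) * ∑ a ∈ Icc 1 x, 1 / (a : ℝ) ≤ ∑ a ∈ t6S P x, 1 / (a : ℝ) := by
  classical
  induction P using Finset.induction_on with
  | empty =>
    rw [prod_empty, one_mul]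
    refine le_of_eq (sum_congr ?_ fun _ _ => rfl)
    ext a
    rw [t6_mem, mem_Icc]
    constructor
    · rintro ⟨h1, h2⟩
      exact ⟨h1, h2, fun p hp => absurd hp (notMem_empty p)⟩
    · rintro ⟨h1, h2, _⟩
      exact ⟨h1, h2⟩
  | insert q P hqP ih =>
    have hq : q.Prime := hP q (mem_insert_self _ _)
    have hP' : ∀ p ∈ P, p.Prime := fun p hp => hP p (mem_insert_of_mem hp)
    rw [prod_insert hqP, mul_assoc]
    refine le_trans ?_ (t6_step P q x hq)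
    refine mul_le_mul_of_nonneg_left (ih hP') ?_
    have h1 : (1 : ℝ) ≤ q := by exact_mod_cast hq.one_lt.le
    have h2 : 1 / (q : ℝ) ≤ 1 := by
      rw [div_le_one (by linarith)]
      exact h1
    linarith

theorem cop_harm (m x : ℕ) (hm : 1 ≤ m) (hx : 1 ≤ x) :
    (m.totient : ℝ) / m * Real.log x ≤ ∑ a ∈ cop m x, 1 / (a : ℝ) := by
  classical
  have hm0 : (0 : ℝ) < m := by exact_mod_cast hm
  have hP : ∀ p ∈ m.primeFactors, p.Prime := fun p hp => Nat.prime_of_mem_primeFactors hp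
  have h1 := t6_prod x m.primeFactors hP
  have h2 : t6S m.primeFactors x = cop m x := by
    ext a
    rw [t6_mem, mem_cop]
    refine and_congr_right fun _ => and_congr_right fun _ => ?_
    constructor
    · intro h
      refine Nat.Coprime.symm (Nat.coprime_of_dvd fun p hp hpm hpa => ?_)
      exact h p (Nat.mem_primeFactors.mpr ⟨hp, hpm, by omega⟩) hpa
    · intro h p hp hpa
      have hp' := Nat.mem_primeFactors.mp hp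
      have := Nat.dvd_gcd hpa hp'.2.1
      rw [h] at this
      exact hp'.1.one_lt.ne' (Nat.dvd_one.mp this)
  have h3 : (m.totient : ℝ) / m = ∏ p ∈ m.primeFactors, (1 - 1 / (p : ℝ)) := by
    have e1 := Nat.totient_eq_mul_prod_factors m
    have e2 : ((m.totient : ℚ) : ℝ) = ((m * ∏ p ∈ m.primeFactors, (1 - (p : ℚ)⁻¹) : ℚ) : ℝ) := by
      rw [e1]
    push_cast at e2
    rw [e2, mul_div_assoc, mul_comm, div_mul_cancel₀ _ hm0.ne']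
    refine prod_congr rfl fun p _ => ?_
    rw [one_div]
  have h4 : Real.log x ≤ ∑ a ∈ Icc 1 x, 1 / (a : ℝ) := by
    have e1 := log_add_one_le_harmonic x
    have e2 : ((harmonic x : ℚ) : ℝ) = ∑ a ∈ Icc 1 x, 1 / (a : ℝ) := by
      rw [harmonic_eq_sum_Icc]
      push_cast
      refine sum_congr rfl fun a _ => ?_
      rw [one_div]
    rw [← e2]
    refine le_trans ?_ e1
    have hx0 : (0 : ℝ) < x := by exact_mod_cast hx
    exact Real.log_le_log hx0 (by push_cast; linarith)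
  rw [h2, ← h3] at h1
  refine le_trans ?_ h1
  exact mul_le_mul_of_nonneg_left h4 (by positivity)

/-- at most three prime factors exceed `m^(3/10)` -/
private theorem t6_three (m x : ℕ) (hm : 2 ≤ m) (hx0 : 1 ≤ x) (hx : x ≤ m) :
    (x.primeFactors.filter (fun p : ℕ => (m : ℝ) ^ (3 / 10 : ℝ) < (p : ℝ))).card ≤ 3 := by
  classical
  obtain ⟨T, hT⟩ : ∃ T, T = x.primeFactors.filter (fun p : ℕ => (m : ℝ) ^ (3 / 10 : ℝ) < (p : ℝ)) :=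
    ⟨_, rfl⟩
  rw [← hT]
  by_contra hc
  push Not at hc
  have hm1 : (1 : ℝ) < m := by exact_mod_cast hm
  have hm0 : (0 : ℝ) < m := by linarith
  have hsub : T ⊆ x.primeFactors := by
    rw [hT]
    exact filter_subset _ _
  have h1 : ∏ p ∈ T, p ∣ x :=
    (prod_dvd_prod_of_subset _ _ _ hsub).trans (Nat.prod_primeFactors_dvd x)
  have h2 : ∏ p ∈ T, p ≤ x := Nat.le_of_dvd (by omega) h1
  have h3 : ((∏ p ∈ T, p : ℕ) : ℝ) ≤ m := by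
    exact_mod_cast h2.trans hx
  have h4 : ((m : ℝ) ^ (3 / 10 : ℝ)) ^ T.card ≤ ((∏ p ∈ T, p : ℕ) : ℝ) := by
    push_cast
    rw [← prod_const]
    refine prod_le_prod (fun _ _ => by positivity) fun p hp => ?_
    rw [hT, mem_filter] at hp
    exact hp.2.le
  have h5 : (1 : ℝ) ≤ (m : ℝ) ^ (3 / 10 : ℝ) := Real.one_le_rpow hm1.le (by norm_num)
  have h6 : ((m : ℝ) ^ (3 / 10 : ℝ)) ^ 4 ≤ ((m : ℝ) ^ (3 / 10 : ℝ)) ^ T.card :=
    pow_le_pow_right₀ h5 hc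
  have h7 : ((m : ℝ) ^ (3 / 10 : ℝ)) ^ 4 = (m : ℝ) ^ (12 / 10 : ℝ) := by
    rw [← Real.rpow_natCast, ← Real.rpow_mul hm0.le]
    congr 1
    norm_num
  have h8 : (m : ℝ) ^ (1 : ℝ) < (m : ℝ) ^ (12 / 10 : ℝ) :=
    Real.rpow_lt_rpow_of_exponent_lt hm1 (by norm_num)
  rw [Real.rpow_one] at h8
  rw [h7] at h6
  linarith

/-- the index set of the triples at `a` -/
noncomputable def t6T (m : ℕ) (A : ℝ) (B : Finset ℕ) (a : ℕ) : Finset (Σ _ : ℕ × ℕ, ℕ) :=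
  ((P3 m \ B) ×ˢ (P3 m \ B)).sigma (fun t => XX3 m A a t.1 t.2 \ B)

theorem t6_card (m : ℕ) (A : ℝ) (B : Finset ℕ) (a : ℕ) :
    (t6T m A B a).card = ∑ p1 ∈ P3 m \ B, ∑ p2 ∈ P3 m \ B, (XX3 m A a p1 p2 \ B).card := by
  unfold t6T
  rw [card_sigma, sum_product]

/-- the properties of the triples -/
private theorem t6_prop (m : ℕ) (A : ℝ) (hA : 2 ≤ A) (hm : 2 ≤ m) (χ : DirichletCharacter ℂ m)
    (hA2 : 2 * A ≤ (m : ℝ) ^ (3 / 100 : ℝ)) (a : ℕ)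
    (ha : a ∈ cop m ⌊(m : ℝ) ^ (1 / 100 : ℝ)⌋₊) (t : Σ _ : ℕ × ℕ, ℕ)
    (ht : t ∈ t6T m A (Bad m χ (3 / 10) (37 / 100)) a) :
    (t.1.1.Prime ∧ ¬ t.1.1 ∣ m ∧ χ (t.1.1 : ZMod m) = -1 ∧ (m : ℝ) ^ (3 / 10 : ℝ) < (t.1.1 : ℝ)) ∧
    (t.1.2.Prime ∧ ¬ t.1.2 ∣ m ∧ χ (t.1.2 : ZMod m) = -1 ∧ (m : ℝ) ^ (3 / 10 : ℝ) < (t.1.2 : ℝ)) ∧
    (t.2.Prime ∧ ¬ t.2 ∣ m ∧ χ (t.2 : ZMod m) = -1 ∧ (m : ℝ) ^ (3 / 10 : ℝ) < (t.2 : ℝ)) ∧
    a * t.1.1 * t.1.2 * t.2 ≤ m / 2 := by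
  obtain ⟨⟨p1, p2⟩, p3⟩ := t
  unfold t6T at ht
  rw [mem_sigma, mem_product, mem_sdiff, mem_sdiff, mem_sdiff] at ht
  obtain ⟨⟨⟨h1, h1'⟩, ⟨h2, h2'⟩⟩, ⟨h3, h3'⟩⟩ := ht
  simp only at h1 h1' h2 h2' h3 h3' ⊢
  have hm1 : (1 : ℝ) < m := by exact_mod_cast hm
  have hm0 : (0 : ℝ) < m := by linarith
  have hA0 : 0 < A := by linarith
  obtain ⟨ha1, ha2, ha3⟩ := mem_cop.mp ha
  have ha4 : (a : ℝ) ≤ (m : ℝ) ^ (1 / 100 : ℝ) := (Nat.le_floor_iff (by positivity)).mp ha2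
  have ha0 : (0 : ℝ) < a := by exact_mod_cast ha1
  -- the primes in P3
  have hlt : (m : ℝ) ^ (3 / 10 : ℝ) < (m : ℝ) ^ (32 / 100 : ℝ) :=
    Real.rpow_lt_rpow_of_exponent_lt hm1 (by norm_num)
  have hle : (m : ℝ) ^ (33 / 100 : ℝ) ≤ (m : ℝ) ^ (37 / 100 : ℝ) :=
    Real.rpow_le_rpow_of_exponent_le hm1.le (by norm_num)
  have key : ∀ p : ℕ, p ∈ P3 m → p ∉ Bad m χ (3 / 10) (37 / 100) →
      (p.Prime ∧ ¬ p ∣ m ∧ χ (p : ZMod m) = -1 ∧ (m : ℝ) ^ (3 / 10 : ℝ) < (p : ℝ)) ∧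
      (m : ℝ) ^ (32 / 100 : ℝ) < (p : ℝ) ∧ (p : ℝ) ≤ (m : ℝ) ^ (33 / 100 : ℝ) := by
    intro p hp hpB
    unfold P3 at hp
    rw [mem_PI (by positivity)] at hp
    obtain ⟨a1, a2, a3, a4⟩ := hp
    refine ⟨⟨a1, a2, ?_, hlt.trans a3⟩, a3, a4⟩
    by_contra hc
    exact hpB (mem_Bad.mpr ⟨a1, a2, hlt.trans a3, a4.trans hle, hc⟩)
  obtain ⟨k1, l1, u1⟩ := key p1 h1 h1'
  obtain ⟨k2, l2, u2⟩ := key p2 h2 h2'
  have p10 : (0 : ℝ) < p1 := by exact_mod_cast k1.1.pos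
  have p20 : (0 : ℝ) < p2 := by exact_mod_cast k2.1.pos
  -- the third prime
  have hX0 : 0 < (m : ℝ) / (2 * A * a * p1 * p2) := by positivity
  unfold XX3 at h3
  rw [mem_PI (by positivity)] at h3
  obtain ⟨b1, b2, b3, b4⟩ := h3
  have hAX : A * ((m : ℝ) / (2 * A * a * p1 * p2)) = m / (2 * a * p1 * p2) := by
    field_simp
  rw [hAX] at b4
  have p30 : (0 : ℝ) < p3 := by exact_mod_cast b1.pos
  have hX1 : (m : ℝ) ^ (3 / 10 : ℝ) ≤ (m : ℝ) / (2 * A * a * p1 * p2) := by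
    rw [le_div_iff₀ (by positivity)]
    have e1 : 2 * A * (a : ℝ) * p1 * p2 ≤ (m : ℝ) ^ (3 / 100 : ℝ) * (m : ℝ) ^ (1 / 100 : ℝ) *
        (m : ℝ) ^ (33 / 100 : ℝ) * (m : ℝ) ^ (33 / 100 : ℝ) := by
      gcongr
    calc (m : ℝ) ^ (3 / 10 : ℝ) * (2 * A * (a : ℝ) * p1 * p2)
        ≤ (m : ℝ) ^ (3 / 10 : ℝ) * ((m : ℝ) ^ (3 / 100 : ℝ) * (m : ℝ) ^ (1 / 100 : ℝ) *
        (m : ℝ) ^ (33 / 100 : ℝ) * (m : ℝ) ^ (33 / 100 : ℝ)) := by gcongr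
      _ = m := by
        rw [← Real.rpow_add hm0, ← Real.rpow_add hm0, ← Real.rpow_add hm0, ← Real.rpow_add hm0]
        nth_rewrite 2 [← Real.rpow_one (m : ℝ)]
        congr 1
        norm_num
  have hX2 : (m : ℝ) / (2 * a * p1 * p2) ≤ (m : ℝ) ^ (37 / 100 : ℝ) := by
    rw [div_le_iff₀ (by positivity)]
    have e1 : 1 * 1 * (m : ℝ) ^ (32 / 100 : ℝ) * (m : ℝ) ^ (32 / 100 : ℝ) ≤
        2 * (a : ℝ) * p1 * p2 := by
      have : (1 : ℝ) ≤ a := by exact_mod_cast ha1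
      gcongr
      norm_num
    have e2 : (m : ℝ) ≤ (m : ℝ) ^ (37 / 100 : ℝ) *
        (1 * 1 * (m : ℝ) ^ (32 / 100 : ℝ) * (m : ℝ) ^ (32 / 100 : ℝ)) := by
      rw [one_mul, one_mul, ← Real.rpow_add hm0, ← Real.rpow_add hm0]
      nth_rewrite 1 [← Real.rpow_one (m : ℝ)]
      exact Real.rpow_le_rpow_of_exponent_le hm1.le (by norm_num)
    refine e2.trans ?_
    gcongr
  refine ⟨k1, k2, ⟨b1, b2, ?_, hX1.trans_lt b3⟩, ?_⟩
  · by_contra hc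
    exact h3' (mem_Bad.mpr ⟨b1, b2, hX1.trans_lt b3, b4.trans hX2, hc⟩)
  · rw [Nat.le_div_iff_mul_le (by norm_num)]
    rw [le_div_iff₀ (by positivity)] at b4
    have : ((a * p1 * p2 * p3 * 2 : ℕ) : ℝ) ≤ m := by
      push_cast
      linarith
    exact_mod_cast this

private theorem t6_vv (m : ℕ) (χ : DirichletCharacter ℂ m) (a p : ℕ) (ha : 1 ≤ a) (hp : p.Prime)
    (h : χ (p : ZMod m) = -1) : vv m χ (a * p) = vv m χ a := by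
  unfold vv
  rw [lam_mul a p (by omega) hp.pos, lam_prime hp, Nat.cast_mul, map_mul, h]
  push_cast
  ring

/-- the comparison -/
theorem t6_cmp (m : ℕ) [NeZero m] (A : ℝ) (hA : 2 ≤ A) (hm : 2 ≤ m)
    (χ : DirichletCharacter ℂ m) (hA2 : 2 * A ≤ (m : ℝ) ^ (3 / 100 : ℝ)) (k : ℂ) :
    ∑ a ∈ cop m ⌊(m : ℝ) ^ (1 / 100 : ℝ)⌋₊,
      ((t6T m A (Bad m χ (3 / 10) (37 / 100)) a).card : ℝ) * ‖vv m χ a - k‖ ^ 2
      ≤ 27 * ∑ x ∈ cop m (m / 2), ‖vv m χ x - k‖ ^ 2 := by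
  classical
  obtain ⟨B, hB⟩ : ∃ B, B = Bad m χ (3 / 10) (37 / 100) := ⟨_, rfl⟩
  obtain ⟨C, hC⟩ : ∃ C, C = cop m ⌊(m : ℝ) ^ (1 / 100 : ℝ)⌋₊ := ⟨_, rfl⟩
  have hprop := t6_prop m A hA hm χ hA2
  rw [← hB, ← hC] at hprop
  rw [← hB, ← hC]
  have e1 : ∑ a ∈ C, ((t6T m A B a).card : ℝ) * ‖vv m χ a - k‖ ^ 2 =
      ∑ w ∈ C.sigma (fun a => t6T m A B a), ‖vv m χ w.1 - k‖ ^ 2 := by
    rw [sum_sigma]
    refine sum_congr rfl fun a _ => ?_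
    change _ = ∑ s ∈ t6T m A B a, ‖vv m χ a - k‖ ^ 2
    rw [sum_const, nsmul_eq_mul]
  rw [e1]
  -- the map
  obtain ⟨g, hg⟩ : ∃ g : (Σ _ : ℕ, Σ _ : ℕ × ℕ, ℕ) → ℕ,
    g = fun w => w.1 * w.2.1.1 * w.2.1.2 * w.2.2 := ⟨_, rfl⟩
  have hgv : ∀ w, g w = w.1 * w.2.1.1 * w.2.1.2 * w.2.2 := fun w => by rw [hg]
  have hmaps : ∀ w ∈ C.sigma (fun a => t6T m A B a), g w ∈ cop m (m / 2) := by
    intro w hw
    rw [mem_sigma] at hw
    obtain ⟨h1, h2⟩ := hw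
    obtain ⟨⟨q1, q2, _, _⟩, ⟨r1, r2, _, _⟩, ⟨s1, s2, _, _⟩, hle⟩ := hprop w.1 h1 w.2 h2
    have hw1 : 1 ≤ w.1 ∧ w.1.Coprime m := by
      rw [hC] at h1
      exact ⟨(mem_cop.mp h1).1, (mem_cop.mp h1).2.2⟩
    rw [mem_cop, hgv]
    refine ⟨?_, hle, ?_⟩
    · have := Nat.mul_pos (Nat.mul_pos (Nat.mul_pos hw1.1 q1.pos) r1.pos) s1.pos
      omega
    · exact Nat.Coprime.mul_left (Nat.Coprime.mul_left (Nat.Coprime.mul_left hw1.2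
        ((Nat.Prime.coprime_iff_not_dvd q1).mpr q2)) ((Nat.Prime.coprime_iff_not_dvd r1).mpr r2))
        ((Nat.Prime.coprime_iff_not_dvd s1).mpr s2)
  have hval : ∀ w ∈ C.sigma (fun a => t6T m A B a), vv m χ (g w) = vv m χ w.1 := by
    intro w hw
    rw [mem_sigma] at hw
    obtain ⟨h1, h2⟩ := hw
    obtain ⟨⟨q1, _, q3, _⟩, ⟨r1, _, r3, _⟩, ⟨s1, _, s3, _⟩, _⟩ := hprop w.1 h1 w.2 h2
    have hw1 : 1 ≤ w.1 := by
      rw [hC] at h1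
      exact (mem_cop.mp h1).1
    have hw2 : 1 ≤ w.1 * w.2.1.1 := Nat.mul_pos hw1 q1.pos
    have hw3 : 1 ≤ w.1 * w.2.1.1 * w.2.1.2 := Nat.mul_pos hw2 r1.pos
    rw [hgv, t6_vv m χ _ _ hw3 s1 s3, t6_vv m χ _ _ hw2 r1 r3, t6_vv m χ _ _ hw1 q1 q3]
  rw [← sum_fiberwise_of_maps_to hmaps, mul_sum]
  refine sum_le_sum fun x hx => ?_
  obtain ⟨hx1, hx2, hx3⟩ := mem_cop.mp hx
  have e2 : ∑ w ∈ (C.sigma (fun a => t6T m A B a)).filter (fun w => g w = x),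
      ‖vv m χ w.1 - k‖ ^ 2 =
      ∑ w ∈ (C.sigma (fun a => t6T m A B a)).filter (fun w => g w = x), ‖vv m χ x - k‖ ^ 2 := by
    refine sum_congr rfl fun w hw => ?_
    rw [mem_filter] at hw
    rw [← hval w hw.1, hw.2]
  rw [e2, sum_const, nsmul_eq_mul]
  refine mul_le_mul_of_nonneg_right ?_ (by positivity)
  have hT := t6_three m x hm hx1 (hx2.trans (Nat.div_le_self _ _))
  obtain ⟨T, hTd⟩ : ∃ T, T = x.primeFactors.filter (fun p : ℕ => (m : ℝ) ^ (3 / 10 : ℝ) < (p : ℝ)) :=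
    ⟨_, rfl⟩
  rw [← hTd] at hT
  have hcard : ((C.sigma (fun a => t6T m A B a)).filter (fun w => g w = x)).card ≤
      (T ×ˢ (T ×ˢ T)).card := by
    refine card_le_card_of_injOn (fun w => (w.2.1.1, (w.2.1.2, w.2.2))) ?_ ?_
    · intro w hw
      rw [mem_coe, mem_filter, mem_sigma] at hw
      obtain ⟨⟨h1, h2⟩, h3⟩ := hw
      obtain ⟨⟨q1, _, _, q4⟩, ⟨r1, _, _, r4⟩, ⟨s1, _, _, s4⟩, _⟩ := hprop w.1 h1 w.2 h2
      rw [hgv] at h3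
      have hx0 : x ≠ 0 := by omega
      rw [mem_coe, mem_product, mem_product, hTd]
      simp only [mem_filter, Nat.mem_primeFactors]
      refine ⟨⟨⟨q1, ?_, hx0⟩, q4⟩, ⟨⟨r1, ?_, hx0⟩, r4⟩, ⟨s1, ?_, hx0⟩, s4⟩
      · rw [← h3]
        exact Dvd.dvd.mul_right (Dvd.dvd.mul_right (Dvd.intro_left _ rfl) _) _
      · rw [← h3]
        exact Dvd.dvd.mul_right (Dvd.intro_left _ rfl) _
      · rw [← h3]
        exact Dvd.intro_left _ rfl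
    · intro w hw w' hw' hww
      rw [mem_coe, mem_filter, mem_sigma] at hw hw'
      obtain ⟨⟨h1, h2⟩, h3⟩ := hw
      obtain ⟨⟨h1', h2'⟩, h3'⟩ := hw'
      obtain ⟨⟨q1, _, _, _⟩, ⟨r1, _, _, _⟩, ⟨s1, _, _, _⟩, _⟩ := hprop w.1 h1 w.2 h2
      obtain ⟨a, ⟨⟨p1, p2⟩, p3⟩⟩ := w
      obtain ⟨a', ⟨⟨p1', p2'⟩, p3'⟩⟩ := w'
      simp only [Prod.mk.injEq] at hww
      obtain ⟨rfl, rfl, rfl⟩ := hww
      rw [hgv] at h3 h3'
      simp only at h3 h3' q1 r1 s1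
      have h4 : a * p1 * p2 * p3 = a' * p1 * p2 * p3 := by rw [h3, h3']
      have h5 := Nat.eq_of_mul_eq_mul_right s1.pos h4
      have h6 := Nat.eq_of_mul_eq_mul_right r1.pos h5
      have h7 := Nat.eq_of_mul_eq_mul_right q1.pos h6
      rw [h7]
  rw [card_product, card_product] at hcard
  have h27 : T.card * (T.card * T.card) ≤ 3 * (3 * 3) :=
    Nat.mul_le_mul hT (Nat.mul_le_mul hT hT)
  have := hcard.trans h27
  exact_mod_cast this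

/-- distance to a multiple of the character -/
theorem t6_dist (m : ℕ) [NeZero m] (χ : DirichletCharacter ℂ m) (hχ : χ ^ 2 = 1) (k : ℂ)
    (x : ℕ) (hx : x.Coprime m) :
    ‖vv m χ x - k‖ = ‖((lam x : ℤ) : ℂ) - k * χ (x : ZMod m)‖ := by
  obtain ⟨u, hu⟩ : IsUnit (x : ZMod m) := (ZMod.isUnit_iff_coprime x m).mpr hx
  have h1 : χ (x : ZMod m) * χ (x : ZMod m) = 1 := by
    rw [← hu, ← MulChar.mul_apply, ← sq, hχ]
    exact MulChar.one_apply_coe u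
  have h2 : ‖χ (x : ZMod m)‖ = 1 := by
    rw [← hu]
    exact DirichletCharacter.unit_norm_eq_one χ u
  have h3 : ((lam x : ℤ) : ℂ) - k * χ (x : ZMod m) = χ (x : ZMod m) * (vv m χ x - k) := by
    unfold vv
    have : χ (x : ZMod m) * (((lam x : ℤ) : ℂ) * χ (x : ZMod m) - k) =
        ((lam x : ℤ) : ℂ) * (χ (x : ZMod m) * χ (x : ZMod m)) - k * χ (x : ZMod m) := by ring
    rw [this, h1, mul_one]
  rw [h3, norm_mul, h2, one_mul]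

/-- Cauchy and the triangle inequality -/
theorem t6_end (C : Finset ℕ) (f : ℕ → ℂ) (k : ℂ)
    (hk : 3 / 4 ≤ ‖k‖) (S : ℝ) (hS : ∑ a ∈ C, 1 / (a : ℝ) = S)
    (hD : ∑ a ∈ C, ‖f a - k‖ ^ 2 / a ≤ 1 / 16 * S) : 1 / 2 * S ≤ ‖∑ a ∈ C, f a / a‖ := by
  have hS0 : 0 ≤ S := by
    rw [← hS]
    exact sum_nonneg fun _ _ => by positivity
  have h1 : (∑ a ∈ C, ‖f a - k‖ / a) ^ 2 ≤ (∑ a ∈ C, ‖f a - k‖ ^ 2 / a) * ∑ a ∈ C, 1 / (a : ℝ) := by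
    apply Finset.sum_sq_le_sum_mul_sum_of_sq_le_mul
    · intro i _
      positivity
    · intro i _
      positivity
    · intro i _
      apply le_of_eq
      ring
  have h2 : (∑ a ∈ C, ‖f a - k‖ / a) ^ 2 ≤ (1 / 4 * S) ^ 2 := by
    refine h1.trans ?_
    rw [hS]
    calc (∑ a ∈ C, ‖f a - k‖ ^ 2 / a) * S ≤ (1 / 16 * S) * S := by gcongr
      _ = (1 / 4 * S) ^ 2 := by ring
  have h3 : ∑ a ∈ C, ‖f a - k‖ / a ≤ 1 / 4 * S :=
    (sq_le_sq₀ (sum_nonneg fun _ _ => by positivity) (by positivity)).mp h2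
  have h4 : ∑ a ∈ C, f a / a = k * ((S : ℝ) : ℂ) + ∑ a ∈ C, (f a - k) / a := by
    rw [← hS]
    push_cast
    rw [mul_sum, ← sum_add_distrib]
    refine sum_congr rfl fun a ha => ?_
    ring
  have h5 : ‖∑ a ∈ C, (f a - k) / a‖ ≤ 1 / 4 * S := by
    refine (norm_sum_le _ _).trans (le_trans (le_of_eq ?_) h3)
    refine sum_congr rfl fun a _ => ?_
    rw [norm_div, Complex.norm_natCast]
  have h6 : ‖k * ((S : ℝ) : ℂ)‖ = ‖k‖ * S := by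
    rw [norm_mul, Complex.norm_real, Real.norm_of_nonneg hS0]
  have h7 : ‖k * ((S : ℝ) : ℂ)‖ ≤ ‖∑ a ∈ C, f a / a‖ + ‖∑ a ∈ C, (f a - k) / a‖ := by
    have : k * ((S : ℝ) : ℂ) = ∑ a ∈ C, f a / a - ∑ a ∈ C, (f a - k) / a := by
      rw [h4]
      ring
    rw [this]
    exact norm_sub_le _ _
  rw [h6] at h7
  have h8 : 3 / 4 * S ≤ ‖k‖ * S := by gcongr
  linarith

end Pool.Agent.H78.PD

end
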