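import Pool.Agent.H94.PG.H78.PD.Pri
import Pool.Agent.H94.PG.M14
import Pool.Agent.H94.PG.M24
import Pool.Agent.H94.PG.M25

/-! The parts of this file: H78.PD.T3b_1, H78.PD.T3_1. -/

section

/-!
# PD, T3b: the two sums

`RC κ C m` : the upper bound for the number of rough numbers.
* `rough_block`: `∑ {1/b : b rough, X/16 < b ≤ X} ≤ (16/X) #{..} ≤ 16 C/log m` for `m^(1/4) ≤ X ≤ m` (`X` real; `⌊X⌋`).
* `t3_sum_b`: `∑_{x, x0, t} d(b)/(p b p0 b0 t) = ∑_b d(b)/b ∑_p 1/p ∑_{p0} 1/p0 ∑_{b0} 1/b0 ∑_t 1/t`: given `b`, `p ∈ (M1/(16b), M1/b]`: `∑_p 1/p ≤ C/log m` (`pri_up` with `X = M1/(16 b) ≥ m^(1/400)`, `R = 16`);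
  `∑_{p0 ∈ AP} 1/p0 ≤ 4`; given `p0`, `b0 ∈ (M1/(16p0), M1/p0]`, rough: `≤ 16 C/log m` (`M1/p0 ≥ m^(1/4)`); given `p, p0`: `∑_t 1/t ≤ C/log m` (`pri_up` with `X = M1/(p p0) ≥ m^(1/400)`, `R = A`).
* `t3_sum_t`: `∑_{x, x0, t} d(p0 t)/(p b p0 b0 t)`: given `p0, t`: `p ∈ (M1/(p0 t), A M1/(p0 t)]`: `≤ C/log m` (`p0 t ≤ A M1/p ≤ A m^(199/400) ≤ m^(399/800)`), then `∑_b 1/b ≤ 16 C/log m`, `∑_{b0} 1/b0 ≤ 16 C/log m`; `(p0, t) ↦ n = p0 t ∈ BR`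
  takes each value at most twice.  Same for `t3_sum_b0`, `t3_sum_pt` by the symmetry `x ↔ x0`.
-/

set_option autoImplicit false

namespace Pool.Agent.H78.PD

open Finset
open Pool.Agent.H34PG (lam lam_val lam_mul lam_prime)
open Pool.Agent.H11.LQ Pool.Agent.H78.PG

private theorem t3b_AP : ∃ C : ℝ, 0 < C ∧ ∃ m0 : ℕ, ∀ m : ℕ, m0 ≤ m → ∑ p ∈ AP m, 1 / (p : ℝ) ≤ C := by
  obtain ⟨m0, h⟩ := pri_mert (1 / 200) (23 / 100) 1 (by norm_num) (by norm_num) (by norm_num) one_pos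
  refine ⟨|Real.log ((23 / 100) / (1 / 200))| + 1, by positivity, m0, fun m hm => ?_⟩
  have h1 := abs_le.mp (h m hm)
  have h2 := le_abs_self (Real.log ((23 / 100) / (1 / 200)))
  unfold AP
  linarith only [h1, h2, h1.2]

private theorem t3b_pb : ∃ C : ℝ, 0 < C ∧ ∃ m0 : ℕ, ∀ m : ℕ, m0 ≤ m → ∀ b : ℕ, 1 ≤ b →
    ∑ p ∈ (AP m).filter (fun p => p * b ≤ M1 m ∧ M1 m < 16 * (p * b)), 1 / (p : ℝ) ≤ C / Real.log m := by
  obtain ⟨C, hC, m1, h1⟩ := pri_up (1 / 400) (by norm_num)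
  obtain ⟨m2, h2⟩ := t3b_pow (1 / 400) 16 (by norm_num)
  have hl16 : 0 < Real.log 16 := Real.log_pos (by norm_num)
  refine ⟨C * (1 + Real.log 16), by positivity, max (max m1 m2) 3, fun m hm b hb => ?_⟩
  have hm1 : m1 ≤ m := le_trans (le_trans (le_max_left _ _) (le_max_left _ _)) hm
  have hm2 : m2 ≤ m := le_trans (le_trans (le_max_right _ _) (le_max_left _ _)) hm
  have hm3 : 3 ≤ m := le_trans (le_max_right _ _) hm
  have hmR : (3 : ℝ) ≤ m := by exact_mod_cast hm3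
  have hm0 : (0 : ℝ) < m := by linarith only [hmR]
  have hL : 0 < Real.log m := Real.log_pos (by linarith only [hmR])
  have hb0 : (0 : ℝ) < b := by exact_mod_cast hb
  rcases ((AP m).filter (fun p => p * b ≤ M1 m ∧ M1 m < 16 * (p * b))).eq_empty_or_nonempty with he | ⟨p, hp⟩
  · rw [he, sum_empty]
    positivity
  obtain ⟨hp1, hp2, hp3⟩ := mem_filter.mp hp
  obtain ⟨hp4, hp5, hp6, hp7⟩ := t3b_mem_AP.mp hp1
  have e1 : (p : ℝ) * b ≤ M1 m := by exact_mod_cast hp2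
  have hX : (m : ℝ) ^ (1 / 400 : ℝ) ≤ (M1 m : ℝ) / (16 * b) := by
    rw [le_div_iff₀ (by positivity)]
    have e2 : (m : ℝ) ^ (1 / 200 : ℝ) = (m : ℝ) ^ (1 / 400 : ℝ) * (m : ℝ) ^ (1 / 400 : ℝ) := by
      rw [← Real.rpow_add hm0]
      norm_num
    have e3 : (16 : ℝ) * (m : ℝ) ^ (1 / 400 : ℝ) ≤ p := by
      have e4 := mul_le_mul_of_nonneg_right (h2 m hm2) (show (0 : ℝ) ≤ (m : ℝ) ^ (1 / 400 : ℝ) by positivity)
      linarith only [hp6, e2, e4]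
    have e5 := mul_le_mul_of_nonneg_right e3 hb0.le
    linarith only [e1, e5]
  refine le_trans ?_ (h1 m hm1 ((M1 m : ℝ) / (16 * b)) 16 hX (by norm_num))
  refine sum_le_sum_of_subset_of_nonneg ?_ fun _ _ _ => by positivity
  intro p' hp'
  obtain ⟨k1, k2, k3⟩ := mem_filter.mp hp'
  obtain ⟨k4, k5, k6, k7⟩ := t3b_mem_AP.mp k1
  have k2' : (p' : ℝ) * b ≤ M1 m := by exact_mod_cast k2
  have k3' : (M1 m : ℝ) < 16 * (p' * b) := by exact_mod_cast k3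
  rw [mem_PI (by positivity)]
  refine ⟨k4, k5, ?_, ?_⟩
  · rw [div_lt_iff₀ (by positivity)]
    linarith only [k3']
  · rw [show (16 : ℝ) * ((M1 m : ℝ) / (16 * b)) = M1 m / b by field_simp, le_div_iff₀ hb0]
    exact k2'

private theorem t3b_t (A : ℝ) (hA : 2 ≤ A) : ∃ C : ℝ, 0 < C ∧ ∃ m0 : ℕ, ∀ m : ℕ, m0 ≤ m → ∀ p ∈ AP m, ∀ p0 ∈ AP m,
    ∑ t ∈ Tt m A p p0, 1 / (t : ℝ) ≤ C / Real.log m := by
  obtain ⟨C, hC, m1, h1⟩ := pri_up (1 / 400) (by norm_num)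
  obtain ⟨m2, h2⟩ := t3b_X
  have hlA : 0 < Real.log A := Real.log_pos (by linarith)
  refine ⟨C * (1 + Real.log A), by positivity, max m1 m2, fun m hm p hp p0 hp0 => ?_⟩
  exact h1 m ((le_max_left _ _).trans hm) _ A (h2 m ((le_max_right _ _).trans hm) p hp p0 hp0) (by linarith only [hA])

private theorem t3b_pt (A : ℝ) (hA : 2 ≤ A) : ∃ C : ℝ, 0 < C ∧ ∃ m0 : ℕ, ∀ m : ℕ, m0 ≤ m → ∀ p0 t : ℕ, 1 ≤ p0 → 1 ≤ t →
    ∑ p ∈ (AP m).filter (fun p => t ∈ Tt m A p p0), 1 / (p : ℝ) ≤ C / Real.log m := by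
  obtain ⟨C, hC, m1, h1⟩ := pri_up (1 / 400) (by norm_num)
  obtain ⟨m2, h2⟩ := t3b_pow (1 / 400) A (by norm_num)
  have hlA : 0 < Real.log A := Real.log_pos (by linarith)
  have hA0 : 0 < A := by linarith only [hA]
  refine ⟨C * (1 + Real.log A), by positivity, max (max m1 m2) 3, fun m hm p0 t hp0 ht => ?_⟩
  have hm1 : m1 ≤ m := le_trans (le_trans (le_max_left _ _) (le_max_left _ _)) hm
  have hm2 : m2 ≤ m := le_trans (le_trans (le_max_right _ _) (le_max_left _ _)) hm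
  have hm3 : 3 ≤ m := le_trans (le_max_right _ _) hm
  have hmR : (3 : ℝ) ≤ m := by exact_mod_cast hm3
  have hm0 : (0 : ℝ) < m := by linarith only [hmR]
  have hL : 0 < Real.log m := Real.log_pos (by linarith only [hmR])
  have hp00 : (0 : ℝ) < p0 := by exact_mod_cast hp0
  have ht0 : (0 : ℝ) < t := by exact_mod_cast ht
  have hmem : ∀ p : ℕ, 0 < p → t ∈ Tt m A p p0 →
      (M1 m : ℝ) / (p0 * t) < p ∧ (p : ℝ) ≤ A * ((M1 m : ℝ) / (p0 * t)) := by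
    intro p hp htt
    have hp0' : (0 : ℝ) < p := by exact_mod_cast hp
    unfold Tt at htt
    obtain ⟨_, _, k3, k4⟩ := (mem_PI (by positivity)).mp htt
    constructor
    · rw [div_lt_iff₀ (by positivity)] at k3 ⊢
      linarith only [k3]
    · have e1 : A * ((M1 m : ℝ) / (p * p0)) = (A * M1 m) / (p * p0) := by ring
      have e2 : A * ((M1 m : ℝ) / (p0 * t)) = (A * M1 m) / (p0 * t) := by ring
      rw [e1, le_div_iff₀ (by positivity)] at k4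
      rw [e2, le_div_iff₀ (by positivity)]
      linarith only [k4]
  rcases ((AP m).filter (fun p => t ∈ Tt m A p p0)).eq_empty_or_nonempty with he | ⟨p, hp⟩
  · rw [he, sum_empty]
    positivity
  obtain ⟨hp1, hp2⟩ := mem_filter.mp hp
  obtain ⟨hp4, hp5, hp6, hp7⟩ := t3b_mem_AP.mp hp1
  have hX : (m : ℝ) ^ (1 / 400 : ℝ) ≤ (M1 m : ℝ) / (p0 * t) := by
    have e1 := (hmem p hp4.pos hp2).2
    have e2 : (m : ℝ) ^ (1 / 200 : ℝ) = (m : ℝ) ^ (1 / 400 : ℝ) * (m : ℝ) ^ (1 / 400 : ℝ) := by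
      rw [← Real.rpow_add hm0]
      norm_num
    have e4 := mul_le_mul_of_nonneg_right (h2 m hm2) (show (0 : ℝ) ≤ (m : ℝ) ^ (1 / 400 : ℝ) by positivity)
    have e5 : A * (m : ℝ) ^ (1 / 400 : ℝ) ≤ A * ((M1 m : ℝ) / (p0 * t)) := by linarith only [hp6, e1, e2, e4]
    exact le_of_mul_le_mul_left e5 hA0
  refine le_trans ?_ (h1 m hm1 ((M1 m : ℝ) / (p0 * t)) A hX (by linarith only [hA]))
  refine sum_le_sum_of_subset_of_nonneg ?_ fun _ _ _ => by positivity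
  intro p' hp'
  obtain ⟨k1, k2⟩ := mem_filter.mp hp'
  obtain ⟨k4, k5, k6, k7⟩ := t3b_mem_AP.mp k1
  rw [mem_PI (by positivity)]
  exact ⟨k4, k5, hmem p' k4.pos k2⟩

theorem t3_sum_b (κ A C1 : ℝ) (hκ : 0 < κ) (hκ1 : κ ≤ 1 / 1000) (hA : 2 ≤ A) (hC1 : 0 < C1) :
    ∃ C : ℝ, 0 < C ∧ ∃ m0 : ℕ, ∀ m : ℕ, m0 ≤ m → RC κ C1 m → ∀ d : ℕ → ℝ, (∀ n, 0 ≤ d n) →
    ∑ x ∈ PB κ m, ∑ x0 ∈ PB κ m, ∑ t ∈ Tt m A x.1 x0.1,
      d x.2 / ((x.1 : ℝ) * x.2 * (x0.1 * x0.2) * t)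
      ≤ C / Real.log m ^ 3 * ∑ n ∈ BR κ m, d n / n := by
  obtain ⟨Ct, hCt, m1, h1⟩ := t3b_t A hA
  obtain ⟨Ca, hCa, m2, h2⟩ := t3b_AP
  obtain ⟨Cb, hCb, m3, h3⟩ := t3b_pb
  obtain ⟨m4, h4⟩ := t3b_b κ C1 hC1
  refine ⟨Cb * ((Ca * (16 * C1)) * Ct), by positivity, max (max (max m1 m2) (max m3 m4)) 3, fun m hm hRC d hd => ?_⟩
  have hm3 : 3 ≤ m := le_trans (le_max_right _ _) hm
  have hmax : max (max m1 m2) (max m3 m4) ≤ m := le_trans (le_max_left _ _) hm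
  have hm1 : m1 ≤ m := le_trans (le_trans (le_max_left _ _) (le_max_left _ _)) hmax
  have hm2 : m2 ≤ m := le_trans (le_trans (le_max_right _ _) (le_max_left _ _)) hmax
  have hm3' : m3 ≤ m := le_trans (le_trans (le_max_left _ _) (le_max_right _ _)) hmax
  have hm4 : m4 ≤ m := le_trans (le_trans (le_max_right _ _) (le_max_right _ _)) hmax
  have hmR : (3 : ℝ) ≤ m := by exact_mod_cast hm3
  have hL : 0 < Real.log m := Real.log_pos (by linarith only [hκ, hκ1, hmR])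
  obtain ⟨L, hLd⟩ : ∃ L, L = Real.log m := ⟨_, rfl⟩
  rw [← hLd] at hL ⊢
  -- the sum over `x0`
  have hx0 : ∑ x0 ∈ PB κ m, 1 / ((x0.1 : ℝ) * x0.2) ≤ Ca * (16 * C1 / L) := by
    rw [t3b_PB κ m fun p b => 1 / ((p : ℝ) * b)]
    have e1 : ∀ p ∈ AP m, ∑ b ∈ (BR κ m).filter (fun b => p * b ≤ M1 m ∧ M1 m < 16 * (p * b)), 1 / ((p : ℝ) * b) ≤
        (1 / (p : ℝ)) * (16 * C1 / L) := by
      intro p hp
      have e2 := h4 m hm4 hRC p hp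
      rw [← hLd] at e2
      have e3 : ∑ b ∈ (BR κ m).filter (fun b => p * b ≤ M1 m ∧ M1 m < 16 * (p * b)), 1 / ((p : ℝ) * b) =
          (1 / (p : ℝ)) * ∑ b ∈ (BR κ m).filter (fun b => p * b ≤ M1 m ∧ M1 m < 16 * (p * b)), 1 / (b : ℝ) := by
        rw [mul_sum]
        exact sum_congr rfl fun b _ => by rw [div_mul_div_comm, one_mul]
      rw [e3]
      exact mul_le_mul_of_nonneg_left e2 (by positivity)
    refine (sum_le_sum e1).trans ?_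
    rw [← sum_mul]
    exact mul_le_mul_of_nonneg_right (h2 m hm2) (by positivity)
  -- the sums over `x0` and `t`
  have hin : ∀ x ∈ PB κ m, ∑ x0 ∈ PB κ m, ∑ t ∈ Tt m A x.1 x0.1, d x.2 / ((x.1 : ℝ) * x.2 * (x0.1 * x0.2) * t) ≤
      (d x.2 / ((x.1 : ℝ) * x.2)) * ((Ca * (16 * C1 / L)) * (Ct / L)) := by
    intro x hx
    have hxAP : x.1 ∈ AP m := (mem_product.mp (mem_filter.mp hx).1).1
    have e0 : 0 ≤ d x.2 / ((x.1 : ℝ) * x.2) := div_nonneg (hd _) (by positivity)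
    have e1 : ∀ x0 ∈ PB κ m, ∑ t ∈ Tt m A x.1 x0.1, d x.2 / ((x.1 : ℝ) * x.2 * (x0.1 * x0.2) * t) ≤
        (d x.2 / ((x.1 : ℝ) * x.2)) * (1 / ((x0.1 : ℝ) * x0.2) * (Ct / L)) := by
      intro x0 hx0'
      have hx0AP : x0.1 ∈ AP m := (mem_product.mp (mem_filter.mp hx0').1).1
      have e2 := h1 m hm1 x.1 hxAP x0.1 hx0AP
      rw [← hLd] at e2
      have e3 : ∑ t ∈ Tt m A x.1 x0.1, d x.2 / ((x.1 : ℝ) * x.2 * (x0.1 * x0.2) * t) =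
          (d x.2 / ((x.1 : ℝ) * x.2)) * (1 / ((x0.1 : ℝ) * x0.2) * ∑ t ∈ Tt m A x.1 x0.1, 1 / (t : ℝ)) := by
        rw [mul_sum, mul_sum]
        refine sum_congr rfl fun t _ => ?_
        rw [div_mul_div_comm, div_mul_div_comm]
        ring_nf
      rw [e3]
      exact mul_le_mul_of_nonneg_left (mul_le_mul_of_nonneg_left e2 (by positivity)) e0
    refine (sum_le_sum e1).trans ?_
    rw [← mul_sum, ← sum_mul]
    exact mul_le_mul_of_nonneg_left (mul_le_mul_of_nonneg_right hx0 (by positivity)) e0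
  refine (sum_le_sum hin).trans ?_
  rw [← sum_mul]
  have hx : ∑ x ∈ PB κ m, d x.2 / ((x.1 : ℝ) * x.2) ≤ (Cb / L) * ∑ n ∈ BR κ m, d n / n := by
    rw [t3b_PB' κ m fun p b => d b / ((p : ℝ) * b), mul_sum]
    refine sum_le_sum fun b hb => ?_
    have hb1 := (mem_BR.mp hb).1
    have e2 := h3 m hm3' b hb1
    rw [← hLd] at e2
    have e3 : ∑ p ∈ (AP m).filter (fun p => p * b ≤ M1 m ∧ M1 m < 16 * (p * b)), d b / ((p : ℝ) * b) =
        (∑ p ∈ (AP m).filter (fun p => p * b ≤ M1 m ∧ M1 m < 16 * (p * b)), 1 / (p : ℝ)) * (d b / b) := by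
      rw [sum_mul]
      refine sum_congr rfl fun p _ => ?_
      rw [div_mul_div_comm, one_mul]
    rw [e3]
    exact mul_le_mul_of_nonneg_right e2 (div_nonneg (hd _) (by positivity))
  refine (mul_le_mul_of_nonneg_right hx (by positivity)).trans (le_of_eq ?_)
  field_simp

theorem t3_sum_t (κ A C1 : ℝ) (hκ : 0 < κ) (hκ1 : κ ≤ 1 / 1000) (hA : 2 ≤ A) (hC1 : 0 < C1) :
    ∃ C : ℝ, 0 < C ∧ ∃ m0 : ℕ, ∀ m : ℕ, m0 ≤ m → RC κ C1 m → ∀ d : ℕ → ℝ, (∀ n, 0 ≤ d n) →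
    ∑ x ∈ PB κ m, ∑ x0 ∈ PB κ m, ∑ t ∈ Tt m A x.1 x0.1,
      d (x0.1 * t) / ((x.1 : ℝ) * x.2 * (x0.1 * x0.2) * t)
      ≤ C / Real.log m ^ 3 * ∑ n ∈ BR κ m, d n / n := by
  obtain ⟨Cp, hCp, m1, h1⟩ := t3b_pt A hA
  obtain ⟨m2, h2⟩ := t3b_mem κ A hκ1 hA
  obtain ⟨m4, h4⟩ := t3b_b κ C1 hC1
  refine ⟨(16 * C1) * (16 * C1) * (Cp * 2), by positivity, max (max m1 (max m2 m4)) 3, fun m hm hRC d hd => ?_⟩
  have hm3 : 3 ≤ m := le_trans (le_max_right _ _) hm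
  have hmax : max m1 (max m2 m4) ≤ m := le_trans (le_max_left _ _) hm
  have hm1 : m1 ≤ m := le_trans (le_max_left _ _) hmax
  have hm2 : m2 ≤ m := le_trans (le_trans (le_max_left _ _) (le_max_right _ _)) hmax
  have hm4 : m4 ≤ m := le_trans (le_trans (le_max_right _ _) (le_max_right _ _)) hmax
  have hmR : (3 : ℝ) ≤ m := by exact_mod_cast hm3
  have hL : 0 < Real.log m := Real.log_pos (by linarith only [hκ, hκ1, hmR])
  obtain ⟨L, hLd⟩ : ∃ L, L = Real.log m := ⟨_, rfl⟩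
  rw [← hLd] at hL ⊢
  obtain ⟨S, hSd⟩ : ∃ S : ℕ → ℕ → ℝ, S = fun p p0 => ∑ t ∈ Tt m A p p0, d (p0 * t) / ((p : ℝ) * (p0 * t)) := ⟨_, rfl⟩
  have hS0 : ∀ p p0, 0 ≤ S p p0 := by
    intro p p0
    rw [hSd]
    exact sum_nonneg fun t _ => div_nonneg (hd _) (by positivity)
  have hb : ∀ p ∈ AP m, ∑ b ∈ (BR κ m).filter (fun b => p * b ≤ M1 m ∧ M1 m < 16 * (p * b)), 1 / (b : ℝ) ≤ 16 * C1 / L := by
    intro p hp
    have := h4 m hm4 hRC p hp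
    rwa [← hLd] at this
  -- separate the variables
  have hsep : ∑ x ∈ PB κ m, ∑ x0 ∈ PB κ m, ∑ t ∈ Tt m A x.1 x0.1,
      d (x0.1 * t) / ((x.1 : ℝ) * x.2 * (x0.1 * x0.2) * t) =
      ∑ p ∈ AP m, ∑ p0 ∈ AP m, (∑ b ∈ (BR κ m).filter (fun b => p * b ≤ M1 m ∧ M1 m < 16 * (p * b)), 1 / (b : ℝ)) *
        ((∑ b ∈ (BR κ m).filter (fun b => p0 * b ≤ M1 m ∧ M1 m < 16 * (p0 * b)), 1 / (b : ℝ)) * S p p0) := by
    have e1 : ∀ x ∈ PB κ m, ∑ x0 ∈ PB κ m, ∑ t ∈ Tt m A x.1 x0.1,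
        d (x0.1 * t) / ((x.1 : ℝ) * x.2 * (x0.1 * x0.2) * t) =
        (1 / (x.2 : ℝ)) * ∑ p0 ∈ AP m,
          (∑ b ∈ (BR κ m).filter (fun b => p0 * b ≤ M1 m ∧ M1 m < 16 * (p0 * b)), 1 / (b : ℝ)) * S x.1 p0 := by
      intro x _
      have e2 : ∀ x0 ∈ PB κ m, ∑ t ∈ Tt m A x.1 x0.1, d (x0.1 * t) / ((x.1 : ℝ) * x.2 * (x0.1 * x0.2) * t) =
          (1 / (x.2 : ℝ)) * (1 / (x0.2 : ℝ) * S x.1 x0.1) := by
        intro x0 _
        rw [hSd]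
        simp only
        rw [mul_sum, mul_sum]
        refine sum_congr rfl fun t _ => ?_
        rw [div_mul_div_comm, div_mul_div_comm]
        ring_nf
      rw [sum_congr rfl e2, ← mul_sum, t3b_PB κ m fun p b => 1 / (b : ℝ) * S x.1 p]
      congr 1
      exact sum_congr rfl fun p0 _ => by rw [sum_mul]
    rw [sum_congr rfl e1, t3b_PB κ m fun p b => (1 / (b : ℝ)) * ∑ p0 ∈ AP m,
          (∑ b ∈ (BR κ m).filter (fun b => p0 * b ≤ M1 m ∧ M1 m < 16 * (p0 * b)), 1 / (b : ℝ)) * S p p0]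
    refine sum_congr rfl fun p _ => ?_
    rw [← sum_mul, mul_sum]
  rw [hsep]
  have hstep : ∑ p ∈ AP m, ∑ p0 ∈ AP m, (∑ b ∈ (BR κ m).filter (fun b => p * b ≤ M1 m ∧ M1 m < 16 * (p * b)), 1 / (b : ℝ)) *
        ((∑ b ∈ (BR κ m).filter (fun b => p0 * b ≤ M1 m ∧ M1 m < 16 * (p0 * b)), 1 / (b : ℝ)) * S p p0) ≤
      (16 * C1 / L) * (16 * C1 / L) * ∑ p ∈ AP m, ∑ p0 ∈ AP m, S p p0 := by
    rw [mul_sum]
    refine sum_le_sum fun p hp => ?_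
    rw [mul_sum]
    refine sum_le_sum fun p0 hp0 => ?_
    have e1 : 0 ≤ ∑ b ∈ (BR κ m).filter (fun b => p0 * b ≤ M1 m ∧ M1 m < 16 * (p0 * b)), 1 / (b : ℝ) :=
      sum_nonneg fun _ _ => by positivity
    rw [mul_assoc]
    refine mul_le_mul (hb p hp) (mul_le_mul_of_nonneg_right (hb p0 hp0) (hS0 _ _)) (mul_nonneg e1 (hS0 _ _)) (by positivity)
  refine hstep.trans ?_
  -- the sum over `p`
  have hmain : ∑ p ∈ AP m, ∑ p0 ∈ AP m, S p p0 ≤ (Cp / L) * (2 * ∑ n ∈ BR κ m, d n / n) := by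
    obtain ⟨U, hUd⟩ : ∃ U, U = Icc 1 ⌊(m : ℝ) ^ (399 / 800 : ℝ)⌋₊ := ⟨_, rfl⟩
    obtain ⟨g, hgd⟩ : ∃ g : ℕ → ℝ, g = fun n => d n / n := ⟨_, rfl⟩
    have hg0 : ∀ n, 0 ≤ g n := by
      intro n
      rw [hgd]
      exact div_nonneg (hd _) (by positivity)
    have e1 : ∀ p ∈ AP m, ∀ p0 ∈ AP m, S p p0 = ∑ t ∈ U, if t ∈ Tt m A p p0 then
        (if t.Prime ∧ p0 * t ∈ BR κ m then (1 / (p : ℝ)) * g (p0 * t) else 0) else 0 := by
      intro p hp p0 hp0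
      rw [← sum_filter, hSd]
      simp only
      have e2 : U.filter (fun t => t ∈ Tt m A p p0) = Tt m A p p0 := by
        ext t
        rw [mem_filter]
        refine ⟨fun h => h.2, fun h => ⟨?_, h⟩⟩
        rw [hUd]
        exact (h2 m hm2 p hp p0 hp0 t h).2.1
      rw [e2]
      refine sum_congr rfl fun t ht => ?_
      have e3 := h2 m hm2 p hp p0 hp0 t ht
      rw [if_pos ⟨e3.1, e3.2.2⟩, hgd]
      simp only
      rw [div_mul_div_comm, one_mul]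
      push_cast
      rfl
    have e4 : ∑ p ∈ AP m, ∑ p0 ∈ AP m, S p p0 = ∑ p0 ∈ AP m, ∑ t ∈ U,
        if t.Prime ∧ p0 * t ∈ BR κ m then (∑ p ∈ (AP m).filter (fun p => t ∈ Tt m A p p0), 1 / (p : ℝ)) * g (p0 * t) else 0 := by
      rw [sum_congr rfl fun p hp => sum_congr rfl fun p0 hp0 => e1 p hp p0 hp0, sum_comm]
      refine sum_congr rfl fun p0 _ => ?_
      rw [sum_comm]
      refine sum_congr rfl fun t _ => ?_
      rw [← sum_filter]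
      split_ifs with hc
      · rw [sum_mul]
      · exact sum_const_zero
    rw [e4]
    have e5 : ∀ p0 ∈ AP m, ∀ t ∈ U, (if t.Prime ∧ p0 * t ∈ BR κ m then
        (∑ p ∈ (AP m).filter (fun p => t ∈ Tt m A p p0), 1 / (p : ℝ)) * g (p0 * t) else 0) ≤
        (Cp / L) * (if t.Prime ∧ p0 * t ∈ BR κ m then g (p0 * t) else 0) := by
      intro p0 hp0 t ht
      rw [hUd] at ht
      split_ifs with hc
      · have e6 := h1 m hm1 p0 t (t3b_mem_AP.mp hp0).1.one_lt.le (mem_Icc.mp ht).1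
        rw [← hLd] at e6
        exact mul_le_mul_of_nonneg_right e6 (hg0 _)
      · rw [mul_zero]
    refine (sum_le_sum fun p0 hp0 => sum_le_sum fun t ht => e5 p0 hp0 t ht).trans ?_
    have e7 : ∑ p0 ∈ AP m, ∑ t ∈ U, (Cp / L) * (if t.Prime ∧ p0 * t ∈ BR κ m then g (p0 * t) else 0) =
        (Cp / L) * ∑ y ∈ (AP m ×ˢ U).filter (fun y => y.2.Prime ∧ y.1 * y.2 ∈ BR κ m), g (y.1 * y.2) := by
      rw [sum_filter, sum_product, mul_sum]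
      exact sum_congr rfl fun p0 _ => by rw [mul_sum]
    rw [e7]
    refine mul_le_mul_of_nonneg_left ?_ (by positivity)
    have e8 := t3b_two (AP m) U (BR κ m) (fun p hp => (t3b_mem_AP.mp hp).1) g hg0
    rw [hgd] at e8 ⊢
    exact e8
  refine (mul_le_mul_of_nonneg_left hmain (by positivity)).trans (le_of_eq ?_)
  field_simp

end Pool.Agent.H78.PD

end

section

/-!
# PD, T3: the vectors of the rough numbers are nearly constant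

`A`, `c` from `pri_low`; `D = ∑_{BR} dn n/n ≤ τ wout` (`delta`); `∑_{t ∈ Tt} 1/t ≥ c/log m` (`M1/(p p0) ≥ m^(1/25)/2 ≥ m^(1/200)`).
`(c/L) ∑_{x, x0} Nrm/(p b p0 b0) ≤ ∑_{x, x0, t} Nrm/(p b p0 b0 t) ≤ 128 A ∑ (dn b + dn(p0 t) + dn(p t) + dn b0)/(p b p0 b0 t) ≤ 128 A · 4 · (C/L³) D` (`t3_tuple`, `t3_sum_b`, `t3_sum_t`, and for the last two terms the symmetry
`x ↔ x0`: `Tt m A p p0 = Tt m A p0 p`, swap the sums).  `∑_{x0} 1/(p0 b0) ≥ ∑_{n ∈ RR} 1/n ≥ c1/L` (every `n ∈ RR` is `p b`, `(p, b) ∈ PB`: `b = n/p ≤ m^(199/400)`); so there is `x0` with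
`∑_x Nrm(vv(pb) - vv(p0b0))/(p b) ≤ C' D/L`, and `∑_{n ∈ RR} (1/n) Nrm(vv n - vv n0) ≤` this sum; `n ≤ M1`.
-/

set_option autoImplicit false

namespace Pool.Agent.H78.PD

open Finset
open Pool.Agent.H34PG (lam lam_val lam_mul lam_prime)
open Pool.Agent.H11.LQ Pool.Agent.H78.PG

theorem t3 (κ c1 C1 : ℝ) (hκ : 0 < κ) (hκ1 : κ ≤ 1 / 1000) (hc1 : 0 < c1) (hC1 : 0 < C1) :
    ∃ C : ℝ, 0 < C ∧ ∃ m0 : ℕ, ∀ (m : ℕ) [NeZero m], m0 ≤ m → RC κ C1 m →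
    c1 * M1 m / Real.log m ≤ ((RR κ m).card : ℝ) → ∀ η : ℤ, (η = 1 ∨ η = -1) →
    ∀ U : Finset (DirichletCharacter ℂ m), (U.card : ℝ) ≤ (m : ℝ) ^ (1 / 2000 : ℝ) →
    ∃ n0 : ℕ, 1 ≤ n0 ∧ n0.Coprime m ∧
      ∑ n ∈ RR κ m, Nrm m η U (fun χ => vv m χ n - vv m χ n0)
        ≤ C * wout m η U * M1 m / Real.log m := by
  obtain ⟨A, c, hA, hc, hlow⟩ := pri_low
  obtain ⟨mA, hlow⟩ := hlow (1 / 200) (by norm_num)
  obtain ⟨τ, hτ, hdel⟩ := delta κ hκ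
  obtain ⟨Cb, hCb, mb, hb⟩ := t3_sum_b κ A C1 hκ hκ1 hA hC1
  obtain ⟨Ct, hCt, mt, ht⟩ := t3_sum_t κ A C1 hκ hκ1 hA hC1
  obtain ⟨mu, htup⟩ := t3_tuple κ A hκ hκ1 hA
  have hA0 : 0 < A := by linarith
  refine ⟨128 * A * (2 * Cb + 2 * Ct) * τ / c / c1, by positivity,
    mA + mb + mt + mu + 2 ^ 27, ?_⟩
  intro m _ hm hRC hcard η hη U hU
  have hm27 : 2 ^ 27 ≤ m := by omega
  have hm1 : 1 ≤ m := le_trans (by norm_num) hm27
  have hm3 : 3 ≤ m := le_trans (by norm_num) hm27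
  have hmr : (3 : ℝ) ≤ m := by exact_mod_cast hm3
  have hL : 0 < Real.log m := Real.log_pos (by linarith)
  obtain ⟨L, hLdef⟩ : ∃ L : ℝ, L = Real.log m := ⟨_, rfl⟩
  rw [← hLdef] at hL hcard ⊢
  obtain ⟨W, hW⟩ : ∃ W : ℝ, W = wout m η U := ⟨_, rfl⟩
  have hW0 : 0 ≤ W := hW ▸ wout_nonneg m η U
  obtain ⟨N, hN⟩ : ∃ N : ℕ × ℕ → ℕ × ℕ → ℝ, N = fun x x0 =>
    Nrm m η U (fun χ => vv m χ (x.1 * x.2) - vv m χ (x0.1 * x0.2)) := ⟨_, rfl⟩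
  obtain ⟨d, hd⟩ : ∃ d : ℕ → ℝ, d = fun n => dn m η U n := ⟨_, rfl⟩
  have hd0 : ∀ n, 0 ≤ d n := fun n => by rw [hd]; exact T3_dn_nonneg m η U n
  have hN0 : ∀ x x0, 0 ≤ N x x0 := fun x x0 => by rw [hN]; exact T3_Nrm_nonneg m η U _
  have hD : ∑ n ∈ BR κ m, d n / n ≤ τ * W := by
    rw [hd, hW]
    exact hdel m hm3 η hη U
  have hD0 : 0 ≤ ∑ n ∈ BR κ m, d n / n := sum_nonneg fun n _ => div_nonneg (hd0 n) (by positivity)
  have hM10 : 0 < (M1 m : ℝ) := by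
    have := T3_M1_ge m hm1
    have h2 : 0 < (m : ℝ) ^ (201 / 400 : ℝ) := Real.rpow_pos_of_pos (by linarith) _
    linarith
  -- positivity of the elements of `PB`
  have hpos : ∀ x ∈ PB κ m, (0 : ℝ) < x.1 ∧ (0 : ℝ) < x.2 := by
    intro x hx
    rw [T3_mem_PB] at hx
    refine ⟨?_, ?_⟩
    · exact_mod_cast (T3_AP hx.1.1).1.pos
    · have := (mem_BR.mp hx.1.2).1
      exact_mod_cast this
  -- the sum over all tuples
  have key : ∑ x ∈ PB κ m, ∑ x0 ∈ PB κ m, ∑ t ∈ Tt m A x.1 x0.1,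
      N x x0 / ((x.1 : ℝ) * x.2 * (x0.1 * x0.2) * t)
      ≤ 128 * A * ((2 * Cb + 2 * Ct) / L ^ 3 * (τ * W)) := by
    have e1 := hb m (by omega) hRC d hd0
    have e2 := ht m (by omega) hRC d hd0
    rw [← hLdef] at e1 e2
    have e3 : ∑ x ∈ PB κ m, ∑ x0 ∈ PB κ m, ∑ t ∈ Tt m A x.1 x0.1,
        d x0.2 / ((x.1 : ℝ) * x.2 * (x0.1 * x0.2) * t)
        ≤ Cb / L ^ 3 * ∑ n ∈ BR κ m, d n / n := by
      refine le_trans (le_of_eq ?_) e1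
      rw [sum_comm]
      refine sum_congr rfl fun x _ => sum_congr rfl fun x0 _ => ?_
      rw [T3_Tt_symm]
      refine sum_congr rfl fun t _ => ?_
      congr 1
      ring
    have e4 : ∑ x ∈ PB κ m, ∑ x0 ∈ PB κ m, ∑ t ∈ Tt m A x.1 x0.1,
        d (x.1 * t) / ((x.1 : ℝ) * x.2 * (x0.1 * x0.2) * t)
        ≤ Ct / L ^ 3 * ∑ n ∈ BR κ m, d n / n := by
      refine le_trans (le_of_eq ?_) e2
      rw [sum_comm]
      refine sum_congr rfl fun x _ => sum_congr rfl fun x0 _ => ?_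
      rw [T3_Tt_symm]
      refine sum_congr rfl fun t _ => ?_
      congr 1
      ring
    have e5 : ∑ x ∈ PB κ m, ∑ x0 ∈ PB κ m, ∑ t ∈ Tt m A x.1 x0.1,
        N x x0 / ((x.1 : ℝ) * x.2 * (x0.1 * x0.2) * t)
        ≤ ∑ x ∈ PB κ m, ∑ x0 ∈ PB κ m, ∑ t ∈ Tt m A x.1 x0.1,
          128 * A * (d x.2 / ((x.1 : ℝ) * x.2 * (x0.1 * x0.2) * t)
            + d (x0.1 * t) / ((x.1 : ℝ) * x.2 * (x0.1 * x0.2) * t)
            + d (x.1 * t) / ((x.1 : ℝ) * x.2 * (x0.1 * x0.2) * t)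
            + d x0.2 / ((x.1 : ℝ) * x.2 * (x0.1 * x0.2) * t)) := by
      refine sum_le_sum fun x hx => sum_le_sum fun x0 hx0 => sum_le_sum fun t htt => ?_
      have h1 := htup m (by omega) η hη U hU x hx x0 hx0 t htt
      rw [← add_div, ← add_div, ← add_div, ← mul_div_assoc]
      refine div_le_div_of_nonneg_right ?_ (by positivity)
      rw [hN, hd]
      exact h1
    refine le_trans e5 ?_
    have e6 : ∑ x ∈ PB κ m, ∑ x0 ∈ PB κ m, ∑ t ∈ Tt m A x.1 x0.1,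
          128 * A * (d x.2 / ((x.1 : ℝ) * x.2 * (x0.1 * x0.2) * t)
            + d (x0.1 * t) / ((x.1 : ℝ) * x.2 * (x0.1 * x0.2) * t)
            + d (x.1 * t) / ((x.1 : ℝ) * x.2 * (x0.1 * x0.2) * t)
            + d x0.2 / ((x.1 : ℝ) * x.2 * (x0.1 * x0.2) * t))
        = 128 * A * (∑ x ∈ PB κ m, ∑ x0 ∈ PB κ m, ∑ t ∈ Tt m A x.1 x0.1,
            d x.2 / ((x.1 : ℝ) * x.2 * (x0.1 * x0.2) * t)
          + ∑ x ∈ PB κ m, ∑ x0 ∈ PB κ m, ∑ t ∈ Tt m A x.1 x0.1,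
            d (x0.1 * t) / ((x.1 : ℝ) * x.2 * (x0.1 * x0.2) * t)
          + ∑ x ∈ PB κ m, ∑ x0 ∈ PB κ m, ∑ t ∈ Tt m A x.1 x0.1,
            d (x.1 * t) / ((x.1 : ℝ) * x.2 * (x0.1 * x0.2) * t)
          + ∑ x ∈ PB κ m, ∑ x0 ∈ PB κ m, ∑ t ∈ Tt m A x.1 x0.1,
            d x0.2 / ((x.1 : ℝ) * x.2 * (x0.1 * x0.2) * t)) := by
      simp only [← sum_add_distrib, mul_sum]
    rw [e6]
    refine mul_le_mul_of_nonneg_left ?_ (by positivity)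
    have hcb : 0 ≤ Cb / L ^ 3 := by positivity
    have hct : 0 ≤ Ct / L ^ 3 := by positivity
    have f1 := mul_le_mul_of_nonneg_left hD hcb
    have f2 := mul_le_mul_of_nonneg_left hD hct
    have f3 : (2 * Cb + 2 * Ct) / L ^ 3 * (τ * W)
        = 2 * (Cb / L ^ 3 * (τ * W)) + 2 * (Ct / L ^ 3 * (τ * W)) := by ring
    rw [f3]
    linarith
  -- the sum over the pairs
  have key2 : c / L * ∑ x ∈ PB κ m, ∑ x0 ∈ PB κ m, N x x0 / ((x.1 : ℝ) * x.2 * (x0.1 * x0.2))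
      ≤ 128 * A * ((2 * Cb + 2 * Ct) / L ^ 3 * (τ * W)) := by
    refine le_trans ?_ key
    rw [mul_sum]
    refine sum_le_sum fun x hx => ?_
    rw [mul_sum]
    refine sum_le_sum fun x0 hx0 => ?_
    have hx' := (T3_mem_PB.mp hx).1.1
    have hx0' := (T3_mem_PB.mp hx0).1.1
    obtain ⟨g1, g2⟩ := T3_X m hm27 hx' hx0'
    have g3 := hlow m (by omega) _ g1 g2
    rw [← hLdef] at g3
    have g4 : c / L ≤ ∑ t ∈ Tt m A x.1 x0.1, 1 / (t : ℝ) := g3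
    have g5 : ∑ t ∈ Tt m A x.1 x0.1, N x x0 / ((x.1 : ℝ) * x.2 * (x0.1 * x0.2) * t)
        = (∑ t ∈ Tt m A x.1 x0.1, 1 / (t : ℝ)) * (N x x0 / ((x.1 : ℝ) * x.2 * (x0.1 * x0.2))) := by
      rw [sum_mul]
      refine sum_congr rfl fun t _ => ?_
      rw [div_mul_div_comm, one_mul, mul_comm (t : ℝ)]
    rw [g5]
    exact mul_le_mul_of_nonneg_right g4 (div_nonneg (hN0 _ _) (by positivity))
  have key3 : ∑ x ∈ PB κ m, ∑ x0 ∈ PB κ m, N x x0 / ((x.1 : ℝ) * x.2 * (x0.1 * x0.2))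
      ≤ 128 * A * (2 * Cb + 2 * Ct) * τ / c * W / L ^ 2 := by
    have hcL : 0 < c / L := by positivity
    refine le_of_mul_le_mul_left (le_trans key2 (le_of_eq ?_)) hcL
    field_simp
  -- the weights
  have hwt : c1 / L ≤ ∑ x0 ∈ PB κ m, 1 / ((x0.1 : ℝ) * x0.2) := by
    have h1 : ∑ n ∈ RR κ m, 1 / (n : ℝ) ≤ ∑ x ∈ PB κ m, 1 / (((x.1 * x.2 : ℕ)) : ℝ) :=
      T3_sum_le κ m hm1 (fun n => 1 / (n : ℝ)) fun n => by positivity
    have h2 : ∑ n ∈ RR κ m, 1 / (M1 m : ℝ) ≤ ∑ n ∈ RR κ m, 1 / (n : ℝ) := by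
      refine sum_le_sum fun n hn => ?_
      rw [mem_RR] at hn
      have h3 : (1 : ℝ) ≤ n := by exact_mod_cast hn.1
      have h4 : (n : ℝ) ≤ M1 m := by exact_mod_cast hn.2.1
      exact one_div_le_one_div_of_le (by linarith) h4
    rw [sum_const, nsmul_eq_mul] at h2
    have h5 : c1 / L ≤ ((RR κ m).card : ℝ) * (1 / (M1 m : ℝ)) := by
      rw [mul_one_div, le_div_iff₀ hM10]
      refine le_trans (le_of_eq ?_) hcard
      ring
    push_cast at h1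
    linarith
  -- the choice of `x0`
  obtain ⟨S, hS⟩ : ∃ S : ℕ × ℕ → ℝ, S = fun x0 => ∑ x ∈ PB κ m, N x x0 / ((x.1 : ℝ) * x.2) :=
    ⟨_, rfl⟩
  have hsum : ∑ x0 ∈ PB κ m, 1 / ((x0.1 : ℝ) * x0.2) * S x0
      ≤ 128 * A * (2 * Cb + 2 * Ct) * τ / c * W / L ^ 2 := by
    refine le_trans (le_of_eq ?_) key3
    rw [sum_comm]
    refine sum_congr rfl fun x0 _ => ?_
    rw [hS, mul_sum]
    refine sum_congr rfl fun x _ => ?_
    rw [div_mul_div_comm, one_mul, mul_comm ((x0.1 : ℝ) * x0.2)]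
  obtain ⟨x0, hx0, hx0S⟩ := T3_pigeon (PB κ m) (fun x0 => 1 / ((x0.1 : ℝ) * x0.2)) S
    (fun x hx => by
      obtain ⟨h1, h2⟩ := hpos x hx
      positivity) (a := c1 / L) (by positivity) hwt (by positivity) hsum
  have hx0' := T3_mem_PB.mp hx0
  have hp0 := T3_AP hx0'.1.1
  have hb0 := mem_BR.mp hx0'.1.2
  refine ⟨x0.1 * x0.2, Nat.mul_pos hp0.1.pos hb0.1, ?_, ?_⟩
  · exact Nat.Coprime.mul_left ((Nat.Prime.coprime_iff_not_dvd hp0.1).mpr hp0.2.1) hb0.2.2.1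
  · have h1 : ∑ n ∈ RR κ m, Nrm m η U (fun χ => vv m χ n - vv m χ (x0.1 * x0.2)) / n
        ≤ S x0 := by
      refine le_trans (T3_sum_le κ m hm1
        (fun n => Nrm m η U (fun χ => vv m χ n - vv m χ (x0.1 * x0.2)) / n)
        fun n => div_nonneg (T3_Nrm_nonneg m η U _) (by positivity)) (le_of_eq ?_)
      rw [hS, hN]
      refine sum_congr rfl fun x _ => ?_
      push_cast
      rfl
    have h2 : ∑ n ∈ RR κ m, Nrm m η U (fun χ => vv m χ n - vv m χ (x0.1 * x0.2))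
        ≤ (M1 m : ℝ) * ∑ n ∈ RR κ m,
          Nrm m η U (fun χ => vv m χ n - vv m χ (x0.1 * x0.2)) / n := by
      rw [mul_sum]
      refine sum_le_sum fun n hn => ?_
      rw [mem_RR] at hn
      have h3 : (1 : ℝ) ≤ n := by exact_mod_cast hn.1
      have h4 : (n : ℝ) ≤ M1 m := by exact_mod_cast hn.2.1
      have h5 := T3_Nrm_nonneg m η U (fun χ => vv m χ n - vv m χ (x0.1 * x0.2))
      rw [mul_div_assoc', le_div_iff₀ (by linarith), mul_comm]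
      exact mul_le_mul_of_nonneg_right h4 h5
    refine le_trans h2 ?_
    refine le_trans (mul_le_mul_of_nonneg_left (le_trans h1 hx0S) hM10.le) (le_of_eq ?_)
    rw [← hW]
    field_simp

end Pool.Agent.H78.PD

end
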