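import Pool.Agent.H94.PG.M04
import Pool.Agent.H94.PG.M11
import Pool.Agent.H94.PG.M16

/-! The parts of this file: H78.PD.L1, H78.PH.HStB, H78.PH.HW. -/

section

/-!
# PD, L1: the large value lemma

`W = ∑_{q ∈ T} 1/q`.  For `χ ∈ X`: `Θ^(2r) |∑_y f χ|² ≤ |(∑_T χ(q))^r ∑_y f(y) χ(y)|²`, so the left side is `≤ ∑_χ |∑_n a_n χ(n)|²` over all `χ`, with
`a_n = ∑_{(q, y) ∈ T^r × cop m Y, q_1 ⋯ q_r y = n} f(y)` (all `n ≤ Z^r Y ≤ m`, prime to `m`); by `ortho_coef` it is `φ ∑ |a_n|²`, and (`|f| ≤ 1`)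
`∑ |a_n|² ≤ #{(q, q', y, y') : Πq · y = Πq' · y'} ≤ ∑_{q, q' ∈ T^r} #{n ≤ Z^r Y : Πq ∣ n, Πq' ∣ n} ≤ Z^r Y ∑_{q, q'} gcd(Πq, Πq')/(Πq Πq')` (given `q, q'`, `(y, y') ↦ n` is injective).
For fixed `q`: `gcd(Πq, Πq')` divides `Π_j (q'_j if q'_j ∈ {q_i} else 1)`, so `∑_{q'} gcd/Πq' ≤ Π_j (∑_{q' ∈ T} (1 if q' ∈ {q_i} else 1/q')) ≤ (W + r)^r`, and `∑_q 1/Πq = W^r`
(`Finset.prod_univ_sum`, `T^r = Fintype.piFinset (fun _ : Fin r => T)`).
-/

set_option autoImplicit false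

namespace Pool.Agent.H78.PD

open Finset
open Pool.Agent.H34PG (lam lam_val lam_mul)
open Pool.Agent.H11.LQ Pool.Agent.H78.PG

private theorem L1_pow {R : Type*} [CommSemiring R] (T : Finset ℕ) (r : ℕ) (h : ℕ → R) :
    ∑ q ∈ Fintype.piFinset (fun _ : Fin r => T), ∏ i, h (q i) = (∑ t ∈ T, h t) ^ r := by
  rw [← Finset.prod_univ_sum (fun _ : Fin r => T) (fun _ t => h t)]
  simp

/-- The number of solutions of `b y' = a y`. -/
private theorem L1_cnt (m Y a b : ℕ) (ha : 0 < a) (hb : 0 < b) :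
    ∑ y ∈ cop m Y, (((cop m Y).filter (fun y' => b * y' = a * y)).card : ℝ) ≤
      Y * ((Nat.gcd a b : ℝ) / b) := by
  obtain ⟨a', b', hco, ea, eb⟩ := Nat.exists_coprime a b
  obtain ⟨g, hg⟩ : ∃ g, g = Nat.gcd a b := ⟨_, rfl⟩
  rw [← hg] at ea eb ⊢
  have hg0 : 0 < g := by
    rw [hg]
    exact Nat.gcd_pos_of_pos_left _ ha
  have hb0 : 0 < b' := by
    rcases Nat.eq_zero_or_pos b' with h | h
    · rw [h, zero_mul] at eb
      omega
    · exact h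
  have h1 : ∀ y ∈ cop m Y, (((cop m Y).filter (fun y' => b * y' = a * y)).card : ℝ) ≤
      if b' ∣ y then (1 : ℝ) else 0 := by
    intro y _
    split_ifs with hd
    · have : ((cop m Y).filter (fun y' => b * y' = a * y)).card ≤ 1 := by
        rw [Finset.card_le_one]
        intro u hu v hv
        rw [mem_filter] at hu hv
        exact Nat.eq_of_mul_eq_mul_left hb (hu.2.trans hv.2.symm)
      exact_mod_cast this
    · have : (cop m Y).filter (fun y' => b * y' = a * y) = ∅ := by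
        rw [Finset.filter_eq_empty_iff]
        intro y' _ he
        apply hd
        rw [ea, eb] at he
        have h2 : b' * y' = a' * y := by
          apply Nat.eq_of_mul_eq_mul_left hg0
          calc g * (b' * y') = b' * g * y' := by ring
            _ = a' * g * y := he
            _ = g * (a' * y) := by ring
        have h3 : b' ∣ a' * y := ⟨y', h2.symm⟩
        exact hco.symm.dvd_of_dvd_mul_left h3
      rw [this]
      simp
  have h2 : ((cop m Y).filter (fun y => b' ∣ y)).card ≤ Y / b' := by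
    rw [← Nat.Ioc_filter_dvd_card_eq_div Y b']
    refine Finset.card_le_card ?_
    intro y hy
    unfold cop at hy
    rw [mem_filter, mem_filter, mem_Icc] at hy
    rw [mem_filter, mem_Ioc]
    exact ⟨⟨hy.1.1.1, hy.1.1.2⟩, hy.2⟩
  have hb0' : (0 : ℝ) < b' := by exact_mod_cast hb0
  have hg0' : (0 : ℝ) < g := by exact_mod_cast hg0
  calc ∑ y ∈ cop m Y, (((cop m Y).filter (fun y' => b * y' = a * y)).card : ℝ)
      ≤ ∑ y ∈ cop m Y, (if b' ∣ y then (1 : ℝ) else 0) := sum_le_sum h1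
    _ = (((cop m Y).filter (fun y => b' ∣ y)).card : ℝ) := by
        rw [Finset.sum_boole]
    _ ≤ ((Y / b' : ℕ) : ℝ) := by exact_mod_cast h2
    _ ≤ (Y : ℝ) / b' := Nat.cast_div_le
    _ = Y * ((g : ℝ) / b) := by
        rw [eb]
        push_cast
        field_simp

private theorem L1_gcd_prod {ι : Type*} (a : ℕ) (b : ι → ℕ) (s : Finset ι) :
    Nat.gcd a (∏ j ∈ s, b j) ∣ ∏ j ∈ s, Nat.gcd a (b j) := by
  classical
  induction s using Finset.induction_on with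
  | empty => simp
  | insert i s hi ih =>
    rw [prod_insert hi, prod_insert hi]
    exact (Nat.gcd_mul_right_dvd_mul_gcd a (b i) _).trans (mul_dvd_mul_left _ ih)

private theorem L1_gcd (r : ℕ) (q q' : Fin r → ℕ) (hq : ∀ i, (q i).Prime)
    (hq' : ∀ i, (q' i).Prime) :
    ((Nat.gcd (∏ i, q i) (∏ i, q' i) : ℕ) : ℝ) / ((∏ i, q' i : ℕ) : ℝ) ≤
      ∏ j, (if q' j ∈ univ.image q then (1 : ℝ) else 1 / (q' j : ℝ)) := by
  have h1 : Nat.gcd (∏ i, q i) (∏ i, q' i) ∣ ∏ j, (if q' j ∈ univ.image q then q' j else 1) := by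
    refine (L1_gcd_prod _ _ _).trans (Finset.prod_dvd_prod_of_dvd _ _ fun j _ => ?_)
    split_ifs with h
    · exact Nat.gcd_dvd_right _ _
    · rw [Nat.dvd_one]
      have h2 : ¬ q' j ∣ ∏ i, q i := by
        intro hd
        obtain ⟨i, _, hi⟩ := (Nat.Prime.prime (hq' j)).exists_mem_finset_dvd hd
        apply h
        rw [mem_image]
        exact ⟨i, mem_univ _, ((Nat.prime_dvd_prime_iff_eq (hq' j) (hq i)).1 hi).symm⟩
      exact (((hq' j).coprime_iff_not_dvd).2 h2).symm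
  have h3 : 0 < ∏ j, (if q' j ∈ univ.image q then q' j else 1) := by
    refine Finset.prod_pos fun j _ => ?_
    split_ifs
    · exact (hq' j).pos
    · exact one_pos
  have h4 : (Nat.gcd (∏ i, q i) (∏ i, q' i) : ℝ) ≤
      ((∏ j, (if q' j ∈ univ.image q then q' j else 1) : ℕ) : ℝ) := by
    exact_mod_cast Nat.le_of_dvd h3 h1
  have h5 : (0 : ℝ) < ((∏ i, q' i : ℕ) : ℝ) := by
    exact_mod_cast Finset.prod_pos fun j _ => (hq' j).pos
  rw [div_le_iff₀ h5]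
  refine h4.trans (le_of_eq ?_)
  push_cast
  rw [← Finset.prod_mul_distrib]
  refine Finset.prod_congr rfl fun j _ => ?_
  have hj : (q' j : ℝ) ≠ 0 := by exact_mod_cast (hq' j).pos.ne'
  split_ifs
  · rw [one_mul]
  · rw [one_div, inv_mul_cancel₀ hj]

/-- The sum over the second tuple. -/
private theorem L1_inner (T : Finset ℕ) (r : ℕ) (q : Fin r → ℕ) (hT : ∀ t ∈ T, t.Prime)
    (hq : ∀ i, (q i).Prime) :
    ∑ q' ∈ Fintype.piFinset (fun _ : Fin r => T),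
      ((Nat.gcd (∏ i, q i) (∏ i, q' i) : ℕ) : ℝ) / ((∏ i, q' i : ℕ) : ℝ) ≤
      ((∑ t ∈ T, 1 / (t : ℝ)) + r) ^ r := by
  have h1 : ∀ q' ∈ Fintype.piFinset (fun _ : Fin r => T),
      ((Nat.gcd (∏ i, q i) (∏ i, q' i) : ℕ) : ℝ) / ((∏ i, q' i : ℕ) : ℝ) ≤
      ∏ j, (if q' j ∈ univ.image q then (1 : ℝ) else 1 / (q' j : ℝ)) := by
    intro q' hq'
    rw [Fintype.mem_piFinset] at hq'
    exact L1_gcd r q q' hq fun i => hT _ (hq' i)
  refine (sum_le_sum h1).trans ?_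
  rw [L1_pow T r (fun t => if t ∈ univ.image q then (1 : ℝ) else 1 / (t : ℝ))]
  have h2 : ∀ t ∈ T, (if t ∈ univ.image q then (1 : ℝ) else 1 / (t : ℝ)) ≤
      1 / (t : ℝ) + if t ∈ univ.image q then (1 : ℝ) else 0 := by
    intro t _
    have : (0 : ℝ) ≤ 1 / (t : ℝ) := by positivity
    split_ifs <;> linarith
  have h3 : ∑ t ∈ T, (if t ∈ univ.image q then (1 : ℝ) else 0) ≤ r := by
    rw [Finset.sum_boole]
    have : (T.filter (fun t => t ∈ univ.image q)).card ≤ r := by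
      calc (T.filter (fun t => t ∈ univ.image q)).card ≤ (univ.image q).card :=
            Finset.card_le_card fun t ht => (mem_filter.1 ht).2
        _ ≤ (univ : Finset (Fin r)).card := Finset.card_image_le
        _ = r := by simp
    exact_mod_cast this
  have h4 : 0 ≤ ∑ t ∈ T, (if t ∈ univ.image q then (1 : ℝ) else 1 / (t : ℝ)) := by
    refine sum_nonneg fun t _ => ?_
    split_ifs
    · exact zero_le_one
    · positivity
  refine pow_le_pow_left₀ h4 ?_ r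
  refine (sum_le_sum h2).trans ?_
  rw [sum_add_distrib]
  linarith

theorem large_value (m : ℕ) [NeZero m] (X : Finset (DirichletCharacter ℂ m)) (T : Finset ℕ)
    (Z Θ : ℝ) (hΘ : 0 ≤ Θ) (r Y : ℕ) (hT : ∀ q ∈ T, q.Prime ∧ ¬ q ∣ m ∧ (q : ℝ) ≤ Z)
    (hY : Z ^ r * Y ≤ m) (f : ℕ → ℂ) (hf : ∀ y, ‖f y‖ ≤ 1)
    (hX : ∀ χ ∈ X, Θ ≤ ‖∑ q ∈ T, χ (q : ZMod m)‖) :
    Θ ^ (2 * r) * ∑ χ ∈ X, ‖∑ y ∈ cop m Y, f y * χ (y : ZMod m)‖ ^ 2
      ≤ (m.totient : ℝ) * (Z ^ r * Y) *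
        ((∑ q ∈ T, 1 / (q : ℝ)) * ((∑ q ∈ T, 1 / (q : ℝ)) + r)) ^ r := by
  classical
  obtain ⟨W, hW⟩ : ∃ W : ℝ, W = ∑ q ∈ T, 1 / (q : ℝ) := ⟨_, rfl⟩
  rw [← hW]
  have hW0 : 0 ≤ W := by
    rw [hW]
    exact sum_nonneg fun t _ => by positivity
  obtain ⟨P, hP⟩ : ∃ P : Finset (Fin r → ℕ), P = Fintype.piFinset (fun _ : Fin r => T) := ⟨_, rfl⟩
  have hPm : ∀ q ∈ P, ∀ i, q i ∈ T := fun q hq => by
    rw [hP, Fintype.mem_piFinset] at hq
    exact hq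
  obtain ⟨A, hA⟩ : ∃ A : Finset ((Fin r → ℕ) × ℕ), A = P ×ˢ cop m Y := ⟨_, rfl⟩
  obtain ⟨g, hg⟩ : ∃ g : ((Fin r → ℕ) × ℕ) → ℕ, g = fun x => (∏ i, x.1 i) * x.2 := ⟨_, rfl⟩
  obtain ⟨a, ha⟩ : ∃ a : ℕ → ℂ, a = fun n => ∑ x ∈ A.filter (fun x => g x = n), f x.2 := ⟨_, rfl⟩
  have hpr : ∀ q ∈ P, ((∏ i, q i : ℕ) : ℝ) ≤ Z ^ r := by
    intro q hq
    push_cast
    calc ∏ i, (q i : ℝ) ≤ ∏ _i : Fin r, Z :=
          Finset.prod_le_prod (fun i _ => by positivity) fun i _ => (hT _ (hPm q hq i)).2.2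
      _ = Z ^ r := by simp
  have hpp : ∀ q ∈ P, 0 < ∏ i, q i := fun q hq =>
    Finset.prod_pos fun i _ => (hT _ (hPm q hq i)).1.pos
  -- the range of `g`
  have hgS : ∀ x ∈ A, g x ∈ cop m m := by
    intro x hx
    rw [hA, mem_product] at hx
    have hx1 := hx.1
    have hx2 := hx.2
    unfold cop at hx2 ⊢
    rw [mem_filter, mem_Icc] at hx2 ⊢
    rw [hg]
    have hco : (∏ i, x.1 i).Coprime m := Nat.Coprime.prod_left fun i _ =>
      ((hT _ (hPm _ hx1 i)).1.coprime_iff_not_dvd).2 (hT _ (hPm _ hx1 i)).2.1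
    refine ⟨⟨Nat.mul_pos (hpp _ hx1) hx2.1.1, ?_⟩, hco.mul_left hx2.2⟩
    have h1 : (((∏ i, x.1 i) * x.2 : ℕ) : ℝ) ≤ m := by
      rw [Nat.cast_mul]
      calc ((∏ i, x.1 i : ℕ) : ℝ) * x.2 ≤ Z ^ r * Y := by
            refine mul_le_mul (hpr _ hx1) ?_ (by positivity) ?_
            · exact_mod_cast hx2.1.2
            · exact le_trans (by positivity) (hpr _ hx1)
        _ ≤ m := hY
    exact_mod_cast h1
  -- the product of the two sums
  have hprod : ∀ χ : DirichletCharacter ℂ m,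
      (∑ q ∈ T, χ (q : ZMod m)) ^ r * ∑ y ∈ cop m Y, f y * χ (y : ZMod m) =
        ∑ n ∈ cop m m, a n * χ (n : ZMod m) := by
    intro χ
    rw [← L1_pow T r (fun t => χ (t : ZMod m)), ← hP, Finset.sum_mul_sum, ← Finset.sum_product',
      ← hA, ← Finset.sum_fiberwise_of_maps_to hgS]
    refine Finset.sum_congr rfl fun n _ => ?_
    rw [ha]
    simp only
    rw [Finset.sum_mul]
    refine Finset.sum_congr rfl fun x hx => ?_
    rw [← (mem_filter.1 hx).2, hg]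
    simp only
    rw [Nat.cast_mul, map_mul, Nat.cast_prod, map_prod]
    ring
  -- the left side
  have hleft : Θ ^ (2 * r) * ∑ χ ∈ X, ‖∑ y ∈ cop m Y, f y * χ (y : ZMod m)‖ ^ 2 ≤
      ∑ χ : DirichletCharacter ℂ m, ‖∑ n ∈ cop m m, a n * χ (n : ZMod m)‖ ^ 2 := by
    rw [Finset.mul_sum]
    refine le_trans (sum_le_sum (g := fun χ : DirichletCharacter ℂ m =>
      ‖∑ n ∈ cop m m, a n * χ (n : ZMod m)‖ ^ 2) fun χ hχ => ?_)
      (sum_le_sum_of_subset_of_nonneg (subset_univ X) fun χ _ _ => by positivity)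
    rw [← hprod, norm_mul, norm_pow, mul_pow, ← pow_mul, mul_comm r 2]
    refine mul_le_mul_of_nonneg_right ?_ (by positivity)
    exact pow_le_pow_left₀ hΘ (hX χ hχ) _
  have hort := ortho_coef m (cop m m) (fun s hs => by
    unfold cop at hs
    rw [mem_filter, mem_Icc] at hs
    exact ⟨hs.2, hs.1.1, hs.1.2⟩) a
  rw [hort] at hleft
  refine hleft.trans ?_
  rw [mul_assoc]
  refine mul_le_mul_of_nonneg_left ?_ (by positivity)
  -- the count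
  have hc1 : ∀ n ∈ cop m m, ‖a n‖ ^ 2 ≤ ∑ x ∈ A.filter (fun x => g x = n),
      ((A.filter (fun x' => g x' = g x)).card : ℝ) := by
    intro n _
    have h1 : ‖a n‖ ≤ ((A.filter (fun x => g x = n)).card : ℝ) := by
      rw [ha]
      refine (norm_sum_le _ _).trans ?_
      refine (sum_le_sum fun x _ => hf x.2).trans (le_of_eq ?_)
      rw [sum_const, nsmul_eq_mul, mul_one]
    have h2 : ∑ x ∈ A.filter (fun x => g x = n),
        ((A.filter (fun x' => g x' = g x)).card : ℝ) =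
        ((A.filter (fun x => g x = n)).card : ℝ) ^ 2 := by
      rw [Finset.sum_congr rfl (g := fun _ => ((A.filter (fun x => g x = n)).card : ℝ))
        fun x hx => by rw [(mem_filter.1 hx).2]]
      rw [sum_const, nsmul_eq_mul, sq]
    rw [h2]
    exact pow_le_pow_left₀ (norm_nonneg _) h1 2
  refine (sum_le_sum hc1).trans ?_
  rw [Finset.sum_fiberwise_of_maps_to hgS, hA, Finset.sum_product]
  have hc2 : ∀ q ∈ P, ∑ y ∈ cop m Y,
      (((P ×ˢ cop m Y).filter (fun x' => g x' = g (q, y))).card : ℝ) ≤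
      Z ^ r * Y * (1 / ((∏ i, q i : ℕ) : ℝ)) * (W + r) ^ r := by
    intro q hq
    have e1 : ∀ y : ℕ, (((P ×ˢ cop m Y).filter (fun x' => g x' = g (q, y))).card : ℝ) =
        ∑ q' ∈ P, (((cop m Y).filter (fun y' => (∏ i, q' i) * y' = (∏ i, q i) * y)).card : ℝ) := by
      intro y
      rw [← Finset.sum_boole, Finset.sum_product]
      refine Finset.sum_congr rfl fun q' _ => ?_
      rw [← Finset.sum_boole]
      refine Finset.sum_congr rfl fun y' _ => ?_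
      rw [hg]
    rw [Finset.sum_congr rfl fun y _ => e1 y, Finset.sum_comm]
    have hq0 : (0 : ℝ) < ((∏ i, q i : ℕ) : ℝ) := by exact_mod_cast hpp q hq
    calc ∑ q' ∈ P, ∑ y ∈ cop m Y,
          (((cop m Y).filter (fun y' => (∏ i, q' i) * y' = (∏ i, q i) * y)).card : ℝ)
        ≤ ∑ q' ∈ P, (Y : ℝ) * (((Nat.gcd (∏ i, q i) (∏ i, q' i) : ℕ) : ℝ) /
            ((∏ i, q' i : ℕ) : ℝ)) :=
          sum_le_sum fun q' hq' => L1_cnt m Y _ _ (hpp q hq) (hpp q' hq')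
      _ = (Y : ℝ) * ∑ q' ∈ P, (((Nat.gcd (∏ i, q i) (∏ i, q' i) : ℕ) : ℝ) /
            ((∏ i, q' i : ℕ) : ℝ)) := by rw [Finset.mul_sum]
      _ ≤ (Y : ℝ) * (W + r) ^ r := by
          refine mul_le_mul_of_nonneg_left ?_ (by positivity)
          rw [hW, hP]
          exact L1_inner T r q (fun t ht => (hT t ht).1) fun i => (hT _ (hPm q hq i)).1
      _ ≤ Z ^ r * Y * (1 / ((∏ i, q i : ℕ) : ℝ)) * (W + r) ^ r := by
          refine mul_le_mul_of_nonneg_right ?_ (by positivity)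
          rw [mul_one_div, le_div_iff₀ hq0, mul_comm]
          exact mul_le_mul_of_nonneg_right (hpr q hq) (by positivity)
  refine (sum_le_sum hc2).trans (le_of_eq ?_)
  rw [← Finset.sum_mul, ← Finset.mul_sum]
  have h7 : ∑ q ∈ P, 1 / ((∏ i, q i : ℕ) : ℝ) = W ^ r := by
    rw [hW, hP, ← L1_pow T r (fun t => 1 / (t : ℝ))]
    refine Finset.sum_congr rfl fun q _ => ?_
    rw [Nat.cast_prod, Finset.prod_div_distrib, Finset.prod_const_one]
  rw [h7, mul_pow]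
  ring

end Pool.Agent.H78.PD

end

section

/-!
# LQ / PG stage 2, HStB: the sum of `Ww` over the primes `≤ P`

`2 P M ≤ m`.  For `p ∈ pq m P` and `x ∈ cop m M`: `p x ≤ m/2`, `λ(p x) = -λ(x)`, so
`‖G(p x) + G(x)‖² ≤ 2 ‖G(p x) - λ(p x)‖² + 2 ‖G(x) - λ(x)‖²`.  Sum over `x` and `p`: the first part is `≤ 2 (2 log m) D0(m/2)`
(every `y ≤ m/2` has at most `2 log m` prime factors: `omega_le`), the second `2 #pq D0(M)`.  And `G(p x) + G(x) = ∑ cc χ (χ p + 1) χ(x)`,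
`Pool.Agent.H78.PG.quasi`: the left side is `≥ (#cop - #X KK) Ww p` for every `p`.
-/

set_option autoImplicit false

namespace Pool.Agent.H78.PH

open Finset
open Pool.Agent.H34PG (lam lam_val lam_mul lam_prime)
open Pool.Agent.H11.LQ Pool.Agent.H78.PG

private theorem hStB_lower (m : ℕ) [NeZero m] (ρ : ℝ) (η : ℤ) (M p : ℕ) :
    (((cop m M).card : ℝ) - (Xr ρ m).card * KK m) * Ww ρ m η p
      ≤ ∑ x ∈ cop m M, ‖Gr ρ m η (p * x) + Gr ρ m η x‖ ^ 2 := by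
  have h := quasi m (Xr ρ m) (fun χ => cc m (FC m η) χ * (χ (p : ZMod m) + 1)) M
  have e1 : ∑ χ ∈ Xr ρ m, ‖cc m (FC m η) χ * (χ (p : ZMod m) + 1)‖ ^ 2 = Ww ρ m η p := by
    unfold Ww
    refine sum_congr rfl fun χ _ => ?_
    rw [norm_mul, mul_pow]
  have e2 : ∑ x ∈ cop m M, ‖∑ χ ∈ Xr ρ m, cc m (FC m η) χ * (χ (p : ZMod m) + 1) *
      χ (x : ZMod m)‖ ^ 2 = ∑ x ∈ cop m M, ‖Gr ρ m η (p * x) + Gr ρ m η x‖ ^ 2 := by
    refine sum_congr rfl fun x _ => ?_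
    congr 2
    unfold Gr
    rw [← sum_add_distrib]
    refine sum_congr rfl fun χ _ => ?_
    rw [Nat.cast_mul, map_mul]
    ring
  rw [e1, e2] at h
  exact h

private theorem hStB_fib (m : ℕ) (P M : ℕ) (hM : 2 * P * M ≤ m) (f : ℕ → ℝ)
    (hf : ∀ y, 0 ≤ f y) :
    ∑ p ∈ pq m P, ∑ x ∈ cop m M, f (p * x) ≤ (2 * Real.log m) * ∑ y ∈ cop m (m / 2), f y := by
  classical
  rw [← sum_product']
  have hmap : ∀ q ∈ pq m P ×ˢ cop m M, q.1 * q.2 ∈ cop m (m / 2) := by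
    intro q hq
    rw [mem_product, mem_pq, mem_cop] at hq
    obtain ⟨⟨h1, h2, h3⟩, h4, h5, h6⟩ := hq
    rw [mem_cop]
    refine ⟨Nat.mul_pos h2.pos h4, ?_, ?_⟩
    · rw [Nat.le_div_iff_mul_le (by norm_num)]
      calc q.1 * q.2 * 2 ≤ P * M * 2 := Nat.mul_le_mul_right _ (Nat.mul_le_mul h1 h5)
        _ = 2 * P * M := by ring
        _ ≤ m := hM
    · exact Nat.Coprime.mul_left ((Nat.Prime.coprime_iff_not_dvd h2).mpr h3) h6
  rw [← sum_fiberwise_of_maps_to hmap, mul_sum]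
  refine sum_le_sum fun y hy => ?_
  rw [mem_cop] at hy
  obtain ⟨hy1, hy2, _⟩ := hy
  have e1 : ∑ q ∈ (pq m P ×ˢ cop m M).filter (fun q => q.1 * q.2 = y), f (q.1 * q.2)
      = (((pq m P ×ˢ cop m M).filter (fun q => q.1 * q.2 = y)).card : ℝ) * f y := by
    rw [← nsmul_eq_mul, ← sum_const]
    refine sum_congr rfl fun q hq => ?_
    rw [mem_filter] at hq
    rw [hq.2]
  rw [e1]
  refine mul_le_mul_of_nonneg_right ?_ (hf y)
  have h3 : ((pq m P ×ˢ cop m M).filter (fun q => q.1 * q.2 = y)).card ≤ y.primeFactors.card := by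
    refine card_le_card_of_injOn (fun q : ℕ × ℕ => q.1) ?_ ?_
    · intro q hq
      rw [mem_coe, mem_filter, mem_product, mem_pq, mem_cop] at hq
      obtain ⟨⟨⟨_, h2, _⟩, _⟩, h7⟩ := hq
      rw [mem_coe, Nat.mem_primeFactors]
      exact ⟨h2, ⟨q.2, h7.symm⟩, by omega⟩
    · intro q hq r hr hqr
      rw [mem_coe, mem_filter, mem_product, mem_pq] at hq hr
      simp only at hqr
      have h8 : q.1 * q.2 = q.1 * r.2 := by
        rw [hq.2, hqr, hr.2]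
      exact Prod.ext hqr (Nat.eq_of_mul_eq_mul_left hq.1.1.2.1.pos h8)
  have h4 : (((pq m P ×ˢ cop m M).filter (fun q => q.1 * q.2 = y)).card : ℝ)
      ≤ (y.primeFactors.card : ℝ) := by exact_mod_cast h3
  exact h4.trans (omega_le m y hy1 (hy2.trans (Nat.div_le_self _ _)))

theorem stepB (m : ℕ) [NeZero m] (hm : 3 ≤ m) (ρ : ℝ) (η : ℤ) (P M : ℕ) (hM : 2 * P * M ≤ m) :
    (((cop m M).card : ℝ) - (Xr ρ m).card * KK m) * ∑ p ∈ pq m P, Ww ρ m η p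
      ≤ 2 * (2 * Real.log m) * D0 ρ m η (m / 2) + 2 * ((pq m P).card : ℝ) * D0 ρ m η M := by
  have _ := hm
  have h1 : (((cop m M).card : ℝ) - (Xr ρ m).card * KK m) * ∑ p ∈ pq m P, Ww ρ m η p
      ≤ ∑ p ∈ pq m P, ∑ x ∈ cop m M, ‖Gr ρ m η (p * x) + Gr ρ m η x‖ ^ 2 := by
    rw [mul_sum]
    exact sum_le_sum fun p _ => hStB_lower m ρ η M p
  have h2 : ∀ p ∈ pq m P, ∀ x ∈ cop m M, ‖Gr ρ m η (p * x) + Gr ρ m η x‖ ^ 2
      ≤ 2 * ‖((lam (p * x) : ℤ) : ℂ) - Gr ρ m η (p * x)‖ ^ 2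
        + 2 * ‖((lam x : ℤ) : ℂ) - Gr ρ m η x‖ ^ 2 := by
    intro p hp x hx
    rw [mem_pq] at hp
    rw [mem_cop] at hx
    have h3 : lam (p * x) = - lam x := by
      rw [lam_mul p x hp.2.1.pos hx.1, lam_prime hp.2.1]
      ring
    have h4 : ((lam (p * x) : ℤ) : ℂ) = - ((lam x : ℤ) : ℂ) := by
      rw [h3]
      push_cast
      ring
    set a : ℂ := ((lam (p * x) : ℤ) : ℂ) - Gr ρ m η (p * x) with ha
    set b : ℂ := ((lam x : ℤ) : ℂ) - Gr ρ m η x with hb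
    have h5 : Gr ρ m η (p * x) + Gr ρ m η x = - (a + b) := by
      rw [ha, hb, h4]
      ring
    rw [h5, norm_neg]
    have h6 : ‖a + b‖ ≤ ‖a‖ + ‖b‖ := norm_add_le a b
    have h7 : ‖a + b‖ ^ 2 ≤ (‖a‖ + ‖b‖) ^ 2 := pow_le_pow_left₀ (norm_nonneg _) h6 2
    nlinarith [sq_nonneg (‖a‖ - ‖b‖)]
  refine h1.trans ((sum_le_sum fun p hp => sum_le_sum fun x hx => h2 p hp x hx).trans ?_)
  have e1 : ∑ p ∈ pq m P, ∑ x ∈ cop m M, (2 * ‖((lam (p * x) : ℤ) : ℂ) - Gr ρ m η (p * x)‖ ^ 2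
        + 2 * ‖((lam x : ℤ) : ℂ) - Gr ρ m η x‖ ^ 2)
      = 2 * (∑ p ∈ pq m P, ∑ x ∈ cop m M, ‖((lam (p * x) : ℤ) : ℂ) - Gr ρ m η (p * x)‖ ^ 2)
        + 2 * ((pq m P).card : ℝ) * D0 ρ m η M := by
    have e2 : ∀ p ∈ pq m P, ∑ x ∈ cop m M, (2 * ‖((lam (p * x) : ℤ) : ℂ) - Gr ρ m η (p * x)‖ ^ 2
        + 2 * ‖((lam x : ℤ) : ℂ) - Gr ρ m η x‖ ^ 2)
        = 2 * (∑ x ∈ cop m M, ‖((lam (p * x) : ℤ) : ℂ) - Gr ρ m η (p * x)‖ ^ 2)
          + 2 * D0 ρ m η M := by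
      intro p _
      rw [sum_add_distrib, ← mul_sum, ← mul_sum]
      rfl
    rw [sum_congr rfl e2, sum_add_distrib, ← mul_sum, sum_const, nsmul_eq_mul]
    ring
  rw [e1]
  have h8 := hStB_fib m P M hM (fun y => ‖((lam y : ℤ) : ℂ) - Gr ρ m η y‖ ^ 2)
    (fun y => by positivity)
  have h9 : ∑ y ∈ cop m (m / 2), ‖((lam y : ℤ) : ℂ) - Gr ρ m η y‖ ^ 2 = D0 ρ m η (m / 2) := rfl
  rw [h9] at h8
  linarith

end Pool.Agent.H78.PH

end

section

/-!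
# LQ / PG stage 2, HW: the weight outside `Xr`, and the base scale

`weight2`: as `Pool.Agent.H78.PG.weight` (module PG/TW): for a prime `q ≤ bb m` not dividing `m`, by `twist`:
`∑ ‖cc‖² ‖χ q + 1‖² ≤ 4 #Ex(q)/φ(m) ≤ 4 ρ m/φ(m) ≤ 4 ρ (2 + 2 log m)` (`tot_log`); a `χ ∉ Xr` has a `q ≤ bb m` with
`‖χ q + 1‖² > ρ^(1/2)`; so the weight is `≤ (log m)^800 ρ^(-1/2) 4 ρ (2 + 2 log m) ≤ ρ^(1/3)` (`small` with `c = 1/6`).
`base_scale`: `F m η y = λ(y)` for `1 ≤ y ≤ m/2` (`F_small`), `y ↦` the unit of `ZMod m` is injective on `cop m (m/2)`, `part_sum`: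
`≤ φ(m) * weight ≤ ρ^(1/3) m`.
-/

set_option autoImplicit false

namespace Pool.Agent.H78.PH

open Finset
open Pool.Agent.H34PG (lam lam_val lam_mul lam_prime)
open Pool.Agent.H11.LQ Pool.Agent.H78.PG

private theorem hw_val {m : ℕ} [NeZero m] (hm : 2 ≤ m) (u : (ZMod m)ˣ) : ¬ m ∣ (u : ZMod m).val := by
  intro h
  have h1 : (u : ZMod m).val < m := ZMod.val_lt _
  have h2 : (u : ZMod m).val = 0 := Nat.eq_zero_of_dvd_of_lt h h1
  have h3 : (u : ZMod m) = 0 := (ZMod.val_eq_zero _).mp h2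
  have : Fact (1 < m) := ⟨by omega⟩
  exact u.ne_zero h3

private theorem hw_norm {m : ℕ} [NeZero m] (hm : 2 ≤ m) {η : ℤ} (hη : η = 1 ∨ η = -1)
    (u : (ZMod m)ˣ) : ‖FC m η (u : ZMod m)‖ = 1 := by
  unfold FC
  rcases F_val (m := m) hη (hw_val hm u) with h | h <;> rw [h] <;> simp

private theorem hw_bound {m : ℕ} [NeZero m] (hm : 2 ≤ m) {η : ℤ} (hη : η = 1 ∨ η = -1) {q : ℕ}
    (hq : q.Prime) :
    ∑ u : (ZMod m)ˣ, ‖FC m η ((q : ZMod m) * u) + FC m η (u : ZMod m)‖ ^ 2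
      ≤ 4 * ((Ex m η q).card : ℝ) := by
  classical
  have h1 : ∀ u : (ZMod m)ˣ, ‖FC m η ((q : ZMod m) * u) + FC m η (u : ZMod m)‖ ^ 2
      ≤ if (u : ZMod m).val ∈ Ex m η q then (4 : ℝ) else 0 := by
    intro u
    have e1 : FC m η ((q : ZMod m) * u) = ((F m η (q * (u : ZMod m).val) : ℤ) : ℂ) := by
      rw [← FC_natCast]
      congr 1
      rw [Nat.cast_mul, ZMod.natCast_zmod_val]
    have e2 : FC m η (u : ZMod m) = ((F m η (u : ZMod m).val : ℤ) : ℂ) := rfl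
    rw [e1, e2]
    split_ifs with h
    · have h3 : ‖((F m η (q * (u : ZMod m).val) : ℤ) : ℂ)‖ ≤ 1 := by
        by_cases h4 : m ∣ q * (u : ZMod m).val
        · rw [F_dvd h4]; simp
        · rcases F_val (m := m) hη h4 with h5 | h5 <;> rw [h5] <;> simp
      have h4 : ‖((F m η (u : ZMod m).val : ℤ) : ℂ)‖ = 1 := hw_norm hm hη u
      have h5 := norm_add_le ((F m η (q * (u : ZMod m).val) : ℤ) : ℂ)
        ((F m η (u : ZMod m).val : ℤ) : ℂ)
      have h6 : ‖((F m η (q * (u : ZMod m).val) : ℤ) : ℂ) + ((F m η (u : ZMod m).val : ℤ) : ℂ)‖ ≤ 2 := by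
        linarith
      nlinarith [norm_nonneg (((F m η (q * (u : ZMod m).val) : ℤ) : ℂ) +
        ((F m η (u : ZMod m).val : ℤ) : ℂ))]
    · have h3 : F m η (q * (u : ZMod m).val) = lam q * F m η (u : ZMod m).val := by
        by_contra hc
        exact h (mem_Ex.mpr ⟨ZMod.val_lt _, hc⟩)
      rw [h3, lam_prime hq]
      simp
  refine (sum_le_sum fun u _ => h1 u).trans ?_
  rw [← sum_filter, sum_const, nsmul_eq_mul, mul_comm]
  refine mul_le_mul_of_nonneg_left ?_ (by norm_num)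
  rw [Nat.cast_le]
  refine card_le_card_of_injOn (fun u : (ZMod m)ˣ => (u : ZMod m).val) ?_ ?_
  · intro u hu
    rw [mem_coe, mem_filter] at hu
    exact hu.2
  · intro u _ v _ huv
    exact Units.ext (ZMod.val_injective m huv)

private theorem hw_L {m1 : ℕ} (m : ℕ) (ρ : ℝ) (C : ℕ)
    (hs : ∀ m : ℕ, m1 ≤ m → ∀ ρ : ℝ, Rho C m ρ → 16 * (1 + Real.log m) ^ 801 * ρ ^ (1 / 6 : ℝ) ≤ 1)
    (hm : m1 ≤ m) (hρ : Rho C m ρ) :
    ∃ L : ℝ, 1 ≤ L ∧ ((bb m : ℕ) : ℝ) ≤ L ∧ 16 * (L * (1 + Real.log m)) * ρ ^ (1 / 6 : ℝ) ≤ 1 := by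
  have hlog : 0 ≤ Real.log m := Real.log_natCast_nonneg m
  have h1 : (1 : ℝ) ≤ 1 + Real.log m := le_add_of_nonneg_right hlog
  have h2 : Real.log m ≤ 1 + Real.log m := le_add_of_nonneg_left zero_le_one
  refine ⟨(1 + Real.log m) ^ 800, one_le_pow₀ h1, ?_, ?_⟩
  · exact (Nat.floor_le (pow_nonneg hlog 800)).trans (pow_le_pow_left₀ hlog h2 800)
  · have h3 := hs m hm ρ hρ
    rwa [pow_succ (1 + Real.log m) 800] at h3

private theorem hw_alg1 (L t r s : ℝ) : (2 * L) * (r * (8 * t * s)) = 16 * (L * t) * (r * s) := by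
  ring

private theorem hw_alg2 (L a b : ℝ) : 16 * L * (a * b) = a * (16 * L * b) := by
  ring

open Classical in
theorem weight2 : ∃ C : ℕ, ∃ m0 : ℕ, ∀ (m : ℕ) [NeZero m], m0 ≤ m → ∀ ρ : ℝ, Rho C m ρ →
    ∀ η : ℤ, Hyp2 ρ m η →
      ∑ χ ∈ univ.filter (fun χ => χ ∉ Xr ρ m), ‖cc m (FC m η) χ‖ ^ 2 ≤ ρ ^ (1 / 3 : ℝ) := by
  obtain ⟨C, m1, hs⟩ := small 16 801 (1 / 6) (by norm_num)
  refine ⟨C, m1 + 3, fun m _ hm ρ hρ η hH => ?_⟩
  obtain ⟨hη, hEx⟩ := hH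
  have hρ0 : 0 < ρ := hρ.1
  have hmm : 2 ≤ m := by omega
  have hlog : 0 ≤ Real.log m := Real.log_natCast_nonneg m
  obtain ⟨L, hL1, hLbb, hsm⟩ := hw_L m ρ C hs (by omega) hρ
  have hφ : 0 < (m.totient : ℝ) := by
    have h2 : 0 < m.totient := Nat.totient_pos.mpr (by omega)
    exact_mod_cast h2
  have hT := tot_log m (by omega)
  -- the bound for one prime
  have hq : ∀ q ∈ pq m (bb m), ∑ χ : DirichletCharacter ℂ m,
      ‖cc m (FC m η) χ‖ ^ 2 * ‖χ (q : ZMod m) + 1‖ ^ 2 ≤ 8 * (1 + Real.log m) * ρ := by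
    intro q hq
    rw [mem_pq] at hq
    obtain ⟨hq1, hq2, hq3⟩ := hq
    have hu : IsUnit (q : ZMod m) := by
      rw [ZMod.isUnit_iff_coprime]
      exact (Nat.Prime.coprime_iff_not_dvd hq2).mpr hq3
    rw [twist m (FC m η) (q : ZMod m) hu]
    have h3 := hw_bound hmm hη (q := q) hq2
    have h5 := hEx q hq2 hq1
    rw [one_div, inv_mul_le_iff₀ hφ]
    calc ∑ u : (ZMod m)ˣ, ‖FC m η ((q : ZMod m) * u) + FC m η (u : ZMod m)‖ ^ 2
        ≤ 4 * (ρ * m) := h3.trans (by linarith)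
      _ ≤ 4 * (ρ * ((2 + 2 * Real.log m) * m.totient)) := by
          have := mul_le_mul_of_nonneg_left hT hρ0.le
          linarith
      _ = m.totient * (8 * (1 + Real.log m) * ρ) := by ring
  -- comparison
  have hc : ∀ χ ∈ univ.filter (fun χ : DirichletCharacter ℂ m => χ ∉ Xr ρ m),
      ‖cc m (FC m η) χ‖ ^ 2 ≤ ∑ q ∈ pq m (bb m), ρ ^ (-(1 / 2) : ℝ) *
        (‖cc m (FC m η) χ‖ ^ 2 * ‖χ (q : ZMod m) + 1‖ ^ 2) := by
    intro χ hχ
    rw [mem_filter] at hχ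
    have h3 := hχ.2
    rw [mem_Xr] at h3
    push Not at h3
    obtain ⟨q, hq1, hq2, hq3, hq4⟩ := h3
    have h5 : q ∈ pq m (bb m) := mem_pq.mpr ⟨hq2, hq1, hq3⟩
    have h6 : ‖cc m (FC m η) χ‖ ^ 2 ≤ ρ ^ (-(1 / 2) : ℝ) *
        (‖cc m (FC m η) χ‖ ^ 2 * ‖χ (q : ZMod m) + 1‖ ^ 2) := by
      have h7 : ρ ^ (1 / 2 : ℝ) ≤ ‖χ (q : ZMod m) + 1‖ ^ 2 := by
        have e1 : ρ ^ (1 / 2 : ℝ) = (ρ ^ (1 / 4 : ℝ)) ^ 2 := by
          rw [← Real.rpow_natCast, ← Real.rpow_mul hρ0.le]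
          congr 1
          push_cast
          norm_num
        rw [e1]
        exact pow_le_pow_left₀ (by positivity) hq4.le 2
      have h8 : ρ ^ (-(1 / 2) : ℝ) * ρ ^ (1 / 2 : ℝ) = 1 := by
        rw [← Real.rpow_add hρ0, neg_add_cancel, Real.rpow_zero]
      calc ‖cc m (FC m η) χ‖ ^ 2
          = ‖cc m (FC m η) χ‖ ^ 2 * (ρ ^ (-(1 / 2) : ℝ) * ρ ^ (1 / 2 : ℝ)) := by
            rw [h8, mul_one]
        _ = ρ ^ (-(1 / 2) : ℝ) * (‖cc m (FC m η) χ‖ ^ 2 * ρ ^ (1 / 2 : ℝ)) := by ring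
        _ ≤ _ := by
            refine mul_le_mul_of_nonneg_left ?_ (by positivity)
            exact mul_le_mul_of_nonneg_left h7 (by positivity)
    refine h6.trans ?_
    exact single_le_sum (f := fun q : ℕ => ρ ^ (-(1 / 2) : ℝ) *
        (‖cc m (FC m η) χ‖ ^ 2 * ‖χ (q : ZMod m) + 1‖ ^ 2)) (fun _ _ => by positivity) h5
  have hsum : ∑ χ ∈ univ.filter (fun χ : DirichletCharacter ℂ m => χ ∉ Xr ρ m),
      ‖cc m (FC m η) χ‖ ^ 2 ≤ ∑ q ∈ pq m (bb m), ρ ^ (-(1 / 2) : ℝ) *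
        (8 * (1 + Real.log m) * ρ) := by
    refine (sum_le_sum hc).trans ?_
    rw [sum_comm]
    refine sum_le_sum fun q hq' => ?_
    rw [← mul_sum]
    refine mul_le_mul_of_nonneg_left ?_ (by positivity)
    refine le_trans ?_ (hq q hq')
    exact sum_le_sum_of_subset_of_nonneg (filter_subset _ _) fun _ _ _ => by positivity
  refine hsum.trans ?_
  rw [sum_const, nsmul_eq_mul]
  have hcard : ((pq m (bb m)).card : ℝ) ≤ 2 * L := by
    have h3 : (pq m (bb m)).card ≤ bb m + 1 := by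
      unfold pq
      exact (card_filter_le _ _).trans (by rw [card_range])
    have h4 : ((pq m (bb m)).card : ℝ) ≤ ((bb m : ℕ) : ℝ) + 1 := by exact_mod_cast h3
    linarith
  have e1 : ρ ^ (-(1 / 2) : ℝ) * ρ = ρ ^ (1 / 3 : ℝ) * ρ ^ (1 / 6 : ℝ) := by
    rw [← Real.rpow_add hρ0]
    nth_rewrite 2 [← Real.rpow_one ρ]
    rw [← Real.rpow_add hρ0]
    congr 1
    norm_num
  have hT0 : (0 : ℝ) ≤ 1 + Real.log m := by linarith
  calc ((pq m (bb m)).card : ℝ) * (ρ ^ (-(1 / 2) : ℝ) * (8 * (1 + Real.log m) * ρ))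
      ≤ (2 * L) * (ρ ^ (-(1 / 2) : ℝ) * (8 * (1 + Real.log m) * ρ)) :=
        mul_le_mul_of_nonneg_right hcard
          (mul_nonneg (Real.rpow_nonneg hρ0.le _) (mul_nonneg (mul_nonneg (by norm_num) hT0) hρ0.le))
    _ = 16 * (L * (1 + Real.log m)) * (ρ ^ (-(1 / 2) : ℝ) * ρ) := hw_alg1 _ _ _ _
    _ = ρ ^ (1 / 3 : ℝ) * (16 * (L * (1 + Real.log m)) * ρ ^ (1 / 6 : ℝ)) := by
        rw [e1]
        exact hw_alg2 _ _ _
    _ ≤ ρ ^ (1 / 3 : ℝ) * 1 :=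
        mul_le_mul_of_nonneg_left hsm (Real.rpow_nonneg hρ0.le _)
    _ = ρ ^ (1 / 3 : ℝ) := mul_one _

/-- sums over numbers prime to `m` and sums over the unit group -/
private theorem hw_units (m : ℕ) [NeZero m] (g : ZMod m → ℝ) (hg : ∀ z, 0 ≤ g z) :
    ∑ y ∈ cop m (m / 2), g (y : ZMod m) ≤ ∑ u : (ZMod m)ˣ, g (u : ZMod m) := by
  classical
  let f : ℕ → (ZMod m)ˣ := fun y => if h : y.Coprime m then ZMod.unitOfCoprime y h else 1
  have hf : ∀ y ∈ cop m (m / 2), ((f y : (ZMod m)ˣ) : ZMod m) = (y : ZMod m) := by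
    intro y hy
    have h := (mem_cop.mp hy).2.2
    simp only [f, dif_pos h, ZMod.coe_unitOfCoprime]
  have e1 : ∑ y ∈ cop m (m / 2), g (y : ZMod m) = ∑ u ∈ (cop m (m / 2)).image f, g (u : ZMod m) := by
    rw [sum_image]
    · exact sum_congr rfl fun y hy => by rw [hf y hy]
    · intro a ha b hb hab
      have ha1 := mem_cop.mp (mem_coe.mp ha)
      have hb1 := mem_cop.mp (mem_coe.mp hb)
      have h1 : (a : ZMod m) = (b : ZMod m) := by
        rw [← hf a (mem_coe.mp ha), ← hf b (mem_coe.mp hb), hab]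
      rw [ZMod.natCast_eq_natCast_iff'] at h1
      rwa [Nat.mod_eq_of_lt (by omega), Nat.mod_eq_of_lt (by omega)] at h1
  rw [e1]
  exact sum_le_sum_of_subset_of_nonneg (subset_univ _) fun _ _ _ => hg _

open Classical in
/-- mean square distance of `λ` and a part of the Fourier sum on `[1, m/2]` -/
theorem half_le (m : ℕ) [NeZero m] (hm : 2 ≤ m) (η : ℤ) (X : Finset (DirichletCharacter ℂ m)) :
    ∑ y ∈ cop m (m / 2), ‖((lam y : ℤ) : ℂ) - ∑ χ ∈ X, cc m (FC m η) χ * χ (y : ZMod m)‖ ^ 2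
      ≤ m * ∑ χ ∈ univ.filter (fun χ => χ ∉ X), ‖cc m (FC m η) χ‖ ^ 2 := by
  have g1 := hw_units m
    (fun z => ‖FC m η z - ∑ χ ∈ X, cc m (FC m η) χ * χ z‖ ^ 2) (fun z => by positivity)
  have g2 := part_sum m (FC m η) X
  have g3 : (m.totient : ℝ) ≤ m := by exact_mod_cast Nat.totient_le m
  have g4 : ∑ y ∈ cop m (m / 2), ‖((lam y : ℤ) : ℂ) - ∑ χ ∈ X, cc m (FC m η) χ * χ (y : ZMod m)‖ ^ 2
      = ∑ y ∈ cop m (m / 2), ‖FC m η (y : ZMod m) - ∑ χ ∈ X, cc m (FC m η) χ * χ (y : ZMod m)‖ ^ 2 := by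
    refine sum_congr rfl fun y hy => ?_
    obtain ⟨hy1, hy2, _⟩ := mem_cop.mp hy
    rw [FC_natCast, F_small (by omega) (by omega)]
  rw [g4]
  refine g1.trans ?_
  rw [g2]
  exact mul_le_mul_of_nonneg_right g3 (sum_nonneg fun _ _ => by positivity)

theorem base_scale : ∃ C : ℕ, ∃ m0 : ℕ, ∀ (m : ℕ) [NeZero m], m0 ≤ m → ∀ ρ : ℝ, Rho C m ρ →
    ∀ η : ℤ, Hyp2 ρ m η → D0 ρ m η (m / 2) ≤ ρ ^ (1 / 3 : ℝ) * m := by
  classical
  obtain ⟨C, m1, h⟩ := weight2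
  refine ⟨C, m1 + 2, fun m _ hm ρ hρ η hH => ?_⟩
  have h1 := h m (by omega) ρ hρ η hH
  have h2 := half_le m (by omega) η (Xr ρ m)
  unfold D0 Gr
  refine h2.trans ?_
  rw [mul_comm]
  refine mul_le_mul_of_nonneg_right ?_ (Nat.cast_nonneg m)
  convert h1 using 2

end Pool.Agent.H78.PH

end
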