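import Pool.Agent.H94.PG.M13
import Pool.Agent.H94.PG.M18

/-! The parts of this file: H78.PD.BaseU, H78.PD.T4. -/

section

/-!
# PD, BaseU: the base case when at least half of the primes `≤ Q` do not divide `m`

`T` = primes `≤ Q` not dividing `m`, `#T ≥ π(Q)/2 ≥ Q/(8 log Q)` (Chebyshev; in the Pool e.g. the tools used in `PH/HCnt.lean`), `X = {χ : |∑_T χ(q)| ≥ #T/2}`.
* `χ ∉ X`: `∑_T |χ(q) + 1|² = ∑ (2 + 2 Re χ(q)) ≥ #T`; and by `twist` (`PG/TFour.lean`) `∑_χ w |χ(q) + 1|² = (1/φ) ∑_u |F(qu) + F(u)|² ≤ 4 #Ex(q)/φ` (see `hw_bound` in `PH/HW.lean`), so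
  `wout X · #T ≤ ∑_T 4 #Ex(q)/φ ≤ #T · 4 κ/Q`.
* LSP: `P ≥ Q`, `r ≥ 1` with `Q^r ≤ P < Q^(r+1)`, `Z = Q`, `Θ = #T/2 ≥ Q/(16 log Q)`, `W ≤ 1 + log Q`, `2PY ≤ m`: `large_value` gives
  `∑_X ≤ φ Q^r Y (W(W+r)/Θ²)^r ≤ φ (m/(2P)) Q^(-r) (256 log² Q (1+log Q)² (1+r))^r ≤ φ (m/(2P)) (Q/P) (Q^b)^r ≤ Q φ m P^(-2+b)` as soon as `256 log² Q (1+log Q)² (1+r) ≤ Q^b`, where
  `r ≤ log P ≤ Q^(3b/4)`.
-/

set_option autoImplicit false

namespace Pool.Agent.H78.PD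

open Finset
open Pool.Agent.H34PG (lam lam_val lam_mul lam_prime)
open Pool.Agent.H11.LQ Pool.Agent.H78.PG

private theorem baseu_chi {m : ℕ} [NeZero m] (χ : DirichletCharacter ℂ m) {q : ℕ} (hq : q.Prime)
    (h : ¬ q ∣ m) : ‖χ (q : ZMod m)‖ = 1 := by
  have h1 : q.Coprime m := (Nat.Prime.coprime_iff_not_dvd hq).2 h
  have h2 := DirichletCharacter.unit_norm_eq_one χ (ZMod.unitOfCoprime q h1)
  rwa [ZMod.coe_unitOfCoprime] at h2

private theorem baseu_norm (z : ℂ) (h : ‖z‖ = 1) : ‖z + 1‖ ^ 2 = 2 + 2 * z.re := by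
  have h1 : ‖z‖ ^ 2 = 1 := by rw [h]; norm_num
  rw [Complex.sq_norm, Complex.normSq_apply] at h1 ⊢
  simp only [Complex.add_re, Complex.add_im, Complex.one_re, Complex.one_im, add_zero]
  linarith only [h1, show (z.re + 1) * (z.re + 1) + z.im * z.im =
    (z.re * z.re + z.im * z.im) + 1 + 2 * z.re by ring]

private theorem baseu_one {m : ℕ} [NeZero m] (χ : DirichletCharacter ℂ m) (T : Finset ℕ)
    (hT : ∀ q ∈ T, q.Prime ∧ ¬ q ∣ m)
    (h : ¬ (T.card : ℝ) / 2 ≤ ‖∑ q ∈ T, χ (q : ZMod m)‖) :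
    (T.card : ℝ) ≤ ∑ q ∈ T, ‖χ (q : ZMod m) + 1‖ ^ 2 := by
  have h1 : ∑ q ∈ T, ‖χ (q : ZMod m) + 1‖ ^ 2 = 2 * T.card + 2 * (∑ q ∈ T, χ (q : ZMod m)).re := by
    rw [sum_congr rfl fun q hq => baseu_norm _ (baseu_chi χ (hT q hq).1 (hT q hq).2),
      sum_add_distrib, ← mul_sum, Complex.re_sum, sum_const, nsmul_eq_mul]
    ring
  have h2 := Complex.abs_re_le_norm (∑ q ∈ T, χ (q : ZMod m))
  have h3 := neg_abs_le (∑ q ∈ T, χ (q : ZMod m)).re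
  rw [h1]
  push Not at h
  linarith only [h2, h3, h]

private theorem baseu_val {m : ℕ} [NeZero m] (hm : 2 ≤ m) (u : (ZMod m)ˣ) :
    ¬ m ∣ (u : ZMod m).val := by
  intro h
  have h1 : (u : ZMod m).val < m := ZMod.val_lt _
  have h2 : (u : ZMod m).val = 0 := Nat.eq_zero_of_dvd_of_lt h h1
  have h3 : (u : ZMod m) = 0 := (ZMod.val_eq_zero _).mp h2
  have : Fact (1 < m) := ⟨by omega⟩
  exact u.ne_zero h3

private theorem baseu_bound {m : ℕ} [NeZero m] (hm : 2 ≤ m) {η : ℤ} (hη : η = 1 ∨ η = -1) {q : ℕ}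
    (hq : q.Prime) :
    ∑ u : (ZMod m)ˣ, ‖FC m η ((q : ZMod m) * u) + FC m η (u : ZMod m)‖ ^ 2
      ≤ 4 * ((ExU m η q).card : ℝ) := by
  classical
  have h1 : ∀ u : (ZMod m)ˣ, ‖FC m η ((q : ZMod m) * u) + FC m η (u : ZMod m)‖ ^ 2
      ≤ if (u : ZMod m).val ∈ Ex m η q then (4 : ℝ) else 0 := by
    intro u
    have e1 : FC m η ((q : ZMod m) * u) = ((F m η (q * (u : ZMod m).val) : ℤ) : ℂ) := by
      rw [← FC_natCast]
      congr 1
      rw [Nat.cast_mul, ZMod.natCast_zmod_val]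
    have e2 : FC m η (u : ZMod m) = ((F m η (u : ZMod m).val : ℤ) : ℂ) := rfl
    rw [e1, e2]
    split_ifs with h
    · have h3 : ‖((F m η (q * (u : ZMod m).val) : ℤ) : ℂ)‖ ≤ 1 := by
        by_cases h4 : m ∣ q * (u : ZMod m).val
        · rw [F_dvd h4]; simp
        · rcases F_val (m := m) hη h4 with h5 | h5 <;> rw [h5] <;> simp
      have h4 : ‖((F m η (u : ZMod m).val : ℤ) : ℂ)‖ = 1 := by
        rcases F_val (m := m) hη (baseu_val hm u) with h | h <;> rw [h] <;> simp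
      have h5 := norm_add_le ((F m η (q * (u : ZMod m).val) : ℤ) : ℂ)
        ((F m η (u : ZMod m).val : ℤ) : ℂ)
      have h6 : ‖((F m η (q * (u : ZMod m).val) : ℤ) : ℂ) + ((F m η (u : ZMod m).val : ℤ) : ℂ)‖
          ≤ 2 := by
        linarith only [h3, h4, h5]
      nlinarith only [h4, h5, h3, norm_nonneg (((F m η (q * (u : ZMod m).val) : ℤ) : ℂ) +
        ((F m η (u : ZMod m).val : ℤ) : ℂ))]
    · have h3 : F m η (q * (u : ZMod m).val) = lam q * F m η (u : ZMod m).val := by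
        by_contra hc
        exact h (mem_Ex.mpr ⟨ZMod.val_lt _, hc⟩)
      rw [h3, lam_prime hq]
      simp
  refine (sum_le_sum fun u _ => h1 u).trans ?_
  rw [← sum_filter, sum_const, nsmul_eq_mul, mul_comm]
  refine mul_le_mul_of_nonneg_left ?_ (by norm_num)
  rw [Nat.cast_le]
  refine card_le_card_of_injOn (fun u : (ZMod m)ˣ => (u : ZMod m).val) ?_ ?_
  · intro u hu
    rw [mem_coe, mem_filter] at hu
    exact (val_mem_ExU u).2 hu.2
  · intro u _ v _ huv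
    exact Units.ext (ZMod.val_injective m huv)

private theorem baseu_pi (B : ℕ) (hB : 16 ≤ B) :
    (B : ℝ) / 2 ≤ (((Icc 1 B).filter Nat.Prime).card : ℝ) * Real.log B := by
  have h0 : Nat.primeCounting B = ((Icc 1 B).filter Nat.Prime).card := by
    rw [Nat.primeCounting, Nat.primeCounting', Nat.count_eq_card_filter_range]
    congr 1
    ext p
    rw [mem_filter, mem_filter, mem_range, mem_Icc]
    constructor
    · rintro ⟨h1, h2⟩
      exact ⟨⟨h2.one_lt.le, by omega⟩, h2⟩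
    · rintro ⟨⟨h1, h3⟩, h2⟩
      exact ⟨by omega, h2⟩
  rw [← h0]
  have h1 := Chebyshev.psi_ge B
  have h2 := Chebyshev.psi_le_primeCounting_mul_log B
  have hB' : (16 : ℝ) ≤ B := by exact_mod_cast hB
  have h3 : Real.log ((B : ℝ) + 1) ≤ ((B : ℝ) + 1) / 16 - 1 + 4 * Real.log 2 := by
    have h4 : (B : ℝ) + 1 = ((B : ℝ) + 1) / 16 * 2 ^ 4 := by ring
    have h5 : Real.log ((B : ℝ) + 1) = Real.log (((B : ℝ) + 1) / 16) + 4 * Real.log 2 := by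
      conv_lhs => rw [h4]
      rw [Real.log_mul (by positivity) (by positivity), Real.log_pow]
      norm_num
    rw [h5]
    have := Real.log_le_sub_one_of_pos (show (0 : ℝ) < ((B : ℝ) + 1) / 16 by positivity)
    linarith only [this]
  have h6 := Real.log_two_gt_d9
  have h7 := Real.log_two_lt_d9
  nlinarith only [h1, h2, hB', h3, h6, h7]

private theorem baseu_W (Q : ℕ) (T : Finset ℕ) (hT : ∀ q ∈ T, 1 ≤ q ∧ q ≤ Q) :
    ∑ q ∈ T, 1 / (q : ℝ) ≤ 1 + Real.log Q := by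
  have h1 : ∑ q ∈ T, 1 / (q : ℝ) ≤ ∑ q ∈ Icc 1 Q, 1 / (q : ℝ) := by
    refine sum_le_sum_of_subset_of_nonneg (fun q hq => mem_Icc.2 (hT q hq)) fun q _ _ => ?_
    positivity
  refine h1.trans ?_
  have h2 := harmonic_le_one_add_log Q
  rw [harmonic_eq_sum_Icc] at h2
  push_cast at h2
  simpa [one_div] using h2

private theorem baseu_alg1 {L x y : ℝ} (hL : 1 ≤ L) (hx : 1 ≤ x) (h : L ^ 4 ≤ 1 / 512 * y) :
    64 * L ^ 2 * ((1 + L) ^ 2 * (1 + x)) ≤ y * x := by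
  have h7 : (1 + L) ^ 2 ≤ (2 * L) ^ 2 := pow_le_pow_left₀ (by linarith only [hL]) (by linarith only [hL]) 2
  calc 64 * L ^ 2 * ((1 + L) ^ 2 * (1 + x)) ≤ 64 * L ^ 2 * ((2 * L) ^ 2 * (2 * x)) := by
        gcongr
        linarith only [hx]
    _ = 512 * L ^ 4 * x := by ring
    _ ≤ y * x := by
        refine mul_le_mul_of_nonneg_right ?_ (by linarith only [hx])
        linarith only [h]

private theorem baseu_alg2 {W r L x : ℝ} (hW0 : 0 ≤ W) (hr0 : 0 ≤ r) (hL : 1 ≤ L)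
    (hW : W ≤ 1 + L) (hr : r ≤ x) : W * (W + r) ≤ (1 + L) ^ 2 * (1 + x) := by
  have hx : 0 ≤ x := hr0.trans hr
  have h1 : 0 ≤ L := by linarith
  calc W * (W + r) ≤ (1 + L) * ((1 + L) + x) := by gcongr
    _ ≤ (1 + L) * ((1 + L) + (1 + L) * x) := by
      gcongr
      nlinarith only [hr0, hr, hL]
    _ = (1 + L) ^ 2 * (1 + x) := by ring

private theorem baseu_num (b : ℝ) (hb : 0 < b) : ∃ Q0 : ℕ, ∀ Q : ℕ, Q0 ≤ Q → 16 ≤ Q ∧
    1 ≤ Real.log Q ∧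
    64 * Real.log Q ^ 2 * ((1 + Real.log Q) ^ 2 * (1 + (Q : ℝ) ^ (3 * b / 4))) ≤ (Q : ℝ) ^ b := by
  have h1 := (isLittleO_log_rpow_rpow_atTop (4 : ℝ) (show (0 : ℝ) < b / 4 by positivity)).bound
    (show (0 : ℝ) < 1 / 512 by norm_num)
  have h2 := tendsto_natCast_atTop_atTop (R := ℝ) |>.eventually h1
  rw [Filter.eventually_atTop] at h2
  obtain ⟨Q1, hQ1⟩ := h2
  refine ⟨max Q1 16, fun Q hQ => ?_⟩
  have hQ16 : 16 ≤ Q := (le_max_right _ _).trans hQ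
  have hQR : (16 : ℝ) ≤ Q := by exact_mod_cast hQ16
  have hL : 1 ≤ Real.log Q := by
    rw [Real.le_log_iff_exp_le (by linarith only [hQR])]
    linarith only [hQR, Real.exp_one_lt_d9]
  refine ⟨hQ16, hL, ?_⟩
  have h3 := hQ1 Q ((le_max_left _ _).trans hQ)
  rw [Real.norm_of_nonneg (by positivity), Real.norm_of_nonneg (by positivity)] at h3
  have h4 : Real.log Q ^ (4 : ℝ) = Real.log Q ^ 4 := by
    rw [← Real.rpow_natCast]
    norm_num
  rw [h4] at h3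
  have h5 : (1 : ℝ) ≤ (Q : ℝ) ^ (3 * b / 4) := Real.one_le_rpow (by linarith only [hQR]) (by positivity)
  have h6 : (Q : ℝ) ^ b = (Q : ℝ) ^ (b / 4) * (Q : ℝ) ^ (3 * b / 4) := by
    rw [← Real.rpow_add (by linarith only [hQR])]
    congr 1
    ring
  rw [h6]
  exact baseu_alg1 hL h5 h3

/-- the choice of `r` -/
private theorem baseu_r {Q P : ℝ} (hQ : 1 < Q) (hL : 1 ≤ Real.log Q) (hP : Q ≤ P) :
    ∃ r : ℕ, Q ^ r ≤ P ∧ P ≤ Q ^ (r + 1) ∧ (r : ℝ) ≤ Real.log P := by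
  have hP0 : 0 < P := by linarith
  have hlP : 0 ≤ Real.log P := Real.log_nonneg (by linarith)
  refine ⟨⌊Real.log P / Real.log Q⌋₊, ?_, ?_, ?_⟩
  · have h1 := Nat.floor_le (div_nonneg hlP (by linarith : (0 : ℝ) ≤ Real.log Q))
    rw [le_div_iff₀ (by linarith only [hL])] at h1
    rw [← Real.log_le_log_iff (by positivity) hP0, Real.log_pow]
    exact h1
  · have h1 := Nat.lt_floor_add_one (Real.log P / Real.log Q)
    rw [div_lt_iff₀ (by linarith only [hL])] at h1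
    rw [← Real.log_le_log_iff hP0 (by positivity), Real.log_pow]
    push_cast
    exact h1.le
  · exact (Nat.floor_le (div_nonneg hlP (by linarith))).trans (div_le_self hlP hL)

/-- the final estimate -/
private theorem baseu_fin {Q P φ m Y l S V b : ℝ} (r : ℕ) (hQ : 1 < Q) (hP : Q ≤ P) (hl : 0 < l)
    (hφ : 0 ≤ φ) (hY0 : 0 ≤ Y) (hY : 2 * P * Y ≤ m) (hS : 0 ≤ S) (hV : 0 ≤ V) (hb : 0 < b)
    (hr1 : Q ^ r ≤ P) (hr2 : P ≤ Q ^ (r + 1)) (hVb : 64 * l ^ 2 * V ≤ Q ^ b)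
    (h : (Q / (8 * l)) ^ (2 * r) * S ≤ φ * (Q ^ r * Y) * V ^ r) :
    S ≤ Q * φ * m * P ^ (-2 + b) := by
  have hQ0 : 0 < Q := by linarith only [hQ]
  have hP0 : 0 < P := by linarith only [hQ, hP]
  have h1 : (Q / (8 * l)) ^ (2 * r) * (64 * l ^ 2) ^ r = Q ^ r * Q ^ r := by
    rw [pow_mul, ← mul_pow, ← mul_pow]
    congr 1
    field_simp
    norm_num
  have h2 : Q ^ r * Q ^ r * S ≤ φ * (Q ^ r * Y) * (64 * l ^ 2 * V) ^ r := by
    rw [← h1, mul_pow (64 * l ^ 2) V r]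
    calc (Q / (8 * l)) ^ (2 * r) * (64 * l ^ 2) ^ r * S
        = (64 * l ^ 2) ^ r * ((Q / (8 * l)) ^ (2 * r) * S) := by ring
      _ ≤ (64 * l ^ 2) ^ r * (φ * (Q ^ r * Y) * V ^ r) := by gcongr
      _ = φ * (Q ^ r * Y) * ((64 * l ^ 2) ^ r * V ^ r) := by ring
  have h3 : (64 * l ^ 2 * V) ^ r ≤ P ^ b := by
    calc (64 * l ^ 2 * V) ^ r ≤ (Q ^ b) ^ r := by gcongr
      _ = (Q ^ r) ^ b := by
        rw [← Real.rpow_natCast, ← Real.rpow_mul hQ0.le, mul_comm, Real.rpow_mul hQ0.le,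
          Real.rpow_natCast]
      _ ≤ P ^ b := Real.rpow_le_rpow (by positivity) hr1 hb.le
  have h4 : Q ^ r * S ≤ φ * Y * P ^ b := by
    have hQr : 0 < Q ^ r := by positivity
    have h5 : Q ^ r * (Q ^ r * S) ≤ Q ^ r * (φ * Y * P ^ b) := by
      calc Q ^ r * (Q ^ r * S) = Q ^ r * Q ^ r * S := by ring
        _ ≤ φ * (Q ^ r * Y) * (64 * l ^ 2 * V) ^ r := h2
        _ ≤ φ * (Q ^ r * Y) * P ^ b := by gcongr
        _ = _ := by ring
    exact le_of_mul_le_mul_left h5 hQr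
  have h5 : P * S ≤ Q * (φ * Y * P ^ b) := by
    calc P * S ≤ Q ^ (r + 1) * S := by gcongr
      _ = Q * (Q ^ r * S) := by ring
      _ ≤ _ := by gcongr
  have h6 : P ^ (-2 + b) = P ^ b / P ^ 2 := by
    rw [add_comm, Real.rpow_add hP0, Real.rpow_neg hP0.le, div_eq_mul_inv]
    norm_num
  have h7 : P ^ 2 * S ≤ Q * φ * m * P ^ b := by
    have hPb : 0 ≤ P ^ b := by positivity
    calc P ^ 2 * S = P * (P * S) := by ring
      _ ≤ P * (Q * (φ * Y * P ^ b)) := by gcongr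
      _ = Q * φ * (P * Y) * P ^ b := by ring
      _ ≤ Q * φ * m * P ^ b := by
        gcongr
        nlinarith only [hY, hP0, hY0, mul_nonneg hP0.le hY0]
  rw [h6, ← mul_div_assoc, le_div_iff₀ (by positivity)]
  linarith only [h7]

theorem base_u (b : ℝ) (hb : 0 < b) (hb1 : b ≤ 1) : ∃ Q0 : ℕ, ∀ Q : ℕ, Q0 ≤ Q →
    ∀ (m : ℕ) [NeZero m], 3 ≤ m → ∀ η : ℤ, (η = 1 ∨ η = -1) → ∀ κ : ℝ,
    (∀ q : ℕ, q.Prime → q ≤ Q → (Q : ℝ) * ((ExU m η q).card : ℝ) ≤ κ * m.totient) →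
    ((Icc 1 Q).filter Nat.Prime).card ≤ 2 * ((Icc 1 Q).filter (fun q => q.Prime ∧ ¬ q ∣ m)).card →
    ∃ X : Finset (DirichletCharacter ℂ m), wout m η X ≤ 4 * κ ∧
      LSP m X Q b Q (Real.exp ((Q : ℝ) ^ (3 * b / 4))) := by
  obtain ⟨Q0, hQ0⟩ := baseu_num b hb
  refine ⟨Q0, fun Q hQ m _ hm η hη κ hEx hcard => ?_⟩
  obtain ⟨hQ16, hL, hnum⟩ := hQ0 Q hQ
  have hQR : (16 : ℝ) ≤ Q := by exact_mod_cast hQ16
  classical
  set T := (Icc 1 Q).filter (fun q => q.Prime ∧ ¬ q ∣ m) with hTdef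
  have hT : ∀ q ∈ T, q.Prime ∧ ¬ q ∣ m := fun q hq => (mem_filter.1 hq).2
  have hTQ : ∀ q ∈ T, 1 ≤ q ∧ q ≤ Q := fun q hq => mem_Icc.1 (mem_filter.1 hq).1
  have hTcard : (Q : ℝ) / (8 * Real.log Q) ≤ (T.card : ℝ) / 2 := by
    have h1 := baseu_pi Q hQ16
    have h2 : ((((Icc 1 Q).filter Nat.Prime).card : ℕ) : ℝ) ≤ 2 * (T.card : ℝ) := by
      exact_mod_cast hcard
    rw [div_le_iff₀ (by linarith only [hL])]
    nlinarith only [h1, h2, hL]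
  have hTpos : 0 < (T.card : ℝ) := by
    have : 0 < (Q : ℝ) / (8 * Real.log Q) := by positivity
    linarith only [hTcard, this]
  have hφ : (0 : ℝ) < m.totient := by
    exact_mod_cast Nat.totient_pos.2 (NeZero.pos m)
  set X : Finset (DirichletCharacter ℂ m) :=
    univ.filter (fun χ => (T.card : ℝ) / 2 ≤ ‖∑ q ∈ T, χ (q : ZMod m)‖) with hX
  refine ⟨X, ?_, ?_⟩
  · have h1 : wout m η X * T.card ≤ ∑ q ∈ T, 4 * ((ExU m η q).card : ℝ) / m.totient := by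
      calc wout m η X * T.card
          = ∑ χ ∈ univ.filter (fun χ => χ ∉ X), ww m η χ * T.card := by
            unfold wout
            rw [sum_mul]
        _ ≤ ∑ χ ∈ univ.filter (fun χ => χ ∉ X), ww m η χ * ∑ q ∈ T, ‖χ (q : ZMod m) + 1‖ ^ 2 := by
            refine sum_le_sum fun χ hχ => mul_le_mul_of_nonneg_left ?_ (ww_nonneg m η χ)
            rw [mem_filter, hX, mem_filter] at hχ
            exact baseu_one χ T hT fun h => hχ.2 ⟨mem_univ _, h⟩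
        _ ≤ ∑ χ : DirichletCharacter ℂ m, ww m η χ * ∑ q ∈ T, ‖χ (q : ZMod m) + 1‖ ^ 2 :=
            sum_le_sum_of_subset_of_nonneg (subset_univ _) fun χ _ _ =>
              mul_nonneg (ww_nonneg m η χ) (sum_nonneg fun _ _ => by positivity)
        _ = ∑ q ∈ T, ∑ χ : DirichletCharacter ℂ m, ww m η χ * ‖χ (q : ZMod m) + 1‖ ^ 2 := by
            rw [sum_comm]
            exact sum_congr rfl fun χ _ => by rw [mul_sum]
        _ ≤ ∑ q ∈ T, 4 * ((ExU m η q).card : ℝ) / m.totient := by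
            refine sum_le_sum fun q hq => ?_
            have hc : q.Coprime m := (Nat.Prime.coprime_iff_not_dvd (hT q hq).1).2 (hT q hq).2
            have hu : IsUnit (q : ZMod m) := by
              rw [← ZMod.coe_unitOfCoprime q hc]
              exact Units.isUnit _
            have h2 := twist m (FC m η) (q : ZMod m) hu
            have h3 := baseu_bound (m := m) (by omega) hη (hT q hq).1
            unfold ww
            rw [h2, one_div, inv_mul_eq_div]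
            exact div_le_div_of_nonneg_right h3 hφ.le
    have h2 : ∑ q ∈ T, 4 * ((ExU m η q).card : ℝ) / m.totient ≤ T.card * (4 * κ) := by
      rw [← nsmul_eq_mul, ← sum_const]
      refine sum_le_sum fun q hq => ?_
      have h3 := hEx q (hT q hq).1 (hTQ q hq).2
      rw [div_le_iff₀ hφ]
      have h4 : ((ExU m η q).card : ℝ) ≤ Q * ((ExU m η q).card : ℝ) := by
        have : (0 : ℝ) ≤ ((ExU m η q).card : ℝ) := by positivity
        nlinarith only [hQR]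
      linarith only [h3, h4]
    have h3 : wout m η X * T.card ≤ 4 * κ * T.card := by linarith
    exact le_of_mul_le_mul_right h3 hTpos
  · intro P hP1 hP2 Y hY f hf
    have hP0 : 0 < P := by linarith only [hQR, hP1]
    obtain ⟨r, hr1, hr2, hr3⟩ := baseu_r (by linarith only [hQR] : (1 : ℝ) < Q) hL hP1
    have hrQ : (r : ℝ) ≤ (Q : ℝ) ^ (3 * b / 4) := by
      refine hr3.trans ?_
      rw [Real.log_le_iff_le_exp hP0]
      exact hP2
    have hY0 : (0 : ℝ) ≤ Y := by positivity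
    have h1 := large_value m X T Q (Q / (8 * Real.log Q)) (by positivity) r Y
      (fun q hq => ⟨(hT q hq).1, (hT q hq).2, by exact_mod_cast (hTQ q hq).2⟩)
      (by
        refine (mul_le_mul_of_nonneg_right hr1 hY0).trans ?_
        nlinarith only [hY, mul_nonneg hP0.le hY0]) f hf
      (fun χ hχ => by
        rw [hX, mem_filter] at hχ
        exact hTcard.trans hχ.2)
    have hW := baseu_W Q T hTQ
    have hW0 : 0 ≤ ∑ q ∈ T, 1 / (q : ℝ) := sum_nonneg fun _ _ => by positivity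
    refine baseu_fin (l := Real.log Q) (b := b) r (by linarith only [hQR]) hP1 (by linarith only [hL]) hφ.le hY0 hY
      (sum_nonneg fun _ _ => by positivity)
      (mul_nonneg hW0 (add_nonneg hW0 (by positivity : (0 : ℝ) ≤ (r : ℝ)))) hb hr1 hr2 ?_ h1
    refine le_trans ?_ hnum
    have hr0 : (0 : ℝ) ≤ r := by positivity
    exact mul_le_mul_of_nonneg_left (baseu_alg2 hW0 hr0 hL hW hrQ) (by positivity)

end Pool.Agent.H78.PD

end

section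

/-!
# PD, T4: one character

`rgh`, `t3` (`c1 = 11 c/20`).  `v χ = ∑_{n ∈ RR} |vv n χ - vv n0 χ|²`; `∑_U ww χ v χ ≤ C wout M1/L ≤ C' wout S1`.  `e = (C' wout)^(1/2)`; `{χ ∈ U : v χ > e S1}` has weight `≤ e`.
Two different `χ1, χ2` with `v ≤ e S1`: `ψ = χ1 χ2⁻¹ ≠ 1`, `ψ(n) = vv n χ1 conj(vv n χ2)` for `n` prime to `m`, `∑_{RR} |vv n χi - vv n0 χi| ≤ (#RR e S1)^(1/2) ≤ √e S1` (`#RR ≤ S1` as `S ≥ 1`), so
`|∑_{RR} ψ(n) - #RR vv n0 χ1 conj(vv n0 χ2)| ≤ 2√e S1`, `|∑_{n ≤ M1} S(n) ψ(n)| ≥ |∑_{RR} ψ| - (S1 - #RR) ≥ 2 #RR - S1 - 2√e S1 ≥ (1/10 - 2√e) S1 > 0`, and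
`∑_{n ≤ M1} S ψ = ∑_{d ≤ Q} g(d) ψ(d) ∑_{n ≤ M1/d} ψ(n)`, so `|..| ≤ m^(1/500) KK m` (`pv`, `PG/TPV.lean`) `≤ m^(1/500 + 1/2 + 1/10000) < c M1/(40 L)`: contradiction.
So at most one such `χ`; the rest has weight `≤ wout + e < 1/2`, so there is exactly one, `χ`, `ww χ > 1/2`; `ww χ⁻¹ = ww χ` (`ww_inv`), so `χ⁻¹ = χ` (else total weight `> 1`), `χ² = 1`; `ww_par`.
-/

set_option autoImplicit false

namespace Pool.Agent.H78.PD

open Finset
open Pool.Agent.H34PG (lam lam_val lam_mul lam_prime)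
open Pool.Agent.H11.LQ Pool.Agent.H78.PG

private theorem t4_lam_sq (n : ℕ) : ((lam n : ℤ) : ℂ) * ((lam n : ℤ) : ℂ) = 1 := by
  unfold lam
  push_cast
  rw [← mul_pow]
  norm_num

private theorem t4_unit (m : ℕ) [NeZero m] (χ : DirichletCharacter ℂ m) (n : ℕ)
    (hn : n.Coprime m) : ‖χ (n : ZMod m)‖ = 1 := by
  have h1 : ((ZMod.unitOfCoprime n hn : (ZMod m)ˣ) : ZMod m) = (n : ZMod m) :=
    ZMod.coe_unitOfCoprime n hn
  rw [← h1]
  exact DirichletCharacter.unit_norm_eq_one χ _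

private theorem t4_vvn (m : ℕ) [NeZero m] (χ : DirichletCharacter ℂ m) (n : ℕ)
    (hn : n.Coprime m) : ‖vv m χ n‖ = 1 := by
  unfold vv
  rw [norm_mul, t4_unit m χ n hn, mul_one]
  have h := congrArg norm (t4_lam_sq n)
  rw [norm_mul, norm_one] at h
  have h0 := norm_nonneg ((lam n : ℤ) : ℂ)
  nlinarith only [h, h0]

private theorem t4_psi (m : ℕ) [NeZero m] (χ1 χ2 : DirichletCharacter ℂ m) (n : ℕ) :
    (χ1 * χ2⁻¹) (n : ZMod m) = vv m χ1 n * (starRingEnd ℂ) (vv m χ2 n) := by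
  have h : (starRingEnd ℂ) (χ2 (n : ZMod m)) = χ2⁻¹ (n : ZMod m) := MulChar.star_apply' χ2 _
  have h0 : (starRingEnd ℂ) ((lam n : ℤ) : ℂ) = ((lam n : ℤ) : ℂ) := map_intCast (starRingEnd ℂ) _
  unfold vv
  rw [MulChar.mul_apply, map_mul, h0, h]
  have h2 := t4_lam_sq n
  calc χ1 (n : ZMod m) * χ2⁻¹ (n : ZMod m)
      = (((lam n : ℤ) : ℂ) * ((lam n : ℤ) : ℂ)) * (χ1 (n : ZMod m) * χ2⁻¹ (n : ZMod m)) := by
        rw [h2, one_mul]
    _ = _ := by ring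

private theorem t4_two (a b u w : ℂ) (hb : ‖b‖ = 1) (hu : ‖u‖ = 1) :
    ‖a * (starRingEnd ℂ) b - u * (starRingEnd ℂ) w‖ ≤ ‖a - u‖ + ‖b - w‖ := by
  have h : a * (starRingEnd ℂ) b - u * (starRingEnd ℂ) w
      = (a - u) * (starRingEnd ℂ) b + u * (starRingEnd ℂ) (b - w) := by
    rw [map_sub]
    ring
  rw [h]
  refine (norm_add_le _ _).trans ?_
  rw [norm_mul, norm_mul, RCLike.norm_conj, RCLike.norm_conj, hb, hu, mul_one, one_mul]

/-- the sum of the distances -/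
private theorem t4_cs (R : Finset ℕ) (f : ℕ → ℝ) (e S1 : ℝ) (he : 0 ≤ e) (hS : 0 ≤ S1)
    (hc : (R.card : ℝ) ≤ S1) (h : ∑ n ∈ R, f n ^ 2 ≤ e * S1) :
    ∑ n ∈ R, f n ≤ Real.sqrt e * S1 := by
  have h1 : (∑ n ∈ R, f n) ^ 2 ≤ (R.card : ℝ) * ∑ n ∈ R, f n ^ 2 := sq_sum_le_card_mul_sum_sq
  have h2 : (R.card : ℝ) * ∑ n ∈ R, f n ^ 2 ≤ S1 * (e * S1) :=
    mul_le_mul hc h (sum_nonneg fun _ _ => sq_nonneg _) hS
  have h3 : S1 * (e * S1) = (Real.sqrt e * S1) ^ 2 := by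
    rw [mul_pow, Real.sq_sqrt he]
    ring
  exact (abs_le_of_sq_le_sq' ((h1.trans h2).trans (le_of_eq h3)) (by positivity)).2

/-- the lower bound of the weighted character sum -/
theorem t4_low (m : ℕ) [NeZero m] (χ1 χ2 : DirichletCharacter ℂ m) (R I : Finset ℕ)
    (hRI : R ⊆ I) (hR : ∀ n ∈ R, n.Coprime m) (S : ℕ → ℝ) (S1 e : ℝ) (he : 0 ≤ e)
    (hS0 : ∀ n ∈ I, 0 ≤ S n) (hS : ∀ n ∈ R, 1 ≤ S n) (hS1 : S1 = ∑ n ∈ I, S n) (n0 : ℕ)
    (hn0 : n0.Coprime m) (h1 : ∑ n ∈ R, ‖vv m χ1 n - vv m χ1 n0‖ ^ 2 ≤ e * S1)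
    (h2 : ∑ n ∈ R, ‖vv m χ2 n - vv m χ2 n0‖ ^ 2 ≤ e * S1) :
    2 * (R.card : ℝ) - S1 - 2 * (Real.sqrt e * S1)
      ≤ ‖∑ n ∈ I, ((S n : ℝ) : ℂ) * (χ1 * χ2⁻¹) (n : ZMod m)‖ := by
  set ψ := χ1 * χ2⁻¹ with hψ
  have hψ1 : ∀ x : ZMod m, ‖ψ x‖ ≤ 1 := fun x => DirichletCharacter.norm_le_one ψ x
  have hsub : ∑ n ∈ R, S n + ∑ n ∈ I \ R, S n = S1 := by
    rw [hS1, add_comm]
    exact sum_sdiff hRI
  have hsd : 0 ≤ ∑ n ∈ I \ R, S n := sum_nonneg fun n hn => hS0 n (mem_sdiff.mp hn).1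
  have hcR : (R.card : ℝ) ≤ ∑ n ∈ R, S n := by
    calc (R.card : ℝ) = ∑ n ∈ R, (1 : ℝ) := by simp
      _ ≤ _ := sum_le_sum hS
  have hc : (R.card : ℝ) ≤ S1 := by linarith only [hsub, hsd, hcR]
  have hS10 : 0 ≤ S1 := (Nat.cast_nonneg _).trans hc
  have a1 := t4_cs R (fun n => ‖vv m χ1 n - vv m χ1 n0‖) e S1 he hS10 hc h1
  have a2 := t4_cs R (fun n => ‖vv m χ2 n - vv m χ2 n0‖) e S1 he hS10 hc h2
  -- the sum over `R`
  have b1 : ‖(∑ n ∈ R, ψ (n : ZMod m)) - (R.card : ℂ) * (vv m χ1 n0 * (starRingEnd ℂ) (vv m χ2 n0))‖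
      ≤ 2 * (Real.sqrt e * S1) := by
    have : (∑ n ∈ R, ψ (n : ZMod m)) - (R.card : ℂ) * (vv m χ1 n0 * (starRingEnd ℂ) (vv m χ2 n0))
        = ∑ n ∈ R, (vv m χ1 n * (starRingEnd ℂ) (vv m χ2 n)
            - vv m χ1 n0 * (starRingEnd ℂ) (vv m χ2 n0)) := by
      rw [sum_sub_distrib, sum_const, nsmul_eq_mul]
      congr 1
      exact sum_congr rfl fun n _ => t4_psi m χ1 χ2 n
    rw [this]
    calc _ ≤ ∑ n ∈ R, ‖vv m χ1 n * (starRingEnd ℂ) (vv m χ2 n)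
            - vv m χ1 n0 * (starRingEnd ℂ) (vv m χ2 n0)‖ := norm_sum_le _ _
      _ ≤ ∑ n ∈ R, (‖vv m χ1 n - vv m χ1 n0‖ + ‖vv m χ2 n - vv m χ2 n0‖) :=
          sum_le_sum fun n hn => t4_two _ _ _ _ (t4_vvn m χ2 n (hR n hn)) (t4_vvn m χ1 n0 hn0)
      _ ≤ _ := by
          rw [sum_add_distrib]
          linarith
  have b2 : ‖(R.card : ℂ) * (vv m χ1 n0 * (starRingEnd ℂ) (vv m χ2 n0))‖ = (R.card : ℝ) := by
    rw [norm_mul, norm_mul, RCLike.norm_conj, t4_vvn m χ1 n0 hn0, t4_vvn m χ2 n0 hn0,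
      Complex.norm_natCast]
    ring
  have b3 : (R.card : ℝ) - 2 * (Real.sqrt e * S1) ≤ ‖∑ n ∈ R, ψ (n : ZMod m)‖ := by
    have := norm_sub_norm_le ((R.card : ℂ) * (vv m χ1 n0 * (starRingEnd ℂ) (vv m χ2 n0)))
      (∑ n ∈ R, ψ (n : ZMod m))
    rw [norm_sub_rev] at this
    linarith
  -- the rest
  have c1 : ‖(∑ n ∈ I, ((S n : ℝ) : ℂ) * ψ (n : ZMod m)) - ∑ n ∈ R, ψ (n : ZMod m)‖
      ≤ S1 - R.card := by
    have : (∑ n ∈ I, ((S n : ℝ) : ℂ) * ψ (n : ZMod m)) - ∑ n ∈ R, ψ (n : ZMod m)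
        = ∑ n ∈ I \ R, ((S n : ℝ) : ℂ) * ψ (n : ZMod m)
          + ∑ n ∈ R, ((S n - 1 : ℝ) : ℂ) * ψ (n : ZMod m) := by
      rw [← sum_sdiff hRI, add_sub_assoc, ← sum_sub_distrib]
      congr 1
      refine sum_congr rfl fun n _ => ?_
      push_cast
      ring
    rw [this]
    refine (norm_add_le _ _).trans ?_
    have d1 : ‖∑ n ∈ I \ R, ((S n : ℝ) : ℂ) * ψ (n : ZMod m)‖ ≤ ∑ n ∈ I \ R, S n := by
      refine (norm_sum_le _ _).trans (sum_le_sum fun n hn => ?_)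
      have s0 := hS0 n (mem_sdiff.mp hn).1
      rw [norm_mul, Complex.norm_real, Real.norm_of_nonneg s0]
      exact mul_le_of_le_one_right s0 (hψ1 _)
    have d2 : ‖∑ n ∈ R, ((S n - 1 : ℝ) : ℂ) * ψ (n : ZMod m)‖ ≤ ∑ n ∈ R, (S n - 1) := by
      refine (norm_sum_le _ _).trans (sum_le_sum fun n hn => ?_)
      have s0 : 0 ≤ S n - 1 := by linarith [hS n hn]
      rw [norm_mul, Complex.norm_real, Real.norm_of_nonneg s0]
      exact mul_le_of_le_one_right s0 (hψ1 _)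
    have d3 : ∑ n ∈ R, (S n - 1) = ∑ n ∈ R, S n - R.card := by
      rw [sum_sub_distrib]
      simp
    linarith only [hsub, d1, d2, d3]
  have c2 := norm_sub_norm_le (∑ n ∈ R, ψ (n : ZMod m))
    (∑ n ∈ I, ((S n : ℝ) : ℂ) * ψ (n : ZMod m))
  rw [norm_sub_rev] at c2
  linarith

/-- the multiples of `d` in `[1, M]` -/
private theorem t4_mult (m : ℕ) [NeZero m] (ψ : DirichletCharacter ℂ m) (M d : ℕ) (hd : 1 ≤ d) :
    ∑ n ∈ (Icc 1 M).filter (fun n => d ∣ n), ψ (n : ZMod m)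
      = ψ (d : ZMod m) * ∑ k ∈ Icc 1 (M / d), ψ (k : ZMod m) := by
  have h : (Icc 1 M).filter (fun n => d ∣ n) = (Icc 1 (M / d)).image (fun k => d * k) := by
    ext n
    simp only [mem_filter, mem_Icc, mem_image]
    constructor
    · rintro ⟨⟨h1, h2⟩, k, rfl⟩
      refine ⟨k, ⟨?_, ?_⟩, rfl⟩
      · rcases Nat.eq_zero_or_pos k with h | h
        · subst h
          simp at h1
        · exact h
      · exact (Nat.le_div_iff_mul_le hd).mpr (by rw [mul_comm]; exact h2)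
    · rintro ⟨k, ⟨h1, h2⟩, rfl⟩
      refine ⟨⟨Nat.mul_pos hd h1, ?_⟩, dvd_mul_right _ _⟩
      have := (Nat.le_div_iff_mul_le hd).mp h2
      rw [mul_comm]
      exact this
  rw [h, sum_image fun a _ b _ hab => Nat.eq_of_mul_eq_mul_left hd hab, mul_sum]
  refine sum_congr rfl fun k _ => ?_
  push_cast
  rw [map_mul]

/-- the upper bound of the weighted character sum -/
theorem t4_up (m : ℕ) [NeZero m] (ψ : DirichletCharacter ℂ m) (hψ : ψ ≠ 1) (M Q : ℕ)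
    (S g : ℕ → ℝ)
    (hS : ∀ n : ℕ, 1 ≤ n → S n = ∑ d ∈ (Icc 1 Q).filter (fun d => d ∣ n), g d) :
    ‖∑ n ∈ Icc 1 M, ((S n : ℝ) : ℂ) * ψ (n : ZMod m)‖ ≤ (∑ d ∈ Icc 1 Q, |g d|) * KK m := by
  have hm : 1 ≤ m := Nat.one_le_iff_ne_zero.mpr (NeZero.ne m)
  have e : ∑ n ∈ Icc 1 M, ((S n : ℝ) : ℂ) * ψ (n : ZMod m)
      = ∑ d ∈ Icc 1 Q, ((g d : ℝ) : ℂ) * (ψ (d : ZMod m) * ∑ k ∈ Icc 1 (M / d), ψ (k : ZMod m)) := by
    have e1 : ∑ n ∈ Icc 1 M, ((S n : ℝ) : ℂ) * ψ (n : ZMod m)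
        = ∑ n ∈ Icc 1 M, ∑ d ∈ Icc 1 Q,
            if d ∣ n then ((g d : ℝ) : ℂ) * ψ (n : ZMod m) else 0 := by
      refine sum_congr rfl fun n hn => ?_
      rw [hS n (mem_Icc.mp hn).1]
      push_cast
      rw [sum_mul, sum_filter]
    rw [e1, sum_comm]
    refine sum_congr rfl fun d hd => ?_
    rw [← t4_mult m ψ M d (mem_Icc.mp hd).1, mul_sum, sum_filter]
  rw [e, sum_mul]
  refine (norm_sum_le _ _).trans (sum_le_sum fun d _ => ?_)
  rw [norm_mul, norm_mul, Complex.norm_real, Real.norm_eq_abs]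
  refine mul_le_mul_of_nonneg_left ?_ (abs_nonneg _)
  calc ‖ψ (d : ZMod m)‖ * ‖∑ k ∈ Icc 1 (M / d), ψ (k : ZMod m)‖
      ≤ 1 * KK m := mul_le_mul (DirichletCharacter.norm_le_one ψ _) (pv m ψ hψ _)
        (norm_nonneg _) zero_le_one
    _ = KK m := one_mul _

/-- growth -/
theorem t4_grow (c : ℝ) (hc : 0 < c) : ∃ m0 : ℕ, ∀ m : ℕ, m0 ≤ m →
    (m : ℝ) ^ (1 / 500 : ℝ) * KK m < c * M1 m / (20 * Real.log m) := by
  obtain ⟨m1, h1⟩ := KK_le (1 / 10000) (by norm_num)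
  obtain ⟨m2, h2⟩ := grow (41 / c) 1 (1 / 5000) (by norm_num)
  refine ⟨max (max m1 m2) 3, fun m hm => ?_⟩
  simp only [max_le_iff] at hm
  obtain ⟨⟨hm1, hm2⟩, hm3⟩ := hm
  have hm3R : (3 : ℝ) ≤ m := by exact_mod_cast hm3
  have hm0 : (0 : ℝ) < m := by linarith only [hm3R]
  have hlog : 0 < Real.log m := Real.log_pos (by linarith only [hm3R])
  have a1 := h1 m hm1
  have a2 := h2 m hm2
  rw [pow_one] at a2
  -- `M1 ≥ m^(201/400)/2`
  have b1 : (m : ℝ) ^ (201 / 400 : ℝ) / 2 ≤ M1 m := by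
    have h3 : (1 : ℝ) ≤ (m : ℝ) ^ (201 / 400 : ℝ) := Real.one_le_rpow (by linarith only [hm3R]) (by norm_num)
    have h4 : (m : ℝ) ^ (201 / 400 : ℝ) < (M1 m : ℝ) + 1 := by
      unfold M1
      exact Nat.lt_floor_add_one _
    have h5 : (1 : ℝ) ≤ M1 m := by
      have : 1 ≤ M1 m := by
        unfold M1
        exact Nat.le_floor (by exact_mod_cast h3)
      exact_mod_cast this
    linarith only [h4, h5]
  have b2 : (m : ℝ) ^ (1 / 500 : ℝ) * (m : ℝ) ^ (1 / 2 + 1 / 10000 : ℝ)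
      = (m : ℝ) ^ (5021 / 10000 : ℝ) := by
    rw [← Real.rpow_add hm0]
    norm_num
  have b3 : (m : ℝ) ^ (5021 / 10000 : ℝ) * (m : ℝ) ^ (1 / 5000 : ℝ)
      ≤ (m : ℝ) ^ (201 / 400 : ℝ) := by
    rw [← Real.rpow_add hm0]
    exact Real.rpow_le_rpow_of_exponent_le (by linarith only [hm3R]) (by norm_num)
  set X := (m : ℝ) ^ (5021 / 10000 : ℝ) with hX
  have hX0 : 0 < X := Real.rpow_pos_of_pos hm0 _
  have b4 : X * (41 / c * (1 + Real.log m)) ≤ (m : ℝ) ^ (201 / 400 : ℝ) :=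
    (mul_le_mul_of_nonneg_left a2 hX0.le).trans b3
  have b5 : X * (41 / c * (1 + Real.log m)) * c = 41 * X * (1 + Real.log m) := by
    field_simp
  have b6 : 41 * X * (1 + Real.log m) ≤ (m : ℝ) ^ (201 / 400 : ℝ) * c := by
    rw [← b5]
    exact mul_le_mul_of_nonneg_right b4 hc.le
  have b7 : (m : ℝ) ^ (1 / 500 : ℝ) * KK m ≤ X := by
    rw [← b2]
    exact mul_le_mul_of_nonneg_left a1 (Real.rpow_nonneg hm0.le _)
  refine lt_of_le_of_lt b7 ?_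
  rw [lt_div_iff₀ (by positivity)]
  have b8 : (m : ℝ) ^ (201 / 400 : ℝ) / 2 * c ≤ M1 m * c := mul_le_mul_of_nonneg_right b1 hc.le
  have b9 : 0 < X * Real.log m := mul_pos hX0 hlog
  nlinarith only [hX0, b6, b8, b9]

end Pool.Agent.H78.PD

end
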