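import Pool.Agent.H94.PG.M01

/-! The parts of this file: H78.PD.ExU, H78.PG.TCop, H78.PG.TPVa, H78.PG.TPVb, H78.PG.TPV, H78.PG.TQO, H78.PG.TSplit. -/

section

/-!
# PD, ExU: the exceptional residues prime to `m`
-/

set_option autoImplicit false

namespace Pool.Agent.H78.PD

open Finset
open Pool.Agent.H11.LQ

/-- the exceptional residues of `q` which are prime to `m` -/
def ExU (m : ℕ) (η : ℤ) (q : ℕ) : Finset ℕ := (Ex m η q).filter (fun x => x.Coprime m)

theorem mem_ExU {m : ℕ} {η : ℤ} {q x : ℕ} :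
    x ∈ ExU m η q ↔ x ∈ Ex m η q ∧ x.Coprime m := by
  unfold ExU
  rw [mem_filter]

theorem ExU_card_le (m : ℕ) (η : ℤ) (q : ℕ) : (ExU m η q).card ≤ (Ex m η q).card :=
  card_le_card (filter_subset _ _)

theorem val_coprime {m : ℕ} [NeZero m] (u : (ZMod m)ˣ) : (u : ZMod m).val.Coprime m :=
  ZMod.val_coe_unit_coprime u

theorem val_mem_ExU {m : ℕ} [NeZero m] {η : ℤ} {q : ℕ} (u : (ZMod m)ˣ) :
    (u : ZMod m).val ∈ ExU m η q ↔ (u : ZMod m).val ∈ Ex m η q := by
  rw [mem_ExU]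
  exact ⟨fun h => h.1, fun h => ⟨h, val_coprime u⟩⟩

end Pool.Agent.H78.PD

end

section

/-!
# LQ / PG, TCop: the number of `x ≤ M` prime to `m`

`#cop = ∑_{d | m} μ(d) ⌊M/d⌋`, `|⌊M/d⌋ - M/d| ≤ 1` for the `2^ω(m)` squarefree `d`, `∑_{d | m} μ(d)/d = φ(m)/m`.
Or by induction over the set of prime factors `P`: with `f(P, M) = #{x ≤ M : no p ∈ P divides x}`:
`f(P ∪ {q}, M) = f(P, M) - f(P, M/q)`, so `|f(P, M) - M ∏ (1 - 1/p)| ≤ 2^#P` for all `M` (also real `M`: use `⌊M/q⌋`,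
`|M/q - ⌊M/q⌋| < 1`; state the induction for real `t`: `|#{x ≤ t} - t ∏ (1-1/p)| ≤ 2^#P`).
-/

set_option autoImplicit false

namespace Pool.Agent.H78.PG

open Finset
open Pool.Agent.H34PG (lam lam_val lam_mul)
open Pool.Agent.H11.LQ

/-- the numbers up to `M` divisible by no member of `P` -/
private def tcopF (P : Finset ℕ) (M : ℕ) : Finset ℕ :=
  (Icc 1 M).filter (fun x => ∀ p ∈ P, ¬ p ∣ x)

private theorem tcop_card_insert (P : Finset ℕ) (q : ℕ) (hq : q.Prime) (hP : ∀ p ∈ P, p.Prime)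
    (hqP : q ∉ P) (M : ℕ) :
    (tcopF (insert q P) M).card + (tcopF P (M / q)).card = (tcopF P M).card := by
  have hinj : Set.InjOn (fun y : ℕ => q * y) (tcopF P (M / q)) := by
    intro a _ b _ h
    exact Nat.eq_of_mul_eq_mul_left hq.pos h
  rw [← card_image_of_injOn hinj, ← card_union_of_disjoint]
  · congr 1
    ext x
    simp only [tcopF, mem_union, mem_filter, mem_Icc, mem_image, mem_insert, forall_eq_or_imp]
    constructor
    · rintro (⟨h1, _, h3⟩ | ⟨y, ⟨⟨h1, h2⟩, h3⟩, rfl⟩)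
      · exact ⟨h1, h3⟩
      · refine ⟨⟨Nat.mul_pos hq.pos h1, ?_⟩, ?_⟩
        · calc q * y ≤ q * (M / q) := Nat.mul_le_mul_left _ h2
            _ ≤ M := Nat.mul_div_le M q
        · intro p hp hd
          rcases (hP p hp).dvd_mul.mp hd with h | h
          · rw [(Nat.prime_dvd_prime_iff_eq (hP p hp) hq).mp h] at hp
            exact hqP hp
          · exact h3 p hp h
    · rintro ⟨h1, h3⟩
      by_cases hd : q ∣ x
      · right
        obtain ⟨y, rfl⟩ := hd
        have hy : 1 ≤ y := by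
          rcases Nat.eq_zero_or_pos y with h | h
          · rw [h, mul_zero] at h1
            omega
          · exact h
        refine ⟨y, ⟨⟨hy, ?_⟩, ?_⟩, rfl⟩
        · rw [Nat.le_div_iff_mul_le hq.pos, mul_comm]
          exact h1.2
        · intro p hp h
          exact h3 p hp (Dvd.dvd.mul_left h q)
      · left
        exact ⟨h1, hd, h3⟩
  · rw [Finset.disjoint_left]
    intro x hx hx2
    simp only [tcopF, mem_filter, mem_insert, forall_eq_or_imp, mem_image] at hx hx2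
    obtain ⟨y, _, rfl⟩ := hx2
    exact hx.2.1 (Dvd.intro y rfl)

private theorem tcop_est (P : Finset ℕ) (hP : ∀ p ∈ P, p.Prime) :
    ∀ M : ℕ, |((tcopF P M).card : ℝ) - M * ∏ p ∈ P, (1 - (p : ℝ)⁻¹)| ≤ 2 ^ P.card - 1 := by
  induction P using Finset.induction_on with
  | empty =>
    intro M
    simp [tcopF]
  | insert q P hqP ih =>
    intro M
    have hq : q.Prime := hP q (mem_insert_self q P)
    have hP' : ∀ p ∈ P, p.Prime := fun p hp => hP p (mem_insert_of_mem hp)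
    have hcard := tcop_card_insert P q hq hP' hqP M
    have h1 := ih hP' M
    have h2 := ih hP' (M / q)
    have hc : ((tcopF (insert q P) M).card : ℝ)
        = ((tcopF P M).card : ℝ) - ((tcopF P (M / q)).card : ℝ) := by
      rw [← hcard]
      push_cast
      ring
    rw [prod_insert hqP, card_insert_of_notMem hqP, hc]
    set X : ℝ := ∏ p ∈ P, (1 - (p : ℝ)⁻¹) with hX
    have hX0 : 0 ≤ X := by
      rw [hX]
      apply prod_nonneg
      intro p hp
      have : (1 : ℝ) ≤ p := by exact_mod_cast (hP' p hp).one_lt.le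
      have : (p : ℝ)⁻¹ ≤ 1 := inv_le_one_of_one_le₀ this
      linarith
    have hX1 : X ≤ 1 := by
      rw [hX]
      apply prod_le_one
      · intro p hp
        have : (1 : ℝ) ≤ p := by exact_mod_cast (hP' p hp).one_lt.le
        have : (p : ℝ)⁻¹ ≤ 1 := inv_le_one_of_one_le₀ this
        linarith
      · intro p hp
        have : (0 : ℝ) ≤ (p : ℝ)⁻¹ := by positivity
        linarith
    have hq0 : (0 : ℝ) < q := by exact_mod_cast hq.pos
    have hfl1 : ((M / q : ℕ) : ℝ) ≤ M * (q : ℝ)⁻¹ := by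
      rw [← div_eq_mul_inv]
      exact Nat.cast_div_le
    have hfl2 : (M : ℝ) * (q : ℝ)⁻¹ ≤ ((M / q : ℕ) : ℝ) + 1 := by
      rw [← div_eq_mul_inv, div_le_iff₀ hq0]
      have : M < q * (M / q + 1) := Nat.lt_mul_div_succ M hq.pos
      have h3 : (M : ℝ) ≤ (q : ℝ) * (((M / q : ℕ) : ℝ) + 1) := by exact_mod_cast this.le
      linarith
    have hd : |((M / q : ℕ) : ℝ) * X - M * (q : ℝ)⁻¹ * X| ≤ 1 := by
      rw [← sub_mul, abs_mul, abs_of_nonneg hX0]
      have : |((M / q : ℕ) : ℝ) - M * (q : ℝ)⁻¹| ≤ 1 := by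
        rw [abs_le]
        constructor <;> linarith
      calc |((M / q : ℕ) : ℝ) - M * (q : ℝ)⁻¹| * X ≤ 1 * 1 := by
            apply mul_le_mul this hX1 hX0 zero_le_one
        _ = 1 := one_mul 1
    have hpow : (2 : ℝ) ^ (P.card + 1) = 2 * 2 ^ P.card := pow_succ' 2 _
    rw [hpow]
    rw [abs_le] at h1 h2 hd ⊢
    constructor <;> nlinarith [h1.1, h1.2, h2.1, h2.2, hd.1, hd.2]

theorem cop_card_ge (m M : ℕ) (hm : 1 ≤ m) :
    (M : ℝ) * m.totient / m - 2 ^ (m.primeFactors.card) ≤ ((cop m M).card : ℝ) := by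
  have hm0 : (m : ℝ) ≠ 0 := by
    have : 0 < m := hm
    exact_mod_cast this.ne'
  have heq : cop m M = tcopF m.primeFactors M := by
    ext x
    rw [mem_cop]
    simp only [tcopF, mem_filter, mem_Icc]
    rw [and_assoc]
    refine and_congr_right fun h1 => and_congr_right fun _ => ?_
    constructor
    · intro hc p hp hd
      have hpp := Nat.prime_of_mem_primeFactors hp
      have hpm := Nat.dvd_of_mem_primeFactors hp
      have := Nat.dvd_gcd hd hpm
      rw [hc] at this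
      exact hpp.one_lt.ne' (Nat.dvd_one.mp this)
    · intro h
      rw [Nat.coprime_iff_gcd_eq_one]
      by_contra hg
      obtain ⟨p, hp, hpd⟩ := Nat.exists_prime_and_dvd hg
      have hpx := hpd.trans (Nat.gcd_dvd_left x m)
      have hpm := hpd.trans (Nat.gcd_dvd_right x m)
      exact h p (Nat.mem_primeFactors.mpr ⟨hp, hpm, by omega⟩) hpx
  have htot : (m.totient : ℝ) = m * ∏ p ∈ m.primeFactors, (1 - (p : ℝ)⁻¹) := by
    have h := Nat.totient_eq_mul_prod_factors m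
    have h2 : ((m.totient : ℚ) : ℝ) = ((m * ∏ p ∈ m.primeFactors, (1 - (p : ℚ)⁻¹) : ℚ) : ℝ) := by
      rw [h]
    push_cast at h2
    exact h2
  have hest := tcop_est m.primeFactors (fun p hp => Nat.prime_of_mem_primeFactors hp) M
  rw [heq, htot]
  have h3 : (M : ℝ) * (m * ∏ p ∈ m.primeFactors, (1 - (p : ℝ)⁻¹)) / m
      = M * ∏ p ∈ m.primeFactors, (1 - (p : ℝ)⁻¹) := by
    field_simp
  rw [h3]
  have := (abs_le.mp hest).1
  linarith

end Pool.Agent.H78.PG

end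

section

/-!
# LQ / PG, TPVa: the finite Fourier transform of a Dirichlet character (primitive or not)

`chat_sq`: (1) `‖χ̂(u h)‖ = ‖χ̂(h)‖` for units `u` (substitute `x ↦ u⁻¹ x`).  (2) Parseval over `ZMod m`:
`∑_h ‖χ̂(h)‖² = m ∑_x ‖χ x‖² ≤ m φ(m)`.  (3) For every `h` the set `{u h : u unit}` has at least `φ(m)/g` elements,
`g = gcd(h, m)`: `u h = u' h` iff `u ≡ u'` mod `m/g`, and at most `g` residues mod `m` lie in a class mod `m/g`.  Hence
`(φ(m)/g) ‖χ̂(h)‖² ≤ m φ(m)`.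
`inversion`: orthogonality of the additive characters (`AddChar.sum_eq_zero_of_ne_one`,
`ZMod.stdAddChar` primitive; or Mathlib `ZMod.dft` inversion `ZMod.invDFT_apply`).
-/

set_option autoImplicit false

namespace Pool.Agent.H78.PG

open Finset

/-- the finite Fourier transform of `χ` -/
noncomputable def chat (m : ℕ) [NeZero m] (χ : DirichletCharacter ℂ m) (h : ZMod m) : ℂ :=
  ∑ x : ZMod m, χ x * ZMod.stdAddChar (-(h * x))

theorem chat_zero (m : ℕ) [NeZero m] (χ : DirichletCharacter ℂ m) (hχ : χ ≠ 1) :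
    chat m χ 0 = 0 := by
  unfold chat
  simp only [zero_mul, neg_zero, AddChar.map_zero_eq_one, mul_one]
  exact MulChar.sum_eq_zero_of_ne_one hχ

theorem tpva_inv (m : ℕ) [NeZero m] (χ : DirichletCharacter ℂ m) (x : ZMod m) :
    χ x = (1 / (m : ℂ)) * ∑ h : ZMod m, chat m χ h * ZMod.stdAddChar (h * x) := by
  have h1 : ZMod.dft (fun y => χ y) = fun h => chat m χ h := by
    funext h
    rw [ZMod.dft_apply]
    unfold chat
    apply Finset.sum_congr rfl
    intro y _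
    rw [smul_eq_mul, mul_comm, mul_comm y h]
  have h2 : (ZMod.dft.symm (ZMod.dft (fun y => χ y))) x = χ x := by
    rw [LinearEquiv.symm_apply_apply]
  rw [h1, ZMod.invDFT_apply] at h2
  rw [← h2, smul_eq_mul, one_div]
  congr 1
  apply Finset.sum_congr rfl
  intro y _
  rw [smul_eq_mul, mul_comm]

theorem tpva_parseval (m : ℕ) [NeZero m] (χ : DirichletCharacter ℂ m) :
    ∑ h : ZMod m, ‖chat m χ h‖ ^ 2 = (m : ℝ) * ∑ x : ZMod m, ‖χ x‖ ^ 2 := by
  have hm : (m : ℂ) ≠ 0 := Nat.cast_ne_zero.mpr (NeZero.ne m)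
  have key : ∑ h : ZMod m, chat m χ h * (starRingEnd ℂ) (chat m χ h)
      = (m : ℂ) * ∑ x : ZMod m, χ x * (starRingEnd ℂ) (χ x) := by
    have e1 : ∀ h : ZMod m, (starRingEnd ℂ) (chat m χ h)
        = ∑ x : ZMod m, (starRingEnd ℂ) (χ x) * ZMod.stdAddChar (h * x) := by
      intro h
      unfold chat
      rw [map_sum]
      apply Finset.sum_congr rfl
      intro x _
      rw [map_mul, AddChar.map_neg_eq_conj, Complex.conj_conj]
    simp only [e1, Finset.mul_sum]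
    rw [Finset.sum_comm]
    apply Finset.sum_congr rfl
    intro x _
    have e2 := tpva_inv m χ x
    have e3 : (m : ℂ) * χ x = ∑ h : ZMod m, chat m χ h * ZMod.stdAddChar (h * x) := by
      rw [e2, ← mul_assoc, mul_one_div_cancel hm, one_mul]
    calc ∑ h : ZMod m, chat m χ h * ((starRingEnd ℂ) (χ x) * ZMod.stdAddChar (h * x))
        = (starRingEnd ℂ) (χ x) * ∑ h : ZMod m, chat m χ h * ZMod.stdAddChar (h * x) := by
          rw [Finset.mul_sum]
          apply Finset.sum_congr rfl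
          intro h _
          ring
      _ = (starRingEnd ℂ) (χ x) * ((m : ℂ) * χ x) := by rw [e3]
      _ = (m : ℂ) * (χ x * (starRingEnd ℂ) (χ x)) := by ring
  have c1 : ∀ z : ℂ, z * (starRingEnd ℂ) z = ((‖z‖ ^ 2 : ℝ) : ℂ) := by
    intro z
    rw [Complex.mul_conj, Complex.normSq_eq_norm_sq]
  simp only [c1] at key
  exact_mod_cast key

theorem tpva_norm_sq_sum (m : ℕ) [NeZero m] (χ : DirichletCharacter ℂ m) :
    ∑ x : ZMod m, ‖χ x‖ ^ 2 ≤ (m.totient : ℝ) := by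
  classical
  have h1 : ∀ x : ZMod m, ‖χ x‖ ^ 2 = if IsUnit x then (1 : ℝ) else 0 := by
    intro x
    split_ifs with hx
    · obtain ⟨u, rfl⟩ := hx
      rw [DirichletCharacter.unit_norm_eq_one χ u, one_pow]
    · rw [χ.map_nonunit hx, norm_zero]
      norm_num
  simp only [h1]
  rw [Finset.sum_ite, Finset.sum_const_zero, add_zero, Finset.sum_const, nsmul_eq_mul, mul_one]
  have h2 : (univ.filter (fun x : ZMod m => IsUnit x))
      = (univ : Finset (ZMod m)ˣ).image (fun u : (ZMod m)ˣ => (u : ZMod m)) := by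
    ext x
    simp only [mem_filter, mem_univ, true_and, mem_image]
    rfl
  rw [h2]
  have h3 : ((univ : Finset (ZMod m)ˣ).image (fun u : (ZMod m)ˣ => (u : ZMod m))).card
      ≤ (univ : Finset (ZMod m)ˣ).card := Finset.card_image_le
  rw [Finset.card_univ, ZMod.card_units_eq_totient] at h3
  exact_mod_cast h3

theorem tpva_unit (m : ℕ) [NeZero m] (χ : DirichletCharacter ℂ m) (u : (ZMod m)ˣ) (h : ZMod m) :
    ‖chat m χ ((u : ZMod m) * h)‖ = ‖chat m χ h‖ := by
  have e1 : χ (u : ZMod m) * chat m χ ((u : ZMod m) * h) = chat m χ h := by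
    unfold chat
    rw [Finset.mul_sum]
    rw [← Equiv.sum_comp (Units.mulLeft u) (fun x => χ x * ZMod.stdAddChar (-(h * x)))]
    apply Finset.sum_congr rfl
    intro x _
    rw [Units.mulLeft_apply, map_mul, ← mul_assoc]
    congr 2
    ring
  have e2 := DirichletCharacter.unit_norm_eq_one χ u
  rw [← e1, norm_mul, e2, one_mul]

theorem tpva_ann (m : ℕ) [NeZero m] (h : ZMod m) :
    (univ.filter (fun x : ZMod m => x * h = 0)).card ≤ Nat.gcd h.val m := by
  classical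
  have hm : 0 < m := Nat.pos_of_ne_zero (NeZero.ne m)
  set g := Nat.gcd h.val m with hg
  have hgpos : 0 < g := Nat.gcd_pos_of_pos_right _ hm
  have hgm : g ∣ m := Nat.gcd_dvd_right _ _
  have hgh : g ∣ h.val := Nat.gcd_dvd_left _ _
  have hmg : 0 < m / g := Nat.div_pos (Nat.le_of_dvd hm hgm) hgpos
  have hdiv : ∀ x : ZMod m, x * h = 0 → m / g ∣ x.val := by
    intro x hx
    have h1 : ((x.val * h.val : ℕ) : ZMod m) = 0 := by
      rw [Nat.cast_mul, ZMod.natCast_zmod_val, ZMod.natCast_zmod_val, hx]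
    rw [ZMod.natCast_eq_zero_iff] at h1
    have hcop : Nat.Coprime (m / g) (h.val / g) := (Nat.coprime_div_gcd_div_gcd hgpos).symm
    apply hcop.dvd_of_dvd_mul_right
    obtain ⟨c, hc⟩ := h1
    refine ⟨c, ?_⟩
    apply Nat.eq_of_mul_eq_mul_right hgpos
    calc x.val * (h.val / g) * g = x.val * (h.val / g * g) := by ring
      _ = x.val * h.val := by rw [Nat.div_mul_cancel hgh]
      _ = m * c := hc
      _ = (m / g * g) * c := by rw [Nat.div_mul_cancel hgm]
      _ = m / g * c * g := by ring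
  have hcard : (univ.filter (fun x : ZMod m => x * h = 0)).card ≤ (Finset.range g).card := by
    apply Finset.card_le_card_of_injOn (fun x => x.val / (m / g))
    · intro x hx
      rw [Finset.mem_coe, mem_filter] at hx
      rw [Finset.mem_coe, mem_range, Nat.div_lt_iff_lt_mul hmg, Nat.mul_div_cancel' hgm]
      exact ZMod.val_lt x
    · intro x hx y hy hxy
      rw [Finset.mem_coe, mem_filter] at hx hy
      have d1 := hdiv x hx.2
      have d2 := hdiv y hy.2
      apply ZMod.val_injective m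
      have hxy' : x.val / (m / g) = y.val / (m / g) := hxy
      rw [← Nat.div_mul_cancel d1, ← Nat.div_mul_cancel d2, hxy']
  rwa [Finset.card_range] at hcard

theorem tpva_orbit (m : ℕ) [NeZero m] (h : ZMod m) :
    m.totient ≤ ((univ : Finset (ZMod m)ˣ).image (fun u : (ZMod m)ˣ => (u : ZMod m) * h)).card
      * Nat.gcd h.val m := by
  classical
  have h1 : (univ : Finset (ZMod m)ˣ).card ≤ Nat.gcd h.val m *
      ((univ : Finset (ZMod m)ˣ).image (fun u : (ZMod m)ˣ => (u : ZMod m) * h)).card := by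
    apply Finset.card_le_mul_card_image
    intro b hb
    rw [mem_image] at hb
    obtain ⟨u0, _, hu0⟩ := hb
    refine le_trans ?_ (tpva_ann m h)
    apply Finset.card_le_card_of_injOn (fun u : (ZMod m)ˣ => (u : ZMod m) - (u0 : ZMod m))
    · intro u hu
      rw [Finset.mem_coe, mem_filter] at hu
      rw [Finset.mem_coe, mem_filter]
      refine ⟨mem_univ _, ?_⟩
      rw [sub_mul, hu.2, hu0, sub_self]
    · intro u _ v _ huv
      have h2 : (u : ZMod m) - (u0 : ZMod m) = (v : ZMod m) - (u0 : ZMod m) := huv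
      exact Units.ext (sub_left_inj.mp h2)
  rw [Finset.card_univ, ZMod.card_units_eq_totient, mul_comm] at h1
  exact h1

theorem chat_sq (m : ℕ) [NeZero m] (χ : DirichletCharacter ℂ m) (h : ZMod m) :
    ‖chat m χ h‖ ^ 2 ≤ (m : ℝ) * (Nat.gcd h.val m : ℕ) := by
  classical
  have hm : 0 < m := Nat.pos_of_ne_zero (NeZero.ne m)
  have hφ : (0 : ℝ) < (m.totient : ℝ) := Nat.cast_pos.mpr (Nat.totient_pos.mpr hm)
  set S := (univ : Finset (ZMod m)ˣ).image (fun u : (ZMod m)ˣ => (u : ZMod m) * h) with hS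
  have h1 : (S.card : ℝ) * ‖chat m χ h‖ ^ 2 = ∑ k ∈ S, ‖chat m χ k‖ ^ 2 := by
    rw [Finset.sum_congr rfl (g := fun _ => ‖chat m χ h‖ ^ 2), Finset.sum_const, nsmul_eq_mul]
    intro k hk
    rw [hS, mem_image] at hk
    obtain ⟨u, _, rfl⟩ := hk
    rw [tpva_unit]
  have h2 : ∑ k ∈ S, ‖chat m χ k‖ ^ 2 ≤ ∑ k : ZMod m, ‖chat m χ k‖ ^ 2 :=
    Finset.sum_le_sum_of_subset_of_nonneg (Finset.subset_univ S)
      (fun _ _ _ => sq_nonneg _)
  have h3 : ∑ k : ZMod m, ‖chat m χ k‖ ^ 2 ≤ (m : ℝ) * m.totient := by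
    rw [tpva_parseval]
    exact mul_le_mul_of_nonneg_left (tpva_norm_sq_sum m χ) (Nat.cast_nonneg m)
  have h4 : (m.totient : ℝ) ≤ (S.card : ℝ) * (Nat.gcd h.val m : ℕ) := by
    exact_mod_cast tpva_orbit m h
  have h5 : (S.card : ℝ) * ‖chat m χ h‖ ^ 2 ≤ (m : ℝ) * m.totient := by
    rw [h1]; exact h2.trans h3
  have hg0 : (0 : ℝ) ≤ ((Nat.gcd h.val m : ℕ) : ℝ) := Nat.cast_nonneg _
  have h6 : (m.totient : ℝ) * ‖chat m χ h‖ ^ 2
      ≤ (m.totient : ℝ) * ((m : ℝ) * (Nat.gcd h.val m : ℕ)) := by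
    calc (m.totient : ℝ) * ‖chat m χ h‖ ^ 2
        ≤ ((S.card : ℝ) * (Nat.gcd h.val m : ℕ)) * ‖chat m χ h‖ ^ 2 :=
          mul_le_mul_of_nonneg_right h4 (sq_nonneg _)
      _ = (Nat.gcd h.val m : ℕ) * ((S.card : ℝ) * ‖chat m χ h‖ ^ 2) := by ring
      _ ≤ (Nat.gcd h.val m : ℕ) * ((m : ℝ) * m.totient) := mul_le_mul_of_nonneg_left h5 hg0
      _ = (m.totient : ℝ) * ((m : ℝ) * (Nat.gcd h.val m : ℕ)) := by ring
  exact le_of_mul_le_mul_left h6 hφ

theorem inversion (m : ℕ) [NeZero m] (χ : DirichletCharacter ℂ m) (x : ZMod m) :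
    χ x = (1 / (m : ℂ)) * ∑ h : ZMod m, chat m χ h * ZMod.stdAddChar (h * x) :=
  tpva_inv m χ x

end Pool.Agent.H78.PG

end

section

/-!
# LQ / PG, TPVb: geometric sums and a gcd sum

`geo`: geometric series: `‖∑_{x=1}^M z^x‖ ≤ 2/‖1 - z‖` for `‖z‖ = 1`, `z = e(h/m)` (`ZMod.stdAddChar_apply`,
`ZMod.toCircle`), `‖1 - z‖ = 2 |sin(π h/m)| ≥ 4 min(h, m-h)/m` (`Real.mul_le_sin`, `2/π x ≤ sin x` on `[0, π/2]`).
`gcdsum`: symmetry `h ↔ m - h` (`gcd(m-h,m) = gcd(h,m)`): the sum is `≤ ∑_{1 ≤ h ≤ m/2} √gcd(h,m)/h`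
`≤ ∑_{g | m} ∑_{h ≤ m, g | h} √g/h = ∑_{g | m} g^(-1/2) ∑_{k ≤ m/g} 1/k ≤ d(m) (1 + log m)`.
-/

set_option autoImplicit false

namespace Pool.Agent.H78.PG

open Finset

private theorem tpvb_geom (z : ℂ) (M : ℕ) : (z - 1) * ∑ x ∈ Icc 1 M, z ^ x = z * (z ^ M - 1) := by
  induction M with
  | zero => simp
  | succ M ih =>
    rw [Finset.sum_Icc_succ_top (by omega), mul_add, ih]
    ring

private theorem tpvb_norm (m : ℕ) [NeZero m] (h : ℕ) (h1 : 1 ≤ h) (h2 : h < m) :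
    4 * ((min h (m - h) : ℕ) : ℝ) / m ≤ ‖ZMod.stdAddChar (h : ZMod m) - 1‖ := by
  have hm : (0 : ℝ) < m := by
    have : 0 < m := by omega
    exact_mod_cast this
  have e1 : ZMod.stdAddChar (h : ZMod m) =
      Complex.exp (Complex.I * ((2 * Real.pi * h / m : ℝ) : ℂ)) := by
    have := ZMod.stdAddChar_coe (N := m) (h : ℤ)
    rw [Int.cast_natCast] at this
    rw [this]
    congr 1
    push_cast
    ring
  rw [e1, Complex.norm_exp_I_mul_ofReal_sub_one, Real.norm_eq_abs]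
  have e2 : 2 * Real.pi * h / m / 2 = Real.pi * h / m := by ring
  rw [e2]
  set t : ℕ := min h (m - h) with ht
  have e3 : Real.sin (Real.pi * h / m) = Real.sin (Real.pi * t / m) := by
    rcases le_total h (m - h) with h3 | h3
    · rw [ht, min_eq_left h3]
    · rw [ht, min_eq_right h3, ← Real.sin_pi_sub]
      congr 1
      rw [Nat.cast_sub h2.le]
      field_simp
  have t2 : (2 * t : ℝ) ≤ m := by
    have : 2 * t ≤ m := by omega
    exact_mod_cast this
  have h4 : 2 / Real.pi * (Real.pi * t / m) ≤ Real.sin (Real.pi * t / m) := by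
    apply Real.mul_le_sin
    · positivity
    · rw [div_le_div_iff₀ hm two_pos]
      nlinarith [Real.pi_pos]
  have h5 : 2 / Real.pi * (Real.pi * t / m) = 2 * t / m := by
    have := Real.pi_ne_zero
    field_simp
  rw [h5] at h4
  rw [e3]
  have h6 : 0 ≤ 2 * (t : ℝ) / m := by positivity
  rw [abs_of_nonneg (by linarith)]
  calc 4 * (t : ℝ) / m = 2 * (2 * t / m) := by ring
    _ ≤ _ := by linarith

theorem geo (m : ℕ) [NeZero m] (h : ℕ) (h1 : 1 ≤ h) (h2 : h < m) (M : ℕ) :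
    ‖∑ x ∈ Icc 1 M, ZMod.stdAddChar ((h : ZMod m) * (x : ZMod m))‖
      ≤ (m : ℝ) / (2 * (min h (m - h) : ℕ)) := by
  have hm : (0 : ℝ) < m := by
    have : 0 < m := by omega
    exact_mod_cast this
  have ht : (0 : ℝ) < ((min h (m - h) : ℕ) : ℝ) := by
    have : 0 < min h (m - h) := by omega
    exact_mod_cast this
  set z : ℂ := ZMod.stdAddChar (h : ZMod m) with hz
  have e1 : ∑ x ∈ Icc 1 M, ZMod.stdAddChar ((h : ZMod m) * (x : ZMod m)) = ∑ x ∈ Icc 1 M, z ^ x := by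
    apply sum_congr rfl
    intro x _
    rw [hz, ← AddChar.map_nsmul_eq_pow, nsmul_eq_mul, mul_comm]
  rw [e1]
  have hn : ‖z‖ = 1 := by
    rw [hz]
    exact AddChar.norm_apply _ _
  have h3 := tpvb_norm m h h1 h2
  rw [← hz] at h3
  have h4 : ‖z - 1‖ * ‖∑ x ∈ Icc 1 M, z ^ x‖ ≤ 2 := by
    rw [← norm_mul, tpvb_geom, norm_mul, hn, one_mul]
    calc ‖z ^ M - 1‖ ≤ ‖z ^ M‖ + ‖(1 : ℂ)‖ := norm_sub_le _ _
      _ = 2 := by rw [norm_pow, hn, one_pow, norm_one]; norm_num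
  have h5 : 4 * ((min h (m - h) : ℕ) : ℝ) / m * ‖∑ x ∈ Icc 1 M, z ^ x‖ ≤ 2 :=
    (mul_le_mul_of_nonneg_right h3 (norm_nonneg _)).trans h4
  rw [le_div_iff₀ (by positivity)]
  have h6 : 4 * ((min h (m - h) : ℕ) : ℝ) / m * ‖∑ x ∈ Icc 1 M, z ^ x‖ * m
      = 2 * (‖∑ x ∈ Icc 1 M, z ^ x‖ * (2 * ((min h (m - h) : ℕ) : ℝ))) := by
    field_simp
    ring
  have h7 := mul_le_mul_of_nonneg_right h5 hm.le
  rw [h6] at h7
  linarith

private theorem tpvb_harm (n : ℕ) : ∑ k ∈ Icc 1 n, (1 : ℝ) / k ≤ 1 + Real.log n := by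
  have h := harmonic_le_one_add_log n
  rw [harmonic_eq_sum_Icc] at h
  push_cast at h
  simpa [one_div] using h

private theorem tpvb_mult (m g : ℕ) (hm : 1 ≤ m) (hg : g ∈ m.divisors) :
    ∑ h ∈ (Icc 1 (m - 1)).filter (fun h => g ∣ h), Real.sqrt g / h ≤ 1 + Real.log m := by
  have hgm : g ∣ m := Nat.dvd_of_mem_divisors hg
  have hg0 : 0 < g := Nat.pos_of_mem_divisors hg
  have hg1 : (1 : ℝ) ≤ g := by exact_mod_cast hg0
  have hsub : (Icc 1 (m - 1)).filter (fun h => g ∣ h) ⊆ (Icc 1 (m / g)).image (fun k => g * k) := by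
    intro h hh
    rw [mem_filter, mem_Icc] at hh
    obtain ⟨⟨h1, h2⟩, k, rfl⟩ := hh
    rw [mem_image]
    refine ⟨k, ?_, rfl⟩
    rw [mem_Icc]
    constructor
    · rcases Nat.eq_zero_or_pos k with h3 | h3
      · subst h3
        omega
      · exact h3
    · rw [Nat.le_div_iff_mul_le hg0, mul_comm]
      omega
  have hinj : Set.InjOn (fun k => g * k) (Icc 1 (m / g) : Finset ℕ) := by
    intro a _ b _ hab
    exact Nat.eq_of_mul_eq_mul_left hg0 hab
  have hs1 : (1 : ℝ) ≤ Real.sqrt g := by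
    rw [Real.one_le_sqrt]
    exact hg1
  calc ∑ h ∈ (Icc 1 (m - 1)).filter (fun h => g ∣ h), Real.sqrt g / h
      ≤ ∑ h ∈ (Icc 1 (m / g)).image (fun k => g * k), Real.sqrt g / h :=
        sum_le_sum_of_subset_of_nonneg hsub fun h _ _ => by positivity
    _ = ∑ k ∈ Icc 1 (m / g), Real.sqrt g / ((g * k : ℕ) : ℝ) := sum_image hinj
    _ ≤ ∑ k ∈ Icc 1 (m / g), (1 : ℝ) / k := by
        apply sum_le_sum
        intro k hk
        rw [mem_Icc] at hk
        have hk0 : (0 : ℝ) < k := by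
          have : 0 < k := hk.1
          exact_mod_cast this
        rw [div_le_div_iff₀ (by push_cast; positivity) hk0]
        push_cast
        have h3 : Real.sqrt g ≤ g := by
          have h4 : Real.sqrt g * Real.sqrt g = g := Real.mul_self_sqrt (by positivity)
          nlinarith
        nlinarith
    _ ≤ 1 + Real.log ((m / g : ℕ) : ℝ) := tpvb_harm _
    _ ≤ 1 + Real.log m := by
        have h5 : 0 < m / g := Nat.div_pos (Nat.le_of_dvd hm hgm) hg0
        have h6 : m / g ≤ m := Nat.div_le_self _ _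
        have h7 : Real.log ((m / g : ℕ) : ℝ) ≤ Real.log m :=
          Real.log_le_log (by exact_mod_cast h5) (by exact_mod_cast h6)
        linarith

theorem gcdsum (m : ℕ) (hm : 1 ≤ m) :
    ∑ h ∈ Icc 1 (m - 1), Real.sqrt (Nat.gcd h m : ℕ) / (2 * (min h (m - h) : ℕ))
      ≤ (m.divisors.card : ℝ) * (1 + Real.log m) := by
  have hA : ∑ h ∈ Icc 1 (m - 1), Real.sqrt (Nat.gcd h m : ℕ) / ((m - h : ℕ) : ℝ)
      = ∑ h ∈ Icc 1 (m - 1), Real.sqrt (Nat.gcd h m : ℕ) / (h : ℝ) := by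
    apply sum_nbij' (fun h => m - h) (fun h => m - h)
    · intro h hh
      rw [mem_Icc] at hh ⊢
      omega
    · intro h hh
      rw [mem_Icc] at hh ⊢
      omega
    · intro h hh
      rw [mem_Icc] at hh
      omega
    · intro h hh
      rw [mem_Icc] at hh
      omega
    · intro h hh
      rw [mem_Icc] at hh
      have h1 : Nat.gcd (m - h) m = Nat.gcd h m := by
        have h2 : h ≤ m := by omega
        rw [Nat.gcd_comm, Nat.gcd_self_sub_right h2, Nat.gcd_comm]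
      rw [h1]
  calc ∑ h ∈ Icc 1 (m - 1), Real.sqrt (Nat.gcd h m : ℕ) / (2 * (min h (m - h) : ℕ))
      ≤ ∑ h ∈ Icc 1 (m - 1), (1 / 2 * (Real.sqrt (Nat.gcd h m : ℕ) / (h : ℝ)) +
          1 / 2 * (Real.sqrt (Nat.gcd h m : ℕ) / ((m - h : ℕ) : ℝ))) := by
        apply sum_le_sum
        intro h hh
        rw [mem_Icc] at hh
        have h1 : (0 : ℝ) < h := by
          have : 0 < h := hh.1
          exact_mod_cast this
        have h2 : (0 : ℝ) < ((m - h : ℕ) : ℝ) := by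
          have : 0 < m - h := by omega
          exact_mod_cast this
        have h3 : 0 ≤ Real.sqrt (Nat.gcd h m : ℕ) := Real.sqrt_nonneg _
        rcases le_total h (m - h) with h4 | h4
        · rw [min_eq_left h4]
          have h5 : 0 ≤ 1 / 2 * (Real.sqrt (Nat.gcd h m : ℕ) / ((m - h : ℕ) : ℝ)) := by positivity
          have h6 : Real.sqrt (Nat.gcd h m : ℕ) / (2 * (h : ℝ)) =
              1 / 2 * (Real.sqrt (Nat.gcd h m : ℕ) / (h : ℝ)) := by
            field_simp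
          linarith
        · rw [min_eq_right h4]
          have h5 : 0 ≤ 1 / 2 * (Real.sqrt (Nat.gcd h m : ℕ) / (h : ℝ)) := by positivity
          have h6 : Real.sqrt (Nat.gcd h m : ℕ) / (2 * ((m - h : ℕ) : ℝ)) =
              1 / 2 * (Real.sqrt (Nat.gcd h m : ℕ) / ((m - h : ℕ) : ℝ)) := by
            field_simp
          linarith
    _ = ∑ h ∈ Icc 1 (m - 1), Real.sqrt (Nat.gcd h m : ℕ) / (h : ℝ) := by
        rw [sum_add_distrib, ← mul_sum, ← mul_sum, hA]
        ring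
    _ ≤ ∑ h ∈ Icc 1 (m - 1), ∑ g ∈ m.divisors, (if g ∣ h then Real.sqrt g / (h : ℝ) else 0) := by
        apply sum_le_sum
        intro h hh
        have h1 : Nat.gcd h m ∈ m.divisors := by
          rw [Nat.mem_divisors]
          exact ⟨Nat.gcd_dvd_right _ _, by omega⟩
        have h2 := single_le_sum (f := fun g : ℕ => if g ∣ h then Real.sqrt g / (h : ℝ) else 0)
          (fun g _ => by
            show 0 ≤ if g ∣ h then Real.sqrt g / (h : ℝ) else 0
            split_ifs <;> positivity) h1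
        have h3 : (if Nat.gcd h m ∣ h then Real.sqrt (Nat.gcd h m : ℕ) / (h : ℝ) else 0)
            = Real.sqrt (Nat.gcd h m : ℕ) / (h : ℝ) := if_pos (Nat.gcd_dvd_left _ _)
        rw [← h3]
        exact h2
    _ = ∑ g ∈ m.divisors, ∑ h ∈ (Icc 1 (m - 1)).filter (fun h => g ∣ h), Real.sqrt g / (h : ℝ) := by
        rw [sum_comm]
        apply sum_congr rfl
        intro g _
        rw [sum_filter]
    _ ≤ ∑ _g ∈ m.divisors, (1 + Real.log m) := sum_le_sum fun g hg => tpvb_mult m g hm hg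
    _ = (m.divisors.card : ℝ) * (1 + Real.log m) := by rw [sum_const, nsmul_eq_mul]

end Pool.Agent.H78.PG

end

section

/-!
# LQ / PG, TPV: Polya-Vinogradov for all nonprincipal characters

`inversion` summed over `x ∈ Icc 1 M`: `∑ χ x = (1/m) ∑_h chat h ∑_{x ≤ M} e(hx/m)`; `chat 0 = 0` (`chat_zero`);
`‖chat h‖ ≤ √m √gcd(h,m)` (`chat_sq`); `geo`, `gcdsum`.  (`ZMod m ∖ {0} ↔ Icc 1 (m-1)` by `val`.)
-/

set_option autoImplicit false

namespace Pool.Agent.H78.PG

open Finset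
open Pool.Agent.H34PG (lam lam_val lam_mul)
open Pool.Agent.H11.LQ

private theorem tpv_chat (m : ℕ) [NeZero m] (χ : DirichletCharacter ℂ m) (h : ZMod m) :
    ‖chat m χ h‖ ≤ Real.sqrt m * Real.sqrt (Nat.gcd h.val m : ℕ) := by
  rw [← Real.sqrt_mul (Nat.cast_nonneg m)]
  exact Real.le_sqrt_of_sq_le (chat_sq m χ h)

private theorem tpv_geo (m : ℕ) [NeZero m] (h : ZMod m) (h0 : h ≠ 0) (M : ℕ) :
    ‖∑ x ∈ Icc 1 M, ZMod.stdAddChar (h * (x : ZMod m))‖
      ≤ (m : ℝ) / (2 * (min h.val (m - h.val) : ℕ)) := by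
  have h1 : 1 ≤ h.val := by
    rcases Nat.eq_zero_or_pos h.val with h2 | h2
    · exact absurd ((ZMod.val_eq_zero h).mp h2) h0
    · exact h2
  have h3 := geo m h.val h1 (ZMod.val_lt h) M
  rwa [ZMod.natCast_zmod_val h] at h3

private theorem tpv_term (m : ℕ) [NeZero m] (χ : DirichletCharacter ℂ m) (h : ZMod m) (h0 : h ≠ 0)
    (M : ℕ) :
    ‖chat m χ h * ∑ x ∈ Icc 1 M, ZMod.stdAddChar (h * (x : ZMod m))‖
      ≤ (Real.sqrt m * m) *
        (Real.sqrt (Nat.gcd h.val m : ℕ) / (2 * (min h.val (m - h.val) : ℕ))) := by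
  rw [norm_mul]
  calc ‖chat m χ h‖ * ‖∑ x ∈ Icc 1 M, ZMod.stdAddChar (h * (x : ZMod m))‖
      ≤ (Real.sqrt m * Real.sqrt (Nat.gcd h.val m : ℕ)) *
          ((m : ℝ) / (2 * (min h.val (m - h.val) : ℕ))) :=
        mul_le_mul (tpv_chat m χ h) (tpv_geo m h h0 M) (norm_nonneg _) (by positivity)
    _ = _ := by ring

theorem pv (m : ℕ) [NeZero m] (χ : DirichletCharacter ℂ m) (hχ : χ ≠ 1) (M : ℕ) :
    ‖∑ x ∈ Icc 1 M, χ (x : ZMod m)‖ ≤ KK m := by
  classical
  have hm : 1 ≤ m := Nat.one_le_iff_ne_zero.mpr (NeZero.ne m)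
  have hmR : (0 : ℝ) < m := by exact_mod_cast hm
  have e1 : ∑ x ∈ Icc 1 M, χ (x : ZMod m)
      = (1 / (m : ℂ)) * ∑ h : ZMod m, chat m χ h *
          ∑ x ∈ Icc 1 M, ZMod.stdAddChar (h * (x : ZMod m)) := by
    have e0 : ∑ x ∈ Icc 1 M, χ (x : ZMod m) = ∑ x ∈ Icc 1 M, (1 / (m : ℂ)) *
        ∑ h : ZMod m, chat m χ h * ZMod.stdAddChar (h * (x : ZMod m)) :=
      Finset.sum_congr rfl fun x _ => inversion m χ (x : ZMod m)
    rw [e0, ← Finset.mul_sum, Finset.sum_comm]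
    congr 1
    exact Finset.sum_congr rfl fun h _ => by rw [Finset.mul_sum]
  have e2 : ∑ h : ZMod m, chat m χ h * ∑ x ∈ Icc 1 M, ZMod.stdAddChar (h * (x : ZMod m))
      = ∑ h ∈ univ.erase (0 : ZMod m), chat m χ h *
          ∑ x ∈ Icc 1 M, ZMod.stdAddChar (h * (x : ZMod m)) := by
    rw [← Finset.add_sum_erase univ _ (mem_univ (0 : ZMod m)), chat_zero m χ hχ, zero_mul, zero_add]
  have e3 : ‖∑ h ∈ univ.erase (0 : ZMod m), chat m χ h *
          ∑ x ∈ Icc 1 M, ZMod.stdAddChar (h * (x : ZMod m))‖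
      ≤ (Real.sqrt m * m) * ((m.divisors.card : ℝ) * (1 + Real.log m)) := by
    calc _ ≤ ∑ h ∈ univ.erase (0 : ZMod m), (Real.sqrt m * m) *
            (Real.sqrt (Nat.gcd h.val m : ℕ) / (2 * (min h.val (m - h.val) : ℕ))) :=
          (norm_sum_le _ _).trans (Finset.sum_le_sum fun h hh =>
            tpv_term m χ h (Finset.ne_of_mem_erase hh) M)
      _ = (Real.sqrt m * m) * ∑ h ∈ univ.erase (0 : ZMod m),
            (Real.sqrt (Nat.gcd h.val m : ℕ) / (2 * (min h.val (m - h.val) : ℕ))) := by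
          rw [Finset.mul_sum]
      _ = (Real.sqrt m * m) * ∑ k ∈ (univ.erase (0 : ZMod m)).image ZMod.val,
            (Real.sqrt (Nat.gcd k m : ℕ) / (2 * (min k (m - k) : ℕ))) := by
          rw [Finset.sum_image fun a _ b _ hab => ZMod.val_injective m hab]
      _ ≤ (Real.sqrt m * m) * ∑ k ∈ Icc 1 (m - 1),
            (Real.sqrt (Nat.gcd k m : ℕ) / (2 * (min k (m - k) : ℕ))) := by
          apply mul_le_mul_of_nonneg_left _ (by positivity)
          apply Finset.sum_le_sum_of_subset_of_nonneg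
          · intro k hk
            rw [Finset.mem_image] at hk
            obtain ⟨h, hh, rfl⟩ := hk
            have h1 : h ≠ 0 := Finset.ne_of_mem_erase hh
            have h2 : h.val < m := ZMod.val_lt h
            have h3 : h.val ≠ 0 := fun h4 => h1 ((ZMod.val_eq_zero h).mp h4)
            rw [Finset.mem_Icc]
            omega
          · intro k _ _
            positivity
      _ ≤ _ := mul_le_mul_of_nonneg_left (gcdsum m hm) (by positivity)
  rw [e1, e2, norm_mul]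
  have e4 : ‖(1 / (m : ℂ))‖ = 1 / (m : ℝ) := by
    rw [norm_div, norm_one, Complex.norm_natCast]
  rw [e4]
  unfold KK
  calc 1 / (m : ℝ) * _ ≤ 1 / (m : ℝ) *
        ((Real.sqrt m * m) * ((m.divisors.card : ℝ) * (1 + Real.log m))) :=
        mul_le_mul_of_nonneg_left e3 (by positivity)
    _ = Real.sqrt m * m.divisors.card * (1 + Real.log m) := by
        field_simp

end Pool.Agent.H78.PG

end

section

/-!
# LQ / PG, TQO: quasi-orthogonality on short intervals

`pv_cop`: characters vanish at numbers not prime to `m`, so `∑ x ∈ cop m M = ∑ x ∈ Icc 1 M`.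
`quasi`: expand `‖∑ d_χ χ(x)‖²`; the diagonal gives `#cop * ∑ ‖d_χ‖²`; off the diagonal
`|∑_x χ(x) conj(χ'(x))| ≤ KK m` (`pv` for `χ * χ'⁻¹ ≠ 1`), and `(∑ ‖d_χ‖)² ≤ #X ∑ ‖d_χ‖²`.
-/

set_option autoImplicit false

namespace Pool.Agent.H78.PG

open Finset
open Pool.Agent.H34PG (lam lam_val lam_mul)
open Pool.Agent.H11.LQ

theorem pv_cop (m : ℕ) [NeZero m] (χ : DirichletCharacter ℂ m) (hχ : χ ≠ 1) (M : ℕ) :
    ‖∑ x ∈ cop m M, χ (x : ZMod m)‖ ≤ KK m := by
  have h : ∑ x ∈ cop m M, χ (x : ZMod m) = ∑ x ∈ Icc 1 M, χ (x : ZMod m) := by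
    unfold cop
    rw [Finset.sum_filter_of_ne]
    intro x _ hx
    by_contra hc
    apply hx
    apply χ.map_nonunit
    intro hu
    exact hc ((ZMod.isUnit_iff_coprime x m).1 hu)
  rw [h]
  exact pv m χ hχ M

theorem tqo_KK_nonneg (m : ℕ) [NeZero m] : 0 ≤ KK m := by
  unfold KK
  have h1 : (1 : ℝ) ≤ m := by exact_mod_cast Nat.one_le_iff_ne_zero.2 (NeZero.ne m)
  have h2 : 0 ≤ Real.log m := Real.log_nonneg h1
  positivity

theorem tqo_corr (m : ℕ) [NeZero m] (χ χ' : DirichletCharacter ℂ m) (M : ℕ) :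
    ‖(∑ x ∈ cop m M, χ (x : ZMod m) * (starRingEnd ℂ) (χ' (x : ZMod m)))
      - (if χ = χ' then (((cop m M).card : ℕ) : ℂ) else 0)‖ ≤ KK m := by
  have hconj : ∀ x ∈ cop m M, (starRingEnd ℂ) (χ' (x : ZMod m)) = χ'⁻¹ (x : ZMod m) := by
    intro x _
    have := MulChar.star_apply' χ' (x : ZMod m)
    simpa using this
  by_cases h : χ = χ'
  · subst h
    have h1 : (∑ x ∈ cop m M, χ (x : ZMod m) * (starRingEnd ℂ) (χ (x : ZMod m)))
        = (((cop m M).card : ℕ) : ℂ) := by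
      rw [Finset.card_eq_sum_ones, Nat.cast_sum]
      apply Finset.sum_congr rfl
      intro x hx
      rw [hconj x hx, ← MulChar.mul_apply, mul_inv_cancel]
      have hu : IsUnit (x : ZMod m) := (ZMod.isUnit_iff_coprime x m).2 (mem_cop.1 hx).2.2
      rw [MulChar.one_apply hu]
      simp
    rw [h1, if_pos rfl, sub_self, norm_zero]
    exact tqo_KK_nonneg m
  · rw [if_neg h, sub_zero]
    have h1 : (∑ x ∈ cop m M, χ (x : ZMod m) * (starRingEnd ℂ) (χ' (x : ZMod m)))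
        = ∑ x ∈ cop m M, (χ * χ'⁻¹) (x : ZMod m) := by
      apply Finset.sum_congr rfl
      intro x hx
      rw [hconj x hx, MulChar.mul_apply]
    rw [h1]
    apply pv_cop
    intro hc
    exact h (mul_inv_eq_one.1 hc)

theorem tqo_expand (m : ℕ) [NeZero m] (X : Finset (DirichletCharacter ℂ m))
    (d : DirichletCharacter ℂ m → ℂ) (M : ℕ) :
    (((∑ x ∈ cop m M, ‖∑ χ ∈ X, d χ * χ (x : ZMod m)‖ ^ 2
        - ((cop m M).card : ℝ) * ∑ χ ∈ X, ‖d χ‖ ^ 2 : ℝ)) : ℂ)
      = ∑ χ ∈ X, ∑ χ' ∈ X, d χ * (starRingEnd ℂ) (d χ') *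
        ((∑ x ∈ cop m M, χ (x : ZMod m) * (starRingEnd ℂ) (χ' (x : ZMod m)))
          - (if χ = χ' then (((cop m M).card : ℕ) : ℂ) else 0)) := by
  classical
  have h1 : ((∑ x ∈ cop m M, ‖∑ χ ∈ X, d χ * χ (x : ZMod m)‖ ^ 2 : ℝ) : ℂ)
      = ∑ χ ∈ X, ∑ χ' ∈ X, d χ * (starRingEnd ℂ) (d χ') *
        (∑ x ∈ cop m M, χ (x : ZMod m) * (starRingEnd ℂ) (χ' (x : ZMod m))) := by
    push_cast
    have : ∀ x ∈ cop m M, ((‖∑ χ ∈ X, d χ * χ (x : ZMod m)‖ : ℝ) : ℂ) ^ 2
        = ∑ χ ∈ X, ∑ χ' ∈ X, d χ * (starRingEnd ℂ) (d χ') *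
          (χ (x : ZMod m) * (starRingEnd ℂ) (χ' (x : ZMod m))) := by
      intro x _
      rw [← Complex.mul_conj', map_sum, Finset.sum_mul_sum]
      apply Finset.sum_congr rfl
      intro χ _
      apply Finset.sum_congr rfl
      intro χ' _
      rw [map_mul]
      ring
    rw [Finset.sum_congr rfl this, Finset.sum_comm]
    apply Finset.sum_congr rfl
    intro χ _
    rw [Finset.sum_comm]
    apply Finset.sum_congr rfl
    intro χ' _
    rw [Finset.mul_sum]
  have h2 : ((((cop m M).card : ℝ) * ∑ χ ∈ X, ‖d χ‖ ^ 2 : ℝ) : ℂ)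
      = ∑ χ ∈ X, ∑ χ' ∈ X, d χ * (starRingEnd ℂ) (d χ') *
        (if χ = χ' then (((cop m M).card : ℕ) : ℂ) else 0) := by
    push_cast
    rw [Finset.mul_sum]
    apply Finset.sum_congr rfl
    intro χ hχ
    have : ∀ χ' ∈ X, d χ * (starRingEnd ℂ) (d χ') *
        (if χ = χ' then (((cop m M).card : ℕ) : ℂ) else 0)
        = if χ = χ' then (((cop m M).card : ℕ) : ℂ) * ((‖d χ‖ : ℝ) : ℂ) ^ 2 else 0 := by
      intro χ' _
      by_cases h : χ = χ'
      · subst h
        rw [if_pos rfl, if_pos rfl, ← Complex.mul_conj']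
        ring
      · rw [if_neg h, if_neg h, mul_zero]
    rw [Finset.sum_congr rfl this, Finset.sum_ite_eq, if_pos hχ]
  rw [Complex.ofReal_sub, h1, h2, ← Finset.sum_sub_distrib]
  apply Finset.sum_congr rfl
  intro χ _
  rw [← Finset.sum_sub_distrib]
  apply Finset.sum_congr rfl
  intro χ' _
  rw [mul_sub]

theorem quasi (m : ℕ) [NeZero m] (X : Finset (DirichletCharacter ℂ m))
    (d : DirichletCharacter ℂ m → ℂ) (M : ℕ) :
    (((cop m M).card : ℝ) - X.card * KK m) * ∑ χ ∈ X, ‖d χ‖ ^ 2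
      ≤ ∑ x ∈ cop m M, ‖∑ χ ∈ X, d χ * χ (x : ZMod m)‖ ^ 2 := by
  have h := tqo_expand m X d M
  have hK := tqo_KK_nonneg m
  set S : ℝ := ∑ x ∈ cop m M, ‖∑ χ ∈ X, d χ * χ (x : ZMod m)‖ ^ 2 with hS
  set Q : ℝ := ∑ χ ∈ X, ‖d χ‖ ^ 2 with hQ
  have h1 : |S - ((cop m M).card : ℝ) * Q| ≤ KK m * (∑ χ ∈ X, ‖d χ‖) ^ 2 := by
    have h2 : |S - ((cop m M).card : ℝ) * Q| = ‖(((S - ((cop m M).card : ℝ) * Q : ℝ)) : ℂ)‖ := by
      rw [Complex.norm_real, Real.norm_eq_abs]
    rw [h2, h, sq, Finset.sum_mul_sum, Finset.mul_sum]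
    refine (norm_sum_le _ _).trans (Finset.sum_le_sum fun χ _ => ?_)
    rw [Finset.mul_sum]
    refine (norm_sum_le _ _).trans (Finset.sum_le_sum fun χ' _ => ?_)
    rw [norm_mul, norm_mul, RCLike.norm_conj, mul_comm (KK m)]
    exact mul_le_mul_of_nonneg_left (tqo_corr m χ χ' M) (by positivity)
  have h3 : (∑ χ ∈ X, ‖d χ‖) ^ 2 ≤ X.card * Q := by
    have := sq_sum_le_card_mul_sum_sq (s := X) (f := fun χ => ‖d χ‖)
    exact this
  have h4 : KK m * (∑ χ ∈ X, ‖d χ‖) ^ 2 ≤ KK m * (X.card * Q) :=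
    mul_le_mul_of_nonneg_left h3 hK
  have h5 := (abs_le.1 h1).1
  nlinarith [h4, h5]

end Pool.Agent.H78.PG

end

section

/-!
# LQ / PG, TSplit: `n = d y` with `d | m^∞` and `y` prime to `m`

`split`: the map `(d, y) ↦ d y` is a bijection from `{(d,y) : d ∈ sm m M, y ∈ cop m (M/d)}` onto `[1, M]`
(`Finset.sum_sigma'`, `Finset.sum_bij'`; inverse: `cp m n = n / gcd(n, m^n)` is the part prime to `m`, or
`Nat.factoredNumbers`, or `∏ p ∈ n.primeFactors with p ∣ m, p^(v_p n)`).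
`sm_sum`: `∑_{d ∈ sm m M} d^(-1/2) ≤ ∏_{p | m} ∑_k p^(-k/2)`: Mathlib
`EulerProduct.summable_and_hasSum_factoredNumbers_prod_filter_prime_geometric` with `s = m.primeFactors`,
`f n = n^(-1/2)`; `sm m M ⊆ Nat.factoredNumbers m.primeFactors`.
-/

set_option autoImplicit false

namespace Pool.Agent.H78.PG

open Finset
open Pool.Agent.H34PG (lam lam_val lam_mul)
open Pool.Agent.H11.LQ

open Classical in
/-- the numbers up to `M` all of whose prime factors divide `m` -/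
noncomputable def sm (m M : ℕ) : Finset ℕ :=
  (Icc 1 M).filter (fun d => ∀ p : ℕ, p.Prime → p ∣ d → p ∣ m)

open Classical in
theorem mem_sm {m M d : ℕ} :
    d ∈ sm m M ↔ (1 ≤ d ∧ d ≤ M) ∧ ∀ p : ℕ, p.Prime → p ∣ d → p ∣ m := by
  unfold sm
  rw [mem_filter, mem_Icc]

/-- existence of the decomposition -/
private theorem tsplit_exists (m : ℕ) (n : ℕ) (hn : n ≠ 0) :
    ∃ d y : ℕ, d * y = n ∧ (∀ p : ℕ, p.Prime → p ∣ d → p ∣ m) ∧ y.Coprime m := by
  induction n using Nat.recOnMul with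
  | zero => exact absurd rfl hn
  | one =>
    exact ⟨1, 1, rfl, fun p hp h => absurd (Nat.dvd_one.mp h) hp.one_lt.ne',
      Nat.coprime_one_left m⟩
  | prime p hp =>
    by_cases h : p ∣ m
    · refine ⟨p, 1, mul_one p, fun q hq hqp => ?_, Nat.coprime_one_left m⟩
      rw [(Nat.prime_dvd_prime_iff_eq hq hp).mp hqp]
      exact h
    · exact ⟨1, p, one_mul p, fun q hq h => absurd (Nat.dvd_one.mp h) hq.one_lt.ne',
        (Nat.Prime.coprime_iff_not_dvd hp).mpr h⟩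
  | mul a b ha hb =>
    obtain ⟨d, y, h1, h2, h3⟩ := ha (fun h => hn (by rw [h, zero_mul]))
    obtain ⟨e, z, g1, g2, g3⟩ := hb (fun h => hn (by rw [h, mul_zero]))
    refine ⟨d * e, y * z, ?_, fun p hp hpd => ?_, Nat.Coprime.mul_left h3 g3⟩
    · rw [← h1, ← g1]
      ring
    · rcases (Nat.Prime.dvd_mul hp).mp hpd with h | h
      · exact h2 p hp h
      · exact g2 p hp h

/-- a number all of whose prime factors divide `m` is prime to a number prime to `m` -/
private theorem tsplit_coprime {m d y : ℕ} (hd : ∀ p : ℕ, p.Prime → p ∣ d → p ∣ m)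
    (hy : y.Coprime m) : d.Coprime y := by
  by_contra h
  obtain ⟨p, hp, h1, h2⟩ := Nat.Prime.not_coprime_iff_dvd.mp h
  exact Nat.Prime.not_coprime_iff_dvd.mpr ⟨p, hp, h2, hd p hp h1⟩ hy

/-- uniqueness of the decomposition -/
private theorem tsplit_unique {m d y e z : ℕ} (hd : ∀ p : ℕ, p.Prime → p ∣ d → p ∣ m)
    (hy : y.Coprime m) (he : ∀ p : ℕ, p.Prime → p ∣ e → p ∣ m) (hz : z.Coprime m)
    (h : d * y = e * z) : d = e := by
  apply Nat.dvd_antisymm
  · exact (tsplit_coprime hd hz).dvd_of_dvd_mul_right (h ▸ dvd_mul_right d y)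
  · exact (tsplit_coprime he hy).dvd_of_dvd_mul_right (h ▸ dvd_mul_right e z)

theorem split {E : Type*} [AddCommMonoid E] (m M : ℕ) (hm : 1 ≤ m) (f : ℕ → E) :
    ∑ n ∈ Icc 1 M, f n = ∑ d ∈ sm m M, ∑ y ∈ cop m (M / d), f (d * y) := by
  rw [Finset.sum_sigma']
  symm
  apply Finset.sum_nbij (fun x : (_ : ℕ) × ℕ => x.1 * x.2)
  · rintro ⟨d, y⟩ h
    rw [mem_sigma, mem_sm, mem_cop] at h
    obtain ⟨⟨⟨h1, h2⟩, h3⟩, h4, h5, h6⟩ := h
    simp only at h1 h2 h3 h4 h5 h6 ⊢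
    rw [mem_Icc]
    refine ⟨Nat.mul_pos h1 h4, ?_⟩
    calc d * y ≤ d * (M / d) := Nat.mul_le_mul_left d h5
      _ ≤ M := Nat.mul_div_le M d
  · rintro ⟨d, y⟩ h ⟨e, z⟩ g heq
    rw [mem_coe, mem_sigma, mem_sm, mem_cop] at h g
    obtain ⟨⟨⟨h1, h2⟩, h3⟩, h4, h5, h6⟩ := h
    obtain ⟨⟨⟨g1, g2⟩, g3⟩, g4, g5, g6⟩ := g
    simp only at h1 h2 h3 h4 h5 h6 g1 g2 g3 g4 g5 g6 heq
    have h7 : d = e := tsplit_unique h3 h6 g3 g6 heq
    subst h7
    have h8 : y = z := Nat.eq_of_mul_eq_mul_left h1 heq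
    subst h8
    rfl
  · intro n hn
    rw [mem_coe, mem_Icc] at hn
    obtain ⟨d, y, h1, h2, h3⟩ := tsplit_exists m n (by omega)
    have hd : d ≠ 0 := fun h => by
      rw [h, zero_mul] at h1
      omega
    have hy : y ≠ 0 := fun h => by
      rw [h, mul_zero] at h1
      omega
    have hdn : d ≤ n := by
      rw [← h1]
      exact Nat.le_mul_of_pos_right d (Nat.pos_of_ne_zero hy)
    refine ⟨⟨d, y⟩, ?_, h1⟩
    rw [mem_coe, mem_sigma, mem_sm, mem_cop]
    refine ⟨⟨⟨Nat.pos_of_ne_zero hd, hdn.trans hn.2⟩, h2⟩, Nat.pos_of_ne_zero hy, ?_, h3⟩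
    show y ≤ M / d
    rw [Nat.le_div_iff_mul_le (Nat.pos_of_ne_zero hd), mul_comm, h1]
    exact hn.2
  · intro x _
    rfl

/-- the completely multiplicative function `n ↦ n^(-1/2)` -/
private noncomputable def tsplitF : ℕ →* ℝ where
  toFun n := (n : ℝ) ^ (-(1 / 2 : ℝ))
  map_one' := by
    rw [Nat.cast_one, Real.one_rpow]
  map_mul' a b := by
    rw [Nat.cast_mul, Real.mul_rpow (Nat.cast_nonneg a) (Nat.cast_nonneg b)]

theorem sm_sum (m M : ℕ) (hm : 1 ≤ m) :
    ∑ d ∈ sm m M, (d : ℝ) ^ (-(1 / 2 : ℝ))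
      ≤ ∏ p ∈ m.primeFactors, (1 - (p : ℝ) ^ (-(1 / 2 : ℝ)))⁻¹ := by
  have hlt : ∀ {p : ℕ}, p.Prime → ‖tsplitF p‖ < 1 := by
    intro p hp
    show ‖(p : ℝ) ^ (-(1 / 2 : ℝ))‖ < 1
    have h1 : (1 : ℝ) < p := by exact_mod_cast hp.one_lt
    rw [Real.norm_of_nonneg (Real.rpow_nonneg (by linarith) _)]
    exact Real.rpow_lt_one_of_one_lt_of_neg h1 (by norm_num)
  obtain ⟨-, hs⟩ :=
    EulerProduct.summable_and_hasSum_factoredNumbers_prod_filter_prime_geometric hlt
      m.primeFactors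
  have hfil : m.primeFactors.filter (fun p => p.Prime) = m.primeFactors :=
    filter_true_of_mem fun p hp => Nat.prime_of_mem_primeFactors hp
  rw [hfil] at hs
  have hmem : ∀ d ∈ sm m M, d ∈ Nat.factoredNumbers m.primeFactors := by
    intro d hd
    rw [mem_sm] at hd
    rw [Nat.mem_factoredNumbers']
    intro p hp hpd
    exact Nat.mem_primeFactors.mpr ⟨hp, hd.2 p hp hpd, by omega⟩
  have h2 : ∑ d ∈ sm m M, (d : ℝ) ^ (-(1 / 2 : ℝ))
      = ∑ x ∈ (sm m M).attach.image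
          (fun d => (⟨d.1, hmem d.1 d.2⟩ : Nat.factoredNumbers m.primeFactors)),
          tsplitF (x : ℕ) := by
    rw [sum_image]
    · rw [← sum_attach]
      rfl
    · intro a _ b _ hab
      exact Subtype.ext (congrArg (fun z : Nat.factoredNumbers m.primeFactors => (z : ℕ)) hab)
  rw [h2]
  refine (sum_le_hasSum _ (fun x _ => ?_) hs).trans_eq rfl
  exact Real.rpow_nonneg (Nat.cast_nonneg _) _

end Pool.Agent.H78.PG

end
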