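import Pool.Agent.H94.PG.M02
import Pool.Agent.H94.PG.M04
import Pool.Agent.H94.PG.M06
import Pool.Agent.H94.PG.M07

/-! The parts of this file: H78.PG.TLam, H78.PG.TTail, H78.PG.THyp, H91.EHA.SwD3, H78.PG.TSie. -/

section

/-!
# LQ / PG, TLam: `∑_{d ≤ M, (d,m)=1} λ(d) ⌊M/d⌋` is small

`∑_{d ∈ cop m M} λ(d) ⌊M/d⌋ = ∑_{n ≤ M} ∑_{d | n, (d,m)=1} λ(d)`.  By `split`, `n = u y`, `u | m^∞`, `(y,m)=1`; the
divisors of `u y` prime to `m` are the divisors of `y`, and `∑_{d | y} λ(d) = 1` if `y` is a square and `0`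
otherwise (`lamsq`).  The number of squares in `[1, M/u]` is `≤ √(M/u)`; `sm_sum`.
`lamsq`: multiplicative in `y`; prime powers: `∑_{i ≤ k} (-1)^i`.  Mathlib: `ArithmeticFunction.IsMultiplicative`,
or `Nat.recOnPosPrimePosCoprime`, `Nat.Coprime.sum_divisors_mul`-type lemmas.
-/

set_option autoImplicit false

namespace Pool.Agent.H78.PG

open Finset
open Pool.Agent.H34PG (lam lam_val lam_mul lam_prime)
open Pool.Agent.H11.LQ

private theorem tlam_sq {a b c : ℕ} (h : a.Coprime b) (hc : a * b = c ^ 2) :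
    ∃ d, a = d ^ 2 :=
  exists_eq_pow_of_mul_eq_pow (by
    have : gcd a b = 1 := h
    rw [this]
    exact isUnit_one) hc

private theorem tlam_isSquare_mul {a b : ℕ} (h : a.Coprime b) :
    IsSquare (a * b) ↔ IsSquare a ∧ IsSquare b := by
  constructor
  · rintro ⟨c, hc⟩
    have hc2 : a * b = c ^ 2 := by rw [hc, sq]
    constructor
    · obtain ⟨d, hd⟩ := tlam_sq h hc2
      exact ⟨d, by rw [hd, sq]⟩
    · obtain ⟨d, hd⟩ := tlam_sq h.symm (by rw [mul_comm]; exact hc2)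
      exact ⟨d, by rw [hd, sq]⟩
  · rintro ⟨⟨c, hc⟩, ⟨d, hd⟩⟩
    exact ⟨c * d, by rw [hc, hd]; ring⟩

private theorem tlam_sum_mul {a b : ℕ} (h : a.Coprime b) :
    ∑ d ∈ (a * b).divisors, lam d = (∑ d ∈ a.divisors, lam d) * ∑ d ∈ b.divisors, lam d := by
  rw [Nat.divisors_mul, Finset.mul_def, Finset.sum_image h.mul_injOn_divisors, Finset.sum_product,
    Finset.sum_mul_sum]
  refine Finset.sum_congr rfl fun x hx => Finset.sum_congr rfl fun y hy => ?_
  exact lam_mul x y (Nat.pos_of_mem_divisors hx) (Nat.pos_of_mem_divisors hy)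

private theorem tlam_pow {p : ℕ} (hp : p.Prime) (k : ℕ) : lam (p ^ k) = (-1) ^ k := by
  unfold lam
  rw [ArithmeticFunction.cardFactors_apply_prime_pow hp]

private theorem tlam_pow_square {p : ℕ} (hp : p.Prime) (k : ℕ) :
    IsSquare (p ^ k) ↔ Even k := by
  constructor
  · rintro ⟨c, hc⟩
    have h1 := congrArg (fun n => n.factorization p) hc
    have hc0 : c ≠ 0 := by
      rintro rfl
      rw [mul_zero] at hc
      exact absurd hc (pow_ne_zero _ hp.ne_zero)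
    simp only [hp.factorization_pow, Finsupp.single_eq_same, Nat.factorization_mul hc0 hc0,
      Finsupp.add_apply] at h1
    exact ⟨_, h1⟩
  · rintro ⟨c, rfl⟩
    exact ⟨p ^ c, by rw [pow_add]⟩

private theorem tlam_alt (k : ℕ) :
    ∑ i ∈ range (k + 1), ((-1 : ℤ)) ^ i = if Even k then 1 else 0 := by
  induction k with
  | zero => simp
  | succ n ih =>
    rw [Finset.sum_range_succ, ih]
    rcases Nat.even_or_odd n with h | h
    · rw [if_pos h, if_neg (by rw [Nat.even_add_one]; exact not_not.mpr h),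
        (Even.add_one h).neg_one_pow]
      norm_num
    · rw [if_neg (Nat.not_even_iff_odd.mpr h), if_pos (Odd.add_one h),
        (Odd.add_one h).neg_one_pow]
      norm_num

theorem lamsq (y : ℕ) (hy : 1 ≤ y) :
    ∑ d ∈ y.divisors, lam d = if IsSquare y then 1 else 0 := by
  induction y using Nat.recOnPosPrimePosCoprime with
  | prime_pow p n hp hn =>
    rw [Nat.sum_divisors_prime_pow hp]
    simp only [tlam_pow hp, tlam_pow_square hp, tlam_alt]
  | zero => omega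
  | one =>
    rw [Nat.divisors_one, Finset.sum_singleton, if_pos IsSquare.one]
    exact Pool.Agent.H34PG.lam_one
  | coprime a b ha hb hab iha ihb =>
    rw [tlam_sum_mul hab, iha (by omega), ihb (by omega)]
    by_cases h1 : IsSquare a <;> by_cases h2 : IsSquare b <;>
      simp only [tlam_isSquare_mul hab, h1, h2, if_true, if_false, and_self, and_true, true_and,
        and_false, false_and, mul_one, mul_zero, zero_mul, one_mul]

/-- the divisor sum over divisors prime to `m` -/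
private noncomputable def tf (m n : ℕ) : ℝ :=
  ∑ d ∈ n.divisors.filter (fun d => d.Coprime m), ((lam d : ℤ) : ℝ)

private theorem tlam_lhs (m M : ℕ) :
    ∑ d ∈ cop m M, ((lam d : ℤ) : ℝ) * ((M / d : ℕ) : ℝ) = ∑ n ∈ Icc 1 M, tf m n := by
  have h1 : ∀ d : ℕ, ((M / d : ℕ) : ℝ) = ∑ n ∈ Icc 1 M, if d ∣ n then (1 : ℝ) else 0 := by
    intro d
    rw [← Nat.Ioc_filter_dvd_card_eq_div M d, Finset.card_filter]
    push_cast
    have : Ioc 0 M = Icc 1 M := by
      ext x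
      rw [Finset.mem_Ioc, Finset.mem_Icc]
      omega
    rw [this]
  simp only [h1, Finset.mul_sum]
  rw [Finset.sum_comm]
  refine Finset.sum_congr rfl fun n hn => ?_
  rw [Finset.mem_Icc] at hn
  unfold tf
  simp only [mul_ite, mul_one, mul_zero]
  rw [← Finset.sum_filter]
  refine Finset.sum_congr ?_ fun _ _ => rfl
  ext d
  rw [Finset.mem_filter, Finset.mem_filter, mem_cop, Nat.mem_divisors]
  constructor
  · rintro ⟨⟨h2, h3, h4⟩, h5⟩
    exact ⟨⟨h5, by omega⟩, h4⟩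
  · rintro ⟨⟨h2, h3⟩, h4⟩
    have h5 := Nat.le_of_dvd (by omega) h2
    have h6 := Nat.pos_of_dvd_of_pos h2 (by omega)
    exact ⟨⟨h6, by omega, h4⟩, h2⟩

private theorem tf_eq {m M u y : ℕ} (hu : u ∈ sm m M) (hy : y ∈ cop m (M / u)) :
    tf m (u * y) = if IsSquare y then 1 else 0 := by
  rw [mem_sm] at hu
  rw [mem_cop] at hy
  have h1 : (u * y).divisors.filter (fun d => d.Coprime m) = y.divisors := by
    ext d
    rw [Finset.mem_filter, Nat.mem_divisors, Nat.mem_divisors]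
    constructor
    · rintro ⟨⟨h2, h3⟩, h4⟩
      refine ⟨?_, by omega⟩
      have h5 : d.Coprime u := by
        rw [Nat.coprime_iff_gcd_eq_one]
        by_contra hcon
        obtain ⟨p, hp, hpd⟩ := Nat.exists_prime_and_dvd hcon
        have h6 : p ∣ d := hpd.trans (Nat.gcd_dvd_left _ _)
        have h7 : p ∣ u := hpd.trans (Nat.gcd_dvd_right _ _)
        have h8 := hu.2 p hp h7
        have h9 := Nat.dvd_gcd h6 h8
        rw [h4] at h9
        exact hp.one_lt.ne' (Nat.dvd_one.mp h9)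
      exact h5.dvd_of_dvd_mul_left h2
    · rintro ⟨h2, h3⟩
      refine ⟨⟨h2.mul_left u, Nat.mul_ne_zero (by omega) h3⟩, ?_⟩
      exact Nat.Coprime.coprime_dvd_left h2 hy.2.2
  unfold tf
  rw [h1]
  have h2 := lamsq y hy.1
  have h3 : ((∑ d ∈ y.divisors, lam d : ℤ) : ℝ) = ((if IsSquare y then 1 else 0 : ℤ) : ℝ) := by
    rw [h2]
  push_cast at h3
  exact h3

private theorem tlam_squares (A : Finset ℕ) (x : ℝ) (hA : ∀ y ∈ A, 1 ≤ y ∧ (y : ℝ) ≤ x) :
    ∑ y ∈ A, (if IsSquare y then (1 : ℝ) else 0) ≤ Real.sqrt x := by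
  classical
  rw [← Finset.sum_filter, Finset.sum_const, nsmul_eq_mul, mul_one]
  have h1 : A.filter IsSquare ⊆ (Icc 1 ⌊Real.sqrt x⌋₊).image (fun c => c * c) := by
    intro y hy
    rw [Finset.mem_filter] at hy
    obtain ⟨h2, c, rfl⟩ := hy
    obtain ⟨h3, h4⟩ := hA _ h2
    rw [Finset.mem_image]
    refine ⟨c, Finset.mem_Icc.mpr ⟨?_, ?_⟩, rfl⟩
    · by_contra hcon
      have : c = 0 := by omega
      subst this
      omega
    · refine Nat.le_floor ?_
      refine Real.le_sqrt_of_sq_le ?_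
      push_cast at h4
      rw [sq]
      exact h4
  have h2 := (Finset.card_le_card h1).trans Finset.card_image_le
  rw [Nat.card_Icc, Nat.add_sub_cancel] at h2
  calc ((A.filter IsSquare).card : ℝ) ≤ (⌊Real.sqrt x⌋₊ : ℝ) := by exact_mod_cast h2
    _ ≤ Real.sqrt x := Nat.floor_le (Real.sqrt_nonneg _)

theorem lam_sum (m M : ℕ) (hm : 1 ≤ m) :
    |∑ d ∈ cop m M, ((lam d : ℤ) : ℝ) * ((M / d : ℕ) : ℝ)| ≤ Real.sqrt M *
      ∏ p ∈ m.primeFactors, (1 - (p : ℝ) ^ (-(1 / 2 : ℝ)))⁻¹ := by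
  rw [tlam_lhs, split m M hm (tf m)]
  have h1 : ∑ d ∈ sm m M, ∑ y ∈ cop m (M / d), tf m (d * y) =
      ∑ d ∈ sm m M, ∑ y ∈ cop m (M / d), (if IsSquare y then (1 : ℝ) else 0) :=
    Finset.sum_congr rfl fun d hd => Finset.sum_congr rfl fun y hy => tf_eq hd hy
  rw [h1, abs_of_nonneg (Finset.sum_nonneg fun d _ => Finset.sum_nonneg fun y _ => by
    split_ifs <;> norm_num)]
  have h2 : ∀ d ∈ sm m M, ∑ y ∈ cop m (M / d), (if IsSquare y then (1 : ℝ) else 0) ≤
      Real.sqrt M * (d : ℝ) ^ (-(1 / 2 : ℝ)) := by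
    intro d hd
    rw [mem_sm] at hd
    have hd0 : (0 : ℝ) < d := by exact_mod_cast hd.1.1
    have h3 : Real.sqrt M * (d : ℝ) ^ (-(1 / 2 : ℝ)) = Real.sqrt ((M : ℝ) / d) := by
      rw [Real.sqrt_div (by positivity), Real.rpow_neg hd0.le, ← Real.sqrt_eq_rpow]
      rfl
    rw [h3]
    refine tlam_squares _ _ fun y hy => ?_
    rw [mem_cop] at hy
    refine ⟨hy.1, ?_⟩
    rw [le_div_iff₀ hd0]
    have h4 : y * d ≤ M := (Nat.mul_le_mul_right d hy.2.1).trans (Nat.div_mul_le_self M d)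
    exact_mod_cast h4
  calc _ ≤ ∑ d ∈ sm m M, Real.sqrt M * (d : ℝ) ^ (-(1 / 2 : ℝ)) := Finset.sum_le_sum h2
    _ = Real.sqrt M * ∑ d ∈ sm m M, (d : ℝ) ^ (-(1 / 2 : ℝ)) := by rw [Finset.mul_sum]
    _ ≤ _ := mul_le_mul_of_nonneg_left (sm_sum m M hm) (Real.sqrt_nonneg _)

end Pool.Agent.H78.PG

end

section

/-!
# LQ / PG, TTail: the tail of `L(1,χ)`

`tail`: `‖L(1,χ) - ∑_{d ≤ D} χ(d)/d‖ ≤ 2 KK m/(D+1)`.  For real `s > 1`: `LFunction χ s = ∑ χ(n) n^(-s)`
(`DirichletCharacter.LFunction_eq_LSeries`), Abel summation for `n > D` with the decreasing `n^(-s)` and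
`‖∑_{D < n ≤ N} χ(n)‖ ≤ 2 KK m` (`pv`): the tail is `≤ 2 KK m (D+1)^(-s)`; let `s → 1+`
(`DirichletCharacter.differentiable_LFunction` gives continuity, `χ ≠ 1`).
-/

set_option autoImplicit false

namespace Pool.Agent.H78.PG

open Finset
open Pool.Agent.H34PG (lam lam_val lam_mul)
open Pool.Agent.H11.LQ

/-- Abel's inequality for a decreasing nonnegative weight -/
private lemma ttail_abel {a : ℕ → ℂ} {f : ℕ → ℝ} {K : ℝ} (hf : Antitone f) (hf0 : ∀ n, 0 ≤ f n)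
    (h : ∀ n, ‖∑ i ∈ range n, a i‖ ≤ K) (n : ℕ) :
    ‖∑ i ∈ range n, (f i) • a i‖ ≤ K * f 0 := by
  have hK : 0 ≤ K := (norm_nonneg _).trans (h 0)
  rcases n with _ | n
  · simp only [range_zero, sum_empty, norm_zero]
    exact mul_nonneg hK (hf0 0)
  rw [Finset.sum_range_by_parts]
  simp only [Nat.add_sub_cancel]
  have h1 : ‖f n • ∑ i ∈ range (n + 1), a i‖ ≤ f n * K := by
    rw [norm_smul, Real.norm_of_nonneg (hf0 n)]
    exact mul_le_mul_of_nonneg_left (h _) (hf0 n)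
  have h2 : ‖∑ i ∈ range n, (f (i + 1) - f i) • ∑ j ∈ range (i + 1), a j‖ ≤ (f 0 - f n) * K := by
    calc ‖∑ i ∈ range n, (f (i + 1) - f i) • ∑ j ∈ range (i + 1), a j‖
        ≤ ∑ i ∈ range n, ‖(f (i + 1) - f i) • ∑ j ∈ range (i + 1), a j‖ := norm_sum_le _ _
      _ ≤ ∑ i ∈ range n, (f i - f (i + 1)) * K := by
          apply Finset.sum_le_sum
          intro i _
          rw [norm_smul, Real.norm_eq_abs, abs_sub_comm,
            abs_of_nonneg (sub_nonneg.mpr (hf (Nat.le_succ i)))]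
          exact mul_le_mul_of_nonneg_left (h _) (sub_nonneg.mpr (hf (Nat.le_succ i)))
      _ = (f 0 - f n) * K := by
          rw [← Finset.sum_mul, Finset.sum_range_sub']
  calc ‖f n • ∑ i ∈ range (n + 1), a i - ∑ i ∈ range n, (f (i + 1) - f i) • ∑ j ∈ range (i + 1), a j‖
      ≤ f n * K + (f 0 - f n) * K := (norm_sub_le _ _).trans (add_le_add h1 h2)
    _ = K * f 0 := by ring

/-- the tail for `s > 1` -/
private lemma ttail_gt (m : ℕ) [NeZero m] (χ : DirichletCharacter ℂ m) (hχ : χ ≠ 1) (D : ℕ)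
    {s : ℝ} (hs : 1 < s) :
    ‖DirichletCharacter.LFunction χ (s : ℂ) - ∑ d ∈ Icc 1 D, χ (d : ZMod m) / (d : ℂ) ^ (s : ℂ)‖
      ≤ 2 * KK m * ((D : ℝ) + 1) ^ (-s) := by
  have hre : 1 < (s : ℂ).re := by simpa using hs
  rw [DirichletCharacter.LFunction_eq_LSeries χ hre]
  have hsum : LSeriesSummable (fun n : ℕ => χ (n : ZMod m)) (s : ℂ) :=
    ZMod.LSeriesSummable_of_one_lt_re χ hre
  have hlim := (hsum.hasSum).tendsto_sum_nat
  have hlim2 := (hlim.sub_const (∑ d ∈ Icc 1 D, χ (d : ZMod m) / (d : ℂ) ^ (s : ℂ))).norm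
  refine le_of_tendsto hlim2 ?_
  filter_upwards [Filter.eventually_ge_atTop (D + 1)] with N hN
  obtain ⟨n, rfl⟩ := Nat.exists_eq_add_of_le hN
  have e1 : ∑ i ∈ range (D + 1 + n), LSeries.term (fun n : ℕ => χ (n : ZMod m)) (s : ℂ) i
      - ∑ d ∈ Icc 1 D, χ (d : ZMod m) / (d : ℂ) ^ (s : ℂ)
      = ∑ i ∈ range n, (((D : ℝ) + 1 + (i : ℝ)) ^ (-s)) • χ ((D + 1 + i : ℕ) : ZMod m) := by
    rw [Finset.sum_range_add]
    have e2 : ∑ i ∈ range (D + 1), LSeries.term (fun n : ℕ => χ (n : ZMod m)) (s : ℂ) i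
        = ∑ d ∈ Icc 1 D, χ (d : ZMod m) / (d : ℂ) ^ (s : ℂ) := by
      rw [Finset.sum_range_succ', LSeries.term_zero, add_zero, ← Finset.Ico_succ_right_eq_Icc,
        Finset.sum_Ico_eq_sum_range]
      simp only [Order.succ_eq_add_one, Nat.add_sub_cancel]
      apply Finset.sum_congr rfl
      intro i _
      rw [LSeries.term_of_ne_zero (by omega), add_comm 1 i]
    rw [e2, add_sub_cancel_left]
    apply Finset.sum_congr rfl
    intro i _
    rw [LSeries.term_of_ne_zero (by omega)]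
    have hpos : (0 : ℝ) ≤ (D : ℝ) + 1 + (i : ℝ) := by positivity
    have e3 : (((D + 1 + i : ℕ) : ℂ)) ^ (s : ℂ) = ((((D : ℝ) + 1 + (i : ℝ)) ^ s : ℝ) : ℂ) := by
      rw [Complex.ofReal_cpow hpos]
      push_cast
      rfl
    rw [e3, Real.rpow_neg hpos, Complex.real_smul, Complex.ofReal_inv, div_eq_inv_mul]
  rw [e1]
  have hanti : Antitone (fun i : ℕ => ((D : ℝ) + 1 + (i : ℝ)) ^ (-s)) := by
    intro i j hij
    have hij' : (i : ℝ) ≤ (j : ℝ) := by exact_mod_cast hij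
    apply Real.rpow_le_rpow_of_nonpos (by positivity) (by linarith) (by linarith)
  have hbound : ∀ n, ‖∑ i ∈ range n, χ ((D + 1 + i : ℕ) : ZMod m)‖ ≤ 2 * KK m := by
    intro n
    have e4 : ∑ i ∈ range n, χ ((D + 1 + i : ℕ) : ZMod m)
        = ∑ x ∈ Icc 1 (D + n), χ (x : ZMod m) - ∑ x ∈ Icc 1 D, χ (x : ZMod m) := by
      rw [← Finset.Ico_succ_right_eq_Icc, ← Finset.Ico_succ_right_eq_Icc,
        Finset.sum_Ico_eq_sum_range, Finset.sum_Ico_eq_sum_range]
      simp only [Order.succ_eq_add_one, Nat.add_sub_cancel]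
      rw [Finset.sum_range_add, add_sub_cancel_left]
      apply Finset.sum_congr rfl
      intro i _
      congr 2
      omega
    rw [e4]
    calc ‖∑ x ∈ Icc 1 (D + n), χ (x : ZMod m) - ∑ x ∈ Icc 1 D, χ (x : ZMod m)‖
        ≤ ‖∑ x ∈ Icc 1 (D + n), χ (x : ZMod m)‖ + ‖∑ x ∈ Icc 1 D, χ (x : ZMod m)‖ :=
          norm_sub_le _ _
      _ ≤ KK m + KK m := add_le_add (pv m χ hχ _) (pv m χ hχ _)
      _ = 2 * KK m := by ring
  have h := ttail_abel (a := fun i : ℕ => χ ((D + 1 + i : ℕ) : ZMod m)) hanti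
    (fun i => Real.rpow_nonneg (by positivity) _) hbound n
  simpa using h

theorem tail (m : ℕ) [NeZero m] (χ : DirichletCharacter ℂ m) (hχ : χ ≠ 1) (D : ℕ) :
    ‖DirichletCharacter.LFunction χ 1 - ∑ d ∈ Icc 1 D, χ (d : ZMod m) / (d : ℂ)‖
      ≤ 2 * KK m / (D + 1) := by
  have hcast : Filter.Tendsto (fun s : ℝ => (s : ℂ)) (nhdsWithin 1 (Set.Ioi 1)) (nhds (1 : ℂ)) := by
    have h := (Complex.continuous_ofReal.tendsto (1 : ℝ)).mono_left
      (nhdsWithin_le_nhds (s := Set.Ioi (1 : ℝ)))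
    simpa using h
  have hL : Filter.Tendsto (fun s : ℝ => DirichletCharacter.LFunction χ (s : ℂ))
      (nhdsWithin 1 (Set.Ioi 1)) (nhds (DirichletCharacter.LFunction χ 1)) :=
    ((DirichletCharacter.differentiable_LFunction hχ).continuous.tendsto 1).comp hcast
  have hS : Filter.Tendsto (fun s : ℝ => ∑ d ∈ Icc 1 D, χ (d : ZMod m) / (d : ℂ) ^ (s : ℂ))
      (nhdsWithin 1 (Set.Ioi 1)) (nhds (∑ d ∈ Icc 1 D, χ (d : ZMod m) / (d : ℂ))) := by
    apply tendsto_finsetSum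
    intro d hd
    rw [mem_Icc] at hd
    have hd0 : (d : ℂ) ≠ 0 := by
      have : d ≠ 0 := by omega
      exact_mod_cast this
    have h1 : Filter.Tendsto (fun s : ℝ => (d : ℂ) ^ (s : ℂ)) (nhdsWithin 1 (Set.Ioi 1))
        (nhds ((d : ℂ) ^ (1 : ℂ))) :=
      ((continuousAt_const_cpow hd0).tendsto).comp hcast
    rw [Complex.cpow_one] at h1
    exact tendsto_const_nhds.div h1 hd0
  have hR : Filter.Tendsto (fun s : ℝ => 2 * KK m * ((D : ℝ) + 1) ^ (-s))
      (nhdsWithin 1 (Set.Ioi 1)) (nhds (2 * KK m / (D + 1))) := by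
    have h1 : Continuous (fun s : ℝ => 2 * KK m * ((D : ℝ) + 1) ^ (-s)) := by
      apply Continuous.mul continuous_const
      exact Continuous.rpow continuous_const continuous_neg
        (fun x => Or.inl (by positivity))
    have h2 := (h1.tendsto 1).mono_left (nhdsWithin_le_nhds (s := Set.Ioi (1 : ℝ)))
    rw [Real.rpow_neg_one, ← div_eq_mul_inv] at h2
    exact h2
  refine le_of_tendsto_of_tendsto (hL.sub hS).norm hR ?_
  filter_upwards [self_mem_nhdsWithin] with s hs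
  exact ttail_gt m χ hχ D hs

end Pool.Agent.H78.PG

end

section

/-!
# LQ / PG, THyp: `D(M, χ) = M L(1,χ) + O(√(M KK))`

`K = KK m`, `D = ⌊√(M K)⌋ ≤ M` (as `K ≤ M`).  `∑_{d ≤ D} χ(d) ⌊M/d⌋ = M ∑_{d ≤ D} χ(d)/d + O(D)`;
`∑_{D < d ≤ M} χ(d) ⌊M/d⌋ = ∑_{k ≤ M/(D+1)} ∑_{D < d ≤ M/k} χ(d)` (`⌊M/d⌋ = #{k ≥ 1 : k d ≤ M}`), at most
`(M/(D+1)) 2K ≤ 2 √(M K)` (`pv` twice, `D + 1 ≥ √(M K)`); and `tail`: `M 2K/(D+1) ≤ 2 √(M K)`.  Total `≤ 5 √(M K)`.
-/

set_option autoImplicit false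

namespace Pool.Agent.H78.PG

open Finset
open Pool.Agent.H34PG (lam lam_val lam_mul)
open Pool.Agent.H11.LQ

private theorem thyp_K0 (m : ℕ) [NeZero m] : 0 ≤ KK m := by
  unfold KK
  have hm : (1 : ℝ) ≤ (m : ℝ) := by exact_mod_cast Nat.one_le_iff_ne_zero.mpr (NeZero.ne m)
  have h1 : 0 ≤ Real.log m := Real.log_nonneg hm
  positivity

/-- the sum over an interval `(D, N]` -/
private theorem thyp_int (m : ℕ) [NeZero m] (χ : DirichletCharacter ℂ m) (hχ : χ ≠ 1) (D N : ℕ)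
    (h : D ≤ N) : ‖∑ x ∈ Ioc D N, χ (x : ZMod m)‖ ≤ 2 * KK m := by
  have h1 : ∑ x ∈ Icc 1 N, χ (x : ZMod m)
      = ∑ x ∈ Icc 1 D, χ (x : ZMod m) + ∑ x ∈ Ioc D N, χ (x : ZMod m) := by
    rw [← sum_union]
    · congr 1
      ext x
      simp only [mem_union, mem_Icc, mem_Ioc]
      omega
    · rw [disjoint_left]
      intro x hx hx2
      rw [mem_Icc] at hx
      rw [mem_Ioc] at hx2
      omega
  have h2 : ∑ x ∈ Ioc D N, χ (x : ZMod m)
      = ∑ x ∈ Icc 1 N, χ (x : ZMod m) - ∑ x ∈ Icc 1 D, χ (x : ZMod m) := by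
    rw [h1]; ring
  rw [h2]
  refine (norm_sub_le _ _).trans ?_
  have h3 := pv m χ hχ N
  have h4 := pv m χ hχ D
  linarith

/-- the part `d ≤ D` -/
private theorem thyp_low (m : ℕ) [NeZero m] (χ : DirichletCharacter ℂ m) (M D : ℕ) :
    ‖∑ d ∈ Icc 1 D, χ (d : ZMod m) * ((M / d : ℕ) : ℂ)
      - M * ∑ d ∈ Icc 1 D, χ (d : ZMod m) / (d : ℂ)‖ ≤ D := by
  rw [mul_sum, ← sum_sub_distrib]
  refine (norm_sum_le _ _).trans ?_
  have h1 : ∀ d ∈ Icc 1 D, ‖χ (d : ZMod m) * ((M / d : ℕ) : ℂ) - M * (χ (d : ZMod m) / (d : ℂ))‖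
      ≤ 1 := by
    intro d hd
    rw [mem_Icc] at hd
    have hd0 : (0 : ℝ) < d := by exact_mod_cast hd.1
    have e1 : χ (d : ZMod m) * ((M / d : ℕ) : ℂ) - M * (χ (d : ZMod m) / (d : ℂ))
        = χ (d : ZMod m) * ((((M / d : ℕ) : ℝ) - (M : ℝ) / d : ℝ) : ℂ) := by
      push_cast
      ring
    rw [e1, norm_mul, Complex.norm_real]
    have h2 : ‖χ (d : ZMod m)‖ ≤ 1 := DirichletCharacter.norm_le_one χ _
    have h3 : ‖(((M / d : ℕ) : ℝ) - (M : ℝ) / d)‖ ≤ 1 := by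
      rw [Real.norm_eq_abs, abs_le]
      have h4 : ((M / d : ℕ) : ℝ) ≤ (M : ℝ) / d := Nat.cast_div_le
      have h5 : (M : ℝ) / d < ((M / d : ℕ) : ℝ) + 1 := by
        rw [div_lt_iff₀ hd0]
        have h6 : M < (M / d + 1) * d := by
          have := Nat.lt_div_mul_add (a := M) hd.1
          calc M < M / d * d + d := this
            _ = (M / d + 1) * d := by ring
        exact_mod_cast h6
      constructor <;> linarith
    calc ‖χ (d : ZMod m)‖ * ‖(((M / d : ℕ) : ℝ) - (M : ℝ) / d)‖ ≤ 1 * 1 :=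
          mul_le_mul h2 h3 (norm_nonneg _) zero_le_one
      _ = 1 := one_mul 1
  refine (sum_le_sum h1).trans ?_
  simp

/-- the part `D < d ≤ M` -/
private theorem thyp_high (m : ℕ) [NeZero m] (χ : DirichletCharacter ℂ m) (hχ : χ ≠ 1) (M D : ℕ) :
    ‖∑ d ∈ Ioc D M, χ (d : ZMod m) * ((M / d : ℕ) : ℂ)‖ ≤ (M / (D + 1) : ℕ) * (2 * KK m) := by
  have e1 : ∀ d ∈ Ioc D M, χ (d : ZMod m) * ((M / d : ℕ) : ℂ)
      = ∑ k ∈ Icc 1 (M / (D + 1)), if k * d ≤ M then χ (d : ZMod m) else 0 := by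
    intro d hd
    rw [mem_Ioc] at hd
    have hd0 : 0 < d := by omega
    rw [← sum_filter, sum_const, nsmul_eq_mul, mul_comm]
    congr 1
    have e2 : (Icc 1 (M / (D + 1))).filter (fun k => k * d ≤ M) = Icc 1 (M / d) := by
      ext k
      simp only [mem_filter, mem_Icc]
      constructor
      · rintro ⟨⟨h1, _⟩, h2⟩
        exact ⟨h1, (Nat.le_div_iff_mul_le hd0).mpr h2⟩
      · rintro ⟨h1, h2⟩
        refine ⟨⟨h1, h2.trans (Nat.div_le_div_left (by omega) (by omega))⟩,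
          (Nat.le_div_iff_mul_le hd0).mp h2⟩
    rw [e2, Nat.card_Icc]
    simp
  rw [sum_congr rfl e1, sum_comm]
  refine (norm_sum_le _ _).trans ?_
  have h1 : ∀ k ∈ Icc 1 (M / (D + 1)),
      ‖∑ d ∈ Ioc D M, if k * d ≤ M then χ (d : ZMod m) else 0‖ ≤ 2 * KK m := by
    intro k hk
    rw [mem_Icc] at hk
    have hk0 : 0 < k := by omega
    have h2 : k * (D + 1) ≤ M := (Nat.le_div_iff_mul_le (by omega)).mp hk.2
    have h3 : D + 1 ≤ M / k := (Nat.le_div_iff_mul_le hk0).mpr (by rw [mul_comm]; exact h2)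
    have e3 : (Ioc D M).filter (fun d => k * d ≤ M) = Ioc D (M / k) := by
      ext d
      simp only [mem_filter, mem_Ioc]
      constructor
      · rintro ⟨⟨h4, _⟩, h5⟩
        exact ⟨h4, (Nat.le_div_iff_mul_le hk0).mpr (by rw [mul_comm]; exact h5)⟩
      · rintro ⟨h4, h5⟩
        exact ⟨⟨h4, h5.trans (Nat.div_le_self _ _)⟩,
          by rw [mul_comm]; exact (Nat.le_div_iff_mul_le hk0).mp h5⟩
    rw [← sum_filter, e3]
    exact thyp_int m χ hχ D (M / k) (by omega)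
  refine (sum_le_sum h1).trans ?_
  rw [sum_const, nsmul_eq_mul, Nat.card_Icc]
  simp

theorem hyper (m : ℕ) [NeZero m] (χ : DirichletCharacter ℂ m) (hχ : χ ≠ 1) (M : ℕ) (hM : 1 ≤ M)
    (hK : KK m ≤ M) :
    ‖DD m M χ - M * DirichletCharacter.LFunction χ 1‖ ≤ 5 * Real.sqrt (M * KK m) := by
  have hK0 : 0 ≤ KK m := thyp_K0 m
  have hM0 : (0 : ℝ) < M := by exact_mod_cast hM
  obtain ⟨P, hP⟩ : ∃ P, P = Real.sqrt (M * KK m) := ⟨_, rfl⟩
  have hP0 : 0 ≤ P := hP ▸ Real.sqrt_nonneg _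
  have hP2 : P * P = M * KK m := by
    rw [hP]; exact Real.mul_self_sqrt (by positivity)
  have hPM : P ≤ M := by
    rw [hP, Real.sqrt_le_left hM0.le, pow_two]
    exact mul_le_mul_of_nonneg_left hK hM0.le
  obtain ⟨D, hD⟩ : ∃ D, D = ⌊P⌋₊ := ⟨_, rfl⟩
  have hD1 : (D : ℝ) ≤ P := hD ▸ Nat.floor_le hP0
  have hD2 : P < D + 1 := hD ▸ Nat.lt_floor_add_one P
  have hDM : D ≤ M := by
    have : (D : ℝ) ≤ M := hD1.trans hPM
    exact_mod_cast this
  have hD0 : (0 : ℝ) < (D : ℝ) + 1 := by positivity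
  have key : M * KK m / (D + 1) ≤ P := by
    rw [div_le_iff₀ hD0, ← hP2]
    exact mul_le_mul_of_nonneg_left hD2.le hP0
  have e1 : DD m M χ = ∑ d ∈ Icc 1 D, χ (d : ZMod m) * ((M / d : ℕ) : ℂ)
      + ∑ d ∈ Ioc D M, χ (d : ZMod m) * ((M / d : ℕ) : ℂ) := by
    unfold DD
    rw [← sum_union]
    · congr 1
      ext x
      simp only [mem_union, mem_Icc, mem_Ioc]
      omega
    · rw [disjoint_left]
      intro x hx hx2
      rw [mem_Icc] at hx
      rw [mem_Ioc] at hx2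
      omega
  have e2 : DD m M χ - M * DirichletCharacter.LFunction χ 1
      = (∑ d ∈ Icc 1 D, χ (d : ZMod m) * ((M / d : ℕ) : ℂ)
          - M * ∑ d ∈ Icc 1 D, χ (d : ZMod m) / (d : ℂ))
        + ∑ d ∈ Ioc D M, χ (d : ZMod m) * ((M / d : ℕ) : ℂ)
        - M * (DirichletCharacter.LFunction χ 1 - ∑ d ∈ Icc 1 D, χ (d : ZMod m) / (d : ℂ)) := by
    rw [e1]; ring
  have h1 := thyp_low m χ M D
  have h2 := thyp_high m χ hχ M D
  have h3 := tail m χ hχ D
  have h4 : ((M / (D + 1) : ℕ) : ℝ) * (2 * KK m) ≤ 2 * P := by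
    have h5 : ((M / (D + 1) : ℕ) : ℝ) ≤ (M : ℝ) / ((D + 1 : ℕ) : ℝ) := Nat.cast_div_le
    push_cast at h5
    calc ((M / (D + 1) : ℕ) : ℝ) * (2 * KK m) ≤ (M : ℝ) / (D + 1) * (2 * KK m) :=
          mul_le_mul_of_nonneg_right h5 (by positivity)
      _ = 2 * (M * KK m / (D + 1)) := by ring
      _ ≤ 2 * P := by linarith
  have h6 : ‖(M : ℂ) * (DirichletCharacter.LFunction χ 1
      - ∑ d ∈ Icc 1 D, χ (d : ZMod m) / (d : ℂ))‖ ≤ 2 * P := by
    rw [norm_mul, Complex.norm_natCast]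
    calc (M : ℝ) * ‖DirichletCharacter.LFunction χ 1 - ∑ d ∈ Icc 1 D, χ (d : ZMod m) / (d : ℂ)‖
        ≤ M * (2 * KK m / (D + 1)) := mul_le_mul_of_nonneg_left h3 hM0.le
      _ = 2 * (M * KK m / (D + 1)) := by ring
      _ ≤ 2 * P := by linarith
  rw [e2, ← hP]
  refine (norm_sub_le _ _).trans ?_
  refine (add_le_add (norm_add_le _ _) le_rfl).trans ?_
  linarith

end Pool.Agent.H78.PG

end

section

/-!
# Siegel's theorem

Fix `ε` (small; `ε ≤ 1/100`, and so small that `ζ(s) < 0` on `[1-ε,1)`, possible by the residue at 1).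
Let `C` be the constant of `estermann`, `η = ε/(8C)`.
Case A: some real primitive `χ1 ≠ 1` mod `q1` has a real zero `β ∈ [1-η,1)` of `LFunction χ1`.
Case B: none; take any real primitive `χ1 ≠ 1` (e.g. mod 4 or mod 3) and `β = 1-η`.
Let `χ` be real primitive `≠ 1` mod `q`, `χ ≠ χ1` (different modulus or different character; if it is `χ1` itself
adjust the constant, `LFunction χ1 1 ≠ 0` by Mathlib).  `N = q1 q`, lifts `χ1', χ'` to level `N`
(`DirichletCharacter.changeLevel`), `χ1' χ' ≠ 1` (primitive characters inducing the same character are equal: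
compare conductors).  `LFunction_changeLevel`: `L(s,χ1') = L(s,χ1) ∏_{p|N}(1-χ1(p)p^{-s})`.
At `s = β` the value `F(β) ≤ 0`: in case A it is `0`; in case B `L(β,χ0) < 0` (product of `ζ(β)<0` and positive
factors) and the other three are `≥ 0`: a real `L(s,ψ)` without zeros of its primitive character on `[β,1]`
is positive there (real valued, continuous, positive for `s>1`, nonzero at `1`).
So `λ ≥ c (1-β) N^{-C(1-β)}·... ≥ c' q^{-ε/4}`.  And `λ ≤ L(1,χ)·∏_{p|N}(1+1/p) · |L(1,χ1')||L(1,χ1'χ')|`,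
`‖L(1,ψ)‖ ≤ C log N` for `ψ ≠ 1` mod `N` (limit of `Lk_le 0`), `∏_{p|N}(1+1/p) ≤ 1 + log N` type bound (or
`≤ C N^{ε'}`).  Hence `L(1,χ) ≥ c'' q^{-ε}`.
-/

set_option autoImplicit false

namespace Pool.Agent.H91.EHA

open Finset

private theorem swd3_val {N : ℕ} (ψ : DirichletCharacter ℂ N) (h : ψ ^ 2 = 1) (a : ZMod N) :
    (starRingEnd ℂ) (ψ a) = ψ a := by
  by_cases ha : IsUnit a
  · have h1 : (ψ a) ^ 2 = 1 := by
      have h2 := congrArg (fun f : DirichletCharacter ℂ N => f a) h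
      rw [MulChar.pow_apply' _ two_ne_zero, MulChar.one_apply ha] at h2
      exact h2
    have h2 : (ψ a - 1) * (ψ a + 1) = 0 := by
      have : (ψ a - 1) * (ψ a + 1) = ψ a ^ 2 - 1 := by ring
      rw [this, h1, sub_self]
    rcases mul_eq_zero.mp h2 with h3 | h3
    · rw [sub_eq_zero.mp h3, map_one]
    · rw [eq_neg_of_add_eq_zero_left h3, map_neg, map_one]
  · rw [MulChar.map_nonunit _ ha, map_zero]

private theorem swd3_conj_series {N : ℕ} (ψ : DirichletCharacter ℂ N) (h : ψ ^ 2 = 1) (s : ℂ) :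
    (starRingEnd ℂ) (LSeries (fun n => ψ n) ((starRingEnd ℂ) s)) = LSeries (fun n => ψ n) s := by
  unfold LSeries
  rw [Complex.conj_tsum]
  apply tsum_congr
  intro n
  by_cases hn : n = 0
  · subst hn
    simp [LSeries.term_zero]
  · rw [LSeries.term_of_ne_zero hn, LSeries.term_of_ne_zero hn, map_div₀, swd3_val ψ h]
    congr 1
    have h1 : ((n : ℂ)).arg ≠ Real.pi := by
      rw [Complex.natCast_arg]
      exact Real.pi_pos.ne
    rw [← Complex.conj_cpow _ _ h1, Complex.conj_natCast]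

private theorem swd3_conj {N : ℕ} [NeZero N] (ψ : DirichletCharacter ℂ N) (h : ψ ^ 2 = 1)
    (h1 : ψ ≠ 1) (s : ℂ) :
    (starRingEnd ℂ) (DirichletCharacter.LFunction ψ ((starRingEnd ℂ) s)) =
      DirichletCharacter.LFunction ψ s := by
  have hd : Differentiable ℂ (DirichletCharacter.LFunction ψ) :=
    DirichletCharacter.differentiable_LFunction h1
  have hd2 : Differentiable ℂ
      ((starRingEnd ℂ) ∘ DirichletCharacter.LFunction ψ ∘ (starRingEnd ℂ)) := by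
    intro z
    rw [differentiableAt_conj_conj_iff]
    exact hd _
  have hA : AnalyticOnNhd ℂ (DirichletCharacter.LFunction ψ) Set.univ :=
    fun z _ => hd.analyticAt z
  have hB : AnalyticOnNhd ℂ
      ((starRingEnd ℂ) ∘ DirichletCharacter.LFunction ψ ∘ (starRingEnd ℂ)) Set.univ :=
    fun z _ => hd2.analyticAt z
  have hev : ((starRingEnd ℂ) ∘ DirichletCharacter.LFunction ψ ∘ (starRingEnd ℂ)) =ᶠ[nhds 2]
      DirichletCharacter.LFunction ψ := by
    have hopen : {z : ℂ | 1 < z.re} ∈ nhds (2 : ℂ) := by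
      apply (isOpen_lt continuous_const Complex.continuous_re).mem_nhds
      simp
    filter_upwards [hopen] with z hz
    have hz1 : 1 < z.re := hz
    have hz' : 1 < ((starRingEnd ℂ) z).re := by rw [Complex.conj_re]; exact hz1
    simp only [Function.comp_apply]
    rw [DirichletCharacter.LFunction_eq_LSeries ψ hz', DirichletCharacter.LFunction_eq_LSeries ψ hz1]
    exact swd3_conj_series ψ h z
  have := hB.eq_of_eventuallyEq hA hev
  exact congrFun this s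

private theorem swd3_im {N : ℕ} [NeZero N] (ψ : DirichletCharacter ℂ N) (h : ψ ^ 2 = 1)
    (h1 : ψ ≠ 1) (x : ℝ) : (DirichletCharacter.LFunction ψ (x : ℂ)).im = 0 := by
  have h2 := swd3_conj ψ h h1 (x : ℂ)
  rw [Complex.conj_ofReal] at h2
  have h3 := congrArg Complex.im h2
  rw [Complex.conj_im] at h3
  linarith

private theorem swd3_two {N : ℕ} [NeZero N] (ψ : DirichletCharacter ℂ N) :
    0 < (DirichletCharacter.LFunction ψ 2).re := by
  have hre : 1 < (2 : ℂ).re := by simp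
  rw [DirichletCharacter.LFunction_eq_LSeries ψ hre]
  have hsum : HasSum (LSeries.term (fun n => ψ n) 2) (LSeries (fun n => ψ n) 2) :=
    (DirichletCharacter.LSeriesSummable_of_one_lt_re ψ hre).hasSum
  have h1 : HasSum (fun k : ℕ => if k = 1 then (1 : ℂ) else 0) 1 := hasSum_ite_eq 1 1
  have h2 := hsum.sub h1
  have h3 : HasSum (fun k : ℕ => 1 / (k : ℝ) ^ 2 - if k = 1 then (1 : ℝ) else 0)
      (Real.pi ^ 2 / 6 - 1) := hasSum_zeta_two.sub (hasSum_ite_eq 1 1)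
  have h4 : ∀ k : ℕ, ‖LSeries.term (fun n => ψ n) 2 k - (if k = 1 then (1 : ℂ) else 0)‖ ≤
      1 / (k : ℝ) ^ 2 - if k = 1 then (1 : ℝ) else 0 := by
    intro k
    by_cases hk0 : k = 0
    · subst hk0
      simp [LSeries.term_zero]
    · by_cases hk1 : k = 1
      · subst hk1
        rw [LSeries.term_of_ne_zero one_ne_zero]
        simp
      · rw [if_neg hk1, if_neg hk1, sub_zero, sub_zero, LSeries.term_of_ne_zero hk0, norm_div,
          Complex.norm_natCast_cpow_of_pos (Nat.pos_of_ne_zero hk0)]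
        have hk : (0 : ℝ) < (k : ℝ) := by exact_mod_cast Nat.pos_of_ne_zero hk0
        have e : (k : ℝ) ^ ((2 : ℂ).re) = (k : ℝ) ^ 2 := by
          have : ((2 : ℂ).re) = ((2 : ℕ) : ℝ) := by simp
          rw [this, Real.rpow_natCast]
        rw [e]
        exact div_le_div_of_nonneg_right (ψ.norm_le_one _) (by positivity)
  have h5 := h2.norm_le_of_bounded h3 h4
  have h6 : |(LSeries (fun n => ψ n) 2 - 1).re| ≤ Real.pi ^ 2 / 6 - 1 :=
    (Complex.abs_re_le_norm _).trans h5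
  have h7 := (abs_le.mp h6).1
  rw [Complex.sub_re, Complex.one_re] at h7
  have h8 : Real.pi ^ 2 < 12 := by
    have := Real.pi_lt_d2
    have := Real.pi_pos
    nlinarith
  linarith

private theorem swd3_pos {N : ℕ} [NeZero N] (ψ : DirichletCharacter ℂ N) (h : ψ ^ 2 = 1)
    (h1 : ψ ≠ 1) (β : ℝ) (hβ : β < 1)
    (hz : ∀ x : ℝ, β ≤ x → x < 1 → DirichletCharacter.LFunction ψ (x : ℂ) ≠ 0) :
    0 < (DirichletCharacter.LFunction ψ (β : ℂ)).re := by
  by_contra hcon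
  push Not at hcon
  have hcont : Continuous (fun x : ℝ => (DirichletCharacter.LFunction ψ (x : ℂ)).re) :=
    Complex.continuous_re.comp
      ((DirichletCharacter.differentiable_LFunction h1).continuous.comp Complex.continuous_ofReal)
  have h2 : 0 < (DirichletCharacter.LFunction ψ ((2 : ℝ) : ℂ)).re := by
    have := swd3_two ψ
    simpa using this
  have hmem : (0 : ℝ) ∈ Set.Icc ((DirichletCharacter.LFunction ψ (β : ℂ)).re)
      ((DirichletCharacter.LFunction ψ ((2 : ℝ) : ℂ)).re) := ⟨hcon, h2.le⟩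
  obtain ⟨x, hx, hx0⟩ := intermediate_value_Icc (by linarith : β ≤ 2) hcont.continuousOn hmem
  have hx00 : DirichletCharacter.LFunction ψ (x : ℂ) = 0 := by
    apply Complex.ext
    · exact hx0
    · rw [swd3_im ψ h h1]
      simp
  by_cases hx1 : x < 1
  · exact hz x hx.1 hx1 hx00
  · push Not at hx1
    exact DirichletCharacter.LFunction_ne_zero_of_one_le_re ψ (Or.inl h1)
      (by simpa using hx1) hx00

private theorem swd3_upper : ∃ C : ℝ, 0 < C ∧ ∀ (N : ℕ) [NeZero N] (ψ : DirichletCharacter ℂ N),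
    ψ ≠ 1 → ‖DirichletCharacter.LFunction ψ 1‖ ≤ C * Real.log (2 * N) := by
  obtain ⟨C, hC, hL⟩ := Lk_le 0
  refine ⟨C, hC, ?_⟩
  intro N _ ψ hψ
  have hN2 : 2 ≤ N := by
    rcases Nat.lt_or_ge N 2 with h | h
    · exfalso
      have hN0 : N ≠ 0 := NeZero.ne N
      have hN1 : N = 1 := by omega
      exact hψ (DirichletCharacter.level_one' ψ hN1)
    · exact h
  have hcont : Continuous (fun x : ℝ => ‖DirichletCharacter.LFunction ψ (x : ℂ)‖) :=
    ((DirichletCharacter.differentiable_LFunction hψ).continuous.comp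
      Complex.continuous_ofReal).norm
  have ht : Filter.Tendsto (fun x : ℝ => ‖DirichletCharacter.LFunction ψ (x : ℂ)‖)
      (nhdsWithin 1 (Set.Ioi 1)) (nhds ‖DirichletCharacter.LFunction ψ ((1 : ℝ) : ℂ)‖) :=
    (hcont.tendsto 1).mono_left nhdsWithin_le_nhds
  rw [Complex.ofReal_one] at ht
  apply le_of_tendsto ht
  have hev : ∀ᶠ x : ℝ in nhdsWithin 1 (Set.Ioi 1), x < 2 := by
    apply Filter.Eventually.filter_mono nhdsWithin_le_nhds
    exact (isOpen_Iio (a := (2 : ℝ))).mem_nhds (by norm_num)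
  filter_upwards [hev, self_mem_nhdsWithin] with x hx2 hx1
  have hx1' : (1 : ℝ) < x := hx1
  have hre : 1 < ((x : ℝ) : ℂ).re := by simpa using hx1'
  have h1 := hL N hN2 ψ hψ (x : ℂ) hre (by simpa using hx2.le)
  rw [Lk_zero_eq N ψ _ hre] at h1
  simp only [Complex.ofReal_im, abs_zero, zero_add, pow_one] at h1
  rw [mul_comm (2 : ℝ)]
  exact h1

private theorem swd3_prod (N : ℕ) (hN : 1 ≤ N) :
    ∏ p ∈ N.primeFactors, (1 + 1 / (p : ℝ)) ≤ 1 + Real.log N := by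
  rw [Finset.prod_one_add]
  have hprime : ∀ t ∈ N.primeFactors.powerset, ∀ p ∈ t, p.Prime := by
    intro t ht p hp
    exact Nat.prime_of_mem_primeFactors (Finset.mem_powerset.mp ht hp)
  have e1 : ∀ t ∈ N.primeFactors.powerset, ∏ p ∈ t, 1 / (p : ℝ) =
      1 / ((∏ p ∈ t, p : ℕ) : ℝ) := by
    intro t _
    rw [Finset.prod_div_distrib, Finset.prod_const_one, Nat.cast_prod]
  rw [Finset.sum_congr rfl e1]
  have hinj : ∀ t ∈ N.primeFactors.powerset, ∀ t' ∈ N.primeFactors.powerset,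
      (∏ p ∈ t, p : ℕ) = ∏ p ∈ t', p → t = t' := by
    intro t ht t' ht' he
    rw [← Nat.primeFactors_prod (hprime t ht), ← Nat.primeFactors_prod (hprime t' ht'), he]
  have e2 : ∑ t ∈ N.primeFactors.powerset, 1 / ((∏ p ∈ t, p : ℕ) : ℝ) =
      ∑ d ∈ N.primeFactors.powerset.image (fun t => ∏ p ∈ t, p), 1 / (d : ℝ) := by
    rw [Finset.sum_image]
    intro t ht t' ht' he
    exact hinj t ht t' ht' he
  rw [e2]
  have hsub : N.primeFactors.powerset.image (fun t => ∏ p ∈ t, p) ⊆ Finset.Icc 1 N := by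
    intro d hd
    rw [Finset.mem_image] at hd
    obtain ⟨t, ht, rfl⟩ := hd
    rw [Finset.mem_Icc]
    constructor
    · exact Finset.prod_pos fun p hp => (hprime t ht p hp).pos
    · have h1 : (∏ p ∈ t, p) ∣ ∏ p ∈ N.primeFactors, p :=
        Finset.prod_dvd_prod_of_subset _ _ _ (Finset.mem_powerset.mp ht)
      exact Nat.le_of_dvd (by omega) (h1.trans (Nat.prod_primeFactors_dvd N))
  have h2 : ∑ d ∈ N.primeFactors.powerset.image (fun t => ∏ p ∈ t, p), 1 / (d : ℝ) ≤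
      ∑ d ∈ Finset.Icc 1 N, 1 / (d : ℝ) :=
    Finset.sum_le_sum_of_subset_of_nonneg hsub fun _ _ _ => by positivity
  refine h2.trans ?_
  have h3 := harmonic_le_one_add_log N
  rw [harmonic_eq_sum_Icc] at h3
  push_cast at h3
  simpa [one_div] using h3

private theorem swd3_zeta : ∃ η : ℝ, 0 < η ∧ ∀ β : ℝ, 1 - η ≤ β → β < 1 →
    (riemannZeta (β : ℂ)).re < 0 := by
  have h := riemannZeta_residue_one
  have hopen : {z : ℂ | 0 < z.re} ∈ nhds (1 : ℂ) := by
    apply (isOpen_lt continuous_const Complex.continuous_re).mem_nhds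
    simp
  have hev := h.eventually hopen
  rw [eventually_nhdsWithin_iff, Metric.eventually_nhds_iff] at hev
  obtain ⟨δ, hδ, hb⟩ := hev
  refine ⟨δ / 2, by positivity, ?_⟩
  intro β hβ1 hβ2
  have hne : (β : ℂ) ≠ 1 := by
    intro h
    have h2 : ((β : ℝ) : ℂ) = ((1 : ℝ) : ℂ) := by rw [h, Complex.ofReal_one]
    have h3 := Complex.ofReal_injective h2
    linarith
  have hdist : dist (β : ℂ) 1 < δ := by
    rw [Complex.dist_eq, ← Complex.ofReal_one, ← Complex.ofReal_sub, Complex.norm_real,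
      Real.norm_eq_abs, abs_lt]
    constructor <;> linarith
  have h4 := hb hdist hne
  have h5 : (((β : ℂ) - 1) * riemannZeta (β : ℂ)).re = (β - 1) * (riemannZeta (β : ℂ)).re := by
    rw [← Complex.ofReal_one, ← Complex.ofReal_sub, Complex.re_ofReal_mul]
  have h6 : 0 < (β - 1) * (riemannZeta (β : ℂ)).re := by
    rw [← h5]
    exact h4
  by_contra h7
  push Not at h7
  nlinarith

private theorem swd3_factor {N M : ℕ} (χ : DirichletCharacter ℂ M) (p : ℕ)
    (hp : p ∈ N.primeFactors) (β : ℝ) (hβ : 0 < β) :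
    (1 - χ (p : ZMod M) * (p : ℂ) ^ (-(β : ℂ))) ≠ 0 := by
  have hpp := Nat.prime_of_mem_primeFactors hp
  intro h
  have h1 : ‖χ (p : ZMod M) * (p : ℂ) ^ (-(β : ℂ))‖ = 1 := by
    rw [← sub_eq_zero.mp h, norm_one]
  rw [norm_mul, Complex.norm_natCast_cpow_of_pos hpp.pos] at h1
  have h2 : ((-(β : ℂ))).re = -β := by simp
  rw [h2] at h1
  have h3 : (p : ℝ) ^ (-β) < 1 :=
    Real.rpow_lt_one_of_one_lt_of_neg (by exact_mod_cast hpp.one_lt) (by linarith)
  have h4 : ‖χ (p : ZMod M)‖ ≤ 1 := χ.norm_le_one _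
  have h5 : 0 ≤ (p : ℝ) ^ (-β) := by positivity
  nlinarith [norm_nonneg (χ (p : ZMod M))]

/-- the imprimitive characters have no zeros either -/
private theorem swd3_nz (η : ℝ) (hη : η ≤ 1 / 8)
    (hB : ∀ (q : ℕ) [NeZero q] (χ : DirichletCharacter ℂ q), χ.IsPrimitive → χ ^ 2 = 1 → χ ≠ 1 →
      ∀ x : ℝ, 1 - η ≤ x → x < 1 → DirichletCharacter.LFunction χ (x : ℂ) ≠ 0)
    {N : ℕ} [NeZero N] (ψ : DirichletCharacter ℂ N) (h : ψ ^ 2 = 1) (h1 : ψ ≠ 1) (x : ℝ)
    (hx : 1 - η ≤ x) (hx1 : x < 1) : DirichletCharacter.LFunction ψ (x : ℂ) ≠ 0 := by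
  have : NeZero ψ.conductor := ⟨ψ.conductor_ne_zero⟩
  have e : DirichletCharacter.changeLevel ψ.conductor_dvd_level ψ.primitiveCharacter = ψ :=
    ψ.changeLevel_primitiveCharacter
  have hne : ψ.primitiveCharacter ≠ 1 := by
    intro h2
    apply h1
    rw [← e, h2, map_one]
  have hsq : ψ.primitiveCharacter ^ 2 = 1 := by
    apply DirichletCharacter.changeLevel_injective ψ.conductor_dvd_level
    rw [map_pow, e, h, map_one]
  rw [← e, DirichletCharacter.LFunction_changeLevel ψ.conductor_dvd_level _ (Or.inl hne)]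
  apply mul_ne_zero
  · exact hB _ _ ψ.primitiveCharacter_isPrimitive hsq hne x hx hx1
  · rw [Finset.prod_ne_zero_iff]
    intro p hp
    exact swd3_factor _ p hp x (by linarith)

/-- two primitive real characters with trivial product (at a common level) are equal -/
private theorem swd3_eq {q1 q : ℕ} [NeZero q1] [NeZero q] (χ1 : DirichletCharacter ℂ q1)
    (χ : DirichletCharacter ℂ q) (hp1 : χ1.IsPrimitive) (hp : χ.IsPrimitive) (h2 : χ ^ 2 = 1)
    (h : DirichletCharacter.changeLevel (Nat.dvd_mul_right q1 q) χ1 *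
      DirichletCharacter.changeLevel (Nat.dvd_mul_left q q1) χ = 1) :
    ∃ e : q = q1, e ▸ χ = χ1 := by
  have : NeZero (q1 * q) := ⟨Nat.mul_ne_zero (NeZero.ne q1) (NeZero.ne q)⟩
  have h3 : DirichletCharacter.changeLevel (Nat.dvd_mul_left q q1) χ *
      DirichletCharacter.changeLevel (Nat.dvd_mul_left q q1) χ = 1 := by
    rw [← map_mul, ← pow_two, h2, map_one]
  have h4 : DirichletCharacter.changeLevel (Nat.dvd_mul_right q1 q) χ1 =
      DirichletCharacter.changeLevel (Nat.dvd_mul_left q q1) χ := by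
    calc DirichletCharacter.changeLevel (Nat.dvd_mul_right q1 q) χ1
        = DirichletCharacter.changeLevel (Nat.dvd_mul_right q1 q) χ1 *
          (DirichletCharacter.changeLevel (Nat.dvd_mul_left q q1) χ *
            DirichletCharacter.changeLevel (Nat.dvd_mul_left q q1) χ) := by rw [h3, mul_one]
      _ = DirichletCharacter.changeLevel (Nat.dvd_mul_left q q1) χ := by
          rw [← mul_assoc, h, one_mul]
  have h5 : q = q1 := by
    have e1 := DirichletCharacter.conductor_changeLevel χ1 (Nat.dvd_mul_right q1 q)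
    have e2 := DirichletCharacter.conductor_changeLevel χ (Nat.dvd_mul_left q q1)
    rw [h4, e2] at e1
    rw [DirichletCharacter.isPrimitive_def] at hp1 hp
    rw [hp1, hp] at e1
    exact e1
  subst h5
  refine ⟨rfl, ?_⟩
  exact (DirichletCharacter.changeLevel_injective (Nat.dvd_mul_right q q) h4).symm

private theorem swd3_triv {N : ℕ} [NeZero N] (β : ℝ) (hβ : 0 < β) (hβ1 : β < 1)
    (hζ : (riemannZeta (β : ℂ)).re < 0) :
    (DirichletCharacter.LFunction (1 : DirichletCharacter ℂ N) (β : ℂ)).re ≤ 0 := by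
  have hne : (β : ℂ) ≠ 1 := by
    intro h
    have h2 : ((β : ℝ) : ℂ) = ((1 : ℝ) : ℂ) := by rw [h, Complex.ofReal_one]
    have h3 := Complex.ofReal_injective h2
    linarith
  have h1 := DirichletCharacter.LFunctionTrivChar_eq_mul_riemannZeta (N := N) hne
  have h2 : (∏ p ∈ N.primeFactors, (1 - (p : ℂ) ^ (-(β : ℂ)))) =
      ((∏ p ∈ N.primeFactors, (1 - (p : ℝ) ^ (-β)) : ℝ) : ℂ) := by
    rw [Complex.ofReal_prod]
    apply Finset.prod_congr rfl
    intro p _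
    rw [Complex.ofReal_sub, Complex.ofReal_one, Complex.ofReal_cpow (Nat.cast_nonneg p),
      Complex.ofReal_neg, Complex.ofReal_natCast]
  have h3 : 0 ≤ ∏ p ∈ N.primeFactors, (1 - (p : ℝ) ^ (-β)) := by
    apply Finset.prod_nonneg
    intro p hp
    have hpp := Nat.prime_of_mem_primeFactors hp
    have h3 : (p : ℝ) ^ (-β) < 1 :=
      Real.rpow_lt_one_of_one_lt_of_neg (by exact_mod_cast hpp.one_lt) (by linarith)
    linarith
  rw [h2] at h1
  have h4 : (DirichletCharacter.LFunction (1 : DirichletCharacter ℂ N) (β : ℂ)).re =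
      (∏ p ∈ N.primeFactors, (1 - (p : ℝ) ^ (-β))) * (riemannZeta (β : ℂ)).re := by
    rw [← Complex.re_ofReal_mul, ← h1]
  rw [h4]
  exact mul_nonpos_of_nonneg_of_nonpos h3 hζ.le

private theorem swd3_caseB (η : ℝ) (hη : η ≤ 1 / 8)
    (hB : ∀ (q : ℕ) [NeZero q] (χ : DirichletCharacter ℂ q), χ.IsPrimitive → χ ^ 2 = 1 → χ ≠ 1 →
      ∀ x : ℝ, 1 - η ≤ x → x < 1 → DirichletCharacter.LFunction χ (x : ℂ) ≠ 0)
    {N : ℕ} [NeZero N] (ψ1 ψ2 : DirichletCharacter ℂ N) (h1 : ψ1 ^ 2 = 1) (h2 : ψ2 ^ 2 = 1)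
    (n1 : ψ1 ≠ 1) (n2 : ψ2 ≠ 1) (n3 : ψ1 * ψ2 ≠ 1) (β : ℝ) (hβ : 1 - η ≤ β) (hβ1 : β < 1)
    (hζ : (riemannZeta (β : ℂ)).re < 0) :
    (DirichletCharacter.LFunction (1 : DirichletCharacter ℂ N) β *
          DirichletCharacter.LFunction ψ1 β * DirichletCharacter.LFunction ψ2 β *
          DirichletCharacter.LFunction (ψ1 * ψ2) β).re ≤ 0 := by
  have h3 : (ψ1 * ψ2) ^ 2 = 1 := by rw [mul_pow, h1, h2, mul_one]
  have key : ∀ ψ : DirichletCharacter ℂ N, ψ ^ 2 = 1 → ψ ≠ 1 →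
      ∃ r : ℝ, 0 ≤ r ∧ DirichletCharacter.LFunction ψ (β : ℂ) = (r : ℂ) := by
    intro ψ h n
    refine ⟨(DirichletCharacter.LFunction ψ (β : ℂ)).re, ?_, ?_⟩
    · apply le_of_lt
      apply swd3_pos ψ h n β hβ1
      intro x hx hx1
      exact swd3_nz η hη hB ψ h n x (by linarith) hx1
    · apply Complex.ext
      · simp
      · rw [swd3_im ψ h n]
        simp
  obtain ⟨r1, hr1, e1⟩ := key ψ1 h1 n1
  obtain ⟨r2, hr2, e2⟩ := key ψ2 h2 n2
  obtain ⟨r3, hr3, e3⟩ := key (ψ1 * ψ2) h3 n3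
  rw [e1, e2, e3]
  have h4 := swd3_triv (N := N) β (by linarith) hβ1 hζ
  have h5 : (DirichletCharacter.LFunction (1 : DirichletCharacter ℂ N) (β : ℂ) * (r1 : ℂ) *
      (r2 : ℂ) * (r3 : ℂ)).re =
      (DirichletCharacter.LFunction (1 : DirichletCharacter ℂ N) (β : ℂ)).re * (r1 * r2 * r3) := by
    have : DirichletCharacter.LFunction (1 : DirichletCharacter ℂ N) (β : ℂ) * (r1 : ℂ) *
      (r2 : ℂ) * (r3 : ℂ) = ((r1 * r2 * r3 : ℝ) : ℂ) *
      DirichletCharacter.LFunction (1 : DirichletCharacter ℂ N) (β : ℂ) := by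
      push_cast
      ring
    rw [this, Complex.re_ofReal_mul]
    ring
  rw [h5]
  exact mul_nonpos_of_nonpos_of_nonneg h4 (by positivity)

private theorem swd3_level {q N : ℕ} [NeZero q] [NeZero N] (hd : q ∣ N)
    (χ : DirichletCharacter ℂ q) (n : χ ≠ 1) :
    ‖DirichletCharacter.LFunction (DirichletCharacter.changeLevel hd χ) 1‖ ≤
      ‖DirichletCharacter.LFunction χ 1‖ * (1 + Real.log N) := by
  rw [DirichletCharacter.LFunction_changeLevel hd _ (Or.inl n), norm_mul]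
  apply mul_le_mul_of_nonneg_left _ (norm_nonneg _)
  refine le_trans ?_ (swd3_prod N (Nat.one_le_iff_ne_zero.mpr (NeZero.ne N)))
  rw [norm_prod]
  apply Finset.prod_le_prod
  · intro p _
    exact norm_nonneg _
  · intro p hp
    have hpp := Nat.prime_of_mem_primeFactors hp
    refine (norm_sub_le _ _).trans ?_
    rw [norm_one, norm_mul, Complex.norm_natCast_cpow_of_pos hpp.pos]
    have h2 : ((-(1 : ℂ))).re = -1 := by simp
    rw [h2, Real.rpow_neg_one, one_div]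
    have h4 : ‖χ (p : ZMod q)‖ ≤ 1 := χ.norm_le_one _
    have h5 : 0 ≤ ((p : ℝ))⁻¹ := by positivity
    have h6 := mul_le_mul_of_nonneg_right h4 h5
    linarith

private theorem swd3_core (C C2 : ℝ) (hC : 1 ≤ C) (hC2 : 0 < C2)
    (hE : ∀ (N : ℕ) [NeZero N] (χ1 χ2 : DirichletCharacter ℂ N),
    χ1 ^ 2 = 1 → χ2 ^ 2 = 1 → χ1 ≠ 1 → χ2 ≠ 1 → χ1 * χ2 ≠ 1 → ∀ s : ℝ, 7 / 8 < s → s < 1 →
    1 / 2 - C * (N : ℝ) ^ (C * (1 - s)) / (1 - s) * (((N.totient : ℝ) / N) *
        (DirichletCharacter.LFunction χ1 1 * DirichletCharacter.LFunction χ2 1 *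
          DirichletCharacter.LFunction (χ1 * χ2) 1).re)
      ≤ (DirichletCharacter.LFunction (1 : DirichletCharacter ℂ N) s *
          DirichletCharacter.LFunction χ1 s * DirichletCharacter.LFunction χ2 s *
          DirichletCharacter.LFunction (χ1 * χ2) s).re)
    (hU : ∀ (N : ℕ) [NeZero N] (ψ : DirichletCharacter ℂ N),
      ψ ≠ 1 → ‖DirichletCharacter.LFunction ψ 1‖ ≤ C2 * Real.log (2 * N))
    (ε : ℝ) (hε : 0 < ε) (hε1 : ε ≤ 1) (β : ℝ) (hβ : 7 / 8 < β) (hβ1 : β < 1)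
    (hβε : C * (1 - β) ≤ ε / 8) (q1 : ℕ) [NeZero q1] (χ1 : DirichletCharacter ℂ q1)
    (h1 : χ1 ^ 2 = 1) (n1 : χ1 ≠ 1) :
    ∃ c : ℝ, 0 < c ∧ ∀ (q N : ℕ) [NeZero q] [NeZero N] (_hN : N = q1 * q) (hd1 : q1 ∣ N)
      (hd : q ∣ N) (χ : DirichletCharacter ℂ q),
      χ ^ 2 = 1 → χ ≠ 1 →
      DirichletCharacter.changeLevel hd1 χ1 * DirichletCharacter.changeLevel hd χ ≠ 1 →
      (DirichletCharacter.LFunction (1 : DirichletCharacter ℂ N) β *
          DirichletCharacter.LFunction (DirichletCharacter.changeLevel hd1 χ1) β *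
          DirichletCharacter.LFunction (DirichletCharacter.changeLevel hd χ) β *
          DirichletCharacter.LFunction (DirichletCharacter.changeLevel hd1 χ1 *
            DirichletCharacter.changeLevel hd χ) β).re ≤ 0 →
      c * (q : ℝ) ^ (-ε) ≤ ‖DirichletCharacter.LFunction χ 1‖ := by
  set δ : ℝ := ε / 24 with hδ
  have hδ0 : 0 < δ := by positivity
  set K : ℝ := C * (C2 * (2 / δ)) ^ 2 * (1 + 1 / δ) with hK
  have hC0 : 0 < C := by linarith
  have hK0 : 0 < K := by positivity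
  have hq1 : (0 : ℝ) < q1 := by
    have : 0 < q1 := Nat.pos_of_ne_zero (NeZero.ne q1)
    exact_mod_cast this
  have ha : 0 < 1 - β := by linarith
  refine ⟨(1 - β) / (2 * K * (q1 : ℝ) ^ ε), by positivity, ?_⟩
  intro q N _ _ hN hd1 hd χ h2 n2 n3 hF
  have hq : (0 : ℝ) < q := by
    have : 0 < q := Nat.pos_of_ne_zero (NeZero.ne q)
    exact_mod_cast this
  set ψ1 := DirichletCharacter.changeLevel hd1 χ1 with hψ1
  set ψ2 := DirichletCharacter.changeLevel hd χ with hψ2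
  have m1 : ψ1 ≠ 1 := fun h => n1 ((DirichletCharacter.changeLevel_eq_one_iff _).mp h)
  have m2 : ψ2 ≠ 1 := fun h => n2 ((DirichletCharacter.changeLevel_eq_one_iff _).mp h)
  have s1 : ψ1 ^ 2 = 1 := by rw [hψ1, ← map_pow, h1, map_one]
  have s2 : ψ2 ^ 2 = 1 := by rw [hψ2, ← map_pow, h2, map_one]
  have hest := hE N ψ1 ψ2 s1 s2 m1 m2 n3 β hβ hβ1
  set X := ‖DirichletCharacter.LFunction χ 1‖ with hX
  have hX0 : 0 ≤ X := norm_nonneg _
  have hNR : (0 : ℝ) < N := by rw [hN]; push_cast; positivity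
  have hN1 : (1 : ℝ) ≤ N := by
    have : 1 ≤ N := Nat.one_le_iff_ne_zero.mpr (NeZero.ne N)
    exact_mod_cast this
  set lam : ℝ := ((N.totient : ℝ) / N) *
        (DirichletCharacter.LFunction ψ1 1 * DirichletCharacter.LFunction ψ2 1 *
          DirichletCharacter.LFunction (ψ1 * ψ2) 1).re with hlam
  have hlog2 : Real.log (2 * N) ≤ (2 / δ) * (N : ℝ) ^ δ := by
    have e1 := Real.log_le_rpow_div (x := 2 * (N : ℝ)) (by positivity) hδ0
    have e2 : (2 * (N : ℝ)) ^ δ = 2 ^ δ * (N : ℝ) ^ δ :=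
      Real.mul_rpow (by norm_num) hNR.le
    have e3 : (2 : ℝ) ^ δ ≤ 2 := by
      calc (2 : ℝ) ^ δ ≤ 2 ^ (1 : ℝ) :=
            Real.rpow_le_rpow_of_exponent_le (by norm_num) (by rw [hδ]; linarith)
        _ = 2 := Real.rpow_one 2
    refine e1.trans ?_
    rw [e2, div_mul_eq_mul_div]
    apply div_le_div_of_nonneg_right _ hδ0.le
    exact mul_le_mul_of_nonneg_right e3 (by positivity)
  have hlog1 : 1 + Real.log N ≤ (1 + 1 / δ) * (N : ℝ) ^ δ := by
    have e1 := Real.log_le_rpow_div (x := (N : ℝ)) hNR.le hδ0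
    have e2 : (1 : ℝ) ≤ (N : ℝ) ^ δ := Real.one_le_rpow hN1 hδ0.le
    have e3 : (1 + 1 / δ) * (N : ℝ) ^ δ = (N : ℝ) ^ δ + (N : ℝ) ^ δ / δ := by ring
    rw [e3]
    linarith
  have hlam1 : lam ≤ (C2 * ((2 / δ) * (N : ℝ) ^ δ)) * (X * ((1 + 1 / δ) * (N : ℝ) ^ δ)) *
      (C2 * ((2 / δ) * (N : ℝ) ^ δ)) := by
    have u1 : ‖DirichletCharacter.LFunction ψ1 1‖ ≤ C2 * ((2 / δ) * (N : ℝ) ^ δ) :=
      (hU N ψ1 m1).trans (mul_le_mul_of_nonneg_left hlog2 hC2.le)
    have u3 : ‖DirichletCharacter.LFunction (ψ1 * ψ2) 1‖ ≤ C2 * ((2 / δ) * (N : ℝ) ^ δ) :=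
      (hU N _ n3).trans (mul_le_mul_of_nonneg_left hlog2 hC2.le)
    have u2 : ‖DirichletCharacter.LFunction ψ2 1‖ ≤ X * ((1 + 1 / δ) * (N : ℝ) ^ δ) :=
      (swd3_level hd χ n2).trans (mul_le_mul_of_nonneg_left hlog1 hX0)
    have hφ0 : 0 ≤ (N.totient : ℝ) / N := by positivity
    have hφ1 : (N.totient : ℝ) / N ≤ 1 := by
      rw [div_le_one hNR]
      exact_mod_cast Nat.totient_le N
    have hnorm : (DirichletCharacter.LFunction ψ1 1 * DirichletCharacter.LFunction ψ2 1 *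
          DirichletCharacter.LFunction (ψ1 * ψ2) 1).re ≤
        ‖DirichletCharacter.LFunction ψ1 1‖ * ‖DirichletCharacter.LFunction ψ2 1‖ *
          ‖DirichletCharacter.LFunction (ψ1 * ψ2) 1‖ := by
      refine (Complex.re_le_norm _).trans (le_of_eq ?_)
      rw [norm_mul, norm_mul]
    calc lam ≤ ((N.totient : ℝ) / N) * (‖DirichletCharacter.LFunction ψ1 1‖ *
          ‖DirichletCharacter.LFunction ψ2 1‖ * ‖DirichletCharacter.LFunction (ψ1 * ψ2) 1‖) :=
          mul_le_mul_of_nonneg_left hnorm hφ0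
      _ ≤ 1 * (‖DirichletCharacter.LFunction ψ1 1‖ *
          ‖DirichletCharacter.LFunction ψ2 1‖ * ‖DirichletCharacter.LFunction (ψ1 * ψ2) 1‖) :=
          mul_le_mul_of_nonneg_right hφ1 (by positivity)
      _ = ‖DirichletCharacter.LFunction ψ1 1‖ *
          ‖DirichletCharacter.LFunction ψ2 1‖ * ‖DirichletCharacter.LFunction (ψ1 * ψ2) 1‖ :=
          one_mul _
      _ ≤ _ := by
          apply mul_le_mul _ u3 (norm_nonneg _) (by positivity)
          exact mul_le_mul u1 u2 (norm_nonneg _) (by positivity)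
  have hNε : C * (N : ℝ) ^ (C * (1 - β)) ≤ C * (N : ℝ) ^ (ε / 8) :=
    mul_le_mul_of_nonneg_left (Real.rpow_le_rpow_of_exponent_le hN1 hβε) hC0.le
  have hmain : (1 - β) / 2 ≤ C * (N : ℝ) ^ (C * (1 - β)) * lam := by
    have e1 : 1 / 2 ≤ C * (N : ℝ) ^ (C * (1 - β)) / (1 - β) * lam := by linarith
    have e2 := mul_le_mul_of_nonneg_left e1 ha.le
    have e3 : (1 - β) * (C * (N : ℝ) ^ (C * (1 - β)) / (1 - β) * lam) =
        C * (N : ℝ) ^ (C * (1 - β)) * lam := by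
      field_simp
    rw [e3] at e2
    linarith
  have hlam0 : 0 ≤ lam := by
    by_contra hneg
    push Not at hneg
    have : C * (N : ℝ) ^ (C * (1 - β)) * lam < 0 := mul_neg_of_pos_of_neg (by positivity) hneg
    linarith
  have hfin : (1 - β) / 2 ≤ K * (N : ℝ) ^ (ε / 4) * X := by
    calc (1 - β) / 2 ≤ C * (N : ℝ) ^ (C * (1 - β)) * lam := hmain
      _ ≤ C * (N : ℝ) ^ (ε / 8) * lam := mul_le_mul_of_nonneg_right hNε hlam0
      _ ≤ C * (N : ℝ) ^ (ε / 8) * ((C2 * ((2 / δ) * (N : ℝ) ^ δ)) *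
          (X * ((1 + 1 / δ) * (N : ℝ) ^ δ)) * (C2 * ((2 / δ) * (N : ℝ) ^ δ))) :=
          mul_le_mul_of_nonneg_left hlam1 (by positivity)
      _ = K * ((N : ℝ) ^ (ε / 8) * (N : ℝ) ^ δ * (N : ℝ) ^ δ * (N : ℝ) ^ δ) * X := by
          rw [hK]
          ring
      _ = K * (N : ℝ) ^ (ε / 4) * X := by
          rw [← Real.rpow_add hNR, ← Real.rpow_add hNR, ← Real.rpow_add hNR]
          congr 3
          rw [hδ]
          ring
  have hNe : (N : ℝ) ^ (ε / 4) ≤ (q1 : ℝ) ^ ε * (q : ℝ) ^ ε := by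
    calc (N : ℝ) ^ (ε / 4) ≤ (N : ℝ) ^ ε :=
          Real.rpow_le_rpow_of_exponent_le hN1 (by linarith)
      _ = (q1 : ℝ) ^ ε * (q : ℝ) ^ ε := by
          rw [hN]
          push_cast
          exact Real.mul_rpow hq1.le hq.le
  have hfin2 : (1 - β) / 2 ≤ K * ((q1 : ℝ) ^ ε * (q : ℝ) ^ ε) * X :=
    hfin.trans (mul_le_mul_of_nonneg_right (mul_le_mul_of_nonneg_left hNe hK0.le) hX0)
  have hqe : 0 < (q : ℝ) ^ ε := by positivity
  have hq1e : 0 < (q1 : ℝ) ^ ε := by positivity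
  rw [Real.rpow_neg hq.le, div_mul_eq_mul_div, div_le_iff₀ (by positivity)]
  rw [mul_inv_le_iff₀ hqe]
  have e9 : X * (2 * K * (q1 : ℝ) ^ ε) * (q : ℝ) ^ ε =
      2 * (K * ((q1 : ℝ) ^ ε * (q : ℝ) ^ ε) * X) := by ring
  rw [e9]
  linarith

theorem siegel (ε : ℝ) (hε : 0 < ε) : ∃ c : ℝ, 0 < c ∧ ∀ (q : ℕ) [NeZero q]
    (χ : DirichletCharacter ℂ q), χ.IsPrimitive → χ ^ 2 = 1 → χ ≠ 1 →
      c * (q : ℝ) ^ (-ε) ≤ ‖DirichletCharacter.LFunction χ 1‖ := by
  -- reduce to ε ≤ 1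
  suffices hmain : ∀ ε : ℝ, 0 < ε → ε ≤ 1 → ∃ c : ℝ, 0 < c ∧ ∀ (q : ℕ) [NeZero q]
      (χ : DirichletCharacter ℂ q), χ.IsPrimitive → χ ^ 2 = 1 → χ ≠ 1 →
        c * (q : ℝ) ^ (-ε) ≤ ‖DirichletCharacter.LFunction χ 1‖ by
    rcases le_total ε 1 with h | h
    · exact hmain ε hε h
    · obtain ⟨c, hc, hb⟩ := hmain 1 one_pos le_rfl
      refine ⟨c, hc, ?_⟩
      intro q _ χ h1 h2 h3
      refine le_trans ?_ (hb q χ h1 h2 h3)
      apply mul_le_mul_of_nonneg_left _ hc.le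
      apply Real.rpow_le_rpow_of_exponent_le _ (by linarith)
      have : 1 ≤ q := Nat.one_le_iff_ne_zero.mpr (NeZero.ne q)
      exact_mod_cast this
  intro ε hε hε1
  obtain ⟨C, hC, hE⟩ := estermann
  obtain ⟨C2, hC2, hU⟩ := swd3_upper
  obtain ⟨η0, hη0, hζ⟩ := swd3_zeta
  have hC0 : 0 < C := by linarith
  set η : ℝ := min (min η0 (1 / 16)) (ε / (8 * C)) with hη
  have hηpos : 0 < η := by
    rw [hη]
    exact lt_min (lt_min hη0 (by norm_num)) (by positivity)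
  have hη1 : η ≤ η0 := (min_le_left _ _).trans (min_le_left _ _)
  have hη2 : η ≤ 1 / 16 := (min_le_left _ _).trans (min_le_right _ _)
  have hη3 : C * η ≤ ε / 8 := by
    have h1 : η ≤ ε / (8 * C) := min_le_right _ _
    have h2 := mul_le_mul_of_nonneg_left h1 hC0.le
    have h3 : C * (ε / (8 * C)) = ε / 8 := by
      field_simp
    rw [h3] at h2
    exact h2
  by_cases hex : ∃ (q1 : ℕ) (_ : NeZero q1) (χ1 : DirichletCharacter ℂ q1),
      χ1.IsPrimitive ∧ χ1 ^ 2 = 1 ∧ χ1 ≠ 1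
  swap
  · refine ⟨1, one_pos, ?_⟩
    intro q _ χ h1 h2 h3
    exact absurd ⟨q, inferInstance, χ, h1, h2, h3⟩ hex
  -- the fixed character and the point β
  have hfix : ∃ (q1 : ℕ) (_ : NeZero q1) (χ1 : DirichletCharacter ℂ q1) (β : ℝ),
      χ1.IsPrimitive ∧ χ1 ^ 2 = 1 ∧ χ1 ≠ 1 ∧ 1 - η ≤ β ∧ β < 1 ∧
      ∀ (q : ℕ) [NeZero q] [NeZero (q1 * q)] (χ : DirichletCharacter ℂ q),
      χ ^ 2 = 1 → χ ≠ 1 →
      DirichletCharacter.changeLevel (Nat.dvd_mul_right q1 q) χ1 *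
        DirichletCharacter.changeLevel (Nat.dvd_mul_left q q1) χ ≠ 1 →
      (DirichletCharacter.LFunction (1 : DirichletCharacter ℂ (q1 * q)) β *
          DirichletCharacter.LFunction (DirichletCharacter.changeLevel
            (Nat.dvd_mul_right q1 q) χ1) β *
          DirichletCharacter.LFunction (DirichletCharacter.changeLevel
            (Nat.dvd_mul_left q q1) χ) β *
          DirichletCharacter.LFunction (DirichletCharacter.changeLevel (Nat.dvd_mul_right q1 q) χ1 *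
            DirichletCharacter.changeLevel (Nat.dvd_mul_left q q1) χ) β).re ≤ 0 := by
    by_cases hA : ∃ (q1 : ℕ) (_ : NeZero q1) (χ1 : DirichletCharacter ℂ q1) (β : ℝ),
        χ1.IsPrimitive ∧ χ1 ^ 2 = 1 ∧ χ1 ≠ 1 ∧ 1 - η ≤ β ∧ β < 1 ∧
        DirichletCharacter.LFunction χ1 (β : ℂ) = 0
    · obtain ⟨q1, hq1, χ1, β, a1, a2, a3, a4, a5, a6⟩ := hA
      refine ⟨q1, hq1, χ1, β, a1, a2, a3, a4, a5, ?_⟩
      intro q _ _ χ h2 n2 n3
      rw [DirichletCharacter.LFunction_changeLevel (Nat.dvd_mul_right q1 q) χ1 (Or.inl a3), a6]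
      simp
    · have hB : ∀ (q : ℕ) [NeZero q] (χ : DirichletCharacter ℂ q), χ.IsPrimitive → χ ^ 2 = 1 →
          χ ≠ 1 → ∀ x : ℝ, 1 - η ≤ x → x < 1 →
          DirichletCharacter.LFunction χ (x : ℂ) ≠ 0 := by
        intro q _ χ h1 h2 h3 x hx hx1 h0
        exact hA ⟨q, inferInstance, χ, x, h1, h2, h3, hx, hx1, h0⟩
      obtain ⟨q1, hq1, χ1, a1, a2, a3⟩ := hex
      refine ⟨q1, hq1, χ1, 1 - η, a1, a2, a3, le_rfl, by linarith, ?_⟩
      intro q _ _ χ h2 n2 n3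
      apply swd3_caseB η (by linarith) hB
      · rw [← map_pow, a2, map_one]
      · rw [← map_pow, h2, map_one]
      · exact fun h => a3 ((DirichletCharacter.changeLevel_eq_one_iff _).mp h)
      · exact fun h => n2 ((DirichletCharacter.changeLevel_eq_one_iff _).mp h)
      · exact n3
      · exact le_rfl
      · linarith
      · exact hζ _ (by linarith) (by linarith)
  obtain ⟨q1, hq1, χ1, β, a1, a2, a3, a4, a5, a6⟩ := hfix
  have hβε : C * (1 - β) ≤ ε / 8 := by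
    refine le_trans ?_ hη3
    exact mul_le_mul_of_nonneg_left (by linarith) hC0.le
  obtain ⟨c, hc, hb⟩ := swd3_core C C2 hC hC2 hE hU ε hε hε1 β (by linarith) a5 hβε q1 χ1 a2 a3
  have hL1 : 0 < ‖DirichletCharacter.LFunction χ1 1‖ :=
    norm_pos_iff.mpr (DirichletCharacter.LFunction_apply_one_ne_zero a3)
  refine ⟨min c ‖DirichletCharacter.LFunction χ1 1‖, lt_min hc hL1, ?_⟩
  intro q _ χ h1 h2 h3
  have hqpos : 0 < (q : ℝ) ^ (-ε) := by
    have : 0 < q := Nat.pos_of_ne_zero (NeZero.ne q)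
    have : (0 : ℝ) < q := by exact_mod_cast this
    positivity
  have : NeZero (q1 * q) := ⟨Nat.mul_ne_zero (NeZero.ne q1) (NeZero.ne q)⟩
  by_cases hprod : DirichletCharacter.changeLevel (Nat.dvd_mul_right q1 q) χ1 *
        DirichletCharacter.changeLevel (Nat.dvd_mul_left q q1) χ = 1
  · obtain ⟨e, he⟩ := swd3_eq χ1 χ a1 h1 h2 hprod
    subst e
    simp only [] at he
    subst he
    have hq1' : (q : ℝ) ^ (-ε) ≤ 1 := by
      apply Real.rpow_le_one_of_one_le_of_nonpos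
      · have : 1 ≤ q := Nat.one_le_iff_ne_zero.mpr (NeZero.ne q)
        exact_mod_cast this
      · linarith
    calc min c ‖DirichletCharacter.LFunction χ 1‖ * (q : ℝ) ^ (-ε)
        ≤ ‖DirichletCharacter.LFunction χ 1‖ * (q : ℝ) ^ (-ε) :=
          mul_le_mul_of_nonneg_right (min_le_right _ _) hqpos.le
      _ ≤ ‖DirichletCharacter.LFunction χ 1‖ * 1 :=
          mul_le_mul_of_nonneg_left hq1' (norm_nonneg _)
      _ = _ := mul_one _
  · refine le_trans ?_ (hb q (q1 * q) rfl _ _ χ h2 h3 hprod (a6 q χ h2 h3 hprod))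
    exact mul_le_mul_of_nonneg_right (min_le_left _ _) hqpos.le

end Pool.Agent.H91.EHA

end

section

/-!
# LQ / PG, TSie: Siegel's theorem for all real nonprincipal characters

`Pool.Agent.H91.EHA.siegel` is for primitive characters.  `χ` mod `m`, `χ² = 1`, `χ ≠ 1`, `χ*` its primitive
character mod the conductor `q` (`DirichletCharacter.primitiveCharacter`), `χ*² = 1` and `χ* ≠ 1`
(`changeLevel` injective).  Mathlib `DirichletCharacter.LFunction_changeLevel`: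
`L(1,χ) = L(1,χ*) ∏_{p | m} (1 - χ*(p)/p)` (or the eta / `primeFactors` form), so
`|L(1,χ)| ≥ |L(1,χ*)| ∏_{p | m} (1 - 1/p) = |L(1,χ*)| φ(m)/m ≥ c q^(-θ/3) m^(-θ/3) ≥ m^(-θ)` (`tot_le`, `q ≤ m`).
-/

set_option autoImplicit false

namespace Pool.Agent.H78.PG

open Finset
open Pool.Agent.H34PG (lam lam_val lam_mul)
open Pool.Agent.H11.LQ

private theorem tsie_prod {m : ℕ} [NeZero m] {q : ℕ} (ψ : DirichletCharacter ℂ q) :
    (m.totient : ℝ) / m ≤ ‖∏ p ∈ m.primeFactors, (1 - ψ p * (p : ℂ) ^ (-(1 : ℂ)))‖ := by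
  have hm0 : (m : ℝ) ≠ 0 := by exact_mod_cast NeZero.ne m
  have h1 : ((m.totient : ℚ) : ℝ) = ((m * ∏ p ∈ m.primeFactors, (1 - (p : ℚ)⁻¹) : ℚ) : ℝ) := by
    rw [Nat.totient_eq_mul_prod_factors]
  push_cast at h1
  rw [h1, mul_div_assoc, mul_comm, div_mul_cancel₀ _ hm0, norm_prod]
  refine Finset.prod_le_prod (fun p hp => ?_) fun p hp => ?_
  · have hp1 : (1 : ℝ) ≤ p := by exact_mod_cast (Nat.prime_of_mem_primeFactors hp).one_le
    have := inv_le_one_of_one_le₀ hp1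
    linarith
  · have h2 : ‖ψ p * (p : ℂ) ^ (-(1 : ℂ))‖ ≤ (p : ℝ)⁻¹ := by
      rw [Complex.cpow_neg, Complex.cpow_one, norm_mul, norm_inv, Complex.norm_natCast]
      have h3 := DirichletCharacter.norm_le_one ψ (p : ZMod q)
      have h4 : (0 : ℝ) ≤ (p : ℝ)⁻¹ := by positivity
      exact mul_le_of_le_one_left h4 h3
    have h5 := norm_sub_norm_le (1 : ℂ) (ψ p * (p : ℂ) ^ (-(1 : ℂ)))
    rw [norm_one] at h5
    linarith

theorem siegel_all (θ : ℝ) (hθ : 0 < θ) : ∃ m0 : ℕ, ∀ (m : ℕ) [NeZero m], m0 ≤ m →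
    ∀ χ : DirichletCharacter ℂ m, χ ^ 2 = 1 → χ ≠ 1 →
      (m : ℝ) ^ (-θ) ≤ ‖DirichletCharacter.LFunction χ 1‖ := by
  have hθ3 : 0 < θ / 3 := by positivity
  obtain ⟨c, hc, hs⟩ := Pool.Agent.H91.EHA.siegel (θ / 3) hθ3
  obtain ⟨m1, hm1⟩ := tot_le (θ / 3) hθ3
  obtain ⟨m2, hm2⟩ := grow c⁻¹ 0 (θ / 3) hθ3
  refine ⟨max m1 m2, ?_⟩
  intro m _ hm χ hχ2 hχ1
  have hmpos : (0 : ℝ) < m := by exact_mod_cast Nat.pos_of_ne_zero (NeZero.ne m)
  have hcond : NeZero χ.conductor := ⟨by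
    intro h
    have h1 := χ.conductor_dvd_level
    rw [h] at h1
    exact NeZero.ne m (Nat.eq_zero_of_zero_dvd h1)⟩
  obtain ⟨ψ, hψ⟩ : ∃ ψ, ψ = χ.primitiveCharacter := ⟨_, rfl⟩
  have hch : DirichletCharacter.changeLevel χ.conductor_dvd_level ψ = χ := by
    rw [hψ]
    exact χ.changeLevel_primitiveCharacter
  have hψp : ψ.IsPrimitive := by
    rw [hψ]
    exact χ.primitiveCharacter_isPrimitive
  have hψ2 : ψ ^ 2 = 1 := by
    apply DirichletCharacter.changeLevel_injective χ.conductor_dvd_level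
    rw [map_pow, hch, hχ2, map_one]
  have hψ1 : ψ ≠ 1 := by
    intro h
    apply hχ1
    rw [← hch, h, map_one]
  have h1 := hs χ.conductor ψ hψp hψ2 hψ1
  have h2 : DirichletCharacter.LFunction χ 1 = DirichletCharacter.LFunction ψ 1 *
      ∏ p ∈ m.primeFactors, (1 - ψ p * (p : ℂ) ^ (-(1 : ℂ))) := by
    have h3 := DirichletCharacter.LFunction_changeLevel χ.conductor_dvd_level ψ (s := 1)
      (Or.inl hψ1)
    rw [hch] at h3
    exact h3
  rw [h2, norm_mul]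
  have h3 := tsie_prod (m := m) ψ
  have h4 := hm1 m (le_trans (le_max_left _ _) hm)
  have h5 := hm2 m (le_trans (le_max_right _ _) hm)
  rw [pow_zero, mul_one] at h5
  have h6 : (m : ℝ) ^ (-(θ / 3)) ≤ (m.totient : ℝ) / m := by
    rw [le_div_iff₀ hmpos, Real.rpow_neg hmpos.le, inv_mul_le_iff₀ (Real.rpow_pos_of_pos hmpos _)]
    exact h4
  have h7 : c * (m : ℝ) ^ (-(θ / 3)) ≤ ‖DirichletCharacter.LFunction ψ 1‖ := by
    refine le_trans ?_ h1
    refine mul_le_mul_of_nonneg_left ?_ hc.le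
    have hq : (0 : ℝ) < χ.conductor := by exact_mod_cast Nat.pos_of_ne_zero hcond.out
    rw [Real.rpow_neg hmpos.le, Real.rpow_neg hq.le]
    refine inv_anti₀ (Real.rpow_pos_of_pos hq _) ?_
    refine Real.rpow_le_rpow hq.le ?_ hθ3.le
    exact_mod_cast Nat.le_of_dvd (Nat.pos_of_ne_zero (NeZero.ne m)) χ.conductor_dvd_level
  have h8 : (1 : ℝ) ≤ c * (m : ℝ) ^ (θ / 3) := by
    rw [inv_le_iff_one_le_mul₀ hc] at h5
    linarith
  have hp3 : (0 : ℝ) < (m : ℝ) ^ (-(θ / 3)) := Real.rpow_pos_of_pos hmpos _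
  calc (m : ℝ) ^ (-θ) = (m : ℝ) ^ (-(θ / 3)) * (m : ℝ) ^ (-(θ / 3)) * (m : ℝ) ^ (-(θ / 3)) := by
        rw [← Real.rpow_add hmpos, ← Real.rpow_add hmpos]
        congr 1
        ring
    _ ≤ c * (m : ℝ) ^ (-(θ / 3)) * (m : ℝ) ^ (-(θ / 3)) := by
        have h9 : (m : ℝ) ^ (-(θ / 3)) ≤ c := by
          rw [Real.rpow_neg hmpos.le, inv_le_iff_one_le_mul₀ (Real.rpow_pos_of_pos hmpos _)]
          linarith
        have h10 : 0 ≤ (m : ℝ) ^ (-(θ / 3)) * (m : ℝ) ^ (-(θ / 3)) := by positivity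
        nlinarith
    _ ≤ ‖DirichletCharacter.LFunction ψ 1‖ * ((m.totient : ℝ) / m) := by
        refine mul_le_mul h7 h6 hp3.le (norm_nonneg _)
    _ ≤ _ := mul_le_mul_of_nonneg_left h3 (norm_nonneg _)

end Pool.Agent.H78.PG

end
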