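import Pool.Agent.H94.PG.H36.IS.MtA_1
import Pool.Agent.H94.PG.M08
import Pool.Agent.H94.PG.M09
import Pool.Agent.H94.PG.M13
import Pool.Agent.H94.PG.M16

/-! The parts of this file: H78.PD.TotW, H78.PD.Top. -/

section

/-!
# PD, TotW: `m/φ(m)` and `ω(m)`

* `tot_omega`: the proof of `tot_log` (`PH/HNum.lean`; `hnum_prod`: `∏ p/(p-1) ≤ #+1` for distinct `p ≥ 2`).
* `tot_logw`: `w = ω(m) + 2`; `∏_{p ∣ m, p ≤ w} (1-1/p)⁻¹ ≤ ∏_{p ≤ w} (1-1/p)⁻¹ ≤ C(1 + log w)` (`omb_mertens` in `PH/OmB.lean`) and `∏_{p ∣ m, p > w} p/(p-1) ≤ (1 + 1/w)^w ≤ e`.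
-/

set_option autoImplicit false

namespace Pool.Agent.H78.PD

open Finset

private theorem totW_mertens : ∃ A : ℝ, 0 < A ∧ ∀ N : ℕ, 1 ≤ N →
    ∏ p ∈ (N + 1).primesBelow, (1 - 1 / (p : ℝ))⁻¹ ≤ A * (1 + Real.log N) := by
  obtain ⟨c, hc⟩ := Pool.Agent.H36.IS.mertA
  have h1 := hc.eventually (gt_mem_nhds (show c < c + 1 by linarith))
  rw [Filter.eventually_atTop] at h1
  obtain ⟨n0, hn0⟩ := h1
  have hprod : ∀ n : ℕ, ∏ p ∈ (n + 1).primesBelow, (1 - 1 / (p : ℝ))⁻¹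
      = Real.exp (Pool.Agent.H36.IS.fS n) := by
    intro n
    unfold Pool.Agent.H36.IS.fS
    rw [Real.exp_sum]
    have : (n + 1).primesBelow = (range (n + 1)).filter Nat.Prime := rfl
    rw [this]
    refine Finset.prod_congr rfl (fun p hp => ?_)
    rw [mem_filter] at hp
    have hp2 : (2 : ℝ) ≤ p := by exact_mod_cast hp.2.two_le
    have h2 : 1 / (p : ℝ) ≤ 1 / 2 := one_div_le_one_div_of_le (by norm_num) hp2
    have h3 : 0 < 1 - 1 / (p : ℝ) := by linarith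
    rw [Real.exp_neg, Real.exp_log h3]
  have hmono : ∀ a b : ℕ, a ≤ b → ∏ p ∈ (a + 1).primesBelow, (1 - 1 / (p : ℝ))⁻¹
      ≤ ∏ p ∈ (b + 1).primesBelow, (1 - 1 / (p : ℝ))⁻¹ := by
    intro a b hab
    rw [hprod, hprod]
    apply Real.exp_le_exp.2
    unfold Pool.Agent.H36.IS.fS
    apply Finset.sum_le_sum_of_subset_of_nonneg
    · intro p hp
      rw [mem_filter, mem_range] at hp ⊢
      exact ⟨by omega, hp.2⟩
    · intro p hp _
      rw [mem_filter] at hp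
      have hp2 : (2 : ℝ) ≤ p := by exact_mod_cast hp.2.two_le
      have h2 : 1 / (p : ℝ) ≤ 1 / 2 := one_div_le_one_div_of_le (by norm_num) hp2
      have h4 : 0 < 1 / (p : ℝ) := by positivity
      have := Real.log_nonpos (show (0 : ℝ) ≤ 1 - 1 / p by linarith) (by linarith)
      linarith
  set n1 := max n0 3 with hn1
  set B := ∏ p ∈ (n1 + 1).primesBelow, (1 - 1 / (p : ℝ))⁻¹ with hB
  have hB0 : 0 < B := by
    rw [hB, hprod]
    exact Real.exp_pos _
  refine ⟨B + Real.exp (c + 1), by positivity, fun N hN => ?_⟩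
  have hlog : 0 ≤ Real.log N := Real.log_nonneg (by exact_mod_cast hN)
  rcases Nat.lt_or_ge N n1 with h | h
  · have h2 := hmono N n1 h.le
    have h3 : (0 : ℝ) < Real.exp (c + 1) := Real.exp_pos _
    calc ∏ p ∈ (N + 1).primesBelow, (1 - 1 / (p : ℝ))⁻¹ ≤ B := h2
      _ = B * 1 := by ring
      _ ≤ (B + Real.exp (c + 1)) * (1 + Real.log N) :=
        mul_le_mul (by linarith) (by linarith) (by norm_num) (by positivity)
  · have h2 := hn0 N ((le_max_left _ _).trans h)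
    have hN3 : (3 : ℝ) ≤ N := by exact_mod_cast (le_max_right _ _).trans h
    have hlogpos : 0 < Real.log N := Real.log_pos (by linarith)
    rw [hprod]
    have h3 : Pool.Agent.H36.IS.fS N ≤ (c + 1) + Real.log (Real.log N) := by linarith
    calc Real.exp (Pool.Agent.H36.IS.fS N) ≤ Real.exp ((c + 1) + Real.log (Real.log N)) :=
          Real.exp_le_exp.2 h3
      _ = Real.exp (c + 1) * Real.log N := by rw [Real.exp_add, Real.exp_log hlogpos]
      _ ≤ (B + Real.exp (c + 1)) * (1 + Real.log N) :=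
        mul_le_mul (by linarith) (by linarith) hlogpos.le (by positivity)

theorem tot_logw : ∃ C : ℝ, 0 < C ∧ ∀ m : ℕ, 1 ≤ m →
    (m : ℝ) ≤ C * Real.log (m.primeFactors.card + 2) * m.totient := by
  obtain ⟨A, hA, H⟩ := totW_mertens
  refine ⟨3 * A * Real.exp 1, by positivity, fun m hm => ?_⟩
  obtain ⟨w, hw⟩ : ∃ w : ℕ, w = m.primeFactors.card + 2 := ⟨_, rfl⟩
  have hwR : ((m.primeFactors.card : ℝ) + 2) = (w : ℝ) := by rw [hw]; push_cast; ring
  rw [hwR]
  have hw2 : 2 ≤ w := by omega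
  have hw2R : (2 : ℝ) ≤ w := by exact_mod_cast hw2
  have hw0 : (0 : ℝ) < w := by linarith
  obtain ⟨Q, hQ⟩ : ∃ Q : ℝ, Q = ∏ p ∈ m.primeFactors, (1 - 1 / (p : ℝ))⁻¹ := ⟨_, rfl⟩
  have hfac : ∀ p ∈ m.primeFactors, 0 < 1 - 1 / (p : ℝ) := by
    intro p hp
    have hp2 : (2 : ℝ) ≤ p := by exact_mod_cast (Nat.prime_of_mem_primeFactors hp).two_le
    have h2 : 1 / (p : ℝ) ≤ 1 / 2 := one_div_le_one_div_of_le (by norm_num) hp2
    linarith
  have hmQ : (m : ℝ) = Q * m.totient := by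
    have h1 : (m.totient : ℝ) = m * ∏ p ∈ m.primeFactors, (1 - 1 / (p : ℝ)) := by
      have h2 := Nat.totient_eq_mul_prod_factors m
      have h3 : ((m.totient : ℚ) : ℝ) = ((m * ∏ p ∈ m.primeFactors, (1 - (p : ℚ)⁻¹) : ℚ) : ℝ) := by
        rw [h2]
      push_cast at h3
      rw [h3]
      congr 1
      exact prod_congr rfl fun p _ => by rw [one_div]
    rw [h1, hQ, Finset.prod_inv_distrib]
    have h4 : 0 < ∏ p ∈ m.primeFactors, (1 - 1 / (p : ℝ)) := prod_pos hfac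
    field_simp
  have hsplit : Q = (∏ p ∈ m.primeFactors.filter (fun p => p ≤ w), (1 - 1 / (p : ℝ))⁻¹)
      * ∏ p ∈ m.primeFactors.filter (fun p => ¬ p ≤ w), (1 - 1 / (p : ℝ))⁻¹ := by
    rw [hQ]
    exact (prod_filter_mul_prod_filter_not _ _ _).symm
  have hsmall : ∏ p ∈ m.primeFactors.filter (fun p => p ≤ w), (1 - 1 / (p : ℝ))⁻¹
      ≤ A * (1 + Real.log w) := by
    refine le_trans ?_ (H w (by omega))
    have hsub : m.primeFactors.filter (fun p => p ≤ w) ⊆ (w + 1).primesBelow := by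
      intro p hp
      rw [mem_filter] at hp
      rw [Nat.mem_primesBelow]
      exact ⟨by omega, Nat.prime_of_mem_primeFactors hp.1⟩
    rw [← prod_sdiff hsub]
    have hone : 1 ≤ ∏ p ∈ (w + 1).primesBelow \ m.primeFactors.filter (fun p => p ≤ w),
        (1 - 1 / (p : ℝ))⁻¹ := by
      have h0 : ∏ _p ∈ (w + 1).primesBelow \ m.primeFactors.filter (fun p => p ≤ w), (1 : ℝ)
          ≤ ∏ p ∈ (w + 1).primesBelow \ m.primeFactors.filter (fun p => p ≤ w),
            (1 - 1 / (p : ℝ))⁻¹ := by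
        refine prod_le_prod (fun _ _ => zero_le_one) (fun p hp => ?_)
        rw [mem_sdiff, Nat.mem_primesBelow] at hp
        have hp2 : (2 : ℝ) ≤ p := by exact_mod_cast hp.1.2.two_le
        have h2 : 1 / (p : ℝ) ≤ 1 / 2 := one_div_le_one_div_of_le (by norm_num) hp2
        have h3 : 0 < 1 / (p : ℝ) := by positivity
        rw [one_le_inv₀ (by linarith)]
        linarith
      rwa [prod_const_one] at h0
    exact le_mul_of_one_le_left (prod_nonneg fun p hp =>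
      inv_nonneg.mpr (hfac p (mem_filter.mp hp).1).le) hone
  have hbig : ∏ p ∈ m.primeFactors.filter (fun p => ¬ p ≤ w), (1 - 1 / (p : ℝ))⁻¹
      ≤ Real.exp 1 := by
    have h1 : ∏ p ∈ m.primeFactors.filter (fun p => ¬ p ≤ w), (1 - 1 / (p : ℝ))⁻¹
        ≤ ∏ _p ∈ m.primeFactors.filter (fun p => ¬ p ≤ w), Real.exp (1 / w) := by
      refine prod_le_prod (fun p hp => ?_) (fun p hp => ?_)
      · exact inv_nonneg.mpr (hfac p (mem_filter.mp hp).1).le
      · have hp1 := (mem_filter.mp hp).2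
        have hp2 : (w : ℝ) + 1 ≤ p := by
          have : w + 1 ≤ p := by omega
          exact_mod_cast this
        have h3 : (1 - 1 / (p : ℝ))⁻¹ ≤ 1 + 1 / w := by
          have hp0 : (0 : ℝ) < p := by linarith
          have h4 : 1 - 1 / (p : ℝ) = (p - 1) / p := by field_simp
          rw [h4, inv_div, div_le_iff₀ (by linarith)]
          have h5 : (1 : ℝ) ≤ (p - 1) / w := by
            rw [one_le_div hw0]; linarith
          calc (p : ℝ) = (p - 1) + 1 := by ring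
            _ ≤ (p - 1) + (p - 1) / w := by linarith
            _ = (1 + 1 / w) * (p - 1) := by ring
        refine h3.trans ?_
        have := Real.add_one_le_exp (1 / (w : ℝ))
        linarith
    refine h1.trans ?_
    rw [prod_const, ← Real.exp_nat_mul]
    refine Real.exp_le_exp.mpr ?_
    have h6 : (m.primeFactors.filter (fun p => ¬ p ≤ w)).card ≤ w := by
      have := card_filter_le m.primeFactors (fun p => ¬ p ≤ w)
      omega
    have h7 : ((m.primeFactors.filter (fun p => ¬ p ≤ w)).card : ℝ) ≤ w := by exact_mod_cast h6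
    rw [mul_one_div, div_le_one hw0]
    exact h7
  have hlog : (1 : ℝ) / 2 ≤ Real.log w := by
    have h8 := Real.log_two_gt_d9
    have h9 : Real.log 2 ≤ Real.log w := Real.log_le_log (by norm_num) hw2R
    linarith
  have hQle : Q ≤ 3 * A * Real.exp 1 * Real.log w := by
    rw [hsplit]
    calc _ ≤ (A * (1 + Real.log w)) * Real.exp 1 :=
          mul_le_mul hsmall hbig (prod_nonneg fun p hp =>
            inv_nonneg.mpr (hfac p (mem_filter.mp hp).1).le) (by positivity)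
      _ ≤ (A * (3 * Real.log w)) * Real.exp 1 := by
          refine mul_le_mul_of_nonneg_right ?_ (Real.exp_pos 1).le
          exact mul_le_mul_of_nonneg_left (by linarith) hA.le
      _ = 3 * A * Real.exp 1 * Real.log w := by ring
  rw [hmQ]
  exact mul_le_mul_of_nonneg_right hQle (Nat.cast_nonneg _)

end Pool.Agent.H78.PD

end

section

/-!
# PD, Top: the main theorem of Part II

`χ` from `t4`, `t5`, `t6` (`ε0` small).  `χ ≠ 1`: some prime of `(m^δ, m^(49/100)]` not dividing `m` has `χ q = -1` (`pri_mert`, `t5`).  `f1(n) = λ(n) χ(n)`, `f2(n) = χ(n)`, real (`χ² = 1`), values in `{-1, 0, 1}`, completely multiplicative.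
`x = ⌊m^(1/100)⌋`: `x |∑_{a ≤ x} f1(a)/a| ≤ |∑ f1(a) ⌊x/a⌋| + x = ∑_{n ≤ x} (1*f1)(n) + x`, so by `t6`, `t7`: `(φ/m) L/400 ≤ (C/log x) exp E1 + 1`, `E1 = ∑_{p ≤ x} (1 + f1(p))/p`; `(φ/m) L → ∞` (`tot_logw`, `omega_le`), so
`exp E1 ≥ c (φ/m) L²`.  `M = m`: `hyper` (`PG/THyp.lean`): `‖DD m m χ - m L(1,χ)‖ ≤ 5 √(m KK m)`, `DD m m χ = ∑_{n ≤ m} (1*f2)(n) ≤ C (m/L) exp E2`, `E2 = ∑_{p ≤ m} (1 + χ(p))/p`.
`(1 + f1(p)) + (1 + χ(p)) = 2` at every prime (`λ(p) = -1`), so `E1 + E2 ≤ ∑_{p ≤ x} 2/p + ∑_{x < p ≤ m} 2/p ≤ 2 log log m + C` (Mertens).  So `exp E2 ≤ C m/φ`, `|L(1,χ)| ≤ (C/L)(m/φ) + 5 √(KK m/m)`, `KK m ≤ m^(3/4)`.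
-/

set_option autoImplicit false

namespace Pool.Agent.H78.PD

open Finset
open Pool.Agent.H34PG (lam lam_val lam_mul lam_prime)
open Pool.Agent.H11.LQ Pool.Agent.H78.PG

/-- `∑_{d ∣ n} f(d) ≥ 0` -/
private theorem top_nn (f : ℕ → ℝ) (h1 : f 1 = 1)
    (hm : ∀ a b : ℕ, 1 ≤ a → 1 ≤ b → f (a * b) = f a * f b)
    (hv : ∀ n, f n = 0 ∨ f n = 1 ∨ f n = -1) (n : ℕ) : 0 ≤ ∑ d ∈ n.divisors, f d := by
  rcases Nat.eq_zero_or_pos n with rfl | hn
  · simp
  have hF0 : (fun k : ℕ => if k = 0 then (0 : ℝ) else f k) 0 = 0 := by simp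
  obtain ⟨F, hF⟩ : ∃ F : ArithmeticFunction ℝ, ∀ k : ℕ, F k = if k = 0 then (0 : ℝ) else f k :=
    ⟨⟨fun k => if k = 0 then (0 : ℝ) else f k, hF0⟩, fun k => rfl⟩
  have hFm : F.IsMultiplicative := by
    rw [ArithmeticFunction.IsMultiplicative.iff_ne_zero]
    refine ⟨by rw [hF, if_neg one_ne_zero, h1], fun {a b} ha hb _ => ?_⟩
    rw [hF, hF, hF, if_neg ha, if_neg hb, if_neg (mul_ne_zero ha hb)]
    exact hm a b (Nat.one_le_iff_ne_zero.mpr ha) (Nat.one_le_iff_ne_zero.mpr hb)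
  have hz : (F * (ArithmeticFunction.zeta : ArithmeticFunction ℝ)).IsMultiplicative :=
    hFm.mul ArithmeticFunction.isMultiplicative_zeta.natCast
  have e1 : ∀ k : ℕ, (F * (ArithmeticFunction.zeta : ArithmeticFunction ℝ)) k
      = ∑ d ∈ k.divisors, f d := by
    intro k
    rw [ArithmeticFunction.coe_mul_zeta_apply]
    refine sum_congr rfl fun d hd => ?_
    rw [hF, if_neg (Nat.pos_of_mem_divisors hd).ne']
  rw [← e1, hz.multiplicative_factorization _ hn.ne', Finsupp.prod]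
  refine prod_nonneg fun p hp => ?_
  have hpp : p.Prime := Nat.prime_of_mem_primeFactors (by simpa using hp)
  rw [e1, Nat.sum_divisors_prime_pow hpp]
  have e2 : ∀ x : ℕ, f (p ^ x) = f p ^ x := by
    intro x
    induction x with
    | zero => rw [pow_zero, pow_zero, h1]
    | succ k ih => rw [pow_succ, pow_succ, hm _ _ (Nat.pow_pos hpp.pos) hpp.pos, ih]
  rw [sum_congr rfl fun x _ => e2 x]
  rcases hv p with h | h | h
  · rw [h]
    exact sum_nonneg fun x _ => by positivity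
  · rw [h]
    exact sum_nonneg fun x _ => by positivity
  · rw [h, neg_one_geom_sum]
    split_ifs <;> norm_num

/-- the hyperbola identity -/
private theorem top_id (f : ℕ → ℝ) (x : ℕ) :
    ∑ n ∈ Icc 1 x, ∑ d ∈ n.divisors, f d = ∑ d ∈ Icc 1 x, f d * ((x / d : ℕ) : ℝ) := by
  have e0 : Icc 1 x = Ioc 0 x := rfl
  have e1 : ∀ n ∈ Icc 1 x, ∑ d ∈ n.divisors, f d
      = ∑ d ∈ Icc 1 x, if d ∣ n then f d else 0 := by
    intro n hn
    rw [mem_Icc] at hn
    rw [← sum_filter]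
    refine sum_congr ?_ fun _ _ => rfl
    ext d
    rw [Nat.mem_divisors, mem_filter, mem_Icc]
    constructor
    · rintro ⟨h1, h2⟩
      exact ⟨⟨Nat.pos_of_dvd_of_pos h1 hn.1, (Nat.le_of_dvd hn.1 h1).trans hn.2⟩, h1⟩
    · rintro ⟨_, h1⟩
      exact ⟨h1, by omega⟩
  rw [sum_congr rfl e1, sum_comm]
  refine sum_congr rfl fun d _ => ?_
  rw [← sum_filter, sum_const, nsmul_eq_mul, e0, Nat.Ioc_filter_dvd_card_eq_div, mul_comm]

/-- Mertens, upper bound -/
private theorem top_mert : ∃ C : ℝ, ∃ n0 : ℕ, ∀ n : ℕ, n0 ≤ n →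
    ∑ p ∈ (Icc 1 n).filter Nat.Prime, 1 / (p : ℝ) ≤ Real.log (Real.log n) + C := by
  obtain ⟨c, hc⟩ := Pool.Agent.H36.IS.mertA
  obtain ⟨n0, hn0⟩ := Metric.tendsto_atTop.1 hc 1 one_pos
  refine ⟨c + 1, n0, fun n hn => ?_⟩
  have h1 := hn0 n hn
  rw [Real.dist_eq, abs_lt] at h1
  have h2 : ∑ p ∈ (Icc 1 n).filter Nat.Prime, 1 / (p : ℝ) ≤ Pool.Agent.H36.IS.fS n := by
    unfold Pool.Agent.H36.IS.fS
    have e1 : (Icc 1 n).filter Nat.Prime ⊆ (range (n + 1)).filter Nat.Prime := by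
      intro p hp
      rw [mem_filter, mem_Icc] at hp
      rw [mem_filter, mem_range]
      exact ⟨by omega, hp.2⟩
    have h3 : ∀ p ∈ (range (n + 1)).filter Nat.Prime, 1 / (p : ℝ) ≤ -Real.log (1 - 1 / (p : ℝ)) := by
      intro p hp
      rw [mem_filter] at hp
      have hp2 : (2 : ℝ) ≤ p := by exact_mod_cast hp.2.two_le
      have h4 : 1 / (p : ℝ) ≤ 1 / 2 := by
        apply one_div_le_one_div_of_le (by norm_num) hp2
      have h5 := Real.log_le_sub_one_of_pos (show (0 : ℝ) < 1 - 1 / (p : ℝ) by linarith only [h4])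
      linarith only [h5]
    refine (sum_le_sum_of_subset_of_nonneg e1 fun p _ _ => by positivity).trans (sum_le_sum h3)
  linarith only [h1, h2, h1.2]

/-- `(φ/m) log m → ∞` -/
private theorem top_phi (K : ℝ) : ∃ m0 : ℕ, ∀ m : ℕ, m0 ≤ m →
    K ≤ (m.totient : ℝ) / m * Real.log m := by
  obtain ⟨C, hC, H⟩ := tot_logw
  have h0 : Filter.Tendsto (fun x : ℝ => Real.log x / x) Filter.atTop (nhds 0) := by
    have := Real.isLittleO_log_id_atTop.tendsto_div_nhds_zero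
    simpa using this
  have h1 : Filter.Tendsto (fun m : ℕ => 2 * Real.log (m : ℝ) + 2) Filter.atTop Filter.atTop :=
    Filter.tendsto_atTop_add_const_right _ _
      ((Real.tendsto_log_atTop.comp tendsto_natCast_atTop_atTop).const_mul_atTop (by norm_num))
  obtain ⟨m0, hm0⟩ := Filter.eventually_atTop.1
    (((h0.comp h1).eventually_lt_const (show (0 : ℝ) < 1 / (4 * C * (|K| + 1)) by positivity)).and
      ((Real.tendsto_log_atTop.comp tendsto_natCast_atTop_atTop).eventually_ge_atTop 1))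
  refine ⟨max m0 1, fun m hm => ?_⟩
  obtain ⟨h2, h3⟩ := hm0 m ((le_max_left _ _).trans hm)
  have hm1 : 1 ≤ m := (le_max_right _ _).trans hm
  simp only [Function.comp] at h2 h3
  have hmR : (0 : ℝ) < m := by exact_mod_cast hm1
  obtain ⟨L, hL⟩ : ∃ L, L = Real.log (m : ℝ) := ⟨_, rfl⟩
  rw [← hL] at h2 h3 ⊢
  have hω := Pool.Agent.H78.PH.omega_le m m hm1 le_rfl
  rw [← hL] at hω
  have h4 := H m hm1
  have h5 : Real.log ((m.primeFactors.card : ℝ) + 2) ≤ Real.log (2 * L + 2) :=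
    Real.log_le_log (by positivity) (by linarith only [hω])
  have h6 : Real.log (2 * L + 2) ≤ (2 * L + 2) * (1 / (4 * C * (|K| + 1))) := by
    rw [div_lt_iff₀ (by linarith only [h3])] at h2
    linarith only [h2]
  have h7 : (2 * L + 2) * (1 / (4 * C * (|K| + 1))) ≤ L / (C * (|K| + 1)) := by
    rw [mul_one_div, div_le_div_iff₀ (by positivity) (by positivity)]
    have : C * (|K| + 1) ≤ C * (|K| + 1) * L := le_mul_of_one_le_right (by positivity) h3
    linarith only [this]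
  have hφ : (0 : ℝ) < m.totient := by exact_mod_cast Nat.totient_pos.2 hm1
  have h8 : (m : ℝ) ≤ C * (L / (C * (|K| + 1))) * m.totient := by
    refine h4.trans ?_
    gcongr
    linarith only [h5, h6, h7]
  have h9 : C * (L / (C * (|K| + 1))) = L / (|K| + 1) := by
    field_simp
  rw [h9] at h8
  have hK : 0 < |K| + 1 := by positivity
  have h10 : (|K| + 1) * m ≤ L * m.totient := by
    rw [div_mul_eq_mul_div, le_div_iff₀ hK] at h8
    linarith only [h8]
  have h11 : |K| + 1 ≤ (m.totient : ℝ) / m * L := by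
    rw [div_mul_eq_mul_div, le_div_iff₀ hmR]
    linarith only [h10]
  linarith only [h11, le_abs_self K]

/-- replacing the integer parts -/
private theorem top_abs (f : ℕ → ℝ) (hv : ∀ n, f n = 0 ∨ f n = 1 ∨ f n = -1) (x : ℕ) :
    |(x : ℝ) * ∑ d ∈ Icc 1 x, f d / d - ∑ d ∈ Icc 1 x, f d * ((x / d : ℕ) : ℝ)| ≤ x := by
  rw [mul_sum, ← sum_sub_distrib]
  refine (abs_sum_le_sum_abs _ _).trans ?_
  have h1 : ∀ d ∈ Icc 1 x, |(x : ℝ) * (f d / d) - f d * ((x / d : ℕ) : ℝ)| ≤ 1 := by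
    intro d hd
    rw [mem_Icc] at hd
    have hd0 : (0 : ℝ) < d := by exact_mod_cast hd.1
    have e1 : (x : ℝ) * (f d / d) - f d * ((x / d : ℕ) : ℝ)
        = f d * ((x : ℝ) / d - ((x / d : ℕ) : ℝ)) := by ring
    rw [e1, abs_mul]
    have h2 : |f d| ≤ 1 := by
      rcases hv d with h | h | h <;> rw [h] <;> norm_num
    have h3 : |(x : ℝ) / d - ((x / d : ℕ) : ℝ)| ≤ 1 := by
      rw [abs_le]
      have h4 : ((x / d : ℕ) : ℝ) ≤ (x : ℝ) / d := Nat.cast_div_le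
      have h5 : (x : ℝ) / d < ((x / d : ℕ) : ℝ) + 1 := by
        rw [div_lt_iff₀ hd0]
        have h6 : x < (x / d + 1) * d := by
          have := Nat.lt_div_mul_add (a := x) hd.1
          calc x < x / d * d + d := this
            _ = (x / d + 1) * d := by ring
        exact_mod_cast h6
      constructor <;> linarith only [h4, h5]
    calc |f d| * |(x : ℝ) / d - ((x / d : ℕ) : ℝ)| ≤ 1 * 1 :=
          mul_le_mul h2 h3 (abs_nonneg _) zero_le_one
      _ = 1 := one_mul 1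
  refine (sum_le_sum h1).trans ?_
  simp

/-- the values of a real character -/
private theorem top_val (m : ℕ) [NeZero m] (χ : DirichletCharacter ℂ m) (h : χ ^ 2 = 1) (n : ℕ) :
    (χ (n : ZMod m)).re = 0 ∧ χ (n : ZMod m) = 0 ∨
    (χ (n : ZMod m)).re = 1 ∧ χ (n : ZMod m) = 1 ∨
    (χ (n : ZMod m)).re = -1 ∧ χ (n : ZMod m) = -1 := by
  by_cases hu : IsUnit (n : ZMod m)
  · have h1 : χ (n : ZMod m) * χ (n : ZMod m) = 1 := by
      rw [← pow_two, ← MulChar.pow_apply' χ two_ne_zero, h, MulChar.one_apply hu]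
    have h2 : χ (n : ZMod m) = 1 ∨ χ (n : ZMod m) = -1 := mul_self_eq_one_iff.mp h1
    rcases h2 with h2 | h2
    · right; left
      rw [h2]; simp
    · right; right
      rw [h2]; simp
  · left
    rw [MulChar.map_nonunit χ hu]
    simp

/-- upper bound for the sum with the integer parts -/
private theorem top_up : ∃ C : ℝ, 0 < C ∧ ∀ f : ℕ → ℝ, f 1 = 1 →
    (∀ a b : ℕ, 1 ≤ a → 1 ≤ b → f (a * b) = f a * f b) →
    (∀ n, f n = 0 ∨ f n = 1 ∨ f n = -1) → ∀ x : ℕ, 2 ≤ x →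
    |∑ d ∈ Icc 1 x, f d * ((x / d : ℕ) : ℝ)| ≤ C * (x / Real.log x) *
      Real.exp (∑ p ∈ (Icc 1 x).filter Nat.Prime, (1 + f p) / p) := by
  obtain ⟨C, hC, H⟩ := t7
  refine ⟨C, hC, fun f h1 hm hv x hx => ?_⟩
  rw [← top_id, abs_of_nonneg (sum_nonneg fun n _ => top_nn f h1 hm hv n)]
  exact H f h1 hm hv x hx

/-- the two exponents together -/
private theorem top_two (f1 f2 : ℕ → ℝ) (hv : ∀ n, f2 n = 0 ∨ f2 n = 1 ∨ f2 n = -1)
    (hp : ∀ p : ℕ, p.Prime → f1 p = - f2 p) (x M : ℕ) (hxM : x ≤ M) :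
    ∑ p ∈ (Icc 1 x).filter Nat.Prime, (1 + f1 p) / p +
      ∑ p ∈ (Icc 1 M).filter Nat.Prime, (1 + f2 p) / p
    ≤ 2 * ∑ p ∈ (Icc 1 M).filter Nat.Prime, 1 / (p : ℝ) := by
  have hsub : (Icc 1 x).filter Nat.Prime ⊆ (Icc 1 M).filter Nat.Prime := by
    intro p hp
    rw [mem_filter, mem_Icc] at hp ⊢
    exact ⟨⟨hp.1.1, hp.1.2.trans hxM⟩, hp.2⟩
  have hb : ∀ n, 0 ≤ 1 - f2 n := by
    intro n
    rcases hv n with h | h | h <;> rw [h] <;> norm_num
  have h1 : ∑ p ∈ (Icc 1 x).filter Nat.Prime, (1 + f1 p) / p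
      ≤ ∑ p ∈ (Icc 1 M).filter Nat.Prime, (1 - f2 p) / p := by
    have e1 : ∑ p ∈ (Icc 1 x).filter Nat.Prime, (1 + f1 p) / p
        = ∑ p ∈ (Icc 1 x).filter Nat.Prime, (1 - f2 p) / p := by
      refine sum_congr rfl fun p hp' => ?_
      rw [mem_filter] at hp'
      rw [hp p hp'.2, sub_eq_add_neg]
    rw [e1]
    refine sum_le_sum_of_subset_of_nonneg hsub fun p _ _ => ?_
    have := hb p
    positivity
  refine (add_le_add_left h1 _).trans ?_
  rw [← sum_add_distrib, mul_sum]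
  refine sum_le_sum fun p _ => le_of_eq ?_
  ring

/-- the bound for `L(1, χ)` -/
theorem top_L : ∃ C : ℝ, 0 < C ∧ ∃ m0 : ℕ, ∀ (m : ℕ) [NeZero m], m0 ≤ m →
    ∀ χ : DirichletCharacter ℂ m, χ ^ 2 = 1 → χ ≠ 1 →
    1 / 400 * (m.totient / m) * Real.log m
      ≤ ‖∑ a ∈ cop m ⌊(m : ℝ) ^ (1 / 100 : ℝ)⌋₊, vv m χ a / a‖ →
    ‖DirichletCharacter.LFunction χ 1‖ ≤ C * (m / m.totient) / Real.log m := by
  obtain ⟨C7, hC7, H7⟩ := top_up
  obtain ⟨CM, nM, HM⟩ := top_mert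
  obtain ⟨mφ, Hφ⟩ := top_phi 800
  obtain ⟨mK, HK⟩ := KK_le (1 / 4) (by norm_num)
  obtain ⟨mG, HG⟩ := grow 5 1 (1 / 8) (by norm_num)
  obtain ⟨mX, HX⟩ := grow 2 0 (1 / 200) (by norm_num)
  obtain ⟨K1, hK1⟩ : ∃ K1, K1 = 160000 * C7 * Real.exp (2 * CM) := ⟨_, rfl⟩
  have hK10 : 0 < K1 := by rw [hK1]; positivity
  refine ⟨C7 * K1 + 1, by positivity, max nM (max mφ (max mK (max mG (max mX 3)))),
    fun m _ hm χ hχ2 hχ1 hS => ?_⟩
  rw [max_le_iff, max_le_iff, max_le_iff, max_le_iff, max_le_iff] at hm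
  obtain ⟨hm1, hm2, hm3, hm4, hm5, hm6⟩ := hm
  have g1 := HM m hm1
  have g2 := Hφ m hm2
  have g3 := HK m hm3
  have g4 := HG m hm4
  have g5 := HX m hm5
  have hmR : (3 : ℝ) ≤ m := by exact_mod_cast hm6
  have hm0 : (0 : ℝ) < m := by linarith only [hmR]
  have hφ : (0 : ℝ) < m.totient := by exact_mod_cast Nat.totient_pos.2 (by omega)
  have hφm : (m.totient : ℝ) ≤ m := by exact_mod_cast Nat.totient_le m
  obtain ⟨L, hL⟩ : ∃ L, L = Real.log (m : ℝ) := ⟨_, rfl⟩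
  have hL1 : 1 ≤ L := by
    rw [hL, Real.le_log_iff_exp_le hm0]
    have := Real.exp_one_lt_d9
    linarith only [hmR, this]
  rw [← hL] at g1 g2 g4 hS ⊢
  -- the length
  obtain ⟨y, hy⟩ : ∃ y, y = (m : ℝ) ^ (1 / 200 : ℝ) := ⟨_, rfl⟩
  have hy2 : 2 ≤ y := by
    rw [← hy] at g5
    simpa using g5
  have hyy : (m : ℝ) ^ (1 / 100 : ℝ) = y * y := by
    rw [hy, ← Real.rpow_add hm0]
    norm_num
  obtain ⟨x, hx⟩ : ∃ x, x = ⌊(m : ℝ) ^ (1 / 100 : ℝ)⌋₊ := ⟨_, rfl⟩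
  rw [← hx] at hS
  have hx1 : (x : ℝ) ≤ (m : ℝ) ^ (1 / 100 : ℝ) := by
    rw [hx]
    exact Nat.floor_le (Real.rpow_nonneg hm0.le _)
  have hx2 : (m : ℝ) ^ (1 / 100 : ℝ) < x + 1 := by
    rw [hx]
    exact Nat.lt_floor_add_one _
  have hxy : y ≤ x := by
    rw [hyy] at hx2
    have := mul_le_mul_of_nonneg_right hy2 (show (0 : ℝ) ≤ y by linarith only [g5, hy])
    linarith only [g5, hy, hx2, this]
  have hx3 : 2 ≤ x := by
    have : (2 : ℝ) ≤ x := hy2.trans hxy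
    exact_mod_cast this
  have hxm : x ≤ m := by
    have h1 : (m : ℝ) ^ (1 / 100 : ℝ) ≤ (m : ℝ) ^ (1 : ℝ) :=
      Real.rpow_le_rpow_of_exponent_le (by linarith only [hmR]) (by norm_num)
    rw [Real.rpow_one] at h1
    exact_mod_cast hx1.trans h1
  have hx0 : (0 : ℝ) < x := by linarith only [g5, hy, hxy]
  have hlx : L / 200 ≤ Real.log x := by
    have h1 : Real.log y = L / 200 := by
      rw [hy, Real.log_rpow hm0, hL]
      ring
    rw [← h1]
    exact Real.log_le_log (by linarith only [g5, hy]) hxy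
  -- the two functions
  have hv := top_val m χ hχ2
  obtain ⟨f2, hf2⟩ : ∃ f2 : ℕ → ℝ, ∀ n : ℕ, f2 n = (χ (n : ZMod m)).re := ⟨_, fun _ => rfl⟩
  have hr : ∀ n : ℕ, χ (n : ZMod m) = ((f2 n : ℝ) : ℂ) := by
    intro n
    rw [hf2]
    rcases hv n with h | h | h <;> rw [h.1, h.2] <;> simp
  have hf2v : ∀ n, f2 n = 0 ∨ f2 n = 1 ∨ f2 n = -1 := by
    intro n
    rw [hf2]
    rcases hv n with h | h | h
    · exact Or.inl h.1
    · exact Or.inr (Or.inl h.1)
    · exact Or.inr (Or.inr h.1)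
  have hf21 : f2 1 = 1 := by
    have := hr 1
    rw [Nat.cast_one, map_one] at this
    exact_mod_cast this.symm
  have hf2m : ∀ a b : ℕ, 1 ≤ a → 1 ≤ b → f2 (a * b) = f2 a * f2 b := by
    intro a b _ _
    have h1 := hr (a * b)
    rw [Nat.cast_mul, map_mul, hr a, hr b] at h1
    exact_mod_cast h1.symm
  obtain ⟨f1, hf1⟩ : ∃ f1 : ℕ → ℝ, ∀ n : ℕ, f1 n = ((lam n : ℤ) : ℝ) * f2 n := ⟨_, fun _ => rfl⟩
  have hf1v : ∀ n, f1 n = 0 ∨ f1 n = 1 ∨ f1 n = -1 := by
    intro n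
    rw [hf1]
    rcases lam_val n with h | h <;> rcases hf2v n with h' | h' | h' <;> rw [h, h'] <;> norm_num
  have hf11 : f1 1 = 1 := by
    rw [hf1, hf21, Pool.Agent.H34PG.lam_one]
    norm_num
  have hf1m : ∀ a b : ℕ, 1 ≤ a → 1 ≤ b → f1 (a * b) = f1 a * f1 b := by
    intro a b ha hb
    rw [hf1, hf1, hf1, lam_mul a b ha hb, hf2m a b ha hb]
    push_cast
    ring
  have hf1p : ∀ p : ℕ, p.Prime → f1 p = - f2 p := by
    intro p hp
    rw [hf1, lam_prime hp]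
    norm_num
  -- the logarithmic sum
  obtain ⟨S, hSd⟩ : ∃ S : ℝ, S = ∑ d ∈ Icc 1 x, f1 d / d := ⟨_, rfl⟩
  have eS : ∑ a ∈ cop m x, vv m χ a / (a : ℂ) = ((S : ℝ) : ℂ) := by
    rw [hSd]
    unfold cop
    rw [sum_filter]
    push_cast
    refine sum_congr rfl fun d _ => ?_
    split_ifs with hd
    · rw [hf1]
      unfold vv
      rw [hr d]
      push_cast
      ring
    · have h0 : χ (d : ZMod m) = 0 :=
        MulChar.map_nonunit χ (fun hu => hd ((ZMod.isUnit_iff_coprime d m).mp hu))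
      have h1 : f2 d = 0 := by
        rw [hf2, h0]
        simp
      rw [hf1, h1]
      simp
  rw [eS, Complex.norm_real, Real.norm_eq_abs] at hS
  obtain ⟨E1, hE1⟩ : ∃ E1, E1 = ∑ p ∈ (Icc 1 x).filter Nat.Prime, (1 + f1 p) / p := ⟨_, rfl⟩
  obtain ⟨E2, hE2⟩ : ∃ E2, E2 = ∑ p ∈ (Icc 1 m).filter Nat.Prime, (1 + f2 p) / p := ⟨_, rfl⟩
  have a1 := top_abs f1 hf1v x
  have a2 := H7 f1 hf11 hf1m hf1v x hx3
  have a3 := H7 f2 hf21 hf2m hf2v m (by omega)
  have a4 := top_two f1 f2 hf2v hf1p x m hxm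
  rw [← hE1] at a2 a4
  rw [← hE2, ← hL] at a3
  rw [← hE2] at a4
  rw [← hSd] at a1
  obtain ⟨r, hrr⟩ : ∃ r, r = (m.totient : ℝ) / m := ⟨_, rfl⟩
  have hr0 : 0 < r := by rw [hrr]; positivity
  rw [← hrr] at g2 hS
  -- lower bound for `exp E1`
  have b1 : r * L ^ 2 ≤ 160000 * C7 * Real.exp E1 := by
    have c1 : |(x : ℝ) * S| ≤ C7 * (x / Real.log x) * Real.exp E1 + x := by
      have := abs_sub_abs_le_abs_sub ((x : ℝ) * S) (∑ d ∈ Icc 1 x, f1 d * ((x / d : ℕ) : ℝ))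
      linarith only [a1, a2, this]
    rw [abs_mul, abs_of_pos hx0] at c1
    have hlx0 : 0 < Real.log x := by linarith only [hL1, hlx]
    have c2 : C7 * (x / Real.log x) * Real.exp E1 ≤ C7 * (x / (L / 200)) * Real.exp E1 := by
      gcongr
    have c3 : C7 * (x / (L / 200)) * Real.exp E1 = x * (200 * C7 * Real.exp E1 / L) := by
      field_simp
    have c4 : (x : ℝ) * |S| ≤ x * (200 * C7 * Real.exp E1 / L + 1) := by
      rw [mul_add, ← c3]
      linarith only [c1, c2]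
    have c5 : |S| ≤ 200 * C7 * Real.exp E1 / L + 1 := le_of_mul_le_mul_left c4 hx0
    have c6 : r * L / 800 ≤ 200 * C7 * Real.exp E1 / L := by linarith only [hS, g2, c5]
    rw [le_div_iff₀ (by linarith only [hL1])] at c6
    linarith only [c6]
  -- the product
  have b2 : Real.exp E1 * Real.exp E2 ≤ L ^ 2 * Real.exp (2 * CM) := by
    rw [← Real.exp_add]
    have c1 : E1 + E2 ≤ 2 * Real.log L + 2 * CM := by linarith only [g1, a4]
    refine (Real.exp_le_exp.mpr c1).trans (le_of_eq ?_)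
    rw [Real.exp_add, two_mul, Real.exp_add, Real.exp_log (by linarith only [hL1]), pow_two]
  have b3 : r * Real.exp E2 ≤ K1 := by
    have hE20 := Real.exp_pos E2
    have c1 : r * L ^ 2 * Real.exp E2 ≤ 160000 * C7 * (L ^ 2 * Real.exp (2 * CM)) := by
      calc r * L ^ 2 * Real.exp E2 ≤ 160000 * C7 * Real.exp E1 * Real.exp E2 :=
            mul_le_mul_of_nonneg_right b1 hE20.le
        _ = 160000 * C7 * (Real.exp E1 * Real.exp E2) := by ring
        _ ≤ _ := mul_le_mul_of_nonneg_left b2 (by positivity)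
    have c2 : L ^ 2 * (r * Real.exp E2) ≤ L ^ 2 * K1 := by
      rw [hK1]
      linarith only [c1]
    exact le_of_mul_le_mul_left c2 (by positivity)
  -- the hyperbola method
  have hm34 : KK m ≤ m := by
    refine g3.trans ?_
    have h1 : (m : ℝ) ^ (1 / 2 + 1 / 4 : ℝ) ≤ (m : ℝ) ^ (1 : ℝ) :=
      Real.rpow_le_rpow_of_exponent_le (by linarith only [hmR]) (by norm_num)
    rwa [Real.rpow_one] at h1
  have h5 := hyper m χ hχ1 m (by omega) hm34
  have eD : DD m m χ = ((∑ d ∈ Icc 1 m, f2 d * ((m / d : ℕ) : ℝ) : ℝ) : ℂ) := by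
    unfold DD
    rw [Complex.ofReal_sum]
    refine sum_congr rfl fun d _ => ?_
    rw [hr d, Complex.ofReal_mul, Complex.ofReal_natCast]
  obtain ⟨z, hz⟩ : ∃ z, z = (m : ℝ) ^ (7 / 8 : ℝ) := ⟨_, rfl⟩
  have hz0 : 0 < z := by rw [hz]; positivity
  have h6 : Real.sqrt (m * KK m) ≤ z := by
    rw [Real.sqrt_le_left hz0.le]
    have e1 : z ^ 2 = m * (m : ℝ) ^ (1 / 2 + 1 / 4 : ℝ) := by
      have e2 : (m : ℝ) * (m : ℝ) ^ (1 / 2 + 1 / 4 : ℝ)
          = (m : ℝ) ^ (1 : ℝ) * (m : ℝ) ^ (1 / 2 + 1 / 4 : ℝ) := by rw [Real.rpow_one]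
      rw [e2, hz, ← Real.rpow_natCast, ← Real.rpow_mul hm0.le, ← Real.rpow_add hm0]
      norm_num
    rw [e1]
    exact mul_le_mul_of_nonneg_left g3 hm0.le
  have h7 : 5 * z ≤ m / L := by
    rw [le_div_iff₀ (by linarith only [hL1])]
    have e1 : z * (m : ℝ) ^ (1 / 8 : ℝ) = m := by
      rw [hz, ← Real.rpow_add hm0]
      norm_num
    rw [pow_one] at g4
    calc 5 * z * L ≤ z * (5 * (1 + L)) := by linarith only [hz0]
      _ ≤ z * (m : ℝ) ^ (1 / 8 : ℝ) := mul_le_mul_of_nonneg_left g4 hz0.le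
      _ = m := e1
  have h8 : ‖DD m m χ‖ ≤ C7 * (m / L) * Real.exp E2 := by
    rw [eD, Complex.norm_real, Real.norm_eq_abs]
    exact a3
  have h9 : (m : ℝ) * ‖DirichletCharacter.LFunction χ 1‖ ≤ C7 * (m / L) * Real.exp E2 + m / L := by
    have e1 : ‖(m : ℂ) * DirichletCharacter.LFunction χ 1‖
        = (m : ℝ) * ‖DirichletCharacter.LFunction χ 1‖ := by
      rw [norm_mul, Complex.norm_natCast]
    rw [← e1]
    have e2 : (m : ℂ) * DirichletCharacter.LFunction χ 1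
        = DD m m χ - (DD m m χ - m * DirichletCharacter.LFunction χ 1) := by ring
    rw [e2]
    refine (norm_sub_le _ _).trans ?_
    linarith
  have h10 : Real.exp E2 ≤ K1 * (m / m.totient) := by
    have e1 : K1 * ((m : ℝ) / m.totient) = K1 / r := by
      rw [hrr]
      field_simp
    rw [e1, le_div_iff₀ hr0]
    linarith only [b3]
  have h11 : 1 ≤ (m : ℝ) / m.totient := by
    rw [le_div_iff₀ hφ]
    linarith only [hφm]
  have h12 : (m : ℝ) * ‖DirichletCharacter.LFunction χ 1‖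
      ≤ m * ((C7 * K1 + 1) * (m / m.totient) / L) := by
    refine h9.trans ?_
    have hmL : 0 < (m : ℝ) / L := by positivity
    calc C7 * (m / L) * Real.exp E2 + m / L
        ≤ C7 * (m / L) * (K1 * (m / m.totient)) + m / L * (m / m.totient) := by
          refine add_le_add (mul_le_mul_of_nonneg_left h10 (by positivity)) ?_
          exact le_mul_of_one_le_right hmL.le h11
      _ = m * ((C7 * K1 + 1) * (m / m.totient) / L) := by ring
  exact le_of_mul_le_mul_left h12 hm0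

end Pool.Agent.H78.PD

end
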