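import Pool.Agent.H94.PG.H78.PD.Pri
import Pool.Agent.H94.PG.M24
import Pool.Agent.H94.PG.M25

/-! The parts of this file: H78.PD.T6a, H78.PD.T6_1. -/

section

/-!
# PD, T6a: many triples

`B` = a set of bad primes with `∑_B 1/q ≤ δ0`.  `a ≤ m^(1/100)`, `p1, p2 ∈ P3 m`, `X = m/(2 A a p1 p2)`, `p3 ∈ XX3 m A a p1 p2` (`X < p3 ≤ A X`): `X ≥ m^(33/100)/(2A) ≥ m^(3/10)`, `A X ≤ m^(36/100)`.
The number of triples is `≥ ∑ X/p3 = (m/(2Aa)) ∑_{p1, p2, p3 not in B} 1/(p1 p2 p3)`; all triples: `≥ (1/50)² c/L` (`pri_mert`: `log(33/32) ≥ 3/100`; `pri_low`); those with `p1 ∈ B`: `≤ δ0 · 1 · C/L` (`pri_up`), the same for `p2`; those with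
`p3 ∈ B`: given `p2, p3`: `p1 ∈ [m/(2Aap2p3), m/(2ap2p3))`: `≤ δ0 · 1 · C/L`.  `δ0` small.
-/

set_option autoImplicit false

namespace Pool.Agent.H78.PD

open Finset
open Pool.Agent.H34PG (lam lam_val lam_mul lam_prime)
open Pool.Agent.H11.LQ Pool.Agent.H78.PG

private theorem t6_split (P B : Finset ℕ) (X : ℕ → ℕ → Finset ℕ) (f : ℕ → ℕ → ℕ → ℝ)
    (hf : ∀ a b c, 0 ≤ f a b c) :
    ∑ p1 ∈ P, ∑ p2 ∈ P, ∑ p3 ∈ X p1 p2, f p1 p2 p3 ≤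
      (∑ p1 ∈ P \ B, ∑ p2 ∈ P \ B, ∑ p3 ∈ X p1 p2 \ B, f p1 p2 p3) +
      (∑ p1 ∈ P ∩ B, ∑ p2 ∈ P, ∑ p3 ∈ X p1 p2, f p1 p2 p3) +
      (∑ p1 ∈ P, ∑ p2 ∈ P ∩ B, ∑ p3 ∈ X p1 p2, f p1 p2 p3) +
      (∑ p1 ∈ P, ∑ p2 ∈ P, ∑ p3 ∈ X p1 p2 ∩ B, f p1 p2 p3) := by
  have e1 : ∑ p1 ∈ P, ∑ p2 ∈ P, ∑ p3 ∈ X p1 p2, f p1 p2 p3 =
      (∑ p1 ∈ P ∩ B, ∑ p2 ∈ P, ∑ p3 ∈ X p1 p2, f p1 p2 p3) +
      ∑ p1 ∈ P \ B, ∑ p2 ∈ P, ∑ p3 ∈ X p1 p2, f p1 p2 p3 :=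
    (sum_inter_add_sum_sdiff P B _).symm
  have e2 : ∑ p1 ∈ P \ B, ∑ p2 ∈ P, ∑ p3 ∈ X p1 p2, f p1 p2 p3 =
      (∑ p1 ∈ P \ B, ∑ p2 ∈ P ∩ B, ∑ p3 ∈ X p1 p2, f p1 p2 p3) +
      ∑ p1 ∈ P \ B, ∑ p2 ∈ P \ B, ∑ p3 ∈ X p1 p2, f p1 p2 p3 := by
    rw [← sum_add_distrib]
    exact sum_congr rfl fun p1 _ => (sum_inter_add_sum_sdiff P B _).symm
  have e3 : ∑ p1 ∈ P \ B, ∑ p2 ∈ P \ B, ∑ p3 ∈ X p1 p2, f p1 p2 p3 =
      (∑ p1 ∈ P \ B, ∑ p2 ∈ P \ B, ∑ p3 ∈ X p1 p2 ∩ B, f p1 p2 p3) +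
      ∑ p1 ∈ P \ B, ∑ p2 ∈ P \ B, ∑ p3 ∈ X p1 p2 \ B, f p1 p2 p3 := by
    rw [← sum_add_distrib]
    refine sum_congr rfl fun p1 _ => ?_
    rw [← sum_add_distrib]
    exact sum_congr rfl fun p2 _ => (sum_inter_add_sum_sdiff (X p1 p2) B _).symm
  have i2 : ∑ p1 ∈ P \ B, ∑ p2 ∈ P ∩ B, ∑ p3 ∈ X p1 p2, f p1 p2 p3 ≤
      ∑ p1 ∈ P, ∑ p2 ∈ P ∩ B, ∑ p3 ∈ X p1 p2, f p1 p2 p3 :=
    sum_le_sum_of_subset_of_nonneg sdiff_subset fun _ _ _ =>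
      sum_nonneg fun _ _ => sum_nonneg fun _ _ => hf _ _ _
  have i3 : ∑ p1 ∈ P \ B, ∑ p2 ∈ P \ B, ∑ p3 ∈ X p1 p2 ∩ B, f p1 p2 p3 ≤
      ∑ p1 ∈ P, ∑ p2 ∈ P, ∑ p3 ∈ X p1 p2 ∩ B, f p1 p2 p3 := by
    refine le_trans (sum_le_sum_of_subset_of_nonneg (t := P) sdiff_subset fun _ _ _ =>
      sum_nonneg fun _ _ => sum_nonneg fun _ _ => hf _ _ _) ?_
    exact sum_le_sum fun p1 _ => sum_le_sum_of_subset_of_nonneg sdiff_subset fun _ _ _ =>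
      sum_nonneg fun _ _ => hf _ _ _
  rw [e1, e2, e3]
  linarith

theorem t6_triples : ∃ A δ0 c : ℝ, 2 ≤ A ∧ 0 < δ0 ∧ 0 < c ∧ ∃ m0 : ℕ, ∀ m : ℕ, m0 ≤ m →
    ∀ B : Finset ℕ, (∀ q ∈ B, q.Prime) → ∑ q ∈ B, 1 / (q : ℝ) ≤ δ0 → ∀ a : ℕ, 1 ≤ a →
    (a : ℝ) ≤ (m : ℝ) ^ (1 / 100 : ℝ) →
    c * m / (a * Real.log m) ≤
      ((∑ p1 ∈ P3 m \ B, ∑ p2 ∈ P3 m \ B, (XX3 m A a p1 p2 \ B).card : ℕ) : ℝ) := by
  obtain ⟨A, c, hA, hc, hlow⟩ := pri_low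
  obtain ⟨C, hC, m1, H1⟩ := pri_up (3 / 10) (by norm_num)
  obtain ⟨m2, H2⟩ := hlow (3 / 10) (by norm_num)
  obtain ⟨m3, H3⟩ := pri_mert (32 / 100) (33 / 100) (1 / 100) (by norm_num) (by norm_num)
    (by norm_num) (by norm_num)
  have hA0 : 0 < A := by linarith
  have hlogA : 0 ≤ Real.log A := Real.log_nonneg (by linarith)
  obtain ⟨m4, H4⟩ := grow (2 * A) 0 (2 / 100) (by norm_num)
  obtain ⟨D, hD⟩ : ∃ D : ℝ, D = C * (1 + Real.log A) := ⟨_, rfl⟩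
  have hD0 : 0 < D := by rw [hD]; positivity
  refine ⟨A, c / (15000 * D), c / (10000 * A), hA, by positivity, by positivity,
    max (max m1 m2) (max (max m3 m4) 3), ?_⟩
  intro m hm B hB hBs a ha ham
  simp only [max_le_iff] at hm
  obtain ⟨⟨hm1, hm2⟩, ⟨hm3, hm4⟩, hm5⟩ := hm
  have hM3 : (3 : ℝ) ≤ (m : ℝ) := by exact_mod_cast hm5
  have hM1 : (1 : ℝ) ≤ (m : ℝ) := by linarith
  have hM0 : (0 : ℝ) < (m : ℝ) := by linarith
  have hL : 0 < Real.log m := Real.log_pos (by linarith)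
  obtain ⟨L, hLL⟩ : ∃ L : ℝ, L = Real.log m := ⟨_, rfl⟩
  rw [← hLL] at hL
  have ha1 : (1 : ℝ) ≤ a := by exact_mod_cast ha
  have ha0 : (0 : ℝ) < a := by linarith
  -- the sum over P3
  obtain ⟨S, hS⟩ : ∃ S : ℝ, S = ∑ p ∈ P3 m, 1 / (p : ℝ) := ⟨_, rfl⟩
  have hS0 : 0 ≤ S := by rw [hS]; exact sum_nonneg fun _ _ => by positivity
  have hSb : 1 / 50 ≤ S ∧ S ≤ 1 := by
    have h1 := H3 m hm3
    have h2 : ∑ p ∈ PI m ((m : ℝ) ^ (32 / 100 : ℝ)) ((m : ℝ) ^ (33 / 100 : ℝ)), 1 / (p : ℝ) = S := by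
      rw [hS]
      rfl
    rw [h2, abs_le] at h1
    have h3 : Real.log (33 / 100 / (32 / 100)) ≤ 1 / 32 := by
      refine (Real.log_le_sub_one_of_pos (by norm_num)).trans (by norm_num)
    have h4 : 1 / 33 ≤ Real.log (33 / 100 / (32 / 100)) := by
      refine le_trans (by norm_num) (Real.one_sub_inv_le_log_of_pos (by norm_num))
    constructor
    · linarith [h1.1]
    · linarith [h1.2]
  have hP3 : ∀ {p : ℕ}, p ∈ P3 m → p.Prime ∧ ¬ p ∣ m ∧ (m : ℝ) ^ (32 / 100 : ℝ) < (p : ℝ) ∧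
      (p : ℝ) ≤ (m : ℝ) ^ (33 / 100 : ℝ) := by
    intro p hp
    unfold P3 at hp
    exact (mem_PI (by positivity)).mp hp
  have h2A : 2 * A ≤ (m : ℝ) ^ (2 / 100 : ℝ) := by
    have h1 := H4 m hm4
    rwa [pow_zero, mul_one] at h1
  -- the size of X
  have hX : ∀ p1 ∈ P3 m, ∀ p2 ∈ P3 m,
      (m : ℝ) ^ (3 / 10 : ℝ) ≤ (m : ℝ) / (2 * A * a * p1 * p2) ∧
      (m : ℝ) / (2 * A * a * p1 * p2) ≤ m := by
    intro p1 hp1 p2 hp2
    obtain ⟨q1, q2, q3, q4⟩ := hP3 hp1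
    obtain ⟨r1, r2, r3, r4⟩ := hP3 hp2
    have o1 : (1 : ℝ) ≤ p1 := by exact_mod_cast q1.one_lt.le
    have o2 : (1 : ℝ) ≤ p2 := by exact_mod_cast r1.one_lt.le
    constructor
    · rw [le_div_iff₀ (by positivity)]
      calc (m : ℝ) ^ (3 / 10 : ℝ) * (2 * A * a * p1 * p2)
          ≤ (m : ℝ) ^ (3 / 10 : ℝ) * ((m : ℝ) ^ (2 / 100 : ℝ) * (m : ℝ) ^ (1 / 100 : ℝ) *
              (m : ℝ) ^ (33 / 100 : ℝ) * (m : ℝ) ^ (33 / 100 : ℝ)) := by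
            refine mul_le_mul_of_nonneg_left ?_ (by positivity)
            refine mul_le_mul (mul_le_mul (mul_le_mul h2A ham ?_ ?_) q4 ?_ ?_) r4 ?_ ?_ <;>
              positivity
        _ = (m : ℝ) ^ (99 / 100 : ℝ) := by
            rw [← Real.rpow_add hM0, ← Real.rpow_add hM0, ← Real.rpow_add hM0,
              ← Real.rpow_add hM0]
            norm_num
        _ ≤ (m : ℝ) ^ (1 : ℝ) := Real.rpow_le_rpow_of_exponent_le hM1 (by norm_num)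
        _ = m := Real.rpow_one _
    · rw [div_le_iff₀ (by positivity)]
      have h1 : 1 ≤ 2 * A * a * p1 * p2 := by
        have g1 : (1 : ℝ) ≤ 2 * A := by linarith
        exact one_le_mul_of_one_le_of_one_le (one_le_mul_of_one_le_of_one_le
          (one_le_mul_of_one_le_of_one_le g1 ha1) o1) o2
      nlinarith
  -- the function
  obtain ⟨f, hf⟩ : ∃ f : ℕ → ℕ → ℕ → ℝ, f = fun (p1 p2 p3 : ℕ) =>
      1 / (p1 : ℝ) * (1 / (p2 : ℝ) * (1 / (p3 : ℝ))) := ⟨_, rfl⟩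
  have hf0 : ∀ x y z, 0 ≤ f x y z := by
    intro x y z
    rw [hf]
    positivity
  have hfv : ∀ x y z, f x y z = 1 / (x : ℝ) * (1 / (y : ℝ) * (1 / (z : ℝ))) := by
    intro x y z
    rw [hf]
  have hsplit := t6_split (P3 m) B (fun p1 p2 => XX3 m A a p1 p2) f hf0
  have hin : ∀ p1 ∈ P3 m, ∀ p2 ∈ P3 m, ∑ p3 ∈ XX3 m A a p1 p2, 1 / (p3 : ℝ) ≤ D / L := by
    intro p1 hp1 p2 hp2
    have h1 := H1 m hm1 _ A (hX p1 hp1 p2 hp2).1 (by linarith)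
    rw [← hD, ← hLL] at h1
    exact h1
  have hDL : 0 < D / L := by positivity
  have hBP : ∀ P : Finset ℕ, ∑ q ∈ P ∩ B, 1 / (q : ℝ) ≤ c / (15000 * D) := fun P =>
    (sum_le_sum_of_subset_of_nonneg inter_subset_right fun _ _ _ => by positivity).trans hBs
  -- all triples
  have hall : (1 / 50) ^ 2 * (c / L) ≤
      ∑ p1 ∈ P3 m, ∑ p2 ∈ P3 m, ∑ p3 ∈ XX3 m A a p1 p2, f p1 p2 p3 := by
    have h1 : ∀ p1 ∈ P3 m, ∀ p2 ∈ P3 m, c / L ≤ ∑ p3 ∈ XX3 m A a p1 p2, 1 / (p3 : ℝ) := by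
      intro p1 hp1 p2 hp2
      have := H2 m hm2 _ (hX p1 hp1 p2 hp2).1 (hX p1 hp1 p2 hp2).2
      rw [← hLL] at this
      exact this
    calc (1 / 50) ^ 2 * (c / L) ≤ S * (S * (c / L)) := by
          have g1 : 0 < c / L := by positivity
          have g2 : (1 / 50 : ℝ) * (1 / 50) ≤ S * S :=
            mul_le_mul hSb.1 hSb.1 (by norm_num) hS0
          have g3 := mul_le_mul_of_nonneg_right g2 g1.le
          calc (1 / 50) ^ 2 * (c / L) = 1 / 50 * (1 / 50) * (c / L) := by ring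
            _ ≤ S * S * (c / L) := g3
            _ = S * (S * (c / L)) := by ring
      _ = ∑ p1 ∈ P3 m, ∑ p2 ∈ P3 m, 1 / (p1 : ℝ) * (1 / (p2 : ℝ) * (c / L)) := by
          simp only [← mul_sum, ← sum_mul, ← hS]
      _ ≤ _ := by
          refine sum_le_sum fun p1 hp1 => sum_le_sum fun p2 hp2 => ?_
          simp only [hfv, ← mul_sum]
          refine mul_le_mul_of_nonneg_left (mul_le_mul_of_nonneg_left (h1 p1 hp1 p2 hp2) ?_) ?_ <;>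
            positivity
  have hT1 : ∑ p1 ∈ P3 m ∩ B, ∑ p2 ∈ P3 m, ∑ p3 ∈ XX3 m A a p1 p2, f p1 p2 p3 ≤
      c / 15000 / L := by
    calc ∑ p1 ∈ P3 m ∩ B, ∑ p2 ∈ P3 m, ∑ p3 ∈ XX3 m A a p1 p2, f p1 p2 p3
        ≤ ∑ p1 ∈ P3 m ∩ B, ∑ p2 ∈ P3 m, 1 / (p1 : ℝ) * (1 / (p2 : ℝ) * (D / L)) := by
          refine sum_le_sum fun p1 hp1 => sum_le_sum fun p2 hp2 => ?_
          simp only [hfv, ← mul_sum]
          refine mul_le_mul_of_nonneg_left (mul_le_mul_of_nonneg_left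
            (hin p1 (mem_inter.mp hp1).1 p2 hp2) ?_) ?_ <;> positivity
      _ = (∑ p1 ∈ P3 m ∩ B, 1 / (p1 : ℝ)) * (S * (D / L)) := by
          simp only [← mul_sum, ← sum_mul, ← hS]
      _ ≤ c / (15000 * D) * (1 * (D / L)) := by
          refine mul_le_mul (hBP _) (mul_le_mul_of_nonneg_right hSb.2 hDL.le) ?_ ?_ <;> positivity
      _ = c / 15000 / L := by
          field_simp
  have hT2 : ∑ p1 ∈ P3 m, ∑ p2 ∈ P3 m ∩ B, ∑ p3 ∈ XX3 m A a p1 p2, f p1 p2 p3 ≤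
      c / 15000 / L := by
    calc ∑ p1 ∈ P3 m, ∑ p2 ∈ P3 m ∩ B, ∑ p3 ∈ XX3 m A a p1 p2, f p1 p2 p3
        ≤ ∑ p1 ∈ P3 m, ∑ p2 ∈ P3 m ∩ B, 1 / (p1 : ℝ) * (1 / (p2 : ℝ) * (D / L)) := by
          refine sum_le_sum fun p1 hp1 => sum_le_sum fun p2 hp2 => ?_
          simp only [hfv, ← mul_sum]
          refine mul_le_mul_of_nonneg_left (mul_le_mul_of_nonneg_left
            (hin p1 hp1 p2 (mem_inter.mp hp2).1) ?_) ?_ <;> positivity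
      _ = S * ((∑ p2 ∈ P3 m ∩ B, 1 / (p2 : ℝ)) * (D / L)) := by
          simp only [← mul_sum, ← sum_mul, ← hS]
      _ ≤ 1 * (c / (15000 * D) * (D / L)) := by
          refine mul_le_mul hSb.2 (mul_le_mul_of_nonneg_right (hBP _) hDL.le) ?_ (by norm_num)
          positivity
      _ = c / 15000 / L := by
          field_simp
  -- the third sum
  have hkey : ∀ p2 ∈ P3 m, ∀ p3 ∈ B,
      ∑ p1 ∈ (P3 m).filter (fun p1 => p3 ∈ XX3 m A a p1 p2), 1 / (p1 : ℝ) ≤ D / L := by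
    intro p2 hp2 p3 hp3
    obtain ⟨r1, r2, r3, r4⟩ := hP3 hp2
    have o2 : (0 : ℝ) < p2 := by exact_mod_cast r1.pos
    have o3 : (0 : ℝ) < p3 := by exact_mod_cast (hB p3 hp3).pos
    rcases ((P3 m).filter (fun p1 => p3 ∈ XX3 m A a p1 p2)).eq_empty_or_nonempty with h0 | ⟨w, hw⟩
    · rw [h0, sum_empty]
      exact hDL.le
    · have hmem : ∀ p1 ∈ (P3 m).filter (fun p1 => p3 ∈ XX3 m A a p1 p2),
          p1 ∈ PI m ((m : ℝ) / (2 * A * a * p2 * p3)) (A * ((m : ℝ) / (2 * A * a * p2 * p3))) := by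
        intro p1 hp1
        rw [mem_filter] at hp1
        obtain ⟨q1, q2, q3, q4⟩ := hP3 hp1.1
        have o1 : (0 : ℝ) < p1 := by exact_mod_cast q1.pos
        have h3 := hp1.2
        unfold XX3 at h3
        rw [mem_PI (by positivity)] at h3
        obtain ⟨s1, s2, s3, s4⟩ := h3
        rw [mem_PI (by positivity)]
        refine ⟨q1, q2, ?_, ?_⟩
        · rw [div_lt_iff₀ (by positivity)] at s3 ⊢
          calc (m : ℝ) < p3 * (2 * A * a * p1 * p2) := s3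
            _ = p1 * (2 * A * a * p2 * p3) := by ring
        · rw [← mul_div_assoc, le_div_iff₀ (by positivity)] at s4 ⊢
          calc (p1 : ℝ) * (2 * A * a * p2 * p3) = p3 * (2 * A * a * p1 * p2) := by ring
            _ ≤ A * m := s4
      have hw' := hmem w hw
      rw [mem_filter] at hw
      rw [mem_PI (by positivity)] at hw'
      obtain ⟨q1, q2, q3, q4⟩ := hP3 hw.1
      have hY : (m : ℝ) ^ (3 / 10 : ℝ) ≤ (m : ℝ) / (2 * A * a * p2 * p3) := by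
        obtain ⟨Y, hYY⟩ : ∃ Y : ℝ, Y = (m : ℝ) / (2 * A * a * p2 * p3) := ⟨_, rfl⟩
        rw [← hYY]
        have g1 : (m : ℝ) ^ (32 / 100 : ℝ) ≤ A * Y := by
          rw [hYY]
          exact q3.le.trans hw'.2.2.2
        have g2 : (m : ℝ) ^ (32 / 100 : ℝ) = (m : ℝ) ^ (3 / 10 : ℝ) * (m : ℝ) ^ (2 / 100 : ℝ) := by
          rw [← Real.rpow_add hM0]
          norm_num
        have g3 : (m : ℝ) ^ (3 / 10 : ℝ) * A ≤ A * Y := by
          refine le_trans ?_ g1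
          rw [g2]
          exact mul_le_mul_of_nonneg_left (by linarith) (by positivity)
        exact le_of_mul_le_mul_left (by linarith) hA0
      have h1 := H1 m hm1 _ A hY (by linarith)
      rw [← hD, ← hLL] at h1
      exact (sum_le_sum_of_subset_of_nonneg hmem fun _ _ _ => by positivity).trans h1
  have hT3 : ∑ p1 ∈ P3 m, ∑ p2 ∈ P3 m, ∑ p3 ∈ XX3 m A a p1 p2 ∩ B, f p1 p2 p3 ≤
      c / 15000 / L := by
    have e1 : ∀ p1 p2, ∑ p3 ∈ XX3 m A a p1 p2 ∩ B, f p1 p2 p3 =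
        ∑ p3 ∈ B, if p3 ∈ XX3 m A a p1 p2 then f p1 p2 p3 else 0 := by
      intro p1 p2
      rw [inter_comm, ← filter_mem_eq_inter, sum_filter]
    calc ∑ p1 ∈ P3 m, ∑ p2 ∈ P3 m, ∑ p3 ∈ XX3 m A a p1 p2 ∩ B, f p1 p2 p3
        = ∑ p2 ∈ P3 m, ∑ p1 ∈ P3 m, ∑ p3 ∈ B,
            if p3 ∈ XX3 m A a p1 p2 then f p1 p2 p3 else 0 := by
          rw [sum_comm]
          exact sum_congr rfl fun p2 _ => sum_congr rfl fun p1 _ => e1 p1 p2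
      _ = ∑ p2 ∈ P3 m, ∑ p3 ∈ B, ∑ p1 ∈ P3 m,
            if p3 ∈ XX3 m A a p1 p2 then f p1 p2 p3 else 0 :=
          sum_congr rfl fun p2 _ => sum_comm
      _ = ∑ p2 ∈ P3 m, ∑ p3 ∈ B, 1 / (p2 : ℝ) * (1 / (p3 : ℝ)) *
            ∑ p1 ∈ (P3 m).filter (fun p1 => p3 ∈ XX3 m A a p1 p2), 1 / (p1 : ℝ) := by
          refine sum_congr rfl fun p2 _ => sum_congr rfl fun p3 _ => ?_
          rw [← sum_filter, mul_sum]
          refine sum_congr rfl fun p1 _ => ?_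
          rw [hfv]
          ring
      _ ≤ ∑ p2 ∈ P3 m, ∑ p3 ∈ B, 1 / (p2 : ℝ) * (1 / (p3 : ℝ)) * (D / L) := by
          refine sum_le_sum fun p2 hp2 => sum_le_sum fun p3 hp3 => ?_
          exact mul_le_mul_of_nonneg_left (hkey p2 hp2 p3 hp3) (by positivity)
      _ = S * ((∑ p3 ∈ B, 1 / (p3 : ℝ)) * (D / L)) := by
          simp only [mul_assoc, ← mul_sum, ← sum_mul, ← hS]
      _ ≤ 1 * (c / (15000 * D) * (D / L)) := by
          refine mul_le_mul hSb.2 (mul_le_mul_of_nonneg_right hBs hDL.le) ?_ (by norm_num)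
          exact mul_nonneg (sum_nonneg fun _ _ => by positivity) hDL.le
      _ = c / 15000 / L := by
          field_simp
  -- the good triples
  obtain ⟨G, hG⟩ : ∃ G : ℝ, G = ∑ p1 ∈ P3 m \ B, ∑ p2 ∈ P3 m \ B,
      ∑ p3 ∈ XX3 m A a p1 p2 \ B, f p1 p2 p3 := ⟨_, rfl⟩
  have hGlow : c / 5000 / L ≤ G := by
    have g1 : G + c / 15000 / L + c / 15000 / L + c / 15000 / L ≥ (1 / 50) ^ 2 * (c / L) := by
      rw [hG]
      linarith
    have g2 : (1 / 50 : ℝ) ^ 2 * (c / L) = c / 5000 / L + 3 * (c / 15000 / L) := by ring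
    linarith
  have hcard : (m : ℝ) / (2 * A * a) * G ≤
      ((∑ p1 ∈ P3 m \ B, ∑ p2 ∈ P3 m \ B, (XX3 m A a p1 p2 \ B).card : ℕ) : ℝ) := by
    rw [hG, mul_sum]
    push_cast
    refine sum_le_sum fun p1 hp1 => ?_
    rw [mul_sum]
    refine sum_le_sum fun p2 hp2 => ?_
    have hcs : ((XX3 m A a p1 p2 \ B).card : ℝ) = ∑ p3 ∈ XX3 m A a p1 p2 \ B, (1 : ℝ) := by
      rw [sum_const, nsmul_eq_mul, mul_one]
    rw [mul_sum, hcs]
    refine sum_le_sum fun p3 hp3 => ?_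
    obtain ⟨q1, q2, q3, q4⟩ := hP3 (mem_sdiff.mp hp1).1
    obtain ⟨r1, r2, r3, r4⟩ := hP3 (mem_sdiff.mp hp2).1
    have o1 : (0 : ℝ) < p1 := by exact_mod_cast q1.pos
    have o2 : (0 : ℝ) < p2 := by exact_mod_cast r1.pos
    have h3 := (mem_sdiff.mp hp3).1
    unfold XX3 at h3
    rw [mem_PI (by positivity)] at h3
    have o3 : (0 : ℝ) < p3 := by exact_mod_cast h3.1.pos
    have h4 := h3.2.2.1
    rw [div_lt_iff₀ (by positivity)] at h4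
    rw [hfv]
    have h5 : (m : ℝ) / (2 * A * a) * (1 / (p1 : ℝ) * (1 / (p2 : ℝ) * (1 / (p3 : ℝ)))) =
        m / (p3 * (2 * A * a * p1 * p2)) := by
      field_simp
    rw [h5, div_le_one (by positivity)]
    exact h4.le
  refine le_trans ?_ hcard
  calc c / (10000 * A) * m / (a * Real.log m) = (m : ℝ) / (2 * A * a) * (c / 5000 / L) := by
        rw [← hLL]
        field_simp
        norm_num
    _ ≤ _ := mul_le_mul_of_nonneg_left hGlow (by positivity)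

end Pool.Agent.H78.PD

end

section

/-!
# PD, T6: the logarithmic sum of `λχ`

`f(n) = λ(n) χ(n)` (`±1` for `n` prime to `m`), `k = cc χ`, `f(p) = 1` for a prime with `χ(p) = -1`.  `B = Bad m χ (3/10) (37/100)`.
* For `a ∈ cop m ⌊m^(1/100)⌋` and a triple of `t6_triples`: `x = a p1 p2 p3 ≤ m/2` (`p3 ≤ A X`), prime to `m`, `f(x) = f(a)`; each `x` comes from at most `27` triples (`p1, p2, p3` are prime factors `> m^(3/10)` of `x ≤ m`, at most `3` of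
  them, and `a` is determined): `∑_a |f(a) - k|² c m/(a L) ≤ 27 ∑_{x ∈ cop m (m/2)} |f(x) - k|²`, `|f(x) - k| = |λ(x) - k χ(x)|`, and `half_phi` with `U = {χ}`: `≤ 27 φ wout {χ} ≤ 27 φ δ0`.
* `S = ∑_{a ∈ cop m x} 1/a ≥ (φ/m) log x` (`x = ⌊m^(1/100)⌋`): `(∑_{a ∈ cop m x} 1/a) ∏_{p ∣ m} (1 - 1/p)⁻¹ ≥ ∑_{n ≤ x} 1/n`; so `S ≥ (φ/m)(log m)/200`.
* `|k|² = 1 - wout {χ} ≥ 1 - δ0`; `|∑ f(a)/a| ≥ |k| S - (∑ |f(a) - k|²/a)^(1/2) S^(1/2) ≥ S/2`.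
-/

set_option autoImplicit false

namespace Pool.Agent.H78.PD

open Finset
open Pool.Agent.H34PG (lam lam_val lam_mul lam_prime)
open Pool.Agent.H11.LQ Pool.Agent.H78.PG

theorem t6 : ∃ δ0 : ℝ, 0 < δ0 ∧ ∃ m0 : ℕ, ∀ (m : ℕ) [NeZero m], m0 ≤ m →
    ∀ η : ℤ, (η = 1 ∨ η = -1) → ∀ χ : DirichletCharacter ℂ m, χ ^ 2 = 1 →
    wout m η {χ} ≤ δ0 → ∑ q ∈ Bad m χ (3 / 10) (37 / 100), 1 / (q : ℝ) ≤ δ0 →
    1 / 400 * (m.totient / m) * Real.log m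
      ≤ ‖∑ a ∈ cop m ⌊(m : ℝ) ^ (1 / 100 : ℝ)⌋₊, vv m χ a / a‖ := by
  obtain ⟨A, δ1, c, hA, hδ1, hc, m1, htr⟩ := t6_triples
  obtain ⟨m2, hg2⟩ := grow (2 * A) 0 (3 / 100) (by norm_num)
  obtain ⟨m3, hg3⟩ := grow 2 0 (1 / 200) (by norm_num)
  refine ⟨min δ1 (min (1 / 4) (c / 86400)), by positivity, m1 + m2 + m3 + 3, ?_⟩
  intro m _ hm η hη χ hχ hw hB
  have hw1 : wout m η {χ} ≤ 1 / 4 := hw.trans ((min_le_right _ _).trans (min_le_left _ _))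
  have hw2 : wout m η {χ} ≤ c / 86400 := hw.trans ((min_le_right _ _).trans (min_le_right _ _))
  have hB1 := hB.trans (min_le_left _ _)
  have g2 := hg2 m (by omega)
  have g3 := hg3 m (by omega)
  rw [pow_zero, mul_one] at g2 g3
  have hm2 : 2 ≤ m := by omega
  have hm1 : (1 : ℝ) < m := by exact_mod_cast hm2
  have hm0 : (0 : ℝ) < m := by linarith
  have hL : 0 < Real.log m := Real.log_pos hm1
  have hφ : (0 : ℝ) < m.totient := by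
    have h2 : 0 < m.totient := Nat.totient_pos.mpr (by omega)
    exact_mod_cast h2
  obtain ⟨k, hk⟩ : ∃ k, k = cc m (FC m η) χ := ⟨_, rfl⟩
  obtain ⟨C, hC⟩ : ∃ C, C = cop m ⌊(m : ℝ) ^ (1 / 100 : ℝ)⌋₊ := ⟨_, rfl⟩
  obtain ⟨S, hS⟩ : ∃ S : ℝ, ∑ a ∈ C, 1 / (a : ℝ) = S := ⟨_, rfl⟩
  -- the size of `k`
  have hk2 : 3 / 4 ≤ ‖k‖ := by
    have h1 := wout_eq m hm2 η hη {χ}
    rw [sum_singleton] at h1
    have h2 : ww m η χ = ‖k‖ ^ 2 := by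
      rw [hk]
      rfl
    rw [h2] at h1
    by_contra hcon
    push Not at hcon
    have h3 : ‖k‖ ^ 2 < (3 / 4) ^ 2 := by
      have := norm_nonneg k
      gcongr
    norm_num at h3
    linarith
  -- the size of `S`
  have hS2 : m.totient / m * (Real.log m / 200) ≤ S := by
    have e0 : (m : ℝ) ^ (1 / 200 : ℝ) ≤ (⌊(m : ℝ) ^ (1 / 100 : ℝ)⌋₊ : ℝ) := by
      have e1 : (m : ℝ) ^ (1 / 100 : ℝ) = (m : ℝ) ^ (1 / 200 : ℝ) * (m : ℝ) ^ (1 / 200 : ℝ) := by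
        rw [← Real.rpow_add hm0]
        congr 1
        norm_num
      have e2 := Nat.lt_floor_add_one ((m : ℝ) ^ (1 / 100 : ℝ))
      have e3 : (m : ℝ) ^ (1 / 200 : ℝ) + 1 ≤ (m : ℝ) ^ (1 / 100 : ℝ) := by
        rw [e1]
        nlinarith
      linarith
    have e4 : 1 ≤ ⌊(m : ℝ) ^ (1 / 100 : ℝ)⌋₊ := by
      have : (1 : ℝ) ≤ (⌊(m : ℝ) ^ (1 / 100 : ℝ)⌋₊ : ℝ) := by linarith
      exact_mod_cast this
    have e5 := cop_harm m ⌊(m : ℝ) ^ (1 / 100 : ℝ)⌋₊ (by omega) e4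
    rw [← hC, hS] at e5
    refine le_trans ?_ e5
    refine mul_le_mul_of_nonneg_left ?_ (by positivity)
    have e6 : Real.log ((m : ℝ) ^ (1 / 200 : ℝ)) ≤ Real.log (⌊(m : ℝ) ^ (1 / 100 : ℝ)⌋₊ : ℝ) :=
      Real.log_le_log (by positivity) e0
    rw [Real.log_rpow hm0] at e6
    linarith
  -- the comparison
  have hcmp := t6_cmp m A hA hm2 χ g2 k
  rw [← hC] at hcmp
  have hR : ∑ x ∈ cop m (m / 2), ‖vv m χ x - k‖ ^ 2 ≤ m.totient * wout m η {χ} := by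
    have h1 := half_phi m hm2 η {χ}
    refine le_trans (le_of_eq ?_) h1
    refine sum_congr rfl fun x hx => ?_
    rw [t6_dist m χ hχ k x (mem_cop.mp hx).2.2]
    unfold GU
    rw [sum_singleton, hk]
  have hlow : c * m / Real.log m * ∑ a ∈ C, ‖vv m χ a - k‖ ^ 2 / a ≤
      ∑ a ∈ C, ((t6T m A (Bad m χ (3 / 10) (37 / 100)) a).card : ℝ) * ‖vv m χ a - k‖ ^ 2 := by
    rw [mul_sum]
    refine sum_le_sum fun a ha => ?_
    rw [hC] at ha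
    obtain ⟨ha1, ha2, _⟩ := mem_cop.mp ha
    have ha0 : (0 : ℝ) < a := by exact_mod_cast ha1
    have h1 := htr m (by omega) (Bad m χ (3 / 10) (37 / 100)) (fun q hq => (mem_Bad.mp hq).1) hB1 a
      ha1 ((Nat.le_floor_iff (by positivity)).mp ha2)
    rw [← t6_card] at h1
    calc c * m / Real.log m * (‖vv m χ a - k‖ ^ 2 / a)
        = c * m / (a * Real.log m) * ‖vv m χ a - k‖ ^ 2 := by
          field_simp
      _ ≤ _ := by gcongr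
  have hD : ∑ a ∈ C, ‖vv m χ a - k‖ ^ 2 / a ≤ 1 / 16 * S := by
    obtain ⟨D, hDd⟩ : ∃ D, D = ∑ a ∈ C, ‖vv m χ a - k‖ ^ 2 / a := ⟨_, rfl⟩
    rw [← hDd] at hlow ⊢
    have h1 : c * m / Real.log m * D ≤ 27 * (m.totient * (c / 86400)) := by
      refine hlow.trans (hcmp.trans ?_)
      have := hR.trans (mul_le_mul_of_nonneg_left hw2 hφ.le)
      linarith
    have h2 : D ≤ 27 * (m.totient * (c / 86400)) * (Real.log m / (c * m)) := by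
      have h3 : D = c * m / Real.log m * D * (Real.log m / (c * m)) := by
        field_simp
      rw [h3]
      gcongr
    refine h2.trans ?_
    have h4 : 27 * (m.totient * (c / 86400)) * (Real.log m / (c * m)) =
        1 / 16 * (m.totient / m * (Real.log m / 200)) := by
      field_simp
      norm_num
    rw [h4]
    gcongr
  have hend := t6_end C (vv m χ) k hk2 S hS hD
  rw [← hC]
  refine le_trans ?_ hend
  have : 1 / 400 * (m.totient / m : ℝ) * Real.log m = 1 / 2 * (m.totient / m * (Real.log m / 200)) := by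
    ring
  rw [this]
  gcongr

/-- the distance of `λχ` to `k` in logarithmic mean -/
theorem t6_D : ∃ δ1 C : ℝ, 0 < δ1 ∧ 0 < C ∧ ∃ m0 : ℕ, ∀ (m : ℕ) [NeZero m], m0 ≤ m →
    ∀ η : ℤ, (η = 1 ∨ η = -1) → ∀ χ : DirichletCharacter ℂ m, χ ^ 2 = 1 →
    ∑ q ∈ Bad m χ (3 / 10) (37 / 100), 1 / (q : ℝ) ≤ δ1 →
    ∑ a ∈ cop m ⌊(m : ℝ) ^ (1 / 100 : ℝ)⌋₊, ‖vv m χ a - cc m (FC m η) χ‖ ^ 2 / a
      ≤ C * wout m η {χ} * (m.totient / m * Real.log m) := by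
  obtain ⟨A, δ1, c, hA, hδ1, hc, m1, htr⟩ := t6_triples
  obtain ⟨m2, hg2⟩ := grow (2 * A) 0 (3 / 100) (by norm_num)
  refine ⟨δ1, 27 / c, hδ1, by positivity, m1 + m2 + 3, ?_⟩
  intro m _ hm η hη χ hχ hB1
  have g2 := hg2 m (by omega)
  rw [pow_zero, mul_one] at g2
  have hm2 : 2 ≤ m := by omega
  have hm1 : (1 : ℝ) < m := by exact_mod_cast hm2
  have hm0 : (0 : ℝ) < m := by linarith
  have hL : 0 < Real.log m := Real.log_pos hm1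
  obtain ⟨k, hk⟩ : ∃ k, k = cc m (FC m η) χ := ⟨_, rfl⟩
  obtain ⟨C, hC⟩ : ∃ C, C = cop m ⌊(m : ℝ) ^ (1 / 100 : ℝ)⌋₊ := ⟨_, rfl⟩
  have hcmp := t6_cmp m A hA hm2 χ g2 k
  rw [← hC] at hcmp
  rw [← hC, ← hk]
  have hR : ∑ x ∈ cop m (m / 2), ‖vv m χ x - k‖ ^ 2 ≤ m.totient * wout m η {χ} := by
    have h1 := half_phi m hm2 η {χ}
    refine le_trans (le_of_eq ?_) h1
    refine sum_congr rfl fun x hx => ?_
    rw [t6_dist m χ hχ k x (mem_cop.mp hx).2.2]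
    unfold GU
    rw [sum_singleton, hk]
  have hlow : c * m / Real.log m * ∑ a ∈ C, ‖vv m χ a - k‖ ^ 2 / a ≤
      ∑ a ∈ C, ((t6T m A (Bad m χ (3 / 10) (37 / 100)) a).card : ℝ) * ‖vv m χ a - k‖ ^ 2 := by
    rw [mul_sum]
    refine sum_le_sum fun a ha => ?_
    rw [hC] at ha
    obtain ⟨ha1, ha2, _⟩ := mem_cop.mp ha
    have ha0 : (0 : ℝ) < a := by exact_mod_cast ha1
    have h1 := htr m (by omega) (Bad m χ (3 / 10) (37 / 100)) (fun q hq => (mem_Bad.mp hq).1) hB1 a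
      ha1 ((Nat.le_floor_iff (by positivity)).mp ha2)
    rw [← t6_card] at h1
    calc c * m / Real.log m * (‖vv m χ a - k‖ ^ 2 / a)
        = c * m / (a * Real.log m) * ‖vv m χ a - k‖ ^ 2 := by
          field_simp
      _ ≤ _ := by gcongr
  obtain ⟨D, hDd⟩ : ∃ D, D = ∑ a ∈ C, ‖vv m χ a - k‖ ^ 2 / a := ⟨_, rfl⟩
  rw [← hDd] at hlow ⊢
  have h1 : c * m / Real.log m * D ≤ 27 * (m.totient * wout m η {χ}) := by
    refine hlow.trans (hcmp.trans ?_)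
    linarith
  have h3 : D = c * m / Real.log m * D * (Real.log m / (c * m)) := by
    field_simp
  rw [h3]
  calc c * m / Real.log m * D * (Real.log m / (c * m))
      ≤ 27 * (m.totient * wout m η {χ}) * (Real.log m / (c * m)) := by gcongr
    _ = 27 / c * wout m η {χ} * (m.totient / m * Real.log m) := by
      field_simp

end Pool.Agent.H78.PD

end
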