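import Pool.Agent.H94.PG.M02
import Pool.Agent.H94.PG.M04
import Pool.Agent.H94.PG.M10

/-! The parts of this file: H11.LQ.Even, H11.LQ.Scale, H11.LQ.Round, H78.PG.TDec. -/

section

/-!
# LQ module Even: moduli divisible by a large power of two

`halve`.  `m = 2 n`.  If `x` and `x + n` are not in `Ex 2` then `F m x = - F m (2 x) = F m (x + n)`
(mod `m`).  Compare `F m x` with `F n x`: for `0 ≤ x ≤ m/4` and for `3m/4 < x < m` they are equal by
definition, for `m/4 < x < m/2` one uses `F m x = F m (x + n)`, for `m/2 < x ≤ 3m/4` one uses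
`F m x = F m (x - n)`; `x = n` is an exception.  So at most `2 e_2 + 1` exceptions.
If `x < n` is in `Ex n 2` then `x` is one of these exceptions, or `2 x < m` is one, or `x ∈ Ex m 2`:
`e_2(n) ≤ 5 e_2 + 2`.

`halves`: induction; `e_2(m / 2 ^ i) + 1 ≤ 5 ^ i (e_2(m) + 1)`, and the exceptions at step `i` are at
most `2 ^ i (2 e_2(m / 2 ^ i) + 1) ≤ 2 * 10 ^ i (e_2(m) + 1)` residues mod `m` (periodicity).

`even_case`: choose `j` with `m ^ (ε/16) / 2 < 2 ^ j ≤ m ^ (ε/16)`; `2 ^ j ∣ m`, `m' = m / 2 ^ j`.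
For a prime `q` with `2 q ≤ 2 ^ j` and `x ∈ Ex m' q`: `x < m'`, so `2 q x < m` and
`F m (q x) = lam q * F m x` (`not_mem_Ex_of_near`), hence `F m x ≠ F m' x` or
`F m (q x) ≠ F m' (q x)` (`q x < m`, `x ↦ q x` injective).  So
`card (Ex m' q) ≤ 2 * 10 ^ j (e_2 + 1) ≤ 2 m ^ (ε/4) (m ^ (1 - ε) + 1) ≤ m' ^ (1 - δ)`.
(Use `10 ^ j ≤ 16 ^ j = (2 ^ j) ^ 4`.)
-/

set_option autoImplicit false

namespace Pool.Agent.H11.LQ

open Finset
open Pool.Agent.H34PG (lam lam_val lam_mul lam_prime)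

variable {m : ℕ} {η : ℤ}

/-- the residues mod `m` where the functions for `m` and `n` differ -/
private def df (m n : ℕ) (η : ℤ) : Finset ℕ := (range m).filter fun x => F m η x ≠ F n η x

private theorem mem_df {m n : ℕ} {η : ℤ} {x : ℕ} :
    x ∈ df m n η ↔ x < m ∧ F m η x ≠ F n η x := by
  unfold df
  rw [mem_filter, mem_range]

private theorem even_ex2 {m : ℕ} {η : ℤ} {x : ℕ} (hx : x < m) (h : x ∉ Ex m η 2) :
    F m η (2 * x) = - F m η x := by
  rw [mem_Ex, not_and, not_not] at h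
  rw [h hx, lam_prime Nat.prime_two]
  ring

private theorem even_key {n : ℕ} (hn : 0 < n) {x : ℕ} (hx : x ∈ df (2 * n) n η) :
    x ∈ Ex (2 * n) η 2 ∨ (x + n) % (2 * n) ∈ Ex (2 * n) η 2 ∨ x = n := by
  rw [mem_df] at hx
  obtain ⟨h1, h2⟩ := hx
  by_contra hcon
  rw [not_or, not_or] at hcon
  obtain ⟨c1, c2, c3⟩ := hcon
  have hm : 0 < 2 * n := by omega
  have d1 := even_ex2 h1 c1
  have d2 := even_ex2 (Nat.mod_lt _ hm) c2
  rw [F_mod_mul, F_mod] at d2
  have e1 : F (2 * n) η (2 * (x + n)) = F (2 * n) η (2 * x) := by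
    refine F_congr ?_
    rw [show 2 * (x + n) = 2 * x + 2 * n by ring, Nat.add_mod_right]
  have e2 : F (2 * n) η x = F (2 * n) η (x + n) := by
    rw [e1, d1] at d2
    linarith only [d2]
  apply h2
  rcases Nat.eq_zero_or_pos x with h0 | h0
  · subst h0
    rw [F_zero, F_zero]
  rcases Nat.lt_or_ge x n with h3 | h3
  · rcases Nat.lt_or_ge n (2 * x) with h4 | h4
    · rw [e2, F_big (by omega) (by omega), F_big h4 h3]
      congr 2
      omega
    · rw [F_small h0 (by omega), F_small h0 h4]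
  · have h5 : n < x := by omega
    have e3 : F n η x = F n η (x - n) := by
      refine F_congr ?_
      rw [Nat.mod_eq_sub_mod h3]
    rw [e3]
    rcases Nat.lt_or_ge n (2 * (x - n)) with h4 | h4
    · rw [F_big (m := n) h4 (by omega), F_big (by omega) h1]
      congr 2
      omega
    · rw [F_small (m := n) (by omega) h4, e2]
      have e4 : F (2 * n) η (x + n) = F (2 * n) η (x - n) := by
        refine F_congr ?_
        rw [show x + n = (x - n) + 2 * n by omega, Nat.add_mod_right]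
      rw [e4, F_small (by omega) (by omega)]

private theorem even_df_card {n : ℕ} (hn : 0 < n) :
    (df (2 * n) n η).card ≤ 2 * (Ex (2 * n) η 2).card + 1 := by
  classical
  have h1 : df (2 * n) n η ⊆ Ex (2 * n) η 2 ∪
      (((range (2 * n)).filter fun x => (x + n) % (2 * n) ∈ Ex (2 * n) η 2) ∪ {n}) := by
    intro x hx
    rw [mem_union, mem_union, mem_singleton, mem_filter, mem_range]
    rcases even_key hn hx with h | h | h
    · exact Or.inl h
    · exact Or.inr (Or.inl ⟨(mem_df.mp hx).1, h⟩)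
    · exact Or.inr (Or.inr h)
  have h2 : ((range (2 * n)).filter fun x => (x + n) % (2 * n) ∈ Ex (2 * n) η 2).card ≤
      (Ex (2 * n) η 2).card := by
    refine Finset.card_le_card_of_injOn (fun x => (x + n) % (2 * n)) ?_ ?_
    · intro x hx
      exact (mem_filter.mp hx).2
    · intro x hx y hy hxy
      have hx1 := mem_range.mp (mem_filter.mp hx).1
      have hy1 := mem_range.mp (mem_filter.mp hy).1
      have h3 : (x + n) ≡ (y + n) [MOD 2 * n] := hxy
      have h4 : x ≡ y [MOD 2 * n] := Nat.ModEq.add_right_cancel' n h3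
      have h5 : x % (2 * n) = y % (2 * n) := h4
      rwa [Nat.mod_eq_of_lt hx1, Nat.mod_eq_of_lt hy1] at h5
  have h3 := Finset.card_le_card h1
  have h4 := Finset.card_union_le (Ex (2 * n) η 2)
    (((range (2 * n)).filter fun x => (x + n) % (2 * n) ∈ Ex (2 * n) η 2) ∪ {n})
  have h5 := Finset.card_union_le
    ((range (2 * n)).filter fun x => (x + n) % (2 * n) ∈ Ex (2 * n) η 2) {n}
  rw [card_singleton] at h5
  omega

/-- multiples of elements -/
private theorem even_scale {m' m q : ℕ} (hq : 0 < q) (X S : Finset ℕ)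
    (h : ∀ x ∈ S, q * x ∈ X) : S.card ≤ X.card := by
  refine Finset.card_le_card_of_injOn (fun x => q * x) (fun x hx => h x hx) ?_
  intro x _ y _ hxy
  exact Nat.eq_of_mul_eq_mul_left hq hxy

private theorem even_halve_aux {n : ℕ} (hn : 0 < n) :
    (df (2 * n) n η).card ≤ 2 * (Ex (2 * n) η 2).card + 1 ∧
    (Ex n η 2).card ≤ 5 * (Ex (2 * n) η 2).card + 4 := by
  classical
  have h0 := even_df_card (η := η) hn
  refine ⟨h0, ?_⟩
  have h1 : Ex n η 2 ⊆ (df (2 * n) n η ∪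
      ((range n).filter fun x => 2 * x ∈ df (2 * n) n η)) ∪ Ex (2 * n) η 2 := by
    intro x hx
    by_contra hcon
    rw [mem_union, mem_union, not_or, not_or, mem_filter, mem_range] at hcon
    obtain ⟨⟨c1, c2⟩, c3⟩ := hcon
    rw [mem_Ex] at hx
    obtain ⟨h2, h3⟩ := hx
    have c2' : 2 * x ∉ df (2 * n) n η := fun h => c2 ⟨h2, h⟩
    rw [mem_df, not_and, not_not] at c1 c2'
    have d1 := c1 (by omega)
    have d2 := c2' (by omega)
    have d3 := even_ex2 (by omega) c3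
    apply h3
    rw [← d1, ← d2, d3, lam_prime Nat.prime_two]
    ring
  have h2 : ((range n).filter fun x => 2 * x ∈ df (2 * n) n η).card ≤ (df (2 * n) n η).card :=
    even_scale (m' := n) (m := n) two_pos _ _ fun x hx => (mem_filter.mp hx).2
  have h3 := Finset.card_le_card h1
  have h4 := Finset.card_union_le (df (2 * n) n η ∪
      ((range n).filter fun x => 2 * x ∈ df (2 * n) n η)) (Ex (2 * n) η 2)
  have h5 := Finset.card_union_le (df (2 * n) n η)
      ((range n).filter fun x => 2 * x ∈ df (2 * n) n η)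
  omega

private theorem even_periodic {a b : ℕ} (ha : 0 < a) (p : ℕ → Prop) [DecidablePred p]
    (hp : ∀ x, p x ↔ p (x % a)) :
    ((range (b * a)).filter p).card ≤ b * ((range a).filter p).card := by
  have h : ((range (b * a)).filter p).card ≤ ((range b) ×ˢ ((range a).filter p)).card := by
    refine Finset.card_le_card_of_injOn (fun x => (x / a, x % a)) ?_ ?_
    · intro x hx
      have hx' := mem_filter.mp hx
      rw [Finset.coe_product]
      refine ⟨?_, ?_⟩
      · exact mem_coe.mpr (mem_range.mpr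
          ((Nat.div_lt_iff_lt_mul ha).mpr (mem_range.mp hx'.1)))
      · exact mem_coe.mpr (mem_filter.mpr
          ⟨mem_range.mpr (Nat.mod_lt _ ha), (hp x).mp hx'.2⟩)
    · intro x _ y _ hxy
      have h1 : x / a = y / a := congrArg Prod.fst hxy
      have h2 : x % a = y % a := congrArg Prod.snd hxy
      rw [← Nat.div_add_mod x a, ← Nat.div_add_mod y a, h1, h2]
  rwa [Finset.card_product, Finset.card_range] at h

private theorem even_iter (hm : 0 < m) (j : ℕ) : 2 ^ j ∣ m →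
    (Ex (m / 2 ^ j) η 2).card + 1 ≤ 5 ^ j * ((Ex m η 2).card + 1) ∧
    (df m (m / 2 ^ j) η).card ≤ 10 ^ j * ((Ex m η 2).card + 1) := by
  classical
  induction j with
  | zero =>
    intro _
    rw [pow_zero, Nat.div_one, pow_zero, one_mul, pow_zero, one_mul]
    refine ⟨le_refl _, ?_⟩
    have : df m m η = ∅ := by
      unfold df
      simp
    rw [this, card_empty]
    omega
  | succ j ih =>
    intro hd
    have hd' : 2 ^ j ∣ m := (pow_dvd_pow 2 (Nat.le_succ j)).trans hd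
    obtain ⟨h1, h2⟩ := ih hd'
    obtain ⟨n, hn⟩ := hd
    have hn0 : 0 < n := by
      rcases Nat.eq_zero_or_pos n with h | h
      · rw [h, mul_zero] at hn
        omega
      · exact h
    have hmj : m = 2 ^ j * (2 * n) := by rw [hn, pow_succ]; ring
    have e1 : m / 2 ^ j = 2 * n := by
      rw [hmj, Nat.mul_div_cancel_left _ (by positivity)]
    have e2 : m / 2 ^ (j + 1) = n := by
      rw [hn, Nat.mul_div_cancel_left _ (by positivity)]
    rw [e1] at h1 h2
    rw [e2]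
    obtain ⟨h3, h4⟩ := even_halve_aux (η := η) hn0
    refine ⟨?_, ?_⟩
    · calc (Ex n η 2).card + 1 ≤ 5 * ((Ex (2 * n) η 2).card + 1) := by omega
        _ ≤ 5 * (5 ^ j * ((Ex m η 2).card + 1)) := Nat.mul_le_mul_left _ h1
        _ = 5 ^ (j + 1) * ((Ex m η 2).card + 1) := by ring
    · have h5 : df m n η ⊆ df m (2 * n) η ∪
          ((range (2 ^ j * (2 * n))).filter fun x => F (2 * n) η x ≠ F n η x) := by
        intro x hx
        rw [mem_df] at hx
        rw [mem_union, mem_df, mem_filter, mem_range, ← hmj]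
        by_cases h : F m η x = F (2 * n) η x
        · right
          exact ⟨hx.1, by rw [← h]; exact hx.2⟩
        · left
          exact ⟨hx.1, h⟩
      have h6 : ((range (2 ^ j * (2 * n))).filter fun x => F (2 * n) η x ≠ F n η x).card ≤
          2 ^ j * (df (2 * n) n η).card := by
        refine even_periodic (by omega) (fun x => F (2 * n) η x ≠ F n η x) fun x => ?_
        have e3 : F (2 * n) η (x % (2 * n)) = F (2 * n) η x := F_mod _ _ _
        have e4 : F n η (x % (2 * n)) = F n η x := by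
          refine F_congr ?_
          exact Nat.mod_mod_of_dvd x (Dvd.intro_left 2 rfl)
        rw [e3, e4]
      have h7 := (Finset.card_le_card h5).trans (Finset.card_union_le _ _)
      have h8 : 2 ^ j * (df (2 * n) n η).card ≤ 2 * (10 ^ j * ((Ex m η 2).card + 1)) := by
        calc 2 ^ j * (df (2 * n) n η).card ≤ 2 ^ j * (2 * (5 ^ j * ((Ex m η 2).card + 1))) :=
              Nat.mul_le_mul_left _ (by omega)
          _ = 2 * (10 ^ j * ((Ex m η 2).card + 1)) := by
              rw [show (10 : ℕ) = 2 * 5 by norm_num, mul_pow]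
              ring
      have h9 : 10 ^ (j + 1) * ((Ex m η 2).card + 1) =
          10 * (10 ^ j * ((Ex m η 2).card + 1)) := by ring
      rw [h9]
      omega

theorem even_q (hη : η = 1 ∨ η = -1) (hm : 0 < m) {j q : ℕ} (h2 : 2 ^ j ∣ m)
    (hq : 0 < q) (hqj : 2 * q ≤ 2 ^ j) :
    (Ex (m / 2 ^ j) η q).card ≤ 2 * (10 ^ j * ((Ex m η 2).card + 1)) := by
  classical
  obtain ⟨n, hn⟩ := h2
  have e1 : m / 2 ^ j = n := by
    rw [hn, Nat.mul_div_cancel_left _ (by positivity)]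
  have hX := (even_iter (η := η) hm j ⟨n, hn⟩).2
  rw [e1] at hX ⊢
  have h1 : Ex n η q ⊆ df m n η ∪ ((range n).filter fun x => q * x ∈ df m n η) := by
    intro x hx
    by_contra hcon
    rw [mem_union, not_or, mem_filter, mem_range] at hcon
    obtain ⟨c1, c2⟩ := hcon
    rw [mem_Ex] at hx
    obtain ⟨h2, h3⟩ := hx
    have c2' : q * x ∉ df m n η := fun h => c2 ⟨h2, h⟩
    rw [mem_df, not_and, not_not] at c1 c2'
    have h5 : 2 * q * x < m := by
      calc 2 * q * x ≤ 2 ^ j * x := Nat.mul_le_mul_right _ hqj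
        _ < 2 ^ j * n := Nat.mul_lt_mul_of_pos_left h2 (by positivity)
        _ = m := hn.symm
    have h6 : x ≤ q * x := Nat.le_mul_of_pos_left x hq
    have h7 : 2 * (q * x) < m := by rw [← mul_assoc]; exact h5
    have h4 : x ∉ Ex m η q := not_mem_Ex_of_near hη hq (Or.inl h5)
    rw [mem_Ex, not_and, not_not] at h4
    have d1 := c1 (by omega)
    have d2 := c2' (by omega)
    have d3 := h4 (by omega)
    apply h3
    rw [← d1, ← d2, d3]
  have h2 : ((range n).filter fun x => q * x ∈ df m n η).card ≤ (df m n η).card :=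
    even_scale (m' := n) (m := n) hq _ _ fun x hx => (mem_filter.mp hx).2
  have h3 := (Finset.card_le_card h1).trans (Finset.card_union_le _ _)
  omega

theorem even_case (ε : ℝ) (hε : 0 < ε) (hε1 : ε ≤ 1) : ∃ δ : ℝ, 0 < δ ∧ δ ≤ 1 ∧ ∃ m0 : ℕ,
    ∀ m ≥ m0, ∀ η : ℤ, (η = 1 ∨ η = -1) →
    (∃ i, (m : ℝ) ^ (ε / 2) < ((Nat.gcd (2 ^ i) m : ℕ) : ℝ)) →
    ((Ex m η 2).card : ℝ) ≤ (m : ℝ) ^ (1 - ε) →
    ∃ m' : ℕ, (m : ℝ) ^ (1 / 2 : ℝ) ≤ m' ∧ ∀ q : ℕ, q.Prime → (q : ℝ) ≤ (m' : ℝ) ^ δ →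
      ((Ex m' η q).card : ℝ) ≤ (m' : ℝ) ^ (1 - δ) := by
  obtain ⟨K, hK⟩ := exists_nat_gt ((4 : ℝ) ^ (80 / ε))
  refine ⟨ε / 20, by positivity, by linarith only [hε1], K + 1, ?_⟩
  rintro m hm η hη ⟨i, hi⟩ he
  have hm1 : 1 ≤ m := by omega
  have hm0 : 0 < m := by omega
  have hmr : (1 : ℝ) ≤ m := by exact_mod_cast hm1
  have hmp : (0 : ℝ) < m := by linarith only [hmr]
  have h4 : (4 : ℝ) ≤ (m : ℝ) ^ (ε / 80) := by
    have h6 : ((4 : ℝ) ^ (80 / ε)) ^ (ε / 80) = 4 := by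
      rw [← Real.rpow_mul (by norm_num), div_mul_div_comm, mul_comm 80 ε, div_self (by positivity),
        Real.rpow_one]
    rw [← h6]
    refine Real.rpow_le_rpow (by positivity) ?_ (by positivity)
    have : (K : ℝ) ≤ m := by exact_mod_cast (by omega : K ≤ m)
    linarith only [hK, this]
  have hfl : ⌊(m : ℝ) ^ (ε / 16)⌋₊ ≠ 0 := by
    have : 1 ≤ ⌊(m : ℝ) ^ (ε / 16)⌋₊ := by
      refine Nat.le_floor ?_
      rw [Nat.cast_one]
      exact Real.one_le_rpow hmr (by positivity)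
    omega
  set j := Nat.log 2 ⌊(m : ℝ) ^ (ε / 16)⌋₊ with hj
  have hj1 : ((2 : ℝ)) ^ j ≤ (m : ℝ) ^ (ε / 16) := by
    have h1 : 2 ^ j ≤ ⌊(m : ℝ) ^ (ε / 16)⌋₊ := Nat.pow_log_le_self 2 hfl
    calc ((2 : ℝ)) ^ j ≤ (⌊(m : ℝ) ^ (ε / 16)⌋₊ : ℝ) := by exact_mod_cast h1
      _ ≤ (m : ℝ) ^ (ε / 16) := Nat.floor_le (by positivity)
  have hj2 : (m : ℝ) ^ (ε / 16) < 2 * (2 : ℝ) ^ j := by
    have h1 : ⌊(m : ℝ) ^ (ε / 16)⌋₊ < 2 ^ (j + 1) := Nat.lt_pow_succ_log_self (by norm_num) _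
    have h2 : (m : ℝ) ^ (ε / 16) < ((2 ^ (j + 1) : ℕ) : ℝ) := (Nat.floor_lt' (by positivity)).mp h1
    push_cast at h2
    rw [pow_succ] at h2
    linarith only [h2]
  -- `2 ^ j ∣ m`
  have hdvd : 2 ^ j ∣ m := by
    obtain ⟨a, ha, hga⟩ := (Nat.dvd_prime_pow Nat.prime_two).mp (Nat.gcd_dvd_left (2 ^ i) m)
    rw [hga] at hi
    have h1 : ((2 : ℝ)) ^ j < (2 : ℝ) ^ a := by
      calc ((2 : ℝ)) ^ j ≤ (m : ℝ) ^ (ε / 16) := hj1
        _ ≤ (m : ℝ) ^ (ε / 2) := Real.rpow_le_rpow_of_exponent_le hmr (by linarith only [hε])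
        _ < (2 : ℝ) ^ a := by exact_mod_cast hi
    have h2 : j < a := (pow_lt_pow_iff_right₀ (by norm_num : (1 : ℝ) < 2)).mp h1
    have h3 : 2 ^ a ∣ m := by rw [← hga]; exact Nat.gcd_dvd_right _ _
    exact (pow_dvd_pow 2 h2.le).trans h3
  have hm' : ((m / 2 ^ j : ℕ) : ℝ) = (m : ℝ) / 2 ^ j := by
    rw [Nat.cast_div hdvd (by positivity)]
    push_cast
    rfl
  have hlow : (m : ℝ) ^ (1 - ε / 16) ≤ ((m / 2 ^ j : ℕ) : ℝ) := by
    rw [hm', le_div_iff₀ (by positivity), Real.rpow_sub hmp, Real.rpow_one, div_mul_eq_mul_div,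
      div_le_iff₀ (by positivity)]
    exact mul_le_mul_of_nonneg_left hj1 hmp.le
  have hup : ((m / 2 ^ j : ℕ) : ℝ) ≤ m := by
    exact_mod_cast Nat.div_le_self m (2 ^ j)
  refine ⟨m / 2 ^ j, ?_, fun q hq hqm => ?_⟩
  · exact (Real.rpow_le_rpow_of_exponent_le hmr (by linarith only [hε1])).trans hlow
  · have hq2 : 2 * q ≤ 2 ^ j := by
      have h1 : (q : ℝ) ≤ (m : ℝ) ^ (ε / 20) :=
        hqm.trans (Real.rpow_le_rpow (by positivity) hup (by positivity))
      have h2 : (m : ℝ) ^ (ε / 16) = (m : ℝ) ^ (ε / 80) * (m : ℝ) ^ (ε / 20) := by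
        rw [← Real.rpow_add hmp]
        congr 1
        ring
      have h3 : 4 * (m : ℝ) ^ (ε / 20) ≤ (m : ℝ) ^ (ε / 16) := by
        rw [h2]
        exact mul_le_mul_of_nonneg_right h4 (by positivity)
      have h5 : (2 : ℝ) * q ≤ (2 : ℝ) ^ j := by linarith only [hj2, h1, h3]
      exact_mod_cast h5
    have h1 := even_q hη hm0 hdvd hq.pos hq2
    have h2 : ((Ex (m / 2 ^ j) η q).card : ℝ) ≤ 2 * ((10 : ℝ) ^ j * ((Ex m η 2).card + 1)) := by
      exact_mod_cast h1
    have h3 : (10 : ℝ) ^ j ≤ (m : ℝ) ^ (ε / 4) := by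
      calc (10 : ℝ) ^ j ≤ (16 : ℝ) ^ j := pow_le_pow_left₀ (by norm_num) (by norm_num) j
        _ = ((2 : ℝ) ^ j) ^ 4 := by
            rw [← pow_mul, mul_comm, pow_mul]
            norm_num
        _ ≤ ((m : ℝ) ^ (ε / 16)) ^ 4 := pow_le_pow_left₀ (by positivity) hj1 4
        _ = (m : ℝ) ^ (ε / 4) := by
            rw [← Real.rpow_natCast, ← Real.rpow_mul hmp.le]
            congr 1
            push_cast
            ring
    have h5 : ((Ex m η 2).card : ℝ) + 1 ≤ 2 * (m : ℝ) ^ (1 - ε) := by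
      have : (1 : ℝ) ≤ (m : ℝ) ^ (1 - ε) := Real.one_le_rpow hmr (by linarith only [hε1])
      linarith only [he, this]
    have h6 : ((Ex (m / 2 ^ j) η q).card : ℝ) ≤ 4 * (m : ℝ) ^ (1 - 3 * ε / 4) := by
      have h7 : (m : ℝ) ^ (1 - 3 * ε / 4) = (m : ℝ) ^ (ε / 4) * (m : ℝ) ^ (1 - ε) := by
        rw [← Real.rpow_add hmp]
        congr 1
        ring
      rw [h7]
      refine h2.trans ?_
      have h8 : (10 : ℝ) ^ j * (((Ex m η 2).card : ℝ) + 1) ≤
          (m : ℝ) ^ (ε / 4) * (2 * (m : ℝ) ^ (1 - ε)) :=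
        mul_le_mul h3 h5 (by positivity) (by positivity)
      linarith only [h8]
    refine h6.trans ?_
    have h9 : ((m : ℝ) ^ (1 - ε / 16)) ^ (1 - ε / 20) ≤ ((m / 2 ^ j : ℕ) : ℝ) ^ (1 - ε / 20) :=
      Real.rpow_le_rpow (by positivity) hlow (by linarith only [hε1])
    refine le_trans ?_ h9
    rw [← Real.rpow_mul hmp.le]
    have h10 : (m : ℝ) ^ (1 - 3 * ε / 4 + ε / 80) ≤ (m : ℝ) ^ ((1 - ε / 16) * (1 - ε / 20)) := by
      refine Real.rpow_le_rpow_of_exponent_le hmr ?_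
      nlinarith only [hε, mul_pos hε hε]
    refine le_trans ?_ h10
    rw [Real.rpow_add hmp, mul_comm]
    exact mul_le_mul_of_nonneg_left h4 (by positivity)

end Pool.Agent.H11.LQ

end

section

/-!
# LQ module Scale: exceptional sets of products

* `scale_card`: the fibres of `x ↦ a x` on `Z/m` have at most `gcd a m` elements.
* `Ex_mul_card`: if `x ∉ Ex l` and `l x ∉ Ex k` then `F (k l x) = lam k F (l x) = lam k lam l F x`.
* `Ex_pow_two`: induction on `i`, `2 ^ (i + 1) = 2 * 2 ^ i` (and `Ex 1 = ∅`).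
* `Ex_four`: `Ex_mul_card` with `k = 2 ^ i`, `l = p q r`, then with `k = p q`, `l = r`, then `k = p`,
  `l = q`; `gcd l m ≤ l`.
-/

set_option autoImplicit false

namespace Pool.Agent.H11.LQ

open Finset
open Pool.Agent.H34PG (lam lam_val lam_mul lam_prime)

variable {m : ℕ} {η : ℤ}

theorem scale_card {a : ℕ} (hm : 0 < m) (S : Finset ℕ) :
    ((range m).filter fun x => (a * x) % m ∈ S).card ≤ Nat.gcd a m * S.card := by
  classical
  set g := Nat.gcd a m with hg
  have hg0 : 0 < g := Nat.gcd_pos_of_pos_right a hm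
  obtain ⟨m', hm'⟩ : g ∣ m := Nat.gcd_dvd_right a m
  have hm'0 : 0 < m' := by
    rcases Nat.eq_zero_or_pos m' with h | h
    · rw [h, mul_zero] at hm'
      omega
    · exact h
  have hfib : ∀ s : ℕ, ((range m).filter fun x => (a * x) % m = s).card ≤ g := by
    intro s
    have h1 : ((range m).filter fun x => (a * x) % m = s).card ≤ (range g).card := by
      apply Finset.card_le_card_of_injOn (fun x => x / m')
      · intro x hx
        have hx' := (mem_filter.mp (mem_coe.mp hx)).1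
        rw [mem_range] at hx'
        rw [mem_coe, mem_range]
        exact Nat.div_lt_of_lt_mul (by rw [mul_comm, ← hm']; exact hx')
      · intro x hx y hy hxy
        have hx1 := (mem_filter.mp (mem_coe.mp hx)).2
        have hy1 := (mem_filter.mp (mem_coe.mp hy)).2
        have h2 : a * x ≡ a * y [MOD m] := by
          unfold Nat.ModEq
          rw [hx1, hy1]
        have h3 : x ≡ y [MOD m / Nat.gcd m a] := Nat.ModEq.cancel_left_div_gcd hm h2
        have h4 : m / Nat.gcd m a = m' := by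
          rw [Nat.gcd_comm, ← hg]
          exact Nat.div_eq_of_eq_mul_right hg0 hm'
        rw [h4] at h3
        have h5 : x / m' = y / m' := hxy
        have h6 : x % m' = y % m' := h3
        rw [← Nat.div_add_mod x m', ← Nat.div_add_mod y m', h5, h6]
    rwa [card_range] at h1
  have hsub : ((range m).filter fun x => (a * x) % m ∈ S)
      ⊆ S.biUnion fun s => (range m).filter fun x => (a * x) % m = s := by
    intro x hx
    rw [mem_filter] at hx
    rw [mem_biUnion]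
    exact ⟨(a * x) % m, hx.2, mem_filter.mpr ⟨hx.1, rfl⟩⟩
  calc ((range m).filter fun x => (a * x) % m ∈ S).card
      ≤ (S.biUnion fun s => (range m).filter fun x => (a * x) % m = s).card := card_le_card hsub
    _ ≤ ∑ s ∈ S, ((range m).filter fun x => (a * x) % m = s).card := card_biUnion_le
    _ ≤ ∑ _s ∈ S, g := sum_le_sum fun s _ => hfib s
    _ = g * S.card := by rw [sum_const, smul_eq_mul, mul_comm]

theorem Ex_mul_card {k l : ℕ} (hm : 0 < m) (hk : 0 < k) (hl : 0 < l) :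
    (Ex m η (k * l)).card ≤ (Ex m η l).card + Nat.gcd l m * (Ex m η k).card := by
  have hsub : Ex m η (k * l) ⊆ Ex m η l ∪ (range m).filter fun x => (l * x) % m ∈ Ex m η k := by
    intro x hx
    rw [mem_union, mem_filter, mem_range]
    by_contra hcon
    rw [not_or, not_and] at hcon
    obtain ⟨c1, c2⟩ := hcon
    rw [mem_Ex] at hx
    have c3 := c2 hx.1
    rw [mem_Ex, not_and, not_not] at c1 c3
    have d1 := c1 hx.1
    have d2 := c3 (Nat.mod_lt _ hm)
    rw [F_mod_mul, F_mod, d1] at d2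
    apply hx.2
    rw [mul_assoc, d2, lam_mul k l hk hl]
    ring
  calc (Ex m η (k * l)).card
      ≤ (Ex m η l ∪ (range m).filter fun x => (l * x) % m ∈ Ex m η k).card := card_le_card hsub
    _ ≤ (Ex m η l).card + ((range m).filter fun x => (l * x) % m ∈ Ex m η k).card :=
        card_union_le _ _
    _ ≤ (Ex m η l).card + Nat.gcd l m * (Ex m η k).card :=
        Nat.add_le_add_left (scale_card hm _) _

theorem Ex_pow_two {v : ℕ} (hm : 0 < m) (hv : ∀ i, Nat.gcd (2 ^ i) m ≤ v) (i : ℕ) :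
    (Ex m η (2 ^ i)).card ≤ i * (v * (Ex m η 2).card) := by
  induction i with
  | zero =>
    have h1 : Ex m η (2 ^ 0) = ∅ := by
      rw [eq_empty_iff_forall_notMem]
      intro x hx
      rw [mem_Ex] at hx
      apply hx.2
      rw [pow_zero, one_mul, Pool.Agent.H34PG.lam_one, one_mul]
    rw [h1, card_empty]
    exact Nat.zero_le _
  | succ i ih =>
    have h1 : 2 ^ (i + 1) = 2 * 2 ^ i := by ring
    rw [h1]
    have h2 := Ex_mul_card (η := η) (k := 2) (l := 2 ^ i) hm (by norm_num) (by positivity)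
    have h3 : Nat.gcd (2 ^ i) m * (Ex m η 2).card ≤ v * (Ex m η 2).card :=
      Nat.mul_le_mul_right _ (hv i)
    have h4 : (i + 1) * (v * (Ex m η 2).card)
        = i * (v * (Ex m η 2).card) + v * (Ex m η 2).card := by ring
    omega

theorem Ex_four {v e K i p q r : ℕ} (hm : 0 < m) (hv : ∀ i, Nat.gcd (2 ^ i) m ≤ v)
    (h2 : v * (Ex m η 2).card ≤ e) (hK : 1 ≤ K) (hp : 0 < p) (hq : 0 < q) (hr : 0 < r)
    (hpK : p ≤ K) (hqK : q ≤ K) (hrK : r ≤ K) (ep : (Ex m η p).card ≤ e)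
    (eq : (Ex m η q).card ≤ e) (er : (Ex m η r).card ≤ e) :
    (Ex m η (2 ^ i * (p * q * r))).card ≤ (3 * K ^ 2 + K ^ 3 * i) * e := by
  have g1 : (Ex m η (2 ^ i)).card ≤ i * e :=
    le_trans (Ex_pow_two hm hv i) (Nat.mul_le_mul_left _ h2)
  have g2 : (Ex m η (p * q)).card ≤ e + K * e := by
    refine le_trans (Ex_mul_card hm hp hq) (Nat.add_le_add eq ?_)
    exact Nat.mul_le_mul (le_trans (Nat.gcd_le_left m hq) hqK) ep
  have g3 : (Ex m η (p * q * r)).card ≤ e + K * (e + K * e) := by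
    refine le_trans (Ex_mul_card hm (Nat.mul_pos hp hq) hr) (Nat.add_le_add er ?_)
    exact Nat.mul_le_mul (le_trans (Nat.gcd_le_left m hr) hrK) g2
  have hpqr : 0 < p * q * r := Nat.mul_pos (Nat.mul_pos hp hq) hr
  have g4 : p * q * r ≤ K ^ 3 := by
    calc p * q * r ≤ K * K * K := Nat.mul_le_mul (Nat.mul_le_mul hpK hqK) hrK
      _ = K ^ 3 := by ring
  have g5 : (Ex m η (2 ^ i * (p * q * r))).card ≤ (e + K * (e + K * e)) + K ^ 3 * (i * e) := by
    refine le_trans (Ex_mul_card hm (by positivity) hpqr) (Nat.add_le_add g3 ?_)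
    exact Nat.mul_le_mul (le_trans (Nat.gcd_le_left m hpqr) g4) g1
  refine le_trans g5 ?_
  have g6 : e + K * (e + K * e) + K ^ 3 * (i * e) = (1 + K + K ^ 2 + K ^ 3 * i) * e := by ring
  rw [g6]
  refine Nat.mul_le_mul_right _ ?_
  have g7 : K ≤ K ^ 2 := by nlinarith
  have g8 : 1 ≤ K ^ 2 := Nat.one_le_pow _ _ hK
  omega

end Pool.Agent.H11.LQ

end

section

/-!
# LQ module Round: one round of the recursion
-/

set_option autoImplicit false

namespace Pool.Agent.H11.LQ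

open Finset
open Pool.Agent.H34PG (lam lam_val lam_mul lam_prime)

/-- the bad set of a family of multipliers -/
private def bad {ι : Type*} (m : ℕ) (η : ℤ) (k : ℕ) (LL : Finset ι) (l : ι → ℕ) : Finset ℕ :=
  LL.biUnion fun t => Ex m η (l t) ∪ (range m).filter fun x => (k * x) % m ∈ Ex m η (l t)

private theorem bad_card {ι : Type*} {m : ℕ} {η : ℤ} {k : ℕ} (hm : 0 < m) (hk : 0 < k)
    {LL : Finset ι} {l : ι → ℕ} {E : ℕ} (hE : ∀ t ∈ LL, (Ex m η (l t)).card ≤ E) :
    (bad m η k LL l).card ≤ LL.card * ((1 + k) * E) := by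
  unfold bad
  refine (Finset.card_biUnion_le).trans ?_
  refine (Finset.sum_le_card_nsmul _ _ ((1 + k) * E) fun t ht => ?_).trans (by rw [smul_eq_mul])
  refine (Finset.card_union_le _ _).trans ?_
  have h1 := hE t ht
  have h2 := scale_card (a := k) hm (Ex m η (l t))
  have h3 : Nat.gcd k m ≤ k := Nat.gcd_le_left _ hk
  have h4 : Nat.gcd k m * (Ex m η (l t)).card ≤ k * E := Nat.mul_le_mul h3 h1
  calc _ ≤ E + k * E := Nat.add_le_add h1 (h2.trans h4)
    _ = (1 + k) * E := by ring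

private theorem not_bad_near {ι : Type*} {m : ℕ} {η : ℤ} (hη : η = 1 ∨ η = -1) {k : ℕ}
    (hk : 0 < k) {LL : Finset ι} {l : ι → ℕ} {a : ℕ} (ha : a ∈ Ex m η k)
    (hb : a ∉ bad m η k LL l) {t : ι} (ht : t ∈ LL) :
    m ≤ 2 * k * ((l t * a) % m) ∧ m ≤ 2 * k * (m - (l t * a) % m) := by
  have ham : a < m := (mem_Ex.mp ha).1
  have h1 : a ∉ Ex m η (l t) := fun h => hb (Finset.mem_biUnion.mpr
    ⟨t, ht, Finset.mem_union_left _ h⟩)
  have h2 : (k * a) % m ∉ Ex m η (l t) := fun h => hb (Finset.mem_biUnion.mpr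
    ⟨t, ht, Finset.mem_union_right _ (Finset.mem_filter.mpr ⟨Finset.mem_range.mpr ham, h⟩)⟩)
  have h3 := ((Ex_inv (l := l t) ha).resolve_left h1).resolve_left h2
  by_contra hcon
  apply not_mem_Ex_of_near hη hk _ h3
  by_contra hcon2
  rw [not_or, not_lt, not_lt] at hcon2
  exact hcon hcon2

private theorem prs_card (K : ℕ) : (prs K).card ≤ K := by
  have h : prs K ⊆ Finset.Icc 1 K := by
    intro p hp
    rw [mem_prs] at hp
    exact Finset.mem_Icc.mpr ⟨hp.1.one_lt.le, hp.2⟩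
  have := Finset.card_le_card h
  rwa [Nat.card_Icc, Nat.add_sub_cancel] at this

private theorem hit_real {m T b s g : ℕ} {x : ℝ} (hT : 0 < T)
    (h : s * T ^ b ≤ 2 * m * g ^ b) (hg : (g : ℝ) ≤ T * x) : (s : ℝ) ≤ 2 * m * x ^ b := by
  have hT' : (0 : ℝ) < (T : ℝ) ^ b := by positivity
  have h1 : (s : ℝ) * (T : ℝ) ^ b ≤ 2 * m * (g : ℝ) ^ b := by exact_mod_cast h
  have h2 : (g : ℝ) ^ b ≤ (T * x) ^ b := pow_le_pow_left₀ (by positivity) hg b
  have h3 : (s : ℝ) * (T : ℝ) ^ b ≤ (2 * m * x ^ b) * (T : ℝ) ^ b := by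
    calc (s : ℝ) * (T : ℝ) ^ b ≤ 2 * m * (g : ℝ) ^ b := h1
      _ ≤ 2 * m * (T * x) ^ b := mul_le_mul_of_nonneg_left h2 (by positivity)
      _ = (2 * m * x ^ b) * (T : ℝ) ^ b := by rw [mul_pow]; ring
  exact le_of_mul_le_mul_right h3 hT'

theorem round_step : ∃ K0 : ℕ, 2 ≤ K0 ∧ ∀ K ≥ K0, ∀ (m k v ρ b e : ℕ) (η : ℤ),
    (η = 1 ∨ η = -1) → 0 < k → k ^ 4 ≤ K ^ 5 → K ^ 6 ≤ 2 ^ ρ → (2 ^ ρ) ^ b ≤ m → 1 ≤ b →
    (∀ i, Nat.gcd (2 ^ i) m ≤ v) → v * (Ex m η 2).card ≤ e →
    (∀ q, q.Prime → q ≤ K → (Ex m η q).card ≤ e) →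
    ((Ex m η k).card : ℝ) ≤
      2 * m * ((K : ℝ) ^ (-(1 / 4) : ℝ)) ^ b + 8 * ρ * b ^ 2 * K ^ 8 * e := by
  classical
  obtain ⟨K1, hK1⟩ := fejer
  refine ⟨max K1 16, le_max_of_le_right (by norm_num), ?_⟩
  intro K hK m k v ρ b e η hη hk hkK hρ hb hb1 hv h2 hq
  have hKK1 : K1 ≤ K := (le_max_left _ _).trans hK
  have hK16 : 16 ≤ K := (le_max_right _ _).trans hK
  have hm : 0 < m := lt_of_lt_of_le (by positivity) hb
  set T : ℕ := 2 ^ ρ with hT
  have hT0 : 0 < T := by positivity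
  have hKT : 1 < K ^ 6 := Nat.one_lt_pow (by norm_num) (by omega)
  have hT2 : 2 ≤ T := by omega
  have hρ1 : 1 ≤ ρ := by
    rcases Nat.eq_zero_or_pos ρ with h | h
    · rw [h, pow_zero] at hT
      omega
    · exact h
  have hk2 : k ≤ K ^ 2 := by
    have h1 : k ^ 4 ≤ (K ^ 2) ^ 4 := hkK.trans (by
      rw [← pow_mul]
      exact Nat.pow_le_pow_right (by omega) (by norm_num))
    exact (Nat.pow_le_pow_iff_left (by norm_num)).mp h1
  have hk3 : 4 * k ≤ K ^ 3 := by
    have h1 : (4 * k) ^ 4 ≤ (K ^ 3) ^ 4 := by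
      calc (4 * k) ^ 4 = 256 * k ^ 4 := by ring
        _ ≤ K ^ 7 * K ^ 5 := by
            refine Nat.mul_le_mul ?_ hkK
            calc 256 = 16 ^ 2 := by norm_num
              _ ≤ K ^ 2 := Nat.pow_le_pow_left hK16 2
              _ ≤ K ^ 7 := Nat.pow_le_pow_right (by omega) (by norm_num)
        _ = (K ^ 3) ^ 4 := by ring
    exact (Nat.pow_le_pow_iff_left (by norm_num)).mp h1
  set LL : Finset (ℕ × ℕ × ℕ × ℕ) := (range b) ×ˢ (prs K) ×ˢ (prs K) ×ˢ (prs K) with hLL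
  set l : ℕ × ℕ × ℕ × ℕ → ℕ := fun t => 2 ^ (ρ * t.1) * (t.2.1 * t.2.2.1 * t.2.2.2) with hl
  have hLLc : LL.card ≤ b * K ^ 3 := by
    rw [hLL, Finset.card_product, Finset.card_product, Finset.card_product, Finset.card_range]
    have := prs_card K
    calc b * ((prs K).card * ((prs K).card * (prs K).card)) ≤ b * (K * (K * K)) :=
          Nat.mul_le_mul_left _ (Nat.mul_le_mul this (Nat.mul_le_mul this this))
      _ = b * K ^ 3 := by ring
  have hE : ∀ t ∈ LL, (Ex m η (l t)).card ≤ (3 * K ^ 2 + K ^ 3 * (ρ * b)) * e := by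
    rintro ⟨j, p, q, r⟩ ht
    simp only [hLL, Finset.mem_product, Finset.mem_range, mem_prs] at ht
    obtain ⟨hj, ⟨hp, hpK⟩, ⟨hq', hqK⟩, hr, hrK⟩ := ht
    refine (Ex_four (v := v) (e := e) (K := K) hm hv h2 (by omega) hp.pos hq'.pos hr.pos hpK hqK hrK
      (hq p hp hpK) (hq q hq' hqK) (hq r hr hrK)).trans ?_
    refine Nat.mul_le_mul_right _ (Nat.add_le_add_left (Nat.mul_le_mul_left _ ?_) _)
    exact Nat.mul_le_mul_left _ hj.le
  have hbad := bad_card (η := η) (l := l) hm hk hE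
  set B := bad m η k LL l with hB
  set G : Finset ℕ := (range T).filter fun d => ∀ p ∈ prs K, ∀ q ∈ prs K, ∀ r ∈ prs K,
      T ≤ 4 * k * ((p * q * r * d) % T) ∧ T ≤ 4 * k * (T - (p * q * r * d) % T) with hG
  have hGc : (G.card : ℝ) ≤ T * (K : ℝ) ^ (-(1 / 4) : ℝ) := hK1 K hKK1 k T hk hkK hρ
  have hS := hit hT2 hb G (Ex m η k \ B) (by
      intro a ha
      exact Finset.mem_range.mpr (mem_Ex.mp (Finset.mem_sdiff.mp ha).1).1) (by
      intro a ha j hj
      obtain ⟨ha1, ha2⟩ := Finset.mem_sdiff.mp ha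
      have hs : (T ^ j * a) % m < m := Nat.mod_lt _ hm
      have key : ∀ p ∈ prs K, ∀ q ∈ prs K, ∀ r ∈ prs K,
          T * ((T ^ j * a) % m) / m < T ∧
          T ≤ 4 * k * ((p * q * r * (T * ((T ^ j * a) % m) / m)) % T) ∧
          T ≤ 4 * k * (T - (p * q * r * (T * ((T ^ j * a) % m) / m)) % T) := by
        intro p hp q hq' r hr
        have ht : (j, p, q, r) ∈ LL := by
          simp only [hLL, Finset.mem_product, Finset.mem_range]
          exact ⟨hj, hp, hq', hr⟩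
        have h3 := not_bad_near hη hk ha1 ha2 ht
        rw [mem_prs] at hp hq' hr
        have h4 : (l (j, p, q, r) * a) % m = (p * q * r * ((T ^ j * a) % m)) % m := by
          rw [hl]
          simp only
          rw [Nat.mul_mod (p * q * r) ((T ^ j * a) % m), Nat.mod_mod, ← Nat.mul_mod, hT, ← pow_mul]
          congr 1
          ring
        rw [h4] at h3
        refine digit hm hk (Nat.mul_pos (Nat.mul_pos hp.1.pos hq'.1.pos) hr.1.pos) ?_ hs h3.1 h3.2
        have h5 : p * q * r ≤ K ^ 3 := by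
          calc p * q * r ≤ K * K * K := Nat.mul_le_mul (Nat.mul_le_mul hp.2 hq'.2) hr.2
            _ = K ^ 3 := by ring
        calc 4 * k * (p * q * r) ≤ K ^ 3 * K ^ 3 := Nat.mul_le_mul hk3 h5
          _ = K ^ 6 := by ring
          _ ≤ T := hρ
      rw [hG, Finset.mem_filter]
      refine ⟨?_, fun p hp q hq' r hr => (key p hp q hq' r hr).2⟩
      have h2p : 2 ∈ prs K := mem_prs.mpr ⟨Nat.prime_two, by omega⟩
      exact Finset.mem_range.mpr (key 2 h2p 2 h2p 2 h2p).1)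
  have hSr := hit_real hT0 hS hGc
  have hcard : (Ex m η k).card ≤ (Ex m η k \ B).card + B.card := by
    have := Finset.card_le_card_sdiff_add_card (s := Ex m η k) (t := B)
    omega
  have hBc : B.card ≤ 8 * ρ * b ^ 2 * K ^ 8 * e := by
    refine hbad.trans ?_
    have h5 : 1 + k ≤ 2 * K ^ 2 := by
      have : 1 ≤ K ^ 2 := Nat.one_le_pow _ _ (by omega)
      omega
    have h6 : 3 * K ^ 2 + K ^ 3 * (ρ * b) ≤ 4 * K ^ 3 * (ρ * b) := by
      have h7 : 1 ≤ ρ * b := Nat.mul_pos hρ1 hb1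
      have h8 : K ^ 2 * 1 ≤ K ^ 3 * (ρ * b) :=
        Nat.mul_le_mul (Nat.pow_le_pow_right (by omega) (by norm_num)) h7
      have h9 : 4 * K ^ 3 * (ρ * b) = 4 * (K ^ 3 * (ρ * b)) := by ring
      rw [h9]
      omega
    calc LL.card * ((1 + k) * ((3 * K ^ 2 + K ^ 3 * (ρ * b)) * e))
        ≤ (b * K ^ 3) * ((2 * K ^ 2) * ((4 * K ^ 3 * (ρ * b)) * e)) :=
          Nat.mul_le_mul hLLc (Nat.mul_le_mul h5 (Nat.mul_le_mul_right _ h6))
      _ = 8 * ρ * b ^ 2 * K ^ 8 * e := by ring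
  have hBr : (B.card : ℝ) ≤ 8 * ρ * b ^ 2 * K ^ 8 * e := by exact_mod_cast hBc
  have hcr : ((Ex m η k).card : ℝ) ≤ ((Ex m η k \ B).card : ℝ) + (B.card : ℝ) := by
    exact_mod_cast hcard
  linarith

theorem base_step {K0 m k v ρ b : ℕ} {η : ℤ} (hη : η = 1 ∨ η = -1) (hk : 0 < k) (hkK : k ≤ K0)
    (hρ : 2 * K0 ≤ 2 ^ ρ) (hb : (2 ^ ρ) ^ b ≤ m) (hv : ∀ i, Nat.gcd (2 ^ i) m ≤ v) :
    ((Ex m η k).card : ℝ) ≤
      2 * m * (1 - 1 / 2 ^ ρ) ^ b + b * (1 + K0) * (ρ * b * (v * (Ex m η 2).card)) := by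
  classical
  have hm : 0 < m := lt_of_lt_of_le (by positivity) hb
  set T : ℕ := 2 ^ ρ with hT
  have hT0 : 0 < T := by positivity
  have hT2 : 2 ≤ T := by omega
  have hE : ∀ j ∈ range b, (Ex m η (2 ^ (ρ * j))).card ≤ ρ * b * (v * (Ex m η 2).card) := by
    intro j hj
    rw [Finset.mem_range] at hj
    refine (Ex_pow_two hm hv _).trans (Nat.mul_le_mul_right _ ?_)
    exact Nat.mul_le_mul_left _ hj.le
  have hbad := bad_card (η := η) (l := fun j => 2 ^ (ρ * j)) hm hk hE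
  set B := bad m η k (range b) (fun j => 2 ^ (ρ * j)) with hB
  set G : Finset ℕ := (range T).erase 0 with hG
  have hGc : (G.card : ℝ) ≤ T * (1 - 1 / 2 ^ ρ) := by
    rw [hG, Finset.card_erase_of_mem (Finset.mem_range.mpr hT0), Finset.card_range,
      Nat.cast_sub (by omega)]
    have : (T : ℝ) = 2 ^ ρ := by rw [hT]; push_cast; rfl
    rw [this]
    have h0 : (2 : ℝ) ^ ρ ≠ 0 := by positivity
    field_simp
    push_cast
    linarith
  have hS := hit hT2 hb G (Ex m η k \ B) (by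
      intro a ha
      exact Finset.mem_range.mpr (mem_Ex.mp (Finset.mem_sdiff.mp ha).1).1) (by
      intro a ha j hj
      obtain ⟨ha1, ha2⟩ := Finset.mem_sdiff.mp ha
      have hs : (T ^ j * a) % m < m := Nat.mod_lt _ hm
      have h3 := not_bad_near hη hk ha1 ha2 (Finset.mem_range.mpr hj)
      have h4 : (2 ^ (ρ * j) * a) % m = (T ^ j * a) % m := by rw [hT, ← pow_mul]
      simp only [h4] at h3
      have hd : T * ((T ^ j * a) % m) / m < T := by
        rw [Nat.div_lt_iff_lt_mul hm]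
        exact Nat.mul_lt_mul_of_pos_left hs hT0
      rw [hG, Finset.mem_erase]
      refine ⟨?_, Finset.mem_range.mpr hd⟩
      intro h0
      have h5 : T * ((T ^ j * a) % m) < m := by
        by_contra hcon
        have := Nat.div_pos (not_lt.mp hcon) hm
        omega
      have h6 : 2 * k * ((T ^ j * a) % m) ≤ T * ((T ^ j * a) % m) :=
        Nat.mul_le_mul_right _ (by omega)
      omega)
  have hSr := hit_real hT0 hS hGc
  have hcard : (Ex m η k).card ≤ (Ex m η k \ B).card + B.card := by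
    have := Finset.card_le_card_sdiff_add_card (s := Ex m η k) (t := B)
    omega
  have hBc : B.card ≤ b * (1 + K0) * (ρ * b * (v * (Ex m η 2).card)) := by
    refine hbad.trans ?_
    rw [Finset.card_range, ← mul_assoc]
    exact Nat.mul_le_mul_right _ (Nat.mul_le_mul_left _ (by omega))
  have hBr : (B.card : ℝ) ≤ b * (1 + K0) * (ρ * b * (v * (Ex m η 2).card)) := by
    exact_mod_cast hBc
  have hcr : ((Ex m η k).card : ℝ) ≤ ((Ex m η k \ B).card : ℝ) + (B.card : ℝ) := by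
    exact_mod_cast hcard
  linarith

end Pool.Agent.H11.LQ

end

section

/-!
# LQ / PG, TDec: the completely multiplicative extension of a character with value `1` at `p | m`

`g n = ψ (part of n prime to m)`, for instance `g n = ∏ p ∈ n.primeFactors, (if p ∣ m then 1 else ψ p)^(v_p n)`
(`Nat.factorization` is additive), `g 0 = 0`.  For `d` with all prime factors dividing `m` and `y` prime to `m`:
`g (d y) = ψ y`.  By `split`: `∑_{n ≤ M} g n = ∑_{d ∈ sm m M} ∑_{y ∈ cop m (M/d)} ψ y`, the inner sum is at most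
`min (M/d) (KK m) ≤ √(M (KK m)/d)` (`pv_cop` and the trivial bound), and `sm_sum`.
-/

set_option autoImplicit false

namespace Pool.Agent.H78.PG

open Finset
open Pool.Agent.H34PG (lam lam_val lam_mul)
open Pool.Agent.H11.LQ

/-- the completely multiplicative extension of `ψ` with value `1` at the primes dividing `m` -/
noncomputable def tdec_g (m : ℕ) (ψ : DirichletCharacter ℂ m) (n : ℕ) : ℂ :=
  if n = 0 then 0 else n.factorization.prod (fun p k => (if p ∣ m then 1 else ψ (p : ZMod m)) ^ k)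

theorem tdec_mul (m : ℕ) (ψ : DirichletCharacter ℂ m) (a b : ℕ) (ha : 1 ≤ a) (hb : 1 ≤ b) :
    tdec_g m ψ (a * b) = tdec_g m ψ a * tdec_g m ψ b := by
  have ha' : a ≠ 0 := by omega
  have hb' : b ≠ 0 := by omega
  unfold tdec_g
  rw [if_neg ha', if_neg hb', if_neg (mul_ne_zero ha' hb'), Nat.factorization_mul ha' hb']
  exact Finsupp.prod_add_index' (fun p => pow_zero _) (fun p k l => pow_add _ _ _)

theorem tdec_one (m : ℕ) (ψ : DirichletCharacter ℂ m) : tdec_g m ψ 1 = 1 := by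
  unfold tdec_g
  simp

theorem tdec_prime (m : ℕ) (ψ : DirichletCharacter ℂ m) {p : ℕ} (hp : p.Prime) :
    tdec_g m ψ p = if p ∣ m then 1 else ψ (p : ZMod m) := by
  unfold tdec_g
  rw [if_neg hp.ne_zero, hp.factorization]
  rw [Finsupp.prod_single_index (h := fun p k => (if p ∣ m then (1 : ℂ) else ψ (p : ZMod m)) ^ k)
    (pow_zero _), pow_one]

theorem tdec_norm (m : ℕ) (ψ : DirichletCharacter ℂ m) (n : ℕ) : ‖tdec_g m ψ n‖ ≤ 1 := by
  unfold tdec_g
  split_ifs with h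
  · simp
  · rw [Finsupp.prod, norm_prod]
    apply Finset.prod_le_one (fun _ _ => norm_nonneg _)
    intro p _
    rw [norm_pow]
    apply pow_le_one₀ (norm_nonneg _)
    split_ifs
    · simp
    · exact DirichletCharacter.norm_le_one ψ _

theorem tdec_cop (m : ℕ) (ψ : DirichletCharacter ℂ m) (y : ℕ) (hy : 1 ≤ y) (h : y.Coprime m) :
    tdec_g m ψ y = ψ (y : ZMod m) := by
  induction y using Nat.recOnMul with
  | zero => omega
  | one => rw [tdec_one]; simp
  | prime p hp =>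
    rw [tdec_prime m ψ hp, if_neg]
    intro hpm
    have := Nat.Coprime.eq_one_of_dvd h hpm
    exact hp.one_lt.ne' this
  | mul a b iha ihb =>
    have ha : 1 ≤ a := Nat.one_le_iff_ne_zero.2 (by rintro rfl; omega)
    have hb : 1 ≤ b := Nat.one_le_iff_ne_zero.2 (by rintro rfl; omega)
    have hca : a.Coprime m := Nat.Coprime.coprime_mul_right h
    have hcb : b.Coprime m := Nat.Coprime.coprime_mul_left h
    rw [tdec_mul m ψ a b ha hb, iha ha hca, ihb hb hcb]
    push_cast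
    rw [map_mul]

theorem tdec_sm (m : ℕ) (ψ : DirichletCharacter ℂ m) (d : ℕ) (hd : 1 ≤ d)
    (h : ∀ p : ℕ, p.Prime → p ∣ d → p ∣ m) : tdec_g m ψ d = 1 := by
  unfold tdec_g
  rw [if_neg (by omega), Finsupp.prod]
  apply Finset.prod_eq_one
  intro p hp
  rw [Nat.support_factorization] at hp
  rw [if_pos (h p (Nat.prime_of_mem_primeFactors hp) (Nat.dvd_of_mem_primeFactors hp)), one_pow]

theorem gext (m : ℕ) [NeZero m] (ψ : DirichletCharacter ℂ m) (hψ : ψ ≠ 1) :
    ∃ g : ℕ → ℂ, g 1 = 1 ∧ (∀ a b : ℕ, 1 ≤ a → 1 ≤ b → g (a * b) = g a * g b) ∧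
      (∀ n, ‖g n‖ ≤ 1) ∧ (∀ p : ℕ, p.Prime → ¬ p ∣ m → g p = ψ (p : ZMod m)) ∧
      (∀ p : ℕ, p.Prime → p ∣ m → g p = 1) ∧
      ∀ M : ℕ, ‖∑ n ∈ Icc 1 M, g n‖ ≤ Real.sqrt (M * KK m) *
        ∏ p ∈ m.primeFactors, (1 - (p : ℝ) ^ (-(1 / 2 : ℝ)))⁻¹ := by
  have hm : 1 ≤ m := Nat.one_le_iff_ne_zero.2 (NeZero.ne m)
  have hK0 : 0 ≤ KK m := by
    unfold KK
    have : 0 ≤ Real.log m := Real.log_nonneg (by exact_mod_cast hm)
    positivity
  refine ⟨tdec_g m ψ, tdec_one m ψ, tdec_mul m ψ, tdec_norm m ψ, ?_, ?_, ?_⟩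
  · intro p hp hpm
    rw [tdec_prime m ψ hp, if_neg hpm]
  · intro p hp hpm
    rw [tdec_prime m ψ hp, if_pos hpm]
  · intro M
    rw [split m M hm]
    have h1 : ∀ d ∈ sm m M, ‖∑ y ∈ cop m (M / d), tdec_g m ψ (d * y)‖
        ≤ Real.sqrt (M * KK m) * (d : ℝ) ^ (-(1 / 2 : ℝ)) := by
      intro d hd
      rw [mem_sm] at hd
      obtain ⟨⟨hd1, hd2⟩, hd3⟩ := hd
      have hdR : (1 : ℝ) ≤ d := by exact_mod_cast hd1
      have hd0 : (0 : ℝ) < d := by linarith
      have h2 : ∑ y ∈ cop m (M / d), tdec_g m ψ (d * y) = ∑ y ∈ cop m (M / d), ψ (y : ZMod m) := by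
        refine Finset.sum_congr rfl (fun y hy => ?_)
        rw [mem_cop] at hy
        rw [tdec_mul m ψ d y hd1 hy.1, tdec_sm m ψ d hd1 hd3, one_mul,
          tdec_cop m ψ y hy.1 hy.2.2]
      rw [h2]
      have h3 : ‖∑ y ∈ cop m (M / d), ψ (y : ZMod m)‖ ≤ KK m := pv_cop m ψ hψ (M / d)
      have h4 : ‖∑ y ∈ cop m (M / d), ψ (y : ZMod m)‖ ≤ (M : ℝ) / d := by
        refine (norm_sum_le _ _).trans ?_
        have h5 : ∑ y ∈ cop m (M / d), ‖ψ (y : ZMod m)‖ ≤ ∑ y ∈ cop m (M / d), (1 : ℝ) :=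
          Finset.sum_le_sum (fun y _ => DirichletCharacter.norm_le_one ψ _)
        refine h5.trans ?_
        rw [Finset.sum_const, nsmul_eq_mul, mul_one]
        have h6 : (cop m (M / d)).card ≤ M / d := by
          unfold cop
          refine (Finset.card_filter_le _ _).trans ?_
          simp
        calc ((cop m (M / d)).card : ℝ) ≤ ((M / d : ℕ) : ℝ) := by exact_mod_cast h6
          _ ≤ (M : ℝ) / d := Nat.cast_div_le
      set z := ‖∑ y ∈ cop m (M / d), ψ (y : ZMod m)‖ with hz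
      have hz0 : 0 ≤ z := norm_nonneg _
      have h7 : z ^ 2 ≤ (M : ℝ) / d * KK m := by
        rw [sq]
        exact mul_le_mul h4 h3 hz0 (by positivity)
      have h8 : Real.sqrt (M * KK m) * (d : ℝ) ^ (-(1 / 2 : ℝ)) = Real.sqrt ((M : ℝ) / d * KK m) := by
        rw [Real.rpow_neg hd0.le, ← Real.sqrt_eq_rpow, ← Real.sqrt_inv, ← Real.sqrt_mul (by positivity)]
        congr 1
        ring
      rw [h8]
      exact Real.le_sqrt_of_sq_le h7
    calc ‖∑ d ∈ sm m M, ∑ y ∈ cop m (M / d), tdec_g m ψ (d * y)‖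
        ≤ ∑ d ∈ sm m M, ‖∑ y ∈ cop m (M / d), tdec_g m ψ (d * y)‖ := norm_sum_le _ _
      _ ≤ ∑ d ∈ sm m M, Real.sqrt (M * KK m) * (d : ℝ) ^ (-(1 / 2 : ℝ)) :=
        Finset.sum_le_sum h1
      _ = Real.sqrt (M * KK m) * ∑ d ∈ sm m M, (d : ℝ) ^ (-(1 / 2 : ℝ)) := by
        rw [Finset.mul_sum]
      _ ≤ _ := mul_le_mul_of_nonneg_left (sm_sum m M hm) (Real.sqrt_nonneg _)

end Pool.Agent.H78.PG

end
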