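import Pool.Agent.H94.PG.M09
import Pool.Agent.H94.PG.M13
import Pool.Agent.H94.PG.M18

/-! The parts of this file: H78.PH.HQU, H78.PH.HStA, H78.PH.HStep, H78.PH.HRec. -/

section

/-!
# LQ / PG stage 2, HQU: quasi-orthogonality from above, and the size of the main term

`quasi_upper`: as `Pool.Agent.H78.PG.quasi` (module PG/TQO), the other inequality.
`cop_big`: `M ≥ m^(51/100)/4`: `#cop ≥ M φ(m)/m - 2^ω(m) ≥ M/(2+2 log m) - m^θ ≥ M/(4 + 4 log m)` (`cop_card_ge`, `tot_log`,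
`two_pow_le`), and `10 m^(1/200) KK m ≤ m^(1/200 + 1/2 + 1/1000) ≤ #cop` (`KK_le`) for large `m`.
-/

set_option autoImplicit false

namespace Pool.Agent.H78.PH

open Finset
open Pool.Agent.H34PG (lam lam_val lam_mul)
open Pool.Agent.H11.LQ Pool.Agent.H78.PG

theorem quasi_upper (m : ℕ) [NeZero m] (X : Finset (DirichletCharacter ℂ m))
    (d : DirichletCharacter ℂ m → ℂ) (M : ℕ) :
    ∑ x ∈ cop m M, ‖∑ χ ∈ X, d χ * χ (x : ZMod m)‖ ^ 2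
      ≤ (((cop m M).card : ℝ) + X.card * KK m) * ∑ χ ∈ X, ‖d χ‖ ^ 2 := by
  have h := tqo_expand m X d M
  have hK := tqo_KK_nonneg m
  set S : ℝ := ∑ x ∈ cop m M, ‖∑ χ ∈ X, d χ * χ (x : ZMod m)‖ ^ 2 with hS
  set Q : ℝ := ∑ χ ∈ X, ‖d χ‖ ^ 2 with hQ
  have h1 : |S - ((cop m M).card : ℝ) * Q| ≤ KK m * (∑ χ ∈ X, ‖d χ‖) ^ 2 := by
    have h2 : |S - ((cop m M).card : ℝ) * Q| = ‖(((S - ((cop m M).card : ℝ) * Q : ℝ)) : ℂ)‖ := by
      rw [Complex.norm_real, Real.norm_eq_abs]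
    rw [h2, h, sq, Finset.sum_mul_sum, Finset.mul_sum]
    refine (norm_sum_le _ _).trans (Finset.sum_le_sum fun χ _ => ?_)
    rw [Finset.mul_sum]
    refine (norm_sum_le _ _).trans (Finset.sum_le_sum fun χ' _ => ?_)
    rw [norm_mul, norm_mul, RCLike.norm_conj, mul_comm (KK m)]
    exact mul_le_mul_of_nonneg_left (tqo_corr m χ χ' M) (by positivity)
  have h3 : (∑ χ ∈ X, ‖d χ‖) ^ 2 ≤ X.card * Q := by
    have := sq_sum_le_card_mul_sum_sq (s := X) (f := fun χ => ‖d χ‖)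
    exact this
  have h4 : KK m * (∑ χ ∈ X, ‖d χ‖) ^ 2 ≤ KK m * (X.card * Q) :=
    mul_le_mul_of_nonneg_left h3 hK
  have h5 := (abs_le.1 h1).2
  nlinarith [h4, h5]

theorem cop_big : ∃ m0 : ℕ, ∀ m : ℕ, m0 ≤ m → ∀ M : ℕ, (m : ℝ) ^ (51 / 100 : ℝ) / 4 ≤ M →
    (M : ℝ) / (4 + 4 * Real.log m) ≤ ((cop m M).card : ℝ) ∧
      10 * ((m : ℝ) ^ (1 / 200 : ℝ) * KK m) ≤ ((cop m M).card : ℝ) := by
  obtain ⟨m1, H1⟩ := two_pow_le (1 / 100) (by norm_num)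
  obtain ⟨m2, H2⟩ := grow 16 1 (1 / 100) (by norm_num)
  obtain ⟨m3, H3⟩ := KK_le (1 / 1000) (by norm_num)
  obtain ⟨m4, H4⟩ := grow 160 1 (1 / 250) (by norm_num)
  refine ⟨m1 + m2 + m3 + m4 + 1, fun m hm M hM => ?_⟩
  have g1 := H1 m (by omega)
  have g2 := H2 m (by omega)
  have g3 := H3 m (by omega)
  have g4 := H4 m (by omega)
  rw [pow_one] at g2 g4
  have hm1 : 1 ≤ m := by omega
  have hm1R : (1 : ℝ) ≤ m := by exact_mod_cast hm1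
  have hm0 : (0 : ℝ) < m := by linarith
  have hL : 0 ≤ Real.log m := Real.log_nonneg hm1R
  set L : ℝ := Real.log m with hLdef
  have hM0 : (0 : ℝ) ≤ M := Nat.cast_nonneg M
  have t1 := tot_log m hm1
  rw [← hLdef] at t1
  -- the density
  have h1 : (M : ℝ) / (2 + 2 * L) ≤ (M : ℝ) * m.totient / m := by
    rw [div_le_div_iff₀ (by linarith) hm0]
    calc (M : ℝ) * m ≤ M * ((2 + 2 * L) * m.totient) := mul_le_mul_of_nonneg_left t1 hM0
      _ = M * m.totient * (2 + 2 * L) := by ring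
  have h2 := cop_card_ge m M hm1
  have h3 : (2 : ℝ) ^ (m.primeFactors.card) ≤ (M : ℝ) / (4 + 4 * L) := by
    rw [le_div_iff₀ (by linarith)]
    have e1 : (2 : ℝ) ^ (m.primeFactors.card) * (4 + 4 * L)
        ≤ (m : ℝ) ^ (1 / 100 : ℝ) * (4 + 4 * L) :=
      mul_le_mul_of_nonneg_right g1 (by linarith)
    have e2 : (m : ℝ) ^ (1 / 100 : ℝ) * (16 * (1 + L))
        ≤ (m : ℝ) ^ (1 / 100 : ℝ) * (m : ℝ) ^ (1 / 100 : ℝ) :=
      mul_le_mul_of_nonneg_left g2 (Real.rpow_nonneg hm0.le _)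
    have e3 : (m : ℝ) ^ (1 / 100 : ℝ) * (m : ℝ) ^ (1 / 100 : ℝ) ≤ (m : ℝ) ^ (51 / 100 : ℝ) := by
      rw [← Real.rpow_add hm0]
      exact Real.rpow_le_rpow_of_exponent_le hm1R (by norm_num)
    nlinarith [e1, e2, e3, hM]
  have h4 : (M : ℝ) / (2 + 2 * L) = (M : ℝ) / (4 + 4 * L) + (M : ℝ) / (4 + 4 * L) := by
    have n1 : (2 + 2 * L) ≠ 0 := by positivity
    have n2 : (4 + 4 * L) ≠ 0 := by positivity
    field_simp
    ring
  have h5 : (M : ℝ) / (4 + 4 * L) ≤ ((cop m M).card : ℝ) := by linarith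
  refine ⟨h5, le_trans ?_ h5⟩
  rw [le_div_iff₀ (by linarith)]
  have e1 : (m : ℝ) ^ (1 / 200 : ℝ) * KK m
      ≤ (m : ℝ) ^ (1 / 200 : ℝ) * (m : ℝ) ^ (1 / 2 + 1 / 1000 : ℝ) :=
    mul_le_mul_of_nonneg_left g3 (Real.rpow_nonneg hm0.le _)
  rw [← Real.rpow_add hm0] at e1
  have e2 : (160 * (1 + L)) * (m : ℝ) ^ (1 / 200 + (1 / 2 + 1 / 1000) : ℝ)
      ≤ (m : ℝ) ^ (1 / 250 : ℝ) * (m : ℝ) ^ (1 / 200 + (1 / 2 + 1 / 1000) : ℝ) :=
    mul_le_mul_of_nonneg_right g4 (Real.rpow_nonneg hm0.le _)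
  rw [← Real.rpow_add hm0] at e2
  have e3 : (1 / 250 + (1 / 200 + (1 / 2 + 1 / 1000)) : ℝ) = 51 / 100 := by norm_num
  rw [e3] at e2
  have e4 : 10 * ((m : ℝ) ^ (1 / 200 : ℝ) * KK m) * (4 + 4 * L)
      ≤ 10 * ((m : ℝ) ^ (1 / 200 + (1 / 2 + 1 / 1000) : ℝ)) * (4 + 4 * L) :=
    mul_le_mul_of_nonneg_right (by linarith) (by linarith)
  linarith [e2, e4, hM]

end Pool.Agent.H78.PH

end

section

/-!
# LQ / PG stage 2, HStA: the distance on short intervals, with multipliers `q₁ q₂`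

`T = pq m Q`, `n = #T`, `2 Q² M ≤ m`.  For `(q₁, q₂) ∈ T × T`, `s = q₁ q₂ ≤ Q²`, and `x ∈ cop m M`: `s x ≤ m/2`, `λ(s x) = λ(x)`, so
`‖λ(x) - G(x)‖² ≤ 2 ‖λ(s x) - G(s x)‖² + 2 ‖G(s x) - G(x)‖²`.
Sum over `x` and the pairs: the first part is `≤ 2 (2 log m)² D0(m/2)` (`y = s x ∈ cop m (m/2)`; a given `y` and pair determine `x`,
at most `(2 log m)²` pairs divide `y`: `pairs_dvd`); the second: `G(s x) - G(x) = ∑_{Xr} cc χ (χ s - 1) χ(x)`, `quasi_upper`, and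
`‖χ(q₁ q₂) - 1‖² ≤ (‖χ q₁ + 1‖ + ‖χ q₂ + 1‖)² ≤ 2 ‖χ q₁ + 1‖² + 2 ‖χ q₂ + 1‖²`, so the sum over the pairs is
`≤ 2 (#cop + #X KK) * 4 n ∑_T Ww`.
-/

set_option autoImplicit false

namespace Pool.Agent.H78.PH

open Finset
open Pool.Agent.H34PG (lam lam_val lam_mul lam_prime)
open Pool.Agent.H11.LQ Pool.Agent.H78.PG

/-- double counting of the products -/
theorem hsta_sum_le {α : Type*} (S : Finset α) (w : α → ℕ) (C D : Finset ℕ) (h : ℕ → ℝ) (K : ℝ)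
    (hh : ∀ y, 0 ≤ h y) (hS : ∀ s ∈ S, 1 ≤ w s) (hD : ∀ s ∈ S, ∀ x ∈ C, w s * x ∈ D)
    (hK : ∀ y ∈ D, ((S.filter (fun s => w s ∣ y)).card : ℝ) ≤ K) :
    ∑ s ∈ S, ∑ x ∈ C, h (w s * x) ≤ K * ∑ y ∈ D, h y := by
  classical
  have e1 : ∀ s ∈ S, ∑ x ∈ C, h (w s * x) ≤ ∑ y ∈ D, if w s ∣ y then h y else 0 := by
    intro s hs
    have e2 : ∑ x ∈ C, h (w s * x) = ∑ y ∈ C.image (fun x => w s * x), h y := by
      rw [sum_image]
      intro a _ b _ hab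
      exact Nat.eq_of_mul_eq_mul_left (hS s hs) hab
    rw [e2, ← sum_filter]
    refine sum_le_sum_of_subset_of_nonneg ?_ (fun y _ _ => hh y)
    intro y hy
    rw [mem_image] at hy
    obtain ⟨x, hx, rfl⟩ := hy
    rw [mem_filter]
    exact ⟨hD s hs x hx, dvd_mul_right _ _⟩
  calc ∑ s ∈ S, ∑ x ∈ C, h (w s * x) ≤ ∑ s ∈ S, ∑ y ∈ D, (if w s ∣ y then h y else 0) :=
        sum_le_sum e1
    _ = ∑ y ∈ D, ∑ s ∈ S, (if w s ∣ y then h y else 0) := sum_comm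
    _ = ∑ y ∈ D, ((S.filter (fun s => w s ∣ y)).card : ℝ) * h y := by
        refine sum_congr rfl (fun y _ => ?_)
        rw [← sum_filter, sum_const, nsmul_eq_mul]
    _ ≤ ∑ y ∈ D, K * h y := sum_le_sum fun y hy => mul_le_mul_of_nonneg_right (hK y hy) (hh y)
    _ = K * ∑ y ∈ D, h y := by rw [mul_sum]

/-- the character values -/
theorem hsta_char {m : ℕ} (χ : DirichletCharacter ℂ m) (p q : ℕ) :
    ‖χ ((p * q : ℕ) : ZMod m) - 1‖ ^ 2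
      ≤ 2 * ‖χ (p : ZMod m) + 1‖ ^ 2 + 2 * ‖χ (q : ZMod m) + 1‖ ^ 2 := by
  have h1 : χ ((p * q : ℕ) : ZMod m) - 1
      = (χ (p : ZMod m) + 1) * χ (q : ZMod m) - (χ (q : ZMod m) + 1) := by
    rw [Nat.cast_mul, map_mul]
    ring
  have h2 : ‖χ ((p * q : ℕ) : ZMod m) - 1‖ ≤ ‖χ (p : ZMod m) + 1‖ + ‖χ (q : ZMod m) + 1‖ := by
    rw [h1]
    refine (norm_sub_le _ _).trans ?_
    rw [norm_mul]
    have h3 : ‖χ (q : ZMod m)‖ ≤ 1 := DirichletCharacter.norm_le_one χ _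
    have h4 : ‖χ (p : ZMod m) + 1‖ * ‖χ (q : ZMod m)‖ ≤ ‖χ (p : ZMod m) + 1‖ * 1 := by gcongr
    linarith
  have h5 := norm_nonneg (χ ((p * q : ℕ) : ZMod m) - 1)
  nlinarith [sq_nonneg (‖χ (p : ZMod m) + 1‖ - ‖χ (q : ZMod m) + 1‖)]

/-- the main part at `s x` and at `x` -/
theorem hsta_G (ρ : ℝ) (m : ℕ) [NeZero m] (η : ℤ) (s M : ℕ) :
    ∑ x ∈ cop m M, ‖Gr ρ m η (s * x) - Gr ρ m η x‖ ^ 2
      ≤ (((cop m M).card : ℝ) + (Xr ρ m).card * KK m)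
        * ∑ χ ∈ Xr ρ m, ‖cc m (FC m η) χ‖ ^ 2 * ‖χ (s : ZMod m) - 1‖ ^ 2 := by
  have h := quasi_upper m (Xr ρ m) (fun χ => cc m (FC m η) χ * (χ (s : ZMod m) - 1)) M
  have e1 : ∀ x : ℕ, Gr ρ m η (s * x) - Gr ρ m η x
      = ∑ χ ∈ Xr ρ m, cc m (FC m η) χ * (χ (s : ZMod m) - 1) * χ (x : ZMod m) := by
    intro x
    unfold Gr
    rw [← sum_sub_distrib]
    refine sum_congr rfl fun χ _ => ?_
    rw [Nat.cast_mul, map_mul]
    ring
  have e2 : ∀ χ : DirichletCharacter ℂ m, ‖cc m (FC m η) χ * (χ (s : ZMod m) - 1)‖ ^ 2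
      = ‖cc m (FC m η) χ‖ ^ 2 * ‖χ (s : ZMod m) - 1‖ ^ 2 := by
    intro χ
    rw [norm_mul, mul_pow]
  simp only [e2] at h
  refine le_trans (le_of_eq ?_) h
  exact sum_congr rfl fun x _ => by rw [e1 x]

theorem hsta_KK_nonneg (m : ℕ) : 0 ≤ KK m := by
  unfold KK
  have : 0 ≤ Real.log m := Real.log_natCast_nonneg m
  positivity

/-- the pointwise comparison -/
theorem hsta_point (ρ : ℝ) (m : ℕ) [NeZero m] (η : ℤ) {p q x : ℕ} (hp : p.Prime) (hq : q.Prime)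
    (hx : 1 ≤ x) :
    ‖((lam x : ℤ) : ℂ) - Gr ρ m η x‖ ^ 2
      ≤ 2 * ‖((lam (p * q * x) : ℤ) : ℂ) - Gr ρ m η (p * q * x)‖ ^ 2
        + 2 * ‖Gr ρ m η (p * q * x) - Gr ρ m η x‖ ^ 2 := by
  have h1 : lam (p * q * x) = lam x := by
    rw [lam_mul (p * q) x (Nat.mul_pos hp.pos hq.pos) hx, lam_mul p q hp.pos hq.pos,
      lam_prime hp, lam_prime hq]
    ring
  rw [h1]
  have h2 : ((lam x : ℤ) : ℂ) - Gr ρ m η x
      = (((lam x : ℤ) : ℂ) - Gr ρ m η (p * q * x)) + (Gr ρ m η (p * q * x) - Gr ρ m η x) := by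
    ring
  have h3 : ‖((lam x : ℤ) : ℂ) - Gr ρ m η x‖
      ≤ ‖((lam x : ℤ) : ℂ) - Gr ρ m η (p * q * x)‖ + ‖Gr ρ m η (p * q * x) - Gr ρ m η x‖ := by
    rw [h2]
    exact norm_add_le _ _
  have h4 := norm_nonneg (((lam x : ℤ) : ℂ) - Gr ρ m η x)
  nlinarith [sq_nonneg (‖((lam x : ℤ) : ℂ) - Gr ρ m η (p * q * x)‖
    - ‖Gr ρ m η (p * q * x) - Gr ρ m η x‖)]

theorem stepA (m : ℕ) [NeZero m] (hm : 3 ≤ m) (ρ : ℝ) (η : ℤ) (Q M : ℕ) (hM : 2 * Q ^ 2 * M ≤ m) :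
    ((pq m Q).card : ℝ) ^ 2 * D0 ρ m η M ≤ 2 * (2 * Real.log m) ^ 2 * D0 ρ m η (m / 2)
      + 8 * (((cop m M).card : ℝ) + (Xr ρ m).card * KK m) * ((pq m Q).card : ℝ)
        * ∑ p ∈ pq m Q, Ww ρ m η p := by
  classical
  set T : Finset ℕ := pq m Q with hT
  have hTp : ∀ p ∈ T, p.Prime := fun p hp => (mem_pq.mp hp).2.1
  have hTc : ∀ p ∈ T, p.Coprime m := fun p hp =>
    (Nat.Prime.coprime_iff_not_dvd (hTp p hp)).mpr (mem_pq.mp hp).2.2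
  set h : ℕ → ℝ := fun y => ‖((lam y : ℤ) : ℂ) - Gr ρ m η y‖ ^ 2 with hh
  have hh0 : ∀ y, 0 ≤ h y := fun y => by simp only [hh]; positivity
  set A : ℝ := ((cop m M).card : ℝ) + (Xr ρ m).card * KK m with hA
  have hA0 : 0 ≤ A := by
    have := hsta_KK_nonneg m
    rw [hA]
    positivity
  -- one pair
  have f1 : ∀ r ∈ T ×ˢ T, D0 ρ m η M ≤ 2 * (∑ x ∈ cop m M, h (r.1 * r.2 * x))
      + 2 * (A * (2 * Ww ρ m η r.1 + 2 * Ww ρ m η r.2)) := by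
    intro r hr
    rw [mem_product] at hr
    have hp := hTp r.1 hr.1
    have hq := hTp r.2 hr.2
    have g1 : D0 ρ m η M ≤ ∑ x ∈ cop m M,
        (2 * h (r.1 * r.2 * x) + 2 * ‖Gr ρ m η (r.1 * r.2 * x) - Gr ρ m η x‖ ^ 2) := by
      unfold D0
      refine sum_le_sum fun x hx => ?_
      exact hsta_point ρ m η hp hq (mem_cop.mp hx).1
    rw [sum_add_distrib, ← mul_sum, ← mul_sum] at g1
    have g2 := hsta_G ρ m η (r.1 * r.2) M
    have g3 : ∑ χ ∈ Xr ρ m, ‖cc m (FC m η) χ‖ ^ 2 * ‖χ ((r.1 * r.2 : ℕ) : ZMod m) - 1‖ ^ 2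
        ≤ 2 * Ww ρ m η r.1 + 2 * Ww ρ m η r.2 := by
      unfold Ww
      rw [mul_sum, mul_sum, ← sum_add_distrib]
      refine sum_le_sum fun χ _ => ?_
      have g4 := hsta_char χ r.1 r.2
      calc ‖cc m (FC m η) χ‖ ^ 2 * ‖χ ((r.1 * r.2 : ℕ) : ZMod m) - 1‖ ^ 2
          ≤ ‖cc m (FC m η) χ‖ ^ 2
            * (2 * ‖χ (r.1 : ZMod m) + 1‖ ^ 2 + 2 * ‖χ (r.2 : ZMod m) + 1‖ ^ 2) := by gcongr
        _ = _ := by ring
    have g5 : ∑ x ∈ cop m M, ‖Gr ρ m η (r.1 * r.2 * x) - Gr ρ m η x‖ ^ 2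
        ≤ A * (2 * Ww ρ m η r.1 + 2 * Ww ρ m η r.2) :=
      g2.trans (mul_le_mul_of_nonneg_left g3 hA0)
    linarith
  -- the products
  have f2 : ∑ r ∈ T ×ˢ T, ∑ x ∈ cop m M, h (r.1 * r.2 * x)
      ≤ (2 * Real.log m) ^ 2 * D0 ρ m η (m / 2) := by
    refine hsta_sum_le (T ×ˢ T) (fun r => r.1 * r.2) (cop m M) (cop m (m / 2)) h _ hh0 ?_ ?_ ?_
    · intro r hr
      rw [mem_product] at hr
      exact Nat.mul_pos (hTp _ hr.1).pos (hTp _ hr.2).pos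
    · intro r hr x hx
      rw [mem_product] at hr
      obtain ⟨hx1, hx2, hx3⟩ := mem_cop.mp hx
      rw [mem_cop]
      have k1 : r.1 ≤ Q := (mem_pq.mp hr.1).1
      have k2 : r.2 ≤ Q := (mem_pq.mp hr.2).1
      refine ⟨Nat.mul_pos (Nat.mul_pos (hTp _ hr.1).pos (hTp _ hr.2).pos) hx1, ?_,
        Nat.Coprime.mul_left (Nat.Coprime.mul_left (hTc _ hr.1) (hTc _ hr.2)) hx3⟩
      rw [Nat.le_div_iff_mul_le (by norm_num)]
      calc r.1 * r.2 * x * 2 ≤ Q * Q * M * 2 := by gcongr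
        _ = 2 * Q ^ 2 * M := by ring
        _ ≤ m := hM
    · intro y hy
      obtain ⟨hy1, hy2, _⟩ := mem_cop.mp hy
      exact pairs_dvd hTp hy1 (by omega)
  -- the sum over the pairs
  have f3 : ((T.card : ℝ)) ^ 2 * D0 ρ m η M = ∑ _r ∈ T ×ˢ T, D0 ρ m η M := by
    rw [sum_const, card_product, nsmul_eq_mul]
    push_cast
    ring
  have f4 : ∑ r ∈ T ×ˢ T, (2 * Ww ρ m η r.1 + 2 * Ww ρ m η r.2)
      = 4 * (T.card : ℝ) * ∑ p ∈ T, Ww ρ m η p := by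
    rw [sum_product]
    have k1 : ∀ a ∈ T, ∑ b ∈ T, (2 * Ww ρ m η (a, b).1 + 2 * Ww ρ m η (a, b).2)
        = 2 * (T.card : ℝ) * Ww ρ m η a + 2 * ∑ p ∈ T, Ww ρ m η p := by
      intro a _
      simp only
      rw [sum_add_distrib, sum_const, nsmul_eq_mul, ← mul_sum]
      ring
    rw [sum_congr rfl k1, sum_add_distrib, sum_const, nsmul_eq_mul, ← mul_sum]
    ring
  calc ((T.card : ℝ)) ^ 2 * D0 ρ m η M = ∑ _r ∈ T ×ˢ T, D0 ρ m η M := f3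
    _ ≤ ∑ r ∈ T ×ˢ T, (2 * (∑ x ∈ cop m M, h (r.1 * r.2 * x))
        + 2 * (A * (2 * Ww ρ m η r.1 + 2 * Ww ρ m η r.2))) := sum_le_sum f1
    _ = 2 * (∑ r ∈ T ×ˢ T, ∑ x ∈ cop m M, h (r.1 * r.2 * x))
        + 2 * (A * ∑ r ∈ T ×ˢ T, (2 * Ww ρ m η r.1 + 2 * Ww ρ m η r.2)) := by
        rw [sum_add_distrib, ← mul_sum, ← mul_sum, ← mul_sum]
    _ ≤ 2 * ((2 * Real.log m) ^ 2 * D0 ρ m η (m / 2))
        + 2 * (A * (4 * (T.card : ℝ) * ∑ p ∈ T, Ww ρ m η p)) := by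
        rw [f4]
        linarith
    _ = 2 * (2 * Real.log m) ^ 2 * D0 ρ m η (m / 2)
      + 8 * A * (T.card : ℝ) * ∑ p ∈ T, Ww ρ m η p := by ring

end Pool.Agent.H78.PH

end

section

/-!
# LQ / PG stage 2, HStep: one step `√P → P` of the recursion for the averages `aa`

`Q = Nat.sqrt P`, `M = m / (2 P)` (so `2 P M ≤ m`, `2 Q² M ≤ m`, `M ≥ m/(4P) ≥ m^(51/100)/4` as `P ≤ yy m ≤ m^(49/100)`).
`A = #cop m M`, `X = #Xr KK m ≤ A/10` (`Xr_card`, `cop_big`), `E = D0(m/2) ≤ ρ^(1/3) m` (`base_scale`), `L = log m`.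
`stepA`: `D0(M) ≤ 8 L² E/#pq(Q)² + 8.8 A aa(Q)` (`∑_{pq Q} Ww = #pq(Q) aa(Q)`).
`stepB`: `0.9 A #pq(P) aa(P) ≤ 4 L E + 2 #pq(P) D0(M)`.
So `aa(P) ≤ (10/9) (4 L E/(A #pq P) + 16 L² E/(A #pq(Q)²)) + (10/9) 17.6 aa(Q) ≤ 20 aa(Q) + ...`; `#pq(P) ≥ P/(4L)`,
`#pq(Q) ≥ Q/(4L)`, `Q² ≥ P/4` (`pq_card`; `Q ≥ (log m)^399 ≥ (log m)^3` as `P > bb m`), `A ≥ M/(4+4L) ≥ m/(16 P (1+L))`: the error is
`≤ C (1+L)^6 ρ^(1/3)`.
-/

set_option autoImplicit false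

namespace Pool.Agent.H78.PH

open Finset
open Pool.Agent.H34PG (lam lam_val lam_mul lam_prime)
open Pool.Agent.H11.LQ Pool.Agent.H78.PG

private theorem hstep_num {L A D D0M nP nQ aP aQ p q m X r : ℝ} (hL : 2 ≤ L) (hp : 0 < p)
    (hm : 0 < m) (hq : p ≤ 4 * q ^ 2) (hq0 : 0 < q) (haP : 0 ≤ aP) (haQ : 0 ≤ aQ) (hr : 0 ≤ r)
    (hA : m / (16 * p * (1 + L)) ≤ A) (hX : X ≤ A / 10) (hD : D ≤ r * m)
    (hnP : p / (4 * L) ≤ nP) (hnQ : q / (4 * L) ≤ nQ)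
    (hA1 : nQ ^ 2 * D0M ≤ 2 * (2 * L) ^ 2 * D + 8 * (A + X) * nQ * (nQ * aQ))
    (hB1 : (A - X) * (nP * aP) ≤ 2 * (2 * L) * D + 2 * nP * D0M) :
    aP ≤ 20 * aQ + 20000 * (1 + L) ^ 6 * r := by
  have hL0 : 0 < L := by linarith only [hL]
  have hA0 : 0 < A := lt_of_lt_of_le (by positivity) hA
  have hnP0 : 0 < nP := lt_of_lt_of_le (by positivity) hnP
  have hnQ0 : 0 < nQ := lt_of_lt_of_le (by positivity) hnQ
  -- bound of D0M
  have h1 : nQ ^ 2 * D0M ≤ 8 * L ^ 2 * D + nQ ^ 2 * (8.8 * A * aQ) := by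
    have h2 : 8 * (A + X) * nQ * (nQ * aQ) ≤ nQ ^ 2 * (8.8 * A * aQ) := by
      have h3 : 0 ≤ nQ ^ 2 * aQ := by positivity
      nlinarith only [hX, h3, mul_le_mul_of_nonneg_right hX h3]
    nlinarith only [hA1, h2]
  have h2 : D0M ≤ 8 * L ^ 2 * D / nQ ^ 2 + 8.8 * A * aQ := by
    have h3 : D0M ≤ (8 * L ^ 2 * D + nQ ^ 2 * (8.8 * A * aQ)) / nQ ^ 2 := by
      rw [le_div_iff₀ (by positivity)]
      linarith only [h1]
    rw [add_div, mul_div_cancel_left₀ _ (by positivity)] at h3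
    exact h3
  have h3 : 0.9 * A * (nP * aP) ≤ 4 * L * D + 2 * nP * D0M := by
    have h4 : 0 ≤ nP * aP := by positivity
    nlinarith only [hB1, hX, h4, mul_le_mul_of_nonneg_right hX h4]
  have h4 : 0.9 * (A * nP) * aP ≤ 4 * L * D + 16 * L ^ 2 * D * nP / nQ ^ 2 + 17.6 * (A * nP) * aQ := by
    have h5 : 2 * nP * D0M ≤ 2 * nP * (8 * L ^ 2 * D / nQ ^ 2 + 8.8 * A * aQ) :=
      mul_le_mul_of_nonneg_left h2 (by positivity)
    have h6 : 2 * nP * (8 * L ^ 2 * D / nQ ^ 2 + 8.8 * A * aQ)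
        = 16 * L ^ 2 * D * nP / nQ ^ 2 + 17.6 * (A * nP) * aQ := by ring
    nlinarith only [h3, h5, h6]
  -- the two error terms
  have hAp : m ≤ A * (16 * p * (1 + L)) := by
    rwa [div_le_iff₀ (by positivity)] at hA
  have hnP' : p ≤ nP * (4 * L) := by rwa [div_le_iff₀ (by positivity)] at hnP
  have hnQ' : q ≤ nQ * (4 * L) := by rwa [div_le_iff₀ (by positivity)] at hnQ
  have hDA : D ≤ r * (A * (16 * p * (1 + L))) := hD.trans (mul_le_mul_of_nonneg_left hAp hr)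
  have e1 : 4 * L * D ≤ (A * nP) * (256 * L ^ 2 * (1 + L) * r) := by
    have h5 : 4 * L * D ≤ 4 * L * (r * (A * (16 * p * (1 + L)))) :=
      mul_le_mul_of_nonneg_left hDA (by positivity)
    have h6 : 4 * L * (r * (A * (16 * p * (1 + L)))) = (64 * L * r * A * (1 + L)) * p := by ring
    have h7 : (64 * L * r * A * (1 + L)) * p ≤ (64 * L * r * A * (1 + L)) * (nP * (4 * L)) :=
      mul_le_mul_of_nonneg_left hnP' (by positivity)
    have h8 : (64 * L * r * A * (1 + L)) * (nP * (4 * L))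
        = (A * nP) * (256 * L ^ 2 * (1 + L) * r) := by ring
    linarith only [h5, h7]
  have e2 : 16 * L ^ 2 * D * nP / nQ ^ 2 ≤ (A * nP) * (16384 * L ^ 4 * (1 + L) * r) := by
    rw [div_le_iff₀ (by positivity)]
    have h5 : p ≤ 4 * (nQ * (4 * L)) ^ 2 := by
      have : q ^ 2 ≤ (nQ * (4 * L)) ^ 2 := pow_le_pow_left₀ hq0.le hnQ' 2
      linarith only [hq, this]
    have h6 : 16 * L ^ 2 * nP * D ≤ 16 * L ^ 2 * nP * (r * (A * (16 * p * (1 + L)))) :=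
      mul_le_mul_of_nonneg_left hDA (by positivity)
    have h7 : 16 * L ^ 2 * nP * (r * (A * (16 * p * (1 + L))))
        = (256 * L ^ 2 * nP * r * A * (1 + L)) * p := by ring
    have h8 : (256 * L ^ 2 * nP * r * A * (1 + L)) * p
        ≤ (256 * L ^ 2 * nP * r * A * (1 + L)) * (4 * (nQ * (4 * L)) ^ 2) :=
      mul_le_mul_of_nonneg_left h5 (by positivity)
    have h9 : (256 * L ^ 2 * nP * r * A * (1 + L)) * (4 * (nQ * (4 * L)) ^ 2)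
        = (A * nP) * (16384 * L ^ 4 * (1 + L) * r) * nQ ^ 2 := by ring
    linarith only [h6, h8]
  have hAn : 0 < A * nP := by positivity
  have h5 : (A * nP) * aP ≤ (A * nP) * ((256 * L ^ 2 * (1 + L) * r) / 0.9
      + (16384 * L ^ 4 * (1 + L) * r) / 0.9 + 20 * aQ) := by
    have h6 : 0 ≤ A * nP * aQ := by positivity
    have h7 : (A * nP) * ((256 * L ^ 2 * (1 + L) * r) / 0.9
      + (16384 * L ^ 4 * (1 + L) * r) / 0.9 + 20 * aQ)
      = ((A * nP) * (256 * L ^ 2 * (1 + L) * r) + (A * nP) * (16384 * L ^ 4 * (1 + L) * r)) / 0.9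
        + 20 * (A * nP * aQ) := by ring
    rw [h7]
    have h8 : (A * nP) * aP ≤ ((A * nP) * (256 * L ^ 2 * (1 + L) * r)
        + (A * nP) * (16384 * L ^ 4 * (1 + L) * r) + 17.6 * (A * nP) * aQ) / 0.9 := by
      rw [le_div_iff₀ (by norm_num)]
      linarith only [h4, e1, e2]
    refine h8.trans ?_
    rw [add_div]
    have h9 : 17.6 * (A * nP) * aQ / 0.9 ≤ 20 * (A * nP * aQ) := by
      rw [div_le_iff₀ (by norm_num)]
      nlinarith only [h6]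
    linarith only [h9]
  have h6 := le_of_mul_le_mul_left h5 hAn
  have h7 : L ^ 2 ≤ (1 + L) ^ 5 := by
    have h8 : L ^ 2 ≤ (1 + L) ^ 2 := pow_le_pow_left₀ hL0.le (by linarith only) 2
    exact h8.trans (pow_le_pow_right₀ (by linarith only [hL]) (by norm_num))
  have h8 : L ^ 4 ≤ (1 + L) ^ 5 := by
    have h8 : L ^ 4 ≤ (1 + L) ^ 4 := pow_le_pow_left₀ hL0.le (by linarith only) 4
    exact h8.trans (pow_le_pow_right₀ (by linarith only [hL]) (by norm_num))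
  have hs : 0 ≤ (1 + L) * r := by positivity
  have k1 : 256 * L ^ 2 * (1 + L) * r ≤ 256 * ((1 + L) ^ 6 * r) := by
    have := mul_le_mul_of_nonneg_right h7 hs
    nlinarith only [this]
  have k2 : 16384 * L ^ 4 * (1 + L) * r ≤ 16384 * ((1 + L) ^ 6 * r) := by
    have := mul_le_mul_of_nonneg_right h8 hs
    nlinarith only [this]
  have k0 : 0 ≤ (1 + L) ^ 6 * r := by positivity
  have k3 : (256 * L ^ 2 * (1 + L) * r) / 0.9 + (16384 * L ^ 4 * (1 + L) * r) / 0.9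
      ≤ 20000 * ((1 + L) ^ 6 * r) := by
    rw [← add_div, div_le_iff₀ (by norm_num)]
    linarith only [k1, k2, k0]
  linarith only [h6, k3]

theorem step : ∃ C : ℕ, ∃ E : ℝ, 0 ≤ E ∧ ∃ m0 : ℕ, ∀ (m : ℕ) [NeZero m], m0 ≤ m →
    ∀ ρ : ℝ, Rho C m ρ → ∀ η : ℤ, Hyp2 ρ m η → ∀ P : ℕ, bb m < P → P ≤ yy m →
      aa ρ m η P ≤ 20 * aa ρ m η (Nat.sqrt P) + E * (1 + Real.log m) ^ 6 * ρ ^ (1 / 3 : ℝ) := by
  obtain ⟨C1, m1, hXr⟩ := Xr_card
  obtain ⟨C2, m2, hbase⟩ := base_scale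
  obtain ⟨m3, hcop⟩ := cop_big
  obtain ⟨m4, hpq⟩ := pq_card
  obtain ⟨m5, hgrow⟩ := grow 4 0 (51 / 100) (by norm_num)
  refine ⟨max C1 C2, 20000, by norm_num, m1 + m2 + m3 + m4 + m5 + 8, ?_⟩
  intro m _ hm ρ hρ η hη P hP1 hP2
  have hm8 : 8 ≤ m := by omega
  have hm3 : 3 ≤ m := by omega
  have hm0 : (0 : ℝ) < m := by exact_mod_cast (by omega : 0 < m)
  have hL : 2 ≤ Real.log m := by
    rw [Real.le_log_iff_exp_le hm0]
    have h1 : Real.exp 2 ≤ 8 := by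
      have h2 : Real.exp 2 = Real.exp 1 * Real.exp 1 := by rw [← Real.exp_add]; norm_num
      have h3 := Real.exp_one_lt_d9
      have h4 := Real.exp_pos 1
      rw [h2]
      nlinarith only [h3, h4]
    have h2 : (8 : ℝ) ≤ m := by exact_mod_cast hm8
    linarith only [h1, h2]
  have hL0 : 0 < Real.log m := by linarith
  have hX := hXr m (by omega) ρ (Rho_mono (le_max_left _ _) hm3 hρ)
  have hB := hbase m (by omega) ρ (Rho_mono (le_max_right _ _) hm3 hρ) η hη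
  have hρ0 : 0 < ρ := hρ.1
  -- sizes
  have hPpos : 0 < P := by omega
  have hPr : (0 : ℝ) < P := by exact_mod_cast hPpos
  have hPL : Real.log m ^ 800 ≤ (P : ℝ) := by
    have h1 : ⌊Real.log m ^ 800⌋₊ < P := hP1
    exact ((Nat.floor_lt (by positivity)).mp h1).le
  have hPy : (P : ℝ) ≤ (m : ℝ) ^ (49 / 100 : ℝ) := by
    have h1 : (yy m : ℝ) ≤ (m : ℝ) ^ (49 / 100 : ℝ) := Nat.floor_le (by positivity)
    have h2 : (P : ℝ) ≤ (yy m : ℝ) := by exact_mod_cast hP2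
    linarith only [h1, h2]
  have hm1 : (1 : ℝ) ≤ m := by exact_mod_cast (by omega : 1 ≤ m)
  have hPm : P ≤ m := by
    have h1 : (m : ℝ) ^ (49 / 100 : ℝ) ≤ (m : ℝ) ^ (1 : ℝ) :=
      Real.rpow_le_rpow_of_exponent_le hm1 (by norm_num)
    rw [Real.rpow_one] at h1
    exact_mod_cast hPy.trans h1
  have hm51 : (4 : ℝ) ≤ (m : ℝ) ^ (51 / 100 : ℝ) := by
    have := hgrow m (by omega)
    simpa using this
  have hsplit : (m : ℝ) ^ (51 / 100 : ℝ) * (m : ℝ) ^ (49 / 100 : ℝ) = m := by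
    rw [← Real.rpow_add hm0]
    norm_num
  obtain ⟨Q, hQ⟩ : ∃ Q, Q = Nat.sqrt P := ⟨_, rfl⟩
  obtain ⟨M, hM⟩ : ∃ M, M = m / (2 * P) := ⟨_, rfl⟩
  have hQ1 : Q * Q ≤ P := by rw [hQ]; exact Nat.sqrt_le P
  have hQ2 : P < (Q + 1) * (Q + 1) := by rw [hQ]; exact Nat.lt_succ_sqrt P
  have hM1 : 2 * P * M ≤ m := by rw [hM]; exact Nat.mul_div_le m (2 * P)
  have hM2 : 2 * Q ^ 2 * M ≤ m := by
    refine le_trans ?_ hM1
    have : Q ^ 2 ≤ P := by rw [pow_two]; exact hQ1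
    exact Nat.mul_le_mul_right _ (Nat.mul_le_mul_left _ this)
  have hM3 : (m : ℝ) / (4 * P) ≤ M := by
    have h1 : m < 2 * P * (M + 1) := by
      rw [hM]
      have := Nat.lt_mul_div_succ m (show 0 < 2 * P by omega)
      exact this
    have h2 : (m : ℝ) < 2 * P * (M + 1) := by exact_mod_cast h1
    have h3 : (4 : ℝ) * P ≤ m := by
      calc (4 : ℝ) * P ≤ (m : ℝ) ^ (51 / 100 : ℝ) * (m : ℝ) ^ (49 / 100 : ℝ) :=
            mul_le_mul hm51 hPy hPr.le (by positivity)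
        _ = m := hsplit
    have h4 : (1 : ℝ) ≤ M := by
      have h5 : 1 ≤ M := by
        by_contra h6
        have h7 : M = 0 := by omega
        rw [h7] at h1
        have h8 : 4 * P ≤ m := by exact_mod_cast h3
        omega
      exact_mod_cast h5
    rw [div_le_iff₀ (by positivity)]
    nlinarith only [h2, h3]
  have hM4 : (m : ℝ) ^ (51 / 100 : ℝ) / 4 ≤ M := by
    refine le_trans ?_ hM3
    rw [div_le_div_iff₀ (by norm_num) (by positivity)]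
    have h1 : (m : ℝ) ^ (51 / 100 : ℝ) * P ≤ m := by
      calc (m : ℝ) ^ (51 / 100 : ℝ) * P ≤ (m : ℝ) ^ (51 / 100 : ℝ) * (m : ℝ) ^ (49 / 100 : ℝ) :=
            mul_le_mul_of_nonneg_left hPy (by positivity)
        _ = m := hsplit
    linarith only [h1]
  obtain ⟨hc1, hc2⟩ := hcop m (by omega) M hM4
  have hKK : 0 ≤ KK m := by
    unfold KK
    positivity
  have hX2 : ((Xr ρ m).card : ℝ) * KK m ≤ ((cop m M).card : ℝ) / 10 := by
    have h1 : ((Xr ρ m).card : ℝ) * KK m ≤ (m : ℝ) ^ (1 / 200 : ℝ) * KK m :=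
      mul_le_mul_of_nonneg_right hX hKK
    linarith
  have hA : (m : ℝ) / (16 * P * (1 + Real.log m)) ≤ ((cop m M).card : ℝ) := by
    refine le_trans ?_ hc1
    rw [le_div_iff₀ (by positivity)]
    have h1 : (m : ℝ) / (16 * P * (1 + Real.log m)) * (4 + 4 * Real.log m) = m / (4 * P) := by
      field_simp
      ring
    rw [h1]
    exact hM3
  -- Q large
  have hLQ : Real.log m ^ 3 ≤ (Q : ℝ) := by
    by_contra h1
    rw [not_le] at h1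
    have h2 : (P : ℝ) < (Q + 1) * (Q + 1) := by exact_mod_cast hQ2
    have h3 : (1 : ℝ) ≤ Real.log m ^ 3 := one_le_pow₀ (by linarith only [hL])
    have h4 : ((Q : ℝ) + 1) * (Q + 1) ≤ (2 * Real.log m ^ 3) * (2 * Real.log m ^ 3) := by
      have h5 : (Q : ℝ) + 1 ≤ 2 * Real.log m ^ 3 := by linarith only [h1, h3]
      have h6 : (0 : ℝ) ≤ (Q : ℝ) + 1 := by positivity
      exact mul_le_mul h5 h5 h6 (by positivity)
    have h5 : (2 * Real.log m ^ 3) * (2 * Real.log m ^ 3) ≤ Real.log m ^ 8 := by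
      have h6 : Real.log m ^ 8 = Real.log m ^ 2 * Real.log m ^ 6 := by ring
      have h7 : (4 : ℝ) ≤ Real.log m ^ 2 := by nlinarith only [hL]
      rw [h6]
      have h8 : (0 : ℝ) ≤ Real.log m ^ 6 := by positivity
      nlinarith only [h7]
    have h6 : Real.log m ^ 8 ≤ Real.log m ^ 800 :=
      pow_le_pow_right₀ (by linarith only [hL]) (by norm_num)
    linarith only [hPL, h2, h4, h5, h6]
  have hQpos : (0 : ℝ) < Q := lt_of_lt_of_le (by positivity) hLQ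
  have hQn : 0 < Q := by exact_mod_cast hQpos
  have hLP : Real.log m ^ 3 ≤ (P : ℝ) :=
    (pow_le_pow_right₀ (by linarith only [hL]) (by norm_num)).trans hPL
  have hQP : Q ≤ P := by
    calc Q = Q * 1 := (mul_one Q).symm
      _ ≤ Q * Q := Nat.mul_le_mul_left _ hQn
      _ ≤ P := hQ1
  have hn1 := hpq m (by omega) P hLP hPm
  have hn2 := hpq m (by omega) Q hLQ (hQP.trans hPm)
  have hnP0 : (0 : ℝ) < ((pq m P).card : ℝ) := lt_of_lt_of_le (by positivity) hn1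
  have hnQ0 : (0 : ℝ) < ((pq m Q).card : ℝ) := lt_of_lt_of_le (by positivity) hn2
  have hsP : ∑ p ∈ pq m P, Ww ρ m η p = ((pq m P).card : ℝ) * aa ρ m η P := by
    unfold aa
    field_simp
  have hsQ : ∑ p ∈ pq m Q, Ww ρ m η p = ((pq m Q).card : ℝ) * aa ρ m η Q := by
    unfold aa
    field_simp
  have hWnn : ∀ T : ℕ, 0 ≤ aa ρ m η T := by
    intro T
    unfold aa
    refine div_nonneg (sum_nonneg fun p _ => ?_) (Nat.cast_nonneg _)
    unfold Ww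
    exact sum_nonneg fun χ _ => by positivity
  have hA1 := stepA m hm3 ρ η Q M hM2
  have hB1 := stepB m hm3 ρ η P M hM1
  rw [hsQ] at hA1
  rw [hsP] at hB1
  have hq4 : (P : ℝ) ≤ 4 * (Q : ℝ) ^ 2 := by
    have h2 : (P : ℝ) < (Q + 1) * (Q + 1) := by exact_mod_cast hQ2
    have h3 : (1 : ℝ) ≤ Q := by exact_mod_cast hQn
    nlinarith only [h2, h3]
  rw [← hQ]
  exact hstep_num hL hPr hm0 hq4 hQpos (hWnn P) (hWnn Q) (by positivity) hA hX2 hB hn1 hn2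
    hA1 hB1

end Pool.Agent.H78.PH

end

section

/-!
# LQ / PG stage 2, HRec: the averages `aa` are small for all `P ≤ m^(49/100)`

`P ≤ bb m`: every `Ww p ≤ ρ^(1/2) ∑ ‖cc‖² ≤ ρ^(1/2)` (`mem_Xr`, `weight_one`), so `aa ≤ ρ^(1/2)` (also if `pq` is empty: `0/0 = 0`).
Claim by strong induction: `aa(P) ≤ ρ^(1/2) + (1 + log P)^5 * G` for `1 ≤ P ≤ yy m`, with `G = 20 ρ^(1/2) + E (1+L)^6 ρ^(1/3)`: for
`P > bb m`: `aa(P) ≤ 20 (ρ^(1/2) + (1 + (log P)/2)^5 G) + E (1+L)^6 ρ^(1/3)`, and `20 (1 + x/2)^5 + 1 ≤ (1 + x)^5` for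
`x = log P ≥ 100` (`log √P ≤ (log P)/2`; for large `m`, `log bb m ≥ 100`).
Hence `aa(P) ≤ ρ^(1/4)` (`small`, `c = 1/12`).
`t5'`: `a n = Ww n` if `n ∈ pq m (yy m)`, else `0`: `∑_{n ≤ P} a n = #pq aa(P) ≤ ρ^(1/4) P`; `psum`:
`∑_{p ∈ PY} Ww p/p ≤ ρ^(1/4) (1 + log yy) ≤ ρ^(1/5)` (`small`), and the left side is `∑_{Xr} ‖cc‖² VV χ` (exchange of sums;
`‖1 + χ p‖ = ‖χ p + 1‖`).
-/

set_option autoImplicit false

namespace Pool.Agent.H78.PH

open Finset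
open Pool.Agent.H34PG (lam lam_val lam_mul lam_prime)
open Pool.Agent.H11.LQ Pool.Agent.H78.PG

private theorem hrec_log {m : ℕ} (hm : 27 ≤ m) : (3 : ℝ) ≤ Real.log m := by
  have h1 : (1 : ℝ) ≤ Real.log 3 := by
    rw [Real.le_log_iff_exp_le (by norm_num)]
    linarith [Real.exp_one_lt_d9]
  have h2 : Real.log (27 : ℝ) = 3 * Real.log 3 := by
    rw [show (27 : ℝ) = 3 ^ 3 by norm_num, Real.log_pow]
    norm_num
  have h3 : Real.log (27 : ℝ) ≤ Real.log m :=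
    Real.log_le_log (by norm_num) (by exact_mod_cast hm)
  linarith

private theorem hrec_rho {C m : ℕ} {ρ : ℝ} (hm : 27 ≤ m) (h : Rho C m ρ) : ρ ≤ 1 := by
  obtain ⟨h0, -, h2⟩ := h
  have h3 := hrec_log hm
  have h4 : (1 : ℝ) ≤ Real.log m ^ C := one_le_pow₀ (by linarith)
  calc ρ = ρ * 1 := (mul_one ρ).symm
    _ ≤ ρ * Real.log m ^ C := mul_le_mul_of_nonneg_left h4 h0.le
    _ ≤ 1 := h2

private theorem hrec_yy {m : ℕ} (hm : 27 ≤ m) : yy m ≤ m := by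
  have h1 : (1 : ℝ) ≤ m := by
    have : 1 ≤ m := by omega
    exact_mod_cast this
  unfold yy
  have h2 : (m : ℝ) ^ (49 / 100 : ℝ) ≤ m := by
    calc (m : ℝ) ^ (49 / 100 : ℝ) ≤ (m : ℝ) ^ (1 : ℝ) :=
          Real.rpow_le_rpow_of_exponent_le h1 (by norm_num)
      _ = m := Real.rpow_one _
  calc ⌊(m : ℝ) ^ (49 / 100 : ℝ)⌋₊ ≤ ⌊(m : ℝ)⌋₊ := Nat.floor_le_floor h2
    _ = m := Nat.floor_natCast m

private theorem hrec_logP {m P : ℕ} (hm : 27 ≤ m) (hP : P ≤ yy m) :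
    Real.log P ≤ Real.log m := by
  rcases Nat.eq_zero_or_pos P with h | h
  · subst h
    rw [Nat.cast_zero, Real.log_zero]
    linarith [hrec_log hm]
  · exact Real.log_le_log (by exact_mod_cast h) (by exact_mod_cast hP.trans (hrec_yy hm))

/-- the base of the recursion -/
private theorem hrec_base {m : ℕ} [NeZero m] (hm : 27 ≤ m) {ρ : ℝ} (h0 : 0 < ρ) {η : ℤ}
    (hη : η = 1 ∨ η = -1) {P : ℕ} (hP : P ≤ bb m) : aa ρ m η P ≤ ρ ^ (1 / 2 : ℝ) := by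
  classical
  have hw : ∀ p ∈ pq m P, Ww ρ m η p ≤ ρ ^ (1 / 2 : ℝ) := by
    intro p hp
    rw [mem_pq] at hp
    obtain ⟨h1, h2, h3⟩ := hp
    have h4 : Ww ρ m η p ≤ ∑ χ ∈ Xr ρ m, ‖cc m (FC m η) χ‖ ^ 2 * ρ ^ (1 / 2 : ℝ) := by
      unfold Ww
      refine Finset.sum_le_sum fun χ hχ => mul_le_mul_of_nonneg_left ?_ (by positivity)
      have h5 := mem_Xr.mp hχ p h2 (h1.trans hP) h3
      calc ‖χ (p : ZMod m) + 1‖ ^ 2 ≤ (ρ ^ (1 / 4 : ℝ)) ^ 2 :=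
            pow_le_pow_left₀ (norm_nonneg _) h5 2
        _ = ρ ^ (1 / 2 : ℝ) := by
            rw [← Real.rpow_natCast, ← Real.rpow_mul h0.le]
            norm_num
    rw [← Finset.sum_mul] at h4
    have h6 : ∑ χ ∈ Xr ρ m, ‖cc m (FC m η) χ‖ ^ 2 ≤ 1 := by
      rw [← weight_one m (by omega) η hη]
      exact Finset.sum_le_univ_sum_of_nonneg fun χ => by positivity
    have h7 := mul_le_mul_of_nonneg_right h6 (Real.rpow_nonneg h0.le (1 / 2 : ℝ))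
    linarith
  unfold aa
  rcases Nat.eq_zero_or_pos (pq m P).card with h | h
  · rw [h, Nat.cast_zero, div_zero]
    exact Real.rpow_nonneg h0.le _
  · rw [div_le_iff₀ (by exact_mod_cast h)]
    have h8 := Finset.sum_le_sum hw
    rw [Finset.sum_const, nsmul_eq_mul] at h8
    linarith

private theorem hrec_poly {x : ℝ} (hx : 100 ≤ x) : 20 * (1 + x / 2) ^ 5 + 1 ≤ (1 + x) ^ 5 := by
  have h1 : 1 + x / 2 ≤ 51 / 101 * (1 + x) := by linarith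
  have h2 : (1 + x / 2) ^ 5 ≤ (51 / 101 * (1 + x)) ^ 5 :=
    pow_le_pow_left₀ (by linarith) h1 5
  have h3 : (1 : ℝ) ≤ (1 + x) ^ 5 / 10 := by
    have h4 : (101 : ℝ) ^ 5 ≤ (1 + x) ^ 5 := pow_le_pow_left₀ (by norm_num) (by linarith) 5
    norm_num at h4
    linarith
  rw [mul_pow] at h2
  have h5 : (20 : ℝ) * (51 / 101) ^ 5 ≤ 9 / 10 := by norm_num
  have h6 : (0 : ℝ) ≤ (1 + x) ^ 5 := by positivity
  have h7 := mul_le_mul_of_nonneg_right h5 h6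
  nlinarith

private theorem hrec_ind {m : ℕ} [NeZero m] (hm : 27 ≤ m) {ρ E : ℝ} (h0 : 0 < ρ) (hE : 0 ≤ E)
    {η : ℤ} (hη : η = 1 ∨ η = -1)
    (hs : ∀ P : ℕ, bb m < P → P ≤ yy m → aa ρ m η P ≤ 20 * aa ρ m η (Nat.sqrt P) +
      E * (1 + Real.log m) ^ 6 * ρ ^ (1 / 3 : ℝ)) (P : ℕ) : P ≤ yy m →
    aa ρ m η P ≤ ρ ^ (1 / 2 : ℝ) + (1 + Real.log P) ^ 5 *
      (20 * ρ ^ (1 / 2 : ℝ) + E * (1 + Real.log m) ^ 6 * ρ ^ (1 / 3 : ℝ)) := by
  have hL := hrec_log hm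
  have hr : 0 ≤ ρ ^ (1 / 2 : ℝ) := Real.rpow_nonneg h0.le _
  obtain ⟨G, hG⟩ : ∃ G, G = 20 * ρ ^ (1 / 2 : ℝ) + E * (1 + Real.log m) ^ 6 * ρ ^ (1 / 3 : ℝ) :=
    ⟨_, rfl⟩
  have hG0 : 0 ≤ G := by
    rw [hG]
    have h1 : 0 ≤ ρ ^ (1 / 3 : ℝ) := Real.rpow_nonneg h0.le _
    positivity
  rw [← hG]
  induction P using Nat.strong_induction_on with
  | _ P ih =>
    intro hP
    have hlogn : ∀ Q : ℕ, 0 ≤ Real.log Q := fun Q => Real.log_natCast_nonneg Q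
    rcases Nat.lt_or_ge (bb m) P with h | h
    · have h1 : Real.log m ^ 800 < (P : ℝ) := by
        have h2 : Real.log m ^ 800 < (bb m : ℝ) + 1 := by
          unfold bb
          exact Nat.lt_floor_add_one _
        have h3 : ((bb m : ℕ) : ℝ) + 1 ≤ P := by exact_mod_cast h
        linarith
      have h4 : (1 : ℝ) ≤ Real.log (Real.log m) := by
        rw [Real.le_log_iff_exp_le (by linarith)]
        linarith [Real.exp_one_lt_d9]
      have h5 : (100 : ℝ) ≤ Real.log P := by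
        have h6 : Real.log (Real.log m ^ 800) ≤ Real.log P :=
          Real.log_le_log (by positivity) h1.le
        rw [Real.log_pow] at h6
        push_cast at h6
        linarith
      have hP1 : 1 < P := by
        by_contra hcon
        have h7 : (P : ℝ) ≤ 1 := by exact_mod_cast (by omega : P ≤ 1)
        have h8 := Real.log_nonpos (Nat.cast_nonneg P) h7
        linarith
      have hsq : Nat.sqrt P < P := Nat.sqrt_lt_self hP1
      have h9 := ih (Nat.sqrt P) hsq (hsq.le.trans hP)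
      have h10 := hs P h hP
      have h11 : Real.log (Nat.sqrt P : ℕ) ≤ Real.log P / 2 := by
        have hs0 : 0 < Nat.sqrt P := Nat.sqrt_pos.mpr (by omega)
        have h12 : ((Nat.sqrt P : ℕ) : ℝ) ^ 2 ≤ P := by
          exact_mod_cast (by rw [sq]; exact Nat.sqrt_le P : (Nat.sqrt P) ^ 2 ≤ P)
        have h13 := Real.log_le_log (by positivity) h12
        rw [Real.log_pow] at h13
        push_cast at h13
        linarith
      have h14 : (1 + Real.log (Nat.sqrt P : ℕ)) ^ 5 ≤ (1 + Real.log P / 2) ^ 5 :=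
        pow_le_pow_left₀ (by linarith [hlogn (Nat.sqrt P)]) (by linarith) 5
      have h15 := mul_le_mul_of_nonneg_right h14 hG0
      have h16 := mul_le_mul_of_nonneg_right (hrec_poly h5) hG0
      nlinarith
    · have h1 := hrec_base hm h0 hη h
      have h2 : 0 ≤ (1 + Real.log P) ^ 5 * G := by
        have := hlogn P
        positivity
      linarith

theorem aa_le : ∃ C : ℕ, ∃ m0 : ℕ, ∀ (m : ℕ) [NeZero m], m0 ≤ m → ∀ ρ : ℝ, Rho C m ρ →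
    ∀ η : ℤ, Hyp2 ρ m η → ∀ P : ℕ, P ≤ yy m → aa ρ m η P ≤ ρ ^ (1 / 4 : ℝ) := by
  obtain ⟨C1, E, hE, m1, h1⟩ := step
  obtain ⟨C2, m2, h2⟩ := small (21 + E) 11 (1 / 12) (by norm_num)
  refine ⟨max C1 C2, max 27 (max m1 m2), fun m _ hm ρ hρ η hH P hP => ?_⟩
  have hm27 : 27 ≤ m := (le_max_left _ _).trans hm
  have hm1 : m1 ≤ m := ((le_max_left _ _).trans (le_max_right _ _)).trans hm
  have hm2 : m2 ≤ m := ((le_max_right _ _).trans (le_max_right _ _)).trans hm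
  have hρ1 : Rho C1 m ρ := Rho_mono (le_max_left _ _) (by omega) hρ
  have hρ2 : Rho C2 m ρ := Rho_mono (le_max_right _ _) (by omega) hρ
  have h0 : 0 < ρ := hρ.1
  have hle := hrec_rho hm27 hρ
  have hL := hrec_log hm27
  have h3 := hrec_ind hm27 h0 hE hH.1 (fun P' => h1 m hm1 ρ hρ1 η hH P') P hP
  have h4 := h2 m hm2 ρ hρ2
  have h5 : ρ ^ (1 / 2 : ℝ) ≤ ρ ^ (1 / 3 : ℝ) :=
    Real.rpow_le_rpow_of_exponent_ge h0 hle (by norm_num)
  have hl0 : 0 ≤ Real.log P := Real.log_natCast_nonneg P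
  have h6 : (1 + Real.log P) ^ 5 ≤ (1 + Real.log m) ^ 5 :=
    pow_le_pow_left₀ (by linarith) (by linarith [hrec_logP hm27 hP]) 5
  obtain ⟨r, hr⟩ : ∃ r, r = ρ ^ (1 / 3 : ℝ) := ⟨_, rfl⟩
  have hr0 : 0 < r := by rw [hr]; exact Real.rpow_pos_of_pos h0 _
  obtain ⟨X, hX⟩ : ∃ X, X = 1 + Real.log m := ⟨_, rfl⟩
  have hX1 : 1 ≤ X := by rw [hX]; linarith
  rw [← hr] at h3 h5
  rw [← hX] at h3 h4 h6
  have h7 : 20 * ρ ^ (1 / 2 : ℝ) + E * X ^ 6 * r ≤ (20 + E) * X ^ 6 * r := by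
    have h8 : (1 : ℝ) ≤ X ^ 6 := one_le_pow₀ hX1
    have h9 : 20 * r ≤ 20 * (X ^ 6 * r) := by
      have := mul_le_mul_of_nonneg_right h8 hr0.le
      linarith
    nlinarith
  have h10 : (1 + Real.log P) ^ 5 * (20 * ρ ^ (1 / 2 : ℝ) + E * X ^ 6 * r) ≤
      X ^ 5 * ((20 + E) * X ^ 6 * r) := by
    refine mul_le_mul h6 h7 ?_ (by positivity)
    have : 0 ≤ ρ ^ (1 / 2 : ℝ) := Real.rpow_nonneg h0.le _
    positivity
  have h11 : aa ρ m η P ≤ (21 + E) * X ^ 11 * r := by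
    have h12 : (1 : ℝ) ≤ X ^ 11 := one_le_pow₀ hX1
    have h13 : r ≤ X ^ 11 * r := by
      have := mul_le_mul_of_nonneg_right h12 hr0.le
      linarith
    have h14 : X ^ 5 * ((20 + E) * X ^ 6 * r) = (20 + E) * (X ^ 11 * r) := by ring
    calc aa ρ m η P ≤ r + (20 + E) * (X ^ 11 * r) := by linarith
      _ ≤ X ^ 11 * r + (20 + E) * (X ^ 11 * r) := by linarith
      _ = (21 + E) * X ^ 11 * r := by ring
  have h15 : r = ρ ^ (1 / 12 : ℝ) * ρ ^ (1 / 4 : ℝ) := by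
    rw [hr, ← Real.rpow_add h0]
    norm_num
  have h16 : 0 ≤ ρ ^ (1 / 4 : ℝ) := Real.rpow_nonneg h0.le _
  calc aa ρ m η P ≤ (21 + E) * X ^ 11 * r := h11
    _ = ((21 + E) * X ^ 11 * ρ ^ (1 / 12 : ℝ)) * ρ ^ (1 / 4 : ℝ) := by rw [h15]; ring
    _ ≤ 1 * ρ ^ (1 / 4 : ℝ) := mul_le_mul_of_nonneg_right h4 h16
    _ = ρ ^ (1 / 4 : ℝ) := one_mul _

theorem t5' : ∃ C : ℕ, ∃ m0 : ℕ, ∀ (m : ℕ) [NeZero m], m0 ≤ m → ∀ ρ : ℝ, Rho C m ρ →
    ∀ η : ℤ, Hyp2 ρ m η →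
      ∑ χ ∈ Xr ρ m, ‖cc m (FC m η) χ‖ ^ 2 * VV m χ ≤ ρ ^ (1 / 5 : ℝ) := by
  classical
  obtain ⟨C1, m1, h1⟩ := aa_le
  obtain ⟨C2, m2, h2⟩ := small 1 1 (1 / 20) (by norm_num)
  refine ⟨max C1 C2, max 27 (max m1 m2), fun m _ hm ρ hρ η hH => ?_⟩
  have hm27 : 27 ≤ m := (le_max_left _ _).trans hm
  have hm1 : m1 ≤ m := ((le_max_left _ _).trans (le_max_right _ _)).trans hm
  have hm2 : m2 ≤ m := ((le_max_right _ _).trans (le_max_right _ _)).trans hm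
  have hρ1 : Rho C1 m ρ := Rho_mono (le_max_left _ _) (by omega) hρ
  have hρ2 : Rho C2 m ρ := Rho_mono (le_max_right _ _) (by omega) hρ
  have h0 : 0 < ρ := hρ.1
  have hL := hrec_log hm27
  have hθ : 0 ≤ ρ ^ (1 / 4 : ℝ) := Real.rpow_nonneg h0.le _
  -- partial summation
  have h3 := psum (fun n => if n.Prime ∧ ¬ n ∣ m then Ww ρ m η n else 0) (ρ ^ (1 / 4 : ℝ)) hθ
    (yy m) (by
      intro M hM1 hM
      have e1 : ∑ n ∈ Icc 1 M, (if n.Prime ∧ ¬ n ∣ m then Ww ρ m η n else 0) =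
          ∑ p ∈ pq m M, Ww ρ m η p := by
        rw [← Finset.sum_filter]
        refine Finset.sum_congr ?_ fun _ _ => rfl
        ext p
        rw [mem_filter, mem_Icc, mem_pq]
        constructor
        · rintro ⟨⟨-, h4⟩, h5⟩
          exact ⟨h4, h5⟩
        · rintro ⟨h4, h5⟩
          exact ⟨⟨h5.1.one_lt.le, h4⟩, h5⟩
      rw [e1]
      have h4 := h1 m hm1 ρ hρ1 η hH M hM
      have hcard : ((pq m M).card : ℝ) ≤ M := by
        have h5 : pq m M ⊆ Icc 1 M := by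
          intro p hp
          rw [mem_pq] at hp
          exact mem_Icc.mpr ⟨hp.2.1.one_lt.le, hp.1⟩
        have h6 := Finset.card_le_card h5
        rw [Nat.card_Icc] at h6
        exact_mod_cast (by omega : (pq m M).card ≤ M)
      rcases Nat.eq_zero_or_pos (pq m M).card with h | h
      · rw [Finset.card_eq_zero.mp h, Finset.sum_empty]
        positivity
      · unfold aa at h4
        rw [div_le_iff₀ (by exact_mod_cast h)] at h4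
        exact h4.trans (mul_le_mul_of_nonneg_left hcard hθ))
  -- exchange of the sums
  have h4 : ∑ χ ∈ Xr ρ m, ‖cc m (FC m η) χ‖ ^ 2 * VV m χ =
      ∑ n ∈ Icc 1 (yy m), (if n.Prime ∧ ¬ n ∣ m then Ww ρ m η n else 0) / (n : ℝ) := by
    have e1 : ∀ n ∈ Icc 1 (yy m), (if n.Prime ∧ ¬ n ∣ m then Ww ρ m η n else 0) / (n : ℝ) =
        if n.Prime ∧ ¬ n ∣ m then Ww ρ m η n / (n : ℝ) else 0 := by
      intro n _
      split_ifs
      · rfl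
      · rw [zero_div]
    rw [Finset.sum_congr rfl e1, ← Finset.sum_filter]
    have e2 : (Icc 1 (yy m)).filter (fun n => n.Prime ∧ ¬ n ∣ m) = PY m := by
      ext p
      rw [mem_filter, mem_Icc, mem_PY]
      constructor
      · rintro ⟨⟨-, h4⟩, h5⟩
        exact ⟨h4, h5⟩
      · rintro ⟨h4, h5⟩
        exact ⟨⟨h5.1.one_lt.le, h4⟩, h5⟩
    rw [e2]
    unfold VV Ww
    have e3 : ∀ p ∈ PY m, (∑ χ ∈ Xr ρ m, ‖cc m (FC m η) χ‖ ^ 2 * ‖χ (p : ZMod m) + 1‖ ^ 2) / (p : ℝ)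
        = ∑ χ ∈ Xr ρ m, ‖cc m (FC m η) χ‖ ^ 2 * (‖1 + χ (p : ZMod m)‖ ^ 2 / (p : ℝ)) := by
      intro p _
      rw [Finset.sum_div]
      refine Finset.sum_congr rfl fun χ _ => ?_
      rw [add_comm (1 : ℂ), mul_div_assoc]
    rw [Finset.sum_congr rfl e3, Finset.sum_comm]
    refine Finset.sum_congr rfl fun χ _ => ?_
    rw [Finset.mul_sum]
  rw [h4]
  refine h3.trans ?_
  have h5 := h2 m hm2 ρ hρ2
  rw [one_mul, pow_one] at h5
  have h6 : 1 + Real.log (yy m : ℕ) ≤ 1 + Real.log m := by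
    linarith [hrec_logP hm27 (le_refl (yy m))]
  have h7 : ρ ^ (1 / 4 : ℝ) = ρ ^ (1 / 20 : ℝ) * ρ ^ (1 / 5 : ℝ) := by
    rw [← Real.rpow_add h0]
    norm_num
  have h8 : 0 ≤ ρ ^ (1 / 5 : ℝ) := Real.rpow_nonneg h0.le _
  calc ρ ^ (1 / 4 : ℝ) * (1 + Real.log (yy m : ℕ)) ≤ ρ ^ (1 / 4 : ℝ) * (1 + Real.log m) :=
        mul_le_mul_of_nonneg_left h6 hθ
    _ = ((1 + Real.log m) * ρ ^ (1 / 20 : ℝ)) * ρ ^ (1 / 5 : ℝ) := by rw [h7]; ring
    _ ≤ 1 * ρ ^ (1 / 5 : ℝ) := mul_le_mul_of_nonneg_right h5 h8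
    _ = ρ ^ (1 / 5 : ℝ) := one_mul _

end Pool.Agent.H78.PH

end
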