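import Pool.Agent.H94.PG.M02
import Pool.Agent.H94.PG.M03
import Pool.Agent.H94.PG.M04

/-! The parts of this file: H11.LQ.Sift, H11.LQ.Fin2, H11.LQ.Fin3, H78.PD.Ana3, H78.PD.Odd3, H78.PE.Cnt, H78.PE.Defs, H78.PE.SmallP, H78.PE.Cls. -/

section

/-!
# LQ module Sift: removing `a` with large `gcd (a, N)` or a large square divisor

`#{0 < a < N : gcd a N = g} ≤ N / g`, so at most `d(N) N ^ (1 - ε)` of the `a` have
`gcd a N > N ^ ε` (`Pool.Agent.H92.EH.div_bound`).  `#{0 < a < N : v² ∣ a} ≤ N / v²`, so at most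
`∑_(v > N ^ ε) N / v² ≤ 2 N ^ (1 - ε)` of the `a` are divisible by the square of some `v > N ^ ε`, and the
same for `N - a`.
-/

set_option autoImplicit false

namespace Pool.Agent.H11.LQ

open Finset

theorem sift_gcd (N : ℕ) (G : ℝ) (hG : 0 < G) :
    (((Finset.Ioo 0 N).filter (fun a => G < ((Nat.gcd a N : ℕ) : ℝ))).card : ℝ) ≤
      (N.divisors.card : ℝ) * (N / G) := by
  classical
  have hsub : (Finset.Ioo 0 N).filter (fun a => G < ((Nat.gcd a N : ℕ) : ℝ)) ⊆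
      (N.divisors.filter (fun g : ℕ => G < (g : ℝ))).biUnion
        (fun g : ℕ => (Finset.Ioc 0 N).filter (fun a => g ∣ a)) := by
    intro a ha
    rw [Finset.mem_filter, Finset.mem_Ioo] at ha
    obtain ⟨⟨h1, h2⟩, h3⟩ := ha
    rw [Finset.mem_biUnion]
    refine ⟨Nat.gcd a N, ?_, ?_⟩
    · rw [Finset.mem_filter, Nat.mem_divisors]
      exact ⟨⟨Nat.gcd_dvd_right a N, by omega⟩, h3⟩
    · rw [Finset.mem_filter, Finset.mem_Ioc]
      exact ⟨⟨h1, h2.le⟩, Nat.gcd_dvd_left a N⟩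
  have h1 : (((Finset.Ioo 0 N).filter (fun a => G < ((Nat.gcd a N : ℕ) : ℝ))).card : ℝ) ≤
      ∑ g ∈ N.divisors.filter (fun g : ℕ => G < (g : ℝ)), ((N / g : ℕ) : ℝ) := by
    have h := (Finset.card_le_card hsub).trans Finset.card_biUnion_le
    have h' : ∀ g ∈ N.divisors.filter (fun g : ℕ => G < (g : ℝ)),
        ((Finset.Ioc 0 N).filter (fun a => g ∣ a)).card = N / g := by
      intro g _
      exact Nat.Ioc_filter_dvd_card_eq_div N g
    rw [Finset.sum_congr rfl h'] at h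
    exact_mod_cast h
  refine h1.trans ?_
  calc ∑ g ∈ N.divisors.filter (fun g : ℕ => G < (g : ℝ)), ((N / g : ℕ) : ℝ)
      ≤ ∑ g ∈ N.divisors.filter (fun g : ℕ => G < (g : ℝ)), ((N : ℝ) / G) := by
        refine Finset.sum_le_sum fun g hg => ?_
        rw [Finset.mem_filter] at hg
        refine Nat.cast_div_le.trans ?_
        exact div_le_div_of_nonneg_left (Nat.cast_nonneg N) hG hg.2.le
    _ = ((N.divisors.filter (fun g : ℕ => G < (g : ℝ))).card : ℝ) * (N / G) := by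
        rw [Finset.sum_const, nsmul_eq_mul]
    _ ≤ (N.divisors.card : ℝ) * (N / G) := by
        refine mul_le_mul_of_nonneg_right ?_ (by positivity)
        exact_mod_cast Finset.card_filter_le _ _

theorem sift_sq (N : ℕ) (G : ℝ) (hG : 1 ≤ G) (T : Finset ℕ)
    (hT : ∀ a ∈ T, (0 < a ∧ a < N) ∧ ∃ v : ℕ, G < (v : ℝ) ∧ v ^ 2 ∣ a) :
    (T.card : ℝ) ≤ 2 * (N / G) := by
  classical
  set m : ℕ := ⌊G⌋₊ with hm
  have hG0 : 0 < G := by linarith
  have hm1 : 1 ≤ m := Nat.le_floor (by simpa using hG)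
  have hmG : G / 2 ≤ (m : ℝ) := by
    have h1 : G < (m : ℝ) + 1 := Nat.lt_floor_add_one G
    have h2 : (1 : ℝ) ≤ m := by exact_mod_cast hm1
    linarith
  have hsub : T ⊆ (Finset.Ioc m N).biUnion
      (fun v => (Finset.Ioc 0 N).filter (fun a => v ^ 2 ∣ a)) := by
    intro a ha
    obtain ⟨⟨h1, h2⟩, v, hv, hd⟩ := hT a ha
    rw [Finset.mem_biUnion]
    refine ⟨v, ?_, ?_⟩
    · rw [Finset.mem_Ioc]
      refine ⟨(Nat.floor_lt hG0.le).2 hv, ?_⟩
      have h3 : v ^ 2 ≤ a := Nat.le_of_dvd h1 hd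
      have h4 : v ≤ v ^ 2 := Nat.le_self_pow (by norm_num) v
      omega
    · rw [Finset.mem_filter, Finset.mem_Ioc]
      exact ⟨⟨h1, h2.le⟩, hd⟩
  have h1 : (T.card : ℝ) ≤ ∑ v ∈ Finset.Ioc m N, ((N / v ^ 2 : ℕ) : ℝ) := by
    have h := (Finset.card_le_card hsub).trans Finset.card_biUnion_le
    have h' : ∀ v ∈ Finset.Ioc m N,
        ((Finset.Ioc 0 N).filter (fun a => v ^ 2 ∣ a)).card = N / v ^ 2 := by
      intro v _
      exact Nat.Ioc_filter_dvd_card_eq_div N (v ^ 2)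
    rw [Finset.sum_congr rfl h'] at h
    exact_mod_cast h
  have h2 : ∑ v ∈ Finset.Ioc m N, ((N / v ^ 2 : ℕ) : ℝ) ≤
      (N : ℝ) * ∑ v ∈ Finset.Ioc m N, (((v : ℝ)) ^ 2)⁻¹ := by
    rw [Finset.mul_sum]
    refine Finset.sum_le_sum fun v _ => ?_
    refine Nat.cast_div_le.trans ?_
    rw [div_eq_mul_inv]
    push_cast
    exact le_rfl
  have h3 : ∑ v ∈ Finset.Ioc m N, (((v : ℝ)) ^ 2)⁻¹ ≤ 2 / G := by
    rcases le_or_gt m N with h | h
    · have h4 := sum_Ioc_inv_sq_le_sub (α := ℝ) (k := m) (n := N) (by omega) h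
      refine h4.trans ?_
      have h5 : (0 : ℝ) ≤ (N : ℝ)⁻¹ := by positivity
      have h6 : ((m : ℝ))⁻¹ ≤ (G / 2)⁻¹ := inv_anti₀ (by linarith) hmG
      have h7 : (G / 2)⁻¹ = 2 / G := by rw [inv_div]
      linarith
    · rw [Finset.Ioc_eq_empty_of_le h.le, Finset.sum_empty]
      positivity
  calc (T.card : ℝ) ≤ _ := h1
    _ ≤ _ := h2
    _ ≤ (N : ℝ) * (2 / G) := mul_le_mul_of_nonneg_left h3 (Nat.cast_nonneg N)
    _ = 2 * (N / G) := by ring

end Pool.Agent.H11.LQ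

end

section

/-!
# LQ stage 2, module Fin2: the final assembly with polylogarithmic loss

The hypotheses `Analytic2`, `Lift` are proved in `Pool.Agent.H78.PH.Analytic2` (helper78).
-/

set_option autoImplicit false

namespace Pool.Agent.H11.LQ

open Finset

/-- removing the `a` with `gcd (a, N) > G` or with a square divisor `v²`, `v > V`, of `a` or `N - a` -/
theorem sift_gen (N : ℕ) (T : Finset ℕ) (hT : ∀ a ∈ T, 0 < a ∧ a < N) (G V : ℝ) (hG : 0 < G)
    (hV : 1 ≤ V) : ∃ T' ⊆ T,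
    (T.card : ℝ) ≤ T'.card + (N.divisors.card : ℝ) * (N / G) + 4 * (N / V) ∧
    ∀ a ∈ T', ((Nat.gcd a N : ℕ) : ℝ) ≤ G ∧
      ∀ v : ℕ, (v ^ 2 ∣ a ∨ v ^ 2 ∣ N - a) → (v : ℝ) ≤ V := by
  classical
  set B1 := T.filter (fun a => G < ((Nat.gcd a N : ℕ) : ℝ)) with hB1
  set B2 := T.filter (fun a => ∃ v : ℕ, V < (v : ℝ) ∧ v ^ 2 ∣ a) with hB2
  set B3 := T.filter (fun a => ∃ v : ℕ, V < (v : ℝ) ∧ v ^ 2 ∣ N - a) with hB3
  have c1 : (B1.card : ℝ) ≤ (N.divisors.card : ℝ) * (N / G) := by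
    refine le_trans ?_ (sift_gcd N G hG)
    have : B1 ⊆ (Finset.Ioo 0 N).filter (fun a => G < ((Nat.gcd a N : ℕ) : ℝ)) := by
      intro a ha
      rw [hB1, Finset.mem_filter] at ha
      rw [Finset.mem_filter, Finset.mem_Ioo]
      exact ⟨hT a ha.1, ha.2⟩
    exact_mod_cast Finset.card_le_card this
  have c2 : (B2.card : ℝ) ≤ 2 * (N / V) := by
    refine sift_sq N V hV B2 fun a ha => ?_
    rw [hB2, Finset.mem_filter] at ha
    exact ⟨hT a ha.1, ha.2⟩
  have c3 : (B3.card : ℝ) ≤ 2 * (N / V) := by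
    have hinj : Set.InjOn (fun a => N - a) (B3 : Set ℕ) := by
      intro a ha b hb hab
      rw [Finset.mem_coe, hB3, Finset.mem_filter] at ha hb
      have h1 := hT a ha.1
      have h2 := hT b hb.1
      simp only at hab
      omega
    rw [← Finset.card_image_of_injOn hinj]
    refine sift_sq N V hV _ fun x hx => ?_
    rw [Finset.mem_image] at hx
    obtain ⟨a, ha, rfl⟩ := hx
    rw [hB3, Finset.mem_filter] at ha
    have h1 := hT a ha.1
    exact ⟨⟨by omega, by omega⟩, ha.2⟩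
  refine ⟨T \ (B1 ∪ B2 ∪ B3), Finset.sdiff_subset, ?_, ?_⟩
  · have hsub : B1 ∪ B2 ∪ B3 ⊆ T := by
      intro a ha
      rw [Finset.mem_union, Finset.mem_union] at ha
      rcases ha with (ha | ha) | ha
      · exact (Finset.mem_filter.1 ha).1
      · exact (Finset.mem_filter.1 ha).1
      · exact (Finset.mem_filter.1 ha).1
    have e1 : ((T \ (B1 ∪ B2 ∪ B3)).card : ℝ) = (T.card : ℝ) - ((B1 ∪ B2 ∪ B3).card : ℝ) := by
      rw [Finset.card_sdiff_of_subset hsub, Nat.cast_sub (Finset.card_le_card hsub)]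
    have e2 : ((B1 ∪ B2 ∪ B3).card : ℝ) ≤ B1.card + B2.card + B3.card := by
      have h1 := Finset.card_union_le (B1 ∪ B2) B3
      have h2 := Finset.card_union_le B1 B2
      have h3 : (B1 ∪ B2 ∪ B3).card ≤ B1.card + B2.card + B3.card := by omega
      exact_mod_cast h3
    rw [e1]
    linarith
  · intro a ha
    rw [Finset.mem_sdiff, Finset.mem_union, Finset.mem_union] at ha
    obtain ⟨haT, hnot⟩ := ha
    push Not at hnot
    obtain ⟨⟨n1, n2⟩, n3⟩ := hnot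
    refine ⟨?_, ?_⟩
    · by_contra h
      push Not at h
      exact n1 (Finset.mem_filter.2 ⟨haT, h⟩)
    · intro v hv
      by_contra h
      push Not at h
      rcases hv with hv | hv
      · exact n2 (Finset.mem_filter.2 ⟨haT, v, h, hv⟩)
      · exact n3 (Finset.mem_filter.2 ⟨haT, v, h, hv⟩)

end Pool.Agent.H11.LQ

end

section

/-!
# LQ stage 2, module Fin3: summands with few prime factors, the final form

`OmB` (helper78, `Pool.Agent.H78.PH.omB`): few integers up to `N` have many prime factors.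
-/

set_option autoImplicit false

namespace Pool.Agent.H11.LQ

open Finset ArithmeticFunction

/-- few integers have many prime factors -/
def OmB : Prop := ∃ A : ℝ, ∀ N : ℕ, 2 ≤ N → ∀ K : ℝ, 0 < K →
  ((((Finset.Icc 1 N).filter fun a => K < (2 : ℝ) ^ cardFactors a).card : ℕ) : ℝ) ≤
    A * N * (1 + Real.log N) ^ 2 / Real.sqrt K

/-- the conditions on `a` and `N - a` -/
structure Fine (N : ℕ) (K : ℝ) (a : ℕ) : Prop where
  com : ∀ p : ℕ, p.Prime → p ∣ a → p ∣ N → (p : ℝ) ≤ K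
  sq : ∀ v : ℕ, (v ^ 2 ∣ a ∨ v ^ 2 ∣ N - a) → (v : ℝ) ≤ K
  few : (2 : ℝ) ^ cardFactors a ≤ K
  few' : (2 : ℝ) ^ cardFactors (N - a) ≤ K

theorem two_pow_card_le {n : ℕ} (hn : n ≠ 0) : 2 ^ n.primeFactors.card ≤ n := by
  calc 2 ^ n.primeFactors.card = ∏ _p ∈ n.primeFactors, 2 := by rw [Finset.prod_const]
    _ ≤ ∏ p ∈ n.primeFactors, p :=
        Finset.prod_le_prod' fun p hp => (Nat.prime_of_mem_primeFactors hp).two_le
    _ ≤ n := Nat.le_of_dvd (Nat.pos_of_ne_zero hn) (Nat.prod_primeFactors_dvd n)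

theorem two_pow_cardFactors_le {n : ℕ} (hn : n ≠ 0) : 2 ^ cardFactors n ≤ n := by
  rw [cardFactors_apply]
  calc 2 ^ n.primeFactorsList.length ≤ n.primeFactorsList.prod := by
        refine List.pow_card_le_prod _ _ fun p hp => (Nat.prime_of_mem_primeFactorsList hp).two_le
    _ = n := Nat.prod_primeFactorsList hn

/-- `gcd (a, N)` is small for `a` as in `Fine` -/
theorem Fine.gcd_le {N : ℕ} {K : ℝ} {a : ℕ} (h : Fine N K a) (ha : 0 < a) (hK : 1 ≤ K) :
    ((Nat.gcd a N : ℕ) : ℝ) ≤ Real.exp (2 * Real.log K ^ 2) := by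
  have hg0 : Nat.gcd a N ≠ 0 := (Nat.gcd_pos_of_pos_left N ha).ne'
  obtain ⟨b, hb⟩ := Nat.gcd_dvd_left a N
  have hb0 : b ≠ 0 := by
    rintro rfl
    omega
  have h1 : cardFactors (Nat.gcd a N) ≤ cardFactors a := by
    have h2 := cardFactors_mul hg0 hb0
    rw [← hb] at h2
    omega
  have h2 : Nat.gcd a N ≤ ⌊K⌋₊ ^ cardFactors (Nat.gcd a N) := by
    rw [cardFactors_apply]
    calc Nat.gcd a N = (Nat.gcd a N).primeFactorsList.prod := (Nat.prod_primeFactorsList hg0).symm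
      _ ≤ _ := by
          refine List.prod_le_pow_card _ _ fun p hp => Nat.le_floor ?_
          have hp1 := Nat.prime_of_mem_primeFactorsList hp
          have hp2 := Nat.dvd_of_mem_primeFactorsList hp
          exact h.com p hp1 (hp2.trans (Nat.gcd_dvd_left _ _)) (hp2.trans (Nat.gcd_dvd_right _ _))
  have hK0 : 0 < K := by linarith
  have h3 : ((Nat.gcd a N : ℕ) : ℝ) ≤ K ^ cardFactors (Nat.gcd a N) := by
    calc ((Nat.gcd a N : ℕ) : ℝ) ≤ ((⌊K⌋₊ ^ cardFactors (Nat.gcd a N) : ℕ) : ℝ) := by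
          exact_mod_cast h2
      _ = (⌊K⌋₊ : ℝ) ^ cardFactors (Nat.gcd a N) := by push_cast; rfl
      _ ≤ _ := pow_le_pow_left₀ (by positivity) (Nat.floor_le hK0.le) _
  have h4 : K ^ cardFactors (Nat.gcd a N) ≤ K ^ cardFactors a := pow_le_pow_right₀ hK h1
  have h5 : (cardFactors a : ℝ) * Real.log 2 ≤ Real.log K := by
    rw [← Real.log_pow]
    exact Real.log_le_log (by positivity) h.few
  have h6 : 0 ≤ Real.log K := Real.log_nonneg hK
  have h7 : (1 : ℝ) / 2 ≤ Real.log 2 := by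
    have := Real.log_two_gt_d9
    linarith
  have h8 : (cardFactors a : ℝ) ≤ 2 * Real.log K := by
    have h9 : (0 : ℝ) ≤ cardFactors a := Nat.cast_nonneg _
    nlinarith
  refine (h3.trans h4).trans ?_
  have h9 : K ^ cardFactors a = Real.exp ((cardFactors a : ℝ) * Real.log K) := by
    rw [← Real.log_pow, Real.exp_log (by positivity)]
  rw [h9]
  refine Real.exp_le_exp.mpr ?_
  nlinarith

/-- everything is allowed for `K ≥ N` -/
theorem Fine.of_le {N : ℕ} {K : ℝ} {a : ℕ} (ha : 0 < a) (haN : a < N) (hK : (N : ℝ) ≤ K) :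
    Fine N K a where
  com := fun p _ _ hN => by
    have : p ≤ N := Nat.le_of_dvd (by omega) hN
    have : (p : ℝ) ≤ N := by exact_mod_cast this
    linarith
  sq := fun v hv => by
    have h2 : v ≤ N := by
      have h3 : v ^ 2 ≤ N := by
        rcases hv with hv | hv
        · exact (Nat.le_of_dvd ha hv).trans haN.le
        · exact (Nat.le_of_dvd (by omega) hv).trans (Nat.sub_le _ _)
      have h4 : v ≤ v ^ 2 := Nat.le_self_pow (by norm_num) v
      omega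
    have : (v : ℝ) ≤ N := by exact_mod_cast h2
    linarith
  few := by
    have h1 := two_pow_cardFactors_le (n := a) (by omega)
    have h2 : 2 ^ cardFactors a ≤ N := by omega
    have : (2 : ℝ) ^ cardFactors a ≤ N := by exact_mod_cast h2
    linarith
  few' := by
    have h1 := two_pow_cardFactors_le (n := N - a) (by omega)
    have h2 : 2 ^ cardFactors (N - a) ≤ N := by omega
    have : (2 : ℝ) ^ cardFactors (N - a) ≤ N := by exact_mod_cast h2
    linarith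

theorem Fine.mono {N : ℕ} {K K' : ℝ} {a : ℕ} (h : Fine N K a) (hK : K ≤ K') : Fine N K' a where
  com := fun p h1 h2 h3 => (h.com p h1 h2 h3).trans hK
  sq := fun v hv => (h.sq v hv).trans hK
  few := h.few.trans hK
  few' := h.few'.trans hK

/-- removing the `a` which are not fine -/
theorem sift3 (hO : OmB) : ∃ A : ℝ, 1 ≤ A ∧ ∀ N : ℕ, 3 ≤ N → ∀ T : Finset ℕ,
    (∀ a ∈ T, 0 < a ∧ a < N) → ∀ K : ℝ, 1 ≤ K → ∃ T' ⊆ T,
      (T.card : ℝ) ≤ T'.card + A * (N * Real.log N ^ 2 / Real.sqrt K) ∧ ∀ a ∈ T', Fine N K a := by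
  classical
  obtain ⟨A, hA⟩ := hO
  refine ⟨8 * |A| + 6, by have := abs_nonneg A; linarith, fun N hN T hT K hK => ?_⟩
  have hN1 : (1 : ℝ) ≤ N := by exact_mod_cast (by omega : 1 ≤ N)
  have hN0 : (0 : ℝ) < N := by linarith
  have hK0 : 0 < K := by linarith
  have hlog : 1 ≤ Real.log N := by
    rw [Real.le_log_iff_exp_le hN0]
    have h3 : (3 : ℝ) ≤ N := by exact_mod_cast (by omega : 3 ≤ N)
    have := Real.exp_one_lt_d9
    linarith
  have hsK : 1 ≤ Real.sqrt K := by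
    rw [Real.one_le_sqrt]
    exact hK
  have hsK2 : Real.sqrt K ≤ K := by
    have h1 := Real.mul_self_sqrt hK0.le
    nlinarith
  obtain ⟨Q, hQ⟩ : ∃ Q : ℝ, Q = N * Real.log N ^ 2 / Real.sqrt K := ⟨_, rfl⟩
  have hQ0 : 0 ≤ Q := by
    rw [hQ]
    positivity
  have hNK : (N : ℝ) * Real.log N / K ≤ Q := by
    rw [hQ]
    have h1 : (N : ℝ) * Real.log N ≤ N * Real.log N ^ 2 := by
      refine mul_le_mul_of_nonneg_left ?_ hN0.le
      nlinarith
    exact div_le_div₀ (by positivity) h1 (by positivity) hsK2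
  have hNK' : (N : ℝ) / K ≤ Q := by
    refine le_trans ?_ hNK
    refine div_le_div_of_nonneg_right ?_ hK0.le
    nlinarith
  set B1 := T.filter (fun a => ∃ p : ℕ, p.Prime ∧ p ∣ a ∧ p ∣ N ∧ K < (p : ℝ)) with hB1
  set B2 := T.filter (fun a => ∃ v : ℕ, K < (v : ℝ) ∧ v ^ 2 ∣ a) with hB2
  set B3 := T.filter (fun a => ∃ v : ℕ, K < (v : ℝ) ∧ v ^ 2 ∣ N - a) with hB3
  set B4 := T.filter (fun a => K < (2 : ℝ) ^ cardFactors a) with hB4
  set B5 := T.filter (fun a => K < (2 : ℝ) ^ cardFactors (N - a)) with hB5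
  have c1 : (B1.card : ℝ) ≤ 2 * Q := by
    have hsub : B1 ⊆ (N.primeFactors.filter (fun p : ℕ => K < (p : ℝ))).biUnion
        (fun p : ℕ => (Finset.Ioc 0 N).filter (fun a => p ∣ a)) := by
      intro a ha
      rw [hB1, Finset.mem_filter] at ha
      obtain ⟨h1, p, hp, hpa, hpN, hpK⟩ := ha
      have h2 := hT a h1
      rw [Finset.mem_biUnion]
      refine ⟨p, ?_, ?_⟩
      · rw [Finset.mem_filter, Nat.mem_primeFactors]
        exact ⟨⟨hp, hpN, by omega⟩, hpK⟩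
      · rw [Finset.mem_filter, Finset.mem_Ioc]
        exact ⟨⟨h2.1, h2.2.le⟩, hpa⟩
    have h1 : (B1.card : ℝ) ≤
        ∑ p ∈ N.primeFactors.filter (fun p : ℕ => K < (p : ℝ)), ((N / p : ℕ) : ℝ) := by
      have h := (Finset.card_le_card hsub).trans Finset.card_biUnion_le
      have h' : ∀ g ∈ N.primeFactors.filter (fun p : ℕ => K < (p : ℝ)),
          ((Finset.Ioc 0 N).filter (fun a => g ∣ a)).card = N / g := by
        intro g _
        exact Nat.Ioc_filter_dvd_card_eq_div N g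
      rw [Finset.sum_congr rfl h'] at h
      exact_mod_cast h
    have h2 : ∑ p ∈ N.primeFactors.filter (fun p : ℕ => K < (p : ℝ)), ((N / p : ℕ) : ℝ)
        ≤ (N.primeFactors.card : ℝ) * (N / K) := by
      calc _ ≤ ∑ p ∈ N.primeFactors.filter (fun p : ℕ => K < (p : ℝ)), ((N : ℝ) / K) := by
            refine Finset.sum_le_sum fun g hg => ?_
            rw [Finset.mem_filter] at hg
            refine Nat.cast_div_le.trans ?_
            exact div_le_div_of_nonneg_left (Nat.cast_nonneg N) hK0 hg.2.le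
        _ = ((N.primeFactors.filter (fun p : ℕ => K < (p : ℝ))).card : ℝ) * (N / K) := by
            rw [Finset.sum_const, nsmul_eq_mul]
        _ ≤ _ := by
            refine mul_le_mul_of_nonneg_right ?_ (by positivity)
            exact_mod_cast Finset.card_filter_le _ _
    have h3 : (N.primeFactors.card : ℝ) ≤ 2 * Real.log N := by
      have h4 := two_pow_card_le (n := N) (by omega)
      have h5 : (2 : ℝ) ^ N.primeFactors.card ≤ N := by exact_mod_cast h4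
      have h6 : (N.primeFactors.card : ℝ) * Real.log 2 ≤ Real.log N := by
        rw [← Real.log_pow]
        exact Real.log_le_log (by positivity) h5
      have h7 : (1 : ℝ) / 2 ≤ Real.log 2 := by
        have := Real.log_two_gt_d9
        linarith
      have h9 : (0 : ℝ) ≤ N.primeFactors.card := Nat.cast_nonneg _
      nlinarith
    calc (B1.card : ℝ) ≤ (N.primeFactors.card : ℝ) * (N / K) := h1.trans h2
      _ ≤ (2 * Real.log N) * (N / K) := mul_le_mul_of_nonneg_right h3 (by positivity)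
      _ = 2 * (N * Real.log N / K) := by ring
      _ ≤ 2 * Q := by linarith
  have c2 : (B2.card : ℝ) ≤ 2 * Q := by
    have : (B2.card : ℝ) ≤ 2 * (N / K) := by
      refine sift_sq N K hK B2 fun a ha => ?_
      rw [hB2, Finset.mem_filter] at ha
      exact ⟨hT a ha.1, ha.2⟩
    linarith
  have hinj : Set.InjOn (fun a => N - a) (T : Set ℕ) := by
    intro a ha b hb hab
    have h1 := hT a ha
    have h2 := hT b hb
    simp only at hab
    omega
  have c3 : (B3.card : ℝ) ≤ 2 * Q := by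
    have : (B3.card : ℝ) ≤ 2 * (N / K) := by
      rw [← Finset.card_image_of_injOn (hinj.mono (Finset.coe_subset.mpr (Finset.filter_subset _ _)))]
      refine sift_sq N K hK _ fun x hx => ?_
      rw [Finset.mem_image] at hx
      obtain ⟨a, ha, rfl⟩ := hx
      rw [Finset.mem_filter] at ha
      have h1 := hT a ha.1
      exact ⟨⟨by omega, by omega⟩, ha.2⟩
    linarith
  have hom : ((((Finset.Icc 1 N).filter fun a => K < (2 : ℝ) ^ cardFactors a).card : ℕ) : ℝ) ≤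
      4 * |A| * Q := by
    refine (hA N (by omega) K hK0).trans ?_
    have h1 : (1 + Real.log N) ^ 2 ≤ 4 * Real.log N ^ 2 := by nlinarith
    calc A * N * (1 + Real.log N) ^ 2 / Real.sqrt K
        ≤ |A| * N * (4 * Real.log N ^ 2) / Real.sqrt K := by
          refine div_le_div_of_nonneg_right ?_ (by positivity)
          refine mul_le_mul ?_ h1 (by positivity) (by positivity)
          exact mul_le_mul_of_nonneg_right (le_abs_self A) hN0.le
      _ = 4 * |A| * Q := by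
          rw [hQ]
          ring
  have c4 : (B4.card : ℝ) ≤ 4 * |A| * Q := by
    refine le_trans ?_ hom
    have : B4 ⊆ (Finset.Icc 1 N).filter fun a => K < (2 : ℝ) ^ cardFactors a := by
      intro a ha
      rw [hB4, Finset.mem_filter] at ha
      have h1 := hT a ha.1
      rw [Finset.mem_filter, Finset.mem_Icc]
      exact ⟨⟨h1.1, h1.2.le⟩, ha.2⟩
    exact_mod_cast Finset.card_le_card this
  have c5 : (B5.card : ℝ) ≤ 4 * |A| * Q := by
    refine le_trans ?_ hom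
    rw [← Finset.card_image_of_injOn (hinj.mono (Finset.coe_subset.mpr (Finset.filter_subset _ _)))]
    have : (T.filter (fun a => K < (2 : ℝ) ^ cardFactors (N - a))).image (fun a => N - a) ⊆
        (Finset.Icc 1 N).filter fun a => K < (2 : ℝ) ^ cardFactors a := by
      intro x hx
      rw [Finset.mem_image] at hx
      obtain ⟨a, ha, rfl⟩ := hx
      rw [Finset.mem_filter] at ha
      have h1 := hT a ha.1
      rw [Finset.mem_filter, Finset.mem_Icc]
      exact ⟨⟨by omega, by omega⟩, ha.2⟩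
    exact_mod_cast Finset.card_le_card this
  refine ⟨T \ (B1 ∪ B2 ∪ B3 ∪ B4 ∪ B5), Finset.sdiff_subset, ?_, ?_⟩
  · have e1 := Finset.le_card_sdiff (B1 ∪ B2 ∪ B3 ∪ B4 ∪ B5) T
    have e2 : (B1 ∪ B2 ∪ B3 ∪ B4 ∪ B5).card ≤
        B1.card + B2.card + B3.card + B4.card + B5.card := by
      have h1 := Finset.card_union_le (B1 ∪ B2 ∪ B3 ∪ B4) B5
      have h2 := Finset.card_union_le (B1 ∪ B2 ∪ B3) B4
      have h3 := Finset.card_union_le (B1 ∪ B2) B3
      have h4 := Finset.card_union_le B1 B2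
      omega
    have e3 : T.card ≤ (T \ (B1 ∪ B2 ∪ B3 ∪ B4 ∪ B5)).card +
        (B1.card + B2.card + B3.card + B4.card + B5.card) := by omega
    have e4 : (T.card : ℝ) ≤ ((T \ (B1 ∪ B2 ∪ B3 ∪ B4 ∪ B5)).card : ℝ) +
        (B1.card + B2.card + B3.card + B4.card + B5.card) := by exact_mod_cast e3
    rw [← hQ]
    nlinarith
  · intro a ha
    rw [Finset.mem_sdiff] at ha
    obtain ⟨haT, hnot⟩ := ha
    simp only [Finset.mem_union, not_or] at hnot
    obtain ⟨⟨⟨⟨n1, n2⟩, n3⟩, n4⟩, n5⟩ := hnot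
    refine ⟨fun p hp hpa hpN => ?_, fun v hv => ?_, ?_, ?_⟩
    · by_contra h
      exact n1 (Finset.mem_filter.2 ⟨haT, p, hp, hpa, hpN, not_le.mp h⟩)
    · by_contra h
      rcases hv with hv | hv
      · exact n2 (Finset.mem_filter.2 ⟨haT, v, not_le.mp h, hv⟩)
      · exact n3 (Finset.mem_filter.2 ⟨haT, v, not_le.mp h, hv⟩)
    · by_contra h
      exact n4 (Finset.mem_filter.2 ⟨haT, not_le.mp h⟩)
    · by_contra h
      exact n5 (Finset.mem_filter.2 ⟨haT, not_le.mp h⟩)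

end Pool.Agent.H11.LQ

end

section

/-!
# PD, Ana3: the analytic theorem of stage 3

`t8` gives `δ, δ2, ε, k`; `t6_up` gives `δ1`; `top`; `energy_main` with `σ = 1/2000`, `ε = ε0`.
`analytic3_base` is the version without the uniqueness across moduli (no `t6_up`, `t8`).
-/

set_option autoImplicit false

namespace Pool.Agent.H78.PD

open Finset
open Pool.Agent.H11.LQ

/-- the data of a failing modulus -/
def Fail (θ ε1 : ℝ) (m : ℕ) (η : ℤ) (Q : ℕ) : Prop :=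
  (m : ℝ) ≤ (Q : ℝ) ^ θ * m.totient ∧ (η = 1 ∨ η = -1) ∧
    ∀ q : ℕ, q.Prime → q ≤ Q → (Q : ℝ) * ((Ex m η q).card : ℝ) ≤ ε1 * m.totient

end Pool.Agent.H78.PD

end

section

set_option autoImplicit false

namespace Pool.Agent.H78.PD

/-- a real nonprincipal character modulo `p ^ n` or `2 p ^ n`, `p ≡ 3` mod 4, is odd -/
theorem odd_of_three {p n N : ℕ} [NeZero N] (hp : p.Prime) (h3 : p % 4 = 3)
    (hN : N = p ^ n ∨ N = 2 * p ^ n) (χ : DirichletCharacter ℂ N) (h2 : χ ^ 2 = 1) (h1 : χ ≠ 1) :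
    χ (-1) = -1 := by
  have hpo : Odd p := by
    rw [Nat.odd_iff]
    omega
  have hn : 1 ≤ n := by
    by_contra hn
    have hn0 : n = 0 := by omega
    rw [hn0, pow_zero] at hN
    apply h1
    ext u
    have hs : Subsingleton (ZMod N)ˣ := by
      rcases hN with h | h
      · subst h
        infer_instance
      · subst h
        exact ⟨by decide⟩
    rw [Subsingleton.elim u 1]
    simp
  have hcyc : IsCyclic (ZMod N)ˣ := by
    rw [ZMod.isCyclic_units_iff]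
    exact Or.inr (Or.inr (Or.inr (Or.inr ⟨p, n, hp, hpo, hn, hN⟩)))
  obtain ⟨g, hg⟩ := hcyc.exists_generator
  have hpN : p ∣ N := by
    rcases hN with h | h
    · rw [h]
      exact dvd_pow_self p (by omega)
    · rw [h]
      exact Dvd.dvd.mul_left (dvd_pow_self p (by omega)) 2
  obtain ⟨k, hk⟩ := Subgroup.mem_zpowers_iff.1 (hg (-1))
  have hz : ∀ j : ℤ, χ.toUnitHom (g ^ j) = χ.toUnitHom g ^ j := fun j => map_zpow _ _ _
  have hsq : χ.toUnitHom g ^ 2 = 1 := by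
    ext
    rw [Units.val_pow_eq_pow_val, MulChar.coe_toUnitHom, ← MulChar.pow_apply' _ two_ne_zero, h2,
      MulChar.one_apply g.isUnit]
    rfl
  have hg1 : χ.toUnitHom g = 1 ∨ χ.toUnitHom g = -1 := by
    have h4 : ((χ.toUnitHom g : ℂˣ) : ℂ) ^ 2 = 1 := by
      rw [← Units.val_pow_eq_pow_val, hsq]
      rfl
    rcases sq_eq_one_iff.1 h4 with h | h
    · exact Or.inl (Units.ext h)
    · exact Or.inr (Units.ext h)
  have hg2 : χ.toUnitHom g = -1 := by
    refine hg1.resolve_left fun h => h1 ?_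
    ext u
    obtain ⟨j, hj⟩ := Subgroup.mem_zpowers_iff.1 (hg u)
    rw [← MulChar.coe_toUnitHom, ← hj, hz, h, one_zpow, MulChar.one_apply (g ^ j).isUnit]
    rfl
  have hodd : Odd k := by
    by_contra hk2
    rw [Int.not_odd_iff_even] at hk2
    obtain ⟨l, hl⟩ := hk2
    have : Fact p.Prime := ⟨hp⟩
    have h5 : ((g ^ l : (ZMod N)ˣ) : ZMod N) ^ 2 = -1 := by
      rw [← Units.val_pow_eq_pow_val, ← zpow_natCast, ← zpow_mul]
      have : l * ((2 : ℕ) : ℤ) = k := by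
        push_cast
        omega
      rw [this, hk]
      rfl
    have h6 : (ZMod.castHom hpN (ZMod p) ((g ^ l : (ZMod N)ˣ) : ZMod N)) ^ 2 = -1 := by
      rw [← map_pow, h5, map_neg, map_one]
    exact ZMod.mod_four_ne_three_of_sq_eq_neg_one h6 h3
  have h7 : χ.toUnitHom (-1) = -1 := by
    rw [← hk, hz, hg2]
    exact hodd.neg_one_zpow
  have h8 : ((χ.toUnitHom (-1 : (ZMod N)ˣ) : ℂˣ) : ℂ) = -1 := by
    rw [h7]
    rfl
  rw [MulChar.coe_toUnitHom] at h8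
  exact h8

end Pool.Agent.H78.PD

end

section

/-!
# PE, Cnt: two counting lemmas

`#{x < m : D ∣ x} = m/D` for `D ∣ m`.
* `cnt_union`: `X(x) = #{p ∈ S : p^(a p) ∣ x}`, `s = ∑_S p^(-a p)`: `∑_{x < m} X = m s`, `∑ X² ≤ m (s + s²)` (for `p ≠ p'` in `S` the number `p^(a p) p'^(a p')` divides `m`), and `X` is supported on `B`:
  `(m s)² ≤ #B · m (s + s²)`, so `s ≤ β (1 + s)` and (`β ≤ 1/2`) `s ≤ 2β`.
* `cnt_avg`: `v p` = the exponent of `p` in `m`, `Y(x) = ∑_{p ∈ S, p^(v p) ∣ x} 1/p`.  `∑_{x < m} Y = m ∑_S p^(-1-v p)`; `∑_{x ∉ B} Y ≤ m E`;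
  `∑_{x ∈ B} Y ≤ (#B)^(1/2) (∑_x Y²)^(1/2)`, `∑ Y² ≤ m (∑_S p^(-2-v p) + (∑_S p^(-1-v p))²) ≤ 2 m` (`v p ≥ 1`, `∑_{n ≥ 2} n^(-2) ≤ 1`).
-/

set_option autoImplicit false

namespace Pool.Agent.H78.PE

open Finset

theorem cnt_dvd (m D : ℕ) (hm : 1 ≤ m) (hD : D ∣ m) :
    ((range m).filter (fun x => D ∣ x)).card = m / D := by
  obtain ⟨k, rfl⟩ := hD
  have hD0 : 0 < D := Nat.pos_of_ne_zero (by rintro rfl; simp at hm)
  rw [Nat.mul_div_cancel_left _ hD0]
  have h1 : (range (D * k)).filter (fun x => D ∣ x) = (range k).image (fun i => D * i) := by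
    ext x
    simp only [mem_filter, mem_range, mem_image]
    constructor
    · rintro ⟨h1, i, rfl⟩
      exact ⟨i, Nat.lt_of_mul_lt_mul_left h1, rfl⟩
    · rintro ⟨i, h1, rfl⟩
      exact ⟨Nat.mul_lt_mul_of_pos_left h1 hD0, dvd_mul_right _ _⟩
  rw [h1, card_image_of_injective _ (fun a b h => Nat.eq_of_mul_eq_mul_left hD0 h), card_range]

private theorem cnt_one (m : ℕ) (hm : 1 ≤ m) (D : ℕ) (hD : D ∣ m) :
    ∑ x ∈ range m, (if D ∣ x then (1 : ℝ) else 0) = (m : ℝ) / D := by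
  have hD0 : (D : ℝ) ≠ 0 := by
    have : D ≠ 0 := by
      rintro rfl
      rw [zero_dvd_iff] at hD
      omega
    exact_mod_cast this
  rw [sum_boole, cnt_dvd m D hm hD, Nat.cast_div hD hD0]

/-- the weighted count -/
private noncomputable def cntZ (S : Finset ℕ) (a : ℕ → ℕ) (w : ℕ → ℝ) (x : ℕ) : ℝ :=
  ∑ p ∈ S, w p * (if p ^ a p ∣ x then (1 : ℝ) else 0)

private theorem cntZ_first (m : ℕ) (hm : 1 ≤ m) (S : Finset ℕ) (a : ℕ → ℕ) (w : ℕ → ℝ)
    (hS : ∀ p ∈ S, p ^ a p ∣ m) :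
    ∑ x ∈ range m, cntZ S a w x = m * ∑ p ∈ S, w p / (p : ℝ) ^ a p := by
  unfold cntZ
  rw [sum_comm, mul_sum]
  refine sum_congr rfl fun p hp => ?_
  rw [← mul_sum, cnt_one m hm _ (hS p hp)]
  push_cast
  ring

private theorem cntZ_second (m : ℕ) (hm : 1 ≤ m) (S : Finset ℕ) (a : ℕ → ℕ) (w : ℕ → ℝ)
    (hS : ∀ p ∈ S, p.Prime ∧ p ^ a p ∣ m) (hw : ∀ p ∈ S, 0 ≤ w p) :
    ∑ x ∈ range m, cntZ S a w x ^ 2 ≤
      m * (∑ p ∈ S, w p ^ 2 / (p : ℝ) ^ a p + (∑ p ∈ S, w p / (p : ℝ) ^ a p) ^ 2) := by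
  have h1 : ∑ x ∈ range m, cntZ S a w x ^ 2 = ∑ p ∈ S, ∑ p' ∈ S, w p * w p' *
      ∑ x ∈ range m, (if p ^ a p ∣ x then (1 : ℝ) else 0) * (if p' ^ a p' ∣ x then (1 : ℝ) else 0) := by
    unfold cntZ
    simp_rw [pow_two, sum_mul_sum]
    rw [sum_comm]
    refine sum_congr rfl fun p _ => ?_
    rw [sum_comm]
    refine sum_congr rfl fun p' _ => ?_
    rw [mul_sum]
    refine sum_congr rfl fun x _ => ?_
    ring
  have h2 : ∀ p ∈ S, ∀ p' ∈ S, w p * w p' *
      ∑ x ∈ range m, (if p ^ a p ∣ x then (1 : ℝ) else 0) * (if p' ^ a p' ∣ x then (1 : ℝ) else 0) ≤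
      m * ((w p / (p : ℝ) ^ a p) * (w p' / (p' : ℝ) ^ a p')) +
        (if p = p' then m * (w p ^ 2 / (p : ℝ) ^ a p) else 0) := by
    intro p hp p' hp'
    have hpp := (hS p hp).1
    have hpp' := (hS p' hp').1
    have hw1 := hw p hp
    have hw2 := hw p' hp'
    have hq : (0 : ℝ) < (p : ℝ) ^ a p := by
      have := hpp.pos
      positivity
    have hq' : (0 : ℝ) < (p' : ℝ) ^ a p' := by
      have := hpp'.pos
      positivity
    by_cases h : p = p'
    · subst h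
      rw [if_pos rfl]
      have h3 : ∑ x ∈ range m, (if p ^ a p ∣ x then (1 : ℝ) else 0) *
          (if p ^ a p ∣ x then (1 : ℝ) else 0) = (m : ℝ) / ((p ^ a p : ℕ) : ℝ) := by
        rw [← cnt_one m hm _ (hS p hp).2]
        refine sum_congr rfl fun x _ => ?_
        split_ifs <;> norm_num
      rw [h3]
      push_cast
      have h4 : 0 ≤ (m : ℝ) * ((w p / (p : ℝ) ^ a p) * (w p / (p : ℝ) ^ a p)) := by positivity
      have h5 : w p * w p * ((m : ℝ) / (p : ℝ) ^ a p) = m * (w p ^ 2 / (p : ℝ) ^ a p) := by ring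
      rw [h5]
      linarith
    · rw [if_neg h, add_zero]
      have hco : Nat.Coprime (p ^ a p) (p' ^ a p') :=
        Nat.Coprime.pow _ _ ((Nat.coprime_primes hpp hpp').mpr h)
      have h3 : ∑ x ∈ range m, (if p ^ a p ∣ x then (1 : ℝ) else 0) *
          (if p' ^ a p' ∣ x then (1 : ℝ) else 0) = (m : ℝ) / ((p ^ a p * p' ^ a p' : ℕ) : ℝ) := by
        rw [← cnt_one m hm _ (hco.mul_dvd_of_dvd_of_dvd (hS p hp).2 (hS p' hp').2)]
        refine sum_congr rfl fun x _ => ?_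
        by_cases h4 : p ^ a p ∣ x
        · by_cases h5 : p' ^ a p' ∣ x
          · rw [if_pos h4, if_pos h5, if_pos (hco.mul_dvd_of_dvd_of_dvd h4 h5), mul_one]
          · rw [if_neg h5, if_neg (fun h6 => h5 ((dvd_mul_left _ _).trans h6)), mul_zero]
        · rw [if_neg h4, if_neg (fun h6 => h4 ((dvd_mul_right _ _).trans h6)), zero_mul]
      rw [h3]
      push_cast
      apply le_of_eq
      field_simp
  rw [h1]
  refine (sum_le_sum fun p hp => sum_le_sum fun p' hp' => h2 p hp p' hp').trans ?_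
  apply le_of_eq
  simp_rw [sum_add_distrib]
  rw [mul_add, add_comm]
  congr 1
  · rw [mul_sum]
    refine sum_congr rfl fun p hp => ?_
    rw [sum_ite_eq S p, if_pos hp]
  · rw [pow_two, sum_mul_sum, mul_sum]
    refine sum_congr rfl fun p _ => ?_
    rw [mul_sum]

/-- Cauchy-Schwarz on `B` -/
private theorem cntZ_cs (m : ℕ) (hm : 1 ≤ m) (B S : Finset ℕ) (a : ℕ → ℕ) (w : ℕ → ℝ)
    (hS : ∀ p ∈ S, p.Prime ∧ p ^ a p ∣ m) (hw : ∀ p ∈ S, 0 ≤ w p) (β : ℝ)
    (hBc : (B.card : ℝ) ≤ β * m) :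
    (∑ x ∈ (range m).filter (fun x => x ∈ B), cntZ S a w x) ^ 2 ≤ β * m *
      (m * (∑ p ∈ S, w p ^ 2 / (p : ℝ) ^ a p + (∑ p ∈ S, w p / (p : ℝ) ^ a p) ^ 2)) := by
  have h1 := sq_sum_le_card_mul_sum_sq (s := (range m).filter (fun x => x ∈ B))
    (f := fun x => cntZ S a w x)
  refine h1.trans ?_
  have h2 : (((range m).filter (fun x => x ∈ B)).card : ℝ) ≤ β * m := by
    refine le_trans ?_ hBc
    exact_mod_cast card_le_card fun x hx => (mem_filter.mp hx).2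
  have h3 : ∑ x ∈ (range m).filter (fun x => x ∈ B), cntZ S a w x ^ 2 ≤
      ∑ x ∈ range m, cntZ S a w x ^ 2 :=
    sum_le_sum_of_subset_of_nonneg (filter_subset _ _) fun _ _ _ => sq_nonneg _
  have h4 := cntZ_second m hm S a w hS hw
  have h5 : 0 ≤ ∑ x ∈ (range m).filter (fun x => x ∈ B), cntZ S a w x ^ 2 :=
    sum_nonneg fun _ _ => sq_nonneg _
  have h6 : (0 : ℝ) ≤ ((range m).filter (fun x => x ∈ B)).card := by positivity
  exact mul_le_mul h2 (h3.trans h4) h5 (h6.trans h2)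

theorem cnt_union (m : ℕ) (hm : 1 ≤ m) (B S : Finset ℕ) (a : ℕ → ℕ)
    (hS : ∀ p ∈ S, p.Prime ∧ 1 ≤ a p ∧ p ^ a p ∣ m)
    (hB : ∀ p ∈ S, ∀ x : ℕ, x < m → p ^ a p ∣ x → x ∈ B) (β : ℝ) (hβ : β ≤ 1 / 2)
    (hBc : (B.card : ℝ) ≤ β * m) : ∑ p ∈ S, 1 / (p : ℝ) ^ a p ≤ 2 * β := by
  have hm0 : (0 : ℝ) < m := by exact_mod_cast hm
  have hβ0 : 0 ≤ β := by
    have h1 : (0 : ℝ) ≤ β * m := le_trans (by positivity) hBc
    by_contra h2
    push Not at h2
    have := mul_neg_of_neg_of_pos h2 hm0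
    linarith
  have h1 := cntZ_first m hm S a (fun _ => 1) (fun p hp => (hS p hp).2.2)
  have h2 := cntZ_cs m hm B S a (fun _ => 1) (fun p hp => ⟨(hS p hp).1, (hS p hp).2.2⟩)
    (fun _ _ => zero_le_one) β hBc
  have h3 : ∑ x ∈ (range m).filter (fun x => x ∈ B), cntZ S a (fun _ => 1) x =
      ∑ x ∈ range m, cntZ S a (fun _ => 1) x := by
    refine sum_subset (filter_subset _ _) fun x hx hx' => ?_
    have hxB : x ∉ B := fun h => hx' (mem_filter.mpr ⟨hx, h⟩)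
    unfold cntZ
    refine sum_eq_zero fun p hp => ?_
    rw [if_neg (fun h => hxB (hB p hp x (mem_range.mp hx) h)), mul_zero]
  rw [h3, h1] at h2
  simp only [one_pow] at h2
  obtain ⟨s, hs⟩ : ∃ s, s = ∑ p ∈ S, 1 / (p : ℝ) ^ a p := ⟨_, rfl⟩
  rw [← hs] at h2 ⊢
  have hs0 : 0 ≤ s := by
    rw [hs]
    exact sum_nonneg fun _ _ => by positivity
  have h4 : s ^ 2 ≤ β * (s + s ^ 2) := by
    have h5 : (m : ℝ) ^ 2 * s ^ 2 ≤ (m : ℝ) ^ 2 * (β * (s + s ^ 2)) := by nlinarith [h2]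
    exact le_of_mul_le_mul_left h5 (by positivity)
  rcases hs0.eq_or_lt with h5 | h5
  · rw [← h5]
    linarith
  · have h6 : s ≤ β * (1 + s) := by
      have h7 : s * s ≤ s * (β * (1 + s)) := by nlinarith [h4]
      exact le_of_mul_le_mul_left h7 h5
    have h8 : β * s ≤ 1 / 2 * s := mul_le_mul_of_nonneg_right hβ hs0
    linarith

private theorem sum_sq_inv_le (M : ℕ) : ∑ n ∈ Icc 2 (M + 2), 1 / (n : ℝ) ^ 2 ≤ 1 - 1 / ((M : ℝ) + 2) := by
  induction M with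
  | zero => norm_num
  | succ k ih =>
    rw [show k + 1 + 2 = (k + 2) + 1 by ring, sum_Icc_succ_top (by omega)]
    refine (add_le_add_left ih _).trans ?_
    push_cast
    have h1 : (0 : ℝ) < (k : ℝ) + 2 := by positivity
    have h2 : (0 : ℝ) < (k : ℝ) + 3 := by positivity
    have h3 : (k : ℝ) + 2 + 1 = k + 3 := by ring
    have h4 : (k : ℝ) + 1 + 2 = k + 3 := by ring
    rw [h3, h4]
    have h5 : 1 / ((k : ℝ) + 3) ^ 2 ≤ 1 / ((k : ℝ) + 2) - 1 / ((k : ℝ) + 3) := by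
      rw [div_sub_div _ _ h1.ne' h2.ne', div_le_div_iff₀ (by positivity) (by positivity)]
      nlinarith
    linarith

private theorem sum_prime_le (S : Finset ℕ) (e : ℕ → ℕ) (hS : ∀ p ∈ S, p.Prime ∧ 2 ≤ e p) :
    ∑ p ∈ S, 1 / (p : ℝ) ^ e p ≤ 1 := by
  obtain ⟨M, hM⟩ : ∃ M, ∀ p ∈ S, p ≤ M := ⟨S.sup id, fun p hp => le_sup (f := id) hp⟩
  have h1 : ∑ p ∈ S, 1 / (p : ℝ) ^ e p ≤ ∑ n ∈ Icc 2 (M + 2), 1 / (n : ℝ) ^ 2 := by
    refine (sum_le_sum (g := fun p : ℕ => 1 / (p : ℝ) ^ 2) fun p hp => ?_).trans ?_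
    · have h2 : (1 : ℝ) ≤ p := by exact_mod_cast (hS p hp).1.one_lt.le
      exact one_div_le_one_div_of_le (by positivity) (pow_le_pow_right₀ h2 (hS p hp).2)
    · refine sum_le_sum_of_subset_of_nonneg (fun p hp => ?_) fun _ _ _ => by positivity
      rw [mem_Icc]
      have := hM p hp
      exact ⟨(hS p hp).1.two_le, by omega⟩
  have h2 := sum_sq_inv_le M
  have h3 : (0 : ℝ) ≤ 1 / ((M : ℝ) + 2) := by positivity
  linarith

theorem cnt_avg (m : ℕ) (hm : 1 ≤ m) (B S : Finset ℕ) (hS : ∀ p ∈ S, p.Prime ∧ p ∣ m) (β E : ℝ)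
    (hE0 : 0 ≤ E) (hBc : (B.card : ℝ) ≤ β * m)
    (hE : ∀ x : ℕ, x < m → x ∉ B →
      ∑ p ∈ S.filter (fun p => p ^ (m.factorization p) ∣ x), 1 / (p : ℝ) ≤ E) :
    ∑ p ∈ S, 1 / (p : ℝ) ^ (1 + m.factorization p) ≤ E + Real.sqrt (2 * β) := by
  have hm0 : (0 : ℝ) < m := by exact_mod_cast hm
  have hβ0 : 0 ≤ β := by
    have h1 : (0 : ℝ) ≤ β * m := le_trans (by positivity) hBc
    by_contra h2
    push Not at h2
    have := mul_neg_of_neg_of_pos h2 hm0
    linarith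
  have hv : ∀ p ∈ S, 1 ≤ m.factorization p := fun p hp =>
    (hS p hp).1.factorization_pos_of_dvd (by omega) (hS p hp).2
  have hd : ∀ p ∈ S, p.Prime ∧ p ^ (fun p => m.factorization p) p ∣ m := fun p hp =>
    ⟨(hS p hp).1, Nat.ordProj_dvd m p⟩
  have hw : ∀ p ∈ S, (0 : ℝ) ≤ (fun p : ℕ => 1 / (p : ℝ)) p := fun p _ => by positivity
  have h1 := cntZ_first m hm S (fun p => m.factorization p) (fun p => 1 / (p : ℝ))
    (fun p hp => (hd p hp).2)
  have h2 := cntZ_cs m hm B S (fun p => m.factorization p) (fun p => 1 / (p : ℝ)) hd hw β hBc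
  have h3 : ∑ p ∈ S, 1 / (p : ℝ) / (p : ℝ) ^ (m.factorization p) =
      ∑ p ∈ S, 1 / (p : ℝ) ^ (1 + m.factorization p) := by
    refine sum_congr rfl fun p hp => ?_
    rw [div_div, pow_add, pow_one]
  have h4 : ∑ p ∈ S, (1 / (p : ℝ)) ^ 2 / (p : ℝ) ^ (m.factorization p) =
      ∑ p ∈ S, 1 / (p : ℝ) ^ (2 + m.factorization p) := by
    refine sum_congr rfl fun p hp => ?_
    rw [one_div_pow, div_div, pow_add]
  rw [h3] at h1
  rw [h3, h4] at h2
  have h5 : ∑ p ∈ S, 1 / (p : ℝ) ^ (1 + m.factorization p) ≤ 1 :=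
    sum_prime_le S (fun p => 1 + m.factorization p) fun p hp => ⟨(hS p hp).1, by
      have := hv p hp
      omega⟩
  have h6 : ∑ p ∈ S, 1 / (p : ℝ) ^ (2 + m.factorization p) ≤ 1 :=
    sum_prime_le S (fun p => 2 + m.factorization p) fun p hp => ⟨(hS p hp).1, by omega⟩
  obtain ⟨T, hT⟩ : ∃ T, T = ∑ p ∈ S, 1 / (p : ℝ) ^ (1 + m.factorization p) := ⟨_, rfl⟩
  rw [← hT] at h1 h2 h5 ⊢
  have hT0 : 0 ≤ T := by
    rw [hT]
    exact sum_nonneg fun _ _ => by positivity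
  obtain ⟨U, hU⟩ : ∃ U, U = ∑ x ∈ (range m).filter (fun x => x ∈ B),
    cntZ S (fun p => m.factorization p) (fun p => 1 / (p : ℝ)) x := ⟨_, rfl⟩
  rw [← hU] at h2
  have h7 : U ^ 2 ≤ (m : ℝ) ^ 2 * (2 * β) := by
    refine h2.trans ?_
    have h8 : ∑ p ∈ S, 1 / (p : ℝ) ^ (2 + m.factorization p) + T ^ 2 ≤ 2 := by nlinarith
    have h9 : β * m * (m * (∑ p ∈ S, 1 / (p : ℝ) ^ (2 + m.factorization p) + T ^ 2)) ≤
        β * m * (m * 2) :=
      mul_le_mul_of_nonneg_left (mul_le_mul_of_nonneg_left h8 hm0.le) (by positivity)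
    refine h9.trans (le_of_eq ?_)
    ring
  have h8 : U ≤ m * Real.sqrt (2 * β) := by
    have h9 : U ≤ Real.sqrt ((m : ℝ) ^ 2 * (2 * β)) := Real.le_sqrt_of_sq_le h7
    rwa [Real.sqrt_mul (by positivity), Real.sqrt_sq hm0.le] at h9
  have h9 : ∑ x ∈ (range m).filter (fun x => ¬ x ∈ B),
      cntZ S (fun p => m.factorization p) (fun p => 1 / (p : ℝ)) x ≤ m * E := by
    have h10 : ∀ x ∈ (range m).filter (fun x => ¬ x ∈ B),
        cntZ S (fun p => m.factorization p) (fun p => 1 / (p : ℝ)) x ≤ E := by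
      intro x hx
      rw [mem_filter, mem_range] at hx
      refine le_trans (le_of_eq ?_) (hE x hx.1 hx.2)
      unfold cntZ
      rw [sum_filter]
      refine sum_congr rfl fun p _ => ?_
      split_ifs
      · rw [mul_one]
      · rw [mul_zero]
    refine (sum_le_sum h10).trans ?_
    rw [sum_const, nsmul_eq_mul]
    refine mul_le_mul_of_nonneg_right ?_ hE0
    have := card_filter_le (range m) (fun x => ¬ x ∈ B)
    rw [card_range] at this
    exact_mod_cast this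
  have h10 := sum_filter_add_sum_filter_not (range m) (fun x => x ∈ B)
    (fun x => cntZ S (fun p => m.factorization p) (fun p => 1 / (p : ℝ)) x)
  rw [← hU, h1] at h10
  have h11 : (m : ℝ) * T ≤ m * (E + Real.sqrt (2 * β)) := by
    rw [mul_add]
    linarith
  exact le_of_mul_le_mul_left h11 hm0

end Pool.Agent.H78.PE

end

section

/-!
# PE, Defs: the exact criterion for parity Goldbach: definitions

`Prt n ψ ε`: the sum of `1/p` over the primes `p ≤ n^(1-ε)` not dividing `n` with `ψ(p) ≠ -1` is at most `ε`.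
`Dd N χ` for `χ` mod `q`: the sum of `p^(-1-v)` over the primes `p ≤ N` with `χ(p) ≠ -1`, where `v` is the exponent of `p` in `N/q`.
`FailU`: the hypothesis on the exceptional sets, for the residues prime to the modulus.
-/

set_option autoImplicit false

namespace Pool.Agent.H78.PE

open Finset
open Pool.Agent.H34PG (lam lam_val lam_mul)
open Pool.Agent.H11.LQ Pool.Agent.H78.PD

open Classical in
/-- the primes `p ≤ n^(1-ε)` not dividing `n` with `ψ(p) ≠ -1` -/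
noncomputable def Pr (n : ℕ) {c : ℕ} (ψ : DirichletCharacter ℂ c) (ε : ℝ) : Finset ℕ :=
  (Icc 1 ⌊(n : ℝ) ^ (1 - ε)⌋₊).filter (fun p : ℕ => p.Prime ∧ ¬ p ∣ n ∧ ψ (p : ZMod c) ≠ -1)

open Classical in
theorem mem_Pr {n c : ℕ} {ψ : DirichletCharacter ℂ c} {ε : ℝ} {p : ℕ} :
    p ∈ Pr n ψ ε ↔ (p : ℝ) ≤ (n : ℝ) ^ (1 - ε) ∧ p.Prime ∧ ¬ p ∣ n ∧ ψ (p : ZMod c) ≠ -1 := by
  unfold Pr
  rw [mem_filter, mem_Icc, Nat.le_floor_iff (by positivity)]
  exact ⟨fun h => ⟨h.1.2, h.2⟩, fun h => ⟨⟨h.2.1.one_lt.le, h.1⟩, h.2⟩⟩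

/-- the sum of `1/p` over `Pr n ψ ε` is at most `ε` -/
def Prt (n : ℕ) {c : ℕ} (ψ : DirichletCharacter ℂ c) (ε : ℝ) : Prop :=
  ∑ p ∈ Pr n ψ ε, 1 / (p : ℝ) ≤ ε

theorem Prt.mono {n c : ℕ} {ψ : DirichletCharacter ℂ c} {ε ε' : ℝ} (hn : 1 ≤ n) (h : Prt n ψ ε)
    (hε : ε ≤ ε') : Prt n ψ ε' := by
  refine le_trans ?_ (le_trans h hε)
  refine sum_le_sum_of_subset_of_nonneg (fun p hp => ?_) fun _ _ _ => by positivity
  rw [mem_Pr] at hp ⊢
  refine ⟨hp.1.trans ?_, hp.2⟩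
  exact Real.rpow_le_rpow_of_exponent_le (by exact_mod_cast hn) (by linarith)

open Classical in
/-- the sum of `p^(-1-v)`, `v` the exponent of `p` in `N/q`, over the primes `p ≤ N` with `χ(p) ≠ -1` -/
noncomputable def Dd (N : ℕ) {q : ℕ} (χ : DirichletCharacter ℂ q) : ℝ :=
  ∑ p ∈ (Icc 1 N).filter (fun p : ℕ => p.Prime ∧ χ (p : ZMod q) ≠ -1),
    1 / (p : ℝ) ^ (1 + (N / q).factorization p)

/-- the hypothesis on the exceptional residues prime to `m` -/
def FailU (θ ε1 : ℝ) (m : ℕ) (η : ℤ) (Q : ℕ) : Prop :=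
  (m : ℝ) ≤ (Q : ℝ) ^ θ * m.totient ∧ (η = 1 ∨ η = -1) ∧
    ∀ q : ℕ, q.Prime → q ≤ Q → (Q : ℝ) * ((ExU m η q).card : ℝ) ≤ ε1 * m.totient

/-- the residues mod `m` whose gcd with `m` is not in `G` -/
def Bd (m : ℕ) (G : Finset ℕ) : Finset ℕ := (range m).filter (fun x => Nat.gcd x m ∉ G)

theorem mem_Bd {m : ℕ} {G : Finset ℕ} {x : ℕ} : x ∈ Bd m G ↔ x < m ∧ Nat.gcd x m ∉ G := by
  unfold Bd
  rw [mem_filter, mem_range]

end Pool.Agent.H78.PE

end

section

/-!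
# PE, SmallP: the small primes where `χ` is not `-1`

`v(a) = λ(a) χ(a)` (`vv m χ a`), `= ±1` for `a` prime to `m`; `k = cc m (FC m η) χ`, `|k|² = 1 - wout ≤ 1` (`wout_eq`), `x1 = ⌊m^(1/100)⌋`, `x2 = ⌊m^(1/200)⌋`, `E = (φ(m)/m) log m`.
* `t6_D` (`PD/T6.lean`): `D = ∑_{a ∈ cop m x1} |v(a) - k|²/a ≤ C1 w E`, `w = wout m η {χ}`.
* `B'` = the primes `p ≤ m^(1/200)`, `p ∤ m`, `χ(p) ≠ -1`; so `χ(p) = 1` (`χ² = 1`, `p` prime to `m`) and `v(p a) = - v(a)`.  For `p ∈ B'` and `a ∈ cop m x2`: `p a ∈ cop m x1` and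
  `|v(a) - k|² + |v(p a) - k|² = 2 |v(a)|² + 2 |k|² ≥ 2` (parallelogram).
* `β = ∑_{B'} 1/p`, `S2 = ∑_{a ∈ cop m x2} 1/a ≥ E/400` (`cop_harm`, as in `t6`), `S = ∑_{n ∈ cop m x1} 1/n ≤ C2 E` (`cop_harm_up`):
  `2 β S2 ≤ ∑_p (1/p) ∑_a |v(a)-k|²/a + ∑_p ∑_a |v(pa)-k|²/(pa) ≤ β D + ∑_{n ∈ cop m x1} (|v(n)-k|²/n) #{p ∈ B' : p ∣ n}`
  and by Cauchy-Schwarz the last sum is `≤ (∑ |v(n)-k|⁴/n)^(1/2) (∑_n #{p ∈ B' : p ∣ n}²/n)^(1/2) ≤ (4 D)^(1/2) ((β + β²) S)^(1/2)`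
  (`|v - k| ≤ 2`; `#{..}² = ∑_{p,p'}`, `∑_{n : p ∣ n} 1/n ≤ S/p`, `∑_{n : p p' ∣ n} 1/n ≤ S/(p p')` for `p ≠ p'`, the cofactor is in `cop m x1`).
* So `β/200 ≤ β C1 w + 2 (C1 C2 w (β + β²))^(1/2)`.  If `C1 w ≤ 1/400`: `β² ≤ C3 w (β + β²)`, `C3 = 640000 C1 C2`; if also `C3 w ≤ 1/2`: `β ≤ 2 C3 w`.
-/

set_option autoImplicit false

namespace Pool.Agent.H78.PE

open Finset

/-- multiples of `d` in a set closed under divisors -/
private theorem SmallP_div (C : Finset ℕ) (hdiv : ∀ d n : ℕ, d ∣ n → n ∈ C → n / d ∈ C)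
    (d : ℕ) (hd : 1 ≤ d) :
    ∑ n ∈ C.filter (fun n => d ∣ n), 1 / (n : ℝ) ≤ 1 / (d : ℝ) * ∑ a ∈ C, 1 / (a : ℝ) := by
  classical
  have e1 : ∑ a ∈ C.filter (fun a => d ∣ a), 1 / (a : ℝ) =
      ∑ a ∈ C.filter (fun a => d ∣ a), 1 / (d : ℝ) * (1 / ((a / d : ℕ) : ℝ)) := by
    refine sum_congr rfl fun a ha => ?_
    rw [mem_filter] at ha
    obtain ⟨b, rfl⟩ := ha.2
    rw [Nat.mul_div_cancel_left b hd]
    push_cast
    rw [one_div_mul_one_div]
  have e2 : ∑ a ∈ C.filter (fun a => d ∣ a), 1 / ((a / d : ℕ) : ℝ) =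
      ∑ b ∈ (C.filter (fun a => d ∣ a)).image (fun a => a / d), 1 / (b : ℝ) := by
    rw [sum_image]
    intro a ha b hb hab
    have ha1 := (mem_filter.mp (mem_coe.mp ha)).2
    have hb1 := (mem_filter.mp (mem_coe.mp hb)).2
    obtain ⟨c, rfl⟩ := ha1
    obtain ⟨e, rfl⟩ := hb1
    simp only at hab
    rw [Nat.mul_div_cancel_left c hd, Nat.mul_div_cancel_left e hd] at hab
    rw [hab]
  rw [e1, ← mul_sum, e2]
  refine mul_le_mul_of_nonneg_left ?_ (by positivity)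
  refine sum_le_sum_of_subset_of_nonneg ?_ fun _ _ _ => by positivity
  intro b hb
  rw [mem_image] at hb
  obtain ⟨a, ha, rfl⟩ := hb
  rw [mem_filter] at ha
  exact hdiv d a ha.2 ha.1

/-- exchange of the sums over `p` and its multiples -/
private theorem SmallP_swap (C P : Finset ℕ) (g : ℕ → ℝ) :
    ∑ p ∈ P, ∑ n ∈ C.filter (fun n => p ∣ n), g n =
      ∑ n ∈ C, g n * ((P.filter (fun p => p ∣ n)).card : ℝ) := by
  classical
  simp only [sum_filter]
  rw [sum_comm]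
  refine sum_congr rfl fun n _ => ?_
  rw [← sum_filter, sum_const, nsmul_eq_mul, mul_comm]

/-- the second moment of the number of prime factors in `P` -/
private theorem SmallP_sq (C P : Finset ℕ) (hdiv : ∀ d n : ℕ, d ∣ n → n ∈ C → n / d ∈ C)
    (hP : ∀ p ∈ P, p.Prime) (S β : ℝ) (hS : ∑ a ∈ C, 1 / (a : ℝ) = S)
    (hβ : ∑ p ∈ P, 1 / (p : ℝ) = β) :
    ∑ n ∈ C, ((P.filter (fun p => p ∣ n)).card : ℝ) ^ 2 / n ≤ (β + β ^ 2) * S := by
  classical
  have hS0 : 0 ≤ S := by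
    rw [← hS]
    exact sum_nonneg fun _ _ => by positivity
  have e1 : ∑ n ∈ C, ((P.filter (fun p => p ∣ n)).card : ℝ) ^ 2 / n =
      ∑ p ∈ P, ∑ n ∈ C.filter (fun n => p ∣ n), 1 / (n : ℝ) *
        ((P.filter (fun q => q ∣ n)).card : ℝ) := by
    rw [SmallP_swap C P (fun n => 1 / (n : ℝ) * ((P.filter (fun q => q ∣ n)).card : ℝ))]
    refine sum_congr rfl fun n _ => ?_
    ring
  have e2 : ∀ p ∈ P, ∑ n ∈ C.filter (fun n => p ∣ n), 1 / (n : ℝ) *
      ((P.filter (fun q => q ∣ n)).card : ℝ) ≤ 1 / (p : ℝ) * S + 1 / (p : ℝ) * (β * S) := by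
    intro p hp
    rw [← SmallP_swap (C.filter (fun n => p ∣ n)) P (fun n => 1 / (n : ℝ))]
    have h1 : ∀ q ∈ P, ∑ n ∈ (C.filter (fun n => p ∣ n)).filter (fun n => q ∣ n), 1 / (n : ℝ) ≤
        (if q = p then 1 / (p : ℝ) * S else 0) + 1 / (p : ℝ) * (1 / (q : ℝ) * S) := by
      intro q hq
      by_cases hqp : q = p
      · rw [if_pos hqp]
        have h2 : ∑ n ∈ (C.filter (fun n => p ∣ n)).filter (fun n => q ∣ n), 1 / (n : ℝ) ≤
            ∑ n ∈ C.filter (fun n => p ∣ n), 1 / (n : ℝ) :=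
          sum_le_sum_of_subset_of_nonneg (filter_subset _ _) fun _ _ _ => by positivity
        have h3 := SmallP_div C hdiv p (hP p hp).one_lt.le
        rw [hS] at h3
        have h4 : 0 ≤ 1 / (p : ℝ) * (1 / (q : ℝ) * S) := by positivity
        linarith only [h2, h3, h4]
      · rw [if_neg hqp, zero_add]
        have h2 : (C.filter (fun n => p ∣ n)).filter (fun n => q ∣ n) ⊆
            C.filter (fun n => p * q ∣ n) := by
          intro n hn
          rw [mem_filter, mem_filter] at hn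
          rw [mem_filter]
          refine ⟨hn.1.1, ?_⟩
          exact Nat.Coprime.mul_dvd_of_dvd_of_dvd
            ((Nat.coprime_primes (hP p hp) (hP q hq)).mpr fun h => hqp h.symm) hn.1.2 hn.2
        have h3 : ∑ n ∈ (C.filter (fun n => p ∣ n)).filter (fun n => q ∣ n), 1 / (n : ℝ) ≤
            ∑ n ∈ C.filter (fun n => p * q ∣ n), 1 / (n : ℝ) :=
          sum_le_sum_of_subset_of_nonneg h2 fun _ _ _ => by positivity
        have h4 := SmallP_div C hdiv (p * q) (Nat.mul_pos (hP p hp).pos (hP q hq).pos)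
        rw [hS] at h4
        refine h3.trans (h4.trans (le_of_eq ?_))
        push_cast
        rw [← one_div_mul_one_div, mul_assoc]
    refine (sum_le_sum h1).trans ?_
    rw [sum_add_distrib]
    refine add_le_add ?_ ?_
    · rw [sum_ite_eq' P p (fun _ => 1 / (p : ℝ) * S), if_pos hp]
    · rw [← mul_sum, ← sum_mul, hβ]
  rw [e1]
  refine (sum_le_sum e2).trans (le_of_eq ?_)
  rw [sum_add_distrib, ← sum_mul, ← sum_mul, hβ]
  ring

/-- the core inequality -/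
theorem SmallP_core (C1 C2 P : Finset ℕ) (f : ℕ → ℂ) (k : ℂ) (hk : ‖k‖ ≤ 1)
    (h1 : ∀ n ∈ C1, ‖f n‖ = 1) (hsub : C2 ⊆ C1) (hP : ∀ p ∈ P, p.Prime)
    (hmul : ∀ p ∈ P, ∀ a ∈ C2, p * a ∈ C1 ∧ f (p * a) = -f a)
    (hdiv : ∀ d n : ℕ, d ∣ n → n ∈ C1 → n / d ∈ C1) (S2 S D β : ℝ)
    (hS2 : ∑ a ∈ C2, 1 / (a : ℝ) = S2) (hS : ∑ a ∈ C1, 1 / (a : ℝ) = S)
    (hD : ∑ a ∈ C1, ‖f a - k‖ ^ 2 / a = D) (hβ : ∑ p ∈ P, 1 / (p : ℝ) = β) :
    2 * β * S2 ≤ β * D + Real.sqrt (4 * D * ((β + β ^ 2) * S)) := by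
  classical
  have hβ0 : 0 ≤ β := by
    rw [← hβ]
    exact sum_nonneg fun _ _ => by positivity
  -- the parallelogram law
  have hpar : ∀ p ∈ P, ∀ a ∈ C2, 2 ≤ ‖f a - k‖ ^ 2 + ‖f (p * a) - k‖ ^ 2 := by
    intro p hp a ha
    rw [(hmul p hp a ha).2]
    have e1 : ‖-f a - k‖ = ‖f a + k‖ := by
      rw [← norm_neg]
      congr 1
      ring
    rw [e1]
    have e2 := parallelogram_law_with_norm ℝ (f a) k
    rw [h1 a (hsub ha)] at e2
    nlinarith only [e2, norm_nonneg k, sq_nonneg ‖k‖]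
  have hstep1 : 2 * β * S2 ≤ β * ∑ a ∈ C2, ‖f a - k‖ ^ 2 / a +
      ∑ p ∈ P, ∑ a ∈ C2, ‖f (p * a) - k‖ ^ 2 / ((p * a : ℕ) : ℝ) := by
    have e1 : 2 * β * S2 = ∑ p ∈ P, ∑ a ∈ C2, 1 / (p : ℝ) * (1 / (a : ℝ)) * 2 := by
      rw [← hβ, ← hS2, mul_assoc, sum_mul_sum, mul_sum]
      refine sum_congr rfl fun p _ => ?_
      rw [mul_sum]
      refine sum_congr rfl fun a _ => ?_
      ring
    have e2 : β * ∑ a ∈ C2, ‖f a - k‖ ^ 2 / a =
        ∑ p ∈ P, ∑ a ∈ C2, 1 / (p : ℝ) * (1 / (a : ℝ)) * ‖f a - k‖ ^ 2 := by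
      rw [← hβ, sum_mul_sum]
      refine sum_congr rfl fun p _ => sum_congr rfl fun a _ => ?_
      ring
    have e3 : ∑ p ∈ P, ∑ a ∈ C2, ‖f (p * a) - k‖ ^ 2 / ((p * a : ℕ) : ℝ) =
        ∑ p ∈ P, ∑ a ∈ C2, 1 / (p : ℝ) * (1 / (a : ℝ)) * ‖f (p * a) - k‖ ^ 2 := by
      refine sum_congr rfl fun p _ => sum_congr rfl fun a _ => ?_
      push_cast
      rw [one_div_mul_one_div]
      ring
    rw [e1, e2, e3, ← sum_add_distrib]
    refine sum_le_sum fun p hp => ?_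
    rw [← sum_add_distrib]
    refine sum_le_sum fun a ha => ?_
    rw [← mul_add]
    exact mul_le_mul_of_nonneg_left (hpar p hp a ha) (by positivity)
  have hstep2 : ∑ a ∈ C2, ‖f a - k‖ ^ 2 / a ≤ D := by
    rw [← hD]
    exact sum_le_sum_of_subset_of_nonneg hsub fun _ _ _ => by positivity
  have hstep3 : ∑ p ∈ P, ∑ a ∈ C2, ‖f (p * a) - k‖ ^ 2 / ((p * a : ℕ) : ℝ) ≤
      ∑ n ∈ C1, ‖f n - k‖ ^ 2 / n * ((P.filter (fun p => p ∣ n)).card : ℝ) := by
    rw [← SmallP_swap C1 P (fun n => ‖f n - k‖ ^ 2 / (n : ℝ))]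
    refine sum_le_sum fun p hp => ?_
    have e1 : ∑ a ∈ C2, ‖f (p * a) - k‖ ^ 2 / ((p * a : ℕ) : ℝ) =
        ∑ n ∈ C2.image (fun a => p * a), ‖f n - k‖ ^ 2 / (n : ℝ) := by
      rw [sum_image]
      intro a _ b _ hab
      exact Nat.eq_of_mul_eq_mul_left (hP p hp).pos hab
    rw [e1]
    refine sum_le_sum_of_subset_of_nonneg ?_ fun _ _ _ => by positivity
    intro n hn
    rw [mem_image] at hn
    obtain ⟨a, ha, rfl⟩ := hn
    rw [mem_filter]
    exact ⟨(hmul p hp a ha).1, dvd_mul_right _ _⟩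
  have hstep4 : (∑ n ∈ C1, ‖f n - k‖ ^ 2 / n * ((P.filter (fun p => p ∣ n)).card : ℝ)) ^ 2 ≤
      (∑ n ∈ C1, 4 * (‖f n - k‖ ^ 2 / n)) *
        ∑ n ∈ C1, ((P.filter (fun p => p ∣ n)).card : ℝ) ^ 2 / n := by
    apply Finset.sum_sq_le_sum_mul_sum_of_sq_le_mul
    · intro i _
      positivity
    · intro i _
      positivity
    · intro n hn
      have e1 : ‖f n - k‖ ≤ 2 := by
        refine (norm_sub_le _ _).trans ?_
        rw [h1 n hn]
        linarith only [hk]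
      have e2 : ‖f n - k‖ ^ 2 ≤ 4 := by
        have := norm_nonneg (f n - k)
        nlinarith only [e1, this]
      have e3 : (‖f n - k‖ ^ 2 / (n : ℝ) * ((P.filter (fun p => p ∣ n)).card : ℝ)) ^ 2 =
          ‖f n - k‖ ^ 2 * ((‖f n - k‖ ^ 2 / n) *
            (((P.filter (fun p => p ∣ n)).card : ℝ) ^ 2 / n)) := by
        ring
      have e4 : 4 * (‖f n - k‖ ^ 2 / (n : ℝ)) * (((P.filter (fun p => p ∣ n)).card : ℝ) ^ 2 / n) =
          4 * ((‖f n - k‖ ^ 2 / n) * (((P.filter (fun p => p ∣ n)).card : ℝ) ^ 2 / n)) := by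
        ring
      rw [e3, e4]
      exact mul_le_mul_of_nonneg_right e2 (by positivity)
  rw [← mul_sum, hD] at hstep4
  have hsq := SmallP_sq C1 P hdiv hP S β hS hβ
  have hD0 : 0 ≤ D := by
    rw [← hD]
    exact sum_nonneg fun _ _ => by positivity
  have hstep5 : ∑ n ∈ C1, ‖f n - k‖ ^ 2 / n * ((P.filter (fun p => p ∣ n)).card : ℝ) ≤
      Real.sqrt (4 * D * ((β + β ^ 2) * S)) := by
    refine Real.le_sqrt_of_sq_le (hstep4.trans ?_)
    exact mul_le_mul_of_nonneg_left hsq (by positivity)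
  have hstep6 : β * ∑ a ∈ C2, ‖f a - k‖ ^ 2 / a ≤ β * D :=
    mul_le_mul_of_nonneg_left hstep2 hβ0
  linarith only [hstep1, hstep3, hstep5, hstep6]

/-- the final computation -/
theorem SmallP_fin (K1 K2 w E S2 S D β : ℝ) (hK1 : 0 < K1) (hK2 : 0 < K2) (hw : 0 ≤ w)
    (hE : 0 < E) (hβ : 0 ≤ β) (hS2 : E / 400 ≤ S2) (hS : S ≤ K2 * E) (hD : D ≤ K1 * w * E)
    (hS0 : 0 ≤ S)
    (hw1 : K1 * w ≤ 1 / 400) (hw2 : 640000 * K1 * K2 * w ≤ 1 / 2)
    (h : 2 * β * S2 ≤ β * D + Real.sqrt (4 * D * ((β + β ^ 2) * S))) :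
    β ≤ 2 * (640000 * K1 * K2) * w := by
  have h1 : 2 * β * (E / 400) ≤ 2 * β * S2 := mul_le_mul_of_nonneg_left hS2 (by positivity)
  have h2 : β * D ≤ β * (K1 * w * E) := mul_le_mul_of_nonneg_left hD hβ
  have h3 : Real.sqrt (4 * D * ((β + β ^ 2) * S)) ≤
      E * Real.sqrt (4 * (K1 * w) * ((β + β ^ 2) * K2)) := by
    have e1 : E * Real.sqrt (4 * (K1 * w) * ((β + β ^ 2) * K2)) =
        Real.sqrt (E ^ 2 * (4 * (K1 * w) * ((β + β ^ 2) * K2))) := by
      rw [Real.sqrt_mul (sq_nonneg E), Real.sqrt_sq hE.le]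
    rw [e1]
    refine Real.sqrt_le_sqrt ?_
    have e2 : 4 * D * ((β + β ^ 2) * S) ≤ 4 * (K1 * w * E) * ((β + β ^ 2) * (K2 * E)) := by
      gcongr
    refine e2.trans (le_of_eq ?_)
    ring
  have h4 : β * (K1 * w * E) ≤ β * (1 / 400 * E) := by gcongr
  have h5 : E * (β / 400) ≤ E * Real.sqrt (4 * (K1 * w) * ((β + β ^ 2) * K2)) := by
    have e1 : 2 * β * (E / 400) = E * (β / 400) + β * (1 / 400 * E) := by ring
    linarith only [h, h1, h2, h3, h4]
  have h6 : β / 400 ≤ Real.sqrt (4 * (K1 * w) * ((β + β ^ 2) * K2)) :=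
    le_of_mul_le_mul_left h5 hE
  have h7 : (β / 400) ^ 2 ≤ 4 * (K1 * w) * ((β + β ^ 2) * K2) := by
    have e0 : 0 ≤ 4 * (K1 * w) * ((β + β ^ 2) * K2) := by positivity
    have e1 := pow_le_pow_left₀ (by positivity) h6 2
    rwa [Real.sq_sqrt e0] at e1
  rcases hβ.eq_or_lt with hb | hb
  · rw [← hb]
    positivity
  · obtain ⟨t, ht⟩ : ∃ t, t = 640000 * K1 * K2 * w := ⟨_, rfl⟩
    rw [← ht] at hw2
    have h8 : β * β ≤ β * (t * (1 + β)) := by
      rw [ht]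
      nlinarith only [h7]
    have h9 := le_of_mul_le_mul_left h8 hb
    have h10 : t * (1 + β) = t + t * β := by ring
    have h11 : t * β ≤ 1 / 2 * β := mul_le_mul_of_nonneg_right hw2 hb.le
    have h12 : 2 * (640000 * K1 * K2) * w = 2 * t := by
      rw [ht]
      ring
    rw [h12]
    linarith only [h9, h11]

end Pool.Agent.H78.PE

end

section

/-!
# PE, Cls: the exceptional residues by their gcd with `m`

* `cls_F`: for `d ∣ m`, `m ≥ 1`: `F m η (d y) = λ(d) F (m/d) η y` for every `y` (reduce mod `m`: `d y mod m = d (y mod m/d)`; the conditions `= 0`, `2 (..) ≤ m` correspond; `λ` is multiplicative, `lam_mul`).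
* `cls_sum`: `(d, y) ↦ d y` from `{(d, y) : d ∣ m, y ∈ ExU (m/d) η q}` to `Ex m η q` is injective (`gcd(d y, m) = d` for `y` prime to `m/d`) and well defined (`F m η (q d y) = λ(d) F (m/d) η (q y)`, `λ(d) ≠ 0`).
* `cls`: `G` = the divisors `d ≤ m^κ` of `m` with `Q #ExU (m/d) η q ≤ ε1 φ(m/d)` for all primes `q ≤ Q`.  `#{x < m : gcd(x, m) = d} = φ(m/d)` (`Nat.totient_div_of_dvd`).  So `#Bd m G = ∑_{d ∣ m, d ∉ G} φ(m/d)`;
  the `d > m^κ` contribute `≤ τ(m) m^(1-κ) ≤ β m/2` (divisor bound, see `Pool.Agent.H92.EH3.DivBound`), the others (each has a prime `q ≤ Q` with `φ(m/d) < (Q/ε1) #ExU (m/d) η q`)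
  `≤ ∑_{q ≤ Q} (Q/ε1) ∑_d #ExU (m/d) η q ≤ (Q²/ε1) σ m ≤ β m/2`.
-/

set_option autoImplicit false

namespace Pool.Agent.H78.PE

open Finset
open Pool.Agent.H34PG (lam lam_val lam_mul)
open Pool.Agent.H11.LQ Pool.Agent.H78.PD

theorem cls_F (m d y : ℕ) (hm : 1 ≤ m) (hd : d ∣ m) (η : ℤ) :
    F m η (d * y) = lam d * F (m / d) η y := by
  obtain ⟨k, rfl⟩ := hd
  have hd0 : 0 < d := by
    rcases Nat.eq_zero_or_pos d with h | h
    · subst h
      omega
    · exact h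
  have hk0 : 0 < k := by
    rcases Nat.eq_zero_or_pos k with h | h
    · subst h
      omega
    · exact h
  rw [Nat.mul_div_cancel_left k hd0]
  unfold F
  rw [Nat.mul_mod_mul_left]
  have hr : y % k < k := Nat.mod_lt _ hk0
  obtain ⟨r, hre⟩ : ∃ r, r = y % k := ⟨_, rfl⟩
  rw [← hre] at hr ⊢
  by_cases h1 : r = 0
  · rw [if_pos h1, h1, mul_zero, if_pos rfl, mul_zero]
  · have h2 : 0 < r := Nat.pos_of_ne_zero h1
    have h3 : d * r ≠ 0 := (Nat.mul_pos hd0 h2).ne'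
    rw [if_neg h1, if_neg h3]
    by_cases h4 : 2 * r ≤ k
    · have h5 : 2 * (d * r) ≤ d * k := by
        have : d * (2 * r) ≤ d * k := Nat.mul_le_mul_left d h4
        have e : d * (2 * r) = 2 * (d * r) := by ring
        omega
      rw [if_pos h4, if_pos h5, lam_mul d r hd0 h2]
    · have h5 : ¬ 2 * (d * r) ≤ d * k := by
        intro h6
        apply h4
        have e : 2 * (d * r) = d * (2 * r) := by ring
        rw [e] at h6
        exact Nat.le_of_mul_le_mul_left h6 hd0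
      rw [if_neg h4, if_neg h5, ← Nat.mul_sub, lam_mul d (k - r) hd0 (by omega)]
      ring

theorem cls_sum (m : ℕ) (hm : 1 ≤ m) (η : ℤ) (q : ℕ) :
    ∑ d ∈ m.divisors, ((ExU (m / d) η q).card : ℝ) ≤ ((Ex m η q).card : ℝ) := by
  have hmaps : Set.MapsTo (fun x => Nat.gcd x m) (Ex m η q : Set ℕ) (m.divisors : Set ℕ) := by
    intro x _
    rw [mem_coe, Nat.mem_divisors]
    exact ⟨Nat.gcd_dvd_right x m, by omega⟩
  have h1 := Finset.card_eq_sum_card_fiberwise hmaps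
  have h2 : ∀ d ∈ m.divisors, (ExU (m / d) η q).card ≤ ((Ex m η q).filter (fun x => Nat.gcd x m = d)).card := by
    intro d hd
    rw [Nat.mem_divisors] at hd
    have hd0 : 0 < d := Nat.pos_of_dvd_of_pos hd.1 (by omega)
    apply Finset.card_le_card_of_injOn (fun y => d * y)
    · intro y hy
      rw [mem_coe, mem_ExU, mem_Ex] at hy
      obtain ⟨⟨hy1, hy2⟩, hy3⟩ := hy
      rw [mem_coe, mem_filter, mem_Ex]
      have e : d * (m / d) = m := Nat.mul_div_cancel' hd.1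
      refine ⟨⟨?_, ?_⟩, ?_⟩
      · show d * y < m
        calc d * y < d * (m / d) := Nat.mul_lt_mul_of_pos_left hy1 hd0
          _ = m := e
      · show F m η (q * (d * y)) ≠ lam q * F m η (d * y)
        have e2 : q * (d * y) = d * (q * y) := by ring
        rw [e2, cls_F m d (q * y) hm hd.1, cls_F m d y hm hd.1]
        intro h3
        apply hy2
        have h4 : lam d ≠ 0 := by
          rcases lam_val d with h | h <;> rw [h] <;> norm_num
        have h5 : lam d * F (m / d) η (q * y) = lam d * (lam q * F (m / d) η y) := by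
          rw [h3]
          ring
        exact mul_left_cancel₀ h4 h5
      · show Nat.gcd (d * y) m = d
        conv_lhs => rw [← e]
        rw [Nat.gcd_mul_left, hy3.gcd_eq_one, mul_one]
    · intro y _ y' _ h
      exact Nat.eq_of_mul_eq_mul_left hd0 h
  rw [h1]
  push_cast
  apply Finset.sum_le_sum
  intro d hd
  exact_mod_cast h2 d hd

theorem cls (κ β : ℝ) (hκ : 0 < κ) (hβ : 0 < β) : ∃ m0 : ℕ, ∀ m : ℕ, m0 ≤ m → ∀ η : ℤ, ∀ Q : ℕ,
    1 ≤ Q → ∀ ε1 σ : ℝ, 0 < ε1 → (Q : ℝ) ^ 2 * σ ≤ ε1 * β / 2 →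
    (∀ q : ℕ, q.Prime → q ≤ Q → ((Ex m η q).card : ℝ) ≤ σ * m) →
    ∃ G : Finset ℕ, (∀ d ∈ G, d ∣ m ∧ (d : ℝ) ≤ (m : ℝ) ^ κ ∧
      ∀ q : ℕ, q.Prime → q ≤ Q → (Q : ℝ) * ((ExU (m / d) η q).card : ℝ) ≤ ε1 * (m / d).totient) ∧
      ((Bd m G).card : ℝ) ≤ β * m := by
  classical
  obtain ⟨C, hC1, hC⟩ := Pool.Agent.H92.EH.div_bound (κ / 2) (by positivity)
  have htend : Filter.Tendsto (fun x : ℝ => x ^ (-(κ / 2))) Filter.atTop (nhds 0) :=
    tendsto_rpow_neg_atTop (by positivity)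
  have hpos : 0 < β / (2 * C) := by positivity
  obtain ⟨x0, hx0⟩ := Filter.eventually_atTop.1 (htend.eventually_lt_const hpos)
  refine ⟨⌈x0⌉₊ + 1, fun m hm η Q hQ ε1 σ hε1 hσ hEx => ?_⟩
  have hm1 : 1 ≤ m := by omega
  have hmR : (1 : ℝ) ≤ m := by exact_mod_cast hm1
  have hm0 : (0 : ℝ) < m := by linarith
  have hxm : x0 ≤ m := by
    refine (Nat.le_ceil x0).trans ?_
    have : ⌈x0⌉₊ ≤ m := by omega
    exact_mod_cast this
  have hsmall := hx0 (m : ℝ) hxm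
  set G : Finset ℕ := m.divisors.filter (fun d => (d : ℝ) ≤ (m : ℝ) ^ κ ∧
      ∀ q : ℕ, q.Prime → q ≤ Q → (Q : ℝ) * ((ExU (m / d) η q).card : ℝ) ≤ ε1 * (m / d).totient) with hG
  refine ⟨G, fun d hd => ?_, ?_⟩
  · rw [hG, mem_filter, Nat.mem_divisors] at hd
    exact ⟨hd.1.1, hd.2⟩
  -- the count
  have hcard : ((Bd m G).card : ℝ) = ∑ d ∈ m.divisors.filter (fun d => d ∉ G), ((m / d).totient : ℝ) := by
    have hmaps : Set.MapsTo (fun x => Nat.gcd x m) (Bd m G : Set ℕ) (m.divisors.filter (fun d => d ∉ G) : Set ℕ) := by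
      intro x hx
      rw [mem_coe, mem_Bd] at hx
      rw [coe_filter]
      refine ⟨?_, hx.2⟩
      rw [Nat.mem_divisors]
      exact ⟨Nat.gcd_dvd_right x m, by omega⟩
    rw [Finset.card_eq_sum_card_fiberwise hmaps]
    push_cast
    refine Finset.sum_congr rfl fun d hd => ?_
    rw [mem_filter, Nat.mem_divisors] at hd
    rw [Nat.totient_div_of_dvd hd.1.1]
    congr 2
    ext x
    rw [mem_filter, mem_filter, mem_Bd, mem_range, Nat.gcd_comm m x]
    constructor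
    · rintro ⟨⟨h1, -⟩, h2⟩
      exact ⟨h1, h2⟩
    · rintro ⟨h1, h2⟩
      refine ⟨⟨h1, ?_⟩, h2⟩
      rw [h2]
      exact hd.2
  -- the primes
  set P : Finset ℕ := (Icc 1 Q).filter (fun q => q.Prime) with hP
  have hPc : (P.card : ℝ) ≤ Q := by
    have h1 : P.card ≤ (Icc 1 Q).card := card_le_card (filter_subset _ _)
    rw [Nat.card_Icc] at h1
    have h2 : P.card ≤ Q := by omega
    exact_mod_cast h2
  have hQ0 : (0 : ℝ) < Q := by
    have : (1 : ℝ) ≤ Q := by exact_mod_cast hQ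
    linarith
  have hterm : ∀ d ∈ m.divisors.filter (fun d => d ∉ G), ((m / d).totient : ℝ) ≤
      (m : ℝ) ^ (1 - κ) + ∑ q ∈ P, (Q : ℝ) / ε1 * ((ExU (m / d) η q).card : ℝ) := by
    intro d hd
    rw [mem_filter, Nat.mem_divisors] at hd
    obtain ⟨⟨hdm, -⟩, hdG⟩ := hd
    have hd0 : 0 < d := Nat.pos_of_dvd_of_pos hdm (by omega)
    have hd0R : (0 : ℝ) < d := by exact_mod_cast hd0
    have hnn : 0 ≤ ∑ q ∈ P, (Q : ℝ) / ε1 * ((ExU (m / d) η q).card : ℝ) :=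
      Finset.sum_nonneg fun q _ => by positivity
    by_cases hbig : (d : ℝ) ≤ (m : ℝ) ^ κ
    · have h1 : ¬ ∀ q : ℕ, q.Prime → q ≤ Q → (Q : ℝ) * ((ExU (m / d) η q).card : ℝ) ≤ ε1 * (m / d).totient := by
        intro h2
        apply hdG
        rw [hG, mem_filter, Nat.mem_divisors]
        exact ⟨⟨hdm, by omega⟩, hbig, h2⟩
      push Not at h1
      obtain ⟨q, hq, hqQ, h2⟩ := h1
      have hqP : q ∈ P := by
        rw [hP, mem_filter, mem_Icc]
        exact ⟨⟨hq.one_lt.le, hqQ⟩, hq⟩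
      have h3 : (Q : ℝ) / ε1 * ((ExU (m / d) η q).card : ℝ) ≤ ∑ q ∈ P, (Q : ℝ) / ε1 * ((ExU (m / d) η q).card : ℝ) :=
        Finset.single_le_sum (f := fun q => (Q : ℝ) / ε1 * ((ExU (m / d) η q).card : ℝ)) (fun q _ => by positivity) hqP
      have h4 : ((m / d).totient : ℝ) ≤ (Q : ℝ) / ε1 * ((ExU (m / d) η q).card : ℝ) := by
        rw [div_mul_eq_mul_div, le_div_iff₀ hε1]
        linarith
      have h5 : 0 ≤ (m : ℝ) ^ (1 - κ) := by positivity
      linarith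
    · push Not at hbig
      have h1 : ((m / d).totient : ℝ) ≤ ((m / d : ℕ) : ℝ) := by exact_mod_cast Nat.totient_le _
      have h2 : ((m / d : ℕ) : ℝ) = (m : ℝ) / d := Nat.cast_div hdm hd0R.ne'
      have h3 : (m : ℝ) / d ≤ (m : ℝ) ^ (1 - κ) := by
        rw [div_le_iff₀ hd0R]
        have h4 : (m : ℝ) ^ (1 - κ) * (m : ℝ) ^ κ = m := by
          rw [← Real.rpow_add hm0, sub_add_cancel, Real.rpow_one]
        have h5 : 0 < (m : ℝ) ^ (1 - κ) := by positivity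
        nlinarith
      linarith
  have hsub : m.divisors.filter (fun d => d ∉ G) ⊆ m.divisors := filter_subset _ _
  rw [hcard]
  have hmain : ∑ d ∈ m.divisors.filter (fun d => d ∉ G), ((m / d).totient : ℝ) ≤
      (m.divisors.card : ℝ) * (m : ℝ) ^ (1 - κ) + ∑ q ∈ P, (Q : ℝ) / ε1 * ((Ex m η q).card : ℝ) := by
    refine (Finset.sum_le_sum hterm).trans ?_
    rw [Finset.sum_add_distrib, Finset.sum_const, nsmul_eq_mul]
    apply add_le_add
    · apply mul_le_mul_of_nonneg_right _ (by positivity)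
      exact_mod_cast card_le_card hsub
    · rw [Finset.sum_comm]
      apply Finset.sum_le_sum
      intro q _
      rw [← Finset.mul_sum]
      apply mul_le_mul_of_nonneg_left _ (by positivity)
      refine le_trans ?_ (cls_sum m hm1 η q)
      exact Finset.sum_le_sum_of_subset_of_nonneg hsub fun _ _ _ => by positivity
  have hfirst : (m.divisors.card : ℝ) * (m : ℝ) ^ (1 - κ) ≤ β * m / 2 := by
    have h1 := hC m hm1
    have h2 : (m : ℝ) ^ (κ / 2) * (m : ℝ) ^ (1 - κ) = m * (m : ℝ) ^ (-(κ / 2)) := by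
      rw [← Real.rpow_add hm0]
      have e : κ / 2 + (1 - κ) = 1 + -(κ / 2) := by ring
      rw [e, Real.rpow_add hm0, Real.rpow_one]
    have h3 : (m.divisors.card : ℝ) * (m : ℝ) ^ (1 - κ) ≤ C * (m : ℝ) ^ (κ / 2) * (m : ℝ) ^ (1 - κ) :=
      mul_le_mul_of_nonneg_right h1 (by positivity)
    rw [mul_assoc, h2] at h3
    have h4 : C * (m * (m : ℝ) ^ (-(κ / 2))) ≤ C * (m * (β / (2 * C))) := by
      apply mul_le_mul_of_nonneg_left _ (by linarith)
      exact mul_le_mul_of_nonneg_left hsmall.le hm0.le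
    have h5 : C * (m * (β / (2 * C))) = β * m / 2 := by
      field_simp
    linarith
  have hsecond : ∑ q ∈ P, (Q : ℝ) / ε1 * ((Ex m η q).card : ℝ) ≤ β * m / 2 := by
    rcases P.eq_empty_or_nonempty with hPe | ⟨q0, hq0⟩
    · rw [hPe, Finset.sum_empty]
      positivity
    · have hmem : ∀ q ∈ P, q.Prime ∧ q ≤ Q := by
        intro q hq
        rw [hP, mem_filter, mem_Icc] at hq
        exact ⟨hq.2, hq.1.2⟩
      have hσ0 : 0 ≤ σ * m := le_trans (by positivity) (hEx q0 (hmem q0 hq0).1 (hmem q0 hq0).2)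
      have h1 : ∑ q ∈ P, (Q : ℝ) / ε1 * ((Ex m η q).card : ℝ) ≤ ∑ q ∈ P, (Q : ℝ) / ε1 * (σ * m) := by
        apply Finset.sum_le_sum
        intro q hq
        exact mul_le_mul_of_nonneg_left (hEx q (hmem q hq).1 (hmem q hq).2) (by positivity)
      rw [Finset.sum_const, nsmul_eq_mul] at h1
      have h2 : (P.card : ℝ) * ((Q : ℝ) / ε1 * (σ * m)) ≤ Q * ((Q : ℝ) / ε1 * (σ * m)) :=
        mul_le_mul_of_nonneg_right hPc (by positivity)
      have h3 : (Q : ℝ) * ((Q : ℝ) / ε1 * (σ * m)) = (Q : ℝ) ^ 2 * σ / ε1 * m := by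
        field_simp
      have h4 : (Q : ℝ) ^ 2 * σ / ε1 ≤ β / 2 := by
        rw [div_le_iff₀ hε1]
        linarith
      have h5 : (Q : ℝ) ^ 2 * σ / ε1 * m ≤ β / 2 * m := mul_le_mul_of_nonneg_right h4 hm0.le
      linarith
  linarith

end Pool.Agent.H78.PE

end
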