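import Pool.Agent.H94.PG.H78.PG.TT5
import Pool.Agent.H94.PG.H78.PG.TT6
import Pool.Agent.H94.PG.M08

/-! The parts of this file: H78.PG.TT7, H78.PG.Analytic. -/

section

/-!
# LQ / PG, TT7: one real character close to `λ` on all intervals

`Y = {χ ∈ XX : VV χ ≤ m^(-δ/14)}`; by `t5` the weight of `XX \ Y` is `≤ m^(-δ/7 + δ/14) = m^(-δ/14)`; with `weight` and
`weight_one` the weight of `Y` is positive, so there is `χ ∈ Y`; by `t6` `Y = {χ}`.  `χ⁻¹ ∈ Y` too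
(`χ⁻¹ x = conj (χ x)`, `‖1 + conj z‖ = ‖1 + z‖`), so `χ⁻¹ = χ`, `χ² = 1`.  `χ ≠ 1`: there is a prime `q ≤ BB` not dividing `m`
(`PB_card`) and `‖1 + 1‖ = 2 > m^(-δ/4)`.
`‖GG(x) - cc χ * χ x‖ ≤ ∑_{XX \ {χ}} ‖cc‖ ≤ (#XX m^(-δ/14))^(1/2) ≤ m^(-δ/48)` (`X_card`).  `t4` at `M = 1`: `‖1 - GG(1)‖ ≤ m^(-δ/10)`,
so `‖1 - cc χ‖ ≤ 2 m^(-δ/48)` and `‖GG(x) - χ x‖ ≤ 3 m^(-δ/48)` for all `x` prime to `m`.  By `t4`,
`∑_{cop m M} ‖λ - χ‖² ≤ 2 M m^(-δ/5) + 18 M m^(-δ/24) ≤ M m^(-δ/30)`; and `λ(x), χ(x) ∈ {1,-1}` (`χ² = 1`), so `‖λ - χ‖ ≤ ‖λ - χ‖²`.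
-/

set_option autoImplicit false

namespace Pool.Agent.H78.PG

open Finset
open Pool.Agent.H34PG (lam lam_val lam_mul lam_prime)
open Pool.Agent.H11.LQ

theorem tt7_VV_inv (m : ℕ) [NeZero m] (χ : DirichletCharacter ℂ m) : VV m χ⁻¹ = VV m χ := by
  unfold VV
  refine Finset.sum_congr rfl fun p _ => ?_
  have h : χ⁻¹ (p : ZMod m) = star (χ (p : ZMod m)) := by
    rw [← MulChar.star_apply']
  have h2 : (1 : ℂ) + χ⁻¹ (p : ZMod m) = star (1 + χ (p : ZMod m)) := by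
    rw [h, star_add, star_one]
  rw [h2, norm_star]

/-- weight of the bad characters -/
theorem tt7_bad (δ : ℝ) (m : ℕ) [NeZero m] (hm : 1 ≤ m) (η : ℤ)
    (h5 : ∑ χ ∈ XX δ m, ‖cc m (FC m η) χ‖ ^ 2 * VV m χ ≤ (m : ℝ) ^ (-(δ / 7)))
    (Z : Finset (DirichletCharacter ℂ m)) (hZ : Z ⊆ XX δ m)
    (hZ2 : ∀ χ ∈ Z, ¬ VV m χ ≤ (m : ℝ) ^ (-(δ / 14))) :
    ∑ χ ∈ Z, ‖cc m (FC m η) χ‖ ^ 2 ≤ (m : ℝ) ^ (-(δ / 14)) := by
  have hmR : (0 : ℝ) < (m : ℝ) := by exact_mod_cast hm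
  have hV : ∀ χ : DirichletCharacter ℂ m, 0 ≤ VV m χ := fun χ => by
    unfold VV
    exact Finset.sum_nonneg fun p _ => by positivity
  have h1 : (∑ χ ∈ Z, ‖cc m (FC m η) χ‖ ^ 2) * (m : ℝ) ^ (-(δ / 14)) ≤ (m : ℝ) ^ (-(δ / 7)) := by
    rw [Finset.sum_mul]
    calc ∑ χ ∈ Z, ‖cc m (FC m η) χ‖ ^ 2 * (m : ℝ) ^ (-(δ / 14))
        ≤ ∑ χ ∈ Z, ‖cc m (FC m η) χ‖ ^ 2 * VV m χ := by
          refine Finset.sum_le_sum fun χ hχ => ?_
          exact mul_le_mul_of_nonneg_left (le_of_lt (not_le.mp (hZ2 χ hχ))) (by positivity)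
      _ ≤ ∑ χ ∈ XX δ m, ‖cc m (FC m η) χ‖ ^ 2 * VV m χ := by
          refine Finset.sum_le_sum_of_subset_of_nonneg hZ fun χ _ _ => ?_
          exact mul_nonneg (by positivity) (hV χ)
      _ ≤ _ := h5
  have h2 : (m : ℝ) ^ (-(δ / 7)) = (m : ℝ) ^ (-(δ / 14)) * (m : ℝ) ^ (-(δ / 14)) := by
    rw [← Real.rpow_add hmR]
    congr 1
    ring
  rw [h2] at h1
  exact le_of_mul_le_mul_right h1 (Real.rpow_pos_of_pos hmR _)

/-- the deviation of `GG` from its main term -/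
theorem tt7_dev (δ : ℝ) (h0 : 0 < δ) (m : ℕ) [NeZero m] (hm : 1 ≤ m) (η : ℤ)
    (hX : ((XX δ m).card : ℝ) ≤ (m : ℝ) ^ (δ / 40))
    (χ : DirichletCharacter ℂ m) (hχ : χ ∈ XX δ m)
    (hw : ∀ Z : Finset (DirichletCharacter ℂ m), Z ⊆ XX δ m → χ ∉ Z →
      ∑ ψ ∈ Z, ‖cc m (FC m η) ψ‖ ^ 2 ≤ (m : ℝ) ^ (-(δ / 14))) (x : ℕ) :
    ‖GG δ m η x - cc m (FC m η) χ * χ (x : ZMod m)‖ ≤ (m : ℝ) ^ (-(δ / 48)) := by
  classical
  have hmR : (0 : ℝ) < (m : ℝ) := by exact_mod_cast hm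
  have hm1 : (1 : ℝ) ≤ (m : ℝ) := by exact_mod_cast hm
  have h1 : GG δ m η x - cc m (FC m η) χ * χ (x : ZMod m)
      = ∑ ψ ∈ (XX δ m).erase χ, cc m (FC m η) ψ * ψ (x : ZMod m) := by
    unfold GG
    rw [← Finset.add_sum_erase _ _ hχ]
    ring
  have h2 : ‖GG δ m η x - cc m (FC m η) χ * χ (x : ZMod m)‖
      ≤ ∑ ψ ∈ (XX δ m).erase χ, ‖cc m (FC m η) ψ‖ := by
    rw [h1]
    refine (norm_sum_le _ _).trans (Finset.sum_le_sum fun ψ _ => ?_)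
    rw [norm_mul]
    have := DirichletCharacter.norm_le_one ψ (x : ZMod m)
    have h3 := norm_nonneg (cc m (FC m η) ψ)
    nlinarith
  have h3 : (∑ ψ ∈ (XX δ m).erase χ, ‖cc m (FC m η) ψ‖) ^ 2
      ≤ ((XX δ m).erase χ).card * ∑ ψ ∈ (XX δ m).erase χ, ‖cc m (FC m η) ψ‖ ^ 2 :=
    sq_sum_le_card_mul_sum_sq
  have h4 : ∑ ψ ∈ (XX δ m).erase χ, ‖cc m (FC m η) ψ‖ ^ 2 ≤ (m : ℝ) ^ (-(δ / 14)) :=
    hw _ (Finset.erase_subset _ _) (Finset.notMem_erase _ _)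
  have h5 : (((XX δ m).erase χ).card : ℝ) ≤ (m : ℝ) ^ (δ / 40) := by
    refine le_trans ?_ hX
    exact_mod_cast Finset.card_le_card (Finset.erase_subset _ _)
  have h6 : (((XX δ m).erase χ).card : ℝ) * ∑ ψ ∈ (XX δ m).erase χ, ‖cc m (FC m η) ψ‖ ^ 2
      ≤ (m : ℝ) ^ (δ / 40) * (m : ℝ) ^ (-(δ / 14)) := by
    refine mul_le_mul h5 h4 (Finset.sum_nonneg fun _ _ => by positivity) (by positivity)
  have h7 : (m : ℝ) ^ (δ / 40) * (m : ℝ) ^ (-(δ / 14)) ≤ ((m : ℝ) ^ (-(δ / 48))) ^ 2 := by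
    rw [← Real.rpow_add hmR, ← Real.rpow_natCast, ← Real.rpow_mul hmR.le]
    refine Real.rpow_le_rpow_of_exponent_le hm1 ?_
    push_cast
    linarith
  have h8 : (0 : ℝ) ≤ ∑ ψ ∈ (XX δ m).erase χ, ‖cc m (FC m η) ψ‖ :=
    Finset.sum_nonneg fun _ _ => norm_nonneg _
  refine h2.trans ?_
  refine abs_le_of_sq_le_sq' ?_ (by positivity) |>.2
  exact h3.trans (h6.trans h7)

theorem t7 (δ : ℝ) (h0 : 0 < δ) (h1 : δ ≤ 1 / 100) : ∃ m0 : ℕ, ∀ (m : ℕ) [NeZero m],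
    m0 ≤ m → ∀ η : ℤ, Hyp δ m η → ∃ χ : DirichletCharacter ℂ m, χ ^ 2 = 1 ∧ χ ≠ 1 ∧
      ∀ M : ℕ, 1 ≤ M → 2 * M ≤ m →
        ∑ x ∈ cop m M, ‖((lam x : ℤ) : ℂ) - χ (x : ZMod m)‖ ≤ M * (m : ℝ) ^ (-(δ / 30)) := by
  classical
  obtain ⟨n1, H1⟩ := t5 δ h0 h1
  obtain ⟨n2, H2⟩ := t6 δ h0
  obtain ⟨n3, H3⟩ := t4 δ h0 h1
  obtain ⟨n4, H4⟩ := weight δ h0 h1
  obtain ⟨n5, H5⟩ := X_card δ h0 h1
  obtain ⟨n6, H6⟩ := PB_card δ h0 h1
  obtain ⟨n7, H7⟩ := BB_low δ h0 h1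
  obtain ⟨n8, H8⟩ := grow 3 0 (δ / 14) (by positivity)
  obtain ⟨n9, H9⟩ := grow 20 0 (δ / 120) (by positivity)
  refine ⟨n1 + n2 + n3 + n4 + n5 + n6 + n7 + n8 + n9 + 3, fun m _ hm η hyp => ?_⟩
  have hm3 : 3 ≤ m := by omega
  have hmR : (0 : ℝ) < (m : ℝ) := by
    have : 0 < m := by omega
    exact_mod_cast this
  have hm1 : (1 : ℝ) ≤ (m : ℝ) := by
    have : 1 ≤ m := by omega
    exact_mod_cast this
  replace H1 := H1 m (by omega) η hyp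
  replace H2 := H2 m (by omega)
  replace H3 := H3 m (by omega) η hyp
  replace H4 := H4 m (by omega) η hyp
  replace H5 := H5 m (by omega)
  replace H6 := H6 m (by omega)
  replace H7 := (H7 m (by omega)).1
  replace H8 := H8 m (by omega)
  replace H9 := H9 m (by omega)
  rw [pow_zero, mul_one] at H8 H9
  have hη := hyp.1
  have hW := weight_one m (by omega) η hη
  -- a good character
  obtain ⟨χ, hχX, hχV⟩ : ∃ χ ∈ XX δ m, VV m χ ≤ (m : ℝ) ^ (-(δ / 14)) := by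
    by_contra hcon
    push Not at hcon
    have hb := tt7_bad δ m (by omega) η H1 (XX δ m) (Finset.Subset.refl _)
      (fun ψ hψ => not_le.mpr (hcon ψ hψ))
    have hs : ∑ ψ : DirichletCharacter ℂ m, ‖cc m (FC m η) ψ‖ ^ 2
        = ∑ ψ ∈ XX δ m, ‖cc m (FC m η) ψ‖ ^ 2
          + ∑ ψ ∈ univ.filter (fun ψ => ψ ∉ XX δ m), ‖cc m (FC m η) ψ‖ ^ 2 := by
      have h := Finset.sum_filter_add_sum_filter_not (univ : Finset (DirichletCharacter ℂ m))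
        (fun ψ => ψ ∈ XX δ m) (fun ψ => ‖cc m (FC m η) ψ‖ ^ 2)
      rw [← h]
      congr 2
      ext ψ
      simp
    have h4' : (m : ℝ) ^ (-(δ / 4)) ≤ (m : ℝ) ^ (-(δ / 14)) :=
      Real.rpow_le_rpow_of_exponent_le hm1 (by linarith)
    have h14 : (m : ℝ) ^ (-(δ / 14)) ≤ 1 / 3 := by
      rw [Real.rpow_neg hmR.le, inv_eq_one_div]
      exact one_div_le_one_div_of_le (by norm_num) H8
    rw [hW] at hs
    linarith
  have huniq : ∀ ψ : DirichletCharacter ℂ m, VV m ψ ≤ (m : ℝ) ^ (-(δ / 14)) → ψ = χ :=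
    fun ψ hψ => H2 ψ χ hψ hχV
  have hinv : χ⁻¹ = χ := huniq _ (by rw [tt7_VV_inv]; exact hχV)
  have hsq : χ ^ 2 = 1 := by
    rw [pow_two]
    nth_rewrite 1 [← hinv]
    exact inv_mul_cancel χ
  have hneg4 : (m : ℝ) ^ (-(δ / 4)) ≤ 1 :=
    Real.rpow_le_one_of_one_le_of_nonpos hm1 (by linarith)
  have hne : χ ≠ 1 := by
    intro h
    have hpos : (0 : ℝ) < ((PB δ m).card : ℝ) := by
      refine lt_of_lt_of_le ?_ H6
      have h2 : (2 : ℝ) ≤ (BB δ m : ℝ) := by exact_mod_cast H7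
      have h3 : 0 < Real.log m := Real.log_pos (by
        have : 1 < m := by omega
        exact_mod_cast this)
      positivity
    have hcard : 0 < (PB δ m).card := by exact_mod_cast hpos
    obtain ⟨q, hq⟩ := Finset.card_pos.mp hcard
    rw [mem_PB] at hq
    have h2 := mem_XX.mp hχX q hq.2.1 hq.1 hq.2.2
    have hu : IsUnit (q : ZMod m) := by
      rw [ZMod.isUnit_iff_coprime]
      exact (Nat.Prime.coprime_iff_not_dvd hq.2.1).mpr hq.2.2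
    rw [h, MulChar.one_apply hu] at h2
    have h3 : ‖(1 : ℂ) + 1‖ = 2 := by norm_num
    rw [h3] at h2
    linarith
  refine ⟨χ, hsq, hne, ?_⟩
  have hw : ∀ Z : Finset (DirichletCharacter ℂ m), Z ⊆ XX δ m → χ ∉ Z →
      ∑ ψ ∈ Z, ‖cc m (FC m η) ψ‖ ^ 2 ≤ (m : ℝ) ^ (-(δ / 14)) := by
    intro Z hZ hχZ
    refine tt7_bad δ m (by omega) η H1 Z hZ fun ψ hψ hV => hχZ ?_
    rw [← huniq ψ hV]
    exact hψ
  have hdev := tt7_dev δ h0 m (by omega) η H5 χ hχX hw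
  have hcop1 : cop m 1 = {1} := by
    ext x
    rw [mem_cop, Finset.mem_singleton]
    constructor
    · rintro ⟨a, b, _⟩
      omega
    · rintro rfl
      exact ⟨le_rfl, le_rfl, Nat.coprime_one_left m⟩
  set t : ℝ := (m : ℝ) ^ (-(δ / 48)) with ht
  have ht0 : 0 < t := Real.rpow_pos_of_pos hmR _
  have hlam1 : lam 1 = 1 := by
    have h := lam_mul 1 1 one_pos one_pos
    rcases lam_val 1 with h2 | h2
    · exact h2
    · rw [mul_one, h2] at h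
      norm_num at h
  have hG1 : ‖(1 : ℂ) - GG δ m η 1‖ ≤ t := by
    have h := H3 1 le_rfl (by omega)
    rw [hcop1, Finset.sum_singleton, hlam1] at h
    push_cast at h
    rw [one_mul] at h
    have h2 : (m : ℝ) ^ (-(δ / 5)) ≤ t ^ 2 := by
      rw [ht, ← Real.rpow_natCast, ← Real.rpow_mul hmR.le]
      refine Real.rpow_le_rpow_of_exponent_le hm1 ?_
      push_cast
      linarith
    exact (abs_le_of_sq_le_sq' (h.trans h2) ht0.le).2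
  have hc1 : ‖(1 : ℂ) - cc m (FC m η) χ‖ ≤ 2 * t := by
    have h := hdev 1
    rw [Nat.cast_one, map_one, mul_one] at h
    have h2 : (1 : ℂ) - cc m (FC m η) χ
        = (1 - GG δ m η 1) + (GG δ m η 1 - cc m (FC m η) χ) := by ring
    rw [h2]
    refine (norm_add_le _ _).trans ?_
    linarith
  have hGx : ∀ x : ℕ, ‖GG δ m η x - χ (x : ZMod m)‖ ≤ 3 * t := by
    intro x
    have h := hdev x
    have h2 : GG δ m η x - χ (x : ZMod m)
        = (GG δ m η x - cc m (FC m η) χ * χ (x : ZMod m))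
          - (1 - cc m (FC m η) χ) * χ (x : ZMod m) := by ring
    rw [h2]
    refine (norm_sub_le _ _).trans ?_
    rw [norm_mul]
    have h3 := DirichletCharacter.norm_le_one χ (x : ZMod m)
    have h4 := norm_nonneg (χ (x : ZMod m))
    have h5 := norm_nonneg ((1 : ℂ) - cc m (FC m η) χ)
    nlinarith
  intro M hM1 hM2
  have h3 := H3 M hM1 hM2
  have hcc : ((cop m M).card : ℝ) ≤ M := by
    have : (cop m M).card ≤ M := by
      unfold cop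
      refine (Finset.card_filter_le _ _).trans ?_
      simp
    exact_mod_cast this
  have hval : ∀ x ∈ cop m M, ‖((lam x : ℤ) : ℂ) - χ (x : ZMod m)‖
      ≤ 2 * ‖((lam x : ℤ) : ℂ) - GG δ m η x‖ ^ 2 + 18 * t ^ 2 := by
    intro x hx
    rw [mem_cop] at hx
    have hu : IsUnit (x : ZMod m) := by
      rw [ZMod.isUnit_iff_coprime]
      exact hx.2.2
    have hχx : χ (x : ZMod m) = 1 ∨ χ (x : ZMod m) = -1 := by
      have h : χ (x : ZMod m) ^ 2 = 1 := by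
        rw [← MulChar.pow_apply' χ two_ne_zero, hsq, MulChar.one_apply hu]
      have h' : (χ (x : ZMod m) - 1) * (χ (x : ZMod m) + 1) = 0 := by linear_combination h
      rcases mul_eq_zero.mp h' with h2 | h2
      · exact Or.inl (sub_eq_zero.mp h2)
      · exact Or.inr (eq_neg_of_add_eq_zero_left h2)
    have h5 : ‖((lam x : ℤ) : ℂ) - χ (x : ZMod m)‖ ≤ ‖((lam x : ℤ) : ℂ) - χ (x : ZMod m)‖ ^ 2 := by
      rcases hχx with h | h <;> rcases lam_val x with h2 | h2 <;> rw [h, h2] <;> norm_num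
    have h6 : ‖((lam x : ℤ) : ℂ) - χ (x : ZMod m)‖
        ≤ ‖((lam x : ℤ) : ℂ) - GG δ m η x‖ + ‖GG δ m η x - χ (x : ZMod m)‖ := by
      have h7 : ((lam x : ℤ) : ℂ) - χ (x : ZMod m)
          = (((lam x : ℤ) : ℂ) - GG δ m η x) + (GG δ m η x - χ (x : ZMod m)) := by ring
      rw [h7]
      exact norm_add_le _ _
    have h8 := hGx x
    have h9 := norm_nonneg (((lam x : ℤ) : ℂ) - χ (x : ZMod m))
    have h10 := norm_nonneg (((lam x : ℤ) : ℂ) - GG δ m η x)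
    have h11 := norm_nonneg (GG δ m η x - χ (x : ZMod m))
    have h12 : ‖((lam x : ℤ) : ℂ) - χ (x : ZMod m)‖
        ≤ ‖((lam x : ℤ) : ℂ) - GG δ m η x‖ + 3 * t := h6.trans (by linarith)
    have h13 : ‖((lam x : ℤ) : ℂ) - χ (x : ZMod m)‖ ^ 2
        ≤ (‖((lam x : ℤ) : ℂ) - GG δ m η x‖ + 3 * t) ^ 2 := pow_le_pow_left₀ h9 h12 2
    nlinarith [sq_nonneg (‖((lam x : ℤ) : ℂ) - GG δ m η x‖ - 3 * t)]
  have hsum : ∑ x ∈ cop m M, ‖((lam x : ℤ) : ℂ) - χ (x : ZMod m)‖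
      ≤ 2 * (M * (m : ℝ) ^ (-(δ / 5))) + M * (18 * t ^ 2) := by
    calc ∑ x ∈ cop m M, ‖((lam x : ℤ) : ℂ) - χ (x : ZMod m)‖
        ≤ ∑ x ∈ cop m M, (2 * ‖((lam x : ℤ) : ℂ) - GG δ m η x‖ ^ 2 + 18 * t ^ 2) :=
          Finset.sum_le_sum hval
      _ = 2 * ∑ x ∈ cop m M, ‖((lam x : ℤ) : ℂ) - GG δ m η x‖ ^ 2
          + (cop m M).card * (18 * t ^ 2) := by
          rw [Finset.sum_add_distrib, ← Finset.mul_sum, Finset.sum_const, nsmul_eq_mul]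
      _ ≤ _ := by
          have h5 : (0 : ℝ) ≤ 18 * t ^ 2 := by positivity
          have h6 := mul_le_mul_of_nonneg_right hcc h5
          linarith
  have h24 : t ^ 2 = (m : ℝ) ^ (-(δ / 24)) := by
    rw [ht, ← Real.rpow_natCast, ← Real.rpow_mul hmR.le]
    congr 1
    push_cast
    ring
  have h5' : (m : ℝ) ^ (-(δ / 5)) ≤ (m : ℝ) ^ (-(δ / 24)) :=
    Real.rpow_le_rpow_of_exponent_le hm1 (by linarith)
  have h30 : 20 * (m : ℝ) ^ (-(δ / 24)) ≤ (m : ℝ) ^ (-(δ / 30)) := by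
    have h : (m : ℝ) ^ (-(δ / 30)) = (m : ℝ) ^ (δ / 120) * (m : ℝ) ^ (-(δ / 24)) := by
      rw [← Real.rpow_add hmR]
      congr 1
      ring
    rw [h]
    exact mul_le_mul_of_nonneg_right H9 (by positivity)
  refine hsum.trans ?_
  rw [h24]
  have hMR : (0 : ℝ) ≤ (M : ℝ) := by positivity
  have h6 : 2 * ((M : ℝ) * (m : ℝ) ^ (-(δ / 5))) + M * (18 * (m : ℝ) ^ (-(δ / 24)))
      ≤ M * (20 * (m : ℝ) ^ (-(δ / 24))) := by
    have h7 := mul_le_mul_of_nonneg_left h5' hMR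
    nlinarith
  exact h6.trans (mul_le_mul_of_nonneg_left h30 hMR)

end Pool.Agent.H78.PG

end

section

/-!
# LQ / PG: the analytic part

`M = m/2`, `χ` from `t7`.  `DD m M χ = ∑_{d ∈ cop m M} λ(d) ⌊M/d⌋ + ∑_{d ∈ cop m M} (χ(d) - λ(d)) ⌊M/d⌋`; the first sum is
`≤ √M m^θ` (`lam_sum`, `prod_le`), the second `≤ M ∑ ‖χ - λ‖/d ≤ M m^(-δ/30) (1 + log m)` (`psum`).  With `hyper`:
`M ‖L(1,χ)‖ ≤ M m^(-δ/40)`, against `siegel_all`.
-/

set_option autoImplicit false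

namespace Pool.Agent.H78.PG

open Finset
open Pool.Agent.H34PG (lam lam_val lam_mul lam_prime)
open Pool.Agent.H11.LQ

/-- `DD` as a sum over the numbers prime to `m` -/
theorem DD_cop (m M : ℕ) (χ : DirichletCharacter ℂ m) :
    DD m M χ = ∑ d ∈ cop m M, χ (d : ZMod m) * ((M / d : ℕ) : ℂ) := by
  unfold DD cop
  rw [Finset.sum_filter]
  refine Finset.sum_congr rfl (fun d _ => ?_)
  split_ifs with h
  · rfl
  · have : χ (d : ZMod m) = 0 := by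
      apply χ.map_nonunit
      rw [ZMod.isUnit_iff_coprime]
      exact h
    rw [this, zero_mul]

/-- the comparison of `DD` with the Liouville sum -/
theorem DD_le (m M : ℕ) (χ : DirichletCharacter ℂ m) (θ : ℝ) (hθ : 0 ≤ θ)
    (h : ∀ N : ℕ, 1 ≤ N → N ≤ M →
      ∑ x ∈ cop m N, ‖((lam x : ℤ) : ℂ) - χ (x : ZMod m)‖ ≤ θ * N) :
    ‖DD m M χ‖ ≤ |∑ d ∈ cop m M, ((lam d : ℤ) : ℝ) * ((M / d : ℕ) : ℝ)|
      + M * (θ * (1 + Real.log M)) := by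
  set a : ℕ → ℝ := fun n => if n.Coprime m then ‖((lam n : ℤ) : ℂ) - χ (n : ZMod m)‖ else 0
    with ha
  have hA : ∀ N : ℕ, ∑ n ∈ Icc 1 N, a n = ∑ x ∈ cop m N, ‖((lam x : ℤ) : ℂ) - χ (x : ZMod m)‖ := by
    intro N
    unfold cop
    rw [Finset.sum_filter]
  have h1 := psum a θ hθ M (fun N hN1 hN2 => by rw [hA]; exact h N hN1 hN2)
  have h2 : DD m M χ = (∑ d ∈ cop m M, ((lam d : ℤ) : ℂ) * ((M / d : ℕ) : ℂ))
      - ∑ d ∈ cop m M, (((lam d : ℤ) : ℂ) - χ (d : ZMod m)) * ((M / d : ℕ) : ℂ) := by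
    rw [DD_cop, ← Finset.sum_sub_distrib]
    refine Finset.sum_congr rfl (fun d _ => ?_)
    ring
  have h3 : ‖∑ d ∈ cop m M, ((lam d : ℤ) : ℂ) * ((M / d : ℕ) : ℂ)‖
      = |∑ d ∈ cop m M, ((lam d : ℤ) : ℝ) * ((M / d : ℕ) : ℝ)| := by
    rw [← Real.norm_eq_abs, ← Complex.norm_real]
    push_cast
    rfl
  have h4 : ‖∑ d ∈ cop m M, (((lam d : ℤ) : ℂ) - χ (d : ZMod m)) * ((M / d : ℕ) : ℂ)‖
      ≤ M * ∑ n ∈ Icc 1 M, a n / n := by
    refine (norm_sum_le _ _).trans ?_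
    rw [Finset.mul_sum]
    have h5 : ∑ n ∈ Icc 1 M, (M : ℝ) * (a n / n)
        = ∑ n ∈ cop m M, (M : ℝ) * (‖((lam n : ℤ) : ℂ) - χ (n : ZMod m)‖ / n) := by
      unfold cop
      rw [Finset.sum_filter]
      refine Finset.sum_congr rfl (fun n _ => ?_)
      simp only [ha]
      split_ifs <;> simp
    rw [h5]
    refine Finset.sum_le_sum (fun d hd => ?_)
    rw [norm_mul, Complex.norm_natCast]
    have h6 : ((M / d : ℕ) : ℝ) ≤ (M : ℝ) / d := Nat.cast_div_le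
    calc ‖((lam d : ℤ) : ℂ) - χ (d : ZMod m)‖ * ((M / d : ℕ) : ℝ)
        ≤ ‖((lam d : ℤ) : ℂ) - χ (d : ZMod m)‖ * ((M : ℝ) / d) :=
          mul_le_mul_of_nonneg_left h6 (norm_nonneg _)
      _ = (M : ℝ) * (‖((lam d : ℤ) : ℂ) - χ (d : ZMod m)‖ / d) := by ring
  rw [h2]
  refine (norm_sub_le _ _).trans ?_
  rw [h3]
  have h7 : (M : ℝ) * ∑ n ∈ Icc 1 M, a n / n ≤ M * (θ * (1 + Real.log M)) :=
    mul_le_mul_of_nonneg_left h1 (Nat.cast_nonneg _)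
  linarith only [h4, h7]

/-- the case of small `δ` -/
theorem analytic_small (δ : ℝ) (h0 : 0 < δ) (h1 : δ ≤ 1 / 100) : ∃ m0 : ℕ, ∀ (m : ℕ),
    m0 ≤ m → ∀ η : ℤ, ¬ Hyp δ m η := by
  obtain ⟨m1, H1⟩ := t7 δ h0 h1
  obtain ⟨m2, H2⟩ := siegel_all (δ / 50) (by positivity)
  obtain ⟨m3, H3⟩ := prod_le (1 / 100) (by norm_num)
  obtain ⟨m4, H4⟩ := KK_le (1 / 100) (by norm_num)
  obtain ⟨m5, H5⟩ := grow 3 1 (δ / 120) (by positivity)
  obtain ⟨m6, H6⟩ := grow 30 0 (1 / 10) (by norm_num)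
  refine ⟨max 4 (max m1 (max m2 (max m3 (max m4 (max m5 m6))))), fun m hm η hH => ?_⟩
  simp only [max_le_iff] at hm
  obtain ⟨hm4', hm1, hm2, hm3, hm4, hm5, hm6⟩ := hm
  haveI : NeZero m := ⟨by omega⟩
  obtain ⟨χ, hχ2, hχ1, hχM⟩ := H1 m hm1 η hH
  have hS := H2 m hm2 χ hχ2 hχ1
  have hP := H3 m hm3
  have hK := H4 m hm4
  have hL := H5 m hm5
  have hG := H6 m hm6
  rw [pow_one] at hL
  rw [pow_zero, mul_one] at hG
  set M : ℕ := m / 2 with hM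
  have hM1 : 1 ≤ M := by omega
  have hM2 : 2 * M ≤ m := by omega
  have hmR : (4 : ℝ) ≤ m := by exact_mod_cast hm4'
  have hm0 : (0 : ℝ) < m := by linarith only [h0, h1, hmR]
  have hm1' : (1 : ℝ) ≤ m := by linarith only [h0, h1, hmR]
  have hMR1 : (1 : ℝ) ≤ M := by exact_mod_cast hM1
  have hMR0 : (0 : ℝ) < M := by linarith only [h0, h1, hMR1]
  have hM4 : (m : ℝ) ≤ 4 * M := by
    have : m ≤ 4 * M := by omega
    exact_mod_cast this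
  have hMm : (M : ℝ) ≤ m := by
    have : M ≤ m := by omega
    exact_mod_cast this
  -- the square root of M
  have hsM : (m : ℝ) ^ (1 / 2 : ℝ) ≤ 2 * Real.sqrt M := by
    rw [← Real.sqrt_eq_rpow]
    have h4 : Real.sqrt m ≤ Real.sqrt (4 * M) := Real.sqrt_le_sqrt hM4
    have h5 : Real.sqrt (4 * M) = 2 * Real.sqrt M := by
      rw [Real.sqrt_mul (by norm_num), show (4 : ℝ) = 2 ^ 2 by norm_num,
        Real.sqrt_sq (by norm_num)]
    linarith only [h4, h5]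
  have hKM : KK m ≤ M := by
    have h4 : (m : ℝ) ^ (1 / 2 + 1 / 100 : ℝ) * (m : ℝ) ^ (1 / 10 : ℝ) ≤ m := by
      rw [← Real.rpow_add hm0]
      calc (m : ℝ) ^ (1 / 2 + 1 / 100 + 1 / 10 : ℝ) ≤ (m : ℝ) ^ (1 : ℝ) :=
            Real.rpow_le_rpow_of_exponent_le hm1' (by norm_num)
        _ = m := Real.rpow_one _
    have h5 : 0 ≤ (m : ℝ) ^ (1 / 2 + 1 / 100 : ℝ) := Real.rpow_nonneg hm0.le _
    nlinarith only [hK, hM4, h4, h0, h1, hMR1, h5, hG]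
  have hHy := hyper m χ hχ1 M hM1 hKM
  have hDD := DD_le m M χ ((m : ℝ) ^ (-(δ / 30))) (Real.rpow_nonneg hm0.le _)
    (fun N hN1 hN2 => by
      rw [mul_comm]
      exact hχM N hN1 (by omega))
  have hLam := lam_sum m M (by omega)
  -- the three error terms
  set T : ℝ := (m : ℝ) ^ (-(δ / 40)) with hT
  have hT0 : 0 < T := Real.rpow_pos_of_pos hm0 _
  have hs0 : 0 < Real.sqrt M := Real.sqrt_pos.2 hMR0
  have hss : Real.sqrt M * Real.sqrt M = M := Real.mul_self_sqrt hMR0.le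
  have hTinv : T * (m : ℝ) ^ (δ / 40) = 1 := by
    rw [hT, ← Real.rpow_add hm0]
    rw [show -(δ / 40) + δ / 40 = 0 by ring, Real.rpow_zero]
  have e1 : Real.sqrt M * ∏ p ∈ m.primeFactors, (1 - (p : ℝ) ^ (-(1 / 2 : ℝ)))⁻¹ ≤ M * T / 3 := by
    have h4 : 3 * ((m : ℝ) ^ (1 / 100 : ℝ) * (m : ℝ) ^ (δ / 40)) ≤ Real.sqrt M := by
      have h5 : 30 * ((m : ℝ) ^ (1 / 100 : ℝ) * (m : ℝ) ^ (δ / 40)) ≤ (m : ℝ) ^ (1 / 2 : ℝ) := by
        have h6 : (m : ℝ) ^ (1 / 10 : ℝ) * ((m : ℝ) ^ (1 / 100 : ℝ) * (m : ℝ) ^ (δ / 40))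
            ≤ (m : ℝ) ^ (1 / 2 : ℝ) := by
          rw [← Real.rpow_add hm0, ← Real.rpow_add hm0]
          exact Real.rpow_le_rpow_of_exponent_le hm1' (by linarith only [h0, h1])
        have h7 : 0 ≤ (m : ℝ) ^ (1 / 100 : ℝ) * (m : ℝ) ^ (δ / 40) := by positivity
        nlinarith only [h6, h0, h1, hG, h7]
      have h7 : 0 ≤ (m : ℝ) ^ (1 / 100 : ℝ) * (m : ℝ) ^ (δ / 40) := by positivity
      linarith only [hsM, hs0, h5]
    have h8 : Real.sqrt M * ∏ p ∈ m.primeFactors, (1 - (p : ℝ) ^ (-(1 / 2 : ℝ)))⁻¹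
        ≤ Real.sqrt M * (m : ℝ) ^ (1 / 100 : ℝ) := mul_le_mul_of_nonneg_left hP hs0.le
    have h9 : Real.sqrt M * (m : ℝ) ^ (1 / 100 : ℝ)
        = Real.sqrt M * ((m : ℝ) ^ (1 / 100 : ℝ) * (m : ℝ) ^ (δ / 40)) * T := by
      calc Real.sqrt M * (m : ℝ) ^ (1 / 100 : ℝ)
          = Real.sqrt M * (m : ℝ) ^ (1 / 100 : ℝ) * (T * (m : ℝ) ^ (δ / 40)) := by
            rw [hTinv, mul_one]
        _ = _ := by ring
    rw [h9] at h8
    refine h8.trans ?_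
    have h10 : Real.sqrt M * ((m : ℝ) ^ (1 / 100 : ℝ) * (m : ℝ) ^ (δ / 40)) ≤ M / 3 := by
      have := mul_le_mul_of_nonneg_left h4 hs0.le
      rw [hss] at this
      linarith only [this]
    have := mul_le_mul_of_nonneg_right h10 hT0.le
    linarith only [this]
  have e2 : (M : ℝ) * ((m : ℝ) ^ (-(δ / 30)) * (1 + Real.log M)) ≤ M * T / 3 := by
    have h4 : Real.log M ≤ Real.log m := Real.log_le_log hMR0 hMm
    have h5 : (m : ℝ) ^ (-(δ / 30)) * (m : ℝ) ^ (δ / 120) = T := by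
      rw [hT, ← Real.rpow_add hm0]
      congr 1
      ring
    have h6 : 0 ≤ (m : ℝ) ^ (-(δ / 30)) := Real.rpow_nonneg hm0.le _
    have h7 : (m : ℝ) ^ (-(δ / 30)) * (1 + Real.log M) ≤ T / 3 := by
      rw [← h5]
      have h8 : 1 + Real.log M ≤ (m : ℝ) ^ (δ / 120) / 3 := by linarith only [hL, h4]
      have := mul_le_mul_of_nonneg_left h8 h6
      linarith only [this]
    have := mul_le_mul_of_nonneg_left h7 hMR0.le
    linarith only [this]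
  have e3 : 5 * Real.sqrt (M * KK m) ≤ M * T / 3 := by
    have h4 : Real.sqrt (M * KK m) ≤ Real.sqrt M * (m : ℝ) ^ (51 / 200 : ℝ) := by
      rw [Real.sqrt_mul hMR0.le]
      refine mul_le_mul_of_nonneg_left ?_ hs0.le
      have h5 : Real.sqrt (KK m) ≤ Real.sqrt ((m : ℝ) ^ (1 / 2 + 1 / 100 : ℝ)) :=
        Real.sqrt_le_sqrt hK
      have h6 : Real.sqrt ((m : ℝ) ^ (1 / 2 + 1 / 100 : ℝ)) = (m : ℝ) ^ (51 / 200 : ℝ) := by
        rw [Real.sqrt_eq_rpow, ← Real.rpow_mul hm0.le]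
        congr 1
        norm_num
      linarith only [h5, h6]
    have h5 : 15 * ((m : ℝ) ^ (51 / 200 : ℝ) * (m : ℝ) ^ (δ / 40)) ≤ Real.sqrt M := by
      have h6 : 30 * ((m : ℝ) ^ (51 / 200 : ℝ) * (m : ℝ) ^ (δ / 40)) ≤ (m : ℝ) ^ (1 / 2 : ℝ) := by
        have h6 : (m : ℝ) ^ (1 / 10 : ℝ) * ((m : ℝ) ^ (51 / 200 : ℝ) * (m : ℝ) ^ (δ / 40))
            ≤ (m : ℝ) ^ (1 / 2 : ℝ) := by
          rw [← Real.rpow_add hm0, ← Real.rpow_add hm0]
          exact Real.rpow_le_rpow_of_exponent_le hm1' (by linarith only [h0, h1])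
        have h7 : 0 ≤ (m : ℝ) ^ (51 / 200 : ℝ) * (m : ℝ) ^ (δ / 40) := by positivity
        nlinarith only [h6, h0, h1, hG, h7]
      linarith only [hsM, h6]
    have h9 : Real.sqrt M * (m : ℝ) ^ (51 / 200 : ℝ)
        = Real.sqrt M * ((m : ℝ) ^ (51 / 200 : ℝ) * (m : ℝ) ^ (δ / 40)) * T := by
      calc Real.sqrt M * (m : ℝ) ^ (51 / 200 : ℝ)
          = Real.sqrt M * (m : ℝ) ^ (51 / 200 : ℝ) * (T * (m : ℝ) ^ (δ / 40)) := by
            rw [hTinv, mul_one]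
        _ = _ := by ring
    have h10 : Real.sqrt M * ((m : ℝ) ^ (51 / 200 : ℝ) * (m : ℝ) ^ (δ / 40)) ≤ M / 15 := by
      have := mul_le_mul_of_nonneg_left h5 hs0.le
      rw [hss] at this
      linarith only [this]
    have h11 := mul_le_mul_of_nonneg_right h10 hT0.le
    rw [h9] at h4
    linarith only [h4, h11]
  -- conclusion
  have hfin : (M : ℝ) * ‖DirichletCharacter.LFunction χ 1‖ ≤ M * T := by
    have h4 : ‖(M : ℂ) * DirichletCharacter.LFunction χ 1‖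
        ≤ ‖DD m M χ‖ + ‖DD m M χ - M * DirichletCharacter.LFunction χ 1‖ := by
      have : (M : ℂ) * DirichletCharacter.LFunction χ 1
          = DD m M χ - (DD m M χ - M * DirichletCharacter.LFunction χ 1) := by ring
      rw [this]
      refine (norm_sub_le _ _).trans (le_of_eq ?_)
      rw [← this]
    rw [norm_mul, Complex.norm_natCast] at h4
    linarith only [this, hHy, hDD, hLam, e1, e2, e3, h4]
  have hfin2 : ‖DirichletCharacter.LFunction χ 1‖ ≤ T := le_of_mul_le_mul_left hfin hMR0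
  have hlt : T < (m : ℝ) ^ (-(δ / 50)) := by
    rw [hT]
    apply Real.rpow_lt_rpow_of_exponent_lt (by linarith only [h0, h1, hmR])
    linarith only [h0]
  linarith only [this, hS, hfin2, hlt]

/-- the analytic part -/
theorem analytic (δ : ℝ) (h0 : 0 < δ) : ∃ m0 : ℕ, ∀ m : ℕ, m0 ≤ m → ∀ η : ℤ, (η = 1 ∨ η = -1) →
    ¬ ∀ q : ℕ, q.Prime → (q : ℝ) ≤ (m : ℝ) ^ δ → ((Ex m η q).card : ℝ) ≤ (m : ℝ) ^ (1 - δ) := by
  obtain ⟨m0, H⟩ := analytic_small (min δ (1 / 100)) (lt_min h0 (by norm_num)) (min_le_right _ _)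
  refine ⟨max m0 1, fun m hm η hη hh => H m ((le_max_left _ _).trans hm) η ⟨hη, ?_⟩⟩
  have hm1 : (1 : ℝ) ≤ m := by exact_mod_cast (le_max_right _ _).trans hm
  intro q hq hqm
  have h2 : (m : ℝ) ^ (min δ (1 / 100)) ≤ (m : ℝ) ^ δ :=
    Real.rpow_le_rpow_of_exponent_le hm1 (min_le_left _ _)
  refine (hh q hq (hqm.trans h2)).trans ?_
  apply Real.rpow_le_rpow_of_exponent_le hm1
  have := min_le_left δ (1 / 100)
  linarith only [this]

end Pool.Agent.H78.PG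

end
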