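import Pool.Agent.H94.PG.M12

/-! The parts of this file: H11.LQ.Chain, H11.LQ.Induct, H11.LQ.Combi, H11.LQ.Fin. -/

section

/-!
# LQ module Chain: the robust chains, and the reductions

`chain_card`: `f` changes sign under multiplication by 2, 3, 5.  Let `Bd` be the set on the right:
`u + w = 2 n`, `f u = 1`, `f w = 1`.  Let `c = n - 2 z`, `n / 4 < z < n / 2`, `z ≠ n / 3`,
`f c ≠ f z`.  Follow `chain2` in Pool/Agent/H34PG/Base.lean (q = n), where (B) is used: if a use of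
(B) fails then a known linear expression of `z` is in `Bd`; a use of `ruleA` for `u + v = n` is a use
of (B) for `2 u, 2 v`.  Result: one of the following 12 numbers is in `Bd`
* `f z = 1`: `4 z` (as `f (4 z) = 1` and `f (2 c) = 1`),
* `f z = -1`, `z > n/3`: `3 z`, `4 n - 6 z`, `12 z - 4 n`,
* `f z = -1`, `z < n/3`: `5 z`, `8 z - 2 n`; if `15 z > 4 n`: `6 n - 15 z`, `30 z - 8 n`,
  `8 n - 24 z`; if `15 z ≤ 4 n`: `4 n - 10 z`, `20 z - 4 n`, `12 n - 40 z`.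
All are injective functions of `z` where they are used (no truncated subtraction), so there are at
most `12 * Bd.card + 1` such `z`.

`red_mixed`: `x ∈ Ex m 1 2`.  For `x ≤ m/4` and `x ≥ 3m/4` there is no exception.  For
`m/4 < x < m/2`: `F (2 x) = lam (m - 2 x)`, `F x = lam x = - lam (2 x)`, so `2 x` is in the set on the
right; for `m/2 < x < 3m/4`: `F (2 x) = lam (2 x - m)`, `F x = lam (m - x) = - lam (2 m - 2 x)`, so
`2 x - m` is in that set; `x = m/2`: one more.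

`red_same`: `η = -1`.  For `x ≤ m/4` and `x > 3m/4` there is no exception.  For `m/4 < x < m/2`:
`F (2 x) = - lam (m - 2 x)`, `F x = lam x`: `x` is in the set of `chain_card` (with `f = s * lam`,
`n = m`).  For `m/2 < x < 3m/4`: `F (2 x) = lam (2 x - m)`, `F x = - lam (m - x)`: `z = m - x` is in
that set.  `x = m/2` and `x = 3m/4`: two more.
-/

set_option autoImplicit false

namespace Pool.Agent.H11.LQ

open Finset
open Pool.Agent.H34PG (lam lam_val lam_mul lam_prime)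

private theorem chain_inj (n : ℕ) (B : Finset ℕ) (P : ℕ → Prop) [DecidablePred P] (g : ℕ → ℕ)
    (hg : ∀ x y, P x → P y → g x = g y → x = y) :
    ((range n).filter fun z => P z ∧ g z ∈ B).card ≤ B.card := by
  refine card_le_card_of_injOn g ?_ ?_
  · intro z hz
    rw [mem_coe, mem_filter] at hz
    exact mem_coe.mpr hz.2.2
  · intro x hx y hy hxy
    rw [mem_coe, mem_filter] at hx hy
    exact hg x y hx.2.1 hy.2.1 hxy

/-- the twelve possibilities -/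
private theorem chain_cover (n : ℕ) (f : ℕ → ℤ) (hf : ∀ u, 0 < u → f u = 1 ∨ f u = -1)
    (h2 : ∀ u, 0 < u → f (2 * u) = -f u) (h3 : ∀ u, 0 < u → f (3 * u) = -f u)
    (h5 : ∀ u, 0 < u → f (5 * u) = -f u) (B : Finset ℕ)
    (hB : ∀ u v, 0 < u → 0 < v → u + v = 2 * n → f u = 1 → f v = 1 → u ∈ B)
    (z : ℕ) (hz1 : n < 4 * z) (hz2 : 2 * z < n) (hne : f (n - 2 * z) ≠ f z) (hz3 : 3 * z ≠ n) :
    4 * z ∈ B ∨ 3 * z ∈ B ∨ 4 * n - 6 * z ∈ B ∨ (n < 3 * z ∧ 12 * z - 4 * n ∈ B) ∨ 5 * z ∈ B ∨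
    8 * z - 2 * n ∈ B ∨ (5 * z < 2 * n ∧ 6 * n - 15 * z ∈ B) ∨ (4 * n < 15 * z ∧ 30 * z - 8 * n ∈ B) ∨
    (3 * z < n ∧ 8 * n - 24 * z ∈ B) ∨ (5 * z < 2 * n ∧ 4 * n - 10 * z ∈ B) ∨ 20 * z - 4 * n ∈ B ∨
    (15 * z ≤ 4 * n ∧ 12 * n - 40 * z ∈ B) := by
  have f4 : ∀ u, 0 < u → f (4 * u) = f u := by
    intro u hu
    have e : 4 * u = 2 * (2 * u) := by ring
    rw [e, h2 _ (by omega), h2 u hu, neg_neg]
  -- the two rules
  have RB : ∀ u v, 0 < u → 0 < v → u + v = 2 * n → f u = 1 → u ∉ B → f v = -1 := by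
    intro u v hu hv huv h1 hnB
    rcases hf v hv with h | h
    · exact absurd (hB u v hu hv huv h1 h) hnB
    · exact h
  have RA : ∀ u v, 0 < u → 0 < v → u + v = n → f u = -1 → 2 * u ∉ B → f v = 1 := by
    intro u v hu hv huv h1 hnB
    have e := RB (2 * u) (2 * v) (by omega) (by omega) (by omega) (by rw [h2 u hu, h1]; norm_num) hnB
    rw [h2 v hv] at e
    linarith only [e]
  obtain ⟨c, hc⟩ : ∃ c, 2 * z + c = n := ⟨n - 2 * z, by omega⟩
  have hc0 : 0 < c := by omega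
  have hcn : n - 2 * z = c := by omega
  rw [hcn] at hne
  have hz0 : 0 < z := by omega
  by_contra hcon
  simp only [not_or, not_and] at hcon
  obtain ⟨n1, n2, n3, n4, n5, n6, n7, n8, n9, n10, n11, n12⟩ := hcon
  rcases hf z hz0 with hz | hz
  · -- `f z = 1`
    have hcv : f c = -1 := by
      rcases hf c hc0 with h | h
      · exact absurd (h.trans hz.symm) hne
      · exact h
    exact n1 (hB (4 * z) (2 * c) (by omega) (by omega) (by omega) (by rw [f4 z hz0, hz])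
      (by rw [h2 c hc0, hcv]; norm_num))
  · -- `f z = -1`
    have hcv : f c = 1 := by
      rcases hf c hc0 with h | h
      · exact h
      · exact absurd (h.trans hz.symm) hne
    rcases Nat.lt_or_ge n (3 * z) with h | h
    · obtain ⟨a, ha⟩ : ∃ a, 3 * z + a = 2 * n := ⟨2 * n - 3 * z, by omega⟩
      obtain ⟨b, hb⟩ : ∃ b, n + b = 3 * z := ⟨3 * z - n, by omega⟩
      have e1 : f (3 * z) = 1 := by rw [h3 z hz0, hz]; norm_num
      have e2 : f a = -1 := RB _ _ (by omega) (by omega) ha e1 n2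
      have e3 : f b = 1 := RA a b (by omega) (by omega) (by omega) e2 (by
        have : 2 * a = 4 * n - 6 * z := by omega
        rw [this]
        exact n3)
      have e4 : f (2 * b) = -1 := by rw [h2 b (by omega), e3]
      have e5 : f (3 * c) = 1 := RA (2 * b) (3 * c) (by omega) (by omega) (by omega) e4 (by
        have : 2 * (2 * b) = 12 * z - 4 * n := by omega
        rw [this]
        exact n4 h)
      rw [h3 c hc0] at e5
      linarith only [hcv, e5]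
    · have h' : 3 * z < n := by omega
      obtain ⟨a, ha⟩ : ∃ a, 5 * z + a = 2 * n := ⟨2 * n - 5 * z, by omega⟩
      obtain ⟨g, hg⟩ : ∃ g, n + g = 4 * z := ⟨4 * z - n, by omega⟩
      have e1 : f (5 * z) = 1 := by rw [h5 z hz0, hz]; norm_num
      have e2 : f a = -1 := RB _ _ (by omega) (by omega) ha e1 n5
      have hfin : f g = -1 → False := by
        intro e
        have e5 : f (2 * c) = 1 := RA g (2 * c) (by omega) (by omega) (by omega) e (by
          have : 2 * g = 8 * z - 2 * n := by omega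
          rw [this]
          exact n6)
        rw [h2 c hc0] at e5
        linarith only [hcv, e5]
      rcases Nat.lt_or_ge (4 * n) (15 * z) with h'' | h''
      · obtain ⟨d, hd⟩ : ∃ d, 4 * n + d = 15 * z := ⟨15 * z - 4 * n, by omega⟩
        obtain ⟨e, he⟩ : ∃ e, 3 * z + e = n := ⟨n - 3 * z, by omega⟩
        have e3 : f (3 * a) = 1 := by rw [h3 a (by omega), e2]; norm_num
        have e4 : f d = -1 := RB (3 * a) d (by omega) (by omega) (by omega) e3 (by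
          have : 3 * a = 6 * n - 15 * z := by omega
          rw [this]
          exact n7 (by omega))
        have e5 : f (5 * e) = 1 := RA d (5 * e) (by omega) (by omega) (by omega) e4 (by
          have : 2 * d = 30 * z - 8 * n := by omega
          rw [this]
          exact n8 h'')
        have e6 : f e = -1 := by
          rw [h5 e (by omega)] at e5
          linarith only [e5]
        have e7 : f (4 * e) = -1 := by rw [f4 e (by omega), e6]
        have e8 : f (3 * g) = 1 := RA (4 * e) (3 * g) (by omega) (by omega) (by omega) e7 (by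
          have : 2 * (4 * e) = 8 * n - 24 * z := by omega
          rw [this]
          exact n9 h')
        apply hfin
        rw [h3 g (by omega)] at e8
        linarith only [e8]
      · obtain ⟨b, hb⟩ : ∃ b, n + b = 5 * z := ⟨5 * z - n, by omega⟩
        obtain ⟨k, hk⟩ : ∃ k, 10 * z + k = 3 * n := ⟨3 * n - 10 * z, by omega⟩
        have e3 : f b = 1 := RA a b (by omega) (by omega) (by omega) e2 (by
          have : 2 * a = 4 * n - 10 * z := by omega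
          rw [this]
          exact n10 (by omega))
        have e4 : f (2 * b) = -1 := by rw [h2 b (by omega), e3]
        have e5 : f k = 1 := RA (2 * b) k (by omega) (by omega) (by omega) e4 (by
          have : 2 * (2 * b) = 20 * z - 4 * n := by omega
          rw [this]
          exact n11)
        have e6 : f (2 * k) = -1 := by rw [h2 k (by omega), e5]
        have e7 : f (5 * g) = 1 := RA (2 * k) (5 * g) (by omega) (by omega) (by omega) e6 (by
          have : 2 * (2 * k) = 12 * n - 40 * z := by omega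
          rw [this]
          exact n12 h'')
        apply hfin
        rw [h5 g (by omega)] at e7
        linarith only [e7]

theorem chain_card (n : ℕ) (f : ℕ → ℤ) (hf : ∀ u, 0 < u → f u = 1 ∨ f u = -1)
    (h2 : ∀ u, 0 < u → f (2 * u) = -f u) (h3 : ∀ u, 0 < u → f (3 * u) = -f u)
    (h5 : ∀ u, 0 < u → f (5 * u) = -f u) :
    ((range n).filter fun z => n < 4 * z ∧ 2 * z < n ∧ f (n - 2 * z) ≠ f z).card ≤
      12 * ((range (2 * n)).filter fun u => 0 < u ∧ f u = 1 ∧ f (2 * n - u) = 1).card + 1 := by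
  classical
  set B : Finset ℕ := (range (2 * n)).filter fun u => 0 < u ∧ f u = 1 ∧ f (2 * n - u) = 1 with hBdef
  have hB : ∀ u v, 0 < u → 0 < v → u + v = 2 * n → f u = 1 → f v = 1 → u ∈ B := by
    intro u v hu hv huv h1 h1'
    rw [hBdef, mem_filter, mem_range]
    refine ⟨by omega, hu, h1, ?_⟩
    have : 2 * n - u = v := by omega
    rw [this]
    exact h1'
  have c1 := chain_inj n B (fun z => n < 4 * z) (fun z => 4 * z) (by intro x y hx hy hxy; omega)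
  have c2 := chain_inj n B (fun z => n < 4 * z) (fun z => 3 * z) (by intro x y hx hy hxy; omega)
  have c3 := chain_inj n B (fun z => 2 * z < n) (fun z => 4 * n - 6 * z)
    (by intro x y hx hy hxy; omega)
  have c4 := chain_inj n B (fun z => n < 3 * z) (fun z => 12 * z - 4 * n)
    (by intro x y hx hy hxy; omega)
  have c5 := chain_inj n B (fun z => n < 4 * z) (fun z => 5 * z) (by intro x y hx hy hxy; omega)
  have c6 := chain_inj n B (fun z => n < 4 * z) (fun z => 8 * z - 2 * n)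
    (by intro x y hx hy hxy; omega)
  have c7 := chain_inj n B (fun z => 5 * z < 2 * n) (fun z => 6 * n - 15 * z)
    (by intro x y hx hy hxy; omega)
  have c8 := chain_inj n B (fun z => 4 * n < 15 * z) (fun z => 30 * z - 8 * n)
    (by intro x y hx hy hxy; omega)
  have c9 := chain_inj n B (fun z => 3 * z < n) (fun z => 8 * n - 24 * z)
    (by intro x y hx hy hxy; omega)
  have c10 := chain_inj n B (fun z => 5 * z < 2 * n) (fun z => 4 * n - 10 * z)
    (by intro x y hx hy hxy; omega)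
  have c11 := chain_inj n B (fun z => n < 4 * z) (fun z => 20 * z - 4 * n)
    (by intro x y hx hy hxy; omega)
  have c12 := chain_inj n B (fun z => 15 * z ≤ 4 * n) (fun z => 12 * n - 40 * z)
    (by intro x y hx hy hxy; omega)
  set T1 := (range n).filter fun z => n < 4 * z ∧ 4 * z ∈ B
  set T2 := (range n).filter fun z => n < 4 * z ∧ 3 * z ∈ B
  set T3 := (range n).filter fun z => 2 * z < n ∧ 4 * n - 6 * z ∈ B
  set T4 := (range n).filter fun z => n < 3 * z ∧ 12 * z - 4 * n ∈ B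
  set T5 := (range n).filter fun z => n < 4 * z ∧ 5 * z ∈ B
  set T6 := (range n).filter fun z => n < 4 * z ∧ 8 * z - 2 * n ∈ B
  set T7 := (range n).filter fun z => 5 * z < 2 * n ∧ 6 * n - 15 * z ∈ B
  set T8 := (range n).filter fun z => 4 * n < 15 * z ∧ 30 * z - 8 * n ∈ B
  set T9 := (range n).filter fun z => 3 * z < n ∧ 8 * n - 24 * z ∈ B
  set T10 := (range n).filter fun z => 5 * z < 2 * n ∧ 4 * n - 10 * z ∈ B
  set T11 := (range n).filter fun z => n < 4 * z ∧ 20 * z - 4 * n ∈ B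
  set T12 := (range n).filter fun z => 15 * z ≤ 4 * n ∧ 12 * n - 40 * z ∈ B
  have hsub : ((range n).filter fun z => n < 4 * z ∧ 2 * z < n ∧ f (n - 2 * z) ≠ f z) ⊆
      {n / 3} ∪ (T1 ∪ (T2 ∪ (T3 ∪ (T4 ∪ (T5 ∪ (T6 ∪ (T7 ∪ (T8 ∪ (T9 ∪ (T10 ∪ (T11 ∪ T12))))))))))) := by
    intro z hz
    rw [mem_filter, mem_range] at hz
    obtain ⟨hzn, hz1, hz2, hne⟩ := hz
    by_cases hz3 : 3 * z = n
    · refine mem_union_left _ ?_
      rw [mem_singleton]
      omega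
    refine mem_union_right _ ?_
    simp only [mem_union, T1, T2, T3, T4, T5, T6, T7, T8, T9, T10, T11, T12, mem_filter, mem_range]
    rcases chain_cover n f hf h2 h3 h5 B hB z hz1 hz2 hne hz3 with
      h | h | h | h | h | h | h | h | h | h | h | h
    · exact Or.inl ⟨hzn, hz1, h⟩
    · exact Or.inr (Or.inl ⟨hzn, hz1, h⟩)
    · exact Or.inr (Or.inr (Or.inl ⟨hzn, hz2, h⟩))
    · exact Or.inr (Or.inr (Or.inr (Or.inl ⟨hzn, h.1, h.2⟩)))
    · exact Or.inr (Or.inr (Or.inr (Or.inr (Or.inl ⟨hzn, hz1, h⟩))))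
    · exact Or.inr (Or.inr (Or.inr (Or.inr (Or.inr (Or.inl ⟨hzn, hz1, h⟩)))))
    · exact Or.inr (Or.inr (Or.inr (Or.inr (Or.inr (Or.inr (Or.inl ⟨hzn, h.1, h.2⟩))))))
    · exact Or.inr (Or.inr (Or.inr (Or.inr (Or.inr (Or.inr (Or.inr (Or.inl ⟨hzn, h.1, h.2⟩)))))))
    · exact Or.inr (Or.inr (Or.inr (Or.inr (Or.inr (Or.inr (Or.inr (Or.inr (Or.inl
        ⟨hzn, h.1, h.2⟩))))))))
    · exact Or.inr (Or.inr (Or.inr (Or.inr (Or.inr (Or.inr (Or.inr (Or.inr (Or.inr (Or.inl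
        ⟨hzn, h.1, h.2⟩)))))))))
    · exact Or.inr (Or.inr (Or.inr (Or.inr (Or.inr (Or.inr (Or.inr (Or.inr (Or.inr (Or.inr (Or.inl
        ⟨hzn, hz1, h⟩))))))))))
    · exact Or.inr (Or.inr (Or.inr (Or.inr (Or.inr (Or.inr (Or.inr (Or.inr (Or.inr (Or.inr (Or.inr
        ⟨hzn, h.1, h.2⟩))))))))))
  have u0 := card_le_card hsub
  have u1 := card_union_le {n / 3} (T1 ∪ (T2 ∪ (T3 ∪ (T4 ∪ (T5 ∪ (T6 ∪ (T7 ∪ (T8 ∪ (T9 ∪ (T10 ∪ (T11 ∪ T12)))))))))))
  have u2 := card_union_le T1 (T2 ∪ (T3 ∪ (T4 ∪ (T5 ∪ (T6 ∪ (T7 ∪ (T8 ∪ (T9 ∪ (T10 ∪ (T11 ∪ T12))))))))))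
  have u3 := card_union_le T2 (T3 ∪ (T4 ∪ (T5 ∪ (T6 ∪ (T7 ∪ (T8 ∪ (T9 ∪ (T10 ∪ (T11 ∪ T12)))))))))
  have u4 := card_union_le T3 (T4 ∪ (T5 ∪ (T6 ∪ (T7 ∪ (T8 ∪ (T9 ∪ (T10 ∪ (T11 ∪ T12))))))))
  have u5 := card_union_le T4 (T5 ∪ (T6 ∪ (T7 ∪ (T8 ∪ (T9 ∪ (T10 ∪ (T11 ∪ T12)))))))
  have u6 := card_union_le T5 (T6 ∪ (T7 ∪ (T8 ∪ (T9 ∪ (T10 ∪ (T11 ∪ T12))))))
  have u7 := card_union_le T6 (T7 ∪ (T8 ∪ (T9 ∪ (T10 ∪ (T11 ∪ T12)))))
  have u8 := card_union_le T7 (T8 ∪ (T9 ∪ (T10 ∪ (T11 ∪ T12))))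
  have u9 := card_union_le T8 (T9 ∪ (T10 ∪ (T11 ∪ T12)))
  have u10 := card_union_le T9 (T10 ∪ (T11 ∪ T12))
  have u11 := card_union_le T10 (T11 ∪ T12)
  have u12 := card_union_le T11 T12
  rw [card_singleton] at u1
  omega

private theorem lam_two {u : ℕ} (hu : 0 < u) : lam (2 * u) = -lam u := by
  rw [lam_mul 2 u (by norm_num) hu, lam_prime Nat.prime_two]
  ring

private theorem chain_two : lam 2 = -1 := lam_prime Nat.prime_two

theorem red_mixed (m : ℕ) : (Ex m 1 2).card ≤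
    2 * ((range m).filter fun a => 0 < a ∧ lam a ≠ lam (m - a)).card + 1 := by
  classical
  set B : Finset ℕ := (range m).filter fun a => 0 < a ∧ lam a ≠ lam (m - a) with hBdef
  have c1 := chain_inj m B (fun x => 2 * x < m) (fun x => 2 * x)
    (by intro x y hx hy hxy; omega)
  have c2 := chain_inj m B (fun x => m < 2 * x) (fun x => 2 * x - m)
    (by intro x y hx hy hxy; omega)
  set T1 := (range m).filter fun x => 2 * x < m ∧ 2 * x ∈ B
  set T2 := (range m).filter fun x => m < 2 * x ∧ 2 * x - m ∈ B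
  have hsub : Ex m 1 2 ⊆ {m / 2} ∪ (T1 ∪ T2) := by
    intro x hx
    rw [mem_Ex, chain_two] at hx
    obtain ⟨hxm, hne⟩ := hx
    rcases lt_trichotomy (2 * x) m with h | h | h
    · -- small
      rcases Nat.eq_zero_or_pos x with h0 | h0
      · exfalso
        subst h0
        apply hne
        rw [mul_zero, F_zero, mul_zero]
      rw [F_small h0 h.le] at hne
      rcases Nat.lt_or_ge m (4 * x) with h4 | h4
      · refine mem_union_right _ (mem_union_left _ ?_)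
        rw [F_big (by omega) h] at hne
        simp only [T1, mem_filter, mem_range, hBdef]
        refine ⟨hxm, h, h, by omega, ?_⟩
        rw [lam_two h0]
        intro e
        apply hne
        rw [← e]
        ring
      · exfalso
        apply hne
        rw [F_small (by omega) (by omega), lam_two h0]
        ring
    · refine mem_union_left _ ?_
      rw [mem_singleton]
      omega
    · rw [F_big h hxm] at hne
      have hx2 : F m 1 (2 * x) = F m 1 (2 * x - m) := by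
        apply F_congr
        have : 2 * x = (2 * x - m) + m := by omega
        conv_lhs => rw [this, Nat.add_mod_right]
      rw [hx2] at hne
      have hmx : 0 < m - x := by omega
      have h22 : lam (2 * (m - x)) = -lam (m - x) := lam_two hmx
      rcases Nat.lt_or_ge (4 * x) (3 * m) with h4 | h4
      · refine mem_union_right _ (mem_union_right _ ?_)
        rw [F_small (by omega) (by omega)] at hne
        simp only [T2, mem_filter, mem_range, hBdef]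
        refine ⟨hxm, h, by omega, by omega, ?_⟩
        intro e
        apply hne
        have : m - (2 * x - m) = 2 * (m - x) := by omega
        rw [e, this, h22]
        ring
      · exfalso
        apply hne
        rcases Nat.eq_or_lt_of_le h4 with h4 | h4
        · rw [F_small (by omega) (by omega)]
          have : 2 * x - m = 2 * (m - x) := by omega
          rw [this, h22]
          ring
        · rw [F_big (by omega) (by omega)]
          have : m - (2 * x - m) = 2 * (m - x) := by omega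
          rw [this, h22]
          ring
  have u0 := card_le_card hsub
  have u1 := card_union_le {m / 2} (T1 ∪ T2)
  have u2 := card_union_le T1 T2
  rw [card_singleton] at u1
  omega

theorem red_same (m : ℕ) {s : ℤ} (hs : s = 1 ∨ s = -1) : (Ex m (-1) 2).card ≤
    24 * ((range (2 * m)).filter fun a => 0 < a ∧ lam a = s ∧ lam (2 * m - a) = s).card + 4 := by
  classical
  have hss : s * s = 1 := by rcases hs with h | h <;> rw [h] <;> norm_num
  have key : ∀ u, s * lam u = 1 ↔ lam u = s := by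
    intro u
    constructor
    · intro h
      have : s * (s * lam u) = s * 1 := by rw [h]
      rw [← mul_assoc, hss, one_mul, mul_one] at this
      exact this
    · intro h
      rw [h, hss]
  have hch := chain_card m (fun u => s * lam u)
    (by
      intro u _
      rcases hs with h | h <;> rcases lam_val u with h' | h' <;> rw [h, h'] <;> norm_num)
    (by
      intro u hu
      rw [lam_two hu]
      ring)
    (by
      intro u hu
      rw [lam_mul 3 u (by norm_num) hu, lam_prime Nat.prime_three]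
      ring)
    (by
      intro u hu
      rw [lam_mul 5 u (by norm_num) hu, lam_prime Nat.prime_five]
      ring)
  simp only [key] at hch
  set C : ℕ := ((range (2 * m)).filter fun a => 0 < a ∧ lam a = s ∧ lam (2 * m - a) = s).card
  set B : Finset ℕ := (range m).filter fun z => m < 4 * z ∧ 2 * z < m ∧ s * lam (m - 2 * z) ≠ s * lam z
    with hBdef
  have hmemB : ∀ z, z < m → m < 4 * z → 2 * z < m → lam (m - 2 * z) ≠ lam z → z ∈ B := by
    intro z h1 h2 h3 h4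
    rw [hBdef, mem_filter, mem_range]
    refine ⟨h1, h2, h3, fun e => h4 ?_⟩
    have : s * (s * lam (m - 2 * z)) = s * (s * lam z) := by rw [e]
    rwa [← mul_assoc, ← mul_assoc, hss, one_mul, one_mul] at this
  have c2 := chain_inj m B (fun x => x < m) (fun x => m - x)
    (by intro x y hx hy hxy; omega)
  set T2 := (range m).filter fun x => x < m ∧ m - x ∈ B
  have hsub : Ex m (-1) 2 ⊆ {m / 2} ∪ ({3 * m / 4} ∪ (B ∪ T2)) := by
    intro x hx
    rw [mem_Ex, chain_two] at hx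
    obtain ⟨hxm, hne⟩ := hx
    rcases lt_trichotomy (2 * x) m with h | h | h
    · rcases Nat.eq_zero_or_pos x with h0 | h0
      · exfalso
        subst h0
        apply hne
        rw [mul_zero, F_zero, mul_zero]
      rw [F_small h0 h.le] at hne
      rcases Nat.lt_or_ge m (4 * x) with h4 | h4
      · refine mem_union_right _ (mem_union_right _ (mem_union_left _ ?_))
        rw [F_big (by omega) h] at hne
        refine hmemB x hxm h4 h fun e => hne ?_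
        rw [e]
      · exfalso
        apply hne
        rw [F_small (by omega) (by omega), lam_two h0]
        ring
    · refine mem_union_left _ ?_
      rw [mem_singleton]
      omega
    · rw [F_big h hxm] at hne
      have hx2 : F m (-1) (2 * x) = F m (-1) (2 * x - m) := by
        apply F_congr
        have : 2 * x = (2 * x - m) + m := by omega
        conv_lhs => rw [this, Nat.add_mod_right]
      rw [hx2] at hne
      have hmx : 0 < m - x := by omega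
      have h22 : lam (2 * (m - x)) = -lam (m - x) := lam_two hmx
      rcases lt_trichotomy (4 * x) (3 * m) with h4 | h4 | h4
      · refine mem_union_right _ (mem_union_right _ (mem_union_right _ ?_))
        rw [F_small (by omega) (by omega)] at hne
        simp only [T2, mem_filter, mem_range]
        refine ⟨hxm, hxm, hmemB (m - x) (by omega) (by omega) (by omega) fun e => hne ?_⟩
        have : m - 2 * (m - x) = 2 * x - m := by omega
        rw [this] at e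
        rw [e]
        ring
      · refine mem_union_right _ (mem_union_left _ ?_)
        rw [mem_singleton]
        omega
      · exfalso
        apply hne
        rw [F_big (by omega) (by omega)]
        have : m - (2 * x - m) = 2 * (m - x) := by omega
        rw [this, h22]
        ring
  have u0 := card_le_card hsub
  have u1 := card_union_le {m / 2} ({3 * m / 4} ∪ (B ∪ T2))
  have u2 := card_union_le {3 * m / 4} (B ∪ T2)
  have u3 := card_union_le B T2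
  rw [card_singleton] at u1 u2
  omega

end Pool.Agent.H11.LQ

end

section

/-!
# LQ module Induct: the recursion

Let `K0` be the constant of `round_step` (enlarged so that `K0 ^ (1/8) ≥ 2`, say `K0 ≥ 2 ^ 8`),
`v = ⌊m ^ (ε/2)⌋`, so `v e_2 ≤ m ^ (1 - ε/2)`.

Base: `2 ^ ρ0 ≥ 2 K0` fixed, `b = ⌊log m / (ρ0 log 2)⌋`: `(1 - 1/2^ρ0) ^ b ≤ exp (-b / 2^ρ0)`, so
for all primes `k ≤ K0`: `e_k ≤ m ^ (1 - c0)` with a constant `c0 ≤ 1/100` (`m ≥ m0`).

Rounds: `K_0 = K0`, `K_(i+1)` = the largest natural number with `K_(i+1) ^ 4 ≤ K_i ^ 5`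
(for instance `Nat.findGreatest`, or `⌊K_i ^ (5/4)⌋₊`), so `K_(i+1) ≥ K_i ^ (9/8)`, `K_i ≥ K0 ^ ((9/8)^i)`.
CLAIM: as long as `K_i ≤ m ^ (1/100)`, for all primes `q ≤ K_i`:
`e_q ≤ m ^ (1 - c0) * (log m) ^ (4 i) * K_i ^ 64`.  Step: `K = K_i`, `K ^ 6 ≤ 2 ^ ρ < 2 K ^ 6`,
`b = ` largest with `(2 ^ ρ) ^ b ≤ m` (so `K ^ (7 (b + 1)) ≥ (2 ^ ρ) ^ (b + 1) > m`, hence
`(K ^ (-1/4)) ^ b ≤ m ^ (-1/28) K ^ (1/4)`); `round_step` gives
`e_k ≤ 2 m ^ (1 - 1/28) K + 8 ρ b² K ^ 8 m ^ (1 - c0) (log m) ^ (4 i) K ^ 64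
≤ m ^ (1 - c0) (log m) ^ (4 i + 4) K_(i+1) ^ 64`, as `K ^ 72 ≤ K_(i+1) ^ 64` and
`10 ρ b² ≤ (log m) ^ 4`.
End: with `c' = c0 / 1000` take the last `i` with `K_i ≤ m ^ c'`; then `K_i ≥ m ^ (4 c' / 5)`,
`i ≤ C log log m` and `(log m) ^ (4 i) = exp (4 i log log m) ≤ m ^ (c0 / 4)` for `m ≥ m0`, so
`e_q ≤ m ^ (1 - c0 / 2)` for all primes `q ≤ m ^ (4 c' / 5)`.
-/

set_option autoImplicit false

namespace Pool.Agent.H11.LQ

open Finset
open Pool.Agent.H34PG (lam lam_val lam_mul lam_prime)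

/-! ### The sequence -/

/-- `K_0 = K0`, `K_(n+1) = ⌊K_n ^ (5/4)⌋`. -/
private noncomputable def indU (K0 : ℕ) : ℕ → ℕ
  | 0 => K0
  | n + 1 => ⌊((indU K0 n : ℕ) : ℝ) ^ (5 / 4 : ℝ)⌋₊

private theorem induct_pow4 (K : ℕ) : ⌊(K : ℝ) ^ (5 / 4 : ℝ)⌋₊ ^ 4 ≤ K ^ 5 := by
  have h0 : (0 : ℝ) ≤ (K : ℝ) := Nat.cast_nonneg K
  have h1 : (0 : ℝ) ≤ (K : ℝ) ^ (5 / 4 : ℝ) := Real.rpow_nonneg h0 _
  have h2 : ((⌊(K : ℝ) ^ (5 / 4 : ℝ)⌋₊ : ℕ) : ℝ) ≤ (K : ℝ) ^ (5 / 4 : ℝ) := Nat.floor_le h1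
  have h3 : ((K : ℝ) ^ (5 / 4 : ℝ)) ^ 4 = (K : ℝ) ^ 5 := by
    rw [← Real.rpow_natCast ((K : ℝ) ^ (5 / 4 : ℝ)) 4, ← Real.rpow_mul h0,
      ← Real.rpow_natCast (K : ℝ) 5]
    norm_num
  have h4 : (((⌊(K : ℝ) ^ (5 / 4 : ℝ)⌋₊ : ℕ) : ℝ)) ^ 4 ≤ (K : ℝ) ^ 5 := by
    rw [← h3]
    exact pow_le_pow_left₀ (Nat.cast_nonneg _) h2 4
  exact_mod_cast h4

private theorem induct_grow {K : ℕ} (hK : 256 ≤ K) :
    (K : ℝ) ^ (9 / 8 : ℝ) ≤ ((⌊(K : ℝ) ^ (5 / 4 : ℝ)⌋₊ : ℕ) : ℝ) := by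
  have hK' : (256 : ℝ) ≤ (K : ℝ) := by exact_mod_cast hK
  have h0 : (0 : ℝ) < (K : ℝ) := by linarith only [hK']
  have h1 : (2 : ℝ) ≤ (K : ℝ) ^ (1 / 8 : ℝ) := by
    have h2 : (256 : ℝ) ^ (1 / 8 : ℝ) ≤ (K : ℝ) ^ (1 / 8 : ℝ) :=
      Real.rpow_le_rpow (by norm_num) hK' (by norm_num)
    have h3 : (256 : ℝ) ^ (1 / 8 : ℝ) = 2 := by
      have h4 : (256 : ℝ) = (2 : ℝ) ^ (8 : ℝ) := by norm_num
      rw [h4, ← Real.rpow_mul (by norm_num)]
      norm_num
    rwa [h3] at h2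
  have h5 : (K : ℝ) ^ (5 / 4 : ℝ) = (K : ℝ) ^ (9 / 8 : ℝ) * (K : ℝ) ^ (1 / 8 : ℝ) := by
    rw [← Real.rpow_add h0]
    norm_num
  have h6 : (1 : ℝ) ≤ (K : ℝ) ^ (9 / 8 : ℝ) := Real.one_le_rpow (by linarith only [hK']) (by norm_num)
  have h7 : (K : ℝ) ^ (5 / 4 : ℝ) < ((⌊(K : ℝ) ^ (5 / 4 : ℝ)⌋₊ : ℕ) : ℝ) + 1 :=
    Nat.lt_floor_add_one _
  have h8 : (K : ℝ) ^ (9 / 8 : ℝ) * 2 ≤ (K : ℝ) ^ (9 / 8 : ℝ) * (K : ℝ) ^ (1 / 8 : ℝ) :=
    mul_le_mul_of_nonneg_left h1 (by linarith only [h6])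
  rw [h5] at h7
  rw [h5]
  linarith only [h6, h7, h8]

private theorem induct_ge {K0 : ℕ} (hK0 : 256 ≤ K0) (i : ℕ) : K0 ≤ indU K0 i := by
  induction i with
  | zero => exact le_rfl
  | succ i ih =>
    have h1 : 256 ≤ indU K0 i := hK0.trans ih
    have h2 := induct_grow h1
    have h3 : ((indU K0 i : ℕ) : ℝ) ≤ ((indU K0 i : ℕ) : ℝ) ^ (9 / 8 : ℝ) := by
      have h4 : (1 : ℝ) ≤ ((indU K0 i : ℕ) : ℝ) := by
        have : (256 : ℝ) ≤ ((indU K0 i : ℕ) : ℝ) := by exact_mod_cast h1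
        linarith only [this]
      calc ((indU K0 i : ℕ) : ℝ) = ((indU K0 i : ℕ) : ℝ) ^ (1 : ℝ) := (Real.rpow_one _).symm
        _ ≤ _ := Real.rpow_le_rpow_of_exponent_le h4 (by norm_num)
    have h5 : ((indU K0 i : ℕ) : ℝ) ≤ ((indU K0 (i + 1) : ℕ) : ℝ) := h3.trans h2
    exact ih.trans (by exact_mod_cast h5)

private theorem induct_log {K0 : ℕ} (hK0 : 256 ≤ K0) (i : ℕ) :
    (9 / 8 : ℝ) ^ i ≤ Real.log (indU K0 i : ℕ) := by
  induction i with
  | zero =>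
    have h1 : (256 : ℝ) ≤ (K0 : ℝ) := by exact_mod_cast hK0
    have h2 : Real.exp 1 ≤ (K0 : ℝ) := by
      have := Real.exp_one_lt_d9
      linarith only [h1, this]
    have h3 : ((indU K0 0 : ℕ) : ℝ) = (K0 : ℝ) := rfl
    rw [pow_zero, h3]
    exact (Real.le_log_iff_exp_le (by linarith only [h1])).mpr h2
  | succ i ih =>
    have h1 : 256 ≤ indU K0 i := hK0.trans (induct_ge hK0 i)
    have h2 := induct_grow h1
    have h0 : (0 : ℝ) < ((indU K0 i : ℕ) : ℝ) := by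
      have : (256 : ℝ) ≤ ((indU K0 i : ℕ) : ℝ) := by exact_mod_cast h1
      linarith only [this]
    have h3 : Real.log (((indU K0 i : ℕ) : ℝ) ^ (9 / 8 : ℝ)) ≤
        Real.log ((indU K0 (i + 1) : ℕ) : ℝ) := Real.log_le_log (Real.rpow_pos_of_pos h0 _) h2
    rw [Real.log_rpow h0] at h3
    rw [pow_succ]
    linarith only [ih, h3]

/-! ### One round -/

private theorem induct_round {K m k v : ℕ} {η : ℤ} {B L : ℝ} (hK : 256 ≤ K)
    (hround : ∀ (ρ b e : ℕ), K ^ 6 ≤ 2 ^ ρ → (2 ^ ρ) ^ b ≤ m → 1 ≤ b →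
      v * (Ex m η 2).card ≤ e → (∀ q, q.Prime → q ≤ K → (Ex m η q).card ≤ e) →
      ((Ex m η k).card : ℝ) ≤
        2 * m * ((K : ℝ) ^ (-(1 / 4) : ℝ)) ^ b + 8 * ρ * b ^ 2 * K ^ 8 * e)
    (hL : L = Real.log m) (hL6 : 6 ≤ L) (hKm : (K : ℝ) ≤ (m : ℝ) ^ (1 / 100 : ℝ))
    (hB : 0 ≤ B) (hv : ((v * (Ex m η 2).card : ℕ) : ℝ) ≤ B)
    (hq : ∀ q : ℕ, q.Prime → q ≤ K → ((Ex m η q).card : ℝ) ≤ B) :
    ((Ex m η k).card : ℝ) ≤
      2 * (m : ℝ) ^ (1 - 1 / 28 : ℝ) * K + 32 * L ^ 2 * (K : ℝ) ^ 8 * B := by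
  have hm0 : 0 < m := by
    rcases Nat.eq_zero_or_pos m with h | h
    · rw [h, Nat.cast_zero, Real.log_zero] at hL
      linarith only [hL, hL6]
    · exact h
  have hmR : (0 : ℝ) < m := by exact_mod_cast hm0
  have hKR : (256 : ℝ) ≤ (K : ℝ) := by exact_mod_cast hK
  have hexpL : Real.exp L = m := by rw [hL, Real.exp_log hmR]
  have hlog2 : (1 / 2 : ℝ) ≤ Real.log 2 := by
    have := Real.log_two_gt_d9
    linarith only [this]
  have hlog2' : Real.log 2 ≤ 1 := by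
    have := Real.log_two_lt_d9
    linarith only [this]
  have hK1 : 1 < K ^ 6 := Nat.one_lt_pow (by norm_num) (by omega)
  obtain ⟨ρ, hρ⟩ : ∃ ρ, ρ = Nat.clog 2 (K ^ 6) := ⟨_, rfl⟩
  have h1 : K ^ 6 ≤ 2 ^ ρ := by rw [hρ]; exact Nat.le_pow_clog (by norm_num) _
  have hρ1 : 1 ≤ ρ := by
    rcases Nat.eq_zero_or_pos ρ with h | h
    · rw [h, pow_zero] at h1
      omega
    · exact h
  have h2 : 2 ^ ρ ≤ 2 * K ^ 6 := by
    have h3 := Nat.pow_pred_clog_lt_self (b := 2) (by norm_num) hK1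
    rw [← hρ] at h3
    have h4 : 2 ^ ρ = 2 * 2 ^ ρ.pred := by
      rw [← pow_succ', Nat.pred_eq_sub_one, Nat.sub_add_cancel hρ1]
    rw [h4]
    exact Nat.mul_le_mul_left _ h3.le
  have h3 : 2 * K ^ 6 ≤ m := by
    have h4 : (2 : ℝ) * (K : ℝ) ^ 6 ≤ m := by
      have h5 : (K : ℝ) ^ 6 ≤ ((m : ℝ) ^ (1 / 100 : ℝ)) ^ 6 :=
        pow_le_pow_left₀ (by linarith only [hKR]) hKm 6
      have h6 : ((m : ℝ) ^ (1 / 100 : ℝ)) ^ 6 = Real.exp (6 / 100 * L) := by
        rw [← Real.rpow_natCast ((m : ℝ) ^ (1 / 100 : ℝ)) 6, ← Real.rpow_mul hmR.le,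
          Real.rpow_def_of_pos hmR, ← hL]
        congr 1
        push_cast
        ring
      have h7 : (2 : ℝ) ≤ Real.exp (94 / 100 * L) := by
        have := Real.add_one_le_exp (94 / 100 * L)
        linarith only [hL6, this]
      have h8 : (2 : ℝ) * Real.exp (6 / 100 * L) ≤ m := by
        calc (2 : ℝ) * Real.exp (6 / 100 * L)
            ≤ Real.exp (94 / 100 * L) * Real.exp (6 / 100 * L) :=
              mul_le_mul_of_nonneg_right h7 (Real.exp_pos _).le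
          _ = m := by
            rw [← Real.exp_add, ← hexpL]
            congr 1
            ring
      rw [h6] at h5
      linarith only [h5, h8]
    exact_mod_cast h4
  have hT1 : 1 < 2 ^ ρ := lt_of_lt_of_le hK1 h1
  obtain ⟨b, hb⟩ : ∃ b, b = Nat.log (2 ^ ρ) m := ⟨_, rfl⟩
  have hb1 : 1 ≤ b := by
    rw [hb]
    exact Nat.log_pos hT1 (h2.trans h3)
  have hbm : (2 ^ ρ) ^ b ≤ m := by
    rw [hb]
    exact Nat.pow_log_le_self _ hm0.ne'
  have hbm' : m < (2 ^ ρ) ^ (b + 1) := by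
    rw [hb]
    exact Nat.lt_pow_succ_log_self hT1 m
  have hmain := hround ρ b ⌊B⌋₊ h1 hbm hb1 (Nat.le_floor hv)
    (fun q hq1 hq2 => Nat.le_floor (hq q hq1 hq2))
  have hlogK : 0 ≤ Real.log K := Real.log_nonneg (by linarith only [hKR])
  -- first term
  have hf : ((K : ℝ) ^ (-(1 / 4) : ℝ)) ^ b ≤ (m : ℝ) ^ (-(1 / 28) : ℝ) * K := by
    have e1 : ((K : ℝ) ^ (-(1 / 4) : ℝ)) ^ b = Real.exp (-(1 / 4) * b * Real.log K) := by
      rw [← Real.rpow_natCast ((K : ℝ) ^ (-(1 / 4) : ℝ)) b, ← Real.rpow_mul (by linarith only [hKR]),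
        Real.rpow_def_of_pos (by linarith only [hKR])]
      congr 1
      ring
    have e2 : (m : ℝ) ^ (-(1 / 28) : ℝ) * K = Real.exp (-(1 / 28) * L + Real.log K) := by
      rw [Real.exp_add, Real.exp_log (by linarith only [hKR]), Real.rpow_def_of_pos hmR, ← hL]
      congr 2
      ring
    rw [e1, e2]
    apply Real.exp_le_exp.mpr
    have h8 : L ≤ 7 * (b + 1) * Real.log K := by
      have h9 : (m : ℝ) ≤ ((K : ℝ) ^ 7) ^ (b + 1) := by
        have h10 : m ≤ (K ^ 7) ^ (b + 1) := by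
          refine hbm'.le.trans (Nat.pow_le_pow_left ?_ _)
          refine h2.trans ?_
          rw [pow_succ K 6, mul_comm]
          exact Nat.mul_le_mul_left _ (by omega)
        exact_mod_cast h10
      have h11 := Real.log_le_log hmR h9
      rw [← hL, Real.log_pow, Real.log_pow] at h11
      push_cast at h11
      linarith only [h11]
    nlinarith only [hlogK, h8]
  -- second term
  have hrb : (ρ : ℝ) * b ≤ 2 * L := by
    have h8 : ((2 : ℝ) ^ ρ) ^ b ≤ m := by exact_mod_cast hbm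
    have h9 := Real.log_le_log (by positivity) h8
    rw [← hL, Real.log_pow, Real.log_pow] at h9
    have h10 : (0 : ℝ) ≤ (ρ : ℝ) * b := by positivity
    nlinarith only [h9, hlog2, h10]
  have hb' : (b : ℝ) ≤ ρ * b := by
    have h8 : (1 : ℝ) ≤ ρ := by exact_mod_cast hρ1
    have h9 : (0 : ℝ) ≤ b := Nat.cast_nonneg b
    nlinarith only [h8]
  have hs : 8 * (ρ : ℝ) * b ^ 2 ≤ 32 * L ^ 2 := by
    have h8 : (0 : ℝ) ≤ (b : ℝ) := Nat.cast_nonneg b
    have h9 : (0 : ℝ) ≤ (ρ : ℝ) * b := by positivity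
    have h10 : (ρ : ℝ) * b * b ≤ (2 * L) * (2 * L) :=
      mul_le_mul hrb (hb'.trans hrb) h8 (by linarith only [hL6])
    nlinarith only [h10]
  have he : ((⌊B⌋₊ : ℕ) : ℝ) ≤ B := Nat.floor_le hB
  refine hmain.trans (add_le_add ?_ ?_)
  · calc 2 * (m : ℝ) * ((K : ℝ) ^ (-(1 / 4) : ℝ)) ^ b
        ≤ 2 * (m : ℝ) * ((m : ℝ) ^ (-(1 / 28) : ℝ) * K) :=
          mul_le_mul_of_nonneg_left hf (by linarith only [hmR])
      _ = 2 * (m : ℝ) ^ (1 - 1 / 28 : ℝ) * K := by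
          have h8 : (m : ℝ) ^ (1 - 1 / 28 : ℝ) = (m : ℝ) * (m : ℝ) ^ (-(1 / 28) : ℝ) := by
            rw [sub_eq_add_neg, Real.rpow_add hmR, Real.rpow_one]
          rw [h8]
          ring
  · calc 8 * (ρ : ℝ) * (b : ℝ) ^ 2 * (K : ℝ) ^ 8 * ((⌊B⌋₊ : ℕ) : ℝ)
        ≤ 8 * (ρ : ℝ) * (b : ℝ) ^ 2 * (K : ℝ) ^ 8 * B :=
          mul_le_mul_of_nonneg_left he (by positivity)
      _ ≤ 32 * L ^ 2 * (K : ℝ) ^ 8 * B := by
          refine mul_le_mul_of_nonneg_right ?_ hB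
          exact mul_le_mul_of_nonneg_right hs (by positivity)

/-! ### All rounds -/

private theorem induct_claim {K0 m v : ℕ} {η : ℤ} {c0 L : ℝ} (hK0 : 256 ≤ K0)
    (hround : ∀ K ≥ K0, ∀ (k ρ b e : ℕ), 0 < k → k ^ 4 ≤ K ^ 5 → K ^ 6 ≤ 2 ^ ρ →
      (2 ^ ρ) ^ b ≤ m → 1 ≤ b →
      v * (Ex m η 2).card ≤ e → (∀ q, q.Prime → q ≤ K → (Ex m η q).card ≤ e) →
      ((Ex m η k).card : ℝ) ≤
        2 * m * ((K : ℝ) ^ (-(1 / 4) : ℝ)) ^ b + 8 * ρ * b ^ 2 * K ^ 8 * e)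
    (hL : L = Real.log m) (hL6 : 6 ≤ L) (hc1 : c0 ≤ 1 / 100)
    (hv : ((v * (Ex m η 2).card : ℕ) : ℝ) ≤ (m : ℝ) ^ (1 - c0))
    (hbase : ∀ q : ℕ, q.Prime → q ≤ K0 → ((Ex m η q).card : ℝ) ≤ (m : ℝ) ^ (1 - c0)) (i : ℕ) :
    (∀ j < i, ((indU K0 j : ℕ) : ℝ) ≤ (m : ℝ) ^ (1 / 100 : ℝ)) → ∀ q : ℕ, q.Prime →
      q ≤ indU K0 i →
      ((Ex m η q).card : ℝ) ≤ (m : ℝ) ^ (1 - c0) * L ^ (4 * i) * ((indU K0 i : ℕ) : ℝ) ^ 64 := by
  have hm0 : 0 < m := by
    rcases Nat.eq_zero_or_pos m with h | h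
    · rw [h, Nat.cast_zero, Real.log_zero] at hL
      linarith only [hL, hL6]
    · exact h
  have hmR : (0 : ℝ) < m := by exact_mod_cast hm0
  have hm1 : (1 : ℝ) ≤ m := by exact_mod_cast hm0
  have hM : 0 ≤ (m : ℝ) ^ (1 - c0) := Real.rpow_nonneg hmR.le _
  induction i with
  | zero =>
    intro _ q hq hqK
    have h1 := hbase q hq hqK
    have h2 : (1 : ℝ) ≤ ((indU K0 0 : ℕ) : ℝ) ^ 64 := by
      apply one_le_pow₀
      have : (256 : ℝ) ≤ ((indU K0 0 : ℕ) : ℝ) := by exact_mod_cast hK0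
      linarith only [this]
    rw [Nat.mul_zero, pow_zero, mul_one]
    calc ((Ex m η q).card : ℝ) ≤ (m : ℝ) ^ (1 - c0) * 1 := by rw [mul_one]; exact h1
      _ ≤ _ := mul_le_mul_of_nonneg_left h2 hM
  | succ i ih =>
    intro hj q hq hqK
    have hi := ih fun j hj' => hj j (Nat.lt_succ_of_lt hj')
    have hKm := hj i (Nat.lt_succ_self i)
    have hKge : K0 ≤ indU K0 i := induct_ge hK0 i
    have hK256 : 256 ≤ indU K0 i := hK0.trans hKge
    obtain ⟨K, hKdef⟩ : ∃ K, K = indU K0 i := ⟨_, rfl⟩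
    rw [← hKdef] at hi hKm hKge hK256
    have hKR : (256 : ℝ) ≤ (K : ℝ) := by exact_mod_cast hK256
    have hL1 : (1 : ℝ) ≤ L := by linarith only [hL6]
    have hLi : (1 : ℝ) ≤ L ^ (4 * i) := one_le_pow₀ hL1
    have hK64 : (1 : ℝ) ≤ (K : ℝ) ^ 64 := one_le_pow₀ (by linarith only [hKR])
    have hone : (1 : ℝ) ≤ L ^ (4 * i) * (K : ℝ) ^ 64 := by nlinarith only [hLi, hK64]
    have hB : (m : ℝ) ^ (1 - c0) ≤ (m : ℝ) ^ (1 - c0) * L ^ (4 * i) * (K : ℝ) ^ 64 := by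
      rw [mul_assoc]
      exact le_mul_of_one_le_right hM hone
    have hsucc : indU K0 (i + 1) = ⌊(K : ℝ) ^ (5 / 4 : ℝ)⌋₊ := by rw [hKdef]; rfl
    have hq4 : q ^ 4 ≤ K ^ 5 := by
      refine (Nat.pow_le_pow_left hqK 4).trans ?_
      rw [hsucc]
      exact induct_pow4 K
    have h1 := induct_round (v := v) (k := q) hK256
      (fun ρ b e => hround K hKge q ρ b e hq.pos hq4) hL hL6 hKm (hM.trans hB) (hv.trans hB)
      (fun q' hq1 hq2 => hi q' hq1 hq2)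
    refine h1.trans ?_
    have hgrow := induct_grow hK256
    rw [← hsucc] at hgrow
    have hK72 : (K : ℝ) ^ 72 ≤ ((indU K0 (i + 1) : ℕ) : ℝ) ^ 64 := by
      have e1 : ((K : ℝ) ^ (9 / 8 : ℝ)) ^ 64 = (K : ℝ) ^ 72 := by
        rw [← Real.rpow_natCast ((K : ℝ) ^ (9 / 8 : ℝ)) 64, ← Real.rpow_mul (by linarith only [hKR]),
          ← Real.rpow_natCast (K : ℝ) 72]
        norm_num
      rw [← e1]
      exact pow_le_pow_left₀ (Real.rpow_nonneg (by linarith only [hKR]) _) hgrow 64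
    have hmm : (m : ℝ) ^ (1 - 1 / 28 : ℝ) ≤ (m : ℝ) ^ (1 - c0) :=
      Real.rpow_le_rpow_of_exponent_le hm1 (by linarith only [hc1])
    have hKK : (K : ℝ) ≤ (K : ℝ) ^ 72 := by
      calc (K : ℝ) = (K : ℝ) ^ 1 := (pow_one _).symm
        _ ≤ (K : ℝ) ^ 72 := pow_le_pow_right₀ (by linarith only [hKR]) (by norm_num)
    have hpoly : 2 + 32 * L ^ 2 ≤ L ^ 4 := by
      have h36 : 36 ≤ L ^ 2 := by nlinarith only [hL6]
      have h37 : L ^ 4 = L ^ 2 * L ^ 2 := by ring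
      nlinarith only [h36]
    have t1 : 2 * (m : ℝ) ^ (1 - 1 / 28 : ℝ) * K ≤
        (m : ℝ) ^ (1 - c0) * L ^ (4 * i) * (K : ℝ) ^ 72 * 2 := by
      have e1 : (m : ℝ) ^ (1 - 1 / 28 : ℝ) * K ≤ (m : ℝ) ^ (1 - c0) * (K : ℝ) ^ 72 :=
        mul_le_mul hmm hKK (by linarith only [hKR]) hM
      have e2 : (m : ℝ) ^ (1 - c0) * (K : ℝ) ^ 72 ≤
          (m : ℝ) ^ (1 - c0) * (K : ℝ) ^ 72 * L ^ (4 * i) :=
        le_mul_of_one_le_right (by positivity) hLi
      nlinarith only [e1, e2]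
    have t2 : 32 * L ^ 2 * (K : ℝ) ^ 8 * ((m : ℝ) ^ (1 - c0) * L ^ (4 * i) * (K : ℝ) ^ 64) =
        (m : ℝ) ^ (1 - c0) * L ^ (4 * i) * (K : ℝ) ^ 72 * (32 * L ^ 2) := by ring
    rw [t2]
    calc 2 * (m : ℝ) ^ (1 - 1 / 28 : ℝ) * K +
          (m : ℝ) ^ (1 - c0) * L ^ (4 * i) * (K : ℝ) ^ 72 * (32 * L ^ 2)
        ≤ (m : ℝ) ^ (1 - c0) * L ^ (4 * i) * (K : ℝ) ^ 72 * 2 +
          (m : ℝ) ^ (1 - c0) * L ^ (4 * i) * (K : ℝ) ^ 72 * (32 * L ^ 2) :=
          add_le_add_left t1 _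
      _ = (m : ℝ) ^ (1 - c0) * L ^ (4 * i) * (K : ℝ) ^ 72 * (2 + 32 * L ^ 2) := by ring
      _ ≤ (m : ℝ) ^ (1 - c0) * L ^ (4 * i) * (K : ℝ) ^ 72 * L ^ 4 :=
          mul_le_mul_of_nonneg_left hpoly (by positivity)
      _ = (m : ℝ) ^ (1 - c0) * L ^ (4 * (i + 1)) * (K : ℝ) ^ 72 := by ring
      _ ≤ (m : ℝ) ^ (1 - c0) * L ^ (4 * (i + 1)) * ((indU K0 (i + 1) : ℕ) : ℝ) ^ 64 :=
          mul_le_mul_of_nonneg_left hK72 (by positivity)

/-! ### The base -/

private theorem induct_base {K0 ρ0 m k v : ℕ} {η : ℤ} {ε c0 L : ℝ} (hη : η = 1 ∨ η = -1)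
    (hk : 0 < k) (hkK : k ≤ K0) (hρ : 2 * K0 ≤ 2 ^ ρ0) (hρ1 : 1 ≤ ρ0)
    (hv : ∀ i, Nat.gcd (2 ^ i) m ≤ v)
    (hv2 : ((v * (Ex m η 2).card : ℕ) : ℝ) ≤ (m : ℝ) ^ (1 - ε / 2))
    (hL : L = Real.log m) (hL6 : 6 ≤ L) (hc0 : 0 < c0)
    (hcB : 2 * c0 * (2 ^ ρ0 * (ρ0 * Real.log 2)) ≤ 1) (hcε : 4 * c0 ≤ ε)
    (h12 : 12 ≤ c0 * L) (hbig : 48 * (1 + K0) * ρ0 ≤ c0 ^ 3 * L) :
    ((Ex m η k).card : ℝ) ≤ (m : ℝ) ^ (1 - c0) := by
  have hm0 : 0 < m := by
    rcases Nat.eq_zero_or_pos m with h | h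
    · rw [h, Nat.cast_zero, Real.log_zero] at hL
      linarith only [hL, hL6]
    · exact h
  have hmR : (0 : ℝ) < m := by exact_mod_cast hm0
  have hexp : ∀ a : ℝ, (m : ℝ) ^ a = Real.exp (a * L) := by
    intro a
    rw [Real.rpow_def_of_pos hmR, ← hL, mul_comm]
  have hlog2 : (1 / 2 : ℝ) ≤ Real.log 2 := by
    have := Real.log_two_gt_d9
    linarith only [this]
  obtain ⟨b, hb⟩ : ∃ b, b = Nat.log (2 ^ ρ0) m := ⟨_, rfl⟩
  have hT1 : 1 < 2 ^ ρ0 := Nat.one_lt_two_pow (by omega)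
  have hbm : (2 ^ ρ0) ^ b ≤ m := by
    rw [hb]
    exact Nat.pow_log_le_self _ hm0.ne'
  have hbm' : m < (2 ^ ρ0) ^ (b + 1) := by
    rw [hb]
    exact Nat.lt_pow_succ_log_self hT1 m
  have hmain := base_step hη hk hkK hρ hbm hv
  have hρR : (1 : ℝ) ≤ ρ0 := by exact_mod_cast hρ1
  have hTpos : (0 : ℝ) < 2 ^ ρ0 := by positivity
  have hTone : (1 : ℝ) ≤ 2 ^ ρ0 := one_le_pow₀ (by norm_num)
  -- the logarithms
  have hLb : L ≤ (b + 1) * (ρ0 * Real.log 2) := by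
    have h1 : (m : ℝ) ≤ ((2 : ℝ) ^ ρ0) ^ (b + 1) := by exact_mod_cast hbm'.le
    have h2 := Real.log_le_log hmR h1
    rw [← hL, Real.log_pow, Real.log_pow] at h2
    push_cast at h2
    exact h2
  have hrb : (ρ0 : ℝ) * b ≤ 2 * L := by
    have h8 : ((2 : ℝ) ^ ρ0) ^ b ≤ m := by exact_mod_cast hbm
    have h9 := Real.log_le_log (by positivity) h8
    rw [← hL, Real.log_pow, Real.log_pow] at h9
    have h10 : (0 : ℝ) ≤ (ρ0 : ℝ) * b := by positivity
    nlinarith only [h9, hlog2, h10]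
  have hb2 : (b : ℝ) ≤ 2 * L := by
    have h9 : (0 : ℝ) ≤ b := Nat.cast_nonneg b
    nlinarith only [hrb, hρR]
  -- first term
  have hf : (1 - 1 / (2 : ℝ) ^ ρ0) ^ b ≤ 3 * Real.exp (-(2 * c0 * L)) := by
    have h1 : (1 - 1 / (2 : ℝ) ^ ρ0) ≤ Real.exp (-(1 / (2 : ℝ) ^ ρ0)) := by
      have := Real.add_one_le_exp (-(1 / (2 : ℝ) ^ ρ0))
      linarith only [this]
    have h0 : 0 ≤ 1 - 1 / (2 : ℝ) ^ ρ0 := by
      rw [sub_nonneg, div_le_one hTpos]
      exact hTone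
    have h2 : (1 - 1 / (2 : ℝ) ^ ρ0) ^ b ≤ Real.exp (-(1 / (2 : ℝ) ^ ρ0)) ^ b :=
      pow_le_pow_left₀ h0 h1 b
    have h3 : Real.exp (-(1 / (2 : ℝ) ^ ρ0)) ^ b = Real.exp (-(b / (2 : ℝ) ^ ρ0)) := by
      rw [← Real.exp_nat_mul]
      congr 1
      ring
    rw [h3] at h2
    have h4 : -(b / (2 : ℝ) ^ ρ0) ≤ 1 + -(2 * c0 * L) := by
      have h5 : 2 * c0 * L ≤ (b + 1) / (2 : ℝ) ^ ρ0 := by
        rw [le_div_iff₀ hTpos]
        have h6 : (0 : ℝ) ≤ (b : ℝ) + 1 := by positivity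
        have h7 : 2 * c0 * L * 2 ^ ρ0 ≤ 2 * c0 * ((b + 1) * (ρ0 * Real.log 2)) * 2 ^ ρ0 := by
          apply mul_le_mul_of_nonneg_right _ hTpos.le
          exact mul_le_mul_of_nonneg_left hLb (by linarith only [hc0])
        have h8 : 2 * c0 * ((b + 1) * (ρ0 * Real.log 2)) * 2 ^ ρ0 =
            ((b : ℝ) + 1) * (2 * c0 * (2 ^ ρ0 * (ρ0 * Real.log 2))) := by ring
        have h9 : ((b : ℝ) + 1) * (2 * c0 * (2 ^ ρ0 * (ρ0 * Real.log 2))) ≤ ((b : ℝ) + 1) * 1 :=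
          mul_le_mul_of_nonneg_left hcB h6
        linarith only [h7, h9]
      have h6 : ((b : ℝ) + 1) / (2 : ℝ) ^ ρ0 = b / (2 : ℝ) ^ ρ0 + 1 / (2 : ℝ) ^ ρ0 := add_div _ _ _
      have h7 : 1 / (2 : ℝ) ^ ρ0 ≤ 1 := (div_le_one hTpos).mpr hTone
      linarith only [h0, h5, h6]
    have h5 : Real.exp (-(b / (2 : ℝ) ^ ρ0)) ≤ Real.exp 1 * Real.exp (-(2 * c0 * L)) := by
      rw [← Real.exp_add]
      exact Real.exp_le_exp.mpr h4
    have h6 : Real.exp 1 * Real.exp (-(2 * c0 * L)) ≤ 3 * Real.exp (-(2 * c0 * L)) := by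
      refine mul_le_mul_of_nonneg_right ?_ (Real.exp_pos _).le
      have := Real.exp_one_lt_d9
      linarith only [this]
    exact h2.trans (h5.trans h6)
  have hM : (m : ℝ) = Real.exp L := by rw [hL, Real.exp_log hmR]
  have hX : Real.exp ((1 - c0) * L) = Real.exp L * Real.exp (-(c0 * L)) := by
    rw [← Real.exp_add]
    congr 1
    ring
  have hE12 : 12 ≤ Real.exp (c0 * L) := by
    have := Real.add_one_le_exp (c0 * L)
    linarith only [h12, this]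
  have hsplit : Real.exp (-(2 * c0 * L)) = Real.exp (-(c0 * L)) * Real.exp (-(c0 * L)) := by
    rw [← Real.exp_add]
    congr 1
    ring
  have hinv : Real.exp (-(c0 * L)) * Real.exp (c0 * L) = 1 := by
    rw [← Real.exp_add, neg_add_cancel, Real.exp_zero]
  have hpos1 : 0 < Real.exp (-(c0 * L)) := Real.exp_pos _
  have hsmall : 12 * Real.exp (-(c0 * L)) ≤ 1 := by
    calc 12 * Real.exp (-(c0 * L)) ≤ Real.exp (c0 * L) * Real.exp (-(c0 * L)) :=
          mul_le_mul_of_nonneg_right hE12 hpos1.le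
      _ = 1 := by rw [mul_comm, hinv]
  have t1 : 2 * (m : ℝ) * (1 - 1 / (2 : ℝ) ^ ρ0) ^ b ≤ Real.exp ((1 - c0) * L) / 2 := by
    rw [hX, hM]
    calc 2 * Real.exp L * (1 - 1 / (2 : ℝ) ^ ρ0) ^ b
        ≤ 2 * Real.exp L * (3 * Real.exp (-(2 * c0 * L))) :=
          mul_le_mul_of_nonneg_left hf (by positivity)
      _ = (Real.exp L * Real.exp (-(c0 * L))) * (12 * Real.exp (-(c0 * L))) / 2 := by
          rw [hsplit]
          ring
      _ ≤ (Real.exp L * Real.exp (-(c0 * L))) * 1 / 2 := by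
          have : 0 ≤ Real.exp L * Real.exp (-(c0 * L)) := by positivity
          nlinarith only [hM, hinv, hsmall, hpos1, hE12, this]
      _ = Real.exp L * Real.exp (-(c0 * L)) / 2 := by ring
  -- second term
  have hv3 : ((v : ℝ) * ((Ex m η 2).card : ℝ)) ≤ Real.exp ((1 - ε / 2) * L) := by
    rw [← hexp]
    push_cast at hv2
    exact hv2
  have hE : (c0 * L) ^ 3 / 6 ≤ Real.exp (c0 * L) := by
    have h1 : 0 ≤ c0 * L := by linarith only [h12, hpos1, hsmall]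
    have h2 := Real.pow_div_factorial_le_exp (c0 * L) h1 3
    have h3 : ((Nat.factorial 3 : ℕ) : ℝ) = 6 := by norm_num [Nat.factorial]
    rwa [h3] at h2
  have hbig2 : 2 * ((1 + (K0 : ℝ)) * (ρ0 * (4 * L ^ 2))) ≤ Real.exp (c0 * L) := by
    refine le_trans ?_ hE
    have h1 : (c0 * L) ^ 3 / 6 = (c0 ^ 3 * L) * L ^ 2 / 6 := by ring
    rw [h1]
    have h2 : 48 * (1 + (K0 : ℝ)) * ρ0 * L ^ 2 ≤ c0 ^ 3 * L * L ^ 2 :=
      mul_le_mul_of_nonneg_right hbig (by positivity)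
    linarith only [h2]
  have t2 : (b : ℝ) * (1 + K0) * (ρ0 * b * (v * ((Ex m η 2).card : ℝ))) ≤
      Real.exp ((1 - c0) * L) / 2 := by
    have h1 : (b : ℝ) * b ≤ 4 * L ^ 2 := by
      have h9 : (0 : ℝ) ≤ b := Nat.cast_nonneg b
      nlinarith only [hb2, hρR, hrb, hL6]
    have h2 : Real.exp ((1 - ε / 2) * L) ≤ Real.exp L * Real.exp (-(c0 * L)) * Real.exp (-(c0 * L)) := by
      rw [← Real.exp_add, ← Real.exp_add]
      apply Real.exp_le_exp.mpr
      nlinarith only [hcε, hL6]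
    calc (b : ℝ) * (1 + K0) * (ρ0 * b * (v * ((Ex m η 2).card : ℝ)))
        = (1 + (K0 : ℝ)) * (ρ0 * (b * b)) * (v * ((Ex m η 2).card : ℝ)) := by ring
      _ ≤ (1 + (K0 : ℝ)) * (ρ0 * (4 * L ^ 2)) * Real.exp ((1 - ε / 2) * L) := by
          apply mul_le_mul _ hv3 (mul_nonneg (Nat.cast_nonneg _) (Nat.cast_nonneg _)) (by positivity)
          apply mul_le_mul_of_nonneg_left _ (by positivity)
          exact mul_le_mul_of_nonneg_left h1 (by positivity)
      _ ≤ (1 + (K0 : ℝ)) * (ρ0 * (4 * L ^ 2)) *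
          (Real.exp L * Real.exp (-(c0 * L)) * Real.exp (-(c0 * L))) :=
          mul_le_mul_of_nonneg_left h2 (by positivity)
      _ = (2 * ((1 + (K0 : ℝ)) * (ρ0 * (4 * L ^ 2)))) *
          (Real.exp L * Real.exp (-(c0 * L)) * Real.exp (-(c0 * L))) / 2 := by ring
      _ ≤ Real.exp (c0 * L) *
          (Real.exp L * Real.exp (-(c0 * L)) * Real.exp (-(c0 * L))) / 2 := by
          have h3 : 0 ≤ Real.exp L * Real.exp (-(c0 * L)) * Real.exp (-(c0 * L)) := by positivity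
          have h4 := mul_le_mul_of_nonneg_right hbig2 h3
          linarith only [h4]
      _ = Real.exp L * Real.exp (-(c0 * L)) * (Real.exp (-(c0 * L)) * Real.exp (c0 * L)) / 2 := by
          ring
      _ = Real.exp ((1 - c0) * L) / 2 := by rw [hinv, mul_one, hX]
  rw [hexp]
  linarith only [hmain, t1, t2]

theorem induct (ε : ℝ) (hε : 0 < ε) (hε1 : ε ≤ 1) : ∃ δ : ℝ, 0 < δ ∧ δ ≤ 1 ∧ ∃ m0 : ℕ,
    ∀ m ≥ m0, ∀ η : ℤ, (η = 1 ∨ η = -1) →
    (∀ i, ((Nat.gcd (2 ^ i) m : ℕ) : ℝ) ≤ (m : ℝ) ^ (ε / 2)) →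
    ((Ex m η 2).card : ℝ) ≤ (m : ℝ) ^ (1 - ε) →
    ∀ q : ℕ, q.Prime → (q : ℝ) ≤ (m : ℝ) ^ δ → ((Ex m η q).card : ℝ) ≤ (m : ℝ) ^ (1 - δ) := by
  obtain ⟨K1, hK1, hround⟩ := round_step
  obtain ⟨K0, hK0def⟩ : ∃ K0, K0 = max K1 256 := ⟨_, rfl⟩
  have hK01 : K1 ≤ K0 := by rw [hK0def]; exact le_max_left _ _
  have hK0 : 256 ≤ K0 := by rw [hK0def]; exact le_max_right _ _
  obtain ⟨ρ0, hρ0⟩ : ∃ ρ0, ρ0 = K0 + 1 := ⟨_, rfl⟩
  have hρ1 : 1 ≤ ρ0 := by omega
  have hρ : 2 * K0 ≤ 2 ^ ρ0 := by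
    rw [hρ0, pow_succ, mul_comm]
    exact Nat.mul_le_mul_right _ Nat.lt_two_pow_self.le
  -- the constants
  obtain ⟨D, hD⟩ : ∃ D : ℝ, D = 2 ^ ρ0 * (ρ0 * Real.log 2) := ⟨_, rfl⟩
  have hρR : (1 : ℝ) ≤ ρ0 := by exact_mod_cast hρ1
  have hlog2 : (0 : ℝ) < Real.log 2 := Real.log_pos (by norm_num)
  have hDpos : 0 < D := by
    rw [hD]
    have : (0 : ℝ) < ρ0 := by linarith
    positivity
  obtain ⟨c0, hc0def⟩ : ∃ c0 : ℝ, c0 = min (min (1 / (2 * D)) (ε / 4)) (1 / 100) := ⟨_, rfl⟩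
  have hc0 : 0 < c0 := by
    rw [hc0def]
    exact lt_min (lt_min (by positivity) (by positivity)) (by norm_num)
  have hc1 : c0 ≤ 1 / 100 := by rw [hc0def]; exact min_le_right _ _
  have hcε : 4 * c0 ≤ ε := by
    have : c0 ≤ ε / 4 := by rw [hc0def]; exact (min_le_left _ _).trans (min_le_right _ _)
    linarith only [this]
  have hcB : 2 * c0 * D ≤ 1 := by
    have : c0 ≤ 1 / (2 * D) := by rw [hc0def]; exact (min_le_left _ _).trans (min_le_left _ _)
    rw [le_div_iff₀ (by positivity)] at this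
    linarith only [this]
  obtain ⟨L0, hL0⟩ : ∃ L0 : ℝ, L0 = max (max 6 (12 / c0)) (max (48 * (1 + K0) * ρ0 / c0 ^ 3)
    (max (1000 * K0 / c0) ((2304 / c0) ^ 2))) := ⟨_, rfl⟩
  refine ⟨c0 / 1250, by positivity, by linarith only [hc0, hc1], ⌈Real.exp L0⌉₊, fun m hm η hη hgcd he2 => ?_⟩
  have hmexp : Real.exp L0 ≤ m := Nat.ceil_le.mp hm
  have hmR : (0 : ℝ) < m := lt_of_lt_of_le (Real.exp_pos _) hmexp
  have hm1 : (1 : ℝ) ≤ m := by exact_mod_cast (by exact_mod_cast hmR : 0 < m)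
  obtain ⟨L, hL⟩ : ∃ L, L = Real.log m := ⟨_, rfl⟩
  have hLL : L0 ≤ L := by rw [hL]; exact (Real.le_log_iff_exp_le hmR).mpr hmexp
  have hL6 : 6 ≤ L := by
    refine le_trans ?_ hLL
    rw [hL0]
    exact (le_max_left _ _).trans (le_max_left _ _)
  have h12 : 12 ≤ c0 * L := by
    have h1 : 12 / c0 ≤ L := by
      refine le_trans ?_ hLL
      rw [hL0]
      exact (le_max_right _ _).trans (le_max_left _ _)
    rw [div_le_iff₀ hc0] at h1
    linarith only [h1]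
  have hbig : 48 * (1 + (K0 : ℝ)) * ρ0 ≤ c0 ^ 3 * L := by
    have h1 : 48 * (1 + (K0 : ℝ)) * ρ0 / c0 ^ 3 ≤ L := by
      refine le_trans ?_ hLL
      rw [hL0]
      exact (le_max_left _ _).trans (le_max_right _ _)
    rw [div_le_iff₀ (by positivity)] at h1
    linarith only [h1]
  have hK0L : 1000 * (K0 : ℝ) ≤ c0 * L := by
    have h1 : 1000 * (K0 : ℝ) / c0 ≤ L := by
      refine le_trans ?_ hLL
      rw [hL0]
      exact (le_max_left _ _).trans ((le_max_right _ _).trans (le_max_right _ _))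
    rw [div_le_iff₀ hc0] at h1
    linarith only [h1]
  have hsq : (2304 / c0) ^ 2 ≤ L := by
    refine le_trans ?_ hLL
    rw [hL0]
    exact (le_max_right _ _).trans ((le_max_right _ _).trans (le_max_right _ _))
  have hexp : ∀ a : ℝ, (m : ℝ) ^ a = Real.exp (a * L) := by
    intro a
    rw [Real.rpow_def_of_pos hmR, ← hL, mul_comm]
  obtain ⟨v, hvdef⟩ : ∃ v : ℕ, v = ⌊(m : ℝ) ^ (ε / 2)⌋₊ := ⟨_, rfl⟩
  have hv : ∀ i, Nat.gcd (2 ^ i) m ≤ v := fun i => by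
    rw [hvdef]
    exact Nat.le_floor (hgcd i)
  have hv2 : ((v * (Ex m η 2).card : ℕ) : ℝ) ≤ (m : ℝ) ^ (1 - ε / 2) := by
    have h1 : (v : ℝ) ≤ (m : ℝ) ^ (ε / 2) := by
      rw [hvdef]
      exact Nat.floor_le (Real.rpow_nonneg hmR.le _)
    have h2 : (m : ℝ) ^ (1 - ε / 2) = (m : ℝ) ^ (ε / 2) * (m : ℝ) ^ (1 - ε) := by
      rw [← Real.rpow_add hmR]
      congr 1
      ring
    rw [h2]
    push_cast
    exact mul_le_mul h1 he2 (Nat.cast_nonneg _) (Real.rpow_nonneg hmR.le _)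
  have hbase : ∀ q : ℕ, q.Prime → q ≤ K0 → ((Ex m η q).card : ℝ) ≤ (m : ℝ) ^ (1 - c0) := by
    intro q hq hqK
    refine induct_base hη hq.pos hqK hρ hρ1 hv hv2 hL hL6 hc0 ?_ hcε h12 hbig
    rw [← hD]
    exact hcB
  have hv3 : ((v * (Ex m η 2).card : ℕ) : ℝ) ≤ (m : ℝ) ^ (1 - c0) :=
    hv2.trans (Real.rpow_le_rpow_of_exponent_le hm1 (by linarith only [hc0, hcε]))
  have hclaim := induct_claim (K0 := K0) (m := m) (v := v) (η := η) (c0 := c0) (L := L) hK0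
    (fun K hK k ρ b e hk h4 h6 hb hb1 he hq =>
      hround K (hK01.trans hK) m k v ρ b e η hη hk h4 h6 hb hb1 hv he hq)
    hL hL6 hc1 hv3 hbase
  -- the last index
  have hex : ∃ j, (m : ℝ) ^ (c0 / 1000) < ((indU K0 j : ℕ) : ℝ) := by
    obtain ⟨j, hj⟩ := pow_unbounded_of_one_lt (c0 / 1000 * L) (by norm_num : (1 : ℝ) < 9 / 8)
    refine ⟨j, ?_⟩
    have h1 := induct_log hK0 j
    have h2 : (0 : ℝ) < ((indU K0 j : ℕ) : ℝ) := by
      have : (256 : ℝ) ≤ ((indU K0 j : ℕ) : ℝ) := by exact_mod_cast hK0.trans (induct_ge hK0 j)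
      linarith only [hc0, hc1, this]
    rw [hexp, ← Real.lt_log_iff_exp_lt h2]
    exact hj.trans_le h1
  classical
  obtain ⟨j, hj, hjmin⟩ : ∃ j, (m : ℝ) ^ (c0 / 1000) < ((indU K0 j : ℕ) : ℝ) ∧
      ∀ i < j, ((indU K0 i : ℕ) : ℝ) ≤ (m : ℝ) ^ (c0 / 1000) :=
    ⟨Nat.find hex, Nat.find_spec hex, fun i hi => not_lt.mp (Nat.find_min hex hi)⟩
  have hj0 : j ≠ 0 := by
    rintro rfl
    have h1 : ((indU K0 0 : ℕ) : ℝ) = (K0 : ℝ) := rfl
    rw [h1, hexp] at hj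
    have h2 := Real.add_one_le_exp (c0 / 1000 * L)
    linarith only [hc0, hc1, hK0L, hj, h2]
  obtain ⟨i, rfl⟩ : ∃ i, j = i + 1 := Nat.exists_eq_succ_of_ne_zero hj0
  have hi := hjmin i (Nat.lt_succ_self i)
  have hKge : 256 ≤ indU K0 i := hK0.trans (induct_ge hK0 i)
  have hKR : (256 : ℝ) ≤ ((indU K0 i : ℕ) : ℝ) := by exact_mod_cast hKge
  have hlow : (m : ℝ) ^ (c0 / 1250) ≤ ((indU K0 i : ℕ) : ℝ) := by
    have h1 : ((indU K0 (i + 1) : ℕ) : ℝ) ≤ ((indU K0 i : ℕ) : ℝ) ^ (5 / 4 : ℝ) :=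
      Nat.floor_le (Real.rpow_nonneg (by linarith only [hc0, hc1, hKR]) _)
    have h2 : (m : ℝ) ^ (c0 / 1000) ≤ ((indU K0 i : ℕ) : ℝ) ^ (5 / 4 : ℝ) := hj.le.trans h1
    have h3 := Real.rpow_le_rpow (Real.rpow_nonneg hmR.le _) h2 (by norm_num : (0 : ℝ) ≤ 4 / 5)
    rw [← Real.rpow_mul hmR.le, ← Real.rpow_mul (by linarith only [hc0, hc1, hKR])] at h3
    have h4 : c0 / 1000 * (4 / 5) = c0 / 1250 := by ring
    have h5 : (5 / 4 * (4 / 5) : ℝ) = 1 := by norm_num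
    rw [h4, h5, Real.rpow_one] at h3
    exact h3
  intro q hq hqm
  have hqK : q ≤ indU K0 i := by exact_mod_cast hqm.trans hlow
  have hle100 : ∀ j' < i, ((indU K0 j' : ℕ) : ℝ) ≤ (m : ℝ) ^ (1 / 100 : ℝ) := fun j' hj' =>
    (hjmin j' (by omega)).trans (Real.rpow_le_rpow_of_exponent_le hm1 (by linarith only [hc0, hc1]))
  have h1 := hclaim i hle100 q hq hqK
  -- the number of steps
  have hlogL : 0 < Real.log L := Real.log_pos (by linarith only [hc0, hc1, hL6])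
  have hiL : (i : ℝ) ≤ 9 * Real.log L := by
    have h2 := induct_log hK0 i
    have h3 : Real.log ((indU K0 i : ℕ) : ℝ) ≤ L := by
      have h4 := Real.log_le_log (by linarith only [hc0, hc1, hKR]) hi
      rw [hexp, Real.log_exp] at h4
      have : c0 / 1000 * L ≤ L := by nlinarith only [hc1, hL6, hc0]
      linarith only [h4, this]
    have h4 : (9 / 8 : ℝ) ^ i ≤ L := h2.trans h3
    have h5 := Real.log_le_log (by positivity) h4
    rw [Real.log_pow] at h5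
    have h6 : (1 / 9 : ℝ) ≤ Real.log (9 / 8) := by
      have h7 := Real.one_sub_inv_le_log_of_pos (by norm_num : (0 : ℝ) < 9 / 8)
      norm_num at h7
      linarith only [h7]
    have h7 : (0 : ℝ) ≤ i := Nat.cast_nonneg i
    nlinarith only [h5, h6]
  have hlog4 : Real.log L ≤ 4 * L ^ (1 / 4 : ℝ) := by
    have h2 := Real.log_le_rpow_div (by linarith only [hc0, hc1, hL6] : (0 : ℝ) ≤ L) (by norm_num : (0 : ℝ) < 1 / 4)
    linarith only [h2]
  have hloglog : 36 * (Real.log L * Real.log L) ≤ c0 / 4 * L := by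
    have h2 : Real.log L * Real.log L ≤ (4 * L ^ (1 / 4 : ℝ)) * (4 * L ^ (1 / 4 : ℝ)) :=
      mul_le_mul hlog4 hlog4 hlogL.le (by positivity)
    have h3 : L ^ (1 / 4 : ℝ) * L ^ (1 / 4 : ℝ) = Real.sqrt L := by
      rw [← Real.rpow_add (by linarith only [hc0, hc1, hL6]), Real.sqrt_eq_rpow]
      norm_num
    have h4 : 2304 / c0 ≤ Real.sqrt L := Real.le_sqrt_of_sq_le hsq
    have h5 : Real.sqrt L * Real.sqrt L = L := Real.mul_self_sqrt (by linarith only [hc0, hc1, hL6])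
    rw [div_le_iff₀ hc0] at h4
    have h6 : 0 ≤ Real.sqrt L := Real.sqrt_nonneg _
    nlinarith only [h2, h4, h5, h3, hc0, hc1, hL6, h12]
  have hLi : L ^ (4 * i) ≤ Real.exp (c0 / 4 * L) := by
    have h2 : L ^ (4 * i) = Real.exp (4 * i * Real.log L) := by
      rw [← Real.exp_log (by linarith only [hc0, hc1, hL6] : (0 : ℝ) < L), ← Real.exp_nat_mul, Real.log_exp]
      push_cast
      ring_nf
    rw [h2]
    apply Real.exp_le_exp.mpr
    nlinarith only [hloglog, hc0, hc1, hlogL, hiL]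
  have hU : ((indU K0 i : ℕ) : ℝ) ^ 64 ≤ Real.exp (64 * (c0 / 1000) * L) := by
    have h2 := pow_le_pow_left₀ (by linarith only [hc0, hc1, hKR]) hi 64
    rw [hexp, ← Real.exp_nat_mul] at h2
    refine h2.trans (le_of_eq ?_)
    congr 1
    push_cast
    ring
  rw [hexp] at h1
  rw [hexp]
  calc ((Ex m η q).card : ℝ)
      ≤ Real.exp ((1 - c0) * L) * L ^ (4 * i) * ((indU K0 i : ℕ) : ℝ) ^ 64 := h1
    _ ≤ Real.exp ((1 - c0) * L) * Real.exp (c0 / 4 * L) *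
        Real.exp (64 * (c0 / 1000) * L) := by
        apply mul_le_mul _ hU (by positivity) (by positivity)
        exact mul_le_mul_of_nonneg_left hLi (Real.exp_pos _).le
    _ = Real.exp ((1 - c0) * L + c0 / 4 * L + 64 * (c0 / 1000) * L) := by
        rw [Real.exp_add, Real.exp_add]
    _ ≤ Real.exp ((1 - c0 / 1250) * L) := by
        apply Real.exp_le_exp.mpr
        have : 0 ≤ c0 * L := by positivity
        nlinarith only [hc0, hc1, h12]

end Pool.Agent.H11.LQ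

end

section

/-!
# LQ module Combi: the combinatorial part
-/

set_option autoImplicit false

namespace Pool.Agent.H11.LQ

open Finset
open Pool.Agent.H34PG (lam lam_val lam_mul lam_prime)

private theorem combi_pow {x : ℕ} (hx : 1 ≤ x) {a b : ℝ} (h : a ≤ b) :
    (x : ℝ) ^ a ≤ (x : ℝ) ^ b :=
  Real.rpow_le_rpow_of_exponent_le (by exact_mod_cast hx) h

theorem combi (ε : ℝ) (hε : 0 < ε) : ∃ δ : ℝ, 0 < δ ∧ δ ≤ 1 ∧ ∃ m0 : ℕ,
    ∀ m ≥ m0, ∀ η : ℤ, (η = 1 ∨ η = -1) → ((Ex m η 2).card : ℝ) ≤ (m : ℝ) ^ (1 - ε) →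
    ∃ m' : ℕ, (m : ℝ) ^ (1 / 2 : ℝ) ≤ m' ∧ ∀ q : ℕ, q.Prime → (q : ℝ) ≤ (m' : ℝ) ^ δ →
      ((Ex m' η q).card : ℝ) ≤ (m' : ℝ) ^ (1 - δ) := by
  have h0 : 0 < min ε 1 := lt_min hε one_pos
  obtain ⟨δ1, hδ1, hδ1', m1, h1⟩ := induct (min ε 1) h0 (min_le_right _ _)
  obtain ⟨δ2, hδ2, hδ2', m2, h2⟩ := even_case (min ε 1) h0 (min_le_right _ _)
  refine ⟨min δ1 δ2, lt_min hδ1 hδ2, (min_le_left _ _).trans hδ1', m1 + m2 + 1, ?_⟩
  intro m hm η hη he
  have hm1 : 1 ≤ m := by omega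
  have he' : ((Ex m η 2).card : ℝ) ≤ (m : ℝ) ^ (1 - min ε 1) :=
    he.trans (combi_pow hm1 (by have := min_le_left ε 1; linarith))
  by_cases hg : ∀ i, ((Nat.gcd (2 ^ i) m : ℕ) : ℝ) ≤ (m : ℝ) ^ (min ε 1 / 2)
  · refine ⟨m, ?_, fun q hq hqm => ?_⟩
    · calc (m : ℝ) ^ (1 / 2 : ℝ) ≤ (m : ℝ) ^ (1 : ℝ) := combi_pow hm1 (by norm_num)
        _ = m := Real.rpow_one _
    · refine (h1 m (by omega) η hη hg he' q hq
        (hqm.trans (combi_pow hm1 (min_le_left _ _)))).trans (combi_pow hm1 ?_)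
      have := min_le_left δ1 δ2
      linarith
  · push Not at hg
    obtain ⟨m', hm', h3⟩ := h2 m (by omega) η hη hg he'
    have hm'1 : 1 ≤ m' := by
      have : (1 : ℝ) ≤ (m : ℝ) ^ (1 / 2 : ℝ) :=
        Real.one_le_rpow (by exact_mod_cast hm1) (by norm_num)
      exact_mod_cast this.trans hm'
    refine ⟨m', hm', fun q hq hqm => ?_⟩
    refine (h3 q hq (hqm.trans (combi_pow hm'1 (min_le_right _ _)))).trans (combi_pow hm'1 ?_)
    have := min_le_right δ1 δ2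
    linarith

end Pool.Agent.H11.LQ

end

section

/-!
# LQ module Fin: the final assembly, from `combi` and the analytic part
-/

set_option autoImplicit false

namespace Pool.Agent.H11.LQ

open Finset
open Pool.Agent.H34PG (lam lam_val lam_mul lam_prime)

/-- the statement of the analytic part -/
def Analytic : Prop := ∀ δ : ℝ, 0 < δ → ∃ m0 : ℕ, ∀ m ≥ m0, ∀ η : ℤ, (η = 1 ∨ η = -1) →
  ¬ (∀ q : ℕ, q.Prime → (q : ℝ) ≤ (m : ℝ) ^ δ → ((Ex m η q).card : ℝ) ≤ (m : ℝ) ^ (1 - δ))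

/-- the integers `a` in `(0, N)` with signs `s, t` at `a`, `N - a` -/
def pat (N : ℕ) (s t : ℤ) : Finset ℕ :=
  (range N).filter fun a => 0 < a ∧ lam a = s ∧ lam (N - a) = t

theorem core (hA : Analytic) (ε : ℝ) (hε : 0 < ε) : ∃ m0 : ℕ, ∀ m ≥ m0, ∀ η : ℤ,
    (η = 1 ∨ η = -1) → (m : ℝ) ^ (1 - ε) < ((Ex m η 2).card : ℝ) := by
  obtain ⟨δ, hδ, _, m0, h0⟩ := combi ε hε
  obtain ⟨m1, h1⟩ := hA δ hδ
  refine ⟨m0 + m1 ^ 2, fun m hm η hη => ?_⟩
  by_contra hcon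
  obtain ⟨m', hm', h2⟩ := h0 m (by omega) η hη (not_lt.mp hcon)
  refine h1 m' ?_ η hη h2
  have h3 : (m1 : ℝ) ≤ (m : ℝ) ^ (1 / 2 : ℝ) := by
    rw [← Real.sqrt_eq_rpow]
    refine Real.le_sqrt_of_sq_le ?_
    exact_mod_cast (by omega : m1 ^ 2 ≤ m)
  exact_mod_cast h3.trans hm'

theorem pat_swap (N : ℕ) (s t : ℤ) : (pat N s t).card ≤ (pat N t s).card := by
  refine Finset.card_le_card_of_injOn (fun a => N - a) ?_ ?_
  · intro a ha
    unfold pat at ha ⊢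
    simp only [coe_filter, mem_range, Set.mem_setOf_eq] at ha ⊢
    obtain ⟨h1, h2, h3, h4⟩ := ha
    refine ⟨by omega, by omega, h4, ?_⟩
    rw [Nat.sub_sub_self h1.le]
    exact h3
  · intro a ha b hb hab
    unfold pat at ha hb
    simp only [coe_filter, mem_range, Set.mem_setOf_eq] at ha hb
    have : N - a = N - b := hab
    omega

private theorem fin_big (ε : ℝ) (hε : 0 < ε) (hε1 : ε ≤ 1) : ∃ N0 : ℕ, ∀ N ≥ N0,
    100 * (N : ℝ) ^ (1 - ε) ≤ ((N / 2 : ℕ) : ℝ) ^ (1 - ε / 2) ∧ (1 : ℝ) ≤ (N : ℝ) ^ (1 - ε) := by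
  obtain ⟨K, hK⟩ := exists_nat_gt ((400 : ℝ) ^ (2 / ε))
  refine ⟨K + 2, fun N hN => ?_⟩
  have hN2 : 2 ≤ N := by omega
  have hN0 : (0 : ℝ) < N := by exact_mod_cast (by omega : 0 < N)
  have hN1 : (1 : ℝ) ≤ N := by exact_mod_cast (by omega : 1 ≤ N)
  have h1 : (N : ℝ) / 4 ≤ ((N / 2 : ℕ) : ℝ) := by
    have h2 : N ≤ 4 * (N / 2) := by omega
    have h3 : (N : ℝ) ≤ 4 * ((N / 2 : ℕ) : ℝ) := by exact_mod_cast h2
    linarith
  refine ⟨?_, Real.one_le_rpow hN1 (by linarith)⟩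
  have h4 : ((N : ℝ) / 4) ^ (1 - ε / 2) ≤ ((N / 2 : ℕ) : ℝ) ^ (1 - ε / 2) :=
    Real.rpow_le_rpow (by positivity) h1 (by linarith)
  refine le_trans ?_ h4
  have h5 : (400 : ℝ) ≤ (N : ℝ) ^ (ε / 2) := by
    have h6 : ((400 : ℝ) ^ (2 / ε)) ^ (ε / 2) = 400 := by
      rw [← Real.rpow_mul (by norm_num), div_mul_div_comm, mul_comm 2 ε, div_self (by positivity),
        Real.rpow_one]
    rw [← h6]
    refine Real.rpow_le_rpow (by positivity) ?_ (by positivity)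
    have : (K : ℝ) ≤ N := by exact_mod_cast (by omega : K ≤ N)
    linarith
  have h7 : ((N : ℝ) / 4) ^ (1 - ε / 2) = (N : ℝ) ^ (1 - ε / 2) / 4 ^ (1 - ε / 2) :=
    Real.div_rpow hN0.le (by norm_num) _
  have h8 : (N : ℝ) ^ (1 - ε / 2) = (N : ℝ) ^ (1 - ε) * (N : ℝ) ^ (ε / 2) := by
    rw [← Real.rpow_add hN0]
    congr 1
    ring
  have h9 : (4 : ℝ) ^ (1 - ε / 2) ≤ 4 := by
    calc (4 : ℝ) ^ (1 - ε / 2) ≤ (4 : ℝ) ^ (1 : ℝ) :=
          Real.rpow_le_rpow_of_exponent_le (by norm_num) (by linarith)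
      _ = 4 := Real.rpow_one _
  have h10 : (0 : ℝ) < 4 ^ (1 - ε / 2) := by positivity
  rw [h7, le_div_iff₀ h10, h8]
  have h11 : (0 : ℝ) < (N : ℝ) ^ (1 - ε) := by positivity
  calc 100 * (N : ℝ) ^ (1 - ε) * 4 ^ (1 - ε / 2) ≤ 100 * (N : ℝ) ^ (1 - ε) * 4 :=
        mul_le_mul_of_nonneg_left h9 (by positivity)
    _ = (N : ℝ) ^ (1 - ε) * 400 := by ring
    _ ≤ (N : ℝ) ^ (1 - ε) * (N : ℝ) ^ (ε / 2) := mul_le_mul_of_nonneg_left h5 h11.le

private theorem fin_aux (hA : Analytic) (ε : ℝ) (hε : 0 < ε) (hε1 : ε ≤ 1) : ∃ N0 : ℕ,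
    ∀ N ≥ N0, (∀ s t : ℤ, (s = 1 ∨ s = -1) → (t = 1 ∨ t = -1) → (Even N ∨ s ≠ t) →
      (N : ℝ) ^ (1 - ε) ≤ ((pat N s t).card : ℝ)) := by
  obtain ⟨N1, h1⟩ := fin_big ε hε hε1
  obtain ⟨m0, h0⟩ := core hA (ε / 2) (by positivity)
  refine ⟨N1 + 2 * m0 + 2, fun N hN s t hs ht hst => ?_⟩
  obtain ⟨h2, h3⟩ := h1 N (by omega)
  by_cases he : s = t
  · subst he
    have hev : Even N := hst.resolve_right (not_not.mpr rfl)
    obtain ⟨m, hm⟩ := hev
    have hm2 : N = 2 * m := by omega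
    have h4 := h0 m (by omega) (-1) (Or.inr rfl)
    have h5 := red_same m hs
    rw [← hm2] at h5
    have h6 : ((Ex m (-1) 2).card : ℝ) ≤ 24 * ((pat N s s).card : ℝ) + 4 := by
      exact_mod_cast h5
    have h7 : N / 2 = m := by omega
    rw [h7] at h2
    linarith
  · have h4 := h0 N (by omega) 1 (Or.inl rfl)
    have h5 := red_mixed N
    have h6 : ((range N).filter fun a => 0 < a ∧ lam a ≠ lam (N - a)) ⊆ pat N s t ∪ pat N t s := by
      intro a ha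
      rw [mem_filter, mem_range] at ha
      obtain ⟨ha1, ha2, ha3⟩ := ha
      unfold pat
      rw [mem_union, mem_filter, mem_filter, mem_range]
      rcases lam_val a with e1 | e1 <;> rcases lam_val (N - a) with e2 | e2 <;>
        rcases hs with rfl | rfl <;> rcases ht with rfl | rfl <;>
        simp_all
    have h7 := (Finset.card_le_card h6).trans (Finset.card_union_le _ _)
    have h8 := pat_swap N t s
    have h9 : (Ex N 1 2).card ≤ 4 * (pat N s t).card + 1 := by omega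
    have h10 : ((Ex N 1 2).card : ℝ) ≤ 4 * ((pat N s t).card : ℝ) + 1 := by exact_mod_cast h9
    have h11 : ((N / 2 : ℕ) : ℝ) ^ (1 - ε / 2) ≤ (N : ℝ) ^ (1 - ε / 2) := by
      refine Real.rpow_le_rpow (by positivity) ?_ (by linarith)
      exact_mod_cast (by omega : N / 2 ≤ N)
    linarith

theorem large (hA : Analytic) (ε : ℝ) (hε : 0 < ε) : ∃ N0 : ℕ,
    ∀ N ≥ N0, (∀ s t : ℤ, (s = 1 ∨ s = -1) → (t = 1 ∨ t = -1) → (Even N ∨ s ≠ t) →
      (N : ℝ) ^ (1 - ε) ≤ ((pat N s t).card : ℝ)) := by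
  obtain ⟨N0, h0⟩ := fin_aux hA (min ε 1) (lt_min hε one_pos) (min_le_right _ _)
  refine ⟨N0 + 1, fun N hN s t hs ht hst => le_trans ?_ (h0 N (by omega) s t hs ht hst)⟩
  refine Real.rpow_le_rpow_of_exponent_le (by exact_mod_cast (by omega : 1 ≤ N)) ?_
  have := min_le_left ε 1
  linarith

end Pool.Agent.H11.LQ

end
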