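import Pool.Agent.H94.PG.M04
import Pool.Agent.H94.PG.M11
import Pool.Agent.H94.PG.M13

/-! The parts of this file: H78.PD.L2, H78.PD.BaseN. -/

section

/-!
# PD, L2: characters of smaller period

`gen`: induction on `S`.  `y ≡ y' mod m/(q D)`, `q ∤ D`, `q D ∣ m`: `gcd(m/q, m/D) = m/(q D)`, so there is `z` with `z ≡ y mod m/q`, `z ≡ y' mod m/D` (`Nat.chineseRemainder'`);
`z` is prime to `m`: a prime `p ∣ m` divides `m/q` or (`p = q`) divides `m/D`.

`period`: `M = m/D`.  Every `χ ∈ X` is `changeLevel` of a character `χ'` mod `M` (`DirichletCharacter.FactorsThrough`), `χ(y) = χ'(y)` for `y` prime to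
`m`, the map `χ ↦ χ'` is injective, and `ortho_coef` mod `M` for `g(u) = ∑_{y ∈ cop m Y, y = u mod M} f(y)`.
Then `|g(u)| ≤ #{y ≤ Y : y = u} ≤ Y/M + 1`, `∑_u |g(u)| ≤ Y`, `φ(M) ≤ M`: total `≤ (Y/M + 1) Y M = Y² + Y M`.  `2PY ≤ m`, `1 ≤ P ≤ D`, `M = m/D ≤ m/P`: `≤ m²/(4P²) + m²/(2P²) ≤ m² P^(-2) = (m/φ) φ m P^(-2)`.
-/

set_option autoImplicit false

namespace Pool.Agent.H78.PD

open Finset
open Pool.Agent.H34PG (lam lam_val lam_mul lam_prime)
open Pool.Agent.H11.LQ Pool.Agent.H78.PG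

/-- the product of different primes dividing `m` divides `m` -/
private theorem l2_prod_dvd (m : ℕ) (S : Finset ℕ) (hS : ∀ q ∈ S, q.Prime ∧ q ∣ m) :
    ∏ q ∈ S, q ∣ m := by
  induction S using Finset.induction_on with
  | empty => simp
  | insert q S hq ih =>
    rw [prod_insert hq]
    refine Nat.Coprime.mul_dvd_of_dvd_of_dvd ?_ (hS q (mem_insert_self _ _)).2
      (ih fun p hp => hS p (mem_insert_of_mem hp))
    rw [Nat.coprime_prod_right_iff]
    intro p hp
    exact (Nat.coprime_primes (hS q (mem_insert_self _ _)).1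
      (hS p (mem_insert_of_mem hp)).1).2 (fun h => hq (h ▸ hp))

theorem gen (m : ℕ) [NeZero m] (χ : DirichletCharacter ℂ m) (S : Finset ℕ)
    (hS : ∀ q ∈ S, q.Prime ∧ q ∣ m)
    (h : ∀ q ∈ S, ∀ y y' : ℕ, y.Coprime m → y'.Coprime m → y ≡ y' [MOD m / q] →
      χ (y : ZMod m) = χ (y' : ZMod m)) :
    ∀ y y' : ℕ, y.Coprime m → y'.Coprime m → y ≡ y' [MOD m / ∏ q ∈ S, q] →
      χ (y : ZMod m) = χ (y' : ZMod m) := by
  have hm : 0 < m := Nat.pos_of_ne_zero (NeZero.ne m)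
  induction S using Finset.induction_on with
  | empty =>
    intro y y' _ _ hyy
    rw [prod_empty, Nat.div_one] at hyy
    rw [(ZMod.natCast_eq_natCast_iff y y' m).2 hyy]
  | insert q S hq ih =>
    intro y y' hy hy' hyy
    obtain ⟨hqp, hqm⟩ := hS q (mem_insert_self _ _)
    have hS' : ∀ p ∈ S, p.Prime ∧ p ∣ m := fun p hp => hS p (mem_insert_of_mem hp)
    have ih' := ih hS' (fun p hp => h p (mem_insert_of_mem hp))
    have hD : ∏ p ∈ insert q S, p ∣ m := l2_prod_dvd m _ hS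
    rw [prod_insert hq] at hD hyy
    obtain ⟨D, hDdef⟩ : ∃ D, D = ∏ p ∈ S, p := ⟨_, rfl⟩
    rw [← hDdef] at hD hyy ih'
    have hcop : q.Coprime D := by
      rw [hDdef, Nat.coprime_prod_right_iff]
      intro p hp
      exact (Nat.coprime_primes hqp (hS' p hp).1).2 (fun h => hq (h ▸ hp))
    obtain ⟨k, hk⟩ := hD
    have hq0 : 0 < q := hqp.pos
    have hD0 : 0 < D := by
      rcases Nat.eq_zero_or_pos D with h0 | h0
      · rw [h0] at hk
        simp at hk
        omega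
      · exact h0
    have e1 : m / (q * D) = k := by
      rw [hk]
      exact Nat.mul_div_cancel_left k (Nat.mul_pos hq0 hD0)
    have e2 : m / q = D * k := by
      rw [hk, mul_assoc]
      exact Nat.mul_div_cancel_left _ hq0
    have e3 : m / D = q * k := by
      rw [hk, mul_comm q D, mul_assoc]
      exact Nat.mul_div_cancel_left _ hD0
    have hg : Nat.gcd (m / q) (m / D) = k := by
      rw [e2, e3, Nat.gcd_mul_right, Nat.gcd_comm D q]
      rw [Nat.Coprime] at hcop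
      rw [hcop, one_mul]
    rw [e1, ← hg] at hyy
    obtain ⟨z, hz1, hz2⟩ := Nat.chineseRemainder' hyy
    have hz : z.Coprime m := by
      rw [Nat.coprime_iff_gcd_eq_one]
      by_contra hne
      obtain ⟨p, hp, hpd⟩ := Nat.exists_prime_and_dvd hne
      have hpz : p ∣ z := hpd.trans (Nat.gcd_dvd_left _ _)
      have hpm : p ∣ m := hpd.trans (Nat.gcd_dvd_right _ _)
      by_cases hpq : p ∣ m / q
      · have : p ∣ y := ((hz1.of_dvd hpq).dvd_iff (dvd_refl p)).1 hpz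
        have h1 := Nat.dvd_gcd this hpm
        rw [Nat.Coprime] at hy
        rw [hy] at h1
        exact hp.one_lt.ne' (Nat.dvd_one.1 h1)
      · have hpq' : p ∣ q * (m / q) := by
          rw [Nat.mul_div_cancel' hqm]
          exact hpm
        have hpe : p ∣ q := ((Nat.Prime.dvd_mul hp).1 hpq').resolve_right hpq
        have hpD : p ∣ m / D := by
          rw [e3]
          exact hpe.mul_right k
        have : p ∣ y' := ((hz2.of_dvd hpD).dvd_iff (dvd_refl p)).1 hpz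
        have h1 := Nat.dvd_gcd this hpm
        rw [Nat.Coprime] at hy'
        rw [hy'] at h1
        exact hp.one_lt.ne' (Nat.dvd_one.1 h1)
    rw [← h q (mem_insert_self _ _) z y hz hy hz1]
    exact ih' z y' hz hy' hz2

/-- characters periodic mod `M` come from characters mod `M` -/
private theorem l2_factors (m M : ℕ) [NeZero m] (hM : M ∣ m) (χ : DirichletCharacter ℂ m)
    (h : ∀ y y' : ℕ, y.Coprime m → y'.Coprime m → y ≡ y' [MOD M] →
      χ (y : ZMod m) = χ (y' : ZMod m)) : χ.FactorsThrough M := by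
  rw [DirichletCharacter.factorsThrough_iff_ker_unitsMap hM]
  intro u hu
  rw [MonoidHom.mem_ker] at hu ⊢
  have h1 : ((ZMod.unitsMap hM u : (ZMod M)ˣ) : ZMod M) = 1 := by rw [hu]; rfl
  rw [ZMod.unitsMap_val] at h1
  have hcop : ((u : ZMod m).val).Coprime m := ZMod.val_coe_unit_coprime u
  have h2 : (((u : ZMod m).val : ℕ) : ZMod M) = ((1 : ℕ) : ZMod M) := by
    rw [Nat.cast_one, ← h1, ZMod.cast_eq_val]
  have h3 := h _ 1 hcop (Nat.coprime_one_left m) ((ZMod.natCast_eq_natCast_iff _ _ _).1 h2)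
  rw [ZMod.natCast_zmod_val, Nat.cast_one, map_one] at h3
  ext
  rw [Units.val_one]
  exact h3

/-- the residue in `[1, M]` -/
private def l2r (M y : ℕ) : ℕ := (y - 1) % M + 1

private theorem l2r_modEq (M y : ℕ) (hy : 1 ≤ y) : l2r M y ≡ y [MOD M] := by
  unfold l2r
  have h1 : (y - 1) % M ≡ y - 1 [MOD M] := Nat.mod_modEq _ _
  have h2 := h1.add_right 1
  rwa [Nat.sub_add_cancel hy] at h2

private theorem l2_card (M Y u : ℕ) :
    ((Icc 1 Y).filter (fun y => l2r M y = u)).card ≤ Y / M + 1 := by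
  rw [← card_range (Y / M + 1)]
  refine card_le_card_of_injOn (fun y => (y - 1) / M) ?_ ?_
  · intro y hy
    rw [mem_coe, mem_filter, mem_Icc] at hy
    rw [mem_coe, mem_range]
    have : (y - 1) / M ≤ Y / M := Nat.div_le_div_right (by omega)
    show (y - 1) / M < Y / M + 1
    omega
  · intro y hy y' hy' heq
    rw [mem_coe, mem_filter, mem_Icc] at hy hy'
    have heq' : (y - 1) / M = (y' - 1) / M := heq
    have h1 : (y - 1) % M = (y' - 1) % M := by
      have h3 := hy.2.trans hy'.2.symm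
      unfold l2r at h3
      omega
    have h2 := Nat.div_add_mod (y - 1) M
    have h3 := Nat.div_add_mod (y' - 1) M
    rw [heq', h1] at h2
    omega

theorem period (m D : ℕ) [NeZero m] (hD : D ∣ m) (X : Finset (DirichletCharacter ℂ m))
    (hX : ∀ χ ∈ X, ∀ y y' : ℕ, y.Coprime m → y'.Coprime m → y ≡ y' [MOD m / D] →
      χ (y : ZMod m) = χ (y' : ZMod m)) :
    LSP m X ((m : ℝ) / m.totient) 0 1 D := by
  classical
  intro P hP1 hPD Y hPY f hf
  have hm : 0 < m := Nat.pos_of_ne_zero (NeZero.ne m)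
  obtain ⟨M, hMD⟩ := hD
  have hD0 : 0 < D := by
    rcases Nat.eq_zero_or_pos D with h0 | h0
    · rw [h0] at hMD
      omega
    · exact h0
  have hM0 : 0 < M := by
    rcases Nat.eq_zero_or_pos M with h0 | h0
    · rw [h0] at hMD
      omega
    · exact h0
  have : NeZero M := ⟨hM0.ne'⟩
  have hMm : M ∣ m := ⟨D, by rw [hMD]; ring⟩
  have eM : m / D = M := by
    rw [hMD]
    exact Nat.mul_div_cancel_left M hD0
  rw [eM] at hX
  have hF : ∀ χ ∈ X, χ.FactorsThrough M := fun χ hχ => l2_factors m M hMm χ (hX χ hχ)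
  -- the character mod `M`
  obtain ⟨g, hg⟩ : ∃ g : DirichletCharacter ℂ m → DirichletCharacter ℂ M,
      ∀ χ ∈ X, χ = DirichletCharacter.changeLevel hMm (g χ) := by
    refine ⟨fun χ => if h : χ.FactorsThrough M then h.χ₀ else 1, ?_⟩
    intro χ hχ
    have h1 := (hF χ hχ).eq_changeLevel
    show χ = DirichletCharacter.changeLevel hMm
      (if h : χ.FactorsThrough M then h.χ₀ else 1)
    rw [dif_pos (hF χ hχ)]
    exact h1
  have hginj : Set.InjOn g X := by
    intro χ hχ χ' hχ' heq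
    rw [hg χ hχ, hg χ' hχ', heq]
  have hval : ∀ χ ∈ X, ∀ y : ℕ, y.Coprime m → χ (y : ZMod m) = (g χ) (y : ZMod M) := by
    intro χ hχ y hy
    have h1 := DirichletCharacter.changeLevel_eq_cast_of_dvd (g χ) hMm (ZMod.unitOfCoprime y hy)
    rw [← hg χ hχ, ZMod.coe_unitOfCoprime] at h1
    rw [h1, ZMod.cast_natCast hMm]
  -- the coefficients
  obtain ⟨G, hG⟩ : ∃ G : ℕ → ℂ, G = fun u => ∑ y ∈ (cop m Y).filter (fun y => l2r M y = u), f y :=
    ⟨_, rfl⟩
  have hmaps : ∀ y ∈ cop m Y, l2r M y ∈ cop M M := by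
    intro y hy
    rw [mem_cop] at hy ⊢
    refine ⟨by unfold l2r; omega, ?_, ?_⟩
    · have := Nat.mod_lt (y - 1) hM0
      unfold l2r
      omega
    · have h1 : y.Coprime M := Nat.Coprime.coprime_dvd_right hMm hy.2.2
      have h2 := (l2r_modEq M y hy.1).gcd_eq
      rw [Nat.coprime_iff_gcd_eq_one] at h1 ⊢
      rw [h2]
      exact h1
  have hsum : ∀ χ ∈ X, ∑ y ∈ cop m Y, f y * χ (y : ZMod m)
      = ∑ u ∈ cop M M, G u * (g χ) (u : ZMod M) := by
    intro χ hχ
    rw [← sum_fiberwise_of_maps_to hmaps]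
    refine sum_congr rfl fun u hu => ?_
    rw [hG, sum_mul]
    refine sum_congr rfl fun y hy => ?_
    rw [mem_filter, mem_cop] at hy
    rw [hval χ hχ y hy.1.2.2]
    have h1 : ((l2r M y : ℕ) : ZMod M) = ((y : ℕ) : ZMod M) :=
      (ZMod.natCast_eq_natCast_iff _ _ _).2 (l2r_modEq M y hy.1.1)
    rw [← h1, hy.2]
  have hle : ∑ χ ∈ X, ‖∑ y ∈ cop m Y, f y * χ (y : ZMod m)‖ ^ 2
      ≤ (M.totient : ℝ) * ∑ u ∈ cop M M, ‖G u‖ ^ 2 := by
    rw [← ortho_coef M (cop M M) (fun s hs => by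
      rw [mem_cop] at hs
      exact ⟨hs.2.2, hs.1, hs.2.1⟩) G]
    calc ∑ χ ∈ X, ‖∑ y ∈ cop m Y, f y * χ (y : ZMod m)‖ ^ 2
        = ∑ χ ∈ X, ‖∑ u ∈ cop M M, G u * (g χ) (u : ZMod M)‖ ^ 2 :=
          sum_congr rfl fun χ hχ => by rw [hsum χ hχ]
      _ = ∑ ψ ∈ X.image g, ‖∑ u ∈ cop M M, G u * ψ (u : ZMod M)‖ ^ 2 := by
          rw [sum_image hginj]
      _ ≤ _ := sum_le_univ_sum_of_nonneg fun _ => by positivity
  -- the size of the coefficients
  have hcard : ∀ u, ‖G u‖ ≤ (((cop m Y).filter (fun y => l2r M y = u)).card : ℝ) := by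
    intro u
    rw [hG]
    refine (norm_sum_le _ _).trans ?_
    refine (sum_le_sum (g := fun _ => (1 : ℝ)) fun y _ => hf y).trans ?_
    rw [sum_const, nsmul_eq_mul, mul_one]
  have hcard2 : ∀ u, (((cop m Y).filter (fun y => l2r M y = u)).card : ℝ) ≤ (Y : ℝ) / M + 1 := by
    intro u
    have h1 : ((cop m Y).filter (fun y => l2r M y = u)).card ≤ Y / M + 1 := by
      refine le_trans (card_le_card ?_) (l2_card M Y u)
      intro y hy
      rw [mem_filter, mem_cop] at hy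
      rw [mem_filter, mem_Icc]
      exact ⟨⟨hy.1.1, hy.1.2.1⟩, hy.2⟩
    have h2 : (((cop m Y).filter (fun y => l2r M y = u)).card : ℝ) ≤ ((Y / M + 1 : ℕ) : ℝ) := by
      exact_mod_cast h1
    refine h2.trans ?_
    rw [Nat.cast_add, Nat.cast_one]
    have := @Nat.cast_div_le ℝ _ _ _ Y M
    linarith
  have htot : ∑ u ∈ cop M M, (((cop m Y).filter (fun y => l2r M y = u)).card : ℝ) ≤ Y := by
    have h1 : ∑ u ∈ cop M M, ((cop m Y).filter (fun y => l2r M y = u)).card = (cop m Y).card :=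
      (card_eq_sum_card_fiberwise hmaps).symm
    have h2 : (cop m Y).card ≤ Y := by
      have : (cop m Y).card ≤ (Icc 1 Y).card := card_le_card (filter_subset _ _)
      rwa [Nat.card_Icc, Nat.add_sub_cancel] at this
    rw [← Nat.cast_sum, h1]
    exact_mod_cast h2
  have hMpos : (0 : ℝ) < M := by exact_mod_cast hM0
  have hY0 : (0 : ℝ) ≤ Y := Nat.cast_nonneg _
  have hsq : ∑ u ∈ cop M M, ‖G u‖ ^ 2 ≤ ((Y : ℝ) / M + 1) * Y := by
    calc ∑ u ∈ cop M M, ‖G u‖ ^ 2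
        ≤ ∑ u ∈ cop M M, ((Y : ℝ) / M + 1) *
            (((cop m Y).filter (fun y => l2r M y = u)).card : ℝ) := by
          refine sum_le_sum fun u _ => ?_
          rw [pow_two]
          exact mul_le_mul ((hcard u).trans (hcard2 u)) (hcard u) (norm_nonneg _) (by positivity)
      _ = ((Y : ℝ) / M + 1) *
            ∑ u ∈ cop M M, (((cop m Y).filter (fun y => l2r M y = u)).card : ℝ) := by
          rw [mul_sum]
      _ ≤ _ := mul_le_mul_of_nonneg_left htot (by positivity)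
  have htot' : (M.totient : ℝ) ≤ M := by exact_mod_cast Nat.totient_le M
  have hfin : (M.totient : ℝ) * ∑ u ∈ cop M M, ‖G u‖ ^ 2 ≤ (Y : ℝ) ^ 2 + M * Y := by
    calc (M.totient : ℝ) * ∑ u ∈ cop M M, ‖G u‖ ^ 2
        ≤ M * (((Y : ℝ) / M + 1) * Y) :=
          mul_le_mul htot' hsq (sum_nonneg fun _ _ => by positivity) hMpos.le
      _ = (Y : ℝ) ^ 2 + M * Y := by
          field_simp
  refine (hle.trans hfin).trans ?_
  have hP0 : (0 : ℝ) < P := by linarith
  have hφ : (0 : ℝ) < m.totient := by exact_mod_cast Nat.totient_pos.2 hm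
  have hrpow : P ^ (-2 + 0 : ℝ) = (P ^ 2)⁻¹ := by
    rw [add_zero, Real.rpow_neg hP0.le]
    norm_cast
  rw [hrpow]
  have e1 : (m : ℝ) / m.totient * m.totient * m * (P ^ 2)⁻¹ = (m : ℝ) ^ 2 / P ^ 2 := by
    field_simp
  rw [e1, le_div_iff₀ (by positivity)]
  have hmD : (m : ℝ) = D * M := by rw [hMD]; push_cast; ring
  have hPM : P * M ≤ m := by
    rw [hmD]
    exact mul_le_mul_of_nonneg_right hPD hMpos.le
  have h1 : (P * Y) ^ 2 ≤ (m / 2) ^ 2 := by
    have : P * Y ≤ m / 2 := by linarith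
    exact pow_le_pow_left₀ (by positivity) this 2
  have h2 : (P * M) * (P * Y) ≤ m * (m / 2) := by
    have : P * Y ≤ m / 2 := by linarith
    exact mul_le_mul hPM this (by positivity) (by positivity)
  nlinarith [sq_nonneg (m : ℝ)]

end Pool.Agent.H78.PD

end

section

/-!
# PD, BaseN: the base case when more than half of the primes `≤ Q` divide `m`

`T'` = primes `≤ Q` dividing `m`, `D = ∏ T' ≥ 2^(π(Q)/2) ≥ exp(Q^(3/4))` (Chebyshev `π(Q) ≥ Q/(4 log Q)`), `D ∣ m`.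
For `q ∈ T'` and a unit `u ≡ 1 mod m/q`: `q u x = q x` in `ZMod m`, so for `x.val ∉ Ex(q)` and `(u x).val ∉ Ex(q)`: `- F(x) = F(q x) = F(q u x) = - F(u x)` (`lam q = -1`).
So `∑_χ w |χ(u) - 1|² = (1/φ) ∑_x |F(u x) - F(x)|² ≤ 8 #Ex(q)/φ` (`parseval` for `x ↦ F(u x) - F(x)`, as in `twist`, `PG/TFour.lean`).
Average over the group `G_q` of these `u`: for `χ` not trivial on `G_q`, `∑_{u ∈ G_q} |χ(u) - 1|² = 2 #G_q` (`∑_{u ∈ G_q} χ(u) = 0`).  So the weight of these `χ` is `≤ 4 #Ex(q)/φ ≤ 4 κ/Q`.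
`X` = the `χ` trivial on all `G_q`, `q ∈ T'`: `wout X ≤ ∑_{q ∈ T'} 4 κ/Q ≤ 4 κ` (`#T' ≤ Q`).  `χ` trivial on `G_q` means `χ(y) = χ(y')` for `y ≡ y' mod m/q`, both prime to `m`
(`u = y' y⁻¹`).  `gen` with `S = T'` and `period` give the LSP for `1 ≤ P ≤ D`, and `exp(Q^(3/4)) ≤ D`.
-/

set_option autoImplicit false

namespace Pool.Agent.H78.PD

open Finset
open Pool.Agent.H34PG (lam lam_val lam_mul lam_prime)
open Pool.Agent.H11.LQ Pool.Agent.H78.PG

private theorem basen_norm (z : ℂ) (h : ‖z‖ = 1) : ‖z - 1‖ ^ 2 = 2 - 2 * z.re := by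
  have h1 : ‖z‖ ^ 2 = 1 := by rw [h]; norm_num
  rw [Complex.sq_norm, Complex.normSq_apply] at h1 ⊢
  simp only [Complex.sub_re, Complex.sub_im, Complex.one_re, Complex.one_im, sub_zero]
  linarith [h1, show (z.re - 1) * (z.re - 1) + z.im * z.im =
    (z.re * z.re + z.im * z.im) + 1 - 2 * z.re by ring]

private theorem basen_val {m : ℕ} [NeZero m] (hm : 2 ≤ m) (u : (ZMod m)ˣ) :
    ¬ m ∣ (u : ZMod m).val := by
  intro h
  have h1 : (u : ZMod m).val < m := ZMod.val_lt _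
  have h2 : (u : ZMod m).val = 0 := Nat.eq_zero_of_dvd_of_lt h h1
  have h3 : (u : ZMod m) = 0 := (ZMod.val_eq_zero _).mp h2
  have : Fact (1 < m) := ⟨by omega⟩
  exact u.ne_zero h3

/-- the twist by `u` -/
private theorem basen_twist (m : ℕ) [NeZero m] (f : ZMod m → ℂ) (a' : (ZMod m)ˣ) :
    ∑ χ : DirichletCharacter ℂ m, ‖cc m f χ‖ ^ 2 * ‖χ (a' : ZMod m) - 1‖ ^ 2
      = (1 / (m.totient : ℝ)) * ∑ u : (ZMod m)ˣ, ‖f ((a' : ZMod m) * u) - f (u : ZMod m)‖ ^ 2 := by
  have h1 : ∀ χ : DirichletCharacter ℂ m,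
      cc m (fun x => f ((a' : ZMod m) * x) - f x) χ = cc m f χ * (χ (a' : ZMod m) - 1) := by
    intro χ
    unfold cc
    have h2 : ∑ u : (ZMod m)ˣ, f ((a' : ZMod m) * u) * (starRingEnd ℂ) (χ (u : ZMod m))
        = χ (a' : ZMod m) * ∑ u : (ZMod m)ˣ, f (u : ZMod m) * (starRingEnd ℂ) (χ (u : ZMod m)) := by
      rw [Finset.mul_sum]
      rw [← Equiv.sum_comp (Equiv.mulLeft a')
        (fun u : (ZMod m)ˣ => χ (a' : ZMod m) * (f (u : ZMod m) * (starRingEnd ℂ) (χ (u : ZMod m))))]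
      refine Finset.sum_congr rfl (fun u _ => ?_)
      simp only [Equiv.coe_mulLeft, Units.val_mul, map_mul]
      have h3 : χ (a' : ZMod m) * (starRingEnd ℂ) (χ (a' : ZMod m)) = 1 := by
        have h1 : ‖χ (a' : ZMod m)‖ = 1 := DirichletCharacter.unit_norm_eq_one χ a'
        rw [Complex.mul_conj, Complex.normSq_eq_norm_sq, h1]
        norm_num
      calc f ((a' : ZMod m) * u) * (starRingEnd ℂ) (χ (u : ZMod m))
          = (χ (a' : ZMod m) * (starRingEnd ℂ) (χ (a' : ZMod m))) *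
            (f ((a' : ZMod m) * u) * (starRingEnd ℂ) (χ (u : ZMod m))) := by rw [h3, one_mul]
        _ = _ := by ring
    simp only [sub_mul, Finset.sum_sub_distrib, h2]
    ring
  have h3 := parseval m (fun x => f ((a' : ZMod m) * x) - f x)
  rw [← h3]
  refine Finset.sum_congr rfl (fun χ _ => ?_)
  rw [h1, norm_mul]
  ring

private theorem basen_count {m : ℕ} [NeZero m] (E : Finset ℕ) (g : (ZMod m)ˣ → (ZMod m)ˣ)
    (hg : Function.Injective g) :
    (((univ : Finset (ZMod m)ˣ).filter (fun u => ((g u : (ZMod m)ˣ) : ZMod m).val ∈ E)).card : ℝ)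
      ≤ (E.card : ℝ) := by
  rw [Nat.cast_le]
  refine card_le_card_of_injOn (fun u : (ZMod m)ˣ => ((g u : (ZMod m)ˣ) : ZMod m).val) ?_ ?_
  · intro u hu
    rw [mem_coe, mem_filter] at hu
    exact hu.2
  · intro u _ v _ huv
    exact hg (Units.ext (ZMod.val_injective m huv))

private theorem basen_bound {m : ℕ} [NeZero m] (hm : 2 ≤ m) {η : ℤ} (hη : η = 1 ∨ η = -1) {q : ℕ}
    (hq : q.Prime) (a : (ZMod m)ˣ) (ha : (q : ZMod m) * (a : ZMod m) = (q : ZMod m)) :
    ∑ u : (ZMod m)ˣ, ‖FC m η ((a : ZMod m) * u) - FC m η (u : ZMod m)‖ ^ 2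
      ≤ 8 * ((ExU m η q).card : ℝ) := by
  classical
  have h1 : ∀ u : (ZMod m)ˣ, ‖FC m η ((a : ZMod m) * u) - FC m η (u : ZMod m)‖ ^ 2
      ≤ (if (u : ZMod m).val ∈ ExU m η q then (4 : ℝ) else 0) +
        (if ((a * u : (ZMod m)ˣ) : ZMod m).val ∈ ExU m η q then (4 : ℝ) else 0) := by
    intro u
    have e1 : FC m η ((a : ZMod m) * u) = ((F m η ((a * u : (ZMod m)ˣ) : ZMod m).val : ℤ) : ℂ) := rfl
    have e2 : FC m η (u : ZMod m) = ((F m η (u : ZMod m).val : ℤ) : ℂ) := rfl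
    have n1 : ‖((F m η ((a * u : (ZMod m)ˣ) : ZMod m).val : ℤ) : ℂ)‖ = 1 := by
      rcases F_val (m := m) hη (basen_val hm (a * u)) with h | h <;> rw [h] <;> simp
    have n2 : ‖((F m η (u : ZMod m).val : ℤ) : ℂ)‖ = 1 := by
      rcases F_val (m := m) hη (basen_val hm u) with h | h <;> rw [h] <;> simp
    have n3 : ‖FC m η ((a : ZMod m) * u) - FC m η (u : ZMod m)‖ ^ 2 ≤ 4 := by
      rw [e1, e2]
      have h5 := norm_sub_le ((F m η ((a * u : (ZMod m)ˣ) : ZMod m).val : ℤ) : ℂ)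
        ((F m η (u : ZMod m).val : ℤ) : ℂ)
      rw [n1, n2] at h5
      nlinarith [norm_nonneg (((F m η ((a * u : (ZMod m)ˣ) : ZMod m).val : ℤ) : ℂ) -
        ((F m η (u : ZMod m).val : ℤ) : ℂ))]
    by_cases c1 : (u : ZMod m).val ∈ ExU m η q
    · rw [if_pos c1]
      have : (0 : ℝ) ≤ if ((a * u : (ZMod m)ˣ) : ZMod m).val ∈ ExU m η q then (4 : ℝ) else 0 := by
        split_ifs <;> norm_num
      linarith
    · by_cases c2 : ((a * u : (ZMod m)ˣ) : ZMod m).val ∈ ExU m η q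
      · rw [if_neg c1, if_pos c2]
        linarith
      · rw [if_neg c1, if_neg c2]
        rw [val_mem_ExU, mem_Ex, not_and, not_not] at c1 c2
        have d1 := c1 (ZMod.val_lt _)
        have d2 := c2 (ZMod.val_lt _)
        have d3 : F m η (q * ((a * u : (ZMod m)ˣ) : ZMod m).val) =
            F m η (q * (u : ZMod m).val) := by
          apply F_congr
          have h6 : ((q * ((a * u : (ZMod m)ˣ) : ZMod m).val : ℕ) : ZMod m) =
              ((q * (u : ZMod m).val : ℕ) : ZMod m) := by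
            rw [Nat.cast_mul, Nat.cast_mul, ZMod.natCast_zmod_val, ZMod.natCast_zmod_val,
              Units.val_mul, ← mul_assoc, ha]
          exact (ZMod.natCast_eq_natCast_iff' _ _ _).1 h6
        rw [d1, d2, lam_prime hq] at d3
        have d4 : F m η ((a * u : (ZMod m)ˣ) : ZMod m).val = F m η (u : ZMod m).val := by
          linarith
        rw [e1, e2, d4]
        simp
  refine (sum_le_sum fun u _ => h1 u).trans ?_
  rw [sum_add_distrib, ← sum_filter, ← sum_filter, sum_const, sum_const, nsmul_eq_mul,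
    nsmul_eq_mul]
  have g1 := basen_count (m := m) (ExU m η q) (fun u => u) Function.injective_id
  have g2 := basen_count (m := m) (ExU m η q) (fun u => a * u) (mul_right_injective a)
  linarith

/-- the sum over the group of the units `= 1` mod `m/q` -/
private theorem basen_group (m : ℕ) [NeZero m] (χ : DirichletCharacter ℂ m)
    (H : Subgroup (ZMod m)ˣ) [Fintype H] (hχ : ∃ u ∈ H, χ ((u : (ZMod m)ˣ) : ZMod m) ≠ 1) :
    ∑ u : H, ‖χ (((u : (ZMod m)ˣ) : (ZMod m)ˣ) : ZMod m) - 1‖ ^ 2 = 2 * (Fintype.card H : ℝ) := by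
  have h1 : ∀ u : H, ‖χ (((u : (ZMod m)ˣ) : (ZMod m)ˣ) : ZMod m) - 1‖ ^ 2
      = 2 - 2 * (χ (((u : (ZMod m)ˣ) : (ZMod m)ˣ) : ZMod m)).re := fun u =>
    basen_norm _ (DirichletCharacter.unit_norm_eq_one χ _)
  let f : H →* ℂ := (χ.toMonoidHom.comp (Units.coeHom (ZMod m))).comp H.subtype
  have hf : f ≠ 1 := by
    intro h
    obtain ⟨u, hu, hu1⟩ := hχ
    apply hu1
    have := congrArg (fun g : H →* ℂ => g ⟨u, hu⟩) h
    simpa [f] using this
  have h2 := sum_hom_units_eq_zero f hf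
  have h3 : ∑ u : H, (χ (((u : (ZMod m)ˣ) : (ZMod m)ˣ) : ZMod m)).re = 0 := by
    rw [← Complex.re_sum]
    have : ∑ u : H, χ (((u : (ZMod m)ˣ) : (ZMod m)ˣ) : ZMod m) = 0 := h2
    rw [this, Complex.zero_re]
  rw [sum_congr rfl fun u _ => h1 u, sum_sub_distrib, ← mul_sum, h3]
  simp [mul_comm]

private theorem basen_pi (B : ℕ) (hB : 16 ≤ B) :
    (B : ℝ) / 2 ≤ (((Icc 1 B).filter Nat.Prime).card : ℝ) * Real.log B := by
  have h0 : Nat.primeCounting B = ((Icc 1 B).filter Nat.Prime).card := by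
    rw [Nat.primeCounting, Nat.primeCounting', Nat.count_eq_card_filter_range]
    congr 1
    ext p
    rw [mem_filter, mem_filter, mem_range, mem_Icc]
    constructor
    · rintro ⟨h1, h2⟩
      exact ⟨⟨h2.one_lt.le, by omega⟩, h2⟩
    · rintro ⟨⟨h1, h3⟩, h2⟩
      exact ⟨by omega, h2⟩
  rw [← h0]
  have h1 := Chebyshev.psi_ge B
  have h2 := Chebyshev.psi_le_primeCounting_mul_log B
  have hB' : (16 : ℝ) ≤ B := by exact_mod_cast hB
  have h3 : Real.log ((B : ℝ) + 1) ≤ ((B : ℝ) + 1) / 16 - 1 + 4 * Real.log 2 := by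
    have h4 : (B : ℝ) + 1 = ((B : ℝ) + 1) / 16 * 2 ^ 4 := by ring
    have h5 : Real.log ((B : ℝ) + 1) = Real.log (((B : ℝ) + 1) / 16) + 4 * Real.log 2 := by
      conv_lhs => rw [h4]
      rw [Real.log_mul (by positivity) (by positivity), Real.log_pow]
      norm_num
    rw [h5]
    have := Real.log_le_sub_one_of_pos (show (0 : ℝ) < ((B : ℝ) + 1) / 16 by positivity)
    linarith
  have h6 := Real.log_two_gt_d9
  have h7 := Real.log_two_lt_d9
  nlinarith

private theorem basen_num : ∃ Q0 : ℕ, ∀ Q : ℕ, Q0 ≤ Q → 16 ≤ Q ∧ 1 ≤ Real.log Q ∧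
    8 * Real.log Q * (Q : ℝ) ^ (3 / 4 : ℝ) ≤ Q := by
  have h1 := (isLittleO_log_rpow_atTop (show (0 : ℝ) < 1 / 4 by positivity)).bound
    (show (0 : ℝ) < 1 / 8 by norm_num)
  have h2 := tendsto_natCast_atTop_atTop (R := ℝ) |>.eventually h1
  rw [Filter.eventually_atTop] at h2
  obtain ⟨Q1, hQ1⟩ := h2
  refine ⟨max Q1 16, fun Q hQ => ?_⟩
  have hQ16 : 16 ≤ Q := (le_max_right _ _).trans hQ
  have hQR : (16 : ℝ) ≤ Q := by exact_mod_cast hQ16
  have hL : 1 ≤ Real.log Q := by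
    rw [Real.le_log_iff_exp_le (by linarith)]
    linarith [Real.exp_one_lt_d9]
  refine ⟨hQ16, hL, ?_⟩
  have h3 := hQ1 Q ((le_max_left _ _).trans hQ)
  rw [Real.norm_of_nonneg (by linarith), Real.norm_of_nonneg (by positivity)] at h3
  have h6 : (Q : ℝ) = (Q : ℝ) ^ (1 / 4 : ℝ) * (Q : ℝ) ^ (3 / 4 : ℝ) := by
    rw [← Real.rpow_add (by linarith)]
    norm_num
  have h5 : (0 : ℝ) ≤ (Q : ℝ) ^ (3 / 4 : ℝ) := by positivity
  calc 8 * Real.log Q * (Q : ℝ) ^ (3 / 4 : ℝ)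
      ≤ (Q : ℝ) ^ (1 / 4 : ℝ) * (Q : ℝ) ^ (3 / 4 : ℝ) :=
        mul_le_mul_of_nonneg_right (by linarith) h5
    _ = Q := h6.symm

private theorem basen_prod (T : Finset ℕ) (hT : ∀ q ∈ T, 2 ≤ q) : 2 ^ T.card ≤ ∏ q ∈ T, q := by
  rw [← prod_const]
  exact prod_le_prod' hT

/-- the characters not of period `m/q` -/
theorem base_n_q (m : ℕ) [NeZero m] (hm : 3 ≤ m) (η : ℤ) (hη : η = 1 ∨ η = -1) (q : ℕ)
    (hq : q.Prime) (hqm : q ∣ m) (Z : Finset (DirichletCharacter ℂ m))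
    (hZ : ∀ χ ∈ Z, ∃ y y' : ℕ, y.Coprime m ∧ y'.Coprime m ∧ y ≡ y' [MOD m / q] ∧
      χ (y : ZMod m) ≠ χ (y' : ZMod m)) :
    ∑ χ ∈ Z, ww m η χ ≤ 4 * ((ExU m η q).card : ℝ) / m.totient := by
  classical
  have hd : m / q ∣ m := Nat.div_dvd_of_dvd hqm
  set H : Subgroup (ZMod m)ˣ := (ZMod.unitsMap hd).ker with hH
  have : Fintype H := Fintype.ofFinite _
  have hcard : (0 : ℝ) < (Fintype.card H : ℝ) := by exact_mod_cast Fintype.card_pos
  have hφ : (0 : ℝ) < m.totient := by exact_mod_cast Nat.totient_pos.2 (NeZero.pos m)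
  have hmem : ∀ u : (ZMod m)ˣ, u ∈ H ↔
      ZMod.castHom hd (ZMod (m / q)) (u : ZMod m) = 1 := by
    intro u
    rw [hH, MonoidHom.mem_ker, Units.ext_iff]
    rfl
  -- the elements of the group fix q
  have hfix : ∀ u ∈ H, (q : ZMod m) * (u : ZMod m) = (q : ZMod m) := by
    intro u hu
    rw [hmem] at hu
    have h1 : ((u : ZMod m).val : ZMod (m / q)) = ((1 : ℕ) : ZMod (m / q)) := by
      rw [Nat.cast_one, ← hu, ← map_natCast (ZMod.castHom hd (ZMod (m / q))),
        ZMod.natCast_zmod_val]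
    rw [ZMod.natCast_eq_natCast_iff] at h1
    have h2 := Nat.ModEq.mul_left' q h1
    rw [Nat.mul_div_cancel' hqm] at h2
    have h3 := (ZMod.natCast_eq_natCast_iff _ _ _).2 h2
    rw [Nat.cast_mul, ZMod.natCast_zmod_val] at h3
    simpa using h3
  -- the characters of Z are not trivial on the group
  have hnt : ∀ χ ∈ Z, ∃ u ∈ H, χ ((u : (ZMod m)ˣ) : ZMod m) ≠ 1 := by
    intro χ hχ
    obtain ⟨y, y', hy, hy', hyy, hne⟩ := hZ χ hχ
    refine ⟨ZMod.unitOfCoprime y' hy' * (ZMod.unitOfCoprime y hy)⁻¹, ?_, ?_⟩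
    · rw [hH, MonoidHom.mem_ker, map_mul, map_inv, mul_inv_eq_one, Units.ext_iff]
      change ZMod.castHom hd (ZMod (m / q)) (ZMod.unitOfCoprime y' hy' : ZMod m) =
        ZMod.castHom hd (ZMod (m / q)) (ZMod.unitOfCoprime y hy : ZMod m)
      rw [ZMod.coe_unitOfCoprime, ZMod.coe_unitOfCoprime, map_natCast, map_natCast]
      exact (ZMod.natCast_eq_natCast_iff _ _ _).2 hyy.symm
    · intro h
      apply hne
      have h1 : χ ((y' : ℕ) : ZMod m) = χ (((ZMod.unitOfCoprime y' hy' *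
          (ZMod.unitOfCoprime y hy)⁻¹ : (ZMod m)ˣ) : ZMod m) * (y : ZMod m)) := by
        congr 1
        rw [Units.val_mul, mul_assoc, ← ZMod.coe_unitOfCoprime y hy, ← Units.val_mul,
          inv_mul_cancel, Units.val_one, mul_one, ZMod.coe_unitOfCoprime]
      rw [h1, map_mul, h, one_mul]
  have h1 : (∑ χ ∈ Z, ww m η χ) * (2 * (Fintype.card H : ℝ)) ≤
      (Fintype.card H : ℝ) * (8 * ((ExU m η q).card : ℝ) / m.totient) := by
    calc (∑ χ ∈ Z, ww m η χ) * (2 * (Fintype.card H : ℝ))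
        = ∑ χ ∈ Z, ww m η χ * ∑ u : H,
            ‖χ (((u : (ZMod m)ˣ) : (ZMod m)ˣ) : ZMod m) - 1‖ ^ 2 := by
          rw [sum_mul]
          exact sum_congr rfl fun χ hχ => by rw [basen_group m χ H (hnt χ hχ)]
      _ ≤ ∑ χ : DirichletCharacter ℂ m, ww m η χ * ∑ u : H,
            ‖χ (((u : (ZMod m)ˣ) : (ZMod m)ˣ) : ZMod m) - 1‖ ^ 2 :=
          sum_le_sum_of_subset_of_nonneg (subset_univ _) fun χ _ _ =>
            mul_nonneg (ww_nonneg m η χ) (sum_nonneg fun _ _ => by positivity)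
      _ = ∑ u : H, ∑ χ : DirichletCharacter ℂ m,
            ww m η χ * ‖χ (((u : (ZMod m)ˣ) : (ZMod m)ˣ) : ZMod m) - 1‖ ^ 2 := by
          rw [sum_comm]
          exact sum_congr rfl fun χ _ => by rw [mul_sum]
      _ ≤ ∑ u : H, 8 * ((ExU m η q).card : ℝ) / m.totient := by
          refine sum_le_sum fun u _ => ?_
          have h2 := basen_twist m (FC m η) (u : (ZMod m)ˣ)
          have h3 := basen_bound (m := m) (by omega) hη hq (u : (ZMod m)ˣ) (hfix u u.2)
          unfold ww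
          rw [h2, one_div, inv_mul_eq_div]
          exact div_le_div_of_nonneg_right h3 hφ.le
      _ = (Fintype.card H : ℝ) * (8 * ((ExU m η q).card : ℝ) / m.totient) := by
          rw [sum_const, nsmul_eq_mul, card_univ]
  have h2 : (∑ χ ∈ Z, ww m η χ) * (2 * (Fintype.card H : ℝ)) ≤
      (4 * ((ExU m η q).card : ℝ) / m.totient) * (2 * (Fintype.card H : ℝ)) := by
    refine h1.trans (le_of_eq ?_)
    ring
  exact le_of_mul_le_mul_right h2 (by positivity)

theorem base_n : ∃ Q0 : ℕ, ∀ Q : ℕ, Q0 ≤ Q →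
    ∀ (m : ℕ) [NeZero m], 3 ≤ m → ∀ η : ℤ, (η = 1 ∨ η = -1) → ∀ κ : ℝ,
    (∀ q : ℕ, q.Prime → q ≤ Q → (Q : ℝ) * ((ExU m η q).card : ℝ) ≤ κ * m.totient) →
    2 * ((Icc 1 Q).filter (fun q => q.Prime ∧ ¬ q ∣ m)).card ≤ ((Icc 1 Q).filter Nat.Prime).card →
    ∃ X : Finset (DirichletCharacter ℂ m), wout m η X ≤ 4 * κ ∧
      LSP m X ((m : ℝ) / m.totient) 0 1 (Real.exp ((Q : ℝ) ^ (3 / 4 : ℝ))) := by
  obtain ⟨Q0, hQ0⟩ := basen_num
  refine ⟨Q0, fun Q hQ m _ hm η hη κ hEx hcard => ?_⟩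
  obtain ⟨hQ16, hL, hnum⟩ := hQ0 Q hQ
  have hQR : (16 : ℝ) ≤ Q := by exact_mod_cast hQ16
  classical
  set T := (Icc 1 Q).filter (fun q => q.Prime ∧ q ∣ m) with hTdef
  have hT : ∀ q ∈ T, q.Prime ∧ q ∣ m := fun q hq => (mem_filter.1 hq).2
  have hTQ : ∀ q ∈ T, 1 ≤ q ∧ q ≤ Q := fun q hq => mem_Icc.1 (mem_filter.1 hq).1
  have hφ : (0 : ℝ) < m.totient := by
    exact_mod_cast Nat.totient_pos.2 (NeZero.pos m)
  have hTc : T.card ≤ Q := by
    have := card_le_card (filter_subset (fun q => q.Prime ∧ q ∣ m) (Icc 1 Q))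
    rwa [Nat.card_Icc, Nat.add_sub_cancel] at this
  have hsplit : ((Icc 1 Q).filter Nat.Prime).card ≤ T.card +
      ((Icc 1 Q).filter (fun q => q.Prime ∧ ¬ q ∣ m)).card := by
    refine le_trans (card_le_card ?_) (card_union_le _ _)
    intro q hq
    rw [mem_filter] at hq
    rw [mem_union, hTdef, mem_filter, mem_filter]
    by_cases hqm : q ∣ m
    · exact Or.inl ⟨hq.1, hq.2, hqm⟩
    · exact Or.inr ⟨hq.1, hq.2, hqm⟩
  have hTcard : (Q : ℝ) / (4 * Real.log Q) ≤ (T.card : ℝ) := by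
    have h1 := basen_pi Q hQ16
    have h2 : ((((Icc 1 Q).filter Nat.Prime).card : ℕ) : ℝ) ≤ 2 * (T.card : ℝ) := by
      have : ((Icc 1 Q).filter Nat.Prime).card ≤ 2 * T.card := by omega
      exact_mod_cast this
    rw [div_le_iff₀ (by linarith)]
    nlinarith
  set Z : ℕ → Finset (DirichletCharacter ℂ m) := fun q => univ.filter (fun χ =>
    ∃ y y' : ℕ, y.Coprime m ∧ y'.Coprime m ∧ y ≡ y' [MOD m / q] ∧
      χ (y : ZMod m) ≠ χ (y' : ZMod m)) with hZ
  set X : Finset (DirichletCharacter ℂ m) := univ.filter (fun χ => ∀ q ∈ T, χ ∉ Z q) with hX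
  have hXmem : ∀ χ ∈ X, ∀ q ∈ T, ∀ y y' : ℕ, y.Coprime m → y'.Coprime m →
      y ≡ y' [MOD m / q] → χ (y : ZMod m) = χ (y' : ZMod m) := by
    intro χ hχ q hq y y' hy hy' hyy
    by_contra hne
    rw [hX, mem_filter] at hχ
    refine hχ.2 q hq ?_
    rw [hZ, mem_filter]
    exact ⟨mem_univ _, y, y', hy, hy', hyy, hne⟩
  refine ⟨X, ?_, ?_⟩
  · have h1 : wout m η X ≤ ∑ q ∈ T, ∑ χ ∈ Z q, ww m η χ := by
      unfold wout
      calc ∑ χ ∈ univ.filter (fun χ => χ ∉ X), ww m η χ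
          ≤ ∑ χ ∈ univ.filter (fun χ => χ ∉ X), ∑ q ∈ T, (if χ ∈ Z q then ww m η χ else 0) := by
            refine sum_le_sum fun χ hχ => ?_
            rw [mem_filter, hX, mem_filter] at hχ
            have h2 : ¬ ∀ q ∈ T, χ ∉ Z q := fun h => hχ.2 ⟨mem_univ _, h⟩
            push Not at h2
            obtain ⟨q, hq, hχq⟩ := h2
            have h3 := single_le_sum (f := fun q => if χ ∈ Z q then ww m η χ else 0)
              (fun q _ => by
                split_ifs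
                · exact ww_nonneg m η χ
                · exact le_rfl) hq
            rwa [if_pos hχq] at h3
        _ ≤ ∑ χ : DirichletCharacter ℂ m, ∑ q ∈ T, (if χ ∈ Z q then ww m η χ else 0) := by
            refine sum_le_sum_of_subset_of_nonneg (subset_univ _) fun χ _ _ =>
              sum_nonneg fun q _ => ?_
            split_ifs
            · exact ww_nonneg m η χ
            · exact le_rfl
        _ = ∑ q ∈ T, ∑ χ ∈ Z q, ww m η χ := by
            rw [sum_comm]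
            refine sum_congr rfl fun q _ => ?_
            rw [← sum_filter]
            congr 1
            ext χ
            simp
    have h2 : ∀ q ∈ T, ∑ χ ∈ Z q, ww m η χ ≤ 4 * κ / Q := by
      intro q hq
      have h3 := base_n_q m hm η hη q (hT q hq).1 (hT q hq).2 (Z q) (fun χ hχ => by
        rw [hZ, mem_filter] at hχ
        exact hχ.2)
      refine h3.trans ?_
      have h4 := hEx q (hT q hq).1 (hTQ q hq).2
      rw [div_le_div_iff₀ hφ (by linarith)]
      linarith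
    have hκ : 0 ≤ κ := by
      have h4 := hEx 2 Nat.prime_two (by omega)
      have h5 : 0 ≤ κ * m.totient := le_trans (by positivity) h4
      exact nonneg_of_mul_nonneg_left h5 hφ
    calc wout m η X ≤ ∑ q ∈ T, ∑ χ ∈ Z q, ww m η χ := h1
      _ ≤ ∑ q ∈ T, 4 * κ / Q := sum_le_sum h2
      _ = (T.card : ℝ) * (4 * κ / Q) := by rw [sum_const, nsmul_eq_mul]
      _ ≤ Q * (4 * κ / Q) := by
          refine mul_le_mul_of_nonneg_right (by exact_mod_cast hTc) (by positivity)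
      _ = 4 * κ := by
          field_simp
  · have hD : (∏ q ∈ T, q) ∣ m :=
      prod_primes_dvd m (fun q hq => (hT q hq).1.prime) (fun q hq => (hT q hq).2)
    have h1 := period m (∏ q ∈ T, q) hD X (fun χ hχ => gen m χ T hT (hXmem χ hχ))
    intro P hP1 hP2
    refine h1 P hP1 (hP2.trans ?_)
    have h2 := basen_prod T (fun q hq => (hT q hq).1.two_le)
    have h3 : (2 : ℝ) ^ T.card ≤ ((∏ q ∈ T, q : ℕ) : ℝ) := by exact_mod_cast h2
    refine le_trans ?_ h3
    rw [← Real.exp_log (show (0 : ℝ) < 2 by norm_num), ← Real.exp_nat_mul, Real.exp_le_exp]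
    have h4 := Real.log_two_gt_d9
    have h5 : (Q : ℝ) ^ (3 / 4 : ℝ) ≤ (Q : ℝ) / (8 * Real.log Q) := by
      rw [le_div_iff₀ (by linarith)]
      linarith
    have h6 : (Q : ℝ) / (8 * Real.log Q) = (Q : ℝ) / (4 * Real.log Q) * (1 / 2) := by
      field_simp
      norm_num
    have h7 : (0 : ℝ) ≤ (Q : ℝ) / (4 * Real.log Q) := by positivity
    nlinarith

end Pool.Agent.H78.PD

end
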