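import Pool.Agent.H94.PG.H36.IS.MtA_1
import Pool.Agent.H94.PG.M09
import Pool.Agent.H94.PG.M24

/-! The parts of this file: H36.IS.Mt, H78.PD.BNum_1, H78.PD.Ener, H78.PD.Wlo_1. -/

section

/-!
# IS Mt: Mertens' third theorem

From MtA (limit c), MtB (abel_exp with a n = [n prime] -log(1-1/n)) and MtC: c - γ = 0.  Hence fS n - loglog n → γ, and exponentiating,
log n · ∏_{p≤n}(1-1/p) → e^{-γ}.
`V1_sharp`: V1 x δ = ∏_{p ≤ ⌊x^δ⌋}(1-1/p)/A0 x for large x, log(x^δ) = δ log x, tau = A0 log x (log⌊z⌋ ≤ log z helps: the product over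
p ≤ ⌊z⌋ is ≥ (e^{-γ} - ε)/log⌊z⌋ ≥ (e^{-γ}-ε)/log z).
`gam_num`: γ < H_256 - log 256 (`Real.eulerMascheroniConstant_lt_eulerMascheroniSeq'`), = 0.57917 < 0.57925, exp(-0.57925) ≥ 0.5603.
(harmonic number: `decide`/norm_num with rational sums; log 256 = 8 log 2.)
-/

set_option autoImplicit false

namespace Pool.Agent.H36.IS

open Finset Filter

private theorem Mt_factor_pos {p : ℕ} (hp : p.Prime) : 0 < 1 - 1 / (p : ℝ) := by
  have h2 : (2 : ℝ) ≤ (p : ℝ) := by exact_mod_cast hp.two_le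
  have : 1 / (p : ℝ) ≤ 1 / 2 := one_div_le_one_div_of_le (by norm_num) h2
  linarith

private theorem Mt_factor_le {p : ℕ} (hp : p.Prime) : 1 - 1 / (p : ℝ) ≤ 1 := by
  have h2 : (0 : ℝ) < (p : ℝ) := by exact_mod_cast hp.pos
  have : 0 < 1 / (p : ℝ) := by positivity
  linarith

private theorem Mt_fS (n : ℕ) :
    ∑ k ∈ range (n + 1), (if k.Prime then -Real.log (1 - 1 / (k : ℝ)) else 0) = fS n := by
  rw [fS, Finset.sum_filter]

private theorem Mt_lim : Tendsto (fun n : ℕ => fS n - Real.log (Real.log n)) atTop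
    (nhds Real.eulerMascheroniConstant) := by
  obtain ⟨c, hc⟩ := mertA
  have h := abel_exp (fun n : ℕ => if n.Prime then -Real.log (1 - 1 / (n : ℝ)) else 0) ?_ ?_ ?_ c ?_
  · have h2 := tendsto_nhds_unique h.2 euler_near_one
    have : c = Real.eulerMascheroniConstant := by linarith
    rw [← this]
    exact hc
  · intro n
    by_cases hn : n.Prime
    · simp only [if_pos hn]
      have := Real.log_nonpos (Mt_factor_pos hn).le (Mt_factor_le hn)
      linarith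
    · simp only [if_neg hn]
      exact le_rfl
  · simp
  · simp [Nat.not_prime_one]
  · refine hc.congr (fun n => ?_)
    rw [Mt_fS]

private theorem Mt_prod (n : ℕ) :
    ∏ p ∈ (range (n + 1)).filter Nat.Prime, (1 - 1 / (p : ℝ)) = Real.exp (-fS n) := by
  rw [fS, ← Finset.sum_neg_distrib, Real.exp_sum]
  refine Finset.prod_congr rfl (fun p hp => ?_)
  rw [Finset.mem_filter] at hp
  rw [neg_neg, Real.exp_log (Mt_factor_pos hp.2)]

theorem mertens3 : Tendsto (fun n : ℕ => Real.log n * ∏ p ∈ (range (n + 1)).filter Nat.Prime, (1 - 1 / (p : ℝ)))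
    atTop (nhds (Real.exp (-Real.eulerMascheroniConstant))) := by
  have h := (Real.continuous_exp.tendsto _).comp Mt_lim.neg
  refine h.congr' ?_
  filter_upwards [eventually_ge_atTop 2] with n hn
  have hn' : (1 : ℝ) < (n : ℝ) := by exact_mod_cast hn
  have hlog : 0 < Real.log n := Real.log_pos hn'
  simp only [Function.comp]
  rw [Mt_prod, neg_sub, sub_eq_add_neg, Real.exp_add, Real.exp_log hlog]

end Pool.Agent.H36.IS

end

section

/-!
# PD, BNum: numbers and mass of the blocks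

* `bnum`: `(1 + 1/H)^H ≥ 2`, so `aj x J ≥ e^x 2^(2x²) ≥ e^(x²)`; `(1 + 1/H)^J ≤ e^(J/H) ≤ e^(2x²+1)`, so `aj x J ≤ e^(3x²)`; `J ≤ 2(log x + 1)x² + 1 ≤ x³`; `H ≥ 2`.
* `W_low`: the blocks `(aj x j, aj x (j+1)]`, `j < J`, cover `(e^x, aj x J] ⊇ (e^x, e^(x²)]`, so `WB ≥ ∑_{e^x < p ≤ e^(x²)} 1/p - ∑_{p ∣ m, p > e^x} 1/p ≥ (log x - 1) - ω(m) e^(-x) ≥ log x - 2`;
  Mertens: `∑_{p ≤ y} 1/p = log log y + c + o(1)` (`Pool.Agent.H36.IS.mertA`, used in `PG/TMert.lean`).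
* `TB_card`: the blocks are disjoint sets of numbers in `[1, aj x J]`.
-/

set_option autoImplicit false

namespace Pool.Agent.H78.PD

open Finset
open Pool.Agent.H34PG (lam lam_val lam_mul lam_prime)
open Pool.Agent.H11.LQ Pool.Agent.H78.PG

/-- Mertens, from below -/
theorem bnum_mert : ∃ n0 : ℕ, ∀ w z : ℕ, n0 ≤ w → w ≤ z → 2 ≤ w →
    Real.log (Real.log z) - Real.log (Real.log w) - 1 / 50 - 1 / (w : ℝ) ≤
      ∑ p ∈ (Ioc w z).filter Nat.Prime, (1 : ℝ) / p := by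
  obtain ⟨c, hc⟩ := Pool.Agent.H36.IS.mertA
  obtain ⟨n0, hn0⟩ := Metric.tendsto_atTop.1 hc (1 / 100) (by norm_num)
  refine ⟨n0, fun w z hw hwz hw2 => ?_⟩
  have hfz := hn0 z (hw.trans hwz)
  have hfw := hn0 w hw
  rw [Real.dist_eq, abs_lt] at hfz hfw
  have hsub : (range (w + 1)).filter Nat.Prime ⊆ (range (z + 1)).filter Nat.Prime := by
    intro p hp
    rw [mem_filter, mem_range] at hp ⊢
    exact ⟨by omega, hp.2⟩
  have hdiff := sum_sdiff (f := fun p : ℕ => -Real.log (1 - 1 / (p : ℝ))) hsub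
  have hset : (range (z + 1)).filter Nat.Prime \ (range (w + 1)).filter Nat.Prime = (Ioc w z).filter Nat.Prime := by
    ext p
    simp only [mem_filter, mem_Ioc, mem_sdiff, mem_range]
    constructor
    · rintro ⟨⟨h1, h2⟩, h3⟩
      refine ⟨⟨?_, by omega⟩, h2⟩
      by_contra h4
      exact h3 ⟨by omega, h2⟩
    · rintro ⟨⟨h1, h2⟩, h3⟩
      exact ⟨⟨by omega, h3⟩, fun h5 => by omega⟩
  rw [hset] at hdiff
  have hle : ∑ p ∈ (Ioc w z).filter Nat.Prime, -Real.log (1 - 1 / (p : ℝ)) ≤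
      ∑ p ∈ (Ioc w z).filter Nat.Prime, ((1 : ℝ) / p + (1 / ((p : ℝ) - 1) - 1 / (p : ℝ))) := by
    apply sum_le_sum
    intro p hp
    rw [mem_filter, mem_Ioc] at hp
    have hp2 : (2 : ℝ) ≤ p := by exact_mod_cast hp.2.two_le
    have hp1 : (0 : ℝ) < (p : ℝ) - 1 := by linarith only [hp2]
    have e : 1 - 1 / (p : ℝ) = ((p : ℝ) - 1) / p := by field_simp
    rw [e, ← Real.log_inv, inv_div]
    have h := Real.log_le_sub_one_of_pos (x := (p : ℝ) / ((p : ℝ) - 1)) (by positivity)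
    have e2 : (p : ℝ) / ((p : ℝ) - 1) - 1 = 1 / ((p : ℝ) - 1) := by field_simp; ring
    linarith only [h, e2]
  have htel : ∑ p ∈ (Ioc w z).filter Nat.Prime, (1 / ((p : ℝ) - 1) - 1 / (p : ℝ)) ≤ 1 / (w : ℝ) := by
    calc ∑ p ∈ (Ioc w z).filter Nat.Prime, (1 / ((p : ℝ) - 1) - 1 / (p : ℝ))
        ≤ ∑ p ∈ Ioc w z, (1 / ((p : ℝ) - 1) - 1 / (p : ℝ)) := by
          apply sum_le_sum_of_subset_of_nonneg (filter_subset _ _)
          intro n hn _
          rw [mem_Ioc] at hn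
          have hn2 : (2 : ℝ) ≤ n := by
            have : 2 ≤ n := by omega
            exact_mod_cast this
          have : 1 / (n : ℝ) ≤ 1 / ((n : ℝ) - 1) := one_div_le_one_div_of_le (by linarith only [hn2]) (by linarith only)
          linarith only [this]
      _ = 1 / (w : ℝ) - 1 / (z : ℝ) := bnum_tel w z hwz
      _ ≤ 1 / (w : ℝ) := by
          have : 0 ≤ 1 / (z : ℝ) := by positivity
          linarith only [this]
  rw [sum_add_distrib] at hle
  have hfS : ∀ n : ℕ, Pool.Agent.H36.IS.fS n =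
      ∑ p ∈ (range (n + 1)).filter Nat.Prime, -Real.log (1 - 1 / (p : ℝ)) := fun n => rfl
  rw [hfS] at hfz hfw
  linarith only [hfz, hfw, hdiff, hle, htel, hfz.1, hfz.2, hfw.1, hfw.2]

end Pool.Agent.H78.PD

end

section

/-!
# PD, Ener: the energy inequality

`ww χ ≤ (4/φ²) |∑_{n ∈ cop m (m/2)} λ χ|²` (`ww_le_half`), `λ = λ g + λ (1 - g)`, `|a + b|² ≤ 2|a|² + 2|b|²`; by `ortho_coef` the sum over all `χ` of `|∑ λ (1 - g) χ|²` is `φ ∑ (1 - g)²`.
For `χ ∉ UU`: `λ(n) g(n) = -(1/W) ∑_j ∑_{p ∈ TB j} [n = p y, y ≤ YB j] λ(y)`, so `∑_n λ g χ = -(1/W) ∑_j (∑_{TB j} χ(p)) S_j`, `S_j = ∑_{y ∈ cop m (YB j)} λ(y) χ(y)`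
(`n ↔ y`; `p y ≤ m/2` is automatic), `|.|² ≤ (J/W²) ∑_j (aj x j)^(2-2α) |S_j|²` (Cauchy-Schwarz); LSP with `P = aj x (j+1)`, `f = λ`:
`∑_X |S_j|² ≤ B φ m (aj x (j+1))^(-2+γ)`, and `aj^(2-2α) aj(j+1)^(-2+γ) ≤ aj^(-(2α-γ)) ≤ exp(-(2α-γ)x)`.
-/

set_option autoImplicit false

namespace Pool.Agent.H78.PD

open Finset
open Pool.Agent.H34PG (lam lam_val lam_mul lam_prime)
open Pool.Agent.H11.LQ Pool.Agent.H78.PG

/-- the sum over the complementary variable -/
private noncomputable def enS (m : ℕ) (χ : DirichletCharacter ℂ m) (Y : ℕ) : ℂ :=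
  ∑ y ∈ cop m Y, ((lam y : ℤ) : ℂ) * χ (y : ZMod m)

private theorem ener_cop {m p : ℕ} {x : ℝ} {j : ℕ} (hp : p ∈ TB m x j) :
    (cop m (m / 2)).filter (fun n => p ∣ n ∧ n ≤ p * YB m x j)
      = (cop m (YB m x j)).image (fun y => p * y) := by
  obtain ⟨hp1, hp2, _, hp4⟩ := mem_TB.mp hp
  have hpc : p.Coprime m := (Nat.Prime.coprime_iff_not_dvd hp1).mpr hp2
  ext n
  rw [mem_filter, mem_cop, mem_image]
  constructor
  · rintro ⟨⟨h1, h2, h3⟩, ⟨y, rfl⟩, h5⟩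
    refine ⟨y, mem_cop.mpr ⟨?_, Nat.le_of_mul_le_mul_left h5 hp1.pos, ?_⟩, rfl⟩
    · rcases Nat.eq_zero_or_pos y with h6 | h6
      · subst h6
        omega
      · exact h6
    · exact Nat.Coprime.coprime_mul_left h3
  · rintro ⟨y, hy, rfl⟩
    obtain ⟨h1, h2, h3⟩ := mem_cop.mp hy
    refine ⟨⟨Nat.mul_pos hp1.pos h1, ?_, Nat.Coprime.mul_left hpc h3⟩, Dvd.intro _ rfl,
      Nat.mul_le_mul_left _ h2⟩
    rw [Nat.le_div_iff_mul_le (by norm_num)]
    have ha : 0 < aj x (j + 1) := aj_pos _ _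
    have h4 : (y : ℝ) ≤ (m : ℝ) / (2 * aj x (j + 1)) := by
      have h5 : (y : ℝ) ≤ (YB m x j : ℝ) := by exact_mod_cast h2
      refine h5.trans ?_
      unfold YB
      exact Nat.floor_le (by positivity)
    rw [le_div_iff₀ (by positivity)] at h4
    have h5 : ((p * y * 2 : ℕ) : ℝ) ≤ (m : ℝ) := by
      push_cast
      have h6 : (p : ℝ) * y ≤ aj x (j + 1) * y :=
        mul_le_mul_of_nonneg_right hp4 (Nat.cast_nonneg y)
      nlinarith
    exact_mod_cast h5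

private theorem ener_inner {m p : ℕ} (χ : DirichletCharacter ℂ m) {x : ℝ} {j : ℕ}
    (hp : p ∈ TB m x j) :
    ∑ n ∈ cop m (m / 2), (((if p ∣ n ∧ n ≤ p * YB m x j then (1 : ℝ) else 0) : ℝ) : ℂ) *
        (((lam n : ℤ) : ℂ) * χ (n : ZMod m))
      = - (χ (p : ZMod m) * enS m χ (YB m x j)) := by
  have hp1 := (mem_TB.mp hp).1
  have e1 : ∑ n ∈ cop m (m / 2), (((if p ∣ n ∧ n ≤ p * YB m x j then (1 : ℝ) else 0) : ℝ) : ℂ) *
        (((lam n : ℤ) : ℂ) * χ (n : ZMod m))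
      = ∑ n ∈ (cop m (m / 2)).filter (fun n => p ∣ n ∧ n ≤ p * YB m x j),
          ((lam n : ℤ) : ℂ) * χ (n : ZMod m) := by
    rw [sum_filter]
    refine sum_congr rfl fun n _ => ?_
    split_ifs <;> simp
  rw [e1, ener_cop hp, sum_image]
  · unfold enS
    rw [mul_sum, ← sum_neg_distrib]
    refine sum_congr rfl fun y hy => ?_
    have hy1 := (mem_cop.mp hy).1
    rw [lam_mul p y hp1.pos hy1, lam_prime hp1, Nat.cast_mul, map_mul]
    push_cast
    ring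
  · intro a _ b _ hab
    exact Nat.eq_of_mul_eq_mul_left hp1.pos hab

private theorem ener_main (m : ℕ) (χ : DirichletCharacter ℂ m) (x : ℝ) :
    ∑ n ∈ cop m (m / 2), ((lam n : ℤ) : ℂ) * ((gB m x n : ℝ) : ℂ) * χ (n : ZMod m)
      = -((1 / WB m x : ℝ) : ℂ) * ∑ j ∈ range (Jn x),
          (∑ p ∈ TB m x j, χ (p : ZMod m)) * enS m χ (YB m x j) := by
  have e1 : ∀ n : ℕ, ((lam n : ℤ) : ℂ) * ((gB m x n : ℝ) : ℂ) * χ (n : ZMod m)
      = ((1 / WB m x : ℝ) : ℂ) * ∑ j ∈ range (Jn x), ∑ p ∈ TB m x j,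
        (((if p ∣ n ∧ n ≤ p * YB m x j then (1 : ℝ) else 0) : ℝ) : ℂ) *
        (((lam n : ℤ) : ℂ) * χ (n : ZMod m)) := by
    intro n
    have e2 : ∑ j ∈ range (Jn x), ∑ p ∈ TB m x j,
        (((if p ∣ n ∧ n ≤ p * YB m x j then (1 : ℝ) else 0) : ℝ) : ℂ) *
        (((lam n : ℤ) : ℂ) * χ (n : ZMod m))
        = ((∑ j ∈ range (Jn x), ∑ p ∈ TB m x j,
          (if p ∣ n ∧ n ≤ p * YB m x j then (1 : ℝ) else 0) : ℝ) : ℂ) *
          (((lam n : ℤ) : ℂ) * χ (n : ZMod m)) := by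
      rw [Complex.ofReal_sum, sum_mul]
      refine sum_congr rfl fun j _ => ?_
      rw [Complex.ofReal_sum, sum_mul]
    rw [e2]
    unfold gB
    rw [Complex.ofReal_mul]
    ring
  rw [sum_congr rfl fun n _ => e1 n, ← mul_sum, sum_comm]
  have e3 : ∀ j ∈ range (Jn x), ∑ n ∈ cop m (m / 2), ∑ p ∈ TB m x j,
        (((if p ∣ n ∧ n ≤ p * YB m x j then (1 : ℝ) else 0) : ℝ) : ℂ) *
        (((lam n : ℤ) : ℂ) * χ (n : ZMod m))
      = - ((∑ p ∈ TB m x j, χ (p : ZMod m)) * enS m χ (YB m x j)) := by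
    intro j _
    rw [sum_comm, sum_mul, ← sum_neg_distrib]
    exact sum_congr rfl fun p hp => ener_inner χ hp
  rw [sum_congr rfl e3, sum_neg_distrib]
  ring

private theorem ener_exp (x : ℝ) (j : ℕ) : Real.exp x ≤ aj x j := by
  unfold aj
  have h1 : (1 : ℝ) ≤ (1 + 1 / (Hn x : ℝ)) ^ j := by
    apply one_le_pow₀
    have : (0 : ℝ) ≤ 1 / (Hn x : ℝ) := by positivity
    linarith
  exact le_mul_of_one_le_right (Real.exp_pos x).le h1

/-- the exponents -/
private theorem ener_pow (x α γ : ℝ) (hγ : γ ≤ 2 * α) (hγ2 : γ ≤ 2) (j : ℕ) :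
    (aj x j ^ (1 - α)) ^ 2 * aj x (j + 1) ^ (-2 + γ) ≤ Real.exp (-((2 * α - γ) * x)) := by
  have h0 : 0 < aj x j := aj_pos x j
  have h1 : aj x j ≤ aj x (j + 1) := aj_mono x (Nat.le_succ j)
  have h2 : aj x (j + 1) ^ (-2 + γ) ≤ aj x j ^ (-2 + γ) :=
    Real.rpow_le_rpow_of_nonpos h0 h1 (by linarith)
  have h3 : (aj x j ^ (1 - α)) ^ 2 = aj x j ^ (2 - 2 * α) := by
    rw [← Real.rpow_natCast, ← Real.rpow_mul h0.le]
    congr 1
    push_cast
    ring
  rw [h3]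
  calc aj x j ^ (2 - 2 * α) * aj x (j + 1) ^ (-2 + γ)
      ≤ aj x j ^ (2 - 2 * α) * aj x j ^ (-2 + γ) :=
        mul_le_mul_of_nonneg_left h2 (Real.rpow_nonneg h0.le _)
    _ = aj x j ^ (-(2 * α - γ)) := by
        rw [← Real.rpow_add h0]
        congr 1
        ring
    _ ≤ (Real.exp x) ^ (-(2 * α - γ)) :=
        Real.rpow_le_rpow_of_nonpos (Real.exp_pos x) (ener_exp x j) (by linarith)
    _ = Real.exp (-((2 * α - γ) * x)) := by
        rw [← Real.exp_mul]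
        congr 1
        ring

/-- the large sieve for one block -/
private theorem ener_block (m : ℕ) [NeZero m] (x B γ P1 P2 : ℝ)
    (X : Finset (DirichletCharacter ℂ m)) (hX : LSP m X B γ P1 P2)
    (h1 : P1 ≤ Real.exp x) (h2 : aj x (Jn x) ≤ P2) (j : ℕ) (hj : j < Jn x) :
    ∑ χ ∈ X, ‖enS m χ (YB m x j)‖ ^ 2 ≤ B * m.totient * m * aj x (j + 1) ^ (-2 + γ) := by
  have ha : 0 < aj x (j + 1) := aj_pos _ _
  refine hX (aj x (j + 1)) (h1.trans (ener_exp x _)) ((aj_mono x hj).trans h2) (YB m x j) ?_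
    (fun y => ((lam y : ℤ) : ℂ)) ?_
  · have h3 : (YB m x j : ℝ) ≤ (m : ℝ) / (2 * aj x (j + 1)) := by
      unfold YB
      exact Nat.floor_le (by positivity)
    rw [le_div_iff₀ (by positivity)] at h3
    linarith
  · intro y
    rcases lam_val y with h | h <;> simp [h]

/-- the bound for one character outside `UU` -/
private theorem ener_char (m : ℕ) [NeZero m] (χ : DirichletCharacter ℂ m) (x α : ℝ)
    (hW : 0 < WB m x) (hχ : χ ∉ UU m x α) :
    ‖∑ n ∈ cop m (m / 2), ((lam n : ℤ) : ℂ) * ((gB m x n : ℝ) : ℂ) * χ (n : ZMod m)‖ ^ 2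
      ≤ Jn x / WB m x ^ 2 * ∑ j ∈ range (Jn x),
          (aj x j ^ (1 - α)) ^ 2 * ‖enS m χ (YB m x j)‖ ^ 2 := by
  rw [mem_UU] at hχ
  push Not at hχ
  rw [ener_main, norm_mul, norm_neg, Complex.norm_real, Real.norm_of_nonneg (by positivity),
    mul_pow, one_div, inv_pow]
  have e1 : (Jn x : ℝ) / WB m x ^ 2 * ∑ j ∈ range (Jn x),
      (aj x j ^ (1 - α)) ^ 2 * ‖enS m χ (YB m x j)‖ ^ 2
      = (WB m x ^ 2)⁻¹ * ((Jn x : ℝ) * ∑ j ∈ range (Jn x),
      (aj x j ^ (1 - α)) ^ 2 * ‖enS m χ (YB m x j)‖ ^ 2) := by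
    rw [div_eq_mul_inv]
    ring
  rw [e1]
  refine mul_le_mul_of_nonneg_left ?_ (by positivity)
  have h1 : ‖∑ j ∈ range (Jn x), (∑ p ∈ TB m x j, χ (p : ZMod m)) * enS m χ (YB m x j)‖
      ≤ ∑ j ∈ range (Jn x), aj x j ^ (1 - α) * ‖enS m χ (YB m x j)‖ := by
    refine (norm_sum_le _ _).trans (sum_le_sum fun j hj => ?_)
    rw [norm_mul]
    exact mul_le_mul_of_nonneg_right (hχ j (mem_range.mp hj)).le (norm_nonneg _)
  have h2 : (∑ j ∈ range (Jn x), aj x j ^ (1 - α) * ‖enS m χ (YB m x j)‖) ^ 2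
      ≤ ((range (Jn x)).card : ℝ) * ∑ j ∈ range (Jn x),
        (aj x j ^ (1 - α) * ‖enS m χ (YB m x j)‖) ^ 2 :=
    sq_sum_le_card_mul_sum_sq
  rw [card_range] at h2
  calc _ ≤ (∑ j ∈ range (Jn x), aj x j ^ (1 - α) * ‖enS m χ (YB m x j)‖) ^ 2 :=
        pow_le_pow_left₀ (norm_nonneg _) h1 2
    _ ≤ _ := h2
    _ = _ := by
        congr 1
        exact sum_congr rfl fun j _ => by rw [mul_pow]

open Classical in
theorem energy (m : ℕ) [NeZero m] (hm : 3 ≤ m) (η : ℤ) (hη : η = 1 ∨ η = -1)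
    (x α B γ P1 P2 : ℝ) (X : Finset (DirichletCharacter ℂ m)) (hX : LSP m X B γ P1 P2)
    (hx : 1 ≤ x) (h1 : P1 ≤ Real.exp x) (h2 : aj x (Jn x) ≤ P2) (hγ : γ ≤ 2 * α) (hγ2 : γ ≤ 2)
    (hB : 0 ≤ B) (hW : 0 < WB m x) :
    ∑ χ ∈ X.filter (fun χ => χ ∉ UU m x α), ww m η χ
      ≤ 8 * B * (m / m.totient) * (Jn x / WB m x) ^ 2 * Real.exp (-((2 * α - γ) * x))
        + 8 / m.totient * ∑ n ∈ cop m (m / 2), (1 - gB m x n) ^ 2 := by
  have hφ : (0 : ℝ) < m.totient := by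
    exact_mod_cast Nat.totient_pos.2 (by omega)
  obtain ⟨E, hE⟩ : ∃ E, E = Real.exp (-((2 * α - γ) * x)) := ⟨_, rfl⟩
  have hE0 : 0 ≤ E := by
    rw [hE]
    exact (Real.exp_pos _).le
  -- the two parts
  have hA : ∀ χ : DirichletCharacter ℂ m, ww m η χ ≤
      8 / (m.totient : ℝ) ^ 2 *
        ‖∑ n ∈ cop m (m / 2), ((lam n : ℤ) : ℂ) * ((gB m x n : ℝ) : ℂ) * χ (n : ZMod m)‖ ^ 2 +
      8 / (m.totient : ℝ) ^ 2 *
        ‖∑ n ∈ cop m (m / 2), ((lam n : ℤ) : ℂ) * ((1 - gB m x n : ℝ) : ℂ) *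
          χ (n : ZMod m)‖ ^ 2 := by
    intro χ
    refine (ww_le_half m hm η hη χ).trans ?_
    have e1 : ∑ n ∈ cop m (m / 2), ((lam n : ℤ) : ℂ) * χ (n : ZMod m)
        = ∑ n ∈ cop m (m / 2), ((lam n : ℤ) : ℂ) * ((gB m x n : ℝ) : ℂ) * χ (n : ZMod m) +
          ∑ n ∈ cop m (m / 2), ((lam n : ℤ) : ℂ) * ((1 - gB m x n : ℝ) : ℂ) *
            χ (n : ZMod m) := by
      rw [← sum_add_distrib]
      refine sum_congr rfl fun n _ => ?_
      push_cast
      ring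
    rw [e1]
    obtain ⟨a, ha⟩ : ∃ a, a = ∑ n ∈ cop m (m / 2), ((lam n : ℤ) : ℂ) *
      ((gB m x n : ℝ) : ℂ) * χ (n : ZMod m) := ⟨_, rfl⟩
    obtain ⟨b, hb⟩ : ∃ b, b = ∑ n ∈ cop m (m / 2), ((lam n : ℤ) : ℂ) *
      ((1 - gB m x n : ℝ) : ℂ) * χ (n : ZMod m) := ⟨_, rfl⟩
    rw [← ha, ← hb]
    have h3 : ‖a + b‖ ^ 2 ≤ 2 * ‖a‖ ^ 2 + 2 * ‖b‖ ^ 2 := by
      have h4 := norm_add_le a b
      have h5 := norm_nonneg (a + b)
      nlinarith [sq_nonneg (‖a‖ - ‖b‖), norm_nonneg a, norm_nonneg b]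
    calc 4 / (m.totient : ℝ) ^ 2 * ‖a + b‖ ^ 2
        ≤ 4 / (m.totient : ℝ) ^ 2 * (2 * ‖a‖ ^ 2 + 2 * ‖b‖ ^ 2) :=
          mul_le_mul_of_nonneg_left h3 (by positivity)
      _ = _ := by ring
  refine (sum_le_sum fun χ _ => hA χ).trans ?_
  rw [sum_add_distrib, ← mul_sum, ← mul_sum]
  refine add_le_add ?_ ?_
  · -- the main part
    have h3 : ∑ χ ∈ X.filter (fun χ => χ ∉ UU m x α),
        ‖∑ n ∈ cop m (m / 2), ((lam n : ℤ) : ℂ) * ((gB m x n : ℝ) : ℂ) * χ (n : ZMod m)‖ ^ 2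
        ≤ Jn x / WB m x ^ 2 * (Jn x * (B * m.totient * m * E)) := by
      calc _ ≤ ∑ χ ∈ X.filter (fun χ => χ ∉ UU m x α), Jn x / WB m x ^ 2 *
            ∑ j ∈ range (Jn x), (aj x j ^ (1 - α)) ^ 2 * ‖enS m χ (YB m x j)‖ ^ 2 :=
            sum_le_sum fun χ hχ => ener_char m χ x α hW (mem_filter.mp hχ).2
        _ = Jn x / WB m x ^ 2 * ∑ j ∈ range (Jn x), (aj x j ^ (1 - α)) ^ 2 *
            ∑ χ ∈ X.filter (fun χ => χ ∉ UU m x α), ‖enS m χ (YB m x j)‖ ^ 2 := by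
            rw [← mul_sum, sum_comm]
            congr 1
            exact sum_congr rfl fun j _ => by rw [mul_sum]
        _ ≤ Jn x / WB m x ^ 2 * ∑ _j ∈ range (Jn x), B * m.totient * m * E := by
            refine mul_le_mul_of_nonneg_left (sum_le_sum fun j hj => ?_) (by positivity)
            have h4 : ∑ χ ∈ X.filter (fun χ => χ ∉ UU m x α), ‖enS m χ (YB m x j)‖ ^ 2
                ≤ B * m.totient * m * aj x (j + 1) ^ (-2 + γ) :=
              (sum_le_sum_of_subset_of_nonneg (filter_subset _ _) fun _ _ _ =>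
                by positivity).trans
                (ener_block m x B γ P1 P2 X hX h1 h2 j (mem_range.mp hj))
            have h5 := ener_pow x α γ hγ hγ2 j
            rw [← hE] at h5
            calc _ ≤ (aj x j ^ (1 - α)) ^ 2 * (B * m.totient * m * aj x (j + 1) ^ (-2 + γ)) :=
                  mul_le_mul_of_nonneg_left h4 (by positivity)
              _ = B * m.totient * m * ((aj x j ^ (1 - α)) ^ 2 * aj x (j + 1) ^ (-2 + γ)) := by
                  ring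
              _ ≤ B * m.totient * m * E := mul_le_mul_of_nonneg_left h5 (by positivity)
        _ = _ := by rw [sum_const, card_range, nsmul_eq_mul]
    calc _ ≤ 8 / (m.totient : ℝ) ^ 2 *
          (Jn x / WB m x ^ 2 * (Jn x * (B * m.totient * m * E))) :=
          mul_le_mul_of_nonneg_left h3 (by positivity)
      _ = 8 * B * (m / m.totient) * (Jn x / WB m x) ^ 2 * E := by
          field_simp
      _ = _ := by rw [hE]
  · -- the error part
    have h3 : ∑ χ ∈ X.filter (fun χ => χ ∉ UU m x α),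
        ‖∑ n ∈ cop m (m / 2), ((lam n : ℤ) : ℂ) * ((1 - gB m x n : ℝ) : ℂ) *
          χ (n : ZMod m)‖ ^ 2 ≤ (m.totient : ℝ) * ∑ n ∈ cop m (m / 2), (1 - gB m x n) ^ 2 := by
      calc _ ≤ ∑ χ : DirichletCharacter ℂ m, ‖∑ n ∈ cop m (m / 2), ((lam n : ℤ) : ℂ) *
            ((1 - gB m x n : ℝ) : ℂ) * χ (n : ZMod m)‖ ^ 2 :=
            sum_le_sum_of_subset_of_nonneg (subset_univ _) fun _ _ _ => by positivity
        _ = (m.totient : ℝ) * ∑ n ∈ cop m (m / 2),
            ‖((lam n : ℤ) : ℂ) * ((1 - gB m x n : ℝ) : ℂ)‖ ^ 2 := by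
            refine ortho_coef m (cop m (m / 2)) (fun s hs => ?_) _
            obtain ⟨h4, h5, h6⟩ := mem_cop.mp hs
            exact ⟨h6, h4, h5.trans (Nat.div_le_self m 2)⟩
        _ = _ := by
            congr 1
            refine sum_congr rfl fun n _ => ?_
            rw [norm_mul, Complex.norm_real, mul_pow, Real.norm_eq_abs, sq_abs]
            rcases lam_val n with h | h <;> rw [h] <;> simp
    calc _ ≤ 8 / (m.totient : ℝ) ^ 2 *
          ((m.totient : ℝ) * ∑ n ∈ cop m (m / 2), (1 - gB m x n) ^ 2) :=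
          mul_le_mul_of_nonneg_left h3 (by positivity)
      _ = _ := by
          field_simp

end Pool.Agent.H78.PD

end

section

/-!
# PD, Wlo: the sum of the reciprocals of the primes of the blocks

`W_low2` is `W_low` of `BNum` with the condition `m / φ(m) ≤ x ^ (1/4)`.
-/

set_option autoImplicit false

namespace Pool.Agent.H78.PD

open Finset
open Pool.Agent.H34PG (lam lam_val lam_mul lam_prime)
open Pool.Agent.H11.LQ Pool.Agent.H78.PG

theorem W_low2 : ∃ x0 : ℝ, ∀ x : ℝ, x0 ≤ x → ∀ m : ℕ, 1 ≤ m →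
    (m : ℝ) ≤ x ^ (1 / 4 : ℝ) * m.totient → Real.log x / 2 ≤ WB m x := by
  obtain ⟨x1, hx1, hb⟩ := bnum
  obtain ⟨n0, hn0⟩ := bnum_mert
  have hev : ∀ᶠ x : ℝ in Filter.atTop, n0 ≤ ⌊Real.exp x⌋₊ :=
    (tendsto_nat_floor_atTop.comp Real.tendsto_exp_atTop).eventually_ge_atTop n0
  obtain ⟨x2, hx2⟩ := Filter.eventually_atTop.1 hev
  obtain ⟨x3, hx3⟩ := Filter.eventually_atTop.1 (Real.tendsto_log_atTop.eventually_ge_atTop 4)
  refine ⟨max (max x1 x2) (max x3 3), fun x hx m hm hω => ?_⟩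
  have hxa : x1 ≤ x := (le_max_left _ _).trans ((le_max_left _ _).trans hx)
  have hxb : x2 ≤ x := (le_max_right _ _).trans ((le_max_left _ _).trans hx)
  have hxc : x3 ≤ x := (le_max_left _ _).trans ((le_max_right _ _).trans hx)
  have hxd : 3 ≤ x := (le_max_right _ _).trans ((le_max_right _ _).trans hx)
  obtain ⟨-, -, hJ, -⟩ := hb x hxa
  have hlogx : 4 ≤ Real.log x := hx3 x hxc
  have hwn : n0 ≤ ⌊Real.exp x⌋₊ := hx2 x hxb
  have hexp3 : (4 : ℝ) ≤ Real.exp x := by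
    have := Real.add_one_le_exp x
    linarith
  obtain ⟨w, hw⟩ : ∃ w, w = ⌊Real.exp x⌋₊ := ⟨_, rfl⟩
  obtain ⟨z, hz⟩ : ∃ z, z = ⌊Real.exp (x ^ 2)⌋₊ := ⟨_, rfl⟩
  rw [← hw] at hwn
  have hwle : (w : ℝ) ≤ Real.exp x := by rw [hw]; exact Nat.floor_le (Real.exp_pos _).le
  have hwge : Real.exp x < (w : ℝ) + 1 := by rw [hw]; exact Nat.lt_floor_add_one _
  have hzle : (z : ℝ) ≤ Real.exp (x ^ 2) := by rw [hz]; exact Nat.floor_le (Real.exp_pos _).le
  have hzge : Real.exp (x ^ 2) < (z : ℝ) + 1 := by rw [hz]; exact Nat.lt_floor_add_one _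
  have hxx : x ≤ x ^ 2 := by nlinarith
  have hexx : Real.exp x ≤ Real.exp (x ^ 2) := Real.exp_le_exp.2 hxx
  have hwz : w ≤ z := by rw [hw, hz]; exact Nat.floor_le_floor hexx
  have hw3 : (3 : ℝ) < w := by linarith
  have hw2 : 2 ≤ w := by
    have : (2 : ℝ) < (w : ℝ) := by linarith
    exact_mod_cast this.le
  have hM := hn0 w z hwn hwz hw2
  have hw0 : (0 : ℝ) < w := by linarith
  have hz0 : (0 : ℝ) < z := lt_of_lt_of_le hw0 (by exact_mod_cast hwz)
  have hlw1 : 1 < Real.log w := by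
    rw [Real.lt_log_iff_exp_lt hw0]
    have := Real.exp_one_lt_d9
    linarith
  have hlw : Real.log w ≤ x := by
    have := Real.log_le_log hw0 hwle
    rwa [Real.log_exp] at this
  have hlz : x ^ 2 - 1 ≤ Real.log z := by
    have h1 : Real.exp (x ^ 2) / 2 ≤ z := by linarith
    have h2 := Real.log_le_log (by positivity) h1
    rw [Real.log_div (Real.exp_pos _).ne' (by norm_num), Real.log_exp] at h2
    have := Real.log_two_lt_d9
    linarith
  have hll : Real.log x - 1 / 8 ≤ Real.log (Real.log z) - Real.log (Real.log w) := by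
    have hx0 : 0 < x := by linarith
    have h9 : 9 ≤ x ^ 2 := by nlinarith
    have h1 : Real.log (x ^ 2 - 1) ≤ Real.log (Real.log z) := Real.log_le_log (by linarith) hlz
    have h2 : Real.log (Real.log w) ≤ Real.log x := Real.log_le_log (by linarith) hlw
    have h3 : 2 * Real.log x - 1 / 8 ≤ Real.log (x ^ 2 - 1) := by
      have h4 := Real.one_sub_inv_le_log_of_pos (x := (x ^ 2 - 1) / x ^ 2) (div_pos (by linarith) (by positivity))
      rw [Real.log_div (by linarith) (by positivity), Real.log_pow, inv_div] at h4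
      have h5 : x ^ 2 / (x ^ 2 - 1) ≤ 9 / 8 := by
        rw [div_le_div_iff₀ (by linarith) (by norm_num)]
        linarith
      push_cast at h4
      linarith
    linarith
  -- the blocks
  have hWB : WB m x = ∑ p ∈ PI m (aj x 0) (aj x (Jn x)), 1 / (p : ℝ) := by
    unfold WB
    exact bnum_sum m x (fun p => 1 / (p : ℝ)) (Jn x)
  have haj0 : aj x 0 = Real.exp x := by unfold aj; simp
  have hsub : (Ioc w z).filter Nat.Prime ⊆ PI m (aj x 0) (aj x (Jn x)) ∪ (m.primeFactors.filter (fun p => w < p)) := by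
    intro p hp
    rw [mem_filter, mem_Ioc] at hp
    obtain ⟨⟨h1, h2⟩, h3⟩ := hp
    rw [mem_union]
    by_cases hd : p ∣ m
    · right
      rw [mem_filter, Nat.mem_primeFactors]
      exact ⟨⟨h3, hd, by omega⟩, h1⟩
    · left
      rw [mem_PI (aj_pos _ _).le, haj0]
      have h4 : ((w + 1 : ℕ) : ℝ) ≤ p := by exact_mod_cast h1
      have h5 : (p : ℝ) ≤ z := by exact_mod_cast h2
      push_cast at h4
      exact ⟨h3, hd, by linarith, by linarith⟩
  have hsum : ∑ p ∈ (Ioc w z).filter Nat.Prime, (1 : ℝ) / p ≤ WB m x + Real.log x / 4 := by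
    have hnn : ∀ p : ℕ, 0 ≤ (1 : ℝ) / p := fun p => by positivity
    have h1 : ∑ p ∈ m.primeFactors.filter (fun p => w < p), (1 : ℝ) / p ≤ Real.log x / 4 := by
      calc ∑ p ∈ m.primeFactors.filter (fun p => w < p), (1 : ℝ) / p
          ≤ ∑ p ∈ m.primeFactors, (1 : ℝ) / p :=
            sum_le_sum_of_subset_of_nonneg (filter_subset _ _) fun p _ _ => hnn p
        _ ≤ Real.log x / 4 := by
            have h4 := inv_sum_le m hm
            have h5 : Real.log ((m : ℝ) / m.totient) ≤ Real.log (x ^ (1 / 4 : ℝ)) := by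
              have hφ : (0 : ℝ) < m.totient := by exact_mod_cast Nat.totient_pos.2 hm
              have hm0 : (0 : ℝ) < m := by exact_mod_cast hm
              refine Real.log_le_log (by positivity) ?_
              rw [div_le_iff₀ hφ]
              exact hω
            rw [Real.log_rpow (by linarith)] at h5
            linarith
    calc ∑ p ∈ (Ioc w z).filter Nat.Prime, (1 : ℝ) / p
        ≤ ∑ p ∈ PI m (aj x 0) (aj x (Jn x)) ∪ (m.primeFactors.filter (fun p => w < p)), (1 : ℝ) / p :=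
          sum_le_sum_of_subset_of_nonneg hsub fun p _ _ => hnn p
      _ ≤ ∑ p ∈ PI m (aj x 0) (aj x (Jn x)), (1 : ℝ) / p + ∑ p ∈ m.primeFactors.filter (fun p => w < p), (1 : ℝ) / p := by
          have := sum_union_inter (s₁ := PI m (aj x 0) (aj x (Jn x))) (s₂ := m.primeFactors.filter (fun p => w < p))
            (f := fun p : ℕ => (1 : ℝ) / p)
          have h0 : 0 ≤ ∑ p ∈ PI m (aj x 0) (aj x (Jn x)) ∩ (m.primeFactors.filter (fun p => w < p)), (1 : ℝ) / p :=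
            sum_nonneg fun p _ => hnn p
          linarith
      _ ≤ WB m x + Real.log x / 4 := by rw [hWB]; linarith
  have h1w : 1 / (w : ℝ) ≤ 1 / 3 := one_div_le_one_div_of_le (by norm_num) hw3.le
  linarith

end Pool.Agent.H78.PD

end
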