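import Pool.Agent.H94.PG.H78.PD.LspU
import Pool.Agent.H94.PG.H78.PD.TK
import Pool.Agent.H94.PG.M14
import Pool.Agent.H94.PG.M33

/-! The parts of this file: H78.PD.Step_1, H78.PD.Iter_1. -/

section

/-!
# PD, Step: one step of the energy argument

`wout (UU) ≤ wout X + ∑_{X - UU} ww`.  `energy` + `tk` with `bnum`, `W_low2` (`W ≥ (log x)/2 ≥ 1`), `H ≥ log x`, `(J/W)² ≤ x^6`:
`∑_{X - UU} ww ≤ 8 B (m/φ) x^6 exp(-(2α-γ)x) + 8 (1/log x + 1/log x) + (64/φ) 2^ω exp(6x²)`; the first term is `≤ 8/x ≤ 8/log x` by hypothesis; `2^ω ≤ m^(1/100)` (`two_pow_le`), `m ≤ m^(1/100) φ` (`tot_le`),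
`exp(6x²) ≤ m^(1/50)`, so the last term is `≤ 64 m^(-9/10) ≤ 1/log m ≤ 1/log x` (`x ≤ log m`).
-/

set_option autoImplicit false

namespace Pool.Agent.H78.PD

open Finset
open Pool.Agent.H34PG (lam lam_val lam_mul lam_prime)
open Pool.Agent.H11.LQ Pool.Agent.H78.PG

theorem step : ∃ x0 C : ℝ, 3 ≤ x0 ∧ 0 < C ∧ ∃ m0 : ℕ, ∀ (m : ℕ) [NeZero m], m0 ≤ m →
    ∀ η : ℤ, (η = 1 ∨ η = -1) → ∀ x : ℝ, x0 ≤ x → 3 * x ^ 2 ≤ Real.log m / 100 →
    (m : ℝ) ≤ x ^ (1 / 4 : ℝ) * m.totient →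
    ∀ (X : Finset (DirichletCharacter ℂ m)) (B γ P1 P2 α : ℝ), LSP m X B γ P1 P2 →
    P1 ≤ Real.exp x → Real.exp (3 * x ^ 2) ≤ P2 → γ ≤ 2 * α → γ ≤ 2 → 0 ≤ B →
    B * (m / m.totient) * x ^ 7 * Real.exp (-((2 * α - γ) * x)) ≤ 1 →
    wout m η (UU m x α) ≤ wout m η X + C / Real.log x := by
  obtain ⟨x1, hx13, hb⟩ := bnum
  obtain ⟨x2, hWl⟩ := W_low2
  obtain ⟨m1, hm1⟩ := two_pow_le (1 / 100) (by norm_num)
  obtain ⟨m2, hm2⟩ := tot_le (1 / 100) (by norm_num)
  obtain ⟨m3, hm3⟩ := grow 64 1 (1 / 2) (by norm_num)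
  refine ⟨max x1 (max x2 8), 25, ?_, by norm_num, max (max m1 m2) (max m3 3), ?_⟩
  · exact hx13.trans (le_max_left _ _)
  intro m _ hm η hη x hx h3x hom X B γ P1 P2 α hX hP1 hP2 hγα hγ2 hB hhyp
  simp only [max_le_iff] at hm hx
  obtain ⟨⟨hma, hmb⟩, hmc, hmd⟩ := hm
  obtain ⟨hxa, hxb, hxc⟩ := hx
  obtain ⟨hH2, hJ, -, haj⟩ := hb x hxa
  have hx0 : 0 < x := by linarith only [hxc]
  have hmR : (3 : ℝ) ≤ m := by exact_mod_cast hmd
  have hm0 : (0 : ℝ) < m := by linarith only [hmR]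
  have hφ : (0 : ℝ) < m.totient := by
    have : 0 < m.totient := Nat.totient_pos.mpr (by omega)
    exact_mod_cast this
  -- log x
  have hlog2 : 2 ≤ Real.log x := by
    rw [Real.le_log_iff_exp_le hx0]
    have h1 : Real.exp 2 = Real.exp 1 * Real.exp 1 := by
      rw [← Real.exp_add]
      norm_num
    have h2 := Real.exp_one_lt_d9
    have h3 := Real.exp_pos 1
    nlinarith only [hxc, h1, h2, h3]
  have hlogx : Real.log x ≤ x := by
    have := Real.log_le_sub_one_of_pos hx0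
    linarith only [this]
  have hxL : x ≤ Real.log m := by nlinarith only [h3x, hxc, hx13, hxa]
  have hW := hWl x hxb m (by omega) hom
  have hW1 : 1 ≤ WB m x := by linarith only [hlog2, hW]
  have hHlog : Real.log x ≤ (Hn x : ℝ) := by
    unfold Hn
    exact Nat.le_ceil _
  have hen := energy m hmd η hη x α B γ P1 P2 X hX (by linarith only [hxc]) hP1 (haj.trans hP2) hγα hγ2 hB
    (by linarith only [hlog2, hW])
  have htk := tk m x (by linarith only [hxc]) hH2 hW1
  have haj0 : 0 < aj x (Jn x) := aj_pos _ _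
  have hJ0 : (0 : ℝ) ≤ Jn x := Nat.cast_nonneg _
  -- the first term
  have hT1 : 8 * B * (m / m.totient) * (Jn x / WB m x) ^ 2 * Real.exp (-((2 * α - γ) * x))
      ≤ 8 / Real.log x := by
    obtain ⟨E, hE⟩ : ∃ E, E = Real.exp (-((2 * α - γ) * x)) := ⟨_, rfl⟩
    have hE0 : 0 < E := by rw [hE]; exact Real.exp_pos _
    rw [← hE] at hhyp ⊢
    obtain ⟨R, hR⟩ : ∃ R : ℝ, R = (m : ℝ) / m.totient := ⟨_, rfl⟩
    have hR0 : 0 ≤ R := by rw [hR]; positivity
    rw [← hR] at hhyp ⊢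
    have h1 : (Jn x / WB m x) ^ 2 ≤ x ^ 6 := by
      have h2 : (Jn x : ℝ) / WB m x ≤ x ^ 3 := by
        rw [div_le_iff₀ (by linarith only [hlog2, hW])]
        calc (Jn x : ℝ) ≤ x ^ 3 := hJ
          _ = x ^ 3 * 1 := by ring
          _ ≤ x ^ 3 * WB m x := mul_le_mul_of_nonneg_left hW1 (by positivity)
      have h3 : (0 : ℝ) ≤ Jn x / WB m x := div_nonneg hJ0 (by linarith only [hlog2, hW])
      calc ((Jn x : ℝ) / WB m x) ^ 2 ≤ (x ^ 3) ^ 2 := pow_le_pow_left₀ h3 h2 2
        _ = x ^ 6 := by ring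
    have h4 : 8 * B * R * (Jn x / WB m x) ^ 2 * E ≤ 8 * B * R * x ^ 6 * E := by
      apply mul_le_mul_of_nonneg_right _ hE0.le
      exact mul_le_mul_of_nonneg_left h1 (by positivity)
    have h5 : 8 * B * R * x ^ 6 * E ≤ 8 / x := by
      rw [le_div_iff₀ hx0]
      calc 8 * B * R * x ^ 6 * E * x = 8 * (B * R * x ^ 7 * E) := by ring
        _ ≤ 8 * 1 := by linarith only [hhyp]
        _ = 8 := by ring
    have h6 : 8 / x ≤ 8 / Real.log x :=
      div_le_div_of_nonneg_left (by norm_num) (by linarith only [hlog2]) hlogx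
    linarith only [h4, h5, h6]
  -- the tail
  have hT3 : 8 / (m.totient : ℝ) * (8 * 2 ^ m.primeFactors.card * aj x (Jn x) ^ 2)
      ≤ 1 / Real.log x := by
    obtain ⟨a, ha⟩ : ∃ a : ℝ, a = (m : ℝ) ^ (1 / 100 : ℝ) := ⟨_, rfl⟩
    have hq1 := hm1 m hma
    have hq2 := hm2 m hmb
    have hq3 := hm3 m hmc
    rw [← ha] at hq1 hq2
    have ha1 : 1 ≤ a := by
      rw [ha]
      exact Real.one_le_rpow (by linarith only [hmR]) (by norm_num)
    have haa : aj x (Jn x) ^ 2 ≤ a ^ 2 := by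
      apply pow_le_pow_left₀ haj0.le
      refine haj.trans ?_
      rw [ha, Real.rpow_def_of_pos hm0]
      apply Real.exp_le_exp.mpr
      linarith only [h3x]
    refine step_tail (m : ℝ) _ _ a _ (Real.log m) _ hφ (by positivity) ha1 (by linarith only [hlog2])
      (by linarith only [hlogx, hxL]) hq1 hq2 haa (by positivity) ?_
    rw [pow_one] at hq3
    have h8 : (m : ℝ) ^ (1 / 2 : ℝ) = a ^ 50 := by
      rw [ha, ← Real.rpow_natCast, ← Real.rpow_mul hm0.le]
      norm_num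
    have h9 : (m : ℝ) = a ^ 100 := by
      rw [ha, ← Real.rpow_natCast, ← Real.rpow_mul hm0.le]
      norm_num
    rw [h8] at hq3
    calc 64 * (1 + Real.log m) * a ^ 4 ≤ a ^ 50 * a ^ 4 :=
          mul_le_mul_of_nonneg_right hq3 (by positivity)
      _ = a ^ 54 := by ring
      _ ≤ a ^ 100 := pow_le_pow_right₀ ha1 (by norm_num)
      _ = m := h9.symm
  -- the middle term
  have hT2 : 8 / (m.totient : ℝ) * (m.totient * (1 / (Hn x : ℝ) + 1 / (2 * WB m x)))
      ≤ 16 / Real.log x := by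
    have h1 : 1 / (Hn x : ℝ) ≤ 1 / Real.log x :=
      one_div_le_one_div_of_le (by linarith only [hlog2]) hHlog
    have h2 : 1 / (2 * WB m x) ≤ 1 / Real.log x :=
      one_div_le_one_div_of_le (by linarith only [hlog2]) (by linarith only [hW])
    calc 8 / (m.totient : ℝ) * (m.totient * (1 / (Hn x : ℝ) + 1 / (2 * WB m x)))
        = 8 * (1 / (Hn x : ℝ) + 1 / (2 * WB m x)) := by field_simp
      _ ≤ 8 * (1 / Real.log x + 1 / Real.log x) := by linarith only [h1, h2]
      _ = 16 / Real.log x := by ring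
  apply step_split
  refine hen.trans ?_
  have h8 : 8 / (m.totient : ℝ) * ∑ n ∈ cop m (m / 2), (1 - gB m x n) ^ 2
      ≤ 8 / (m.totient : ℝ) * (m.totient * (1 / (Hn x : ℝ) + 1 / (2 * WB m x))
        + 8 * 2 ^ m.primeFactors.card * aj x (Jn x) ^ 2) :=
    mul_le_mul_of_nonneg_left htk (by positivity)
  rw [mul_add] at h8
  have h9 : 8 / Real.log x + 16 / Real.log x + 1 / Real.log x = 25 / Real.log x := by ring
  linarith only [hT1, hT3, hT2, h8, h9]

end Pool.Agent.H78.PD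

end

section

/-!
# PD, Iter: iteration of the step

`x ↦ x' = exp(√x/8)`, `α' = α + 1/√x`, `b = 1/√x`.  Induction (e.g. on `n` with `4 (log log m)² ≤ x + n`; `x' ≥ x + 1`, indeed `x' ≥ 4x`).
* If `√x ≥ 2 log log m`: `U = UU m x α`; `lsp_U` with `b = 1/√x`, `P2 = m/2` (`4(2 + log m) ≤ (log m)² ≤ exp(√x)`), `P = m/2`, `Y = 1`, `f = 1`:
  `#U ≤ exp(4x²) φ m (m/2)^(-2+2α+b) ≤ 4 exp(4x²) m^(2α+b) ≤ m^σ`, as `4x² ≤ 4 (log m)^(1/2)` and `2α + b ≤ σ/4`.
* If `√x < 2 log log m`: `x' ≤ (log m)^(1/4)`; `lsp_U` with `b = 1/√x`, `P2 = exp(3x'^2)` (`4(2 + 3x'^2) = 8 + 12 exp(√x/4) ≤ exp(√x)`); `step` at `x'` with `X = UU m x α`, `B = exp(4x²)`, `γ = 2α + b`,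
  `P1 = exp(3x²) ≤ exp(x')`, `2α' - γ = 1/√x`: `exp(4x²) (m/φ) x'^7 exp(-x'/√x) ≤ 1` (`m/φ ≤ x^(1/4) ≤ exp x`), `3x'^2 ≤ 3 (log m)^(1/2) ≤ log m/100`.  `α' + 2/√x' ≤ α + 2/√x` (`x' ≥ 4x`);
  errors `C/log x' + C'/log x' ≤ C'/log x` with `log x' = √x/8 ≥ 2 log x`, `C' = 2C`.
-/

set_option autoImplicit false

namespace Pool.Agent.H78.PD

open Finset
open Pool.Agent.H34PG (lam lam_val lam_mul lam_prime)
open Pool.Agent.H11.LQ Pool.Agent.H78.PG

theorem iter (σ : ℝ) (hσ : 0 < σ) (hσ1 : σ ≤ 1) : ∃ x0 C : ℝ, 3 ≤ x0 ∧ 0 < C ∧ ∃ m0 : ℕ,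
    ∀ (m : ℕ) [NeZero m], m0 ≤ m → ∀ η : ℤ, (η = 1 ∨ η = -1) → ∀ x α : ℝ, x0 ≤ x →
    x ≤ Real.log m ^ (1 / 4 : ℝ) → 0 ≤ α → α + 2 / Real.sqrt x ≤ σ / 8 →
    (m : ℝ) ≤ x ^ (1 / 4 : ℝ) * m.totient →
    ∃ U : Finset (DirichletCharacter ℂ m), (U.card : ℝ) ≤ (m : ℝ) ^ σ ∧
      wout m η U ≤ wout m η (UU m x α) + C / Real.log x := by
  obtain ⟨xs, Cs, hxs3, hCs, ms, hstep⟩ := step
  obtain ⟨xl, hlsp⟩ := lsp_U
  obtain ⟨ℓ1, hℓ1, hcard⟩ := iter_card σ hσ
  obtain ⟨x1, hx1, hlarge⟩ := iter_large xs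
  refine ⟨max x1 xl, Cs, (by linarith : (3 : ℝ) ≤ x1).trans (le_max_left _ _), hCs,
    max ms ⌈Real.exp (max ℓ1 90000)⌉₊, ?_⟩
  intro m _ hm η hη
  have hms : ms ≤ m := (le_max_left _ _).trans hm
  have hm0 : (0 : ℝ) < m := Nat.cast_pos.2 (Nat.pos_of_ne_zero (NeZero.ne m))
  have hmℓ : max ℓ1 90000 ≤ Real.log m := by
    have h1 : Real.exp (max ℓ1 90000) ≤ m := by
      refine (Nat.le_ceil _).trans ?_
      exact_mod_cast (le_max_right _ _).trans hm
    rw [Real.le_log_iff_exp_le hm0]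
    exact h1
  have hℓ1' : ℓ1 ≤ Real.log m := (le_max_left _ _).trans hmℓ
  have hℓ9 : 90000 ≤ Real.log m := (le_max_right _ _).trans hmℓ
  obtain ⟨ℓ, hℓ⟩ : ∃ ℓ, ℓ = Real.log m := ⟨_, rfl⟩
  rw [← hℓ] at hℓ1' hℓ9
  have hℓpos : 0 < ℓ := by linarith only [hℓ9]
  have hφ0 : (0 : ℝ) < m.totient := Nat.cast_pos.2 (Nat.totient_pos.2 (Nat.pos_of_ne_zero (NeZero.ne m)))
  have caseA : ∀ (x α : ℝ), 2 * Real.log ℓ ≤ Real.sqrt x → max x1 xl ≤ x → x ≤ ℓ ^ (1 / 4 : ℝ) → 0 ≤ α →
      α + 2 / Real.sqrt x ≤ σ / 8 →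
      ∃ U : Finset (DirichletCharacter ℂ m), (U.card : ℝ) ≤ (m : ℝ) ^ σ ∧
        wout m η U ≤ wout m η (UU m x α) + Cs / Real.log x := by
    intro x α hc hx hxℓ hα hασ
    have hxx1 : x1 ≤ x := (le_max_left _ _).trans hx
    have hx0 : 0 ≤ x := by linarith only [hx1, hxx1]
    have hsx : 0 < Real.sqrt x := Real.sqrt_pos.2 (by linarith only [hx1, hxx1])
    have hb : 0 ≤ 1 / Real.sqrt x := by positivity
    have h2b : 2 / Real.sqrt x = 2 * (1 / Real.sqrt x) := by ring
    rw [h2b] at hασ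
    refine ⟨UU m x α, ?_, ?_⟩
    · refine hcard m (by rw [← hℓ]; exact hℓ1') (UU m x α) x (2 * α + 1 / Real.sqrt x) hx0 (by rw [← hℓ]; exact hxℓ)
        (by positivity) (by linarith only [hασ, hb]) (by linarith only [hσ1, hασ, hb]) ?_
      refine hlsp x ((le_max_right _ _).trans hx) m α (1 / Real.sqrt x) ((m : ℝ) / 2) hα (by linarith only [hσ1, hασ, hb]) hb ?_
      have h1 : 1 / Real.sqrt x * x = Real.sqrt x := by
        rw [one_div, inv_mul_eq_div]
        exact Real.div_sqrt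
      rw [h1]
      have h2 : Real.log ((m : ℝ) / 2) ≤ ℓ := by
        rw [hℓ]
        exact Real.log_le_log (by positivity) (by linarith only [hm0])
      have h3 : ℓ ^ 2 ≤ Real.exp (Real.sqrt x) := by
        have h4 : ℓ ^ 2 = Real.exp (2 * Real.log ℓ) := by
          rw [two_mul, Real.exp_add, Real.exp_log hℓpos]
          ring
        rw [h4]
        exact Real.exp_le_exp.2 hc
      have h6 : 90000 * ℓ ≤ ℓ ^ 2 := by
        calc 90000 * ℓ ≤ ℓ * ℓ := mul_le_mul_of_nonneg_right hℓ9 hℓpos.le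
          _ = ℓ ^ 2 := by ring
      linarith only [hℓ9, h2, h3, h6]
    · have h5 : 0 ≤ Cs / Real.log x := by
        have : 0 < Real.log x := Real.log_pos (by linarith only [hx1, hxx1])
        positivity
      linarith
  have key : ∀ (n : ℕ) (x α : ℝ), 4 * Real.log ℓ ^ 2 ≤ x + n → max x1 xl ≤ x → x ≤ ℓ ^ (1 / 4 : ℝ) → 0 ≤ α →
      α + 2 / Real.sqrt x ≤ σ / 8 → (m : ℝ) ≤ x ^ (1 / 4 : ℝ) * m.totient →
      ∃ U : Finset (DirichletCharacter ℂ m), (U.card : ℝ) ≤ (m : ℝ) ^ σ ∧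
        wout m η U ≤ wout m η (UU m x α) + Cs / Real.log x := by
    intro n
    induction n with
    | zero =>
      intro x α h4 hx hxℓ hα hασ hω
      exact caseA x α (by
        have h5 : (0 : ℝ) ≤ x := by
          have := (le_max_left _ _).trans hx
          linarith only [hx1, this]
        refine Real.le_sqrt_of_sq_le ?_
        rw [Nat.cast_zero, add_zero] at h4
        have h6 : (2 * Real.log ℓ) ^ 2 = 4 * Real.log ℓ ^ 2 := by ring
        rw [h6]
        exact h4) hx hxℓ hα hασ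
    | succ n ih =>
      intro x α h4 hx hxℓ hα hασ hω
      rcases le_or_gt (2 * Real.log ℓ) (Real.sqrt x) with hc | hc
      · exact caseA x α hc hx hxℓ hα hασ
      · have hxx1 : x1 ≤ x := (le_max_left _ _).trans hx
        obtain ⟨hl1, hl2, hl3, hl4, hl5, hl6⟩ := hlarge x hxx1
        obtain ⟨y, hy⟩ : ∃ y, y = Real.sqrt x := ⟨_, rfl⟩
        obtain ⟨x', hx'⟩ : ∃ x', x' = Real.exp (Real.sqrt x / 8) := ⟨_, rfl⟩
        rw [← hx'] at hl1 hl3 hl4 hl5
        rw [← hy] at hx' hl2 hl4 hl6 hc hασ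
        have hx64 : 64 ≤ x := hx1.trans hxx1
        have hx0 : 0 ≤ x := by linarith only [hx1, hxx1]
        have hy0 : 0 < y := by rw [hy]; exact Real.sqrt_pos.2 (by linarith only [hx1, hxx1])
        have hyx : y ^ 2 = x := by rw [hy]; exact Real.sq_sqrt hx0
        have hx'0 : 0 < x' := by rw [hx']; exact Real.exp_pos _
        have hlogx' : Real.log x' = y / 8 := by rw [hx', Real.log_exp]
        have hx'ℓ : x' ≤ ℓ ^ (1 / 4 : ℝ) := by
          rw [hx', Real.rpow_def_of_pos hℓpos]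
          refine Real.exp_le_exp.2 ?_
          linarith only [hc]
        have hx'sq : x' ^ 2 ≤ Real.sqrt ℓ := by
          have h1 : x' ^ 2 ≤ (ℓ ^ (1 / 4 : ℝ)) ^ 2 := pow_le_pow_left₀ hx'0.le hx'ℓ 2
          have h2 : (ℓ ^ (1 / 4 : ℝ)) ^ 2 = Real.sqrt ℓ := by
            rw [Real.sqrt_eq_rpow, ← Real.rpow_natCast, ← Real.rpow_mul hℓpos.le]
            norm_num
          rw [h2] at h1
          exact h1
        have h3x' : 3 * x' ^ 2 ≤ Real.log m / 100 := by
          rw [← hℓ]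
          obtain ⟨s, hs⟩ : ∃ s, s = Real.sqrt ℓ := ⟨_, rfl⟩
          rw [← hs] at hx'sq
          have hs0 : 0 ≤ s := by rw [hs]; exact Real.sqrt_nonneg _
          have hsq : s ^ 2 = ℓ := by rw [hs]; exact Real.sq_sqrt hℓpos.le
          have hs300 : 300 ≤ s := by
            rw [hs]
            refine Real.le_sqrt_of_sq_le ?_
            norm_num
            linarith only [hℓ9]
          have hs300' : 300 * s ≤ ℓ := by
            calc 300 * s ≤ s * s := mul_le_mul_of_nonneg_right hs300 hs0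
              _ = ℓ := by rw [← hsq]; ring
          linarith only [hx'sq, hs300']
        have hxx' : x ≤ x' := by linarith only [hx1, hxx1, hl5]
        have hωx' : (m : ℝ) ≤ x' ^ (1 / 4 : ℝ) * m.totient :=
          hω.trans (mul_le_mul_of_nonneg_right (Real.rpow_le_rpow hx0 hxx' (by norm_num)) hφ0.le)
        have hb : 0 ≤ 1 / y := by positivity
        have h2b : 2 / y = 2 * (1 / y) := by ring
        rw [h2b] at hασ
        have hlspx := hlsp x ((le_max_right _ _).trans hx) m α (1 / y) (Real.exp (3 * x' ^ 2)) hα (by linarith only [hσ1, hασ, hb]) hb (by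
          have h1 : 1 / y * x = y := by
            rw [← hyx]
            field_simp
          rw [h1, Real.log_exp]
          have h2 : x' ^ 2 = Real.exp (y / 4) := by
            rw [hx', ← Real.exp_nat_mul]
            congr 1
            push_cast
            ring
          rw [h2]
          linarith only [hl2])
        have hst := hstep m hms η hη x' hl1 h3x' hωx' (UU m x α) (Real.exp (4 * x ^ 2)) (2 * α + 1 / y) (Real.exp (3 * x ^ 2))
          (Real.exp (3 * x' ^ 2)) (α + 1 / y) hlspx (Real.exp_le_exp.2 hl3) le_rfl (by linarith only [hb]) (by linarith only [hσ1, hασ, hb])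
          (Real.exp_pos _).le (by
            have h1 : (m : ℝ) / m.totient ≤ Real.exp x := by
              rw [div_le_iff₀ hφ0]
              refine hω.trans (mul_le_mul_of_nonneg_right ?_ hφ0.le)
              calc x ^ (1 / 4 : ℝ) ≤ x ^ (1 : ℝ) :=
                    Real.rpow_le_rpow_of_exponent_le (by linarith only [hx1, hxx1]) (by norm_num)
                _ = x := Real.rpow_one x
                _ ≤ Real.exp x := by
                    have := Real.add_one_le_exp x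
                    linarith only [this]
            have h2 : x' ^ 7 = Real.exp (7 * (y / 8)) := by
              rw [hx', ← Real.exp_nat_mul]
              push_cast
              rfl
            rw [h2]
            have h3 : (2 * (α + 1 / y) - (2 * α + 1 / y)) * x' = x' / y := by ring
            rw [h3]
            have h4 : Real.exp (4 * x ^ 2) * ((m : ℝ) / m.totient) * Real.exp (7 * (y / 8)) * Real.exp (-(x' / y)) ≤
                Real.exp (4 * x ^ 2) * Real.exp x * Real.exp (7 * (y / 8)) * Real.exp (-(x' / y)) := by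
              gcongr
            refine h4.trans ?_
            rw [← Real.exp_add, ← Real.exp_add, ← Real.exp_add, Real.exp_le_one_iff]
            have h5 : 4 * x ^ 2 + x + 7 * (y / 8) ≤ x' / y := by
              rw [le_div_iff₀ hy0]
              exact hl4
            linarith only [h5])
        have hsx' : 2 * y ≤ Real.sqrt x' := by
          refine Real.le_sqrt_of_sq_le ?_
          have : (2 * y) ^ 2 = 4 * x := by rw [← hyx]; ring
          rw [this]
          exact hl5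
        have hinv : 2 / Real.sqrt x' ≤ 1 / y := by
          rw [div_le_div_iff₀ (by linarith only [hy0, hsx']) hy0]
          linarith only [hsx']
        obtain ⟨U, hU1, hU2⟩ := ih x' (α + 1 / y) (by push_cast at h4; linarith only [hx1, hxx1, hl5, h4]) (hx.trans hxx') hx'ℓ (by linarith only [hα, hb])
          (by linarith only [hασ, hinv]) hωx'
        refine ⟨U, hU1, ?_⟩
        have hlx : 0 < Real.log x := Real.log_pos (by linarith only [hx1, hxx1])
        have hlx' : 2 * Real.log x ≤ Real.log x' := by rw [hlogx']; exact hl6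
        have hfin : Cs / Real.log x' + Cs / Real.log x' ≤ Cs / Real.log x := by
          have h1 : Cs / Real.log x' ≤ Cs / (2 * Real.log x) := div_le_div_of_nonneg_left hCs.le (by linarith only [hlx]) hlx'
          have h2 : Cs / (2 * Real.log x) + Cs / (2 * Real.log x) = Cs / Real.log x := by
            field_simp
            ring
          linarith only [h1, h2]
        linarith
  intro x α hx hxℓ hα hασ hω
  rw [← hℓ] at hxℓ
  obtain ⟨n, hn⟩ := exists_nat_ge (4 * Real.log ℓ ^ 2 - x)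
  exact key n x α (by linarith only [hn]) hx hxℓ hα hασ hω

end Pool.Agent.H78.PD

end
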