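import Pool.Agent.H94.PG.M05
import Pool.Agent.H94.PG.M16
import Pool.Agent.H94.PG.M30
import Pool.Agent.H94.PG.M33

/-! The parts of this file: H78.PD.T8, H78.PE.Ana4, H78.PE.Common. -/

section

/-!
# PD, T8 (helper53): uniqueness across moduli

Weights `S` (level `X^(1/1000)`, rough at `X^k1`), `Y = X^(1+3k')`, `3k' > 1/500`.  Rough `n ≤ Y`, prime to `m1 m2`, all prime factors `≤ X^(1-2δ2)` and not in `Bad` for both have `χ1(n) = χ2(n) = λ(n)`;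
the others have small `S`-mass.  Polya-Vinogradov (`pv`) mod `lcm(m1, m2) ≤ X²` for `χ1 χ2`.
-/

set_option autoImplicit false

namespace Pool.Agent.H78.PD

open Finset
open Pool.Agent.H78.PG
open Pool.Agent.H91.Gold (Pr mem_Pr mertens_wz)

/-- mean of `S` from above -/
private theorem T8_up {Q : ℕ} {S g : ℕ → ℝ}
    (hS : ∀ n : ℕ, 1 ≤ n → S n = ∑ d ∈ (Icc 1 Q).filter (fun d => d ∣ n), g d) (M : ℕ) :
    ∑ n ∈ Icc 1 M, S n ≤ (∑ d ∈ Icc 1 Q, g d / d) * M + ∑ d ∈ Icc 1 Q, |g d| := by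
  have h1 : ∑ n ∈ Icc 1 M, S n = ∑ d ∈ Icc 1 Q, g d * ((M / d : ℕ) : ℝ) := by
    calc ∑ n ∈ Icc 1 M, S n = ∑ n ∈ Icc 1 M, ∑ d ∈ Icc 1 Q, if d ∣ n then g d else 0 := by
          refine sum_congr rfl fun n hn => ?_
          rw [hS n (mem_Icc.mp hn).1, sum_filter]
      _ = ∑ d ∈ Icc 1 Q, ∑ n ∈ Icc 1 M, if d ∣ n then g d else 0 := sum_comm
      _ = _ := by
          refine sum_congr rfl fun d hd => ?_
          rw [← sum_filter, sum_const, nsmul_eq_mul, mul_comm]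
          congr 2
          rw [← Nat.Ioc_filter_dvd_card_eq_div]
          rfl
  rw [h1, sum_mul, ← sum_add_distrib]
  refine sum_le_sum fun d hd => ?_
  have hd1 : 1 ≤ d := (mem_Icc.mp hd).1
  have hd0 : (0 : ℝ) < d := by exact_mod_cast hd1
  have h2 : ((M / d : ℕ) : ℝ) ≤ (M : ℝ) / d := Nat.cast_div_le
  have h3 : (M : ℝ) / d - 1 ≤ ((M / d : ℕ) : ℝ) := by
    have h4 : M < d * (M / d + 1) := by
      have := Nat.lt_mul_div_succ M hd1
      simpa using this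
    have h5 : (M : ℝ) < d * (((M / d : ℕ) : ℝ) + 1) := by exact_mod_cast h4
    have h6 : (M : ℝ) / d < ((M / d : ℕ) : ℝ) + 1 := by
      rw [div_lt_iff₀ hd0]
      linarith only [h5]
    linarith only [h6]
  have h7 : |(((M / d : ℕ) : ℝ) - M / d)| ≤ 1 := by
    rw [abs_le]
    constructor <;> linarith only [h3, h2]
  have h8 : g d * (((M / d : ℕ) : ℝ) - M / d) ≤ |g d| := by
    refine (le_abs_self _).trans ?_
    rw [abs_mul]
    exact mul_le_of_le_one_right (abs_nonneg _) h7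
  have h9 : g d / d * M = g d * (M / d) := by ring
  rw [h9]
  linarith only [h8]

/-- the number of rough integers -/
private theorem T8_cnt {Q z : ℕ} {S g : ℕ → ℝ} [DecidablePred (rou z)]
    (hS : ∀ n : ℕ, 1 ≤ n → S n = ∑ d ∈ (Icc 1 Q).filter (fun d => d ∣ n), g d)
    (hr : ∀ n : ℕ, 1 ≤ n → 0 ≤ S n ∧ (rou z n → 1 ≤ S n)) (M : ℕ) :
    (((Icc 1 M).filter (rou z)).card : ℝ) ≤
      (∑ d ∈ Icc 1 Q, g d / d) * M + ∑ d ∈ Icc 1 Q, |g d| := by
  refine le_trans ?_ (T8_up hS M)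
  rw [card_eq_sum_ones, Nat.cast_sum, sum_filter]
  refine sum_le_sum fun n hn => ?_
  have h1 := hr n (mem_Icc.mp hn).1
  split_ifs with h
  · simpa using h1.2 h
  · exact h1.1

/-- the Euler product at the primes up to `K` -/
private noncomputable def T8_pi (K : ℕ) : ℝ :=
  ∏ p ∈ (range (K + 1)).filter Nat.Prime, (1 - 1 / (p : ℝ))

private theorem T8_tot (K : ℕ) :
    ((primorial K).totient : ℝ) / (primorial K : ℝ) = T8_pi K := by
  have hP : primorial K ≠ 0 := (primorial_pos K).ne'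
  have hPr : ((primorial K : ℕ) : ℝ) ≠ 0 := by exact_mod_cast hP
  have h1 : (((primorial K).totient : ℚ) : ℝ) =
      ((primorial K * ∏ p ∈ (primorial K).primeFactors, (1 - (p : ℚ)⁻¹) : ℚ) : ℝ) := by
    rw [Nat.totient_eq_mul_prod_factors]
  have h2 : (primorial K).primeFactors = (range (K + 1)).filter Nat.Prime := by
    unfold primorial
    exact Nat.primeFactors_prod fun p hp => (mem_filter.mp hp).2
  push_cast at h1
  rw [h1, mul_div_cancel_left₀ _ hPr, h2]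
  unfold T8_pi
  refine prod_congr rfl fun p _ => ?_
  rw [one_div]

/-- the density of the rough integers from below -/
private theorem T8_dens {Q z K : ℕ} {S g : ℕ → ℝ} [DecidablePred (rou z)] (hz : z ≤ K)
    (hS : ∀ n : ℕ, 1 ≤ n → S n = ∑ d ∈ (Icc 1 Q).filter (fun d => d ∣ n), g d)
    (hr : ∀ n : ℕ, 1 ≤ n → 0 ≤ S n ∧ (rou z n → 1 ≤ S n)) :
    (∑ k ∈ (Icc 1 K).filter (rou z), 1 / (k : ℝ)) * T8_pi K ≤ ∑ d ∈ Icc 1 Q, g d / d := by
  classical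
  obtain ⟨V, hV⟩ : ∃ V, V = ∑ d ∈ Icc 1 Q, g d / d := ⟨_, rfl⟩
  obtain ⟨G, hG⟩ : ∃ G, G = ∑ d ∈ Icc 1 Q, |g d| := ⟨_, rfl⟩
  obtain ⟨P, hP⟩ : ∃ P, P = primorial K := ⟨_, rfl⟩
  have hP1 : 1 ≤ P := by rw [hP]; exact primorial_pos K
  have hpi0 : 0 ≤ T8_pi K := by
    rw [← T8_tot]
    positivity
  have hpi : T8_pi K = (P.totient : ℝ) / P := by rw [hP, T8_tot]
  -- prime factors
  have hdvd : ∀ p : ℕ, p.Prime → (p ∣ P ↔ p ≤ K) := by
    intro p hp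
    rw [hP]
    exact hp.dvd_primorial_iff
  obtain ⟨w, hw⟩ : ∃ w : ℝ, w = 2 ^ P.primeFactors.card := ⟨_, rfl⟩
  rw [← hV]
  by_contra hcon
  push Not at hcon
  obtain ⟨R, hR⟩ : ∃ R, R = ∑ k ∈ (Icc 1 K).filter (rou z), 1 / (k : ℝ) := ⟨_, rfl⟩
  rw [← hR] at hcon
  obtain ⟨T, hT⟩ := exists_nat_gt ((G + K * (1 + w)) / (R * T8_pi K - V))
  rw [div_lt_iff₀ (by linarith only [hcon])] at hT
  have h1 := T8_cnt hS hr T
  rw [← hV, ← hG] at h1
  -- lower bound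
  have h2 : ∑ k ∈ (Icc 1 K).filter (rou z), ((cop P (T / k)).card : ℝ) ≤
      (((Icc 1 T).filter (rou z)).card : ℝ) := by
    rw [← Nat.cast_sum, Nat.cast_le, ← card_sigma]
    refine card_le_card_of_injOn (fun x => x.1 * x.2) ?_ ?_
    · rintro ⟨k, l⟩ hx
      simp only [coe_sigma, Set.mem_sigma_iff, mem_coe, mem_filter, mem_Icc, mem_cop] at hx
      obtain ⟨⟨⟨hk1, hk2⟩, hk3⟩, hl1, hl2, hl3⟩ := hx
      simp only [coe_filter, Set.mem_ofPred_eq, mem_Icc]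
      refine ⟨⟨Nat.mul_pos hk1 hl1, ?_⟩, ?_⟩
      · calc k * l ≤ k * (T / k) := Nat.mul_le_mul_left _ hl2
          _ ≤ T := Nat.mul_div_le _ _
      · intro p hp hpd
        rcases (Nat.Prime.dvd_mul hp).mp hpd with h | h
        · exact hk3 p hp h
        · by_contra hle
          push Not at hle
          have h3 : p ∣ P := (hdvd p hp).mpr (hle.trans hz)
          have h4 := Nat.dvd_gcd h h3
          rw [hl3] at h4
          exact hp.one_lt.ne' (Nat.dvd_one.mp h4)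
    · rintro ⟨k, l⟩ hx ⟨k', l'⟩ hx' heq
      simp only [coe_sigma, Set.mem_sigma_iff, mem_coe, mem_filter, mem_Icc, mem_cop] at hx hx' heq
      obtain ⟨⟨⟨hk1, hk2⟩, hk3⟩, hl1, hl2, hl3⟩ := hx
      obtain ⟨⟨⟨hk1', hk2'⟩, hk3'⟩, hl1', hl2', hl3'⟩ := hx'
      have hc : ∀ a b : ℕ, 1 ≤ a → a ≤ K → b.Coprime P → a.Coprime b := by
        intro a b ha1 ha2 hb
        rw [Nat.coprime_comm]
        refine Nat.coprime_of_dvd fun p hp hpb hpa => ?_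
        have h3 : p ∣ P := (hdvd p hp).mpr ((Nat.le_of_dvd ha1 hpa).trans ha2)
        have h4 := Nat.dvd_gcd hpb h3
        rw [hb] at h4
        exact hp.one_lt.ne' (Nat.dvd_one.mp h4)
      have e1 : k ∣ k' := by
        have : k ∣ k' * l' := ⟨l, heq.symm⟩
        exact (hc k l' hk1 hk2 hl3').dvd_of_dvd_mul_right this
      have e2 : k' ∣ k := by
        have : k' ∣ k * l := ⟨l', heq⟩
        exact (hc k' l hk1' hk2' hl3).dvd_of_dvd_mul_right this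
      have e3 : k = k' := Nat.dvd_antisymm e1 e2
      subst e3
      have e4 : l = l' := Nat.eq_of_mul_eq_mul_left hk1 heq
      subst e4
      rfl
  have h3 : R * T8_pi K * T - K * (1 + w) ≤
      ∑ k ∈ (Icc 1 K).filter (rou z), ((cop P (T / k)).card : ℝ) := by
    have h4 : ∀ k ∈ (Icc 1 K).filter (rou z), 1 / (k : ℝ) * (T8_pi K * T) - (1 + w) ≤
        ((cop P (T / k)).card : ℝ) := by
      intro k hk
      rw [mem_filter, mem_Icc] at hk
      have hk0 : (0 : ℝ) < k := by exact_mod_cast hk.1.1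
      have h5 := cop_card_ge P (T / k) hP1
      rw [← hw, mul_div_assoc, ← hpi] at h5
      have h6 : (T : ℝ) / k - 1 ≤ ((T / k : ℕ) : ℝ) := by
        have h7 : T < k * (T / k + 1) := by
          have := Nat.lt_mul_div_succ T hk.1.1
          simpa using this
        have h8 : (T : ℝ) < k * (((T / k : ℕ) : ℝ) + 1) := by exact_mod_cast h7
        have h9 : (T : ℝ) / k < ((T / k : ℕ) : ℝ) + 1 := by
          rw [div_lt_iff₀ hk0]
          linarith only [h8]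
        linarith only [h9]
      have hpi1 : T8_pi K ≤ 1 := by
        rw [hpi]
        rw [div_le_one (by exact_mod_cast hP1)]
        exact_mod_cast Nat.totient_le P
      have h10 : ((T : ℝ) / k - 1) * T8_pi K ≤ ((T / k : ℕ) : ℝ) * T8_pi K :=
        mul_le_mul_of_nonneg_right h6 hpi0
      have h11 : ((T : ℝ) / k - 1) * T8_pi K = 1 / (k : ℝ) * (T8_pi K * T) - T8_pi K := by
        field_simp
      linarith only [h5, hpi1, h10, h11]
    refine le_trans ?_ (sum_le_sum h4)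
    rw [sum_sub_distrib, ← sum_mul, ← hR, sum_const, nsmul_eq_mul]
    have h12 : ((((Icc 1 K).filter (rou z)).card : ℕ) : ℝ) ≤ K := by
      have := card_filter_le (Icc 1 K) (rou z)
      rw [Nat.card_Icc, Nat.add_sub_cancel] at this
      exact_mod_cast this
    have h13 : 0 ≤ 1 + w := by rw [hw]; positivity
    have h14 := mul_le_mul_of_nonneg_right h12 h13
    have h15 : R * T8_pi K * T = R * (T8_pi K * T) := by ring
    linarith only [h14]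
  nlinarith only [hT, h1, h2, h3]

private theorem T8_mult {M d : ℕ} (hd : 1 ≤ d) (f : ℕ → ℂ) :
    ∑ n ∈ (Icc 1 M).filter (fun n => d ∣ n), f n = ∑ k ∈ Icc 1 (M / d), f (d * k) := by
  symm
  refine sum_nbij (fun k => d * k) ?_ ?_ ?_ fun _ _ => rfl
  · intro k hk
    rw [mem_Icc] at hk
    rw [mem_filter, mem_Icc]
    refine ⟨⟨Nat.mul_pos hd hk.1, ?_⟩, Dvd.intro _ rfl⟩
    exact (Nat.mul_le_mul_left _ hk.2).trans (Nat.mul_div_le _ _)
  · intro a _ b _ h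
    exact Nat.eq_of_mul_eq_mul_left hd h
  · rintro n hn
    rw [mem_coe, mem_filter, mem_Icc] at hn
    obtain ⟨⟨h1, h2⟩, k, rfl⟩ := hn
    refine ⟨k, ?_, rfl⟩
    rw [mem_coe, mem_Icc]
    refine ⟨Nat.pos_of_mul_pos_left h1, ?_⟩
    rw [Nat.le_div_iff_mul_le hd, mul_comm]
    exact h2

/-- Polya-Vinogradov with the sieve weights -/
private theorem T8_pv {Q : ℕ} {S g : ℕ → ℝ} (l : ℕ) [NeZero l] (ψ : DirichletCharacter ℂ l)
    (hψ : ψ ≠ 1) (hS : ∀ n : ℕ, 1 ≤ n → S n = ∑ d ∈ (Icc 1 Q).filter (fun d => d ∣ n), g d)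
    (M : ℕ) :
    ‖∑ n ∈ Icc 1 M, (S n : ℂ) * ψ (n : ZMod l)‖ ≤ (∑ d ∈ Icc 1 Q, |g d|) * KK l := by
  have h1 : ∑ n ∈ Icc 1 M, (S n : ℂ) * ψ (n : ZMod l) =
      ∑ d ∈ Icc 1 Q, (g d : ℂ) * (ψ (d : ZMod l) * ∑ k ∈ Icc 1 (M / d), ψ (k : ZMod l)) := by
    calc ∑ n ∈ Icc 1 M, (S n : ℂ) * ψ (n : ZMod l)
        = ∑ n ∈ Icc 1 M, ∑ d ∈ Icc 1 Q, if d ∣ n then (g d : ℂ) * ψ (n : ZMod l) else 0 := by
          refine sum_congr rfl fun n hn => ?_
          rw [hS n (mem_Icc.mp hn).1, sum_filter]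
          push_cast
          rw [sum_mul]
          refine sum_congr rfl fun d _ => ?_
          split_ifs
          · rfl
          · simp
      _ = ∑ d ∈ Icc 1 Q, ∑ n ∈ Icc 1 M, if d ∣ n then (g d : ℂ) * ψ (n : ZMod l) else 0 :=
          sum_comm
      _ = _ := by
          refine sum_congr rfl fun d hd => ?_
          rw [← sum_filter, T8_mult (mem_Icc.mp hd).1, mul_sum, mul_sum]
          refine sum_congr rfl fun k _ => ?_
          rw [Nat.cast_mul, map_mul]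
  rw [h1, sum_mul]
  refine (norm_sum_le _ _).trans (sum_le_sum fun d _ => ?_)
  rw [norm_mul, norm_mul, Complex.norm_real, Real.norm_eq_abs]
  refine mul_le_mul_of_nonneg_left ?_ (abs_nonneg _)
  have h2 := pv l ψ hψ (M / d)
  have h3 : ‖ψ (d : ZMod l)‖ ≤ 1 := ψ.norm_le_one _
  calc ‖ψ (d : ZMod l)‖ * ‖∑ k ∈ Icc 1 (M / d), ψ (k : ZMod l)‖
      ≤ 1 * ‖∑ k ∈ Icc 1 (M / d), ψ (k : ZMod l)‖ :=
        mul_le_mul_of_nonneg_right h3 (norm_nonneg _)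
    _ ≤ _ := by rw [one_mul]; exact h2

private theorem T8_core {Q z : ℕ} {S g : ℕ → ℝ} (l : ℕ) [NeZero l] (ψ : DirichletCharacter ℂ l)
    (hψ : ψ ≠ 1) (hS : ∀ n : ℕ, 1 ≤ n → S n = ∑ d ∈ (Icc 1 Q).filter (fun d => d ∣ n), g d)
    (hr : ∀ n : ℕ, 1 ≤ n → 0 ≤ S n ∧ (rou z n → 1 ≤ S n)) (M : ℕ)
    (hup : ∑ n ∈ Icc 1 M, S n ≤ (∑ d ∈ Icc 1 Q, g d / d) * M + ∑ d ∈ Icc 1 Q, |g d|)
    (B : Finset ℕ) (hB : ∀ n ∈ B, 1 ≤ n ∧ n ≤ M ∧ rou z n ∧ ψ (n : ZMod l) = 1) :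
    2 * (B.card : ℝ) ≤ (∑ d ∈ Icc 1 Q, g d / d) * M + ∑ d ∈ Icc 1 Q, |g d| +
      (∑ d ∈ Icc 1 Q, |g d|) * KK l := by
  classical
  have h1 := T8_pv l ψ hψ hS M
  have h2 : ∑ n ∈ Icc 1 M, S n * (ψ (n : ZMod l)).re ≤ (∑ d ∈ Icc 1 Q, |g d|) * KK l := by
    refine le_trans ?_ h1
    have h3 := Complex.re_le_norm (∑ n ∈ Icc 1 M, (S n : ℂ) * ψ (n : ZMod l))
    rw [Complex.re_sum] at h3
    refine le_trans (le_of_eq ?_) h3
    refine sum_congr rfl fun n _ => ?_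
    rw [Complex.re_ofReal_mul]
  have hBs : B ⊆ Icc 1 M := fun n hn => mem_Icc.mpr ⟨(hB n hn).1, (hB n hn).2.1⟩
  have h4 : 2 * (B.card : ℝ) - ∑ n ∈ Icc 1 M, S n ≤
      ∑ n ∈ Icc 1 M, S n * (ψ (n : ZMod l)).re := by
    rw [← sum_sdiff hBs, ← sum_sdiff hBs (f := fun n => S n * (ψ (n : ZMod l)).re)]
    have h5 : ∑ n ∈ B, S n * (ψ (n : ZMod l)).re = ∑ n ∈ B, S n := by
      refine sum_congr rfl fun n hn => ?_
      rw [(hB n hn).2.2.2, Complex.one_re, mul_one]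
    have h6 : (B.card : ℝ) ≤ ∑ n ∈ B, S n := by
      rw [card_eq_sum_ones, Nat.cast_sum]
      refine sum_le_sum fun n hn => ?_
      simpa using (hr n (hB n hn).1).2 (hB n hn).2.2.1
    have h7 : -∑ n ∈ Icc 1 M \ B, S n ≤ ∑ n ∈ Icc 1 M \ B, S n * (ψ (n : ZMod l)).re := by
      rw [← sum_neg_distrib]
      refine sum_le_sum fun n hn => ?_
      have h8 := (hr n (mem_Icc.mp (mem_sdiff.mp hn).1).1).1
      have h9 : -1 ≤ (ψ (n : ZMod l)).re := by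
        have := Complex.abs_re_le_norm (ψ (n : ZMod l))
        have h10 := ψ.norm_le_one (n : ZMod l)
        exact (abs_le.mp (this.trans h10)).1
      nlinarith only [h8, h9]
    linarith only [h5, h6, h7]
  linarith only [hup, h2, h4]

open Classical in
/-- rough multiples of a prime -/
private theorem T8_pm {z : ℕ} (M p : ℕ) (hp : 1 ≤ p) :
    ((Icc 1 M).filter (fun n => rou z n ∧ p ∣ n)).card ≤
      ((Icc 1 (M / p)).filter (rou z)).card := by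
  refine card_le_card_of_injOn (fun n => n / p) ?_ ?_
  · intro n hn
    rw [mem_coe, mem_filter, mem_Icc] at hn
    obtain ⟨⟨h1, h2⟩, h3, k, rfl⟩ := hn
    rw [mem_coe, mem_filter, mem_Icc]
    dsimp only
    rw [Nat.mul_div_cancel_left _ hp]
    refine ⟨⟨Nat.pos_of_mul_pos_left h1, ?_⟩, fun q hq hqk => h3 q hq (hqk.mul_left _)⟩
    rw [Nat.le_div_iff_mul_le hp, mul_comm]
    exact h2
  · rintro a ha b hb hab
    rw [mem_coe, mem_filter] at ha hb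
    obtain ⟨k, rfl⟩ := ha.2.2
    obtain ⟨k', rfl⟩ := hb.2.2
    dsimp only at hab
    rw [Nat.mul_div_cancel_left _ hp, Nat.mul_div_cancel_left _ hp] at hab
    rw [hab]

open Classical in
/-- rough integers with a large prime factor -/
private theorem T8_big {z : ℕ} (M K : ℕ) (hK : 1 ≤ K) :
    ((Icc 1 M).filter (fun n => rou z n ∧ ∃ p : ℕ, p.Prime ∧ M / K < p ∧ p ∣ n)).card ≤
      ∑ k ∈ (Icc 1 K).filter (rou z), ((Icc 1 (M / k)).filter Nat.Prime).card := by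
  classical
  rw [← card_sigma]
  refine le_trans (card_le_card ?_) (card_image_le (f := fun x : (_ : ℕ) × ℕ => x.1 * x.2))
  intro n hn
  rw [mem_filter, mem_Icc] at hn
  obtain ⟨⟨h1, h2⟩, h3, p, hp, h4, k, rfl⟩ := hn
  have hk : 1 ≤ k := Nat.pos_of_mul_pos_left h1
  rw [mem_image]
  refine ⟨⟨k, p⟩, ?_, mul_comm _ _⟩
  rw [mem_sigma, mem_filter, mem_Icc, mem_filter, mem_Icc]
  refine ⟨⟨⟨hk, ?_⟩, fun q hq hqk => h3 q hq (hqk.mul_left _)⟩, ⟨hp.one_lt.le, ?_⟩, hp⟩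
  · by_contra hlt
    push Not at hlt
    have h5 : M < K * (M / K + 1) := by
      have := Nat.lt_mul_div_succ M hK
      simpa using this
    have h6 : K * (M / K + 1) ≤ p * k := by
      rw [mul_comm p k]
      exact Nat.mul_le_mul hlt.le h4
    omega
  · dsimp only
    rw [Nat.le_div_iff_mul_le hk]
    exact h2

open Classical in
/-- the exceptional rough integers -/
private theorem T8_bad {z : ℕ} (T : ℕ → Prop) (M K : ℕ)
    (hK : 1 ≤ K) :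
    ((Icc 1 M).filter (rou z)).card ≤
      ((Icc 1 M).filter (fun n => rou z n ∧ ∀ p : ℕ, p.Prime → p ∣ n → T p)).card +
      (∑ p ∈ (Ioc z (M / K)).filter (fun p => p.Prime ∧ ¬ T p),
        ((Icc 1 (M / p)).filter (rou z)).card +
      ∑ k ∈ (Icc 1 K).filter (rou z), ((Icc 1 (M / k)).filter Nat.Prime).card) := by
  classical
  have h1 : (Icc 1 M).filter (rou z) ⊆
      (Icc 1 M).filter (fun n => rou z n ∧ ∀ p : ℕ, p.Prime → p ∣ n → T p) ∪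
      ((((Ioc z (M / K)).filter (fun p => p.Prime ∧ ¬ T p)).biUnion
        fun p => (Icc 1 M).filter (fun n => rou z n ∧ p ∣ n)) ∪
      (Icc 1 M).filter (fun n => rou z n ∧ ∃ p : ℕ, p.Prime ∧ M / K < p ∧ p ∣ n)) := by
    intro n hn
    rw [mem_filter] at hn
    obtain ⟨hn1, hn2⟩ := hn
    rw [mem_union, mem_union, mem_biUnion]
    by_cases h : ∀ p : ℕ, p.Prime → p ∣ n → T p
    · exact Or.inl (mem_filter.mpr ⟨hn1, hn2, h⟩)
    · push Not at h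
      obtain ⟨p, hp, hpn, hT⟩ := h
      right
      rcases Nat.lt_or_ge (M / K) p with h2 | h2
      · exact Or.inr (mem_filter.mpr ⟨hn1, hn2, p, hp, h2, hpn⟩)
      · refine Or.inl ⟨p, ?_, mem_filter.mpr ⟨hn1, hn2, hpn⟩⟩
        rw [mem_filter, mem_Ioc]
        exact ⟨⟨hn2 p hp hpn, h2⟩, hp, hT⟩
  refine (card_le_card h1).trans ((card_union_le _ _).trans (Nat.add_le_add_left ?_ _))
  refine (card_union_le _ _).trans (Nat.add_le_add (card_biUnion_le.trans ?_) (T8_big M K hK))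
  refine sum_le_sum fun p hp => T8_pm M p ?_
  rw [mem_filter] at hp
  exact hp.2.1.one_lt.le

private theorem T8_cheb (n : ℕ) (hn : 2 ≤ n) :
    (((Icc 1 n).filter Nat.Prime).card : ℝ) ≤ 6 * n / Real.log n := by
  have hn1 : (1 : ℝ) < n := by exact_mod_cast hn
  have hn0 : (0 : ℝ) < n := by linarith only [hn1]
  have h1 := Chebyshev.pi_le_log4_mul_div (x := (n : ℝ)) hn1
  rw [Nat.floor_natCast] at h1
  have h2 : ((Icc 1 n).filter Nat.Prime).card ≤ Nat.primeCounting n := by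
    rw [Nat.primeCounting, Nat.primeCounting', Nat.count_eq_card_filter_range]
    refine card_le_card fun p hp => ?_
    rw [mem_filter, mem_Icc] at hp
    rw [mem_filter, mem_range]
    exact ⟨by omega, hp.2⟩
  have hlog : 0 < Real.log n := Real.log_pos hn1
  have h3 : Real.log (√n) = Real.log n / 2 := Real.log_sqrt hn0.le
  rw [h3] at h1
  have hs : 0 < √(n : ℝ) := Real.sqrt_pos.2 hn0
  have h4 : Real.log n ≤ 2 * √n := by
    have := Real.log_le_sub_one_of_pos hs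
    rw [h3] at this
    linarith only [this]
  have h5 : √(n : ℝ) ≤ 2 * n / Real.log n := by
    rw [le_div_iff₀ hlog]
    calc √(n : ℝ) * Real.log n ≤ √n * (2 * √n) := mul_le_mul_of_nonneg_left h4 hs.le
      _ = 2 * (√n * √n) := by ring
      _ = 2 * n := by rw [Real.mul_self_sqrt hn0.le]
  have h4' : Real.log 4 ≤ 2 := by
    have h : Real.log 4 = 2 * Real.log 2 := by
      rw [show (4 : ℝ) = 2 ^ 2 by norm_num, Real.log_pow]
      norm_num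
    have := Real.log_two_lt_d9
    linarith only [h, this]
  have h6 : Real.log 4 * n / (Real.log n / 2) ≤ 4 * n / Real.log n := by
    rw [div_div_eq_mul_div]
    refine div_le_div_of_nonneg_right ?_ hlog.le
    nlinarith only [h4']
  calc (((Icc 1 n).filter Nat.Prime).card : ℝ) ≤ (Nat.primeCounting n : ℝ) := by exact_mod_cast h2
    _ ≤ Real.log 4 * n / (Real.log n / 2) + √n := h1
    _ ≤ 4 * n / Real.log n + 2 * n / Real.log n := add_le_add h6 h5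
    _ = 6 * n / Real.log n := by ring

private theorem T8_mer : ∃ K0 : ℕ, ∀ K : ℕ, K0 ≤ K → 1 ≤ 2 * Real.log K * T8_pi K := by
  have h1 : (1 / 2 : ℝ) < Real.exp (-Real.eulerMascheroniConstant) := by
    have h2 := Real.eulerMascheroniConstant_lt_two_thirds
    have h3 : Real.exp (-(2 / 3 : ℝ)) ≤ Real.exp (-Real.eulerMascheroniConstant) :=
      Real.exp_le_exp.mpr (by linarith only [h2])
    refine lt_of_lt_of_le ?_ h3
    have h4 : (1 / 2 : ℝ) = Real.exp (-Real.log 2) := by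
      rw [Real.exp_neg, Real.exp_log (by norm_num)]
      norm_num
    rw [h4]
    exact Real.exp_lt_exp.mpr (by linarith only [Real.log_two_gt_d9])
  have h5 := Pool.Agent.H36.IS.mertens3.eventually (lt_mem_nhds h1)
  obtain ⟨K0, hK0⟩ := Filter.eventually_atTop.mp h5
  refine ⟨K0, fun K hK => ?_⟩
  have h6 := hK0 K hK
  unfold T8_pi
  linarith only [h6]

private theorem T8_E5 : ∃ X0 : ℕ, ∀ X : ℕ, X0 ≤ X → ∀ M : ℕ, (M : ℝ) ≤ (X : ℝ) ^ (127 / 125 : ℝ) →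
    ∑ p ∈ Pr ⌊(X : ℝ) ^ (49 / 50 : ℝ)⌋₊ M, 1 / (p : ℝ) ≤ 39 / 1000 := by
  obtain ⟨X1, h1⟩ := grow 65536 0 (979 / 1000) (by norm_num)
  obtain ⟨X2, h2⟩ := grow 2 0 (1 / 1000) (by norm_num)
  obtain ⟨X3, h3⟩ := Filter.eventually_atTop.mp
    ((Real.tendsto_log_atTop.comp tendsto_natCast_atTop_atTop).eventually_ge_atTop (1000 : ℝ) :
      ∀ᶠ X : ℕ in Filter.atTop, 1000 ≤ (Real.log ∘ (Nat.cast : ℕ → ℝ)) X)
  refine ⟨max (max X1 X2) (max X3 2), fun X hX M hM => ?_⟩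
  simp only [max_le_iff] at hX
  obtain ⟨⟨hX1, hX2⟩, hX3, hX4⟩ := hX
  have g1 := h1 X hX1
  have g2 := h2 X hX2
  have g3 : 1000 ≤ Real.log X := h3 X hX3
  rw [pow_zero, mul_one] at g1 g2
  have hx : (2 : ℝ) ≤ X := by exact_mod_cast hX4
  have hx0 : (0 : ℝ) < X := by linarith only [hx]
  obtain ⟨w, hw⟩ : ∃ w, w = ⌊(X : ℝ) ^ (49 / 50 : ℝ)⌋₊ := ⟨_, rfl⟩
  obtain ⟨l, hl⟩ : ∃ l, l = Real.log X := ⟨_, rfl⟩
  rw [← hl] at g3
  have a1 : (X : ℝ) ^ (979 / 1000 : ℝ) ≤ w := by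
    have e1 : (X : ℝ) ^ (49 / 50 : ℝ) = (X : ℝ) ^ (979 / 1000 : ℝ) * (X : ℝ) ^ (1 / 1000 : ℝ) := by
      rw [← Real.rpow_add hx0]
      norm_num
    have e2 : (X : ℝ) ^ (49 / 50 : ℝ) < w + 1 := by
      rw [hw]
      exact Nat.lt_floor_add_one _
    have e3 : (1 : ℝ) ≤ (X : ℝ) ^ (979 / 1000 : ℝ) := by linarith only [g1]
    rw [e1] at e2
    nlinarith only [g1, g2, e2]
  have hw65 : 65536 ≤ w := by
    have : (65536 : ℝ) ≤ w := g1.trans a1
    exact_mod_cast this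
  rw [← hw]
  rcases Nat.lt_or_ge M w with hlt | hge
  · have : Pr w M = ∅ := by
      ext p
      rw [mem_Pr]
      simp only [notMem_empty, iff_false]
      omega
    rw [this, sum_empty]
    norm_num
  · have b1 := mertens_wz hw65 hge
    have hlw : 979 / 1000 * l ≤ Real.log w := by
      rw [hl, ← Real.log_rpow hx0]
      exact Real.log_le_log (by positivity) a1
    have hlM : Real.log M ≤ 127 / 125 * l := by
      rw [hl, ← Real.log_rpow hx0]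
      refine Real.log_le_log ?_ hM
      have : 0 < M := by omega
      exact_mod_cast this
    have hlw0 : 0 < Real.log w := by nlinarith only [g3, hlw]
    have hlM0 : 0 < Real.log M := by
      refine Real.log_pos ?_
      have : 1 < M := by omega
      exact_mod_cast this
    have b2 : Real.log M / Real.log w ≤ 1016 / 979 := by
      rw [div_le_div_iff₀ hlw0 (by norm_num)]
      nlinarith only [hlw, hlM]
    have b3 := Real.log_le_sub_one_of_pos (div_pos hlM0 hlw0)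
    have b4 : 0.2295 / Real.log w ≤ 1 / 1000 := by
      rw [div_le_div_iff₀ hlw0 (by norm_num)]
      nlinarith only [g3, hlw]
    refine b1.trans ?_
    have : (1016 / 979 - 1 : ℝ) + 1 / 1000 ≤ 39 / 1000 := by norm_num
    linarith only [b2, b3, b4]

/-- numbers -/
private theorem T8_num (κ c : ℝ) (hκ : 0 < κ) (hκ1 : κ ≤ 1 / 1000) (hc : 0 < c) (m0 K0 : ℕ) :
    ∃ X0 : ℕ, ∀ X : ℕ, X0 ≤ X → ∀ x l : ℝ, x = X → l = Real.log X →
      ∀ m M z K : ℕ, m = ⌊x ^ (101 / 50 : ℝ)⌋₊ → M = M1 m → z = zN κ m →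
        K = ⌊x ^ (3 / 500 : ℝ)⌋₊ →
      2 ≤ x ∧ 1 ≤ l ∧ m0 ≤ m ∧ Real.log m ≤ 3 * l ∧ (m : ℝ) ^ (1 / 500 : ℝ) ≤ x ^ (41 / 10000 : ℝ) ∧
      (M : ℝ) ≤ x ^ (127 / 125 : ℝ) ∧ x ^ (101 / 100 : ℝ) ≤ M ∧ x ^ κ ≤ z ∧ z ≤ K ∧ K0 ≤ K ∧
      (K : ℝ) ≤ x ^ (3 / 500 : ℝ) ∧ x ^ (11 / 2000 : ℝ) ≤ K ∧ 4000 * l ≤ x ^ κ ∧
      3000 * l ≤ c * x ^ (14 / 10000 : ℝ) ∧ 20 * l ≤ c * x ^ (51 / 10000 : ℝ) ∧
      x ^ (1003 / 1000 : ℝ) + 1 ≤ x ^ (1004 / 1000 : ℝ) ∧ 2 ≤ x ^ (1003 / 1000 : ℝ) ∧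
      x ^ (49 / 50 : ℝ) + 1 ≤ x ^ (9801 / 10000 : ℝ) := by
  obtain ⟨Y1, h1⟩ := grow 2 0 (1 / 1000000) (by norm_num)
  obtain ⟨Y2, h2⟩ := grow 2 0 κ hκ
  obtain ⟨Y3, h3⟩ := grow 4000 1 κ hκ
  obtain ⟨Y4, h4⟩ := grow (3000 / c) 1 (14 / 10000) (by norm_num)
  obtain ⟨Y5, h5⟩ := grow (20 / c) 1 (51 / 10000) (by norm_num)
  obtain ⟨Y6, h6⟩ := grow K0 0 (11 / 2000) (by norm_num)
  refine ⟨max (max (max Y1 Y2) (max Y3 Y4)) (max (max Y5 Y6) (max m0 8)), ?_⟩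
  intro X hX x l hx hl m M z K hm hM hz hK
  simp only [max_le_iff] at hX
  obtain ⟨⟨⟨q1, q2⟩, q3, q4⟩, ⟨q5, q6⟩, q7, q8⟩ := hX
  have g1 := h1 X q1
  have g2 := h2 X q2
  have g3 := h3 X q3
  have g4 := h4 X q4
  have g5 := h5 X q5
  have g6 := h6 X q6
  rw [← hl, ← hx] at g3 g4 g5
  rw [pow_zero, mul_one, ← hx] at g1 g2 g6
  rw [pow_one] at g3 g4 g5
  have hx8 : (8 : ℝ) ≤ x := by rw [hx]; exact_mod_cast q8
  have hx0 : 0 < x := by linarith only [hκ, hκ1, hx8]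
  have hx1 : 1 ≤ x := by linarith only [hκ, hκ1, hx8]
  have hl1 : 1 ≤ l := by
    rw [hl, ← hx, Real.le_log_iff_exp_le hx0]
    have := Real.exp_one_lt_d9
    linarith only [hκ, hκ1, hx8, this]
  -- a general step
  have step : ∀ a b : ℝ, a + 1 / 1000000 ≤ b → 0 ≤ a → x ^ a + 1 ≤ x ^ b := by
    intro a b hab ha
    have e1 : x ^ (a + 1 / 1000000) ≤ x ^ b := Real.rpow_le_rpow_of_exponent_le hx1 hab
    rw [Real.rpow_add hx0] at e1
    have e2 : 1 ≤ x ^ a := Real.one_le_rpow hx1 ha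
    nlinarith only [g1, e1, e2, hκ, hκ1]
  -- m
  have m1 : (m : ℝ) ≤ x ^ (101 / 50 : ℝ) := by
    rw [hm]
    exact Nat.floor_le (by positivity)
  have m2 : x ^ (201 / 100 : ℝ) ≤ m := by
    have e1 : x ^ (101 / 50 : ℝ) < m + 1 := by
      rw [hm]
      exact Nat.lt_floor_add_one _
    have e2 := step (201 / 100) (101 / 50) (by norm_num) (by norm_num)
    linarith only [e1, e2]
  have m3 : x ≤ m := by
    refine le_trans ?_ m2
    calc x = x ^ (1 : ℝ) := (Real.rpow_one x).symm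
      _ ≤ x ^ (201 / 100 : ℝ) := Real.rpow_le_rpow_of_exponent_le hx1 (by norm_num)
  have hm0 : (0 : ℝ) < m := by linarith only [hκ, hκ1, hx8, m3]
  have c1 : m0 ≤ m := by
    have : (X : ℝ) ≤ m := by rw [← hx]; exact m3
    have : X ≤ m := by exact_mod_cast this
    omega
  have c2 : Real.log m ≤ 3 * l := by
    have e1 := Real.log_le_log hm0 m1
    rw [Real.log_rpow hx0, hx, ← hl] at e1
    linarith only [hκ, hκ1, hl1, e1]
  have mp : ∀ e : ℝ, 0 ≤ e → (m : ℝ) ^ e ≤ x ^ (101 / 50 * e) := by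
    intro e he
    rw [Real.rpow_mul hx0.le]
    exact Real.rpow_le_rpow hm0.le m1 he
  have mq : ∀ e : ℝ, 0 ≤ e → x ^ (201 / 100 * e) ≤ (m : ℝ) ^ e := by
    intro e he
    rw [Real.rpow_mul hx0.le]
    exact Real.rpow_le_rpow (by positivity) m2 he
  have c3 : (m : ℝ) ^ (1 / 500 : ℝ) ≤ x ^ (41 / 10000 : ℝ) :=
    (mp _ (by norm_num)).trans (Real.rpow_le_rpow_of_exponent_le hx1 (by norm_num))
  -- M
  have c4 : (M : ℝ) ≤ x ^ (127 / 125 : ℝ) := by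
    have e1 : (M : ℝ) ≤ (m : ℝ) ^ (201 / 400 : ℝ) := by
      rw [hM]
      exact Nat.floor_le (by positivity)
    exact e1.trans ((mp _ (by norm_num)).trans
      (Real.rpow_le_rpow_of_exponent_le hx1 (by norm_num)))
  have c5 : x ^ (101 / 100 : ℝ) ≤ M := by
    have e1 : (m : ℝ) ^ (201 / 400 : ℝ) < M + 1 := by
      rw [hM]
      exact Nat.lt_floor_add_one _
    have e2 := mq (201 / 400) (by norm_num)
    have e3 := step (101 / 100) (201 / 100 * (201 / 400)) (by norm_num) (by norm_num)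
    linarith only [e1, e2, e3]
  -- z
  have c6 : x ^ κ ≤ z := by
    have e1 : (m : ℝ) ^ κ < z + 1 := by
      rw [hz]
      exact Nat.lt_floor_add_one _
    have e2 := mq κ hκ.le
    have e3 : x ^ (201 / 100 * κ) = x ^ κ * x ^ (101 / 100 * κ) := by
      rw [← Real.rpow_add hx0]
      ring_nf
    have e4 : x ^ κ ≤ x ^ (101 / 100 * κ) :=
      Real.rpow_le_rpow_of_exponent_le hx1 (by linarith only [hκ])
    rw [e3] at e2
    nlinarith only [hκ1, g3, hl1, e2, e4, hκ, e1, g2]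
  have z1 : (z : ℝ) ≤ x ^ (3 / 500 : ℝ) := by
    have e1 : (z : ℝ) ≤ (m : ℝ) ^ κ := by
      rw [hz]
      exact Nat.floor_le (by positivity)
    exact e1.trans ((mp κ hκ.le).trans (Real.rpow_le_rpow_of_exponent_le hx1 (by linarith only [hκ, hκ1])))
  have c7 : z ≤ K := by
    rw [hK]
    exact Nat.le_floor z1
  have c9 : (K : ℝ) ≤ x ^ (3 / 500 : ℝ) := by
    rw [hK]
    exact Nat.floor_le (by positivity)
  have c10 : x ^ (11 / 2000 : ℝ) ≤ K := by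
    have e1 : x ^ (3 / 500 : ℝ) < K + 1 := by
      rw [hK]
      exact Nat.lt_floor_add_one _
    have e2 := step (11 / 2000) (3 / 500) (by norm_num) (by norm_num)
    linarith only [e1, e2]
  have c8 : K0 ≤ K := by
    have : (K0 : ℝ) ≤ K := g6.trans c10
    exact_mod_cast this
  refine ⟨by linarith only [hκ, hκ1, hx8], hl1, c1, c2, c3, c4, c5, c6, c7, c8, c9, c10, by linarith only [hκ, hκ1, g3], ?_, ?_,
    step _ _ (by norm_num) (by norm_num), ?_, step _ _ (by norm_num) (by norm_num)⟩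
  · rw [div_mul_eq_mul_div, div_le_iff₀ hc] at g4
    linarith only [hκ, hκ1, g4]
  · rw [div_mul_eq_mul_div, div_le_iff₀ hc] at g5
    linarith only [hκ, hκ1, g5]
  · have e1 : x ^ (1 : ℝ) ≤ x ^ (1003 / 1000 : ℝ) :=
      Real.rpow_le_rpow_of_exponent_le hx1 (by norm_num)
    rw [Real.rpow_one] at e1
    linarith only [hκ, hκ1, hx8, e1]

private theorem T8_sub {E A B : Finset ℕ} {f : ℕ → ℝ} (hf : ∀ n, 0 ≤ f n) (h : E ⊆ A ∪ B) :
    ∑ n ∈ E, f n ≤ ∑ n ∈ A, f n + ∑ n ∈ B, f n := by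
  have h1 : ∑ n ∈ E, f n ≤ ∑ n ∈ A ∪ B, f n := sum_le_sum_of_subset_of_nonneg h fun n _ _ => hf n
  have h2 := sum_union_inter (s₁ := A) (s₂ := B) (f := f)
  have h3 : 0 ≤ ∑ n ∈ A ∩ B, f n := sum_nonneg fun n _ => hf n
  linarith

private theorem T8_div {X m z : ℕ} (hm : 1 ≤ m) (hmX : m ≤ X) {l : ℝ} (hl : l = Real.log X)
    (hl1 : 1 ≤ l) (hz : 4000 * l ≤ z) :
    ∑ p ∈ m.primeFactors.filter (fun p => z < p), 1 / (p : ℝ) ≤ 1 / 2000 := by
  have hz0 : (0 : ℝ) < z := by linarith only [hl1, hz]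
  have h1 := Pool.Agent.H78.PH.omega_le X m hm hmX
  rw [← hl] at h1
  have h2 : ∑ p ∈ m.primeFactors.filter (fun p => z < p), 1 / (p : ℝ) ≤
      ∑ _p ∈ m.primeFactors.filter (fun p => z < p), 1 / (z : ℝ) := by
    refine sum_le_sum fun p hp => ?_
    rw [mem_filter] at hp
    refine one_div_le_one_div_of_le hz0 ?_
    exact_mod_cast hp.2.le
  rw [sum_const, nsmul_eq_mul] at h2
  have h3 : ((m.primeFactors.filter (fun p => z < p)).card : ℝ) ≤ 2 * l := by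
    refine le_trans ?_ h1
    exact_mod_cast card_filter_le _ _
  have h4 : ((m.primeFactors.filter (fun p => z < p)).card : ℝ) * (1 / (z : ℝ)) ≤
      2 * l * (1 / z) := mul_le_mul_of_nonneg_right h3 (by positivity)
  have h5 : 2 * l * (1 / z) ≤ 1 / 2000 := by
    rw [mul_one_div, div_le_div_iff₀ hz0 (by norm_num)]
    linarith only [hz]
  linarith only [h2, h4, h5]

/-- the exceptional primes of one character -/
private theorem T8_one {X m z M : ℕ} [NeZero m] (χ : DirichletCharacter ℂ m) {κ x : ℝ} (hx : x = X)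
    (hx2 : 2 ≤ x) (hκ : 0 < κ) (hmX : m ≤ X) (hXm : x ^ (99 / 100 : ℝ) ≤ m) (hz : x ^ κ ≤ z) :
    ∀ p : ℕ, p.Prime → z < p → p ≤ M → χ (p : ZMod m) ≠ -1 →
      p ∈ Bad m χ κ (1 - 1 / 100) ∪ (m.primeFactors.filter (fun p => z < p) ∪
        Pr ⌊x ^ (49 / 50 : ℝ)⌋₊ M) := by
  intro p hp hzp hpM hne
  have hx0 : 0 < x := by linarith only [hx2]
  rw [mem_union, mem_union]
  by_cases hpm : p ∣ m
  · exact Or.inr (Or.inl (mem_filter.mpr ⟨Nat.mem_primeFactors.mpr ⟨hp, hpm, NeZero.ne m⟩, hzp⟩))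
  · by_cases h1 : (p : ℝ) ≤ (m : ℝ) ^ (1 - 1 / 100 : ℝ)
    · left
      rw [mem_Bad]
      refine ⟨hp, hpm, ?_, h1, hne⟩
      have h2 : (m : ℝ) ^ κ ≤ x ^ κ := by
        refine Real.rpow_le_rpow (by positivity) ?_ hκ.le
        rw [hx]
        exact_mod_cast hmX
      have h3 : (z : ℝ) < p := by exact_mod_cast hzp
      linarith only [hz, h2, h3]
    · right; right
      push Not at h1
      rw [mem_Pr]
      refine ⟨⟨?_, hpM⟩, hp⟩
      have h2 : x ^ (9801 / 10000 : ℝ) ≤ (m : ℝ) ^ (1 - 1 / 100 : ℝ) := by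
        have e : (9801 / 10000 : ℝ) = 99 / 100 * (1 - 1 / 100) := by norm_num
        rw [e, Real.rpow_mul hx0.le]
        exact Real.rpow_le_rpow (by positivity) hXm (by norm_num)
      have h3 : x ^ (49 / 50 : ℝ) ≤ x ^ (9801 / 10000 : ℝ) :=
        Real.rpow_le_rpow_of_exponent_le (by linarith only [hx2]) (by norm_num)
      have h4 : (⌊x ^ (49 / 50 : ℝ)⌋₊ : ℝ) ≤ x ^ (49 / 50 : ℝ) := Nat.floor_le (by positivity)
      have h5 : (⌊x ^ (49 / 50 : ℝ)⌋₊ : ℝ) < p := by linarith only [h1, h2, h3, h4]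
      exact_mod_cast h5

private theorem T8_cond {X m : ℕ} {x : ℝ} (hx : x = X) (h : (X : ℝ) ^ (1 - 1 / 100 : ℝ) ≤ m) :
    x ^ (99 / 100 : ℝ) ≤ m := by
  rw [hx]
  convert h using 2
  norm_num

private theorem T8_mulp {m1 m2 : ℕ} (χ1 : DirichletCharacter ℂ m1) (χ2 : DirichletCharacter ℂ m2) :
    ∀ n : ℕ, 1 ≤ n → (∀ p : ℕ, p.Prime → p ∣ n → χ1 (p : ZMod m1) = -1 ∧ χ2 (p : ZMod m2) = -1) →
      χ1 (n : ZMod m1) * χ2 (n : ZMod m2) = 1 := by
  intro n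
  induction n using Nat.recOnMul with
  | zero => intro h; omega
  | one => intro _ _; simp
  | prime p hp =>
    intro _ h
    obtain ⟨h1, h2⟩ := h p hp dvd_rfl
    rw [h1, h2]
    norm_num
  | mul a b ha hb =>
    intro h1 h2
    have ha1 : 1 ≤ a := Nat.pos_of_mul_pos_right h1
    have hb1 : 1 ≤ b := Nat.pos_of_mul_pos_left h1
    have e1 := ha ha1 fun p hp hpa => h2 p hp (hpa.mul_right _)
    have e2 := hb hb1 fun p hp hpb => h2 p hp (hpb.mul_left _)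
    rw [Nat.cast_mul, Nat.cast_mul, map_mul, map_mul]
    calc _ = (χ1 (a : ZMod m1) * χ2 (a : ZMod m2)) * (χ1 (b : ZMod m1) * χ2 (b : ZMod m2)) := by ring
      _ = 1 := by rw [e1, e2, one_mul]

/-- the product of the two characters -/
private theorem T8_psi {m1 m2 : ℕ} [NeZero m1] [NeZero m2] [NeZero (Nat.lcm m1 m2)]
    (χ1 : DirichletCharacter ℂ m1) (χ2 : DirichletCharacter ℂ m2) (n : ℕ) (hn : 1 ≤ n)
    (h : ∀ p : ℕ, p.Prime → p ∣ n → χ1 (p : ZMod m1) = -1 ∧ χ2 (p : ZMod m2) = -1) :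
    (DirichletCharacter.changeLevel (Nat.dvd_lcm_left m1 m2) χ1 *
      DirichletCharacter.changeLevel (Nat.dvd_lcm_right m1 m2) χ2)
        (n : ZMod (Nat.lcm m1 m2)) = 1 := by
  have h1 := T8_mulp χ1 χ2 n hn h
  have hc1 : n.Coprime m1 := by
    rw [← ZMod.isUnit_iff_coprime]
    by_contra hu
    rw [χ1.map_nonunit hu, zero_mul] at h1
    exact zero_ne_one h1
  have hc2 : n.Coprime m2 := by
    rw [← ZMod.isUnit_iff_coprime]
    by_contra hu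
    rw [χ2.map_nonunit hu, mul_zero] at h1
    exact zero_ne_one h1
  have hc : n.Coprime (Nat.lcm m1 m2) :=
    Nat.Coprime.coprime_dvd_right (Nat.lcm_dvd_mul m1 m2) (hc1.mul_right hc2)
  have hi : IsCoprime (n : ℤ) (Nat.lcm m1 m2 : ℕ) := Nat.isCoprime_iff_coprime.mpr hc
  have e1 := DirichletCharacter.changeLevel_eq_cast_of_dvd' χ1 (Nat.dvd_lcm_left m1 m2) hi
  have e2 := DirichletCharacter.changeLevel_eq_cast_of_dvd' χ2 (Nat.dvd_lcm_right m1 m2) hi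
  rw [MulChar.mul_apply]
  rw [Int.cast_natCast] at e1 e2
  rw [e1, e2, Int.cast_natCast, Int.cast_natCast]
  exact h1

private theorem T8_fin {m1 m2 : ℕ} [NeZero m1] [NeZero m2] [NeZero (Nat.lcm m1 m2)]
    (χ1 : DirichletCharacter ℂ m1) (χ2 : DirichletCharacter ℂ m2) (h2 : χ2 ^ 2 = 1)
    (h : DirichletCharacter.changeLevel (Nat.dvd_lcm_left m1 m2) χ1 *
      DirichletCharacter.changeLevel (Nat.dvd_lcm_right m1 m2) χ2 = 1) :
    χ1.conductor = χ2.conductor ∧ χ1 (-1) = χ2 (-1) := by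
  have e1 : DirichletCharacter.changeLevel (Nat.dvd_lcm_right m1 m2) χ2 *
      DirichletCharacter.changeLevel (Nat.dvd_lcm_right m1 m2) χ2 = 1 := by
    rw [← map_mul, ← pow_two, h2, map_one]
  have e2 : DirichletCharacter.changeLevel (Nat.dvd_lcm_left m1 m2) χ1 =
      DirichletCharacter.changeLevel (Nat.dvd_lcm_right m1 m2) χ2 :=
    mul_right_cancel (h.trans e1.symm)
  refine ⟨?_, ?_⟩
  · rw [← DirichletCharacter.conductor_changeLevel χ1 (Nat.dvd_lcm_left m1 m2),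
      ← DirichletCharacter.conductor_changeLevel χ2 (Nat.dvd_lcm_right m1 m2), e2]
  · have hi : IsCoprime (-1 : ℤ) (Nat.lcm m1 m2 : ℕ) := isCoprime_one_left.neg_left
    have f1 := DirichletCharacter.changeLevel_eq_cast_of_dvd' χ1 (Nat.dvd_lcm_left m1 m2) hi
    have f2 := DirichletCharacter.changeLevel_eq_cast_of_dvd' χ2 (Nat.dvd_lcm_right m1 m2) hi
    rw [e2, f2] at f1
    push_cast at f1
    exact f1.symm

open Classical in
/-- the sum over the exceptional primes -/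
private theorem T8_sumE {z M D : ℕ} {V G x l c : ℝ} {T : ℕ → Prop}
    (hcnt : ∀ N : ℕ, (((Icc 1 N).filter (rou z)).card : ℝ) ≤ V * N + G) (hV : 0 ≤ V) (hG : 0 ≤ G)
    (hG1 : G ≤ x ^ (41 / 10000 : ℝ)) (hx : 2 ≤ x) (hl : 1 ≤ l) (hD : x ^ (11 / 2000 : ℝ) ≤ D)
    (hVc : c / (3 * l) ≤ V) (h3 : 3000 * l ≤ c * x ^ (14 / 10000 : ℝ)) (s : ℝ)
    (hs : ∑ p ∈ (Ioc z (M / D)).filter (fun p => p.Prime ∧ ¬ T p), 1 / (p : ℝ) ≤ s) :
    ∑ p ∈ (Ioc z (M / D)).filter (fun p => p.Prime ∧ ¬ T p),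
      (((Icc 1 (M / p)).filter (rou z)).card : ℝ) ≤ (s + 1 / 1000) * (V * M) := by
  have hx0 : 0 < x := by linarith only [hx]
  have hD0 : (0 : ℝ) < D := lt_of_lt_of_le (by positivity) hD
  have hM0 : (0 : ℝ) ≤ M := Nat.cast_nonneg M
  have h4 : ∑ p ∈ (Ioc z (M / D)).filter (fun p => p.Prime ∧ ¬ T p),
      (((Icc 1 (M / p)).filter (rou z)).card : ℝ) ≤
      ∑ p ∈ (Ioc z (M / D)).filter (fun p => p.Prime ∧ ¬ T p), (V * M * (1 / (p : ℝ)) + G) := by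
    refine sum_le_sum fun p hp => (hcnt (M / p)).trans ?_
    have h5 : ((M / p : ℕ) : ℝ) ≤ (M : ℝ) / p := Nat.cast_div_le
    have h6 := mul_le_mul_of_nonneg_left h5 hV
    have h7 : V * M * (1 / (p : ℝ)) = V * ((M : ℝ) / p) := by ring
    rw [h7]
    linarith only [h6]
  rw [sum_add_distrib, ← mul_sum, sum_const, nsmul_eq_mul] at h4
  have h8 : ((((Ioc z (M / D)).filter (fun p => p.Prime ∧ ¬ T p)).card : ℕ) : ℝ) ≤ (M : ℝ) / D := by
    have h9 := card_filter_le (Ioc z (M / D)) (fun p => p.Prime ∧ ¬ T p)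
    rw [Nat.card_Ioc] at h9
    have h10 : ((Ioc z (M / D)).filter (fun p => p.Prime ∧ ¬ T p)).card ≤ M / D :=
      h9.trans (Nat.sub_le _ _)
    have h11 : ((((Ioc z (M / D)).filter (fun p => p.Prime ∧ ¬ T p)).card : ℕ) : ℝ) ≤
        ((M / D : ℕ) : ℝ) := by exact_mod_cast h10
    exact h11.trans Nat.cast_div_le
  have h12 : ((((Ioc z (M / D)).filter (fun p => p.Prime ∧ ¬ T p)).card : ℕ) : ℝ) * G ≤
      1 / 1000 * (V * M) := by
    have a1 : (M : ℝ) / D ≤ M / x ^ (11 / 2000 : ℝ) :=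
      div_le_div_of_nonneg_left hM0 (by positivity) hD
    have a2 := mul_le_mul (h8.trans a1) hG1 hG (by positivity)
    refine a2.trans ?_
    have a3 : x ^ (11 / 2000 : ℝ) = x ^ (41 / 10000 : ℝ) * x ^ (14 / 10000 : ℝ) := by
      rw [← Real.rpow_add hx0]
      norm_num
    have a4 : (M : ℝ) / x ^ (11 / 2000 : ℝ) * x ^ (41 / 10000 : ℝ) = M / x ^ (14 / 10000 : ℝ) := by
      rw [a3]
      field_simp
    rw [a4]
    have hy : 0 < x ^ (14 / 10000 : ℝ) := by positivity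
    have a5 : 1 / x ^ (14 / 10000 : ℝ) ≤ 1 / 1000 * V := by
      have a6 : 1 / 1000 * (c / (3 * l)) ≤ 1 / 1000 * V := by linarith only [hVc]
      refine le_trans ?_ a6
      have a7 : 1 / 1000 * (c / (3 * l)) = c / (3000 * l) := by
        field_simp
        ring
      rw [a7, div_le_div_iff₀ hy (by linarith only [hl])]
      linarith only [h3]
    calc (M : ℝ) / x ^ (14 / 10000 : ℝ) = 1 / x ^ (14 / 10000 : ℝ) * M := by ring
      _ ≤ 1 / 1000 * V * M := mul_le_mul_of_nonneg_right a5 hM0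
      _ = _ := by ring
  have h13 : V * M * ∑ p ∈ (Ioc z (M / D)).filter (fun p => p.Prime ∧ ¬ T p), 1 / (p : ℝ) ≤
      V * M * s := mul_le_mul_of_nonneg_left hs (by positivity)
  linarith only [h4, h12, h13]

open Classical in
/-- the sum over the large primes -/
private theorem T8_sumK {z M D : ℕ} {V x l : ℝ} (hx : 2 ≤ x) (hl : 1 ≤ l) (hlx : l = Real.log x)
    (hM : x ^ (101 / 100 : ℝ) ≤ M) (hD1 : 1 ≤ D) (hD : (D : ℝ) ≤ x ^ (3 / 500 : ℝ))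
    (hs : x ^ (1003 / 1000 : ℝ) + 1 ≤ x ^ (1004 / 1000 : ℝ)) (hs2 : 2 ≤ x ^ (1003 / 1000 : ℝ))
    (hmer : 1 ≤ 2 * Real.log D * T8_pi D) (hV : 0 ≤ V)
    (hdens : (∑ k ∈ (Icc 1 D).filter (rou z), 1 / (k : ℝ)) * T8_pi D ≤ V) :
    ∑ k ∈ (Icc 1 D).filter (rou z), (((Icc 1 (M / k)).filter Nat.Prime).card : ℝ) ≤
      72 / 1000 * (V * M) := by
  have hx0 : 0 < x := by linarith only [hx]
  have hx1 : 1 ≤ x := by linarith only [hx]
  have hM0 : (0 : ℝ) ≤ M := Nat.cast_nonneg M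
  obtain ⟨R, hR⟩ : ∃ R, R = ∑ k ∈ (Icc 1 D).filter (rou z), 1 / (k : ℝ) := ⟨_, rfl⟩
  have hR0 : 0 ≤ R := by rw [hR]; exact sum_nonneg fun _ _ => by positivity
  have h1 : ∑ k ∈ (Icc 1 D).filter (rou z), (((Icc 1 (M / k)).filter Nat.Prime).card : ℝ) ≤
      ∑ k ∈ (Icc 1 D).filter (rou z), 6 * M / l * (1 / (k : ℝ)) := by
    refine sum_le_sum fun k hk => ?_
    rw [mem_filter, mem_Icc] at hk
    obtain ⟨⟨hk1, hk2⟩, -⟩ := hk
    have hk0 : (0 : ℝ) < k := by exact_mod_cast hk1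
    have hkD : (k : ℝ) ≤ x ^ (3 / 500 : ℝ) := le_trans (by exact_mod_cast hk2) hD
    obtain ⟨n, hn⟩ : ∃ n, n = M / k := ⟨_, rfl⟩
    have b1 : x ^ (1004 / 1000 : ℝ) ≤ (M : ℝ) / k := by
      rw [le_div_iff₀ hk0]
      calc x ^ (1004 / 1000 : ℝ) * k ≤ x ^ (1004 / 1000 : ℝ) * x ^ (3 / 500 : ℝ) :=
            mul_le_mul_of_nonneg_left hkD (by positivity)
        _ = x ^ (101 / 100 : ℝ) := by
            rw [← Real.rpow_add hx0]
            norm_num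
        _ ≤ M := hM
    have b2 : (M : ℝ) / k < n + 1 := by
      rw [div_lt_iff₀ hk0, hn]
      have := Nat.lt_mul_div_succ M hk1
      have h' : (M : ℝ) < k * (((M / k : ℕ) : ℝ) + 1) := by exact_mod_cast this
      linarith only [h']
    have b3 : x ^ (1003 / 1000 : ℝ) ≤ n := by linarith only [hs, b1, b2]
    have b4 : (2 : ℝ) ≤ n := hs2.trans b3
    have b5 : 2 ≤ n := by exact_mod_cast b4
    have b6 := T8_cheb n b5
    have b7 : l ≤ Real.log n := by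
      rw [hlx]
      refine Real.log_le_log hx0 (le_trans ?_ b3)
      calc x = x ^ (1 : ℝ) := (Real.rpow_one x).symm
        _ ≤ _ := Real.rpow_le_rpow_of_exponent_le hx1 (by norm_num)
    have b8 : (n : ℝ) ≤ (M : ℝ) / k := by
      rw [hn]
      exact Nat.cast_div_le
    rw [← hn]
    refine b6.trans ?_
    have b9 : 6 * M / l * (1 / (k : ℝ)) = 6 * ((M : ℝ) / k) / l := by
      field_simp
    rw [b9]
    exact div_le_div₀ (by positivity) (by linarith only [b8]) (by linarith only [hl]) b7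
  rw [← mul_sum, ← hR] at h1
  rw [← hR] at hdens
  have h2 : R ≤ 2 * Real.log D * V := by
    have hlD : 0 ≤ 2 * Real.log D := by
      have : (1 : ℝ) ≤ D := by exact_mod_cast hD1
      have := Real.log_nonneg this
      linarith only [this]
    have c1 := mul_le_mul_of_nonneg_left hdens hlD
    have c2 := mul_le_mul_of_nonneg_left hmer hR0
    nlinarith only [c1, c2]
  have h3 : Real.log D ≤ 3 / 500 * l := by
    have hD0 : (0 : ℝ) < D := by exact_mod_cast hD1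
    have c1 := Real.log_le_log hD0 hD
    rwa [Real.log_rpow hx0, ← hlx] at c1
  have h4 : R ≤ 12 / 1000 * l * V := by
    refine h2.trans ?_
    have := mul_le_mul_of_nonneg_right h3 hV
    linarith only [this]
  refine h1.trans ?_
  have h5 : 6 * M / l * R ≤ 6 * M / l * (12 / 1000 * l * V) :=
    mul_le_mul_of_nonneg_left h4 (by positivity)
  have h6 : 6 * M / l * (12 / 1000 * l * V) = 72 / 1000 * (V * M) := by
    field_simp
    ring
  linarith only [h5, h6]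

/-- the size of the Polya-Vinogradov bound -/
private theorem T8_KK {l0 X m1 m2 : ℕ} [NeZero m1] [NeZero m2] {x : ℝ}
    (hKK : ∀ m : ℕ, l0 ≤ m → KK m ≤ (m : ℝ) ^ (1 / 2 + 1 / 2500 : ℝ)) (hx : x = X) (hx2 : 2 ≤ x)
    (h1' : m1 ≤ X) (h2' : m2 ≤ X) (hXm1 : x ^ (99 / 100 : ℝ) ≤ m1) (hX3 : l0 ^ 2 ≤ X) :
    KK (Nat.lcm m1 m2) ≤ x ^ (10008 / 10000 : ℝ) := by
  have hx0 : 0 < x := by linarith only [hx2]
  have e1 : l0 ≤ Nat.lcm m1 m2 := by
    have f1 : m1 ≤ Nat.lcm m1 m2 :=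
      Nat.le_of_dvd (Nat.pos_of_ne_zero (Nat.lcm_ne_zero (NeZero.ne m1) (NeZero.ne m2)))
        (Nat.dvd_lcm_left m1 m2)
    have f2 : (l0 : ℝ) ≤ m1 := by
      refine le_trans ?_ hXm1
      have f3 : ((l0 ^ 2 : ℕ) : ℝ) ≤ x := by rw [hx]; exact_mod_cast hX3
      have f4 : x ^ (1 / 2 : ℝ) ≤ x ^ (99 / 100 : ℝ) :=
        Real.rpow_le_rpow_of_exponent_le (by linarith only [hx2]) (by norm_num)
      refine le_trans ?_ f4
      rw [← Real.sqrt_eq_rpow]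
      refine Real.le_sqrt_of_sq_le ?_
      push_cast at f3
      exact f3
    have f5 : l0 ≤ m1 := by exact_mod_cast f2
    omega
  refine (hKK _ e1).trans ?_
  have e2 : ((Nat.lcm m1 m2 : ℕ) : ℝ) ≤ x ^ (2 : ℝ) := by
    have f1 : Nat.lcm m1 m2 ≤ X * X :=
      (Nat.le_of_dvd (Nat.mul_pos (Nat.pos_of_ne_zero (NeZero.ne m1))
        (Nat.pos_of_ne_zero (NeZero.ne m2))) (Nat.lcm_dvd_mul m1 m2)).trans
        (Nat.mul_le_mul h1' h2')
    have f2 : ((Nat.lcm m1 m2 : ℕ) : ℝ) ≤ ((X * X : ℕ) : ℝ) := by exact_mod_cast f1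
    rw [Real.rpow_two]
    push_cast at f2
    rw [← hx] at f2
    rw [pow_two]
    exact f2
  calc ((Nat.lcm m1 m2 : ℕ) : ℝ) ^ (1 / 2 + 1 / 2500 : ℝ)
      ≤ (x ^ (2 : ℝ)) ^ (1 / 2 + 1 / 2500 : ℝ) :=
        Real.rpow_le_rpow (Nat.cast_nonneg _) e2 (by norm_num)
    _ = x ^ (10008 / 10000 : ℝ) := by
        rw [← Real.rpow_mul hx0.le]
        norm_num

private theorem T8_last {G KKv V x l c : ℝ} {M : ℕ} (hG0 : 0 ≤ G) (hG1 : G ≤ x ^ (41 / 10000 : ℝ))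
    (hKK : KKv ≤ x ^ (10008 / 10000 : ℝ)) (hc : 0 < c) (hVc : c / (3 * l) ≤ V) (hx : 2 ≤ x)
    (hl : 1 ≤ l) (hM : x ^ (101 / 100 : ℝ) ≤ M) (h20 : 20 * l ≤ c * x ^ (51 / 10000 : ℝ))
    (h : 6 / 10 * (V * M) ≤ G * (1 + KKv)) : False := by
  have hx0 : 0 < x := by linarith only [hx]
  have hl0 : 0 < l := by linarith only [hl]
  have hV0 : 0 < V := lt_of_lt_of_le (by positivity) hVc
  have hfin : G * (1 + KKv) ≤ 2 * x ^ (10049 / 10000 : ℝ) := by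
    have e0 : (1 : ℝ) ≤ x ^ (10008 / 10000 : ℝ) := Real.one_le_rpow (by linarith only [hx]) (by norm_num)
    have e1 : 1 + KKv ≤ 2 * x ^ (10008 / 10000 : ℝ) := by linarith only [hKK, e0]
    have e2 : x ^ (10049 / 10000 : ℝ) = x ^ (41 / 10000 : ℝ) * x ^ (10008 / 10000 : ℝ) := by
      rw [← Real.rpow_add hx0]
      norm_num
    calc G * (1 + KKv) ≤ G * (2 * x ^ (10008 / 10000 : ℝ)) :=
          mul_le_mul_of_nonneg_left e1 hG0
      _ ≤ x ^ (41 / 10000 : ℝ) * (2 * x ^ (10008 / 10000 : ℝ)) :=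
          mul_le_mul_of_nonneg_right hG1 (by positivity)
      _ = _ := by rw [e2]; ring
  have hVM : c / (3 * l) * (x ^ (10049 / 10000 : ℝ) * x ^ (51 / 10000 : ℝ)) ≤ V * M := by
    have e1 : x ^ (10049 / 10000 : ℝ) * x ^ (51 / 10000 : ℝ) = x ^ (101 / 100 : ℝ) := by
      rw [← Real.rpow_add hx0]
      norm_num
    rw [e1]
    exact mul_le_mul hVc hM (by positivity) hV0.le
  obtain ⟨y, hy⟩ : ∃ y, y = x ^ (10049 / 10000 : ℝ) := ⟨_, rfl⟩
  obtain ⟨y', hy'⟩ : ∃ y', y' = x ^ (51 / 10000 : ℝ) := ⟨_, rfl⟩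
  have hy0 : 0 < y := by rw [hy]; positivity
  rw [← hy] at hfin
  rw [← hy, ← hy'] at hVM
  rw [← hy'] at h20
  have e1 : 6 / 10 * (c / (3 * l) * (y * y')) ≤ 2 * y := by linarith only [h, hfin, hVM]
  have e2 : 6 / 10 * (c / (3 * l) * (y * y')) = (2 / 10) * (c * y') / l * y := by
    field_simp
    ring
  rw [e2] at e1
  have e3 : (2 / 10) * (c * y') / l ≤ 2 := le_of_mul_le_mul_right e1 hy0
  rw [div_le_iff₀ hl0] at e3
  linarith only [hl, h20, e3]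

/-- the sum over all exceptional primes -/
private theorem T8_exc {X m1 m2 z M D : ℕ} [NeZero m1] [NeZero m2] (χ1 : DirichletCharacter ℂ m1)
    (χ2 : DirichletCharacter ℂ m2) {κ x l : ℝ} (hx : x = X) (hl : l = Real.log X) (n1 : 2 ≤ x)
    (n2 : 1 ≤ l) (hκ : 0 < κ) (h1' : m1 ≤ X) (h2' : m2 ≤ X) (hXm1 : x ^ (99 / 100 : ℝ) ≤ m1)
    (hXm2 : x ^ (99 / 100 : ℝ) ≤ m2) (n8 : x ^ κ ≤ z) (hzr : 4000 * l ≤ z)
    (s9 : ∑ p ∈ Pr ⌊x ^ (49 / 50 : ℝ)⌋₊ M, 1 / (p : ℝ) ≤ 39 / 1000)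
    (hb1 : ∑ q ∈ Bad m1 χ1 κ (1 - 1 / 100), 1 / (q : ℝ) ≤ 1 / 100)
    (hb2 : ∑ q ∈ Bad m2 χ2 κ (1 - 1 / 100), 1 / (q : ℝ) ≤ 1 / 100)
    {T : ℕ → Prop} (hT : T = fun p : ℕ => χ1 (p : ZMod m1) = -1 ∧ χ2 (p : ZMod m2) = -1)
    [DecidablePred T] :
    ∑ p ∈ (Ioc z (M / D)).filter (fun p => p.Prime ∧ ¬ T p), 1 / (p : ℝ) ≤ 1 / 10 := by
  have hnn : ∀ n : ℕ, 0 ≤ 1 / (n : ℝ) := fun n => by positivity
  have s1 : (Ioc z (M / D)).filter (fun p => p.Prime ∧ ¬ T p) ⊆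
      (Bad m1 χ1 κ (1 - 1 / 100) ∪ (m1.primeFactors.filter (fun p => z < p) ∪
        Pr ⌊x ^ (49 / 50 : ℝ)⌋₊ M)) ∪
      (Bad m2 χ2 κ (1 - 1 / 100) ∪ (m2.primeFactors.filter (fun p => z < p) ∪
        Pr ⌊x ^ (49 / 50 : ℝ)⌋₊ M)) := by
    intro p hp
    rw [mem_filter, mem_Ioc] at hp
    obtain ⟨⟨a1, a2⟩, a3, a4⟩ := hp
    have a5 : p ≤ M := a2.trans (Nat.div_le_self _ _)
    rw [hT] at a4
    rw [mem_union]
    by_cases hc1 : χ1 (p : ZMod m1) = -1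
    · right
      exact T8_one χ2 hx n1 hκ h2' hXm2 n8 p a3 a1 a5 fun h => a4 ⟨hc1, h⟩
    · left
      exact T8_one χ1 hx n1 hκ h1' hXm1 n8 p a3 a1 a5 hc1
  have s2 := T8_sub hnn s1
  have s3 := T8_sub hnn (Finset.Subset.refl (Bad m1 χ1 κ (1 - 1 / 100) ∪
    (m1.primeFactors.filter (fun p => z < p) ∪ Pr ⌊x ^ (49 / 50 : ℝ)⌋₊ M)))
  have s4 := T8_sub hnn (Finset.Subset.refl (Bad m2 χ2 κ (1 - 1 / 100) ∪
    (m2.primeFactors.filter (fun p => z < p) ∪ Pr ⌊x ^ (49 / 50 : ℝ)⌋₊ M)))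
  have s5 := T8_sub hnn (Finset.Subset.refl (m1.primeFactors.filter (fun p => z < p) ∪
    Pr ⌊x ^ (49 / 50 : ℝ)⌋₊ M))
  have s6 := T8_sub hnn (Finset.Subset.refl (m2.primeFactors.filter (fun p => z < p) ∪
    Pr ⌊x ^ (49 / 50 : ℝ)⌋₊ M))
  have s7 := T8_div (Nat.one_le_iff_ne_zero.mpr (NeZero.ne m1)) h1' hl n2 hzr
  have s8 := T8_div (Nat.one_le_iff_ne_zero.mpr (NeZero.ne m2)) h2' hl n2 hzr
  linarith only [s9, hb1, hb2, s2, s3, s4, s5, s6, s7, s8]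

/-- uniqueness across moduli -/
theorem t8s : ∃ δ δ2 ε k : ℝ, 0 < δ2 ∧ δ2 ≤ 1 / 100 ∧ 0 < δ ∧ δ ≤ δ2 / 8 ∧ 0 < ε ∧ 0 < k ∧
    k ≤ 1 / 100 ∧ ∃ X0 : ℕ, ∀ X : ℕ, X0 ≤ X → ∀ (m1 m2 : ℕ) [NeZero m1] [NeZero m2],
    (X : ℝ) ^ (1 - k) ≤ m1 → m1 ≤ X → (X : ℝ) ^ (1 - k) ≤ m2 → m2 ≤ X →
    ∀ (χ1 : DirichletCharacter ℂ m1) (χ2 : DirichletCharacter ℂ m2), χ1 ^ 2 = 1 → χ2 ^ 2 = 1 →
    ∑ q ∈ Bad m1 χ1 δ (1 - δ2), 1 / (q : ℝ) ≤ ε → ∑ q ∈ Bad m2 χ2 δ (1 - δ2), 1 / (q : ℝ) ≤ ε →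
    DirichletCharacter.changeLevel (Nat.dvd_lcm_left m1 m2) χ1 *
      DirichletCharacter.changeLevel (Nat.dvd_lcm_right m1 m2) χ2 = 1 := by
  classical
  obtain ⟨κ, c, C, hκ, hκ1, hc, -, m0, hsiv⟩ := siv
  obtain ⟨K0, hmer⟩ := T8_mer
  obtain ⟨X1, hE5⟩ := T8_E5
  obtain ⟨X2, hnum⟩ := T8_num κ c hκ hκ1 hc m0 (max K0 1)
  obtain ⟨l0, hKK⟩ := KK_le (1 / 2500) (by norm_num)
  refine ⟨κ, 1 / 100, 1 / 100, 1 / 100, by norm_num, le_rfl, hκ, by linarith only [hκ, hκ1], by norm_num,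
    by norm_num, le_rfl, max (max X1 X2) (max (l0 ^ 2) 2), ?_⟩
  intro X hX m1 m2 _ _ h1 h1' h2 h2' χ1 χ2 hχ1 hχ2 hb1 hb2
  simp only [max_le_iff] at hX
  obtain ⟨⟨hX1, hX2⟩, hX3, hX4⟩ := hX
  have hL0 : NeZero (Nat.lcm m1 m2) := ⟨Nat.lcm_ne_zero (NeZero.ne m1) (NeZero.ne m2)⟩
  by_cases hψ : DirichletCharacter.changeLevel (Nat.dvd_lcm_left m1 m2) χ1 *
      DirichletCharacter.changeLevel (Nat.dvd_lcm_right m1 m2) χ2 = 1
  · exact hψ
  exfalso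
  obtain ⟨x, hx⟩ : ∃ x : ℝ, x = X := ⟨_, rfl⟩
  obtain ⟨l, hl⟩ : ∃ l : ℝ, l = Real.log X := ⟨_, rfl⟩
  obtain ⟨m, hm⟩ : ∃ m : ℕ, m = ⌊x ^ (101 / 50 : ℝ)⌋₊ := ⟨_, rfl⟩
  obtain ⟨M, hM⟩ : ∃ M : ℕ, M = M1 m := ⟨_, rfl⟩
  obtain ⟨z, hz⟩ : ∃ z : ℕ, z = zN κ m := ⟨_, rfl⟩
  obtain ⟨D, hD⟩ : ∃ D : ℕ, D = ⌊x ^ (3 / 500 : ℝ)⌋₊ := ⟨_, rfl⟩
  obtain ⟨n1, n2, n3, n4, n5, n6, n7, n8, n9, n10, n11, n12, n13, n14, n15, n16, n17, n18⟩ :=
    hnum X hX2 x l hx hl m M z D hm hM hz hD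
  have hx0 : 0 < x := by linarith only [hκ, hκ1, n1]
  have hl0 : 0 < l := by linarith only [hκ, hκ1, n2]
  have hD1 : 1 ≤ D := (le_max_right _ _).trans n10
  obtain ⟨S, g, Q, V, hQ, hS, hG, hV, hVc, -, hr, h49⟩ := hsiv m n3
  rw [← hz] at hr h49
  rw [← hM] at h49
  obtain ⟨G, hGd⟩ : ∃ G, G = ∑ d ∈ Icc 1 Q, |g d| := ⟨_, rfl⟩
  have hG0 : 0 ≤ G := by rw [hGd]; exact sum_nonneg fun _ _ => abs_nonneg _
  have hG1 : G ≤ x ^ (41 / 10000 : ℝ) := by rw [hGd]; exact hG.trans n5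
  have hz1 : 1 ≤ z := by
    have e1 : (4000 : ℝ) ≤ x ^ κ := by nlinarith only [n2, n13]
    have : (1 : ℝ) ≤ z := by linarith only [hκ, hκ1, n2, n8, n13]
    exact_mod_cast this
  have hlogm : 0 < Real.log m := by
    have e1 : x ^ (101 / 100 : ℝ) ≤ M := n7
    have e2 : (2 : ℝ) ≤ x ^ (101 / 100 : ℝ) := by
      calc (2 : ℝ) ≤ x := n1
        _ = x ^ (1 : ℝ) := (Real.rpow_one x).symm
        _ ≤ _ := Real.rpow_le_rpow_of_exponent_le (by linarith only [hκ, hκ1, n1]) (by norm_num)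
    have e3 : (M : ℝ) ≤ (m : ℝ) ^ (201 / 400 : ℝ) := by
      rw [hM]
      exact Nat.floor_le (by positivity)
    refine Real.log_pos ?_
    by_contra hle
    push Not at hle
    have e4 : (m : ℝ) ^ (201 / 400 : ℝ) ≤ 1 :=
      Real.rpow_le_one (Nat.cast_nonneg m) hle (by norm_num)
    linarith only [hκ, hκ1, n7, e2, e3, e4]
  have hVc' : c / (3 * l) ≤ V := by
    refine le_trans ?_ hVc
    exact div_le_div_of_nonneg_left hc.le hlogm n4
  have hV0 : 0 < V := lt_of_lt_of_le (by positivity) hVc'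
  have hcnt : ∀ N : ℕ, (((Icc 1 N).filter (rou z)).card : ℝ) ≤ V * N + G := by
    intro N
    have := T8_cnt hS hr N
    rwa [← hV, ← hGd] at this
  have hup := T8_up hS M
  have hdens := T8_dens n9 hS hr
  rw [← hV] at hdens
  -- the exceptional set
  obtain ⟨T, hT⟩ : ∃ T : ℕ → Prop, T = fun p : ℕ => χ1 (p : ZMod m1) = -1 ∧ χ2 (p : ZMod m2) = -1 :=
    ⟨_, rfl⟩
  have hbad := T8_bad (z := z) T M D hD1
  have hcore := T8_core (Nat.lcm m1 m2) _ hψ hS hr M hup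
    ((Icc 1 M).filter (fun n => rou z n ∧ ∀ p : ℕ, p.Prime → p ∣ n → T p)) (by
      intro n hn
      rw [mem_filter, mem_Icc] at hn
      obtain ⟨⟨a1, a2⟩, a3, a4⟩ := hn
      refine ⟨a1, a2, a3, T8_psi χ1 χ2 n a1 fun p hp hpn => ?_⟩
      have := a4 p hp hpn
      rw [hT] at this
      exact this)
  rw [← hV, ← hGd] at hcore
  -- exceptional primes
  have hXm1 := T8_cond hx h1
  have hXm2 := T8_cond hx h2
  have hzr : 4000 * l ≤ z := n13.trans n8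
  have hsum := T8_exc (M := M) (D := D) χ1 χ2 hx hl n1 n2 hκ h1' h2' hXm1 hXm2 n8 hzr
    (by rw [hx]; exact hE5 X hX1 M (by rw [← hx]; exact n6)) hb1 hb2 hT
  have hE := T8_sumE (T := T) hcnt hV0.le hG0 hG1 n1 n2 n12 hVc' n14 _ hsum
  have hK := T8_sumK n1 n2 (by rw [hx]; exact hl) n7 hD1 n11 n16 n17
    (hmer D ((le_max_left _ _).trans n10)) hV0.le hdens
  have hbad' : (((Icc 1 M).filter (rou z)).card : ℝ) ≤
      (((Icc 1 M).filter (fun n => rou z n ∧ ∀ p : ℕ, p.Prime → p ∣ n → T p)).card : ℝ) +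
      (∑ p ∈ (Ioc z (M / D)).filter (fun p => p.Prime ∧ ¬ T p),
        (((Icc 1 (M / p)).filter (rou z)).card : ℝ) +
      ∑ k ∈ (Icc 1 D).filter (rou z), (((Icc 1 (M / k)).filter Nat.Prime).card : ℝ)) := by
    exact_mod_cast hbad
  obtain ⟨b, hb⟩ : ∃ b : ℝ, b =
    (((Icc 1 M).filter (fun n => rou z n ∧ ∀ p : ℕ, p.Prime → p ∣ n → T p)).card : ℝ) := ⟨_, rfl⟩
  rw [← hb] at hbad' hcore
  have hb2 : 6 / 10 * (V * M) ≤ G * (1 + KK (Nat.lcm m1 m2)) := by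
    have e1 : 49 / 50 * V * M ≤ b + ((1 / 10 + 1 / 1000) * (V * M) + 72 / 1000 * (V * M)) := by
      refine h49.trans (hbad'.trans ?_)
      linarith only [hE, hK]
    have e2 : G * (1 + KK (Nat.lcm m1 m2)) = G + G * KK (Nat.lcm m1 m2) := by ring
    rw [e2]
    have e3 : 49 / 50 * V * M = 49 / 50 * (V * M) := by ring
    rw [e3] at e1
    have e4 : 0 ≤ V * M := by positivity
    clear hcnt hup hdens hbad hbad' hE hK hsum h49 hr hS
    generalize G * KK (Nat.lcm m1 m2) = u at *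
    generalize V * (M : ℝ) = v at *
    linarith only [hb, e1, hcore]
  exact T8_last hG0 hG1 (T8_KK hKK hx n1 h1' h2' hXm1 hX3) hc hVc' n1 n2 n7 n15 hb2

theorem t8 : ∃ δ δ2 ε k : ℝ, 0 < δ2 ∧ δ2 ≤ 1 / 100 ∧ 0 < δ ∧ δ ≤ δ2 / 8 ∧ 0 < ε ∧ 0 < k ∧
    k ≤ 1 / 100 ∧ ∃ X0 : ℕ, ∀ X : ℕ, X0 ≤ X → ∀ (m1 m2 : ℕ) [NeZero m1] [NeZero m2],
    (X : ℝ) ^ (1 - k) ≤ m1 → m1 ≤ X → (X : ℝ) ^ (1 - k) ≤ m2 → m2 ≤ X →
    ∀ (χ1 : DirichletCharacter ℂ m1) (χ2 : DirichletCharacter ℂ m2), χ1 ^ 2 = 1 → χ2 ^ 2 = 1 →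
    ∑ q ∈ Bad m1 χ1 δ (1 - δ2), 1 / (q : ℝ) ≤ ε → ∑ q ∈ Bad m2 χ2 δ (1 - δ2), 1 / (q : ℝ) ≤ ε →
    χ1.conductor = χ2.conductor ∧ χ1 (-1) = χ2 (-1) := by
  obtain ⟨δ, δ2, ε, k, g1, g2, g3, g4, g5, g6, g7, X0, H⟩ := t8s
  refine ⟨δ, δ2, ε, k, g1, g2, g3, g4, g5, g6, g7, X0, ?_⟩
  intro X hX m1 m2 _ _ h1 h1' h2 h2' χ1 χ2 hχ1 hχ2 hb1 hb2
  have hL0 : NeZero (Nat.lcm m1 m2) := ⟨Nat.lcm_ne_zero (NeZero.ne m1) (NeZero.ne m2)⟩
  exact T8_fin χ1 χ2 hχ2 (H X hX m1 m2 h1 h1' h2 h2' χ1 χ2 hχ1 hχ2 hb1 hb2)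

end Pool.Agent.H78.PD

end

section

/-!
# PE, Ana4: the analytic theorem with all the primes

* `ana4_fail`: `energy_main`, `top`, `t6_up`, `small_p`.
* `ana4_uniq`: `t8s`.
-/

set_option autoImplicit false

namespace Pool.Agent.H78.PE

open Finset
open Pool.Agent.H34PG (lam lam_val lam_mul lam_prime)
open Pool.Agent.H11.LQ Pool.Agent.H78.PG Pool.Agent.H78.PD

/-- two real characters with the same product -/
private theorem ana4_lift {m m1 m2 : ℕ} [NeZero m] [NeZero m1] [NeZero m2] (h1 : m1 ∣ m)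
    (h2 : m2 ∣ m) (χ1 : DirichletCharacter ℂ m1) (χ2 : DirichletCharacter ℂ m2) (hχ2 : χ2 ^ 2 = 1)
    (h : DirichletCharacter.changeLevel (Nat.dvd_lcm_left m1 m2) χ1 *
      DirichletCharacter.changeLevel (Nat.dvd_lcm_right m1 m2) χ2 = 1) :
    DirichletCharacter.changeLevel h1 χ1 = DirichletCharacter.changeLevel h2 χ2 := by
  have h3 : Nat.lcm m1 m2 ∣ m := Nat.lcm_dvd h1 h2
  have e1 : DirichletCharacter.changeLevel (Nat.dvd_lcm_right m1 m2) χ2 *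
      DirichletCharacter.changeLevel (Nat.dvd_lcm_right m1 m2) χ2 = 1 := by
    rw [← map_mul, ← pow_two, hχ2, map_one]
  have e2 : DirichletCharacter.changeLevel (Nat.dvd_lcm_left m1 m2) χ1 =
      DirichletCharacter.changeLevel (Nat.dvd_lcm_right m1 m2) χ2 :=
    mul_right_cancel (h.trans e1.symm)
  have e3 := DirichletCharacter.changeLevel_trans χ1 (Nat.dvd_lcm_left m1 m2) h3
  have e4 := DirichletCharacter.changeLevel_trans χ2 (Nat.dvd_lcm_right m1 m2) h3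
  have e5 : DirichletCharacter.changeLevel h1 χ1 = DirichletCharacter.changeLevel h3
      (DirichletCharacter.changeLevel (Nat.dvd_lcm_left m1 m2) χ1) := e3
  have e6 : DirichletCharacter.changeLevel h2 χ2 = DirichletCharacter.changeLevel h3
      (DirichletCharacter.changeLevel (Nat.dvd_lcm_right m1 m2) χ2) := e4
  rw [e5, e6, e2]

theorem ana4_uniq : ∃ ε k : ℝ, 0 < ε ∧ ε ≤ 1 / 100 ∧ 0 < k ∧ k ≤ 1 / 100 ∧ ∃ m0 : ℕ, ∀ m : ℕ,
    m0 ≤ m → ∀ (m1 m2 : ℕ) [NeZero m1] [NeZero m2] (h1 : m1 ∣ m) (h2 : m2 ∣ m),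
    (m : ℝ) ^ (1 - k) ≤ m1 → (m : ℝ) ^ (1 - k) ≤ m2 →
    ∀ (χ1 : DirichletCharacter ℂ m1) (χ2 : DirichletCharacter ℂ m2), χ1 ^ 2 = 1 → χ2 ^ 2 = 1 →
    Prt m1 χ1 ε → Prt m2 χ2 ε →
    DirichletCharacter.changeLevel h1 χ1 = DirichletCharacter.changeLevel h2 χ2 := by
  obtain ⟨δ, δ2, ε, k, g1, g2, g3, g4, g5, g6, g7, X0, H⟩ := t8s
  have key : ∀ (n : ℕ) (χ : DirichletCharacter ℂ n), 1 ≤ n → Prt n χ (min ε δ2) →
      ∑ q ∈ Bad n χ δ (1 - δ2), 1 / (q : ℝ) ≤ ε := by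
    intro n χ hn h
    refine le_trans ?_ (le_trans h (min_le_left _ _))
    refine sum_le_sum_of_subset_of_nonneg (fun p hp => ?_) fun _ _ _ => by positivity
    rw [mem_Bad] at hp
    rw [mem_Pr]
    refine ⟨hp.2.2.2.1.trans ?_, hp.1, hp.2.1, hp.2.2.2.2⟩
    refine Real.rpow_le_rpow_of_exponent_le (by exact_mod_cast hn) ?_
    linarith [min_le_right ε δ2]
  refine ⟨min ε δ2, k, lt_min g5 g1, (min_le_right _ _).trans g2, g6, g7, X0 + 1, ?_⟩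
  intro m hm m1 m2 _ _ h1 h2 hm1 hm2 χ1 χ2 hχ1 hχ2 hP1 hP2
  have : NeZero m := ⟨by omega⟩
  have a1 := NeZero.pos m1
  have a2 := NeZero.pos m2
  exact ana4_lift h1 h2 χ1 χ2 hχ2 (H m (by omega) m1 m2 hm1 (Nat.le_of_dvd (by omega) h1) hm2
    (Nat.le_of_dvd (by omega) h2) χ1 χ2 hχ1 hχ2 (key m1 χ1 a1 hP1) (key m2 χ2 a2 hP2))

end Pool.Agent.H78.PE

end

section

/-!
# PE, Common: one primitive character for all good divisors

`ε0, k` from `ana4_uniq` (`k0 = k`); `Prt.mono` from `ε` to `ε0`.  For `d ∈ G` the modulus `m/d` is `≥ m^(1-k0)` and `≠ 0` (`d ∣ m`, `m ≠ 0`).  Fix `d0 ∈ G`, `χ` = the character of `d0` lifted to `m`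
(`DirichletCharacter.changeLevel`); by `ana4_uniq` it is the lift of the character `χ_d` of every `d ∈ G`.  `c = χ.conductor`, `ψ = χ.primitiveCharacter`.
For `d ∈ G`: `c` is the conductor of `χ_d` (`DirichletCharacter.conductor_changeLevel`, used in `T8_fin` of `PD/T8.lean`), so `c ∣ m/d` (`conductor_dvd_level`), and `χ_d` is the lift of `ψ` to `m/d`
(both lift to `χ` at level `m`: `changeLevel_injective`, `changeLevel_trans`, `changeLevel_primitiveCharacter`; cf. `fin8_prim` in `H11/LQ/Fin8.lean`).  Hence `ψ² = 1`,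
`ψ(-1) = χ_d(-1) = η` (`changeLevel_eq_cast_of_dvd'`, as in `T8_fin`), and for a prime `p ∤ m/d`: `χ_d(p) = ψ(p)` (`changeLevel_eq_cast_of_dvd'`), so `Pr (m/d) ψ ε = Pr (m/d) χ_d ε`.
-/

set_option autoImplicit false

namespace Pool.Agent.H78.PE

open Finset
open Pool.Agent.H34PG (lam lam_val lam_mul lam_prime)
open Pool.Agent.H11.LQ Pool.Agent.H78.PG Pool.Agent.H78.PD

/-- the values of a character and of its lift -/
theorem Common_val {c n : ℕ} (hc : c ∣ n) (ψ : DirichletCharacter ℂ c) {a : ℤ} (ha : IsCoprime a n) :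
    DirichletCharacter.changeLevel hc ψ (a : ZMod n) = ψ (a : ZMod c) :=
  DirichletCharacter.changeLevel_eq_cast_of_dvd' ψ hc ha

/-- the primes of a character and of its lift -/
theorem Common_Pr {c n : ℕ} (hc : c ∣ n) (ψ : DirichletCharacter ℂ c) (ε : ℝ) :
    Pr n (DirichletCharacter.changeLevel hc ψ) ε = Pr n ψ ε := by
  ext p
  rw [mem_Pr, mem_Pr]
  refine and_congr_right fun _ => and_congr_right fun hp => and_congr_right fun hpn => ?_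
  have h1 : IsCoprime (p : ℤ) (n : ℤ) := Nat.isCoprime_iff_coprime.mpr ((Nat.Prime.coprime_iff_not_dvd hp).2 hpn)
  have h2 := Common_val hc ψ h1
  rw [Int.cast_natCast, Int.cast_natCast] at h2
  rw [h2]

/-- the modulus `m/d` -/
theorem Common_size {m d : ℕ} {k : ℝ} (hm : 1 ≤ m) (hd : d ∣ m) (h : (d : ℝ) ≤ (m : ℝ) ^ k) :
    m / d ≠ 0 ∧ (m : ℝ) ^ (1 - k) ≤ ((m / d : ℕ) : ℝ) := by
  have hm0 : (0 : ℝ) < m := by exact_mod_cast hm
  have hd0 : 0 < d := Nat.pos_of_dvd_of_pos hd hm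
  have hd0' : (0 : ℝ) < d := by exact_mod_cast hd0
  refine ⟨(Nat.div_pos (Nat.le_of_dvd hm hd) hd0).ne', ?_⟩
  rw [Nat.cast_div hd hd0'.ne', le_div_iff₀ hd0', Real.rpow_sub hm0, Real.rpow_one, div_mul_eq_mul_div,
    div_le_iff₀ (by positivity)]
  exact mul_le_mul_of_nonneg_left h hm0.le

theorem common : ∃ ε0 k0 : ℝ, 0 < ε0 ∧ 0 < k0 ∧ k0 ≤ 1 / 100 ∧ ∃ m0 : ℕ, ∀ m : ℕ, m0 ≤ m →
    ∀ ε : ℝ, ε ≤ ε0 → ∀ η : ℤ, ∀ G : Finset ℕ, G.Nonempty →
    (∀ d ∈ G, d ∣ m ∧ (d : ℝ) ≤ (m : ℝ) ^ k0 ∧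
      ∃ χ : DirichletCharacter ℂ (m / d), χ ^ 2 = 1 ∧ χ (-1) = (η : ℂ) ∧ Prt (m / d) χ ε) →
    ∃ (c : ℕ) (_ : NeZero c) (ψ : DirichletCharacter ℂ c), c ∣ m ∧ ψ ^ 2 = 1 ∧ ψ (-1) = (η : ℂ) ∧
      ∀ d ∈ G, c ∣ m / d ∧ Prt (m / d) ψ ε := by
  obtain ⟨ε0, k, hε0, -, hk, hk', m1, H⟩ := ana4_uniq
  refine ⟨ε0, k, hε0, hk, hk', max m1 1, fun m hm ε hε η G hG hyp => ?_⟩
  have hm1 : m1 ≤ m := le_trans (le_max_left _ _) hm
  have hm2 : 1 ≤ m := le_trans (le_max_right _ _) hm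
  have hmne : NeZero m := ⟨by omega⟩
  obtain ⟨d0, hd0⟩ := hG
  obtain ⟨e1, e2, χ0, e3, e4, e5⟩ := hyp d0 hd0
  obtain ⟨f1, f2⟩ := Common_size hm2 e1 e2
  have hn0 : m / d0 ∣ m := Nat.div_dvd_of_dvd e1
  have hne0 : NeZero (m / d0) := ⟨f1⟩
  obtain ⟨χ, hχ⟩ : ∃ χ, χ = DirichletCharacter.changeLevel hn0 χ0 := ⟨_, rfl⟩
  have hcond : NeZero χ.conductor := ⟨by
    intro h
    have h1 := χ.conductor_dvd_level
    rw [h] at h1
    exact NeZero.ne m (Nat.eq_zero_of_zero_dvd h1)⟩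
  obtain ⟨ψ, hψ⟩ : ∃ ψ, ψ = χ.primitiveCharacter := ⟨_, rfl⟩
  have hch : DirichletCharacter.changeLevel χ.conductor_dvd_level ψ = χ := by
    rw [hψ]
    exact χ.changeLevel_primitiveCharacter
  -- every lift
  have key : ∀ (n : ℕ) [NeZero n] (hn : n ∣ m) (χd : DirichletCharacter ℂ n),
      DirichletCharacter.changeLevel hn χd = χ → ∃ hc : χ.conductor ∣ n,
        DirichletCharacter.changeLevel hc ψ = χd := by
    intro n _ hn χd h
    have h1 : χd.conductor = χ.conductor := by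
      rw [← h, DirichletCharacter.conductor_changeLevel χd hn]
    have hc : χ.conductor ∣ n := h1 ▸ χd.conductor_dvd_level
    refine ⟨hc, DirichletCharacter.changeLevel_injective hn ?_⟩
    rw [h, ← DirichletCharacter.changeLevel_trans ψ hc hn]
    exact hch
  obtain ⟨hc0, hψ0⟩ := key (m / d0) hn0 χ0 hχ.symm
  have hψ2 : ψ ^ 2 = 1 := by
    apply DirichletCharacter.changeLevel_injective hc0
    rw [map_pow, hψ0, e3, map_one]
  have hψη : ψ (-1) = (η : ℂ) := by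
    have hi : IsCoprime (-1 : ℤ) ((m / d0 : ℕ) : ℤ) := isCoprime_one_left.neg_left
    have h1 := Common_val hc0 ψ hi
    rw [hψ0] at h1
    push_cast at h1
    rw [← h1, e4]
  refine ⟨χ.conductor, hcond, ψ, χ.conductor_dvd_level, hψ2, hψη, fun d hd => ?_⟩
  obtain ⟨g1, g2, χd, g3, g4, g5⟩ := hyp d hd
  obtain ⟨i1, i2⟩ := Common_size hm2 g1 g2
  have hn : m / d ∣ m := Nat.div_dvd_of_dvd g1
  have hne : NeZero (m / d) := ⟨i1⟩
  have h1 : DirichletCharacter.changeLevel hn χd = χ := by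
    rw [hχ]
    exact H m hm1 (m / d) (m / d0) hn hn0 i2 f2 χd χ0 g3 e3 (g5.mono (Nat.one_le_iff_ne_zero.2 i1) hε)
      (e5.mono (Nat.one_le_iff_ne_zero.2 f1) hε)
  obtain ⟨hc, hψd⟩ := key (m / d) hn χd h1
  refine ⟨hc, ?_⟩
  unfold Prt at g5 ⊢
  rw [← Common_Pr hc ψ ε, hψd]
  exact g5

end Pool.Agent.H78.PE

end
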