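import Pool.Agent.H94.PG.H78.PD.Pri
import Pool.Agent.H94.PG.M05
import Pool.Agent.H94.PG.M08
import Pool.Agent.H94.PG.M22

/-! The parts of this file: H78.PE.Conv, H11.LQ.Fin8, H78.PE.Dst. -/

section

/-!
# PE, Conv: the elementary converse

`e p` = exponent of `p` in `N/q`.  If `a ∈ pat N s t` (so `0 < a < N`, `λ(a) = s`, `λ(N-a) = t`) then for some prime `p ≤ N` with `χ(p) ≠ -1`: `p^(1 + e p) ∣ a` or `p^(1 + e p) ∣ N - a`.
Otherwise let `d = ∏ p^(v_p(a))` over the primes `p ∣ a` with `χ(p) ≠ -1`.  `v_p(a) ≤ e p`, so `d ∣ N/q`; `d ∣ a`, hence `d ∣ N - a`; the cofactors `a' = a/d`, `b' = (N-a)/d`: no prime `p` with `χ(p) ≠ -1` divides `a'` (clear) or `b'`: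
if `p ∣ b'` then `p^(v_p(a)+1) ∣ N - a`; if `v_p(a) < v_p(N)` then `v_p(N-a) = v_p(a)`, contradiction; else `v_p(N) ≤ v_p(a) ≤ e p ≤ v_p(N)`, so `v_p(a) = e p` and `p^(1 + e p) ∣ N - a`, contradiction.
So `λ(a') = χ(a')`, `λ(b') = χ(b')` (all prime factors have `χ(p) = -1`; `λ` and `χ` completely multiplicative), `a' + b' = N/d ≡ 0 mod q`, so `χ(b') = χ(-1) χ(a')`, `χ(a')² = 1` and
`s t = λ(a) λ(N-a) = λ(d)² λ(a') λ(b') = χ(-1) = -(s t)`, a contradiction.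
The number of `0 < a < N` with `p^(1+e p) ∣ a` is `≤ N/p^(1+e p)`, the same for `N - a`: total `≤ 2 N Dd N χ`.
-/

set_option autoImplicit false

namespace Pool.Agent.H78.PE

open Finset
open Pool.Agent.H34PG (lam lam_val lam_mul lam_prime)
open Pool.Agent.H11.LQ Pool.Agent.H78.PD

/-- the part of `n` with the primes `χ(p) ≠ -1` and the part with the primes `χ(p) = -1` -/
private theorem conv_split {q : ℕ} (χ : DirichletCharacter ℂ q) (n : ℕ) : 0 < n →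
    ∃ d m : ℕ, 0 < d ∧ 0 < m ∧ n = d * m ∧ ((lam m : ℤ) : ℂ) = χ (m : ZMod q) ∧
      (∀ p : ℕ, p.Prime → χ (p : ZMod q) ≠ -1 → m.factorization p = 0) ∧
      (∀ p : ℕ, p.Prime → χ (p : ZMod q) = -1 → d.factorization p = 0) := by
  induction n using Nat.recOnMul with
  | zero => intro h; exact absurd h (lt_irrefl 0)
  | one =>
    intro _
    refine ⟨1, 1, one_pos, one_pos, rfl, ?_, ?_, ?_⟩
    · rw [Nat.cast_one, map_one, Pool.Agent.H34PG.lam_one, Int.cast_one]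
    · intro p _ _
      simp
    · intro p _ _
      simp
  | prime p hp =>
    intro _
    by_cases h : χ (p : ZMod q) = -1
    · refine ⟨1, p, one_pos, hp.pos, (one_mul p).symm, ?_, ?_, ?_⟩
      · rw [h, lam_prime hp]
        norm_num
      · intro r hr hrn
        refine Nat.factorization_eq_zero_of_not_dvd fun hd => hrn ?_
        rw [(Nat.prime_dvd_prime_iff_eq hr hp).1 hd]
        exact h
      · intro r _ _
        simp
    · refine ⟨p, 1, hp.pos, one_pos, (mul_one p).symm, ?_, ?_, ?_⟩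
      · rw [Nat.cast_one, map_one, Pool.Agent.H34PG.lam_one, Int.cast_one]
      · intro r _ _
        simp
      · intro r hr hrn
        refine Nat.factorization_eq_zero_of_not_dvd fun hd => h ?_
        rw [← (Nat.prime_dvd_prime_iff_eq hr hp).1 hd]
        exact hrn
  | mul a b iha ihb =>
    intro hab
    have ha : 0 < a := Nat.pos_of_ne_zero fun h0 => by rw [h0, zero_mul] at hab; exact lt_irrefl 0 hab
    have hb : 0 < b := Nat.pos_of_ne_zero fun h0 => by rw [h0, mul_zero] at hab; exact lt_irrefl 0 hab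
    obtain ⟨d, m, hd, hm, e1, l1, z1, y1⟩ := iha ha
    obtain ⟨d', m', hd', hm', e2, l2, z2, y2⟩ := ihb hb
    refine ⟨d * d', m * m', Nat.mul_pos hd hd', Nat.mul_pos hm hm', ?_, ?_, ?_, ?_⟩
    · rw [e1, e2]
      ring
    · rw [lam_mul m m' hm hm', Nat.cast_mul, map_mul, Int.cast_mul, l1, l2]
    · intro p hp hpn
      rw [Nat.factorization_mul hm.ne' hm'.ne', Finsupp.add_apply, z1 p hp hpn, z2 p hp hpn]
    · intro p hp hpn
      rw [Nat.factorization_mul hd.ne' hd'.ne', Finsupp.add_apply, y1 p hp hpn, y2 p hp hpn]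

private theorem conv_le {N q p a b : ℕ} (hq : q ∣ N) (hab : a + b = N) (ha : 0 < a) (hb : 0 < b)
    (hp : p.Prime) (h2 : p ≤ N → ¬ p ^ (1 + (N / q).factorization p) ∣ b) :
    b.factorization p ≤ a.factorization p := by
  by_contra hcon
  push Not at hcon
  have h3 : p ^ (a.factorization p + 1) ∣ b :=
    (hp.pow_dvd_iff_le_factorization hb.ne').2 hcon
  have hpN : p ≤ N := by
    have h4 : p ∣ b := dvd_trans (dvd_pow_self p (by omega)) h3
    have := Nat.le_of_dvd hb h4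
    omega
  have h5 : b.factorization p < 1 + (N / q).factorization p := by
    by_contra h6
    push Not at h6
    exact h2 hpN ((hp.pow_dvd_iff_le_factorization hb.ne').2 h6)
  have h6 : p ^ (a.factorization p + 1) ∣ N := by
    refine dvd_trans ?_ (dvd_trans (Nat.ordProj_dvd (N / q) p) (Nat.div_dvd_of_dvd hq))
    exact pow_dvd_pow p (by omega)
  have h7 : p ^ (a.factorization p + 1) ∣ a := by
    rw [← hab] at h6
    exact (Nat.dvd_add_left h3).1 h6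
  have h8 := (hp.pow_dvd_iff_le_factorization ha.ne').1 h7
  omega

private theorem conv_key {N q : ℕ} (hN : 1 ≤ N) (hq : q ∣ N) (χ : DirichletCharacter ℂ q) {a b : ℕ}
    (hab : a + b = N) (ha : 0 < a) (hb : 0 < b)
    (h : ∀ p : ℕ, p.Prime → p ≤ N → χ (p : ZMod q) ≠ -1 →
      ¬ p ^ (1 + (N / q).factorization p) ∣ a ∧ ¬ p ^ (1 + (N / q).factorization p) ∣ b) :
    ((lam a * lam b : ℤ) : ℂ) = χ (-1) := by
  obtain ⟨d, m, hd, hm, e1, l1, z1, y1⟩ := conv_split χ a ha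
  obtain ⟨d', m', hd', hm', e2, l2, z2, y2⟩ := conv_split χ b hb
  have hNq : 0 < N / q := Nat.div_pos (Nat.le_of_dvd hN hq)
    (Nat.pos_of_ne_zero fun h0 => by rw [h0, zero_dvd_iff] at hq; omega)
  have fa : ∀ p : ℕ, a.factorization p = d.factorization p + m.factorization p := fun p => by
    conv_lhs => rw [e1]
    rw [Nat.factorization_mul hd.ne' hm.ne', Finsupp.add_apply]
  have fb : ∀ p : ℕ, b.factorization p = d'.factorization p + m'.factorization p := fun p => by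
    conv_lhs => rw [e2]
    rw [Nat.factorization_mul hd'.ne' hm'.ne', Finsupp.add_apply]
  have hdd : d = d' := by
    refine Nat.eq_of_factorization_eq hd.ne' hd'.ne' fun p => ?_
    by_cases hp : p.Prime
    · by_cases hc : χ (p : ZMod q) = -1
      · rw [y1 p hp hc, y2 p hp hc]
      · have a1 := fa p
        have a2 := fb p
        rw [z1 p hp hc] at a1
        rw [z2 p hp hc] at a2
        have b1 := conv_le hq hab ha hb hp fun hpN => (h p hp hpN hc).2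
        have b2 := conv_le hq (by omega : b + a = N) hb ha hp fun hpN => (h p hp hpN hc).1
        omega
    · rw [Nat.factorization_eq_zero_of_not_prime d hp, Nat.factorization_eq_zero_of_not_prime d' hp]
  have hdN : d ∣ N / q := by
    rw [← Nat.factorization_le_iff_dvd hd.ne' hNq.ne']
    intro p
    by_cases hp : p.Prime
    · by_cases hc : χ (p : ZMod q) = -1
      · rw [y1 p hp hc]
        exact Nat.zero_le _
      · have a1 := fa p
        rw [z1 p hp hc] at a1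
        by_contra hcon
        push Not at hcon
        have h3 : p ^ (1 + (N / q).factorization p) ∣ a :=
          (hp.pow_dvd_iff_le_factorization ha.ne').2 (by omega)
        have h4 : p ∣ a := dvd_trans (dvd_pow_self p (by omega)) h3
        have h5 := Nat.le_of_dvd ha h4
        exact (h p hp (by omega) hc).1 h3
    · rw [Nat.factorization_eq_zero_of_not_prime d hp]
      exact Nat.zero_le _
  obtain ⟨k, hk⟩ := hdN
  have hsum : m + m' = q * k := by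
    have h3 : q * (N / q) = N := Nat.mul_div_cancel' hq
    have h4 : d * (m + m') = d * (q * k) := by
      calc d * (m + m') = a + b := by rw [e1, e2, ← hdd]; ring
        _ = q * (N / q) := by rw [h3, hab]
        _ = d * (q * k) := by rw [hk]; ring
    exact Nat.eq_of_mul_eq_mul_left hd h4
  have hmod : (m' : ZMod q) = -1 * (m : ZMod q) := by
    have h3 : ((m + m' : ℕ) : ZMod q) = 0 := by
      rw [hsum]
      simp
    rw [Nat.cast_add] at h3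
    linear_combination h3
  have hsq : ∀ n : ℕ, ((lam n : ℤ) : ℂ) * ((lam n : ℤ) : ℂ) = 1 := fun n => by
    rcases lam_val n with h3 | h3 <;> rw [h3] <;> norm_num
  have g1 : ((lam a : ℤ) : ℂ) = (lam d : ℤ) * χ (m : ZMod q) := by
    conv_lhs => rw [e1]
    rw [lam_mul d m hd hm, Int.cast_mul, l1]
  have g2 : ((lam b : ℤ) : ℂ) = (lam d : ℤ) * (χ (-1) * χ (m : ZMod q)) := by
    conv_lhs => rw [e2]
    rw [lam_mul d' m' hd' hm', Int.cast_mul, l2, ← hdd, hmod, map_mul]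
  rw [Int.cast_mul, g1, g2, ← l1]
  calc ((lam d : ℤ) : ℂ) * ((lam m : ℤ) : ℂ) * (((lam d : ℤ) : ℂ) * (χ (-1) * ((lam m : ℤ) : ℂ))) =
      (((lam d : ℤ) : ℂ) * ((lam d : ℤ) : ℂ)) * (((lam m : ℤ) : ℂ) * ((lam m : ℤ) : ℂ)) * χ (-1) := by
        ring
    _ = χ (-1) := by rw [hsq, hsq, one_mul, one_mul]

theorem conv (N : ℕ) (hN : 1 ≤ N) (s t : ℤ) (hs : s = 1 ∨ s = -1) (ht : t = 1 ∨ t = -1) (q : ℕ)
    (hq : q ∣ N) (χ : DirichletCharacter ℂ q) (hχ : χ (-1) = ((-(s * t) : ℤ) : ℂ)) :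
    ((pat N s t).card : ℝ) ≤ 2 * N * Dd N χ := by
  classical
  obtain ⟨M, hM⟩ : ∃ M : ℕ → ℕ, M = fun p => p ^ (1 + (N / q).factorization p) := ⟨_, rfl⟩
  obtain ⟨P, hP⟩ : ∃ P : Finset ℕ,
      P = (Icc 1 N).filter (fun p : ℕ => p.Prime ∧ χ (p : ZMod q) ≠ -1) := ⟨_, rfl⟩
  have hDd : Dd N χ = ∑ p ∈ P, 1 / ((M p : ℕ) : ℝ) := by
    unfold Dd
    rw [hP, hM]
    refine sum_congr (by congr) fun p _ => ?_
    push_cast
    rfl
  have hsub : pat N s t ⊆ P.biUnion (fun p => (Ioc 0 N).filter (fun x => M p ∣ x) ∪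
      ((Ioc 0 N).filter (fun x => M p ∣ x)).image (fun x => N - x)) := by
    intro a ha
    unfold pat at ha
    rw [mem_filter, mem_range] at ha
    obtain ⟨haN, ha0, la, lb⟩ := ha
    by_contra hcon
    have hall : ∀ p : ℕ, p.Prime → p ≤ N → χ (p : ZMod q) ≠ -1 →
        ¬ p ^ (1 + (N / q).factorization p) ∣ a ∧
          ¬ p ^ (1 + (N / q).factorization p) ∣ N - a := by
      intro p hp hpN hc
      have hpP : p ∈ P := by
        rw [hP, mem_filter, mem_Icc]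
        exact ⟨⟨hp.one_lt.le, hpN⟩, hp, hc⟩
      constructor
      · intro hdvd
        refine hcon (mem_biUnion.2 ⟨p, hpP, mem_union_left _ ?_⟩)
        rw [mem_filter, mem_Ioc, hM]
        exact ⟨⟨ha0, haN.le⟩, hdvd⟩
      · intro hdvd
        refine hcon (mem_biUnion.2 ⟨p, hpP, mem_union_right _ (mem_image.2 ⟨N - a, ?_, by omega⟩)⟩)
        rw [mem_filter, mem_Ioc, hM]
        exact ⟨⟨by omega, by omega⟩, hdvd⟩
    have h3 := conv_key hN hq χ (by omega : a + (N - a) = N) ha0 (by omega) hall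
    rw [la, lb, hχ] at h3
    have h4 : s * t = -(s * t) := by exact_mod_cast h3
    rcases hs with rfl | rfl <;> rcases ht with rfl | rfl <;> norm_num at h4
  have hcard : (pat N s t).card ≤ ∑ p ∈ P, (N / M p + N / M p) := by
    refine (card_le_card hsub).trans (card_biUnion_le.trans (sum_le_sum fun p _ => ?_))
    refine (card_union_le _ _).trans (add_le_add ?_ ?_)
    · rw [Nat.Ioc_filter_dvd_card_eq_div]
    · refine card_image_le.trans ?_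
      rw [Nat.Ioc_filter_dvd_card_eq_div]
  have h5 : ((pat N s t).card : ℝ) ≤ ∑ p ∈ P, ((N / M p + N / M p : ℕ) : ℝ) := by
    exact_mod_cast hcard
  refine h5.trans ?_
  rw [hDd, mul_sum]
  refine sum_le_sum fun p _ => ?_
  have h6 : ((N / M p : ℕ) : ℝ) ≤ (N : ℝ) / ((M p : ℕ) : ℝ) := Nat.cast_div_le
  rw [Nat.cast_add]
  calc ((N / M p : ℕ) : ℝ) + ((N / M p : ℕ) : ℝ) ≤
      (N : ℝ) / ((M p : ℕ) : ℝ) + (N : ℝ) / ((M p : ℕ) : ℝ) := add_le_add h6 h6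
    _ = 2 * N * (1 / ((M p : ℕ) : ℝ)) := by ring

end Pool.Agent.H78.PE

end

section

/-!
# LQ stage 3, module Fin8: lower bounds for large `N`

`stage3a`: if `L(1,χ)` is not small for the real characters mod `M` of the relevant parity.
`stage3b`: for `N ≤ X ≤ N ^ (1+κ)` unless `q X ∣ M` and the sign is `σ X`; `q X` grows faster than any power
of `log X` (Siegel).
-/

set_option autoImplicit false

namespace Pool.Agent.H11.LQ

open Finset
open Pool.Agent.H34PG (lam lam_val lam_mul lam_prime)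
open Pool.Agent.H78.PD (Fail)

/-- the reduction to the exceptional set of `2` -/
theorem ex_pat {N M : ℕ} {s t : ℤ} (hs : s = 1 ∨ s = -1) (ht : t = 1 ∨ t = -1)
    (hs1 : s = t → N = 2 * M) (hs2 : s ≠ t → N = M) :
    (Ex M (-(s * t)) 2).card ≤ 24 * (pat N s t).card + 4 := by
  by_cases he : s = t
  · have hm2 : N = 2 * M := hs1 he
    subst he
    have h5 := red_same M hs
    rw [← hm2] at h5
    have hη : (-(s * s) : ℤ) = -1 := by rcases hs with rfl | rfl <;> norm_num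
    rw [hη]
    exact h5
  · have hm2 : N = M := hs2 he
    subst hm2
    have h5 := red_mixed N
    have h6 : ((range N).filter fun a => 0 < a ∧ lam a ≠ lam (N - a)) ⊆ pat N s t ∪ pat N t s := by
      intro a ha
      rw [mem_filter, mem_range] at ha
      obtain ⟨ha1, ha2, ha3⟩ := ha
      unfold pat
      rw [mem_union, mem_filter, mem_filter, mem_range]
      clear hs1 hs2 h5
      rcases lam_val a with e1 | e1 <;> rcases lam_val (N - a) with e2 | e2 <;>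
        rcases hs with rfl | rfl <;> rcases ht with rfl | rfl <;>
        simp_all
    have h7 := (Finset.card_le_card h6).trans (Finset.card_union_le _ _)
    have h8 := pat_swap N t s
    have hη : (-(s * t) : ℤ) = 1 := by
      clear hs1 hs2 h5 h6 h7 h8
      rcases hs with rfl | rfl <;> rcases ht with rfl | rfl <;>
        first | exact absurd rfl he | norm_num
    rw [hη]
    omega

/-- the sign and the modulus -/
theorem fin8_mod {N M : ℕ} {s t : ℤ} (hs : s = 1 ∨ s = -1) (ht : t = 1 ∨ t = -1)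
    (hs1 : s = t → N = 2 * M) (hs2 : s ≠ t → N = M) :
    M ∣ N ∧ N ≤ 2 * M ∧ (-(s * t) = 1 ∨ -(s * t) = -1) := by
  refine ⟨?_, ?_, ?_⟩
  · by_cases he : s = t
    · rw [hs1 he]
      exact Dvd.intro_left 2 rfl
    · rw [hs2 he]
  · by_cases he : s = t
    · rw [hs1 he]
    · have := hs2 he
      omega
  · rcases hs with rfl | rfl <;> rcases ht with rfl | rfl <;> norm_num

/-- `log (ω(N) + 2)` -/
noncomputable def lw (N : ℕ) : ℝ := Real.log (N.primeFactors.card + 2)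

theorem lw_pos (N : ℕ) : 0 < lw N := by
  unfold lw
  refine Real.log_pos ?_
  have : (0 : ℝ) ≤ N.primeFactors.card := Nat.cast_nonneg _
  linarith only

/-- `log (ω(m) + 2) ^ 2` is small compared with `log m` -/
theorem fin8_lw {m : ℕ} (hm : m ≠ 0) (h : 1 / 2 ≤ Real.log m) :
    lw m ^ 2 ≤ 384 * Real.log m ^ (1 / 4 : ℝ) := by
  have h3 : (m.primeFactors.card : ℝ) ≤ 2 * Real.log m := by
    have h4 := two_pow_card_le (n := m) hm
    have h5 : (2 : ℝ) ^ m.primeFactors.card ≤ m := by exact_mod_cast h4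
    have h6 : (m.primeFactors.card : ℝ) * Real.log 2 ≤ Real.log m := by
      rw [← Real.log_pow]
      exact Real.log_le_log (by positivity) h5
    have h7 : (1 : ℝ) / 2 ≤ Real.log 2 := by
      have := Real.log_two_gt_d9
      linarith only [this]
    have h9 : (0 : ℝ) ≤ m.primeFactors.card := Nat.cast_nonneg _
    nlinarith only [h6, h7]
  obtain ⟨L, hL⟩ : ∃ L, L = Real.log m := ⟨_, rfl⟩
  rw [← hL] at h h3 ⊢
  have hL0 : 0 < L := by linarith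
  have h4 : lw m ≤ Real.log (6 * L) := by
    unfold lw
    refine Real.log_le_log (by positivity) ?_
    linarith only [h3, h]
  have h5 : Real.log (6 * L) ≤ (6 * L) ^ (1 / 8 : ℝ) / (1 / 8) :=
    Real.log_le_rpow_div (by positivity) (by norm_num)
  have h6 : lw m ≤ 8 * (6 * L) ^ (1 / 8 : ℝ) := by
    refine (h4.trans h5).trans (le_of_eq ?_)
    ring
  have h7 := lw_pos m
  calc lw m ^ 2 ≤ (8 * (6 * L) ^ (1 / 8 : ℝ)) ^ 2 := pow_le_pow_left₀ h7.le h6 2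
    _ = 64 * (6 * L) ^ (1 / 4 : ℝ) := by
        rw [mul_pow, ← Real.rpow_natCast ((6 * L) ^ (1 / 8 : ℝ)), ← Real.rpow_mul (by positivity)]
        norm_num
    _ = 64 * (6 ^ (1 / 4 : ℝ) * L ^ (1 / 4 : ℝ)) := by rw [Real.mul_rpow (by norm_num) hL0.le]
    _ ≤ 64 * (6 * L ^ (1 / 4 : ℝ)) := by
        refine mul_le_mul_of_nonneg_left (mul_le_mul_of_nonneg_right ?_ (by positivity))
          (by norm_num)
        calc (6 : ℝ) ^ (1 / 4 : ℝ) ≤ 6 ^ (1 : ℝ) :=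
              Real.rpow_le_rpow_of_exponent_le (by norm_num) (by norm_num)
          _ = 6 := Real.rpow_one _
    _ = 384 * L ^ (1 / 4 : ℝ) := by ring

private theorem fin8_tot {m : ℕ} [NeZero m] {q : ℕ} (ψ : DirichletCharacter ℂ q) :
    (m.totient : ℝ) / m ≤ ‖∏ p ∈ m.primeFactors, (1 - ψ p * (p : ℂ) ^ (-(1 : ℂ)))‖ := by
  have hm0 : (m : ℝ) ≠ 0 := by exact_mod_cast NeZero.ne m
  have h1 : ((m.totient : ℚ) : ℝ) = ((m * ∏ p ∈ m.primeFactors, (1 - (p : ℚ)⁻¹) : ℚ) : ℝ) := by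
    rw [Nat.totient_eq_mul_prod_factors]
  push_cast at h1
  rw [h1, mul_div_assoc, mul_comm, div_mul_cancel₀ _ hm0, norm_prod]
  refine Finset.prod_le_prod (fun p hp => ?_) fun p hp => ?_
  · have hp1 : (1 : ℝ) ≤ p := by exact_mod_cast (Nat.prime_of_mem_primeFactors hp).one_le
    have := inv_le_one_of_one_le₀ hp1
    linarith only [this]
  · have h2 : ‖ψ p * (p : ℂ) ^ (-(1 : ℂ))‖ ≤ (p : ℝ)⁻¹ := by
      rw [Complex.cpow_neg, Complex.cpow_one, norm_mul, norm_inv, Complex.norm_natCast]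
      have h3 := DirichletCharacter.norm_le_one ψ (p : ZMod q)
      have h4 : (0 : ℝ) ≤ (p : ℝ)⁻¹ := by positivity
      exact mul_le_of_le_one_left h4 h3
    have h5 := norm_sub_norm_le (1 : ℂ) (ψ p * (p : ℂ) ^ (-(1 : ℂ)))
    rw [norm_one] at h5
    linarith only [h2, h5]

/-- the primitive character -/
theorem fin8_prim {m : ℕ} [NeZero m] (χ : DirichletCharacter ℂ m) (h2 : χ ^ 2 = 1)
    (h1 : χ ≠ 1) : ∃ (_ : NeZero χ.conductor) (ψ : DirichletCharacter ℂ χ.conductor),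
      ψ.IsPrimitive ∧ ψ ^ 2 = 1 ∧ ψ ≠ 1 ∧
      ‖DirichletCharacter.LFunction ψ 1‖ * ((m.totient : ℝ) / m)
        ≤ ‖DirichletCharacter.LFunction χ 1‖ := by
  have hcond : NeZero χ.conductor := ⟨by
    intro h
    have h1 := χ.conductor_dvd_level
    rw [h] at h1
    exact NeZero.ne m (Nat.eq_zero_of_zero_dvd h1)⟩
  obtain ⟨ψ, hψ⟩ : ∃ ψ, ψ = χ.primitiveCharacter := ⟨_, rfl⟩
  have hch : DirichletCharacter.changeLevel χ.conductor_dvd_level ψ = χ := by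
    rw [hψ]
    exact χ.changeLevel_primitiveCharacter
  have hψp : ψ.IsPrimitive := by
    rw [hψ]
    exact χ.primitiveCharacter_isPrimitive
  have hψ2 : ψ ^ 2 = 1 := by
    apply DirichletCharacter.changeLevel_injective χ.conductor_dvd_level
    rw [map_pow, hch, h2, map_one]
  have hψ1 : ψ ≠ 1 := by
    intro h
    apply h1
    rw [← hch, h, map_one]
  have h3 := DirichletCharacter.LFunction_changeLevel χ.conductor_dvd_level ψ (s := 1) (Or.inl hψ1)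
  rw [hch] at h3
  refine ⟨hcond, ψ, hψp, hψ2, hψ1, ?_⟩
  rw [h3, norm_mul]
  exact mul_le_mul_of_nonneg_left (fin8_tot (m := m) ψ) (norm_nonneg _)

/-- the conductor of a character with small `L(1,χ)` is large -/
theorem fin8_grow (D : ℝ) (hD : 0 < D) (A : ℕ) : ∃ c : ℝ, 0 < c ∧
    ∀ (X f : ℕ) [NeZero f] (ψ : DirichletCharacter ℂ f), 1 ≤ Real.log X → ψ.IsPrimitive →
      ψ ^ 2 = 1 → ψ ≠ 1 →
      ‖DirichletCharacter.LFunction ψ 1‖ ≤ D * Real.log X ^ (-(1 / 2) : ℝ) →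
      c * Real.log X ^ A ≤ f := by
  obtain ⟨c, hc, hs⟩ := Pool.Agent.H91.EHA.siegel (1 / (2 * ((A : ℝ) + 1))) (by positivity)
  refine ⟨(c / D) ^ (2 * (A + 1)), by positivity, fun X f _ ψ hX b1 b2 b3 b4 => ?_⟩
  have h3 := (hs f ψ b1 b2 b3).trans b4
  have hL0 : 0 < Real.log X := by linarith only [hX]
  have hq0 : (0 : ℝ) < f := by
    have := NeZero.pos f
    exact_mod_cast this
  obtain ⟨z, hz⟩ : ∃ z : ℝ, z = (f : ℝ) ^ (1 / (2 * ((A : ℝ) + 1))) := ⟨_, rfl⟩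
  obtain ⟨y, hy⟩ : ∃ y : ℝ, y = Real.log X ^ (1 / 2 : ℝ) := ⟨_, rfl⟩
  have hz0 : 0 < z := by rw [hz]; positivity
  have hy0 : 0 < y := by rw [hy]; positivity
  rw [Real.rpow_neg hq0.le, Real.rpow_neg hL0.le, ← hz, ← hy, ← div_eq_mul_inv, ← div_eq_mul_inv,
    div_le_div_iff₀ hz0 hy0] at h3
  have h5 : c / D * y ≤ z := by
    rw [div_mul_eq_mul_div, div_le_iff₀ hD]
    linarith only [h3]
  have h6 := pow_le_pow_left₀ (by positivity) h5 (2 * (A + 1))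
  have h7 : z ^ (2 * (A + 1)) = f := by
    rw [hz, ← Real.rpow_natCast, ← Real.rpow_mul hq0.le]
    have h8 : 1 / (2 * ((A : ℝ) + 1)) * ((2 * (A + 1) : ℕ) : ℝ) = 1 := by
      push_cast
      field_simp
    rw [h8, Real.rpow_one]
  have h8 : y ^ (2 * (A + 1)) = Real.log X ^ (A + 1) := by
    rw [hy, pow_mul, ← Real.rpow_natCast (Real.log X ^ (1 / 2 : ℝ)) 2, ← Real.rpow_mul hL0.le]
    norm_num
  rw [h7, mul_pow, h8] at h6
  refine le_trans (mul_le_mul_of_nonneg_left ?_ (by positivity)) h6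
  exact pow_le_pow_right₀ hX (by omega)

/-- the exceptional data of `X` -/
theorem fin8_choice {θ ε1 C1 k1 : ℝ} {Q0 m0 X0 : ℕ} (H : ∀ X : ℕ, X0 ≤ X → ∃ c : ℕ, ∃ e : ℤ,
      ∀ (m : ℕ) [NeZero m], m0 ≤ m → (X : ℝ) ^ (1 - k1) ≤ m → m ≤ X →
      ∀ Q : ℕ, Q0 ≤ Q → ∀ η : ℤ, Fail θ ε1 m η Q →
      η = e ∧ ∃ χ : DirichletCharacter ℂ m, χ ^ 2 = 1 ∧ χ ≠ 1 ∧ χ (-1) = (η : ℂ) ∧
        ‖DirichletCharacter.LFunction χ 1‖ ≤ C1 * (m / m.totient) / Real.log m ∧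
        χ.conductor = c) :
    ∃ (q : ℕ → ℕ) (σ : ℕ → ℤ), (∀ X, σ X = 1 ∨ σ X = -1) ∧
      (∀ X, q X = X + 1 ∨ ∃ (m : ℕ) (_ : NeZero m), (X : ℝ) ^ (1 - k1) ≤ m ∧ m ≤ X ∧
        ∃ χ : DirichletCharacter ℂ m, χ ^ 2 = 1 ∧ χ ≠ 1 ∧
        ‖DirichletCharacter.LFunction χ 1‖ ≤ C1 * (m / m.totient) / Real.log m ∧
        χ.conductor = q X) ∧
      ∀ X, X0 ≤ X → ∀ (m : ℕ) [NeZero m], m0 ≤ m → (X : ℝ) ^ (1 - k1) ≤ m → m ≤ X →
        ∀ Q : ℕ, Q0 ≤ Q → ∀ η : ℤ, Fail θ ε1 m η Q → η = σ X ∧ q X ∣ m := by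
  have hex : ∀ X : ℕ, ∃ q : ℕ, ∃ σ : ℤ, (σ = 1 ∨ σ = -1) ∧
      (q = X + 1 ∨ ∃ (m : ℕ) (_ : NeZero m), (X : ℝ) ^ (1 - k1) ≤ m ∧ m ≤ X ∧
        ∃ χ : DirichletCharacter ℂ m, χ ^ 2 = 1 ∧ χ ≠ 1 ∧
        ‖DirichletCharacter.LFunction χ 1‖ ≤ C1 * (m / m.totient) / Real.log m ∧
        χ.conductor = q) ∧
      (X0 ≤ X → ∀ (m : ℕ) [NeZero m], m0 ≤ m → (X : ℝ) ^ (1 - k1) ≤ m → m ≤ X →
        ∀ Q : ℕ, Q0 ≤ Q → ∀ η : ℤ, Fail θ ε1 m η Q → η = σ ∧ q ∣ m) := by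
    intro X
    by_cases hX : X0 ≤ X
    · by_cases h : ∃ (m : ℕ) (_ : NeZero m), m0 ≤ m ∧ (X : ℝ) ^ (1 - k1) ≤ m ∧ m ≤ X ∧
          ∃ Q : ℕ, Q0 ≤ Q ∧ ∃ η : ℤ, Fail θ ε1 m η Q
      · obtain ⟨c, e, H1⟩ := H X hX
        obtain ⟨m, _, g1, g2, g3, Q, g4, η, g5⟩ := h
        obtain ⟨f1, χ, f2, f3, f4, f5, f6⟩ := H1 m g1 g2 g3 Q g4 η g5
        refine ⟨c, e, ?_, Or.inr ⟨m, inferInstance, g2, g3, χ, f2, f3, f5, f6⟩, fun _ m' _ a1 a2 a3 Q' a4 η' a5 => ?_⟩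
        · rw [← f1]
          exact g5.2.1
        · obtain ⟨b1, χ', b2, b3, b4, b5, b6⟩ := H1 m' a1 a2 a3 Q' a4 η' a5
          refine ⟨b1, ?_⟩
          rw [← b6]
          exact χ'.conductor_dvd_level
      · refine ⟨X + 1, 1, Or.inl rfl, Or.inl rfl, fun _ m inst a1 a2 a3 Q a4 η a5 => ?_⟩
        exact absurd ⟨m, inst, a1, a2, a3, Q, a4, η, a5⟩ h
    · exact ⟨X + 1, 1, Or.inl rfl, Or.inl rfl, fun h => absurd h hX⟩
  choose q σ h1 h2 h3 using hex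
  exact ⟨q, σ, h1, h2, fun X hX m _ => h3 X hX m⟩

end Pool.Agent.H11.LQ

end

section

/-!
# PE, Dst: from the good divisors to `Dd m ψ`

`ε' = κ = ε/16`, `β = ε²/800`, `B = Bd m G`, `#B ≤ β m < m`, so `G` is not empty; `y = m^(1-ε/8) ≤ (m/d)^(1-ε')` for `d ∈ G` (`(1-κ)(1-ε') ≥ 1 - ε/8`, `m/d ≥ m^(1-κ)`).  `v p` = exponent of `p` in `m`.
The primes `p ≤ m` with `ψ(p) ≠ -1` (the terms of `Dd m ψ`, `q = c`):
* (A) `p ∣ c`: exponent `a p = 1 + v_p(m/c) ≤ v p`; for `x < m` with `p^(a p) ∣ x`, `d = gcd(x, m)` is divisible by `p^(a p)`; if `d ∈ G` then `c ∣ m/d`, `v_p(c) + v_p(d) ≤ v_p(m) = v_p(c) + v_p(m/c)`, a contradiction.  So `x ∈ B` and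
  `cnt_union` gives `≤ 2β`.
* (B1) `p ∤ c`, `p ∤ m`, `p ≤ y`: the term is `1/p` (`v_p(m/c) = 0`); these primes are in `Pr (m/d) ψ ε'` for any `d ∈ G`: `≤ ε'`.
* (B2) `p ∤ c`, `p ∣ m`, `p ≤ y`: the term is `p^(-1-v p)` (`v_p(m/c) = v p`); `cnt_avg` with `E = ε'`: for `x ∉ B`, `d = gcd(x, m) ∈ G`, the `p` with `p^(v p) ∣ x` do not divide `m/d`, so they are in `Pr (m/d) ψ ε'`: `≤ ε' + √(2β) = ε' + ε/20`.
* (C) `p ∤ c`, `p > y`: for `p ∤ m`: `∑ 1/p ≤ log(1/(1-ε/8)) + ε/16 ≤ ε/7 + ε/16` (`pri_mert` with `a = 1 - ε/8`, `b = 1`, `PI m (m^a) (m^1)`); for `p ∣ m`: the term is `≤ 1/p² ≤ 1/y²`, at most one such prime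
  (`y² > m`), total `≤ ε/16` for `m` large.
Sum `≤ ε/400 + ε/16 + ε/16 + ε/20 + ε/7 + ε/16 + ε/16 ≤ ε/2`.
-/

set_option autoImplicit false

namespace Pool.Agent.H78.PE

open Finset
open Pool.Agent.H34PG (lam lam_val lam_mul lam_prime)
open Pool.Agent.H11.LQ Pool.Agent.H78.PG Pool.Agent.H78.PD

private theorem Dst_fac_zero {m c p : ℕ} (hc : c ∣ m) (hpm : ¬ p ∣ m) : (m / c).factorization p = 0 :=
  Nat.factorization_eq_zero_of_not_dvd fun h => hpm (h.trans (Nat.div_dvd_of_dvd hc))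

private theorem Dst_fac_add {m c : ℕ} (hm : m ≠ 0) (hc : c ∣ m) (p : ℕ) :
    m.factorization p = c.factorization p + (m / c).factorization p := by
  have hc0 : c ≠ 0 := fun h => hm (by rw [h] at hc; exact Nat.eq_zero_of_zero_dvd hc)
  have h1 : c.factorization p ≤ m.factorization p := (Nat.factorization_le_iff_dvd hc0 hm).2 hc p
  rw [Nat.factorization_div hc, Finsupp.tsub_apply]
  omega

private theorem Dst_A {ε : ℝ} (hε1 : ε ≤ 1) (hε : 0 < ε) {m : ℕ} (hm : 1 ≤ m) {c : ℕ} (hc : c ∣ m) {G : Finset ℕ}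
    (hB : ((Bd m G).card : ℝ) ≤ ε ^ 2 / 800 * m) (hG : ∀ d ∈ G, d ∣ m ∧ c ∣ m / d) {S : Finset ℕ}
    (hS : ∀ p ∈ S, p.Prime ∧ p ∣ c) :
    ∑ p ∈ S, 1 / (p : ℝ) ^ (1 + (m / c).factorization p) ≤ ε / 400 := by
  have hm0 : m ≠ 0 := by omega
  have hc0 : c ≠ 0 := fun h => hm0 (by rw [h] at hc; exact Nat.eq_zero_of_zero_dvd hc)
  have h := cnt_union m hm (Bd m G) S (fun p => 1 + (m / c).factorization p) (fun p hp => ?_) (fun p hp x hx hpx => ?_)
    (ε ^ 2 / 800) (by nlinarith) hB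
  · refine h.trans ?_
    nlinarith
  · obtain ⟨hp1, hp2⟩ := hS p hp
    refine ⟨hp1, by omega, ?_⟩
    rw [hp1.pow_dvd_iff_le_factorization hm0, Dst_fac_add hm0 hc p]
    have : 1 ≤ c.factorization p := (hp1.dvd_iff_one_le_factorization hc0).1 hp2
    omega
  · obtain ⟨hp1, hp2⟩ := hS p hp
    rw [mem_Bd]
    refine ⟨hx, fun hd => ?_⟩
    obtain ⟨hd1, hd2⟩ := hG _ hd
    have hd0 : Nat.gcd x m ≠ 0 := fun h => hm0 (Nat.eq_zero_of_gcd_eq_zero_right h)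
    have h1 : p ^ (1 + (m / c).factorization p) ∣ Nat.gcd x m := by
      refine Nat.dvd_gcd hpx ?_
      rw [hp1.pow_dvd_iff_le_factorization hm0, Dst_fac_add hm0 hc p]
      have : 1 ≤ c.factorization p := (hp1.dvd_iff_one_le_factorization hc0).1 hp2
      omega
    rw [hp1.pow_dvd_iff_le_factorization hd0] at h1
    have h2 := Dst_fac_add hm0 hd1 p
    have h3 := Dst_fac_add hm0 hc p
    have hmd : m / Nat.gcd x m ≠ 0 := (Nat.div_pos (Nat.le_of_dvd (by omega) hd1) (Nat.pos_of_ne_zero hd0)).ne'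
    have h4 : c.factorization p ≤ (m / Nat.gcd x m).factorization p := (Nat.factorization_le_iff_dvd hc0 hmd).2 hd2 p
    omega

/-- the comparison of the ranges -/
private theorem Dst_y {ε : ℝ} (_hε : 0 < ε) (hε1 : ε ≤ 1) {m d : ℕ} (hm : 1 ≤ m) (hd : d ∣ m)
    (hd2 : (d : ℝ) ≤ (m : ℝ) ^ (ε / 16)) : (m : ℝ) ^ (1 - ε / 8) ≤ ((m / d : ℕ) : ℝ) ^ (1 - ε / 16) := by
  have hm1 : (1 : ℝ) ≤ m := by exact_mod_cast hm
  have hmp : (0 : ℝ) < m := by linarith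
  have hd0 : 0 < d := Nat.pos_of_dvd_of_pos hd (by omega)
  have hdp : (0 : ℝ) < d := by exact_mod_cast hd0
  have h1 : (m : ℝ) ^ (1 - ε / 16) ≤ ((m / d : ℕ) : ℝ) := by
    rw [Nat.cast_div hd hdp.ne', le_div_iff₀ hdp, Real.rpow_sub hmp, Real.rpow_one, div_mul_eq_mul_div, div_le_iff₀ (Real.rpow_pos_of_pos hmp _)]
    exact mul_le_mul_of_nonneg_left hd2 hmp.le
  calc (m : ℝ) ^ (1 - ε / 8) ≤ (m : ℝ) ^ ((1 - ε / 16) * (1 - ε / 16)) :=
        Real.rpow_le_rpow_of_exponent_le hm1 (by nlinarith [sq_nonneg ε])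
    _ = ((m : ℝ) ^ (1 - ε / 16)) ^ (1 - ε / 16) := Real.rpow_mul hmp.le _ _
    _ ≤ _ := Real.rpow_le_rpow (Real.rpow_nonneg hmp.le _) h1 (by linarith)

private theorem Dst_B1 {ε : ℝ} {m c d : ℕ} {ψ : DirichletCharacter ℂ c} (hc : c ∣ m) (hd : d ∣ m)
    (hy : (m : ℝ) ^ (1 - ε / 8) ≤ ((m / d : ℕ) : ℝ) ^ (1 - ε / 16)) (hP : Prt (m / d) ψ (ε / 16)) {S : Finset ℕ}
    (hS : ∀ p ∈ S, p.Prime ∧ ψ (p : ZMod c) ≠ -1 ∧ ¬ p ∣ m ∧ (p : ℝ) ≤ (m : ℝ) ^ (1 - ε / 8)) :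
    ∑ p ∈ S, 1 / (p : ℝ) ^ (1 + (m / c).factorization p) ≤ ε / 16 := by
  refine le_trans ?_ hP
  have h1 : ∑ p ∈ S, 1 / (p : ℝ) ^ (1 + (m / c).factorization p) = ∑ p ∈ S, 1 / (p : ℝ) :=
    sum_congr rfl fun p hp => by rw [Dst_fac_zero hc (hS p hp).2.2.1, add_zero, pow_one]
  rw [h1]
  refine sum_le_sum_of_subset_of_nonneg (fun p hp => ?_) fun _ _ _ => by positivity
  obtain ⟨h2, h3, h4, h5⟩ := hS p hp
  rw [mem_Pr]
  exact ⟨h5.trans hy, h2, fun h => h4 (h.trans (Nat.div_dvd_of_dvd hd)), h3⟩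

private theorem Dst_B2 {ε : ℝ} (hε : 0 < ε) (hε1 : ε ≤ 1) {m c : ℕ} (hm : 1 ≤ m) {ψ : DirichletCharacter ℂ c} (hc : c ∣ m) {G : Finset ℕ}
    (hB : ((Bd m G).card : ℝ) ≤ ε ^ 2 / 800 * m)
    (hG : ∀ d ∈ G, d ∣ m ∧ (d : ℝ) ≤ (m : ℝ) ^ (ε / 16) ∧ c ∣ m / d ∧ Prt (m / d) ψ (ε / 16)) {S : Finset ℕ}
    (hS : ∀ p ∈ S, p.Prime ∧ ψ (p : ZMod c) ≠ -1 ∧ ¬ p ∣ c ∧ p ∣ m ∧ (p : ℝ) ≤ (m : ℝ) ^ (1 - ε / 8)) :
    ∑ p ∈ S, 1 / (p : ℝ) ^ (1 + (m / c).factorization p) ≤ ε / 16 + ε / 20 := by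
  have hm0 : m ≠ 0 := by omega
  have h1 : ∑ p ∈ S, 1 / (p : ℝ) ^ (1 + (m / c).factorization p) = ∑ p ∈ S, 1 / (p : ℝ) ^ (1 + m.factorization p) :=
    sum_congr rfl fun p hp => by
      rw [Dst_fac_add hm0 hc p, Nat.factorization_eq_zero_of_not_dvd (hS p hp).2.2.1, zero_add]
  rw [h1]
  have h2 := cnt_avg m hm (Bd m G) S (fun p hp => ⟨(hS p hp).1, (hS p hp).2.2.2.1⟩) (ε ^ 2 / 800) (ε / 16) (by linarith) hB
    (fun x hx hxB => ?_)
  · refine h2.trans ?_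
    have h3 : Real.sqrt (2 * (ε ^ 2 / 800)) = ε / 20 := by
      rw [show 2 * (ε ^ 2 / 800) = (ε / 20) ^ 2 by ring, Real.sqrt_sq (by linarith)]
    rw [h3]
  · have hd : Nat.gcd x m ∈ G := by
      by_contra h
      exact hxB (mem_Bd.2 ⟨hx, h⟩)
    obtain ⟨hd1, hd2, hd3, hd4⟩ := hG _ hd
    have hd0 : Nat.gcd x m ≠ 0 := fun h => hm0 (Nat.eq_zero_of_gcd_eq_zero_right h)
    refine le_trans (sum_le_sum_of_subset_of_nonneg (fun p hp => ?_) fun _ _ _ => by positivity) hd4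
    rw [mem_filter] at hp
    obtain ⟨hp1, hp2⟩ := hp
    obtain ⟨h3, h4, h5, h6, h7⟩ := hS p hp1
    rw [mem_Pr]
    refine ⟨h7.trans (Dst_y hε hε1 hm hd1 hd2), h3, fun h => ?_, h4⟩
    have hmd : m / Nat.gcd x m ≠ 0 := (Nat.div_pos (Nat.le_of_dvd (by omega) hd1) (Nat.pos_of_ne_zero hd0)).ne'
    have h8 : 1 ≤ (m / Nat.gcd x m).factorization p := (h3.dvd_iff_one_le_factorization hmd).1 h
    have h9 : p ^ m.factorization p ∣ Nat.gcd x m := Nat.dvd_gcd hp2 (Nat.ordProj_dvd m p)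
    rw [h3.pow_dvd_iff_le_factorization hd0] at h9
    have h10 := Dst_fac_add hm0 hd1 p
    omega

private theorem Dst_C2 {ε : ℝ} (hε : 0 < ε) (hε1 : ε ≤ 1) {m c : ℕ} (hm : 1 ≤ m) (hm2 : 16 / ε ≤ m) (hc : c ∣ m) {S : Finset ℕ}
    (hS : ∀ p ∈ S, p.Prime ∧ ¬ p ∣ c ∧ p ∣ m ∧ (m : ℝ) ^ (1 - ε / 8) < p) :
    ∑ p ∈ S, 1 / (p : ℝ) ^ (1 + (m / c).factorization p) ≤ ε / 16 := by
  have hm0 : m ≠ 0 := by omega
  have hm1 : (1 : ℝ) ≤ m := by exact_mod_cast hm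
  have hmp : (0 : ℝ) < m := by linarith
  have hy : (m : ℝ) ≤ ((m : ℝ) ^ (1 - ε / 8)) ^ 2 := by
    rw [← Real.rpow_natCast, ← Real.rpow_mul hmp.le]
    calc (m : ℝ) = (m : ℝ) ^ (1 : ℝ) := (Real.rpow_one _).symm
      _ ≤ _ := Real.rpow_le_rpow_of_exponent_le hm1 (by push_cast; linarith)
  have hyp : 0 < (m : ℝ) ^ (1 - ε / 8) := Real.rpow_pos_of_pos hmp _
  have hcard : S.card ≤ 1 := by
    rw [card_le_one]
    intro p hp p' hp'
    by_contra hne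
    obtain ⟨h1, h2, h3, h4⟩ := hS p hp
    obtain ⟨h1', h2', h3', h4'⟩ := hS p' hp'
    have h5 : p * p' ∣ m := Nat.Coprime.mul_dvd_of_dvd_of_dvd ((Nat.coprime_primes h1 h1').2 hne) h3 h3'
    have h6 : ((p * p' : ℕ) : ℝ) ≤ m := by exact_mod_cast Nat.le_of_dvd (by omega) h5
    rw [Nat.cast_mul] at h6
    have h7 : ((m : ℝ) ^ (1 - ε / 8)) ^ 2 < (p : ℝ) * p' := by
      rw [sq]
      exact mul_lt_mul'' h4 h4' hyp.le hyp.le
    linarith
  have hterm : ∀ p ∈ S, 1 / (p : ℝ) ^ (1 + (m / c).factorization p) ≤ 1 / m := fun p hp => by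
    obtain ⟨h1, h2, h3, h4⟩ := hS p hp
    have h5 : (m / c).factorization p = m.factorization p := by
      rw [Dst_fac_add hm0 hc p, Nat.factorization_eq_zero_of_not_dvd h2, zero_add]
    have h6 : 1 ≤ m.factorization p := (h1.dvd_iff_one_le_factorization hm0).1 h3
    rw [h5]
    refine one_div_le_one_div_of_le hmp (hy.trans ?_)
    have hp1 : (1 : ℝ) ≤ p := by exact_mod_cast h1.one_lt.le
    calc ((m : ℝ) ^ (1 - ε / 8)) ^ 2 ≤ (p : ℝ) ^ 2 := pow_le_pow_left₀ hyp.le h4.le 2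
      _ ≤ _ := pow_le_pow_right₀ hp1 (by omega)
  refine (sum_le_card_nsmul _ _ _ hterm).trans ?_
  rw [nsmul_eq_mul]
  have h1 : (S.card : ℝ) ≤ 1 := by exact_mod_cast hcard
  have h2 : 1 / (m : ℝ) ≤ ε / 16 := by
    rw [div_le_div_iff₀ hmp (by norm_num)]
    rw [div_le_iff₀ hε] at hm2
    linarith
  calc (S.card : ℝ) * (1 / m) ≤ 1 * (1 / m) := mul_le_mul_of_nonneg_right h1 (by positivity)
    _ ≤ ε / 16 := by rw [one_mul]; exact h2

private theorem Dst_log {ε : ℝ} (hε : 0 < ε) (hε1 : ε ≤ 1) : Real.log (1 / (1 - ε / 8)) ≤ ε / 7 := by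
  have h1 : 0 < 1 - ε / 8 := by linarith
  have h2 := Real.log_le_sub_one_of_pos (one_div_pos.2 h1)
  refine h2.trans ?_
  rw [sub_le_iff_le_add, div_le_iff₀ h1]
  nlinarith

theorem dst (ε : ℝ) (hε : 0 < ε) (hε1 : ε ≤ 1) : ∃ m0 : ℕ, ∀ m : ℕ, m0 ≤ m →
    ∀ (c : ℕ) (ψ : DirichletCharacter ℂ c), c ∣ m → ∀ G : Finset ℕ,
    ((Bd m G).card : ℝ) ≤ ε ^ 2 / 800 * m →
    (∀ d ∈ G, d ∣ m ∧ (d : ℝ) ≤ (m : ℝ) ^ (ε / 16) ∧ c ∣ m / d ∧ Prt (m / d) ψ (ε / 16)) →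
    Dd m ψ ≤ ε / 2 := by
  classical
  obtain ⟨m1, hm1⟩ := pri_mert (1 - ε / 8) 1 (ε / 16) (by linarith) (by linarith) le_rfl (by linarith)
  refine ⟨max (max m1 1) ⌈16 / ε⌉₊, fun m hm c ψ hc G hB hG => ?_⟩
  have hmm1 : m1 ≤ m := (le_max_left _ _).trans ((le_max_left _ _).trans hm)
  have hm1' : 1 ≤ m := (le_max_right _ _).trans ((le_max_left _ _).trans hm)
  have hm2 : 16 / ε ≤ m := (Nat.le_ceil _).trans (by exact_mod_cast (le_max_right _ _).trans hm)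
  have hmp : (0 : ℝ) < m := by exact_mod_cast hm1'
  -- `G` is not empty
  obtain ⟨d, hd⟩ : ∃ d, d ∈ G := by
    by_contra hne
    push Not at hne
    have h1 : Bd m G = range m := by
      ext x
      rw [mem_Bd, mem_range]
      exact ⟨fun h => h.1, fun h => ⟨h, hne _⟩⟩
    rw [h1, card_range] at hB
    have h2 : ε ^ 2 / 800 * m ≤ 1 / 800 * m := mul_le_mul_of_nonneg_right (by nlinarith) hmp.le
    linarith
  obtain ⟨hd1, hd2, hd3, hd4⟩ := hG d hd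
  obtain ⟨T, hT, hD⟩ : ∃ T : Finset ℕ, (∀ p, p ∈ T ↔ (1 ≤ p ∧ p ≤ m) ∧ p.Prime ∧ ψ (p : ZMod c) ≠ -1) ∧
      Dd m ψ = ∑ p ∈ T, 1 / (p : ℝ) ^ (1 + (m / c).factorization p) :=
    ⟨_, fun p => by rw [mem_filter, mem_Icc], rfl⟩
  rw [hD]
  set f : ℕ → ℝ := fun p => 1 / (p : ℝ) ^ (1 + (m / c).factorization p) with hf
  set y : ℝ := (m : ℝ) ^ (1 - ε / 8) with hy
  have s1 := sum_filter_add_sum_filter_not T (fun p => p ∣ c) f
  have s2 := sum_filter_add_sum_filter_not (T.filter fun p => ¬ p ∣ c) (fun p => p ∣ m) f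
  have s3 := sum_filter_add_sum_filter_not ((T.filter fun p => ¬ p ∣ c).filter fun p => p ∣ m) (fun p => (p : ℝ) ≤ y) f
  have s4 := sum_filter_add_sum_filter_not ((T.filter fun p => ¬ p ∣ c).filter fun p => ¬ p ∣ m) (fun p => (p : ℝ) ≤ y) f
  have hA : ∑ p ∈ T.filter (fun p => p ∣ c), f p ≤ ε / 400 :=
    Dst_A hε1 hε hm1' hc hB (fun d hd => ⟨(hG d hd).1, (hG d hd).2.2.1⟩) fun p hp => by
      rw [mem_filter, hT] at hp
      exact ⟨hp.1.2.1, hp.2⟩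
  have hB2 : ∑ p ∈ ((T.filter fun p => ¬ p ∣ c).filter fun p => p ∣ m).filter (fun p : ℕ => (p : ℝ) ≤ y), f p ≤ ε / 16 + ε / 20 :=
    Dst_B2 hε hε1 hm1' (ψ := ψ) hc hB hG fun p hp => by
      rw [mem_filter, mem_filter, mem_filter, hT] at hp
      exact ⟨hp.1.1.1.2.1, hp.1.1.1.2.2, hp.1.1.2, hp.1.2, hp.2⟩
  have hC2 : ∑ p ∈ ((T.filter fun p => ¬ p ∣ c).filter fun p => p ∣ m).filter (fun p : ℕ => ¬ (p : ℝ) ≤ y), f p ≤ ε / 16 :=
    Dst_C2 hε hε1 hm1' hm2 hc fun p hp => by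
      rw [mem_filter, mem_filter, mem_filter, hT] at hp
      exact ⟨hp.1.1.1.2.1, hp.1.1.2, hp.1.2, not_le.1 hp.2⟩
  have hB1 : ∑ p ∈ ((T.filter fun p => ¬ p ∣ c).filter fun p => ¬ p ∣ m).filter (fun p : ℕ => (p : ℝ) ≤ y), f p ≤ ε / 16 :=
    Dst_B1 (ψ := ψ) hc hd1 (Dst_y hε hε1 hm1' hd1 hd2) hd4 fun p hp => by
      rw [mem_filter, mem_filter, mem_filter, hT] at hp
      exact ⟨hp.1.1.1.2.1, hp.1.1.1.2.2, hp.1.2, hp.2⟩
  have hC1 : ∑ p ∈ ((T.filter fun p => ¬ p ∣ c).filter fun p => ¬ p ∣ m).filter (fun p : ℕ => ¬ (p : ℝ) ≤ y), f p ≤ ε / 7 + ε / 16 := by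
    have h1 : ∑ p ∈ ((T.filter fun p => ¬ p ∣ c).filter fun p => ¬ p ∣ m).filter (fun p : ℕ => ¬ (p : ℝ) ≤ y), f p ≤
        ∑ p ∈ PI m ((m : ℝ) ^ (1 - ε / 8)) ((m : ℝ) ^ (1 : ℝ)), 1 / (p : ℝ) := by
      have h2 : ∑ p ∈ ((T.filter fun p => ¬ p ∣ c).filter fun p => ¬ p ∣ m).filter (fun p : ℕ => ¬ (p : ℝ) ≤ y), f p =
          ∑ p ∈ ((T.filter fun p => ¬ p ∣ c).filter fun p => ¬ p ∣ m).filter (fun p : ℕ => ¬ (p : ℝ) ≤ y), 1 / (p : ℝ) := by
        refine sum_congr rfl fun p hp => ?_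
        rw [mem_filter, mem_filter, mem_filter, hT] at hp
        simp only [hf]
        rw [Dst_fac_zero hc hp.1.2, add_zero, pow_one]
      rw [h2]
      refine sum_le_sum_of_subset_of_nonneg (fun p hp => ?_) fun _ _ _ => by positivity
      rw [mem_filter, mem_filter, mem_filter, hT] at hp
      unfold PI
      rw [mem_filter, mem_Icc, Real.rpow_one, Nat.floor_natCast]
      exact ⟨hp.1.1.1.1, hp.1.1.1.2.1, hp.1.2, not_le.1 hp.2⟩
    have h3 := (abs_le.1 (hm1 m hmm1)).2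
    have h4 := Dst_log hε hε1
    linarith
  rw [← s1, ← s2, ← s3, ← s4]
  linarith

end Pool.Agent.H78.PE

end
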