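import Pool.Agent.H94.PG.H78.PD.T6c
import Pool.Agent.H94.PG.H78.PD.Top_1
import Pool.Agent.H94.PG.H78.PE.SmallP_1
import Pool.Agent.H94.PG.H78.PE.Step8
import Pool.Agent.H94.PG.M23
import Pool.Agent.H94.PG.M35
import Pool.Agent.H94.PG.M37
import Pool.Agent.H94.PG.M38

/-! The parts of this file: H78.PE.Ana4_1, H78.PE.Step8_1, H78.PE.Crit. -/

section

/-!
# PE, Ana4: the analytic theorem with all the primes

* `ana4_fail`: `energy_main`, `top`, `t6_up`, `small_p`.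
* `ana4_uniq`: `t8s`.
-/

set_option autoImplicit false

namespace Pool.Agent.H78.PE

open Finset
open Pool.Agent.H34PG (lam lam_val lam_mul lam_prime)
open Pool.Agent.H11.LQ Pool.Agent.H78.PG Pool.Agent.H78.PD

theorem ana4_fail : ∃ θ : ℝ, 0 < θ ∧ ∀ ε : ℝ, 0 < ε → ∃ ε1 : ℝ, 0 < ε1 ∧ ∃ Q0 m0 : ℕ,
    ∀ (m : ℕ) [NeZero m], m0 ≤ m → ∀ Q : ℕ, Q0 ≤ Q → ∀ η : ℤ, FailU θ ε1 m η Q →
      ∃ χ : DirichletCharacter ℂ m, χ ^ 2 = 1 ∧ χ (-1) = (η : ℂ) ∧ Prt m χ ε := by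
  classical
  obtain ⟨θ, hθ, HE⟩ := energy_main0 (1 / 2000) (by norm_num) (by norm_num)
  refine ⟨θ, hθ, fun ε hε => ?_⟩
  obtain ⟨e, he⟩ : ∃ e : ℝ, e = min ε (1 / 100) := ⟨_, rfl⟩
  have he0 : 0 < e := by rw [he]; exact lt_min hε (by norm_num)
  have heε : e ≤ ε := by rw [he]; exact min_le_left _ _
  have he1 : e ≤ 1 / 100 := by rw [he]; exact min_le_right _ _
  obtain ⟨δ0, C0, hδ0, hC0, m4, H4⟩ := small_p
  obtain ⟨δ1, hδ1, m3, H3⟩ := t6_up (e / 32) (e / 2) (e / 2) (by linarith) (by linarith)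
    (by linarith) (by linarith) (by linarith)
  obtain ⟨σ, hσ⟩ : ∃ σ, σ = min δ1 (min δ0 (e / (2 * C0))) := ⟨_, rfl⟩
  have hσ0 : 0 < σ := by rw [hσ]; positivity
  have hσ1 : σ ≤ δ1 := by rw [hσ]; exact min_le_left _ _
  have hσ2 : σ ≤ δ0 := by rw [hσ]; exact (min_le_right _ _).trans (min_le_left _ _)
  have hσ3 : σ ≤ e / (2 * C0) := by rw [hσ]; exact (min_le_right _ _).trans (min_le_right _ _)
  obtain ⟨ε0, _, hε0, _, m1, H1⟩ := top (e / 32) σ (by linarith) (by linarith) hσ0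
  obtain ⟨ε1, hε1, Q0, m2, H2⟩ := HE ε0 hε0
  refine ⟨ε1, hε1, Q0, m1 + m2 + m3 + m4 + 1, fun m _ hm Q hQ η hF => ?_⟩
  obtain ⟨U, hU1, hU2⟩ := H2 m (by omega) Q hQ hF.1 η hF.2.1 hF.2.2
  obtain ⟨χ, e1, _, e3, _, e5, e6⟩ := H1 m (by omega) η hF.2.1 U hU1 hU2
  refine ⟨χ, e1, e3, Prt.mono (by omega) ?_ heε⟩
  have hm1 : (1 : ℝ) ≤ m := by exact_mod_cast (by omega : 1 ≤ m)
  have hm0 : (0 : ℝ) < m := by linarith
  have hB2 : ∑ q ∈ Bad m χ (3 / 10) (37 / 100), 1 / (q : ℝ) ≤ σ := by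
    refine (sum_le_sum_of_subset_of_nonneg ?_ fun q _ _ => by positivity).trans e6
    intro q hq
    rw [mem_Bad] at hq ⊢
    refine ⟨hq.1, hq.2.1, ?_, ?_, hq.2.2.2.2⟩
    · refine lt_of_le_of_lt ?_ hq.2.2.1
      exact Real.rpow_le_rpow_of_exponent_le hm1 (by linarith)
    · refine hq.2.2.2.1.trans ?_
      exact Real.rpow_le_rpow_of_exponent_le hm1 (by norm_num)
  have f1 := H4 m (by omega) η hF.2.1 χ e1 (e5.trans hσ2) (hB2.trans hσ2)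
  have f2 := H3 m (by omega) η hF.2.1 χ e1 (e5.trans hσ1) (e6.trans hσ1)
  have f3 : C0 * wout m η {χ} ≤ e / 2 := by
    have h1 := mul_le_mul_of_nonneg_left (e5.trans hσ3) hC0.le
    refine h1.trans (le_of_eq ?_)
    field_simp
  obtain ⟨S, hS⟩ : ∃ S : Finset ℕ, S = (Icc 1 ⌊(m : ℝ) ^ (1 / 200 : ℝ)⌋₊).filter
      (fun p : ℕ => p.Prime ∧ ¬ p ∣ m ∧ χ (p : ZMod m) ≠ -1) := ⟨_, rfl⟩
  have f4 : ∑ p ∈ S, 1 / (p : ℝ) ≤ e / 2 := by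
    rw [hS]
    exact f1.trans f3
  have hsub : Pr m χ e ⊆ S ∪ Bad m χ (e / 32) (1 - e / 2) := by
    intro p hp
    rw [mem_Pr] at hp
    obtain ⟨h1, h2, h3, h4⟩ := hp
    rw [mem_union]
    rcases le_or_gt (p : ℝ) ((m : ℝ) ^ (1 / 200 : ℝ)) with h | h
    · left
      rw [hS, mem_filter, mem_Icc, Nat.le_floor_iff (by positivity)]
      exact ⟨⟨h2.one_lt.le, h⟩, h2, h3, h4⟩
    · right
      rw [mem_Bad]
      refine ⟨h2, h3, lt_of_le_of_lt ?_ h, h1.trans ?_, h4⟩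
      · exact Real.rpow_le_rpow_of_exponent_le hm1 (by linarith)
      · exact Real.rpow_le_rpow_of_exponent_le hm1 (by linarith)
  unfold Prt
  calc ∑ p ∈ Pr m χ e, 1 / (p : ℝ) ≤ ∑ p ∈ S ∪ Bad m χ (e / 32) (1 - e / 2), 1 / (p : ℝ) :=
        sum_le_sum_of_subset_of_nonneg hsub fun _ _ _ => by positivity
    _ ≤ ∑ p ∈ S, 1 / (p : ℝ) + ∑ p ∈ Bad m χ (e / 32) (1 - e / 2), 1 / (p : ℝ) := by
        rw [← sum_union_inter]
        exact le_add_of_nonneg_right (sum_nonneg fun _ _ => by positivity)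
    _ ≤ e / 2 + e / 2 := add_le_add f4 f2
    _ = e := by ring

end Pool.Agent.H78.PE

end

section

/-!
# PE, Step8: a rare pattern gives a character with small `Dd`

As `step7` in `H11/LQ/Fin7.lean`.  WLOG `ε ≤ 1`.  `ε0, k0` from `common`; `ε' = min (ε/16) ε0`, `κ = min (ε/16) k0`, `β = ε²/800`; `θ, ε1, Q0, m0` from `ana4_fail ε'`.  `w = rt N`, `ρ = c1/w^k`, `Q = ⌊ρ^(-1/640)⌋`, with `c1` small and
`k ≥ 640/θ + 4` as in `step7`: `combi3` gives `m ∣ M`, `m ≥ M^(1/2)`, `m ≥ ρ^(1/8) M`, `#Ex m η q ≤ √ρ m` for the primes `q ≤ Q`.  `cls κ β` with `σ = √ρ` (`Q² √ρ ≤ ρ^(1/4) ≤ ε1 β/2`) gives `G`; for `d ∈ G` the modulus `m/d ≥ m^(1-κ)` has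
`FailU θ ε1 (m/d) η Q` (`rt (m/d) ≤ rt N ≤ Q^θ`: `rt_mono`), so `ana4_fail` gives the character of `d`, `common` gives `c`, `ψ`, and `dst` gives `Dd m ψ ≤ ε/2` (`Prt.mono` from `ε'` to `ε/16`; `#Bd m G < m` so `G` is not empty).
`Dd N ψ ≤ Dd m ψ + ∑_{m < p ≤ N} 1/p` (`m/c ∣ N/c`: the exponents grow) and `∑_{m < p ≤ N} 1/p ≤ ε/2`: `m ≥ N^(1-κ')` for `N` large (as in `stage3b`: `C rt^k ≤ N^κ'`), `pri_mert` at the modulus `N` (`a = 1-κ'`, `b = 1`) for the primes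
`p ∤ N`, and at most one prime `> N^(1/2)` divides `N`.
-/

set_option autoImplicit false

namespace Pool.Agent.H78.PE

open Finset
open Pool.Agent.H34PG (lam lam_val lam_mul lam_prime)
open Pool.Agent.H11.LQ Pool.Agent.H78.PG Pool.Agent.H78.PD

/-- the theorem for `ε ≤ 1` -/
private theorem step8_one : ∃ k : ℕ, ∀ ε : ℝ, 0 < ε → ε ≤ 1 → ∃ C : ℝ, 1 ≤ C ∧ ∃ N0 : ℕ,
    ∀ N : ℕ, N0 ≤ N → ∀ M : ℕ, M ∣ N → N ≤ 2 * M → ∀ η : ℤ, (η = 1 ∨ η = -1) → ∀ R : ℕ,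
      (Ex M η 2).card ≤ 24 * R + 4 → (N : ℝ) ≤ C * rt N ^ k * R ∨
      ∃ (c : ℕ) (_ : NeZero c) (ψ : DirichletCharacter ℂ c), c ∣ N ∧ ψ ^ 2 = 1 ∧
        ψ (-1) = (η : ℂ) ∧ Dd N ψ ≤ ε := by
  obtain ⟨ε0, k0, hε0, hk0, hk01, mC, HC⟩ := common
  obtain ⟨θ, hθ, HA0⟩ := ana4_fail
  obtain ⟨k, H10⟩ := step8_pre θ hθ
  refine ⟨k, fun ε hε hε1 => ?_⟩
  obtain ⟨ε', hε'⟩ : ∃ ε' : ℝ, ε' = min (ε / 16) ε0 := ⟨_, rfl⟩
  have hε'0 : 0 < ε' := by rw [hε']; exact lt_min (by linarith only [hε]) hε0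
  have hε'1 : ε' ≤ ε / 16 := by rw [hε']; exact min_le_left _ _
  have hε'2 : ε' ≤ ε0 := by rw [hε']; exact min_le_right _ _
  obtain ⟨κ, hκ⟩ : ∃ κ : ℝ, κ = min (ε / 16) k0 := ⟨_, rfl⟩
  have hκ0 : 0 < κ := by rw [hκ]; exact lt_min (by linarith only [hε'0, hε'1]) hk0
  have hκ1 : κ ≤ ε / 16 := by rw [hκ]; exact min_le_left _ _
  have hκ2 : κ ≤ k0 := by rw [hκ]; exact min_le_right _ _
  obtain ⟨β, hβ⟩ : ∃ β : ℝ, β = ε ^ 2 / 800 := ⟨_, rfl⟩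
  have hβ0 : 0 < β := by rw [hβ]; positivity
  have hβ1 : β < 1 := by
    rw [hβ]
    nlinarith only [hk01, hε1, hk0, hε]
  obtain ⟨ε1, hε1', Q0, mA, HA⟩ := HA0 ε' hε'0
  obtain ⟨mL, HL⟩ := cls κ β hκ0 hβ0
  obtain ⟨mD, HD⟩ := dst ε hε hε1
  obtain ⟨NS, HS⟩ := step8_sum ε hε hε1
  obtain ⟨C, hC, N1, H1⟩ := H10 (ε1 * β / 2) (by positivity) Q0 (mC + mL + mD + mA ^ 2 + 2)
  obtain ⟨N2, H2⟩ := Pool.Agent.H78.PG.grow (C * 2 ^ k) k (ε / 8) (by linarith only [hε'0, hε'1])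
  refine ⟨C, hC, N1 + N2 + NS + 2, fun N hN M hMN hNM η hη R hR => ?_⟩
  rcases H1 N (by omega) M hMN hNM η hη R hR with h | ⟨m, Q, σ, hm0, hmM, hmm, hNm, hQ0, hQ1, hw,
    hQσ, hEx⟩
  · exact Or.inl h
  right
  have hN0 : (0 : ℝ) < N := by exact_mod_cast (by omega : 0 < N)
  have hmN : m ∣ N := hmM.trans hMN
  have hmr : (1 : ℝ) ≤ m := by exact_mod_cast hm0
  have hmr0 : (0 : ℝ) < m := by linarith only [hk0, hk01, hmr]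
  -- `m ≥ N ^ (1 - ε / 8)`
  have hmN' : (N : ℝ) ^ (1 - ε / 8) ≤ m := by
    have g1 : C * rt N ^ k ≤ (N : ℝ) ^ (ε / 8) := by
      refine le_trans ?_ (H2 N (by omega))
      have g2 := rt_le (N := N) (by omega)
      have g3 := rt_ge (N := N) (by omega)
      calc C * rt N ^ k ≤ C * (2 * (1 + Real.log N)) ^ k := by
            refine mul_le_mul_of_nonneg_left (pow_le_pow_left₀ (by linarith only [hk0, hk01, g3]) ?_ _) (by linarith only [hk0, hk01, hC])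
            linarith only [g2]
        _ = _ := by rw [mul_pow]; ring
    have g3 : (N : ℝ) ≤ (N : ℝ) ^ (ε / 8) * m :=
      hNm.trans (mul_le_mul_of_nonneg_right g1 (Nat.cast_nonneg _))
    rw [Real.rpow_sub hN0, Real.rpow_one, div_le_iff₀ (by positivity)]
    linarith only [g3]
  obtain ⟨G, hG1, hG2⟩ := HL m (by omega) η Q hQ1 ε1 σ hε1' hQσ hEx
  -- `G` is not empty
  have hGne : G.Nonempty := by
    rw [nonempty_iff_ne_empty]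
    intro h
    have h1 : Bd m G = range m := by
      ext x
      rw [mem_Bd, mem_range, h]
      simp
    rw [h1, card_range] at hG2
    have h2 : β * m < 1 * m := mul_lt_mul_of_pos_right hβ1 hmr0
    linarith only [hG2, h2]
  have hGd : ∀ d ∈ G, d ∣ m ∧ (d : ℝ) ≤ (m : ℝ) ^ k0 ∧
      ∃ χ : DirichletCharacter ℂ (m / d), χ ^ 2 = 1 ∧ χ (-1) = (η : ℂ) ∧ Prt (m / d) χ ε' := by
    intro d hd
    obtain ⟨a1, a2, a3⟩ := hG1 d hd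
    have hd0 : 0 < d := Nat.pos_of_dvd_of_pos a1 hm0
    have hdr : (0 : ℝ) < d := by exact_mod_cast hd0
    have hmd : 0 < m / d := Nat.div_pos (Nat.le_of_dvd hm0 a1) hd0
    have hne : NeZero (m / d) := ⟨hmd.ne'⟩
    refine ⟨a1, a2.trans (Real.rpow_le_rpow_of_exponent_le hmr hκ2), ?_⟩
    have hcast : ((m / d : ℕ) : ℝ) = (m : ℝ) / d := by
      rw [Nat.cast_div a1 hdr.ne']
    -- the size of `m / d`
    have hsize : mA ≤ m / d := by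
      have h1 : (m : ℝ) ^ (1 / 2 : ℝ) ≤ (m : ℝ) / d := by
        rw [le_div_iff₀ hdr]
        calc (m : ℝ) ^ (1 / 2 : ℝ) * d ≤ (m : ℝ) ^ (1 / 2 : ℝ) * (m : ℝ) ^ (1 / 2 : ℝ) := by
              refine mul_le_mul_of_nonneg_left ?_ (by positivity)
              exact a2.trans (Real.rpow_le_rpow_of_exponent_le hmr (by linarith only [hk0, hk01, hε1, hκ1]))
          _ = m := by
              rw [← Real.rpow_add hmr0]
              norm_num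
      have h2 : (mA : ℝ) ≤ (m : ℝ) ^ (1 / 2 : ℝ) := by
        rw [← Real.sqrt_eq_rpow]
        refine Real.le_sqrt_of_sq_le ?_
        exact_mod_cast (by omega : mA ^ 2 ≤ m)
      rw [← hcast] at h1
      exact_mod_cast h2.trans h1
    refine HA (m / d) hsize Q hQ0 η ⟨?_, hη, a3⟩
    have h1 := rt_mul hmd.ne'
    have h2 := rt_mono (m := m / d) (N := N) (by omega) ((Nat.div_dvd_of_dvd a1).trans hmN)
    rw [h1]
    exact mul_le_mul_of_nonneg_right (h2.trans hw) (Nat.cast_nonneg _)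
  obtain ⟨c, hc, ψ, hcm, hψ1, hψ2, hψ3⟩ := HC m (by omega) ε' hε'2 η G hGne hGd
  refine ⟨c, hc, ψ, hcm.trans hmN, hψ1, hψ2, ?_⟩
  have h1 : Dd m ψ ≤ ε / 2 := by
    refine HD m (by omega) c ψ hcm G (by rw [← hβ]; exact hG2) fun d hd => ?_
    obtain ⟨a1, a2, _⟩ := hG1 d hd
    obtain ⟨b1, b2⟩ := hψ3 d hd
    refine ⟨a1, a2.trans (Real.rpow_le_rpow_of_exponent_le hmr hκ1), b1, ?_⟩
    exact b2.mono (Nat.div_pos (Nat.le_of_dvd hm0 a1) (Nat.pos_of_dvd_of_pos a1 hm0)) hε'1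
  have h2 := step8_Dd N m c (by omega) hmN hcm ψ
  have h3 := HS N (by omega) m hmN'
  linarith only [h1, h2, h3]

theorem step8 : ∃ k : ℕ, ∀ ε : ℝ, 0 < ε → ∃ C : ℝ, 1 ≤ C ∧ ∃ N0 : ℕ,
    ∀ N : ℕ, N0 ≤ N → ∀ M : ℕ, M ∣ N → N ≤ 2 * M → ∀ η : ℤ, (η = 1 ∨ η = -1) → ∀ R : ℕ,
      (Ex M η 2).card ≤ 24 * R + 4 → (N : ℝ) ≤ C * rt N ^ k * R ∨
      ∃ (c : ℕ) (_ : NeZero c) (ψ : DirichletCharacter ℂ c), c ∣ N ∧ ψ ^ 2 = 1 ∧
        ψ (-1) = (η : ℂ) ∧ Dd N ψ ≤ ε := by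
  obtain ⟨k, H0⟩ := step8_one
  refine ⟨k, fun ε hε => ?_⟩
  obtain ⟨C, hC, N0, H⟩ := H0 (min ε 1) (lt_min hε one_pos) (min_le_right _ _)
  refine ⟨C, hC, N0, fun N hN M hMN hNM η hη R hR => ?_⟩
  rcases H N hN M hMN hNM η hη R hR with h | ⟨c, hc, ψ, h1, h2, h3, h4⟩
  · exact Or.inl h
  · exact Or.inr ⟨c, hc, ψ, h1, h2, h3, h4.trans (min_le_left _ _)⟩

end Pool.Agent.H78.PE

end

section

/-!
# PE, Crit: the criterion

`crit`: `step8`, `ex_pat` (as in `stage3a`, `H11/LQ/Fin8.lean`).  `crit_fine`: `fine_of_pat` (`H11/LQ/Fin9.lean`).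
-/

set_option autoImplicit false

namespace Pool.Agent.H78.PE

open Finset
open Pool.Agent.H34PG (lam lam_val lam_mul lam_prime)
open Pool.Agent.H11.LQ Pool.Agent.H78.PG Pool.Agent.H78.PD

/-- the sign and the modulus -/
private theorem crit_mod {N M : ℕ} {s t : ℤ} (hs : s = 1 ∨ s = -1) (ht : t = 1 ∨ t = -1)
    (hs1 : s = t → N = 2 * M) (hs2 : s ≠ t → N = M) :
    M ∣ N ∧ N ≤ 2 * M ∧ (-(s * t) = 1 ∨ -(s * t) = -1) := by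
  refine ⟨?_, ?_, ?_⟩
  · by_cases he : s = t
    · rw [hs1 he]
      exact Dvd.intro_left 2 rfl
    · rw [hs2 he]
  · by_cases he : s = t
    · rw [hs1 he]
    · have := hs2 he
      omega
  · rcases hs with rfl | rfl <;> rcases ht with rfl | rfl <;> norm_num

theorem crit : ∃ k : ℕ, ∀ ε : ℝ, 0 < ε → ∃ C : ℝ, 1 ≤ C ∧ ∃ N0 : ℕ, ∀ N M : ℕ, N0 ≤ N →
    ∀ s t : ℤ, (s = 1 ∨ s = -1) → (t = 1 ∨ t = -1) → (s = t → N = 2 * M) → (s ≠ t → N = M) →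
      (∀ q : ℕ, q ∣ N → ∀ χ : DirichletCharacter ℂ q, χ ^ 2 = 1 →
        χ (-1) = ((-(s * t) : ℤ) : ℂ) → ε ≤ Dd N χ) →
      (N : ℝ) ≤ C * rt N ^ k * ((pat N s t).card : ℝ) := by
  obtain ⟨k, H0⟩ := step8
  refine ⟨k, fun ε hε => ?_⟩
  obtain ⟨C, hC, N0, H⟩ := H0 (ε / 2) (by linarith)
  refine ⟨C, hC, N0 + 1, fun N M hN s t hs ht hs1 hs2 hr => ?_⟩
  obtain ⟨hMN, hNM, hη⟩ := crit_mod hs ht hs1 hs2
  rcases H N (by omega) M hMN hNM (-(s * t)) hη (pat N s t).card (ex_pat hs ht hs1 hs2) with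
    h | ⟨c, _, ψ, h1, h2, h3, h4⟩
  · exact h
  · have h5 := hr c h1 ψ h2 h3
    linarith

theorem crit_fine (hO : OmB) : ∃ k : ℕ, ∀ ε : ℝ, 0 < ε → ∃ C : ℝ, 1 ≤ C ∧ ∃ N0 : ℕ,
    ∀ N M : ℕ, N0 ≤ N →
    ∀ s t : ℤ, (s = 1 ∨ s = -1) → (t = 1 ∨ t = -1) → (s = t → N = 2 * M) → (s ≠ t → N = M) →
      (∀ q : ℕ, q ∣ N → ∀ χ : DirichletCharacter ℂ q, χ ^ 2 = 1 →
        χ (-1) = ((-(s * t) : ℤ) : ℂ) → ε ≤ Dd N χ) →
      ∀ J K : ℝ, C * rt N ^ k ≤ J → C * Real.log N ^ k ≤ K →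
        ∃ T ⊆ pat N s t, (N : ℝ) ≤ J * (T.card : ℝ) ∧
          ∀ a ∈ T, Fine N K a ∧ ∀ v : ℕ, (v ^ 2 ∣ a ∨ v ^ 2 ∣ N - a) → (v : ℝ) ≤ J := by
  obtain ⟨k0, H0⟩ := crit
  obtain ⟨k, _, H1⟩ := fine_of_pat0 hO k0
  refine ⟨k, fun ε hε => ?_⟩
  obtain ⟨C0, hC0, N0, h0⟩ := H0 ε hε
  obtain ⟨C, hC, h1⟩ := H1 C0 hC0
  refine ⟨C, by linarith, N0 + 4, fun N M hN s t hs ht hs1 hs2 hr J K hJ hK => ?_⟩
  exact h1 N (by omega) s t (h0 N M (by omega) s t hs ht hs1 hs2 hr) J K hJ hK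

end Pool.Agent.H78.PE

end
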