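import Pool.Agent.H94.PG.H36.IS.MtA_1
import Pool.Agent.H94.PG.M08

/-! The parts of this file: H11.LQ.Fin5, H11.LQ.LNear, H11.LQ.Page, H11.LQ.Exc2, H78.PH.OmB. -/

section

/-!
# LQ stage 2, module Fin5: representations with prescribed parities, for all `N`
-/

set_option autoImplicit false

namespace Pool.Agent.H11.LQ

open Finset ArithmeticFunction
open Pool.Agent.H34PG (lam lam_val lam_mul lam_prime)

theorem lam_iff (n i : ℕ) : lam n = (-1) ^ i ↔ cardFactors n % 2 = i % 2 := by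
  unfold lam
  rcases Nat.even_or_odd (cardFactors n) with h | h <;> rcases Nat.even_or_odd i with h' | h' <;>
    rw [h.neg_one_pow, h'.neg_one_pow] <;>
    simp only [Nat.even_iff, Nat.odd_iff] at h h' <;> rw [h, h'] <;> norm_num

theorem sign (i : ℕ) : ((-1 : ℤ)) ^ i = 1 ∨ ((-1 : ℤ)) ^ i = -1 := neg_one_pow_eq_or ℤ i

theorem sign_ne {i j : ℕ} (h : i % 2 ≠ j % 2) : ((-1 : ℤ)) ^ i ≠ (-1) ^ j := by
  rcases Nat.even_or_odd i with h1 | h1 <;> rcases Nat.even_or_odd j with h2 | h2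
  · rw [Nat.even_iff] at h1 h2
    omega
  · rw [h1.neg_one_pow, h2.neg_one_pow]
    norm_num
  · rw [h1.neg_one_pow, h2.neg_one_pow]
    norm_num
  · rw [Nat.odd_iff] at h1 h2
    omega

/-- the pattern without further conditions -/
def Rep (N i j a : ℕ) : Prop :=
  0 < a ∧ a < N ∧ cardFactors a % 2 = i % 2 ∧ cardFactors (N - a) % 2 = j % 2

/-- both odd, all even `N ≥ 4` -/
theorem one_odd {N : ℕ} (h4 : 4 ≤ N) (he : Even N) : ∃ a, Rep N 1 1 a := by
  obtain ⟨n, hn⟩ := he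
  obtain ⟨x, h1, h2, h3⟩ := Pool.Agent.H34PG.main_one (n := n) (by omega)
  refine ⟨n - x, by omega, by omega, ?_, ?_⟩
  · rw [Nat.odd_iff] at h2
    omega
  · rw [show N - (n - x) = n + x by omega]
    rw [Nat.odd_iff] at h3
    omega

/-- mixed, all `N ≥ 3`, `N ≠ 5, 10` -/
theorem one_mixed {N i j : ℕ} (h3 : 3 ≤ N) (h5 : N ≠ 5) (h10 : N ≠ 10)
    (hij : i % 2 ≠ j % 2) : ∃ a, Rep N i j a := by
  obtain ⟨a, b, ha, hb, hab, ho, he⟩ := Pool.Agent.H34PG.main_three h3 h5 h10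
  rw [Nat.odd_iff] at ho
  rw [Nat.even_iff] at he
  rcases (show i % 2 = 1 ∨ i % 2 = 0 by omega) with h | h
  · refine ⟨a, ha, by omega, by omega, ?_⟩
    rw [show N - a = b by omega]
    omega
  · refine ⟨b, hb, by omega, by omega, ?_⟩
    rw [show N - b = a by omega]
    omega

/-- all patterns, all even `N ≥ 8`, `N ≠ 10` -/
theorem one_all {N i j : ℕ} (h8 : 8 ≤ N) (he : Even N) (h10 : N ≠ 10) :
    ∃ a, Rep N i j a := by
  by_cases hij : i % 2 = j % 2
  · obtain ⟨n, hn⟩ := he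
    by_cases hn2 : cardFactors n % 2 = i % 2
    · refine ⟨n, by omega, by omega, hn2, ?_⟩
      rw [show N - n = n by omega]
      omega
    · obtain ⟨x, h0, hx, h1, h2⟩ := Pool.Agent.H34PG.main_two (n := n) (by omega)
      have e1 := Pool.Agent.H34PG.odd_iff_of_lam h1
      have e2 := Pool.Agent.H34PG.odd_iff_of_lam h2
      rw [Nat.odd_iff, Nat.even_iff] at e1 e2
      refine ⟨n - x, by omega, by omega, by omega, ?_⟩
      rw [show N - (n - x) = n + x by omega]
      omega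
  · exact one_mixed (by omega) (by omega) h10 hij

end Pool.Agent.H11.LQ

end

section

/-!
# LQ stage 2, module LNear: a Lipschitz bound for `L (s, ψ)` to the left of `s = 1`

Let `l = log (2 N)` (`N ≥ 2` as `ψ ≠ 1`, so `l > 1.38`).
* Line `Re s = 1`: `‖L(s)‖ ≤ C log (N (|Im s| + 2))`, the limit of `Pool.Agent.H91.EHA.Lk_le 0` and `Lk_zero_eq`
  (as in `swd3_upper` of H91/EHA/SwD3, which is the case `s = 1`); also for `1 < Re s ≤ 2`.
* Line `Re s = 1/2`: `‖L(s)‖ ≤ C N ‖s‖` (`Pool.Agent.H91.EHA.LF_le`, valid for `Re s ≥ 1/2`).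
* Hadamard three lines (`Complex.HadamardThreeLines`, e.g. `norm_le_interpStrip_of_mem_verticalClosedStrip'`) for
  `f s = L(s) / (s + 1) ^ 2` on `1/2 ≤ Re s ≤ 1`: `‖f‖ ≤ C N` on the left line, `‖f‖ ≤ C l` on the right line (`log (N (t + 2))
  ≤ log (2 N) (t + 2)`), so for `Re s ≥ 1 - 1/(4 l)`: `‖f s‖ ≤ (C N) ^ (1/(2 l)) (C l) ≤ C' l`, and `‖L(s)‖ ≤ C'' l` for
  `Re s ∈ [1 - 1/(4 l), 2]`, `|Im s| ≤ 1`.
* Cauchy's estimate on discs of radius `1/(8 l)` (`Complex.norm_deriv_le_of_forall_mem_sphere_norm_le`): `‖L'(x)‖ ≤ C l ^ 2` for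
  real `x ∈ [1 - 1/(8 l), 1]`, and the mean value inequality on the segment.
-/

set_option autoImplicit false

namespace Pool.Agent.H11.LQ

open Finset

private theorem lnear_two {N : ℕ} [NeZero N] (ψ : DirichletCharacter ℂ N) (hψ : ψ ≠ 1) : 2 ≤ N := by
  rcases Nat.lt_or_ge N 2 with h | h
  · exfalso
    have hN0 : N ≠ 0 := NeZero.ne N
    have hN1 : N = 1 := by omega
    exact hψ (DirichletCharacter.level_one' ψ hN1)
  · exact h

private theorem lnear_log {N : ℕ} (hN : 2 ≤ N) : 1 ≤ Real.log (2 * N) := by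
  have h2 : (2 : ℝ) ≤ N := by exact_mod_cast hN
  rw [Real.le_log_iff_exp_le (by linarith only [h2])]
  have := Real.exp_one_lt_d9
  linarith only [h2, this]

/-- the bound for `1 ≤ Re s ≤ 2` -/
private theorem lnear_right : ∃ C : ℝ, 1 ≤ C ∧ ∀ (N : ℕ) [NeZero N] (ψ : DirichletCharacter ℂ N),
    ψ ≠ 1 → ∀ s : ℂ, 1 ≤ s.re → s.re ≤ 2 →
      ‖DirichletCharacter.LFunction ψ s‖ ≤ C * Real.log (2 * N) * (|s.im| + 2) := by
  obtain ⟨C, hC, hL⟩ := Pool.Agent.H91.EHA.Lk_le 0
  refine ⟨C + 1, by linarith, ?_⟩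
  intro N _ ψ hψ
  have hN2 := lnear_two ψ hψ
  have hl := lnear_log hN2
  have hNR : (2 : ℝ) ≤ N := by exact_mod_cast hN2
  have key : ∀ s : ℂ, 1 < s.re → s.re ≤ 2 →
      ‖DirichletCharacter.LFunction ψ s‖ ≤ C * Real.log (2 * N) * (|s.im| + 2) := by
    intro s hs1 hs2
    have h1 := hL N hN2 ψ hψ s hs1 hs2
    rw [Pool.Agent.H91.EHA.Lk_zero_eq N ψ _ hs1] at h1
    simp only [zero_add, pow_one] at h1
    have ht := abs_nonneg s.im
    have e1 : (N : ℝ) * (|s.im| + 2) = (2 * N) * (1 + |s.im| / 2) := by ring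
    have h2 : Real.log ((N : ℝ) * (|s.im| + 2)) ≤ Real.log (2 * N) * (|s.im| + 2) := by
      rw [e1, Real.log_mul (by positivity) (by positivity)]
      have h3 := Real.log_le_sub_one_of_pos (show 0 < 1 + |s.im| / 2 by positivity)
      nlinarith only [hl, ht, h3]
    calc ‖DirichletCharacter.LFunction ψ s‖ ≤ C * Real.log ((N : ℝ) * (|s.im| + 2)) := h1
      _ ≤ C * (Real.log (2 * N) * (|s.im| + 2)) := mul_le_mul_of_nonneg_left h2 hC.le
      _ = C * Real.log (2 * N) * (|s.im| + 2) := by ring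
  intro s hs1 hs2
  have hle : C * Real.log (2 * N) * (|s.im| + 2) ≤ (C + 1) * Real.log (2 * N) * (|s.im| + 2) := by
    have := abs_nonneg s.im
    have h3 : 0 ≤ Real.log (2 * N) * (|s.im| + 2) := by positivity
    nlinarith only [h3]
  refine le_trans ?_ hle
  rcases hs1.lt_or_eq with h | h
  · exact key s h hs2
  · -- the limit from the right
    have hcont : Continuous (fun x : ℝ => ‖DirichletCharacter.LFunction ψ (s + (x : ℂ))‖) :=
      ((DirichletCharacter.differentiable_LFunction hψ).continuous.comp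
        (continuous_const.add Complex.continuous_ofReal)).norm
    have ht : Filter.Tendsto (fun x : ℝ => ‖DirichletCharacter.LFunction ψ (s + (x : ℂ))‖)
        (nhdsWithin 0 (Set.Ioi 0)) (nhds ‖DirichletCharacter.LFunction ψ (s + ((0 : ℝ) : ℂ))‖) :=
      (hcont.tendsto 0).mono_left nhdsWithin_le_nhds
    rw [Complex.ofReal_zero, add_zero] at ht
    apply le_of_tendsto ht
    have hev : ∀ᶠ x : ℝ in nhdsWithin 0 (Set.Ioi 0), x < 1 := by
      apply Filter.Eventually.filter_mono nhdsWithin_le_nhds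
      exact (isOpen_Iio (a := (1 : ℝ))).mem_nhds (by norm_num)
    filter_upwards [hev, self_mem_nhdsWithin] with x hx2 hx1
    have hx1' : (0 : ℝ) < x := hx1
    have hre : (s + (x : ℂ)).re = s.re + x := by simp
    have him : (s + (x : ℂ)).im = s.im := by simp
    have h1 := key (s + (x : ℂ)) (by rw [hre]; linarith only [hs1, hx1']) (by rw [hre]; linarith)
    rw [him] at h1
    exact h1

/-- the bound near the point `1` -/
private theorem lnear_box : ∃ C : ℝ, 1 ≤ C ∧ ∀ (N : ℕ) [NeZero N] (ψ : DirichletCharacter ℂ N),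
    ψ ≠ 1 → ∀ s : ℂ, 1 - 1 / (4 * Real.log (2 * N)) ≤ s.re → s.re ≤ 2 → |s.im| ≤ 1 →
      ‖DirichletCharacter.LFunction ψ s‖ ≤ C * Real.log (2 * N) := by
  obtain ⟨C1, hC1, hR⟩ := lnear_right
  obtain ⟨C2, hC2, hF⟩ := Pool.Agent.H91.EHA.LF_le
  have he := Real.exp_one_gt_d9
  refine ⟨5 * (C2 * Real.exp 1) * (3 * C1), ?_, ?_⟩
  · have h1 : 1 ≤ C2 * Real.exp 1 := by nlinarith only [hC2, he]
    nlinarith only [hC1, h1]
  intro N _ ψ hψ s hs1 hs2 hs3
  have hN2 := lnear_two ψ hψ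
  have hl := lnear_log hN2
  have hNR : (2 : ℝ) ≤ N := by exact_mod_cast hN2
  set l := Real.log (2 * N) with hldef
  have h1 : 1 ≤ C2 * Real.exp 1 := by nlinarith only [hC2, he]
  rcases le_total 1 s.re with h | h
  · have h2 := hR N ψ hψ s h hs2
    have h3 : C1 * l * (|s.im| + 2) ≤ C1 * l * 3 := by
      apply mul_le_mul_of_nonneg_left _ (by positivity)
      linarith only [hs3]
    have h4 : C1 * l * 3 ≤ 5 * (C2 * Real.exp 1) * (3 * C1) * l := by
      have h5 : 0 ≤ C1 * l := by positivity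
      nlinarith only [h5, h1, mul_le_mul_of_nonneg_left h1 h5]
    linarith
  · -- three lines
    have hl4 : 1 / (4 * l) ≤ 1 / 4 := by
      apply div_le_div_of_nonneg_left (by norm_num) (by norm_num)
      linarith only [hl]
    have hs0 : 1 / 2 ≤ s.re := by linarith only [hs1, hl4]
    obtain ⟨f, hf⟩ : ∃ f : ℂ → ℂ, ∀ z, f z = DirichletCharacter.LFunction ψ z / (z + 1) ^ 2 := ⟨_, fun _ => rfl⟩
    have hne : ∀ z : ℂ, 0 ≤ z.re → 1 ≤ ‖z + 1‖ := by
      intro z hz
      have h2 := Complex.abs_re_le_norm (z + 1)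
      rw [Complex.add_re, Complex.one_re, abs_of_nonneg (by linarith only [hz])] at h2
      linarith only [hz, h2]
    have hzz : ∀ z : ℂ, 0 ≤ z.re → ‖z‖ ≤ ‖z + 1‖ := by
      intro z hz
      rw [← sq_le_sq₀ (norm_nonneg _) (norm_nonneg _), ← Complex.normSq_eq_norm_sq,
        ← Complex.normSq_eq_norm_sq, Complex.normSq_apply, Complex.normSq_apply, Complex.add_re,
        Complex.add_im, Complex.one_re, Complex.one_im]
      nlinarith only [hz]
    have hfb : ∀ z : ℂ, 1 / 2 ≤ z.re → ‖f z‖ ≤ C2 * N := by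
      intro z hz
      have h2 := hF N ψ hψ z hz
      have h3 := hne z (by linarith only [hz])
      have h4 := hzz z (by linarith only [hz])
      rw [hf, norm_div, norm_pow, div_le_iff₀ (by positivity)]
      calc ‖DirichletCharacter.LFunction ψ z‖ ≤ C2 * N * ‖z‖ := h2
        _ ≤ C2 * N * ‖z + 1‖ ^ 2 := by
            apply mul_le_mul_of_nonneg_left _ (by positivity)
            nlinarith only [h3, h4]
    have hd : Differentiable ℂ (DirichletCharacter.LFunction ψ) :=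
      DirichletCharacter.differentiable_LFunction hψ
    have hdf : ∀ z : ℂ, 0 ≤ z.re → DifferentiableAt ℂ f z := by
      intro z hz
      have e : f = fun z => DirichletCharacter.LFunction ψ z / (z + 1) ^ 2 := funext hf
      rw [e]
      refine (hd z).div (by fun_prop) ?_
      apply pow_ne_zero
      intro h0
      have := hne z hz
      rw [h0, norm_zero] at this
      linarith only [this]
    have hdc : DiffContOnCl ℂ f (Complex.HadamardThreeLines.verticalStrip (1 / 2) 1) := by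
      refine DifferentiableOn.diffContOnCl fun z hz => (hdf z ?_).differentiableWithinAt
      have h2 : closure (Complex.HadamardThreeLines.verticalStrip (1 / 2) 1) ⊆
          {z : ℂ | 1 / 2 ≤ z.re} := by
        apply closure_minimal
        · intro w hw
          exact (Set.mem_preimage.mp hw).1.le
        · exact isClosed_le continuous_const Complex.continuous_re
      have h3 : 1 / 2 ≤ z.re := h2 hz
      linarith only [h3]
    have hB : BddAbove ((norm ∘ f) '' Complex.HadamardThreeLines.verticalClosedStrip (1 / 2) 1) := by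
      refine ⟨C2 * N, ?_⟩
      rintro _ ⟨z, hz, rfl⟩
      exact hfb z (Set.mem_preimage.mp hz).1
    have hT := Complex.HadamardThreeLines.norm_le_interp_of_mem_verticalClosedStrip' (f := f) (z := s)
      (a := C2 * N) (b := C1 * l) (l := 1 / 2) (u := 1) (by norm_num)
      (Set.mem_preimage.mpr ⟨hs0, h⟩) hdc hB
      (fun z hz => hfb z (by
        have h2 : z.re = 1 / 2 := hz
        rw [h2]))
      (fun z hz => by
        have h2 : z.re = 1 := hz
        have h3 := hR N ψ hψ z h2.ge (by rw [h2]; norm_num)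
        have h4 : ‖z + 1‖ ^ 2 = 4 + z.im ^ 2 := by
          rw [← Complex.normSq_eq_norm_sq, Complex.normSq_apply, Complex.add_re,
            Complex.add_im, Complex.one_re, Complex.one_im, h2]
          ring
        rw [hf, norm_div, norm_pow, h4, div_le_iff₀ (by positivity)]
        refine le_trans h3 ?_
        apply mul_le_mul_of_nonneg_left _ (by positivity)
        rw [← sq_abs z.im]
        nlinarith only [sq_nonneg (|z.im| - 1), abs_nonneg z.im])
    have e2 : (s.re - 1 / 2) / (1 - 1 / 2) = 2 * s.re - 1 := by ring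
    rw [e2] at hT
    have hp1 : (C2 * N : ℝ) ^ (1 - (2 * s.re - 1)) ≤ C2 * Real.exp 1 := by
      have hb1 : 1 ≤ C2 * (N : ℝ) := by nlinarith only [hNR, hC2]
      have h2 : 1 - (2 * s.re - 1) ≤ 1 / (2 * l) := by
        have h3 : 1 / (2 * l) = 2 * (1 / (4 * l)) := by
          field_simp
          norm_num
        rw [h3]
        linarith only [hs1]
      refine (Real.rpow_le_rpow_of_exponent_le hb1 h2).trans ?_
      rw [Real.mul_rpow (by positivity) (by positivity)]
      have h3 : C2 ^ (1 / (2 * l)) ≤ C2 := by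
        calc C2 ^ (1 / (2 * l)) ≤ C2 ^ (1 : ℝ) := by
              apply Real.rpow_le_rpow_of_exponent_le hC2
              rw [div_le_one (by positivity)]
              linarith only [hl]
          _ = C2 := Real.rpow_one _
      have h4 : (N : ℝ) ^ (1 / (2 * l)) ≤ Real.exp 1 := by
        rw [Real.rpow_def_of_pos (by positivity)]
        apply Real.exp_le_exp.mpr
        rw [mul_one_div, div_le_one (by positivity)]
        have h5 : Real.log N ≤ l := by
          rw [hldef]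
          apply Real.log_le_log (by positivity)
          linarith only [hNR]
        linarith only [hl, h5]
      exact mul_le_mul h3 h4 (by positivity) (by linarith only [hC2])
    have hp2 : (C1 * l : ℝ) ^ (2 * s.re - 1) ≤ C1 * l := by
      have hb1 : 1 ≤ C1 * l := by nlinarith only [hC1, hl]
      calc (C1 * l : ℝ) ^ (2 * s.re - 1) ≤ (C1 * l) ^ (1 : ℝ) := by
            apply Real.rpow_le_rpow_of_exponent_le hb1
            linarith only [h]
        _ = C1 * l := Real.rpow_one _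
    have h2 : ‖f s‖ ≤ C2 * Real.exp 1 * (C1 * l) :=
      hT.trans (mul_le_mul hp1 hp2 (by positivity) (by positivity))
    have h3 : ‖s + 1‖ ^ 2 ≤ 5 := by
      rw [← Complex.normSq_eq_norm_sq, Complex.normSq_apply, Complex.add_re,
        Complex.add_im, Complex.one_re, Complex.one_im]
      have h4 : s.im * s.im ≤ 1 := by
        rw [← abs_mul_abs_self s.im]
        nlinarith only [hs3, abs_nonneg s.im]
      nlinarith only [h, h4, hs1, hl4]
    have h4 : ‖DirichletCharacter.LFunction ψ s‖ = ‖f s‖ * ‖s + 1‖ ^ 2 := by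
      have h5 := hne s (by linarith only [hs1, hl4])
      rw [hf, norm_div, norm_pow]
      field_simp
    rw [h4]
    have h5 : 0 ≤ C2 * Real.exp 1 * (C1 * l) := by positivity
    calc ‖f s‖ * ‖s + 1‖ ^ 2 ≤ C2 * Real.exp 1 * (C1 * l) * 5 :=
          mul_le_mul h2 h3 (by positivity) h5
      _ ≤ 5 * (C2 * Real.exp 1) * (3 * C1) * l := by nlinarith only [h5]

theorem L_near : ∃ C : ℝ, 1 ≤ C ∧ ∀ (N : ℕ) [NeZero N] (ψ : DirichletCharacter ℂ N), ψ ≠ 1 →
    ∀ x : ℝ, 1 - 1 / (8 * Real.log (2 * N)) ≤ x → x ≤ 1 →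
      ‖DirichletCharacter.LFunction ψ 1 - DirichletCharacter.LFunction ψ (x : ℂ)‖ ≤
        C * (1 - x) * Real.log (2 * N) ^ 2 := by
  obtain ⟨C, hC, hbox⟩ := lnear_box
  refine ⟨8 * C, by linarith only [hC], ?_⟩
  intro N _ ψ hψ x hx hx1
  have hN2 := lnear_two ψ hψ
  have hl := lnear_log hN2
  set l := Real.log (2 * N) with hldef
  have hr : 0 < 1 / (8 * l) := by positivity
  have hr1 : 1 / (8 * l) ≤ 1 / 8 := by
    apply div_le_div_of_nonneg_left (by norm_num) (by norm_num)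
    linarith only [hl]
  have e4 : 1 / (4 * l) = 2 * (1 / (8 * l)) := by
    field_simp
    norm_num
  have hd : Differentiable ℂ (DirichletCharacter.LFunction ψ) :=
    DirichletCharacter.differentiable_LFunction hψ
  have hder : ∀ y : ℝ, 1 - 1 / (8 * l) ≤ y → y ≤ 1 →
      ‖deriv (DirichletCharacter.LFunction ψ) (y : ℂ)‖ ≤ 8 * C * l ^ 2 := by
    intro y hy hy1
    have h1 := Complex.norm_deriv_le_of_forall_mem_sphere_norm_le (c := (y : ℂ)) (R := 1 / (8 * l))
      (C := C * l) (f := DirichletCharacter.LFunction ψ) hr hd.diffContOnCl (fun z hz => by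
        have h2 : ‖z - (y : ℂ)‖ = 1 / (8 * l) := by
          rw [← dist_eq_norm]
          exact Metric.mem_sphere.mp hz
        have h3 := Complex.abs_re_le_norm (z - (y : ℂ))
        have h4 := Complex.abs_im_le_norm (z - (y : ℂ))
        rw [h2] at h3 h4
        simp only [Complex.sub_re, Complex.sub_im, Complex.ofReal_re, Complex.ofReal_im, sub_zero] at h3 h4
        have h5 := abs_le.mp h3
        apply hbox N ψ hψ z
        · rw [← hldef, e4]
          linarith only [hy, h5, h5.1]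
        · linarith only [hr, hr1, hy1, h5, h5.2]
        · linarith only [hr, hr1, h4])
    refine h1.trans (le_of_eq ?_)
    field_simp
  have hmv := Convex.norm_image_sub_le_of_norm_deriv_le (𝕜 := ℂ) (f := DirichletCharacter.LFunction ψ)
    (C := 8 * C * l ^ 2) (s := segment ℝ (x : ℂ) 1) (x := (x : ℂ)) (y := 1)
    (fun z _ => hd z) (fun z hz => by
      obtain ⟨a, b, ha, hb, hab, rfl⟩ := hz
      have e : a • (x : ℂ) + b • (1 : ℂ) = ((a * x + b : ℝ) : ℂ) := by
        rw [Complex.real_smul, Complex.real_smul]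
        push_cast
        ring
      rw [e]
      have hb' : b = 1 - a := by linarith only [hab]
      apply hder
      · rw [hb']
        nlinarith only [hx, hx1, hb, hab]
      · rw [hb']
        nlinarith only [hx1, ha]) (convex_segment _ _) (left_mem_segment _ _ _) (right_mem_segment _ _ _)
  refine hmv.trans (le_of_eq ?_)
  have e : (1 : ℂ) - (x : ℂ) = ((1 - x : ℝ) : ℂ) := by push_cast; ring
  rw [e, Complex.norm_real, Real.norm_of_nonneg (by linarith only [hx1])]
  ring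

end Pool.Agent.H11.LQ

end

section

/-!
# LQ stage 2, module Page: two real characters (Landau, Page)

Let `l = log (2 N)`, `F s = L(s,χ1) L(s,χ2) L(s,χ1 χ2)` (real for real `s`, `F 1 > 0`: private lemmas `swd3_im`, `swd3_pos`,
`swd3_triv`, `swd3_upper` of H91/EHA/SwD3 may be copied), `estermann`: for `7/8 < s < 1`
`1/2 - C N ^ (C (1 - s)) / (1 - s) * φ(N)/N * F 1 ≤ Re (L(s,1) F s)`, and `L(s, 1) < 0` for `s` close to `1` (`swd3_zeta`, `swd3_triv`).
Put `s0 = 1 - η / l`, `η > 0` small and fixed, so `N ^ (C (1 - s)) ≤ e ^ (C η)` for `s ≥ s0`.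
* If none of the three functions has a zero in `[s0, 1)`, all three are `> 0` at `s0` (`swd3_pos`), so the right side is `≤ 0` at `s0`
  and `F 1 ≥ c / l`; as `‖L(1,ψ)‖ ≤ C2 l` (`swd3_upper`) this gives `‖L(1,χ1)‖ ‖L(1,χ2)‖ ≥ c / l ^ 2`, so the maximum is
  `≥ c / l` (if `c ≤ 1`) and so `≥ c / l ^ 3`.
* If one of the three functions, `ψ`, has a zero `s ∈ [s0, 1)`: the right side is `0` at `s`, so `(1 - s) ≤ C' F 1`, and by `L_near`
  `‖L(1,ψ)‖ ≤ C (1 - s) l ^ 2 ≤ C'' l ^ 2 ‖L(1,ψ)‖ * (product of the other two)`; divide by `‖L(1,ψ)‖ > 0`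
  (`DirichletCharacter.LFunction_apply_one_ne_zero`): the product of the other two is `≥ c / l ^ 2`.  If `ψ = χ1 χ2` this is
  `‖L(1,χ1)‖ ‖L(1,χ2)‖ ≥ c / l ^ 2`; if `ψ = χ1` it is `‖L(1,χ2)‖ C2 l ≥ c / l ^ 2`; in the same way for `ψ = χ2`.
-/

set_option autoImplicit false

namespace Pool.Agent.H11.LQ

open Finset
open Pool.Agent.H91.EHA

private theorem page_val {N : ℕ} (ψ : DirichletCharacter ℂ N) (h : ψ ^ 2 = 1) (a : ZMod N) :
    (starRingEnd ℂ) (ψ a) = ψ a := by
  by_cases ha : IsUnit a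
  · have h1 : (ψ a) ^ 2 = 1 := by
      have h2 := congrArg (fun f : DirichletCharacter ℂ N => f a) h
      rw [MulChar.pow_apply' _ two_ne_zero, MulChar.one_apply ha] at h2
      exact h2
    have h2 : (ψ a - 1) * (ψ a + 1) = 0 := by
      have : (ψ a - 1) * (ψ a + 1) = ψ a ^ 2 - 1 := by ring
      rw [this, h1, sub_self]
    rcases mul_eq_zero.mp h2 with h3 | h3
    · rw [sub_eq_zero.mp h3, map_one]
    · rw [eq_neg_of_add_eq_zero_left h3, map_neg, map_one]
  · rw [MulChar.map_nonunit _ ha, map_zero]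

private theorem page_conj_series {N : ℕ} (ψ : DirichletCharacter ℂ N) (h : ψ ^ 2 = 1) (s : ℂ) :
    (starRingEnd ℂ) (LSeries (fun n => ψ n) ((starRingEnd ℂ) s)) = LSeries (fun n => ψ n) s := by
  unfold LSeries
  rw [Complex.conj_tsum]
  apply tsum_congr
  intro n
  by_cases hn : n = 0
  · subst hn
    simp [LSeries.term_zero]
  · rw [LSeries.term_of_ne_zero hn, LSeries.term_of_ne_zero hn, map_div₀, page_val ψ h]
    congr 1
    have h1 : ((n : ℂ)).arg ≠ Real.pi := by
      rw [Complex.natCast_arg]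
      exact Real.pi_pos.ne
    rw [← Complex.conj_cpow _ _ h1, Complex.conj_natCast]

private theorem page_conj {N : ℕ} [NeZero N] (ψ : DirichletCharacter ℂ N) (h : ψ ^ 2 = 1)
    (h1 : ψ ≠ 1) (s : ℂ) :
    (starRingEnd ℂ) (DirichletCharacter.LFunction ψ ((starRingEnd ℂ) s)) =
      DirichletCharacter.LFunction ψ s := by
  have hd : Differentiable ℂ (DirichletCharacter.LFunction ψ) :=
    DirichletCharacter.differentiable_LFunction h1
  have hd2 : Differentiable ℂ
      ((starRingEnd ℂ) ∘ DirichletCharacter.LFunction ψ ∘ (starRingEnd ℂ)) := by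
    intro z
    rw [differentiableAt_conj_conj_iff]
    exact hd _
  have hA : AnalyticOnNhd ℂ (DirichletCharacter.LFunction ψ) Set.univ :=
    fun z _ => hd.analyticAt z
  have hB : AnalyticOnNhd ℂ
      ((starRingEnd ℂ) ∘ DirichletCharacter.LFunction ψ ∘ (starRingEnd ℂ)) Set.univ :=
    fun z _ => hd2.analyticAt z
  have hev : ((starRingEnd ℂ) ∘ DirichletCharacter.LFunction ψ ∘ (starRingEnd ℂ)) =ᶠ[nhds 2]
      DirichletCharacter.LFunction ψ := by
    have hopen : {z : ℂ | 1 < z.re} ∈ nhds (2 : ℂ) := by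
      apply (isOpen_lt continuous_const Complex.continuous_re).mem_nhds
      simp
    filter_upwards [hopen] with z hz
    have hz1 : 1 < z.re := hz
    have hz' : 1 < ((starRingEnd ℂ) z).re := by rw [Complex.conj_re]; exact hz1
    simp only [Function.comp_apply]
    rw [DirichletCharacter.LFunction_eq_LSeries ψ hz', DirichletCharacter.LFunction_eq_LSeries ψ hz1]
    exact page_conj_series ψ h z
  have := hB.eq_of_eventuallyEq hA hev
  exact congrFun this s

private theorem page_im {N : ℕ} [NeZero N] (ψ : DirichletCharacter ℂ N) (h : ψ ^ 2 = 1)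
    (h1 : ψ ≠ 1) (x : ℝ) : (DirichletCharacter.LFunction ψ (x : ℂ)).im = 0 := by
  have h2 := page_conj ψ h h1 (x : ℂ)
  rw [Complex.conj_ofReal] at h2
  have h3 := congrArg Complex.im h2
  rw [Complex.conj_im] at h3
  linarith

private theorem page_two {N : ℕ} [NeZero N] (ψ : DirichletCharacter ℂ N) :
    0 < (DirichletCharacter.LFunction ψ 2).re := by
  have hre : 1 < (2 : ℂ).re := by simp
  rw [DirichletCharacter.LFunction_eq_LSeries ψ hre]
  have hsum : HasSum (LSeries.term (fun n => ψ n) 2) (LSeries (fun n => ψ n) 2) :=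
    (DirichletCharacter.LSeriesSummable_of_one_lt_re ψ hre).hasSum
  have h1 : HasSum (fun k : ℕ => if k = 1 then (1 : ℂ) else 0) 1 := hasSum_ite_eq 1 1
  have h2 := hsum.sub h1
  have h3 : HasSum (fun k : ℕ => 1 / (k : ℝ) ^ 2 - if k = 1 then (1 : ℝ) else 0)
      (Real.pi ^ 2 / 6 - 1) := hasSum_zeta_two.sub (hasSum_ite_eq 1 1)
  have h4 : ∀ k : ℕ, ‖LSeries.term (fun n => ψ n) 2 k - (if k = 1 then (1 : ℂ) else 0)‖ ≤
      1 / (k : ℝ) ^ 2 - if k = 1 then (1 : ℝ) else 0 := by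
    intro k
    by_cases hk0 : k = 0
    · subst hk0
      simp [LSeries.term_zero]
    · by_cases hk1 : k = 1
      · subst hk1
        rw [LSeries.term_of_ne_zero one_ne_zero]
        simp
      · rw [if_neg hk1, if_neg hk1, sub_zero, sub_zero, LSeries.term_of_ne_zero hk0, norm_div,
          Complex.norm_natCast_cpow_of_pos (Nat.pos_of_ne_zero hk0)]
        have hk : (0 : ℝ) < (k : ℝ) := by exact_mod_cast Nat.pos_of_ne_zero hk0
        have e : (k : ℝ) ^ ((2 : ℂ).re) = (k : ℝ) ^ 2 := by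
          have : ((2 : ℂ).re) = ((2 : ℕ) : ℝ) := by simp
          rw [this, Real.rpow_natCast]
        rw [e]
        exact div_le_div_of_nonneg_right (ψ.norm_le_one _) (by positivity)
  have h5 := h2.norm_le_of_bounded h3 h4
  have h6 : |(LSeries (fun n => ψ n) 2 - 1).re| ≤ Real.pi ^ 2 / 6 - 1 :=
    (Complex.abs_re_le_norm _).trans h5
  have h7 := (abs_le.mp h6).1
  rw [Complex.sub_re, Complex.one_re] at h7
  have h8 : Real.pi ^ 2 < 12 := by
    have := Real.pi_lt_d2
    have := Real.pi_pos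
    nlinarith
  linarith only [h7, h8]

private theorem page_pos {N : ℕ} [NeZero N] (ψ : DirichletCharacter ℂ N) (h : ψ ^ 2 = 1)
    (h1 : ψ ≠ 1) (β : ℝ) (hβ : β < 1)
    (hz : ∀ x : ℝ, β ≤ x → x < 1 → DirichletCharacter.LFunction ψ (x : ℂ) ≠ 0) :
    0 < (DirichletCharacter.LFunction ψ (β : ℂ)).re := by
  by_contra hcon
  push Not at hcon
  have hcont : Continuous (fun x : ℝ => (DirichletCharacter.LFunction ψ (x : ℂ)).re) :=
    Complex.continuous_re.comp
      ((DirichletCharacter.differentiable_LFunction h1).continuous.comp Complex.continuous_ofReal)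
  have h2 : 0 < (DirichletCharacter.LFunction ψ ((2 : ℝ) : ℂ)).re := by
    have := page_two ψ
    simpa using this
  have hmem : (0 : ℝ) ∈ Set.Icc ((DirichletCharacter.LFunction ψ (β : ℂ)).re)
      ((DirichletCharacter.LFunction ψ ((2 : ℝ) : ℂ)).re) := ⟨hcon, h2.le⟩
  obtain ⟨x, hx, hx0⟩ := intermediate_value_Icc (by linarith : β ≤ 2) hcont.continuousOn hmem
  have hx00 : DirichletCharacter.LFunction ψ (x : ℂ) = 0 := by
    apply Complex.ext
    · exact hx0
    · rw [page_im ψ h h1]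
      simp
  by_cases hx1 : x < 1
  · exact hz x hx.1 hx1 hx00
  · push Not at hx1
    exact DirichletCharacter.LFunction_ne_zero_of_one_le_re ψ (Or.inl h1)
      (by simpa using hx1) hx00

private theorem page_upper : ∃ C : ℝ, 0 < C ∧ ∀ (N : ℕ) [NeZero N] (ψ : DirichletCharacter ℂ N),
    ψ ≠ 1 → ‖DirichletCharacter.LFunction ψ 1‖ ≤ C * Real.log (2 * N) := by
  obtain ⟨C, hC, hL⟩ := Lk_le 0
  refine ⟨C, hC, ?_⟩
  intro N _ ψ hψ
  have hN2 : 2 ≤ N := by
    rcases Nat.lt_or_ge N 2 with h | h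
    · exfalso
      have hN0 : N ≠ 0 := NeZero.ne N
      have hN1 : N = 1 := by omega
      exact hψ (DirichletCharacter.level_one' ψ hN1)
    · exact h
  have hcont : Continuous (fun x : ℝ => ‖DirichletCharacter.LFunction ψ (x : ℂ)‖) :=
    ((DirichletCharacter.differentiable_LFunction hψ).continuous.comp
      Complex.continuous_ofReal).norm
  have ht : Filter.Tendsto (fun x : ℝ => ‖DirichletCharacter.LFunction ψ (x : ℂ)‖)
      (nhdsWithin 1 (Set.Ioi 1)) (nhds ‖DirichletCharacter.LFunction ψ ((1 : ℝ) : ℂ)‖) :=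
    (hcont.tendsto 1).mono_left nhdsWithin_le_nhds
  rw [Complex.ofReal_one] at ht
  apply le_of_tendsto ht
  have hev : ∀ᶠ x : ℝ in nhdsWithin 1 (Set.Ioi 1), x < 2 := by
    apply Filter.Eventually.filter_mono nhdsWithin_le_nhds
    exact (isOpen_Iio (a := (2 : ℝ))).mem_nhds (by norm_num)
  filter_upwards [hev, self_mem_nhdsWithin] with x hx2 hx1
  have hx1' : (1 : ℝ) < x := hx1
  have hre : 1 < ((x : ℝ) : ℂ).re := by simpa using hx1'
  have h1 := hL N hN2 ψ hψ (x : ℂ) hre (by simpa using hx2.le)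
  rw [Lk_zero_eq N ψ _ hre] at h1
  simp only [Complex.ofReal_im, abs_zero, zero_add, pow_one] at h1
  rw [mul_comm (2 : ℝ)]
  exact h1

private theorem page_zeta : ∃ η : ℝ, 0 < η ∧ ∀ β : ℝ, 1 - η ≤ β → β < 1 →
    (riemannZeta (β : ℂ)).re < 0 := by
  have h := riemannZeta_residue_one
  have hopen : {z : ℂ | 0 < z.re} ∈ nhds (1 : ℂ) := by
    apply (isOpen_lt continuous_const Complex.continuous_re).mem_nhds
    simp
  have hev := h.eventually hopen
  rw [eventually_nhdsWithin_iff, Metric.eventually_nhds_iff] at hev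
  obtain ⟨δ, hδ, hb⟩ := hev
  refine ⟨δ / 2, by positivity, ?_⟩
  intro β hβ1 hβ2
  have hne : (β : ℂ) ≠ 1 := by
    intro h
    have h2 : ((β : ℝ) : ℂ) = ((1 : ℝ) : ℂ) := by rw [h, Complex.ofReal_one]
    have h3 := Complex.ofReal_injective h2
    linarith only [hβ2, h3]
  have hdist : dist (β : ℂ) 1 < δ := by
    rw [Complex.dist_eq, ← Complex.ofReal_one, ← Complex.ofReal_sub, Complex.norm_real,
      Real.norm_eq_abs, abs_lt]
    constructor <;> linarith only [hβ1, hβ2]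
  have h4 := hb hdist hne
  have h5 : (((β : ℂ) - 1) * riemannZeta (β : ℂ)).re = (β - 1) * (riemannZeta (β : ℂ)).re := by
    rw [← Complex.ofReal_one, ← Complex.ofReal_sub, Complex.re_ofReal_mul]
  have h6 : 0 < (β - 1) * (riemannZeta (β : ℂ)).re := by
    rw [← h5]
    exact h4
  by_contra h7
  push Not at h7
  nlinarith only [h4, h5, hβ2, h7]

private theorem page_triv {N : ℕ} [NeZero N] (β : ℝ) (hβ : 0 < β) (hβ1 : β < 1)
    (hζ : (riemannZeta (β : ℂ)).re < 0) :
    (DirichletCharacter.LFunction (1 : DirichletCharacter ℂ N) (β : ℂ)).re ≤ 0 := by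
  have hne : (β : ℂ) ≠ 1 := by
    intro h
    have h2 : ((β : ℝ) : ℂ) = ((1 : ℝ) : ℂ) := by rw [h, Complex.ofReal_one]
    have h3 := Complex.ofReal_injective h2
    linarith
  have h1 := DirichletCharacter.LFunctionTrivChar_eq_mul_riemannZeta (N := N) hne
  have h2 : (∏ p ∈ N.primeFactors, (1 - (p : ℂ) ^ (-(β : ℂ)))) =
      ((∏ p ∈ N.primeFactors, (1 - (p : ℝ) ^ (-β)) : ℝ) : ℂ) := by
    rw [Complex.ofReal_prod]
    apply Finset.prod_congr rfl
    intro p _
    rw [Complex.ofReal_sub, Complex.ofReal_one, Complex.ofReal_cpow (Nat.cast_nonneg p),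
      Complex.ofReal_neg, Complex.ofReal_natCast]
  have h3 : 0 ≤ ∏ p ∈ N.primeFactors, (1 - (p : ℝ) ^ (-β)) := by
    apply Finset.prod_nonneg
    intro p hp
    have hpp := Nat.prime_of_mem_primeFactors hp
    have h3 : (p : ℝ) ^ (-β) < 1 :=
      Real.rpow_lt_one_of_one_lt_of_neg (by exact_mod_cast hpp.one_lt) (by linarith)
    linarith
  rw [h2] at h1
  have h4 : (DirichletCharacter.LFunction (1 : DirichletCharacter ℂ N) (β : ℂ)).re =
      (∏ p ∈ N.primeFactors, (1 - (p : ℝ) ^ (-β))) * (riemannZeta (β : ℂ)).re := by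
    rw [← Complex.re_ofReal_mul, ← h1]
  rw [h4]
  exact mul_nonpos_of_nonneg_of_nonpos h3 hζ.le

private theorem page_rhs {N : ℕ} [NeZero N] (ψ1 ψ2 : DirichletCharacter ℂ N) (h1 : ψ1 ^ 2 = 1) (h2 : ψ2 ^ 2 = 1)
    (n1 : ψ1 ≠ 1) (n2 : ψ2 ≠ 1) (n3 : ψ1 * ψ2 ≠ 1) (β : ℝ) (hβ : 0 < β) (hβ1 : β < 1)
    (hζ : (riemannZeta (β : ℂ)).re < 0)
    (z1 : ∀ x : ℝ, β ≤ x → x < 1 → DirichletCharacter.LFunction ψ1 (x : ℂ) ≠ 0)
    (z2 : ∀ x : ℝ, β ≤ x → x < 1 → DirichletCharacter.LFunction ψ2 (x : ℂ) ≠ 0)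
    (z3 : ∀ x : ℝ, β ≤ x → x < 1 → DirichletCharacter.LFunction (ψ1 * ψ2) (x : ℂ) ≠ 0) :
    (DirichletCharacter.LFunction (1 : DirichletCharacter ℂ N) β *
          DirichletCharacter.LFunction ψ1 β * DirichletCharacter.LFunction ψ2 β *
          DirichletCharacter.LFunction (ψ1 * ψ2) β).re ≤ 0 := by
  have h3 : (ψ1 * ψ2) ^ 2 = 1 := by rw [mul_pow, h1, h2, mul_one]
  have key : ∀ ψ : DirichletCharacter ℂ N, ψ ^ 2 = 1 → ψ ≠ 1 →
      (∀ x : ℝ, β ≤ x → x < 1 → DirichletCharacter.LFunction ψ (x : ℂ) ≠ 0) →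
      ∃ r : ℝ, 0 ≤ r ∧ DirichletCharacter.LFunction ψ (β : ℂ) = (r : ℂ) := by
    intro ψ h n z
    refine ⟨(DirichletCharacter.LFunction ψ (β : ℂ)).re, (page_pos ψ h n β hβ1 z).le, ?_⟩
    apply Complex.ext
    · simp
    · rw [page_im ψ h n]
      simp
  obtain ⟨r1, hr1, e1⟩ := key ψ1 h1 n1 z1
  obtain ⟨r2, hr2, e2⟩ := key ψ2 h2 n2 z2
  obtain ⟨r3, hr3, e3⟩ := key (ψ1 * ψ2) h3 n3 z3
  rw [e1, e2, e3]
  have h4 := page_triv (N := N) β hβ hβ1 hζ
  have h5 : (DirichletCharacter.LFunction (1 : DirichletCharacter ℂ N) (β : ℂ) * (r1 : ℂ) *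
      (r2 : ℂ) * (r3 : ℂ)).re =
      (DirichletCharacter.LFunction (1 : DirichletCharacter ℂ N) (β : ℂ)).re * (r1 * r2 * r3) := by
    have : DirichletCharacter.LFunction (1 : DirichletCharacter ℂ N) (β : ℂ) * (r1 : ℂ) *
      (r2 : ℂ) * (r3 : ℂ) = ((r1 * r2 * r3 : ℝ) : ℂ) *
      DirichletCharacter.LFunction (1 : DirichletCharacter ℂ N) (β : ℂ) := by
      push_cast
      ring
    rw [this, Complex.re_ofReal_mul]
    ring
  rw [h5]
  exact mul_nonpos_of_nonpos_of_nonneg h4 (by positivity)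

/-- the consequence of a nonpositive value -/
private theorem page_base {N : ℕ} [NeZero N] {C : ℝ} (hC : 1 ≤ C) {x y z : ℂ} {s η l R : ℝ}
    (hl : 1 ≤ l) (hN : Real.log N ≤ l) (hη : 0 < η) (hη1 : η ≤ 1) (hs : 1 - η / l ≤ s) (hs1 : s < 1)
    (hest : 1 / 2 - C * (N : ℝ) ^ (C * (1 - s)) / (1 - s) * (((N.totient : ℝ) / N) * (x * y * z).re) ≤ R)
    (hR : R ≤ 0) : 1 - s ≤ 2 * C * Real.exp C * (‖x‖ * ‖y‖ * ‖z‖) := by
  have hC0 : 0 < C := by linarith only [hC]
  have ha : 0 < 1 - s := by linarith only [hs1]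
  have hN1 : (1 : ℝ) ≤ N := by
    have : 1 ≤ N := Nat.one_le_iff_ne_zero.mpr (NeZero.ne N)
    exact_mod_cast this
  have hN0 : (0 : ℝ) < N := by linarith only [hN1]
  have hl0 : 0 < l := by linarith only [hl]
  set lam : ℝ := ((N.totient : ℝ) / N) * (x * y * z).re with hlam
  have hpow : (N : ℝ) ^ (C * (1 - s)) ≤ Real.exp C := by
    rw [Real.rpow_def_of_pos hN0]
    apply Real.exp_le_exp.2
    have h1 : 1 - s ≤ η / l := by linarith only [hs]
    have h2 : Real.log N * (1 - s) ≤ 1 := by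
      calc Real.log N * (1 - s) ≤ l * (η / l) :=
            mul_le_mul hN h1 ha.le hl0.le
        _ = η := by field_simp
        _ ≤ 1 := hη1
    calc Real.log N * (C * (1 - s)) = C * (Real.log N * (1 - s)) := by ring
      _ ≤ C * 1 := mul_le_mul_of_nonneg_left h2 hC0.le
      _ = C := mul_one C
  have hmain : (1 - s) / 2 ≤ C * (N : ℝ) ^ (C * (1 - s)) * lam := by
    have e1 : 1 / 2 ≤ C * (N : ℝ) ^ (C * (1 - s)) / (1 - s) * lam := by linarith only [hR, hest]
    have e2 := mul_le_mul_of_nonneg_left e1 ha.le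
    have e3 : (1 - s) * (C * (N : ℝ) ^ (C * (1 - s)) / (1 - s) * lam) =
        C * (N : ℝ) ^ (C * (1 - s)) * lam := by
      field_simp
    rw [e3] at e2
    linarith only [e2]
  have hlam1 : lam ≤ ‖x‖ * ‖y‖ * ‖z‖ := by
    have hφ0 : 0 ≤ (N.totient : ℝ) / N := by positivity
    have hφ1 : (N.totient : ℝ) / N ≤ 1 := by
      rw [div_le_one hN0]
      exact_mod_cast Nat.totient_le N
    have hn : (x * y * z).re ≤ ‖x‖ * ‖y‖ * ‖z‖ := by
      refine (Complex.re_le_norm _).trans (le_of_eq ?_)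
      rw [norm_mul, norm_mul]
    calc lam ≤ ((N.totient : ℝ) / N) * (‖x‖ * ‖y‖ * ‖z‖) := mul_le_mul_of_nonneg_left hn hφ0
      _ ≤ 1 * (‖x‖ * ‖y‖ * ‖z‖) := mul_le_mul_of_nonneg_right hφ1 (by positivity)
      _ = _ := one_mul _
  have hlam0 : 0 ≤ lam := by
    by_contra hneg
    push Not at hneg
    have : C * (N : ℝ) ^ (C * (1 - s)) * lam < 0 := mul_neg_of_pos_of_neg (by positivity) hneg
    linarith only [hs1, hmain, this]
  have h5 : C * (N : ℝ) ^ (C * (1 - s)) * lam ≤ C * Real.exp C * (‖x‖ * ‖y‖ * ‖z‖) :=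
    mul_le_mul (mul_le_mul_of_nonneg_left hpow hC0.le) hlam1 hlam0 (by positivity)
  linarith only [hmain, h5]

/-- from the product to the maximum -/
private theorem page_max {a b c l : ℝ} (ha : 0 ≤ a) (hb : 0 ≤ b) (hc : 0 < c) (hc1 : c ≤ 1) (hl : 1 ≤ l)
    (h : c ≤ a * b * l ^ 2) : c / l ^ 3 ≤ max a b := by
  by_contra hcon
  push Not at hcon
  have hl0 : 0 < l := by linarith
  set M := max a b with hM
  have hM0 : 0 ≤ M := ha.trans (le_max_left _ _)
  have h1 : a * b ≤ M ^ 2 := by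
    rw [sq]
    exact mul_le_mul (le_max_left _ _) (le_max_right _ _) hb hM0
  rw [lt_div_iff₀ (by positivity)] at hcon
  have h2 : M * l ≤ M * l ^ 3 := by
    apply mul_le_mul_of_nonneg_left _ hM0
    calc l = l ^ 1 := (pow_one l).symm
      _ ≤ l ^ 3 := pow_le_pow_right₀ hl (by norm_num)
  have h3 : M * l < c := by linarith
  have h4 : a * b * l ^ 2 ≤ (M * l) ^ 2 := by
    rw [mul_pow]
    exact mul_le_mul_of_nonneg_right h1 (by positivity)
  have h5 : (M * l) ^ 2 < c ^ 2 := pow_lt_pow_left₀ h3 (by positivity) (by norm_num)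
  have h6 : c ^ 2 ≤ c := by nlinarith only [h, h4, h5, hc, hc1]
  linarith

theorem page : ∃ c : ℝ, 0 < c ∧ ∀ (N : ℕ) [NeZero N] (χ1 χ2 : DirichletCharacter ℂ N),
    χ1 ^ 2 = 1 → χ2 ^ 2 = 1 → χ1 ≠ 1 → χ2 ≠ 1 → χ1 ≠ χ2 →
      c / Real.log (2 * N) ^ 3 ≤
        max ‖DirichletCharacter.LFunction χ1 1‖ ‖DirichletCharacter.LFunction χ2 1‖ := by
  obtain ⟨C, hC, hE⟩ := estermann
  obtain ⟨C2, hC2, hU⟩ := page_upper
  obtain ⟨C3, hC3, hL⟩ := L_near
  obtain ⟨η0, hη0, hζ⟩ := page_zeta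
  have hC0 : 0 < C := by linarith
  have hC30 : 0 < C3 := by linarith
  set η : ℝ := min η0 (1 / 16) with hη
  have hηpos : 0 < η := lt_min hη0 (by norm_num)
  have hη1 : η ≤ η0 := min_le_left _ _
  have hη2 : η ≤ 1 / 16 := min_le_right _ _
  set A : ℝ := 2 * C * Real.exp C with hA
  have hA0 : 0 < A := by positivity
  set c : ℝ := min 1 (min (η / (A * C2)) (min (1 / (A * C3)) (1 / (A * C3 * C2)))) with hc
  have hc0 : 0 < c := lt_min one_pos (lt_min (by positivity) (lt_min (by positivity) (by positivity)))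
  have hc1 : c ≤ 1 := min_le_left _ _
  have hc2 : c ≤ η / (A * C2) := (min_le_right _ _).trans (min_le_left _ _)
  have hc3 : c ≤ 1 / (A * C3) := (min_le_right _ _).trans ((min_le_right _ _).trans (min_le_left _ _))
  have hc4 : c ≤ 1 / (A * C3 * C2) := (min_le_right _ _).trans ((min_le_right _ _).trans (min_le_right _ _))
  refine ⟨c, hc0, ?_⟩
  intro N _ χ1 χ2 h1 h2 n1 n2 hne
  have h3 : (χ1 * χ2) ^ 2 = 1 := by rw [mul_pow, h1, h2, mul_one]
  have n3 : χ1 * χ2 ≠ 1 := by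
    intro h
    apply hne
    have e : χ1 * χ2 * χ2 = χ2 := by rw [h, one_mul]
    rwa [mul_assoc, ← sq, h2, mul_one] at e
  have hN2 : 2 ≤ N := by
    rcases Nat.lt_or_ge N 2 with h | h
    · exfalso
      have hN0 : N ≠ 0 := NeZero.ne N
      have hN1 : N = 1 := by omega
      exact n1 (DirichletCharacter.level_one' χ1 hN1)
    · exact h
  have hN2' : (2 : ℝ) ≤ N := by exact_mod_cast hN2
  set l : ℝ := Real.log (2 * N) with hl
  have hl1 : 1 ≤ l := by
    rw [hl, Real.le_log_iff_exp_le (by positivity)]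
    have := Real.exp_one_lt_d9
    linarith only [hηpos, hη2, hN2', this]
  have hl0 : 0 < l := by linarith only [hηpos, hη2, hl1]
  have hlN : Real.log N ≤ l := Real.log_le_log (by linarith only [hηpos, hη2, hN2']) (by linarith only [hηpos, hη2, hN2'])
  set a := ‖DirichletCharacter.LFunction χ1 1‖ with ha
  set b := ‖DirichletCharacter.LFunction χ2 1‖ with hb
  set p := ‖DirichletCharacter.LFunction (χ1 * χ2) 1‖ with hp
  have ha0 : 0 < a := norm_pos_iff.mpr (DirichletCharacter.LFunction_apply_one_ne_zero n1)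
  have hb0 : 0 < b := norm_pos_iff.mpr (DirichletCharacter.LFunction_apply_one_ne_zero n2)
  have hp0 : 0 < p := norm_pos_iff.mpr (DirichletCharacter.LFunction_apply_one_ne_zero n3)
  have hpU : p ≤ C2 * l := hU N _ n3
  have hηl : η / l ≤ η := by
    rw [div_le_iff₀ hl0]
    nlinarith only [hηpos, hl1]
  have hs078 : ∀ s : ℝ, 1 - η / l ≤ s → 7 / 8 < s := fun s hs => by linarith only [hηpos, hη2, hηl, hs]
  -- the basic inequality
  have hbase : ∀ s : ℝ, 1 - η / l ≤ s → s < 1 →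
      (DirichletCharacter.LFunction (1 : DirichletCharacter ℂ N) s *
          DirichletCharacter.LFunction χ1 s * DirichletCharacter.LFunction χ2 s *
          DirichletCharacter.LFunction (χ1 * χ2) s).re ≤ 0 → 1 - s ≤ A * (a * b * p) := by
    intro s hs hs1 hR
    exact page_base hC hl1 hlN hηpos (by linarith only [hηpos, hη2]) hs hs1 (hE N χ1 χ2 h1 h2 n1 n2 n3 s (hs078 s hs) hs1) hR
  -- the bound at a zero
  have hnear : ∀ (ψ : DirichletCharacter ℂ N), ψ ≠ 1 → ∀ s : ℝ, 1 - η / l ≤ s → s < 1 →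
      DirichletCharacter.LFunction ψ (s : ℂ) = 0 → ‖DirichletCharacter.LFunction ψ 1‖ ≤ C3 * (1 - s) * l ^ 2 := by
    intro ψ n s hs hs1 h0
    have e := hL N ψ n s (by
      have : η / l ≤ 1 / (8 * l) := by
        rw [div_le_div_iff₀ hl0 (by positivity)]
        nlinarith only [hη2, hl1, hηpos]
      linarith only [hs, this]) hs1.le
    rwa [h0, sub_zero] at e
  -- a common step
  have hstep : ∀ q r : ℝ, 0 < q → a * b * p = q * r → ∀ s : ℝ, q ≤ C3 * (1 - s) * l ^ 2 → 1 - s ≤ A * (a * b * p) →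
      1 / (A * C3) ≤ r * l ^ 2 := by
    intro q r hq he s hq1 hs
    have e1 : q ≤ C3 * (A * (q * r)) * l ^ 2 := by
      rw [← he]
      refine hq1.trans ?_
      exact mul_le_mul_of_nonneg_right (mul_le_mul_of_nonneg_left hs hC30.le) (by positivity)
    have e2 : q * 1 ≤ q * (A * C3 * (r * l ^ 2)) := by
      calc q * 1 = q := mul_one q
        _ ≤ C3 * (A * (q * r)) * l ^ 2 := e1
        _ = q * (A * C3 * (r * l ^ 2)) := by ring
    have e3 := le_of_mul_le_mul_left e2 hq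
    rw [div_le_iff₀ (by positivity)]
    linarith only [e3]
  by_cases z3 : ∃ s : ℝ, (1 - η / l ≤ s ∧ s < 1) ∧ DirichletCharacter.LFunction (χ1 * χ2) (s : ℂ) = 0
  · obtain ⟨s, ⟨hs, hs1⟩, h0⟩ := z3
    have e1 := hbase s hs hs1 (by rw [h0, mul_zero]; simp)
    have e2 := hnear _ n3 s hs hs1 h0
    have e3 := hstep p (a * b) hp0 (by ring) s e2 e1
    exact page_max ha0.le hb0.le hc0 hc1 hl1 (hc3.trans e3)
  by_cases z1 : ∃ s : ℝ, (1 - η / l ≤ s ∧ s < 1) ∧ DirichletCharacter.LFunction χ1 (s : ℂ) = 0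
  · obtain ⟨s, ⟨hs, hs1⟩, h0⟩ := z1
    have e1 := hbase s hs hs1 (by rw [h0]; simp)
    have e2 := hnear _ n1 s hs hs1 h0
    have e3 := hstep a (b * p) ha0 (by ring) s e2 e1
    refine le_trans ?_ (le_max_right _ _)
    rw [div_le_iff₀ (by positivity)]
    refine hc4.trans ?_
    have e4 : b * p * l ^ 2 ≤ b * (C2 * l) * l ^ 2 :=
      mul_le_mul_of_nonneg_right (mul_le_mul_of_nonneg_left hpU hb0.le) (by positivity)
    have e5 : 1 / (A * C3 * C2) = 1 / (A * C3) / C2 := by rw [div_div]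
    rw [e5, div_le_iff₀ hC2]
    calc 1 / (A * C3) ≤ b * p * l ^ 2 := e3
      _ ≤ b * (C2 * l) * l ^ 2 := e4
      _ = b * l ^ 3 * C2 := by ring
  by_cases z2 : ∃ s : ℝ, (1 - η / l ≤ s ∧ s < 1) ∧ DirichletCharacter.LFunction χ2 (s : ℂ) = 0
  · obtain ⟨s, ⟨hs, hs1⟩, h0⟩ := z2
    have e1 := hbase s hs hs1 (by rw [h0]; simp)
    have e2 := hnear _ n2 s hs hs1 h0
    have e3 := hstep b (a * p) hb0 (by ring) s e2 e1
    refine le_trans ?_ (le_max_left _ _)
    rw [div_le_iff₀ (by positivity)]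
    refine hc4.trans ?_
    have e4 : a * p * l ^ 2 ≤ a * (C2 * l) * l ^ 2 :=
      mul_le_mul_of_nonneg_right (mul_le_mul_of_nonneg_left hpU ha0.le) (by positivity)
    have e5 : 1 / (A * C3 * C2) = 1 / (A * C3) / C2 := by rw [div_div]
    rw [e5, div_le_iff₀ hC2]
    calc 1 / (A * C3) ≤ a * p * l ^ 2 := e3
      _ ≤ a * (C2 * l) * l ^ 2 := e4
      _ = a * l ^ 3 * C2 := by ring
  -- no zeros
  have hηl0 : 0 < η / l := by positivity
  have hs0 : 1 - η / l < 1 := by linarith only [hηl0]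
  have hR := page_rhs χ1 χ2 h1 h2 n1 n2 n3 (1 - η / l) (by linarith only [hηpos, hη2, hηl]) hs0 (hζ _ (by linarith only [hη1, hηl]) hs0)
    (fun x hx hx1 h => z1 ⟨x, ⟨hx, hx1⟩, h⟩) (fun x hx hx1 h => z2 ⟨x, ⟨hx, hx1⟩, h⟩)
    (fun x hx hx1 h => z3 ⟨x, ⟨hx, hx1⟩, h⟩)
  have e1 := hbase (1 - η / l) le_rfl hs0 hR
  apply page_max ha0.le hb0.le hc0 hc1 hl1
  refine hc2.trans ?_
  rw [div_le_iff₀ (by positivity)]
  have e2 : η / l ≤ A * (a * b * (C2 * l)) := by
    have e3 : A * (a * b * p) ≤ A * (a * b * (C2 * l)) :=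
      mul_le_mul_of_nonneg_left (mul_le_mul_of_nonneg_left hpU (by positivity)) hA0.le
    linarith only [e1, e3]
  rw [div_le_iff₀ hl0] at e2
  calc η ≤ A * (a * b * (C2 * l)) * l := e2
    _ = a * b * l ^ 2 * (A * C2) := by ring

end Pool.Agent.H11.LQ

end

section

/-!
# LQ stage 2, module Exc2: the exceptional conductor and the parity of its character

For `X` let `q X = f` if there is a real primitive nonprincipal character `χ*` of conductor `f ≤ X` with
`‖L(1,χ*)‖ < c1 / log X ^ 4` (choose one), otherwise `q X = X + 1`; `c1` is small; `σ X = χ*(-1)`.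
The proof of the lower bound for the other characters uses `page`; a real character mod a multiple of `q X` whose
value at `-1` is not `σ X` is not induced by `χ*`.
-/

set_option autoImplicit false

namespace Pool.Agent.H11.LQ

open Finset

private theorem exq_prod (N : ℕ) (hN : 1 ≤ N) :
    ∏ p ∈ N.primeFactors, (1 + 1 / (p : ℝ)) ≤ 1 + Real.log N := by
  rw [Finset.prod_one_add]
  have hprime : ∀ t ∈ N.primeFactors.powerset, ∀ p ∈ t, p.Prime := by
    intro t ht p hp
    exact Nat.prime_of_mem_primeFactors (Finset.mem_powerset.mp ht hp)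
  have e1 : ∀ t ∈ N.primeFactors.powerset, ∏ p ∈ t, 1 / (p : ℝ) =
      1 / ((∏ p ∈ t, p : ℕ) : ℝ) := by
    intro t _
    rw [Finset.prod_div_distrib, Finset.prod_const_one, Nat.cast_prod]
  rw [Finset.sum_congr rfl e1]
  have hinj : ∀ t ∈ N.primeFactors.powerset, ∀ t' ∈ N.primeFactors.powerset,
      (∏ p ∈ t, p : ℕ) = ∏ p ∈ t', p → t = t' := by
    intro t ht t' ht' he
    rw [← Nat.primeFactors_prod (hprime t ht), ← Nat.primeFactors_prod (hprime t' ht'), he]
  have e2 : ∑ t ∈ N.primeFactors.powerset, 1 / ((∏ p ∈ t, p : ℕ) : ℝ) =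
      ∑ d ∈ N.primeFactors.powerset.image (fun t => ∏ p ∈ t, p), 1 / (d : ℝ) := by
    rw [Finset.sum_image]
    intro t ht t' ht' he
    exact hinj t ht t' ht' he
  rw [e2]
  have hsub : N.primeFactors.powerset.image (fun t => ∏ p ∈ t, p) ⊆ Finset.Icc 1 N := by
    intro d hd
    rw [Finset.mem_image] at hd
    obtain ⟨t, ht, rfl⟩ := hd
    rw [Finset.mem_Icc]
    constructor
    · exact Finset.prod_pos fun p hp => (hprime t ht p hp).pos
    · have h1 : (∏ p ∈ t, p) ∣ ∏ p ∈ N.primeFactors, p :=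
        Finset.prod_dvd_prod_of_subset _ _ _ (Finset.mem_powerset.mp ht)
      exact Nat.le_of_dvd (by omega) (h1.trans (Nat.prod_primeFactors_dvd N))
  have h2 : ∑ d ∈ N.primeFactors.powerset.image (fun t => ∏ p ∈ t, p), 1 / (d : ℝ) ≤
      ∑ d ∈ Finset.Icc 1 N, 1 / (d : ℝ) :=
    Finset.sum_le_sum_of_subset_of_nonneg hsub fun _ _ _ => by positivity
  refine h2.trans ?_
  have h3 := harmonic_le_one_add_log N
  rw [harmonic_eq_sum_Icc] at h3
  push_cast at h3
  simpa [one_div] using h3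

private theorem exq_level {q N : ℕ} [NeZero q] [NeZero N] (hd : q ∣ N)
    (χ : DirichletCharacter ℂ q) (n : χ ≠ 1) :
    ‖DirichletCharacter.LFunction (DirichletCharacter.changeLevel hd χ) 1‖ ≤
      ‖DirichletCharacter.LFunction χ 1‖ * (1 + Real.log N) := by
  rw [DirichletCharacter.LFunction_changeLevel hd _ (Or.inl n), norm_mul]
  apply mul_le_mul_of_nonneg_left _ (norm_nonneg _)
  refine le_trans ?_ (exq_prod N (Nat.one_le_iff_ne_zero.mpr (NeZero.ne N)))
  rw [norm_prod]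
  apply Finset.prod_le_prod
  · intro p _
    exact norm_nonneg _
  · intro p hp
    have hpp := Nat.prime_of_mem_primeFactors hp
    refine (norm_sub_le _ _).trans ?_
    rw [norm_one, norm_mul, Complex.norm_natCast_cpow_of_pos hpp.pos]
    have h2 : ((-(1 : ℂ))).re = -1 := by simp
    rw [h2, Real.rpow_neg_one, one_div]
    have h4 : ‖χ (p : ZMod q)‖ ≤ 1 := χ.norm_le_one _
    have h5 : 0 ≤ ((p : ℝ))⁻¹ := by positivity
    have h6 := mul_le_mul_of_nonneg_right h4 h5
    linarith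

private theorem exq_tot {m : ℕ} [NeZero m] {q : ℕ} (ψ : DirichletCharacter ℂ q) :
    (m.totient : ℝ) / m ≤ ‖∏ p ∈ m.primeFactors, (1 - ψ p * (p : ℂ) ^ (-(1 : ℂ)))‖ := by
  have hm0 : (m : ℝ) ≠ 0 := by exact_mod_cast NeZero.ne m
  have h1 : ((m.totient : ℚ) : ℝ) = ((m * ∏ p ∈ m.primeFactors, (1 - (p : ℚ)⁻¹) : ℚ) : ℝ) := by
    rw [Nat.totient_eq_mul_prod_factors]
  push_cast at h1
  rw [h1, mul_div_assoc, mul_comm, div_mul_cancel₀ _ hm0, norm_prod]
  refine Finset.prod_le_prod (fun p hp => ?_) fun p hp => ?_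
  · have hp1 : (1 : ℝ) ≤ p := by exact_mod_cast (Nat.prime_of_mem_primeFactors hp).one_le
    have := inv_le_one_of_one_le₀ hp1
    linarith
  · have h2 : ‖ψ p * (p : ℂ) ^ (-(1 : ℂ))‖ ≤ (p : ℝ)⁻¹ := by
      rw [Complex.cpow_neg, Complex.cpow_one, norm_mul, norm_inv, Complex.norm_natCast]
      have h3 := DirichletCharacter.norm_le_one ψ (p : ZMod q)
      have h4 : (0 : ℝ) ≤ (p : ℝ)⁻¹ := by positivity
      exact mul_le_of_le_one_left h4 h3
    have h5 := norm_sub_norm_le (1 : ℂ) (ψ p * (p : ℂ) ^ (-(1 : ℂ)))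
    rw [norm_one] at h5
    linarith

private theorem exq_omega (m y : ℕ) (h1 : 1 ≤ y) (h2 : y ≤ m) :
    (y.primeFactors.card : ℝ) ≤ 2 * Real.log m := by
  have h3 : 2 ^ y.primeFactors.card ≤ m := by
    calc 2 ^ y.primeFactors.card = ∏ _p ∈ y.primeFactors, 2 := by rw [prod_const]
      _ ≤ ∏ p ∈ y.primeFactors, p :=
          prod_le_prod' fun p hp => (Nat.prime_of_mem_primeFactors hp).two_le
      _ ≤ y := Nat.le_of_dvd h1 (Nat.prod_primeFactors_dvd y)
      _ ≤ m := h2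
  have h4 : Real.log ((2 : ℝ) ^ y.primeFactors.card) ≤ Real.log m :=
    Real.log_le_log (by positivity) (by exact_mod_cast h3)
  rw [Real.log_pow] at h4
  have h5 : (1 : ℝ) / 2 ≤ Real.log 2 := by
    have := Real.log_two_gt_d9
    linarith
  have h6 := mul_le_mul_of_nonneg_left h5 (Nat.cast_nonneg (α := ℝ) y.primeFactors.card)
  linarith

private theorem exq_hprod (S : Finset ℕ) : (∀ p ∈ S, 2 ≤ p) →
    ∏ p ∈ S, p ≤ (S.card + 1) * ∏ p ∈ S, (p - 1) := by
  induction S using Finset.induction_on_max with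
  | empty => intro _; simp
  | insert M S hM ih =>
    intro h
    have hS : ∀ p ∈ S, 2 ≤ p := fun p hp => h p (mem_insert_of_mem hp)
    have hM2 : 2 ≤ M := h M (mem_insert_self _ _)
    have hnot : M ∉ S := fun h1 => (hM M h1).false
    have hcard : S.card + 2 ≤ M := by
      have h1 : S ⊆ Ico 2 M := fun p hp => mem_Ico.mpr ⟨hS p hp, hM p hp⟩
      have h2 := card_le_card h1
      rw [Nat.card_Ico] at h2
      omega
    rw [prod_insert hnot, prod_insert hnot, card_insert_of_notMem hnot]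
    obtain ⟨N, rfl⟩ : ∃ N, M = N + 1 := ⟨M - 1, by omega⟩
    have h3 := ih hS
    have h4 : (N + 1) * (S.card + 1) ≤ (S.card + 1 + 1) * N := by nlinarith
    calc (N + 1) * ∏ p ∈ S, p ≤ (N + 1) * ((S.card + 1) * ∏ p ∈ S, (p - 1)) :=
          Nat.mul_le_mul_left _ h3
      _ = ((N + 1) * (S.card + 1)) * ∏ p ∈ S, (p - 1) := by ring
      _ ≤ ((S.card + 1 + 1) * N) * ∏ p ∈ S, (p - 1) := Nat.mul_le_mul_right _ h4
      _ = (S.card + 1 + 1) * ((N + 1 - 1) * ∏ p ∈ S, (p - 1)) := by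
          rw [Nat.add_sub_cancel]; ring

private theorem exq_totlog (m : ℕ) (hm : 1 ≤ m) : (m : ℝ) ≤ (2 + 2 * Real.log m) * m.totient := by
  have h1 := exq_hprod m.primeFactors fun p hp => (Nat.prime_of_mem_primeFactors hp).two_le
  have h2 := Nat.totient_mul_prod_primeFactors m
  have h3 : 0 < ∏ p ∈ m.primeFactors, (p - 1) :=
    prod_pos fun p hp => Nat.sub_pos_of_lt (Nat.prime_of_mem_primeFactors hp).one_lt
  have h4 : m ≤ (m.primeFactors.card + 1) * m.totient := by
    refine Nat.le_of_mul_le_mul_right ?_ h3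
    rw [← h2]
    calc m.totient * ∏ p ∈ m.primeFactors, p
        ≤ m.totient * ((m.primeFactors.card + 1) * ∏ p ∈ m.primeFactors, (p - 1)) :=
          Nat.mul_le_mul_left _ h1
      _ = (m.primeFactors.card + 1) * m.totient * ∏ p ∈ m.primeFactors, (p - 1) := by ring
  have h5 := exq_omega m m hm le_rfl
  have h6 : (m : ℝ) ≤ ((m.primeFactors.card : ℝ) + 1) * m.totient := by exact_mod_cast h4
  refine h6.trans (mul_le_mul_of_nonneg_right ?_ (Nat.cast_nonneg _))
  linarith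

/-- primitive characters which induce the same character have the same level -/
private theorem exq_eq {q1 q : ℕ} [NeZero q1] [NeZero q] (χ1 : DirichletCharacter ℂ q1)
    (χ : DirichletCharacter ℂ q) (hp1 : χ1.IsPrimitive) (hp : χ.IsPrimitive)
    (h4 : DirichletCharacter.changeLevel (Nat.dvd_mul_right q1 q) χ1 =
      DirichletCharacter.changeLevel (Nat.dvd_mul_left q q1) χ) : q = q1 := by
  have : NeZero (q1 * q) := ⟨Nat.mul_ne_zero (NeZero.ne q1) (NeZero.ne q)⟩
  have e1 := DirichletCharacter.conductor_changeLevel χ1 (Nat.dvd_mul_right q1 q)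
  have e2 := DirichletCharacter.conductor_changeLevel χ (Nat.dvd_mul_left q q1)
  rw [h4, e2] at e1
  rw [DirichletCharacter.isPrimitive_def] at hp1 hp
  rw [hp1, hp] at e1
  exact e1

/-- the value at `-1` -/
private theorem exq_neg {m N : ℕ} (hd : m ∣ N) (χ : DirichletCharacter ℂ m) :
    DirichletCharacter.changeLevel hd χ (-1) = χ (-1) := by
  have h := DirichletCharacter.changeLevel_eq_cast_of_dvd' χ hd
    (a := -1) (isCoprime_one_left.neg_left)
  simpa using h

/-- the primitive character -/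
private theorem exq_prim {N : ℕ} [NeZero N] (χ : DirichletCharacter ℂ N) (h2 : χ ^ 2 = 1) (h1 : χ ≠ 1) :
    ∃ (f : ℕ) (_ : NeZero f) (ψ : DirichletCharacter ℂ f), f ∣ N ∧ ψ.IsPrimitive ∧ ψ ^ 2 = 1 ∧ ψ ≠ 1 ∧
      ψ (-1) = χ (-1) ∧
      ‖DirichletCharacter.LFunction ψ 1‖ * ((N.totient : ℝ) / N) ≤ ‖DirichletCharacter.LFunction χ 1‖ := by
  have hcond : NeZero χ.conductor := ⟨by
    intro h
    have h1 := χ.conductor_dvd_level
    rw [h] at h1
    exact NeZero.ne N (Nat.eq_zero_of_zero_dvd h1)⟩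
  obtain ⟨ψ, hψ⟩ : ∃ ψ, ψ = χ.primitiveCharacter := ⟨_, rfl⟩
  have hch : DirichletCharacter.changeLevel χ.conductor_dvd_level ψ = χ := by
    rw [hψ]
    exact χ.changeLevel_primitiveCharacter
  have hψp : ψ.IsPrimitive := by
    rw [hψ]
    exact χ.primitiveCharacter_isPrimitive
  have hψ2 : ψ ^ 2 = 1 := by
    apply DirichletCharacter.changeLevel_injective χ.conductor_dvd_level
    rw [map_pow, hch, h2, map_one]
  have hψ1 : ψ ≠ 1 := by
    intro h
    apply h1
    rw [← hch, h, map_one]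
  have h3 := DirichletCharacter.LFunction_changeLevel χ.conductor_dvd_level ψ (s := 1) (Or.inl hψ1)
  rw [hch] at h3
  refine ⟨χ.conductor, hcond, ψ, χ.conductor_dvd_level, hψp, hψ2, hψ1, ?_, ?_⟩
  · rw [← exq_neg χ.conductor_dvd_level ψ, hch]
  · rw [h3, norm_mul]
    exact mul_le_mul_of_nonneg_left (exq_tot (m := N) ψ) (norm_nonneg _)

/-- two different primitive real characters -/
private theorem exq_two (c0 : ℝ) (_hc0 : 0 < c0)
    (hp : ∀ (N : ℕ) [NeZero N] (χ1 χ2 : DirichletCharacter ℂ N),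
      χ1 ^ 2 = 1 → χ2 ^ 2 = 1 → χ1 ≠ 1 → χ2 ≠ 1 → χ1 ≠ χ2 →
      c0 / Real.log (2 * N) ^ 3 ≤
        max ‖DirichletCharacter.LFunction χ1 1‖ ‖DirichletCharacter.LFunction χ2 1‖)
    {X f g : ℕ} [NeZero f] [NeZero g] (hX : 3 ≤ X) (hf : f ≤ X) (hg : g ≤ X)
    (χ : DirichletCharacter ℂ f) (ψ : DirichletCharacter ℂ g) (hfg : f = g → χ (-1) ≠ ψ (-1)) (a1 : χ.IsPrimitive) (a2 : χ ^ 2 = 1)
    (a3 : χ ≠ 1) (b1 : ψ.IsPrimitive) (b2 : ψ ^ 2 = 1) (b3 : ψ ≠ 1)
    (hs : ‖DirichletCharacter.LFunction χ 1‖ < c0 / 81 / Real.log X ^ 4) :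
    c0 / 81 / Real.log X ^ 4 ≤ ‖DirichletCharacter.LFunction ψ 1‖ := by
  have hM : NeZero (f * g) := ⟨Nat.mul_ne_zero (NeZero.ne f) (NeZero.ne g)⟩
  have hd1 : f ∣ f * g := Nat.dvd_mul_right f g
  have hd2 : g ∣ f * g := Nat.dvd_mul_left g f
  have hXr : (3 : ℝ) ≤ X := by exact_mod_cast hX
  have hX0 : (0 : ℝ) < X := by linarith
  have hL1 : 1 ≤ Real.log X := by
    have h1 : Real.log 3 ≤ Real.log X := Real.log_le_log (by norm_num) hXr
    have h2 : Real.exp 1 ≤ 3 := by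
      have := Real.exp_one_lt_d9
      linarith
    have h3 : 1 ≤ Real.log 3 := (Real.le_log_iff_exp_le (by norm_num)).mpr h2
    linarith
  obtain ⟨L, hL⟩ : ∃ L, L = Real.log X := ⟨_, rfl⟩
  rw [← hL] at hL1 hs ⊢
  have hL0 : 0 < L := by linarith
  have hfg0 : (0 : ℝ) < (f * g : ℕ) := by
    have := NeZero.pos (f * g)
    exact_mod_cast this
  have hfgX : ((f * g : ℕ) : ℝ) ≤ X ^ 2 := by
    have : f * g ≤ X ^ 2 := by
      rw [pow_two]
      exact Nat.mul_le_mul hf hg
    exact_mod_cast this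
  have hlogM : Real.log ((f * g : ℕ) : ℝ) ≤ 2 * L := by
    have h1 := Real.log_le_log hfg0 hfgX
    rw [Real.log_pow, ← hL] at h1
    exact_mod_cast h1
  have hlog2M : Real.log (2 * ((f * g : ℕ) : ℝ)) ≤ 3 * L := by
    have h1 : 2 * ((f * g : ℕ) : ℝ) ≤ X ^ 3 := by
      calc 2 * ((f * g : ℕ) : ℝ) ≤ 2 * X ^ 2 := mul_le_mul_of_nonneg_left hfgX (by norm_num)
        _ ≤ X * X ^ 2 := mul_le_mul_of_nonneg_right (by linarith) (by positivity)
        _ = X ^ 3 := by ring
    have h2 := Real.log_le_log (by positivity) h1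
    rw [Real.log_pow, ← hL] at h2
    exact_mod_cast h2
  have hlog2M0 : 0 < Real.log (2 * ((f * g : ℕ) : ℝ)) := by
    apply Real.log_pos
    have h1 : 1 ≤ f * g := NeZero.pos (f * g)
    have : (1 : ℝ) ≤ (f * g : ℕ) := by exact_mod_cast h1
    linarith
  obtain ⟨u, hu⟩ : ∃ u, u = DirichletCharacter.changeLevel hd1 χ := ⟨_, rfl⟩
  obtain ⟨v, hv⟩ : ∃ v, v = DirichletCharacter.changeLevel hd2 ψ := ⟨_, rfl⟩
  have hu2 : u ^ 2 = 1 := by rw [hu, ← map_pow, a2, map_one]
  have hv2 : v ^ 2 = 1 := by rw [hv, ← map_pow, b2, map_one]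
  have hu1 : u ≠ 1 := fun h => a3 ((DirichletCharacter.changeLevel_eq_one_iff hd1).mp (hu ▸ h))
  have hv1 : v ≠ 1 := fun h => b3 ((DirichletCharacter.changeLevel_eq_one_iff hd2).mp (hv ▸ h))
  have huv : u ≠ v := fun h => by
    refine hfg (exq_eq χ ψ a1 b1 (by rw [← hu, ← hv]; exact h)).symm ?_
    rw [← exq_neg hd1 χ, ← exq_neg hd2 ψ, ← hu, ← hv, h]
  have h1 := hp (f * g) u v hu2 hv2 hu1 hv1 huv
  have h2 : c0 / (27 * L ^ 3) ≤ c0 / Real.log (2 * ((f * g : ℕ) : ℝ)) ^ 3 := by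
    refine div_le_div_of_nonneg_left _hc0.le (by positivity) ?_
    calc Real.log (2 * ((f * g : ℕ) : ℝ)) ^ 3 ≤ (3 * L) ^ 3 := pow_le_pow_left₀ hlog2M0.le hlog2M 3
      _ = 27 * L ^ 3 := by ring
  have h3 : ‖DirichletCharacter.LFunction u 1‖ ≤ ‖DirichletCharacter.LFunction χ 1‖ * (3 * L) := by
    rw [hu]
    refine (exq_level hd1 χ a3).trans (mul_le_mul_of_nonneg_left ?_ (norm_nonneg _))
    linarith
  have h4 : ‖DirichletCharacter.LFunction v 1‖ ≤ ‖DirichletCharacter.LFunction ψ 1‖ * (3 * L) := by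
    rw [hv]
    refine (exq_level hd2 ψ b3).trans (mul_le_mul_of_nonneg_left ?_ (norm_nonneg _))
    linarith
  have h5 : c0 / (27 * L ^ 3) = c0 / 81 / L ^ 4 * (3 * L) := by
    field_simp
    norm_num
  have h6 : ‖DirichletCharacter.LFunction χ 1‖ * (3 * L) < c0 / 81 / L ^ 4 * (3 * L) :=
    mul_lt_mul_of_pos_right hs (by positivity)
  rcases max_choice ‖DirichletCharacter.LFunction u 1‖ ‖DirichletCharacter.LFunction v 1‖ with h | h
  · rw [h] at h1
    exact absurd (h5 ▸ (h2.trans h1)) (not_le.mpr (h3.trans_lt h6))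
  · rw [h] at h1
    have h7 : c0 / 81 / L ^ 4 * (3 * L) ≤ ‖DirichletCharacter.LFunction ψ 1‖ * (3 * L) :=
      (h5 ▸ (h2.trans h1)).trans h4
    exact le_of_mul_le_mul_right h7 (by positivity)

/-- the value at `-1` of a real character -/
private theorem exq_val {N : ℕ} [NeZero N] (χ : DirichletCharacter ℂ N) (h2 : χ ^ 2 = 1) :
    ∃ e : ℤ, (e = 1 ∨ e = -1) ∧ χ (-1) = (e : ℂ) := by
  have h3 : χ (-1) ^ 2 = 1 := by
    rw [← map_pow]
    norm_num
  have h4 : (χ (-1) - 1) * (χ (-1) + 1) = 0 := by linear_combination h3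
  rcases mul_eq_zero.mp h4 with h5 | h5
  · exact ⟨1, Or.inl rfl, by rw [sub_eq_zero.mp h5]; norm_num⟩
  · exact ⟨-1, Or.inr rfl, by rw [eq_neg_of_add_eq_zero_left h5]; norm_num⟩

theorem exc_par : ∃ c : ℝ, 0 < c ∧ ∃ (q : ℕ → ℕ) (σ : ℕ → ℤ), (∀ X, σ X = 1 ∨ σ X = -1) ∧
    (∀ X M : ℕ, 3 ≤ X → M ≤ X → ∀ [NeZero M], ∀ χ : DirichletCharacter ℂ M,
      χ ^ 2 = 1 → χ ≠ 1 → (q X ∣ M → χ (-1) ≠ (σ X : ℂ)) →
        c / Real.log X ^ 5 ≤ ‖DirichletCharacter.LFunction χ 1‖) ∧
    ∀ A : ℕ, ∃ c' : ℝ, 0 < c' ∧ ∀ X : ℕ, 3 ≤ X → c' * Real.log X ^ A ≤ q X := by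
  classical
  obtain ⟨c0, hc0, hp⟩ := page
  obtain ⟨E, hE⟩ : ∃ E : ℕ → ℕ → ℤ → Prop, E = fun (X f : ℕ) (e : ℤ) => f ≤ X ∧ (e = 1 ∨ e = -1) ∧
    ∃ (_ : NeZero f) (χ : DirichletCharacter ℂ f), χ.IsPrimitive ∧ χ ^ 2 = 1 ∧ χ ≠ 1 ∧ χ (-1) = (e : ℂ) ∧
      ‖DirichletCharacter.LFunction χ 1‖ < c0 / 81 / Real.log X ^ 4 := ⟨_, rfl⟩
  have hEi : ∀ X f e, E X f e ↔ (f ≤ X ∧ (e = 1 ∨ e = -1) ∧
    ∃ (_ : NeZero f) (χ : DirichletCharacter ℂ f), χ.IsPrimitive ∧ χ ^ 2 = 1 ∧ χ ≠ 1 ∧ χ (-1) = (e : ℂ) ∧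
      ‖DirichletCharacter.LFunction χ 1‖ < c0 / 81 / Real.log X ^ 4) := by
    intro X f e
    rw [hE]
  have hex : ∀ X : ℕ, ∃ q : ℕ, ∃ e : ℤ, (E X q e ∨ ((∀ f e, ¬ E X f e) ∧ q = X + 1)) ∧
      (e = 1 ∨ e = -1) := by
    intro X
    by_cases h : ∃ f e, E X f e
    · obtain ⟨f, e, h1⟩ := h
      exact ⟨f, e, Or.inl h1, ((hEi X f e).mp h1).2.1⟩
    · exact ⟨X + 1, 1, Or.inr ⟨fun f e h1 => h ⟨f, e, h1⟩, rfl⟩, Or.inl rfl⟩
  choose q σ hq hσ using hex
  have hlog : ∀ X : ℕ, 3 ≤ X → 1 ≤ Real.log X := by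
    intro X hX
    have hXr : (3 : ℝ) ≤ X := by exact_mod_cast hX
    have h1 : Real.log 3 ≤ Real.log X := Real.log_le_log (by norm_num) hXr
    have h2 : Real.exp 1 ≤ 3 := by
      have := Real.exp_one_lt_d9
      linarith
    have h3 : 1 ≤ Real.log 3 := (Real.le_log_iff_exp_le (by norm_num)).mpr h2
    linarith
  refine ⟨c0 / 81 / 4, by positivity, q, σ, hσ, ?_, ?_⟩
  · intro X N hX hNX _ χ hχ2 hχ1 hqN
    obtain ⟨f, hf, ψ, hfN, b1, b2, b3, b5, b4⟩ := exq_prim χ hχ2 hχ1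
    have hN : 1 ≤ N := NeZero.pos N
    have hL1 := hlog X hX
    have hfX : f ≤ X := (Nat.le_of_dvd (by omega) hfN).trans hNX
    have key : c0 / 81 / Real.log X ^ 4 ≤ ‖DirichletCharacter.LFunction ψ 1‖ := by
      rcases hq X with h | ⟨h, _⟩
      · obtain ⟨h1, _, h2, χ', a1, a2, a3, a5, a4⟩ := (hEi X (q X) (σ X)).mp h
        refine exq_two c0 hc0 hp hX h1 hfX χ' ψ (fun h3 h4 => ?_) a1 a2 a3 b1 b2 b3 a4
        refine hqN (h3 ▸ hfN) ?_
        rw [← b5, ← h4, a5]
      · by_contra hcon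
        push Not at hcon
        obtain ⟨e, he1, he2⟩ := exq_val ψ b2
        exact h f e ((hEi X f e).mpr ⟨hfX, he1, hf, ψ, b1, b2, b3, he2, hcon⟩)
    have hNr : (0 : ℝ) < N := by exact_mod_cast (by omega : 0 < N)
    have htot := exq_totlog N (by omega)
    have hlogN : Real.log N ≤ Real.log X := Real.log_le_log hNr (by exact_mod_cast hNX)
    have hlogN0 : 0 ≤ Real.log N := Real.log_natCast_nonneg N
    have h5 : 1 / (4 * Real.log X) ≤ (N.totient : ℝ) / N := by
      rw [div_le_div_iff₀ (by positivity) hNr, one_mul]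
      refine htot.trans ?_
      rw [mul_comm]
      refine mul_le_mul_of_nonneg_left ?_ (Nat.cast_nonneg _)
      linarith
    refine le_trans ?_ b4
    calc c0 / 81 / 4 / Real.log X ^ 5 = c0 / 81 / Real.log X ^ 4 * (1 / (4 * Real.log X)) := by
          have : Real.log X ≠ 0 := by linarith
          field_simp
      _ ≤ ‖DirichletCharacter.LFunction ψ 1‖ * ((N.totient : ℝ) / N) :=
          mul_le_mul key h5 (by positivity) (norm_nonneg _)
  · intro A
    obtain ⟨c, hc, hs⟩ := Pool.Agent.H91.EHA.siegel (1 / ((A : ℝ) + 1)) (by positivity)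
    refine ⟨min ((c / (c0 / 81)) ^ (A + 1)) (1 / (A.factorial : ℝ)), lt_min (by positivity) (by positivity),
      fun X hX => ?_⟩
    have hL1 := hlog X hX
    have hL0 : 0 < Real.log X := by linarith
    rcases hq X with h | ⟨_, h⟩
    · obtain ⟨h1, _, h2, χ', a1, a2, a3, a5, a4⟩ := (hEi X (q X) (σ X)).mp h
      have h3 := hs (q X) χ' a1 a2 a3
      have hq0 : (0 : ℝ) < q X := by
        have := NeZero.pos (q X)
        exact_mod_cast this
      have h4 := h3.trans_lt a4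
      -- `c q^(-1/(A+1)) < c1/L^4`
      rw [Real.rpow_neg hq0.le] at h4
      have hqe : 0 < (q X : ℝ) ^ (1 / ((A : ℝ) + 1)) := Real.rpow_pos_of_pos hq0 _
      have h5 : c / (c0 / 81) * Real.log X ^ 4 ≤ (q X : ℝ) ^ (1 / ((A : ℝ) + 1)) := by
        rw [← div_eq_mul_inv, div_lt_div_iff₀ hqe (by positivity)] at h4
        rw [div_mul_eq_mul_div, div_le_iff₀ (by positivity)]
        linarith
      have h6 : (c / (c0 / 81) * Real.log X ^ 4) ^ (A + 1) ≤ q X := by
        have h7 := pow_le_pow_left₀ (by positivity) h5 (A + 1)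
        refine h7.trans (le_of_eq ?_)
        rw [← Real.rpow_natCast, ← Real.rpow_mul hq0.le]
        have h8 : 1 / ((A : ℝ) + 1) * ((A + 1 : ℕ) : ℝ) = 1 := by
          push_cast
          field_simp
        rw [h8, Real.rpow_one]
      refine le_trans ?_ h6
      rw [mul_pow]
      refine mul_le_mul (min_le_left _ _) ?_ (by positivity) (by positivity)
      rw [← pow_mul]
      exact pow_le_pow_right₀ hL1 (by omega)
    · rw [h]
      have hXr : (0 : ℝ) < X := by exact_mod_cast (by omega : 0 < X)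
      have h3 := Real.pow_div_factorial_le_exp (Real.log X) hL0.le A
      rw [Real.exp_log hXr] at h3
      push_cast
      calc min ((c / (c0 / 81)) ^ (A + 1)) (1 / (A.factorial : ℝ)) * Real.log X ^ A
          ≤ 1 / (A.factorial : ℝ) * Real.log X ^ A :=
            mul_le_mul_of_nonneg_right (min_le_right _ _) (by positivity)
        _ = Real.log X ^ A / (A.factorial : ℝ) := by ring
        _ ≤ X + 1 := by linarith

end Pool.Agent.H11.LQ

end

section

/-!
# LQ / PG stage 2, OmB: few integers have many prime factors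

`∑_{a ≤ N} (√2)^Ω(a) / a ≤ ∏_{p ≤ N} (1 - √2/p)⁻¹ ≤ ∏_{p ≤ N} (1 - 1/p)⁻² ≤ C (log N)²`, so at most
`C N (log N)² / √K` integers `a ≤ N` have `2^Ω(a) > K`.
-/

set_option autoImplicit false

namespace Pool.Agent.H78.PH

open Finset ArithmeticFunction

/-- the completely multiplicative function `(√2)^Ω(n) / n` -/
private noncomputable def ombF : ℕ →* ℝ where
  toFun n := if n = 0 then 0 else Real.sqrt 2 ^ (cardFactors n) / n
  map_one' := by simp
  map_mul' a b := by
    rcases eq_or_ne a 0 with ha | ha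
    · simp [ha]
    rcases eq_or_ne b 0 with hb | hb
    · simp [hb]
    rw [if_neg ha, if_neg hb, if_neg (mul_ne_zero ha hb), cardFactors_mul ha hb, pow_add]
    push_cast
    have ha' : (a : ℝ) ≠ 0 := by exact_mod_cast ha
    have hb' : (b : ℝ) ≠ 0 := by exact_mod_cast hb
    field_simp

private theorem ombF_apply {n : ℕ} (hn : n ≠ 0) :
    ombF n = Real.sqrt 2 ^ (cardFactors n) / n := by
  show (if n = 0 then (0 : ℝ) else Real.sqrt 2 ^ (cardFactors n) / n) = _
  rw [if_neg hn]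

private theorem omb_sqrt : Real.sqrt 2 < 3 / 2 := by
  rw [Real.sqrt_lt' (by norm_num)]
  norm_num

private theorem ombF_prime {p : ℕ} (hp : p.Prime) : ombF p = Real.sqrt 2 / p := by
  rw [ombF_apply hp.ne_zero, cardFactors_apply_prime hp, pow_one]

private theorem ombF_nonneg (n : ℕ) : 0 ≤ ombF n := by
  rcases eq_or_ne n 0 with h | h
  · show 0 ≤ (if n = 0 then (0 : ℝ) else Real.sqrt 2 ^ (cardFactors n) / n)
    rw [if_pos h]
  · rw [ombF_apply h]
    positivity

private theorem omb_factor {p : ℕ} (hp : p.Prime) :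
    (1 - ombF p)⁻¹ ≤ ((1 - 1 / (p : ℝ))⁻¹) ^ 2 := by
  rw [ombF_prime hp]
  have hp2 : (2 : ℝ) ≤ p := by exact_mod_cast hp.two_le
  have hp0 : (0 : ℝ) < p := by linarith
  have h1 : 1 / (p : ℝ) ≤ 1 / 2 := one_div_le_one_div_of_le (by norm_num) hp2
  have h2 : Real.sqrt 2 * Real.sqrt 2 = 2 := Real.mul_self_sqrt (by norm_num)
  have h3 : Real.sqrt 2 ≤ 1.415 := by
    rw [Real.sqrt_le_left (by norm_num)]
    norm_num
  have hq : (0 : ℝ) < 1 / p := by positivity
  have h4 : (1 - 1 / (p : ℝ)) ^ 2 ≤ 1 - Real.sqrt 2 / p := by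
    have h5 : Real.sqrt 2 / p = Real.sqrt 2 * (1 / p) := by ring
    rw [h5]
    nlinarith
  have h5 : 0 < (1 - 1 / (p : ℝ)) ^ 2 := by
    have : 0 < 1 - 1 / (p : ℝ) := by linarith
    positivity
  rw [inv_pow]
  exact inv_anti₀ h5 h4

private theorem omb_euler (N : ℕ) :
    ∑ a ∈ Icc 1 N, ombF a ≤ ∏ p ∈ (N + 1).primesBelow, (1 - ombF p)⁻¹ := by
  have hlt : ∀ {p : ℕ}, p.Prime → ‖ombF p‖ < 1 := by
    intro p hp
    rw [Real.norm_of_nonneg (ombF_nonneg _), ombF_prime hp]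
    have hp2 : (2 : ℝ) ≤ p := by exact_mod_cast hp.two_le
    rw [div_lt_one (by linarith)]
    linarith [omb_sqrt]
  obtain ⟨-, hs⟩ :=
    EulerProduct.summable_and_hasSum_smoothNumbers_prod_primesBelow_geometric hlt (N + 1)
  have hmem : ∀ d ∈ Icc 1 N, d ∈ (N + 1).smoothNumbers := by
    intro d hd
    rw [mem_Icc] at hd
    rw [Nat.mem_smoothNumbers']
    intro p hp hpd
    have := Nat.le_of_dvd (by omega) hpd
    omega
  have h2 : ∑ d ∈ Icc 1 N, ombF d
      = ∑ x ∈ (Icc 1 N).attach.image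
          (fun d => (⟨d.1, hmem d.1 d.2⟩ : (N + 1).smoothNumbers)), ombF (x : ℕ) := by
    rw [sum_image]
    · rw [← sum_attach]
    · intro a _ b _ hab
      exact Subtype.ext (congrArg (fun z : (N + 1).smoothNumbers => (z : ℕ)) hab)
  rw [h2]
  refine (sum_le_hasSum _ (fun x _ => ?_) hs).trans_eq rfl
  exact ombF_nonneg _

private theorem omb_mertens : ∃ A : ℝ, 0 < A ∧ ∀ N : ℕ, 1 ≤ N →
    ∏ p ∈ (N + 1).primesBelow, (1 - 1 / (p : ℝ))⁻¹ ≤ A * (1 + Real.log N) := by
  obtain ⟨c, hc⟩ := Pool.Agent.H36.IS.mertA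
  have h1 := hc.eventually (gt_mem_nhds (show c < c + 1 by linarith))
  rw [Filter.eventually_atTop] at h1
  obtain ⟨n0, hn0⟩ := h1
  have hprod : ∀ n : ℕ, ∏ p ∈ (n + 1).primesBelow, (1 - 1 / (p : ℝ))⁻¹
      = Real.exp (Pool.Agent.H36.IS.fS n) := by
    intro n
    unfold Pool.Agent.H36.IS.fS
    rw [Real.exp_sum]
    have : (n + 1).primesBelow = (range (n + 1)).filter Nat.Prime := rfl
    rw [this]
    refine Finset.prod_congr rfl (fun p hp => ?_)
    rw [mem_filter] at hp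
    have hp2 : (2 : ℝ) ≤ p := by exact_mod_cast hp.2.two_le
    have h2 : 1 / (p : ℝ) ≤ 1 / 2 := one_div_le_one_div_of_le (by norm_num) hp2
    have h3 : 0 < 1 - 1 / (p : ℝ) := by linarith
    rw [Real.exp_neg, Real.exp_log h3]
  have hmono : ∀ a b : ℕ, a ≤ b → ∏ p ∈ (a + 1).primesBelow, (1 - 1 / (p : ℝ))⁻¹
      ≤ ∏ p ∈ (b + 1).primesBelow, (1 - 1 / (p : ℝ))⁻¹ := by
    intro a b hab
    rw [hprod, hprod]
    apply Real.exp_le_exp.2
    unfold Pool.Agent.H36.IS.fS
    apply Finset.sum_le_sum_of_subset_of_nonneg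
    · intro p hp
      rw [mem_filter, mem_range] at hp ⊢
      exact ⟨by omega, hp.2⟩
    · intro p hp _
      rw [mem_filter] at hp
      have hp2 : (2 : ℝ) ≤ p := by exact_mod_cast hp.2.two_le
      have h2 : 1 / (p : ℝ) ≤ 1 / 2 := one_div_le_one_div_of_le (by norm_num) hp2
      have h4 : 0 < 1 / (p : ℝ) := by positivity
      have := Real.log_nonpos (show (0 : ℝ) ≤ 1 - 1 / p by linarith) (by linarith)
      linarith
  set n1 := max n0 3 with hn1
  set B := ∏ p ∈ (n1 + 1).primesBelow, (1 - 1 / (p : ℝ))⁻¹ with hB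
  have hB0 : 0 < B := by
    rw [hB, hprod]
    exact Real.exp_pos _
  refine ⟨B + Real.exp (c + 1), by positivity, fun N hN => ?_⟩
  have hlog : 0 ≤ Real.log N := Real.log_nonneg (by exact_mod_cast hN)
  rcases Nat.lt_or_ge N n1 with h | h
  · have h2 := hmono N n1 h.le
    have h3 : (0 : ℝ) < Real.exp (c + 1) := Real.exp_pos _
    calc ∏ p ∈ (N + 1).primesBelow, (1 - 1 / (p : ℝ))⁻¹ ≤ B := h2
      _ = B * 1 := by ring
      _ ≤ (B + Real.exp (c + 1)) * (1 + Real.log N) :=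
        mul_le_mul (by linarith) (by linarith) (by norm_num) (by positivity)
  · have h2 := hn0 N ((le_max_left _ _).trans h)
    have hN3 : (3 : ℝ) ≤ N := by exact_mod_cast (le_max_right _ _).trans h
    have hlogpos : 0 < Real.log N := Real.log_pos (by linarith)
    rw [hprod]
    have h3 : Pool.Agent.H36.IS.fS N ≤ (c + 1) + Real.log (Real.log N) := by linarith
    calc Real.exp (Pool.Agent.H36.IS.fS N) ≤ Real.exp ((c + 1) + Real.log (Real.log N)) :=
          Real.exp_le_exp.2 h3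
      _ = Real.exp (c + 1) * Real.log N := by rw [Real.exp_add, Real.exp_log hlogpos]
      _ ≤ (B + Real.exp (c + 1)) * (1 + Real.log N) :=
        mul_le_mul (by linarith) (by linarith) hlogpos.le (by positivity)

/-- at most `A N (1 + log N)² / √K` integers up to `N` have `2^Ω > K` -/
theorem omB : ∃ A : ℝ, 0 < A ∧ ∀ N : ℕ, 1 ≤ N → ∀ K : ℝ, 0 < K →
    (((Icc 1 N).filter (fun a => K < (2 : ℝ) ^ (cardFactors a))).card : ℝ)
      ≤ A * N * (1 + Real.log N) ^ 2 / Real.sqrt K := by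
  classical
  obtain ⟨A, hA, H⟩ := omb_mertens
  refine ⟨A ^ 2, by positivity, fun N hN K hK => ?_⟩
  have hNR : (1 : ℝ) ≤ N := by exact_mod_cast hN
  have hsK : 0 < Real.sqrt K := Real.sqrt_pos.2 hK
  have h1 : ∏ p ∈ (N + 1).primesBelow, (1 - ombF p)⁻¹ ≤ (A * (1 + Real.log N)) ^ 2 := by
    have h2 : ∏ p ∈ (N + 1).primesBelow, (1 - ombF p)⁻¹
        ≤ ∏ p ∈ (N + 1).primesBelow, ((1 - 1 / (p : ℝ))⁻¹) ^ 2 := by
      refine Finset.prod_le_prod (fun p hp => ?_) (fun p hp => ?_)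
      · rw [Nat.mem_primesBelow] at hp
        rw [ombF_prime hp.2, inv_nonneg, sub_nonneg]
        have hp2 : (2 : ℝ) ≤ p := by exact_mod_cast hp.2.two_le
        rw [div_le_one (by linarith)]
        linarith [omb_sqrt]
      · rw [Nat.mem_primesBelow] at hp
        exact omb_factor hp.2
    rw [Finset.prod_pow] at h2
    refine h2.trans ?_
    apply pow_le_pow_left₀ _ (H N hN)
    apply Finset.prod_nonneg
    intro p hp
    rw [Nat.mem_primesBelow] at hp
    have hp2 : (2 : ℝ) ≤ p := by exact_mod_cast hp.2.two_le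
    have h2 : 1 / (p : ℝ) ≤ 1 / 2 := one_div_le_one_div_of_le (by norm_num) hp2
    rw [inv_nonneg]
    linarith
  have h2 := (omb_euler N).trans h1
  have h3 : (((Icc 1 N).filter (fun a => K < (2 : ℝ) ^ (cardFactors a))).card : ℝ)
      * (Real.sqrt K / N) ≤ ∑ a ∈ Icc 1 N, ombF a := by
    calc (((Icc 1 N).filter (fun a => K < (2 : ℝ) ^ (cardFactors a))).card : ℝ)
          * (Real.sqrt K / N)
        = ∑ a ∈ (Icc 1 N).filter (fun a => K < (2 : ℝ) ^ (cardFactors a)),
          (Real.sqrt K / N) := by rw [Finset.sum_const, nsmul_eq_mul]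
      _ ≤ ∑ a ∈ (Icc 1 N).filter (fun a => K < (2 : ℝ) ^ (cardFactors a)), ombF a := by
        refine Finset.sum_le_sum (fun a ha => ?_)
        rw [mem_filter, mem_Icc] at ha
        obtain ⟨⟨ha1, ha2⟩, ha3⟩ := ha
        rw [ombF_apply (by omega)]
        have haR : (1 : ℝ) ≤ a := by exact_mod_cast ha1
        have haN : (a : ℝ) ≤ N := by exact_mod_cast ha2
        have h4 : Real.sqrt 2 ^ (cardFactors a) = Real.sqrt ((2 : ℝ) ^ (cardFactors a)) := by
          rw [Real.sqrt_eq_rpow, Real.sqrt_eq_rpow, ← Real.rpow_natCast, ← Real.rpow_natCast,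
            ← Real.rpow_mul (by norm_num), ← Real.rpow_mul (by norm_num)]
          congr 1
          ring
        rw [h4]
        have h5 : Real.sqrt K ≤ Real.sqrt ((2 : ℝ) ^ (cardFactors a)) := Real.sqrt_le_sqrt ha3.le
        exact div_le_div₀ (Real.sqrt_nonneg _) h5 (by linarith) haN
      _ ≤ ∑ a ∈ Icc 1 N, ombF a :=
        Finset.sum_le_sum_of_subset_of_nonneg (Finset.filter_subset _ _)
          (fun a _ _ => ombF_nonneg a)
  have h4 := h3.trans h2
  rw [le_div_iff₀ hsK]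
  have hN0 : (0 : ℝ) < N := by linarith
  rw [← mul_div_assoc, div_le_iff₀ hN0] at h4
  calc (((Icc 1 N).filter (fun a => K < (2 : ℝ) ^ (cardFactors a))).card : ℝ) * Real.sqrt K
      ≤ (A * (1 + Real.log N)) ^ 2 * N := h4
    _ = A ^ 2 * N * (1 + Real.log N) ^ 2 := by ring

end Pool.Agent.H78.PH

end
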