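import Pool.Agent.H94.PG.H78.PD.T6c
import Pool.Agent.H94.PG.H78.PD.Top_1
import Pool.Agent.H94.PG.M23
import Pool.Agent.H94.PG.M35
import Pool.Agent.H94.PG.M37
import Pool.Agent.H94.PG.M38

/-! The parts of this file: H78.PD.Ana3_1, H11.LQ.Fin8_1, H11.LQ.Fin9_1. -/

section

/-!
# PD, Ana3: the analytic theorem of stage 3

`t8` gives `δ, δ2, ε, k`; `t6_up` gives `δ1`; `top`; `energy_main` with `σ = 1/2000`, `ε = ε0`.
`analytic3_base` is the version without the uniqueness across moduli (no `t6_up`, `t8`).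
-/

set_option autoImplicit false

namespace Pool.Agent.H78.PD

open Finset
open Pool.Agent.H11.LQ Pool.Agent.H78.PG

/-- there is a family of real characters, one for each failing modulus, with small `L(1,χ)`, and
with a common conductor for all moduli of `[X^(1-k), X]` -/
theorem analytic3 : ∃ θ ε1 C k : ℝ, 0 < θ ∧ 0 < ε1 ∧ 0 < C ∧ 0 < k ∧ k ≤ 1 / 100 ∧ ∃ Q0 m0 X0 : ℕ,
    (∀ (m : ℕ) [NeZero m], m0 ≤ m → ∀ Q : ℕ, Q0 ≤ Q → ∀ η : ℤ, Fail θ ε1 m η Q →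
      ∃ χ : DirichletCharacter ℂ m, χ ^ 2 = 1 ∧ χ ≠ 1 ∧ χ (-1) = (η : ℂ) ∧
        ‖DirichletCharacter.LFunction χ 1‖ ≤ C * (m / m.totient) / Real.log m) ∧
    ∀ X : ℕ, X0 ≤ X → ∃ c : ℕ, ∃ e : ℤ, ∀ (m : ℕ) [NeZero m], m0 ≤ m → (X : ℝ) ^ (1 - k) ≤ m → m ≤ X →
      ∀ Q : ℕ, Q0 ≤ Q → ∀ η : ℤ, Fail θ ε1 m η Q →
      η = e ∧ ∃ χ : DirichletCharacter ℂ m, χ ^ 2 = 1 ∧ χ ≠ 1 ∧ χ (-1) = (η : ℂ) ∧
        ‖DirichletCharacter.LFunction χ 1‖ ≤ C * (m / m.totient) / Real.log m ∧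
        χ.conductor = c := by
  obtain ⟨δ, δ2, ε, k, h2, h3, h4, h5, h6, h7, h8, X1, H8⟩ := t8
  obtain ⟨δ1, hδ1, m3, H3⟩ := t6_up δ δ2 ε h2 h3 h4 h5 h6
  obtain ⟨ε0, C, hε0, hC, m1, H1⟩ := top δ δ1 h4 (by linarith) hδ1
  obtain ⟨θ, ε1, hθ, hε1, Q0, m2, H2⟩ := energy_main (1 / 2000) ε0 (by norm_num) (by norm_num) hε0
  have key : ∀ (m : ℕ) [NeZero m], max m3 (max m1 m2) ≤ m → ∀ Q : ℕ, Q0 ≤ Q → ∀ η : ℤ,
      Fail θ ε1 m η Q → ∃ χ : DirichletCharacter ℂ m, χ ^ 2 = 1 ∧ χ ≠ 1 ∧ χ (-1) = (η : ℂ) ∧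
        ‖DirichletCharacter.LFunction χ 1‖ ≤ C * (m / m.totient) / Real.log m ∧
        ∑ q ∈ Bad m χ δ (1 - δ2), 1 / (q : ℝ) ≤ ε := by
    intro m _ hm Q hQ η hF
    obtain ⟨U, hU1, hU2⟩ := H2 m (((le_max_right _ _).trans (le_max_right _ _)).trans hm) Q hQ
      hF.1 η hF.2.1 (fun q hq hqQ =>
      (mul_le_mul_of_nonneg_left (by exact_mod_cast ExU_card_le m η q) (Nat.cast_nonneg _)).trans
        (hF.2.2 q hq hqQ))
    obtain ⟨χ, e1, e2, e3, e4, e5, e6⟩ := H1 m (((le_max_left _ _).trans (le_max_right _ _)).trans hm)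
      η hF.2.1 U hU1 hU2
    exact ⟨χ, e1, e2, e3, e4, H3 m ((le_max_left _ _).trans hm) η hF.2.1 χ e1 e5 e6⟩
  refine ⟨θ, ε1, C, k, hθ, hε1, hC, h7, h8, Q0, max m3 (max m1 m2), X1, ?_, ?_⟩
  · intro m _ hm Q hQ η hF
    obtain ⟨χ, e1, e2, e3, e4, _⟩ := key m hm Q hQ η hF
    exact ⟨χ, e1, e2, e3, e4⟩
  · intro X hX
    by_cases hex : ∃ (m : ℕ) (_ : NeZero m), max m3 (max m1 m2) ≤ m ∧ (X : ℝ) ^ (1 - k) ≤ m ∧ m ≤ X ∧
        ∃ Q : ℕ, Q0 ≤ Q ∧ ∃ η : ℤ, Fail θ ε1 m η Q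
    · obtain ⟨m', _, g1, g2, g3, Q', g4, η', g5⟩ := hex
      obtain ⟨χ', e1', _, e3', _, e5'⟩ := key m' g1 Q' g4 η' g5
      refine ⟨χ'.conductor, η', fun m _ hm hm1 hm2 Q hQ η hF => ?_⟩
      obtain ⟨χ, e1, e2, e3, e4, e5⟩ := key m hm Q hQ η hF
      obtain ⟨f1, f2⟩ := H8 X hX m m' hm1 hm2 g2 g3 χ χ' e1 e1' e5 e5'
      refine ⟨?_, χ, e1, e2, e3, e4, f1⟩
      rw [e3, e3'] at f2
      exact_mod_cast f2
    · refine ⟨0, 0, fun m inst hm hm1 hm2 Q hQ η hF => ?_⟩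
      exact absurd ⟨m, inst, hm, hm1, hm2, Q, hQ, η, hF⟩ hex

end Pool.Agent.H78.PD

end

section

/-!
# LQ stage 3, module Fin8: lower bounds for large `N`

`stage3a`: if `L(1,χ)` is not small for the real characters mod `M` of the relevant parity.
`stage3b`: for `N ≤ X ≤ N ^ (1+κ)` unless `q X ∣ M` and the sign is `σ X`; `q X` grows faster than any power
of `log X` (Siegel).
-/

set_option autoImplicit false

namespace Pool.Agent.H11.LQ

open Finset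
open Pool.Agent.H34PG (lam lam_val lam_mul lam_prime)
open Pool.Agent.H78.PD (Fail analytic3 lift3 tot_logw)

theorem stage3a : ∃ C : ℝ, 1 ≤ C ∧ ∃ k N0 : ℕ, ∀ (N M : ℕ) [NeZero M], N0 ≤ N →
    ∀ s t : ℤ, (s = 1 ∨ s = -1) → (t = 1 ∨ t = -1) → (s = t → N = 2 * M) → (s ≠ t → N = M) →
      (∀ χ : DirichletCharacter ℂ M, χ ^ 2 = 1 → χ ≠ 1 → χ (-1) = ((-(s * t) : ℤ) : ℂ) →
        C * (M / M.totient) / Real.log M ≤ ‖DirichletCharacter.LFunction χ 1‖) →
      (N : ℝ) ≤ C * rt N ^ k * ((pat N s t).card : ℝ) := by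
  obtain ⟨θ, ε1, C1, k1, hθ, hε1, hC1, hk0, hk1, Q0, m0, X0, H1, _⟩ := analytic3
  obtain ⟨C2, hC2, k2, N2, H2⟩ := step7 θ ε1 hθ hε1 Q0 m0
  refine ⟨C2 + 2 * C1 + 1, by linarith only [hC1, hk0, hk1, hC2], k2, N2 + 100, fun N M _ hN s t hs ht hs1 hs2 hr => ?_⟩
  obtain ⟨hMN, hNM, hη⟩ := fin8_mod hs ht hs1 hs2
  have hw := rt_ge (N := N) (by omega)
  rcases H2 N (by omega) M hMN hNM (-(s * t)) hη (pat N s t).card (ex_pat hs ht hs1 hs2) with
    h | ⟨m, _, Q, h1, h2, h3, h4, h5, h6⟩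
  · refine h.trans (mul_le_mul_of_nonneg_right ?_ (Nat.cast_nonneg _))
    exact mul_le_mul_of_nonneg_right (by linarith only [hC1, hk0, hk1]) (by positivity)
  · exfalso
    obtain ⟨χ, e1, e2, e3, e4⟩ := H1 m h2 Q h5 _ h6
    obtain ⟨χ', f1, f2, f3, f4⟩ := lift3 m M h1 χ e1 e2
    have h7 := hr χ' f1 f2 (f3.trans e3)
    have hM0 : 0 < M := by omega
    have hMr : (0 : ℝ) < M := by exact_mod_cast hM0
    have hm0 : 0 < m := Nat.pos_of_dvd_of_pos h1 hM0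
    have hmr : (0 : ℝ) < m := by exact_mod_cast hm0
    have hφM : (0 : ℝ) < M.totient := by exact_mod_cast Nat.totient_pos.mpr hM0
    have hφm : (0 : ℝ) < m.totient := by exact_mod_cast Nat.totient_pos.mpr hm0
    have hlM : 0 < Real.log M := Real.log_pos (by exact_mod_cast (by omega : 1 < M))
    have hlm : Real.log M / 2 ≤ Real.log m := by
      have h8 := Real.log_le_log (by positivity) h3
      rw [Real.log_rpow hMr] at h8
      linarith only [h8]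
    have hlm0 : 0 < Real.log m := by linarith only [hlM, hlm]
    have g1 : (m.totient : ℝ) / m * ‖DirichletCharacter.LFunction χ 1‖ ≤ C1 / Real.log m := by
      calc (m.totient : ℝ) / m * ‖DirichletCharacter.LFunction χ 1‖
          ≤ (m.totient : ℝ) / m * (C1 * (m / m.totient) / Real.log m) :=
            mul_le_mul_of_nonneg_left e4 (by positivity)
        _ = C1 / Real.log m := by field_simp
    have g2 : C1 / Real.log m ≤ 2 * C1 / Real.log M := by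
      rw [div_le_div_iff₀ hlm0 hlM]
      nlinarith only [hC1, hlm]
    have g3 : (M.totient : ℝ) / M * ((C2 + 2 * C1 + 1) * (M / M.totient) / Real.log M)
        ≤ 2 * C1 / Real.log M :=
      (mul_le_mul_of_nonneg_left h7 (by positivity)).trans (f4.trans (g1.trans g2))
    have g4 : (M.totient : ℝ) / M * ((C2 + 2 * C1 + 1) * (M / M.totient) / Real.log M)
        = (C2 + 2 * C1 + 1) / Real.log M := by field_simp
    rw [g4, div_le_div_iff_of_pos_right hlM] at g3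
    linarith only [hk0, hk1, hC2, g3]

theorem stage3b : ∃ C : ℝ, 1 ≤ C ∧ ∃ k N0 : ℕ, ∃ κ : ℝ, 0 < κ ∧ ∃ (q : ℕ → ℕ) (σ : ℕ → ℤ),
    (∀ X, σ X = 1 ∨ σ X = -1) ∧
    (∀ A : ℕ, ∃ c : ℝ, 0 < c ∧ ∀ X : ℕ, 3 ≤ X → c * Real.log X ^ A ≤ q X) ∧
    ∀ X N M : ℕ, N0 ≤ N → N ≤ X → (X : ℝ) ≤ (N : ℝ) ^ (1 + κ) →
    ∀ s t : ℤ, (s = 1 ∨ s = -1) → (t = 1 ∨ t = -1) → (s = t → N = 2 * M) → (s ≠ t → N = M) →
      (q X ∣ M → -(s * t) ≠ σ X) →
      (N : ℝ) ≤ C * rt N ^ k * ((pat N s t).card : ℝ) := by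
  obtain ⟨θ, ε1, C1, k1, hθ, hε1, hC1, hk0, hk1, Q0, m0, X0, _, H1⟩ := analytic3
  obtain ⟨C2, hC2, k2, N2, H2⟩ := step7 θ ε1 hθ hε1 Q0 m0
  obtain ⟨Ct, hCt, Ht⟩ := tot_logw
  obtain ⟨q, σ, hσ, hq1, hq2⟩ := fin8_choice H1
  obtain ⟨κ, hκ⟩ : ∃ κ : ℝ, κ = k1 / 2 := ⟨_, rfl⟩
  have hκ0 : 0 < κ := by rw [hκ]; linarith only [hk0]
  have hκ1 : κ ≤ 1 / 200 := by rw [hκ]; linarith only [hk1]
  obtain ⟨N3, H3⟩ := Pool.Agent.H78.PG.grow (C2 * 2 ^ k2) k2 κ hκ0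
  refine ⟨C2, hC2, k2, N2 + N3 + X0 + 100, κ, hκ0, q, σ, hσ, fun A => ?_,
    fun X N M hN hNX hXN s t hs ht hs1 hs2 hqM => ?_⟩
  · -- the growth of `q`
    obtain ⟨c, hc, hg⟩ := fin8_grow (C1 * Ct ^ 2 * 384 * 2) (by positivity) A
    refine ⟨min c (1 / (A.factorial : ℝ)), lt_min hc (by positivity), fun X hX => ?_⟩
    have hXr : (0 : ℝ) < X := by exact_mod_cast (by omega : 0 < X)
    have hL1 : 1 ≤ Real.log X := by
      rw [Real.le_log_iff_exp_le hXr]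
      have h3 : (3 : ℝ) ≤ X := by exact_mod_cast hX
      have := Real.exp_one_lt_d9
      linarith only [hk1, hκ, hκ0, h3, this]
    have hL0 : 0 < Real.log X := by linarith only [hL1]
    rcases hq1 X with h | ⟨m, _, h1, h2, χ, e1, e2, e3, e4⟩
    · rw [h]
      have h3 := Real.pow_div_factorial_le_exp (Real.log X) hL0.le A
      rw [Real.exp_log hXr] at h3
      push_cast
      calc min c (1 / (A.factorial : ℝ)) * Real.log X ^ A
          ≤ 1 / (A.factorial : ℝ) * Real.log X ^ A :=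
            mul_le_mul_of_nonneg_right (min_le_right _ _) (by positivity)
        _ = Real.log X ^ A / (A.factorial : ℝ) := by ring
        _ ≤ X + 1 := by linarith only [h3]
    · obtain ⟨_, ψ, b1, b2, b3, b4⟩ := fin8_prim χ e1 e2
      have hm0 : 0 < m := NeZero.pos m
      have hmr : (0 : ℝ) < m := by exact_mod_cast hm0
      have hφ : (0 : ℝ) < m.totient := by exact_mod_cast Nat.totient_pos.mpr hm0
      have hlm : Real.log X / 2 ≤ Real.log m := by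
        have h8 := Real.log_le_log (by positivity) h1
        rw [Real.log_rpow hXr] at h8
        have h9 : (1 / 2) * Real.log X ≤ (1 - k1) * Real.log X :=
          mul_le_mul_of_nonneg_right (by linarith only [hk1]) hL0.le
        linarith only [h8, h9]
      have hlm2 : 1 / 2 ≤ Real.log m := by linarith only [hL1, hlm]
      have hlm0 : 0 < Real.log m := by linarith only [hL1, hlm]
      have h3 := Ht m hm0
      have h4 : (m : ℝ) / m.totient ≤ Ct * lw m := by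
        rw [div_le_iff₀ hφ]
        exact h3
      have h5 : ‖DirichletCharacter.LFunction ψ 1‖ ≤ C1 * (Ct * lw m) ^ 2 / Real.log m := by
        have h6 : ‖DirichletCharacter.LFunction ψ 1‖ * ((m.totient : ℝ) / m)
            ≤ C1 * (m / m.totient) / Real.log m := b4.trans e3
        have h7 : ‖DirichletCharacter.LFunction ψ 1‖ ≤ C1 * (m / m.totient) ^ 2 / Real.log m := by
          have h8 : ‖DirichletCharacter.LFunction ψ 1‖
              = ‖DirichletCharacter.LFunction ψ 1‖ * ((m.totient : ℝ) / m) * (m / m.totient) := by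
            field_simp
          rw [h8]
          calc _ ≤ C1 * (m / m.totient) / Real.log m * (m / m.totient) :=
                mul_le_mul_of_nonneg_right h6 (by positivity)
            _ = _ := by ring
        refine h7.trans (div_le_div_of_nonneg_right ?_ hlm0.le)
        exact mul_le_mul_of_nonneg_left (pow_le_pow_left₀ (by positivity) h4 2) hC1.le
      have h6 := fin8_lw hm0.ne' hlm2
      have h7 : C1 * (Ct * lw m) ^ 2 / Real.log m
          ≤ C1 * Ct ^ 2 * 384 * Real.log m ^ (-(3 / 4) : ℝ) := by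
        have h8 : Real.log m ^ (-(3 / 4) : ℝ) = Real.log m ^ (1 / 4 : ℝ) / Real.log m := by
          rw [← Real.rpow_sub_one hlm0.ne']
          norm_num
        rw [h8, mul_pow]
        calc C1 * (Ct ^ 2 * lw m ^ 2) / Real.log m
            ≤ C1 * (Ct ^ 2 * (384 * Real.log m ^ (1 / 4 : ℝ))) / Real.log m := by
              refine div_le_div_of_nonneg_right ?_ hlm0.le
              refine mul_le_mul_of_nonneg_left ?_ hC1.le
              exact mul_le_mul_of_nonneg_left h6 (by positivity)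
          _ = _ := by ring
      have h8 : Real.log m ^ (-(3 / 4) : ℝ) ≤ 2 * Real.log X ^ (-(1 / 2) : ℝ) := by
        calc Real.log m ^ (-(3 / 4) : ℝ) ≤ (Real.log X / 2) ^ (-(3 / 4) : ℝ) :=
              Real.rpow_le_rpow_of_nonpos (by positivity) hlm (by norm_num)
          _ = 2 ^ (3 / 4 : ℝ) * Real.log X ^ (-(3 / 4) : ℝ) := by
              rw [Real.div_rpow hL0.le (by norm_num), Real.rpow_neg (by norm_num : (0 : ℝ) ≤ 2),
                div_inv_eq_mul, mul_comm]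
          _ ≤ 2 * Real.log X ^ (-(1 / 2) : ℝ) := by
              refine mul_le_mul ?_ ?_ (by positivity) (by norm_num)
              · calc (2 : ℝ) ^ (3 / 4 : ℝ) ≤ 2 ^ (1 : ℝ) :=
                      Real.rpow_le_rpow_of_exponent_le (by norm_num) (by norm_num)
                  _ = 2 := Real.rpow_one _
              · exact Real.rpow_le_rpow_of_exponent_le hL1 (by norm_num)
      have h9 : ‖DirichletCharacter.LFunction ψ 1‖
          ≤ C1 * Ct ^ 2 * 384 * 2 * Real.log X ^ (-(1 / 2) : ℝ) := by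
        refine (h5.trans h7).trans ?_
        calc C1 * Ct ^ 2 * 384 * Real.log m ^ (-(3 / 4) : ℝ)
            ≤ C1 * Ct ^ 2 * 384 * (2 * Real.log X ^ (-(1 / 2) : ℝ)) :=
              mul_le_mul_of_nonneg_left h8 (by positivity)
          _ = _ := by ring
      have h10 := hg X χ.conductor ψ hL1 b1 b2 b3 h9
      rw [← e4]
      exact (mul_le_mul_of_nonneg_right (min_le_left _ _) (by positivity)).trans h10
  · -- the main part
    obtain ⟨hMN, hNM, hη⟩ := fin8_mod hs ht hs1 hs2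
    rcases H2 N (by omega) M hMN hNM (-(s * t)) hη (pat N s t).card (ex_pat hs ht hs1 hs2) with
      h | ⟨m, _, Q, h1, h2, h3, h4, h5, h6⟩
    · exact h
    · exfalso
      have hN0 : (0 : ℝ) < N := by exact_mod_cast (by omega : 0 < N)
      have hN1 : (1 : ℝ) ≤ N := by exact_mod_cast (by omega : 1 ≤ N)
      have hX1 : (1 : ℝ) ≤ X := by exact_mod_cast (by omega : 1 ≤ X)
      have hmM : m ≤ M := Nat.le_of_dvd (by omega) h1
      have hMle : M ≤ N := Nat.le_of_dvd (by omega) hMN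
      have g1 : C2 * rt N ^ k2 ≤ (N : ℝ) ^ κ := by
        refine le_trans ?_ (H3 N (by omega))
        have g2 := rt_le (N := N) (by omega)
        have g3 := rt_ge (N := N) (by omega)
        calc C2 * rt N ^ k2 ≤ C2 * (2 * (1 + Real.log N)) ^ k2 := by
              refine mul_le_mul_of_nonneg_left (pow_le_pow_left₀ (by linarith only [hk1, hκ, hκ0, g3]) ?_ _) (by linarith only [hk1, hC2, hκ, hκ0])
              linarith only [g2]
          _ = _ := by rw [mul_pow]; ring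
      have g2 : (N : ℝ) ^ (1 - κ) ≤ m := by
        have g3 : (N : ℝ) ≤ (N : ℝ) ^ κ * m :=
          h4.trans (mul_le_mul_of_nonneg_right g1 (Nat.cast_nonneg _))
        rw [Real.rpow_sub hN0, Real.rpow_one, div_le_iff₀ (by positivity)]
        linarith only [g3]
      have g3 : (X : ℝ) ^ (1 - k1) ≤ m := by
        refine le_trans ?_ g2
        calc (X : ℝ) ^ (1 - k1) ≤ ((N : ℝ) ^ (1 + κ)) ^ (1 - k1) :=
              Real.rpow_le_rpow (by linarith only [hk1, hκ, hκ0, hX1]) hXN (by linarith only [hk1, hκ, hκ0])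
          _ = (N : ℝ) ^ ((1 + κ) * (1 - k1)) := by rw [← Real.rpow_mul hN0.le]
          _ ≤ (N : ℝ) ^ (1 - κ) := by
              refine Real.rpow_le_rpow_of_exponent_le hN1 ?_
              have : k1 = 2 * κ := by rw [hκ]; ring
              rw [this]
              nlinarith only [hk0, hκ, hκ0, hk1]
      obtain ⟨f1, f2⟩ := hq2 X (by omega) m h2 g3 (by omega) Q h5 _ h6
      exact hqM (f2.trans h1) f1

end Pool.Agent.H11.LQ

end

section

/-!
# LQ stage 3, module Fin9: large `N`, fine summands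

`stage3a`, `stage3b` of Fin8 with the restriction to the `a` which are fine.
-/

set_option autoImplicit false

namespace Pool.Agent.H11.LQ

open Finset ArithmeticFunction
open Pool.Agent.H34PG (lam lam_val lam_mul lam_prime)

theorem stage4a (hO : OmB) : ∃ C : ℝ, 1 ≤ C ∧ ∃ k N0 : ℕ, ∀ (N M : ℕ) [NeZero M], N0 ≤ N →
    ∀ s t : ℤ, (s = 1 ∨ s = -1) → (t = 1 ∨ t = -1) → (s = t → N = 2 * M) → (s ≠ t → N = M) →
      (∀ χ : DirichletCharacter ℂ M, χ ^ 2 = 1 → χ ≠ 1 → χ (-1) = ((-(s * t) : ℤ) : ℂ) →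
        C * (M / M.totient) / Real.log M ≤ ‖DirichletCharacter.LFunction χ 1‖) →
      ∀ J K : ℝ, C * rt N ^ k ≤ J → C * Real.log N ^ k ≤ K →
        ∃ T ⊆ pat N s t, (N : ℝ) ≤ J * (T.card : ℝ) ∧
          ∀ a ∈ T, Fine N K a ∧ ∀ v : ℕ, (v ^ 2 ∣ a ∨ v ^ 2 ∣ N - a) → (v : ℝ) ≤ J := by
  obtain ⟨C0, hC0, k0, N0, h0⟩ := stage3a
  obtain ⟨C, hC, k, hk, h1⟩ := fine_of_pat hO C0 hC0 k0
  refine ⟨C, by linarith, k, N0 + 4, fun N M _ hN s t hs ht hs1 hs2 hr J K hJ hK => ?_⟩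
  refine h1 N (by omega) s t (h0 N M (by omega) s t hs ht hs1 hs2 fun χ e1 e2 e3 => ?_) J K hJ hK
  refine le_trans ?_ (hr χ e1 e2 e3)
  have hl : 0 ≤ Real.log M := Real.log_natCast_nonneg M
  refine div_le_div_of_nonneg_right ?_ hl
  exact mul_le_mul_of_nonneg_right hC (by positivity)

theorem stage4b (hO : OmB) : ∃ C : ℝ, 1 ≤ C ∧ ∃ k N0 : ℕ, ∃ κ : ℝ, 0 < κ ∧
    ∃ (q : ℕ → ℕ) (σ : ℕ → ℤ), (∀ X, σ X = 1 ∨ σ X = -1) ∧
    (∀ A : ℕ, ∃ c : ℝ, 0 < c ∧ ∀ X : ℕ, 3 ≤ X → c * Real.log X ^ A ≤ q X) ∧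
    ∀ X N M : ℕ, N0 ≤ N → N ≤ X → (X : ℝ) ≤ (N : ℝ) ^ (1 + κ) →
    ∀ s t : ℤ, (s = 1 ∨ s = -1) → (t = 1 ∨ t = -1) → (s = t → N = 2 * M) → (s ≠ t → N = M) →
      (q X ∣ M → -(s * t) ≠ σ X) →
      ∀ J K : ℝ, C * rt N ^ k ≤ J → C * Real.log N ^ k ≤ K →
        ∃ T ⊆ pat N s t, (N : ℝ) ≤ J * (T.card : ℝ) ∧
          ∀ a ∈ T, Fine N K a ∧ ∀ v : ℕ, (v ^ 2 ∣ a ∨ v ^ 2 ∣ N - a) → (v : ℝ) ≤ J := by
  obtain ⟨C0, hC0, k0, N0, κ, hκ, q, σ, hσ, hq, h0⟩ := stage3b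
  obtain ⟨C, hC, k, hk, h1⟩ := fine_of_pat hO C0 hC0 k0
  refine ⟨C, by linarith only [hC0, hC], k, N0 + 4, κ, hκ, q, σ, hσ, hq,
    fun X N M hN hNX hXN s t hs ht hs1 hs2 hqM J K hJ hK => ?_⟩
  exact h1 N (by omega) s t (h0 X N M (by omega) hNX hXN s t hs ht hs1 hs2 hqM) J K hJ hK

end Pool.Agent.H11.LQ

end
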